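import Pool.Agent.CIP.U0

set_option autoImplicit false

open MeasureTheory Pointwise Set Filter Topology

namespace Pool.CIP

variable {n : ℕ} {μ : Measure (E n)}

/-- the sign vector of a Boolean vector -/
def sg (ω : Fin n → Bool) (i : Fin n) : ℝ := if ω i then 1 else -1

lemma sg_or (ω : Fin n → Bool) (i : Fin n) : sg ω i = 1 ∨ sg ω i = -1 := by
  unfold sg
  split_ifs <;> simp

lemma sum_prod_bool (f : Fin n → Bool → ℝ) :
    ∑ ω : Fin n → Bool, ∏ i, f i (ω i) = ∏ i, ∑ b : Bool, f i b := by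
  rw [Finset.prod_univ_sum, Fintype.piFinset_univ]

/-- Hoeffding's inequality, counting form -/
lemma hoeff (b : Fin n → ℝ) {B s : ℝ} (hB : 0 ≤ B) (hs : 0 ≤ s) (hb : ∑ i, b i ^ 2 ≤ B ^ 2) :
    ((Finset.univ.filter fun ω : Fin n → Bool =>
      Real.sqrt (2 * s) * B < ∑ i, sg ω i * b i).card : ℝ) ≤ 2 ^ n * Real.exp (-s) := by
  rcases hB.eq_or_lt with hB0 | hBpos
  · have h0 : ∀ i, b i = 0 := by
      intro i
      have h1 : ∑ i, b i ^ 2 ≤ 0 := by rw [← hB0] at hb; simpa using hb
      have h2 : b i ^ 2 ≤ ∑ i, b i ^ 2 :=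
        Finset.single_le_sum (f := fun i => b i ^ 2) (fun j _ => sq_nonneg _) (Finset.mem_univ i)
      have h3 : b i ^ 2 ≤ 0 := h2.trans h1
      exact pow_eq_zero_iff (two_ne_zero) |>.1 (le_antisymm h3 (sq_nonneg _))
    have h1 : (Finset.univ.filter fun ω : Fin n → Bool =>
        Real.sqrt (2 * s) * B < ∑ i, sg ω i * b i) = ∅ := by
      rw [Finset.filter_eq_empty_iff]
      intro ω _
      simp [h0, ← hB0]
    rw [h1]
    simp only [Finset.card_empty, Nat.cast_zero]
    positivity
  · set lam : ℝ := Real.sqrt (2 * s) / B with hlam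
    have hlam0 : 0 ≤ lam := by positivity
    have hsq : Real.sqrt (2 * s) ^ 2 = 2 * s := Real.sq_sqrt (by linarith)
    have h1 : ∀ ω : Fin n → Bool, (if Real.sqrt (2 * s) * B < ∑ i, sg ω i * b i then (1:ℝ) else 0)
        ≤ Real.exp (-(2 * s)) * Real.exp (lam * ∑ i, sg ω i * b i) := by
      intro ω
      split_ifs with h
      · rw [← Real.exp_add]
        rw [← Real.exp_zero]
        refine Real.exp_le_exp.2 ?_
        have h2 : lam * (Real.sqrt (2 * s) * B) ≤ lam * ∑ i, sg ω i * b i :=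
          mul_le_mul_of_nonneg_left h.le hlam0
        have h3 : lam * (Real.sqrt (2 * s) * B) = 2 * s := by
          rw [hlam]
          field_simp
          rw [hsq]
        linarith
      · positivity
    have h2 : ((Finset.univ.filter fun ω : Fin n → Bool =>
        Real.sqrt (2 * s) * B < ∑ i, sg ω i * b i).card : ℝ) =
        ∑ ω : Fin n → Bool, (if Real.sqrt (2 * s) * B < ∑ i, sg ω i * b i then (1:ℝ) else 0) := by
      rw [Finset.sum_ite]
      simp
    rw [h2]
    refine (Finset.sum_le_sum fun ω _ => h1 ω).trans ?_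
    rw [← Finset.mul_sum]
    have h3 : ∑ ω : Fin n → Bool, Real.exp (lam * ∑ i, sg ω i * b i) =
        ∏ i, (2 * Real.cosh (lam * b i)) := by
      have h4 : ∀ ω : Fin n → Bool, Real.exp (lam * ∑ i, sg ω i * b i) =
          ∏ i, Real.exp ((if ω i then (1:ℝ) else -1) * (lam * b i)) := by
        intro ω
        rw [← Real.exp_sum, Finset.mul_sum]
        congr 1
        refine Finset.sum_congr rfl fun i _ => ?_
        unfold sg
        ring
      rw [Finset.sum_congr rfl fun ω _ => h4 ω,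
        sum_prod_bool (fun i t => Real.exp ((if t then (1:ℝ) else -1) * (lam * b i)))]
      refine Finset.prod_congr rfl fun i _ => ?_
      rw [Fintype.sum_bool, Real.cosh_eq]
      simp only [if_true, Bool.false_eq_true, if_false, one_mul, neg_mul]
      ring
    rw [h3]
    have h5 : ∏ i, (2 * Real.cosh (lam * b i)) ≤ ∏ i, (2 * Real.exp ((lam * b i) ^ 2 / 2)) := by
      refine Finset.prod_le_prod (fun i _ => by positivity) fun i _ => ?_
      exact mul_le_mul_of_nonneg_left (Real.cosh_le_exp_half_sq _) (by norm_num)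
    have h6 : ∏ i, (2 * Real.exp ((lam * b i) ^ 2 / 2)) =
        2 ^ n * Real.exp (lam ^ 2 / 2 * ∑ i, b i ^ 2) := by
      rw [Finset.prod_mul_distrib, ← Real.exp_sum]
      simp only [Finset.prod_const, Finset.card_univ, Fintype.card_fin]
      congr 2
      rw [Finset.mul_sum]
      refine Finset.sum_congr rfl fun i _ => ?_
      ring
    have h7 : lam ^ 2 / 2 * ∑ i, b i ^ 2 ≤ s := by
      have h8 : lam ^ 2 / 2 * ∑ i, b i ^ 2 ≤ lam ^ 2 / 2 * B ^ 2 :=
        mul_le_mul_of_nonneg_left hb (by positivity)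
      have h9 : lam ^ 2 / 2 * B ^ 2 = s := by
        rw [hlam, div_pow, hsq]
        field_simp
      linarith
    calc Real.exp (-(2 * s)) * ∏ i, (2 * Real.cosh (lam * b i))
        ≤ Real.exp (-(2 * s)) * (2 ^ n * Real.exp s) := by
          refine mul_le_mul_of_nonneg_left ?_ (Real.exp_pos _).le
          refine h5.trans ?_
          rw [h6]
          exact mul_le_mul_of_nonneg_left (Real.exp_le_exp.2 h7) (by positivity)
      _ = 2 ^ n * (Real.exp (-(2 * s)) * Real.exp s) := by ring
      _ = 2 ^ n * Real.exp (-s) := by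
          rw [← Real.exp_add]
          congr 2
          ring

lemma exists_xi {x b γ : ℝ} (hb : 0 ≤ b) (hγ : 0 ≤ γ) (h : |x| ≤ b + γ) :
    ∃ ξ : ℝ, |ξ| ≤ 1 ∧ |x - ξ * b| ≤ γ := by
  rcases hb.eq_or_lt with hb0 | hbpos
  · refine ⟨0, by simp, ?_⟩
    rw [← hb0] at h
    simpa using h
  · by_cases hx : |x| ≤ b
    · refine ⟨x / b, ?_, ?_⟩
      · rw [abs_div, abs_of_pos hbpos, div_le_one hbpos]
        exact hx
      · rw [div_mul_cancel₀ _ hbpos.ne', sub_self, abs_zero]
        exact hγ
    · push Not at hx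
      rcases le_or_gt 0 x with h0 | h0
      · refine ⟨1, by simp, ?_⟩
        rw [abs_of_nonneg h0] at h hx
        rw [one_mul, abs_of_pos (by linarith)]
        linarith
      · refine ⟨-1, by simp, ?_⟩
        rw [abs_of_neg h0] at h hx
        rw [abs_of_neg (by linarith)]
        linarith

/-- (U3) tails of a linear functional on an invariant set whose points are small in the
coordinate sense, by averaging over the signs -/
theorem u3 [IsProbabilityMeasure μ] (hunc : Uncond μ) {M : Set (E n)} (hM : MeasurableSet M)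
    (hMinv : ∀ σ : Fin n → ℝ, (∀ i, σ i = 1 ∨ σ i = -1) → ∀ x ∈ M, flp σ x ∈ M)
    {Lam L c : ℝ} (hLam : 0 ≤ Lam) {m : Fin n → ℝ} (hm0 : ∀ i, 0 ≤ m i)
    (hdec : ∀ x ∈ M, ∃ g ∈ G μ L c, ∀ i, |x i| ≤ Lam * m i + |g i|)
    (v : E n) {a a' : Fin n → ℝ} (ha : ∀ i, v i * m i = a i + a' i) {s : ℝ} (hs : 0 ≤ s) :
    μ.real (M ∩ {x | Lam * (∑ i, |a i| + Real.sqrt (2 * s) * Real.sqrt (∑ i, (a' i) ^ 2)) +
      c * hm μ L v < inner ℝ v x}) ≤ Real.exp (-s) := by
  classical
  set B : ℝ := Real.sqrt (∑ i, (a' i) ^ 2) with hB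
  have hB0 : 0 ≤ B := Real.sqrt_nonneg _
  have hBsq : B ^ 2 = ∑ i, (a' i) ^ 2 := Real.sq_sqrt (Finset.sum_nonneg fun i _ => sq_nonneg _)
  set T : ℝ := Lam * (∑ i, |a i| + Real.sqrt (2 * s) * B) + c * hm μ L v with hT
  set S : Set (E n) := M ∩ {x | T < inner ℝ v x} with hS
  have hSm : MeasurableSet S := hM.inter (measurableSet_lt measurable_const (by fun_prop))
  -- the pointwise bound
  have hpt : ∀ x ∈ M, ((Finset.univ.filter fun ω : Fin n → Bool =>
      T < inner ℝ v (flp (sg ω) x)).card : ℝ) ≤ 2 ^ n * Real.exp (-s) := by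
    intro x hx
    obtain ⟨g, hg, hgx⟩ := hdec x hx
    have hxi : ∀ i, ∃ ξ : ℝ, |ξ| ≤ 1 ∧ |x i - ξ * (Lam * m i)| ≤ |g i| := fun i =>
      exists_xi (mul_nonneg hLam (hm0 i)) (abs_nonneg _) (hgx i)
    choose ξ hξ1 hξ2 using hxi
    set b : Fin n → ℝ := fun i => ξ i * a' i with hbdef
    have hbb : ∑ i, b i ^ 2 ≤ B ^ 2 := by
      rw [hBsq]
      refine Finset.sum_le_sum fun i _ => ?_
      rw [hbdef]
      simp only [mul_pow]
      have h1 : ξ i ^ 2 ≤ 1 := by
        have := abs_le.1 (hξ1 i)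
        nlinarith
      nlinarith [sq_nonneg (a' i)]
    refine le_trans ?_ (hoeff b hB0 hs hbb)
    refine Nat.cast_le.2 (Finset.card_le_card ?_)
    intro ω hω
    simp only [Finset.mem_filter, Finset.mem_univ, true_and] at hω ⊢
    have h1 : inner ℝ v (flp (sg ω) x) ≤ Lam * ∑ i, |a i| + Lam * ∑ i, sg ω i * b i +
        c * hm μ L v := by
      rw [inner_eq_sum']
      have h2 : ∀ i, v i * flp (sg ω) x i ≤ Lam * |a i| + Lam * (sg ω i * b i) + |v i * g i| := by
        intro i
        rw [flp_apply]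
        have e : v i * (sg ω i * x i) = Lam * (sg ω i * ξ i * a i) + Lam * (sg ω i * b i) +
            v i * sg ω i * (x i - ξ i * (Lam * m i)) := by
          have := ha i
          rw [hbdef]
          simp only
          linear_combination (sg ω i * ξ i * Lam) * this
        rw [e]
        have hsg : |sg ω i| = 1 := by
          rcases sg_or ω i with h | h <;> simp [h]
        have h3 : sg ω i * ξ i * a i ≤ |a i| := by
          refine (le_abs_self _).trans ?_
          rw [abs_mul, abs_mul, hsg, one_mul]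
          exact mul_le_of_le_one_left (abs_nonneg _) (hξ1 i)
        have h4 : v i * sg ω i * (x i - ξ i * (Lam * m i)) ≤ |v i * g i| := by
          refine (le_abs_self _).trans ?_
          rw [abs_mul, abs_mul, hsg, mul_one, abs_mul]
          exact mul_le_mul_of_nonneg_left (hξ2 i) (abs_nonneg _)
        have h5 : Lam * (sg ω i * ξ i * a i) ≤ Lam * |a i| := mul_le_mul_of_nonneg_left h3 hLam
        linarith
      refine (Finset.sum_le_sum fun i _ => h2 i).trans ?_
      rw [Finset.sum_add_distrib, Finset.sum_add_distrib, ← Finset.mul_sum, ← Finset.mul_sum]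
      have h6 := hunc.sum_abs_le hg v
      linarith
    have h7 : T < Lam * ∑ i, |a i| + Lam * ∑ i, sg ω i * b i + c * hm μ L v := lt_of_lt_of_le hω h1
    rw [hT] at h7
    have h8 : Lam * (Real.sqrt (2 * s) * B) < Lam * ∑ i, sg ω i * b i := by linarith
    exact lt_of_mul_lt_mul_left h8 hLam
  -- average
  have havg : (2:ℝ) ^ n * μ.real S = ∑ ω : Fin n → Bool, μ.real (flp (sg ω) ⁻¹' S) := by
    rw [Finset.sum_congr rfl fun ω _ => hunc.real_preimage (sg_or ω) hSm]
    simp
  have hpre : ∀ ω : Fin n → Bool, flp (sg ω) ⁻¹' S =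
      M ∩ {x | T < inner ℝ v (flp (sg ω) x)} := by
    intro ω
    ext x
    simp only [hS, mem_preimage, mem_inter_iff, mem_ofPred_eq]
    refine and_congr_left fun _ => ⟨fun h => ?_, fun h => hMinv _ (sg_or ω) x h⟩
    have := hMinv _ (sg_or ω) _ h
    rwa [flp_flp (sg_or ω)] at this
  have hmeas : ∀ ω : Fin n → Bool, MeasurableSet (M ∩ {x | T < inner ℝ v (flp (sg ω) x)}) := by
    intro ω
    rw [← hpre ω]
    exact measurable_flp _ hSm
  have hint : ∑ ω : Fin n → Bool, μ.real (flp (sg ω) ⁻¹' S) =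
      ∫ x, ∑ ω : Fin n → Bool, (M ∩ {x | T < inner ℝ v (flp (sg ω) x)}).indicator
        (fun _ => (1:ℝ)) x ∂μ := by
    rw [integral_finsetSum _ fun ω _ => (integrable_const (1:ℝ)).indicator (hmeas ω)]
    refine Finset.sum_congr rfl fun ω _ => ?_
    rw [hpre ω, integral_indicator (hmeas ω)]
    simp
  have hle : ∫ x, ∑ ω : Fin n → Bool, (M ∩ {x | T < inner ℝ v (flp (sg ω) x)}).indicator
        (fun _ => (1:ℝ)) x ∂μ ≤ ∫ _x, 2 ^ n * Real.exp (-s) ∂μ := by
    refine integral_mono (integrable_finsetSum _ fun ω _ =>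
      (integrable_const (1:ℝ)).indicator (hmeas ω)) (integrable_const _) fun x => ?_
    simp only
    by_cases hx : x ∈ M
    · refine le_trans (le_of_eq ?_) (hpt x hx)
      rw [Finset.card_filter]
      push_cast
      refine Finset.sum_congr rfl fun ω _ => ?_
      by_cases h : T < inner ℝ v (flp (sg ω) x)
      · rw [indicator_of_mem (show x ∈ M ∩ {x | T < inner ℝ v (flp (sg ω) x)} from ⟨hx, h⟩)]
        simp [h]
      · rw [indicator_of_notMem (fun hh => h hh.2)]
        simp [h]
    · refine le_trans (le_of_eq ?_) (show (0:ℝ) ≤ 2 ^ n * Real.exp (-s) by positivity)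
      refine Finset.sum_eq_zero fun ω _ => ?_
      exact indicator_of_notMem (fun hh => hx hh.1) _
  rw [← hint, ← havg] at hle
  simp only [integral_const, probReal_univ, smul_eq_mul, one_mul] at hle
  have h2n : (0:ℝ) < 2 ^ n := by positivity
  exact le_of_mul_le_mul_left hle h2n

end Pool.CIP
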