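import Pool.Agent.CIP.UC
import Pool.Agent.CIP.UB

set_option autoImplicit false

open MeasureTheory Pointwise Set Filter Topology

namespace Pool.CIP

variable {n : ℕ} {μ : Measure (E n)}

lemma sg_sq (ω : Fin n → Bool) (i : Fin n) : sg ω i * sg ω i = 1 := by
  rcases sg_or ω i with h | h <;> rw [h] <;> norm_num

lemma abs_sg (ω : Fin n → Bool) (i : Fin n) : |sg ω i| = 1 := by
  rcases sg_or ω i with h | h <;> rw [h] <;> norm_num

/-- the density of the sign vector tilted by y -/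
noncomputable def tw (y : Fin n → ℝ) (ω : Fin n → Bool) : ℝ := ∏ i, (1 + sg ω i * y i)

lemma tw_nonneg {y : Fin n → ℝ} (hy : ∀ i, |y i| ≤ 1) (ω : Fin n → Bool) : 0 ≤ tw y ω := by
  refine Finset.prod_nonneg fun i _ => ?_
  have h1 : |sg ω i * y i| ≤ 1 := by rw [abs_mul, abs_sg, one_mul]; exact hy i
  have := (abs_le.1 h1).1
  linarith

lemma sum_tw (y : Fin n → ℝ) : ∑ ω : Fin n → Bool, tw y ω = 2 ^ n := by
  unfold tw
  have h := sum_prod_bool (fun (i : Fin n) (b : Bool) => 1 + (if b then (1:ℝ) else -1) * y i)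
  have h2 : ∀ ω : Fin n → Bool, ∏ i, (1 + sg ω i * y i) =
      ∏ i, (1 + (if ω i then (1:ℝ) else -1) * y i) := fun ω => rfl
  simp only [h2]
  rw [h]
  have h3 : ∀ i : Fin n, ∑ b : Bool, (1 + (if b then (1:ℝ) else -1) * y i) = 2 := by
    intro i
    rw [Fintype.sum_bool]
    simp
    ring
  simp only [h3]
  simp

lemma sum_tw_sq (y : Fin n → ℝ) :
    ∑ ω : Fin n → Bool, tw y ω ^ 2 = 2 ^ n * ∏ i, (1 + y i ^ 2) := by
  unfold tw
  have h := sum_prod_bool (fun (i : Fin n) (b : Bool) => (1 + (if b then (1:ℝ) else -1) * y i) ^ 2)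
  have h2 : ∀ ω : Fin n → Bool, (∏ i, (1 + sg ω i * y i)) ^ 2 =
      ∏ i, (1 + (if ω i then (1:ℝ) else -1) * y i) ^ 2 := by
    intro ω
    rw [← Finset.prod_pow]
    rfl
  simp only [h2]
  rw [h]
  have h3 : ∀ i : Fin n, ∑ b : Bool, (1 + (if b then (1:ℝ) else -1) * y i) ^ 2 =
      2 * (1 + y i ^ 2) := by
    intro i
    rw [Fintype.sum_bool]
    simp
    ring
  simp only [h3]
  rw [Finset.prod_mul_distrib]
  simp

/-- the first moments of the tilted sign vector -/
lemma sum_tw_mul (y : Fin n → ℝ) (j : Fin n) :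
    ∑ ω : Fin n → Bool, tw y ω * sg ω j = 2 ^ n * y j := by
  unfold tw
  have h := sum_prod_bool (fun (i : Fin n) (b : Bool) =>
    (1 + (if b then (1:ℝ) else -1) * y i) * (if i = j then (if b then (1:ℝ) else -1) else 1))
  have h2 : ∀ ω : Fin n → Bool, (∏ i, (1 + sg ω i * y i)) * sg ω j =
      ∏ i, ((1 + (if ω i then (1:ℝ) else -1) * y i) *
        (if i = j then (if ω i then (1:ℝ) else -1) else 1)) := by
    intro ω
    rw [Finset.prod_mul_distrib]
    congr 1
    rw [Finset.prod_ite_eq' Finset.univ j]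
    simp [sg]
  simp only [h2]
  rw [h]
  have h3 : ∀ i : Fin n, ∑ b : Bool, ((1 + (if b then (1:ℝ) else -1) * y i) *
        (if i = j then (if b then (1:ℝ) else -1) else 1)) = 2 * (if i = j then y i else 1) := by
    intro i
    rw [Fintype.sum_bool]
    by_cases hij : i = j
    · simp [hij]; ring
    · simp [hij]; ring
  simp only [h3]
  rw [Finset.prod_mul_distrib, Finset.prod_ite_eq' Finset.univ j]
  simp

/-- (U1) a point of the cube with Euclidean norm at most sqrt q is seen by random signs -/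
lemma u1 {q : ℝ} (hq : 2 ≤ q) (a y : Fin n → ℝ) (hy : ∀ i, |y i| ≤ 1) (hy2 : ∑ i, y i ^ 2 ≤ q) :
    |∑ i, a i * y i| ^ q ≤
      Real.exp q * ((2 ^ n)⁻¹ * ∑ ω : Fin n → Bool, |∑ i, sg ω i * a i| ^ q) := by
  have hN : (0:ℝ) < 2 ^ n := by positivity
  set w : (Fin n → Bool) → ℝ := fun ω => (2 ^ n)⁻¹ * tw y ω with hw
  set f : (Fin n → Bool) → ℝ := fun ω => |∑ i, sg ω i * a i| with hf
  have hw0 : ∀ ω, 0 ≤ w ω := fun ω => mul_nonneg (by positivity) (tw_nonneg hy ω)
  have hw1 : ∑ ω, w ω = 1 := by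
    rw [hw, ← Finset.mul_sum, sum_tw]
    field_simp
  have h1 : |∑ i, a i * y i| ≤ ∑ ω, w ω * f ω := by
    have h2 : ∑ i, a i * y i = ∑ ω, w ω * ∑ i, sg ω i * a i := by
      have h3 : ∀ ω, w ω * ∑ i, sg ω i * a i = ∑ i, (2 ^ n)⁻¹ * a i * (tw y ω * sg ω i) := by
        intro ω
        rw [Finset.mul_sum]
        refine Finset.sum_congr rfl fun i _ => ?_
        simp only [hw]
        ring
      simp only [h3]
      rw [Finset.sum_comm]
      refine Finset.sum_congr rfl fun i _ => ?_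
      rw [← Finset.mul_sum, sum_tw_mul]
      field_simp
    rw [h2]
    refine (Finset.abs_sum_le_sum_abs _ _).trans (le_of_eq ?_)
    refine Finset.sum_congr rfl fun ω _ => ?_
    rw [abs_mul, abs_of_nonneg (hw0 ω)]
  set A := ∑ ω, w ω * f ω with hA
  have hA0 : 0 ≤ A := Finset.sum_nonneg fun ω _ => mul_nonneg (hw0 ω) (abs_nonneg _)
  have h2 : A ^ (q / 2) ≤ ∑ ω, w ω * f ω ^ (q / 2) :=
    Real.rpow_arith_mean_le_arith_mean_rpow Finset.univ w f (fun ω _ => hw0 ω) hw1
      (fun ω _ => abs_nonneg _) (by linarith)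
  have h3 : (∑ ω, w ω * f ω ^ (q / 2)) ^ 2 ≤ (∑ ω, w ω ^ 2) * ∑ ω, (f ω ^ (q / 2)) ^ 2 :=
    Finset.sum_mul_sq_le_sq_mul_sq _ _ _
  have h4 : ∀ ω, (f ω ^ (q / 2)) ^ 2 = f ω ^ q := by
    intro ω
    rw [← Real.rpow_natCast, ← Real.rpow_mul (abs_nonneg _)]
    congr 1
    push_cast
    ring
  have h5 : A ^ q = (A ^ (q / 2)) ^ 2 := by
    rw [← Real.rpow_natCast, ← Real.rpow_mul hA0]
    congr 1
    push_cast
    ring
  have h6 : ∑ ω, w ω ^ 2 ≤ (2 ^ n)⁻¹ * Real.exp q := by
    have h7 : ∑ ω, w ω ^ 2 = (2 ^ n)⁻¹ * ∏ i, (1 + y i ^ 2) := by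
      have : ∀ ω, w ω ^ 2 = (2 ^ n)⁻¹ * (2 ^ n)⁻¹ * tw y ω ^ 2 := by
        intro ω
        simp only [hw]
        ring
      simp only [this]
      rw [← Finset.mul_sum, sum_tw_sq]
      field_simp
    rw [h7]
    refine mul_le_mul_of_nonneg_left ?_ (by positivity)
    calc ∏ i, (1 + y i ^ 2) ≤ ∏ i, Real.exp (y i ^ 2) :=
          Finset.prod_le_prod (fun i _ => by positivity)
            (fun i _ => by have := Real.add_one_le_exp (y i ^ 2); linarith)
      _ = Real.exp (∑ i, y i ^ 2) := (Real.exp_sum _ _).symm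
      _ ≤ Real.exp q := Real.exp_le_exp.2 hy2
  calc |∑ i, a i * y i| ^ q ≤ A ^ q := Real.rpow_le_rpow (abs_nonneg _) h1 (by linarith)
    _ = (A ^ (q / 2)) ^ 2 := h5
    _ ≤ (∑ ω, w ω * f ω ^ (q / 2)) ^ 2 :=
        pow_le_pow_left₀ (Real.rpow_nonneg hA0 _) h2 2
    _ ≤ (∑ ω, w ω ^ 2) * ∑ ω, (f ω ^ (q / 2)) ^ 2 := h3
    _ ≤ ((2 ^ n)⁻¹ * Real.exp q) * ∑ ω, f ω ^ q := by
        simp only [h4]
        exact mul_le_mul_of_nonneg_right h6
          (Finset.sum_nonneg fun ω _ => Real.rpow_nonneg (abs_nonneg _) _)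
    _ = Real.exp q * ((2 ^ n)⁻¹ * ∑ ω : Fin n → Bool, |∑ i, sg ω i * a i| ^ q) := by
        simp only [hf]
        ring

/-- replacing coefficients by their absolute values does not change a sign average -/
lemma sum_signs_abs (v x : Fin n → ℝ) (q : ℝ) :
    ∑ ω : Fin n → Bool, |∑ i, sg ω i * (v i * |x i|)| ^ q =
      ∑ ω : Fin n → Bool, |∑ i, v i * (sg ω i * x i)| ^ q := by
  classical
  set e : (Fin n → Bool) ≃ (Fin n → Bool) :=
    { toFun := fun ω i => if 0 ≤ x i then ω i else !ω i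
      invFun := fun ω i => if 0 ≤ x i then ω i else !ω i
      left_inv := by intro ω; funext i; by_cases h : 0 ≤ x i <;> simp [h]
      right_inv := by intro ω; funext i; by_cases h : 0 ≤ x i <;> simp [h] } with he
  refine Fintype.sum_equiv e _ _ fun ω => ?_
  congr 2
  refine Finset.sum_congr rfl fun i _ => ?_
  by_cases h : 0 ≤ x i
  · have : e ω i = ω i := by simp [he, h]
    simp only [sg, this, abs_of_nonneg h]
    ring
  · have h' : e ω i = !ω i := by simp [he, h]
    simp only [sg, h', abs_of_neg (not_le.1 h)]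
    cases ω i <;> simp

/-- (U2) -/
theorem u2 [IsProbabilityMeasure μ] (hunc : Uncond μ)
    (hfin : ∀ q : ℝ, 0 < q → ∀ v : E n, mq μ q v < ⊤) {q : ℝ} (hq : 2 ≤ q)
    {y : Fin n → ℝ} (hy : ∀ i, |y i| ≤ 1) (hy2 : ∑ i, y i ^ 2 ≤ q) :
    (WithLp.toLp 2 (fun i => y i * ma μ i) : E n) ∈ G μ q (Real.exp 1) := by
  intro v
  have hq0 : 0 < q := by linarith
  have hN : (0:ℝ) < 2 ^ n := by positivity
  have hint1 : ∀ i : Fin n, Integrable (fun x : E n => |x i|) μ := by
    intro i
    have := integrable_mom hfin one_pos (EuclideanSpace.single i (1:ℝ))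
    refine this.congr (Eventually.of_forall fun x => ?_)
    simp only [Real.rpow_one, EuclideanSpace.inner_single_left]
    simp
  have hintv : Integrable (fun x : E n => |inner ℝ v x| ^ q) μ := integrable_mom hfin hq0 v
  have hintω : ∀ ω : Fin n → Bool, Integrable (fun x : E n => |∑ i, v i * (sg ω i * x i)| ^ q) μ := by
    intro ω
    have := integrable_mom hfin hq0 (flp (sg ω) v)
    refine this.congr (Eventually.of_forall fun x => ?_)
    simp only
    congr 2
    rw [inner_eq_sum']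
    refine Finset.sum_congr rfl fun i _ => ?_
    rw [flp_apply]
    ring
  set F : E n → ℝ := fun x => |∑ i, (v i * |x i|) * y i| with hF
  have hFq : ∀ x, F x ^ q ≤ Real.exp q * ((2 ^ n)⁻¹ *
      ∑ ω : Fin n → Bool, |∑ i, v i * (sg ω i * x i)| ^ q) := by
    intro x
    have h := u1 hq (fun i => v i * |x i|) y hy hy2
    rw [sum_signs_abs (fun i => v i) (fun i => x i) q] at h
    exact h
  have hintR : Integrable (fun x : E n => Real.exp q * ((2 ^ n)⁻¹ *
      ∑ ω : Fin n → Bool, |∑ i, v i * (sg ω i * x i)| ^ q)) μ :=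
    ((integrable_finsetSum _ fun ω _ => hintω ω).const_mul _).const_mul _
  have hFm : Measurable F := by
    simp only [hF]
    fun_prop
  have hF0 : ∀ x, 0 ≤ F x := fun x => abs_nonneg _
  have hintF : Integrable (fun x => F x ^ q) μ := by
    refine hintR.mono (hFm.pow_const q).aestronglyMeasurable (Eventually.of_forall fun x => ?_)
    rw [Real.norm_of_nonneg (Real.rpow_nonneg (hF0 x) _)]
    exact (hFq x).trans (le_abs_self _)
  have hintF1 : Integrable F μ := by
    have : Integrable (fun x : E n => ∑ i, (v i * |x i|) * y i) μ :=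
      integrable_finsetSum _ fun i _ => ((hint1 i).const_mul _).mul_const _
    exact this.abs
  -- the two sides
  have hA : |inner ℝ v (WithLp.toLp 2 (fun i => y i * ma μ i) : E n)| ≤ ∫ x, F x ∂μ := by
    have h1 : inner ℝ v (WithLp.toLp 2 (fun i => y i * ma μ i) : E n) =
        ∫ x, ∑ i, (v i * |x i|) * y i ∂μ := by
      rw [integral_finsetSum _ fun i _ => ((hint1 i).const_mul _).mul_const _, inner_eq_sum']
      refine Finset.sum_congr rfl fun i _ => ?_
      rw [integral_mul_const, integral_const_mul]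
      simp only [ma]
      ring
    rw [h1]
    exact abs_integral_le_integral_abs
  have hB : (∫ x, F x ∂μ) ^ q ≤ ∫ x, F x ^ q ∂μ := by
    have hconv : ConvexOn ℝ (Ici (0:ℝ)) (fun t : ℝ => t ^ q) := convexOn_rpow (by linarith)
    exact hconv.map_integral_le (Real.continuous_rpow_const hq0.le).continuousOn isClosed_Ici
      (Eventually.of_forall fun x => hF0 x) hintF1 hintF
  have hC : ∫ x, F x ^ q ∂μ ≤ Real.exp q * ∫ x, |inner ℝ v x| ^ q ∂μ := by
    refine (integral_mono hintF hintR hFq).trans (le_of_eq ?_)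
    rw [integral_const_mul, integral_const_mul, integral_finsetSum _ fun ω _ => hintω ω]
    have h1 : ∀ ω : Fin n → Bool, ∫ x, |∑ i, v i * (sg ω i * x i)| ^ q ∂μ =
        ∫ x, |inner ℝ v x| ^ q ∂μ := by
      intro ω
      have h2 := hunc.integral_flp (sg_or ω) (f := fun x : E n => |inner ℝ v x| ^ q) (by fun_prop)
      rw [← h2]
      refine integral_congr_ae (Eventually.of_forall fun x => ?_)
      simp only
      congr 2
      rw [inner_eq_sum']
      rfl
    simp only [h1]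
    rw [Finset.sum_const, Finset.card_univ]
    simp only [Fintype.card_pi, Fintype.card_bool, Finset.prod_const, Finset.card_univ,
      Fintype.card_fin, nsmul_eq_mul, Nat.cast_pow, Nat.cast_ofNat]
    field_simp
  have hD : |inner ℝ v (WithLp.toLp 2 (fun i => y i * ma μ i) : E n)| ^ q ≤
      (Real.exp 1 * hm μ q v) ^ q := by
    have hI0 : 0 ≤ ∫ x, |inner ℝ v x| ^ q ∂μ := integral_nonneg fun x => by positivity
    rw [Real.mul_rpow (Real.exp_pos _).le (hm_nonneg q v)]
    unfold hm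
    rw [← Real.rpow_mul hI0, one_div, inv_mul_cancel₀ hq0.ne', Real.rpow_one, ← Real.exp_mul,
      one_mul]
    calc _ ≤ (∫ x, F x ∂μ) ^ q := Real.rpow_le_rpow (abs_nonneg _) hA hq0.le
      _ ≤ _ := hB
      _ ≤ _ := hC
  exact (Real.rpow_le_rpow_iff (abs_nonneg _) (mul_nonneg (Real.exp_pos _).le (hm_nonneg q v))
    hq0).1 hD

end Pool.CIP
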