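import Pool.Agent.CIP.D

set_option autoImplicit false

open MeasureTheory Pointwise Set Filter Topology

namespace Pool.CIP

variable {n : ℕ} {μ : Measure (E n)}

lemma tendsto_ball (S : Set (E n)) :
    Tendsto (fun k : ℕ => μ (S ∩ Metric.closedBall 0 k)) atTop (𝓝 (μ S)) := by
  have h := tendsto_measure_iUnion_atTop (μ := μ)
    (s := fun k : ℕ => S ∩ Metric.closedBall (0 : E n) k) (by
      intro a b hab
      exact inter_subset_inter_right _ (Metric.closedBall_subset_closedBall (by exact_mod_cast hab)))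
  have hu : (⋃ k : ℕ, S ∩ Metric.closedBall (0 : E n) k) = S := by
    rw [← inter_iUnion, Metric.iUnion_closedBall_nat, inter_univ]
  rw [hu] at h
  exact h

lemma LC.closed [IsProbabilityMeasure μ] (h : LC μ) {S T U : Set (E n)}
    (hS : IsClosed S) (hT : IsClosed T) {t : ℝ} (ht0 : 0 < t) (ht1 : t < 1)
    (hU : ∀ x ∈ S, ∀ y ∈ T, t • x + (1 - t) • y ∈ U) : μ S ^ t * μ T ^ (1 - t) ≤ μ U := by
  have h1 : Tendsto (fun k : ℕ => μ (S ∩ Metric.closedBall 0 k) ^ t) atTop (𝓝 (μ S ^ t)) :=
    (tendsto_ball S).ennrpow_const t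
  have h2 : Tendsto (fun k : ℕ => μ (T ∩ Metric.closedBall 0 k) ^ (1 - t)) atTop
      (𝓝 (μ T ^ (1 - t))) := (tendsto_ball T).ennrpow_const (1 - t)
  have h3 := ENNReal.Tendsto.mul h1 (Or.inr (ENNReal.rpow_ne_top_of_nonneg (by linarith)
    (measure_ne_top μ T))) h2 (Or.inr (ENNReal.rpow_ne_top_of_nonneg ht0.le
    (measure_ne_top μ S)))
  refine le_of_tendsto' h3 (fun k => ?_)
  rcases (S ∩ Metric.closedBall 0 (k : ℝ)).eq_empty_or_nonempty with he | hne
  · rw [he, measure_empty, ENNReal.zero_rpow_of_pos ht0, zero_mul]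
    exact zero_le
  rcases (T ∩ Metric.closedBall 0 (k : ℝ)).eq_empty_or_nonempty with he | hne'
  · rw [he, measure_empty, ENNReal.zero_rpow_of_pos (by linarith : (0:ℝ) < 1 - t), mul_zero]
    exact zero_le
  have hcS : IsCompact (S ∩ Metric.closedBall 0 (k : ℝ)) :=
    (isCompact_closedBall _ _).inter_left hS
  have hcT : IsCompact (T ∩ Metric.closedBall 0 (k : ℝ)) :=
    (isCompact_closedBall _ _).inter_left hT
  refine (h _ _ hcS hne hcT hne' t ht0.le ht1.le).trans (measure_mono ?_)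
  rintro _ ⟨_, ⟨x, hx, rfl⟩, _, ⟨y, hy, rfl⟩, rfl⟩
  exact hU x hx.1 y hy.1

/-- the set where the linear functional is at least t in absolute value -/
def sl (v : E n) (t : ℝ) : Set (E n) := {x | t ≤ |inner ℝ v x|}

lemma isClosed_sl (v : E n) (t : ℝ) : IsClosed (sl v t) :=
  isClosed_le continuous_const (continuous_abs.comp (by fun_prop))

def hs (v : E n) (t : ℝ) : Set (E n) := {x | t ≤ inner ℝ v x}

lemma isClosed_hs (v : E n) (t : ℝ) : IsClosed (hs v t) :=
  isClosed_le continuous_const (by fun_prop)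

lemma measure_neg (hsym : μ.map (fun x => -x) = μ) (S : Set (E n)) (hS : MeasurableSet S) :
    μ {x | -x ∈ S} = μ S := by
  conv_rhs => rw [← hsym]
  rw [Measure.map_apply measurable_neg hS]
  rfl

lemma sl_eq_two_hs (hsym : μ.map (fun x => -x) = μ) (v : E n) {t : ℝ} (ht : 0 < t) :
    μ (sl v t) = 2 * μ (hs v t) := by
  have h1 : sl v t = hs v t ∪ {x | -x ∈ hs v t} := by
    ext x
    simp only [sl, hs, mem_ofPred_eq, mem_union, inner_neg_right, le_abs]
  rw [h1, measure_union, measure_neg hsym _ (isClosed_hs v t).measurableSet, two_mul]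
  · rw [Set.disjoint_left]
    intro x hx hx'
    simp only [hs, mem_ofPred_eq, inner_neg_right] at hx hx'
    linarith
  · exact (isClosed_hs v t).measurableSet.preimage measurable_neg

lemma half_le_hs_zero [IsProbabilityMeasure μ] (hsym : μ.map (fun x => -x) = μ) (v : E n) :
    2⁻¹ ≤ μ (hs v 0) := by
  have h1 : (univ : Set (E n)) ⊆ hs v 0 ∪ {x | -x ∈ hs v 0} := by
    intro x _
    simp only [hs, mem_ofPred_eq, mem_union, inner_neg_right]
    rcases le_total 0 (inner ℝ v x) with h | h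
    · exact Or.inl h
    · exact Or.inr (by linarith)
  have h2 : 1 ≤ 2 * μ (hs v 0) := by
    calc (1 : ENNReal) = μ univ := (measure_univ).symm
      _ ≤ μ (hs v 0 ∪ {x | -x ∈ hs v 0}) := measure_mono h1
      _ ≤ μ (hs v 0) + μ {x | -x ∈ hs v 0} := measure_union_le _ _
      _ = 2 * μ (hs v 0) := by
        rw [measure_neg hsym _ (isClosed_hs v 0).measurableSet, two_mul]
  rw [ENNReal.inv_le_iff_le_mul (by simp) (by simp)]
  exact h2

/-- Borell: the tail of a marginal decays geometrically -/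
lemma tail_pow [IsProbabilityMeasure μ] (hsym : μ.map (fun x => -x) = μ) (hlc : LC μ)
    (v : E n) {a r : ℝ} (ha : 0 < a) (hr : 1 ≤ r) :
    μ.real (sl v (r * a)) ≤ μ.real (sl v a) ^ r := by
  rcases hr.eq_or_lt with h1 | h1
  · rw [← h1, one_mul, Real.rpow_one]
  have hr0 : 0 < r := by linarith
  have ht0 : 0 < 1 / r := by positivity
  have ht1 : 1 / r < 1 := by rw [div_lt_one hr0]; exact h1
  have key := hlc.closed (isClosed_hs v (r * a)) (isClosed_hs v 0) ht0 ht1
    (U := hs v a) (by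
      intro x hx y hy
      simp only [hs, mem_ofPred_eq, inner_add_right, inner_smul_right] at hx hy ⊢
      have h3 : 1 / r * (r * a) ≤ 1 / r * inner ℝ v x := mul_le_mul_of_nonneg_left hx ht0.le
      have h4 : 0 ≤ (1 - 1 / r) * inner ℝ v y := mul_nonneg (by linarith) hy
      have h5 : 1 / r * (r * a) = a := by field_simp
      linarith)
  have key2 : μ (hs v (r * a)) ^ (1 / r) * (2⁻¹) ^ (1 - 1 / r) ≤ μ (hs v a) := by
    refine le_trans ?_ key
    exact mul_le_mul' le_rfl (ENNReal.rpow_le_rpow (half_le_hs_zero hsym v) (by linarith))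
  have key3 : μ.real (hs v (r * a)) ^ (1 / r) * (2⁻¹ : ℝ) ^ (1 - 1 / r) ≤ μ.real (hs v a) := by
    have := ENNReal.toReal_mono (measure_ne_top μ _) key2
    rw [ENNReal.toReal_mul, ← ENNReal.toReal_rpow, ← ENNReal.toReal_rpow] at this
    simpa [Measure.real] using this
  have e1 : μ.real (sl v (r * a)) = 2 * μ.real (hs v (r * a)) := by
    simp [Measure.real, sl_eq_two_hs hsym v (by positivity : 0 < r * a)]
  have e2 : μ.real (sl v a) = 2 * μ.real (hs v a) := by
    simp [Measure.real, sl_eq_two_hs hsym v ha]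
  rw [e1, e2]
  set s := μ.real (hs v (r * a)) with hs_def
  set u := μ.real (hs v a) with hu_def
  have hs0 : 0 ≤ s := measureReal_nonneg
  have h6 : (2 * s) ^ (1 / r) ≤ 2 * u := by
    have h7 : (2 * s) ^ (1 / r) = 2 * (s ^ (1 / r) * (2⁻¹ : ℝ) ^ (1 - 1 / r)) := by
      rw [Real.mul_rpow (by norm_num) hs0]
      have h8 : (2 : ℝ) ^ (1 / r) = 2 * (2⁻¹ : ℝ) ^ (1 - 1 / r) := by
        rw [Real.inv_rpow (by norm_num), ← Real.rpow_neg (by norm_num)]
        have : (2 : ℝ) * 2 ^ (-(1 - 1 / r)) = 2 ^ (1 + -(1 - 1 / r)) := by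
          rw [Real.rpow_add (by norm_num), Real.rpow_one]
        rw [this]
        congr 1
        ring
      rw [h8]; ring
    rw [h7]
    exact mul_le_mul_of_nonneg_left key3 (by norm_num)
  have h9 : ((2 * s) ^ (1 / r)) ^ r ≤ (2 * u) ^ r :=
    Real.rpow_le_rpow (by positivity) h6 hr0.le
  rwa [← Real.rpow_mul (by positivity), one_div, inv_mul_cancel₀ hr0.ne', Real.rpow_one] at h9

/-- exponential tail from one value -/
lemma tail_exp [IsProbabilityMeasure μ] (hsym : μ.map (fun x => -x) = μ) (hlc : LC μ)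
    (v : E n) {a p : ℝ} (ha : 0 < a) (hp : 0 ≤ p) (h : μ.real (sl v a) ≤ Real.exp (-p)) (t : ℝ) :
    μ.real (sl v t) ≤ Real.exp (p - p * t / a) := by
  rcases lt_or_ge t a with hta | hta
  · have h1 : μ.real (sl v t) ≤ 1 := measureReal_le_one
    refine h1.trans ?_
    rw [← Real.exp_zero]
    apply Real.exp_le_exp.2
    have : p * t / a ≤ p := by
      rw [div_le_iff₀ ha]
      exact mul_le_mul_of_nonneg_left hta.le hp
    linarith
  · have ht0 : 0 ≤ t / a := div_nonneg (ha.le.trans hta) ha.le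
    have h1 := tail_pow hsym hlc v (r := t / a) ha ((one_le_div ha).2 hta)
    rw [div_mul_cancel₀ _ ha.ne'] at h1
    refine h1.trans ?_
    calc μ.real (sl v a) ^ (t / a) ≤ Real.exp (-p) ^ (t / a) :=
          Real.rpow_le_rpow measureReal_nonneg h ht0
      _ = Real.exp (-p * (t / a)) := by rw [← Real.exp_mul]
      _ ≤ _ := by
        apply Real.exp_le_exp.2
        have : -p * (t / a) = - (p * t / a) := by ring
        linarith

end Pool.CIP
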