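import Pool.Agent.CIP.EG

set_option autoImplicit false

open MeasureTheory Pointwise Set Filter Topology

namespace Pool.CIP

variable {n : ℕ}

/-- The absolute gap: the convexity hypothesis for `K` passes to the smaller bodies `ρ K` with the
same (absolute) gap `δ`. -/
lemma abs_gap {K : Set (E n)} (hKc : IsCompact K) (hKconv : Convex ℝ K) (hKs : ∀ x ∈ K, -x ∈ K)
    {s δ : ℝ} (T : E n → Prop)
    (hU : ∀ x ∈ K, ∀ y ∈ K, (1 - s) • x + s • y ∉ (1 - δ) • K → T (x - y))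
    (hT0 : T 0) {ρ : ℝ} (hρ0 : 0 ≤ ρ) (hρ1 : ρ ≤ 1) (hδ1 : δ ≤ 1)
    {x y : E n} (hx : x ∈ K) (hy : y ∈ K)
    (hz : ρ < δ ∨ (1 - s) • (ρ • x) + s • (ρ • y) ∉ (ρ - δ) • K) : T (ρ • (x - y)) := by
  have hz' : ρ < δ ∨ (δ ≤ ρ ∧ (1 - s) • (ρ • x) + s • (ρ • y) ∉ (ρ - δ) • K) := by
    rcases hz with h | h
    · exact Or.inl h
    · rcases lt_or_ge ρ δ with h' | h'
      · exact Or.inl h'
      · exact Or.inr ⟨h', h⟩
  set z := (1 - s) • (ρ • x) + s • (ρ • y) with hzd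
  -- a functional and a maximiser
  have main : ∀ f : E n →L[ℝ] ℝ, ∀ k₀ ∈ K, (∀ k ∈ K, f k ≤ f k₀) →
      (ρ - δ) * f k₀ < f z → T (ρ • (x - y)) := by
    intro f k₀ hk₀ hmax hlt
    have hx' : ρ • x + (1 - ρ) • k₀ ∈ K := hKconv hx hk₀ hρ0 (by linarith) (by ring)
    have hy' : ρ • y + (1 - ρ) • k₀ ∈ K := hKconv hy hk₀ hρ0 (by linarith) (by ring)
    have h1 := hU _ hx' _ hy' (by
      rintro ⟨k, hk, hk'⟩
      have e1 : (1 - s) • (ρ • x + (1 - ρ) • k₀) + s • (ρ • y + (1 - ρ) • k₀) =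
          z + (1 - ρ) • k₀ := by rw [hzd]; module
      have e2 : (1 - δ) • k = z + (1 - ρ) • k₀ := by rw [← e1]; exact hk'
      have e3 := congrArg f e2
      rw [map_add, map_smul, map_smul, smul_eq_mul, smul_eq_mul] at e3
      have h2 : (1 - δ) * f k ≤ (1 - δ) * f k₀ :=
        mul_le_mul_of_nonneg_left (hmax k hk) (by linarith)
      nlinarith)
    have e4 : ρ • x + (1 - ρ) • k₀ - (ρ • y + (1 - ρ) • k₀) = ρ • (x - y) := by module
    rwa [e4] at h1
  rcases hz' with hlt | ⟨hge, hz2⟩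
  · -- the gap is larger than the body
    by_cases hK0 : ∀ k ∈ K, k = 0
    · rw [hK0 x hx, hK0 y hy, sub_self, smul_zero]
      exact hT0
    · push Not at hK0
      obtain ⟨k₁, hk₁, hk₁0⟩ := hK0
      have hn : 0 < ‖k₁‖ ^ 2 := by positivity
      have hpos : ∀ f : E n →L[ℝ] ℝ, 0 ≤ f z → 0 < |f k₁| → T (ρ • (x - y)) := by
        intro f hf hfk
        obtain ⟨k₀, hk₀, hmax⟩ := hKc.exists_isMaxOn ⟨x, hx⟩ f.continuous.continuousOn
        have hmax' : ∀ k ∈ K, f k ≤ f k₀ := fun k hk => hmax hk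
        refine main f k₀ hk₀ hmax' ?_
        have h3 : 0 < f k₀ := by
          refine lt_of_lt_of_le hfk ?_
          rcases abs_cases (f k₁) with ⟨h, _⟩ | ⟨h, _⟩
          · rw [h]; exact hmax' _ hk₁
          · rw [h, ← map_neg]; exact hmax' _ (hKs _ hk₁)
        nlinarith
      rcases le_total 0 (innerSL ℝ k₁ z) with h | h
      · refine hpos (innerSL ℝ k₁) h ?_
        rw [innerSL_apply_apply, real_inner_self_eq_norm_sq]
        rw [abs_of_pos hn]; exact hn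
      · refine hpos (-innerSL ℝ k₁) (by simpa using h) ?_
        have : (-innerSL ℝ k₁) k₁ = -(‖k₁‖ ^ 2) := by
          rw [ContinuousLinearMap.neg_apply, innerSL_apply_apply, real_inner_self_eq_norm_sq]
        rw [this, abs_neg, abs_of_pos hn]; exact hn
  · obtain ⟨f, u, h1, h2⟩ := geometric_hahn_banach_closed_point (hKconv.smul (ρ - δ))
      (hKc.smul (ρ - δ)).isClosed hz2
    obtain ⟨k₀, hk₀, hmax⟩ := hKc.exists_isMaxOn ⟨x, hx⟩ f.continuous.continuousOn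
    refine main f k₀ hk₀ (fun k hk => hmax hk) ?_
    have h3 := h1 _ ⟨k₀, hk₀, rfl⟩
    have h4 : f ((ρ - δ) • k₀) = (ρ - δ) * f k₀ := by rw [map_smul, smul_eq_mul]
    have h5 : f ((fun x => (ρ - δ) • x) k₀) = (ρ - δ) * f k₀ := h4
    linarith

end Pool.CIP
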