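import Pool.Agent.CIP.A

set_option autoImplicit false

open MeasureTheory Pointwise Set Filter Topology

namespace Pool.CIP

variable {n : ℕ} {μ : Measure (E n)}

lemma integrableOn_rpow_exp {q r : ℝ} (hq : 0 < q) (hr : 0 < r) :
    IntegrableOn (fun t : ℝ => t ^ (q - 1) * Real.exp (-(r * t))) (Ioi 0) := by
  by_contra h
  have h1 := integral_undef h
  rw [Real.integral_rpow_mul_exp_neg_mul_Ioi hq hr] at h1
  have h2 : 0 < (1 / r) ^ q * Real.Gamma q := by
    have := Real.Gamma_pos_of_pos hq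
    positivity
  linarith

/-- moments from an exponential tail -/
lemma mq_le_of_tail [IsProbabilityMeasure μ] (v : E n) {a p q : ℝ} (ha : 0 < a) (hp : 0 < p)
    (hq : 0 < q) (h : ∀ t : ℝ, 0 < t → μ.real (sl v t) ≤ Real.exp (p - p * t / a)) :
    mq μ q v ≤ ENNReal.ofReal (Real.exp p * Real.Gamma (q + 1) * (a / p) ^ q) := by
  unfold mq
  rw [lintegral_rpow_eq_lintegral_meas_le_mul μ (Eventually.of_forall fun y => abs_nonneg _)
    (by fun_prop) hq]
  have hr : 0 < p / a := by positivity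
  have h1 : ∫⁻ t in Ioi (0:ℝ), μ {y : E n | t ≤ |inner ℝ v y|} * ENNReal.ofReal (t ^ (q - 1))
      ≤ ∫⁻ t in Ioi (0:ℝ), ENNReal.ofReal (Real.exp p * (t ^ (q - 1) * Real.exp (-((p / a) * t)))) := by
    refine setLIntegral_mono' measurableSet_Ioi (fun t ht => ?_)
    have ht0 : (0:ℝ) < t := ht
    have h2 : μ {y : E n | t ≤ |inner ℝ v y|} = ENNReal.ofReal (μ.real (sl v t)) := by
      rw [ofReal_measureReal]; rfl
    rw [h2, ← ENNReal.ofReal_mul measureReal_nonneg]
    apply ENNReal.ofReal_le_ofReal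
    have h3 := h t ht0
    have h4 : Real.exp (p - p * t / a) = Real.exp p * Real.exp (-((p / a) * t)) := by
      rw [← Real.exp_add]; congr 1; ring
    calc μ.real (sl v t) * t ^ (q - 1) ≤ Real.exp (p - p * t / a) * t ^ (q - 1) :=
          mul_le_mul_of_nonneg_right h3 (by positivity)
      _ = _ := by rw [h4]; ring
  refine (mul_le_mul_right h1 _).trans ?_
  rw [← ofReal_integral_eq_lintegral_ofReal, ← ENNReal.ofReal_mul hq.le]
  · apply ENNReal.ofReal_le_ofReal
    rw [integral_const_mul, Real.integral_rpow_mul_exp_neg_mul_Ioi hq hr, Real.Gamma_add_one hq.ne']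
    rw [one_div_div]
    apply le_of_eq; ring
  · exact (integrableOn_rpow_exp hq hr).const_mul _
  · filter_upwards [ae_restrict_mem measurableSet_Ioi] with t ht
    have ht0 : (0:ℝ) < t := ht
    show (0:ℝ) ≤ _
    positivity

/-- a crude upper bound for the Gamma function -/
lemma gamma_le {q : ℝ} (hq : 1 ≤ q) : Real.Gamma (q + 1) ≤ (2 * q) ^ q := by
  have hq0 : 0 < q := by linarith
  rw [Real.Gamma_eq_integral (by linarith)]
  have h1 : ∀ x ∈ Ioi (0:ℝ), Real.exp (-x) * x ^ (q + 1 - 1) ≤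
      ((2 * q) ^ q * Real.exp (-q)) * Real.exp ((-(1/2)) * x) := by
    intro x hx
    have hx0 : (0:ℝ) < x := hx
    rw [add_sub_cancel_right]
    have h2 : x ^ q ≤ (2 * q) ^ q * Real.exp (-q) * Real.exp (x / 2) := by
      have h3 : x / (2 * q) ≤ Real.exp (x / (2 * q) - 1) := by
        have := Real.add_one_le_exp (x / (2 * q) - 1)
        linarith
      have h4 : (x / (2 * q)) ^ q ≤ Real.exp (x / (2 * q) - 1) ^ q :=
        Real.rpow_le_rpow (by positivity) h3 hq0.le
      rw [← Real.exp_mul, Real.div_rpow hx0.le (by positivity), div_le_iff₀ (by positivity)] at h4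
      refine h4.trans (le_of_eq ?_)
      rw [mul_assoc, ← Real.exp_add, mul_comm]
      congr 2
      field_simp
      ring
    calc Real.exp (-x) * x ^ q ≤ Real.exp (-x) * ((2 * q) ^ q * Real.exp (-q) * Real.exp (x / 2)) :=
          mul_le_mul_of_nonneg_left h2 (Real.exp_pos _).le
      _ = ((2 * q) ^ q * Real.exp (-q)) * (Real.exp (-x) * Real.exp (x / 2)) := by ring
      _ = _ := by rw [← Real.exp_add]; congr 2; ring
  have h5 : ∫ x in Ioi (0:ℝ), Real.exp (-x) * x ^ (q + 1 - 1) ≤
      ∫ x in Ioi (0:ℝ), ((2 * q) ^ q * Real.exp (-q)) * Real.exp ((-(1/2)) * x) := by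
    apply setIntegral_mono_on
    · exact Real.GammaIntegral_convergent (by linarith)
    · exact (integrableOn_exp_mul_Ioi (by norm_num) 0).const_mul _
    · exact measurableSet_Ioi
    · exact h1
  refine h5.trans ?_
  rw [integral_const_mul, integral_exp_mul_Ioi (by norm_num)]
  have h6 : -Real.exp (-(1 / 2) * 0) / (-(1 / 2)) = 2 := by norm_num
  rw [h6]
  have h7 : Real.exp (-q) * 2 ≤ 1 := by
    have h8 : (2:ℝ) ≤ Real.exp q := by
      have := Real.add_one_le_exp q
      linarith
    rw [Real.exp_neg, inv_mul_le_iff₀ (Real.exp_pos q)]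
    linarith
  calc (2 * q) ^ q * Real.exp (-q) * 2 = (2 * q) ^ q * (Real.exp (-q) * 2) := by ring
    _ ≤ (2 * q) ^ q * 1 := mul_le_mul_of_nonneg_left h7 (by positivity)
    _ = _ := mul_one _

end Pool.CIP
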