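import Pool.Agent.CIP.B

set_option autoImplicit false

open MeasureTheory Pointwise Set Filter Topology

namespace Pool.CIP

variable {n : ℕ} {μ : Measure (E n)}

/-- some slab complement has small measure -/
lemma exists_sl_small [IsProbabilityMeasure μ] (v : E n) {e : ℝ} (he : 0 < e) :
    ∃ a : ℝ, 0 < a ∧ μ.real (sl v a) ≤ e := by
  have h := tendsto_ball (μ := μ) (univ : Set (E n))
  rw [measure_univ] at h
  have h1 : ∀ᶠ k : ℕ in atTop, 1 - ENNReal.ofReal e < μ (univ ∩ Metric.closedBall 0 k) := by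
    apply h.eventually (lt_mem_nhds _)
    exact ENNReal.sub_lt_self (by simp) (by simp) (by simpa using he)
  obtain ⟨k, hk⟩ := h1.exists
  rw [univ_inter] at hk
  refine ⟨‖v‖ * k + 1, by positivity, ?_⟩
  have hsub : sl v (‖v‖ * k + 1) ⊆ (Metric.closedBall (0 : E n) k)ᶜ := by
    intro x hx hx'
    have h2 : |inner ℝ v x| ≤ ‖v‖ * ‖x‖ := abs_real_inner_le_norm v x
    have h3 : ‖x‖ ≤ k := by simpa using hx'
    have h4 : ‖v‖ * ‖x‖ ≤ ‖v‖ * k := mul_le_mul_of_nonneg_left h3 (norm_nonneg _)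
    have h5 : ‖v‖ * k + 1 ≤ |inner ℝ v x| := hx
    linarith
  have h6 : μ (sl v (‖v‖ * k + 1)) ≤ ENNReal.ofReal e := by
    refine (measure_mono hsub).trans ?_
    rw [prob_compl_eq_one_sub Metric.isClosed_closedBall.measurableSet]
    rw [tsub_le_iff_right] at *
    have := hk.le
    rw [tsub_le_iff_right] at this
    rwa [add_comm] at this
  have h7 := ENNReal.toReal_mono (by simp) h6
  rwa [ENNReal.toReal_ofReal he.le] at h7

lemma mq_lt_top [IsProbabilityMeasure μ] (hsym : μ.map (fun x => -x) = μ) (hlc : LC μ)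
    {q : ℝ} (hq : 0 < q) (v : E n) : mq μ q v < ⊤ := by
  obtain ⟨a, ha, h⟩ := exists_sl_small (μ := μ) v (Real.exp_pos (-1))
  refine (mq_le_of_tail v ha one_pos hq (fun t _ => tail_exp hsym hlc v ha zero_le_one h t)).trans_lt ?_
  exact ENNReal.ofReal_lt_top

lemma integrable_mom (hfin : ∀ q : ℝ, 0 < q → ∀ v : E n, mq μ q v < ⊤) {q : ℝ} (hq : 0 < q)
    (v : E n) : Integrable (fun y => |inner ℝ v y| ^ q) μ := by
  rw [← lintegral_ofReal_ne_top_iff_integrable]
  · exact (hfin q hq v).ne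
  · exact (Measurable.aestronglyMeasurable (by fun_prop))
  · exact Eventually.of_forall fun y => by positivity

lemma mq_eq (hfin : ∀ q : ℝ, 0 < q → ∀ v : E n, mq μ q v < ⊤) {q : ℝ} (hq : 0 < q)
    (v : E n) : mq μ q v = ENNReal.ofReal (∫ y, |inner ℝ v y| ^ q ∂μ) := by
  rw [ofReal_integral_eq_lintegral_ofReal (integrable_mom hfin hq v)
    (Eventually.of_forall fun y => by positivity)]
  rfl

/-- comparison of moments of the marginals -/
lemma mom_compare [IsProbabilityMeasure μ] (hsym : μ.map (fun x => -x) = μ) (hlc : LC μ)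
    {p q : ℝ} (hp : 1 ≤ p) (hpq : p ≤ q) (v : E n) :
    ∫ y, |inner ℝ v y| ^ q ∂μ ≤
      (2 * Real.exp 2 * (q / p) * (∫ y, |inner ℝ v y| ^ p ∂μ) ^ (1 / p)) ^ q := by
  have hp0 : 0 < p := by linarith
  have hq0 : 0 < q := by linarith
  have hfin : ∀ q : ℝ, 0 < q → ∀ v : E n, mq μ q v < ⊤ := fun q hq v => mq_lt_top hsym hlc hq v
  set m : ℝ := ∫ y, |inner ℝ v y| ^ p ∂μ with hm
  have hm0 : 0 ≤ m := integral_nonneg fun y => by positivity
  rcases hm0.eq_or_lt with h0 | hpos
  · have h1 : (fun y => |inner ℝ v y| ^ p) =ᵐ[μ] 0 := by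
      rw [← integral_eq_zero_iff_of_nonneg (fun y => by positivity) (integrable_mom hfin hp0 v)]
      exact h0.symm
    have h2 : ∫ y, |inner ℝ v y| ^ q ∂μ = 0 := by
      rw [integral_eq_zero_iff_of_nonneg (fun y => by positivity) (integrable_mom hfin hq0 v)]
      filter_upwards [h1] with y hy
      have hy' : |inner ℝ v y| ^ p = 0 := hy
      rw [Real.rpow_eq_zero (abs_nonneg _) hp0.ne'] at hy'
      show |inner ℝ v y| ^ q = 0
      rw [hy', Real.zero_rpow hq0.ne']
    rw [h2]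
    positivity
  · set h : ℝ := m ^ (1 / p) with hh
    have hh0 : 0 < h := Real.rpow_pos_of_pos hpos _
    have hhp : h ^ p = m := by
      rw [hh, ← Real.rpow_mul hm0, one_div, inv_mul_cancel₀ hp0.ne', Real.rpow_one]
    have ha : 0 < Real.exp 1 * h := by positivity
    have hmark := mul_meas_ge_le_integral_of_nonneg
      (Eventually.of_forall fun y => by positivity : 0 ≤ᵐ[μ] fun y => |inner ℝ v y| ^ p)
      (integrable_mom hfin hp0 v) ((Real.exp 1 * h) ^ p)
    have hset : {y : E n | (Real.exp 1 * h) ^ p ≤ |inner ℝ v y| ^ p} = sl v (Real.exp 1 * h) := by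
      ext y
      simp only [sl, mem_ofPred_eq]
      exact Real.rpow_le_rpow_iff ha.le (abs_nonneg _) hp0
    rw [hset, ← hm, Real.mul_rpow (Real.exp_pos 1).le hh0.le, hhp, Real.exp_one_rpow] at hmark
    have htail : μ.real (sl v (Real.exp 1 * h)) ≤ Real.exp (-p) := by
      rw [Real.exp_neg, ← one_div, le_div_iff₀ (Real.exp_pos p)]
      have h3 : m * (μ.real (sl v (Real.exp 1 * h)) * Real.exp p) ≤ m * 1 := by
        rw [mul_one]
        calc m * (μ.real (sl v (Real.exp 1 * h)) * Real.exp p)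
            = Real.exp p * m * μ.real (sl v (Real.exp 1 * h)) := by ring
          _ ≤ m := hmark
      exact le_of_mul_le_mul_left h3 hpos
    have h4 := mq_le_of_tail v ha hp0 hq0 (fun t _ => tail_exp hsym hlc v ha hp0.le htail t)
    rw [mq_eq hfin hq0 v, ENNReal.ofReal_le_ofReal_iff (by
      have := Real.Gamma_pos_of_pos (by linarith : 0 < q + 1)
      positivity)] at h4
    refine h4.trans ?_
    have h5 : Real.exp p ≤ (Real.exp 1) ^ q := by
      rw [Real.exp_one_rpow]; exact Real.exp_le_exp.2 hpq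
    have h6 := gamma_le (by linarith : 1 ≤ q)
    have h7 : Real.exp p * Real.Gamma (q + 1) * (Real.exp 1 * h / p) ^ q ≤
        (Real.exp 1) ^ q * (2 * q) ^ q * (Real.exp 1 * h / p) ^ q := by
      have := (Real.Gamma_pos_of_pos (by linarith : 0 < q + 1)).le
      gcongr
    refine h7.trans (le_of_eq ?_)
    rw [← Real.mul_rpow (by positivity) (by positivity), ← Real.mul_rpow (by positivity) (by positivity)]
    congr 1
    have h8 : Real.exp 2 = Real.exp 1 * Real.exp 1 := by rw [← Real.exp_add]; norm_num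
    rw [h8]
    ring

/-- inclusion of the centroid bodies -/
lemma Z_subset [IsProbabilityMeasure μ] (hsym : μ.map (fun x => -x) = μ) (hlc : LC μ)
    {p q s : ℝ} (hp : 1 ≤ p) (hpq : p ≤ q) (hs : 2 * Real.exp 2 * (q / p) ≤ s) {x : E n}
    (hx : x ∈ Z μ q) : s⁻¹ • x ∈ Z μ p := by
  have hp0 : 0 < p := by linarith
  have hq0 : 0 < q := by linarith
  have hs0 : 0 < s := lt_of_lt_of_le (by positivity) hs
  intro v
  set m : ℝ := ∫ y, |inner ℝ v y| ^ p ∂μ with hm
  have hm0 : 0 ≤ m := integral_nonneg fun y => by positivity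
  have h1 : |inner ℝ v x| ^ q ≤ (s * m ^ (1 / p)) ^ q := by
    refine (hx v).trans ((mom_compare hsym hlc hp hpq v).trans ?_)
    rw [← hm]
    apply Real.rpow_le_rpow (by positivity) _ hq0.le
    exact mul_le_mul_of_nonneg_right hs (by positivity)
  have h2 : |inner ℝ v x| ≤ s * m ^ (1 / p) :=
    (Real.rpow_le_rpow_iff (abs_nonneg _) (by positivity) hq0).1 h1
  rw [inner_smul_right, abs_mul, abs_of_pos (by positivity : 0 < s⁻¹)]
  have h3 : s⁻¹ * |inner ℝ v x| ≤ m ^ (1 / p) := by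
    rw [inv_mul_le_iff₀ hs0]; exact h2
  calc (s⁻¹ * |inner ℝ v x|) ^ p ≤ (m ^ (1 / p)) ^ p :=
        Real.rpow_le_rpow (by positivity) h3 hp0.le
    _ = m := by rw [← Real.rpow_mul hm0, one_div, inv_mul_cancel₀ hp0.ne', Real.rpow_one]

end Pool.CIP
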