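import Mathlib

/-!
MP_f07e0d_pr: optimal concentration for symmetric log-concave measures.
Definitions shared by the files of this folder.
-/

set_option autoImplicit false

open MeasureTheory Pointwise Set

namespace Pool.CIP

abbrev E (n : ℕ) := EuclideanSpace ℝ (Fin n)

/-- log-concavity in the Brunn-Minkowski form, on nonempty compact sets -/
def LC {n : ℕ} (μ : Measure (E n)) : Prop :=
  ∀ K L : Set (E n), IsCompact K → K.Nonempty → IsCompact L → L.Nonempty →
    ∀ t : ℝ, 0 ≤ t → t ≤ 1 → μ K ^ t * μ L ^ (1 - t) ≤ μ (t • K + (1 - t) • L)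

/-- the centroid body of order p -/
def Z {n : ℕ} (μ : Measure (E n)) (p : ℝ) : Set (E n) :=
  {x | ∀ v : E n, |inner ℝ v x| ^ p ≤ ∫ y, |inner ℝ v y| ^ p ∂μ}

/-- the moment of order q of the marginal in direction v -/
noncomputable def mq {n : ℕ} (μ : Measure (E n)) (q : ℝ) (v : E n) : ENNReal :=
  ∫⁻ y, ENNReal.ofReal (|inner ℝ v y| ^ q) ∂μ

/-- the points at which some functional of q-th moment at most one exceeds lam -/
def bad {n : ℕ} (μ : Measure (E n)) (q lam : ℝ) : Set (E n) :=
  {x | ∃ v : E n, mq μ q v ≤ 1 ∧ lam < |inner ℝ v x|}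

end Pool.CIP
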