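import Pool.Agent.CIP.S

set_option autoImplicit false

open MeasureTheory Pointwise Set Filter Topology

namespace Pool.WS

variable {E : Type*} [NormedAddCommGroup E] [NormedSpace ℝ E] [MeasurableSpace E] [BorelSpace E]
  {μ : Measure E}

/-- the levels that a functional reaches on a set with mass at least `c`, between `l` and `h` -/
def qset (μ : Measure E) (w : E →L[ℝ] ℝ) (l h c : ℝ) (A : Set E) : Set ℝ :=
  {τ | l ≤ τ ∧ τ ≤ h ∧ (τ = l ∨ c ≤ μ.real (A ∩ up w τ))}

/-- the quantile -/
noncomputable def qt (μ : Measure E) (w : E →L[ℝ] ℝ) (l h c : ℝ) (A : Set E) : ℝ :=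
  sSup (qset μ w l h c A)

variable {w : E →L[ℝ] ℝ} {l h c : ℝ} {A : Set E}

omit [BorelSpace E] in
lemma qset_bdd : BddAbove (qset μ w l h c A) := ⟨h, fun _ hx => hx.2.1⟩

omit [BorelSpace E] in
lemma mem_qset (hlh : l ≤ h) : l ∈ qset μ w l h c A := ⟨le_rfl, hlh, Or.inl rfl⟩

omit [BorelSpace E] in
lemma qt_ge (hlh : l ≤ h) : l ≤ qt μ w l h c A := le_csSup qset_bdd (mem_qset hlh)

omit [BorelSpace E] in
lemma qt_le (hlh : l ≤ h) : qt μ w l h c A ≤ h := csSup_le ⟨l, mem_qset hlh⟩ fun _ hx => hx.2.1

omit [BorelSpace E] in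
lemma qt_mono [IsFiniteMeasure μ] (hlh : l ≤ h) {A' : Set E} (hA : A ⊆ A') :
    qt μ w l h c A ≤ qt μ w l h c A' := by
  refine csSup_le_csSup qset_bdd ⟨l, mem_qset hlh⟩ ?_
  rintro τ ⟨h1, h2, h3⟩
  refine ⟨h1, h2, h3.imp_right fun h4 => h4.trans ?_⟩
  exact measureReal_mono (inter_subset_inter_left _ hA) (measure_ne_top μ _)

lemma qt_up [IsProbabilityMeasure μ] (hA : MeasurableSet A) (hlh : l ≤ h)
    (hc : c ≤ μ.real (A ∩ up w l)) : c ≤ μ.real (A ∩ up w (qt μ w l h c A)) := by
  have hne : (qset μ w l h c A).Nonempty := ⟨l, mem_qset hlh⟩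
  obtain ⟨u, hu, hul, huQ⟩ := exists_seq_tendsto_sSup hne qset_bdd
  change Tendsto u atTop (𝓝 (qt μ w l h c A)) at hul
  have hle : ∀ k, u k ≤ qt μ w l h c A := fun k => le_csSup qset_bdd (huQ k)
  have hQ : ∀ k, c ≤ μ.real (A ∩ up w (u k)) := by
    intro k
    rcases (huQ k).2.2 with h1 | h1
    · rw [h1]; exact hc
    · exact h1
  have hU : A ∩ up w (qt μ w l h c A) = ⋂ k, A ∩ up w (u k) := by
    ext x
    simp only [mem_inter_iff, mem_iInter, up, mem_ofPred_eq]
    constructor
    · rintro ⟨h1, h2⟩ k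
      exact ⟨h1, (hle k).trans h2⟩
    · intro h
      exact ⟨(h 0).1, le_of_tendsto' hul fun k => (h k).2⟩
  have hlim : Tendsto (fun k => μ (A ∩ up w (u k))) atTop (𝓝 (μ (⋂ k, A ∩ up w (u k)))) := by
    refine tendsto_measure_iInter_atTop (fun k => (hA.inter (meas_up _ _)).nullMeasurableSet) ?_
      ⟨0, measure_ne_top μ _⟩
    intro i j hij x hx
    exact ⟨hx.1, (hu hij).trans hx.2⟩
  rw [hU]
  have hlim2 : Tendsto (fun k => μ.real (A ∩ up w (u k))) atTop
      (𝓝 (μ.real (⋂ k, A ∩ up w (u k)))) :=
    (ENNReal.tendsto_toReal (measure_ne_top μ _)).comp hlim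
  exact ge_of_tendsto' hlim2 hQ

lemma qt_ou [IsProbabilityMeasure μ] (hA : MeasurableSet A) (hlh : l ≤ h) (hc : 0 ≤ c)
    (hAh : ∀ x ∈ A, w x ≤ h) : μ.real (A ∩ ou w (qt μ w l h c A)) ≤ c := by
  rcases (qt_le (μ := μ) (w := w) (c := c) (A := A) hlh).eq_or_lt with h0 | h0
  · have : A ∩ ou w (qt μ w l h c A) = ∅ := by
      refine eq_empty_iff_forall_notMem.2 fun x hx => ?_
      have h1 := hAh x hx.1
      have h2 : qt μ w l h c A < w x := hx.2
      linarith
    rw [this]
    simpa using hc
  · set Q := qt μ w l h c A with hQdef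
    set e : ℕ → ℝ := fun k => (h - Q) / ((k:ℝ) + 1) with he
    have hepos : ∀ k, 0 < e k := fun k => by
      have : 0 < h - Q := by linarith
      positivity
    have heanti : ∀ i j : ℕ, i ≤ j → e j ≤ e i := by
      intro i j hij
      have : (i:ℝ) ≤ j := by exact_mod_cast hij
      have h3 : 0 ≤ h - Q := by linarith
      exact div_le_div_of_nonneg_left h3 (by positivity) (by linarith)
    have hele : ∀ k, e k ≤ h - Q := by
      intro k
      have h3 : 0 ≤ h - Q := by linarith
      have := heanti 0 k (Nat.zero_le _)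
      simpa [he] using this
    have hU : A ∩ ou w Q = ⋃ k : ℕ, A ∩ up w (Q + e k) := by
      ext x
      simp only [mem_inter_iff, mem_iUnion, up, ou, mem_ofPred_eq]
      constructor
      · rintro ⟨h1, h2⟩
        have h3 : 0 < h - Q := by linarith
        obtain ⟨k, hk⟩ := exists_nat_one_div_lt (div_pos (sub_pos.2 h2) h3)
        refine ⟨k, h1, ?_⟩
        rw [lt_div_iff₀ h3] at hk
        have : e k = 1 / ((k:ℝ) + 1) * (h - Q) := by rw [he]; ring
        linarith
      · rintro ⟨k, h1, h2⟩
        exact ⟨h1, by have := hepos k; linarith⟩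
    have hlim : Tendsto (fun k : ℕ => μ (A ∩ up w (Q + e k))) atTop
        (𝓝 (μ (⋃ k : ℕ, A ∩ up w (Q + e k)))) := by
      refine tendsto_measure_iUnion_atTop ?_
      intro i j hij x hx
      have h1 := heanti i j hij
      have h2 : Q + e i ≤ w x := hx.2
      have h3 : Q + e j ≤ w x := by linarith
      exact ⟨hx.1, h3⟩
    rw [hU]
    have hlim2 : Tendsto (fun k : ℕ => μ.real (A ∩ up w (Q + e k))) atTop
        (𝓝 (μ.real (⋃ k : ℕ, A ∩ up w (Q + e k)))) :=
      (ENNReal.tendsto_toReal (measure_ne_top μ _)).comp hlim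
    refine le_of_tendsto' hlim2 fun k => ?_
    by_contra hcon
    push Not at hcon
    have hlQ : l ≤ Q := qt_ge hlh
    have h1 : Q + e k ∈ qset μ w l h c A :=
      ⟨by have := hepos k; linarith, by have := hele k; linarith, Or.inr hcon.le⟩
    have h2 : Q + e k ≤ Q := le_csSup qset_bdd h1
    have := hepos k
    linarith

omit [NormedAddCommGroup E] [NormedSpace ℝ E] [BorelSpace E] in
/-- a finite cover by measurable sets contains a disjoint one -/
lemma exists_partition {ι : Type*} [DecidableEq ι] (V : Finset ι) (U : ι → Set E)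
    (hU : ∀ i, MeasurableSet (U i)) :
    ∃ P : ι → Set E, (∀ i, MeasurableSet (P i)) ∧ (∀ i, P i ⊆ U i) ∧
      (V : Set ι).PairwiseDisjoint P ∧ (⋃ i ∈ V, U i) ⊆ ⋃ i ∈ V, P i := by
  induction V using Finset.induction_on with
  | empty => exact ⟨U, hU, fun _ => subset_rfl, by simp, by simp⟩
  | insert a V ha ih =>
    obtain ⟨P, h1, h2, h3, h4⟩ := ih
    refine ⟨Function.update P a (U a \ ⋃ i ∈ V, P i), ?_, ?_, ?_, ?_⟩
    · intro i
      rcases eq_or_ne i a with h | h
      · subst h
        rw [Function.update_self]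
        exact (hU i).diff (Finset.measurableSet_biUnion _ fun i _ => h1 i)
      · rw [Function.update_of_ne h]; exact h1 i
    · intro i
      rcases eq_or_ne i a with h | h
      · subst h
        rw [Function.update_self]
        exact sdiff_subset
      · rw [Function.update_of_ne h]; exact h2 i
    · have key : ∀ i ∈ V, Disjoint (U a \ ⋃ i ∈ V, P i) (P i) := by
        intro i hi
        rw [Set.disjoint_left]
        intro x hx hx'
        exact hx.2 (mem_biUnion hi hx')
      intro i hi j hj hij
      simp only [Finset.coe_insert, mem_insert_iff, Finset.mem_coe] at hi hj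
      simp only [Function.onFun]
      rcases hi with rfl | hi
      · have hja : j ≠ i := hij.symm
        rw [Function.update_self, Function.update_of_ne hja]
        rcases hj with rfl | hj
        · exact absurd rfl hij
        · exact key j hj
      · have hia : i ≠ a := fun h => ha (h ▸ hi)
        rw [Function.update_of_ne hia]
        rcases hj with rfl | hj
        · rw [Function.update_self]
          exact (key i hi).symm
        · have hja : j ≠ a := fun h => ha (h ▸ hj)
          rw [Function.update_of_ne hja]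
          exact h3 hi hj hij
    · intro x hx
      have hP : ∀ i ∈ V, x ∈ P i → x ∈ ⋃ i ∈ insert a V, Function.update P a (U a \ ⋃ i ∈ V, P i) i := by
        intro i hi hxi
        have hia : i ≠ a := fun h => ha (h ▸ hi)
        refine mem_biUnion (x := i) (Finset.mem_coe.2 (Finset.mem_insert_of_mem hi)) ?_
        rw [Function.update_of_ne hia]; exact hxi
      by_cases hx' : x ∈ ⋃ i ∈ V, P i
      · simp only [mem_iUnion, exists_prop] at hx'
        obtain ⟨i, hi, hxi⟩ := hx'
        exact hP i hi hxi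
      · simp only [Finset.mem_insert, mem_iUnion, exists_prop] at hx
        obtain ⟨i, hi, hxi⟩ := hx
        rcases hi with rfl | hi
        · refine mem_biUnion (x := i) (Finset.mem_coe.2 (Finset.mem_insert_self _ _)) ?_
          rw [Function.update_self]
          exact ⟨hxi, hx'⟩
        · exact absurd (h4 (mem_biUnion (x := i) hi hxi)) hx'

end Pool.WS
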