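import Pool.Agent.CIP.EA

set_option autoImplicit false

open MeasureTheory Pointwise Set Filter Topology

namespace Pool.WS

variable {E : Type*} [NormedAddCommGroup E] [NormedSpace ℝ E] [MeasurableSpace E] [BorelSpace E]
  {μ : Measure E}

/-- log-concavity with weights `a, 1 - a` for compact sets -/
def WLC (μ : Measure E) (a : ℝ) : Prop := ∀ K L : Set E, IsCompact K → IsCompact L →
  μ.real K ^ a * μ.real L ^ (1 - a) ≤ μ.real (a • K + (1 - a) • L)

/-- the greedy selection with weights: it cannot make `N` steps -/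
lemma greedy [CompleteSpace E] [SecondCountableTopology E] [IsProbabilityMeasure μ]
    {lam : ℝ} (hlam0 : 0 < lam) (hlam1 : lam < 1) (hlc : WLC μ lam)
    {ι : Type*} {V : Set ι} {φ : ι → E →L[ℝ] ℝ} {a b t t' : ι → ℝ}
    {α κ κ' ν : ℝ} (hα : 0 < α) (hκ0 : 0 ≤ κ) (hκ'0 : 0 < κ') (hν0 : 0 ≤ ν)
    {S A : Set E} (hS : MeasurableSet S) (hA : MeasurableSet A)
    (hκ : ∀ i ∈ V, μ.real (S ∩ up (φ i) (t i)) ≤ κ)
    (hν : ∀ i ∈ V, μ.real (A ∩ ou (φ i) (b i)) ≤ ν)
    (ht : ∀ i ∈ V, lam * b i + (1 - lam) * t i ≤ lam * a i + (1 - lam) * t' i)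
    {N : ℕ} (hN0 : 0 < N) (hN : 1 ≤ N * ((α / 2) ^ lam * κ' ^ (1 - lam)))
    (H : ∀ S' ⊆ S, ∀ A' ⊆ A, MeasurableSet S' → MeasurableSet A' →
      μ.real S - N * κ ≤ μ.real S' → μ.real A - N * ν ≤ μ.real A' →
      ∃ i ∈ V, κ' < μ.real (S' ∩ up (φ i) (t' i)) ∧ α ≤ μ.real (A' ∩ up (φ i) (a i))) :
    False := by
  have hVne : V.Nonempty := by
    obtain ⟨i, hi, _⟩ := H S subset_rfl A subset_rfl hS hA
      (by have := mul_nonneg (Nat.cast_nonneg (α := ℝ) N) hκ0; linarith)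
      (by have := mul_nonneg (Nat.cast_nonneg (α := ℝ) N) hν0; linarith)
    exact ⟨i, hi⟩
  obtain ⟨i₀, hi₀⟩ := hVne
  have h' : ∀ R : Set E × Set E, ∃ i : ι, R.1 ⊆ S → R.2 ⊆ A → MeasurableSet R.1 →
      MeasurableSet R.2 → μ.real S - N * κ ≤ μ.real R.1 → μ.real A - N * ν ≤ μ.real R.2 →
      i ∈ V ∧ κ' < μ.real (R.1 ∩ up (φ i) (t' i)) ∧ α ≤ μ.real (R.2 ∩ up (φ i) (a i)) := by
    intro R
    by_cases h : R.1 ⊆ S ∧ R.2 ⊆ A ∧ MeasurableSet R.1 ∧ MeasurableSet R.2 ∧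
        μ.real S - N * κ ≤ μ.real R.1 ∧ μ.real A - N * ν ≤ μ.real R.2
    · obtain ⟨h1, h2, h3, h4, h5, h6⟩ := h
      obtain ⟨i, hi, hi'⟩ := H R.1 h1 R.2 h2 h3 h4 h5 h6
      exact ⟨i, fun _ _ _ _ _ _ => ⟨hi, hi'⟩⟩
    · exact ⟨i₀, fun h1 h2 h3 h4 h5 h6 => absurd ⟨h1, h2, h3, h4, h5, h6⟩ h⟩
  choose c hc using h'
  set F : Set E × Set E → Set E × Set E := fun R =>
    (R.1 \ up (φ (c R)) (t (c R)), R.2 \ ou (φ (c R)) (b (c R))) with hF
  set Rq : ℕ → Set E × Set E := fun i => F^[i] (S, A) with hRq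
  have hsucc : ∀ i, Rq (i + 1) = ((Rq i).1 \ up (φ (c (Rq i))) (t (c (Rq i))),
      (Rq i).2 \ ou (φ (c (Rq i))) (b (c (Rq i)))) := by
    intro i
    simp only [hRq, Function.iterate_succ_apply', hF]
  have hNr : (0:ℝ) < N := by exact_mod_cast hN0
  have hcut : ∀ X Y : Set E, μ.real X ≤ μ.real (X \ Y) + μ.real (X ∩ Y) := by
    intro X Y
    refine le_trans (measureReal_mono ?_ (measure_ne_top μ _)) (measureReal_union_le _ _)
    intro x hx
    by_cases hx' : x ∈ Y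
    · exact Or.inr ⟨hx, hx'⟩
    · exact Or.inl ⟨hx, hx'⟩
  have hprop : ∀ i : ℕ, i ≤ N → (Rq i).1 ⊆ S ∧ (Rq i).2 ⊆ A ∧ MeasurableSet (Rq i).1 ∧
      MeasurableSet (Rq i).2 ∧ μ.real S - i * κ ≤ μ.real (Rq i).1 ∧
      μ.real A - i * ν ≤ μ.real (Rq i).2 := by
    intro i
    induction i with
    | zero => intro _; simp [hRq, hS, hA]
    | succ i ih =>
      intro hi
      obtain ⟨h1, h1', h2, h2', h3, h3'⟩ := ih (by omega)
      have h0 : (i:ℝ) ≤ N := by exact_mod_cast (by omega : i ≤ N)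
      have h4 : (i:ℝ) * κ ≤ N * κ := mul_le_mul_of_nonneg_right h0 hκ0
      have h4' : (i:ℝ) * ν ≤ N * ν := mul_le_mul_of_nonneg_right h0 hν0
      have h6 := (hc (Rq i) h1 h1' h2 h2' (by linarith) (by linarith)).1
      rw [hsucc]
      refine ⟨sdiff_subset.trans h1, sdiff_subset.trans h1', h2.diff (meas_up _ _),
        h2'.diff (meas_ou _ _), ?_, ?_⟩
      · have h7 := hcut (Rq i).1 (up (φ (c (Rq i))) (t (c (Rq i))))
        have h8 : μ.real ((Rq i).1 ∩ up (φ (c (Rq i))) (t (c (Rq i)))) ≤ κ :=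
          (measureReal_mono (inter_subset_inter_left _ h1) (measure_ne_top μ _)).trans (hκ _ h6)
        push_cast
        linarith
      · have h7 := hcut (Rq i).2 (ou (φ (c (Rq i))) (b (c (Rq i))))
        have h8 : μ.real ((Rq i).2 ∩ ou (φ (c (Rq i))) (b (c (Rq i)))) ≤ ν :=
          (measureReal_mono (inter_subset_inter_left _ h1') (measure_ne_top μ _)).trans (hν _ h6)
        push_cast
        linarith
  have hanti : ∀ i j : ℕ, i < j → (Rq j).1 ⊆ (Rq i).1 \ up (φ (c (Rq i))) (t (c (Rq i))) ∧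
      (Rq j).2 ⊆ (Rq i).2 \ ou (φ (c (Rq i))) (b (c (Rq i))) := by
    intro i j hij
    induction j with
    | zero => omega
    | succ j ih =>
      rcases Nat.lt_succ_iff_lt_or_eq.1 hij with h | h
      · rw [hsucc]
        exact ⟨sdiff_subset.trans (ih h).1, sdiff_subset.trans (ih h).2⟩
      · subst h
        rw [hsucc]
        exact ⟨subset_rfl, subset_rfl⟩
  have hall : ∀ i : ℕ, i < N → c (Rq i) ∈ V ∧
      κ' < μ.real ((Rq i).1 ∩ up (φ (c (Rq i))) (t' (c (Rq i)))) ∧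
      α ≤ μ.real ((Rq i).2 ∩ up (φ (c (Rq i))) (a (c (Rq i)))) := by
    intro i hi
    obtain ⟨h1, h1', h2, h2', h3, h3'⟩ := hprop i hi.le
    have h0 : (i:ℝ) ≤ N := by exact_mod_cast hi.le
    have h4 : (i:ℝ) * κ ≤ N * κ := mul_le_mul_of_nonneg_right h0 hκ0
    have h4' : (i:ℝ) * ν ≤ N * ν := mul_le_mul_of_nonneg_right h0 hν0
    exact hc (Rq i) h1 h1' h2 h2' (by linarith) (by linarith)
  have hKA : ∀ i : ℕ, ∃ K : Set E, IsCompact K ∧
      (i < N → K ⊆ (Rq i).2 ∩ up (φ (c (Rq i))) (a (c (Rq i))) ∧ α / 2 < μ.real K) := by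
    intro i
    by_cases hi : i < N
    · obtain ⟨h1, h2, h3⟩ := hall i hi
      obtain ⟨K, hK1, hK2, hK3⟩ := exists_compact_real
        ((hprop i hi.le).2.2.2.1.inter (meas_up (φ (c (Rq i))) (a (c (Rq i)))))
        (lt_of_lt_of_le (by linarith : α / 2 < α) h3)
      exact ⟨K, hK2, fun _ => ⟨hK1, hK3⟩⟩
    · exact ⟨∅, isCompact_empty, fun h => absurd h hi⟩
  choose KA hKAc hKA using hKA
  have hK : ∀ i : ℕ, ∃ K : Set E, IsCompact K ∧
      (i < N → K ⊆ (Rq i).1 ∩ up (φ (c (Rq i))) (t' (c (Rq i))) ∧ κ' < μ.real K) := by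
    intro i
    by_cases hi : i < N
    · obtain ⟨h1, h2, h3⟩ := hall i hi
      obtain ⟨K, hK1, hK2, hK3⟩ := exists_compact_real
        ((hprop i hi.le).2.2.1.inter (meas_up (φ (c (Rq i))) (t' (c (Rq i))))) h2
      exact ⟨K, hK2, fun _ => ⟨hK1, hK3⟩⟩
    · exact ⟨∅, isCompact_empty, fun h => absurd h hi⟩
  choose K hKc hK using hK
  set Gq : ℕ → Set E := fun i => lam • KA i + (1 - lam) • K i with hGq
  have hGc : ∀ i, IsCompact (Gq i) := fun i => ((hKAc i).smul _).add ((hKc i).smul _)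
  have hGm : ∀ i ∈ Finset.range N, 1 / (N:ℝ) < μ.real (Gq i) := by
    intro i hi
    have hi' : i < N := Finset.mem_range.1 hi
    have h1 := hlc (KA i) (K i) (hKAc i) (hKc i)
    have h2 := (hKA i hi').2
    have h3 := (hK i hi').2
    refine lt_of_lt_of_le ?_ h1
    have h4 : (α / 2) ^ lam < μ.real (KA i) ^ lam :=
      Real.rpow_lt_rpow (by positivity) h2 hlam0
    have h5 : κ' ^ (1 - lam) < μ.real (K i) ^ (1 - lam) :=
      Real.rpow_lt_rpow hκ'0.le h3 (by linarith)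
    have h6 : 0 < (α / 2) ^ lam := Real.rpow_pos_of_pos (by positivity) _
    have h7 : 0 < κ' ^ (1 - lam) := Real.rpow_pos_of_pos hκ'0 _
    have h8 : (α / 2) ^ lam * κ' ^ (1 - lam) < μ.real (KA i) ^ lam * μ.real (K i) ^ (1 - lam) :=
      mul_lt_mul h4 h5.le h7 (h6.le.trans h4.le)
    refine lt_of_le_of_lt ?_ h8
    rw [div_le_iff₀ hNr]
    linarith
  have hdisj : Set.PairwiseDisjoint (↑(Finset.range N)) Gq := by
    have main : ∀ i j : ℕ, i < j → j < N → Disjoint (Gq i) (Gq j) := by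
      intro i j hij hj
      have hi : i < N := hij.trans hj
      rw [Set.disjoint_left]
      rintro x ⟨_, ⟨x1, hx1, rfl⟩, _, ⟨y1, hy1, rfl⟩, hx⟩ ⟨_, ⟨x2, hx2, rfl⟩, _, ⟨y2, hy2, rfl⟩, hx'⟩
      have hT' := ht _ (hall i hi).1
      have hl1 : 0 < 1 - lam := by linarith
      have e1 : lam * a (c (Rq i)) + (1 - lam) * t' (c (Rq i)) ≤ (φ (c (Rq i))) x := by
        rw [← hx]
        simp only [map_add, map_smul, smul_eq_mul]
        have h1 : a (c (Rq i)) ≤ (φ (c (Rq i))) x1 := ((hKA i hi).1 hx1).2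
        have h2 : t' (c (Rq i)) ≤ (φ (c (Rq i))) y1 := ((hK i hi).1 hy1).2
        exact add_le_add (mul_le_mul_of_nonneg_left h1 hlam0.le)
          (mul_le_mul_of_nonneg_left h2 hl1.le)
      have e2 : (φ (c (Rq i))) x < lam * b (c (Rq i)) + (1 - lam) * t (c (Rq i)) := by
        rw [← hx']
        simp only [map_add, map_smul, smul_eq_mul]
        have h1 : (φ (c (Rq i))) x2 ≤ b (c (Rq i)) := by
          have h3 := (hanti i j hij).2 ((hKA j hj).1 hx2).1
          have := h3.2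
          simp only [ou, mem_ofPred_eq, not_lt] at this
          exact this
        have h3 : (φ (c (Rq i))) y2 < t (c (Rq i)) := by
          have h2 := (hanti i j hij).1 ((hK j hj).1 hy2).1
          have := h2.2
          simp only [up, mem_ofPred_eq, not_le] at this
          exact this
        exact add_lt_add_of_le_of_lt (mul_le_mul_of_nonneg_left h1 hlam0.le)
          (mul_lt_mul_of_pos_left h3 hl1)
      linarith
    intro i hi j hj hij
    rcases lt_or_gt_of_ne hij with h | h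
    · exact main i j h (Finset.mem_range.1 hj)
    · exact (main j i h (Finset.mem_range.1 hi)).symm
  have hsum : ∑ i ∈ Finset.range N, μ.real (Gq i) = μ.real (⋃ i ∈ Finset.range N, Gq i) :=
    (measureReal_biUnion_finset hdisj (fun i _ => (hGc i).measurableSet)).symm
  have hle : ∑ i ∈ Finset.range N, μ.real (Gq i) ≤ 1 := by
    rw [hsum]; exact measureReal_le_one
  have hgt : (1:ℝ) < ∑ i ∈ Finset.range N, μ.real (Gq i) := by
    calc (1:ℝ) = ∑ i ∈ Finset.range N, 1 / (N:ℝ) := by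
          rw [Finset.sum_const, Finset.card_range, nsmul_eq_mul]
          field_simp
      _ < ∑ i ∈ Finset.range N, μ.real (Gq i) :=
          Finset.sum_lt_sum_of_nonempty ⟨0, Finset.mem_range.2 hN0⟩ hGm
  linarith

end Pool.WS
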