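import Pool.Agent.CIP.EB

set_option autoImplicit false

open MeasureTheory Pointwise Set Filter Topology

namespace Pool.WS

/-! ### Numbers -/

/-- growth of the costs -/
noncomputable def bet (m : ℕ) : ℝ := 1 / (2 * (m:ℝ) ^ 2)

/-- the costs -/
noncomputable def cst (m : ℕ) (q : ℝ) (i : ℕ) : ℝ :=
  8 * (m:ℝ) ^ 3 * ((m:ℝ) + 1) * q * (1 + bet m) ^ i

/-- summable weights -/
noncomputable def gw (m j : ℕ) : ℝ := bet m / (1 + bet m) ^ (j + 1)

lemma bet_pos {m : ℕ} (hm : 2 ≤ m) : 0 < bet m := by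
  have : (0:ℝ) < m := by exact_mod_cast (by omega : 0 < m)
  unfold bet; positivity

lemma bet_mul {m : ℕ} (hm : 2 ≤ m) : (m:ℝ) * bet m = 1 / (2 * m) := by
  have : (0:ℝ) < m := by exact_mod_cast (by omega : 0 < m)
  unfold bet; field_simp

lemma bet_le {m : ℕ} (hm : 2 ≤ m) : bet m ≤ 1 / 8 := by
  have : (2:ℝ) ≤ m := by exact_mod_cast hm
  unfold bet
  apply one_div_le_one_div_of_le (by norm_num)
  nlinarith

lemma gw_pos {m : ℕ} (hm : 2 ≤ m) (j : ℕ) : 0 < gw m j := by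
  have := bet_pos hm
  unfold gw; positivity

lemma gw_anti {m : ℕ} (hm : 2 ≤ m) {i j : ℕ} (hij : i ≤ j) : gw m j ≤ gw m i := by
  have h := bet_pos hm
  unfold gw
  apply div_le_div_of_nonneg_left h.le (by positivity)
  exact pow_le_pow_right₀ (by linarith) (by omega)

lemma gw_le_one {m : ℕ} (hm : 2 ≤ m) (j : ℕ) : gw m j ≤ 1 := by
  have h := bet_pos hm
  have h1 := bet_le hm
  unfold gw
  rw [div_le_one (by positivity)]
  have : (1:ℝ) ≤ (1 + bet m) ^ (j + 1) := one_le_pow₀ (by linarith)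
  linarith

lemma sum_gw {m : ℕ} (hm : 2 ≤ m) (J : ℕ) :
    ∑ j ∈ Finset.range J, gw m j = 1 - 1 / (1 + bet m) ^ J := by
  have h := bet_pos hm
  induction J with
  | zero => simp
  | succ J ih =>
    rw [Finset.sum_range_succ, ih]
    unfold gw
    have h1 : (0:ℝ) < (1 + bet m) ^ J := by positivity
    rw [pow_succ]
    field_simp
    ring

lemma sum_gw_le {m : ℕ} (hm : 2 ≤ m) (J : ℕ) : ∑ j ∈ Finset.range J, gw m j ≤ 1 := by
  rw [sum_gw hm]
  have h := bet_pos hm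
  have : (0:ℝ) ≤ 1 / (1 + bet m) ^ J := by positivity
  linarith

/-- the gain in the exponent -/
lemma gain {m : ℕ} (hm : 2 ≤ m) :
    1 / (4 * (m:ℝ) ^ 3) ≤ 1 - 1 / m * (1 / (1 + bet m) ^ m) - (1 - 1 / m) * (1 + bet m) := by
  have hM : (2:ℝ) ≤ m := by exact_mod_cast hm
  have hM0 : (0:ℝ) < m := by linarith
  have hb := bet_pos hm
  have h1 : 1 + (m:ℝ) * bet m ≤ (1 + bet m) ^ m := one_add_mul_le_pow (by linarith) m
  have h2 : 1 / (1 + bet m) ^ m ≤ 1 / (1 + (m:ℝ) * bet m) :=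
    one_div_le_one_div_of_le (by positivity) h1
  have h3 : 1 / (m:ℝ) * (1 / (1 + bet m) ^ m) ≤ 1 / m * (1 / (1 + (m:ℝ) * bet m)) :=
    mul_le_mul_of_nonneg_left h2 (by positivity)
  have h4 : 1 - 1 / (m:ℝ) * (1 / (1 + (m:ℝ) * bet m)) - (1 - 1 / m) * (1 + bet m) -
      1 / (4 * (m:ℝ) ^ 3) = 1 / (4 * (m:ℝ) ^ 3 * (2 * m + 1)) := by
    rw [bet_mul hm]
    unfold bet
    field_simp
    ring
  have h5 : (0:ℝ) ≤ 1 / (4 * (m:ℝ) ^ 3 * (2 * m + 1)) := by positivity
  linarith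

lemma exp_bound {m : ℕ} (hm : 2 ≤ m) : 24 * (m:ℝ) ^ 2 ≤ Real.exp (2 * m + 1) := by
  induction m, hm using Nat.le_induction with
  | base =>
    have h1 := Real.exp_one_gt_d9
    have h2 : Real.exp (2 * ((2:ℕ):ℝ) + 1) = Real.exp 1 ^ 5 := by
      rw [← Real.exp_nat_mul]; congr 1; norm_num
    have h3 : (2.7182818283 : ℝ) ^ 5 ≤ Real.exp 1 ^ 5 := by gcongr
    rw [h2]
    refine le_trans ?_ h3
    norm_num
  | succ m hm ih =>
    have hM : (2:ℝ) ≤ m := by exact_mod_cast hm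
    have h1 : Real.exp (2 * ((m + 1 : ℕ):ℝ) + 1) = Real.exp (2 * m + 1) * Real.exp 2 := by
      rw [← Real.exp_add]; congr 1; push_cast; ring
    have h2 : (3:ℝ) ≤ Real.exp 2 := by
      have := Real.add_one_le_exp (2:ℝ)
      linarith
    rw [h1]
    push_cast
    have h3 : 24 * ((m:ℝ) + 1) ^ 2 ≤ 24 * (m:ℝ) ^ 2 * 3 := by nlinarith
    have h4 : 24 * (m:ℝ) ^ 2 * 3 ≤ Real.exp (2 * m + 1) * Real.exp 2 :=
      mul_le_mul ih h2 (by norm_num) (Real.exp_pos _).le
    linarith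

lemma cst_zero_le {m : ℕ} (hm : 2 ≤ m) {q : ℝ} (hq : 0 ≤ q) : cst m q m ≤ 16 * (m:ℝ) ^ 4 * q := by
  have hM : (2:ℝ) ≤ m := by exact_mod_cast hm
  have hM0 : (0:ℝ) < m := by linarith
  have hb := bet_pos hm
  have hb8 := bet_le hm
  have h1 : 1 + (m:ℝ) * (-bet m) ≤ (1 + (-bet m)) ^ m := one_add_mul_le_pow (by linarith) m
  have h2 : (1 + bet m) ^ m * (1 + (-bet m)) ^ m ≤ 1 := by
    rw [← mul_pow]
    apply pow_le_one₀
    · nlinarith
    · nlinarith
  have h3 : 0 ≤ (1 + bet m) ^ m := by positivity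
  have h4 : (1 + bet m) ^ m * (1 - 1 / (2 * m)) ≤ 1 := by
    have : 1 - 1 / (2 * (m:ℝ)) = 1 + (m:ℝ) * (-bet m) := by
      rw [mul_neg, bet_mul hm]; ring
    rw [this]
    exact (mul_le_mul_of_nonneg_left h1 h3).trans h2
  have h5 : (1 + bet m) ^ m * (m + 1) ≤ 2 * m := by
    have h6 : (1:ℝ) / (2 * m) ≤ 1 / 4 := by
      apply one_div_le_one_div_of_le (by norm_num); linarith
    have h7 : (0:ℝ) ≤ 1 / (2 * m) := by positivity
    have h8 : (m:ℝ) + 1 ≤ 2 * m * (1 - 1 / (2 * m)) := by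
      have : 2 * (m:ℝ) * (1 - 1 / (2 * m)) = 2 * m - 1 := by field_simp
      rw [this]; linarith
    calc (1 + bet m) ^ m * (m + 1) ≤ (1 + bet m) ^ m * (2 * m * (1 - 1 / (2 * m))) :=
          mul_le_mul_of_nonneg_left h8 h3
      _ = 2 * m * ((1 + bet m) ^ m * (1 - 1 / (2 * m))) := by ring
      _ ≤ 2 * m * 1 := mul_le_mul_of_nonneg_left h4 (by positivity)
      _ = 2 * m := by ring
  unfold cst
  calc 8 * (m:ℝ) ^ 3 * (m + 1) * q * (1 + bet m) ^ m
      = 8 * (m:ℝ) ^ 3 * q * ((1 + bet m) ^ m * (m + 1)) := by ring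
    _ ≤ 8 * (m:ℝ) ^ 3 * q * (2 * m) := mul_le_mul_of_nonneg_left h5 (by positivity)
    _ = 16 * (m:ℝ) ^ 4 * q := by ring

lemma cst_add (m : ℕ) (q : ℝ) (i j : ℕ) : cst m q (i + j) = cst m q i * (1 + bet m) ^ j := by
  unfold cst; rw [pow_add]; ring

lemma cst_ge {m : ℕ} (hm : 2 ≤ m) {q : ℝ} (hq : 1 ≤ q) (j : ℕ) :
    8 * (m:ℝ) ^ 3 * ((m:ℝ) + 1) * q * (1 + bet m * j) ≤ cst m q j := by
  have hb := bet_pos hm
  have hM : (2:ℝ) ≤ m := by exact_mod_cast hm
  unfold cst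
  have h1 : 1 + (j:ℝ) * bet m ≤ (1 + bet m) ^ j := one_add_mul_le_pow (by linarith) j
  apply mul_le_mul_of_nonneg_left (by linarith) (by positivity)

lemma q_le_cst {m : ℕ} (hm : 2 ≤ m) {q : ℝ} (hq : 1 ≤ q) (j : ℕ) : q + j ≤ cst m q j := by
  have hb := bet_pos hm
  have hM : (2:ℝ) ≤ m := by exact_mod_cast hm
  refine le_trans ?_ (cst_ge hm hq j)
  have hj : (0:ℝ) ≤ j := Nat.cast_nonneg j
  have h1 : 8 * (m:ℝ) ^ 3 * ((m:ℝ) + 1) * q * (bet m * j) = 4 * m * (m + 1) * q * j := by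
    unfold bet; field_simp; ring
  have h2 : 1 * q ≤ 8 * (m:ℝ) ^ 3 * ((m:ℝ) + 1) * q := by
    apply mul_le_mul_of_nonneg_right _ (by linarith)
    have : (1:ℝ) ≤ (m:ℝ) ^ 3 := one_le_pow₀ (by linarith)
    nlinarith
  have h3 : 1 * (j:ℝ) ≤ 4 * m * (m + 1) * q * j := by
    apply mul_le_mul_of_nonneg_right _ hj
    have : (1:ℝ) ≤ 4 * m * (m + 1) := by nlinarith
    nlinarith
  rw [mul_add, mul_one, h1]
  linarith

/-- the basic numerical inequality -/
lemma key_num {m : ℕ} (hm : 2 ≤ m) {q : ℝ} (hq : 1 ≤ q) (j : ℕ) :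
    12 * Real.exp q * Real.exp (-(cst m q (j + m) / (4 * (m:ℝ) ^ 3))) ≤ gw m j := by
  have hb := bet_pos hm
  have hM : (2:ℝ) ≤ m := by exact_mod_cast hm
  have hM0 : (0:ℝ) < m := by linarith
  have hj : (0:ℝ) ≤ j := Nat.cast_nonneg j
  set Y := cst m q (j + m) / (4 * (m:ℝ) ^ 3) with hY
  have h1 : 2 * ((m:ℝ) + 1) * q * (1 + bet m * (j + m)) ≤ Y := by
    rw [hY, le_div_iff₀ (by positivity)]
    have := cst_ge hm hq (j + m)
    push_cast at this
    linarith
  have h2 : q + (2 * m + 1) + bet m * (j + 1) ≤ Y := by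
    refine le_trans ?_ h1
    have h3 : q + (2 * m + 1) ≤ 2 * ((m:ℝ) + 1) * q := by nlinarith
    have h4 : bet m * (j + 1) ≤ 2 * ((m:ℝ) + 1) * q * (bet m * (j + m)) := by
      have h5 : bet m * (j + 1) ≤ bet m * (j + m) := by nlinarith
      have h6 : 1 * (bet m * (j + m)) ≤ 2 * ((m:ℝ) + 1) * q * (bet m * (j + m)) := by
        apply mul_le_mul_of_nonneg_right _ (by positivity)
        nlinarith
      linarith
    linarith
  have h3 : Real.exp (q + (2 * m + 1) + bet m * (j + 1)) ≤ Real.exp Y := Real.exp_le_exp.2 h2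
  have h4 : Real.exp (q + (2 * m + 1) + bet m * (j + 1)) =
      Real.exp q * Real.exp (2 * m + 1) * Real.exp (bet m * (j + 1)) := by
    rw [← Real.exp_add, ← Real.exp_add]
  have h5 : (1 + bet m) ^ (j + 1) ≤ Real.exp (bet m * (j + 1)) := by
    have h6 := Real.add_one_le_exp (bet m)
    calc (1 + bet m) ^ (j + 1) ≤ Real.exp (bet m) ^ (j + 1) := by
          apply pow_le_pow_left₀ (by linarith); linarith
      _ = Real.exp (bet m * (j + 1)) := by
          rw [← Real.exp_nat_mul]; congr 1; push_cast; ring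
  have h6 := exp_bound hm
  have h7 : Real.exp q * (24 * (m:ℝ) ^ 2) * (1 + bet m) ^ (j + 1) ≤ Real.exp Y := by
    rw [h4] at h3
    refine le_trans ?_ h3
    gcongr
  unfold gw
  rw [le_div_iff₀ (by positivity)]
  have h8 : Real.exp (-Y) * Real.exp Y = 1 := by rw [← Real.exp_add]; simp
  have h9 : bet m * (2 * (m:ℝ) ^ 2) = 1 := by unfold bet; field_simp
  calc 12 * Real.exp q * Real.exp (-Y) * (1 + bet m) ^ (j + 1)
      = bet m * Real.exp (-Y) * (Real.exp q * (24 * (m:ℝ) ^ 2) * (1 + bet m) ^ (j + 1)) := by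
        linear_combination (-12 * Real.exp q * Real.exp (-Y) * (1 + bet m) ^ (j + 1)) * h9
    _ ≤ bet m * Real.exp (-Y) * Real.exp Y := by gcongr
    _ = bet m := by rw [mul_assoc, h8, mul_one]

/-- the number of steps of a stage -/
lemma exists_N {m : ℕ} (hm : 2 ≤ m) {q : ℝ} (hq : 1 ≤ q) (j : ℕ) : ∃ N : ℕ, 0 < N ∧
    1 ≤ N * ((Real.exp (-(cst m q j)) / 2) ^ ((1:ℝ) / m) *
      Real.exp (-(cst m q (j + 1 + m))) ^ (1 - (1:ℝ) / m)) ∧
    N * Real.exp (-(cst m q (j + m))) ≤ gw m j * Real.exp (-q) / 4 ∧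
    Real.exp q * (N * Real.exp (-(cst m q (j + 1 + m)))) ≤
      gw m j ^ 2 * (gw m j * Real.exp (-q) / 4) / 2 := by
  have hb := bet_pos hm
  have hM : (2:ℝ) ≤ m := by exact_mod_cast hm
  have hM0 : (0:ℝ) < m := by linarith
  set w := cst m q j with hw
  set s := cst m q (j + m) with hs
  set u := cst m q (j + 1 + m) with hu
  set lam : ℝ := (1:ℝ) / m with hlam
  have hlam0 : 0 < lam := by positivity
  have hlam1 : lam ≤ 1 / 2 := by
    rw [hlam]; apply one_div_le_one_div_of_le (by norm_num) hM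
  have hw0 : 0 ≤ w := by have := q_le_cst hm hq j; have hj : (0:ℝ) ≤ j := Nat.cast_nonneg j; linarith
  have hs0 : 0 ≤ s := by
    have := q_le_cst hm hq (j + m); have hj : (0:ℝ) ≤ ((j + m : ℕ):ℝ) := Nat.cast_nonneg _; linarith
  have hu0 : 0 ≤ u := by
    have := q_le_cst hm hq (j + 1 + m)
    have hj : (0:ℝ) ≤ ((j + 1 + m : ℕ):ℝ) := Nat.cast_nonneg _; linarith
  have hpw : (0:ℝ) < (1 + bet m) ^ m := by positivity
  have hws : w = s * (1 / (1 + bet m) ^ m) := by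
    rw [hs, cst_add, hw]; field_simp
  have hus : u = s * (1 + bet m) := by
    have : j + 1 + m = (j + m) + 1 := by ring
    rw [hu, this, cst_add, pow_one]
  set Y := s / (4 * (m:ℝ) ^ 3) with hY
  have hY0 : 0 ≤ Y := by positivity
  set e := lam * w + (1 - lam) * u with he
  have he0 : 0 ≤ e := by
    have : 0 ≤ 1 - lam := by linarith
    positivity
  have hgain : Y ≤ s - e := by
    have h1 := mul_le_mul_of_nonneg_left (gain hm) hs0
    rw [he, hws, hus, hY]
    calc s / (4 * (m:ℝ) ^ 3) = s * (1 / (4 * (m:ℝ) ^ 3)) := by ring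
      _ ≤ _ := h1
      _ = _ := by rw [hlam]; ring
  have hus2 : 4 * Y ≤ u - s := by
    have h1 : u - s = s * bet m := by rw [hus]; ring
    have h2 : 4 * Y = s * (1 / (m:ℝ) ^ 3) := by rw [hY]; field_simp
    rw [h1, h2]
    apply mul_le_mul_of_nonneg_left _ hs0
    unfold bet
    apply one_div_le_one_div_of_le (by positivity)
    nlinarith [pow_pos hM0 2]
  have hkey := key_num hm hq j
  rw [← hs, ← hY] at hkey
  set g := gw m j with hg
  have hg0 : 0 < g := gw_pos hm j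
  have hg1 : g ≤ 1 := gw_le_one hm j
  set N := ⌈2 * Real.exp e⌉₊ with hN
  have h1 : 1 ≤ Real.exp e := Real.one_le_exp he0
  have hNge : 2 * Real.exp e ≤ N := Nat.le_ceil _
  have hNle : (N:ℝ) ≤ 3 * Real.exp e := by
    have := Nat.ceil_lt_add_one (a := 2 * Real.exp e) (by positivity)
    rw [← hN] at this
    linarith
  have hN0 : 0 < N := by
    have : (0:ℝ) < N := by linarith
    exact_mod_cast this
  have hEq : Real.exp q * Real.exp (-q) = 1 := by rw [← Real.exp_add]; simp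
  have hqpos := Real.exp_pos q
  have hq1 : Real.exp (-q) ≤ 1 := by rw [Real.exp_le_one_iff]; linarith
  have hY1 : Real.exp (-Y) ≤ g * Real.exp (-q) / 12 := by
    have := mul_le_mul_of_nonneg_right hkey (Real.exp_pos (-q)).le
    have e1 : 12 * Real.exp q * Real.exp (-Y) * Real.exp (-q) =
        12 * Real.exp (-Y) * (Real.exp q * Real.exp (-q)) := by ring
    rw [e1, hEq, mul_one] at this
    linarith
  have hNs : (N:ℝ) * Real.exp (-s) ≤ 3 * Real.exp (-Y) := by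
    calc (N:ℝ) * Real.exp (-s) ≤ 3 * Real.exp e * Real.exp (-s) :=
          mul_le_mul_of_nonneg_right hNle (Real.exp_pos _).le
      _ = 3 * Real.exp (-(s - e)) := by rw [mul_assoc, ← Real.exp_add]; congr 2; ring
      _ ≤ 3 * Real.exp (-Y) := by
          have := Real.exp_le_exp.2 (neg_le_neg hgain)
          linarith
  refine ⟨N, hN0, ?_, ?_, ?_⟩
  · have h2 : (Real.exp (-w) / 2) ^ lam * Real.exp (-u) ^ (1 - lam) =
        (1 / 2 : ℝ) ^ lam * Real.exp (-e) := by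
      rw [div_eq_mul_one_div, Real.mul_rpow (Real.exp_pos _).le (by norm_num), ← Real.exp_mul,
        ← Real.exp_mul]
      have : Real.exp (-e) = Real.exp (-w * lam) * Real.exp (-u * (1 - lam)) := by
        rw [← Real.exp_add, he]; congr 1; ring
      rw [this]; ring
    rw [h2]
    have h3 : (1 / 2 : ℝ) ≤ (1 / 2 : ℝ) ^ lam := by
      have := Real.rpow_le_rpow_of_exponent_ge (x := (1/2:ℝ)) (by norm_num) (by norm_num)
        (show lam ≤ 1 by linarith)
      simpa using this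
    have h4 : Real.exp e * Real.exp (-e) = 1 := by rw [← Real.exp_add]; simp
    calc (1:ℝ) = 2 * Real.exp e * (1 / 2 * Real.exp (-e)) := by
          linear_combination (-1:ℝ) * h4
      _ ≤ N * ((1 / 2 : ℝ) ^ lam * Real.exp (-e)) := by
          apply mul_le_mul hNge _ (by positivity) (Nat.cast_nonneg _)
          exact mul_le_mul_of_nonneg_right h3 (Real.exp_pos _).le
  · linarith
  · have h2 : (N:ℝ) * Real.exp (-u) ≤ 3 * Real.exp (-Y) * Real.exp (-Y) ^ 4 := by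
      have h3 : Real.exp (-u) = Real.exp (-s) * Real.exp (-(u - s)) := by
        rw [← Real.exp_add]; congr 1; ring
      have h4 : Real.exp (-(u - s)) ≤ Real.exp (-Y) ^ 4 := by
        rw [← Real.exp_nat_mul]
        apply Real.exp_le_exp.2
        push_cast; linarith
      rw [h3, ← mul_assoc]
      exact mul_le_mul hNs h4 (Real.exp_pos _).le (by positivity)
    set x := Real.exp (-Y) with hx
    have hx0 : 0 < x := Real.exp_pos _
    set y := Real.exp (-q) with hy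
    have hy0 : 0 < y := Real.exp_pos _
    have h5 : x ^ 2 ≤ (g * y / 12) ^ 2 := pow_le_pow_left₀ hx0.le hY1 2
    have hx1 : x ≤ 1 := by
      rw [hx, Real.exp_le_one_iff]; linarith
    have h6 : x ^ 5 ≤ (g * y / 12) ^ 3 := by
      calc x ^ 5 ≤ x ^ 3 := pow_le_pow_of_le_one hx0.le hx1 (by norm_num)
        _ ≤ (g * y / 12) ^ 3 := pow_le_pow_left₀ hx0.le hY1 3
    have h7 : Real.exp q * (g * y / 12) ^ 3 = g ^ 3 * y ^ 2 / 12 ^ 3 := by
      linear_combination (g ^ 3 * y ^ 2 / 12 ^ 3) * hEq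
    calc Real.exp q * (N * Real.exp (-u)) ≤ Real.exp q * (3 * x * x ^ 4) :=
          mul_le_mul_of_nonneg_left h2 hqpos.le
      _ = 3 * (Real.exp q * x ^ 5) := by ring
      _ ≤ 3 * (Real.exp q * (g * y / 12) ^ 3) := by gcongr
      _ = 3 * (g ^ 3 * y ^ 2 / 12 ^ 3) := by rw [h7]
      _ ≤ g ^ 2 * (g * y / 4) / 2 := by
          have h8 : g ^ 3 * y ^ 2 ≤ g ^ 3 * y := by
            apply mul_le_mul_of_nonneg_left _ (by positivity)
            nlinarith
          have h9 : 0 ≤ g ^ 3 * y := by positivity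
          nlinarith

end Pool.WS
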