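import Pool.Agent.CIP.EC

set_option autoImplicit false

open MeasureTheory Pointwise Set Filter Topology

namespace Pool.WS

variable {E : Type*} [NormedAddCommGroup E] [NormedSpace ℝ E] [MeasurableSpace E] [BorelSpace E]
  {μ : Measure E}

/-- one stage: the pieces `Pc i` carry the directions -/
lemma stage2 [CompleteSpace E] [SecondCountableTopology E] [IsProbabilityMeasure μ]
    {lam : ℝ} (hlam0 : 0 < lam) (hlam1 : lam < 1) (hlc : WLC μ lam)
    {ι : Type*} [DecidableEq ι] {V : Finset ι} {φ : ι → E →L[ℝ] ℝ} {a b t t' : ι → ℝ}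
    {α κ κ' ν ε : ℝ} (hα : 0 < α) (hκ0 : 0 ≤ κ) (hκ'0 : 0 < κ') (hν0 : 0 ≤ ν)
    {Pc : ι → Set E} (hPm : ∀ i, MeasurableSet (Pc i))
    {S A : Set E} (hS : MeasurableSet S) (hA : MeasurableSet A)
    (hSP : S ⊆ ⋃ i ∈ V, Pc i)
    (hκ : ∀ i ∈ V, μ.real (S ∩ up (φ i) (t i)) ≤ κ)
    (hν : ∀ i ∈ V, μ.real (A ∩ ou (φ i) (b i)) ≤ ν)
    (ht : ∀ i ∈ V, lam * b i + (1 - lam) * t i ≤ lam * a i + (1 - lam) * t' i)
    {N : ℕ} (hN0 : 0 < N) (hN : 1 ≤ N * ((α / 2) ^ lam * κ' ^ (1 - lam)))
    (ND : ∀ A' ⊆ A, MeasurableSet A' → μ.real A - N * ν ≤ μ.real A' →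
      ∀ W ⊆ V, (∀ i ∈ W, μ.real (A' ∩ up (φ i) (a i)) < α) → ∑ i ∈ W, μ.real (Pc i) ≤ ε) :
    ∃ V' ⊆ V, ∃ S' ⊆ S, MeasurableSet S' ∧ S' ⊆ (⋃ i ∈ V', Pc i) ∧
      μ.real S - (N * κ + ε) ≤ μ.real S' ∧ ∀ i ∈ V', μ.real (S' ∩ up (φ i) (t' i)) ≤ κ' := by
  classical
  by_contra hcon
  push Not at hcon
  refine greedy hlam0 hlam1 hlc (V := (V : Set ι)) (φ := φ) (a := a) (b := b) (t := t) (t' := t')
    hα hκ0 hκ'0 hν0 hS hA hκ hν ht hN0 hN ?_
  intro S' hS'S A' hA'A hS'm hA'm hS' hA'
  set V1 := V.filter fun i => κ' < μ.real (S' ∩ up (φ i) (t' i)) with hV1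
  have hV1V : V1 ⊆ V := Finset.filter_subset _ _
  have h1 : ε < μ.real (S' ∩ ⋃ i ∈ V1, Pc i) := by
    by_contra h2
    push Not at h2
    have hU : MeasurableSet (⋃ i ∈ V1, Pc i) := Finset.measurableSet_biUnion _ fun i _ => hPm i
    obtain ⟨i, hi, hi'⟩ := hcon (V \ V1) Finset.sdiff_subset (S' \ ⋃ i ∈ V1, Pc i)
      (sdiff_subset.trans hS'S) (hS'm.diff hU) (by
        intro x hx
        obtain ⟨i, hi, hxi⟩ : ∃ i ∈ V, x ∈ Pc i := by
          have := hSP (hS'S hx.1)
          simpa only [mem_iUnion, exists_prop] using this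
        have hi1 : i ∉ V1 := fun h => hx.2 (mem_biUnion (x := i) (Finset.mem_coe.2 h) hxi)
        exact mem_biUnion (x := i) (Finset.mem_coe.2 (Finset.mem_sdiff.2 ⟨hi, hi1⟩)) hxi) (by
        have h3 : μ.real S' ≤ μ.real (S' \ ⋃ i ∈ V1, Pc i) + μ.real (S' ∩ ⋃ i ∈ V1, Pc i) := by
          refine le_trans (measureReal_mono ?_ (measure_ne_top μ _)) (measureReal_union_le _ _)
          intro x hx
          by_cases hx' : x ∈ ⋃ i ∈ V1, Pc i
          · exact Or.inr ⟨hx, hx'⟩
          · exact Or.inl ⟨hx, hx'⟩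
        linarith)
    rw [Finset.mem_sdiff] at hi
    refine hi.2 ?_
    rw [hV1, Finset.mem_filter]
    refine ⟨hi.1, hi'.trans_le (measureReal_mono ?_ (measure_ne_top μ _))⟩
    exact inter_subset_inter_left _ sdiff_subset
  by_contra h2
  push Not at h2
  have h3 := ND A' hA'A hA'm hA' V1 hV1V (by
    intro i hi
    have hi' := hi
    rw [hV1, Finset.mem_filter] at hi'
    exact h2 i hi'.1 hi'.2)
  have h4 : μ.real (S' ∩ ⋃ i ∈ V1, Pc i) ≤ ∑ i ∈ V1, μ.real (Pc i) :=
    (measureReal_mono inter_subset_right (measure_ne_top μ _)).trans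
      (measureReal_biUnion_finset_le _ _)
  linarith

/-- near minimisers -/
lemma near_min {X : Type*} [Nonempty X] (F : X → ℝ) (hF : BddBelow (Set.range F)) {τ : ℝ}
    (hτ : 0 < τ) : ∃ x, ∀ y, F x ≤ F y + τ := by
  obtain ⟨z, ⟨x, rfl⟩, hx⟩ := exists_lt_of_csInf_lt (Set.range_nonempty F)
    (lt_add_of_pos_right (sInf (Set.range F)) hτ)
  exact ⟨x, fun y => hx.le.trans (by have := csInf_le hF ⟨y, rfl⟩; linarith)⟩

/-- **The core theorem.** -/
theorem core [CompleteSpace E] [SecondCountableTopology E] [IsProbabilityMeasure μ]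
    {m : ℕ} (hm : 2 ≤ m) (hlc : WLC μ (1 / m)) {q : ℝ} (hq : 1 ≤ q)
    {A : Set E} (hA : MeasurableSet A) {ι : Type*} [DecidableEq ι] (V : Finset ι)
    (φ : ι → E →L[ℝ] ℝ) (l h t₀ : ι → ℝ)
    (hh : ∀ i ∈ V, ∀ x ∈ A, φ i x ≤ h i)
    (hl : ∀ i ∈ V, 4 * Real.exp (-q) ≤ μ.real (A ∩ up (φ i) (l i)))
    (h0 : ∀ i ∈ V, μ.real (up (φ i) (t₀ i)) ≤ Real.exp (-(16 * m ^ 4 * q))) :
    μ.real (⋃ i ∈ V, up (φ i) (t₀ i + (m + 2) / (m - 1) * (h i - l i))) ≤ Real.exp (-q) := by
  classical
  by_contra hcon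
  push Not at hcon
  have hM : (2:ℝ) ≤ m := by exact_mod_cast hm
  have hM0 : (0:ℝ) < m := by linarith
  have hM1 : (0:ℝ) < m - 1 := by linarith
  have hb := bet_pos hm
  have hqpos := Real.exp_pos (-q)
  have hq1 : Real.exp (-q) ≤ 1 := by rw [Real.exp_le_one_iff]; linarith
  have hEq : Real.exp q * Real.exp (-q) = 1 := by rw [← Real.exp_add]; simp
  have hr : ∀ i ∈ V, l i ≤ h i := by
    intro i hi
    have h1 : (A ∩ up (φ i) (l i)).Nonempty := by
      rw [nonempty_iff_ne_empty]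
      intro h2
      have h3 := hl i hi
      rw [h2] at h3
      simp at h3
      linarith
    obtain ⟨x, hx, hx'⟩ := h1
    have h2 : l i ≤ φ i x := hx'
    exact h2.trans (hh i hi x hx)
  set U : ι → Set E := fun i => up (φ i) (t₀ i + (m + 2) / (m - 1) * (h i - l i)) with hU
  obtain ⟨Pc, hPm, hPU, hPd, hPc⟩ := exists_partition V U fun i => meas_up _ _
  have hPsum : ∑ i ∈ V, μ.real (Pc i) ≤ 1 := by
    rw [← measureReal_biUnion_finset hPd fun i _ => hPm i]
    exact measureReal_le_one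
  -- the number of scales
  obtain ⟨J, hJ⟩ : ∃ J : ℕ, V.card * Real.exp (-(cst m q (J + m))) < Real.exp (-q) / 2 := by
    have hlim : Tendsto (fun j : ℕ => (V.card : ℝ) * Real.exp (-(j:ℝ))) atTop
        (𝓝 ((V.card:ℝ) * 0)) :=
      (Real.tendsto_exp_neg_atTop_nhds_zero.comp tendsto_natCast_atTop_atTop).const_mul _
    rw [mul_zero] at hlim
    obtain ⟨J, hJ⟩ := (hlim.eventually (gt_mem_nhds (half_pos hqpos))).exists
    refine ⟨J, lt_of_le_of_lt ?_ hJ⟩
    apply mul_le_mul_of_nonneg_left _ (Nat.cast_nonneg _)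
    apply Real.exp_le_exp.2
    have := q_le_cst hm hq (J + m)
    push_cast at this
    linarith
  set f : ℕ → ι → Set E → ℝ := fun j i B => qt μ (φ i) (l i) (h i) (Real.exp (-(cst m q j))) B
    with hf
  set Ps : ℕ → Set E → ℝ := fun j B => ∑ i ∈ V, μ.real (Pc i) * ((f j i B - l i) / (h i - l i))
    with hPs
  set Pot : Set E → ℝ := fun B => ∑ j ∈ Finset.range J, gw m j * Ps j B - Real.exp q * μ.real B
    with hPot
  have hratio : ∀ j, ∀ i ∈ V, ∀ B, 0 ≤ (f j i B - l i) / (h i - l i) ∧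
      (f j i B - l i) / (h i - l i) ≤ 1 := by
    intro j i hi B
    have h1 := hr i hi
    have h2 : l i ≤ f j i B := qt_ge h1
    have h3 : f j i B ≤ h i := qt_le h1
    refine ⟨div_nonneg (by linarith) (by linarith), div_le_one_of_le₀ (by linarith) (by linarith)⟩
  have hPs0 : ∀ j B, 0 ≤ Ps j B := fun j B => Finset.sum_nonneg fun i hi =>
    mul_nonneg measureReal_nonneg (hratio j i hi B).1
  have hPs1 : ∀ j B, Ps j B ≤ 1 := by
    intro j B
    refine le_trans (Finset.sum_le_sum fun i hi => ?_) hPsum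
    exact mul_le_of_le_one_right measureReal_nonneg (hratio j i hi B).2
  have hPsmono : ∀ j B B', B ⊆ B' → Ps j B ≤ Ps j B' := by
    intro j B B' hBB
    refine Finset.sum_le_sum fun i hi => mul_le_mul_of_nonneg_left ?_ measureReal_nonneg
    have h1 := hr i hi
    have h2 : f j i B ≤ f j i B' := qt_mono h1 hBB
    exact div_le_div_of_nonneg_right (by linarith) (by linarith)
  set τ := gw m J ^ 2 * (gw m J * Real.exp (-q) / 4) / 2 with hτ
  have hgJ := gw_pos hm J
  have hτ0 : 0 < τ := by positivity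
  have hτ1 : τ ≤ 1 := by
    have h1 := gw_le_one hm J
    have h2 : gw m J ^ 2 ≤ 1 := pow_le_one₀ hgJ.le h1
    have h3 : gw m J * Real.exp (-q) ≤ 1 := by nlinarith
    have h4 : 0 ≤ gw m J * Real.exp (-q) := by positivity
    have h5 : 0 ≤ gw m J ^ 2 := by positivity
    rw [hτ]
    nlinarith
  obtain ⟨A1, hA1A, hA1m, hmin⟩ : ∃ A1 ⊆ A, MeasurableSet A1 ∧
      ∀ B ⊆ A, MeasurableSet B → Pot A1 ≤ Pot B + τ := by
    have : Nonempty {B : Set E // B ⊆ A ∧ MeasurableSet B} := ⟨⟨A, subset_rfl, hA⟩⟩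
    obtain ⟨⟨A1, h1, h2⟩, h3⟩ := near_min (X := {B : Set E // B ⊆ A ∧ MeasurableSet B})
      (fun B => Pot B.1) ⟨-Real.exp q, by
        rintro _ ⟨B, rfl⟩
        have h1 : 0 ≤ ∑ j ∈ Finset.range J, gw m j * Ps j B.1 :=
          Finset.sum_nonneg fun j _ => mul_nonneg (gw_pos hm j).le (hPs0 j _)
        have h2 : μ.real B.1 ≤ 1 := measureReal_le_one
        have h3 := Real.exp_pos q
        simp only [hPot]
        nlinarith⟩ hτ0
    exact ⟨A1, h1, h2, fun B hB hB' => h3 ⟨B, hB, hB'⟩⟩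
  have hmassA1 : μ.real A - 2 * Real.exp (-q) ≤ μ.real A1 := by
    have h1 := hmin A subset_rfl hA
    have h2 : 0 ≤ ∑ j ∈ Finset.range J, gw m j * Ps j A1 :=
      Finset.sum_nonneg fun j _ => mul_nonneg (gw_pos hm j).le (hPs0 j _)
    have h3 : ∑ j ∈ Finset.range J, gw m j * Ps j A ≤ 1 := by
      refine le_trans (Finset.sum_le_sum fun j _ => ?_) (sum_gw_le hm J)
      exact mul_le_of_le_one_right (gw_pos hm j).le (hPs1 j A)
    simp only [hPot] at h1
    have h4 : Real.exp q * (μ.real A - μ.real A1) ≤ 2 := by linarith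
    have h5 : μ.real A - μ.real A1 ≤ 2 * Real.exp (-q) := by
      calc μ.real A - μ.real A1 = Real.exp q * (μ.real A - μ.real A1) * Real.exp (-q) := by
            linear_combination (-(μ.real A - μ.real A1)) * hEq
        _ ≤ 2 * Real.exp (-q) := mul_le_mul_of_nonneg_right h4 hqpos.le
    linarith
  have hgj1 : ∀ j, 0 ≤ j → Real.exp (-(cst m q j)) ≤ Real.exp (-q) := by
    intro j _
    apply Real.exp_le_exp.2
    have := q_le_cst hm hq j
    have hj : (0:ℝ) ≤ j := Nat.cast_nonneg j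
    linarith
  -- no drop
  have hND : ∀ j < J, ∀ ν' : ℝ, Real.exp q * ν' ≤ gw m j ^ 2 * (gw m j * Real.exp (-q) / 4) / 2 →
      ∀ B ⊆ A1, MeasurableSet B → μ.real A1 - ν' ≤ μ.real B → ∀ W ⊆ V,
      (∀ i ∈ W, μ.real (B ∩ up (φ i) (f j i A1 - gw m j * (h i - l i))) <
        Real.exp (-(cst m q j))) → ∑ i ∈ W, μ.real (Pc i) ≤ gw m j * Real.exp (-q) / 4 := by
    intro j hj ν' hν' B hB hBm hBμ W hW hdrop
    have hg := gw_pos hm j
    have hg1 := gw_le_one hm j
    have h1 := hmin B (hB.trans hA1A) hBm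
    have hν1 : ν' ≤ Real.exp (-q) := by
      have h2 : gw m j ^ 2 * (gw m j * Real.exp (-q) / 4) / 2 ≤ 1 := by
        have h2 : gw m j ^ 2 ≤ 1 := pow_le_one₀ hg.le hg1
        have h3 : gw m j * Real.exp (-q) ≤ 1 := by nlinarith
        have h4 : 0 ≤ gw m j * Real.exp (-q) := by positivity
        have h5 : 0 ≤ gw m j ^ 2 := by positivity
        nlinarith
      calc ν' = Real.exp q * ν' * Real.exp (-q) := by linear_combination (-ν') * hEq
        _ ≤ 1 * Real.exp (-q) := mul_le_mul_of_nonneg_right (hν'.trans h2) hqpos.le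
        _ = Real.exp (-q) := one_mul _
    -- the quantiles of `B` drop on `W`
    have hq2 : ∀ i ∈ W, 0 < h i - l i ∧ f j i B < f j i A1 - gw m j * (h i - l i) := by
      intro i hi
      have hri := hr i (hW hi)
      have hBl : Real.exp (-(cst m q j)) ≤ μ.real (B ∩ up (φ i) (l i)) := by
        have h2 := hl i (hW hi)
        have h3 : μ.real (A ∩ up (φ i) (l i)) ≤ μ.real (B ∩ up (φ i) (l i)) + μ.real (A \ B) := by
          refine le_trans (measureReal_mono ?_ (measure_ne_top μ _)) (measureReal_union_le _ _)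
          intro x hx
          by_cases hx' : x ∈ B
          · exact Or.inl ⟨hx', hx.2⟩
          · exact Or.inr ⟨hx.1, hx'⟩
        have h4 : μ.real (A \ B) = μ.real A - μ.real B :=
          measureReal_sdiff (hB.trans hA1A) hBm
        have h5 := hgj1 j (Nat.zero_le _)
        linarith
      have h2 : f j i B < f j i A1 - gw m j * (h i - l i) := by
        by_contra h3
        push Not at h3
        have h4 : Real.exp (-(cst m q j)) ≤ μ.real (B ∩ up (φ i) (f j i B)) := qt_up hBm hri hBl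
        have h5 : μ.real (B ∩ up (φ i) (f j i B)) ≤
            μ.real (B ∩ up (φ i) (f j i A1 - gw m j * (h i - l i))) := by
          refine measureReal_mono ?_ (measure_ne_top μ _)
          intro x hx
          exact ⟨hx.1, h3.trans hx.2⟩
        have h6 := hdrop i hi
        linarith
      refine ⟨?_, h2⟩
      rcases hri.eq_or_lt with h3 | h3
      · exfalso
        have h4 : l i ≤ f j i B := qt_ge hri
        have h5 : f j i A1 ≤ h i := qt_le hri
        rw [← h3] at h2 h5
        rw [sub_self, mul_zero, sub_zero] at h2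
        linarith
      · linarith
    -- the potential drops
    have hdropPs : Ps j B ≤ Ps j A1 - gw m j * ∑ i ∈ W, μ.real (Pc i) := by
      have h2 : ∑ i ∈ W, μ.real (Pc i) * ((f j i B - l i) / (h i - l i)) ≤
          ∑ i ∈ W, (μ.real (Pc i) * ((f j i A1 - l i) / (h i - l i)) - gw m j * μ.real (Pc i)) := by
        refine Finset.sum_le_sum fun i hi => ?_
        obtain ⟨h3, h4⟩ := hq2 i hi
        have h5 : (f j i B - l i) / (h i - l i) ≤ (f j i A1 - l i) / (h i - l i) - gw m j := by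
          rw [div_le_iff₀ h3, sub_mul, div_mul_cancel₀ _ h3.ne']
          linarith
        calc μ.real (Pc i) * ((f j i B - l i) / (h i - l i))
            ≤ μ.real (Pc i) * ((f j i A1 - l i) / (h i - l i) - gw m j) :=
              mul_le_mul_of_nonneg_left h5 measureReal_nonneg
          _ = _ := by ring
      have h3 : ∑ i ∈ V \ W, μ.real (Pc i) * ((f j i B - l i) / (h i - l i)) ≤
          ∑ i ∈ V \ W, μ.real (Pc i) * ((f j i A1 - l i) / (h i - l i)) := by
        refine Finset.sum_le_sum fun i hi => mul_le_mul_of_nonneg_left ?_ measureReal_nonneg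
        have hi' := (Finset.mem_sdiff.1 hi).1
        have h1 := hr i hi'
        have h2 : f j i B ≤ f j i A1 := qt_mono h1 hB
        exact div_le_div_of_nonneg_right (by linarith) (by linarith)
      have h4 := Finset.sum_sdiff (f := fun i => μ.real (Pc i) * ((f j i B - l i) / (h i - l i))) hW
      have h5 := Finset.sum_sdiff (f := fun i => μ.real (Pc i) * ((f j i A1 - l i) / (h i - l i))) hW
      rw [Finset.sum_sub_distrib, ← Finset.mul_sum] at h2
      simp only [hPs]
      linarith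
    have hsum : ∑ k ∈ Finset.range J, gw m k * Ps k B ≤
        ∑ k ∈ Finset.range J, gw m k * Ps k A1 - gw m j * (gw m j * ∑ i ∈ W, μ.real (Pc i)) := by
      have hjm : j ∈ Finset.range J := Finset.mem_range.2 hj
      rw [← Finset.add_sum_erase _ _ hjm, ← Finset.add_sum_erase _ _ hjm]
      have h2 : ∑ k ∈ (Finset.range J).erase j, gw m k * Ps k B ≤
          ∑ k ∈ (Finset.range J).erase j, gw m k * Ps k A1 :=
        Finset.sum_le_sum fun k _ => mul_le_mul_of_nonneg_left (hPsmono k B A1 hB) (gw_pos hm k).le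
      have h3 := mul_le_mul_of_nonneg_left hdropPs hg.le
      linarith
    simp only [hPot] at h1
    have h2 : Real.exp q * (μ.real A1 - μ.real B) ≤ Real.exp q * ν' :=
      mul_le_mul_of_nonneg_left (by linarith) (Real.exp_pos q).le
    have hgJj : gw m J ≤ gw m j := gw_anti hm hj.le
    have hττ : τ ≤ gw m j ^ 2 * (gw m j * Real.exp (-q) / 4) / 2 := by
      rw [hτ]; gcongr
    have h3 : gw m j ^ 2 * ∑ i ∈ W, μ.real (Pc i) ≤
        gw m j ^ 2 * (gw m j * Real.exp (-q) / 4) := by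
      have h4 : gw m j ^ 2 * ∑ i ∈ W, μ.real (Pc i) =
          gw m j * (gw m j * ∑ i ∈ W, μ.real (Pc i)) := by ring
      rw [h4]
      linarith
    exact le_of_mul_le_mul_left h3 (by positivity)
  -- the levels
  set F : ℕ → ι → ℝ := fun j i => f j i A1 with hF
  have hFl : ∀ j, ∀ i ∈ V, l i ≤ F j i := fun j i hi => qt_ge (hr i hi)
  have hFh : ∀ j, ∀ i ∈ V, F j i ≤ h i := fun j i hi => qt_le (hr i hi)
  set t : ℕ → ι → ℝ := fun j i => t₀ i + 1 / (m - 1) *
    (∑ k ∈ Finset.range (m + 1), (F (j + k) i - l i) +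
      (∑ k ∈ Finset.range j, gw m k) * (h i - l i)) with ht
  have hstep : ∀ j i, (1 / (m:ℝ)) * F (j + 1 + m) i + (1 - 1 / m) * t j i =
      (1 / m) * (F j i - gw m j * (h i - l i)) + (1 - 1 / m) * t (j + 1) i := by
    intro j i
    have h1 : ∑ k ∈ Finset.range (m + 1), (F (j + 1 + k) i - l i) =
        ∑ k ∈ Finset.range (m + 1), (F (j + k) i - l i) + F (j + 1 + m) i - F j i := by
      rw [Finset.sum_range_succ, Finset.sum_range_succ' (fun k => F (j + k) i - l i) m]
      have h2 : ∑ k ∈ Finset.range m, (F (j + 1 + k) i - l i) =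
          ∑ k ∈ Finset.range m, (F (j + (k + 1)) i - l i) := by
        refine Finset.sum_congr rfl fun k _ => ?_
        have : j + 1 + k = j + (k + 1) := by ring
        rw [this]
      rw [h2, add_zero]
      ring
    have h2 : ∑ k ∈ Finset.range (j + 1), gw m k = ∑ k ∈ Finset.range j, gw m k + gw m j :=
      Finset.sum_range_succ _ _
    simp only [ht]
    rw [h1, h2]
    generalize ∑ k ∈ Finset.range (m + 1), (F (j + k) i - l i) = X
    generalize ∑ k ∈ Finset.range j, gw m k = Y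
    field_simp
    ring
  have main : ∀ j : ℕ, j ≤ J → ∃ V' ⊆ V, ∃ S ⊆ (⋃ i ∈ V, U i), MeasurableSet S ∧
      S ⊆ (⋃ i ∈ V', Pc i) ∧
      μ.real (⋃ i ∈ V, U i) - Real.exp (-q) / 2 * ∑ k ∈ Finset.range j, gw m k ≤ μ.real S ∧
      ∀ i ∈ V', μ.real (S ∩ up (φ i) (t j i)) ≤ Real.exp (-(cst m q (j + m))) := by
    intro j
    induction j with
    | zero =>
      intro _
      refine ⟨V, subset_rfl, ⋃ i ∈ V, U i, subset_rfl,
        Finset.measurableSet_biUnion _ fun i _ => meas_up _ _, hPc, by simp, fun i hi => ?_⟩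
      refine (measureReal_mono ?_ (measure_ne_top μ _)).trans ((h0 i hi).trans ?_)
      · intro x hx
        have h5 : 0 ≤ ∑ k ∈ Finset.range (m + 1), (F (0 + k) i - l i) := by
          refine Finset.sum_nonneg fun k _ => ?_
          have := hFl (0 + k) i hi
          linarith
        have h6 : t 0 i ≤ φ i x := hx.2
        simp only [ht, Finset.range_zero, Finset.sum_empty, zero_mul, add_zero] at h6
        have h7 : 0 ≤ 1 / ((m:ℝ) - 1) * ∑ k ∈ Finset.range (m + 1), (F (0 + k) i - l i) := by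
          positivity
        show t₀ i ≤ φ i x
        linarith
      · apply Real.exp_le_exp.2
        have := cst_zero_le hm (show (0:ℝ) ≤ q by linarith)
        rw [zero_add]
        linarith
    | succ j ih =>
      intro hj
      obtain ⟨V', hV', S, hSU, hSm, hSP, hSμ, hSt⟩ := ih (by omega)
      obtain ⟨N, hN0, hN1, hN2, hN3⟩ := exists_N hm hq j
      have hlam0 : (0:ℝ) < 1 / m := by positivity
      have hlam1 : (1:ℝ) / m < 1 := by rw [div_lt_one hM0]; linarith
      obtain ⟨V'', hV'', S', hS'S, hS'm, hS'P, hS'μ, hS't⟩ := stage2 hlam0 hlam1 hlc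
        (V := V') (φ := φ) (a := fun i => F j i - gw m j * (h i - l i)) (b := F (j + 1 + m))
        (t := t j) (t' := t (j + 1)) (α := Real.exp (-(cst m q j)))
        (κ := Real.exp (-(cst m q (j + m)))) (κ' := Real.exp (-(cst m q (j + 1 + m))))
        (ν := Real.exp (-(cst m q (j + 1 + m)))) (ε := gw m j * Real.exp (-q) / 4)
        (Real.exp_pos _) (Real.exp_pos _).le (Real.exp_pos _) (Real.exp_pos _).le hPm hSm hA1m hSP
        hSt (fun i hi => qt_ou hA1m (hr i (hV' hi)) (Real.exp_pos _).le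
          fun x hx => hh i (hV' hi) x (hA1A hx))
        (fun i _ => (hstep j i).le) hN0 hN1
        (fun B hB hBm hBμ W hW hdrop => hND j (by omega) _ hN3 B hB hBm hBμ W (hW.trans hV') hdrop)
      refine ⟨V'', hV''.trans hV', S', hS'S.trans hSU, hS'm, hS'P, ?_, hS't⟩
      rw [Finset.sum_range_succ]
      linarith
  obtain ⟨V', hV', S, hSU, hSm, hSP, hSμ, hSt⟩ := main J le_rfl
  have hsmass : Real.exp (-q) / 2 ≤ μ.real S := by
    have h1 := sum_gw_le hm J
    have h2 : Real.exp (-q) / 2 * ∑ k ∈ Finset.range J, gw m k ≤ Real.exp (-q) / 2 :=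
      mul_le_of_le_one_right (by positivity) h1
    linarith
  have hsle : μ.real S ≤ V.card * Real.exp (-(cst m q (J + m))) := by
    have h1 : S ⊆ ⋃ i ∈ V', S ∩ up (φ i) (t J i) := by
      intro x hx
      have h2 := hSP hx
      simp only [mem_iUnion, exists_prop] at h2
      obtain ⟨i, hi, hxi⟩ := h2
      refine mem_biUnion (x := i) (Finset.mem_coe.2 hi) ⟨hx, ?_⟩
      have h3 : t₀ i + (m + 2) / (m - 1) * (h i - l i) ≤ φ i x := hPU i hxi
      refine le_trans ?_ h3
      have hri := hr i (hV' hi)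
      have h4 : ∑ k ∈ Finset.range (m + 1), (F (J + k) i - l i) ≤ (m + 1) * (h i - l i) := by
        calc ∑ k ∈ Finset.range (m + 1), (F (J + k) i - l i)
            ≤ ∑ k ∈ Finset.range (m + 1), (h i - l i) := Finset.sum_le_sum fun k _ => by
              have := hFh (J + k) i (hV' hi)
              linarith
          _ = (m + 1) * (h i - l i) := by
              rw [Finset.sum_const, Finset.card_range, nsmul_eq_mul]; push_cast; ring
      have h5 : (∑ k ∈ Finset.range J, gw m k) * (h i - l i) ≤ 1 * (h i - l i) :=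
        mul_le_mul_of_nonneg_right (sum_gw_le hm J) (by linarith)
      have h6 : 1 / ((m:ℝ) - 1) * (∑ k ∈ Finset.range (m + 1), (F (J + k) i - l i) +
          (∑ k ∈ Finset.range J, gw m k) * (h i - l i)) ≤
          1 / (m - 1) * ((m + 1) * (h i - l i) + 1 * (h i - l i)) :=
        mul_le_mul_of_nonneg_left (by linarith) (by positivity)
      have h7 : 1 / ((m:ℝ) - 1) * ((m + 1) * (h i - l i) + 1 * (h i - l i)) =
          (m + 2) / (m - 1) * (h i - l i) := by ring
      simp only [ht]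
      linarith
    have h2 : μ.real S ≤ ∑ i ∈ V', μ.real (S ∩ up (φ i) (t J i)) :=
      (measureReal_mono h1 (measure_ne_top μ _)).trans (measureReal_biUnion_finset_le _ _)
    have h3 : ∑ i ∈ V', μ.real (S ∩ up (φ i) (t J i)) ≤
        V'.card * Real.exp (-(cst m q (J + m))) := by
      rw [← nsmul_eq_mul]
      exact Finset.sum_le_card_nsmul _ _ _ hSt
    have h4 : (V'.card : ℝ) ≤ V.card := by exact_mod_cast Finset.card_le_card hV'
    have h5 := mul_le_mul_of_nonneg_right h4 (Real.exp_pos (-(cst m q (J + m)))).le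
    linarith
  linarith

end Pool.WS
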