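import Pool.Agent.CIP.O

set_option autoImplicit false

open MeasureTheory Pointwise Set Filter Topology

namespace Pool.CIP

variable {n : ℕ} {μ : Measure (E n)}

/-- the dilation factor -/
noncomputable def Lam (n : ℕ) (p : ℝ) : ℝ := 24 * Real.log (2 + n / p)

lemma Lam_anti {p q : ℝ} (hp : 0 < p) (hpq : p ≤ q) : Lam n q ≤ Lam n p := by
  unfold Lam
  have hn0 : (0:ℝ) ≤ n := Nat.cast_nonneg n
  have h1 : (n:ℝ) / q ≤ n / p := div_le_div_of_nonneg_left hn0 hp hpq
  have h2 : 0 ≤ (n:ℝ) / q := div_nonneg hn0 (by linarith)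
  have h3 : Real.log (2 + n / q) ≤ Real.log (2 + n / p) :=
    Real.log_le_log (by linarith) (by linarith)
  linarith

lemma Lam_ge {p : ℝ} (hp : 0 < p) : 16 ≤ Lam n p := by
  unfold Lam
  have hn0 : (0:ℝ) ≤ n := Nat.cast_nonneg n
  have h2 : 0 ≤ (n:ℝ) / p := div_nonneg hn0 hp.le
  have h3 : Real.log 2 ≤ Real.log (2 + n / p) := Real.log_le_log (by norm_num) (by linarith)
  have := Real.log_two_gt_d9
  linarith

lemma exp_eleven : Real.exp 11 ≤ 59900 := by
  have h1 : Real.exp 11 = Real.exp 1 ^ 11 := by
    rw [← Real.exp_nat_mul]; norm_num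
  have h2 := Real.exp_one_lt_d9
  have h3 : Real.exp 1 ^ 11 ≤ 2.7182818286 ^ 11 := by gcongr
  rw [h1]
  refine h3.trans ?_
  norm_num

lemma exp_four : (54 : ℝ) ≤ Real.exp 4 := by
  have h1 : Real.exp 4 = Real.exp 1 ^ 4 := by
    rw [← Real.exp_nat_mul]; norm_num
  have h2 := Real.exp_one_gt_d9
  have h3 : (2.7182818283 : ℝ) ^ 4 ≤ Real.exp 1 ^ 4 := by gcongr
  rw [h1]
  refine le_trans ?_ h3
  norm_num

lemma exp_eight : (2900 : ℝ) ≤ Real.exp 8 := by
  have h1 : Real.exp 8 = Real.exp 1 ^ 8 := by
    rw [← Real.exp_nat_mul]; norm_num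
  have h2 := Real.exp_one_gt_d9
  have h3 : (2.7182818283 : ℝ) ^ 8 ≤ Real.exp 1 ^ 8 := by gcongr
  rw [h1]
  refine le_trans ?_ h3
  norm_num

lemma smul_mem_dil {A : Set (E n)} (hAconv : Convex ℝ A) (hA0 : (0 : E n) ∈ A) {c L : ℝ}
    (hc : 0 ≤ c) (hcL : c ≤ L) (hL : 0 < L) {x : E n} (hx : x ∈ A) : c • x ∈ L • A := by
  refine ⟨(c / L) • x, hAconv.smul_mem_of_zero_mem hA0 hx ⟨by positivity, (div_le_one hL).2 hcL⟩, ?_⟩
  show L • (c / L) • x = c • x
  rw [smul_smul, mul_div_cancel₀ _ hL.ne']

/-- growth of symmetric convex sets -/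
theorem main_sym [IsProbabilityMeasure μ] (hsym : μ.map (fun x => -x) = μ) (hlc : LC μ)
    {A : Set (E n)} (hAm : MeasurableSet A) (hAconv : Convex ℝ A) (hAs : ∀ x ∈ A, -x ∈ A)
    {p : ℝ} (hp : 2 ≤ p) :
    8 * Real.exp p * μ.real A * (1 - μ.real (Lam n p • A + G μ p 3000000)) ≤
      (1 - μ.real A) * μ.real (Lam n p • A + G μ p 3000000) := by
  have hp0 : 0 < p := by linarith
  set Λ := Lam n p with hΛ
  have hΛ16 : 16 ≤ Λ := Lam_ge hp0
  have hΛ0 : 0 < Λ := by linarith
  set A' := Λ • A + G μ p 3000000 with hA'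
  set a := μ.real A with ha
  set a' := μ.real A' with ha'
  have ha1 : a ≤ 1 := measureReal_le_one
  have ha'1 : a' ≤ 1 := measureReal_le_one
  have ha'0 : 0 ≤ a' := measureReal_nonneg
  rcases (measureReal_nonneg (μ := μ) (s := A)).eq_or_lt with h0 | hpos
  · rw [← ha] at h0
    rw [← h0]
    simpa using ha'0
  have hep := Real.exp_pos p
  have hene := Real.exp_pos (-p)
  set u := -Real.log a with hu
  have hau : a = Real.exp (-u) := by rw [hu, neg_neg, Real.exp_log hpos]
  rcases le_or_gt u (2 * p + 5) with hup | hup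
  · -- large or middle sets
    rcases le_or_gt (16 * Real.exp (-p - 8)) (1 - a) with hmid | hbig
    · -- middle
      have hq : 1 ≤ 2 * p + 8 := by linarith
      have hA2 : 2 * Real.exp (-(2 * p + 8)) ≤ a := by
        rw [hau]
        have h1 : Real.exp (-u) = Real.exp (-(2 * p + 8)) * Real.exp (2 * p + 8 - u) := by
          rw [← Real.exp_add]; congr 1; ring
        rw [h1, mul_comm]
        apply mul_le_mul_of_nonneg_left _ (Real.exp_pos _).le
        have h2 := Real.add_one_le_exp (2 * p + 8 - u)
        linarith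
      obtain ⟨A₁, hA₁A, hA₁c, hA₁0, _, hA₁⟩ := MT2 hsym hlc hAm hAconv hAs hq hA2
      have hA0 := hA₁A hA₁0
      have hsub : (24 * Real.log (2 + n / (2 * p + 8))) • A₁ + G μ (2 * p + 8) (4 * Real.exp 9) ⊆
          A' := by
        apply add_subset_add
        · rintro _ ⟨x, hx, rfl⟩
          apply smul_mem_dil hAconv hA0 _ (Lam_anti hp0 (by linarith)) hΛ0 (hA₁A hx)
          have := Lam_ge (n := n) (p := 2 * p + 8) (by linarith)
          linarith
        · apply G_subset hsym hlc (by linarith) (by linarith) (by positivity)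
          have h1 : (2 * p + 8) / p ≤ 6 := by rw [div_le_iff₀ hp0]; linarith
          calc 2 * Real.exp 2 * ((2 * p + 8) / p) * (4 * Real.exp 9)
              ≤ 2 * Real.exp 2 * 6 * (4 * Real.exp 9) := by gcongr
            _ = 48 * (Real.exp 2 * Real.exp 9) := by ring
            _ = 48 * Real.exp 11 := by rw [← Real.exp_add]; norm_num
            _ ≤ 3000000 := by have := exp_eleven; linarith
      have hYc : IsCompact ((24 * Real.log (2 + n / (2 * p + 8))) • A₁ +
          G μ (2 * p + 8) (4 * Real.exp 9)) := (hA₁c.smul _).add (isCompact_G _ _)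
      have hcY : μ.real ((24 * Real.log (2 + n / (2 * p + 8))) • A₁ +
          G μ (2 * p + 8) (4 * Real.exp 9))ᶜ = 1 - μ.real ((24 * Real.log (2 + n / (2 * p + 8))) • A₁ +
          G μ (2 * p + 8) (4 * Real.exp 9)) := by
        rw [measureReal_compl hYc.measurableSet]
        simp
      have hY := measureReal_mono (μ := μ) hsub (measure_ne_top μ _)
      have h1 : 1 - a' ≤ Real.exp (-(2 * p + 8)) := by linarith
      have h2 : Real.exp (-(2 * p + 8)) = Real.exp (-p - 8) * Real.exp (-p) := by
        rw [← Real.exp_add]; congr 1; ring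
      have h3 : Real.exp p * Real.exp (-p) = 1 := by rw [← Real.exp_add]; simp
      have h4 : Real.exp (-p) ≤ 1 := by rw [Real.exp_le_one_iff]; linarith
      have h5 : Real.exp (-p - 8) ≤ 1 / 2 := by
        have h6 : Real.exp (-p - 8) * Real.exp 8 = Real.exp (-p) := by
          rw [← Real.exp_add]; congr 1; ring
        have h7 := exp_eight
        have h8 := Real.exp_pos (-p - 8)
        nlinarith
      have h9 : Real.exp (-(2 * p + 8)) ≤ 1 / 2 := by
        rw [h2]
        have := Real.exp_pos (-p - 8)
        nlinarith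
      have h10 : 1 / 2 ≤ a' := by linarith
      calc 8 * Real.exp p * a * (1 - a') ≤ 8 * Real.exp p * 1 * (1 - a') := by
            apply mul_le_mul_of_nonneg_right _ (by linarith)
            apply mul_le_mul_of_nonneg_left ha1 (by positivity)
        _ ≤ 8 * Real.exp p * 1 * Real.exp (-(2 * p + 8)) := by
            apply mul_le_mul_of_nonneg_left h1 (by positivity)
        _ = 8 * Real.exp (-p - 8) * (Real.exp p * Real.exp (-p)) := by rw [h2]; ring
        _ = 8 * Real.exp (-p - 8) := by rw [h3, mul_one]
        _ ≤ (1 - a) * (1 / 2) := by linarith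
        _ ≤ (1 - a) * a' := mul_le_mul_of_nonneg_left h10 (by linarith)
    · -- large
      set c := 1 - a with hc
      have hc0 : 0 ≤ c := by linarith
      have h7 := exp_eight
      have h8 := Real.exp_pos (-p - 8)
      have hcsmall : 32 * Real.exp p * c ≤ 1 := by
        have h1 : Real.exp p * Real.exp (-p - 8) * Real.exp 8 = 1 := by
          rw [← Real.exp_add, ← Real.exp_add]
          have : p + (-p - 8) + 8 = 0 := by ring
          rw [this, Real.exp_zero]
        have h2 : 0 < Real.exp p * Real.exp (-p - 8) := by positivity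
        have h3 : Real.exp p * Real.exp (-p - 8) * 2900 ≤ 1 := by
          calc _ ≤ Real.exp p * Real.exp (-p - 8) * Real.exp 8 :=
                mul_le_mul_of_nonneg_left h7 h2.le
            _ = 1 := h1
        have h4 : Real.exp p * c ≤ Real.exp p * (16 * Real.exp (-p - 8)) :=
          mul_le_mul_of_nonneg_left hbig.le hep.le
        nlinarith
      have hep3 : 3 ≤ Real.exp p := by
        have := Real.add_one_le_exp p
        linarith
      have hc96 : 96 * c ≤ 1 := by nlinarith
      have haHalf : 1 / 2 < a := by linarith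
      obtain ⟨K', hK'A, hK'c, hK'⟩ := exists_compact_real hAm haHalf
      obtain ⟨H, hAH, hHm, hHμ⟩ := exists_measurable_superset μ A'
      have hHr : a' = μ.real H := by rw [ha']; simp [Measure.real, hHμ]
      have hcH : μ.real Hᶜ = 1 - μ.real H := by
        rw [measureReal_compl hHm]; simp
      have hcA : μ.real Aᶜ = c := by
        rw [measureReal_compl hAm]; simp [hc, ha]
      have hA0 : (0 : E n) ∈ A := by
        obtain ⟨x, hx⟩ : A.Nonempty := by
          rw [nonempty_iff_ne_empty]
          intro h
          rw [h] at hpos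
          simp at hpos
        have := hAconv hx (hAs x hx) (by norm_num : (0:ℝ) ≤ 1/2) (by norm_num : (0:ℝ) ≤ 1/2)
          (by norm_num)
        simpa using this
      have key : ∀ K : Set (E n), K ⊆ Hᶜ → IsCompact K → μ.real K ≤ 2 * c ^ 2 := by
        intro K hKH hKc
        have h1 := hlc.half hKc hK'c (U := Aᶜ) (by
          intro x hx y hy hz
          apply hKH hx
          apply hAH
          set z := (1/2:ℝ) • x + (1/2:ℝ) • y with hzdef
          have hxz : x = (3:ℝ) • ((2/3:ℝ) • z + (1/3:ℝ) • (-y)) := by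
            rw [hzdef]; module
          refine ⟨x, ?_, 0, zero_mem_G (by norm_num), by simp⟩
          rw [hxz]
          exact smul_mem_dil hAconv hA0 (by norm_num) (by linarith) hΛ0
            (hAconv hz (hAs y (hK'A hy)) (by norm_num) (by norm_num) (by norm_num)))
        rw [hcA] at h1
        have h2 : 0 ≤ μ.real K := measureReal_nonneg
        nlinarith
      have h9 : μ.real Hᶜ ≤ 2 * c ^ 2 := by
        refine le_of_forall_pos_le_add fun ε hε => ?_
        obtain ⟨K, hKH, hKc, hK⟩ := hHm.compl.exists_isCompact_lt_add (measure_ne_top μ _)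
          (ε := ENNReal.ofReal ε) (by simpa using hε)
        have h1 := ENNReal.toReal_mono (by finiteness) hK.le
        rw [ENNReal.toReal_add (measure_ne_top μ _) (by simp), ENNReal.toReal_ofReal hε.le] at h1
        have h2 := key K hKH hKc
        have h3 : μ.real Hᶜ ≤ μ.real K + ε := h1
        linarith
      have h10 : 1 - a' ≤ 2 * c ^ 2 := by rw [hHr, ← hcH]; exact h9
      have h11 : 1 / 2 ≤ a' := by nlinarith
      calc 8 * Real.exp p * a * (1 - a') ≤ 8 * Real.exp p * 1 * (1 - a') := by
            apply mul_le_mul_of_nonneg_right _ (by linarith)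
            apply mul_le_mul_of_nonneg_left ha1 (by positivity)
        _ ≤ 8 * Real.exp p * 1 * (2 * c ^ 2) := mul_le_mul_of_nonneg_left h10 (by positivity)
        _ = (32 * Real.exp p * c) * (c / 2) := by ring
        _ ≤ 1 * (c / 2) := mul_le_mul_of_nonneg_right hcsmall (by positivity)
        _ = c * (1 / 2) := by ring
        _ ≤ c * a' := mul_le_mul_of_nonneg_left h11 hc0
  · -- small sets
    have hu0 : 0 < u := by linarith
    have hq : 1 ≤ u + 1 := by linarith
    have he1 : (2:ℝ) ≤ Real.exp 1 := by
      have := Real.exp_one_gt_d9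
      linarith
    have hA2 : 2 * Real.exp (-(u + 1)) ≤ a := by
      rw [hau]
      have h1 : Real.exp (-u) = Real.exp (-(u + 1)) * Real.exp 1 := by
        rw [← Real.exp_add]; congr 1; ring
      rw [h1, mul_comm]
      exact mul_le_mul_of_nonneg_left he1 (Real.exp_pos _).le
    obtain ⟨A₁, hA₁A, hA₁c, hA₁0, hA₁m, hA₁⟩ := MT2 hsym hlc hAm hAconv hAs hq hA2
    have hA0 := hA₁A hA₁0
    set Lq := 24 * Real.log (2 + n / (u + 1)) with hLq
    have hLqΛ : Lq ≤ Λ := Lam_anti hp0 (by linarith)
    have hLq0 : 0 ≤ Lq := by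
      have := Lam_ge (n := n) (p := u + 1) (by linarith)
      unfold Lam at this
      linarith
    set W := Lq • A₁ + G μ (u + 1) (4 * Real.exp 9) with hW
    have hWc : IsCompact W := (hA₁c.smul _).add (isCompact_G _ _)
    have hcW : μ.real Wᶜ = 1 - μ.real W := by
      rw [measureReal_compl hWc.measurableSet]
      simp
    have hW2 : 1 / 2 ≤ μ.real W := by
      have h1 : Real.exp (-(u + 1)) ≤ 1 / 2 := by linarith
      linarith
    set s := (p + 4) / u with hs
    have hs0 : 0 < s := by positivity
    have hs1 : s < 1 := by rw [hs, div_lt_one hu0]; linarith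
    have key := hlc.closed hA₁c.isClosed hWc.isClosed (t := 1 - s) (by linarith) (by linarith)
      (U := A') (by
        rintro x hx _ ⟨_, ⟨y, hy, rfl⟩, z, hz, rfl⟩
        refine ⟨(1 - s) • x + s • (Lq • y), ?_, s • z, ?_, ?_⟩
        · have hconv : Convex ℝ (Λ • A) := hAconv.smul Λ
          have hx' : x ∈ Λ • A := by
            have := smul_mem_dil hAconv hA0 zero_le_one (by linarith : (1:ℝ) ≤ Λ) hΛ0 (hA₁A hx)
            simpa using this
          have hy' : Lq • y ∈ Λ • A := smul_mem_dil hAconv hA0 hLq0 hLqΛ hΛ0 (hA₁A hy)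
          exact hconv hx' hy' (by linarith) hs0.le (by ring)
        · have h1 : s • z ∈ G μ (u + 1) (s * (4 * Real.exp 9)) := by
            intro v
            rw [inner_smul_right, abs_mul, abs_of_pos hs0, mul_assoc]
            exact mul_le_mul_of_nonneg_left (hz v) hs0.le
          refine G_subset hsym hlc (by linarith) (by linarith) (by positivity) ?_ h1
          have h2 : (u + 1) / p * s ≤ 4 := by
            have h3 : (u + 1) / p * s = (u + 1) / u * ((p + 4) / p) := by
              rw [hs]; field_simp
            have h4 : (u + 1) / u ≤ 10 / 9 := by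
              rw [div_le_div_iff₀ hu0 (by norm_num)]; linarith
            have h5 : (p + 4) / p ≤ 3 := by rw [div_le_iff₀ hp0]; linarith
            rw [h3]
            calc (u + 1) / u * ((p + 4) / p) ≤ 10 / 9 * 3 :=
                  mul_le_mul h4 h5 (by positivity) (by norm_num)
              _ ≤ 4 := by norm_num
          calc 2 * Real.exp 2 * ((u + 1) / p) * (s * (4 * Real.exp 9))
              = 8 * (Real.exp 2 * Real.exp 9) * ((u + 1) / p * s) := by ring
            _ ≤ 8 * (Real.exp 2 * Real.exp 9) * 4 := mul_le_mul_of_nonneg_left h2 (by positivity)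
            _ = 32 * Real.exp 11 := by rw [← Real.exp_add]; norm_num; ring
            _ ≤ 3000000 := by have := exp_eleven; linarith
        · show (1 - s) • x + s • Lq • y + s • z = (1 - s) • x + (1 - (1 - s)) • (Lq • y + z)
          module)
    have key2 := ENNReal.toReal_mono (measure_ne_top μ _) key
    rw [ENNReal.toReal_mul, ← ENNReal.toReal_rpow, ← ENNReal.toReal_rpow] at key2
    have key3 : μ.real A₁ ^ (1 - s) * μ.real W ^ (1 - (1 - s)) ≤ a' := key2
    have e1 : 1 - (1 - s) = s := by ring
    rw [e1] at key3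
    have h1 : (a / 2) ^ (1 - s) * (1 / 2 : ℝ) ^ s ≤ a' := by
      refine le_trans ?_ key3
      apply mul_le_mul
      · exact Real.rpow_le_rpow (by positivity) hA₁m (by linarith)
      · exact Real.rpow_le_rpow (by norm_num) hW2 hs0.le
      · positivity
      · positivity
    have h2 : (a / 2) ^ (1 - s) * (1 / 2 : ℝ) ^ s = a ^ (1 - s) / 2 := by
      rw [div_eq_mul_one_div a, Real.mul_rpow hpos.le (by norm_num), mul_assoc,
        ← Real.rpow_add (by norm_num)]
      have : 1 - s + s = 1 := by ring
      rw [this, Real.rpow_one]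
      ring
    have h3 : a ^ (1 - s) = a * (Real.exp p * Real.exp 4) := by
      rw [hau, ← Real.exp_mul, ← Real.exp_add, ← Real.exp_add]
      congr 1
      have : u * s = p + 4 := by rw [hs]; field_simp
      linear_combination this
    rw [h2, h3] at h1
    have h4 := exp_four
    have h5 : 27 * (Real.exp p * a) ≤ a' := by
      have h6 : 0 < Real.exp p * a := by positivity
      nlinarith
    have h7 : a ≤ 1 / 2 := by
      rw [hau]
      have h8 : Real.exp (-u) ≤ Real.exp (-1) := Real.exp_le_exp.2 (by linarith)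
      have h9 : Real.exp (-1) * Real.exp 1 = 1 := by rw [← Real.exp_add]; simp
      have h10 := Real.exp_pos (-1)
      nlinarith
    have h8 : 8 * Real.exp p * a * (1 - a') ≤ 8 * Real.exp p * a := by
      have : 0 ≤ 8 * Real.exp p * a := by positivity
      nlinarith
    have h9 : a' / 2 ≤ (1 - a) * a' := by nlinarith
    linarith

/-- the theorem for convex sets -/
theorem main_convex [IsProbabilityMeasure μ] (hsym : μ.map (fun x => -x) = μ) (hlc : LC μ)
    {A : Set (E n)} (hAm : MeasurableSet A) (hAconv : Convex ℝ A)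
    (hA : A = -A ∨ 3 / 4 ≤ μ.real A) {p : ℝ} (hp : 2 ≤ p) :
    2 * Real.exp p * μ.real A * (1 - μ.real (Lam n p • A + (3000000:ℝ) • Z μ p)) ≤
      (1 - μ.real A) * μ.real (Lam n p • A + (3000000:ℝ) • Z μ p) := by
  have hp0 : 0 < p := by linarith
  rw [smul_Z_eq hp0 (by norm_num)]
  have hep := Real.exp_pos p
  have hΛ0 : 0 < Lam n p := by have := Lam_ge (n := n) hp0; linarith
  set A' := Lam n p • A + G μ p 3000000 with hA'
  have ha0 : 0 ≤ μ.real A := measureReal_nonneg
  have ha1 : μ.real A ≤ 1 := measureReal_le_one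
  have ha'0 : 0 ≤ μ.real A' := measureReal_nonneg
  have ha'1 : μ.real A' ≤ 1 := measureReal_le_one
  rcases hA with hs | h34
  · have h1 := main_sym hsym hlc hAm hAconv (fun x hx => by
      rw [hs] at hx; exact hx) hp
    rw [← hA'] at h1
    have h2 : 0 ≤ Real.exp p * μ.real A * (1 - μ.real A') := by
      apply mul_nonneg (by positivity); linarith
    nlinarith
  · set As := A ∩ -A with hAs
    have hAsm : MeasurableSet As := hAm.inter hAm.neg
    have hAsconv : Convex ℝ As := hAconv.inter hAconv.neg
    have hAss : ∀ x ∈ As, -x ∈ As := by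
      intro x hx
      refine ⟨hx.2, ?_⟩
      rw [Set.mem_neg, neg_neg]
      exact hx.1
    have h1 := main_sym hsym hlc hAsm hAsconv hAss hp
    set As' := Lam n p • As + G μ p 3000000 with hAs'
    have hsub : As' ⊆ A' := add_subset_add_right (smul_set_mono inter_subset_left)
    have h2 : μ.real As' ≤ μ.real A' := measureReal_mono hsub (measure_ne_top μ _)
    have h3 : 2 * μ.real A - 1 ≤ μ.real As := by
      have h4 : μ.real (-A) = μ.real A := by
        have := measure_neg hsym A hAm
        simp only [Measure.real]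
        congr 1
      have h5 : μ.real (A ∪ -A) ≤ 1 := measureReal_le_one
      have h6 := measureReal_union_add_inter (μ := μ) (s := A) hAm.neg
      rw [h4] at h6
      linarith
    have hs0 : 0 ≤ μ.real As := measureReal_nonneg
    have hs'0 : 0 ≤ μ.real As' := measureReal_nonneg
    have h7 : 8 * Real.exp p * μ.real As * (1 - μ.real A') ≤
        8 * Real.exp p * μ.real As * (1 - μ.real As') :=
      mul_le_mul_of_nonneg_left (by linarith) (by positivity)
    have h8 : (1 - μ.real As) * μ.real As' ≤ 2 * (1 - μ.real A) * μ.real A' := by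
      apply mul_le_mul (by linarith) h2 hs'0 (by linarith)
    have h9 : μ.real A / 2 ≤ μ.real As := by linarith
    have h10 : 8 * Real.exp p * (μ.real A / 2) * (1 - μ.real A') ≤
        8 * Real.exp p * μ.real As * (1 - μ.real A') := by
      apply mul_le_mul_of_nonneg_right _ (by linarith)
      exact mul_le_mul_of_nonneg_left h9 (by positivity)
    linarith

end Pool.CIP
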