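import Pool.Agent.CIP.FD
import Pool.Agent.CIP.P

set_option autoImplicit false

open MeasureTheory Pointwise Set Filter Topology

namespace Pool.CIP

variable {n : ℕ} {μ : Measure (E n)}

/-- log-concavity with weights -/
lemma LC.lcw [IsProbabilityMeasure μ] (h : LC μ) {a : ℝ} (ha0 : 0 < a) (ha1 : a < 1) :
    Pool.WS.LCw μ a := by
  intro K L hK hL
  have key := h.closed hK.isClosed hL.isClosed (t := 1 - a) (by linarith) (by linarith)
    (U := (1 - a) • K + a • L) (by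
      intro x hx y hy
      have e : 1 - (1 - a) = a := by ring
      rw [e]
      exact add_mem_add (smul_mem_smul_set hx) (smul_mem_smul_set hy))
  have key2 := ENNReal.toReal_mono (measure_ne_top μ _) key
  rw [ENNReal.toReal_mul, ← ENNReal.toReal_rpow, ← ENNReal.toReal_rpow] at key2
  have e : 1 - (1 - a) = a := by ring
  rw [e] at key2
  exact key2

/-- Markov's inequality at the level `e` times the moment, degenerate directions included -/
lemma markov_hm [IsProbabilityMeasure μ] (hfin : ∀ q : ℝ, 0 < q → ∀ v : E n, mq μ q v < ⊤) {q : ℝ}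
    (hq : 0 < q) (v : E n) {δ : ℝ} (hδ : 0 < δ) :
    μ.real (hs v (Real.exp 1 * hm μ q v + δ)) ≤ Real.exp (-q) := by
  have hm0 : 0 ≤ ∫ y, |inner ℝ v y| ^ q ∂μ := integral_nonneg fun y => by positivity
  have hh0 : 0 ≤ hm μ q v := hm_nonneg q v
  set t := Real.exp 1 * hm μ q v + δ with ht
  have he := Real.exp_pos 1
  have ht0 : 0 < t := by positivity
  have hmark := mul_meas_ge_le_integral_of_nonneg
      (Eventually.of_forall fun y => by positivity : 0 ≤ᵐ[μ] fun y => |inner ℝ v y| ^ q)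
      (integrable_mom hfin hq v) (t ^ q)
  have hsub : hs v t ⊆ {y : E n | t ^ q ≤ |inner ℝ v y| ^ q} := by
    intro y hy
    simp only [hs, mem_ofPred_eq] at hy ⊢
    exact Real.rpow_le_rpow ht0.le (hy.trans (le_abs_self _)) hq.le
  have h4 : μ.real (hs v t) ≤ μ.real {y : E n | t ^ q ≤ |inner ℝ v y| ^ q} :=
    measureReal_mono hsub (measure_ne_top μ _)
  have htq : 0 < t ^ q := Real.rpow_pos_of_pos ht0 q
  have h5 : t ^ q * μ.real (hs v t) ≤ ∫ y, |inner ℝ v y| ^ q ∂μ :=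
    (mul_le_mul_of_nonneg_left h4 htq.le).trans hmark
  have h6 : ∫ y, |inner ℝ v y| ^ q ∂μ = hm μ q v ^ q := by
    unfold hm
    rw [← Real.rpow_mul hm0, one_div, inv_mul_cancel₀ hq.ne', Real.rpow_one]
  have h7 : Real.exp q * hm μ q v ^ q ≤ t ^ q := by
    have h8 : Real.exp q = Real.exp 1 ^ q := by rw [← Real.exp_mul, one_mul]
    rw [h8, ← Real.mul_rpow he.le hh0]
    exact Real.rpow_le_rpow (by positivity) (by linarith) hq.le
  rw [h6] at h5
  have h9 : Real.exp q * (t ^ q * μ.real (hs v t)) ≤ t ^ q :=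
    (mul_le_mul_of_nonneg_left h5 (Real.exp_pos q).le).trans h7
  have h10 : t ^ q * (Real.exp q * μ.real (hs v t)) ≤ t ^ q * 1 := by
    rw [mul_one]
    calc t ^ q * (Real.exp q * μ.real (hs v t)) = Real.exp q * (t ^ q * μ.real (hs v t)) := by ring
      _ ≤ t ^ q := h9
  have h11 := le_of_mul_le_mul_left h10 htq
  rw [Real.exp_neg, ← one_div, le_div_iff₀ (Real.exp_pos q), mul_comm]
  exact h11

/-- comparison of the moments of two orders -/
lemma hm_compare [IsProbabilityMeasure μ] (hsym : μ.map (fun x => -x) = μ) (hlc : LC μ)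
    {p q : ℝ} (hp : 1 ≤ p) (hpq : p ≤ q) (v : E n) :
    hm μ q v ≤ 2 * Real.exp 2 * (q / p) * hm μ p v := by
  have hp0 : 0 < p := by linarith
  have hq0 : 0 < q := by linarith
  have h2 := mom_compare hsym hlc hp hpq v
  have h3 := Real.rpow_le_rpow (integral_nonneg fun y => by positivity) h2 (by positivity : 0 ≤ 1 / q)
  rw [← Real.rpow_mul, mul_one_div_cancel hq0.ne', Real.rpow_one] at h3
  · exact h3
  · exact mul_nonneg (by positivity) (hm_nonneg p v)

/-- The covering argument: the core theorem for the complement of a compact convex set. -/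
theorem enl_gen [IsProbabilityMeasure μ] (hsym : μ.map (fun x => -x) = μ) (hlc : LC μ)
    {m : ℕ} (hm2 : 2 ≤ m) {q : ℝ} (hq : 1 ≤ q) {A W : Set (E n)} (hA : MeasurableSet A)
    (hWc : IsCompact W) (hWconv : Convex ℝ W) {Q : ℝ} (hQ : 16 * (m:ℝ) ^ 4 * q ≤ Q)
    (H : ∀ v : E n, ∀ δ : ℝ, 0 < δ → ∃ l h : ℝ, (∀ x ∈ A, inner ℝ v x ≤ h) ∧
      Real.exp (-q) ≤ μ.real (A ∩ hs v l) ∧ ∀ b : ℝ, (∀ w ∈ W, inner ℝ v w ≤ b) →
        (Real.exp 1 * hm μ Q v + δ) + (m:ℝ) / ((m:ℝ) - 1) * (h - l) ≤ b + 4 * δ) :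
    μ.real Wᶜ ≤ Real.exp (-q) := by
  classical
  have hfin : ∀ q : ℝ, 0 < q → ∀ v : E n, mq μ q v < ⊤ := fun q hq v => mq_lt_top hsym hlc hq v
  have hmr : (2:ℝ) ≤ m := by exact_mod_cast hm2
  have hQ0 : 0 < Q := lt_of_lt_of_le (by positivity) hQ
  by_contra hcon
  push Not at hcon
  obtain ⟨S, hSW, hSc, hS⟩ := exists_compact_real hWc.measurableSet.compl hcon
  -- separation at every point
  have hsep : ∀ x : E n, ∃ p : E n × ℝ × ℝ, x ∈ Wᶜ → (∀ w ∈ W, inner ℝ p.1 w ≤ p.2.1) ∧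
      0 < p.2.2 ∧ p.2.1 + 4 * p.2.2 < inner ℝ p.1 x := by
    intro x
    by_cases hx : x ∈ Wᶜ
    · obtain ⟨f, u, h1, h2⟩ := geometric_hahn_banach_closed_point hWconv hWc.isClosed hx
      set y : E n := (InnerProductSpace.toDual ℝ (E n)).symm f with hy
      have hin : ∀ w : E n, inner ℝ y w = f w := fun w => InnerProductSpace.toDual_symm_apply
      refine ⟨(y, u, (f x - u) / 8), fun _ => ⟨fun w hw => ?_, ?_, ?_⟩⟩
      · show inner ℝ y w ≤ u
        rw [hin]; exact (h1 w hw).le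
      · show 0 < (f x - u) / 8
        linarith
      · show u + 4 * ((f x - u) / 8) < inner ℝ y x
        rw [hin]; linarith
    · exact ⟨(0, 0, 0), fun h => absurd h hx⟩
  choose P hP using hsep
  have hch : ∀ x : E n, ∃ p : ℝ × ℝ, x ∈ Wᶜ → (∀ y ∈ A, inner ℝ (P x).1 y ≤ p.2) ∧
      Real.exp (-q) ≤ μ.real (A ∩ hs (P x).1 p.1) ∧
        (Real.exp 1 * hm μ Q (P x).1 + (P x).2.2) + (m:ℝ) / ((m:ℝ) - 1) * (p.2 - p.1) ≤
          (P x).2.1 + 4 * (P x).2.2 := by
    intro x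
    by_cases hx : x ∈ Wᶜ
    · obtain ⟨l, h, h1, h2, h3⟩ := H (P x).1 (P x).2.2 (hP x hx).2.1
      exact ⟨(l, h), fun _ => ⟨h1, h2, h3 _ (hP x hx).1⟩⟩
    · exact ⟨(0, 0), fun h => absurd h hx⟩
  choose LH hLH using hch
  obtain ⟨V, hVS, hcov⟩ := hSc.elim_nhds_subcover
    (fun x => {y : E n | (P x).2.1 + 4 * (P x).2.2 < inner ℝ (P x).1 y}) (by
      intro x hx
      refine IsOpen.mem_nhds (isOpen_lt continuous_const (by fun_prop)) ?_
      exact (hP x (hSW hx)).2.2)
  have hcore := Pool.WS.core_strong hm2 (hlc.lcw (a := 1 / (m:ℝ)) (by positivity)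
    (by rw [div_lt_one (by linarith)]; linarith)) hq hA V (fun x => innerSL ℝ (P x).1)
    (fun x => (LH x).1) (fun x => (LH x).2) (fun x => Real.exp 1 * hm μ Q (P x).1 + (P x).2.2)
    (by
      intro x hx y hy
      rw [innerSL_apply_apply]
      exact (hLH x (hSW (hVS x hx))).1 y hy)
    (by
      intro x hx
      have := (hLH x (hSW (hVS x hx))).2.1
      have e : Pool.WS.up (innerSL ℝ (P x).1) (LH x).1 = hs (P x).1 (LH x).1 := by
        ext y
        simp only [Pool.WS.up, hs, mem_ofPred_eq, innerSL_apply_apply]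
      rw [e]; exact this)
    (by
      intro x hx
      have e : Pool.WS.up (innerSL ℝ (P x).1) (Real.exp 1 * hm μ Q (P x).1 + (P x).2.2) =
          hs (P x).1 (Real.exp 1 * hm μ Q (P x).1 + (P x).2.2) := by
        ext y
        simp only [Pool.WS.up, hs, mem_ofPred_eq, innerSL_apply_apply]
      rw [e]
      refine (markov_hm hfin hQ0 _ (hP x (hSW (hVS x hx))).2.1).trans ?_
      exact Real.exp_le_exp.2 (by linarith))
  have hsub : S ⊆ ⋃ x ∈ V, Pool.WS.up (innerSL ℝ (P x).1)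
      (Real.exp 1 * hm μ Q (P x).1 + (P x).2.2 + (m:ℝ) / ((m:ℝ) - 1) * ((LH x).2 - (LH x).1)) := by
    intro y hy
    obtain ⟨x, hxV, hxy⟩ := mem_iUnion₂.1 (hcov hy)
    refine mem_iUnion₂.2 ⟨x, hxV, ?_⟩
    have h1 := (hLH x (hSW (hVS x hxV))).2.2
    have h2 : (P x).2.1 + 4 * (P x).2.2 < inner ℝ (P x).1 y := hxy
    show _ ≤ innerSL ℝ (P x).1 y
    rw [innerSL_apply_apply]
    exact h1.trans h2.le
  have := measureReal_mono (μ := μ) hsub (measure_ne_top μ _)
  linarith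

end Pool.CIP
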