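import Pool.Agent.CIP.U
import Pool.Agent.CIP.ED

set_option autoImplicit false

open MeasureTheory Pointwise Set Filter Topology

namespace Pool.CIP

variable {n : ℕ} {μ : Measure (E n)}

lemma LC.wlc [IsProbabilityMeasure μ] (h : LC μ) {a : ℝ} (ha0 : 0 < a) (ha1 : a < 1) :
    Pool.WS.WLC μ a := by
  intro K L hK hL
  have key := h.closed hK.isClosed hL.isClosed (t := a) ha0 ha1 (U := a • K + (1 - a) • L)
    (by
      intro x hx y hy
      exact add_mem_add (smul_mem_smul_set hx) (smul_mem_smul_set hy))
  have key2 := ENNReal.toReal_mono (measure_ne_top μ _) key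
  rw [ENNReal.toReal_mul, ← ENNReal.toReal_rpow, ← ENNReal.toReal_rpow] at key2
  exact key2

end Pool.CIP
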