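import Pool.Agent.CIP.EE

set_option autoImplicit false

open MeasureTheory Pointwise Set Filter Topology

namespace Pool.CIP

variable {n : ℕ} {μ : Measure (E n)}

/-- support functional of a centroid body, as a lower bound for upper bounds -/
lemma exists_big [IsProbabilityMeasure μ] (hsym : μ.map (fun x => -x) = μ) (hlc : LC μ)
    {p q : ℝ} (hp : 1 ≤ p) (hpq : p ≤ q) (v : E n) {C : ℝ} (hC : 0 ≤ C) :
    ∃ z ∈ G μ p (2 * Real.exp 2 * (q / p) * C), C * hm μ q v ≤ inner ℝ v z := by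
  have hp0 : 0 < p := by linarith
  have hq0 : 0 < q := by linarith
  have hfin : ∀ q : ℝ, 0 < q → ∀ v : E n, mq μ q v < ⊤ := fun q hq v => mq_lt_top hsym hlc hq v
  obtain ⟨z, hz, hzv⟩ := exists_support hfin hp v
    (show 0 ≤ 2 * Real.exp 2 * (q / p) * C by positivity)
  refine ⟨z, hz, ?_⟩
  rw [hzv]
  have h1 := mul_le_mul_of_nonneg_left (hm_compare hsym hlc hp hpq v) hC
  calc C * hm μ q v ≤ C * (2 * Real.exp 2 * (q / p) * hm μ p v) := h1
    _ = 2 * Real.exp 2 * (q / p) * C * hm μ p v := by ring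

/-- Almost isometric enlargement of a compact convex set: the dilation by the difference body has
the factor `1 / (m - 1)`. -/
theorem enl [IsProbabilityMeasure μ] (hsym : μ.map (fun x => -x) = μ) (hlc : LC μ)
    {m : ℕ} (hm2 : 2 ≤ m) {q : ℝ} (hq : 1 ≤ q) {A : Set (E n)} (hAc : IsCompact A)
    (hAconv : Convex ℝ A) (hA : 2 * Real.exp (-q) ≤ μ.real A) :
    μ.real (A + (1 / ((m:ℝ) - 1)) • (A - A) + G μ q (64 * Real.exp 3 * (m:ℝ) ^ 4))ᶜ ≤
      Real.exp (-q) := by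
  have hmr : (2:ℝ) ≤ m := by exact_mod_cast hm2
  have hm0 : (0:ℝ) < m := by linarith
  have hm1 : (0:ℝ) < m - 1 := by linarith
  have hm4 : (1:ℝ) ≤ (m:ℝ) ^ 4 := one_le_pow₀ (by linarith)
  have hepos := Real.exp_pos (-q)
  have hq0 : 0 < q := by linarith
  have hfin : ∀ q : ℝ, 0 < q → ∀ v : E n, mq μ q v < ⊤ := fun q hq v => mq_lt_top hsym hlc hq v
  have hAne : A.Nonempty := by
    rw [nonempty_iff_ne_empty]
    intro h
    rw [h] at hA
    simp at hA
    linarith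
  have hR1 : (m:ℝ) / ((m:ℝ) - 1) = 1 + 1 / ((m:ℝ) - 1) := by field_simp; ring
  set W := A + (1 / ((m:ℝ) - 1)) • (A - A) + G μ q (64 * Real.exp 3 * (m:ℝ) ^ 4) with hW
  have hAAc : IsCompact (A - A) := by rw [sub_eq_add_neg]; exact hAc.add hAc.neg
  have hWc : IsCompact W := (hAc.add (hAAc.smul _)).add (isCompact_G _ _)
  have hWconv : Convex ℝ W := (hAconv.add ((hAconv.sub hAconv).smul _)).add convex_G
  set Q : ℝ := 16 * (m:ℝ) ^ 4 * q with hQ
  have hqQ : q ≤ Q := by rw [hQ]; nlinarith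
  have hQ0 : 0 < Q := by linarith
  refine enl_gen hsym hlc hm2 hq hAc.measurableSet hWc hWconv (Q := Q) hQ.ge ?_
  intro v δ hδ
  set t := Real.exp 1 * hm μ Q v + δ with ht
  obtain ⟨x₁, hx₁A, hx₁⟩ := hAc.exists_isMaxOn hAne (f := fun x : E n => (inner ℝ v x : ℝ))
    (by fun_prop)
  obtain ⟨x₀, hx₀A, hx₀⟩ := hAc.exists_isMinOn hAne (f := fun x : E n => (inner ℝ v x : ℝ))
    (by fun_prop)
  refine ⟨max (-t) (inner ℝ v x₀), inner ℝ v x₁, fun x hx => hx₁ hx, ?_, ?_⟩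
  · rcases le_total (-t) (inner ℝ v x₀) with h | h
    · rw [max_eq_right h]
      have e : A ∩ hs v (inner ℝ v x₀) = A := inter_eq_left.2 fun x hx => hx₀ hx
      rw [e]; linarith
    · rw [max_eq_left h]
      have h1 : A ⊆ (A ∩ hs v (-t)) ∪ {x | -x ∈ hs v t} := by
        intro x hx
        rcases le_total (-t) (inner ℝ v x) with h2 | h2
        · exact Or.inl ⟨hx, h2⟩
        · right
          show t ≤ inner ℝ v (-x)
          rw [inner_neg_right]; linarith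
      have h2 : μ.real {x : E n | -x ∈ hs v t} = μ.real (hs v t) := by
        simp only [Measure.real]
        rw [measure_neg hsym _ (isClosed_hs v t).measurableSet]
      have h3 := (measureReal_mono (μ := μ) h1 (measure_ne_top μ _)).trans
        (measureReal_union_le _ _)
      have h4 := markov_hm hfin hQ0 v hδ
      have h5 : Real.exp (-Q) ≤ Real.exp (-q) := Real.exp_le_exp.2 (by linarith)
      rw [h2] at h3
      linarith
  · intro b hb
    obtain ⟨z, hz, hzv⟩ := exists_big hsym hlc hq hqQ v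
      (show 0 ≤ 2 * Real.exp 1 by positivity)
    have hz' : z ∈ G μ q (64 * Real.exp 3 * (m:ℝ) ^ 4) := by
      refine G_mono ?_ hz
      have e1 : Q / q = 16 * (m:ℝ) ^ 4 := by rw [hQ]; field_simp
      have e2 : Real.exp 3 = Real.exp 2 * Real.exp 1 := by rw [← Real.exp_add]; norm_num
      rw [e1, e2]
      apply le_of_eq; ring
    have hw := hb (x₁ + (1 / ((m:ℝ) - 1)) • (x₁ - x₀) + z)
      ⟨_, ⟨x₁, hx₁A, _, ⟨_, ⟨x₁, hx₁A, x₀, hx₀A, rfl⟩, rfl⟩, rfl⟩, z, hz', rfl⟩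
    rw [inner_add_right, inner_add_right, inner_smul_right, inner_sub_right] at hw
    have hle1 : -t ≤ max (-t) (inner ℝ v x₀) := le_max_left _ _
    have hle2 : inner ℝ v x₀ ≤ max (-t) (inner ℝ v x₀) := le_max_right _ _
    set l := max (-t) (inner ℝ v x₀) with hl
    have hpos : 0 < 1 / ((m:ℝ) - 1) := by positivity
    have h6 : 1 / ((m:ℝ) - 1) * (inner ℝ v x₁ - l) ≤
        1 / ((m:ℝ) - 1) * (inner ℝ v x₁ - inner ℝ v x₀) :=
      mul_le_mul_of_nonneg_left (by linarith) hpos.le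
    rw [hR1]
    have e3 : (1 + 1 / ((m:ℝ) - 1)) * (inner ℝ v x₁ - l) =
        inner ℝ v x₁ - l + 1 / ((m:ℝ) - 1) * (inner ℝ v x₁ - l) := by ring
    rw [e3]
    linarith

/-- The symmetric case, with the dilation `m / (m - 1)`. -/
theorem enl_sym [IsProbabilityMeasure μ] (hsym : μ.map (fun x => -x) = μ) (hlc : LC μ)
    {m : ℕ} (hm2 : 2 ≤ m) {q : ℝ} (hq : 1 ≤ q) {A : Set (E n)} (hAc : IsCompact A)
    (hAconv : Convex ℝ A) (hAs : ∀ x ∈ A, -x ∈ A) (hA : 2 * Real.exp (-q) ≤ μ.real A) :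
    μ.real (((m:ℝ) / ((m:ℝ) - 1)) • A + G μ q (32 * Real.exp 3 * (m:ℝ) ^ 4))ᶜ ≤
      Real.exp (-q) := by
  have hmr : (2:ℝ) ≤ m := by exact_mod_cast hm2
  have hm0 : (0:ℝ) < m := by linarith
  have hm1 : (0:ℝ) < m - 1 := by linarith
  have hm4 : (1:ℝ) ≤ (m:ℝ) ^ 4 := one_le_pow₀ (by linarith)
  have hepos := Real.exp_pos (-q)
  have hq0 : 0 < q := by linarith
  have hAne : A.Nonempty := by
    rw [nonempty_iff_ne_empty]
    intro h
    rw [h] at hA
    simp at hA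
    linarith
  set W := ((m:ℝ) / ((m:ℝ) - 1)) • A + G μ q (32 * Real.exp 3 * (m:ℝ) ^ 4) with hW
  have hWc : IsCompact W := (hAc.smul _).add (isCompact_G _ _)
  have hWconv : Convex ℝ W := (hAconv.smul _).add convex_G
  set Q : ℝ := 16 * (m:ℝ) ^ 4 * q with hQ
  have hqQ : q ≤ Q := by rw [hQ]; nlinarith
  refine enl_gen hsym hlc hm2 hq hAc.measurableSet hWc hWconv (Q := Q) hQ.ge ?_
  intro v δ hδ
  obtain ⟨x₁, hx₁A, hx₁⟩ := hAc.exists_isMaxOn hAne (f := fun x : E n => (inner ℝ v x : ℝ))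
    (by fun_prop)
  refine ⟨0, inner ℝ v x₁, fun x hx => hx₁ hx, ?_, ?_⟩
  · have := half_sym hsym hAc hAs v
    linarith
  · intro b hb
    obtain ⟨z, hz, hzv⟩ := exists_big hsym hlc hq hqQ v (Real.exp_pos 1).le
    have hz' : z ∈ G μ q (32 * Real.exp 3 * (m:ℝ) ^ 4) := by
      refine G_mono ?_ hz
      have e1 : Q / q = 16 * (m:ℝ) ^ 4 := by rw [hQ]; field_simp
      have e2 : Real.exp 3 = Real.exp 2 * Real.exp 1 := by rw [← Real.exp_add]; norm_num
      rw [e1, e2]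
      apply le_of_eq; ring
    have hw := hb (((m:ℝ) / ((m:ℝ) - 1)) • x₁ + z) ⟨_, ⟨x₁, hx₁A, rfl⟩, z, hz', rfl⟩
    rw [inner_add_right, inner_smul_right] at hw
    rw [sub_zero]
    linarith

end Pool.CIP
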