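import Pool.Agent.CIP.X

set_option autoImplicit false

open MeasureTheory Pointwise Set Filter Topology

namespace Pool.CIP

variable {n : ℕ} {μ : Measure (E n)}

/-- the enlargement theorem for symmetric compact convex sets, as a predicate -/
def EnlS (μ : Measure (E n)) (C₁ : ℝ) : Prop :=
  ∀ B : Set (E n), IsCompact B → Convex ℝ B → (∀ x ∈ B, -x ∈ B) → ∀ q : ℝ, 1 ≤ q →
    5 * Real.exp (-q) ≤ μ.real B → ∀ m : ℕ, 2 ≤ m →
    μ.real ((1 + 3 / ((m:ℝ) - 1)) • B + G μ q (C₁ * (m:ℝ) ^ 4))ᶜ ≤ Real.exp (-q)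

lemma eg_add {q a b : ℝ} {g h : E n} (hg : g ∈ G μ q a) (hh : h ∈ G μ q b) :
    g + h ∈ G μ q (a + b) := by
  intro v
  rw [inner_add_right, add_mul]
  exact (abs_add_le _ _).trans (add_le_add (hg v) (hh v))

/-- a point of a smaller dilate of a symmetric convex set -/
lemma eg_smul {K : Set (E n)} (hKconv : Convex ℝ K) (hKs : ∀ x ∈ K, -x ∈ K) {s t : ℝ}
    (hs : 0 ≤ s) (hst : s ≤ t) (ht : 0 < t) {x : E n} (hx : x ∈ K) : ∃ z ∈ K, s • x = t • z := by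
  have h0 : (0 : E n) ∈ K := by
    have h := hKconv hx (hKs x hx) (by norm_num : (0:ℝ) ≤ 1 / 2) (by norm_num : (0:ℝ) ≤ 1 / 2)
      (by norm_num)
    have e : (1 / 2 : ℝ) • x + (1 / 2 : ℝ) • (-x) = 0 := by module
    rwa [e] at h
  refine ⟨(s / t) • x, ?_, ?_⟩
  · have h := hKconv hx h0 (div_nonneg hs ht.le)
      (sub_nonneg.2 ((div_le_one ht).2 hst)) (by ring)
    simpa using h
  · rw [smul_smul, mul_div_cancel₀ _ ht.ne']

lemma eg_half_diff {K : Set (E n)} (hKconv : Convex ℝ K) (hKs : ∀ x ∈ K, -x ∈ K) {x y : E n}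
    (hx : x ∈ K) (hy : y ∈ K) : ∃ z ∈ K, x - y = (2:ℝ) • z := by
  refine ⟨(1 / 2 : ℝ) • x + (1 / 2 : ℝ) • (-y), hKconv hx (hKs y hy) (by norm_num) (by norm_num)
    (by norm_num), ?_⟩
  module

/-- one enlargement of a sum of a dilate of `K` and of the centroid body -/
lemma eg_body [IsProbabilityMeasure μ] {C₁ : ℝ} (hE : EnlS μ C₁) {K : Set (E n)}
    (hKc : IsCompact K) (hKconv : Convex ℝ K) (hKs : ∀ x ∈ K, -x ∈ K) {q r c : ℝ} (hq : 1 ≤ q)
    (hS : 5 * Real.exp (-q) ≤ μ.real (r • K + G μ q c)) {m : ℕ} (hm : 2 ≤ m) :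
    ∃ M : Set (E n), IsCompact M ∧ μ.real Mᶜ ≤ Real.exp (-q) ∧ ∀ x ∈ M, ∃ k ∈ K,
      ∃ g ∈ G μ q ((1 + 3 / ((m:ℝ) - 1)) * c + C₁ * (m:ℝ) ^ 4),
        x = ((1 + 3 / ((m:ℝ) - 1)) * r) • k + g := by
  have hm1 : (0:ℝ) < (m:ℝ) - 1 := by
    have : (2:ℝ) ≤ m := by exact_mod_cast hm
    linarith
  have hη : (0:ℝ) ≤ 1 + 3 / ((m:ℝ) - 1) := by positivity
  have hBc : IsCompact (r • K + G μ q c) := (hKc.smul r).add (isCompact_G q c)
  have hBconv : Convex ℝ (r • K + G μ q c) := (hKconv.smul r).add convex_G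
  have hBs : ∀ x ∈ r • K + G μ q c, -x ∈ r • K + G μ q c := by
    rintro _ ⟨_, ⟨k, hk, rfl⟩, g, hg, rfl⟩
    refine ⟨r • (-k), ⟨-k, hKs k hk, rfl⟩, -g, neg_mem_G hg, ?_⟩
    show r • (-k) + -g = -(r • k + g)
    module
  refine ⟨(1 + 3 / ((m:ℝ) - 1)) • (r • K + G μ q c) + G μ q (C₁ * (m:ℝ) ^ 4),
    (hBc.smul _).add (isCompact_G _ _), hE _ hBc hBconv hBs q hq hS m hm, ?_⟩
  rintro _ ⟨_, ⟨_, ⟨_, ⟨k, hk, rfl⟩, g, hg, rfl⟩, rfl⟩, g', hg', rfl⟩
  refine ⟨k, hk, (1 + 3 / ((m:ℝ) - 1)) • g + g', eg_add (smul_mem_G hη hg) hg', ?_⟩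
  show (1 + 3 / ((m:ℝ) - 1)) • (r • k + g) + g' = ((1 + 3 / ((m:ℝ) - 1)) * r) • k +
    ((1 + 3 / ((m:ℝ) - 1)) • g + g')
  module

/-- the radii of the centroid bodies in the iteration -/
noncomputable def eg_seq (κ c₁ : ℝ) : ℕ → ℝ
  | 0 => 0
  | i + 1 => κ * eg_seq κ c₁ i + c₁

lemma eg_seq_nonneg {κ c₁ : ℝ} (hκ : 0 ≤ κ) (hc : 0 ≤ c₁) (i : ℕ) : 0 ≤ eg_seq κ c₁ i := by
  induction i with
  | zero => exact le_rfl
  | succ i ih => exact add_nonneg (mul_nonneg hκ ih) hc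

lemma eg_seq_le {κ c₁ : ℝ} (hκ : 1 ≤ κ) (hc : 0 ≤ c₁) (i : ℕ) : eg_seq κ c₁ i ≤ i * c₁ * κ ^ i := by
  induction i with
  | zero => simp [eg_seq]
  | succ i ih =>
    have h1 : 1 ≤ κ ^ (i + 1) := one_le_pow₀ hκ
    have h2 : κ * eg_seq κ c₁ i ≤ κ * (i * c₁ * κ ^ i) := mul_le_mul_of_nonneg_left ih (by linarith)
    have h3 : c₁ ≤ c₁ * κ ^ (i + 1) := le_mul_of_one_le_right hc h1
    show κ * eg_seq κ c₁ i + c₁ ≤ _
    calc κ * eg_seq κ c₁ i + c₁ ≤ κ * (i * c₁ * κ ^ i) + c₁ * κ ^ (i + 1) := by linarith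
      _ = ((i + 1 : ℕ) : ℝ) * c₁ * κ ^ (i + 1) := by push_cast; ring

/-- far pairs of sets inside a large body have small measure -/
lemma eg_far [IsProbabilityMeasure μ] (hlc : LC μ) {C₁ : ℝ} (hC₁ : 0 ≤ C₁) (hE : EnlS μ C₁)
    {K : Set (E n)} (hKc : IsCompact K) (hKconv : Convex ℝ K) (hKs : ∀ x ∈ K, -x ∈ K) {ε ε₀ δ : ℝ}
    (hε : 0 < ε) (hε₀ : 0 ≤ ε₀) (hεε : (1 + δ / 4) * ε₀ ≤ ε) (hδ : 0 < δ) (hδ1 : δ ≤ 1)
    (hUC : ∀ x ∈ K, ∀ y ∈ K, (1 / 2 : ℝ) • (x + y) ∉ (1 - δ) • K → x - y ∈ ε₀ • K)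
    {q : ℝ} (hq : 1 ≤ q) (hK : 5 * Real.exp (-q) ≤ μ.real K) {m J : ℕ} (hm : 2 ≤ m)
    (hmδ : 3 / ((m:ℝ) - 1) ≤ δ / 4) (hJ : (1 - δ / 2) ^ J ≤ ε / 4) {s : ℝ}
    (hs : 2 * ((J + 1 : ℕ) * (C₁ * (m:ℝ) ^ 4) * (1 + 3 / ((m:ℝ) - 1)) ^ (J + 1)) ≤ s) :
    ∃ M : Set (E n), IsCompact M ∧ μ.real Mᶜ ≤ Real.exp (-q) ∧
      ∀ A₁ D₁ : Set (E n), IsClosed A₁ → IsClosed D₁ → A₁ ⊆ M → D₁ ⊆ M →
        (∀ a ∈ A₁, ∀ d ∈ D₁, ∀ k ∈ K, ∀ g ∈ G μ q s, d ≠ a + ε • k + g) →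
        μ.real A₁ * μ.real D₁ ≤ 25 * Real.exp (-(2 * q)) := by
  set κ := 1 + 3 / ((m:ℝ) - 1) with hκ
  set c₁ := C₁ * (m:ℝ) ^ 4 with hc₁
  have hm1 : (0:ℝ) < (m:ℝ) - 1 := by
    have : (2:ℝ) ≤ m := by exact_mod_cast hm
    linarith
  have hκ1 : 1 ≤ κ := by
    have : 0 ≤ 3 / ((m:ℝ) - 1) := by positivity
    linarith
  have hκ2 : κ ≤ 5 / 4 := by linarith
  have hc₁0 : 0 ≤ c₁ := by positivity
  have hKne : K.Nonempty := by
    rw [nonempty_iff_ne_empty]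
    intro h
    rw [h] at hK
    simp at hK
    have := Real.exp_pos (-q)
    linarith
  have hcle : ∀ i ≤ J + 1, 2 * eg_seq κ c₁ i ≤ s := by
    intro i hi
    refine le_trans ?_ hs
    have h1 := eg_seq_le hκ1 hc₁0 i
    have h2 : (i:ℝ) * c₁ * κ ^ i ≤ (J + 1 : ℕ) * c₁ * κ ^ (J + 1) := by
      apply mul_le_mul
      · apply mul_le_mul_of_nonneg_right _ hc₁0
        exact_mod_cast hi
      · exact pow_le_pow_right₀ hκ1 hi
      · positivity
      · positivity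
    linarith
  have hr0 : ∀ i : ℕ, 0 < (1 - δ / 2) ^ i := fun i => pow_pos (by linarith) i
  have hr1 : ∀ i : ℕ, (1 - δ / 2) ^ i ≤ 1 := fun i => pow_le_one₀ (by linarith) (by linarith)
  have hzero : 5 * Real.exp (-q) ≤ μ.real ((1 - δ / 2) ^ 0 • K + G μ q (eg_seq κ c₁ 0)) := by
    refine hK.trans (measureReal_mono ?_ (measure_ne_top μ _))
    intro x hx
    refine ⟨(1 - δ / 2) ^ 0 • x, ⟨x, hx, rfl⟩, 0, zero_mem_G le_rfl, ?_⟩
    simp
  by_cases hall : ∀ i ≤ J, 5 * Real.exp (-q) ≤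
      μ.real ((1 - δ / 2) ^ i • K + G μ q (eg_seq κ c₁ i))
  · -- the body gets small
    obtain ⟨M, hMc, hMμ, hM⟩ := eg_body hE hKc hKconv hKs hq (hall J le_rfl) hm
    refine ⟨M, hMc, hMμ, fun A₁ D₁ _ _ hA₁ hD₁ hno => ?_⟩
    have hempty : A₁ = ∅ ∨ D₁ = ∅ := by
      by_contra hcon
      push Not at hcon
      obtain ⟨⟨a, ha⟩, ⟨d, hd⟩⟩ := hcon
      obtain ⟨k, hk, g, hg, hak⟩ := hM a (hA₁ ha)
      obtain ⟨l, hl, g', hg', hdl⟩ := hM d (hD₁ hd)
      obtain ⟨z, hz, hz'⟩ := eg_half_diff hKconv hKs hl hk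
      have h1 : κ * (1 - δ / 2) ^ J * 2 ≤ ε := by
        have := hr0 J
        nlinarith
      obtain ⟨w, hw, hw'⟩ := eg_smul hKconv hKs
        (s := κ * (1 - δ / 2) ^ J * 2) (t := ε) (by have := hr0 J; positivity) h1 hε hz
      refine hno a ha d hd w hw (g' - g) ?_ ?_
      · have h2 := eg_add hg' (neg_mem_G hg)
        rw [← sub_eq_add_neg] at h2
        refine G_mono ?_ h2
        have h3 := hcle (J + 1) le_rfl
        have h4 : eg_seq κ c₁ (J + 1) = κ * eg_seq κ c₁ J + c₁ := rfl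
        linarith
      · rw [← hw', mul_smul, ← hz', hak, hdl]
        module
    have h5 := Real.exp_pos (-(2 * q))
    rcases hempty with h | h <;> rw [h] <;> simp <;> exact h5.le
  · push Not at hall
    obtain ⟨i, hiJ, hi, hi1⟩ : ∃ i, i + 1 ≤ J ∧
        5 * Real.exp (-q) ≤ μ.real ((1 - δ / 2) ^ i • K + G μ q (eg_seq κ c₁ i)) ∧
        μ.real ((1 - δ / 2) ^ (i + 1) • K + G μ q (eg_seq κ c₁ (i + 1))) < 5 * Real.exp (-q) := by
      classical
      obtain ⟨j, hj⟩ := hall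
      have hex : ∃ j, j ≤ J ∧ μ.real ((1 - δ / 2) ^ j • K + G μ q (eg_seq κ c₁ j)) <
          5 * Real.exp (-q) := ⟨j, hj⟩
      have hspec := Nat.find_spec hex
      have hmin : ∀ i < Nat.find hex, ¬ _ := fun i hi => Nat.find_min hex hi
      rcases hfind : Nat.find hex with _ | i
      · rw [hfind] at hspec
        exact absurd hspec.2 (not_lt.2 hzero)
      · rw [hfind] at hspec hmin
        refine ⟨i, hspec.1, ?_, hspec.2⟩
        have := hmin i (Nat.lt_succ_self i)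
        by_contra hcon
        push Not at hcon
        exact this ⟨by omega, hcon⟩
    obtain ⟨M, hMc, hMμ, hM⟩ := eg_body hE hKc hKconv hKs hq hi hm
    refine ⟨M, hMc, hMμ, fun A₁ D₁ hA₁c hD₁c hA₁ hD₁ hno => ?_⟩
    set U := (1 - δ / 2) ^ (i + 1) • K + G μ q (eg_seq κ c₁ (i + 1)) with hU
    have key := hlc.closed hA₁c hD₁c (t := 1 / 2) (by norm_num) (by norm_num) (U := U) (by
      intro a ha d hd
      by_contra hcon
      obtain ⟨k, hk, g, hg, hak⟩ := hM a (hA₁ ha)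
      obtain ⟨l, hl, g', hg', hdl⟩ := hM d (hD₁ hd)
      have h1 : (1 / 2 : ℝ) • (l + k) ∉ (1 - δ) • K := by
        rintro ⟨z, hz, hz'⟩
        apply hcon
        have h2 : κ * (1 - δ / 2) ^ i * (1 - δ) ≤ (1 - δ / 2) ^ (i + 1) := by
          have h3 := hr0 i
          have h4 : κ * (1 - δ) ≤ 1 - δ / 2 := by nlinarith
          calc κ * (1 - δ / 2) ^ i * (1 - δ) = (1 - δ / 2) ^ i * (κ * (1 - δ)) := by ring
            _ ≤ (1 - δ / 2) ^ i * (1 - δ / 2) := mul_le_mul_of_nonneg_left h4 h3.le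
            _ = (1 - δ / 2) ^ (i + 1) := by rw [pow_succ]
        obtain ⟨w, hw, hw'⟩ := eg_smul hKconv hKs
          (s := κ * (1 - δ / 2) ^ i * (1 - δ)) (t := (1 - δ / 2) ^ (i + 1))
          (mul_nonneg (mul_nonneg (by linarith) (hr0 i).le) (by linarith)) h2 (hr0 (i + 1)) hz
        refine ⟨(1 - δ / 2) ^ (i + 1) • w, ⟨w, hw, rfl⟩, (1 / 2 : ℝ) • g + (1 / 2 : ℝ) • g', ?_, ?_⟩
        · exact convex_G hg hg' (by norm_num) (by norm_num) (by norm_num)
        · have hz2 : (1 - δ) • z = (1 / 2 : ℝ) • (l + k) := hz'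
          show (1 - δ / 2) ^ (i + 1) • w + ((1 / 2 : ℝ) • g + (1 / 2 : ℝ) • g') = _
          rw [← hw', mul_smul, hz2, hak, hdl]
          module
      obtain ⟨z, hz, hz'⟩ := hUC l hl k hk h1
      have hz2 : ε₀ • z = l - k := hz'
      have h2 : κ * (1 - δ / 2) ^ i * ε₀ ≤ ε := by
        have h3 := hr0 i
        have h4 := hr1 i
        have h5 : κ * (1 - δ / 2) ^ i ≤ 1 + δ / 4 := by nlinarith
        exact (mul_le_mul_of_nonneg_right h5 hε₀).trans hεε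
      obtain ⟨w, hw, hw'⟩ := eg_smul hKconv hKs
        (s := κ * (1 - δ / 2) ^ i * ε₀) (t := ε)
        (mul_nonneg (mul_nonneg (by linarith) (hr0 i).le) hε₀) h2 hε hz
      refine hno a ha d hd w hw (g' - g) ?_ ?_
      · have h3 := eg_add hg' (neg_mem_G hg)
        rw [← sub_eq_add_neg] at h3
        refine G_mono ?_ h3
        have h4 := hcle (i + 1) (by omega)
        have h5 : eg_seq κ c₁ (i + 1) = κ * eg_seq κ c₁ i + c₁ := rfl
        linarith
      · rw [← hw', mul_smul, hz2, hak, hdl]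
        module)
    have key2 := ENNReal.toReal_mono (measure_ne_top μ _) key
    rw [ENNReal.toReal_mul, ← ENNReal.toReal_rpow, ← ENNReal.toReal_rpow] at key2
    have key3 : μ.real A₁ ^ (1 / 2 : ℝ) * μ.real D₁ ^ (1 - 1 / 2 : ℝ) ≤ μ.real U := key2
    have e1 : (1 - 1 / 2 : ℝ) = 1 / 2 := by norm_num
    rw [e1, ← Real.sqrt_eq_rpow, ← Real.sqrt_eq_rpow,
      ← Real.sqrt_mul measureReal_nonneg] at key3
    have h1 : Real.sqrt (μ.real A₁ * μ.real D₁) ≤ 5 * Real.exp (-q) := key3.trans hi1.le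
    have h2 : μ.real A₁ * μ.real D₁ = Real.sqrt (μ.real A₁ * μ.real D₁) ^ 2 :=
      (Real.sq_sqrt (mul_nonneg measureReal_nonneg measureReal_nonneg)).symm
    rw [h2]
    calc Real.sqrt (μ.real A₁ * μ.real D₁) ^ 2 ≤ (5 * Real.exp (-q)) ^ 2 :=
          pow_le_pow_left₀ (Real.sqrt_nonneg _) h1 2
      _ = 25 * Real.exp (-(2 * q)) := by
          rw [mul_pow, ← Real.exp_nat_mul]
          norm_num

/-- the choice of the parameters -/
lemma eg_param {ε δ C₁ : ℝ} (hε : 0 < ε) (hε1 : ε ≤ 1) (hδ : 0 < δ) (hδ1 : δ ≤ 1) (hC₁ : 0 ≤ C₁) :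
    ∃ m J : ℕ, 2 ≤ m ∧ 3 / ((m:ℝ) - 1) ≤ δ / 4 ∧ (1 - δ / 2) ^ J ≤ ε / 4 ∧
      2 * ((J + 1 : ℕ) * (C₁ * (m:ℝ) ^ 4) * (1 + 3 / ((m:ℝ) - 1)) ^ (J + 1)) ≤
        2100000 * C₁ / (δ ^ 5 * ε) := by
  set L := Real.log (4 / ε) with hL
  have h4ε : 4 ≤ 4 / ε := by rw [le_div_iff₀ hε]; nlinarith
  have hL0 : 0 ≤ L := Real.log_nonneg (by linarith)
  have hexpL : Real.exp L = 4 / ε := Real.exp_log (by positivity)
  set k := ⌈12 / δ⌉₊ with hk
  set J := ⌈2 / δ * L⌉₊ with hJ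
  have hk1 : 12 / δ ≤ k := Nat.le_ceil _
  have hk2 : (k:ℝ) < 12 / δ + 1 := Nat.ceil_lt_add_one (by positivity)
  have hδi : 1 ≤ 1 / δ := by rw [le_div_iff₀ hδ]; linarith
  have h12 : 12 ≤ 12 / δ := by
    rw [le_div_iff₀ hδ]; linarith
  have hk0 : (0:ℝ) < k := by linarith
  have hJ1 : 2 / δ * L ≤ J := Nat.le_ceil _
  have hJ2 : (J:ℝ) < 2 / δ * L + 1 := Nat.ceil_lt_add_one (by positivity)
  have hη : 3 / ((k:ℝ)) ≤ δ / 4 := by
    rw [div_le_div_iff₀ hk0 (by norm_num)]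
    rw [div_le_iff₀ hδ] at hk1
    linarith
  refine ⟨k + 1, J, ?_, ?_, ?_, ?_⟩
  · have : (1:ℝ) < k := by linarith
    have : 1 < k := by exact_mod_cast this
    omega
  · push_cast
    rw [add_sub_cancel_right]
    exact hη
  · have h1 : 1 - δ / 2 ≤ Real.exp (-(δ / 2)) := by
      have := Real.add_one_le_exp (-(δ / 2))
      linarith
    calc (1 - δ / 2) ^ J ≤ Real.exp (-(δ / 2)) ^ J := pow_le_pow_left₀ (by linarith) h1 J
      _ = Real.exp (-(J * (δ / 2))) := by rw [← Real.exp_nat_mul]; congr 1; ring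
      _ ≤ Real.exp (-L) := by
          apply Real.exp_le_exp.2
          have h2 : 2 / δ * L * (δ / 2) ≤ J * (δ / 2) := mul_le_mul_of_nonneg_right hJ1 (by positivity)
          have h3 : 2 / δ * L * (δ / 2) = L := by field_simp
          linarith
      _ = ε / 4 := by rw [Real.exp_neg, hexpL, inv_div]
  · push_cast
    rw [add_sub_cancel_right]
    have h1 : (1 + 3 / (k:ℝ)) ^ (J + 1) ≤ Real.exp (L / 2) * Real.exp (1 / 2) := by
      have h2 : 1 + 3 / (k:ℝ) ≤ Real.exp (δ / 4) := by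
        have := Real.add_one_le_exp (δ / 4)
        linarith
      calc (1 + 3 / (k:ℝ)) ^ (J + 1) ≤ Real.exp (δ / 4) ^ (J + 1) :=
            pow_le_pow_left₀ (by positivity) h2 _
        _ = Real.exp (((J + 1 : ℕ) : ℝ) * (δ / 4)) := by rw [← Real.exp_nat_mul]
        _ ≤ Real.exp (L / 2 + 1 / 2) := by
            apply Real.exp_le_exp.2
            push_cast
            have h3 : ((J:ℝ) + 1) * (δ / 4) ≤ (2 / δ * L + 2) * (δ / 4) :=
              mul_le_mul_of_nonneg_right (by linarith) (by positivity)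
            have h4 : (2 / δ * L + 2) * (δ / 4) = L / 2 + δ / 2 := by field_simp; ring
            linarith
        _ = _ := Real.exp_add _ _
    have h2 : (J:ℝ) + 1 ≤ 4 / δ * Real.exp (L / 2) := by
      have h3 := Real.add_one_le_exp (L / 2)
      have h4 : (2:ℝ) ≤ 2 / δ := by rw [le_div_iff₀ hδ]; linarith
      calc (J:ℝ) + 1 ≤ 2 / δ * L + 2 / δ := by linarith
        _ = 4 / δ * ((L + 1) / 2) := by ring
        _ ≤ 4 / δ * Real.exp (L / 2) := mul_le_mul_of_nonneg_left (by linarith) (by positivity)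
    have h3 : ((k:ℝ) + 1) ^ 4 ≤ (14 / δ) ^ 4 := by
      apply pow_le_pow_left₀ (by positivity)
      have h4 : 14 / δ = 12 / δ + 2 * (1 / δ) := by ring
      rw [h4]; linarith
    have h4 : Real.exp (1 / 2) ≤ 1.65 := by
      have h5 : Real.exp (1 / 2) ^ 2 = Real.exp 1 := by rw [← Real.exp_nat_mul]; norm_num
      have h6 := Real.exp_one_lt_d9
      have h7 : Real.exp (1 / 2) ^ 2 ≤ 1.65 ^ 2 := by rw [h5]; linarith
      exact (pow_le_pow_iff_left₀ (Real.exp_pos _).le (by norm_num) (by norm_num)).1 h7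
    have h5 : Real.exp (L / 2) * Real.exp (L / 2) = 4 / ε := by
      rw [← Real.exp_add, add_halves, hexpL]
    have h6 : ((J:ℝ) + 1) * (C₁ * ((k:ℝ) + 1) ^ 4) * (1 + 3 / (k:ℝ)) ^ (J + 1) ≤
        (4 / δ * Real.exp (L / 2)) * (C₁ * (14 / δ) ^ 4) * (Real.exp (L / 2) * 1.65) := by
      apply mul_le_mul
      · apply mul_le_mul h2 (mul_le_mul_of_nonneg_left h3 hC₁) (by positivity) (by positivity)
      · exact h1.trans (mul_le_mul_of_nonneg_left h4 (Real.exp_pos _).le)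
      · positivity
      · positivity
    calc 2 * (((J:ℝ) + 1) * (C₁ * ((k:ℝ) + 1) ^ 4) * (1 + 3 / (k:ℝ)) ^ (J + 1))
        ≤ 2 * ((4 / δ * Real.exp (L / 2)) * (C₁ * (14 / δ) ^ 4) * (Real.exp (L / 2) * 1.65)) := by
          linarith
      _ = 2 * (4 / δ * (C₁ * (14 / δ) ^ 4)) * 1.65 * (Real.exp (L / 2) * Real.exp (L / 2)) := by
          ring
      _ = 2028364.8 * C₁ / (δ ^ 5 * ε) := by
          rw [h5]; field_simp; ring
      _ ≤ 2100000 * C₁ / (δ ^ 5 * ε) := by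
          apply div_le_div_of_nonneg_right _ (by positivity)
          linarith

/-- all Borel sets, up to a small multiple of a uniformly convex body of large measure -/
theorem eg_main [IsProbabilityMeasure μ] (hsym : μ.map (fun x => -x) = μ) (hlc : LC μ) {C₁ : ℝ}
    (hC₁ : 0 ≤ C₁) (hE : EnlS μ C₁) {A K : Set (E n)} (hAm : MeasurableSet A)
    (hKc : IsCompact K) (hKconv : Convex ℝ K) (hKs : ∀ x ∈ K, -x ∈ K)
    (hK : min (μ.real A / 2) (1 / 4) ≤ μ.real K) {ε ε₀ δ τ : ℝ}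
    (hτ : 0 < τ) (hτ1 : τ ≤ 1) (hτε : τ ≤ ε) (hε₀ : 0 ≤ ε₀) (hεε : (1 + δ / 4) * ε₀ ≤ ε)
    (hδ : 0 < δ) (hδ1 : δ ≤ 1)
    (hUC : ∀ x ∈ K, ∀ y ∈ K, (1 / 2 : ℝ) • (x + y) ∉ (1 - δ) • K → x - y ∈ ε₀ • K)
    {p : ℝ} (hp : 2 ≤ p) {s : ℝ}
    (hs : (7000000000000 + 32000000000 * C₁) / (δ ^ 5 * τ ^ 2) ≤ s) :
    2 * Real.exp p * μ.real A * (1 - μ.real (A + ε • K + G μ p s)) ≤
      (1 - μ.real A) * μ.real (A + ε • K + G μ p s) := by
  have hp0 : 0 < p := by linarith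
  set A' := A + ε • K + G μ p s with hA'
  set a := μ.real A with ha
  set a' := μ.real A' with ha'
  have ha1 : a ≤ 1 := measureReal_le_one
  have ha'1 : a' ≤ 1 := measureReal_le_one
  have ha'0 : 0 ≤ a' := measureReal_nonneg
  have hε : 0 < ε := by linarith
  have hden : δ ^ 5 * τ ^ 2 ≤ 1 := by
    have h1 : δ ^ 5 ≤ 1 := pow_le_one₀ hδ.le hδ1
    have h2 : τ ^ 2 ≤ 1 := pow_le_one₀ hτ.le hτ1
    calc δ ^ 5 * τ ^ 2 ≤ 1 * 1 := mul_le_mul h1 h2 (by positivity) (by norm_num)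
      _ = 1 := by norm_num
  have hden0 : 0 < δ ^ 5 * τ ^ 2 := by positivity
  have hs7 : 7000000000000 ≤ s := by
    refine le_trans ?_ hs
    rw [le_div_iff₀ hden0]
    have : 0 ≤ 32000000000 * C₁ := by positivity
    nlinarith
  have hs0 : 0 ≤ s := by linarith
  rcases (measureReal_nonneg (μ := μ) (s := A)).eq_or_lt with h0 | hpos
  · rw [← ha] at h0
    rw [← h0]
    simpa using ha'0
  rw [← ha] at hpos
  have hKpos : 0 < μ.real K := lt_of_lt_of_le (lt_min (half_pos hpos) (by norm_num)) hK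
  have hKne : K.Nonempty := by
    rw [nonempty_iff_ne_empty]
    intro h
    rw [h] at hKpos
    simp at hKpos
  obtain ⟨k₀, hk₀⟩ := hKne
  have h0K : (0 : E n) ∈ K := by
    have h := hKconv hk₀ (hKs k₀ hk₀) (by norm_num : (0:ℝ) ≤ 1 / 2) (by norm_num : (0:ℝ) ≤ 1 / 2)
      (by norm_num)
    have e : (1 / 2 : ℝ) • k₀ + (1 / 2 : ℝ) • (-k₀) = 0 := by module
    rwa [e] at h
  have hAA' : A ⊆ A' := by
    intro x hx
    refine ⟨x + ε • 0, ⟨x, hx, ε • 0, ⟨0, h0K, rfl⟩, rfl⟩, 0, zero_mem_G hs0, ?_⟩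
    simp
  have hle : a ≤ a' := measureReal_mono hAA' (measure_ne_top μ _)
  rcases ha1.eq_or_lt with h1 | hlt
  · have h2 : a' = 1 := by linarith
    rw [h2, h1]; simp
  have hc0 : 0 < 1 - a := by linarith
  set w := Real.log (1 / (a * (1 - a))) with hw
  have hac : 0 < a * (1 - a) := mul_pos hpos hc0
  have hexpw : Real.exp (-w) = a * (1 - a) := by
    rw [hw, one_div, Real.log_inv, neg_neg, Real.exp_log hac]
  have hac4 : a * (1 - a) ≤ 1 / 4 := by nlinarith [sq_nonneg (a - 1 / 2)]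
  have hw0 : 0 ≤ w := by
    have h1 : Real.exp (-w) ≤ Real.exp 0 := by rw [hexpw, Real.exp_zero]; linarith
    have := Real.exp_le_exp.1 h1
    linarith
  rcases le_or_gt (1000 * p) (ε * w) with hcase | hcase
  · -- very small or very large sets
    have h1 := main_borel hsym hlc hAm hKc hKconv hKs hK hp (θ := ε) (Or.inr hcase)
    have h2 : A + ε • K + G μ p 7000000000000 ⊆ A' :=
      add_subset_add_left (G_mono hs7)
    have h3 := measureReal_mono (μ := μ) h2 (measure_ne_top μ _)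
    rw [← ha, ← ha'] at *
    have h4 : 0 ≤ 2 * Real.exp p * a := by positivity
    calc 2 * Real.exp p * a * (1 - a')
        ≤ 2 * Real.exp p * a * (1 - μ.real (A + ε • K + G μ p 7000000000000)) :=
          mul_le_mul_of_nonneg_left (by linarith) h4
      _ ≤ (1 - a) * μ.real (A + ε • K + G μ p 7000000000000) := h1
      _ ≤ (1 - a) * a' := mul_le_mul_of_nonneg_left h3 hc0.le
  · set q := w + p + 10 with hq
    have hq1 : 1 ≤ q := by linarith
    obtain ⟨m, J, hm, hmδ, hJ', hpar⟩ := eg_param hτ hτ1 hδ hδ1 hC₁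
    have hJ : (1 - δ / 2) ^ J ≤ ε / 4 := by linarith
    have hexpq : Real.exp (-q) = a * (1 - a) * Real.exp (-p - 10) := by
      rw [← hexpw, ← Real.exp_add]; congr 1; rw [hq]; ring
    have hsm : Real.exp (-p - 10) ≤ 1 / 100 := by
      have h1 : Real.exp (-p - 10) ≤ Real.exp (-12) := Real.exp_le_exp.2 (by linarith)
      have h2 : Real.exp (-12) * Real.exp 12 = 1 := by rw [← Real.exp_add]; simp
      have h3 : (100:ℝ) ≤ Real.exp 12 := by
        have h4 : Real.exp 12 = Real.exp 1 ^ 12 := by rw [← Real.exp_nat_mul]; norm_num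
        have h5 : (2:ℝ) ^ 12 ≤ Real.exp 1 ^ 12 := by
          have := Real.exp_one_gt_d9
          gcongr
          linarith
        rw [h4]
        refine le_trans ?_ h5
        norm_num
      have h4 := Real.exp_pos (-12)
      nlinarith
    have hsm0 := Real.exp_pos (-p - 10)
    have hKq : 5 * Real.exp (-q) ≤ μ.real K := by
      refine le_trans (le_min ?_ ?_) hK
      · rw [hexpq]; nlinarith
      · rw [hexpq]; nlinarith
    obtain ⟨M, hMc, hMμ, hM⟩ := eg_far hlc hC₁ hE hKc hKconv hKs hε hε₀ hεε hδ hδ1 hUC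
      hq1 hKq hm hmδ hJ hpar
    obtain ⟨H, hAH, hHm, hHμ⟩ := exists_measurable_superset μ A'
    have hHr : a' = μ.real H := by rw [ha']; simp [Measure.real, hHμ]
    have hcH : μ.real Hᶜ = 1 - μ.real H := by
      rw [measureReal_compl hHm]; simp
    have hexpq2 : Real.exp (-q) ≤ a / 4 := by rw [hexpq]; nlinarith
    have hAM : a / 4 < μ.real (A ∩ M) := by
      have h1 : A ⊆ (A ∩ M) ∪ Mᶜ := by
        intro x hx
        by_cases hxM : x ∈ M
        · exact Or.inl ⟨hx, hxM⟩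
        · exact Or.inr hxM
      have h2 := (measureReal_mono (μ := μ) h1 (measure_ne_top μ _)).trans
        (measureReal_union_le _ _)
      linarith
    obtain ⟨A₁, hA₁A, hA₁c, hA₁m⟩ := Pool.WS.exists_compact_real (hAm.inter hMc.measurableSet) hAM
    have hqp : 2 * Real.exp 2 * (q / p) * (2100000 * C₁ / (δ ^ 5 * τ)) ≤ s := by
      refine le_trans ?_ hs
      have h1 : q / p ≤ 1006 / τ := by
        have h0 : τ * w ≤ ε * w := mul_le_mul_of_nonneg_right hτε hw0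
        rw [div_le_div_iff₀ hp0 hτ, hq]
        nlinarith
      have h2 : Real.exp 2 ≤ 7.3891 := by
        have h3 : Real.exp 2 = Real.exp 1 ^ 2 := by rw [← Real.exp_nat_mul]; norm_num
        have h4 := Real.exp_one_lt_d9
        have h5 : Real.exp 1 ^ 2 ≤ 2.7182818286 ^ 2 := by gcongr
        rw [h3]
        refine h5.trans ?_
        norm_num
      calc 2 * Real.exp 2 * (q / p) * (2100000 * C₁ / (δ ^ 5 * τ))
          ≤ 2 * 7.3891 * (1006 / τ) * (2100000 * C₁ / (δ ^ 5 * τ)) := by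
            apply mul_le_mul_of_nonneg_right _ (by positivity)
            apply mul_le_mul _ h1 (by positivity) (by norm_num)
            linarith
        _ = (31220425320 * 2 / 2 * C₁ + (2 * 7.3891 * 1006 * 2100000 - 31220425320) * C₁) /
              (δ ^ 5 * τ ^ 2) := by
            field_simp
            ring
        _ ≤ (7000000000000 + 32000000000 * C₁) / (δ ^ 5 * τ ^ 2) := by
            apply div_le_div_of_nonneg_right _ hden0.le
            nlinarith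
    have key : ∀ D₁ : Set (E n), D₁ ⊆ Hᶜ ∩ M → IsCompact D₁ →
        μ.real D₁ ≤ 100 * Real.exp (-(2 * q)) / a := by
      intro D₁ hD₁ hD₁c
      have h1 := hM A₁ D₁ hA₁c.isClosed hD₁c.isClosed (fun x hx => (hA₁A hx).2)
        (fun x hx => (hD₁ hx).2) (by
          intro x hx d hd k hk g hg hdx
          apply (hD₁ hd).1
          apply hAH
          refine ⟨x + ε • k, ⟨x, (hA₁A hx).1, ε • k, ⟨k, hk, rfl⟩, rfl⟩, g, ?_, hdx.symm⟩
          exact G_subset hsym hlc (by linarith) (by rw [hq]; linarith) (by positivity) hqp hg)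
      rw [le_div_iff₀ hpos]
      have h2 : 0 ≤ μ.real D₁ := measureReal_nonneg
      nlinarith
    have hD : μ.real (Hᶜ ∩ M) ≤ 100 * Real.exp (-(2 * q)) / a := by
      by_contra hcon
      push Not at hcon
      obtain ⟨D₁, hD₁, hD₁c, hD₁m⟩ := Pool.WS.exists_compact_real
        (hHm.compl.inter hMc.measurableSet) hcon
      have := key D₁ hD₁ hD₁c
      linarith
    have h2q : 100 * Real.exp (-(2 * q)) / a ≤ Real.exp (-q) := by
      rw [div_le_iff₀ hpos]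
      have h1 : Real.exp (-(2 * q)) = Real.exp (-q) * Real.exp (-q) := by
        rw [← Real.exp_add]; congr 1; ring
      rw [h1]
      have h2 : 100 * Real.exp (-q) ≤ a := by
        rw [hexpq]
        have h3 : a * (1 - a) * Real.exp (-p - 10) ≤ a * (1 - a) * (1 / 100) :=
          mul_le_mul_of_nonneg_left hsm hac.le
        nlinarith
      have h3 := Real.exp_pos (-q)
      nlinarith
    have h9 : 1 - a' ≤ 2 * (a * (1 - a) * Real.exp (-p - 10)) := by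
      rw [hHr, ← hcH, ← hexpq]
      have h10 : Hᶜ ⊆ (Hᶜ ∩ M) ∪ Mᶜ := by
        intro x hx
        by_cases hxM : x ∈ M
        · exact Or.inl ⟨hx, hxM⟩
        · exact Or.inr hxM
      have h11 := (measureReal_mono (μ := μ) h10 (measure_ne_top μ _)).trans
        (measureReal_union_le _ _)
      linarith
    have h10 : 1 / 2 ≤ a' := by nlinarith
    have h13 : Real.exp p * Real.exp (-p - 10) = Real.exp (-10) := by
      rw [← Real.exp_add]; congr 1; ring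
    have h14 : Real.exp (-10) ≤ 1 / 8 := by
      have h4 : Real.exp (-10) ≤ Real.exp (-3) := Real.exp_le_exp.2 (by norm_num)
      have h5 : Real.exp (-3) * Real.exp 3 = 1 := by rw [← Real.exp_add]; simp
      have h6 : (8:ℝ) ≤ Real.exp 3 := by
        have h7 : Real.exp 3 = Real.exp 1 ^ 3 := by rw [← Real.exp_nat_mul]; norm_num
        have h8 : (2:ℝ) ^ 3 ≤ Real.exp 1 ^ 3 := by
          have := Real.exp_one_gt_d9
          gcongr
          linarith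
        rw [h7]
        refine le_trans ?_ h8
        norm_num
      have h9 := Real.exp_pos (-3)
      nlinarith
    have h15 := Real.exp_pos (-10)
    calc 2 * Real.exp p * a * (1 - a')
        ≤ 2 * Real.exp p * a * (2 * (a * (1 - a) * Real.exp (-p - 10))) :=
          mul_le_mul_of_nonneg_left h9 (by positivity)
      _ = 4 * (a * a) * (1 - a) * (Real.exp p * Real.exp (-p - 10)) := by ring
      _ = 4 * (a * a) * (1 - a) * Real.exp (-10) := by rw [h13]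
      _ ≤ 4 * 1 * (1 - a) * (1 / 8) := by
          apply mul_le_mul _ h14 h15.le (by linarith)
          apply mul_le_mul_of_nonneg_right _ hc0.le
          nlinarith
      _ = (1 - a) * (1 / 2) := by ring
      _ ≤ (1 - a) * a' := mul_le_mul_of_nonneg_left h10 hc0.le

/-- the unit ball of a Hilbert norm is compact -/
lemma eg_compact (T : E n →ₗ[ℝ] E n) (hT : Function.Injective T) :
    IsCompact {x : E n | ‖T x‖ ≤ 1} := by
  obtain ⟨c, hc0, hc⟩ := T.exists_antilipschitzWith (LinearMap.ker_eq_bot.2 hT)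
  apply Metric.isCompact_of_isClosed_isBounded
  · exact isClosed_le (continuous_norm.comp T.continuous_of_finiteDimensional) continuous_const
  · rw [isBounded_iff_forall_norm_le]
    refine ⟨c, fun x hx => ?_⟩
    have h1 := hc.le_mul_dist x 0
    rw [dist_zero_right, map_zero, dist_zero_right] at h1
    have hx1 : ‖T x‖ ≤ 1 := hx
    have h2 : (c:ℝ) * ‖T x‖ ≤ c * 1 := mul_le_mul_of_nonneg_left hx1 c.2
    linarith

lemma eg_convex (T : E n →ₗ[ℝ] E n) : Convex ℝ {x : E n | ‖T x‖ ≤ 1} := by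
  intro x hx y hy a b ha hb hab
  have hx1 : ‖T x‖ ≤ 1 := hx
  have hy1 : ‖T y‖ ≤ 1 := hy
  show ‖T (a • x + b • y)‖ ≤ 1
  rw [map_add, map_smul, map_smul]
  calc ‖a • T x + b • T y‖ ≤ ‖a • T x‖ + ‖b • T y‖ := norm_add_le _ _
    _ = a * ‖T x‖ + b * ‖T y‖ := by
        rw [norm_smul, norm_smul, Real.norm_of_nonneg ha, Real.norm_of_nonneg hb]
    _ ≤ a * 1 + b * 1 := add_le_add (mul_le_mul_of_nonneg_left hx1 ha)
        (mul_le_mul_of_nonneg_left hy1 hb)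
    _ = 1 := by rw [mul_one, mul_one, hab]

/-- uniform convexity of Hilbert balls -/
lemma eg_uc (T : E n →ₗ[ℝ] E n) {ε : ℝ} (hε : 0 < ε) (hε1 : ε ≤ 1) {x y : E n}
    (hx : x ∈ {x : E n | ‖T x‖ ≤ 1}) (hy : y ∈ {x : E n | ‖T x‖ ≤ 1})
    (h : (1 / 2 : ℝ) • (x + y) ∉ (1 - ε ^ 2 / 32) • {x : E n | ‖T x‖ ≤ 1}) :
    x - y ∈ (ε / 2) • {x : E n | ‖T x‖ ≤ 1} := by
  have hx1 : ‖T x‖ ≤ 1 := hx
  have hy1 : ‖T y‖ ≤ 1 := hy
  have hδ : 0 < 1 - ε ^ 2 / 32 := by nlinarith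
  rw [mem_smul_set_iff_inv_smul_mem₀ hδ.ne'] at h
  rw [mem_smul_set_iff_inv_smul_mem₀ (by positivity)]
  have h1 : ¬ ‖T ((1 - ε ^ 2 / 32)⁻¹ • (1 / 2 : ℝ) • (x + y))‖ ≤ 1 := h
  show ‖T ((ε / 2)⁻¹ • (x - y))‖ ≤ 1
  rw [map_smul, map_smul, norm_smul, norm_smul, norm_inv, Real.norm_of_nonneg hδ.le,
    inv_mul_le_iff₀ hδ, mul_one, map_add, Real.norm_of_nonneg (by norm_num)] at h1
  rw [map_smul, norm_smul, norm_inv, Real.norm_of_nonneg (by positivity),
    inv_mul_le_iff₀ (by positivity), mul_one, map_sub]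
  push Not at h1
  have h2 := parallelogram_law_with_norm ℝ (T x) (T y)
  have h3 : 0 ≤ ‖T x + T y‖ := norm_nonneg _
  have h4 : 0 ≤ ‖T x - T y‖ := norm_nonneg _
  have h5 : 0 ≤ ‖T x‖ := norm_nonneg _
  have h6 : 0 ≤ ‖T y‖ := norm_nonneg _
  by_contra hcon
  push Not at hcon
  have h7 : (ε / 2) * (ε / 2) < ‖T x - T y‖ * ‖T x - T y‖ := by nlinarith
  have h8 : (2 * (1 - ε ^ 2 / 32)) * (2 * (1 - ε ^ 2 / 32)) < ‖T x + T y‖ * ‖T x + T y‖ := by
    have : 2 * (1 - ε ^ 2 / 32) < ‖T x + T y‖ := by linarith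
    nlinarith
  have h9 : ‖T x‖ * ‖T x‖ ≤ 1 := by nlinarith
  have h10 : ‖T y‖ * ‖T y‖ ≤ 1 := by nlinarith
  nlinarith [sq_nonneg (ε ^ 2)]

/-- all Borel sets, up to a small multiple of an ellipsoid of large measure -/
theorem eg_hilbert [IsProbabilityMeasure μ] (hsym : μ.map (fun x => -x) = μ) (hlc : LC μ) {C₁ : ℝ}
    (hC₁ : 0 ≤ C₁) (hE : EnlS μ C₁) {A : Set (E n)} (hAm : MeasurableSet A)
    (T : E n →ₗ[ℝ] E n) (hT : Function.Injective T)
    (hK : min (μ.real A / 2) (1 / 4) ≤ μ.real {x : E n | ‖T x‖ ≤ 1}) {ε : ℝ}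
    (hε : 0 < ε) (hε1 : ε ≤ 1) {p : ℝ} (hp : 2 ≤ p) {s : ℝ}
    (hs : (7000000000000 + 32000000000 * C₁) * 33554432 / ε ^ 12 ≤ s) :
    2 * Real.exp p * μ.real A * (1 - μ.real (A + ε • {x : E n | ‖T x‖ ≤ 1} + G μ p s)) ≤
      (1 - μ.real A) * μ.real (A + ε • {x : E n | ‖T x‖ ≤ 1} + G μ p s) := by
  refine eg_main hsym hlc hC₁ hE hAm (eg_compact T hT) (eg_convex T) ?_ hK (τ := ε) hε hε1 le_rfl
    (ε₀ := ε / 2) (by positivity) (δ := ε ^ 2 / 32) (by nlinarith) (by positivity) (by nlinarith)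
    (fun x hx y hy h => eg_uc T hε hε1 hx hy h) hp ?_
  · intro x hx
    show ‖T (-x)‖ ≤ 1
    rw [map_neg, norm_neg]
    exact hx
  · refine le_trans (le_of_eq ?_) hs
    field_simp
    ring

/-- all Borel sets, up to `2 + δ` times a convex body of large measure -/
theorem eg_two [IsProbabilityMeasure μ] (hsym : μ.map (fun x => -x) = μ) (hlc : LC μ) {C₁ : ℝ}
    (hC₁ : 0 ≤ C₁) (hE : EnlS μ C₁) {A K : Set (E n)} (hAm : MeasurableSet A)
    (hKc : IsCompact K) (hKconv : Convex ℝ K) (hKs : ∀ x ∈ K, -x ∈ K)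
    (hK : min (μ.real A / 2) (1 / 4) ≤ μ.real K) {θ δ : ℝ} (hδ : 0 < δ) (hδ1 : δ ≤ 1)
    (hθ : 2 + δ / 2 ≤ θ) {p : ℝ} (hp : 2 ≤ p) {s : ℝ}
    (hs : (7000000000000 + 32000000000 * C₁) / δ ^ 5 ≤ s) :
    2 * Real.exp p * μ.real A * (1 - μ.real (A + θ • K + G μ p s)) ≤
      (1 - μ.real A) * μ.real (A + θ • K + G μ p s) := by
  refine eg_main hsym hlc hC₁ hE hAm hKc hKconv hKs hK (τ := 1) (by norm_num) le_rfl (by linarith)
    (ε₀ := 2) (by norm_num) (δ := δ) (by linarith) hδ hδ1 ?_ hp ?_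
  · intro x hx y hy _
    obtain ⟨z, hz, hz'⟩ := eg_half_diff hKconv hKs hx hy
    exact ⟨z, hz, hz'.symm⟩
  · simpa using hs

end Pool.CIP
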