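import Pool.Agent.CIP.EF
import Pool.Agent.CIP.EG

set_option autoImplicit false

open MeasureTheory Pointwise Set Filter Topology

namespace Pool.CIP

variable {n : ℕ} {μ : Measure (E n)}

/-- the enlargement theorem in the form used in `EG` -/
lemma enlS_holds [IsProbabilityMeasure μ] (hsym : μ.map (fun x => -x) = μ) (hlc : LC μ) :
    EnlS μ (32 * Real.exp 3) := by
  intro B hBc hBconv hBs q hq hB m hm
  have hmr : (2:ℝ) ≤ m := by exact_mod_cast hm
  have hm1 : (0:ℝ) < m - 1 := by linarith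
  have h1 := enl_sym hsym hlc hm hq hBc hBconv hBs (by
    have := Real.exp_pos (-q)
    linarith)
  refine (measureReal_mono ?_ (measure_ne_top μ _)).trans h1
  apply compl_subset_compl.2
  apply add_subset_add_right
  rintro _ ⟨x, hx, rfl⟩
  have h2 : (m:ℝ) / ((m:ℝ) - 1) ≤ 1 + 3 / ((m:ℝ) - 1) := by
    rw [div_le_iff₀ hm1, add_mul, div_mul_cancel₀ _ hm1.ne']
    linarith
  obtain ⟨z, hz, hz'⟩ := eg_smul hBconv hBs (div_nonneg (by linarith) hm1.le) h2
    (by positivity) hx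
  exact ⟨z, hz, hz'.symm⟩

lemma eh_const : 7000000000000 + 32000000000 * (32 * Real.exp 3) ≤ 30000000000000 := by
  have h1 : Real.exp 3 = Real.exp 1 ^ 3 := by rw [← Real.exp_nat_mul]; norm_num
  have h2 := Real.exp_one_lt_d9
  have h3 : Real.exp 1 ^ 3 ≤ 2.7182818286 ^ 3 := by gcongr
  rw [h1]
  have h4 : (2.7182818286 : ℝ) ^ 3 ≤ 20.1 := by norm_num
  linarith

/-- all Borel sets, up to a small multiple of a uniformly convex body of large measure -/
theorem main_uc [IsProbabilityMeasure μ] (hsym : μ.map (fun x => -x) = μ) (hlc : LC μ)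
    {A K : Set (E n)} (hAm : MeasurableSet A)
    (hKc : IsCompact K) (hKconv : Convex ℝ K) (hKs : ∀ x ∈ K, -x ∈ K)
    (hK : min (μ.real A / 2) (1 / 4) ≤ μ.real K) {ε ε₀ δ τ : ℝ}
    (hτ : 0 < τ) (hτ1 : τ ≤ 1) (hτε : τ ≤ ε) (hε₀ : 0 ≤ ε₀) (hεε : (1 + δ / 4) * ε₀ ≤ ε)
    (hδ : 0 < δ) (hδ1 : δ ≤ 1)
    (hUC : ∀ x ∈ K, ∀ y ∈ K, (1 / 2 : ℝ) • (x + y) ∉ (1 - δ) • K → x - y ∈ ε₀ • K)
    {p : ℝ} (hp : 2 ≤ p) :
    2 * Real.exp p * μ.real A *
        (1 - μ.real (A + ε • K + G μ p (30000000000000 / (δ ^ 5 * τ ^ 2)))) ≤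
      (1 - μ.real A) * μ.real (A + ε • K + G μ p (30000000000000 / (δ ^ 5 * τ ^ 2))) :=
  eg_main hsym hlc (by positivity) (enlS_holds hsym hlc) hAm hKc hKconv hKs hK hτ hτ1 hτε hε₀ hεε
    hδ hδ1 hUC hp (div_le_div_of_nonneg_right eh_const (by positivity))

/-- all Borel sets, up to a small multiple of an ellipsoid of large measure -/
theorem main_hilbert [IsProbabilityMeasure μ] (hsym : μ.map (fun x => -x) = μ) (hlc : LC μ)
    {A : Set (E n)} (hAm : MeasurableSet A) (T : E n →ₗ[ℝ] E n) (hT : Function.Injective T)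
    (hK : min (μ.real A / 2) (1 / 4) ≤ μ.real {x : E n | ‖T x‖ ≤ 1}) {ε : ℝ}
    (hε : 0 < ε) (hε1 : ε ≤ 1) {p : ℝ} (hp : 2 ≤ p) :
    2 * Real.exp p * μ.real A *
        (1 - μ.real (A + ε • {x : E n | ‖T x‖ ≤ 1} +
          G μ p (1010000000000000000000 / ε ^ 12))) ≤
      (1 - μ.real A) * μ.real (A + ε • {x : E n | ‖T x‖ ≤ 1} +
          G μ p (1010000000000000000000 / ε ^ 12)) := by
  refine eg_hilbert hsym hlc (by positivity) (enlS_holds hsym hlc) hAm T hT hK hε hε1 hp ?_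
  apply div_le_div_of_nonneg_right _ (by positivity)
  have := eh_const
  nlinarith

/-- all Borel sets, up to `2 + δ` times a convex body of large measure -/
theorem main_two [IsProbabilityMeasure μ] (hsym : μ.map (fun x => -x) = μ) (hlc : LC μ)
    {A K : Set (E n)} (hAm : MeasurableSet A)
    (hKc : IsCompact K) (hKconv : Convex ℝ K) (hKs : ∀ x ∈ K, -x ∈ K)
    (hK : min (μ.real A / 2) (1 / 4) ≤ μ.real K) {θ δ : ℝ} (hδ : 0 < δ) (hδ1 : δ ≤ 1)
    (hθ : 2 + δ / 2 ≤ θ) {p : ℝ} (hp : 2 ≤ p) :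
    2 * Real.exp p * μ.real A *
        (1 - μ.real (A + θ • K + G μ p (30000000000000 / δ ^ 5))) ≤
      (1 - μ.real A) * μ.real (A + θ • K + G μ p (30000000000000 / δ ^ 5)) :=
  eg_two hsym hlc (by positivity) (enlS_holds hsym hlc) hAm hKc hKconv hKs hK hδ hδ1 hθ hp
    (div_le_div_of_nonneg_right eh_const (by positivity))

/-- the final form: uniformly convex bodies, or very small / very large sets -/
theorem main_body [IsProbabilityMeasure μ] (hsym : μ.map (fun x => -x) = μ) (hlc : LC μ)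
    {A K : Set (E n)} (hAm : MeasurableSet A)
    (hKc : IsCompact K) (hKconv : Convex ℝ K) (hKs : ∀ x ∈ K, -x ∈ K)
    (hK : min (μ.real A / 2) (1 / 4) ≤ μ.real K) {p : ℝ} (hp : 2 ≤ p) {ε δ : ℝ}
    (hε : 0 < ε) (hδ : 0 < δ) (hδ1 : δ ≤ 1)
    (hUC : (∀ x ∈ K, ∀ y ∈ K, (1 / 2 : ℝ) • (x + y) ∉ (1 - δ) • K →
        (1 + δ / 4) • (x - y) ∈ ε • K) ∨
      1000 * p ≤ ε * Real.log (1 / (μ.real A * (1 - μ.real A)))) :
    2 * Real.exp p * μ.real A *
        (1 - μ.real (A + ε • K + G μ p (30000000000000 / (δ ^ 5 * min ε 1 ^ 2)))) ≤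
      (1 - μ.real A) * μ.real (A + ε • K + G μ p (30000000000000 / (δ ^ 5 * min ε 1 ^ 2))) := by
  have hτ : 0 < min ε 1 := lt_min hε (by norm_num)
  rcases hUC with hUC | hw
  · refine main_uc hsym hlc hAm hKc hKconv hKs hK hτ (min_le_right _ _) (min_le_left _ _)
      (ε₀ := ε / (1 + δ / 4)) (by positivity) (le_of_eq (by field_simp)) hδ hδ1 ?_ hp
    intro x hx y hy h
    obtain ⟨z, hz, hz'⟩ := hUC x hx y hy h
    have hz2 : ε • z = (1 + δ / 4) • (x - y) := hz'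
    refine ⟨z, hz, ?_⟩
    show (ε / (1 + δ / 4)) • z = x - y
    rw [div_eq_inv_mul, mul_smul, hz2, smul_smul, inv_mul_cancel₀ (by positivity), one_smul]
  · have h1 := main_borel hsym hlc hAm hKc hKconv hKs hK hp (θ := ε) (Or.inr hw)
    have h7 : (7000000000000:ℝ) ≤ 30000000000000 / (δ ^ 5 * min ε 1 ^ 2) := by
      have h2 : δ ^ 5 ≤ 1 := pow_le_one₀ hδ.le hδ1
      have h3 : min ε 1 ^ 2 ≤ 1 := pow_le_one₀ hτ.le (min_le_right _ _)
      have h4 : δ ^ 5 * min ε 1 ^ 2 ≤ 1 * 1 := mul_le_mul h2 h3 (by positivity) (by norm_num)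
      rw [le_div_iff₀ (by positivity)]
      linarith
    have h2 : A + ε • K + G μ p 7000000000000 ⊆
        A + ε • K + G μ p (30000000000000 / (δ ^ 5 * min ε 1 ^ 2)) :=
      add_subset_add_left (G_mono h7)
    have h3 := measureReal_mono (μ := μ) h2 (measure_ne_top μ _)
    have h4 : 0 ≤ 2 * Real.exp p * μ.real A :=
      mul_nonneg (by positivity) measureReal_nonneg
    have h5 : μ.real A ≤ 1 := measureReal_le_one
    calc _ ≤ 2 * Real.exp p * μ.real A * (1 - μ.real (A + ε • K + G μ p 7000000000000)) :=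
          mul_le_mul_of_nonneg_left (by linarith) h4
      _ ≤ (1 - μ.real A) * μ.real (A + ε • K + G μ p 7000000000000) := h1
      _ ≤ _ := mul_le_mul_of_nonneg_left h3 (by linarith)

end Pool.CIP
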