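import Pool.Agent.CIP.EG

set_option autoImplicit false

open MeasureTheory Pointwise Set Filter Topology

namespace Pool.CIP

variable {n : ℕ} {μ : Measure (E n)}

/-- the enlargement statement for symmetric compact convex sets with dilation `R` and level `L` -/
def EnlP (μ : Measure (E n)) (R L q : ℝ) : Prop :=
  ∀ B : Set (E n), IsCompact B → Convex ℝ B → (∀ x ∈ B, -x ∈ B) →
    5 * Real.exp (-q) ≤ μ.real B → μ.real (R • B + G μ L (3 * Real.exp 1))ᶜ ≤ Real.exp (-q)

/-- one enlargement of a sum of a dilate of `K` and of the centroid body -/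
lemma egp_body {R L q : ℝ} (hR : 0 ≤ R) (hE : EnlP μ R L q) {K : Set (E n)}
    (hKc : IsCompact K) (hKconv : Convex ℝ K) (hKs : ∀ x ∈ K, -x ∈ K) {r c : ℝ}
    (hS : 5 * Real.exp (-q) ≤ μ.real (r • K + G μ L c)) :
    ∃ M : Set (E n), IsCompact M ∧ μ.real Mᶜ ≤ Real.exp (-q) ∧ ∀ x ∈ M, ∃ k ∈ K,
      ∃ g ∈ G μ L (R * c + 3 * Real.exp 1), x = (R * r) • k + g := by
  have hBc : IsCompact (r • K + G μ L c) := (hKc.smul r).add (isCompact_G L c)
  have hBconv : Convex ℝ (r • K + G μ L c) := (hKconv.smul r).add convex_G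
  have hBs : ∀ x ∈ r • K + G μ L c, -x ∈ r • K + G μ L c := by
    rintro _ ⟨_, ⟨k, hk, rfl⟩, g, hg, rfl⟩
    refine ⟨r • (-k), ⟨-k, hKs k hk, rfl⟩, -g, neg_mem_G hg, ?_⟩
    show r • (-k) + -g = -(r • k + g)
    module
  refine ⟨R • (r • K + G μ L c) + G μ L (3 * Real.exp 1),
    (hBc.smul _).add (isCompact_G _ _), hE _ hBc hBconv hBs hS, ?_⟩
  rintro _ ⟨_, ⟨_, ⟨_, ⟨k, hk, rfl⟩, g, hg, rfl⟩, rfl⟩, g', hg', rfl⟩
  refine ⟨k, hk, R • g + g', eg_add (smul_mem_G hR hg) hg', ?_⟩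
  show R • (r • k + g) + g' = (R * r) • k + (R • g + g')
  module

/-- far pairs of sets inside a large body have small measure -/
lemma egp_far [IsProbabilityMeasure μ] (hlc : LC μ) {R L q : ℝ} (hR1 : 1 ≤ R)
    (hE : EnlP μ R L q)
    {K : Set (E n)} (hKc : IsCompact K) (hKconv : Convex ℝ K) (hKs : ∀ x ∈ K, -x ∈ K) {ε ε₀ δ : ℝ}
    (hε : 0 < ε) (hε₀ : 0 ≤ ε₀) (hεε : (1 + δ / 4) * ε₀ ≤ ε) (hδ : 0 < δ) (hδ1 : δ ≤ 1)
    (hUC : ∀ x ∈ K, ∀ y ∈ K, (1 / 2 : ℝ) • (x + y) ∉ (1 - δ) • K → x - y ∈ ε₀ • K)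
    (hK : 5 * Real.exp (-q) ≤ μ.real K) {J : ℕ}
    (hRδ : R ≤ 1 + δ / 4) (hJ : (1 - δ / 2) ^ J ≤ ε / 4) {s : ℝ}
    (hs : 2 * ((J + 1 : ℕ) * (3 * Real.exp 1) * R ^ (J + 1)) ≤ s) :
    ∃ M : Set (E n), IsCompact M ∧ μ.real Mᶜ ≤ Real.exp (-q) ∧
      ∀ A₁ D₁ : Set (E n), IsClosed A₁ → IsClosed D₁ → A₁ ⊆ M → D₁ ⊆ M →
        (∀ a ∈ A₁, ∀ d ∈ D₁, ∀ k ∈ K, ∀ g ∈ G μ L s, d ≠ a + ε • k + g) →
        μ.real A₁ * μ.real D₁ ≤ 25 * Real.exp (-(2 * q)) := by
  set c₁ := 3 * Real.exp 1 with hc₁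
  have hR0 : 0 ≤ R := by linarith
  have hR2 : R ≤ 5 / 4 := by linarith
  have hc₁0 : 0 ≤ c₁ := by positivity
  have hKne : K.Nonempty := by
    rw [nonempty_iff_ne_empty]
    intro h
    rw [h] at hK
    simp at hK
    have := Real.exp_pos (-q)
    linarith
  have hcle : ∀ i ≤ J + 1, 2 * eg_seq R c₁ i ≤ s := by
    intro i hi
    refine le_trans ?_ hs
    have h1 := eg_seq_le hR1 hc₁0 i
    have h2 : (i:ℝ) * c₁ * R ^ i ≤ (J + 1 : ℕ) * c₁ * R ^ (J + 1) := by
      apply mul_le_mul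
      · apply mul_le_mul_of_nonneg_right _ hc₁0
        exact_mod_cast hi
      · exact pow_le_pow_right₀ hR1 hi
      · positivity
      · positivity
    linarith
  have hr0 : ∀ i : ℕ, 0 < (1 - δ / 2) ^ i := fun i => pow_pos (by linarith) i
  have hr1 : ∀ i : ℕ, (1 - δ / 2) ^ i ≤ 1 := fun i => pow_le_one₀ (by linarith) (by linarith)
  have hzero : 5 * Real.exp (-q) ≤ μ.real ((1 - δ / 2) ^ 0 • K + G μ L (eg_seq R c₁ 0)) := by
    refine hK.trans (measureReal_mono ?_ (measure_ne_top μ _))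
    intro x hx
    refine ⟨(1 - δ / 2) ^ 0 • x, ⟨x, hx, rfl⟩, 0, zero_mem_G le_rfl, ?_⟩
    simp
  by_cases hall : ∀ i ≤ J, 5 * Real.exp (-q) ≤
      μ.real ((1 - δ / 2) ^ i • K + G μ L (eg_seq R c₁ i))
  · -- the body gets small
    obtain ⟨M, hMc, hMμ, hM⟩ := egp_body hR0 hE hKc hKconv hKs (hall J le_rfl)
    refine ⟨M, hMc, hMμ, fun A₁ D₁ _ _ hA₁ hD₁ hno => ?_⟩
    have hempty : A₁ = ∅ ∨ D₁ = ∅ := by
      by_contra hcon
      push Not at hcon
      obtain ⟨⟨a, ha⟩, ⟨d, hd⟩⟩ := hcon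
      obtain ⟨k, hk, g, hg, hak⟩ := hM a (hA₁ ha)
      obtain ⟨l, hl, g', hg', hdl⟩ := hM d (hD₁ hd)
      obtain ⟨z, hz, hz'⟩ := eg_half_diff hKconv hKs hl hk
      have h1 : R * (1 - δ / 2) ^ J * 2 ≤ ε := by
        have := hr0 J
        nlinarith
      obtain ⟨w, hw, hw'⟩ := eg_smul hKconv hKs
        (s := R * (1 - δ / 2) ^ J * 2) (t := ε) (by have := hr0 J; positivity) h1 hε hz
      refine hno a ha d hd w hw (g' - g) ?_ ?_
      · have h2 := eg_add hg' (neg_mem_G hg)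
        rw [← sub_eq_add_neg] at h2
        refine G_mono ?_ h2
        have h3 := hcle (J + 1) le_rfl
        have h4 : eg_seq R c₁ (J + 1) = R * eg_seq R c₁ J + c₁ := rfl
        linarith
      · rw [← hw', mul_smul, ← hz', hak, hdl]
        module
    have h5 := Real.exp_pos (-(2 * q))
    rcases hempty with h | h <;> rw [h] <;> simp <;> exact h5.le
  · push Not at hall
    obtain ⟨i, hiJ, hi, hi1⟩ : ∃ i, i + 1 ≤ J ∧
        5 * Real.exp (-q) ≤ μ.real ((1 - δ / 2) ^ i • K + G μ L (eg_seq R c₁ i)) ∧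
        μ.real ((1 - δ / 2) ^ (i + 1) • K + G μ L (eg_seq R c₁ (i + 1))) < 5 * Real.exp (-q) := by
      classical
      obtain ⟨j, hj⟩ := hall
      have hex : ∃ j, j ≤ J ∧ μ.real ((1 - δ / 2) ^ j • K + G μ L (eg_seq R c₁ j)) <
          5 * Real.exp (-q) := ⟨j, hj⟩
      have hspec := Nat.find_spec hex
      have hmin : ∀ i < Nat.find hex, ¬ _ := fun i hi => Nat.find_min hex hi
      rcases hfind : Nat.find hex with _ | i
      · rw [hfind] at hspec
        exact absurd hspec.2 (not_lt.2 hzero)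
      · rw [hfind] at hspec hmin
        refine ⟨i, hspec.1, ?_, hspec.2⟩
        have := hmin i (Nat.lt_succ_self i)
        by_contra hcon
        push Not at hcon
        exact this ⟨by omega, hcon⟩
    obtain ⟨M, hMc, hMμ, hM⟩ := egp_body hR0 hE hKc hKconv hKs hi
    refine ⟨M, hMc, hMμ, fun A₁ D₁ hA₁c hD₁c hA₁ hD₁ hno => ?_⟩
    set U := (1 - δ / 2) ^ (i + 1) • K + G μ L (eg_seq R c₁ (i + 1)) with hU
    have key := hlc.closed hA₁c hD₁c (t := 1 / 2) (by norm_num) (by norm_num) (U := U) (by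
      intro a ha d hd
      by_contra hcon
      obtain ⟨k, hk, g, hg, hak⟩ := hM a (hA₁ ha)
      obtain ⟨l, hl, g', hg', hdl⟩ := hM d (hD₁ hd)
      have h1 : (1 / 2 : ℝ) • (l + k) ∉ (1 - δ) • K := by
        rintro ⟨z, hz, hz'⟩
        apply hcon
        have h2 : R * (1 - δ / 2) ^ i * (1 - δ) ≤ (1 - δ / 2) ^ (i + 1) := by
          have h3 := hr0 i
          have h4 : R * (1 - δ) ≤ 1 - δ / 2 := by nlinarith
          calc R * (1 - δ / 2) ^ i * (1 - δ) = (1 - δ / 2) ^ i * (R * (1 - δ)) := by ring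
            _ ≤ (1 - δ / 2) ^ i * (1 - δ / 2) := mul_le_mul_of_nonneg_left h4 h3.le
            _ = (1 - δ / 2) ^ (i + 1) := by rw [pow_succ]
        obtain ⟨w, hw, hw'⟩ := eg_smul hKconv hKs
          (s := R * (1 - δ / 2) ^ i * (1 - δ)) (t := (1 - δ / 2) ^ (i + 1))
          (mul_nonneg (mul_nonneg (by linarith) (hr0 i).le) (by linarith)) h2 (hr0 (i + 1)) hz
        refine ⟨(1 - δ / 2) ^ (i + 1) • w, ⟨w, hw, rfl⟩, (1 / 2 : ℝ) • g + (1 / 2 : ℝ) • g', ?_, ?_⟩
        · exact convex_G hg hg' (by norm_num) (by norm_num) (by norm_num)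
        · have hz2 : (1 - δ) • z = (1 / 2 : ℝ) • (l + k) := hz'
          show (1 - δ / 2) ^ (i + 1) • w + ((1 / 2 : ℝ) • g + (1 / 2 : ℝ) • g') = _
          rw [← hw', mul_smul, hz2, hak, hdl]
          module
      obtain ⟨z, hz, hz'⟩ := hUC l hl k hk h1
      have hz2 : ε₀ • z = l - k := hz'
      have h2 : R * (1 - δ / 2) ^ i * ε₀ ≤ ε := by
        have h3 := hr0 i
        have h4 := hr1 i
        have h5 : R * (1 - δ / 2) ^ i ≤ 1 + δ / 4 := by nlinarith
        exact (mul_le_mul_of_nonneg_right h5 hε₀).trans hεε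
      obtain ⟨w, hw, hw'⟩ := eg_smul hKconv hKs
        (s := R * (1 - δ / 2) ^ i * ε₀) (t := ε)
        (mul_nonneg (mul_nonneg (by linarith) (hr0 i).le) hε₀) h2 hε hz
      refine hno a ha d hd w hw (g' - g) ?_ ?_
      · have h3 := eg_add hg' (neg_mem_G hg)
        rw [← sub_eq_add_neg] at h3
        refine G_mono ?_ h3
        have h4 := hcle (i + 1) (by omega)
        have h5 : eg_seq R c₁ (i + 1) = R * eg_seq R c₁ i + c₁ := rfl
        linarith
      · rw [← hw', mul_smul, hz2, hak, hdl]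
        module)
    have key2 := ENNReal.toReal_mono (measure_ne_top μ _) key
    rw [ENNReal.toReal_mul, ← ENNReal.toReal_rpow, ← ENNReal.toReal_rpow] at key2
    have key3 : μ.real A₁ ^ (1 / 2 : ℝ) * μ.real D₁ ^ (1 - 1 / 2 : ℝ) ≤ μ.real U := key2
    have e1 : (1 - 1 / 2 : ℝ) = 1 / 2 := by norm_num
    rw [e1, ← Real.sqrt_eq_rpow, ← Real.sqrt_eq_rpow,
      ← Real.sqrt_mul measureReal_nonneg] at key3
    have h1 : Real.sqrt (μ.real A₁ * μ.real D₁) ≤ 5 * Real.exp (-q) := key3.trans hi1.le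
    have h2 : μ.real A₁ * μ.real D₁ = Real.sqrt (μ.real A₁ * μ.real D₁) ^ 2 :=
      (Real.sq_sqrt (mul_nonneg measureReal_nonneg measureReal_nonneg)).symm
    rw [h2]
    calc Real.sqrt (μ.real A₁ * μ.real D₁) ^ 2 ≤ (5 * Real.exp (-q)) ^ 2 :=
          pow_le_pow_left₀ (Real.sqrt_nonneg _) h1 2
      _ = 25 * Real.exp (-(2 * q)) := by
          rw [mul_pow, ← Real.exp_nat_mul]
          norm_num

/-- the choice of the parameters -/
lemma egp_param {τ δ : ℝ} (hτ : 0 < τ) (hτ1 : τ ≤ 1) (hδ : 0 < δ) (hδ1 : δ ≤ 1) :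
    ∃ m J : ℕ, 5 ≤ m ∧ 5 / (m:ℝ) ≤ δ / 4 ∧ (1 - δ / 2) ^ J ≤ τ / 4 ∧
      (m:ℝ) ≤ 21 * ((1 + Real.log (4 / τ)) / δ) ∧
      2 * ((J + 1 : ℕ) * (3 * Real.exp 1) * (1 + 5 / (m:ℝ)) ^ (J + 1)) ≤
        54 * ((1 + Real.log (4 / τ)) / δ) := by
  set L := Real.log (4 / τ) with hL
  have h4ε : 4 ≤ 4 / τ := by rw [le_div_iff₀ hτ]; nlinarith
  have hL0 : 0 ≤ L := Real.log_nonneg (by linarith)
  have hexpL : Real.exp L = 4 / τ := Real.exp_log (by positivity)
  set D := (1 + L) / δ with hD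
  have hD1 : 1 ≤ D := by rw [hD, le_div_iff₀ hδ]; linarith
  set k := ⌈20 * D⌉₊ with hk
  set J := ⌈2 / δ * L⌉₊ with hJ
  have hk1 : 20 * D ≤ k := Nat.le_ceil _
  have hk2 : (k:ℝ) < 20 * D + 1 := Nat.ceil_lt_add_one (by positivity)
  have hk0 : (0:ℝ) < k := by linarith
  have hJ1 : 2 / δ * L ≤ J := Nat.le_ceil _
  have hJ2 : (J:ℝ) < 2 / δ * L + 1 := Nat.ceil_lt_add_one (by positivity)
  have hDδ : D * δ = 1 + L := by rw [hD]; field_simp
  have hη : 5 / ((k:ℝ)) ≤ δ / 4 := by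
    rw [div_le_div_iff₀ hk0 (by norm_num)]
    have h1 : 20 * D * δ ≤ k * δ := mul_le_mul_of_nonneg_right hk1 hδ.le
    nlinarith
  refine ⟨k, J, ?_, hη, ?_, by linarith, ?_⟩
  · have : (5:ℝ) ≤ k := by linarith
    exact_mod_cast this
  · have h1 : 1 - δ / 2 ≤ Real.exp (-(δ / 2)) := by
      have := Real.add_one_le_exp (-(δ / 2))
      linarith
    calc (1 - δ / 2) ^ J ≤ Real.exp (-(δ / 2)) ^ J := pow_le_pow_left₀ (by linarith) h1 J
      _ = Real.exp (-(J * (δ / 2))) := by rw [← Real.exp_nat_mul]; congr 1; ring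
      _ ≤ Real.exp (-L) := by
          apply Real.exp_le_exp.2
          have h2 : 2 / δ * L * (δ / 2) ≤ J * (δ / 2) := mul_le_mul_of_nonneg_right hJ1 (by positivity)
          have h3 : 2 / δ * L * (δ / 2) = L := by field_simp
          linarith
      _ = τ / 4 := by rw [Real.exp_neg, hexpL, inv_div]
  · have hJD : (J:ℝ) + 1 ≤ 2 * D := by
      have h4 : (2:ℝ) ≤ 2 / δ := by rw [le_div_iff₀ hδ]; linarith
      have h5 : 2 * D = 2 / δ * L + 2 / δ := by rw [hD]; ring
      linarith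
    have h1 : (1 + 5 / (k:ℝ)) ^ (J + 1) ≤ 1.65 := by
      have h2 : 1 + 5 / (k:ℝ) ≤ Real.exp (5 / (k:ℝ)) := by
        have := Real.add_one_le_exp (5 / (k:ℝ))
        linarith
      have h4 : Real.exp (1 / 2) ≤ 1.65 := by
        have h5 : Real.exp (1 / 2) ^ 2 = Real.exp 1 := by rw [← Real.exp_nat_mul]; norm_num
        have h6 := Real.exp_one_lt_d9
        have h7 : Real.exp (1 / 2) ^ 2 ≤ 1.65 ^ 2 := by rw [h5]; linarith
        exact (pow_le_pow_iff_left₀ (Real.exp_pos _).le (by norm_num) (by norm_num)).1 h7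
      calc (1 + 5 / (k:ℝ)) ^ (J + 1) ≤ Real.exp (5 / (k:ℝ)) ^ (J + 1) :=
            pow_le_pow_left₀ (by positivity) h2 _
        _ = Real.exp (((J + 1 : ℕ) : ℝ) * (5 / (k:ℝ))) := by rw [← Real.exp_nat_mul]
        _ ≤ Real.exp (1 / 2) := by
            apply Real.exp_le_exp.2
            push_cast
            rw [← mul_div_assoc, div_le_iff₀ hk0]
            linarith
        _ ≤ 1.65 := h4
    have h2 := Real.exp_one_lt_d9
    have h3 := Real.exp_pos 1
    push_cast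
    calc 2 * (((J:ℝ) + 1) * (3 * Real.exp 1) * (1 + 5 / (k:ℝ)) ^ (J + 1))
        ≤ 2 * ((2 * D) * (3 * 2.7182818286) * 1.65) := by
          apply mul_le_mul_of_nonneg_left _ (by norm_num)
          apply mul_le_mul _ h1 (by positivity) (by positivity)
          apply mul_le_mul hJD _ (by positivity) (by positivity)
          linarith
      _ ≤ 54 * D := by nlinarith

/-- all Borel sets, up to a small multiple of a uniformly convex body of large measure -/
theorem egp_main [IsProbabilityMeasure μ] (hsym : μ.map (fun x => -x) = μ) (hlc : LC μ)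
    (hE : ∀ q : ℝ, 1 ≤ q → ∀ m : ℕ, 5 ≤ m →
      EnlP μ (1 + 5 / (m:ℝ)) (12 * m * (q + 3 * Real.log m + 5)) q) {A K : Set (E n)} (hAm : MeasurableSet A)
    (hKc : IsCompact K) (hKconv : Convex ℝ K) (hKs : ∀ x ∈ K, -x ∈ K)
    (hK : min (μ.real A / 2) (1 / 4) ≤ μ.real K) {ε ε₀ δ τ : ℝ}
    (hτ : 0 < τ) (hτ1 : τ ≤ 1) (hτε : τ ≤ ε) (hε₀ : 0 ≤ ε₀) (hεε : (1 + δ / 4) * ε₀ ≤ ε)
    (hδ : 0 < δ) (hδ1 : δ ≤ 1)
    (hUC : ∀ x ∈ K, ∀ y ∈ K, (1 / 2 : ℝ) • (x + y) ∉ (1 - δ) • K → x - y ∈ ε₀ • K)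
    {p : ℝ} (hp : 2 ≤ p) {s : ℝ}
    (hs : 7000000000000 * (1 + Real.log (1 / δ)) / (δ ^ 2 * τ ^ 2) ≤ s) :
    2 * Real.exp p * μ.real A * (1 - μ.real (A + ε • K + G μ p s)) ≤
      (1 - μ.real A) * μ.real (A + ε • K + G μ p s) := by
  have hp0 : 0 < p := by linarith
  set A' := A + ε • K + G μ p s with hA'
  set a := μ.real A with ha
  set a' := μ.real A' with ha'
  have ha1 : a ≤ 1 := measureReal_le_one
  have ha'1 : a' ≤ 1 := measureReal_le_one
  have ha'0 : 0 ≤ a' := measureReal_nonneg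
  have hε : 0 < ε := by linarith
  have hlδ : 0 ≤ Real.log (1 / δ) := Real.log_nonneg (by rw [le_div_iff₀ hδ]; linarith)
  have hden : δ ^ 2 * τ ^ 2 ≤ 1 := by
    have h1 : δ ^ 2 ≤ 1 := pow_le_one₀ hδ.le hδ1
    have h2 : τ ^ 2 ≤ 1 := pow_le_one₀ hτ.le hτ1
    calc δ ^ 2 * τ ^ 2 ≤ 1 * 1 := mul_le_mul h1 h2 (by positivity) (by norm_num)
      _ = 1 := by norm_num
  have hden0 : 0 < δ ^ 2 * τ ^ 2 := by positivity
  have hs7 : 7000000000000 ≤ s := by
    refine le_trans ?_ hs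
    rw [le_div_iff₀ hden0]
    nlinarith
  have hs0 : 0 ≤ s := by linarith
  rcases (measureReal_nonneg (μ := μ) (s := A)).eq_or_lt with h0 | hpos
  · rw [← ha] at h0
    rw [← h0]
    simpa using ha'0
  rw [← ha] at hpos
  have hKpos : 0 < μ.real K := lt_of_lt_of_le (lt_min (half_pos hpos) (by norm_num)) hK
  have hKne : K.Nonempty := by
    rw [nonempty_iff_ne_empty]
    intro h
    rw [h] at hKpos
    simp at hKpos
  obtain ⟨k₀, hk₀⟩ := hKne
  have h0K : (0 : E n) ∈ K := by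
    have h := hKconv hk₀ (hKs k₀ hk₀) (by norm_num : (0:ℝ) ≤ 1 / 2) (by norm_num : (0:ℝ) ≤ 1 / 2)
      (by norm_num)
    have e : (1 / 2 : ℝ) • k₀ + (1 / 2 : ℝ) • (-k₀) = 0 := by module
    rwa [e] at h
  have hAA' : A ⊆ A' := by
    intro x hx
    refine ⟨x + ε • 0, ⟨x, hx, ε • 0, ⟨0, h0K, rfl⟩, rfl⟩, 0, zero_mem_G hs0, ?_⟩
    simp
  have hle : a ≤ a' := measureReal_mono hAA' (measure_ne_top μ _)
  rcases ha1.eq_or_lt with h1 | hlt
  · have h2 : a' = 1 := by linarith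
    rw [h2, h1]; simp
  have hc0 : 0 < 1 - a := by linarith
  set w := Real.log (1 / (a * (1 - a))) with hw
  have hac : 0 < a * (1 - a) := mul_pos hpos hc0
  have hexpw : Real.exp (-w) = a * (1 - a) := by
    rw [hw, one_div, Real.log_inv, neg_neg, Real.exp_log hac]
  have hac4 : a * (1 - a) ≤ 1 / 4 := by nlinarith [sq_nonneg (a - 1 / 2)]
  have hw0 : 0 ≤ w := by
    have h1 : Real.exp (-w) ≤ Real.exp 0 := by rw [hexpw, Real.exp_zero]; linarith
    have := Real.exp_le_exp.1 h1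
    linarith
  rcases le_or_gt (1000 * p) (ε * w) with hcase | hcase
  · -- very small or very large sets
    have h1 := main_borel hsym hlc hAm hKc hKconv hKs hK hp (θ := ε) (Or.inr hcase)
    have h2 : A + ε • K + G μ p 7000000000000 ⊆ A' :=
      add_subset_add_left (G_mono hs7)
    have h3 := measureReal_mono (μ := μ) h2 (measure_ne_top μ _)
    rw [← ha, ← ha'] at *
    have h4 : 0 ≤ 2 * Real.exp p * a := by positivity
    calc 2 * Real.exp p * a * (1 - a')
        ≤ 2 * Real.exp p * a * (1 - μ.real (A + ε • K + G μ p 7000000000000)) :=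
          mul_le_mul_of_nonneg_left (by linarith) h4
      _ ≤ (1 - a) * μ.real (A + ε • K + G μ p 7000000000000) := h1
      _ ≤ (1 - a) * a' := mul_le_mul_of_nonneg_left h3 hc0.le
  · set q := w + p + 10 with hq
    have hq1 : 1 ≤ q := by linarith
    obtain ⟨m, J, hm, hmδ, hJ', hm21, hpar⟩ := egp_param hτ hτ1 hδ hδ1
    have hJ : (1 - δ / 2) ^ J ≤ ε / 4 := by linarith
    have hexpq : Real.exp (-q) = a * (1 - a) * Real.exp (-p - 10) := by
      rw [← hexpw, ← Real.exp_add]; congr 1; rw [hq]; ring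
    have hsm : Real.exp (-p - 10) ≤ 1 / 100 := by
      have h1 : Real.exp (-p - 10) ≤ Real.exp (-12) := Real.exp_le_exp.2 (by linarith)
      have h2 : Real.exp (-12) * Real.exp 12 = 1 := by rw [← Real.exp_add]; simp
      have h3 : (100:ℝ) ≤ Real.exp 12 := by
        have h4 : Real.exp 12 = Real.exp 1 ^ 12 := by rw [← Real.exp_nat_mul]; norm_num
        have h5 : (2:ℝ) ^ 12 ≤ Real.exp 1 ^ 12 := by
          have := Real.exp_one_gt_d9
          gcongr
          linarith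
        rw [h4]
        refine le_trans ?_ h5
        norm_num
      have h4 := Real.exp_pos (-12)
      nlinarith
    have hsm0 := Real.exp_pos (-p - 10)
    have hKq : 5 * Real.exp (-q) ≤ μ.real K := by
      refine le_trans (le_min ?_ ?_) hK
      · rw [hexpq]; nlinarith
      · rw [hexpq]; nlinarith
    have hmr : (2:ℝ) ≤ m := by exact_mod_cast (show 2 ≤ m by omega)
    have hm5 : 0 ≤ 5 / (m:ℝ) := by positivity
    obtain ⟨M, hMc, hMμ, hM⟩ := egp_far hlc (by linarith) (hE q hq1 m hm) hKc hKconv hKs hε hε₀ hεε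
      hδ hδ1 hUC hKq (by linarith) hJ hpar
    obtain ⟨H, hAH, hHm, hHμ⟩ := exists_measurable_superset μ A'
    have hHr : a' = μ.real H := by rw [ha']; simp [Measure.real, hHμ]
    have hcH : μ.real Hᶜ = 1 - μ.real H := by
      rw [measureReal_compl hHm]; simp
    have hexpq2 : Real.exp (-q) ≤ a / 4 := by rw [hexpq]; nlinarith
    have hAM : a / 4 < μ.real (A ∩ M) := by
      have h1 : A ⊆ (A ∩ M) ∪ Mᶜ := by
        intro x hx
        by_cases hxM : x ∈ M
        · exact Or.inl ⟨hx, hxM⟩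
        · exact Or.inr hxM
      have h2 := (measureReal_mono (μ := μ) h1 (measure_ne_top μ _)).trans
        (measureReal_union_le _ _)
      linarith
    obtain ⟨A₁, hA₁A, hA₁c, hA₁m⟩ := Pool.WS.exists_compact_real (hAm.inter hMc.measurableSet) hAM
    set Λ := Real.log (4 / τ) with hΛ
    set ℓ := Real.log (1 / δ) with hℓ
    set D := (1 + Λ) / δ with hD
    have h4τ : 4 ≤ 4 / τ := by rw [le_div_iff₀ hτ]; nlinarith
    have hΛ0 : 0 ≤ Λ := Real.log_nonneg (by linarith)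
    have hD0 : 0 < D := by positivity
    have hLm : 12 * (m:ℝ) * (q + 3 * Real.log m + 5) ≤
        252 * D * (q + 3 * (3.05 + Λ + ℓ) + 5) := by
      have h1 : Real.log m ≤ 3.05 + Λ + ℓ := by
        have h2 : Real.log m ≤ Real.log (21 * D) := Real.log_le_log (by linarith) hm21
        have h3 : Real.log (21 * D) = Real.log 21 + (Real.log (1 + Λ) + ℓ) := by
          rw [Real.log_mul (by norm_num) hD0.ne', hD, div_eq_mul_one_div,
            Real.log_mul (by positivity) (by positivity)]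
        have h4 : Real.log 21 ≤ 3.05 := by
          rw [Real.log_le_iff_le_exp (by norm_num)]
          have h5 : Real.exp 3.05 = Real.exp 1 ^ 3 * Real.exp 0.05 := by
            rw [← Real.exp_nat_mul, ← Real.exp_add]; norm_num
          have h6 : (2.7182818283:ℝ) ^ 3 ≤ Real.exp 1 ^ 3 := by
            have := Real.exp_one_gt_d9
            gcongr
          have h7 := Real.add_one_le_exp (0.05:ℝ)
          have h8 : (21:ℝ) ≤ 2.7182818283 ^ 3 * (0.05 + 1) := by norm_num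
          rw [h5]
          refine h8.trans ?_
          gcongr
        have h5 : Real.log (1 + Λ) ≤ Λ := by
          have := Real.log_le_sub_one_of_pos (x := 1 + Λ) (by positivity)
          linarith
        linarith
      have h0 : 0 ≤ Real.log m := Real.log_nonneg (by linarith)
      calc 12 * (m:ℝ) * (q + 3 * Real.log m + 5)
          ≤ 12 * (21 * D) * (q + 3 * (3.05 + Λ + ℓ) + 5) := by
            apply mul_le_mul _ (by linarith) (by linarith) (by positivity)
            linarith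
        _ = _ := by ring
    have hLp : 12 * (m:ℝ) * (q + 3 * Real.log m + 5) / p ≤ 257040 * D * (1 + ℓ) / τ := by
      have hΛτ : Λ ≤ 4 / τ - 1 := Real.log_le_sub_one_of_pos (by positivity)
      have h0 : τ * w ≤ ε * w := mul_le_mul_of_nonneg_right hτε hw0
      have h1 : q + 3 * (3.05 + Λ + ℓ) + 5 ≤ 1020 * p * (1 + ℓ) / τ := by
        rw [le_div_iff₀ hτ, hq]
        have h2 : τ * Λ ≤ 4 - τ := by
          calc τ * Λ ≤ τ * (4 / τ - 1) := mul_le_mul_of_nonneg_left hΛτ hτ.le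
            _ = 4 - τ := by field_simp
        have h3 : τ * ℓ ≤ ℓ := by nlinarith
        have h4 : 2 * ℓ ≤ p * ℓ := mul_le_mul_of_nonneg_right hp hlδ
        nlinarith
      rw [div_le_iff₀ hp0]
      calc 12 * (m:ℝ) * (q + 3 * Real.log m + 5) ≤ 252 * D * (q + 3 * (3.05 + Λ + ℓ) + 5) := hLm
        _ ≤ 252 * D * (1020 * p * (1 + ℓ) / τ) := mul_le_mul_of_nonneg_left h1 (by positivity)
        _ = 257040 * D * (1 + ℓ) / τ * p := by ring
    have hDD : D * D ≤ 16 / (δ ^ 2 * τ) := by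
      have h1 := Real.add_one_le_exp (Λ / 2)
      have h2 : Real.exp (Λ / 2) * Real.exp (Λ / 2) = 4 / τ := by
        rw [← Real.exp_add, add_halves, hΛ, Real.exp_log (by positivity)]
      have h3 : (1 + Λ) * (1 + Λ) ≤ 16 / τ := by
        have h4 : 1 + Λ ≤ 2 * Real.exp (Λ / 2) := by linarith
        calc (1 + Λ) * (1 + Λ) ≤ (2 * Real.exp (Λ / 2)) * (2 * Real.exp (Λ / 2)) :=
              mul_le_mul h4 h4 (by positivity) (by positivity)
          _ = 4 * (Real.exp (Λ / 2) * Real.exp (Λ / 2)) := by ring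
          _ = 16 / τ := by rw [h2]; ring
      calc D * D = (1 + Λ) * (1 + Λ) / δ ^ 2 := by rw [hD]; field_simp
        _ ≤ 16 / τ / δ ^ 2 := div_le_div_of_nonneg_right h3 (by positivity)
        _ = 16 / (δ ^ 2 * τ) := by field_simp
    have hqp : 2 * Real.exp 2 * (12 * (m:ℝ) * (q + 3 * Real.log m + 5) / p) * (54 * D) ≤ s := by
      refine le_trans ?_ hs
      have h2 : Real.exp 2 ≤ 7.3891 := by
        have h3 : Real.exp 2 = Real.exp 1 ^ 2 := by rw [← Real.exp_nat_mul]; norm_num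
        have h4 := Real.exp_one_lt_d9
        have h5 : Real.exp 1 ^ 2 ≤ 2.7182818286 ^ 2 := by gcongr
        rw [h3]
        refine h5.trans ?_
        norm_num
      have h0 : 0 ≤ Real.log m := Real.log_nonneg (by linarith)
      calc 2 * Real.exp 2 * (12 * (m:ℝ) * (q + 3 * Real.log m + 5) / p) * (54 * D)
          ≤ 2 * 7.3891 * (257040 * D * (1 + ℓ) / τ) * (54 * D) := by
            apply mul_le_mul_of_nonneg_right _ (by positivity)
            apply mul_le_mul _ hLp (by positivity) (by norm_num)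
            linarith
        _ = (2 * 7.3891 * 257040 * 54) * ((1 + ℓ) / τ) * (D * D) := by ring
        _ ≤ (2 * 7.3891 * 257040 * 54) * ((1 + ℓ) / τ) * (16 / (δ ^ 2 * τ)) :=
            mul_le_mul_of_nonneg_left hDD (by positivity)
        _ = (2 * 7.3891 * 257040 * 54 * 16) * ((1 + ℓ) / (δ ^ 2 * τ ^ 2)) := by
            field_simp
        _ ≤ 7000000000000 * ((1 + ℓ) / (δ ^ 2 * τ ^ 2)) := by
            apply mul_le_mul_of_nonneg_right _ (by positivity)
            norm_num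
        _ = 7000000000000 * (1 + ℓ) / (δ ^ 2 * τ ^ 2) := by ring
    have hpL : p ≤ 12 * (m:ℝ) * (q + 3 * Real.log m + 5) := by
      have h0 : 0 ≤ Real.log m := Real.log_nonneg (by linarith)
      have h1 : p ≤ q + 3 * Real.log m + 5 := by rw [hq]; linarith
      nlinarith
    have key : ∀ D₁ : Set (E n), D₁ ⊆ Hᶜ ∩ M → IsCompact D₁ →
        μ.real D₁ ≤ 100 * Real.exp (-(2 * q)) / a := by
      intro D₁ hD₁ hD₁c
      have h1 := hM A₁ D₁ hA₁c.isClosed hD₁c.isClosed (fun x hx => (hA₁A hx).2)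
        (fun x hx => (hD₁ hx).2) (by
          intro x hx d hd k hk g hg hdx
          apply (hD₁ hd).1
          apply hAH
          refine ⟨x + ε • k, ⟨x, (hA₁A hx).1, ε • k, ⟨k, hk, rfl⟩, rfl⟩, g, ?_, hdx.symm⟩
          exact G_subset hsym hlc (by linarith) hpL (by positivity) hqp hg)
      rw [le_div_iff₀ hpos]
      have h2 : 0 ≤ μ.real D₁ := measureReal_nonneg
      nlinarith
    have hD : μ.real (Hᶜ ∩ M) ≤ 100 * Real.exp (-(2 * q)) / a := by
      by_contra hcon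
      push Not at hcon
      obtain ⟨D₁, hD₁, hD₁c, hD₁m⟩ := Pool.WS.exists_compact_real
        (hHm.compl.inter hMc.measurableSet) hcon
      have := key D₁ hD₁ hD₁c
      linarith
    have h2q : 100 * Real.exp (-(2 * q)) / a ≤ Real.exp (-q) := by
      rw [div_le_iff₀ hpos]
      have h1 : Real.exp (-(2 * q)) = Real.exp (-q) * Real.exp (-q) := by
        rw [← Real.exp_add]; congr 1; ring
      rw [h1]
      have h2 : 100 * Real.exp (-q) ≤ a := by
        rw [hexpq]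
        have h3 : a * (1 - a) * Real.exp (-p - 10) ≤ a * (1 - a) * (1 / 100) :=
          mul_le_mul_of_nonneg_left hsm hac.le
        nlinarith
      have h3 := Real.exp_pos (-q)
      nlinarith
    have h9 : 1 - a' ≤ 2 * (a * (1 - a) * Real.exp (-p - 10)) := by
      rw [hHr, ← hcH, ← hexpq]
      have h10 : Hᶜ ⊆ (Hᶜ ∩ M) ∪ Mᶜ := by
        intro x hx
        by_cases hxM : x ∈ M
        · exact Or.inl ⟨hx, hxM⟩
        · exact Or.inr hxM
      have h11 := (measureReal_mono (μ := μ) h10 (measure_ne_top μ _)).trans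
        (measureReal_union_le _ _)
      linarith
    have h10 : 1 / 2 ≤ a' := by nlinarith
    have h13 : Real.exp p * Real.exp (-p - 10) = Real.exp (-10) := by
      rw [← Real.exp_add]; congr 1; ring
    have h14 : Real.exp (-10) ≤ 1 / 8 := by
      have h4 : Real.exp (-10) ≤ Real.exp (-3) := Real.exp_le_exp.2 (by norm_num)
      have h5 : Real.exp (-3) * Real.exp 3 = 1 := by rw [← Real.exp_add]; simp
      have h6 : (8:ℝ) ≤ Real.exp 3 := by
        have h7 : Real.exp 3 = Real.exp 1 ^ 3 := by rw [← Real.exp_nat_mul]; norm_num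
        have h8 : (2:ℝ) ^ 3 ≤ Real.exp 1 ^ 3 := by
          have := Real.exp_one_gt_d9
          gcongr
          linarith
        rw [h7]
        refine le_trans ?_ h8
        norm_num
      have h9 := Real.exp_pos (-3)
      nlinarith
    have h15 := Real.exp_pos (-10)
    calc 2 * Real.exp p * a * (1 - a')
        ≤ 2 * Real.exp p * a * (2 * (a * (1 - a) * Real.exp (-p - 10))) :=
          mul_le_mul_of_nonneg_left h9 (by positivity)
      _ = 4 * (a * a) * (1 - a) * (Real.exp p * Real.exp (-p - 10)) := by ring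
      _ = 4 * (a * a) * (1 - a) * Real.exp (-10) := by rw [h13]
      _ ≤ 4 * 1 * (1 - a) * (1 / 8) := by
          apply mul_le_mul _ h14 h15.le (by linarith)
          apply mul_le_mul_of_nonneg_right _ hc0.le
          nlinarith
      _ = (1 - a) * (1 / 2) := by ring
      _ ≤ (1 - a) * a' := mul_le_mul_of_nonneg_left h10 hc0.le

end Pool.CIP
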