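import Pool.Agent.CIP.EK

set_option autoImplicit false

open MeasureTheory Pointwise Set Filter Topology

namespace Pool.WS

variable {E : Type*} [NormedAddCommGroup E] [NormedSpace ℝ E] [MeasurableSpace E] [BorelSpace E]
  {μ : Measure E}

/-- summation over residue classes -/
lemma sum_classes (f : ℕ → ℝ) (m J : ℕ) :
    ∑ u ∈ Finset.range m, ∑ k ∈ Finset.range J, f (u + k * m) =
      ∑ s ∈ Finset.range (J * m), f s := by
  induction J with
  | zero => simp
  | succ J ih =>
    have e : (J + 1) * m = J * m + m := by ring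
    rw [e, Finset.sum_range_add, ← ih]
    have h1 : ∀ u, ∑ k ∈ Finset.range (J + 1), f (u + k * m) =
        ∑ k ∈ Finset.range J, f (u + k * m) + f (u + J * m) := fun u => Finset.sum_range_succ _ _
    simp only [h1, Finset.sum_add_distrib]
    congr 1
    refine Finset.sum_congr rfl fun u _ => ?_
    rw [add_comm]

/-- telescoping with step two -/
lemma sum_two (f : ℕ → ℝ) (n : ℕ) : ∑ s ∈ Finset.range n, (f (s + 2) - f s) =
    f (n + 1) + f n - f 1 - f 0 := by
  induction n with
  | zero => simp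
  | succ n ih => rw [Finset.sum_range_succ, ih]; ring

/-- telescoping with step `m` -/
lemma sum_step (f : ℕ → ℝ) (u m J : ℕ) :
    ∑ k ∈ Finset.range J, (f (u + (k + 1) * m) - f (u + k * m)) = f (u + J * m) - f u := by
  induction J with
  | zero => simp
  | succ J ih => rw [Finset.sum_range_succ, ih]; ring

/-- **The second core theorem** (linear loss). -/
theorem core2 [CompleteSpace E] [SecondCountableTopology E] [IsProbabilityMeasure μ]
    {m : ℕ} (hm : 2 ≤ m) (hlc : WLC μ (1 / 2)) {q : ℝ} (hq : 1 ≤ q)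
    {A : Set E} (hA : MeasurableSet A) {ι : Type*} [DecidableEq ι] (V : Finset ι)
    (φ : ι → E →L[ℝ] ℝ) (l h t₀ : ι → ℝ)
    (hh : ∀ i ∈ V, ∀ x ∈ A, φ i x ≤ h i)
    (hl : ∀ i ∈ V, 4 * Real.exp (-q) ≤ μ.real (A ∩ up (φ i) (l i)))
    (h0 : ∀ i ∈ V, μ.real (up (φ i) (t₀ i)) ≤
      Real.exp (-(12 * m * (q + 3 * Real.log m + 5)))) :
    μ.real (⋃ i ∈ V, up (φ i) (t₀ i + (1 + 5 / m) * (h i - l i))) ≤ Real.exp (-q) := by
  classical
  by_contra hcon
  push Not at hcon
  have hM : (2:ℝ) ≤ m := by exact_mod_cast hm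
  have hM0 : (0:ℝ) < m := by linarith
  have hqpos := Real.exp_pos (-q)
  have hq1 : Real.exp (-q) ≤ 1 := by rw [Real.exp_le_one_iff]; linarith
  have hEq : Real.exp q * Real.exp (-q) = 1 := by rw [← Real.exp_add]; simp
  have hm1 : (1:ℝ) / m ≤ 1 / 2 := one_div_le_one_div_of_le (by norm_num) hM
  have hr : ∀ i ∈ V, l i ≤ h i := by
    intro i hi
    have h1 : (A ∩ up (φ i) (l i)).Nonempty := by
      rw [nonempty_iff_ne_empty]
      intro h2
      have h3 := hl i hi
      rw [h2] at h3
      simp at h3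
      linarith
    obtain ⟨x, hx, hx'⟩ := h1
    have h2 : l i ≤ φ i x := hx'
    exact h2.trans (hh i hi x hx)
  set U : ι → Set E := fun i => up (φ i) (t₀ i + (1 + 5 / m) * (h i - l i)) with hU
  obtain ⟨Pc, hPm, hPU, hPd, hPc⟩ := exists_partition V U fun i => meas_up _ _
  have hPsum : ∑ i ∈ V, μ.real (Pc i) ≤ 1 := by
    rw [← measureReal_biUnion_finset hPd fun i _ => hPm i]
    exact measureReal_le_one
  have hPbig : Real.exp (-q) < ∑ i ∈ V, μ.real (Pc i) := by
    refine hcon.trans_le ((measureReal_mono hPc (measure_ne_top μ _)).trans ?_)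
    exact measureReal_biUnion_finset_le _ _
  -- the number of scales
  obtain ⟨J, hJ⟩ : ∃ J : ℕ, V.card * Real.exp (-(gam m q J)) < Real.exp (-q) / 4 := by
    have hlim : Tendsto (fun j : ℕ => (V.card : ℝ) * Real.exp (-(j:ℝ))) atTop
        (𝓝 ((V.card:ℝ) * 0)) :=
      (Real.tendsto_exp_neg_atTop_nhds_zero.comp tendsto_natCast_atTop_atTop).const_mul _
    rw [mul_zero] at hlim
    obtain ⟨J, hJ⟩ := (hlim.eventually (gt_mem_nhds
      (show (0:ℝ) < Real.exp (-q) / 4 by positivity))).exists
    refine ⟨J, lt_of_le_of_lt ?_ hJ⟩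
    apply mul_le_mul_of_nonneg_left _ (Nat.cast_nonneg _)
    apply Real.exp_le_exp.2
    have := gam_ge hm hq J
    linarith
  set I := J * m with hI
  set G : ℕ → ℝ := fun j => g2 m (j + (m + 1)) with hG
  have hGpos : ∀ j, 0 < G j := fun j => g2_pos hm _
  have hG1 : ∀ j, G j ≤ 1 := fun j => g2_le_one hm _
  have hGanti : ∀ i j, i ≤ j → G j ≤ G i := fun i j hij => g2_anti hm (by omega)
  have hGsum : ∑ j ∈ Finset.range I, G j ≤ 1 / m := sum_g2_le hm _ _
  set f : ℕ → ι → Set E → ℝ := fun j i B => qt μ (φ i) (l i) (h i) (Real.exp (-(gam m q j))) B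
    with hf
  set Ps : ℕ → Set E → ℝ := fun j B => ∑ i ∈ V, μ.real (Pc i) * ((f j i B - l i) / (h i - l i))
    with hPs
  set Pot : Set E → ℝ := fun B => ∑ j ∈ Finset.range I, G j * Ps j B - Real.exp q * μ.real B
    with hPot
  have hratio : ∀ j, ∀ i ∈ V, ∀ B, 0 ≤ (f j i B - l i) / (h i - l i) ∧
      (f j i B - l i) / (h i - l i) ≤ 1 := by
    intro j i hi B
    have h1 := hr i hi
    have h2 : l i ≤ f j i B := qt_ge h1
    have h3 : f j i B ≤ h i := qt_le h1
    refine ⟨div_nonneg (by linarith) (by linarith), div_le_one_of_le₀ (by linarith) (by linarith)⟩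
  have hPs0 : ∀ j B, 0 ≤ Ps j B := fun j B => Finset.sum_nonneg fun i hi =>
    mul_nonneg measureReal_nonneg (hratio j i hi B).1
  have hPs1 : ∀ j B, Ps j B ≤ 1 := by
    intro j B
    refine le_trans (Finset.sum_le_sum fun i hi => ?_) hPsum
    exact mul_le_of_le_one_right measureReal_nonneg (hratio j i hi B).2
  have hPsmono : ∀ j B B', B ⊆ B' → Ps j B ≤ Ps j B' := by
    intro j B B' hBB
    refine Finset.sum_le_sum fun i hi => mul_le_mul_of_nonneg_left ?_ measureReal_nonneg
    have h1 := hr i hi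
    have h2 : f j i B ≤ f j i B' := qt_mono h1 hBB
    exact div_le_div_of_nonneg_right (by linarith) (by linarith)
  set τ := G I ^ 2 * (G I * Real.exp (-q) / 4) / 2 with hτ
  have hgJ := hGpos I
  have hτ0 : 0 < τ := by positivity
  have hτ1 : τ ≤ 1 := by
    have h1 := hG1 I
    have h2 : G I ^ 2 ≤ 1 := pow_le_one₀ hgJ.le h1
    have h3 : G I * Real.exp (-q) ≤ 1 := by nlinarith
    have h4 : 0 ≤ G I * Real.exp (-q) := by positivity
    have h5 : 0 ≤ G I ^ 2 := by positivity
    rw [hτ]
    nlinarith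
  obtain ⟨A1, hA1A, hA1m, hmin⟩ : ∃ A1 ⊆ A, MeasurableSet A1 ∧
      ∀ B ⊆ A, MeasurableSet B → Pot A1 ≤ Pot B + τ := by
    have : Nonempty {B : Set E // B ⊆ A ∧ MeasurableSet B} := ⟨⟨A, subset_rfl, hA⟩⟩
    obtain ⟨⟨A1, h1, h2⟩, h3⟩ := near_min (X := {B : Set E // B ⊆ A ∧ MeasurableSet B})
      (fun B => Pot B.1) ⟨-Real.exp q, by
        rintro _ ⟨B, rfl⟩
        have h1 : 0 ≤ ∑ j ∈ Finset.range I, G j * Ps j B.1 :=
          Finset.sum_nonneg fun j _ => mul_nonneg (hGpos j).le (hPs0 j _)
        have h2 : μ.real B.1 ≤ 1 := measureReal_le_one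
        have h3 := Real.exp_pos q
        simp only [hPot]
        nlinarith⟩ hτ0
    exact ⟨A1, h1, h2, fun B hB hB' => h3 ⟨B, hB, hB'⟩⟩
  have hmassA1 : μ.real A - 2 * Real.exp (-q) ≤ μ.real A1 := by
    have h1 := hmin A subset_rfl hA
    have h2 : 0 ≤ ∑ j ∈ Finset.range I, G j * Ps j A1 :=
      Finset.sum_nonneg fun j _ => mul_nonneg (hGpos j).le (hPs0 j _)
    have h3 : ∑ j ∈ Finset.range I, G j * Ps j A ≤ 1 := by
      refine le_trans (Finset.sum_le_sum (g := G) fun j _ => ?_) (hGsum.trans (by linarith))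
      exact mul_le_of_le_one_right (hGpos j).le (hPs1 j A)
    simp only [hPot] at h1
    have h4 : Real.exp q * (μ.real A - μ.real A1) ≤ 2 := by linarith
    have h5 : μ.real A - μ.real A1 ≤ 2 * Real.exp (-q) := by
      calc μ.real A - μ.real A1 = Real.exp q * (μ.real A - μ.real A1) * Real.exp (-q) := by
            linear_combination (-(μ.real A - μ.real A1)) * hEq
        _ ≤ 2 * Real.exp (-q) := mul_le_mul_of_nonneg_right h4 hqpos.le
    linarith
  have hgj1 : ∀ j, Real.exp (-(gam m q j)) ≤ Real.exp (-q) := by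
    intro j
    apply Real.exp_le_exp.2
    have := gam_ge hm hq j
    have hj : (0:ℝ) ≤ j := Nat.cast_nonneg j
    linarith
  -- no drop
  have hND : ∀ j < I, ∀ ν' : ℝ, Real.exp q * ν' ≤ G j ^ 2 * (G j * Real.exp (-q) / 4) / 2 →
      ∀ B ⊆ A1, MeasurableSet B → μ.real A1 - ν' ≤ μ.real B → ∀ W ⊆ V,
      (∀ i ∈ W, μ.real (B ∩ up (φ i) (f j i A1 - G j * (h i - l i))) <
        Real.exp (-(gam m q j))) → ∑ i ∈ W, μ.real (Pc i) ≤ G j * Real.exp (-q) / 4 := by
    intro j hj ν' hν' B hB hBm hBμ W hW hdrop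
    have hg := hGpos j
    have hg1 := hG1 j
    have h1 := hmin B (hB.trans hA1A) hBm
    have hν1 : ν' ≤ Real.exp (-q) := by
      have h2 : G j ^ 2 * (G j * Real.exp (-q) / 4) / 2 ≤ 1 := by
        have h2 : G j ^ 2 ≤ 1 := pow_le_one₀ hg.le hg1
        have h3 : G j * Real.exp (-q) ≤ 1 := by nlinarith
        have h4 : 0 ≤ G j * Real.exp (-q) := by positivity
        have h5 : 0 ≤ G j ^ 2 := by positivity
        nlinarith
      calc ν' = Real.exp q * ν' * Real.exp (-q) := by linear_combination (-ν') * hEq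
        _ ≤ 1 * Real.exp (-q) := mul_le_mul_of_nonneg_right (hν'.trans h2) hqpos.le
        _ = Real.exp (-q) := one_mul _
    -- the quantiles of `B` drop on `W`
    have hq2 : ∀ i ∈ W, 0 < h i - l i ∧ f j i B < f j i A1 - G j * (h i - l i) := by
      intro i hi
      have hri := hr i (hW hi)
      have hBl : Real.exp (-(gam m q j)) ≤ μ.real (B ∩ up (φ i) (l i)) := by
        have h2 := hl i (hW hi)
        have h3 : μ.real (A ∩ up (φ i) (l i)) ≤ μ.real (B ∩ up (φ i) (l i)) + μ.real (A \ B) := by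
          refine le_trans (measureReal_mono ?_ (measure_ne_top μ _)) (measureReal_union_le _ _)
          intro x hx
          by_cases hx' : x ∈ B
          · exact Or.inl ⟨hx', hx.2⟩
          · exact Or.inr ⟨hx.1, hx'⟩
        have h4 : μ.real (A \ B) = μ.real A - μ.real B :=
          measureReal_sdiff (hB.trans hA1A) hBm
        have h5 := hgj1 j
        linarith
      have h2 : f j i B < f j i A1 - G j * (h i - l i) := by
        by_contra h3
        push Not at h3
        have h4 : Real.exp (-(gam m q j)) ≤ μ.real (B ∩ up (φ i) (f j i B)) := qt_up hBm hri hBl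
        have h5 : μ.real (B ∩ up (φ i) (f j i B)) ≤
            μ.real (B ∩ up (φ i) (f j i A1 - G j * (h i - l i))) := by
          refine measureReal_mono ?_ (measure_ne_top μ _)
          intro x hx
          exact ⟨hx.1, h3.trans hx.2⟩
        have h6 := hdrop i hi
        linarith
      refine ⟨?_, h2⟩
      rcases hri.eq_or_lt with h3 | h3
      · exfalso
        have h4 : l i ≤ f j i B := qt_ge hri
        have h5 : f j i A1 ≤ h i := qt_le hri
        rw [← h3] at h2 h5
        rw [sub_self, mul_zero, sub_zero] at h2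
        linarith
      · linarith
    -- the potential drops
    have hdropPs : Ps j B ≤ Ps j A1 - G j * ∑ i ∈ W, μ.real (Pc i) := by
      have h2 : ∑ i ∈ W, μ.real (Pc i) * ((f j i B - l i) / (h i - l i)) ≤
          ∑ i ∈ W, (μ.real (Pc i) * ((f j i A1 - l i) / (h i - l i)) - G j * μ.real (Pc i)) := by
        refine Finset.sum_le_sum fun i hi => ?_
        obtain ⟨h3, h4⟩ := hq2 i hi
        have h5 : (f j i B - l i) / (h i - l i) ≤ (f j i A1 - l i) / (h i - l i) - G j := by
          rw [div_le_iff₀ h3, sub_mul, div_mul_cancel₀ _ h3.ne']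
          linarith
        calc μ.real (Pc i) * ((f j i B - l i) / (h i - l i))
            ≤ μ.real (Pc i) * ((f j i A1 - l i) / (h i - l i) - G j) :=
              mul_le_mul_of_nonneg_left h5 measureReal_nonneg
          _ = _ := by ring
      have h3 : ∑ i ∈ V \ W, μ.real (Pc i) * ((f j i B - l i) / (h i - l i)) ≤
          ∑ i ∈ V \ W, μ.real (Pc i) * ((f j i A1 - l i) / (h i - l i)) := by
        refine Finset.sum_le_sum fun i hi => mul_le_mul_of_nonneg_left ?_ measureReal_nonneg
        have hi' := (Finset.mem_sdiff.1 hi).1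
        have h1 := hr i hi'
        have h2 : f j i B ≤ f j i A1 := qt_mono h1 hB
        exact div_le_div_of_nonneg_right (by linarith) (by linarith)
      have h4 := Finset.sum_sdiff (f := fun i => μ.real (Pc i) * ((f j i B - l i) / (h i - l i))) hW
      have h5 := Finset.sum_sdiff (f := fun i => μ.real (Pc i) * ((f j i A1 - l i) / (h i - l i))) hW
      rw [Finset.sum_sub_distrib, ← Finset.mul_sum] at h2
      simp only [hPs]
      linarith
    have hsum : ∑ k ∈ Finset.range I, G k * Ps k B ≤
        ∑ k ∈ Finset.range I, G k * Ps k A1 - G j * (G j * ∑ i ∈ W, μ.real (Pc i)) := by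
      have hjm : j ∈ Finset.range I := Finset.mem_range.2 hj
      rw [← Finset.add_sum_erase _ _ hjm, ← Finset.add_sum_erase _ _ hjm]
      have h2 : ∑ k ∈ (Finset.range I).erase j, G k * Ps k B ≤
          ∑ k ∈ (Finset.range I).erase j, G k * Ps k A1 :=
        Finset.sum_le_sum fun k _ => mul_le_mul_of_nonneg_left (hPsmono k B A1 hB) (hGpos k).le
      have h3 := mul_le_mul_of_nonneg_left hdropPs hg.le
      linarith
    simp only [hPot] at h1
    have h2 : Real.exp q * (μ.real A1 - μ.real B) ≤ Real.exp q * ν' :=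
      mul_le_mul_of_nonneg_left (by linarith) (Real.exp_pos q).le
    have hgJj : G I ≤ G j := hGanti _ _ hj.le
    have hττ : τ ≤ G j ^ 2 * (G j * Real.exp (-q) / 4) / 2 := by
      rw [hτ]; gcongr
    have h3 : G j ^ 2 * ∑ i ∈ W, μ.real (Pc i) ≤
        G j ^ 2 * (G j * Real.exp (-q) / 4) := by
      have h4 : G j ^ 2 * ∑ i ∈ W, μ.real (Pc i) =
          G j * (G j * ∑ i ∈ W, μ.real (Pc i)) := by ring
      rw [h4]
      linarith
    exact le_of_mul_le_mul_left h3 (by positivity)
  -- the levels
  set F : ℕ → ι → ℝ := fun j i => f j i A1 with hF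
  have hFl : ∀ j, ∀ i ∈ V, l i ≤ F j i := fun j i hi => qt_ge (hr i hi)
  have hFh : ∀ j, ∀ i ∈ V, F j i ≤ h i := fun j i hi => qt_le (hr i hi)
  have hFmono : ∀ i ∈ V, ∀ j k, j ≤ k → F j i ≤ F k i := by
    intro i hi j k hjk
    refine csSup_le_csSup qset_bdd ⟨l i, mem_qset (hr i hi)⟩ ?_
    rintro x ⟨h1, h2, h3⟩
    refine ⟨h1, h2, h3.imp_right fun h4 => le_trans ?_ h4⟩
    apply Real.exp_le_exp.2
    have := gam_mono hm hq hjk
    linarith
  -- the overlaps
  set ov : ℕ → ι → ℝ := fun u i => ∑ k ∈ Finset.range J, (F (u + k * m + (m + 2)) i -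
    F (u + k * m + m) i) with hov
  have hov0 : ∀ u, ∀ i ∈ V, 0 ≤ ov u i := fun u i hi => Finset.sum_nonneg fun k _ => by
    have := hFmono i hi (u + k * m + m) (u + k * m + (m + 2)) (by omega)
    linarith
  have hovsum : ∀ i ∈ V, ∑ u ∈ Finset.range m, ov u i ≤ 2 * (h i - l i) := by
    intro i hi
    have h1 := sum_classes (fun s => F (s + (m + 2)) i - F (s + m) i) m J
    have h2 := sum_two (fun s => F (s + m) i) (J * m)
    have h3 : ∑ s ∈ Finset.range (J * m), (F (s + (m + 2)) i - F (s + m) i) =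
        ∑ s ∈ Finset.range (J * m), (F (s + 2 + m) i - F (s + m) i) := by
      refine Finset.sum_congr rfl fun s _ => ?_
      have : s + (m + 2) = s + 2 + m := by ring
      rw [this]
    have h4 : ∑ u ∈ Finset.range m, ov u i = F (J * m + 1 + m) i + F (J * m + m) i -
        F (1 + m) i - F (0 + m) i := by
      rw [← h2, ← h3, ← h1]
    rw [h4]
    have h5 := hFh (J * m + 1 + m) i hi
    have h6 := hFh (J * m + m) i hi
    have h7 := hFl (1 + m) i hi
    have h8 := hFl (0 + m) i hi
    linarith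
  set bad : ℕ → Finset ι := fun u => V.filter fun i => 4 / m * (h i - l i) < ov u i with hbad
  obtain ⟨u, hu, hubad⟩ : ∃ u ∈ Finset.range m,
      ∑ i ∈ bad u, μ.real (Pc i) ≤ (∑ i ∈ V, μ.real (Pc i)) / 2 := by
    have hcard : ∀ i ∈ V, (((Finset.range m).filter fun u => 4 / m * (h i - l i) < ov u i).card : ℝ)
        ≤ m / 2 := by
      intro i hi
      set Z := (Finset.range m).filter fun u => 4 / m * (h i - l i) < ov u i with hZ
      rcases (hr i hi).eq_or_lt with h1 | h1
      · have : Z = ∅ := by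
          refine Finset.filter_eq_empty_iff.2 fun u hu hlt => ?_
          have h2 := Finset.single_le_sum (fun u _ => hov0 u i hi) hu
          have h3 := hovsum i hi
          rw [← h1, sub_self, mul_zero] at hlt h3
          linarith
        rw [this]
        simp
        positivity
      · have h2 : (Z.card : ℝ) * (4 / m * (h i - l i)) ≤ ∑ u ∈ Z, ov u i := by
          rw [← nsmul_eq_mul]
          refine Finset.card_nsmul_le_sum _ _ _ fun u hu => ?_
          exact (Finset.mem_filter.1 hu).2.le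
        have h3 : ∑ u ∈ Z, ov u i ≤ ∑ u ∈ Finset.range m, ov u i :=
          Finset.sum_le_sum_of_subset_of_nonneg (Finset.filter_subset _ _)
            fun u _ _ => hov0 u i hi
        have h4 := hovsum i hi
        have h5 : 0 < h i - l i := by linarith
        have h6 : (Z.card : ℝ) * (4 / m) ≤ 2 := by
          have : (Z.card : ℝ) * (4 / m) * (h i - l i) ≤ 2 * (h i - l i) := by
            calc _ = (Z.card : ℝ) * (4 / m * (h i - l i)) := by ring
              _ ≤ _ := h2.trans (h3.trans h4)
          exact le_of_mul_le_mul_right this h5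
        rw [← mul_div_assoc, div_le_iff₀ hM0] at h6
        linarith
    have hdouble : ∑ u ∈ Finset.range m, ∑ i ∈ bad u, μ.real (Pc i) ≤
        ∑ u ∈ Finset.range m, (∑ i ∈ V, μ.real (Pc i)) / 2 := by
      have h1 : ∀ u, ∑ i ∈ bad u, μ.real (Pc i) =
          ∑ i ∈ V, if 4 / m * (h i - l i) < ov u i then μ.real (Pc i) else 0 := fun u => by
        rw [hbad, Finset.sum_filter]
      simp only [h1]
      rw [Finset.sum_comm, Finset.sum_const, Finset.card_range, nsmul_eq_mul]
      have h2 : ∀ i ∈ V, ∑ u ∈ Finset.range m,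
          (if 4 / m * (h i - l i) < ov u i then μ.real (Pc i) else 0) ≤ m / 2 * μ.real (Pc i) := by
        intro i hi
        rw [← Finset.sum_filter, Finset.sum_const, nsmul_eq_mul]
        exact mul_le_mul_of_nonneg_right (hcard i hi) measureReal_nonneg
      refine (Finset.sum_le_sum h2).trans (le_of_eq ?_)
      rw [← Finset.mul_sum]; ring
    exact Finset.exists_le_of_sum_le ⟨0, Finset.mem_range.2 (by omega)⟩ hdouble
  have hum : u < m := Finset.mem_range.1 hu
  set V0 := V \ bad u with hV0
  have hV0V : V0 ⊆ V := Finset.sdiff_subset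
  have hgood : ∀ i ∈ V0, ov u i ≤ 4 / m * (h i - l i) := by
    intro i hi
    rw [hV0, Finset.mem_sdiff] at hi
    by_contra h1
    push Not at h1
    exact hi.2 (Finset.mem_filter.2 ⟨hi.1, h1⟩)
  set S0 : Set E := ⋃ i ∈ V0, Pc i with hS0
  have hS0m : MeasurableSet S0 := Finset.measurableSet_biUnion _ fun i _ => hPm i
  have hS0μ : Real.exp (-q) / 2 < μ.real S0 := by
    have h1 : μ.real S0 = ∑ i ∈ V0, μ.real (Pc i) := by
      rw [hS0, measureReal_biUnion_finset (hPd.subset (by exact_mod_cast hV0V)) fun i _ => hPm i]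
    have h2 := Finset.sum_sdiff (f := fun i => μ.real (Pc i))
      (show bad u ⊆ V from Finset.filter_subset _ _)
    rw [h1]
    linarith
  set t : ℕ → ι → ℝ := fun j i => t₀ i + ∑ k ∈ Finset.range j,
    (F (u + k * m + (m + 1) + 1) i - F (u + k * m) i + G (u + k * m) * (h i - l i)) with ht
  have htt : ∀ j i, t (j + 1) i = t j i + (F (u + j * m + (m + 1) + 1) i - F (u + j * m) i +
      G (u + j * m) * (h i - l i)) := by
    intro j i
    simp only [ht]
    rw [Finset.sum_range_succ]; ring
  have main : ∀ j : ℕ, j ≤ J → ∃ V' ⊆ V0, ∃ S ⊆ S0, MeasurableSet S ∧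
      S ⊆ (⋃ i ∈ V', Pc i) ∧
      μ.real S0 - Real.exp (-q) / 2 * ∑ k ∈ Finset.range j, G k ≤ μ.real S ∧
      ∀ i ∈ V', μ.real (S ∩ up (φ i) (t j i)) ≤ Real.exp (-(gam m q (u + j * m + (m + 1)))) := by
    intro j
    induction j with
    | zero =>
      intro _
      refine ⟨V0, subset_rfl, S0, subset_rfl, hS0m, subset_rfl, by simp, fun i hi => ?_⟩
      refine (measureReal_mono ?_ (measure_ne_top μ _)).trans ((h0 i (hV0V hi)).trans ?_)
      · intro x hx
        have h6 : t 0 i ≤ φ i x := hx.2
        simp only [ht, Finset.range_zero, Finset.sum_empty, add_zero] at h6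
        exact h6
      · apply Real.exp_le_exp.2
        have := gam_start hm hq (i := u + 0 * m + (m + 1)) (by omega)
        linarith
    | succ j ih =>
      intro hj
      obtain ⟨V', hV', S, hSU, hSm, hSP, hSμ, hSt⟩ := ih (by omega)
      obtain ⟨N, hN0, hN1, hN2, hN3⟩ := exists_N2 hm hq (u + j * m)
      have hidx : u + (j + 1) * m + (m + 1) = u + j * m + m + (m + 1) := by ring
      have hlt : u + j * m < I := by
        rw [hI]
        calc u + j * m < m + j * m := by omega
          _ = (j + 1) * m := by ring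
          _ ≤ J * m := Nat.mul_le_mul_right m hj
      obtain ⟨V'', hV'', S', hS'S, hS'm, hS'P, hS'μ, hS't⟩ := stage2 (lam := 1 / 2) (by norm_num)
        (by norm_num) hlc
        (V := V') (φ := φ) (a := fun i => F (u + j * m) i - G (u + j * m) * (h i - l i))
        (b := F (u + j * m + (m + 1) + 1))
        (t := t j) (t' := t (j + 1)) (α := Real.exp (-(gam m q (u + j * m))))
        (κ := Real.exp (-(gam m q (u + j * m + (m + 1)))))
        (κ' := Real.exp (-(gam m q (u + j * m + m + (m + 1)))))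
        (ν := Real.exp (-(gam m q (u + j * m + (m + 1) + 1))))
        (ε := G (u + j * m) * Real.exp (-q) / 4)
        (Real.exp_pos _) (Real.exp_pos _).le (Real.exp_pos _) (Real.exp_pos _).le hPm hSm hA1m hSP
        hSt (fun i hi => qt_ou hA1m (hr i (hV0V (hV' hi))) (Real.exp_pos _).le
          fun x hx => hh i (hV0V (hV' hi)) x (hA1A hx))
        (fun i _ => by rw [htt]; linarith) hN0 hN1
        (fun B hB hBm hBμ W hW hdrop => hND (u + j * m) hlt _ hN3 B hB hBm hBμ W
          (hW.trans (hV'.trans hV0V)) hdrop)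
      refine ⟨V'', hV''.trans hV', S', hS'S.trans hSU, hS'm, hS'P, ?_, ?_⟩
      · have h1 : G (u + j * m) ≤ G j := hGanti _ _ (by
          calc j ≤ j * m := Nat.le_mul_of_pos_right j (by omega)
            _ ≤ u + j * m := by omega)
        have h2 : G (u + j * m) * Real.exp (-q) ≤ G j * Real.exp (-q) :=
          mul_le_mul_of_nonneg_right h1 hqpos.le
        have h3 : (N:ℝ) * Real.exp (-(gam m q (u + j * m + (m + 1)))) ≤
            G (u + j * m) * Real.exp (-q) / 4 := hN2
        rw [Finset.sum_range_succ]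
        linarith
      · rw [hidx]; exact hS't
  obtain ⟨V', hV', S, hSU, hSm, hSP, hSμ, hSt⟩ := main J le_rfl
  have hsmass : Real.exp (-q) / 4 ≤ μ.real S := by
    have h1 : ∑ k ∈ Finset.range J, G k ≤ 1 / 2 := by
      have := sum_g2_le hm (m + 1) J
      linarith
    have h2 : Real.exp (-q) / 2 * ∑ k ∈ Finset.range J, G k ≤ Real.exp (-q) / 2 * (1 / 2) :=
      mul_le_mul_of_nonneg_left h1 (by positivity)
    linarith
  have hsle : μ.real S ≤ V.card * Real.exp (-(gam m q J)) := by
    have h1 : S ⊆ ⋃ i ∈ V', S ∩ up (φ i) (t J i) := by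
      intro x hx
      have h2 := hSP hx
      simp only [mem_iUnion, exists_prop] at h2
      obtain ⟨i, hi, hxi⟩ := h2
      refine mem_biUnion (x := i) (Finset.mem_coe.2 hi) ⟨hx, ?_⟩
      have h3 : t₀ i + (1 + 5 / m) * (h i - l i) ≤ φ i x := hPU i hxi
      refine le_trans ?_ h3
      have hiV := hV0V (hV' hi)
      have hri := hr i hiV
      have h4 : ∑ k ∈ Finset.range J, (F (u + k * m + (m + 1) + 1) i - F (u + k * m) i +
          G (u + k * m) * (h i - l i)) =
          ∑ k ∈ Finset.range J, (F (u + (k + 1) * m) i - F (u + k * m) i) + ov u i +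
          (∑ k ∈ Finset.range J, G (u + k * m)) * (h i - l i) := by
        rw [Finset.sum_mul, hov, ← Finset.sum_add_distrib, ← Finset.sum_add_distrib]
        refine Finset.sum_congr rfl fun k _ => ?_
        have e1 : u + k * m + (m + 1) + 1 = u + k * m + (m + 2) := by ring
        have e2 : u + (k + 1) * m = u + k * m + m := by ring
        rw [e1, e2]; ring
      have h5 := sum_step (fun s => F s i) u m J
      have h6 : ∑ k ∈ Finset.range J, G (u + k * m) ≤ 1 / m := by
        refine le_trans (Finset.sum_le_sum fun k _ => hGanti k (u + k * m) ?_)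
          (sum_g2_le hm (m + 1) J)
        calc k ≤ k * m := Nat.le_mul_of_pos_right k (by omega)
          _ ≤ u + k * m := by omega
      have h7 : (∑ k ∈ Finset.range J, G (u + k * m)) * (h i - l i) ≤ 1 / m * (h i - l i) :=
        mul_le_mul_of_nonneg_right h6 (by linarith)
      have h8 := hgood i (hV' hi)
      have h9 := hFh (u + J * m) i hiV
      have h10 := hFl u i hiV
      have h11 : (1 + 5 / (m:ℝ)) * (h i - l i) = (h i - l i) + 4 / m * (h i - l i) +
          1 / m * (h i - l i) := by ring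
      simp only [ht]
      rw [h4, h5, h11]
      linarith
    have h2 : μ.real S ≤ ∑ i ∈ V', μ.real (S ∩ up (φ i) (t J i)) :=
      (measureReal_mono h1 (measure_ne_top μ _)).trans (measureReal_biUnion_finset_le _ _)
    have h3 : ∑ i ∈ V', μ.real (S ∩ up (φ i) (t J i)) ≤
        V'.card * Real.exp (-(gam m q (u + J * m + (m + 1)))) := by
      rw [← nsmul_eq_mul]
      exact Finset.sum_le_card_nsmul _ _ _ hSt
    have h4 : (V'.card : ℝ) ≤ V.card := by
      exact_mod_cast Finset.card_le_card (hV'.trans hV0V)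
    have h5 : Real.exp (-(gam m q (u + J * m + (m + 1)))) ≤ Real.exp (-(gam m q J)) := by
      apply Real.exp_le_exp.2
      have := gam_mono hm hq (i := J) (j := u + J * m + (m + 1)) (by
        calc J ≤ J * m := Nat.le_mul_of_pos_right J (by omega)
          _ ≤ u + J * m + (m + 1) := by omega)
      linarith
    have h6 : (V'.card : ℝ) * Real.exp (-(gam m q (u + J * m + (m + 1)))) ≤
        V.card * Real.exp (-(gam m q J)) :=
      mul_le_mul h4 h5 (Real.exp_pos _).le (Nat.cast_nonneg _)
    linarith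
  linarith

end Pool.WS
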