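import Pool.Agent.CIP.EJ
import Pool.Agent.CIP.EL
import Pool.Agent.CIP.EE0

set_option autoImplicit false

open MeasureTheory Pointwise Set Filter Topology

namespace Pool.CIP

variable {n : ℕ} {μ : Measure (E n)}

lemma core2_holds [IsProbabilityMeasure μ] (hlc : LC μ) : Core2 μ := by
  classical
  intro m hm q hq A₀ hA₀ ι V φ l h t₀ h1 h2 h3
  exact Pool.WS.core2 hm (hlc.wlc (a := 1 / 2) (by norm_num) (by norm_num)) hq hA₀ V φ l h t₀
    h1 h2 h3

/-- Optimal concentration for all convex sets with the dilation `1 + ε`. -/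
theorem main_eps_sq [IsProbabilityMeasure μ] (hsym : μ.map (fun x => -x) = μ) (hlc : LC μ)
    {A : Set (E n)} (hAm : MeasurableSet A) (hAconv : Convex ℝ A) {p : ℝ} (hp : 2 ≤ p)
    {ε : ℝ} (hε0 : 0 < ε) (hε1 : ε ≤ 1) :
    2 * Real.exp p * μ.real A * (1 - μ.real (A + ε • (A - A) + G μ p (7000000000000 / ε ^ 2))) ≤
      (1 - μ.real A) * μ.real (A + ε • (A - A) + G μ p (7000000000000 / ε ^ 2)) :=
  main_eps2 hsym hlc (core2_holds hlc) hAm hAconv hp hε0 hε1

end Pool.CIP
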