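import Pool.Agent.CIP.EGP
import Pool.Agent.CIP.FE

set_option autoImplicit false

open MeasureTheory Pointwise Set Filter Topology

namespace Pool.CIP

variable {n : ℕ} {μ : Measure (E n)}

/-- the enlargement theorem in the form used in `EGP` -/
lemma enlP_holds [IsProbabilityMeasure μ] (hsym : μ.map (fun x => -x) = μ) (hlc : LC μ) :
    ∀ q : ℝ, 1 ≤ q → ∀ m : ℕ, 5 ≤ m →
      EnlP μ (1 + 5 / (m:ℝ)) (12 * m * (q + 3 * Real.log m + 5)) q := by
  intro q hq m hm B hBc hBconv hBs hB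
  have hmr : (5:ℝ) ≤ m := by exact_mod_cast hm
  have h0 : 0 ≤ Real.log m := Real.log_nonneg (by linarith)
  refine enlP_sym hsym hlc (core2_holds hlc m (by omega) q hq) ?_ hq ?_ hBc hBconv hB
  · have : 5 / (m:ℝ) ≤ 1 := by rw [div_le_iff₀ (by linarith)]; linarith
    linarith
  · nlinarith

/-- all Borel sets, up to a small multiple of a uniformly convex body of large measure -/
theorem main_uc2 [IsProbabilityMeasure μ] (hsym : μ.map (fun x => -x) = μ) (hlc : LC μ)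
    {A K : Set (E n)} (hAm : MeasurableSet A)
    (hKc : IsCompact K) (hKconv : Convex ℝ K) (hKs : ∀ x ∈ K, -x ∈ K)
    (hK : min (μ.real A / 2) (1 / 4) ≤ μ.real K) {ε ε₀ δ τ : ℝ}
    (hτ : 0 < τ) (hτ1 : τ ≤ 1) (hτε : τ ≤ ε) (hε₀ : 0 ≤ ε₀) (hεε : (1 + δ / 4) * ε₀ ≤ ε)
    (hδ : 0 < δ) (hδ1 : δ ≤ 1)
    (hUC : ∀ x ∈ K, ∀ y ∈ K, (1 / 2 : ℝ) • (x + y) ∉ (1 - δ) • K → x - y ∈ ε₀ • K)
    {p : ℝ} (hp : 2 ≤ p) :
    2 * Real.exp p * μ.real A *
        (1 - μ.real (A + ε • K +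
          G μ p (7000000000000 * (1 + Real.log (1 / δ)) / (δ ^ 2 * τ ^ 2)))) ≤
      (1 - μ.real A) * μ.real (A + ε • K +
          G μ p (7000000000000 * (1 + Real.log (1 / δ)) / (δ ^ 2 * τ ^ 2))) :=
  egp_main hsym hlc (enlP_holds hsym hlc) hAm hKc hKconv hKs hK hτ hτ1 hτε hε₀ hεε
    hδ hδ1 hUC hp le_rfl

/-- the final form: uniformly convex bodies, or very small / very large sets -/
theorem main_body2 [IsProbabilityMeasure μ] (hsym : μ.map (fun x => -x) = μ) (hlc : LC μ)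
    {A K : Set (E n)} (hAm : MeasurableSet A)
    (hKc : IsCompact K) (hKconv : Convex ℝ K) (hKs : ∀ x ∈ K, -x ∈ K)
    (hK : min (μ.real A / 2) (1 / 4) ≤ μ.real K) {p : ℝ} (hp : 2 ≤ p) {ε δ : ℝ}
    (hε : 0 < ε) (hδ : 0 < δ) (hδ1 : δ ≤ 1)
    (hUC : (∀ x ∈ K, ∀ y ∈ K, (1 / 2 : ℝ) • (x + y) ∉ (1 - δ) • K →
        (1 + δ / 4) • (x - y) ∈ ε • K) ∨
      1000 * p ≤ ε * Real.log (1 / (μ.real A * (1 - μ.real A)))) :
    2 * Real.exp p * μ.real A *
        (1 - μ.real (A + ε • K +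
          G μ p (7000000000000 * (1 + Real.log (1 / δ)) / (δ ^ 2 * min ε 1 ^ 2)))) ≤
      (1 - μ.real A) * μ.real (A + ε • K +
          G μ p (7000000000000 * (1 + Real.log (1 / δ)) / (δ ^ 2 * min ε 1 ^ 2))) := by
  have hτ : 0 < min ε 1 := lt_min hε (by norm_num)
  rcases hUC with hUC | hw
  · refine main_uc2 hsym hlc hAm hKc hKconv hKs hK hτ (min_le_right _ _) (min_le_left _ _)
      (ε₀ := ε / (1 + δ / 4)) (by positivity) (le_of_eq (by field_simp)) hδ hδ1 ?_ hp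
    intro x hx y hy h
    obtain ⟨z, hz, hz'⟩ := hUC x hx y hy h
    have hz2 : ε • z = (1 + δ / 4) • (x - y) := hz'
    refine ⟨z, hz, ?_⟩
    show (ε / (1 + δ / 4)) • z = x - y
    rw [div_eq_inv_mul, mul_smul, hz2, smul_smul, inv_mul_cancel₀ (by positivity), one_smul]
  · have h1 := main_borel hsym hlc hAm hKc hKconv hKs hK hp (θ := ε) (Or.inr hw)
    have hlδ : 0 ≤ Real.log (1 / δ) := Real.log_nonneg (by rw [le_div_iff₀ hδ]; linarith)
    have h7 : (7000000000000:ℝ) ≤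
        7000000000000 * (1 + Real.log (1 / δ)) / (δ ^ 2 * min ε 1 ^ 2) := by
      have h2 : δ ^ 2 ≤ 1 := pow_le_one₀ hδ.le hδ1
      have h3 : min ε 1 ^ 2 ≤ 1 := pow_le_one₀ hτ.le (min_le_right _ _)
      have h4 : δ ^ 2 * min ε 1 ^ 2 ≤ 1 * 1 := mul_le_mul h2 h3 (by positivity) (by norm_num)
      rw [le_div_iff₀ (by positivity)]
      linarith
    have h2 : A + ε • K + G μ p 7000000000000 ⊆
        A + ε • K + G μ p (7000000000000 * (1 + Real.log (1 / δ)) / (δ ^ 2 * min ε 1 ^ 2)) :=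
      add_subset_add_left (G_mono h7)
    have h3 := measureReal_mono (μ := μ) h2 (measure_ne_top μ _)
    have h4 : 0 ≤ 2 * Real.exp p * μ.real A :=
      mul_nonneg (by positivity) measureReal_nonneg
    have h5 : μ.real A ≤ 1 := measureReal_le_one
    calc _ ≤ 2 * Real.exp p * μ.real A * (1 - μ.real (A + ε • K + G μ p 7000000000000)) :=
          mul_le_mul_of_nonneg_left (by linarith) h4
      _ ≤ (1 - μ.real A) * μ.real (A + ε • K + G μ p 7000000000000) := h1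
      _ ≤ _ := mul_le_mul_of_nonneg_left h3 (by linarith)

end Pool.CIP
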