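import Pool.Agent.CIP.EGP

set_option autoImplicit false

open MeasureTheory Pointwise Set Filter Topology

namespace Pool.CIP

variable {n : ℕ} {μ : Measure (E n)}

/-- the chain of bodies, with weights `1 - σ` and `σ` -/
lemma egw_chain [IsProbabilityMeasure μ] {R L q : ℝ} (hR1 : 1 ≤ R)
    (hE : EnlP μ R L q)
    {K : Set (E n)} (hKc : IsCompact K) (hKconv : Convex ℝ K) (hKs : ∀ x ∈ K, -x ∈ K)
    {ε ε₀ δ σ t : ℝ}
    (hε : 0 < ε) (hε₀ : 0 ≤ ε₀) (hεε : (1 + δ / 4) * ε₀ ≤ ε) (hδ : 0 < δ) (hδ1 : δ ≤ 1)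
    (hσ0 : 0 ≤ σ) (hσ1 : σ ≤ 1) (ht : 0 ≤ t)
    (hUC : ∀ x ∈ K, ∀ y ∈ K, (1 - σ) • x + σ • y ∉ (1 - δ) • K → t • (x - y) ∈ ε₀ • K)
    (hK : 5 * Real.exp (-q) ≤ μ.real K) {J : ℕ}
    (hRδ : R ≤ 1 + δ / 4) (hJ : t * (1 - δ / 2) ^ J ≤ ε / 4) {s : ℝ}
    (hs : 2 * ((J + 1 : ℕ) * (3 * Real.exp 1) * R ^ (J + 1)) ≤ s) :
    ∃ M N : Set (E n), IsCompact M ∧ IsCompact N ∧ μ.real Mᶜ ≤ Real.exp (-q) ∧
      μ.real N ≤ 5 * Real.exp (-q) ∧
      ∀ x ∈ M, ∀ y ∈ M, (1 - σ) • x + σ • y ∉ N →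
        ∃ k ∈ K, ∃ g ∈ G μ L s, t • (x - y) = ε • k + t • g := by
  set c₁ := 3 * Real.exp 1 with hc₁
  have hR0 : 0 ≤ R := by linarith
  have hR2 : R ≤ 5 / 4 := by linarith
  have hc₁0 : 0 ≤ c₁ := by positivity
  have hcle : ∀ i ≤ J + 1, 2 * eg_seq R c₁ i ≤ s := by
    intro i hi
    refine le_trans ?_ hs
    have h1 := eg_seq_le hR1 hc₁0 i
    have h2 : (i:ℝ) * c₁ * R ^ i ≤ (J + 1 : ℕ) * c₁ * R ^ (J + 1) := by
      apply mul_le_mul
      · apply mul_le_mul_of_nonneg_right _ hc₁0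
        exact_mod_cast hi
      · exact pow_le_pow_right₀ hR1 hi
      · positivity
      · positivity
    linarith
  have hr0 : ∀ i : ℕ, 0 < (1 - δ / 2) ^ i := fun i => pow_pos (by linarith) i
  have hr1 : ∀ i : ℕ, (1 - δ / 2) ^ i ≤ 1 := fun i => pow_le_one₀ (by linarith) (by linarith)
  have hzero : 5 * Real.exp (-q) ≤ μ.real ((1 - δ / 2) ^ 0 • K + G μ L (eg_seq R c₁ 0)) := by
    refine hK.trans (measureReal_mono ?_ (measure_ne_top μ _))
    intro x hx
    refine ⟨(1 - δ / 2) ^ 0 • x, ⟨x, hx, rfl⟩, 0, zero_mem_G le_rfl, ?_⟩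
    simp
  by_cases hall : ∀ i ≤ J, 5 * Real.exp (-q) ≤
      μ.real ((1 - δ / 2) ^ i • K + G μ L (eg_seq R c₁ i))
  · -- the body gets small
    obtain ⟨M, hMc, hMμ, hM⟩ := egp_body hR0 hE hKc hKconv hKs (hall J le_rfl)
    refine ⟨M, ∅, hMc, isCompact_empty, hMμ, by simp [Real.exp_nonneg], ?_⟩
    intro a ha d hd _
    obtain ⟨k, hk, g, hg, hak⟩ := hM a ha
    obtain ⟨l, hl, g', hg', hdl⟩ := hM d hd
    obtain ⟨z, hz, hz'⟩ := eg_half_diff hKconv hKs hk hl
    have h1 : t * (R * (1 - δ / 2) ^ J) * 2 ≤ ε := by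
      have h2 : 0 ≤ t * (1 - δ / 2) ^ J := mul_nonneg ht (hr0 J).le
      nlinarith
    obtain ⟨w, hw, hw'⟩ := eg_smul hKconv hKs
      (s := t * (R * (1 - δ / 2) ^ J) * 2) (t := ε)
      (mul_nonneg (mul_nonneg ht (mul_nonneg hR0 (hr0 J).le)) (by norm_num)) h1 hε hz
    refine ⟨w, hw, g - g', ?_, ?_⟩
    · have h2 := eg_add hg (neg_mem_G hg')
      rw [← sub_eq_add_neg] at h2
      refine G_mono ?_ h2
      have h3 := hcle (J + 1) le_rfl
      have h4 : eg_seq R c₁ (J + 1) = R * eg_seq R c₁ J + c₁ := rfl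
      linarith
    · rw [← hw', mul_smul, ← hz', hak, hdl]
      module
  · push Not at hall
    obtain ⟨i, hiJ, hi, hi1⟩ : ∃ i, i + 1 ≤ J ∧
        5 * Real.exp (-q) ≤ μ.real ((1 - δ / 2) ^ i • K + G μ L (eg_seq R c₁ i)) ∧
        μ.real ((1 - δ / 2) ^ (i + 1) • K + G μ L (eg_seq R c₁ (i + 1))) < 5 * Real.exp (-q) := by
      classical
      obtain ⟨j, hj⟩ := hall
      have hex : ∃ j, j ≤ J ∧ μ.real ((1 - δ / 2) ^ j • K + G μ L (eg_seq R c₁ j)) <
          5 * Real.exp (-q) := ⟨j, hj⟩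
      have hspec := Nat.find_spec hex
      have hmin : ∀ i < Nat.find hex, ¬ _ := fun i hi => Nat.find_min hex hi
      rcases hfind : Nat.find hex with _ | i
      · rw [hfind] at hspec
        exact absurd hspec.2 (not_lt.2 hzero)
      · rw [hfind] at hspec hmin
        refine ⟨i, hspec.1, ?_, hspec.2⟩
        have := hmin i (Nat.lt_succ_self i)
        by_contra hcon
        push Not at hcon
        exact this ⟨by omega, hcon⟩
    obtain ⟨M, hMc, hMμ, hM⟩ := egp_body hR0 hE hKc hKconv hKs hi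
    refine ⟨M, (1 - δ / 2) ^ (i + 1) • K + G μ L (eg_seq R c₁ (i + 1)), hMc,
      (hKc.smul _).add (isCompact_G _ _), hMμ, hi1.le, ?_⟩
    intro a ha d hd hcon
    obtain ⟨k, hk, g, hg, hak⟩ := hM a ha
    obtain ⟨l, hl, g', hg', hdl⟩ := hM d hd
    have h1 : (1 - σ) • k + σ • l ∉ (1 - δ) • K := by
      rintro ⟨z, hz, hz'⟩
      apply hcon
      have h2 : R * (1 - δ / 2) ^ i * (1 - δ) ≤ (1 - δ / 2) ^ (i + 1) := by
        have h3 := hr0 i
        have h4 : R * (1 - δ) ≤ 1 - δ / 2 := by nlinarith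
        calc R * (1 - δ / 2) ^ i * (1 - δ) = (1 - δ / 2) ^ i * (R * (1 - δ)) := by ring
          _ ≤ (1 - δ / 2) ^ i * (1 - δ / 2) := mul_le_mul_of_nonneg_left h4 h3.le
          _ = (1 - δ / 2) ^ (i + 1) := by rw [pow_succ]
      obtain ⟨w, hw, hw'⟩ := eg_smul hKconv hKs
        (s := R * (1 - δ / 2) ^ i * (1 - δ)) (t := (1 - δ / 2) ^ (i + 1))
        (mul_nonneg (mul_nonneg (by linarith) (hr0 i).le) (by linarith)) h2 (hr0 (i + 1)) hz
      refine ⟨(1 - δ / 2) ^ (i + 1) • w, ⟨w, hw, rfl⟩, (1 - σ) • g + σ • g', ?_, ?_⟩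
      · exact convex_G hg hg' (by linarith) hσ0 (by ring)
      · have hz2 : (1 - δ) • z = (1 - σ) • k + σ • l := hz'
        show (1 - δ / 2) ^ (i + 1) • w + ((1 - σ) • g + σ • g') = _
        rw [← hw', mul_smul, hz2, hak, hdl]
        module
    obtain ⟨z, hz, hz'⟩ := hUC k hk l hl h1
    have hz2 : ε₀ • z = t • (k - l) := hz'
    have h2 : R * (1 - δ / 2) ^ i * ε₀ ≤ ε := by
      have h3 := hr0 i
      have h4 := hr1 i
      have h5 : R * (1 - δ / 2) ^ i ≤ 1 + δ / 4 := by nlinarith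
      exact (mul_le_mul_of_nonneg_right h5 hε₀).trans hεε
    obtain ⟨w, hw, hw'⟩ := eg_smul hKconv hKs
      (s := R * (1 - δ / 2) ^ i * ε₀) (t := ε)
      (mul_nonneg (mul_nonneg (by linarith) (hr0 i).le) hε₀) h2 hε hz
    refine ⟨w, hw, g - g', ?_, ?_⟩
    · have h3 := eg_add hg (neg_mem_G hg')
      rw [← sub_eq_add_neg] at h3
      refine G_mono ?_ h3
      have h4 := hcle (i + 1) (by omega)
      have h5 : eg_seq R c₁ (i + 1) = R * eg_seq R c₁ i + c₁ := rfl
      linarith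
    · rw [← hw', mul_smul, hz2, hak, hdl]
      module

/-- the choice of the parameters -/
lemma egw_param {Λ δ : ℝ} (hΛ : 0 ≤ Λ) (hδ : 0 < δ) (hδ1 : δ ≤ 1) :
    ∃ m J : ℕ, 5 ≤ m ∧ 5 / (m:ℝ) ≤ δ / 4 ∧ (1 - δ / 2) ^ J ≤ Real.exp (-Λ) ∧
      (m:ℝ) ≤ 21 * ((1 + Λ) / δ) ∧
      2 * ((J + 1 : ℕ) * (3 * Real.exp 1) * (1 + 5 / (m:ℝ)) ^ (J + 1)) ≤
        54 * ((1 + Λ) / δ) := by
  set D := (1 + Λ) / δ with hD
  have hD1 : 1 ≤ D := by rw [hD, le_div_iff₀ hδ]; linarith
  set k := ⌈20 * D⌉₊ with hk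
  set J := ⌈2 / δ * Λ⌉₊ with hJ
  have hk1 : 20 * D ≤ k := Nat.le_ceil _
  have hk2 : (k:ℝ) < 20 * D + 1 := Nat.ceil_lt_add_one (by positivity)
  have hk0 : (0:ℝ) < k := by linarith
  have hJ1 : 2 / δ * Λ ≤ J := Nat.le_ceil _
  have hJ2 : (J:ℝ) < 2 / δ * Λ + 1 := Nat.ceil_lt_add_one (by positivity)
  have hDδ : D * δ = 1 + Λ := by rw [hD]; field_simp
  have hη : 5 / ((k:ℝ)) ≤ δ / 4 := by
    rw [div_le_div_iff₀ hk0 (by norm_num)]
    have h1 : 20 * D * δ ≤ k * δ := mul_le_mul_of_nonneg_right hk1 hδ.le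
    nlinarith
  refine ⟨k, J, ?_, hη, ?_, by linarith, ?_⟩
  · have : (5:ℝ) ≤ k := by linarith
    exact_mod_cast this
  · have h1 : 1 - δ / 2 ≤ Real.exp (-(δ / 2)) := by
      have := Real.add_one_le_exp (-(δ / 2))
      linarith
    calc (1 - δ / 2) ^ J ≤ Real.exp (-(δ / 2)) ^ J := pow_le_pow_left₀ (by linarith) h1 J
      _ = Real.exp (-(J * (δ / 2))) := by rw [← Real.exp_nat_mul]; congr 1; ring
      _ ≤ Real.exp (-Λ) := by
          apply Real.exp_le_exp.2
          have h2 : 2 / δ * Λ * (δ / 2) ≤ J * (δ / 2) := mul_le_mul_of_nonneg_right hJ1 (by positivity)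
          have h3 : 2 / δ * Λ * (δ / 2) = Λ := by field_simp
          linarith
  · have hJD : (J:ℝ) + 1 ≤ 2 * D := by
      have h4 : (2:ℝ) ≤ 2 / δ := by rw [le_div_iff₀ hδ]; linarith
      have h5 : 2 * D = 2 / δ * Λ + 2 / δ := by rw [hD]; ring
      linarith
    have h1 : (1 + 5 / (k:ℝ)) ^ (J + 1) ≤ 1.65 := by
      have h2 : 1 + 5 / (k:ℝ) ≤ Real.exp (5 / (k:ℝ)) := by
        have := Real.add_one_le_exp (5 / (k:ℝ))
        linarith
      have h4 : Real.exp (1 / 2) ≤ 1.65 := by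
        have h5 : Real.exp (1 / 2) ^ 2 = Real.exp 1 := by rw [← Real.exp_nat_mul]; norm_num
        have h6 := Real.exp_one_lt_d9
        have h7 : Real.exp (1 / 2) ^ 2 ≤ 1.65 ^ 2 := by rw [h5]; linarith
        exact (pow_le_pow_iff_left₀ (Real.exp_pos _).le (by norm_num) (by norm_num)).1 h7
      calc (1 + 5 / (k:ℝ)) ^ (J + 1) ≤ Real.exp (5 / (k:ℝ)) ^ (J + 1) :=
            pow_le_pow_left₀ (by positivity) h2 _
        _ = Real.exp (((J + 1 : ℕ) : ℝ) * (5 / (k:ℝ))) := by rw [← Real.exp_nat_mul]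
        _ ≤ Real.exp (1 / 2) := by
            apply Real.exp_le_exp.2
            push_cast
            rw [← mul_div_assoc, div_le_iff₀ hk0]
            linarith
        _ ≤ 1.65 := h4
    have h2 := Real.exp_one_lt_d9
    have h3 := Real.exp_pos 1
    push_cast
    calc 2 * (((J:ℝ) + 1) * (3 * Real.exp 1) * (1 + 5 / (k:ℝ)) ^ (J + 1))
        ≤ 2 * ((2 * D) * (3 * 2.7182818286) * 1.65) := by
          apply mul_le_mul_of_nonneg_left _ (by norm_num)
          apply mul_le_mul _ h1 (by positivity) (by positivity)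
          apply mul_le_mul hJD _ (by positivity) (by positivity)
          linarith
      _ ≤ 54 * D := by nlinarith

/-- log-concavity for closed sets, in terms of real numbers -/
lemma lc_closed_real [IsProbabilityMeasure μ] (hlc : LC μ) {S T U : Set (E n)}
    (hS : IsClosed S) (hT : IsClosed T) {t : ℝ} (ht0 : 0 < t) (ht1 : t < 1)
    (hU : ∀ x ∈ S, ∀ y ∈ T, t • x + (1 - t) • y ∈ U) :
    μ.real S ^ t * μ.real T ^ (1 - t) ≤ μ.real U := by
  have key := hlc.closed hS hT ht0 ht1 hU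
  have key2 := ENNReal.toReal_mono (measure_ne_top μ _) key
  rw [ENNReal.toReal_mul, ← ENNReal.toReal_rpow, ← ENNReal.toReal_rpow] at key2
  exact key2

/-- the bound for the centroid body in the weighted iteration -/
lemma egw_const {m : ℕ} {p w D t q : ℝ} (hm5 : 5 ≤ m) (hp : 2 ≤ p) (hw : 0 ≤ w) (hD : 1 ≤ D)
    (ht : 0 ≤ t) (hm : (m:ℝ) ≤ 21 * D) (hq : q = w + p + 10) :
    2 * Real.exp 2 * (12 * (m:ℝ) * (q + 3 * Real.log m + 5) / p) * (t * (54 * D)) ≤
      3000000 * t * D ^ 2 * (1 + (w + Real.log D) / p) := by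
  have hp0 : 0 < p := by linarith
  have hD0 : 0 < D := by linarith
  have hmr : (5:ℝ) ≤ m := by exact_mod_cast hm5
  have hlD : 0 ≤ Real.log D := Real.log_nonneg hD
  have h0 : 0 ≤ Real.log m := Real.log_nonneg (by linarith)
  have h1 : Real.log m ≤ 3.05 + Real.log D := by
    have h2 : Real.log m ≤ Real.log (21 * D) := Real.log_le_log (by linarith) hm
    have h3 : Real.log (21 * D) = Real.log 21 + Real.log D := by
      rw [Real.log_mul (by norm_num) hD0.ne']
    have h4 : Real.log 21 ≤ 3.05 := by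
      rw [Real.log_le_iff_le_exp (by norm_num)]
      have h5 : Real.exp 3.05 = Real.exp 1 ^ 3 * Real.exp 0.05 := by
        rw [← Real.exp_nat_mul, ← Real.exp_add]; norm_num
      have h6 : (2.7182818283:ℝ) ^ 3 ≤ Real.exp 1 ^ 3 := by
        have := Real.exp_one_gt_d9
        gcongr
      have h7 := Real.add_one_le_exp (0.05:ℝ)
      have h8 : (21:ℝ) ≤ 2.7182818283 ^ 3 * (0.05 + 1) := by norm_num
      rw [h5]
      refine h8.trans ?_
      gcongr
    linarith
  have h2 : Real.exp 2 ≤ 7.3891 := by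
    have h3 : Real.exp 2 = Real.exp 1 ^ 2 := by rw [← Real.exp_nat_mul]; norm_num
    have h4 := Real.exp_one_lt_d9
    have h5 : Real.exp 1 ^ 2 ≤ 2.7182818286 ^ 2 := by gcongr
    rw [h3]
    refine h5.trans ?_
    norm_num
  have h3 : 12 * (m:ℝ) * (q + 3 * Real.log m + 5) / p ≤
      252 * D * (13.1 * (1 + (w + Real.log D) / p)) := by
    rw [div_le_iff₀ hp0]
    have h4 : 13.1 * (1 + (w + Real.log D) / p) * p = 13.1 * (p + (w + Real.log D)) := by
      field_simp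
    have h5 : q + 3 * Real.log m + 5 ≤ 13.1 * (p + (w + Real.log D)) := by
      rw [hq]; linarith
    calc 12 * (m:ℝ) * (q + 3 * Real.log m + 5)
        ≤ 12 * (21 * D) * (13.1 * (p + (w + Real.log D))) := by
          apply mul_le_mul _ h5 (by rw [hq]; linarith) (by positivity)
          linarith
      _ = 252 * D * (13.1 * (1 + (w + Real.log D) / p)) * p := by
          rw [← h4]; ring
  have h6 : 0 ≤ 1 + (w + Real.log D) / p := by positivity
  calc 2 * Real.exp 2 * (12 * (m:ℝ) * (q + 3 * Real.log m + 5) / p) * (t * (54 * D))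
      ≤ 2 * 7.3891 * (252 * D * (13.1 * (1 + (w + Real.log D) / p))) * (t * (54 * D)) := by
        apply mul_le_mul_of_nonneg_right _ (by positivity)
        apply mul_le_mul _ h3 (by rw [hq]; positivity) (by norm_num)
        linarith
    _ = (2 * 7.3891 * 252 * 13.1 * 54) * (t * D ^ 2 * (1 + (w + Real.log D) / p)) := by ring
    _ ≤ 3000000 * (t * D ^ 2 * (1 + (w + Real.log D) / p)) := by
        apply mul_le_mul_of_nonneg_right _ (by positivity)
        norm_num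
    _ = _ := by ring

/-- half sums -/
lemma egw_half [IsProbabilityMeasure μ] (hlc : LC μ) {N M H A₁ : Set (E n)}
    (hHm : MeasurableSet H) (hMc : IsCompact M) (hA₁c : IsCompact A₁) {a q : ℝ} (hpos : 0 < a)
    (hNμ : μ.real N ≤ 5 * Real.exp (-q)) (hA₁m : a / 4 < μ.real A₁)
    (hz : ∀ x ∈ A₁, ∀ d ∈ Hᶜ ∩ M, (1 / 2 : ℝ) • x + (1 - 1 / 2 : ℝ) • d ∈ N) :
    μ.real (Hᶜ ∩ M) ≤ 100 * Real.exp (-(2 * q)) / a := by
  have key : ∀ D₁ : Set (E n), D₁ ⊆ Hᶜ ∩ M → IsCompact D₁ →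
      μ.real D₁ ≤ 100 * Real.exp (-(2 * q)) / a := by
    intro D₁ hD₁ hD₁c
    have h1 := lc_closed_real hlc hA₁c.isClosed hD₁c.isClosed (t := 1 / 2) (by norm_num)
      (by norm_num) (U := N) (fun x hx d hd => hz x hx d (hD₁ hd))
    have e1 : (1 - 1 / 2 : ℝ) = 1 / 2 := by norm_num
    rw [e1, ← Real.sqrt_eq_rpow, ← Real.sqrt_eq_rpow,
      ← Real.sqrt_mul measureReal_nonneg] at h1
    have h2 : Real.sqrt (μ.real A₁ * μ.real D₁) ≤ 5 * Real.exp (-q) := h1.trans hNμ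
    have h3 : μ.real A₁ * μ.real D₁ = Real.sqrt (μ.real A₁ * μ.real D₁) ^ 2 :=
      (Real.sq_sqrt (mul_nonneg measureReal_nonneg measureReal_nonneg)).symm
    have h4 : μ.real A₁ * μ.real D₁ ≤ 25 * Real.exp (-(2 * q)) := by
      rw [h3]
      calc Real.sqrt (μ.real A₁ * μ.real D₁) ^ 2 ≤ (5 * Real.exp (-q)) ^ 2 :=
            pow_le_pow_left₀ (Real.sqrt_nonneg _) h2 2
        _ = 25 * Real.exp (-(2 * q)) := by
            rw [mul_pow, ← Real.exp_nat_mul]
            norm_num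
    rw [le_div_iff₀ hpos]
    have h5 : 0 ≤ μ.real D₁ := measureReal_nonneg
    nlinarith
  by_contra hcon
  push Not at hcon
  obtain ⟨D₁, hD₁, hD₁c, hD₁m⟩ := Pool.WS.exists_compact_real
    (hHm.compl.inter hMc.measurableSet) hcon
  have := key D₁ hD₁ hD₁c
  linarith

/-- comparison of the logarithms -/
lemma egw_log {a b w : ℝ} (ha : 1 / 2 ≤ a) (hb : 0 < b) (hexpw : Real.exp (-w) = a * b) :
    w ≤ Real.log (1 / b) + 1 ∧ Real.exp (-Real.log (1 / b)) = b := by
  have hexpv : Real.exp (-Real.log (1 / b)) = b := by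
    rw [one_div, Real.log_inv, neg_neg, Real.exp_log hb]
  refine ⟨?_, hexpv⟩
  have h1 : Real.exp (-(Real.log (1 / b) + 1)) ≤ Real.exp (-w) := by
    rw [hexpw, neg_add, Real.exp_add, hexpv]
    have h2 : Real.exp (-1) ≤ 1 / 2 := by
      have h3 := Real.exp_one_gt_d9
      rw [Real.exp_neg, inv_le_comm₀ (Real.exp_pos _) (by norm_num)]
      norm_num
      linarith
    nlinarith
  have := Real.exp_le_exp.1 h1
  linarith

/-- large sets -/
lemma egw_large [IsProbabilityMeasure μ] (hlc : LC μ) {A N M H A₁ : Set (E n)}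
    (hAm : MeasurableSet A) (hHm : MeasurableSet H) (hMc : IsCompact M) (hA₁c : IsCompact A₁)
    {a w p σ : ℝ} (ha : a = μ.real A) (hcase : 1 / 2 ≤ a) (hlt : a < 1)
    (hexpw : Real.exp (-w) = a * (1 - a)) (hp : 2 ≤ p) (hσ : 0 < σ) (hσ2 : σ ≤ 1 / 2)
    (hw20 : 20 * p ≤ σ * w) (hNμ : μ.real N ≤ 5 / 1000 * (a * (1 - a)))
    (hA₁m : a / 4 < μ.real A₁)
    (hz : ∀ x ∈ A₁, ∀ d ∈ Hᶜ ∩ M, σ • x + (1 - σ) • d ∈ Aᶜ ∪ N) :
    μ.real (Hᶜ ∩ M) ≤ (1 - a) * Real.exp (-p - 3) := by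
  have hσ1 : 0 < 1 - σ := by linarith
  have hc0 : 0 < 1 - a := by linarith
  have hcA : μ.real Aᶜ = 1 - a := by
    rw [measureReal_compl hAm]; simp [ha]
  obtain ⟨hwv, hexpv⟩ := egw_log hcase hc0 hexpw
  set v := Real.log (1 / (1 - a)) with hv
  have hσv : 20 * p - 1 ≤ σ * v := by
    have h1 : σ * w ≤ σ * (v + 1) := mul_le_mul_of_nonneg_left hwv hσ.le
    nlinarith
  have key : ∀ D₁ : Set (E n), D₁ ⊆ Hᶜ ∩ M → IsCompact D₁ →
      μ.real D₁ ≤ (1 - a) * Real.exp (-p - 3) := by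
    intro D₁ hD₁ hD₁c
    have h1 := lc_closed_real hlc hA₁c.isClosed hD₁c.isClosed (t := σ) hσ
      (by linarith) (U := Aᶜ ∪ N) (fun x hx d hd => hz x hx d (hD₁ hd))
    by_contra hcon
    push Not at hcon
    have h2 : μ.real (Aᶜ ∪ N) ≤ 1.01 * (1 - a) := by
      have h3 := measureReal_union_le (μ := μ) Aᶜ N
      rw [hcA] at h3
      nlinarith
    have h3 : (1 / 8 : ℝ) ≤ μ.real A₁ ^ σ := by
      calc (1 / 8 : ℝ) = (1 / 8 : ℝ) ^ (1:ℝ) := (Real.rpow_one _).symm
        _ ≤ (1 / 8 : ℝ) ^ σ :=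
            Real.rpow_le_rpow_of_exponent_ge (by norm_num) (by norm_num) (by linarith)
        _ ≤ μ.real A₁ ^ σ := Real.rpow_le_rpow (by norm_num) (by linarith) hσ.le
    have h4 : Real.exp (-v) * Real.exp (19 * p - 4) ≤ μ.real D₁ ^ (1 - σ) := by
      calc Real.exp (-v) * Real.exp (19 * p - 4) = Real.exp (-v + (19 * p - 4)) := by
            rw [Real.exp_add]
        _ ≤ Real.exp ((-v + (-p - 3)) * (1 - σ)) := by
            apply Real.exp_le_exp.2
            nlinarith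
        _ = Real.exp (-v + (-p - 3)) ^ (1 - σ) := by rw [← Real.exp_mul]
        _ ≤ μ.real D₁ ^ (1 - σ) := by
            apply Real.rpow_le_rpow (Real.exp_pos _).le _ hσ1.le
            rw [Real.exp_add, hexpv]
            exact hcon.le
    have h5 : (1 / 8) * (Real.exp (-v) * Real.exp (19 * p - 4)) ≤ 1.01 * (1 - a) :=
      (mul_le_mul h3 h4 (by positivity) (by positivity)).trans (h1.trans h2)
    rw [hexpv] at h5
    have h6 : (34:ℝ) ≤ Real.exp (19 * p - 4) := by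
      have := Real.add_one_le_exp (19 * p - 4)
      linarith
    nlinarith
  by_contra hcon
  push Not at hcon
  obtain ⟨D₁, hD₁, hD₁c, hD₁m⟩ := Pool.WS.exists_compact_real
    (hHm.compl.inter hMc.measurableSet) hcon
  have := key D₁ hD₁ hD₁c
  linarith

/-- small sets -/
lemma egw_small [IsProbabilityMeasure μ] (hlc : LC μ) {N M H A₁ : Set (E n)}
    (hMc : IsCompact M) (hA₁c : IsCompact A₁)
    {a w p σ : ℝ} (hpos : 0 < a) (hcase : a ≤ 1 / 2)
    (hexpw : Real.exp (-w) = a * (1 - a)) (hp : 2 ≤ p) (hσ : 0 < σ) (hσ2 : σ ≤ 1 / 2)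
    (hw20 : 20 * p ≤ σ * w) (hNμ : μ.real N ≤ 5 / 1000 * (a * (1 - a)))
    (hMr : 1 / 2 ≤ μ.real M) (hA₁m : a / 4 < μ.real A₁)
    (hz : ∀ x ∈ M, ∀ y ∈ A₁, σ • x + (1 - σ) • y ∈ H ∪ N) :
    4 * Real.exp p * a ≤ μ.real H := by
  have hσ1 : 0 < 1 - σ := by linarith
  obtain ⟨hwv, hexpv⟩ := egw_log (a := 1 - a) (b := a) (by linarith) hpos
    (by rw [hexpw]; ring)
  set v := Real.log (1 / a) with hv
  have hσv : 20 * p - 1 ≤ σ * v := by
    have h1 : σ * w ≤ σ * (v + 1) := mul_le_mul_of_nonneg_left hwv hσ.le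
    nlinarith
  have h1 := lc_closed_real hlc hMc.isClosed hA₁c.isClosed (t := σ) hσ
    (by linarith) (U := H ∪ N) hz
  have h2 : μ.real (H ∪ N) ≤ μ.real H + 5 / 1000 * a := by
    have h3 := measureReal_union_le (μ := μ) H N
    nlinarith
  have h3 : (1 / 2 : ℝ) ≤ μ.real M ^ σ := by
    calc (1 / 2 : ℝ) = (1 / 2 : ℝ) ^ (1:ℝ) := (Real.rpow_one _).symm
      _ ≤ (1 / 2 : ℝ) ^ σ :=
          Real.rpow_le_rpow_of_exponent_ge (by norm_num) (by norm_num) (by linarith)
      _ ≤ μ.real M ^ σ := Real.rpow_le_rpow (by norm_num) hMr hσ.le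
  have h4 : Real.exp (-v) * Real.exp (20 * p - 3) ≤ μ.real A₁ ^ (1 - σ) := by
    calc Real.exp (-v) * Real.exp (20 * p - 3) = Real.exp (-v + (20 * p - 3)) := by
          rw [Real.exp_add]
      _ ≤ Real.exp ((-v + (-2)) * (1 - σ)) := by
          apply Real.exp_le_exp.2
          nlinarith
      _ = Real.exp (-v + (-2)) ^ (1 - σ) := by rw [← Real.exp_mul]
      _ ≤ μ.real A₁ ^ (1 - σ) := by
          apply Real.rpow_le_rpow (Real.exp_pos _).le _ hσ1.le
          rw [Real.exp_add, hexpv]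
          have h5 : Real.exp (-2) ≤ 1 / 4 := by
            have h6 := Real.exp_one_gt_d9
            have h7 : Real.exp 2 = Real.exp 1 ^ 2 := by rw [← Real.exp_nat_mul]; norm_num
            have h8 : Real.exp (-2) * Real.exp 2 = 1 := by rw [← Real.exp_add]; simp
            have h9 : (4:ℝ) ≤ Real.exp 2 := by rw [h7]; nlinarith
            have h10 := Real.exp_pos (-2)
            nlinarith
          nlinarith
  have h5 : (1 / 2) * (Real.exp (-v) * Real.exp (20 * p - 3)) ≤ μ.real H + 5 / 1000 * a :=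
    (mul_le_mul h3 h4 (by positivity) (by positivity)).trans (h1.trans h2)
  rw [hexpv] at h5
  have h6 : Real.exp (20 * p - 3) = Real.exp p * Real.exp (19 * p - 3) := by
    rw [← Real.exp_add]; congr 1; ring
  have h7 : (35:ℝ) ≤ Real.exp (19 * p - 3) := by
    have := Real.add_one_le_exp (19 * p - 3)
    linarith
  have hp1 : 1 ≤ Real.exp p := by
    have := Real.add_one_le_exp p
    linarith
  rw [h6] at h5
  have h9 : a * (Real.exp p * 35) ≤ a * (Real.exp p * Real.exp (19 * p - 3)) :=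
    mul_le_mul_of_nonneg_left (mul_le_mul_of_nonneg_left h7 (Real.exp_pos _).le) hpos.le
  have h10 : a ≤ Real.exp p * a := le_mul_of_one_le_left hpos.le hp1
  nlinarith

/-- all Borel sets, up to a small multiple of a uniformly convex body of large measure:
the weighted form -/
theorem egw_main [IsProbabilityMeasure μ] (hsym : μ.map (fun x => -x) = μ) (hlc : LC μ)
    (hE : ∀ q : ℝ, 1 ≤ q → ∀ m : ℕ, 5 ≤ m →
      EnlP μ (1 + 5 / (m:ℝ)) (12 * m * (q + 3 * Real.log m + 5)) q)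
    {A K : Set (E n)} (hAm : MeasurableSet A)
    (hKc : IsCompact K) (hKconv : Convex ℝ K) (hKs : ∀ x ∈ K, -x ∈ K)
    (hK : min (μ.real A / 2) (1 / 4) ≤ μ.real K) {ε δ σ t : ℝ}
    (hε : 0 < ε) (hδ : 0 < δ) (hδ1 : δ ≤ 1) (hσ : 0 < σ) (hσ2 : σ ≤ 1 / 2)
    {p : ℝ} (hp : 2 ≤ p)
    (hst : (σ = 1 / 2 ∧ t = 1) ∨
      (t = σ ∧ 20 * p ≤ σ * Real.log (1 / (μ.real A * (1 - μ.real A)))))
    (hUC : ∀ x ∈ K, ∀ y ∈ K, (1 - σ) • x + σ • y ∉ (1 - δ) • K →
      ((1 + δ / 4) * t) • (x - y) ∈ ε • K) {s : ℝ}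
    (hs : 3000000 * t * ((1 + Real.log (1 + 4 * t / ε)) / δ) ^ 2 *
      (1 + (Real.log (1 / (μ.real A * (1 - μ.real A))) +
        Real.log ((1 + Real.log (1 + 4 * t / ε)) / δ)) / p) ≤ s) :
    2 * Real.exp p * μ.real A * (1 - μ.real (A + ε • K + G μ p s)) ≤
      (1 - μ.real A) * μ.real (A + ε • K + G μ p s) := by
  have hp0 : 0 < p := by linarith
  have ht : 0 < t := by
    rcases hst with h | h
    · rw [h.2]; norm_num
    · rw [h.1]; exact hσ
  set A' := A + ε • K + G μ p s with hA'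
  set a := μ.real A with ha
  set a' := μ.real A' with ha'
  have ha1 : a ≤ 1 := measureReal_le_one
  have ha'1 : a' ≤ 1 := measureReal_le_one
  have ha'0 : 0 ≤ a' := measureReal_nonneg
  set Λ := Real.log (1 + 4 * t / ε) with hΛ
  have hx : 0 < 4 * t / ε := by positivity
  have hΛ0 : 0 ≤ Λ := Real.log_nonneg (by linarith)
  have hexpΛ : Real.exp (-Λ) = 1 / (1 + 4 * t / ε) := by
    rw [Real.exp_neg, hΛ, Real.exp_log (by linarith), one_div]
  set D := (1 + Λ) / δ with hD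
  have hD1 : 1 ≤ D := by rw [hD, le_div_iff₀ hδ]; linarith
  have hlD : 0 ≤ Real.log D := Real.log_nonneg hD1
  rcases (measureReal_nonneg (μ := μ) (s := A)).eq_or_lt with h0 | hpos
  · rw [← ha] at h0
    rw [← h0]
    simpa using ha'0
  rw [← ha] at hpos
  have hKpos : 0 < μ.real K := lt_of_lt_of_le (lt_min (half_pos hpos) (by norm_num)) hK
  have hKne : K.Nonempty := by
    rw [nonempty_iff_ne_empty]
    intro h
    rw [h] at hKpos
    simp at hKpos
  obtain ⟨k₀, hk₀⟩ := hKne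
  have h0K : (0 : E n) ∈ K := by
    have h := hKconv hk₀ (hKs k₀ hk₀) (by norm_num : (0:ℝ) ≤ 1 / 2) (by norm_num : (0:ℝ) ≤ 1 / 2)
      (by norm_num)
    have e : (1 / 2 : ℝ) • k₀ + (1 / 2 : ℝ) • (-k₀) = 0 := by module
    rwa [e] at h
  set w := Real.log (1 / (a * (1 - a))) with hw
  have hw0' : 0 ≤ w := by
    rcases eq_or_ne (a * (1 - a)) 0 with h | h
    · rw [hw, h]; simp
    · have h1 : 0 < a * (1 - a) := lt_of_le_of_ne (mul_nonneg hpos.le (by linarith)) h.symm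
      apply Real.log_nonneg
      rw [le_div_iff₀ h1]
      nlinarith [sq_nonneg (a - 1 / 2)]
  have hs0 : 0 ≤ s := by
    refine le_trans ?_ hs
    have : 0 ≤ 1 + (w + Real.log D) / p := by positivity
    positivity
  have hAA' : A ⊆ A' := by
    intro x hx
    refine ⟨x + ε • 0, ⟨x, hx, ε • 0, ⟨0, h0K, rfl⟩, rfl⟩, 0, zero_mem_G hs0, ?_⟩
    simp
  have hle : a ≤ a' := measureReal_mono hAA' (measure_ne_top μ _)
  rcases ha1.eq_or_lt with h1 | hlt
  · have h2 : a' = 1 := by linarith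
    rw [h2, h1]; simp
  have hc0 : 0 < 1 - a := by linarith
  have hac : 0 < a * (1 - a) := mul_pos hpos hc0
  have hexpw : Real.exp (-w) = a * (1 - a) := by
    rw [hw, one_div, Real.log_inv, neg_neg, Real.exp_log hac]
  have hac4 : a * (1 - a) ≤ 1 / 4 := by nlinarith [sq_nonneg (a - 1 / 2)]
  set q := w + p + 10 with hq
  have hq1 : 1 ≤ q := by linarith
  obtain ⟨m, J, hm, hmδ, hJ', hm21, hpar⟩ := egw_param hΛ0 hδ hδ1
  have hJ : t * (1 - δ / 2) ^ J ≤ ε / 4 := by
    have h1 : t * (1 - δ / 2) ^ J ≤ t * (1 / (1 + 4 * t / ε)) := by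
      rw [← hexpΛ]
      exact mul_le_mul_of_nonneg_left hJ' ht.le
    have h2 : t * (1 / (1 + 4 * t / ε)) = t * ε / (ε + 4 * t) := by field_simp
    have h3 : t * ε / (ε + 4 * t) ≤ ε / 4 := by
      rw [div_le_div_iff₀ (by positivity) (by norm_num)]
      nlinarith
    linarith
  have hexpq : Real.exp (-q) = a * (1 - a) * Real.exp (-p - 10) := by
    rw [← hexpw, ← Real.exp_add]; congr 1; rw [hq]; ring
  have hsm : Real.exp (-p - 10) ≤ 1 / 1000 := by
    have h1 : Real.exp (-p - 10) ≤ Real.exp (-12) := Real.exp_le_exp.2 (by linarith)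
    have h2 : Real.exp (-12) * Real.exp 12 = 1 := by rw [← Real.exp_add]; simp
    have h3 : (1000:ℝ) ≤ Real.exp 12 := by
      have h4 : Real.exp 12 = Real.exp 1 ^ 12 := by rw [← Real.exp_nat_mul]; norm_num
      have h5 : (2:ℝ) ^ 12 ≤ Real.exp 1 ^ 12 := by
        have := Real.exp_one_gt_d9
        gcongr
        linarith
      rw [h4]
      refine le_trans ?_ h5
      norm_num
    have h4 := Real.exp_pos (-12)
    nlinarith
  have hsm0 := Real.exp_pos (-p - 10)
  have hKq : 5 * Real.exp (-q) ≤ μ.real K := by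
    refine le_trans (le_min ?_ ?_) hK
    · rw [hexpq]; nlinarith
    · rw [hexpq]; nlinarith
  have hmr : (5:ℝ) ≤ m := by exact_mod_cast hm
  have hm5 : 0 ≤ 5 / (m:ℝ) := by positivity
  obtain ⟨M, N, hMc, hNc, hMμ, hNμ, hM⟩ := egw_chain (σ := σ) (t := t) (ε₀ := ε / (1 + δ / 4))
    (by linarith) (hE q hq1 m hm) hKc hKconv hKs hε (by positivity)
    (le_of_eq (by field_simp)) hδ hδ1 hσ.le (by linarith) ht.le (by
      intro x hx y hy h
      obtain ⟨z, hz, hz'⟩ := hUC x hx y hy h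
      have hz2 : ε • z = ((1 + δ / 4) * t) • (x - y) := hz'
      refine ⟨z, hz, ?_⟩
      show (ε / (1 + δ / 4)) • z = t • (x - y)
      rw [div_eq_inv_mul, mul_smul, hz2, smul_smul, ← mul_assoc,
        inv_mul_cancel₀ (by positivity), one_mul]) hKq (by linarith) hJ hpar
  have hpL : p ≤ 12 * (m:ℝ) * (q + 3 * Real.log m + 5) := by
    have h0 : 0 ≤ Real.log m := Real.log_nonneg (by linarith)
    have h1 : p ≤ q + 3 * Real.log m + 5 := by rw [hq]; linarith
    nlinarith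
  have hGs : ∀ g ∈ G μ (12 * (m:ℝ) * (q + 3 * Real.log m + 5)) (54 * D), t • g ∈ G μ p s := by
    intro g hg
    have h1 := smul_mem_G ht.le hg
    exact G_subset hsym hlc (by linarith) hpL (by positivity)
      ((egw_const hm hp hw0' hD1 ht.le hm21 hq).trans hs) h1
  obtain ⟨H, hAH, hHm, hHμ⟩ := exists_measurable_superset μ A'
  have hHr : a' = μ.real H := by rw [ha']; simp [Measure.real, hHμ]
  have hcH : μ.real Hᶜ = 1 - μ.real H := by
    rw [measureReal_compl hHm]; simp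
  have hcA : μ.real Aᶜ = 1 - a := by
    rw [measureReal_compl hAm]; simp [ha]
  have hexpq2 : Real.exp (-q) ≤ a / 4 := by rw [hexpq]; nlinarith
  have hexpq3 : Real.exp (-q) ≤ 1 / 1000 * (a * (1 - a)) := by rw [hexpq]; nlinarith
  have hAM : a / 4 < μ.real (A ∩ M) := by
    have h1 : A ⊆ (A ∩ M) ∪ Mᶜ := by
      intro x hx
      by_cases hxM : x ∈ M
      · exact Or.inl ⟨hx, hxM⟩
      · exact Or.inr hxM
    have h2 := (measureReal_mono (μ := μ) h1 (measure_ne_top μ _)).trans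
      (measureReal_union_le _ _)
    linarith
  obtain ⟨A₁, hA₁A, hA₁c, hA₁m⟩ := Pool.WS.exists_compact_real (hAm.inter hMc.measurableSet) hAM
  have hDM : Hᶜ ⊆ (Hᶜ ∩ M) ∪ Mᶜ := by
    intro x hx
    by_cases hxM : x ∈ M
    · exact Or.inl ⟨hx, hxM⟩
    · exact Or.inr hxM
  have hDM' := (measureReal_mono (μ := μ) hDM (measure_ne_top μ _)).trans
    (measureReal_union_le _ _)
  have hpe : Real.exp p * Real.exp (-p - 10) = Real.exp (-10) := by
    rw [← Real.exp_add]; congr 1; ring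
  have h14 : Real.exp (-10) ≤ 1 / 100 := by
    have h3 : (2.5:ℝ) ≤ Real.exp 1 := by linarith [Real.exp_one_gt_d9]
    have h4 : Real.exp 10 = Real.exp 1 ^ 10 := by rw [← Real.exp_nat_mul]; norm_num
    have h5 : (2.5:ℝ) ^ 10 ≤ Real.exp 1 ^ 10 := by gcongr
    have h6 : (100:ℝ) ≤ Real.exp 10 := by rw [h4]; refine le_trans ?_ h5; norm_num
    have h7 : Real.exp (-10) * Real.exp 10 = 1 := by rw [← Real.exp_add]; simp
    have h8 := Real.exp_pos (-10)
    nlinarith
  have hN2 : μ.real N ≤ 5 / 1000 * (a * (1 - a)) := by linarith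
  rcases hst with ⟨hσ1, ht1⟩ | ⟨htσ, hw20⟩
  · -- half sums
    have hD : μ.real (Hᶜ ∩ M) ≤ 100 * Real.exp (-(2 * q)) / a := by
      refine egw_half hlc hHm hMc hA₁c hpos hNμ hA₁m ?_
      intro x hx d hd
      by_contra hcon
      obtain ⟨k, hk, g, hg, he⟩ := hM d hd.2 x (hA₁A hx).2 (by
        rw [hσ1, add_comm]; exact hcon)
      apply hd.1
      apply hAH
      refine ⟨x + ε • k, ⟨x, (hA₁A hx).1, ε • k, ⟨k, hk, rfl⟩, rfl⟩, t • g, hGs g hg, ?_⟩
      show x + ε • k + t • g = d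
      rw [add_assoc, ← he, ht1]
      module
    have h2q : 100 * Real.exp (-(2 * q)) / a ≤ Real.exp (-q) := by
      rw [div_le_iff₀ hpos]
      have h1 : Real.exp (-(2 * q)) = Real.exp (-q) * Real.exp (-q) := by
        rw [← Real.exp_add]; congr 1; ring
      rw [h1]
      have h2 : 100 * Real.exp (-q) ≤ a := by nlinarith
      have h3 := Real.exp_pos (-q)
      nlinarith
    have h9 : 1 - a' ≤ 2 * (a * (1 - a) * Real.exp (-p - 10)) := by
      rw [hHr, ← hcH, ← hexpq]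
      linarith
    have h10 : 1 / 2 ≤ a' := by nlinarith
    calc 2 * Real.exp p * a * (1 - a')
        ≤ 2 * Real.exp p * a * (2 * (a * (1 - a) * Real.exp (-p - 10))) :=
          mul_le_mul_of_nonneg_left h9 (by positivity)
      _ = 4 * (Real.exp p * Real.exp (-p - 10)) * (a * a * (1 - a)) := by ring
      _ ≤ 4 * (1 / 100) * (1 * (1 - a)) := by
          rw [hpe]
          apply mul_le_mul (by linarith) _ (by positivity) (by norm_num)
          apply mul_le_mul_of_nonneg_right _ hc0.le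
          nlinarith
      _ ≤ (1 - a) * a' := by nlinarith
  · rcases le_total (1 / 2) a with hcase | hcase
    · -- large sets
      have hD : μ.real (Hᶜ ∩ M) ≤ (1 - a) * Real.exp (-p - 3) := by
        refine egw_large hlc hAm hHm hMc hA₁c ha hcase hlt hexpw hp hσ hσ2 hw20 hN2 hA₁m ?_
        intro x hx d hd
        by_contra hcon
        rw [mem_union, not_or] at hcon
        obtain ⟨hcon1, hcon2⟩ := hcon
        obtain ⟨k, hk, g, hg, he⟩ := hM d hd.2 x (hA₁A hx).2 (by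
          rw [add_comm]; exact hcon2)
        apply hd.1
        apply hAH
        have hzA : σ • x + (1 - σ) • d ∈ A := by
          by_contra h
          exact hcon1 h
        refine ⟨(σ • x + (1 - σ) • d) + ε • k, ⟨_, hzA, ε • k, ⟨k, hk, rfl⟩, rfl⟩, t • g,
          hGs g hg, ?_⟩
        show (σ • x + (1 - σ) • d) + ε • k + t • g = d
        rw [add_assoc, ← he, htσ]
        module
      have h9 : 1 - a' ≤ (1 - a) * Real.exp (-p - 3) + (1 - a) * Real.exp (-p - 10) := by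
        rw [hHr, ← hcH]
        have h1 : Real.exp (-q) ≤ (1 - a) * Real.exp (-p - 10) := by
          rw [hexpq]
          apply mul_le_mul_of_nonneg_right _ hsm0.le
          nlinarith
        linarith
      have hpe3 : Real.exp p * Real.exp (-p - 3) = Real.exp (-3) := by
        rw [← Real.exp_add]; congr 1; ring
      have h3e : Real.exp (-3) ≤ 1 / 15 := by
        have h3 : (2.5:ℝ) ≤ Real.exp 1 := by linarith [Real.exp_one_gt_d9]
        have h4 : Real.exp 3 = Real.exp 1 ^ 3 := by rw [← Real.exp_nat_mul]; norm_num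
        have h5 : (2.5:ℝ) ^ 3 ≤ Real.exp 1 ^ 3 := by gcongr
        have h6 : (15:ℝ) ≤ Real.exp 3 := by rw [h4]; refine le_trans ?_ h5; norm_num
        have h7 : Real.exp (-3) * Real.exp 3 = 1 := by rw [← Real.exp_add]; simp
        have h8 := Real.exp_pos (-3)
        nlinarith
      have h10 : 1 / 2 ≤ a' := by linarith
      calc 2 * Real.exp p * a * (1 - a')
          ≤ 2 * Real.exp p * a * ((1 - a) * Real.exp (-p - 3) + (1 - a) * Real.exp (-p - 10)) :=
            mul_le_mul_of_nonneg_left h9 (by positivity)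
        _ = 2 * (Real.exp p * Real.exp (-p - 3) + Real.exp p * Real.exp (-p - 10)) *
              (a * (1 - a)) := by ring
        _ ≤ 2 * (1 / 15 + 1 / 100) * (1 * (1 - a)) := by
            rw [hpe, hpe3]
            apply mul_le_mul (by linarith) _ (by positivity) (by norm_num)
            exact mul_le_mul_of_nonneg_right ha1 hc0.le
        _ ≤ (1 - a) * a' := by nlinarith
    · -- small sets
      have hMr : 1 / 2 ≤ μ.real M := by
        have h3 : μ.real Mᶜ = 1 - μ.real M := by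
          rw [measureReal_compl hMc.measurableSet]; simp
        nlinarith
      have h8 : 4 * Real.exp p * a ≤ μ.real H := by
        refine egw_small hlc hMc hA₁c hpos hcase hexpw hp hσ hσ2 hw20 hN2 hMr hA₁m ?_
        intro x hx y hy
        by_contra hcon
        rw [mem_union, not_or] at hcon
        obtain ⟨hcon1, hcon2⟩ := hcon
        obtain ⟨k, hk, g, hg, he⟩ := hM y (hA₁A hy).2 x hx (by
          rw [add_comm]; exact hcon2)
        apply hcon1
        apply hAH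
        have hg2 := neg_mem_G (hGs g hg)
        refine ⟨y + ε • (-k), ⟨y, (hA₁A hy).1, ε • (-k), ⟨-k, hKs k hk, rfl⟩, rfl⟩, -(t • g),
          hg2, ?_⟩
        show y + ε • (-k) + -(t • g) = σ • x + (1 - σ) • y
        have h2 : y + ε • (-k) + -(t • g) = y - (ε • k + t • g) := by module
        rw [h2, ← he, htσ]
        module
      rw [← hHr] at h8
      calc 2 * Real.exp p * a * (1 - a') ≤ 2 * Real.exp p * a * 1 :=
            mul_le_mul_of_nonneg_left (by linarith) (by positivity)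
        _ ≤ 1 / 2 * a' := by linarith
        _ ≤ (1 - a) * a' := mul_le_mul_of_nonneg_right (by linarith) ha'0

end Pool.CIP
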