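import Pool.Agent.CIP.EGW

set_option autoImplicit false

open MeasureTheory Pointwise Set Filter Topology

namespace Pool.CIP

variable {n : ℕ} {μ : Measure (E n)}

/-- the absolute gap: a pair of points of `K` whose shrunk average is still far out can be
translated so that the average of the new pair is near the boundary of `K` -/
lemma egx_gap {K : Set (E n)} (hKc : IsCompact K) (hKconv : Convex ℝ K) (hKs : ∀ x ∈ K, -x ∈ K)
    {δ σ r r' R : ℝ} (hδ : 0 < δ) (hδ1 : δ ≤ 1) (hσ0 : 0 ≤ σ) (hσ1 : σ ≤ 1) (hr0 : 0 ≤ r)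
    (hr1 : r ≤ 1) (hr'0 : 0 ≤ r') (hrr' : r - δ / 2 ≤ r') (hR1 : 1 ≤ R) (hR : R ≤ 1 + δ / 4)
    {k l : E n} (hk : k ∈ K) (hl : l ∈ K) (hz : (R * r) • ((1 - σ) • k + σ • l) ∉ r' • K) :
    ∃ x ∈ K, ∃ y ∈ K, x - y = r • (k - l) ∧ (1 - σ) • x + σ • y ∉ (1 - δ) • K := by
  set ζ := (1 - σ) • k + σ • l with hζ
  have hζK : ζ ∈ K := hKconv hk hl (by linarith) hσ0 (by ring)
  have h0K : (0 : E n) ∈ K := by
    have h := hKconv hk (hKs k hk) (by norm_num : (0:ℝ) ≤ 1 / 2) (by norm_num : (0:ℝ) ≤ 1 / 2)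
      (by norm_num)
    have e : (1 / 2 : ℝ) • k + (1 / 2 : ℝ) • (-k) = 0 := by module
    rwa [e] at h
  have hζ0 : ζ ≠ 0 := by
    intro h
    apply hz
    rw [h, smul_zero]
    exact ⟨0, h0K, smul_zero _⟩
  set S : Set ℝ := {s : ℝ | s • ζ ∈ K} with hS
  have hSc : IsCompact S := by
    apply Metric.isCompact_of_isClosed_isBounded
    · exact hKc.isClosed.preimage (by fun_prop)
    · obtain ⟨C, hC⟩ := hKc.isBounded.exists_norm_le
      rw [isBounded_iff_forall_norm_le]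
      refine ⟨C / ‖ζ‖, fun s hs => ?_⟩
      rw [le_div_iff₀ (norm_pos_iff.2 hζ0), ← norm_smul]
      exact hC _ hs
  have h1S : (1:ℝ) ∈ S := by
    show (1:ℝ) • ζ ∈ K
    rw [one_smul]; exact hζK
  set lam := sSup S with hlam
  have hlamS : lam ∈ S := hSc.sSup_mem ⟨1, h1S⟩
  have hub : ∀ s ∈ S, s ≤ lam := fun s hs => le_csSup hSc.bddAbove hs
  have hlam1 : 1 ≤ lam := hub 1 h1S
  have hlow : ∀ s, 0 ≤ s → s ≤ lam → s • ζ ∈ K := by
    intro s hs hs'
    have h := hKconv (show lam • ζ ∈ K from hlamS) h0K (div_nonneg hs (by linarith : 0 ≤ lam))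
      (sub_nonneg.2 ((div_le_one (by linarith)).2 hs')) (by ring)
    rw [smul_zero, add_zero, smul_smul, div_mul_cancel₀ _ (by linarith : lam ≠ 0)] at h
    exact h
  have hrpos : 0 < r := by
    rcases hr0.eq_or_lt with h | h
    · exfalso
      apply hz
      rw [← h, mul_zero, zero_smul]
      exact ⟨0, h0K, smul_zero _⟩
    · exact h
  have hlt : r' * lam < R * r := by
    by_contra hcon
    push Not at hcon
    have hr'pos : 0 < r' := by
      rcases hr'0.eq_or_lt with h | h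
      · rw [← h, zero_mul] at hcon
        nlinarith
      · exact h
    apply hz
    refine ⟨(R * r / r') • ζ, hlow _ (by positivity) ?_, ?_⟩
    · rw [div_le_iff₀ hr'pos]; linarith
    · show r' • (R * r / r') • ζ = (R * r) • ζ
      rw [smul_smul, mul_div_cancel₀ _ hr'pos.ne']
  have hgap : (r - δ) * lam < r := by
    by_contra hcon
    push Not at hcon
    have h1 : 0 < r - δ := by
      by_contra h
      push Not at h
      nlinarith
    have h2 : (r - δ / 2) * lam < (1 + δ / 4) * r := by nlinarith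
    nlinarith
  refine ⟨r • k + (1 - r) • (lam • ζ), hKconv hk hlamS hr0 (by linarith) (by ring),
    r • l + (1 - r) • (lam • ζ), hKconv hl hlamS hr0 (by linarith) (by ring), by module, ?_⟩
  rintro ⟨v, hv, hv'⟩
  have hv2 : (1 - δ) • v = (r + (1 - r) * lam) • ζ := by
    have h1 : (1 - δ) • v = (1 - σ) • (r • k + (1 - r) • (lam • ζ)) +
      σ • (r • l + (1 - r) • (lam • ζ)) := hv'
    rw [h1, hζ]
    module
  have hpos : 0 < r + (1 - r) * lam := by nlinarith
  rcases hδ1.eq_or_lt with h | h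
  · rw [h, sub_self, zero_smul] at hv2
    exact (smul_ne_zero hpos.ne' hζ0) hv2.symm
  · have h1 : ((r + (1 - r) * lam) / (1 - δ)) • ζ = v := by
      rw [div_eq_inv_mul, mul_smul, ← hv2, smul_smul, inv_mul_cancel₀ (by linarith), one_smul]
    have h2 := hub _ (show ((r + (1 - r) * lam) / (1 - δ)) • ζ ∈ K by rw [h1]; exact hv)
    rw [div_le_iff₀ (by linarith)] at h2
    nlinarith

/-- the chain of bodies with radii in arithmetic progression -/
lemma egx_chain [IsProbabilityMeasure μ] {R L q : ℝ} (hR1 : 1 ≤ R)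
    (hE : EnlP μ R L q)
    {K : Set (E n)} (hKc : IsCompact K) (hKconv : Convex ℝ K) (hKs : ∀ x ∈ K, -x ∈ K)
    {ε ε₀ δ σ t : ℝ}
    (hε : 0 < ε) (hε₀ : 0 ≤ ε₀) (hεε : (1 + δ / 4) * ε₀ ≤ ε) (hδ : 0 < δ) (hδ1 : δ ≤ 1)
    (hσ0 : 0 ≤ σ) (hσ1 : σ ≤ 1)
    (hUC : ∀ x ∈ K, ∀ y ∈ K, (1 - σ) • x + σ • y ∉ (1 - δ) • K → t • (x - y) ∈ ε₀ • K)
    (hK : 5 * Real.exp (-q) ≤ μ.real K) {J : ℕ}
    (hRδ : R ≤ 1 + δ / 4) (hJ : 2 / δ ≤ J) {s : ℝ}
    (hs : 2 * ((J + 1 : ℕ) * (3 * Real.exp 1) * R ^ (J + 1)) ≤ s) :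
    ∃ M N : Set (E n), IsCompact M ∧ IsCompact N ∧ μ.real Mᶜ ≤ Real.exp (-q) ∧
      μ.real N ≤ 5 * Real.exp (-q) ∧
      ∀ x ∈ M, ∀ y ∈ M, (1 - σ) • x + σ • y ∉ N →
        ∃ k ∈ K, ∃ g ∈ G μ L s, t • (x - y) = ε • k + t • g := by
  set c₁ := 3 * Real.exp 1 with hc₁
  have hR0 : 0 ≤ R := by linarith
  have hc₁0 : 0 ≤ c₁ := by positivity
  have hcle : ∀ i ≤ J + 1, 2 * eg_seq R c₁ i ≤ s := by
    intro i hi
    refine le_trans ?_ hs
    have h1 := eg_seq_le hR1 hc₁0 i
    have h2 : (i:ℝ) * c₁ * R ^ i ≤ (J + 1 : ℕ) * c₁ * R ^ (J + 1) := by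
      apply mul_le_mul
      · apply mul_le_mul_of_nonneg_right _ hc₁0
        exact_mod_cast hi
      · exact pow_le_pow_right₀ hR1 hi
      · positivity
      · positivity
    linarith
  have hKne : K.Nonempty := by
    rw [nonempty_iff_ne_empty]
    intro h
    rw [h] at hK
    simp at hK
    have := Real.exp_pos (-q)
    linarith
  obtain ⟨k₀, hk₀⟩ := hKne
  have h0K : (0 : E n) ∈ K := by
    have h := hKconv hk₀ (hKs k₀ hk₀) (by norm_num : (0:ℝ) ≤ 1 / 2) (by norm_num : (0:ℝ) ≤ 1 / 2)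
      (by norm_num)
    have e : (1 / 2 : ℝ) • k₀ + (1 / 2 : ℝ) • (-k₀) = 0 := by module
    rwa [e] at h
  set r : ℕ → ℝ := fun i => max 0 (1 - i * (δ / 2)) with hr
  have hr0 : ∀ i : ℕ, 0 ≤ r i := fun i => le_max_left _ _
  have hr1 : ∀ i : ℕ, r i ≤ 1 := by
    intro i
    apply max_le (by norm_num)
    have : 0 ≤ (i:ℝ) * (δ / 2) := by positivity
    linarith
  have hrr : ∀ i : ℕ, r i - δ / 2 ≤ r (i + 1) := by
    intro i
    show max 0 (1 - (i:ℝ) * (δ / 2)) - δ / 2 ≤ max 0 (1 - ((i + 1 : ℕ):ℝ) * (δ / 2))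
    push_cast
    rcases le_total 0 (1 - (i:ℝ) * (δ / 2)) with h | h
    · rw [max_eq_right h]
      refine le_trans ?_ (le_max_right _ _)
      linarith
    · rw [max_eq_left h]
      refine le_trans ?_ (le_max_left _ _)
      linarith
  have hrJ : r J = 0 := by
    apply max_eq_left
    have h1 : 2 / δ * (δ / 2) ≤ J * (δ / 2) := mul_le_mul_of_nonneg_right hJ (by positivity)
    have h2 : 2 / δ * (δ / 2) = 1 := by field_simp
    linarith
  have hzero : 5 * Real.exp (-q) ≤ μ.real (r 0 • K + G μ L (eg_seq R c₁ 0)) := by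
    refine hK.trans (measureReal_mono ?_ (measure_ne_top μ _))
    intro x hx
    refine ⟨r 0 • x, ⟨x, hx, rfl⟩, 0, zero_mem_G le_rfl, ?_⟩
    show r 0 • x + 0 = x
    have : r 0 = 1 := by
      show max 0 (1 - ((0:ℕ):ℝ) * (δ / 2)) = 1
      norm_num
    rw [this, one_smul, add_zero]
  by_cases hall : ∀ i ≤ J, 5 * Real.exp (-q) ≤ μ.real (r i • K + G μ L (eg_seq R c₁ i))
  · -- the body disappears
    obtain ⟨M, hMc, hMμ, hM⟩ := egp_body hR0 hE hKc hKconv hKs (hall J le_rfl)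
    refine ⟨M, ∅, hMc, isCompact_empty, hMμ, by simp [Real.exp_nonneg], ?_⟩
    intro a ha d hd _
    obtain ⟨k, hk, g, hg, hak⟩ := hM a ha
    obtain ⟨l, hl, g', hg', hdl⟩ := hM d hd
    rw [hrJ, mul_zero, zero_smul, zero_add] at hak hdl
    refine ⟨0, h0K, g - g', ?_, ?_⟩
    · have h2 := eg_add hg (neg_mem_G hg')
      rw [← sub_eq_add_neg] at h2
      refine G_mono ?_ h2
      have h3 := hcle (J + 1) le_rfl
      have h4 : eg_seq R c₁ (J + 1) = R * eg_seq R c₁ J + c₁ := rfl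
      linarith
    · rw [smul_zero, zero_add, hak, hdl]
  · push Not at hall
    obtain ⟨i, hiJ, hi, hi1⟩ : ∃ i, i + 1 ≤ J ∧
        5 * Real.exp (-q) ≤ μ.real (r i • K + G μ L (eg_seq R c₁ i)) ∧
        μ.real (r (i + 1) • K + G μ L (eg_seq R c₁ (i + 1))) < 5 * Real.exp (-q) := by
      classical
      obtain ⟨j, hj⟩ := hall
      have hex : ∃ j, j ≤ J ∧ μ.real (r j • K + G μ L (eg_seq R c₁ j)) <
          5 * Real.exp (-q) := ⟨j, hj⟩
      have hspec := Nat.find_spec hex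
      have hmin : ∀ i < Nat.find hex, ¬ _ := fun i hi => Nat.find_min hex hi
      rcases hfind : Nat.find hex with _ | i
      · rw [hfind] at hspec
        exact absurd hspec.2 (not_lt.2 hzero)
      · rw [hfind] at hspec hmin
        refine ⟨i, hspec.1, ?_, hspec.2⟩
        have := hmin i (Nat.lt_succ_self i)
        by_contra hcon
        push Not at hcon
        exact this ⟨by omega, hcon⟩
    obtain ⟨M, hMc, hMμ, hM⟩ := egp_body hR0 hE hKc hKconv hKs hi
    refine ⟨M, r (i + 1) • K + G μ L (eg_seq R c₁ (i + 1)), hMc,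
      (hKc.smul _).add (isCompact_G _ _), hMμ, hi1.le, ?_⟩
    intro a ha d hd hcon
    obtain ⟨k, hk, g, hg, hak⟩ := hM a ha
    obtain ⟨l, hl, g', hg', hdl⟩ := hM d hd
    have h1 : (R * r i) • ((1 - σ) • k + σ • l) ∉ r (i + 1) • K := by
      intro hz
      apply hcon
      refine ⟨(R * r i) • ((1 - σ) • k + σ • l), hz, (1 - σ) • g + σ • g', ?_, ?_⟩
      · exact convex_G hg hg' (by linarith) hσ0 (by ring)
      · show (R * r i) • ((1 - σ) • k + σ • l) + ((1 - σ) • g + σ • g') = _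
        rw [hak, hdl]
        module
    obtain ⟨x, hx, y, hy, hxy, hout⟩ := egx_gap hKc hKconv hKs hδ hδ1 hσ0 hσ1 (hr0 i) (hr1 i)
      (hr0 (i + 1)) (hrr i) hR1 hRδ hk hl h1
    obtain ⟨z, hz, hz'⟩ := hUC x hx y hy hout
    have hz2 : ε₀ • z = t • (r i • (k - l)) := by rw [← hxy]; exact hz'
    have h2 : R * ε₀ ≤ ε := (mul_le_mul_of_nonneg_right hRδ hε₀).trans hεε
    obtain ⟨w, hw, hw'⟩ := eg_smul hKconv hKs (s := R * ε₀) (t := ε)
      (mul_nonneg hR0 hε₀) h2 hε hz
    refine ⟨w, hw, g - g', ?_, ?_⟩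
    · have h3 := eg_add hg (neg_mem_G hg')
      rw [← sub_eq_add_neg] at h3
      refine G_mono ?_ h3
      have h4 := hcle (i + 1) (by omega)
      have h5 : eg_seq R c₁ (i + 1) = R * eg_seq R c₁ i + c₁ := rfl
      linarith
    · rw [← hw', mul_smul, hz2, hak, hdl]
      module

/-- the choice of the parameters -/
lemma egx_param {δ : ℝ} (hδ : 0 < δ) (hδ1 : δ ≤ 1) :
    ∃ m J : ℕ, 5 ≤ m ∧ 5 / (m:ℝ) ≤ δ / 4 ∧ 2 / δ ≤ J ∧
      (m:ℝ) ≤ 21 * (1 / δ) ∧
      2 * ((J + 1 : ℕ) * (3 * Real.exp 1) * (1 + 5 / (m:ℝ)) ^ (J + 1)) ≤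
        178 * (1 / δ) := by
  set D := 1 / δ with hD
  have hD1 : 1 ≤ D := by rw [hD, le_div_iff₀ hδ]; linarith
  set k := ⌈20 * D⌉₊ with hk
  set J := ⌈2 / δ⌉₊ with hJ
  have hk1 : 20 * D ≤ k := Nat.le_ceil _
  have hk2 : (k:ℝ) < 20 * D + 1 := Nat.ceil_lt_add_one (by positivity)
  have hk0 : (0:ℝ) < k := by linarith
  have hJ1 : 2 / δ ≤ J := Nat.le_ceil _
  have hJ2 : (J:ℝ) < 2 / δ + 1 := Nat.ceil_lt_add_one (by positivity)
  have hDδ : D * δ = 1 := by rw [hD]; field_simp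
  have h2D : 2 / δ = 2 * D := by rw [hD]; ring
  have hη : 5 / ((k:ℝ)) ≤ δ / 4 := by
    rw [div_le_div_iff₀ hk0 (by norm_num)]
    have h1 : 20 * D * δ ≤ k * δ := mul_le_mul_of_nonneg_right hk1 hδ.le
    nlinarith
  refine ⟨k, J, ?_, hη, hJ1, by linarith, ?_⟩
  · have : (5:ℝ) ≤ k := by linarith
    exact_mod_cast this
  · have hJD : (J:ℝ) + 1 ≤ 4 * D := by linarith
    have hη0 : 0 ≤ 5 / (k:ℝ) := by positivity
    have h1 : (1 + 5 / (k:ℝ)) ^ (J + 1) ≤ Real.exp 1 := by
      have h2 : 1 + 5 / (k:ℝ) ≤ Real.exp (5 / (k:ℝ)) := by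
        have := Real.add_one_le_exp (5 / (k:ℝ))
        linarith
      calc (1 + 5 / (k:ℝ)) ^ (J + 1) ≤ Real.exp (5 / (k:ℝ)) ^ (J + 1) :=
            pow_le_pow_left₀ (by positivity) h2 _
        _ = Real.exp (((J + 1 : ℕ) : ℝ) * (5 / (k:ℝ))) := by rw [← Real.exp_nat_mul]
        _ ≤ Real.exp 1 := by
            apply Real.exp_le_exp.2
            push_cast
            calc ((J:ℝ) + 1) * (5 / (k:ℝ)) ≤ (4 * D) * (δ / 4) :=
                  mul_le_mul hJD hη hη0 (by positivity)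
              _ = 1 := by rw [← hDδ]; ring
    have h2 := Real.exp_one_lt_d9
    have h3 := Real.exp_pos 1
    push_cast
    calc 2 * (((J:ℝ) + 1) * (3 * Real.exp 1) * (1 + 5 / (k:ℝ)) ^ (J + 1))
        ≤ 2 * ((4 * D) * (3 * 2.7182818286) * 2.7182818286) := by
          apply mul_le_mul_of_nonneg_left _ (by norm_num)
          apply mul_le_mul _ (h1.trans h2.le) (by positivity) (by positivity)
          apply mul_le_mul hJD _ (by positivity) (by positivity)
          linarith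
      _ ≤ 178 * D := by nlinarith

/-- the bound for the centroid body in the weighted iteration -/
lemma egx_const {m : ℕ} {p w D t q : ℝ} (hm5 : 5 ≤ m) (hp : 2 ≤ p) (hw : 0 ≤ w) (hD : 1 ≤ D)
    (ht : 0 ≤ t) (hm : (m:ℝ) ≤ 21 * D) (hq : q = w + p + 10) :
    2 * Real.exp 2 * (12 * (m:ℝ) * (q + 3 * Real.log m + 5) / p) * (t * (178 * D)) ≤
      10000000 * t * D ^ 2 * (1 + (w + Real.log D) / p) := by
  have h1 := egw_const hm5 hp hw hD ht hm hq
  have hp0 : 0 < p := by linarith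
  have hlD : 0 ≤ Real.log D := Real.log_nonneg hD
  have h6 : 0 ≤ t * D ^ 2 * (1 + (w + Real.log D) / p) := by positivity
  have h2 : 2 * Real.exp 2 * (12 * (m:ℝ) * (q + 3 * Real.log m + 5) / p) * (t * (178 * D)) =
      (178 / 54) * (2 * Real.exp 2 * (12 * (m:ℝ) * (q + 3 * Real.log m + 5) / p) *
        (t * (54 * D))) := by ring
  rw [h2]
  calc (178 / 54) * (2 * Real.exp 2 * (12 * (m:ℝ) * (q + 3 * Real.log m + 5) / p) *
        (t * (54 * D))) ≤ (178 / 54) * (3000000 * t * D ^ 2 * (1 + (w + Real.log D) / p)) :=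
        mul_le_mul_of_nonneg_left h1 (by norm_num)
    _ = (178 / 54 * 3000000) * (t * D ^ 2 * (1 + (w + Real.log D) / p)) := by ring
    _ ≤ 10000000 * (t * D ^ 2 * (1 + (w + Real.log D) / p)) :=
        mul_le_mul_of_nonneg_right (by norm_num) h6
    _ = _ := by ring

/-- all Borel sets, up to a small multiple of a uniformly convex body of large measure:
the final form -/
theorem egx_main [IsProbabilityMeasure μ] (hsym : μ.map (fun x => -x) = μ) (hlc : LC μ)
    (hE : ∀ q : ℝ, 1 ≤ q → ∀ m : ℕ, 5 ≤ m →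
      EnlP μ (1 + 5 / (m:ℝ)) (12 * m * (q + 3 * Real.log m + 5)) q)
    {A K : Set (E n)} (hAm : MeasurableSet A)
    (hKc : IsCompact K) (hKconv : Convex ℝ K) (hKs : ∀ x ∈ K, -x ∈ K)
    (hK : min (μ.real A / 2) (1 / 4) ≤ μ.real K) {ε δ σ t : ℝ}
    (hε : 0 < ε) (hδ : 0 < δ) (hδ1 : δ ≤ 1) (hσ : 0 < σ) (hσ2 : σ ≤ 1 / 2)
    {p : ℝ} (hp : 2 ≤ p)
    (hst : (σ = 1 / 2 ∧ t = 1) ∨
      (t = σ ∧ 20 * p ≤ σ * Real.log (1 / (μ.real A * (1 - μ.real A)))))
    (hUC : ∀ x ∈ K, ∀ y ∈ K, (1 - σ) • x + σ • y ∉ (1 - δ) • K →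
      ((1 + δ / 4) * t) • (x - y) ∈ ε • K) {s : ℝ}
    (hs : 10000000 * t * (1 / δ) ^ 2 *
      (1 + (Real.log (1 / (μ.real A * (1 - μ.real A))) + Real.log (1 / δ)) / p) ≤ s) :
    2 * Real.exp p * μ.real A * (1 - μ.real (A + ε • K + G μ p s)) ≤
      (1 - μ.real A) * μ.real (A + ε • K + G μ p s) := by
  have hp0 : 0 < p := by linarith
  have ht : 0 < t := by
    rcases hst with h | h
    · rw [h.2]; norm_num
    · rw [h.1]; exact hσ
  set A' := A + ε • K + G μ p s with hA'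
  set a := μ.real A with ha
  set a' := μ.real A' with ha'
  have ha1 : a ≤ 1 := measureReal_le_one
  have ha'1 : a' ≤ 1 := measureReal_le_one
  have ha'0 : 0 ≤ a' := measureReal_nonneg
  set D := 1 / δ with hD
  have hD1 : 1 ≤ D := by rw [hD, le_div_iff₀ hδ]; linarith
  have hlD : 0 ≤ Real.log D := Real.log_nonneg hD1
  rcases (measureReal_nonneg (μ := μ) (s := A)).eq_or_lt with h0 | hpos
  · rw [← ha] at h0
    rw [← h0]
    simpa using ha'0
  rw [← ha] at hpos
  have hKpos : 0 < μ.real K := lt_of_lt_of_le (lt_min (half_pos hpos) (by norm_num)) hK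
  have hKne : K.Nonempty := by
    rw [nonempty_iff_ne_empty]
    intro h
    rw [h] at hKpos
    simp at hKpos
  obtain ⟨k₀, hk₀⟩ := hKne
  have h0K : (0 : E n) ∈ K := by
    have h := hKconv hk₀ (hKs k₀ hk₀) (by norm_num : (0:ℝ) ≤ 1 / 2) (by norm_num : (0:ℝ) ≤ 1 / 2)
      (by norm_num)
    have e : (1 / 2 : ℝ) • k₀ + (1 / 2 : ℝ) • (-k₀) = 0 := by module
    rwa [e] at h
  set w := Real.log (1 / (a * (1 - a))) with hw
  have hw0' : 0 ≤ w := by
    rcases eq_or_ne (a * (1 - a)) 0 with h | h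
    · rw [hw, h]; simp
    · have h1 : 0 < a * (1 - a) := lt_of_le_of_ne (mul_nonneg hpos.le (by linarith)) h.symm
      apply Real.log_nonneg
      rw [le_div_iff₀ h1]
      nlinarith [sq_nonneg (a - 1 / 2)]
  have hs0 : 0 ≤ s := by
    refine le_trans ?_ hs
    have : 0 ≤ 1 + (w + Real.log D) / p := by positivity
    positivity
  have hAA' : A ⊆ A' := by
    intro x hx
    refine ⟨x + ε • 0, ⟨x, hx, ε • 0, ⟨0, h0K, rfl⟩, rfl⟩, 0, zero_mem_G hs0, ?_⟩
    simp
  have hle : a ≤ a' := measureReal_mono hAA' (measure_ne_top μ _)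
  rcases ha1.eq_or_lt with h1 | hlt
  · have h2 : a' = 1 := by linarith
    rw [h2, h1]; simp
  have hc0 : 0 < 1 - a := by linarith
  have hac : 0 < a * (1 - a) := mul_pos hpos hc0
  have hexpw : Real.exp (-w) = a * (1 - a) := by
    rw [hw, one_div, Real.log_inv, neg_neg, Real.exp_log hac]
  have hac4 : a * (1 - a) ≤ 1 / 4 := by nlinarith [sq_nonneg (a - 1 / 2)]
  set q := w + p + 10 with hq
  have hq1 : 1 ≤ q := by linarith
  obtain ⟨m, J, hm, hmδ, hJ, hm21, hpar⟩ := egx_param hδ hδ1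
  have hexpq : Real.exp (-q) = a * (1 - a) * Real.exp (-p - 10) := by
    rw [← hexpw, ← Real.exp_add]; congr 1; rw [hq]; ring
  have hsm : Real.exp (-p - 10) ≤ 1 / 1000 := by
    have h1 : Real.exp (-p - 10) ≤ Real.exp (-12) := Real.exp_le_exp.2 (by linarith)
    have h2 : Real.exp (-12) * Real.exp 12 = 1 := by rw [← Real.exp_add]; simp
    have h3 : (1000:ℝ) ≤ Real.exp 12 := by
      have h4 : Real.exp 12 = Real.exp 1 ^ 12 := by rw [← Real.exp_nat_mul]; norm_num
      have h5 : (2:ℝ) ^ 12 ≤ Real.exp 1 ^ 12 := by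
        have := Real.exp_one_gt_d9
        gcongr
        linarith
      rw [h4]
      refine le_trans ?_ h5
      norm_num
    have h4 := Real.exp_pos (-12)
    nlinarith
  have hsm0 := Real.exp_pos (-p - 10)
  have hKq : 5 * Real.exp (-q) ≤ μ.real K := by
    refine le_trans (le_min ?_ ?_) hK
    · rw [hexpq]; nlinarith
    · rw [hexpq]; nlinarith
  have hmr : (5:ℝ) ≤ m := by exact_mod_cast hm
  have hm5 : 0 ≤ 5 / (m:ℝ) := by positivity
  obtain ⟨M, N, hMc, hNc, hMμ, hNμ, hM⟩ := egx_chain (σ := σ) (t := t) (ε₀ := ε / (1 + δ / 4))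
    (by linarith) (hE q hq1 m hm) hKc hKconv hKs hε (by positivity)
    (le_of_eq (by field_simp)) hδ hδ1 hσ.le (by linarith) (by
      intro x hx y hy h
      obtain ⟨z, hz, hz'⟩ := hUC x hx y hy h
      have hz2 : ε • z = ((1 + δ / 4) * t) • (x - y) := hz'
      refine ⟨z, hz, ?_⟩
      show (ε / (1 + δ / 4)) • z = t • (x - y)
      rw [div_eq_inv_mul, mul_smul, hz2, smul_smul, ← mul_assoc,
        inv_mul_cancel₀ (by positivity), one_mul]) hKq (by linarith) hJ hpar
  have hpL : p ≤ 12 * (m:ℝ) * (q + 3 * Real.log m + 5) := by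
    have h0 : 0 ≤ Real.log m := Real.log_nonneg (by linarith)
    have h1 : p ≤ q + 3 * Real.log m + 5 := by rw [hq]; linarith
    nlinarith
  have hGs : ∀ g ∈ G μ (12 * (m:ℝ) * (q + 3 * Real.log m + 5)) (178 * D), t • g ∈ G μ p s := by
    intro g hg
    have h1 := smul_mem_G ht.le hg
    exact G_subset hsym hlc (by linarith) hpL (by positivity)
      ((egx_const hm hp hw0' hD1 ht.le hm21 hq).trans hs) h1
  obtain ⟨H, hAH, hHm, hHμ⟩ := exists_measurable_superset μ A'
  have hHr : a' = μ.real H := by rw [ha']; simp [Measure.real, hHμ]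
  have hcH : μ.real Hᶜ = 1 - μ.real H := by
    rw [measureReal_compl hHm]; simp
  have hcA : μ.real Aᶜ = 1 - a := by
    rw [measureReal_compl hAm]; simp [ha]
  have hexpq2 : Real.exp (-q) ≤ a / 4 := by rw [hexpq]; nlinarith
  have hexpq3 : Real.exp (-q) ≤ 1 / 1000 * (a * (1 - a)) := by rw [hexpq]; nlinarith
  have hAM : a / 4 < μ.real (A ∩ M) := by
    have h1 : A ⊆ (A ∩ M) ∪ Mᶜ := by
      intro x hx
      by_cases hxM : x ∈ M
      · exact Or.inl ⟨hx, hxM⟩
      · exact Or.inr hxM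
    have h2 := (measureReal_mono (μ := μ) h1 (measure_ne_top μ _)).trans
      (measureReal_union_le _ _)
    linarith
  obtain ⟨A₁, hA₁A, hA₁c, hA₁m⟩ := Pool.WS.exists_compact_real (hAm.inter hMc.measurableSet) hAM
  have hDM : Hᶜ ⊆ (Hᶜ ∩ M) ∪ Mᶜ := by
    intro x hx
    by_cases hxM : x ∈ M
    · exact Or.inl ⟨hx, hxM⟩
    · exact Or.inr hxM
  have hDM' := (measureReal_mono (μ := μ) hDM (measure_ne_top μ _)).trans
    (measureReal_union_le _ _)
  have hpe : Real.exp p * Real.exp (-p - 10) = Real.exp (-10) := by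
    rw [← Real.exp_add]; congr 1; ring
  have h14 : Real.exp (-10) ≤ 1 / 100 := by
    have h3 : (2.5:ℝ) ≤ Real.exp 1 := by linarith [Real.exp_one_gt_d9]
    have h4 : Real.exp 10 = Real.exp 1 ^ 10 := by rw [← Real.exp_nat_mul]; norm_num
    have h5 : (2.5:ℝ) ^ 10 ≤ Real.exp 1 ^ 10 := by gcongr
    have h6 : (100:ℝ) ≤ Real.exp 10 := by rw [h4]; refine le_trans ?_ h5; norm_num
    have h7 : Real.exp (-10) * Real.exp 10 = 1 := by rw [← Real.exp_add]; simp
    have h8 := Real.exp_pos (-10)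
    nlinarith
  have hN2 : μ.real N ≤ 5 / 1000 * (a * (1 - a)) := by linarith
  rcases hst with ⟨hσ1, ht1⟩ | ⟨htσ, hw20⟩
  · -- half sums
    have hD : μ.real (Hᶜ ∩ M) ≤ 100 * Real.exp (-(2 * q)) / a := by
      refine egw_half hlc hHm hMc hA₁c hpos hNμ hA₁m ?_
      intro x hx d hd
      by_contra hcon
      obtain ⟨k, hk, g, hg, he⟩ := hM d hd.2 x (hA₁A hx).2 (by
        rw [hσ1, add_comm]; exact hcon)
      apply hd.1
      apply hAH
      refine ⟨x + ε • k, ⟨x, (hA₁A hx).1, ε • k, ⟨k, hk, rfl⟩, rfl⟩, t • g, hGs g hg, ?_⟩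
      show x + ε • k + t • g = d
      rw [add_assoc, ← he, ht1]
      module
    have h2q : 100 * Real.exp (-(2 * q)) / a ≤ Real.exp (-q) := by
      rw [div_le_iff₀ hpos]
      have h1 : Real.exp (-(2 * q)) = Real.exp (-q) * Real.exp (-q) := by
        rw [← Real.exp_add]; congr 1; ring
      rw [h1]
      have h2 : 100 * Real.exp (-q) ≤ a := by nlinarith
      have h3 := Real.exp_pos (-q)
      nlinarith
    have h9 : 1 - a' ≤ 2 * (a * (1 - a) * Real.exp (-p - 10)) := by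
      rw [hHr, ← hcH, ← hexpq]
      linarith
    have h10 : 1 / 2 ≤ a' := by nlinarith
    calc 2 * Real.exp p * a * (1 - a')
        ≤ 2 * Real.exp p * a * (2 * (a * (1 - a) * Real.exp (-p - 10))) :=
          mul_le_mul_of_nonneg_left h9 (by positivity)
      _ = 4 * (Real.exp p * Real.exp (-p - 10)) * (a * a * (1 - a)) := by ring
      _ ≤ 4 * (1 / 100) * (1 * (1 - a)) := by
          rw [hpe]
          apply mul_le_mul (by linarith) _ (by positivity) (by norm_num)
          apply mul_le_mul_of_nonneg_right _ hc0.le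
          nlinarith
      _ ≤ (1 - a) * a' := by nlinarith
  · rcases le_total (1 / 2) a with hcase | hcase
    · -- large sets
      have hD : μ.real (Hᶜ ∩ M) ≤ (1 - a) * Real.exp (-p - 3) := by
        refine egw_large hlc hAm hHm hMc hA₁c ha hcase hlt hexpw hp hσ hσ2 hw20 hN2 hA₁m ?_
        intro x hx d hd
        by_contra hcon
        rw [mem_union, not_or] at hcon
        obtain ⟨hcon1, hcon2⟩ := hcon
        obtain ⟨k, hk, g, hg, he⟩ := hM d hd.2 x (hA₁A hx).2 (by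
          rw [add_comm]; exact hcon2)
        apply hd.1
        apply hAH
        have hzA : σ • x + (1 - σ) • d ∈ A := by
          by_contra h
          exact hcon1 h
        refine ⟨(σ • x + (1 - σ) • d) + ε • k, ⟨_, hzA, ε • k, ⟨k, hk, rfl⟩, rfl⟩, t • g,
          hGs g hg, ?_⟩
        show (σ • x + (1 - σ) • d) + ε • k + t • g = d
        rw [add_assoc, ← he, htσ]
        module
      have h9 : 1 - a' ≤ (1 - a) * Real.exp (-p - 3) + (1 - a) * Real.exp (-p - 10) := by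
        rw [hHr, ← hcH]
        have h1 : Real.exp (-q) ≤ (1 - a) * Real.exp (-p - 10) := by
          rw [hexpq]
          apply mul_le_mul_of_nonneg_right _ hsm0.le
          nlinarith
        linarith
      have hpe3 : Real.exp p * Real.exp (-p - 3) = Real.exp (-3) := by
        rw [← Real.exp_add]; congr 1; ring
      have h3e : Real.exp (-3) ≤ 1 / 15 := by
        have h3 : (2.5:ℝ) ≤ Real.exp 1 := by linarith [Real.exp_one_gt_d9]
        have h4 : Real.exp 3 = Real.exp 1 ^ 3 := by rw [← Real.exp_nat_mul]; norm_num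
        have h5 : (2.5:ℝ) ^ 3 ≤ Real.exp 1 ^ 3 := by gcongr
        have h6 : (15:ℝ) ≤ Real.exp 3 := by rw [h4]; refine le_trans ?_ h5; norm_num
        have h7 : Real.exp (-3) * Real.exp 3 = 1 := by rw [← Real.exp_add]; simp
        have h8 := Real.exp_pos (-3)
        nlinarith
      have h10 : 1 / 2 ≤ a' := by linarith
      calc 2 * Real.exp p * a * (1 - a')
          ≤ 2 * Real.exp p * a * ((1 - a) * Real.exp (-p - 3) + (1 - a) * Real.exp (-p - 10)) :=
            mul_le_mul_of_nonneg_left h9 (by positivity)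
        _ = 2 * (Real.exp p * Real.exp (-p - 3) + Real.exp p * Real.exp (-p - 10)) *
              (a * (1 - a)) := by ring
        _ ≤ 2 * (1 / 15 + 1 / 100) * (1 * (1 - a)) := by
            rw [hpe, hpe3]
            apply mul_le_mul (by linarith) _ (by positivity) (by norm_num)
            exact mul_le_mul_of_nonneg_right ha1 hc0.le
        _ ≤ (1 - a) * a' := by nlinarith
    · -- small sets
      have hMr : 1 / 2 ≤ μ.real M := by
        have h3 : μ.real Mᶜ = 1 - μ.real M := by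
          rw [measureReal_compl hMc.measurableSet]; simp
        nlinarith
      have h8 : 4 * Real.exp p * a ≤ μ.real H := by
        refine egw_small hlc hMc hA₁c hpos hcase hexpw hp hσ hσ2 hw20 hN2 hMr hA₁m ?_
        intro x hx y hy
        by_contra hcon
        rw [mem_union, not_or] at hcon
        obtain ⟨hcon1, hcon2⟩ := hcon
        obtain ⟨k, hk, g, hg, he⟩ := hM y (hA₁A hy).2 x hx (by
          rw [add_comm]; exact hcon2)
        apply hcon1
        apply hAH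
        have hg2 := neg_mem_G (hGs g hg)
        refine ⟨y + ε • (-k), ⟨y, (hA₁A hy).1, ε • (-k), ⟨-k, hKs k hk, rfl⟩, rfl⟩, -(t • g),
          hg2, ?_⟩
        show y + ε • (-k) + -(t • g) = σ • x + (1 - σ) • y
        have h2 : y + ε • (-k) + -(t • g) = y - (ε • k + t • g) := by module
        rw [h2, ← he, htσ]
        module
      rw [← hHr] at h8
      calc 2 * Real.exp p * a * (1 - a') ≤ 2 * Real.exp p * a * 1 :=
            mul_le_mul_of_nonneg_left (by linarith) (by positivity)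
        _ ≤ 1 / 2 * a' := by linarith
        _ ≤ (1 - a) * a' := mul_le_mul_of_nonneg_right (by linarith) ha'0

end Pool.CIP
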