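import Pool.Agent.CIP.W

set_option autoImplicit false

open MeasureTheory Pointwise Set Filter Topology

namespace Pool.CIP

variable {n : ℕ} {μ : Measure (E n)}

/-- an enlargement of a compact symmetric convex set -/
lemma exists_body [IsProbabilityMeasure μ] (hsym : μ.map (fun x => -x) = μ) (hlc : LC μ)
    {K : Set (E n)} (hKc : IsCompact K) (hKconv : Convex ℝ K) (hKs : ∀ x ∈ K, -x ∈ K) {q : ℝ}
    (hq : 1 ≤ q) (hK : 2 * Real.exp (-q) ≤ μ.real K) :
    ∃ W : Set (E n), IsCompact W ∧ 1 - Real.exp (-q) ≤ μ.real W ∧ (0 : E n) ∈ K ∧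
      (∀ y ∈ W, ∀ x ∈ K, ∃ k ∈ K, ∃ g ∈ G μ q (4 * Real.exp 23), y - x = (49:ℝ) • k + g) ∧
      (∀ y ∈ W, ∀ x ∈ W, ∃ k ∈ K, ∃ g ∈ G μ q (8 * Real.exp 23), y - x = (96:ℝ) • k + g) := by
  obtain ⟨A₁, h1, h2, _, h3, h0, _, h4⟩ := MT2a hsym hlc hKc.measurableSet hKconv hKs hq hK
  set W := (48:ℝ) • A₁ + G μ q (4 * Real.exp 23) with hW
  have hWc : IsCompact W := (h2.smul _).add (isCompact_G _ _)
  have hcW : μ.real Wᶜ = 1 - μ.real W := by
    rw [measureReal_compl hWc.measurableSet]
    simp
  refine ⟨W, hWc, by linarith, h1 h0, ?_, ?_⟩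
  · rintro _ ⟨_, ⟨b, hb, rfl⟩, g, hg, rfl⟩ x hx
    refine ⟨(48/49:ℝ) • b + (1/49:ℝ) • (-x), hKconv (h1 hb) (hKs x hx) (by norm_num) (by norm_num)
      (by norm_num), g, hg, ?_⟩
    show (48:ℝ) • b + g - x = (49:ℝ) • ((48/49:ℝ) • b + (1/49:ℝ) • (-x)) + g
    module
  · rintro _ ⟨_, ⟨b, hb, rfl⟩, g, hg, rfl⟩ _ ⟨_, ⟨c, hc, rfl⟩, f, hf, rfl⟩
    refine ⟨(1/2:ℝ) • b + (1/2:ℝ) • (-c), hKconv (h1 hb) (hKs c (h1 hc)) (by norm_num)
      (by norm_num) (by norm_num), g - f, ?_, ?_⟩
    · intro v
      rw [inner_sub_right]
      calc |inner ℝ v g - inner ℝ v f| ≤ |inner ℝ v g| + |inner ℝ v f| := abs_sub _ _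
        _ ≤ 4 * Real.exp 23 * hm μ q v + 4 * Real.exp 23 * hm μ q v := add_le_add (hg v) (hf v)
        _ = 8 * Real.exp 23 * hm μ q v := by ring
    · show (48:ℝ) • b + g - ((48:ℝ) • c + f) = (96:ℝ) • ((1/2:ℝ) • b + (1/2:ℝ) • (-c)) + (g - f)
      module

lemma smul_mem_G {q lam s : ℝ} (hs : 0 ≤ s) {g : E n} (hg : g ∈ G μ q lam) :
    s • g ∈ G μ q (s * lam) := by
  intro v
  rw [inner_smul_right, abs_mul, abs_of_nonneg hs, mul_assoc]
  exact mul_le_mul_of_nonneg_left (hg v) hs

lemma theta_bound {θ w W p b : ℝ} (hp : 0 < p) (h : 1000 * p ≤ θ * w) (hw0 : 0 ≤ w) (hw : w ≤ W)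
    (hb : b * W ≤ 1000 * p) (hW : 0 < W) : b ≤ θ := by
  by_contra hcon
  push Not at hcon
  rcases le_or_gt θ 0 with h0 | h0
  · have : θ * w ≤ 0 := mul_nonpos_of_nonpos_of_nonneg h0 hw0
    linarith
  · have h1 : θ * w ≤ θ * W := mul_le_mul_of_nonneg_left hw h0.le
    have h2 : θ * W < b * W := mul_lt_mul_of_pos_right hcon hW
    linarith

lemma log_inv_bounds {a W : ℝ} (ha : 0 < a) (ha1 : a < 1) (h : Real.exp (-W) ≤ a * (1 - a)) :
    0 ≤ Real.log (1 / (a * (1 - a))) ∧ Real.log (1 / (a * (1 - a))) ≤ W := by
  have h1 : 0 < a * (1 - a) := mul_pos ha (by linarith)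
  have h2 : a * (1 - a) ≤ 1 := by nlinarith
  rw [one_div, Real.log_inv]
  constructor
  · have := Real.log_nonpos h1.le h2
    linarith
  · have h3 := Real.log_le_log (Real.exp_pos _) h
    rw [Real.log_exp] at h3
    linarith

/-- optimal concentration for all Borel sets, up to a multiple of a convex body of large measure -/
theorem main_borel [IsProbabilityMeasure μ] (hsym : μ.map (fun x => -x) = μ) (hlc : LC μ)
    {A K : Set (E n)} (hAm : MeasurableSet A) (hKc : IsCompact K) (hKconv : Convex ℝ K)
    (hKs : ∀ x ∈ K, -x ∈ K) (hK : min (μ.real A / 2) (1 / 4) ≤ μ.real K)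
    {p : ℝ} (hp : 2 ≤ p) {θ : ℝ}
    (hθ : 100 ≤ θ ∨ 1000 * p ≤ θ * Real.log (1 / (μ.real A * (1 - μ.real A)))) :
    2 * Real.exp p * μ.real A * (1 - μ.real (A + θ • K + G μ p 7000000000000)) ≤
      (1 - μ.real A) * μ.real (A + θ • K + G μ p 7000000000000) := by
  have hp0 : 0 < p := by linarith
  set A' := A + θ • K + G μ p 7000000000000 with hA'
  set a := μ.real A with ha
  set a' := μ.real A' with ha'
  have ha1 : a ≤ 1 := measureReal_le_one
  have ha'1 : a' ≤ 1 := measureReal_le_one
  have ha'0 : 0 ≤ a' := measureReal_nonneg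
  rcases (measureReal_nonneg (μ := μ) (s := A)).eq_or_lt with h0 | hpos
  · rw [← ha] at h0
    rw [← h0]
    simpa using ha'0
  have hKpos : 0 < μ.real K := lt_of_lt_of_le (lt_min (half_pos hpos) (by norm_num)) hK
  have h0K : (0:E n) ∈ K := by
    obtain ⟨x, hx⟩ : K.Nonempty := by
      rw [nonempty_iff_ne_empty]
      intro h
      rw [h] at hKpos
      simp at hKpos
    have := hKconv hx (hKs x hx) (by norm_num : (0:ℝ) ≤ 1/2) (by norm_num : (0:ℝ) ≤ 1/2)
      (by norm_num)
    simpa using this
  have hep := Real.exp_pos p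
  have he1 := Real.exp_one_gt_d9
  have he2 : (4:ℝ) < Real.exp 2 := by
    have h6 : Real.exp 2 = Real.exp 1 * Real.exp 1 := by rw [← Real.exp_add]; norm_num
    rw [h6]; nlinarith
  have he3 : (16:ℝ) < Real.exp 3 := by
    have h6 : Real.exp 3 = Real.exp 1 ^ 3 := by rw [← Real.exp_nat_mul]; norm_num
    have h8 : (2.7182818283 : ℝ) ^ 3 ≤ Real.exp 1 ^ 3 := by gcongr
    have h7 : (16:ℝ) < 2.7182818283 ^ 3 := by norm_num
    rw [h6]; linarith
  have h25 := exp_25
  have hEE : Real.exp 2 * Real.exp 23 = Real.exp 25 := by rw [← Real.exp_add]; norm_num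
  -- membership in the enlargement
  have hmem : ∀ x ∈ A, ∀ k ∈ K, ∀ (c : ℝ), 0 ≤ c → c ≤ θ → 0 < θ →
      ∀ g ∈ G μ p 7000000000000, x + c • k + g ∈ A' := by
    intro x hx k hk c hc hcθ hθ0 g hg
    refine ⟨x + c • k, ⟨x, hx, c • k, ?_, rfl⟩, g, hg, rfl⟩
    exact smul_mem_dil hKconv h0K hc hcθ hθ0 hk
  set u := -Real.log a with hu
  have hau : a = Real.exp (-u) := by rw [hu, neg_neg, Real.exp_log hpos]
  have hu00 : 0 ≤ u := by
    have := Real.log_nonpos hpos.le ha1
    linarith
  rcases le_or_gt u (2 * p + 5) with hup | hup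
  · -- large or middle sets
    rcases le_or_gt (4 * Real.exp (-p - 8)) (1 - a) with hmid | hbig
    · -- middle
      have hq : 1 ≤ 2 * p + 8 := by linarith
      have hep8 := Real.exp_pos (-p - 8)
      have haq : 16 * Real.exp (-(2 * p + 8)) ≤ a := by
        have h1 : Real.exp (-(2 * p + 5)) ≤ a := by rw [hau]; exact Real.exp_le_exp.2 (by linarith)
        have h2 : Real.exp (-(2 * p + 5)) = Real.exp 3 * Real.exp (-(2 * p + 8)) := by
          rw [← Real.exp_add]; congr 1; ring
        have h3 := Real.exp_pos (-(2 * p + 8))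
        nlinarith
      have hq16 : Real.exp (-(2 * p + 8)) ≤ 1 / 16 := by
        have h3 : Real.exp (-(2 * p + 8)) ≤ Real.exp (-3) := Real.exp_le_exp.2 (by linarith)
        have h4 : Real.exp (-3) * Real.exp 3 = 1 := by rw [← Real.exp_add]; simp
        have h5 := Real.exp_pos (-3)
        nlinarith
      have hθ96 : 96 ≤ θ := by
        rcases hθ with h | h
        · linarith
        · have h1 : Real.exp (-(2 * p + 8)) ≤ a * (1 - a) := by
            have h2 : Real.exp (-(2 * p + 8)) = Real.exp (-p - 8) * Real.exp (-p) := by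
              rw [← Real.exp_add]; congr 1; ring
            have h3 : Real.exp (-p) ≤ 1 := by rw [Real.exp_le_one_iff]; linarith
            rcases le_or_gt (1 / 2) a with h4 | h4
            · nlinarith
            · nlinarith [Real.exp_pos (-(2 * p + 8))]
          obtain ⟨hw0, hw⟩ := log_inv_bounds hpos (by linarith) h1
          exact theta_bound hp0 h hw0 hw (by nlinarith) (by linarith)
      have hK2 : 2 * Real.exp (-(2 * p + 8)) ≤ μ.real K := by
        refine le_trans (le_min ?_ ?_) hK
        · have := Real.exp_pos (-(2 * p + 8))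
          linarith
        · linarith
      obtain ⟨W, hWc, hWμ, _, _, hWW⟩ := exists_body hsym hlc hKc hKconv hKs hq hK2
      have hcW : μ.real Wᶜ = 1 - μ.real W := by
        rw [measureReal_compl hWc.measurableSet]
        simp
      obtain ⟨a₀, ha₀, ha₀W⟩ : ∃ a₀ ∈ A, a₀ ∈ W := by
        by_contra hcon
        push Not at hcon
        have h1 : A ⊆ Wᶜ := fun x hx => hcon x hx
        have h2 := measureReal_mono (μ := μ) h1 (measure_ne_top μ _)
        have := Real.exp_pos (-(2 * p + 8))
        linarith
      have hsub : W ⊆ A' := by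
        intro y hy
        obtain ⟨k, hk, g, hg, hyk⟩ := hWW y hy a₀ ha₀W
        have e : y = a₀ + (96:ℝ) • k + g := by
          rw [add_assoc, ← hyk]; abel
        rw [e]
        refine hmem a₀ ha₀ k hk 96 (by norm_num) hθ96 (by linarith) g ?_
        refine G_subset hsym hlc (by linarith) (by linarith) (by positivity) ?_ hg
        have h1 : (2 * p + 8) / p ≤ 6 := by rw [div_le_iff₀ hp0]; linarith
        calc 2 * Real.exp 2 * ((2 * p + 8) / p) * (8 * Real.exp 23)
            ≤ 2 * Real.exp 2 * 6 * (8 * Real.exp 23) := by gcongr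
          _ = 96 * (Real.exp 2 * Real.exp 23) := by ring
          _ ≤ 7000000000000 := by rw [hEE]; linarith
      have hY' := measureReal_mono (μ := μ) hsub (measure_ne_top μ _)
      have h1 : 1 - a' ≤ Real.exp (-(2 * p + 8)) := by linarith
      have h2 : Real.exp (-(2 * p + 8)) = Real.exp (-p - 8) * Real.exp (-p) := by
        rw [← Real.exp_add]; congr 1; ring
      have h3 : Real.exp p * Real.exp (-p) = 1 := by rw [← Real.exp_add]; simp
      have h10 : 1 / 2 ≤ a' := by linarith
      calc 2 * Real.exp p * a * (1 - a') ≤ 2 * Real.exp p * 1 * (1 - a') := by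
            apply mul_le_mul_of_nonneg_right _ (by linarith)
            apply mul_le_mul_of_nonneg_left ha1 (by positivity)
        _ ≤ 2 * Real.exp p * 1 * Real.exp (-(2 * p + 8)) := by
            apply mul_le_mul_of_nonneg_left h1 (by positivity)
        _ = 2 * Real.exp (-p - 8) * (Real.exp p * Real.exp (-p)) := by rw [h2]; ring
        _ = 2 * Real.exp (-p - 8) := by rw [h3, mul_one]
        _ ≤ (1 - a) * (1 / 2) := by linarith
        _ ≤ (1 - a) * a' := mul_le_mul_of_nonneg_left h10 (by linarith)
    · -- large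
      set c := 1 - a with hc
      have hc0 : 0 ≤ c := by linarith
      have hsmall8 : Real.exp (-p - 8) ≤ 1 / 16 := by
        have h3 : Real.exp (-p - 8) ≤ Real.exp (-3) := Real.exp_le_exp.2 (by linarith)
        have h4 : Real.exp (-3) * Real.exp 3 = 1 := by rw [← Real.exp_add]; simp
        have h5 := Real.exp_pos (-3)
        nlinarith
      have haHalf : 1 / 2 ≤ a := by linarith
      rcases hc0.eq_or_lt with hc00 | hcpos
      · -- full measure
        have hθ100 : 100 ≤ θ := by
          rcases hθ with h | h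
          · exact h
          · rw [← hc00] at h
            simp at h
            linarith
        have hAA' : A ⊆ A' := by
          intro x hx
          have := hmem x hx 0 h0K 0 le_rfl (by linarith) (by linarith) 0 (zero_mem_G (by norm_num))
          simpa using this
        have h1 : a ≤ a' := measureReal_mono hAA' (measure_ne_top μ _)
        have h2 : a' = 1 := by linarith
        rw [h2, ← hc00]; simp
      set t := -Real.log c with ht
      have hct : c = Real.exp (-t) := by rw [ht, neg_neg, Real.exp_log hcpos]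
      have htp : p + 6 < t := by
        have h1 : Real.exp (-t) < Real.exp (-(p + 6)) := by
          rw [← hct]
          have h2 : Real.exp (-(p + 6)) = Real.exp 2 * Real.exp (-p - 8) := by
            rw [← Real.exp_add]; congr 1; ring
          rw [h2]
          have := Real.exp_pos (-p - 8)
          nlinarith
        have := Real.exp_lt_exp.1 h1
        linarith
      have ht0 : 0 < t := by linarith
      set s := (p + 3) / t with hs
      have hs0 : 0 < s := by positivity
      have hs1 : s < 1 := by rw [hs, div_lt_one ht0]; linarith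
      have hst : s * t = p + 3 := by rw [hs]; field_simp
      have hθs : 49 * s ≤ θ := by
        rcases hθ with h | h
        · linarith
        · have h1 : Real.exp (-(t + 1)) ≤ a * c := by
            have h2 : Real.exp (-(t + 1)) = c * Real.exp (-1) := by
              rw [hct, ← Real.exp_add]; congr 1; ring
            have h3 : Real.exp (-1) * Real.exp 1 = 1 := by rw [← Real.exp_add]; simp
            have h4 := Real.exp_pos (-1)
            have h5 : Real.exp (-1) ≤ 1 / 2 := by nlinarith
            rw [h2]; nlinarith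
          obtain ⟨hw0, hw⟩ := log_inv_bounds hpos (by linarith) h1
          refine theta_bound hp0 h hw0 hw ?_ (by linarith)
          have h6 : 49 * s * (t + 1) = 49 * (p + 3) + 49 * s := by
            rw [mul_add, mul_assoc, hst]; ring
          rw [h6]; nlinarith
      have hθ0 : 0 < θ := by linarith
      have hq : 1 ≤ t + p + 3 := by linarith
      have hKq : 1 / 4 ≤ μ.real K := le_trans (le_min (by linarith) le_rfl) hK
      have hqs : Real.exp (-(t + p + 3)) ≤ 1 / 16 := by
        have h3 : Real.exp (-(t + p + 3)) ≤ Real.exp (-3) := Real.exp_le_exp.2 (by linarith)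
        have h4 : Real.exp (-3) * Real.exp 3 = 1 := by rw [← Real.exp_add]; simp
        have h5 := Real.exp_pos (-3)
        nlinarith
      obtain ⟨W, hWc, hWμ, _, hWK, _⟩ := exists_body hsym hlc hKc hKconv hKs hq (by linarith)
      have hcW : μ.real Wᶜ = 1 - μ.real W := by
        rw [measureReal_compl hWc.measurableSet]
        simp
      obtain ⟨H, hAH, hHm, hHμ⟩ := exists_measurable_superset μ A'
      have hHr : a' = μ.real H := by rw [ha']; simp [Measure.real, hHμ]
      have hcH : μ.real Hᶜ = 1 - μ.real H := by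
        rw [measureReal_compl hHm]; simp
      have hcA : μ.real Aᶜ = c := by
        rw [measureReal_compl hAm]; simp [hc, ha]
      have key : ∀ C : Set (E n), C ⊆ Hᶜ ∩ W → IsCompact C →
          μ.real C ≤ Real.exp (-(t + p + 3)) := by
        intro C hCH hCc
        by_contra hcon
        push Not at hcon
        have h1 := hlc.closed hCc.isClosed hKc.isClosed (t := 1 - s) (by linarith) (by linarith)
          (U := Aᶜ) (by
            intro x hx y hy hz
            apply (hCH hx).1
            apply hAH
            obtain ⟨k, hk, g, hg, hxk⟩ := hWK x (hCH hx).2 y hy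
            have e : x = ((1 - s) • x + (1 - (1 - s)) • y) + (49 * s) • k + s • g := by
              have e1 : (49 * s) • k + s • g = s • (x - y) := by
                rw [hxk]; module
              rw [add_assoc, e1]; module
            rw [e]
            refine hmem _ hz k hk (49 * s) (by positivity) hθs hθ0 _ ?_
            refine G_subset hsym hlc (by linarith) (by linarith) (by positivity) ?_
              (smul_mem_G hs0.le hg)
            have h2 : (t + p + 3) / p * s ≤ 5 := by
              have h3 : (t + p + 3) / p * s = (t + p + 3) / t * ((p + 3) / p) := by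
                rw [hs]; field_simp
              have h4 : (t + p + 3) / t ≤ 2 := by rw [div_le_iff₀ ht0]; linarith
              have h5 : (p + 3) / p ≤ 5 / 2 := by rw [div_le_iff₀ hp0]; linarith
              rw [h3]
              calc (t + p + 3) / t * ((p + 3) / p) ≤ 2 * (5 / 2) :=
                    mul_le_mul h4 h5 (by positivity) (by norm_num)
                _ = 5 := by norm_num
            calc 2 * Real.exp 2 * ((t + p + 3) / p) * (s * (4 * Real.exp 23))
                = 8 * (Real.exp 2 * Real.exp 23) * ((t + p + 3) / p * s) := by ring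
              _ ≤ 8 * (Real.exp 2 * Real.exp 23) * 5 := mul_le_mul_of_nonneg_left h2 (by positivity)
              _ ≤ 7000000000000 := by rw [hEE]; linarith)
        have key2 := ENNReal.toReal_mono (measure_ne_top μ _) h1
        rw [ENNReal.toReal_mul, ← ENNReal.toReal_rpow, ← ENNReal.toReal_rpow] at key2
        have key3 : μ.real C ^ (1 - s) * μ.real K ^ (1 - (1 - s)) ≤ μ.real Aᶜ := key2
        have e1 : 1 - (1 - s) = s := by ring
        rw [e1, hcA] at key3
        have h2 : Real.exp (-(t + p + 3)) ^ (1 - s) < μ.real C ^ (1 - s) :=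
          Real.rpow_lt_rpow (Real.exp_pos _).le hcon (by linarith)
        have h3 : Real.exp (-2) ^ s ≤ μ.real K ^ s := by
          apply Real.rpow_le_rpow (Real.exp_pos _).le _ hs0.le
          have h4 : Real.exp (-2) * Real.exp 2 = 1 := by rw [← Real.exp_add]; simp
          have h5 := Real.exp_pos (-2)
          nlinarith
        have h6 : Real.exp (-t) ≤ Real.exp (-(t + p + 3)) ^ (1 - s) * Real.exp (-2) ^ s := by
          rw [← Real.exp_mul, ← Real.exp_mul, ← Real.exp_add]
          apply Real.exp_le_exp.2
          have : -(t + p + 3) * (1 - s) + -2 * s = -t - (p + 3) + s * t + s * (p + 1) := by ring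
          rw [this, hst]
          nlinarith
        have h7 : 0 < Real.exp (-2) ^ s := Real.rpow_pos_of_pos (Real.exp_pos _) s
        have h8 : 0 ≤ Real.exp (-(t + p + 3)) ^ (1 - s) := Real.rpow_nonneg (Real.exp_pos _).le _
        have h9 : Real.exp (-(t + p + 3)) ^ (1 - s) * Real.exp (-2) ^ s <
            μ.real C ^ (1 - s) * μ.real K ^ s :=
          mul_lt_mul h2 h3 h7 (h8.trans h2.le)
        rw [← hct] at h6
        linarith
      have hS : μ.real (Hᶜ ∩ W) ≤ Real.exp (-(t + p + 3)) := by
        refine le_of_forall_pos_le_add fun ε hε => ?_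
        obtain ⟨C, hCH, hCc, hC⟩ := (hHm.compl.inter hWc.measurableSet).exists_isCompact_lt_add
          (measure_ne_top μ _) (ε := ENNReal.ofReal ε) (by simpa using hε)
        have h1 := ENNReal.toReal_mono (by finiteness) hC.le
        rw [ENNReal.toReal_add (measure_ne_top μ _) (by simp), ENNReal.toReal_ofReal hε.le] at h1
        have h2 := key C hCH hCc
        have h3 : μ.real (Hᶜ ∩ W) ≤ μ.real C + ε := h1
        linarith
      have h9 : 1 - a' ≤ 2 * Real.exp (-(t + p + 3)) := by
        rw [hHr, ← hcH]
        have h10 : Hᶜ ⊆ (Hᶜ ∩ W) ∪ Wᶜ := by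
          intro x hx
          by_cases hxW : x ∈ W
          · exact Or.inl ⟨hx, hxW⟩
          · exact Or.inr hxW
        have h11 := (measureReal_mono (μ := μ) h10 (measure_ne_top μ _)).trans
          (measureReal_union_le _ _)
        linarith
      have h11 : 1 / 2 ≤ a' := by linarith
      have h12 : Real.exp (-(t + p + 3)) = c * Real.exp (-p) * Real.exp (-3) := by
        rw [hct, ← Real.exp_add, ← Real.exp_add]; congr 1; ring
      have h13 : Real.exp p * Real.exp (-p) = 1 := by rw [← Real.exp_add]; simp
      have h14 : Real.exp (-3) ≤ 1 / 16 := by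
        have h4 : Real.exp (-3) * Real.exp 3 = 1 := by rw [← Real.exp_add]; simp
        have h5 := Real.exp_pos (-3)
        nlinarith
      calc 2 * Real.exp p * a * (1 - a') ≤ 2 * Real.exp p * 1 * (1 - a') := by
            apply mul_le_mul_of_nonneg_right _ (by linarith)
            apply mul_le_mul_of_nonneg_left ha1 (by positivity)
        _ ≤ 2 * Real.exp p * 1 * (2 * Real.exp (-(t + p + 3))) :=
            mul_le_mul_of_nonneg_left h9 (by positivity)
        _ = 4 * c * (Real.exp p * Real.exp (-p)) * Real.exp (-3) := by rw [h12]; ring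
        _ = 4 * c * Real.exp (-3) := by rw [h13, mul_one]
        _ ≤ 4 * c * (1 / 16) := mul_le_mul_of_nonneg_left h14 (by positivity)
        _ ≤ c * (1 / 2) := by linarith
        _ ≤ c * a' := mul_le_mul_of_nonneg_left h11 hc0
  · -- small sets
    have hu0 : 0 < u := by linarith
    have hq : 1 ≤ u + 2 := by linarith
    have haq : Real.exp (-(u + 2)) * 4 ≤ a := by
      have h1 : a = Real.exp (-(u + 2)) * Real.exp 2 := by
        rw [hau, ← Real.exp_add]; congr 1; ring
      rw [h1]
      exact mul_le_mul_of_nonneg_left he2.le (Real.exp_pos _).le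
    have ha16 : a ≤ 1 / 16 := by
      have h3 : Real.exp (-u) ≤ Real.exp (-3) := Real.exp_le_exp.2 (by linarith)
      have h4 : Real.exp (-3) * Real.exp 3 = 1 := by rw [← Real.exp_add]; simp
      have h5 := Real.exp_pos (-3)
      rw [hau]; nlinarith
    have hKa : a / 2 ≤ μ.real K := le_trans (le_min le_rfl (by linarith)) hK
    have hq0 := Real.exp_pos (-(u + 2))
    obtain ⟨W, hWc, hWμ, _, _, hWW⟩ := exists_body hsym hlc hKc hKconv hKs hq (by linarith)
    have hcW : μ.real Wᶜ = 1 - μ.real W := by
      rw [measureReal_compl hWc.measurableSet]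
      simp
    have hAW : a / 2 ≤ μ.real (A ∩ W) := by
      have h1 : A ⊆ (A ∩ W) ∪ Wᶜ := by
        intro x hx
        by_cases hxW : x ∈ W
        · exact Or.inl ⟨hx, hxW⟩
        · exact Or.inr hxW
      have h2 := (measureReal_mono (μ := μ) h1 (measure_ne_top μ _)).trans
        (measureReal_union_le _ _)
      linarith
    obtain ⟨A₁, hA₁A, hA₁c, hA₁m'⟩ := exists_compact_real (hAm.inter hWc.measurableSet)
      (show a / 4 < μ.real (A ∩ W) by linarith)
    have hA₁m : a / 4 ≤ μ.real A₁ := hA₁m'.le
    have hW2 : 1 / 4 ≤ μ.real W := by linarith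
    set s := (p + 4) / u with hs
    have hs0 : 0 < s := by positivity
    have hs1 : s < 1 := by rw [hs, div_lt_one hu0]; linarith
    have hsu : s * u = p + 4 := by rw [hs]; field_simp
    have hθs : 96 * s ≤ θ := by
      rcases hθ with h | h
      · linarith
      · have h1 : Real.exp (-(u + 1)) ≤ a * (1 - a) := by
          have h2 : Real.exp (-(u + 1)) = a * Real.exp (-1) := by
            rw [hau, ← Real.exp_add]; congr 1; ring
          have h3 : Real.exp (-1) * Real.exp 1 = 1 := by rw [← Real.exp_add]; simp
          have h4 := Real.exp_pos (-1)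
          have h5 : Real.exp (-1) ≤ 1 / 2 := by nlinarith
          rw [h2]; nlinarith
        obtain ⟨hw0, hw⟩ := log_inv_bounds hpos (by linarith) h1
        refine theta_bound hp0 h hw0 hw ?_ (by linarith)
        have h6 : 96 * s * (u + 1) = 96 * (p + 4) + 96 * s := by
          rw [mul_add, mul_assoc, hsu]; ring
        rw [h6]; nlinarith
    have hθ0 : 0 < θ := by linarith
    have key := hlc.closed hA₁c.isClosed hWc.isClosed (t := 1 - s) (by linarith) (by linarith)
      (U := A') (by
        intro x hx y hy
        obtain ⟨k, hk, g, hg, hyk⟩ := hWW y hy x (hA₁A hx).2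
        have e : (1 - s) • x + (1 - (1 - s)) • y = x + (96 * s) • k + s • g := by
          have e1 : (96 * s) • k + s • g = s • (y - x) := by
            rw [hyk]; module
          rw [add_assoc, e1]; module
        rw [e]
        refine hmem x (hA₁A hx).1 k hk (96 * s) (by positivity) hθs hθ0 _ ?_
        refine G_subset hsym hlc (by linarith) (by linarith) (by positivity) ?_
          (smul_mem_G hs0.le hg)
        have h2 : (u + 2) / p * s ≤ 4 := by
          have h3 : (u + 2) / p * s = (u + 2) / u * ((p + 4) / p) := by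
            rw [hs]; field_simp
          have h4 : (u + 2) / u ≤ 11 / 9 := by
            rw [div_le_div_iff₀ hu0 (by norm_num)]; linarith
          have h5 : (p + 4) / p ≤ 3 := by rw [div_le_iff₀ hp0]; linarith
          rw [h3]
          calc (u + 2) / u * ((p + 4) / p) ≤ 11 / 9 * 3 :=
                mul_le_mul h4 h5 (by positivity) (by norm_num)
            _ ≤ 4 := by norm_num
        calc 2 * Real.exp 2 * ((u + 2) / p) * (s * (8 * Real.exp 23))
            = 16 * (Real.exp 2 * Real.exp 23) * ((u + 2) / p * s) := by ring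
          _ ≤ 16 * (Real.exp 2 * Real.exp 23) * 4 := mul_le_mul_of_nonneg_left h2 (by positivity)
          _ ≤ 7000000000000 := by rw [hEE]; linarith)
    have key2 := ENNReal.toReal_mono (measure_ne_top μ _) key
    rw [ENNReal.toReal_mul, ← ENNReal.toReal_rpow, ← ENNReal.toReal_rpow] at key2
    have key3 : μ.real A₁ ^ (1 - s) * μ.real W ^ (1 - (1 - s)) ≤ a' := key2
    have e1 : 1 - (1 - s) = s := by ring
    rw [e1] at key3
    have h1 : (a / 4) ^ (1 - s) * (1 / 4 : ℝ) ^ s ≤ a' := by
      refine le_trans ?_ key3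
      apply mul_le_mul
      · exact Real.rpow_le_rpow (by positivity) hA₁m (by linarith)
      · exact Real.rpow_le_rpow (by norm_num) hW2 hs0.le
      · positivity
      · positivity
    have h2 : (a / 4) ^ (1 - s) * (1 / 4 : ℝ) ^ s = a ^ (1 - s) / 4 := by
      rw [div_eq_mul_one_div a, Real.mul_rpow hpos.le (by norm_num), mul_assoc,
        ← Real.rpow_add (by norm_num)]
      have : 1 - s + s = 1 := by ring
      rw [this, Real.rpow_one]
      ring
    have h3 : a ^ (1 - s) = a * (Real.exp p * Real.exp 4) := by
      rw [hau, ← Real.exp_mul, ← Real.exp_add, ← Real.exp_add]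
      congr 1
      linear_combination hsu
    rw [h2, h3] at h1
    have h4 := exp_four
    have h5 : 13 * (Real.exp p * a) ≤ a' := by
      have h6 : 0 < Real.exp p * a := by positivity
      nlinarith
    have h8 : 2 * Real.exp p * a * (1 - a') ≤ 2 * Real.exp p * a := by
      have : 0 ≤ 2 * Real.exp p * a := by positivity
      nlinarith
    have h9 : a' / 2 ≤ (1 - a) * a' := by nlinarith
    linarith

end Pool.CIP
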