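import Pool.Agent.CIP.EF
import Pool.Agent.CIP.X

set_option autoImplicit false

open MeasureTheory Pointwise Set Filter Topology

namespace Pool.CIP

variable {n : ℕ} {μ : Measure (E n)}

lemma exp_five_le : Real.exp 5 ≤ 149 := by
  have h1 : Real.exp 5 = Real.exp 1 ^ 5 := by
    rw [← Real.exp_nat_mul]; norm_num
  have h2 := Real.exp_one_lt_d9
  have h3 : Real.exp 1 ^ 5 ≤ 2.7182818286 ^ 5 := by gcongr
  rw [h1]
  refine h3.trans ?_
  norm_num

/-- Optimal concentration for all convex sets with the dilation `1 + ε`. -/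
theorem main_eps [IsProbabilityMeasure μ] (hsym : μ.map (fun x => -x) = μ) (hlc : LC μ)
    {A : Set (E n)} (hAm : MeasurableSet A) (hAconv : Convex ℝ A) {p : ℝ} (hp : 2 ≤ p)
    {ε : ℝ} (hε0 : 0 < ε) (hε1 : ε ≤ 1) :
    2 * Real.exp p * μ.real A * (1 - μ.real (A + ε • (A - A) + G μ p (7000000000000 / ε ^ 5))) ≤
      (1 - μ.real A) * μ.real (A + ε • (A - A) + G μ p (7000000000000 / ε ^ 5)) := by
  have hp0 : 0 < p := by linarith
  set A' := A + ε • (A - A) + G μ p (7000000000000 / ε ^ 5) with hA'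
  set a := μ.real A with ha
  set a' := μ.real A' with ha'
  have ha1 : a ≤ 1 := measureReal_le_one
  have ha'1 : a' ≤ 1 := measureReal_le_one
  have ha'0 : 0 ≤ a' := measureReal_nonneg
  have hε5 : 0 < ε ^ 5 := by positivity
  have hε5' : ε ^ 5 ≤ 1 := pow_le_one₀ hε0.le hε1
  have hbig : (7000000000000:ℝ) ≤ 7000000000000 / ε ^ 5 := by
    rw [le_div_iff₀ hε5]; nlinarith
  rcases (measureReal_nonneg (μ := μ) (s := A)).eq_or_lt with h0 | hpos
  · rw [← ha] at h0
    rw [← h0]
    simpa using ha'0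
  have hAA' : A ⊆ A' := by
    intro x hx
    refine ⟨x + ε • (0 : E n), ⟨x, hx, _, ⟨0, ⟨x, hx, x, hx, sub_self x⟩, rfl⟩, rfl⟩, 0,
      zero_mem_G (by positivity), by simp⟩
  have haa' : a ≤ a' := measureReal_mono hAA' (measure_ne_top μ _)
  rcases ha1.eq_or_lt with h1 | hlt
  · have h2 : a' = 1 := by linarith
    rw [h2, h1]; simp
  have hc0 : 0 < 1 - a := by linarith
  have hac : 0 < a * (1 - a) := mul_pos hpos hc0
  rcases le_or_gt (500 * p) (ε * Real.log (1 / (a * (1 - a)))) with hcase | hcase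
  · -- extreme sets
    obtain ⟨K, hKA, hKc, hK⟩ := exists_compact_real hAm (show a / 2 < μ.real A by linarith)
    have hKne : K.Nonempty := by
      rw [nonempty_iff_ne_empty]
      intro h
      rw [h] at hK
      simp at hK
      linarith
    set K₁ := convexHull ℝ K with hK₁
    have hK₁c : IsCompact K₁ := compact_hull hKc hKne
    have hK₁A : K₁ ⊆ A := convexHull_min hKA hAconv
    have hK₁conv : Convex ℝ K₁ := convex_convexHull ℝ _
    have hK₁m : a / 2 ≤ μ.real K₁ :=
      hK.le.trans (measureReal_mono (subset_convexHull ℝ K) (measure_ne_top μ _))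
    set B := (1/2:ℝ) • K₁ + (1/2:ℝ) • (-K₁) with hB
    have hBc : IsCompact B := (hK₁c.smul _).add (hK₁c.neg.smul _)
    have hBconv : Convex ℝ B := (hK₁conv.smul _).add (hK₁conv.neg.smul _)
    have hBs : ∀ x ∈ B, -x ∈ B := by
      rintro _ ⟨_, ⟨x, hx, rfl⟩, _, ⟨y, hy, rfl⟩, rfl⟩
      refine ⟨(1/2:ℝ) • (-y), ⟨-y, by simpa using hy, rfl⟩, (1/2:ℝ) • (-x),
        ⟨-x, by simpa using hx, rfl⟩, ?_⟩
      show (1/2:ℝ) • (-y) + (1/2:ℝ) • (-x) = -((1/2:ℝ) • x + (1/2:ℝ) • y)
      module
    have hBm : a / 2 ≤ μ.real B := by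
      have h1 := hlc.half hK₁c hK₁c.neg (U := B) (fun x hx y hy =>
        ⟨_, ⟨x, hx, rfl⟩, _, ⟨y, hy, rfl⟩, rfl⟩)
      have h2 : μ.real (-K₁) = μ.real K₁ := by
        have := measure_neg hsym K₁ hK₁c.measurableSet
        simp only [Measure.real]
        congr 1
      rw [h2] at h1
      have h3 : μ.real K₁ ≤ μ.real B := by
        have h4 : μ.real K₁ ^ 2 ≤ μ.real B ^ 2 := by rw [sq]; exact h1
        exact le_of_sq_le_sq h4 measureReal_nonneg
      linarith
    have key := main_borel hsym hlc hAm hBc hBconv hBs ((min_le_left _ _).trans hBm) hp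
      (θ := 2 * ε) (Or.inr (by rw [← ha]; linarith))
    have hsub : A + (2 * ε) • B + G μ p 7000000000000 ⊆ A' := by
      rintro _ ⟨_, ⟨x, hx, _, ⟨b, ⟨_, ⟨y, hy, rfl⟩, _, ⟨z, hz, rfl⟩, rfl⟩, rfl⟩, rfl⟩, g, hg, rfl⟩
      rw [Set.mem_neg] at hz
      refine ⟨x + ε • (y - -z), ⟨x, hx, _, ⟨_, ⟨y, hK₁A hy, -z, hK₁A hz, rfl⟩, rfl⟩, rfl⟩, g,
        G_mono hbig hg, ?_⟩
      show x + ε • (y - -z) + g = x + (2 * ε) • ((1/2:ℝ) • y + (1/2:ℝ) • z) + g
      module
    have hmono := measureReal_mono (μ := μ) hsub (measure_ne_top μ _)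
    rw [← ha] at key
    have hep := Real.exp_pos p
    calc 2 * Real.exp p * a * (1 - a')
        ≤ 2 * Real.exp p * a * (1 - μ.real (A + (2 * ε) • B + G μ p 7000000000000)) :=
          mul_le_mul_of_nonneg_left (by linarith) (by positivity)
      _ ≤ (1 - a) * μ.real (A + (2 * ε) • B + G μ p 7000000000000) := key
      _ ≤ (1 - a) * a' := mul_le_mul_of_nonneg_left hmono hc0.le
  · -- the other sets
    set w := 500 * p / ε with hw
    have hw1 : 500 * p ≤ w := by rw [hw, le_div_iff₀ hε0]; nlinarith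
    have hεw : ε * w = 500 * p := by rw [hw]; field_simp
    have hexp : Real.exp (-w) ≤ a * (1 - a) := by
      have h2 : Real.log (1 / (a * (1 - a))) < w := by
        rw [hw, lt_div_iff₀ hε0, mul_comm]; exact hcase
      rw [one_div, Real.log_inv] at h2
      have h3 : -w < Real.log (a * (1 - a)) := by linarith
      have h4 := Real.exp_lt_exp.2 h3
      rw [Real.exp_log hac] at h4
      exact h4.le
    set q := w + p + 2 with hq
    have hq1 : 1 ≤ q := by linarith
    have hpq : p ≤ q := by linarith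
    have he2 : (4:ℝ) < Real.exp 2 := by
      have h6 : Real.exp 2 = Real.exp 1 * Real.exp 1 := by rw [← Real.exp_add]; norm_num
      have h7 := Real.exp_one_gt_d9
      rw [h6]; nlinarith
    have hsplit : Real.exp (-q) * Real.exp 2 * Real.exp p = Real.exp (-w) := by
      rw [← Real.exp_add, ← Real.exp_add]; congr 1; rw [hq]; ring
    have hep := Real.exp_pos p
    have heq := Real.exp_pos (-q)
    have hep1 : 1 ≤ Real.exp p := by
      have := Real.add_one_le_exp p
      linarith
    have h4q : 4 * (Real.exp (-q) * Real.exp p) ≤ Real.exp (-w) := by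
      rw [← hsplit]
      have h5 : 0 < Real.exp (-q) * Real.exp p := by positivity
      nlinarith
    have h4q' : 4 * Real.exp (-q) ≤ Real.exp (-w) := by
      refine le_trans ?_ h4q
      have : Real.exp (-q) * 1 ≤ Real.exp (-q) * Real.exp p :=
        mul_le_mul_of_nonneg_left hep1 heq.le
      linarith
    have haw : Real.exp (-w) ≤ a := by nlinarith
    have hcw : Real.exp (-w) ≤ 1 - a := by nlinarith
    obtain ⟨K, hKA, hKc, hK⟩ := exists_compact_real hAm
      (show 2 * Real.exp (-q) < μ.real A by rw [← ha]; linarith)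
    have hKne : K.Nonempty := by
      rw [nonempty_iff_ne_empty]
      intro h
      rw [h] at hK
      simp at hK
      linarith
    set K₁ := convexHull ℝ K with hK₁
    have hK₁c : IsCompact K₁ := compact_hull hKc hKne
    have hK₁A : K₁ ⊆ A := convexHull_min hKA hAconv
    have hK₁conv : Convex ℝ K₁ := convex_convexHull ℝ _
    have hK₁m : 2 * Real.exp (-q) ≤ μ.real K₁ :=
      hK.le.trans (measureReal_mono (subset_convexHull ℝ K) (measure_ne_top μ _))
    -- the number of steps
    set m : ℕ := ⌈1 / ε⌉₊ + 1 with hm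
    have h1ε : 1 ≤ 1 / ε := by rw [le_div_iff₀ hε0]; linarith
    have hmlow : 1 / ε ≤ (m:ℝ) - 1 := by
      rw [hm]; push_cast
      have := Nat.le_ceil (1 / ε)
      linarith
    have hmup : (m:ℝ) ≤ 3 / ε := by
      rw [hm]; push_cast
      have h5 := Nat.ceil_lt_add_one (show 0 ≤ 1 / ε by linarith)
      have h6 : 3 / ε = 3 * (1 / ε) := by ring
      linarith
    have hm2 : 2 ≤ m := by
      have : (2:ℝ) ≤ m := by linarith
      exact_mod_cast this
    have hm1 : (0:ℝ) < (m:ℝ) - 1 := by linarith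
    have hm0 : (0:ℝ) < (m:ℝ) := by linarith
    have hmε : 1 / ((m:ℝ) - 1) ≤ ε := by
      rw [div_le_iff₀ hm1]
      have h5 := mul_le_mul_of_nonneg_left hmlow hε0.le
      have h6 : ε * (1 / ε) = 1 := by field_simp
      linarith
    have key := enl hsym hlc hm2 hq1 hK₁c hK₁conv hK₁m
    set W := K₁ + (1 / ((m:ℝ) - 1)) • (K₁ - K₁) + G μ q (64 * Real.exp 3 * (m:ℝ) ^ 4) with hW
    have hWA' : W ⊆ A' := by
      rintro _ ⟨_, ⟨x, hx, _, ⟨_, ⟨y, hy, z, hz, rfl⟩, rfl⟩, rfl⟩, g, hg, rfl⟩
      have hAAconv : Convex ℝ (A - A) := hAconv.sub hAconv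
      have h0 : (0 : E n) ∈ A - A := ⟨x, hK₁A hx, x, hK₁A hx, sub_self x⟩
      have h5 := smul_mem_dil hAAconv h0 (by positivity : 0 ≤ 1 / ((m:ℝ) - 1)) hmε hε0
        (x := y - z) ⟨y, hK₁A hy, z, hK₁A hz, rfl⟩
      refine ⟨_, ⟨x, hK₁A hx, _, h5, rfl⟩, g, ?_, rfl⟩
      refine G_subset hsym hlc (by linarith) hpq (by positivity) ?_ hg
      have h6 : q / p ≤ 502 / ε := by
        rw [div_le_div_iff₀ hp0 hε0]
        have : q * ε = 500 * p + (p + 2) * ε := by
          rw [hq]; linear_combination hεw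
        rw [this]
        nlinarith
      have h7 : (m:ℝ) ^ 4 ≤ (3 / ε) ^ 4 := by gcongr
      have hqp : 0 ≤ q / p := by positivity
      have h8 := exp_five_le
      have h9 : Real.exp 2 * Real.exp 3 = Real.exp 5 := by rw [← Real.exp_add]; norm_num
      calc 2 * Real.exp 2 * (q / p) * (64 * Real.exp 3 * (m:ℝ) ^ 4)
          ≤ 2 * Real.exp 2 * (502 / ε) * (64 * Real.exp 3 * (3 / ε) ^ 4) := by gcongr
        _ = 5204736 * (Real.exp 2 * Real.exp 3) / ε ^ 5 := by field_simp; ring
        _ ≤ 7000000000000 / ε ^ 5 := by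
            rw [h9]
            apply div_le_div_of_nonneg_right _ hε5.le
            linarith
    have hWc : IsCompact W := by
      have hAAc : IsCompact (K₁ - K₁) := by rw [sub_eq_add_neg]; exact hK₁c.add hK₁c.neg
      exact (hK₁c.add (hAAc.smul _)).add (isCompact_G _ _)
    have hcW : μ.real Wᶜ = 1 - μ.real W := by
      rw [measureReal_compl hWc.measurableSet]
      simp
    have hmono := measureReal_mono (μ := μ) hWA' (measure_ne_top μ _)
    have h1 : 1 - a' ≤ Real.exp (-q) := by linarith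
    have h2 : 1 / 2 ≤ a' := by
      have : Real.exp (-w) ≤ 1 := by linarith
      linarith
    calc 2 * Real.exp p * a * (1 - a') ≤ 2 * Real.exp p * 1 * Real.exp (-q) := by
          apply mul_le_mul _ h1 (by linarith) (by positivity)
          exact mul_le_mul_of_nonneg_left ha1 (by positivity)
      _ = 2 * (Real.exp (-q) * Real.exp p) := by ring
      _ ≤ (1 - a) * (1 / 2) := by linarith
      _ ≤ (1 - a) * a' := mul_le_mul_of_nonneg_left h2 hc0.le

end Pool.CIP
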