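import Pool.Agent.CIP.EF
import Pool.Agent.CIP.X

set_option autoImplicit false

open MeasureTheory Pointwise Set Filter Topology

namespace Pool.CIP

variable {n : ℕ} {μ : Measure (E n)}

/-- The conclusion of the core theorem, with dilation `R` and starting level `exp (-L)`. -/
def CoreP (μ : Measure (E n)) (R L q : ℝ) : Prop :=
  ∀ (A₀ : Set (E n)), MeasurableSet A₀ → ∀ (ι : Type) (V : Finset ι) (φ : ι → E n →L[ℝ] ℝ)
    (l h t₀ : ι → ℝ), (∀ i ∈ V, ∀ x ∈ A₀, φ i x ≤ h i) →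
    (∀ i ∈ V, 4 * Real.exp (-q) ≤ μ.real (A₀ ∩ Pool.WS.up (φ i) (l i))) →
    (∀ i ∈ V, μ.real (Pool.WS.up (φ i) (t₀ i)) ≤ Real.exp (-L)) →
    μ.real (⋃ i ∈ V, Pool.WS.up (φ i) (t₀ i + R * (h i - l i))) ≤ Real.exp (-q)

lemma coreP_strong [IsProbabilityMeasure μ] (hlc : LC μ) {m : ℕ} (hm2 : 2 ≤ m) {q : ℝ}
    (hq : 1 ≤ q) : CoreP μ ((m:ℝ) / ((m:ℝ) - 1)) (16 * (m:ℝ) ^ 4 * q) q := by
  have hmr : (2:ℝ) ≤ m := by exact_mod_cast hm2
  intro A₀ hA₀ ι V φ l h t₀ h1 h2 h3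
  refine Pool.WS.core_strong hm2 (hlc.lcw (a := 1 / (m:ℝ)) (by positivity)
    (by rw [div_lt_one (by linarith)]; linarith)) hq hA₀ V φ l h t₀ h1 (fun i hi => ?_) h3
  have := h2 i hi
  have h4 := Real.exp_pos (-q)
  linarith

/-- The covering argument: the core theorem for the complement of a compact convex set. -/
theorem enl_genP [IsProbabilityMeasure μ] (hsym : μ.map (fun x => -x) = μ) (hlc : LC μ)
    {R L q : ℝ} (hcore : CoreP μ R L q) (hL : 0 < L) {A W : Set (E n)} (hA : MeasurableSet A)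
    (hWc : IsCompact W) (hWconv : Convex ℝ W)
    (H : ∀ v : E n, ∀ δ : ℝ, 0 < δ → ∃ l h : ℝ, (∀ x ∈ A, inner ℝ v x ≤ h) ∧
      4 * Real.exp (-q) ≤ μ.real (A ∩ hs v l) ∧ ∀ b : ℝ, (∀ w ∈ W, inner ℝ v w ≤ b) →
        (Real.exp 1 * hm μ L v + δ) + R * (h - l) ≤ b + 4 * δ) :
    μ.real Wᶜ ≤ Real.exp (-q) := by
  classical
  have hfin : ∀ q : ℝ, 0 < q → ∀ v : E n, mq μ q v < ⊤ := fun q hq v => mq_lt_top hsym hlc hq v
  by_contra hcon
  push Not at hcon
  obtain ⟨S, hSW, hSc, hS⟩ := exists_compact_real hWc.measurableSet.compl hcon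
  have hsep : ∀ x : E n, ∃ p : E n × ℝ × ℝ, x ∈ Wᶜ → (∀ w ∈ W, inner ℝ p.1 w ≤ p.2.1) ∧
      0 < p.2.2 ∧ p.2.1 + 4 * p.2.2 < inner ℝ p.1 x := by
    intro x
    by_cases hx : x ∈ Wᶜ
    · obtain ⟨f, u, h1, h2⟩ := geometric_hahn_banach_closed_point hWconv hWc.isClosed hx
      set y : E n := (InnerProductSpace.toDual ℝ (E n)).symm f with hy
      have hin : ∀ w : E n, inner ℝ y w = f w := fun w => InnerProductSpace.toDual_symm_apply
      refine ⟨(y, u, (f x - u) / 8), fun _ => ⟨fun w hw => ?_, ?_, ?_⟩⟩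
      · show inner ℝ y w ≤ u
        rw [hin]; exact (h1 w hw).le
      · show 0 < (f x - u) / 8
        linarith
      · show u + 4 * ((f x - u) / 8) < inner ℝ y x
        rw [hin]; linarith
    · exact ⟨(0, 0, 0), fun h => absurd h hx⟩
  choose P hP using hsep
  have hch : ∀ x : E n, ∃ p : ℝ × ℝ, x ∈ Wᶜ → (∀ y ∈ A, inner ℝ (P x).1 y ≤ p.2) ∧
      4 * Real.exp (-q) ≤ μ.real (A ∩ hs (P x).1 p.1) ∧
        (Real.exp 1 * hm μ L (P x).1 + (P x).2.2) + R * (p.2 - p.1) ≤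
          (P x).2.1 + 4 * (P x).2.2 := by
    intro x
    by_cases hx : x ∈ Wᶜ
    · obtain ⟨l, h, h1, h2, h3⟩ := H (P x).1 (P x).2.2 (hP x hx).2.1
      exact ⟨(l, h), fun _ => ⟨h1, h2, h3 _ (hP x hx).1⟩⟩
    · exact ⟨(0, 0), fun h => absurd h hx⟩
  choose LH hLH using hch
  obtain ⟨V, hVS, hcov⟩ := hSc.elim_nhds_subcover
    (fun x => {y : E n | (P x).2.1 + 4 * (P x).2.2 < inner ℝ (P x).1 y}) (by
      intro x hx
      refine IsOpen.mem_nhds (isOpen_lt continuous_const (by fun_prop)) ?_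
      exact (hP x (hSW hx)).2.2)
  have hcore := hcore A hA (E n) V (fun x => innerSL ℝ (P x).1)
    (fun x => (LH x).1) (fun x => (LH x).2) (fun x => Real.exp 1 * hm μ L (P x).1 + (P x).2.2)
    (by
      intro x hx y hy
      rw [innerSL_apply_apply]
      exact (hLH x (hSW (hVS x hx))).1 y hy)
    (by
      intro x hx
      have := (hLH x (hSW (hVS x hx))).2.1
      have e : Pool.WS.up (innerSL ℝ (P x).1) (LH x).1 = hs (P x).1 (LH x).1 := by
        ext y
        simp only [Pool.WS.up, hs, mem_ofPred_eq, innerSL_apply_apply]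
      rw [e]; exact this)
    (by
      intro x hx
      have e : Pool.WS.up (innerSL ℝ (P x).1) (Real.exp 1 * hm μ L (P x).1 + (P x).2.2) =
          hs (P x).1 (Real.exp 1 * hm μ L (P x).1 + (P x).2.2) := by
        ext y
        simp only [Pool.WS.up, hs, mem_ofPred_eq, innerSL_apply_apply]
      rw [e]
      exact markov_hm hfin hL _ (hP x (hSW (hVS x hx))).2.1)
  have hsub : S ⊆ ⋃ x ∈ V, Pool.WS.up (innerSL ℝ (P x).1)
      (Real.exp 1 * hm μ L (P x).1 + (P x).2.2 + R * ((LH x).2 - (LH x).1)) := by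
    intro y hy
    obtain ⟨x, hxV, hxy⟩ := mem_iUnion₂.1 (hcov hy)
    refine mem_iUnion₂.2 ⟨x, hxV, ?_⟩
    have h1 := (hLH x (hSW (hVS x hxV))).2.2
    have h2 : (P x).2.1 + 4 * (P x).2.2 < inner ℝ (P x).1 y := hxy
    show _ ≤ innerSL ℝ (P x).1 y
    rw [innerSL_apply_apply]
    exact h1.trans h2.le
  have := measureReal_mono (μ := μ) hsub (measure_ne_top μ _)
  linarith

/-- the part of a set above the level `- t` -/
lemma part_ge [IsProbabilityMeasure μ] (hsym : μ.map (fun x => -x) = μ) (hlc : LC μ)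
    {L q : ℝ} (hL : 0 < L) (hqL : q ≤ L) {A : Set (E n)} (hA : 5 * Real.exp (-q) ≤ μ.real A)
    (v : E n) {δ : ℝ} (hδ : 0 < δ) :
    4 * Real.exp (-q) ≤ μ.real (A ∩ hs v (-(Real.exp 1 * hm μ L v + δ))) := by
  have hfin : ∀ q : ℝ, 0 < q → ∀ v : E n, mq μ q v < ⊤ := fun q hq v => mq_lt_top hsym hlc hq v
  set t := Real.exp 1 * hm μ L v + δ with ht
  have h1 : A ⊆ (A ∩ hs v (-t)) ∪ {x | -x ∈ hs v t} := by
    intro x hx
    rcases le_total (-t) (inner ℝ v x) with h2 | h2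
    · exact Or.inl ⟨hx, h2⟩
    · right
      show t ≤ inner ℝ v (-x)
      rw [inner_neg_right]; linarith
  have h2 : μ.real {x : E n | -x ∈ hs v t} = μ.real (hs v t) := by
    simp only [Measure.real]
    rw [measure_neg hsym _ (isClosed_hs v t).measurableSet]
  have h3 := (measureReal_mono (μ := μ) h1 (measure_ne_top μ _)).trans
    (measureReal_union_le _ _)
  have h4 := markov_hm hfin hL v hδ
  have h5 : Real.exp (-L) ≤ Real.exp (-q) := Real.exp_le_exp.2 (by linarith)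
  rw [h2] at h3
  linarith

lemma nonempty_of_real {A : Set (E n)} {e : ℝ} (he : 0 < e) (hA : e ≤ μ.real A) : A.Nonempty := by
  rw [nonempty_iff_ne_empty]
  intro h
  rw [h] at hA
  simp at hA
  linarith

/-- Enlargement of a compact convex set, from the core statement. -/
theorem enlP [IsProbabilityMeasure μ] (hsym : μ.map (fun x => -x) = μ) (hlc : LC μ)
    {R L q : ℝ} (hcore : CoreP μ R L q) (hR : 1 ≤ R) (hq : 1 ≤ q) (hqL : q ≤ L) {A : Set (E n)}
    (hAc : IsCompact A) (hAconv : Convex ℝ A) (hA : 5 * Real.exp (-q) ≤ μ.real A) :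
    μ.real (A + (R - 1) • (A - A) + G μ L (2 * Real.exp 1))ᶜ ≤ Real.exp (-q) := by
  have hL0 : 0 < L := by linarith
  have hfin : ∀ q : ℝ, 0 < q → ∀ v : E n, mq μ q v < ⊤ := fun q hq v => mq_lt_top hsym hlc hq v
  have hAne : A.Nonempty := nonempty_of_real (by positivity) hA
  set W := A + (R - 1) • (A - A) + G μ L (2 * Real.exp 1) with hW
  have hAAc : IsCompact (A - A) := by rw [sub_eq_add_neg]; exact hAc.add hAc.neg
  have hWc : IsCompact W := (hAc.add (hAAc.smul _)).add (isCompact_G _ _)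
  have hWconv : Convex ℝ W := (hAconv.add ((hAconv.sub hAconv).smul _)).add convex_G
  refine enl_genP hsym hlc hcore hL0 hAc.measurableSet hWc hWconv ?_
  intro v δ hδ
  have hpart := part_ge hsym hlc hL0 hqL hA v hδ
  set t := Real.exp 1 * hm μ L v + δ with ht
  obtain ⟨x₁, hx₁A, hx₁⟩ := hAc.exists_isMaxOn hAne (f := fun x : E n => (inner ℝ v x : ℝ))
    (by fun_prop)
  obtain ⟨x₀, hx₀A, hx₀⟩ := hAc.exists_isMinOn hAne (f := fun x : E n => (inner ℝ v x : ℝ))
    (by fun_prop)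
  refine ⟨max (-t) (inner ℝ v x₀), inner ℝ v x₁, fun x hx => hx₁ hx, ?_, ?_⟩
  · rcases le_total (-t) (inner ℝ v x₀) with h | h
    · rw [max_eq_right h]
      have e : A ∩ hs v (inner ℝ v x₀) = A := inter_eq_left.2 fun x hx => hx₀ hx
      have := Real.exp_pos (-q)
      rw [e]; linarith
    · rw [max_eq_left h]
      exact hpart
  · intro b hb
    obtain ⟨z, hz, hzv⟩ := exists_support hfin (show 1 ≤ L by linarith) v
      (show 0 ≤ 2 * Real.exp 1 by positivity)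
    have hw := hb (x₁ + (R - 1) • (x₁ - x₀) + z)
      ⟨_, ⟨x₁, hx₁A, _, ⟨_, ⟨x₁, hx₁A, x₀, hx₀A, rfl⟩, rfl⟩, rfl⟩, z, hz, rfl⟩
    rw [inner_add_right, inner_add_right, inner_smul_right, inner_sub_right, hzv] at hw
    have hle1 : -t ≤ max (-t) (inner ℝ v x₀) := le_max_left _ _
    have hle2 : inner ℝ v x₀ ≤ max (-t) (inner ℝ v x₀) := le_max_right _ _
    set l := max (-t) (inner ℝ v x₀) with hl
    have h6 : (R - 1) * (inner ℝ v x₁ - l) ≤ (R - 1) * (inner ℝ v x₁ - inner ℝ v x₀) :=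
      mul_le_mul_of_nonneg_left (by linarith) (by linarith)
    have e3 : R * (inner ℝ v x₁ - l) = inner ℝ v x₁ - l + (R - 1) * (inner ℝ v x₁ - l) := by ring
    rw [e3]
    linarith

/-- Enlargement of a compact convex set by a dilation, from the core statement (the set need not
be symmetric). -/
theorem enlP_sym [IsProbabilityMeasure μ] (hsym : μ.map (fun x => -x) = μ) (hlc : LC μ)
    {R L q : ℝ} (hcore : CoreP μ R L q) (hR : R ≤ 2) (hq : 1 ≤ q) (hqL : q ≤ L)
    {A : Set (E n)} (hAc : IsCompact A) (hAconv : Convex ℝ A) (hA : 5 * Real.exp (-q) ≤ μ.real A) :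
    μ.real (R • A + G μ L (3 * Real.exp 1))ᶜ ≤ Real.exp (-q) := by
  have hL0 : 0 < L := by linarith
  have hfin : ∀ q : ℝ, 0 < q → ∀ v : E n, mq μ q v < ⊤ := fun q hq v => mq_lt_top hsym hlc hq v
  have hAne : A.Nonempty := nonempty_of_real (by positivity) hA
  set W := R • A + G μ L (3 * Real.exp 1) with hW
  have hWc : IsCompact W := (hAc.smul _).add (isCompact_G _ _)
  have hWconv : Convex ℝ W := (hAconv.smul _).add convex_G
  refine enl_genP hsym hlc hcore hL0 hAc.measurableSet hWc hWconv ?_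
  intro v δ hδ
  have hpart := part_ge hsym hlc hL0 hqL hA v hδ
  set t := Real.exp 1 * hm μ L v + δ with ht
  obtain ⟨x₁, hx₁A, hx₁⟩ := hAc.exists_isMaxOn hAne (f := fun x : E n => (inner ℝ v x : ℝ))
    (by fun_prop)
  refine ⟨-t, inner ℝ v x₁, fun x hx => hx₁ hx, hpart, ?_⟩
  intro b hb
  obtain ⟨z, hz, hzv⟩ := exists_support hfin (show 1 ≤ L by linarith) v
    (show 0 ≤ 3 * Real.exp 1 by positivity)
  have hw := hb (R • x₁ + z) ⟨_, ⟨x₁, hx₁A, rfl⟩, z, hz, rfl⟩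
  rw [inner_add_right, inner_smul_right, hzv] at hw
  have ht0 : 0 < t := by
    have := hm_nonneg (μ := μ) L v
    positivity
  have h7 : R * t ≤ 2 * t := mul_le_mul_of_nonneg_right hR ht0.le
  have e3 : R * (inner ℝ v x₁ - -t) = R * inner ℝ v x₁ + R * t := by ring
  rw [e3]
  linarith

end Pool.CIP
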