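import Pool.Agent.CIP.ED

set_option autoImplicit false

open MeasureTheory Pointwise Set Filter Topology

namespace Pool.WS

/-! ### Numbers for the second core theorem -/

noncomputable def b2 (m : ℕ) : ℝ := 1 / (10 * (m:ℝ) ^ 2)

noncomputable def H2 (m : ℕ) (q : ℝ) : ℝ := 4 * (q + 3 * Real.log m + 5)

/-- the grid of costs -/
noncomputable def gam (m : ℕ) (q : ℝ) (i : ℕ) : ℝ :=
  H2 m q * (1 + ((1 + b2 m) ^ i - 1) / b2 m)

/-- the weights -/
noncomputable def g2 (m i : ℕ) : ℝ := b2 m / m / (1 + b2 m) ^ (i + 1)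

lemma b2_pos {m : ℕ} (hm : 2 ≤ m) : 0 < b2 m := by
  have : (0:ℝ) < m := by exact_mod_cast (by omega : 0 < m)
  unfold b2; positivity

lemma b2_le {m : ℕ} (hm : 2 ≤ m) : b2 m ≤ 1 / 40 := by
  have : (2:ℝ) ≤ m := by exact_mod_cast hm
  unfold b2
  apply one_div_le_one_div_of_le (by norm_num)
  nlinarith

lemma b2_mul {m : ℕ} (hm : 2 ≤ m) : (m:ℝ) * b2 m = 1 / (10 * m) := by
  have : (0:ℝ) < m := by exact_mod_cast (by omega : 0 < m)
  unfold b2; field_simp

lemma H2_ge {m : ℕ} (hm : 2 ≤ m) {q : ℝ} (hq : 1 ≤ q) : 4 * q + 20 ≤ H2 m q := by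
  have : 0 ≤ Real.log m := Real.log_natCast_nonneg m
  unfold H2; linarith

lemma g2_pos {m : ℕ} (hm : 2 ≤ m) (i : ℕ) : 0 < g2 m i := by
  have := b2_pos hm
  have : (0:ℝ) < m := by exact_mod_cast (by omega : 0 < m)
  unfold g2; positivity

lemma g2_anti {m : ℕ} (hm : 2 ≤ m) {i j : ℕ} (hij : i ≤ j) : g2 m j ≤ g2 m i := by
  have h := b2_pos hm
  have : (0:ℝ) < m := by exact_mod_cast (by omega : 0 < m)
  unfold g2
  apply div_le_div_of_nonneg_left (by positivity) (by positivity)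
  exact pow_le_pow_right₀ (by linarith) (by omega)

lemma sum_g2_le {m : ℕ} (hm : 2 ≤ m) (a J : ℕ) :
    ∑ j ∈ Finset.range J, g2 m (j + a) ≤ 1 / m := by
  have h := b2_pos hm
  have hm0 : (0:ℝ) < m := by exact_mod_cast (by omega : 0 < m)
  have key : ∑ j ∈ Finset.range J, g2 m j = (1 / m) * (1 - 1 / (1 + b2 m) ^ J) := by
    induction J with
    | zero => simp
    | succ J ih =>
      rw [Finset.sum_range_succ, ih]
      unfold g2
      have h1 : (0:ℝ) < (1 + b2 m) ^ J := by positivity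
      rw [pow_succ]
      field_simp
      ring
  calc ∑ j ∈ Finset.range J, g2 m (j + a) ≤ ∑ j ∈ Finset.range J, g2 m j :=
        Finset.sum_le_sum fun j _ => g2_anti hm (by omega)
    _ = (1 / m) * (1 - 1 / (1 + b2 m) ^ J) := key
    _ ≤ (1 / m) * 1 := by
        apply mul_le_mul_of_nonneg_left _ (by positivity)
        have : (0:ℝ) ≤ 1 / (1 + b2 m) ^ J := by positivity
        linarith
    _ = 1 / m := mul_one _

lemma g2_le_one {m : ℕ} (hm : 2 ≤ m) (i : ℕ) : g2 m i ≤ 1 := by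
  have h1 := sum_g2_le hm i 1
  rw [Finset.sum_range_one, zero_add] at h1
  have h2 : (1:ℝ) / m ≤ 1 := by
    have : (2:ℝ) ≤ m := by exact_mod_cast hm
    rw [div_le_one (by linarith)]; linarith
  linarith

lemma gam_succ {m : ℕ} (hm : 2 ≤ m) (q : ℝ) (i : ℕ) :
    gam m q (i + 1) - gam m q i = H2 m q * (1 + b2 m) ^ i := by
  have h := b2_pos hm
  unfold gam
  rw [pow_succ]
  field_simp
  ring

lemma gam_zero (m : ℕ) (q : ℝ) : gam m q 0 = H2 m q := by
  unfold gam; simp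

lemma gam_ge {m : ℕ} (hm : 2 ≤ m) {q : ℝ} (hq : 1 ≤ q) (i : ℕ) : 4 * q + 20 + i ≤ gam m q i := by
  have hH := H2_ge hm hq
  have hH0 : 0 < H2 m q := by linarith
  have hb := b2_pos hm
  induction i with
  | zero => rw [gam_zero]; simpa using hH
  | succ i ih =>
    have h1 := gam_succ hm q i
    have h2 : (1:ℝ) ≤ (1 + b2 m) ^ i := one_le_pow₀ (by linarith)
    push_cast
    nlinarith

lemma gam_mono {m : ℕ} (hm : 2 ≤ m) {q : ℝ} (hq : 1 ≤ q) {i j : ℕ} (hij : i ≤ j) :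
    gam m q i ≤ gam m q j := by
  induction j, hij using Nat.le_induction with
  | base => exact le_rfl
  | succ j hj ih =>
    have h1 := gam_succ hm q j
    have hH := H2_ge hm hq
    have hH0 : 0 < H2 m q := by linarith
    have hb := b2_pos hm
    have h2 : (0:ℝ) ≤ H2 m q * (1 + b2 m) ^ j := by positivity
    linarith

/-- the upper bound of the first cost levels -/
lemma gam_start {m : ℕ} (hm : 2 ≤ m) {q : ℝ} (hq : 1 ≤ q) {i : ℕ} (hi : i ≤ 2 * m) :
    gam m q i ≤ 12 * m * (q + 3 * Real.log m + 5) := by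
  refine (gam_mono hm hq hi).trans ?_
  have hM : (2:ℝ) ≤ m := by exact_mod_cast hm
  have hM0 : (0:ℝ) < m := by linarith
  have hb := b2_pos hm
  have hH := H2_ge hm hq
  have hH0 : 0 < H2 m q := by linarith
  have h1 : 1 + ((2 * m : ℕ):ℝ) * (-b2 m) ≤ (1 + (-b2 m)) ^ (2 * m) :=
    one_add_mul_le_pow (by have := b2_le hm; linarith) _
  have h2 : (1 + b2 m) ^ (2 * m) * (1 + (-b2 m)) ^ (2 * m) ≤ 1 := by
    rw [← mul_pow]
    have := b2_le hm
    apply pow_le_one₀
    · nlinarith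
    · nlinarith
  have h3 : 0 ≤ (1 + b2 m) ^ (2 * m) := by positivity
  set x := 1 / (5 * (m:ℝ)) with hx
  have hx1 : 1 + ((2 * m : ℕ):ℝ) * (-b2 m) = 1 - x := by
    have := b2_mul hm
    push_cast
    have e : 2 * (m:ℝ) * (-b2 m) = -(2 * ((m:ℝ) * b2 m)) := by ring
    rw [e, this, hx]
    field_simp
    ring
  have hx0 : 0 < x := by positivity
  have hx2 : x ≤ 1 / 10 := by
    rw [hx]; apply one_div_le_one_div_of_le (by norm_num); linarith
  have h4 : (1 + b2 m) ^ (2 * m) * (1 - x) ≤ 1 := by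
    rw [← hx1]
    exact (mul_le_mul_of_nonneg_left h1 h3).trans h2
  have h5 : (1 + b2 m) ^ (2 * m) - 1 ≤ 10 / 9 * x := by
    nlinarith
  have h6 : 1 + ((1 + b2 m) ^ (2 * m) - 1) / b2 m ≤ 3 * m := by
    have h7 : ((1 + b2 m) ^ (2 * m) - 1) / b2 m ≤ 10 / 9 * (2 * m) := by
      rw [div_le_iff₀ hb]
      refine h5.trans (le_of_eq ?_)
      rw [hx]; unfold b2; field_simp; norm_num
    linarith
  unfold gam
  calc H2 m q * (1 + ((1 + b2 m) ^ (2 * m) - 1) / b2 m) ≤ H2 m q * (3 * m) :=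
        mul_le_mul_of_nonneg_left h6 (by linarith)
    _ = 12 * m * (q + 3 * Real.log m + 5) := by unfold H2; ring

/-- the gain in the exponent -/
lemma gain2 {m : ℕ} (hm : 2 ≤ m) {q : ℝ} (hq : 1 ≤ q) (j : ℕ) :
    H2 m q * (1 + b2 m) ^ (j + (m + 1)) / 4 ≤
      gam m q (j + (m + 1)) - (gam m q j + gam m q (j + m + (m + 1))) / 2 := by
  have hM : (2:ℝ) ≤ m := by exact_mod_cast hm
  have hM0 : (0:ℝ) < m := by linarith
  have hb := b2_pos hm
  have hb40 := b2_le hm
  have hH := H2_ge hm hq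
  have hH0 : 0 < H2 m q := by linarith
  set b := b2 m with hbdef
  have hpow : (0:ℝ) < (1 + b) ^ (m + 1) := by positivity
  -- lower part
  set y := ((m:ℝ) + 1) * b with hy
  have hy0 : 0 ≤ y := by positivity
  have h1 : 1 + y ≤ (1 + b) ^ (m + 1) := by
    have := one_add_mul_le_pow (show (-2:ℝ) ≤ b by linarith) (m + 1)
    push_cast at this
    exact this
  have h2 : 1 / (1 + b) ^ (m + 1) ≤ 1 - y + y ^ 2 := by
    have h3 : 1 / (1 + b) ^ (m + 1) ≤ 1 / (1 + y) :=
      one_div_le_one_div_of_le (by positivity) h1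
    have h4 : 1 / (1 + y) ≤ 1 - y + y ^ 2 := by
      rw [div_le_iff₀ (by positivity)]
      have : 0 ≤ y ^ 3 := by positivity
      nlinarith
    linarith
  -- upper part
  set x := (m:ℝ) * b with hx
  have hx0 : 0 ≤ x := by positivity
  have hx20 : x ≤ 1 / 20 := by
    rw [hx, hbdef, b2_mul hm]
    apply one_div_le_one_div_of_le (by norm_num); linarith
  have h5 : (1 + b) ^ m ≤ 1 + x + 2 * x ^ 2 := by
    have h6 : 1 + (m:ℝ) * (-b) ≤ (1 + (-b)) ^ m := one_add_mul_le_pow (by linarith) m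
    have h7 : (1 + b) ^ m * (1 + (-b)) ^ m ≤ 1 := by
      rw [← mul_pow]
      apply pow_le_one₀
      · nlinarith
      · nlinarith
    have h8 : 0 ≤ (1 + b) ^ m := by positivity
    have h9 : (1 + b) ^ m * (1 - x) ≤ 1 := by
      have : 1 - x = 1 + (m:ℝ) * (-b) := by rw [hx]; ring
      rw [this]
      exact (mul_le_mul_of_nonneg_left h6 h8).trans h7
    have h10 : 1 ≤ (1 + x + 2 * x ^ 2) * (1 - x) := by
      have h11 : (1 + x + 2 * x ^ 2) * (1 - x) = 1 + x ^ 2 * (1 - 2 * x) := by ring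
      rw [h11]
      have : 0 ≤ x ^ 2 * (1 - 2 * x) := mul_nonneg (by positivity) (by linarith)
      linarith
    exact le_of_mul_le_mul_right (h9.trans h10) (by linarith)
  have h6 : b / 2 ≤ 2 - 1 / (1 + b) ^ (m + 1) - (1 + b) ^ m := by
    have h7 : y = x + b := by rw [hy, hx]; ring
    have h8 : x * (m:ℝ) = 1 / 10 := by
      rw [hx, hbdef, b2_mul hm]; field_simp
    have h9 : x ^ 2 = b / 10 := by
      have : x ^ 2 = x * (m:ℝ) * b := by rw [hx]; ring
      rw [this, h8]; ring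
    have h10 : y ^ 2 + 2 * x ^ 2 ≤ b / 2 := by
      have h11 : y ^ 2 = x ^ 2 + 2 * x * b + b ^ 2 := by rw [h7]; ring
      rw [h11, h9]
      nlinarith
    linarith
  have e1 : gam m q (j + (m + 1)) - (gam m q j + gam m q (j + m + (m + 1))) / 2 =
      H2 m q * (1 + b) ^ (j + (m + 1)) / (2 * b) * (2 - 1 / (1 + b) ^ (m + 1) - (1 + b) ^ m) := by
    unfold gam
    rw [← hbdef]
    have e2 : (1 + b) ^ (j + m + (m + 1)) = (1 + b) ^ j * (1 + b) ^ m * (1 + b) ^ (m + 1) := by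
      rw [pow_add, pow_add]
    have e3 : (1 + b) ^ (j + (m + 1)) = (1 + b) ^ j * (1 + b) ^ (m + 1) := pow_add _ _ _
    rw [e2, e3]
    field_simp
    ring
  rw [e1]
  have h7 : 0 ≤ H2 m q * (1 + b) ^ (j + (m + 1)) / (2 * b) := by positivity
  calc H2 m q * (1 + b) ^ (j + (m + 1)) / 4
      = H2 m q * (1 + b) ^ (j + (m + 1)) / (2 * b) * (b / 2) := by field_simp; ring
    _ ≤ _ := mul_le_mul_of_nonneg_left h6 h7

/-- the basic numerical inequality -/
lemma key_num2 {m : ℕ} (hm : 2 ≤ m) {q : ℝ} (hq : 1 ≤ q) (i : ℕ) :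
    12 * Real.exp q * Real.exp (-(H2 m q * (1 + b2 m) ^ i / 4)) ≤ g2 m i := by
  have hM : (2:ℝ) ≤ m := by exact_mod_cast hm
  have hM0 : (0:ℝ) < m := by linarith
  have hb := b2_pos hm
  have hb40 := b2_le hm
  have hH := H2_ge hm hq
  have hH0 : 0 < H2 m q := by linarith
  have hi : (0:ℝ) ≤ i := Nat.cast_nonneg i
  set Y := H2 m q * (1 + b2 m) ^ i / 4 with hY
  have h1 : 1 + (i:ℝ) * b2 m ≤ (1 + b2 m) ^ i := one_add_mul_le_pow (by linarith) i
  have h2 : (q + 3 * Real.log m + 5) + b2 m * i ≤ Y := by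
    have h3 : H2 m q / 4 * (1 + (i:ℝ) * b2 m) ≤ Y := by
      rw [hY]
      have := mul_le_mul_of_nonneg_left h1 (show 0 ≤ H2 m q / 4 by linarith)
      linarith
    have h4 : H2 m q / 4 = q + 3 * Real.log m + 5 := by unfold H2; ring
    have h5 : 1 * (b2 m * i) ≤ H2 m q / 4 * (b2 m * i) :=
      mul_le_mul_of_nonneg_right (by linarith) (by positivity)
    calc (q + 3 * Real.log m + 5) + b2 m * i ≤ H2 m q / 4 + H2 m q / 4 * (b2 m * i) := by
          rw [h4] at h5 ⊢; linarith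
      _ = H2 m q / 4 * (1 + (i:ℝ) * b2 m) := by ring
      _ ≤ Y := h3
  have h3 : Real.exp ((q + 3 * Real.log m + 5) + b2 m * i) =
      Real.exp q * (m:ℝ) ^ 3 * Real.exp 5 * Real.exp (b2 m * i) := by
    rw [Real.exp_add, Real.exp_add, Real.exp_add]
    congr 3
    have : 3 * Real.log m = Real.log ((m:ℝ) ^ 3) := by rw [Real.log_pow]; push_cast; ring
    rw [this, Real.exp_log (by positivity)]
  have h4 : (148:ℝ) ≤ Real.exp 5 := by
    have h5 := Real.exp_one_gt_d9
    have h6 : Real.exp 5 = Real.exp 1 ^ 5 := by rw [← Real.exp_nat_mul]; norm_num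
    have h7 : (2.7182818283 : ℝ) ^ 5 ≤ Real.exp 1 ^ 5 := by gcongr
    rw [h6]
    refine le_trans ?_ h7
    norm_num
  have h5 : (1 + b2 m) ^ i ≤ Real.exp (b2 m * i) := by
    have h6 := Real.add_one_le_exp (b2 m)
    calc (1 + b2 m) ^ i ≤ Real.exp (b2 m) ^ i := by
          apply pow_le_pow_left₀ (by linarith); linarith
      _ = Real.exp (b2 m * i) := by
          rw [← Real.exp_nat_mul]; congr 1; ring
  have h6 : Real.exp q * (m:ℝ) ^ 3 * 148 * (1 + b2 m) ^ i ≤ Real.exp Y := by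
    refine le_trans ?_ (Real.exp_le_exp.2 h2)
    rw [h3]
    gcongr
  have h7 : Real.exp q * (m:ℝ) ^ 3 * 120 * (1 + b2 m) ^ (i + 1) ≤ Real.exp Y := by
    refine le_trans ?_ h6
    have e : (1 + b2 m) ^ (i + 1) = (1 + b2 m) ^ i * (1 + b2 m) := pow_succ _ _
    rw [e]
    have h8 : (120:ℝ) * (1 + b2 m) ≤ 148 := by linarith
    have h9 : 0 ≤ Real.exp q * (m:ℝ) ^ 3 * (1 + b2 m) ^ i := by positivity
    nlinarith
  unfold g2
  rw [le_div_iff₀ (by positivity)]
  have h8 : Real.exp (-Y) * Real.exp Y = 1 := by rw [← Real.exp_add]; simp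
  have h9 : b2 m / m * (10 * (m:ℝ) ^ 3) = 1 := by unfold b2; field_simp
  calc 12 * Real.exp q * Real.exp (-Y) * (1 + b2 m) ^ (i + 1)
      = b2 m / m * Real.exp (-Y) * (Real.exp q * (m:ℝ) ^ 3 * 120 * (1 + b2 m) ^ (i + 1)) := by
        linear_combination (-12 * Real.exp q * Real.exp (-Y) * (1 + b2 m) ^ (i + 1)) * h9
    _ ≤ b2 m / m * Real.exp (-Y) * Real.exp Y := by gcongr
    _ = b2 m / m := by rw [mul_assoc, h8, mul_one]

/-- the number of steps of a stage -/
lemma exists_N2 {m : ℕ} (hm : 2 ≤ m) {q : ℝ} (hq : 1 ≤ q) (j : ℕ) : ∃ N : ℕ, 0 < N ∧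
    1 ≤ N * ((Real.exp (-(gam m q j)) / 2) ^ ((1:ℝ) / 2) *
      Real.exp (-(gam m q (j + m + (m + 1)))) ^ (1 - (1:ℝ) / 2)) ∧
    N * Real.exp (-(gam m q (j + (m + 1)))) ≤ g2 m (j + (m + 1)) * Real.exp (-q) / 4 ∧
    Real.exp q * (N * Real.exp (-(gam m q (j + (m + 1) + 1)))) ≤
      g2 m (j + (m + 1)) ^ 2 * (g2 m (j + (m + 1)) * Real.exp (-q) / 4) / 2 := by
  have hb := b2_pos hm
  have hH := H2_ge hm hq
  have hH0 : 0 < H2 m q := by linarith
  set w := gam m q j with hw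
  set s := gam m q (j + (m + 1)) with hs
  set u := gam m q (j + m + (m + 1)) with hu
  set s' := gam m q (j + (m + 1) + 1) with hs'
  set Y := H2 m q * (1 + b2 m) ^ (j + (m + 1)) / 4 with hY
  have hY0 : 0 ≤ Y := by positivity
  have hw0 : 0 ≤ w := by
    have := gam_ge hm hq j
    have hj : (0:ℝ) ≤ j := Nat.cast_nonneg j
    linarith
  have hu0 : 0 ≤ u := by
    have := gam_ge hm hq (j + m + (m + 1))
    have hj : (0:ℝ) ≤ ((j + m + (m + 1) : ℕ):ℝ) := Nat.cast_nonneg _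
    linarith
  set e := (1/2:ℝ) * w + (1/2) * u with he
  have he0 : 0 ≤ e := by positivity
  have hgain : Y ≤ s - e := by
    have := gain2 hm hq j
    rw [he]
    linarith
  have hus2 : s' - s = 4 * Y := by
    rw [hs', gam_succ hm, hY]; ring
  have hkey := key_num2 hm hq (j + (m + 1))
  rw [← hY] at hkey
  set g := g2 m (j + (m + 1)) with hg
  have hg0 : 0 < g := g2_pos hm _
  have hg1 : g ≤ 1 := g2_le_one hm _
  set N := ⌈2 * Real.exp e⌉₊ with hN
  have h1 : 1 ≤ Real.exp e := Real.one_le_exp he0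
  have hNge : 2 * Real.exp e ≤ N := Nat.le_ceil _
  have hNle : (N:ℝ) ≤ 3 * Real.exp e := by
    have := Nat.ceil_lt_add_one (a := 2 * Real.exp e) (by positivity)
    rw [← hN] at this
    linarith
  have hN0 : 0 < N := by
    have : (0:ℝ) < N := by linarith
    exact_mod_cast this
  have hEq : Real.exp q * Real.exp (-q) = 1 := by rw [← Real.exp_add]; simp
  have hqpos := Real.exp_pos q
  have hY1 : Real.exp (-Y) ≤ g * Real.exp (-q) / 12 := by
    have := mul_le_mul_of_nonneg_right hkey (Real.exp_pos (-q)).le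
    have e1 : 12 * Real.exp q * Real.exp (-Y) * Real.exp (-q) =
        12 * Real.exp (-Y) * (Real.exp q * Real.exp (-q)) := by ring
    rw [e1, hEq, mul_one] at this
    linarith
  have hNs : (N:ℝ) * Real.exp (-s) ≤ 3 * Real.exp (-Y) := by
    calc (N:ℝ) * Real.exp (-s) ≤ 3 * Real.exp e * Real.exp (-s) :=
          mul_le_mul_of_nonneg_right hNle (Real.exp_pos _).le
      _ = 3 * Real.exp (-(s - e)) := by rw [mul_assoc, ← Real.exp_add]; congr 2; ring
      _ ≤ 3 * Real.exp (-Y) := by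
          have := Real.exp_le_exp.2 (neg_le_neg hgain)
          linarith
  refine ⟨N, hN0, ?_, ?_, ?_⟩
  · have h2 : (Real.exp (-w) / 2) ^ ((1:ℝ) / 2) * Real.exp (-u) ^ (1 - (1:ℝ) / 2) =
        (1 / 2 : ℝ) ^ ((1:ℝ) / 2) * Real.exp (-e) := by
      rw [div_eq_mul_one_div, Real.mul_rpow (Real.exp_pos _).le (by norm_num), ← Real.exp_mul,
        ← Real.exp_mul]
      have : Real.exp (-e) = Real.exp (-w * (1 / 2)) * Real.exp (-u * (1 - 1 / 2)) := by
        rw [← Real.exp_add, he]; congr 1; ring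
      rw [this]; ring
    rw [h2]
    have h3 : (1 / 2 : ℝ) ≤ (1 / 2 : ℝ) ^ ((1:ℝ) / 2) := by
      have := Real.rpow_le_rpow_of_exponent_ge (x := (1/2:ℝ)) (by norm_num) (by norm_num)
        (show (1:ℝ) / 2 ≤ 1 by norm_num)
      simpa using this
    have h4 : Real.exp e * Real.exp (-e) = 1 := by rw [← Real.exp_add]; simp
    calc (1:ℝ) = 2 * Real.exp e * (1 / 2 * Real.exp (-e)) := by
          linear_combination (-1:ℝ) * h4
      _ ≤ N * ((1 / 2 : ℝ) ^ ((1:ℝ) / 2) * Real.exp (-e)) := by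
          apply mul_le_mul hNge _ (by positivity) (Nat.cast_nonneg _)
          exact mul_le_mul_of_nonneg_right h3 (Real.exp_pos _).le
  · linarith
  · have h2 : (N:ℝ) * Real.exp (-s') ≤ 3 * Real.exp (-Y) * Real.exp (-Y) ^ 4 := by
      have h3 : Real.exp (-s') = Real.exp (-s) * Real.exp (-(s' - s)) := by
        rw [← Real.exp_add]; congr 1; ring
      have h4 : Real.exp (-(s' - s)) ≤ Real.exp (-Y) ^ 4 := by
        rw [← Real.exp_nat_mul]
        apply Real.exp_le_exp.2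
        push_cast; linarith
      rw [h3, ← mul_assoc]
      exact mul_le_mul hNs h4 (Real.exp_pos _).le (by positivity)
    set x := Real.exp (-Y) with hx
    have hx0 : 0 < x := Real.exp_pos _
    set y := Real.exp (-q) with hy
    have hy0 : 0 < y := Real.exp_pos _
    have hy1 : y ≤ 1 := by rw [hy, Real.exp_le_one_iff]; linarith
    have hx1 : x ≤ 1 := by
      rw [hx, Real.exp_le_one_iff]; linarith
    have h6 : x ^ 5 ≤ (g * y / 12) ^ 3 := by
      calc x ^ 5 ≤ x ^ 3 := pow_le_pow_of_le_one hx0.le hx1 (by norm_num)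
        _ ≤ (g * y / 12) ^ 3 := pow_le_pow_left₀ hx0.le hY1 3
    have h7 : Real.exp q * (g * y / 12) ^ 3 = g ^ 3 * y ^ 2 / 12 ^ 3 := by
      linear_combination (g ^ 3 * y ^ 2 / 12 ^ 3) * hEq
    calc Real.exp q * (N * Real.exp (-s')) ≤ Real.exp q * (3 * x * x ^ 4) :=
          mul_le_mul_of_nonneg_left h2 hqpos.le
      _ = 3 * (Real.exp q * x ^ 5) := by ring
      _ ≤ 3 * (Real.exp q * (g * y / 12) ^ 3) := by gcongr
      _ = 3 * (g ^ 3 * y ^ 2 / 12 ^ 3) := by rw [h7]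
      _ ≤ g ^ 2 * (g * y / 4) / 2 := by
          have h8 : g ^ 3 * y ^ 2 ≤ g ^ 3 * y := by
            apply mul_le_mul_of_nonneg_left _ (by positivity)
            nlinarith
          have h9 : 0 ≤ g ^ 3 * y := by positivity
          nlinarith

end Pool.WS
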