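import Pool.Agent.CIP.EL

set_option autoImplicit false

open MeasureTheory Pointwise Set Filter Topology

namespace Pool.WS

/-! ### Numbers for the third core theorem -/

noncomputable def b3 (m : ℕ) : ℝ := 1 / (60 * (m:ℝ) ^ 2)

noncomputable def H3 (m : ℕ) (q : ℝ) : ℝ := 4 * (q + 3 * Real.log m + 7)

/-- the grid of costs -/
noncomputable def gamt (m : ℕ) (q : ℝ) (i : ℕ) : ℝ :=
  H3 m q * (1 + ((1 + b3 m) ^ i - 1) / b3 m)

/-- the weights -/
noncomputable def g3 (m i : ℕ) : ℝ := b3 m / m / (1 + b3 m) ^ (i + 1)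

lemma b3_pos {m : ℕ} (hm : 2 ≤ m) : 0 < b3 m := by
  have : (0:ℝ) < m := by exact_mod_cast (by omega : 0 < m)
  unfold b3; positivity

lemma b3_le {m : ℕ} (hm : 2 ≤ m) : b3 m ≤ 1 / 240 := by
  have : (2:ℝ) ≤ m := by exact_mod_cast hm
  unfold b3
  apply one_div_le_one_div_of_le (by norm_num)
  nlinarith

lemma b3_mul {m : ℕ} (hm : 2 ≤ m) : (m:ℝ) * b3 m = 1 / (60 * m) := by
  have : (0:ℝ) < m := by exact_mod_cast (by omega : 0 < m)
  unfold b3; field_simp

lemma H3_ge {m : ℕ} (_hm : 2 ≤ m) {q : ℝ} (_hq : 1 ≤ q) : 4 * q + 20 ≤ H3 m q := by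
  have : 0 ≤ Real.log m := Real.log_natCast_nonneg m
  unfold H3; linarith

lemma g3_pos {m : ℕ} (hm : 2 ≤ m) (i : ℕ) : 0 < g3 m i := by
  have := b3_pos hm
  have : (0:ℝ) < m := by exact_mod_cast (by omega : 0 < m)
  unfold g3; positivity

lemma g3_anti {m : ℕ} (hm : 2 ≤ m) {i j : ℕ} (hij : i ≤ j) : g3 m j ≤ g3 m i := by
  have h := b3_pos hm
  have : (0:ℝ) < m := by exact_mod_cast (by omega : 0 < m)
  unfold g3
  apply div_le_div_of_nonneg_left (by positivity) (by positivity)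
  exact pow_le_pow_right₀ (by linarith) (by omega)

lemma sum_g3_le {m : ℕ} (hm : 2 ≤ m) (a J : ℕ) :
    ∑ j ∈ Finset.range J, g3 m (j + a) ≤ 1 / m := by
  have h := b3_pos hm
  have hm0 : (0:ℝ) < m := by exact_mod_cast (by omega : 0 < m)
  have key : ∑ j ∈ Finset.range J, g3 m j = (1 / m) * (1 - 1 / (1 + b3 m) ^ J) := by
    induction J with
    | zero => simp
    | succ J ih =>
      rw [Finset.sum_range_succ, ih]
      unfold g3
      have h1 : (0:ℝ) < (1 + b3 m) ^ J := by positivity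
      rw [pow_succ]
      field_simp
      ring
  calc ∑ j ∈ Finset.range J, g3 m (j + a) ≤ ∑ j ∈ Finset.range J, g3 m j :=
        Finset.sum_le_sum fun j _ => g3_anti hm (by omega)
    _ = (1 / m) * (1 - 1 / (1 + b3 m) ^ J) := key
    _ ≤ (1 / m) * 1 := by
        apply mul_le_mul_of_nonneg_left _ (by positivity)
        have : (0:ℝ) ≤ 1 / (1 + b3 m) ^ J := by positivity
        linarith
    _ = 1 / m := mul_one _

lemma g3_le_one {m : ℕ} (hm : 2 ≤ m) (i : ℕ) : g3 m i ≤ 1 := by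
  have h1 := sum_g3_le hm i 1
  rw [Finset.sum_range_one, zero_add] at h1
  have h2 : (1:ℝ) / m ≤ 1 := by
    have : (2:ℝ) ≤ m := by exact_mod_cast hm
    rw [div_le_one (by linarith)]; linarith
  linarith

lemma gamt_succ {m : ℕ} (hm : 2 ≤ m) (q : ℝ) (i : ℕ) :
    gamt m q (i + 1) - gamt m q i = H3 m q * (1 + b3 m) ^ i := by
  have h := b3_pos hm
  unfold gamt
  rw [pow_succ]
  field_simp
  ring

lemma gamt_zero (m : ℕ) (q : ℝ) : gamt m q 0 = H3 m q := by
  unfold gamt; simp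

lemma gamt_ge {m : ℕ} (hm : 2 ≤ m) {q : ℝ} (hq : 1 ≤ q) (i : ℕ) : 4 * q + 20 + i ≤ gamt m q i := by
  have hH := H3_ge hm hq
  have hH0 : 0 < H3 m q := by linarith
  have hb := b3_pos hm
  induction i with
  | zero => rw [gamt_zero]; simpa using hH
  | succ i ih =>
    have h1 := gamt_succ hm q i
    have h2 : (1:ℝ) ≤ (1 + b3 m) ^ i := one_le_pow₀ (by linarith)
    push_cast
    nlinarith

lemma gamt_mono {m : ℕ} (hm : 2 ≤ m) {q : ℝ} (hq : 1 ≤ q) {i j : ℕ} (hij : i ≤ j) :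
    gamt m q i ≤ gamt m q j := by
  induction j, hij using Nat.le_induction with
  | base => exact le_rfl
  | succ j hj ih =>
    have h1 := gamt_succ hm q j
    have hH := H3_ge hm hq
    have hH0 : 0 < H3 m q := by linarith
    have hb := b3_pos hm
    have h2 : (0:ℝ) ≤ H3 m q * (1 + b3 m) ^ j := by positivity
    linarith

/-- the upper bound of the cost levels -/
lemma gamt_le {m : ℕ} (hm : 2 ≤ m) {q : ℝ} (hq : 1 ≤ q) {i c : ℕ} (hc1 : 1 ≤ c) (hc : c ≤ m ^ 2)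
    (hi : i ≤ 6 * c) : gamt m q i < 32 * c * (q + 3 * Real.log m + 7) := by
  refine (gamt_mono hm hq hi).trans_lt ?_
  have hM : (2:ℝ) ≤ m := by exact_mod_cast hm
  have hM0 : (0:ℝ) < m := by linarith
  have hb := b3_pos hm
  have hH := H3_ge hm hq
  have hH0 : 0 < H3 m q := by linarith
  have hcr : (1:ℝ) ≤ c := by exact_mod_cast hc1
  have hcm : (c:ℝ) ≤ (m:ℝ) ^ 2 := by exact_mod_cast hc
  have h1 : 1 + ((6 * c : ℕ):ℝ) * (-b3 m) ≤ (1 + (-b3 m)) ^ (6 * c) :=
    one_add_mul_le_pow (by have := b3_le hm; linarith) _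
  have h2 : (1 + b3 m) ^ (6 * c) * (1 + (-b3 m)) ^ (6 * c) ≤ 1 := by
    rw [← mul_pow]
    have := b3_le hm
    apply pow_le_one₀
    · nlinarith
    · nlinarith
  have h3 : 0 ≤ (1 + b3 m) ^ (6 * c) := by positivity
  set x := 6 * (c:ℝ) * b3 m with hx
  have hx1 : 1 + ((6 * c : ℕ):ℝ) * (-b3 m) = 1 - x := by
    push_cast; rw [hx]; ring
  have hx0 : 0 < x := by positivity
  have hx2 : x ≤ 1 / 10 := by
    have e : (m:ℝ) ^ 2 * b3 m = 1 / 60 := by unfold b3; field_simp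
    have h4 : (c:ℝ) * b3 m ≤ 1 / 60 := by
      rw [← e]; exact mul_le_mul_of_nonneg_right hcm hb.le
    rw [hx]; linarith
  have h4 : (1 + b3 m) ^ (6 * c) * (1 - x) ≤ 1 := by
    rw [← hx1]
    exact (mul_le_mul_of_nonneg_left h1 h3).trans h2
  have h5 : (1 + b3 m) ^ (6 * c) - 1 ≤ 10 / 9 * x := by
    nlinarith [h4, hx0, hx2, mul_nonneg h3 hx0.le]
  have h6 : 1 + ((1 + b3 m) ^ (6 * c) - 1) / b3 m < 8 * c := by
    have h7 : ((1 + b3 m) ^ (6 * c) - 1) / b3 m ≤ 20 / 3 * c := by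
      rw [div_le_iff₀ hb]
      refine h5.trans (le_of_eq ?_)
      rw [hx]; ring
    linarith
  unfold gamt
  calc H3 m q * (1 + ((1 + b3 m) ^ (6 * c) - 1) / b3 m) < H3 m q * (8 * c) :=
        mul_lt_mul_of_pos_left h6 hH0
    _ = 32 * c * (q + 3 * Real.log m + 7) := by unfold H3; ring

/-- the gain in the exponent -/
lemma gain3 {m : ℕ} (hm : 2 ≤ m) {q : ℝ} (hq : 1 ≤ q) (j : ℕ) {d : ℕ} (hd : d ≤ 2 * m + 1) :
    H3 m q * (1 + b3 m) ^ (j + (d + 1)) / 4 ≤
      gamt m q (j + (d + 1)) - (gamt m q j + gamt m q (j + d + (d + 1))) / 2 := by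
  have hM : (2:ℝ) ≤ m := by exact_mod_cast hm
  have hM0 : (0:ℝ) < m := by linarith
  have hb := b3_pos hm
  have hb40 := b3_le hm
  have hH := H3_ge hm hq
  have hH0 : 0 < H3 m q := by linarith
  set b := b3 m with hbdef
  have hdr : (d:ℝ) ≤ 2 * m + 1 := by exact_mod_cast hd
  have hd0 : (0:ℝ) ≤ d := Nat.cast_nonneg d
  have hpow : (0:ℝ) < (1 + b) ^ (d + 1) := by positivity
  -- lower part
  set y := ((d:ℝ) + 1) * b with hy
  have hy0 : 0 ≤ y := by positivity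
  have h1 : 1 + y ≤ (1 + b) ^ (d + 1) := by
    have := one_add_mul_le_pow (show (-2:ℝ) ≤ b by linarith) (d + 1)
    push_cast at this
    exact this
  have h2 : 1 / (1 + b) ^ (d + 1) ≤ 1 - y + y ^ 2 := by
    have h3 : 1 / (1 + b) ^ (d + 1) ≤ 1 / (1 + y) :=
      one_div_le_one_div_of_le (by positivity) h1
    have h4 : 1 / (1 + y) ≤ 1 - y + y ^ 2 := by
      rw [div_le_iff₀ (by positivity)]
      have : 0 ≤ y ^ 3 := by positivity
      nlinarith
    linarith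
  -- upper part
  set x := (d:ℝ) * b with hx
  have hx0 : 0 ≤ x := by positivity
  have hyx : y = x + b := by rw [hy, hx]; ring
  -- the size of `y`
  have hyb : y ^ 2 ≤ 3 / 20 * b := by
    have h3 : (d:ℝ) + 1 ≤ 2 * m + 2 := by linarith
    have h4 : ((d:ℝ) + 1) ^ 2 ≤ (2 * m + 2) ^ 2 := pow_le_pow_left₀ (by positivity) h3 2
    have h5 : (2 * (m:ℝ) + 2) ^ 2 ≤ 9 * (m:ℝ) ^ 2 := by nlinarith
    have e : (m:ℝ) ^ 2 * b = 1 / 60 := by rw [hbdef]; unfold b3; field_simp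
    have h6 : ((d:ℝ) + 1) ^ 2 * b ≤ 3 / 20 := by
      calc ((d:ℝ) + 1) ^ 2 * b ≤ 9 * (m:ℝ) ^ 2 * b :=
            mul_le_mul_of_nonneg_right (h4.trans h5) hb.le
        _ = 3 / 20 := by rw [mul_assoc, e]; norm_num
    calc y ^ 2 = ((d:ℝ) + 1) ^ 2 * b * b := by rw [hy]; ring
      _ ≤ 3 / 20 * b := mul_le_mul_of_nonneg_right h6 hb.le
  have hxb : x ^ 2 ≤ 3 / 20 * b := by
    refine le_trans (pow_le_pow_left₀ hx0 (by linarith) 2) hyb
  have hx20 : x ≤ 1 / 20 := by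
    have h3 : x ^ 2 ≤ (1 / 20 : ℝ) ^ 2 := by nlinarith
    exact (pow_le_pow_iff_left₀ hx0 (by norm_num) (by norm_num)).1 h3
  have h5 : (1 + b) ^ d ≤ 1 + x + 2 * x ^ 2 := by
    have h6 : 1 + (d:ℝ) * (-b) ≤ (1 + (-b)) ^ d := one_add_mul_le_pow (by linarith) d
    have h7 : (1 + b) ^ d * (1 + (-b)) ^ d ≤ 1 := by
      rw [← mul_pow]
      apply pow_le_one₀
      · nlinarith
      · nlinarith
    have h8 : 0 ≤ (1 + b) ^ d := by positivity
    have h9 : (1 + b) ^ d * (1 - x) ≤ 1 := by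
      have : 1 - x = 1 + (d:ℝ) * (-b) := by rw [hx]; ring
      rw [this]
      exact (mul_le_mul_of_nonneg_left h6 h8).trans h7
    have h10 : 1 ≤ (1 + x + 2 * x ^ 2) * (1 - x) := by
      have h11 : (1 + x + 2 * x ^ 2) * (1 - x) = 1 + x ^ 2 * (1 - 2 * x) := by ring
      rw [h11]
      have : 0 ≤ x ^ 2 * (1 - 2 * x) := mul_nonneg (by positivity) (by linarith)
      linarith
    exact le_of_mul_le_mul_right (h9.trans h10) (by linarith)
  have h6 : b / 2 ≤ 2 - 1 / (1 + b) ^ (d + 1) - (1 + b) ^ d := by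
    linarith
  have e1 : gamt m q (j + (d + 1)) - (gamt m q j + gamt m q (j + d + (d + 1))) / 2 =
      H3 m q * (1 + b) ^ (j + (d + 1)) / (2 * b) * (2 - 1 / (1 + b) ^ (d + 1) - (1 + b) ^ d) := by
    unfold gamt
    rw [← hbdef]
    have e2 : (1 + b) ^ (j + d + (d + 1)) = (1 + b) ^ j * (1 + b) ^ d * (1 + b) ^ (d + 1) := by
      rw [pow_add, pow_add]
    have e3 : (1 + b) ^ (j + (d + 1)) = (1 + b) ^ j * (1 + b) ^ (d + 1) := pow_add _ _ _
    rw [e2, e3]
    field_simp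
    ring
  rw [e1]
  have h7 : 0 ≤ H3 m q * (1 + b) ^ (j + (d + 1)) / (2 * b) := by positivity
  calc H3 m q * (1 + b) ^ (j + (d + 1)) / 4
      = H3 m q * (1 + b) ^ (j + (d + 1)) / (2 * b) * (b / 2) := by field_simp; ring
    _ ≤ _ := mul_le_mul_of_nonneg_left h6 h7

/-- the basic numerical inequality -/
lemma key_num3 {m : ℕ} (hm : 2 ≤ m) {q : ℝ} (hq : 1 ≤ q) (i : ℕ) :
    12 * Real.exp q * Real.exp (-(H3 m q * (1 + b3 m) ^ i / 4)) ≤ g3 m i := by
  have hM : (2:ℝ) ≤ m := by exact_mod_cast hm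
  have hM0 : (0:ℝ) < m := by linarith
  have hb := b3_pos hm
  have hb40 := b3_le hm
  have hH := H3_ge hm hq
  have hH0 : 0 < H3 m q := by linarith
  have hi : (0:ℝ) ≤ i := Nat.cast_nonneg i
  set Y := H3 m q * (1 + b3 m) ^ i / 4 with hY
  have h1 : 1 + (i:ℝ) * b3 m ≤ (1 + b3 m) ^ i := one_add_mul_le_pow (by linarith) i
  have h2 : (q + 3 * Real.log m + 7) + b3 m * i ≤ Y := by
    have h3 : H3 m q / 4 * (1 + (i:ℝ) * b3 m) ≤ Y := by
      rw [hY]
      have := mul_le_mul_of_nonneg_left h1 (show 0 ≤ H3 m q / 4 by linarith)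
      linarith
    have h4 : H3 m q / 4 = q + 3 * Real.log m + 7 := by unfold H3; ring
    have h5 : 1 * (b3 m * i) ≤ H3 m q / 4 * (b3 m * i) :=
      mul_le_mul_of_nonneg_right (by linarith) (by positivity)
    calc (q + 3 * Real.log m + 7) + b3 m * i ≤ H3 m q / 4 + H3 m q / 4 * (b3 m * i) := by
          rw [h4] at h5 ⊢; linarith
      _ = H3 m q / 4 * (1 + (i:ℝ) * b3 m) := by ring
      _ ≤ Y := h3
  have h3 : Real.exp ((q + 3 * Real.log m + 7) + b3 m * i) =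
      Real.exp q * (m:ℝ) ^ 3 * Real.exp 7 * Real.exp (b3 m * i) := by
    rw [Real.exp_add, Real.exp_add, Real.exp_add]
    congr 3
    have : 3 * Real.log m = Real.log ((m:ℝ) ^ 3) := by rw [Real.log_pow]; push_cast; ring
    rw [this, Real.exp_log (by positivity)]
  have h4 : (1000:ℝ) ≤ Real.exp 7 := by
    have h5 := Real.exp_one_gt_d9
    have h6 : Real.exp 7 = Real.exp 1 ^ 7 := by rw [← Real.exp_nat_mul]; norm_num
    have h7 : (2.7182818283 : ℝ) ^ 7 ≤ Real.exp 1 ^ 7 := by gcongr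
    rw [h6]
    refine le_trans ?_ h7
    norm_num
  have h5 : (1 + b3 m) ^ i ≤ Real.exp (b3 m * i) := by
    have h6 := Real.add_one_le_exp (b3 m)
    calc (1 + b3 m) ^ i ≤ Real.exp (b3 m) ^ i := by
          apply pow_le_pow_left₀ (by linarith); linarith
      _ = Real.exp (b3 m * i) := by
          rw [← Real.exp_nat_mul]; congr 1; ring
  have h6 : Real.exp q * (m:ℝ) ^ 3 * 1000 * (1 + b3 m) ^ i ≤ Real.exp Y := by
    refine le_trans ?_ (Real.exp_le_exp.2 h2)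
    rw [h3]
    gcongr
  have h7 : Real.exp q * (m:ℝ) ^ 3 * 720 * (1 + b3 m) ^ (i + 1) ≤ Real.exp Y := by
    refine le_trans ?_ h6
    have e : (1 + b3 m) ^ (i + 1) = (1 + b3 m) ^ i * (1 + b3 m) := pow_succ _ _
    rw [e]
    have h8 : (720:ℝ) * (1 + b3 m) ≤ 1000 := by linarith
    have h9 : 0 ≤ Real.exp q * (m:ℝ) ^ 3 * (1 + b3 m) ^ i := by positivity
    nlinarith
  unfold g3
  rw [le_div_iff₀ (by positivity)]
  have h8 : Real.exp (-Y) * Real.exp Y = 1 := by rw [← Real.exp_add]; simp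
  have h9 : b3 m / m * (60 * (m:ℝ) ^ 3) = 1 := by unfold b3; field_simp
  calc 12 * Real.exp q * Real.exp (-Y) * (1 + b3 m) ^ (i + 1)
      = b3 m / m * Real.exp (-Y) * (Real.exp q * (m:ℝ) ^ 3 * 720 * (1 + b3 m) ^ (i + 1)) := by
        linear_combination (-12 * Real.exp q * Real.exp (-Y) * (1 + b3 m) ^ (i + 1)) * h9
    _ ≤ b3 m / m * Real.exp (-Y) * Real.exp Y := by gcongr
    _ = b3 m / m := by rw [mul_assoc, h8, mul_one]

/-- the number of steps of a stage -/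
lemma exists_N3 {m : ℕ} (hm : 2 ≤ m) {q : ℝ} (hq : 1 ≤ q) (j : ℕ) {d : ℕ} (hd : d ≤ 2 * m + 1) : ∃ N : ℕ, 0 < N ∧
    1 ≤ N * ((Real.exp (-(gamt m q j)) / 2) ^ ((1:ℝ) / 2) *
      Real.exp (-(gamt m q (j + d + (d + 1)))) ^ (1 - (1:ℝ) / 2)) ∧
    N * Real.exp (-(gamt m q (j + (d + 1)))) ≤ g3 m (j + (d + 1)) * Real.exp (-q) / 4 ∧
    Real.exp q * (N * Real.exp (-(gamt m q (j + (d + 1) + 1)))) ≤
      g3 m (j + (d + 1)) ^ 2 * (g3 m (j + (d + 1)) * Real.exp (-q) / 4) / 2 := by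
  have hb := b3_pos hm
  have hH := H3_ge hm hq
  have hH0 : 0 < H3 m q := by linarith
  set w := gamt m q j with hw
  set s := gamt m q (j + (d + 1)) with hs
  set u := gamt m q (j + d + (d + 1)) with hu
  set s' := gamt m q (j + (d + 1) + 1) with hs'
  set Y := H3 m q * (1 + b3 m) ^ (j + (d + 1)) / 4 with hY
  have hY0 : 0 ≤ Y := by positivity
  have hw0 : 0 ≤ w := by
    have := gamt_ge hm hq j
    have hj : (0:ℝ) ≤ j := Nat.cast_nonneg j
    linarith
  have hu0 : 0 ≤ u := by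
    have := gamt_ge hm hq (j + d + (d + 1))
    have hj : (0:ℝ) ≤ ((j + d + (d + 1) : ℕ):ℝ) := Nat.cast_nonneg _
    linarith
  set e := (1/2:ℝ) * w + (1/2) * u with he
  have he0 : 0 ≤ e := by positivity
  have hgain : Y ≤ s - e := by
    have := gain3 hm hq j hd
    rw [he]
    linarith
  have hus2 : s' - s = 4 * Y := by
    rw [hs', gamt_succ hm, hY]; ring
  have hkey := key_num3 hm hq (j + (d + 1))
  rw [← hY] at hkey
  set g := g3 m (j + (d + 1)) with hg
  have hg0 : 0 < g := g3_pos hm _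
  have hg1 : g ≤ 1 := g3_le_one hm _
  set N := ⌈2 * Real.exp e⌉₊ with hN
  have h1 : 1 ≤ Real.exp e := Real.one_le_exp he0
  have hNge : 2 * Real.exp e ≤ N := Nat.le_ceil _
  have hNle : (N:ℝ) ≤ 3 * Real.exp e := by
    have := Nat.ceil_lt_add_one (a := 2 * Real.exp e) (by positivity)
    rw [← hN] at this
    linarith
  have hN0 : 0 < N := by
    have : (0:ℝ) < N := by linarith
    exact_mod_cast this
  have hEq : Real.exp q * Real.exp (-q) = 1 := by rw [← Real.exp_add]; simp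
  have hqpos := Real.exp_pos q
  have hY1 : Real.exp (-Y) ≤ g * Real.exp (-q) / 12 := by
    have := mul_le_mul_of_nonneg_right hkey (Real.exp_pos (-q)).le
    have e1 : 12 * Real.exp q * Real.exp (-Y) * Real.exp (-q) =
        12 * Real.exp (-Y) * (Real.exp q * Real.exp (-q)) := by ring
    rw [e1, hEq, mul_one] at this
    linarith
  have hNs : (N:ℝ) * Real.exp (-s) ≤ 3 * Real.exp (-Y) := by
    calc (N:ℝ) * Real.exp (-s) ≤ 3 * Real.exp e * Real.exp (-s) :=
          mul_le_mul_of_nonneg_right hNle (Real.exp_pos _).le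
      _ = 3 * Real.exp (-(s - e)) := by rw [mul_assoc, ← Real.exp_add]; congr 2; ring
      _ ≤ 3 * Real.exp (-Y) := by
          have := Real.exp_le_exp.2 (neg_le_neg hgain)
          linarith
  refine ⟨N, hN0, ?_, ?_, ?_⟩
  · have h2 : (Real.exp (-w) / 2) ^ ((1:ℝ) / 2) * Real.exp (-u) ^ (1 - (1:ℝ) / 2) =
        (1 / 2 : ℝ) ^ ((1:ℝ) / 2) * Real.exp (-e) := by
      rw [div_eq_mul_one_div, Real.mul_rpow (Real.exp_pos _).le (by norm_num), ← Real.exp_mul,
        ← Real.exp_mul]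
      have : Real.exp (-e) = Real.exp (-w * (1 / 2)) * Real.exp (-u * (1 - 1 / 2)) := by
        rw [← Real.exp_add, he]; congr 1; ring
      rw [this]; ring
    rw [h2]
    have h3 : (1 / 2 : ℝ) ≤ (1 / 2 : ℝ) ^ ((1:ℝ) / 2) := by
      have := Real.rpow_le_rpow_of_exponent_ge (x := (1/2:ℝ)) (by norm_num) (by norm_num)
        (show (1:ℝ) / 2 ≤ 1 by norm_num)
      simpa using this
    have h4 : Real.exp e * Real.exp (-e) = 1 := by rw [← Real.exp_add]; simp
    calc (1:ℝ) = 2 * Real.exp e * (1 / 2 * Real.exp (-e)) := by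
          linear_combination (-1:ℝ) * h4
      _ ≤ N * ((1 / 2 : ℝ) ^ ((1:ℝ) / 2) * Real.exp (-e)) := by
          apply mul_le_mul hNge _ (by positivity) (Nat.cast_nonneg _)
          exact mul_le_mul_of_nonneg_right h3 (Real.exp_pos _).le
  · linarith
  · have h2 : (N:ℝ) * Real.exp (-s') ≤ 3 * Real.exp (-Y) * Real.exp (-Y) ^ 4 := by
      have h3 : Real.exp (-s') = Real.exp (-s) * Real.exp (-(s' - s)) := by
        rw [← Real.exp_add]; congr 1; ring
      have h4 : Real.exp (-(s' - s)) ≤ Real.exp (-Y) ^ 4 := by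
        rw [← Real.exp_nat_mul]
        apply Real.exp_le_exp.2
        push_cast; linarith
      rw [h3, ← mul_assoc]
      exact mul_le_mul hNs h4 (Real.exp_pos _).le (by positivity)
    set x := Real.exp (-Y) with hx
    have hx0 : 0 < x := Real.exp_pos _
    set y := Real.exp (-q) with hy
    have hy0 : 0 < y := Real.exp_pos _
    have hy1 : y ≤ 1 := by rw [hy, Real.exp_le_one_iff]; linarith
    have hx1 : x ≤ 1 := by
      rw [hx, Real.exp_le_one_iff]; linarith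
    have h6 : x ^ 5 ≤ (g * y / 12) ^ 3 := by
      calc x ^ 5 ≤ x ^ 3 := pow_le_pow_of_le_one hx0.le hx1 (by norm_num)
        _ ≤ (g * y / 12) ^ 3 := pow_le_pow_left₀ hx0.le hY1 3
    have h7 : Real.exp q * (g * y / 12) ^ 3 = g ^ 3 * y ^ 2 / 12 ^ 3 := by
      linear_combination (g ^ 3 * y ^ 2 / 12 ^ 3) * hEq
    calc Real.exp q * (N * Real.exp (-s')) ≤ Real.exp q * (3 * x * x ^ 4) :=
          mul_le_mul_of_nonneg_left h2 hqpos.le
      _ = 3 * (Real.exp q * x ^ 5) := by ring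
      _ ≤ 3 * (Real.exp q * (g * y / 12) ^ 3) := by gcongr
      _ = 3 * (g ^ 3 * y ^ 2 / 12 ^ 3) := by rw [h7]
      _ ≤ g ^ 2 * (g * y / 4) / 2 := by
          have h8 : g ^ 3 * y ^ 2 ≤ g ^ 3 * y := by
            apply mul_le_mul_of_nonneg_left _ (by positivity)
            nlinarith
          have h9 : 0 ≤ g ^ 3 * y := by positivity
          nlinarith

end Pool.WS
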