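import Pool.Agent.CIP.EP3
import Pool.Agent.CIP.EL

set_option autoImplicit false

open MeasureTheory Pointwise Set Filter Topology

namespace Pool.WS

variable {E : Type*} [NormedAddCommGroup E] [NormedSpace ℝ E] [MeasurableSpace E] [BorelSpace E]
  {μ : Measure E}

/-- the cost levels of the bodies -/
noncomputable def L3 (B : ℕ) (q : ℝ) (b : ℕ) : ℝ := 32 * 4 ^ b * (q + 3 * Real.log (2 ^ B) + 7)

lemma gamt_lt_L3 {B : ℕ} (hB : 1 ≤ B) {q : ℝ} (hq : 1 ≤ q) {b s : ℕ} (hb : b ≤ B)
    (hs : s ≤ 4 ^ b + 5) : gamt (2 ^ B) q s < L3 B q b := by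
  have hm : 2 ≤ 2 ^ B := by
    calc 2 = 2 ^ 1 := rfl
      _ ≤ 2 ^ B := Nat.pow_le_pow_right (by norm_num) hB
  have h1 : 1 ≤ 4 ^ b := Nat.one_le_pow _ _ (by norm_num)
  have h2 : 4 ^ b ≤ (2 ^ B) ^ 2 := by
    rw [← pow_mul, mul_comm, pow_mul]
    exact Nat.pow_le_pow_right (by norm_num) hb
  have h3 := gamt_le (m := 2 ^ B) hm hq (i := s) (c := 4 ^ b) h1 h2 (by omega)
  unfold L3
  push_cast at h3
  exact h3

/-- the quantile is bounded by any level with small mass above it -/
lemma qt_le_of [IsProbabilityMeasure μ] {w : E →L[ℝ] ℝ} {l h c T : ℝ} {A A' : Set E}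
    (hlh : l ≤ h) (hA : A' ⊆ A) (hlT : l ≤ T) (hT : μ.real (A ∩ ou w T) < c) :
    qt μ w l h c A' ≤ T := by
  refine csSup_le ⟨l, mem_qset hlh⟩ ?_
  rintro x ⟨_, _, h3⟩
  rcases h3 with h3 | h3
  · rw [h3]; exact hlT
  · by_contra hcon
    push Not at hcon
    have h4 : μ.real (A' ∩ up w x) ≤ μ.real (A ∩ ou w T) := by
      refine measureReal_mono ?_ (measure_ne_top μ _)
      intro y hy
      exact ⟨hA hy.1, lt_of_lt_of_le hcon hy.2⟩
    linarith

/-- **The third core theorem** (quadratic grid). -/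
theorem core3 [CompleteSpace E] [SecondCountableTopology E] [IsProbabilityMeasure μ]
    {B0 : ℕ} (hB0 : 1 ≤ B0) (hlc : WLC μ (1 / 2)) {q : ℝ} (hq : 1 ≤ q)
    {A : Set E} (hA : MeasurableSet A) {ι : Type*} [DecidableEq ι] (V : Finset ι)
    (φ : ι → E →L[ℝ] ℝ) (l h t₀ : ι → ℝ) (T : ℕ → ι → ℝ)
    (hh : ∀ i ∈ V, ∀ x ∈ A, φ i x ≤ h i)
    (hl : ∀ i ∈ V, 4 * Real.exp (-q) ≤ μ.real (A ∩ up (φ i) (l i)))
    (h0 : ∀ i ∈ V, μ.real (up (φ i) (t₀ i)) ≤ Real.exp (-(L3 B0 q 0)))
    (hTl : ∀ b ≤ B0, ∀ i ∈ V, l i ≤ T b i)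
    (hTμ : ∀ b ≤ B0, ∀ i ∈ V, μ.real (A ∩ ou (φ i) (T b i)) ≤ Real.exp (-(L3 B0 q b))) :
    μ.real (⋃ i ∈ V, up (φ i) (t₀ i + (1 + 11 / 2 ^ B0) * (h i - l i) +
      20 * ∑ b ∈ Finset.range (B0 + 1), (1 / 2 ^ b) * (T b i - l i))) ≤ Real.exp (-q) := by
  classical
  obtain ⟨m, hmB⟩ : ∃ m, m = 2 ^ B0 := ⟨_, rfl⟩
  have hm : 2 ≤ m := by
    rw [hmB]
    calc 2 = 2 ^ 1 := rfl
      _ ≤ 2 ^ B0 := Nat.pow_le_pow_right (by norm_num) hB0
  have hmr : (2:ℝ) ^ B0 = m := by rw [hmB]; push_cast; rfl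
  rw [hmr]
  by_contra hcon
  push Not at hcon
  have hM : (2:ℝ) ≤ m := by exact_mod_cast hm
  have hM0 : (0:ℝ) < m := by linarith
  have hqpos := Real.exp_pos (-q)
  have hq1 : Real.exp (-q) ≤ 1 := by rw [Real.exp_le_one_iff]; linarith
  have hEq : Real.exp q * Real.exp (-q) = 1 := by rw [← Real.exp_add]; simp
  have hm1 : (1:ℝ) / m ≤ 1 / 2 := one_div_le_one_div_of_le (by norm_num) hM
  have hr : ∀ i ∈ V, l i ≤ h i := by
    intro i hi
    have h1 : (A ∩ up (φ i) (l i)).Nonempty := by
      rw [nonempty_iff_ne_empty]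
      intro h2
      have h3 := hl i hi
      rw [h2] at h3
      simp at h3
      linarith
    obtain ⟨x, hx, hx'⟩ := h1
    have h2 : l i ≤ φ i x := hx'
    exact h2.trans (hh i hi x hx)
  set Sm : ι → ℝ := fun i => ∑ b ∈ Finset.range (B0 + 1), (1 / 2 ^ b) * (T b i - l i) with hSm
  have hSm0 : ∀ i ∈ V, 0 ≤ Sm i := fun i hi => Finset.sum_nonneg fun b hb => by
    have := hTl b (by have := Finset.mem_range.1 hb; omega) i hi
    exact mul_nonneg (by positivity) (by linarith)
  set U : ι → Set E := fun i => up (φ i) (t₀ i + (1 + 11 / m) * (h i - l i) + 20 * Sm i) with hU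
  obtain ⟨Pc, hPm, hPU, hPd, hPc⟩ := exists_partition V U fun i => meas_up _ _
  have hPsum : ∑ i ∈ V, μ.real (Pc i) ≤ 1 := by
    rw [← measureReal_biUnion_finset hPd fun i _ => hPm i]
    exact measureReal_le_one
  have hPbig : Real.exp (-q) < ∑ i ∈ V, μ.real (Pc i) := by
    refine hcon.trans_le ((measureReal_mono hPc (measure_ne_top μ _)).trans ?_)
    exact measureReal_biUnion_finset_le _ _
  -- the number of scales
  obtain ⟨J, hJm, hJ⟩ : ∃ J : ℕ, m ≤ J ∧ V.card * Real.exp (-(gamt m q J)) < Real.exp (-q) / 4 := by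
    have hlim : Tendsto (fun j : ℕ => (V.card : ℝ) * Real.exp (-(j:ℝ))) atTop
        (𝓝 ((V.card:ℝ) * 0)) :=
      (Real.tendsto_exp_neg_atTop_nhds_zero.comp tendsto_natCast_atTop_atTop).const_mul _
    rw [mul_zero] at hlim
    obtain ⟨J, hJ, hJm⟩ := ((hlim.eventually (gt_mem_nhds
      (show (0:ℝ) < Real.exp (-q) / 4 by positivity))).and (eventually_ge_atTop m)).exists
    refine ⟨J, hJm, lt_of_le_of_lt ?_ hJ⟩
    apply mul_le_mul_of_nonneg_left _ (Nat.cast_nonneg _)
    apply Real.exp_le_exp.2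
    have := gamt_ge hm hq J
    linarith
  set I := 2 * (J * m) + 5 with hI
  set G : ℕ → ℝ := fun j => g3 m (j + 2) with hG
  have hGpos : ∀ j, 0 < G j := fun j => g3_pos hm _
  have hG1 : ∀ j, G j ≤ 1 := fun j => g3_le_one hm _
  have hGanti : ∀ i j, i ≤ j → G j ≤ G i := fun i j hij => g3_anti hm (by omega)
  have hGsum : ∑ j ∈ Finset.range I, G j ≤ 1 / m := sum_g3_le hm _ _
  set f : ℕ → ι → Set E → ℝ := fun j i B => qt μ (φ i) (l i) (h i) (Real.exp (-(gamt m q j))) B
    with hf
  set Ps : ℕ → Set E → ℝ := fun j B => ∑ i ∈ V, μ.real (Pc i) * ((f j i B - l i) / (h i - l i))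
    with hPs
  set Pot : Set E → ℝ := fun B => ∑ j ∈ Finset.range I, G j * Ps j B - Real.exp q * μ.real B
    with hPot
  have hratio : ∀ j, ∀ i ∈ V, ∀ B, 0 ≤ (f j i B - l i) / (h i - l i) ∧
      (f j i B - l i) / (h i - l i) ≤ 1 := by
    intro j i hi B
    have h1 := hr i hi
    have h2 : l i ≤ f j i B := qt_ge h1
    have h3 : f j i B ≤ h i := qt_le h1
    refine ⟨div_nonneg (by linarith) (by linarith), div_le_one_of_le₀ (by linarith) (by linarith)⟩
  have hPs0 : ∀ j B, 0 ≤ Ps j B := fun j B => Finset.sum_nonneg fun i hi =>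
    mul_nonneg measureReal_nonneg (hratio j i hi B).1
  have hPs1 : ∀ j B, Ps j B ≤ 1 := by
    intro j B
    refine le_trans (Finset.sum_le_sum fun i hi => ?_) hPsum
    exact mul_le_of_le_one_right measureReal_nonneg (hratio j i hi B).2
  have hPsmono : ∀ j B B', B ⊆ B' → Ps j B ≤ Ps j B' := by
    intro j B B' hBB
    refine Finset.sum_le_sum fun i hi => mul_le_mul_of_nonneg_left ?_ measureReal_nonneg
    have h1 := hr i hi
    have h2 : f j i B ≤ f j i B' := qt_mono h1 hBB
    exact div_le_div_of_nonneg_right (by linarith) (by linarith)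
  set τ := G I ^ 2 * (G I * Real.exp (-q) / 4) / 2 with hτ
  have hgJ := hGpos I
  have hτ0 : 0 < τ := by positivity
  have hτ1 : τ ≤ 1 := by
    have h1 := hG1 I
    have h2 : G I ^ 2 ≤ 1 := pow_le_one₀ hgJ.le h1
    have h3 : G I * Real.exp (-q) ≤ 1 := by nlinarith
    have h4 : 0 ≤ G I * Real.exp (-q) := by positivity
    have h5 : 0 ≤ G I ^ 2 := by positivity
    rw [hτ]
    nlinarith
  obtain ⟨A1, hA1A, hA1m, hmin⟩ : ∃ A1 ⊆ A, MeasurableSet A1 ∧
      ∀ B ⊆ A, MeasurableSet B → Pot A1 ≤ Pot B + τ := by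
    have : Nonempty {B : Set E // B ⊆ A ∧ MeasurableSet B} := ⟨⟨A, subset_rfl, hA⟩⟩
    obtain ⟨⟨A1, h1, h2⟩, h3⟩ := near_min (X := {B : Set E // B ⊆ A ∧ MeasurableSet B})
      (fun B => Pot B.1) ⟨-Real.exp q, by
        rintro _ ⟨B, rfl⟩
        have h1 : 0 ≤ ∑ j ∈ Finset.range I, G j * Ps j B.1 :=
          Finset.sum_nonneg fun j _ => mul_nonneg (hGpos j).le (hPs0 j _)
        have h2 : μ.real B.1 ≤ 1 := measureReal_le_one
        have h3 := Real.exp_pos q
        simp only [hPot]
        nlinarith⟩ hτ0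
    exact ⟨A1, h1, h2, fun B hB hB' => h3 ⟨B, hB, hB'⟩⟩
  have hmassA1 : μ.real A - 2 * Real.exp (-q) ≤ μ.real A1 := by
    have h1 := hmin A subset_rfl hA
    have h2 : 0 ≤ ∑ j ∈ Finset.range I, G j * Ps j A1 :=
      Finset.sum_nonneg fun j _ => mul_nonneg (hGpos j).le (hPs0 j _)
    have h3 : ∑ j ∈ Finset.range I, G j * Ps j A ≤ 1 := by
      refine le_trans (Finset.sum_le_sum (g := G) fun j _ => ?_) (hGsum.trans (by linarith))
      exact mul_le_of_le_one_right (hGpos j).le (hPs1 j A)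
    simp only [hPot] at h1
    have h4 : Real.exp q * (μ.real A - μ.real A1) ≤ 2 := by linarith
    have h5 : μ.real A - μ.real A1 ≤ 2 * Real.exp (-q) := by
      calc μ.real A - μ.real A1 = Real.exp q * (μ.real A - μ.real A1) * Real.exp (-q) := by
            linear_combination (-(μ.real A - μ.real A1)) * hEq
        _ ≤ 2 * Real.exp (-q) := mul_le_mul_of_nonneg_right h4 hqpos.le
    linarith
  have hgj1 : ∀ j, Real.exp (-(gamt m q j)) ≤ Real.exp (-q) := by
    intro j
    apply Real.exp_le_exp.2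
    have := gamt_ge hm hq j
    have hj : (0:ℝ) ≤ j := Nat.cast_nonneg j
    linarith
  -- no drop
  have hND : ∀ j < I, ∀ ν' : ℝ, Real.exp q * ν' ≤ G j ^ 2 * (G j * Real.exp (-q) / 4) / 2 →
      ∀ B ⊆ A1, MeasurableSet B → μ.real A1 - ν' ≤ μ.real B → ∀ W ⊆ V,
      (∀ i ∈ W, μ.real (B ∩ up (φ i) (f j i A1 - G j * (h i - l i))) <
        Real.exp (-(gamt m q j))) → ∑ i ∈ W, μ.real (Pc i) ≤ G j * Real.exp (-q) / 4 := by
    intro j hj ν' hν' B hB hBm hBμ W hW hdrop
    have hg := hGpos j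
    have hg1 := hG1 j
    have h1 := hmin B (hB.trans hA1A) hBm
    have hν1 : ν' ≤ Real.exp (-q) := by
      have h2 : G j ^ 2 * (G j * Real.exp (-q) / 4) / 2 ≤ 1 := by
        have h2 : G j ^ 2 ≤ 1 := pow_le_one₀ hg.le hg1
        have h3 : G j * Real.exp (-q) ≤ 1 := by nlinarith
        have h4 : 0 ≤ G j * Real.exp (-q) := by positivity
        have h5 : 0 ≤ G j ^ 2 := by positivity
        nlinarith
      calc ν' = Real.exp q * ν' * Real.exp (-q) := by linear_combination (-ν') * hEq
        _ ≤ 1 * Real.exp (-q) := mul_le_mul_of_nonneg_right (hν'.trans h2) hqpos.le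
        _ = Real.exp (-q) := one_mul _
    -- the quantiles of `B` drop on `W`
    have hq2 : ∀ i ∈ W, 0 < h i - l i ∧ f j i B < f j i A1 - G j * (h i - l i) := by
      intro i hi
      have hri := hr i (hW hi)
      have hBl : Real.exp (-(gamt m q j)) ≤ μ.real (B ∩ up (φ i) (l i)) := by
        have h2 := hl i (hW hi)
        have h3 : μ.real (A ∩ up (φ i) (l i)) ≤ μ.real (B ∩ up (φ i) (l i)) + μ.real (A \ B) := by
          refine le_trans (measureReal_mono ?_ (measure_ne_top μ _)) (measureReal_union_le _ _)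
          intro x hx
          by_cases hx' : x ∈ B
          · exact Or.inl ⟨hx', hx.2⟩
          · exact Or.inr ⟨hx.1, hx'⟩
        have h4 : μ.real (A \ B) = μ.real A - μ.real B :=
          measureReal_sdiff (hB.trans hA1A) hBm
        have h5 := hgj1 j
        linarith
      have h2 : f j i B < f j i A1 - G j * (h i - l i) := by
        by_contra h3
        push Not at h3
        have h4 : Real.exp (-(gamt m q j)) ≤ μ.real (B ∩ up (φ i) (f j i B)) := qt_up hBm hri hBl
        have h5 : μ.real (B ∩ up (φ i) (f j i B)) ≤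
            μ.real (B ∩ up (φ i) (f j i A1 - G j * (h i - l i))) := by
          refine measureReal_mono ?_ (measure_ne_top μ _)
          intro x hx
          exact ⟨hx.1, h3.trans hx.2⟩
        have h6 := hdrop i hi
        linarith
      refine ⟨?_, h2⟩
      rcases hri.eq_or_lt with h3 | h3
      · exfalso
        have h4 : l i ≤ f j i B := qt_ge hri
        have h5 : f j i A1 ≤ h i := qt_le hri
        rw [← h3] at h2 h5
        rw [sub_self, mul_zero, sub_zero] at h2
        linarith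
      · linarith
    -- the potential drops
    have hdropPs : Ps j B ≤ Ps j A1 - G j * ∑ i ∈ W, μ.real (Pc i) := by
      have h2 : ∑ i ∈ W, μ.real (Pc i) * ((f j i B - l i) / (h i - l i)) ≤
          ∑ i ∈ W, (μ.real (Pc i) * ((f j i A1 - l i) / (h i - l i)) - G j * μ.real (Pc i)) := by
        refine Finset.sum_le_sum fun i hi => ?_
        obtain ⟨h3, h4⟩ := hq2 i hi
        have h5 : (f j i B - l i) / (h i - l i) ≤ (f j i A1 - l i) / (h i - l i) - G j := by
          rw [div_le_iff₀ h3, sub_mul, div_mul_cancel₀ _ h3.ne']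
          linarith
        calc μ.real (Pc i) * ((f j i B - l i) / (h i - l i))
            ≤ μ.real (Pc i) * ((f j i A1 - l i) / (h i - l i) - G j) :=
              mul_le_mul_of_nonneg_left h5 measureReal_nonneg
          _ = _ := by ring
      have h3 : ∑ i ∈ V \ W, μ.real (Pc i) * ((f j i B - l i) / (h i - l i)) ≤
          ∑ i ∈ V \ W, μ.real (Pc i) * ((f j i A1 - l i) / (h i - l i)) := by
        refine Finset.sum_le_sum fun i hi => mul_le_mul_of_nonneg_left ?_ measureReal_nonneg
        have hi' := (Finset.mem_sdiff.1 hi).1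
        have h1 := hr i hi'
        have h2 : f j i B ≤ f j i A1 := qt_mono h1 hB
        exact div_le_div_of_nonneg_right (by linarith) (by linarith)
      have h4 := Finset.sum_sdiff (f := fun i => μ.real (Pc i) * ((f j i B - l i) / (h i - l i))) hW
      have h5 := Finset.sum_sdiff (f := fun i => μ.real (Pc i) * ((f j i A1 - l i) / (h i - l i))) hW
      rw [Finset.sum_sub_distrib, ← Finset.mul_sum] at h2
      simp only [hPs]
      linarith
    have hsum : ∑ k ∈ Finset.range I, G k * Ps k B ≤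
        ∑ k ∈ Finset.range I, G k * Ps k A1 - G j * (G j * ∑ i ∈ W, μ.real (Pc i)) := by
      have hjm : j ∈ Finset.range I := Finset.mem_range.2 hj
      rw [← Finset.add_sum_erase _ _ hjm, ← Finset.add_sum_erase _ _ hjm]
      have h2 : ∑ k ∈ (Finset.range I).erase j, G k * Ps k B ≤
          ∑ k ∈ (Finset.range I).erase j, G k * Ps k A1 :=
        Finset.sum_le_sum fun k _ => mul_le_mul_of_nonneg_left (hPsmono k B A1 hB) (hGpos k).le
      have h3 := mul_le_mul_of_nonneg_left hdropPs hg.le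
      linarith
    simp only [hPot] at h1
    have h2 : Real.exp q * (μ.real A1 - μ.real B) ≤ Real.exp q * ν' :=
      mul_le_mul_of_nonneg_left (by linarith) (Real.exp_pos q).le
    have hgJj : G I ≤ G j := hGanti _ _ hj.le
    have hττ : τ ≤ G j ^ 2 * (G j * Real.exp (-q) / 4) / 2 := by
      rw [hτ]; gcongr
    have h3 : G j ^ 2 * ∑ i ∈ W, μ.real (Pc i) ≤
        G j ^ 2 * (G j * Real.exp (-q) / 4) := by
      have h4 : G j ^ 2 * ∑ i ∈ W, μ.real (Pc i) =
          G j * (G j * ∑ i ∈ W, μ.real (Pc i)) := by ring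
      rw [h4]
      linarith
    exact le_of_mul_le_mul_left h3 (by positivity)
  -- the levels
  set F : ℕ → ι → ℝ := fun j i => f j i A1 with hF
  have hFl : ∀ j, ∀ i ∈ V, l i ≤ F j i := fun j i hi => qt_ge (hr i hi)
  have hFh : ∀ j, ∀ i ∈ V, F j i ≤ h i := fun j i hi => qt_le (hr i hi)
  have hFmono : ∀ i ∈ V, ∀ j k, j ≤ k → F j i ≤ F k i := by
    intro i hi j k hjk
    refine csSup_le_csSup qset_bdd ⟨l i, mem_qset (hr i hi)⟩ ?_
    rintro x ⟨h1, h2, h3⟩
    refine ⟨h1, h2, h3.imp_right fun h4 => le_trans ?_ h4⟩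
    apply Real.exp_le_exp.2
    have := gamt_mono hm hq hjk
    linarith
  -- the positions
  set Sg : ℕ → ℕ → ℕ := fun u j => Pk m (u + j * m) + 4 with hSg
  set lam : ℕ → ℕ → ℕ := fun u j => 2 * Sg u j - Sg u (j + 1) - 1 with hlam
  have hSgs : ∀ u j, Sg u (j + 1) = Pk m (u + j * m + m) + 4 := by
    intro u j
    simp only [hSg]
    have : u + (j + 1) * m = u + j * m + m := by ring
    rw [this]
  have hgap1 : ∀ u j, Sg u j + 1 ≤ Sg u (j + 1) := by
    intro u j
    rw [hSgs]
    have := Pk_lt hm (u + j * m)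
    simp only [hSg]; omega
  have hgap2 : ∀ u j, Sg u (j + 1) ≤ Sg u j + (2 * m + 1) := by
    intro u j
    rw [hSgs]
    have := Pk_gap hm (u + j * m)
    simp only [hSg]; omega
  have hsec : ∀ u j, Sg u (j + 2) + Sg u j ≤ 2 * Sg u (j + 1) + 3 := by
    intro u j
    have e := hSgs u (j + 1)
    rw [show j + 1 + 1 = j + 2 from rfl] at e
    rw [e, hSgs]
    have e2 : u + (j + 1) * m + m = u + j * m + m + m := by ring
    rw [e2]
    have := Pk_second hm (u + j * m)
    simp only [hSg]; omega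
  have hlow : ∀ u, u < m → ∀ j, Sg u (j + 1) + 1 ≤ 2 * Sg u j := by
    intro u hu j
    rcases j with _ | j
    · have h1 : Pk m (u + 0 * m) = 0 := by
        rw [zero_mul, add_zero]; exact Pk_zero hu
      have h2 : Pk m (u + 0 * m + m) ≤ 3 := by
        have h3 := Pk_le_iff hm (u + 0 * m + m)
        rw [zero_mul, add_zero] at h3 ⊢
        by_contra h4
        push Not at h4
        have h5 : 4 * m ^ 2 ≤ (u + m) ^ 2 := (Nat.mul_le_mul_right _ h4).trans h3
        have h6 : (u + m) ^ 2 < (2 * m) ^ 2 := Nat.pow_lt_pow_left (by omega) two_ne_zero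
        have h7 : (2 * m) ^ 2 = 4 * m ^ 2 := by ring
        omega
      rw [hSgs]
      simp only [hSg]
      omega
    · have h1 := hsec u j
      have h2 : 4 ≤ Sg u j := by simp only [hSg]; omega
      rw [show j + 1 + 1 = j + 2 from rfl]
      omega
  have hlamS : ∀ u, u < m → ∀ j, ∃ d, d ≤ 2 * m + 1 ∧ Sg u j = lam u j + (d + 1) ∧
      Sg u (j + 1) = lam u j + d + (d + 1) ∧ lam u j + 2 ≤ Sg u j := by
    intro u hu j
    have h1 := hgap1 u j
    have h2 := hgap2 u j
    have h3 := hlow u hu j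
    refine ⟨Sg u (j + 1) - Sg u j, by omega, ?_, ?_, ?_⟩
    · simp only [hlam]; omega
    · simp only [hlam]; omega
    · simp only [hlam]; omega
  have hlamP : ∀ u j, Pk m (u + j * m) ≤ lam u (j + 1) := by
    intro u j
    have h1 := hsec u j
    simp only [hlam]
    rw [show j + 1 + 1 = j + 2 from rfl]
    have h2 : Sg u j = Pk m (u + j * m) + 4 := rfl
    omega
  have hlamI : ∀ u, u < m → ∀ j < J, lam u j < I := by
    intro u hu j hj
    obtain ⟨d, _, h1, _, _⟩ := hlamS u hu j
    have h2 : Sg u j = Pk m (u + j * m) + 4 := rfl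
    have h3 := Pk_le_two hm (u + j * m)
    have h4 : u + j * m < J * m := by
      calc u + j * m < m + j * m := by omega
        _ = (j + 1) * m := by ring
        _ ≤ J * m := Nat.mul_le_mul_right m hj
    rw [hI]; omega
  have hGlam : ∀ u J', ∑ k ∈ Finset.range J', G (lam u k) ≤ 1 / m := by
    intro u J'
    have h1 : ∑ k ∈ Finset.range J', G (lam u k) ≤ G 0 + ∑ k ∈ Finset.range J', G k := by
      rcases J' with _ | J'
      · simp [(hGpos 0).le]
      · rw [Finset.sum_range_succ']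
        have h2 : ∑ k ∈ Finset.range J', G (lam u (k + 1)) ≤ ∑ k ∈ Finset.range J', G k :=
          Finset.sum_le_sum fun k _ => hGanti _ _ ((le_Pk hm u k).trans (hlamP u k))
        have h3 : G (lam u 0) ≤ G 0 := hGanti _ _ (Nat.zero_le _)
        have h4 : ∑ k ∈ Finset.range J', G k ≤ ∑ k ∈ Finset.range (J' + 1), G k := by
          rw [Finset.sum_range_succ]
          have := (hGpos J').le
          linarith
        linarith
    have h2 : G 0 + ∑ k ∈ Finset.range J', G k ≤ ∑ k ∈ Finset.range (J' + 2), g3 m (k + 0) := by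
      rw [Finset.sum_range_succ', Finset.sum_range_succ']
      have h3 : G 0 ≤ g3 m (0 + 0) := g3_anti hm (by omega)
      have h4 : 0 < g3 m (0 + 1 + 0) := g3_pos hm _
      have h5 : ∑ k ∈ Finset.range J', G k = ∑ k ∈ Finset.range J', g3 m (k + 1 + 1 + 0) := rfl
      rw [h5]
      linarith
    exact h1.trans (h2.trans (sum_g3_le hm 0 (J' + 2)))
  -- the overlaps
  have hFT : ∀ i ∈ V, ∀ b ≤ B0, ∀ s ≤ 4 ^ b + 5, F s i ≤ T b i := by
    intro i hi b hb s hs
    refine qt_le_of (hr i hi) hA1A (hTl b hb i hi) ((hTμ b hb i hi).trans_lt ?_)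
    apply Real.exp_lt_exp.2
    have := gamt_lt_L3 hB0 hq hb hs
    rw [← hmB] at this
    linarith
  set ov : ℕ → ι → ℝ := fun u i => ∑ k ∈ Finset.range J, (F (Pk m (u + k * m) + 5) i -
    F (Pk m (u + k * m)) i) with hov
  have hov0 : ∀ u, ∀ i ∈ V, 0 ≤ ov u i := fun u i hi => Finset.sum_nonneg fun k _ => by
    have := hFmono i hi (Pk m (u + k * m)) (Pk m (u + k * m) + 5) (by omega)
    linarith
  set thr : ι → ℝ := fun i => 20 * Sm i + 10 / m * (h i - l i) with hthr
  have hthr0 : ∀ i ∈ V, 0 ≤ thr i := fun i hi => by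
    have h1 := hSm0 i hi
    have h2 := hr i hi
    have h3 : 0 ≤ 10 / (m:ℝ) * (h i - l i) := mul_nonneg (by positivity) (by linarith)
    simp only [hthr]; linarith
  have hovsum : ∀ i ∈ V, ∑ u ∈ Finset.range m, ov u i ≤ m / 2 * thr i := by
    intro i hi
    have h1 := sum_classes (fun s => F (Pk m s + 5) i - F (Pk m s) i) m J
    have h2 : ∑ u ∈ Finset.range m, ov u i =
        ∑ s ∈ Finset.range (J * m), (F (Pk m s + 5) i - F (Pk m s) i) := h1
    have h3 := sum_grid hB0 (F := fun s => F s i) (fun a b hab => hFmono i hi a b hab)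
      (lo := l i) (hi := h i) (fun s => hFl s i hi) (fun s => hFh s i hi) (T := fun b => T b i)
      (hFT i hi) (K := J * m) (by
        rw [← hmB, pow_two]; exact Nat.mul_le_mul_right m hJm)
    rw [← hmB, hmr] at h3
    rw [h2]
    refine h3.trans (le_of_eq ?_)
    simp only [hthr, hSm]
    field_simp
    ring
  set bad : ℕ → Finset ι := fun u => V.filter fun i => thr i < ov u i with hbad
  obtain ⟨u, hu, hubad⟩ : ∃ u ∈ Finset.range m,
      ∑ i ∈ bad u, μ.real (Pc i) ≤ (∑ i ∈ V, μ.real (Pc i)) / 2 := by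
    have hcard : ∀ i ∈ V, (((Finset.range m).filter fun u => thr i < ov u i).card : ℝ)
        ≤ m / 2 := by
      intro i hi
      set Z := (Finset.range m).filter fun u => thr i < ov u i with hZ
      rcases (hthr0 i hi).eq_or_lt with h1 | h1
      · have : Z = ∅ := by
          refine Finset.filter_eq_empty_iff.2 fun u hu hlt => ?_
          have h2 := Finset.single_le_sum (fun u _ => hov0 u i hi) hu
          have h3 := hovsum i hi
          rw [← h1] at hlt h3
          rw [mul_zero] at h3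
          linarith
        rw [this]
        simp
        positivity
      · have h2 : (Z.card : ℝ) * thr i ≤ ∑ u ∈ Z, ov u i := by
          rw [← nsmul_eq_mul]
          refine Finset.card_nsmul_le_sum _ _ _ fun u hu => ?_
          exact (Finset.mem_filter.1 hu).2.le
        have h3 : ∑ u ∈ Z, ov u i ≤ ∑ u ∈ Finset.range m, ov u i :=
          Finset.sum_le_sum_of_subset_of_nonneg (Finset.filter_subset _ _)
            fun u _ _ => hov0 u i hi
        exact le_of_mul_le_mul_right (h2.trans (h3.trans (hovsum i hi))) h1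
    have hdouble : ∑ u ∈ Finset.range m, ∑ i ∈ bad u, μ.real (Pc i) ≤
        ∑ u ∈ Finset.range m, (∑ i ∈ V, μ.real (Pc i)) / 2 := by
      have h1 : ∀ u, ∑ i ∈ bad u, μ.real (Pc i) =
          ∑ i ∈ V, if thr i < ov u i then μ.real (Pc i) else 0 := fun u => by
        rw [hbad, Finset.sum_filter]
      simp only [h1]
      rw [Finset.sum_comm, Finset.sum_const, Finset.card_range, nsmul_eq_mul]
      have h2 : ∀ i ∈ V, ∑ u ∈ Finset.range m,
          (if thr i < ov u i then μ.real (Pc i) else 0) ≤ m / 2 * μ.real (Pc i) := by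
        intro i hi
        rw [← Finset.sum_filter, Finset.sum_const, nsmul_eq_mul]
        exact mul_le_mul_of_nonneg_right (hcard i hi) measureReal_nonneg
      refine (Finset.sum_le_sum h2).trans (le_of_eq ?_)
      rw [← Finset.mul_sum]; ring
    exact Finset.exists_le_of_sum_le ⟨0, Finset.mem_range.2 (by omega)⟩ hdouble
  have hum : u < m := Finset.mem_range.1 hu
  set V0 := V \ bad u with hV0
  have hV0V : V0 ⊆ V := Finset.sdiff_subset
  have hgood : ∀ i ∈ V0, ov u i ≤ thr i := by
    intro i hi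
    rw [hV0, Finset.mem_sdiff] at hi
    by_contra h1
    push Not at h1
    exact hi.2 (Finset.mem_filter.2 ⟨hi.1, h1⟩)
  set S0 : Set E := ⋃ i ∈ V0, Pc i with hS0
  have hS0m : MeasurableSet S0 := Finset.measurableSet_biUnion _ fun i _ => hPm i
  have hS0μ : Real.exp (-q) / 2 < μ.real S0 := by
    have h1 : μ.real S0 = ∑ i ∈ V0, μ.real (Pc i) := by
      rw [hS0, measureReal_biUnion_finset (hPd.subset (by exact_mod_cast hV0V)) fun i _ => hPm i]
    have h2 := Finset.sum_sdiff (f := fun i => μ.real (Pc i))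
      (show bad u ⊆ V from Finset.filter_subset _ _)
    rw [h1]
    linarith
  set t : ℕ → ι → ℝ := fun j i => t₀ i + ∑ k ∈ Finset.range j,
    (F (Sg u k + 1) i - F (lam u k) i + G (lam u k) * (h i - l i)) with ht
  have htt : ∀ j i, t (j + 1) i = t j i + (F (Sg u j + 1) i - F (lam u j) i +
      G (lam u j) * (h i - l i)) := by
    intro j i
    simp only [ht]
    rw [Finset.sum_range_succ]; ring
  have main : ∀ j : ℕ, j ≤ J → ∃ V' ⊆ V0, ∃ S ⊆ S0, MeasurableSet S ∧
      S ⊆ (⋃ i ∈ V', Pc i) ∧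
      μ.real S0 - Real.exp (-q) / 2 * ∑ k ∈ Finset.range j, G (lam u k) ≤ μ.real S ∧
      ∀ i ∈ V', μ.real (S ∩ up (φ i) (t j i)) ≤ Real.exp (-(gamt m q (Sg u j))) := by
    intro j
    induction j with
    | zero =>
      intro _
      refine ⟨V0, subset_rfl, S0, subset_rfl, hS0m, subset_rfl, by simp, fun i hi => ?_⟩
      refine (measureReal_mono ?_ (measure_ne_top μ _)).trans ((h0 i (hV0V hi)).trans ?_)
      · intro x hx
        have h6 : t 0 i ≤ φ i x := hx.2
        simp only [ht, Finset.range_zero, Finset.sum_empty, add_zero] at h6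
        exact h6
      · apply Real.exp_le_exp.2
        have h7 : Sg u 0 = 4 := by
          simp only [hSg]
          rw [zero_mul, add_zero, Pk_zero hum]
        have := gamt_lt_L3 hB0 hq (b := 0) (s := 4) (Nat.zero_le _) (by norm_num)
        rw [← hmB] at this
        rw [h7]
        linarith
    | succ j ih =>
      intro hj
      obtain ⟨V', hV', S, hSU, hSm, hSP, hSμ, hSt⟩ := ih (by omega)
      obtain ⟨d, hd, e1, e2, e3⟩ := hlamS u hum j
      obtain ⟨N, hN0, hN1, hN2, hN3⟩ := exists_N3 hm hq (lam u j) hd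
      rw [← e2] at hN1
      rw [← e1] at hN2 hN3
      have hlt : lam u j < I := hlamI u hum j (by omega)
      have hgS : g3 m (Sg u j) ≤ G (lam u j) := g3_anti hm e3
      have hgS0 : 0 < g3 m (Sg u j) := g3_pos hm _
      have hN2' : (N:ℝ) * Real.exp (-(gamt m q (Sg u j))) ≤ G (lam u j) * Real.exp (-q) / 4 := by
        refine hN2.trans ?_
        have := mul_le_mul_of_nonneg_right hgS hqpos.le
        linarith
      have hN3' : Real.exp q * (N * Real.exp (-(gamt m q (Sg u j + 1)))) ≤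
          G (lam u j) ^ 2 * (G (lam u j) * Real.exp (-q) / 4) / 2 := by
        refine hN3.trans ?_
        gcongr
      obtain ⟨V'', hV'', S', hS'S, hS'm, hS'P, hS'μ, hS't⟩ := stage2 (lam := 1 / 2) (by norm_num)
        (by norm_num) hlc
        (V := V') (φ := φ) (a := fun i => F (lam u j) i - G (lam u j) * (h i - l i))
        (b := F (Sg u j + 1))
        (t := t j) (t' := t (j + 1)) (α := Real.exp (-(gamt m q (lam u j))))
        (κ := Real.exp (-(gamt m q (Sg u j))))
        (κ' := Real.exp (-(gamt m q (Sg u (j + 1)))))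
        (ν := Real.exp (-(gamt m q (Sg u j + 1))))
        (ε := G (lam u j) * Real.exp (-q) / 4)
        (Real.exp_pos _) (Real.exp_pos _).le (Real.exp_pos _) (Real.exp_pos _).le hPm hSm hA1m hSP
        hSt (fun i hi => qt_ou hA1m (hr i (hV0V (hV' hi))) (Real.exp_pos _).le
          fun x hx => hh i (hV0V (hV' hi)) x (hA1A hx))
        (fun i _ => by rw [htt]; linarith) hN0 hN1
        (fun B hB hBm hBμ W hW hdrop => hND (lam u j) hlt _ hN3' B hB hBm hBμ W
          (hW.trans (hV'.trans hV0V)) hdrop)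
      refine ⟨V'', hV''.trans hV', S', hS'S.trans hSU, hS'm, hS'P, ?_, hS't⟩
      rw [Finset.sum_range_succ]
      linarith
  obtain ⟨V', hV', S, hSU, hSm', hSP, hSμ, hSt⟩ := main J le_rfl
  have hsmass : Real.exp (-q) / 4 ≤ μ.real S := by
    have h1 : ∑ k ∈ Finset.range J, G (lam u k) ≤ 1 / 2 := (hGlam u J).trans hm1
    have h2 : Real.exp (-q) / 2 * ∑ k ∈ Finset.range J, G (lam u k) ≤
        Real.exp (-q) / 2 * (1 / 2) := mul_le_mul_of_nonneg_left h1 (by positivity)
    linarith
  have hrise : ∀ i ∈ V, ∀ n : ℕ, ∑ k ∈ Finset.range (n + 1), (F (Sg u k + 1) i - F (lam u k) i) ≤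
      F (Sg u n + 1) i - l i +
        ∑ k ∈ Finset.range n, (F (Pk m (u + k * m) + 5) i - F (Pk m (u + k * m)) i) := by
    intro i hi n
    induction n with
    | zero =>
      rw [Finset.sum_range_one, Finset.range_zero, Finset.sum_empty]
      have := hFl (lam u 0) i hi
      linarith
    | succ n ih =>
      rw [Finset.sum_range_succ _ (n + 1)]
      have e2 := Finset.sum_range_succ (fun k => F (Pk m (u + k * m) + 5) i - F (Pk m (u + k * m)) i) n
      rw [e2]
      have h1 : F (Pk m (u + n * m)) i ≤ F (lam u (n + 1)) i := hFmono i hi _ _ (hlamP u n)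
      have h2 : F (Sg u n + 1) i = F (Pk m (u + n * m) + 5) i := rfl
      linarith
  have hsle : μ.real S ≤ V.card * Real.exp (-(gamt m q J)) := by
    have h1 : S ⊆ ⋃ i ∈ V', S ∩ up (φ i) (t J i) := by
      intro x hx
      have h2 := hSP hx
      simp only [mem_iUnion, exists_prop] at h2
      obtain ⟨i, hi, hxi⟩ := h2
      refine mem_biUnion (x := i) (Finset.mem_coe.2 hi) ⟨hx, ?_⟩
      have h3 : t₀ i + (1 + 11 / m) * (h i - l i) + 20 * Sm i ≤ φ i x := hPU i hxi
      refine le_trans ?_ h3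
      have hiV := hV0V (hV' hi)
      have hri := hr i hiV
      obtain ⟨J', hJ'⟩ : ∃ J', J = J' + 1 := ⟨J - 1, by omega⟩
      have h4 : ∑ k ∈ Finset.range J, (F (Sg u k + 1) i - F (lam u k) i) ≤ h i - l i + ov u i := by
        have h5 := hrise i hiV J'
        rw [← hJ'] at h5
        have h6 := hFh (Sg u J' + 1) i hiV
        have h7 : ∑ k ∈ Finset.range J', (F (Pk m (u + k * m) + 5) i - F (Pk m (u + k * m)) i) ≤
            ov u i := by
          rw [hov]
          simp only
          rw [hJ', Finset.sum_range_succ]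
          have := hFmono i hiV (Pk m (u + J' * m)) (Pk m (u + J' * m) + 5) (by omega)
          linarith
        linarith
      have h6 : ∑ k ∈ Finset.range J, (F (Sg u k + 1) i - F (lam u k) i +
          G (lam u k) * (h i - l i)) = ∑ k ∈ Finset.range J, (F (Sg u k + 1) i - F (lam u k) i) +
          (∑ k ∈ Finset.range J, G (lam u k)) * (h i - l i) := by
        rw [Finset.sum_mul, ← Finset.sum_add_distrib]
      have h7 : (∑ k ∈ Finset.range J, G (lam u k)) * (h i - l i) ≤ 1 / m * (h i - l i) :=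
        mul_le_mul_of_nonneg_right (hGlam u J) (by linarith)
      have h8 := hgood i (hV' hi)
      have h11 : (1 + 11 / (m:ℝ)) * (h i - l i) = (h i - l i) + 10 / m * (h i - l i) +
          1 / m * (h i - l i) := by ring
      simp only [ht]
      rw [h6, h11]
      simp only [hthr] at h8
      linarith
    have h2 : μ.real S ≤ ∑ i ∈ V', μ.real (S ∩ up (φ i) (t J i)) :=
      (measureReal_mono h1 (measure_ne_top μ _)).trans (measureReal_biUnion_finset_le _ _)
    have h3 : ∑ i ∈ V', μ.real (S ∩ up (φ i) (t J i)) ≤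
        V'.card * Real.exp (-(gamt m q (Sg u J))) := by
      rw [← nsmul_eq_mul]
      exact Finset.sum_le_card_nsmul _ _ _ hSt
    have h4 : (V'.card : ℝ) ≤ V.card := by
      exact_mod_cast Finset.card_le_card (hV'.trans hV0V)
    have h5 : Real.exp (-(gamt m q (Sg u J))) ≤ Real.exp (-(gamt m q J)) := by
      apply Real.exp_le_exp.2
      have h6 : J ≤ Sg u J := by
        have := le_Pk hm u J
        simp only [hSg]; omega
      have := gamt_mono hm hq h6
      linarith
    have h6 : (V'.card : ℝ) * Real.exp (-(gamt m q (Sg u J))) ≤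
        V.card * Real.exp (-(gamt m q J)) :=
      mul_le_mul h4 h5 (Real.exp_pos _).le (Nat.cast_nonneg _)
    linarith
  linarith

end Pool.WS
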