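import Pool.Agent.CIP.EL
import Pool.Agent.CIP.EE0
import Pool.Agent.CIP.EJ

set_option autoImplicit false

open MeasureTheory Pointwise Set Filter Topology

namespace Pool.CIP

variable {n : ℕ} {μ : Measure (E n)}

/-- the second core theorem in the form used in `EI`, `EJ` -/
theorem core2P [IsProbabilityMeasure μ] (hlc : LC μ) : Core2 μ := by
  classical
  intro m hm q hq A₀ hA₀ ι V φ l h t₀ h1 h2 h3
  exact Pool.WS.core2 hm (hlc.wlc (a := 1/2) (by norm_num) (by norm_num)) hq hA₀ V φ l h t₀ h1 h2 h3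

/-- optimal concentration for all convex sets, up to a small multiple of the difference body -/
theorem main_convex_eps [IsProbabilityMeasure μ] (hsym : μ.map (fun x => -x) = μ) (hlc : LC μ)
    {A : Set (E n)} (hAm : MeasurableSet A) (hAconv : Convex ℝ A) {p : ℝ} (hp : 2 ≤ p)
    {ε : ℝ} (hε0 : 0 < ε) (hε1 : ε ≤ 1) :
    2 * Real.exp p * μ.real A * (1 - μ.real (A + ε • (A - A) + G μ p (7000000000000 / ε ^ 2))) ≤
      (1 - μ.real A) * μ.real (A + ε • (A - A) + G μ p (7000000000000 / ε ^ 2)) :=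
  main_eps2 hsym hlc (core2P hlc) hAm hAconv hp hε0 hε1

end Pool.CIP
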