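import Pool.Agent.CIP.FL

set_option autoImplicit false

open MeasureTheory Pointwise Set Filter Topology

namespace Pool.CIP

variable {n : ℕ} {μ : Measure (E n)}

/-- the levels of the costs in the third core statement -/
noncomputable def L3 (B : ℕ) (q : ℝ) (b : ℕ) : ℝ :=
  32 * 4 ^ b * (q + 3 * Real.log (2 ^ B) + 7)

/-- The conclusion of the third core theorem. -/
def Core3 (μ : Measure (E n)) : Prop :=
  ∀ B : ℕ, 1 ≤ B → ∀ q : ℝ, 1 ≤ q → ∀ A₀ : Set (E n), MeasurableSet A₀ →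
    ∀ (ι : Type) (V : Finset ι) (φ : ι → E n →L[ℝ] ℝ) (l h t₀ : ι → ℝ) (T : ℕ → ι → ℝ),
    (∀ i ∈ V, ∀ x ∈ A₀, φ i x ≤ h i) →
    (∀ i ∈ V, 4 * Real.exp (-q) ≤ μ.real (A₀ ∩ Pool.WS.up (φ i) (l i))) →
    (∀ i ∈ V, μ.real (Pool.WS.up (φ i) (t₀ i)) ≤ Real.exp (-(L3 B q 0))) →
    (∀ b ≤ B, ∀ i ∈ V, l i ≤ T b i) →
    (∀ b ≤ B, ∀ i ∈ V, μ.real (A₀ ∩ Pool.WS.ou (φ i) (T b i)) ≤ Real.exp (-(L3 B q b))) →
    μ.real (⋃ i ∈ V, Pool.WS.up (φ i) (t₀ i + (1 + 11 / 2 ^ B) * (h i - l i) +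
      20 * ∑ b ∈ Finset.range (B + 1), (1 / 2 ^ b) * (T b i - l i))) ≤ Real.exp (-q)

/-- A sum of centroid bodies with geometric weights. -/
def Ys (μ : Measure (E n)) (N : ℕ) (Q : ℕ → ℝ) (c : ℝ) : Set (E n) :=
  {x | ∀ v : E n, |inner ℝ v x| ≤ c * ∑ b ∈ Finset.range (N + 1), (1 / 2 ^ b) * hm μ (Q b) v}

lemma sum_hm_nonneg (N : ℕ) (Q : ℕ → ℝ) (v : E n) :
    0 ≤ ∑ b ∈ Finset.range (N + 1), (1 / 2 ^ b) * hm μ (Q b) v :=
  Finset.sum_nonneg fun b _ => mul_nonneg (by positivity) (hm_nonneg _ v)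

lemma convex_Ys {N : ℕ} {Q : ℕ → ℝ} {c : ℝ} : Convex ℝ (Ys μ N Q c) := by
  intro x hx y hy a b ha hb hab v
  rw [inner_add_right, inner_smul_right, inner_smul_right]
  set S := ∑ b ∈ Finset.range (N + 1), (1 / 2 ^ b) * hm μ (Q b) v with hS
  calc |a * inner ℝ v x + b * inner ℝ v y| ≤ |a * inner ℝ v x| + |b * inner ℝ v y| := abs_add_le _ _
    _ = a * |inner ℝ v x| + b * |inner ℝ v y| := by
        rw [abs_mul, abs_mul, abs_of_nonneg ha, abs_of_nonneg hb]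
    _ ≤ a * (c * S) + b * (c * S) :=
        add_le_add (mul_le_mul_of_nonneg_left (hx v) ha) (mul_le_mul_of_nonneg_left (hy v) hb)
    _ = c * S := by rw [← add_mul, hab, one_mul]

lemma isClosed_Ys (N : ℕ) (Q : ℕ → ℝ) (c : ℝ) : IsClosed (Ys μ N Q c) := by
  have : Ys μ N Q c = ⋂ v : E n, {x | |inner ℝ v x| ≤
      c * ∑ b ∈ Finset.range (N + 1), (1 / 2 ^ b) * hm μ (Q b) v} := by
    ext x; simp [Ys]
  rw [this]
  exact isClosed_iInter fun v => isClosed_le (by fun_prop) continuous_const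

lemma Ys_subset_G [IsProbabilityMeasure μ] (hsym : μ.map (fun x => -x) = μ) (hlc : LC μ)
    {N : ℕ} {Q : ℕ → ℝ} {c p s : ℝ} (hc : 0 ≤ c) (hp : 1 ≤ p) (hQ : ∀ b ≤ N, p ≤ Q b)
    (hs : c * ∑ b ∈ Finset.range (N + 1), (1 / 2 ^ b) * (2 * Real.exp 2 * (Q b / p)) ≤ s) :
    Ys μ N Q c ⊆ G μ p s := by
  intro x hx v
  have hmv := hm_nonneg (μ := μ) p v
  refine (hx v).trans ?_
  refine le_trans ?_ (mul_le_mul_of_nonneg_right hs hmv)
  rw [mul_assoc, Finset.sum_mul]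
  apply mul_le_mul_of_nonneg_left _ hc
  refine Finset.sum_le_sum fun b hb => ?_
  rw [mul_assoc]
  apply mul_le_mul_of_nonneg_left _ (by positivity)
  exact hm_compare hsym hlc hp (hQ b (by have := Finset.mem_range.1 hb; omega)) v

lemma isCompact_Ys [IsProbabilityMeasure μ] (hsym : μ.map (fun x => -x) = μ) (hlc : LC μ)
    {N : ℕ} {Q : ℕ → ℝ} {c : ℝ} (hc : 0 ≤ c) (hQ : ∀ b ≤ N, 1 ≤ Q b) :
    IsCompact (Ys μ N Q c) :=
  (isCompact_G 1 _).of_isClosed_subset (isClosed_Ys N Q c)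
    (Ys_subset_G hsym hlc hc le_rfl hQ le_rfl)

lemma neg_mem_Ys {N : ℕ} {Q : ℕ → ℝ} {c : ℝ} {x : E n} (hx : x ∈ Ys μ N Q c) :
    -x ∈ Ys μ N Q c := by
  intro v
  rw [inner_neg_right, abs_neg]
  exact hx v

lemma zero_mem_Ys {N : ℕ} {Q : ℕ → ℝ} {c : ℝ} (hc : 0 ≤ c) : (0 : E n) ∈ Ys μ N Q c := by
  intro v
  simp only [inner_zero_right, abs_zero]
  exact mul_nonneg hc (sum_hm_nonneg N Q v)

lemma add_mem_Ys {N : ℕ} {Q : ℕ → ℝ} {c d : ℝ} {x y : E n} (hx : x ∈ Ys μ N Q c)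
    (hy : y ∈ Ys μ N Q d) : x + y ∈ Ys μ N Q (c + d) := by
  intro v
  rw [inner_add_right, add_mul]
  exact (abs_add_le _ _).trans (add_le_add (hx v) (hy v))

lemma smul_mem_Ys {N : ℕ} {Q : ℕ → ℝ} {c t : ℝ} (ht : 0 ≤ t) {x : E n} (hx : x ∈ Ys μ N Q c) :
    t • x ∈ Ys μ N Q (t * c) := by
  intro v
  rw [inner_smul_right, abs_mul, abs_of_nonneg ht, mul_assoc]
  exact mul_le_mul_of_nonneg_left (hx v) ht

/-- the support functional is attained -/
lemma exists_support_Ys [IsProbabilityMeasure μ] (hsym : μ.map (fun x => -x) = μ) (hlc : LC μ)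
    {N : ℕ} {Q : ℕ → ℝ} {c : ℝ} (hc : 0 ≤ c) (hQ : ∀ b ≤ N, 1 ≤ Q b) (v : E n) :
    ∃ z ∈ Ys μ N Q c,
      inner ℝ v z = c * ∑ b ∈ Finset.range (N + 1), (1 / 2 ^ b) * hm μ (Q b) v := by
  have hfin : ∀ q : ℝ, 0 < q → ∀ v : E n, mq μ q v < ⊤ := fun q hq v => mq_lt_top hsym hlc hq v
  have h1 : ∀ b : ℕ, ∃ z : E n, b ≤ N → z ∈ G μ (Q b) (c * (1 / 2 ^ b)) ∧
      inner ℝ v z = c * (1 / 2 ^ b) * hm μ (Q b) v := by
    intro b
    by_cases hb : b ≤ N
    · obtain ⟨z, hz, hzv⟩ := exists_support hfin (hQ b hb) v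
        (show 0 ≤ c * (1 / 2 ^ b) by positivity)
      exact ⟨z, fun _ => ⟨hz, hzv⟩⟩
    · exact ⟨0, fun h => absurd h hb⟩
  choose z hz using h1
  refine ⟨∑ b ∈ Finset.range (N + 1), z b, ?_, ?_⟩
  · intro w
    rw [inner_sum, Finset.mul_sum]
    refine (Finset.abs_sum_le_sum_abs _ _).trans (Finset.sum_le_sum fun b hb => ?_)
    have h2 := (hz b (by have := Finset.mem_range.1 hb; omega)).1 w
    rw [← mul_assoc]; exact h2
  · rw [inner_sum, Finset.mul_sum]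
    refine Finset.sum_congr rfl fun b hb => ?_
    rw [(hz b (by have := Finset.mem_range.1 hb; omega)).2, mul_assoc]

lemma sum_half_le (N : ℕ) : ∑ b ∈ Finset.range (N + 1), (1 / 2 ^ b : ℝ) ≤ 2 := by
  have h : ∀ N : ℕ, ∑ b ∈ Finset.range N, (1 / 2 ^ b : ℝ) = 2 - 2 / 2 ^ N := by
    intro N
    induction N with
    | zero => simp
    | succ N ih =>
      rw [Finset.sum_range_succ, ih, pow_succ]
      field_simp
      ring
  rw [h]
  have : (0:ℝ) < 2 / 2 ^ (N + 1) := by positivity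
  linarith

/-- The covering argument for the third core statement. -/
theorem enl_genQ [IsProbabilityMeasure μ] (hsym : μ.map (fun x => -x) = μ) (hlc : LC μ)
    (hcore : Core3 μ) {B : ℕ} (hB : 1 ≤ B) {q : ℝ} (hq : 1 ≤ q) {A W : Set (E n)}
    (hA : MeasurableSet A) (hWc : IsCompact W) (hWconv : Convex ℝ W)
    (H : ∀ v : E n, ∀ δ : ℝ, 0 < δ → ∃ (l h : ℝ) (T : ℕ → ℝ), (∀ x ∈ A, inner ℝ v x ≤ h) ∧
      4 * Real.exp (-q) ≤ μ.real (A ∩ hs v l) ∧ (∀ b ≤ B, l ≤ T b) ∧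
      (∀ b ≤ B, μ.real (A ∩ {x | T b < inner ℝ v x}) ≤ Real.exp (-(L3 B q b))) ∧
      ∀ b : ℝ, (∀ w ∈ W, inner ℝ v w ≤ b) →
        (Real.exp 1 * hm μ (L3 B q 0) v + δ) + (1 + 11 / 2 ^ B) * (h - l) +
          20 * ∑ b ∈ Finset.range (B + 1), (1 / 2 ^ b) * (T b - l) ≤ b + 100 * δ) :
    μ.real Wᶜ ≤ Real.exp (-q) := by
  classical
  have hfin : ∀ q : ℝ, 0 < q → ∀ v : E n, mq μ q v < ⊤ := fun q hq v => mq_lt_top hsym hlc hq v
  have hlog : 0 ≤ Real.log ((2:ℝ) ^ B) := Real.log_nonneg (one_le_pow₀ (by norm_num))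
  have hL0 : 0 < L3 B q 0 := by
    unfold L3
    rw [pow_zero, mul_one]
    linarith
  by_contra hcon
  push Not at hcon
  obtain ⟨S, hSW, hSc, hS⟩ := exists_compact_real hWc.measurableSet.compl hcon
  have hsep : ∀ x : E n, ∃ p : E n × ℝ × ℝ, x ∈ Wᶜ → (∀ w ∈ W, inner ℝ p.1 w ≤ p.2.1) ∧
      0 < p.2.2 ∧ p.2.1 + 100 * p.2.2 < inner ℝ p.1 x := by
    intro x
    by_cases hx : x ∈ Wᶜ
    · obtain ⟨f, u, h1, h2⟩ := geometric_hahn_banach_closed_point hWconv hWc.isClosed hx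
      set y : E n := (InnerProductSpace.toDual ℝ (E n)).symm f with hy
      have hin : ∀ w : E n, inner ℝ y w = f w := fun w => InnerProductSpace.toDual_symm_apply
      refine ⟨(y, u, (f x - u) / 200), fun _ => ⟨fun w hw => ?_, ?_, ?_⟩⟩
      · show inner ℝ y w ≤ u
        rw [hin]; exact (h1 w hw).le
      · show 0 < (f x - u) / 200
        linarith
      · show u + 100 * ((f x - u) / 200) < inner ℝ y x
        rw [hin]; linarith
    · exact ⟨(0, 0, 0), fun h => absurd h hx⟩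
  choose P hP using hsep
  have hch : ∀ x : E n, ∃ p : ℝ × ℝ × (ℕ → ℝ), x ∈ Wᶜ → (∀ y ∈ A, inner ℝ (P x).1 y ≤ p.2.1) ∧
      4 * Real.exp (-q) ≤ μ.real (A ∩ hs (P x).1 p.1) ∧ (∀ b ≤ B, p.1 ≤ p.2.2 b) ∧
      (∀ b ≤ B, μ.real (A ∩ {y | p.2.2 b < inner ℝ (P x).1 y}) ≤ Real.exp (-(L3 B q b))) ∧
        (Real.exp 1 * hm μ (L3 B q 0) (P x).1 + (P x).2.2) + (1 + 11 / 2 ^ B) * (p.2.1 - p.1) +
          20 * ∑ b ∈ Finset.range (B + 1), (1 / 2 ^ b) * (p.2.2 b - p.1) ≤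
          (P x).2.1 + 100 * (P x).2.2 := by
    intro x
    by_cases hx : x ∈ Wᶜ
    · obtain ⟨l, h, T, h1, h2, h3, h4, h5⟩ := H (P x).1 (P x).2.2 (hP x hx).2.1
      exact ⟨(l, h, T), fun _ => ⟨h1, h2, h3, h4, h5 _ (hP x hx).1⟩⟩
    · exact ⟨(0, 0, fun _ => 0), fun h => absurd h hx⟩
  choose LH hLH using hch
  obtain ⟨V, hVS, hcov⟩ := hSc.elim_nhds_subcover
    (fun x => {y : E n | (P x).2.1 + 100 * (P x).2.2 < inner ℝ (P x).1 y}) (by
      intro x hx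
      refine IsOpen.mem_nhds (isOpen_lt continuous_const (by fun_prop)) ?_
      exact (hP x (hSW hx)).2.2)
  have hcore := hcore B hB q hq A hA (E n) V (fun x => innerSL ℝ (P x).1)
    (fun x => (LH x).1) (fun x => (LH x).2.1)
    (fun x => Real.exp 1 * hm μ (L3 B q 0) (P x).1 + (P x).2.2) (fun b x => (LH x).2.2 b)
    (by
      intro x hx y hy
      rw [innerSL_apply_apply]
      exact (hLH x (hSW (hVS x hx))).1 y hy)
    (by
      intro x hx
      have := (hLH x (hSW (hVS x hx))).2.1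
      have e : Pool.WS.up (innerSL ℝ (P x).1) (LH x).1 = hs (P x).1 (LH x).1 := by
        ext y
        simp only [Pool.WS.up, hs, mem_ofPred_eq, innerSL_apply_apply]
      rw [e]; exact this)
    (by
      intro x hx
      have e : Pool.WS.up (innerSL ℝ (P x).1)
          (Real.exp 1 * hm μ (L3 B q 0) (P x).1 + (P x).2.2) =
          hs (P x).1 (Real.exp 1 * hm μ (L3 B q 0) (P x).1 + (P x).2.2) := by
        ext y
        simp only [Pool.WS.up, hs, mem_ofPred_eq, innerSL_apply_apply]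
      rw [e]
      exact markov_hm hfin hL0 _ (hP x (hSW (hVS x hx))).2.1)
    (fun b hb x hx => (hLH x (hSW (hVS x hx))).2.2.1 b hb)
    (by
      intro b hb x hx
      have := (hLH x (hSW (hVS x hx))).2.2.2.1 b hb
      have e : Pool.WS.ou (innerSL ℝ (P x).1) ((LH x).2.2 b) =
          {y | (LH x).2.2 b < inner ℝ (P x).1 y} := by
        ext y
        simp only [Pool.WS.ou, mem_ofPred_eq, innerSL_apply_apply]
      rw [e]; exact this)
  have hsub : S ⊆ ⋃ x ∈ V, Pool.WS.up (innerSL ℝ (P x).1)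
      (Real.exp 1 * hm μ (L3 B q 0) (P x).1 + (P x).2.2 +
        (1 + 11 / 2 ^ B) * ((LH x).2.1 - (LH x).1) +
        20 * ∑ b ∈ Finset.range (B + 1), (1 / 2 ^ b) * ((LH x).2.2 b - (LH x).1)) := by
    intro y hy
    obtain ⟨x, hxV, hxy⟩ := mem_iUnion₂.1 (hcov hy)
    refine mem_iUnion₂.2 ⟨x, hxV, ?_⟩
    have h1 := (hLH x (hSW (hVS x hxV))).2.2.2.2
    have h2 : (P x).2.1 + 100 * (P x).2.2 < inner ℝ (P x).1 y := hxy
    show _ ≤ innerSL ℝ (P x).1 y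
    rw [innerSL_apply_apply]
    exact h1.trans h2.le
  have := measureReal_mono (μ := μ) hsub (measure_ne_top μ _)
  linarith

lemma L3_ge {B : ℕ} {q : ℝ} (hq : 1 ≤ q) (b : ℕ) : q ≤ L3 B q b := by
  have hlog : 0 ≤ Real.log ((2:ℝ) ^ B) := Real.log_nonneg (one_le_pow₀ (by norm_num))
  have h4 : (1:ℝ) ≤ 4 ^ b := one_le_pow₀ (by norm_num)
  unfold L3
  nlinarith

/-- Enlargement of a compact convex set, from the third core statement. -/
theorem enlQ [IsProbabilityMeasure μ] (hsym : μ.map (fun x => -x) = μ) (hlc : LC μ)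
    (hcore : Core3 μ) {B : ℕ} (hB : 1 ≤ B) {q : ℝ} (hq : 1 ≤ q) {A : Set (E n)}
    (hAc : IsCompact A) (hAconv : Convex ℝ A) (hA : 5 * Real.exp (-q) ≤ μ.real A) :
    μ.real (A + (11 / 2 ^ B : ℝ) • (A - A) + Ys μ B (L3 B q) (62 * Real.exp 1))ᶜ ≤
      Real.exp (-q) := by
  have hfin : ∀ q : ℝ, 0 < q → ∀ v : E n, mq μ q v < ⊤ := fun q hq v => mq_lt_top hsym hlc hq v
  have hAne : A.Nonempty := nonempty_of_real (by positivity) hA
  have hexpq := Real.exp_pos (-q)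
  have hQ1 : ∀ b ≤ B, 1 ≤ L3 B q b := fun b _ => hq.trans (L3_ge hq b)
  have hL0 : 0 < L3 B q 0 := by have := hQ1 0 (by omega); linarith
  have hexpL : ∀ b, Real.exp (-(L3 B q b)) ≤ Real.exp (-q) := fun b =>
    Real.exp_le_exp.2 (by have := L3_ge (B := B) hq b; linarith)
  set W := A + (11 / 2 ^ B : ℝ) • (A - A) + Ys μ B (L3 B q) (62 * Real.exp 1) with hW
  have hAAc : IsCompact (A - A) := by rw [sub_eq_add_neg]; exact hAc.add hAc.neg
  have hWc : IsCompact W := (hAc.add (hAAc.smul _)).add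
    (isCompact_Ys hsym hlc (by positivity) hQ1)
  have hWconv : Convex ℝ W := (hAconv.add ((hAconv.sub hAconv).smul _)).add convex_Ys
  refine enl_genQ hsym hlc hcore hB hq hAc.measurableSet hWc hWconv ?_
  intro v δ hδ
  have hpart := part_ge hsym hlc hL0 (L3_ge hq 0) hA v hδ
  set t := Real.exp 1 * hm μ (L3 B q 0) v + δ with ht
  obtain ⟨x₁, hx₁A, hx₁⟩ := hAc.exists_isMaxOn hAne (f := fun x : E n => (inner ℝ v x : ℝ))
    (by fun_prop)
  obtain ⟨x₀, hx₀A, hx₀⟩ := hAc.exists_isMinOn hAne (f := fun x : E n => (inner ℝ v x : ℝ))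
    (by fun_prop)
  have he1 := Real.exp_pos 1
  have hT : ∀ b ≤ B, μ.real (A ∩ {x | Real.exp 1 * hm μ (L3 B q b) v + δ < inner ℝ v x}) ≤
      Real.exp (-(L3 B q b)) := by
    intro b hb
    refine (measureReal_mono ?_ (measure_ne_top μ _)).trans
      (markov_hm hfin (by have := hQ1 b hb; linarith) v hδ)
    intro x hx
    have h1 : Real.exp 1 * hm μ (L3 B q b) v + δ < inner ℝ v x := hx.2
    exact h1.le
  refine ⟨max (-t) (inner ℝ v x₀), inner ℝ v x₁,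
    fun b => Real.exp 1 * hm μ (L3 B q b) v + δ, fun x hx => hx₁ hx, ?_, ?_, hT, ?_⟩
  · rcases le_total (-t) (inner ℝ v x₀) with h | h
    · rw [max_eq_right h]
      have e : A ∩ hs v (inner ℝ v x₀) = A := inter_eq_left.2 fun x hx => hx₀ hx
      rw [e]; linarith
    · rw [max_eq_left h]
      exact hpart
  · intro b hb
    have hmb := hm_nonneg (μ := μ) (L3 B q b) v
    have hm0 := hm_nonneg (μ := μ) (L3 B q 0) v
    refine max_le ?_ ?_
    · have h1 : 0 ≤ Real.exp 1 * hm μ (L3 B q b) v := by positivity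
      have h2 : 0 ≤ Real.exp 1 * hm μ (L3 B q 0) v := by positivity
      linarith
    · by_contra hcon
      push Not at hcon
      have h1 : A ⊆ A ∩ {x | Real.exp 1 * hm μ (L3 B q b) v + δ < inner ℝ v x} := fun x hx =>
        ⟨hx, lt_of_lt_of_le hcon (hx₀ hx)⟩
      have h2 := (measureReal_mono (μ := μ) h1 (measure_ne_top μ _)).trans (hT b hb)
      have h3 := hexpL b
      linarith
  · intro bd hb
    obtain ⟨z, hz, hzv⟩ := exists_support_Ys hsym hlc (N := B) (Q := L3 B q)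
      (show 0 ≤ 62 * Real.exp 1 by positivity) hQ1 v
    have hw := hb (x₁ + (11 / 2 ^ B : ℝ) • (x₁ - x₀) + z)
      ⟨_, ⟨x₁, hx₁A, _, ⟨_, ⟨x₁, hx₁A, x₀, hx₀A, rfl⟩, rfl⟩, rfl⟩, z, hz, rfl⟩
    rw [inner_add_right, inner_add_right, inner_smul_right, inner_sub_right, hzv] at hw
    have hle1 : -t ≤ max (-t) (inner ℝ v x₀) := le_max_left _ _
    have hle2 : inner ℝ v x₀ ≤ max (-t) (inner ℝ v x₀) := le_max_right _ _
    set l := max (-t) (inner ℝ v x₀) with hl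
    have hpos : (0:ℝ) < 11 / 2 ^ B := by positivity
    have h6 : (11 / 2 ^ B : ℝ) * (inner ℝ v x₁ - l) ≤
        (11 / 2 ^ B : ℝ) * (inner ℝ v x₁ - inner ℝ v x₀) :=
      mul_le_mul_of_nonneg_left (by linarith) hpos.le
    set S0 := ∑ b ∈ Finset.range (B + 1), (1 / 2 ^ b : ℝ) * hm μ (L3 B q b) v with hS0
    have hfirst : hm μ (L3 B q 0) v ≤ S0 := by
      have h7 := Finset.single_le_sum (s := Finset.range (B + 1))
        (f := fun b : ℕ => (1 / 2 ^ b : ℝ) * hm μ (L3 B q b) v)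
        (fun b _ => mul_nonneg (by positivity) (hm_nonneg _ v)) (Finset.mem_range.2 (by omega : 0 < B + 1))
      have h7' : (1 / 2 ^ 0 : ℝ) * hm μ (L3 B q 0) v ≤ S0 := h7
      rw [pow_zero, div_one, one_mul] at h7'
      exact h7'
    have hsum : ∑ b ∈ Finset.range (B + 1),
        (1 / 2 ^ b : ℝ) * (Real.exp 1 * hm μ (L3 B q b) v + δ - l) ≤
          Real.exp 1 * S0 + 2 * (δ + t) := by
      have h8 : ∑ b ∈ Finset.range (B + 1),
          (1 / 2 ^ b : ℝ) * (Real.exp 1 * hm μ (L3 B q b) v + δ - l) ≤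
          ∑ b ∈ Finset.range (B + 1), ((Real.exp 1) * ((1 / 2 ^ b : ℝ) * hm μ (L3 B q b) v) +
            (1 / 2 ^ b : ℝ) * (δ + t)) := by
        refine Finset.sum_le_sum fun b _ => ?_
        have h9 : (0:ℝ) < 1 / 2 ^ b := by positivity
        have h10 : (1 / 2 ^ b : ℝ) * (Real.exp 1 * hm μ (L3 B q b) v + δ - l) ≤
            (1 / 2 ^ b : ℝ) * (Real.exp 1 * hm μ (L3 B q b) v + δ + t) :=
          mul_le_mul_of_nonneg_left (by linarith) h9.le
        refine h10.trans (le_of_eq (by ring))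
      rw [Finset.sum_add_distrib, ← Finset.mul_sum, ← Finset.sum_mul] at h8
      refine h8.trans ?_
      have h11 := sum_half_le B
      have hm0 := hm_nonneg (μ := μ) (L3 B q 0) v
      have h12 : 0 ≤ δ + t := by
        have : 0 ≤ Real.exp 1 * hm μ (L3 B q 0) v := by positivity
        linarith
      have h13 : (∑ b ∈ Finset.range (B + 1), (1 / 2 ^ b : ℝ)) * (δ + t) ≤ 2 * (δ + t) :=
        mul_le_mul_of_nonneg_right h11 h12
      linarith
    have e3 : (1 + 11 / 2 ^ B : ℝ) * (inner ℝ v x₁ - l) =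
        inner ℝ v x₁ - l + (11 / 2 ^ B : ℝ) * (inner ℝ v x₁ - l) := by ring
    have h14 : Real.exp 1 * hm μ (L3 B q 0) v ≤ Real.exp 1 * S0 :=
      mul_le_mul_of_nonneg_left hfirst he1.le
    rw [e3]
    linarith

end Pool.CIP
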