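import Pool.Agent.CIP.EL3
import Pool.Agent.CIP.FN
import Pool.Agent.CIP.EE0

set_option autoImplicit false

open MeasureTheory Pointwise Set Filter Topology

namespace Pool.CIP

variable {n : ℕ} {μ : Measure (E n)}

/-- The third core theorem holds. -/
theorem core3_holds [IsProbabilityMeasure μ] (hlc : LC μ) : Core3 μ := by
  classical
  intro B hB q hq A₀ hA₀ ι V φ l h t₀ T h1 h2 h3 h4 h5
  exact Pool.WS.core3 hB (hlc.wlc (a := 1 / 2) (by norm_num) (by norm_num)) hq hA₀ V φ l h t₀ T
    h1 h2 h3 h4 h5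

end Pool.CIP
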