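import Pool.Agent.CIP.EK3

set_option autoImplicit false

open Set Filter

namespace Pool.WS

/-! ### The positions of the stages: a quadratic grid, then a linear one -/

/-- positions -/
def Pk (m k : ℕ) : ℕ := if k ≤ m ^ 2 then k ^ 2 / m ^ 2 else 2 * k - m ^ 2

lemma Pk_le_iff {m : ℕ} (_hm : 2 ≤ m) (k : ℕ) : Pk m k * m ^ 2 ≤ k ^ 2 := by
  unfold Pk
  split_ifs with h
  · exact Nat.div_mul_le_self _ _
  · push Not at h
    obtain ⟨a, ha⟩ : ∃ a, k = m ^ 2 + a := ⟨k - m ^ 2, by omega⟩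
    have : 2 * k - m ^ 2 = m ^ 2 + 2 * a := by omega
    rw [this, ha]
    nlinarith

lemma lt_Pk {m : ℕ} (hm : 2 ≤ m) {k : ℕ} (hk : k ≤ m ^ 2) : k ^ 2 < (Pk m k + 1) * m ^ 2 := by
  unfold Pk
  rw [if_pos hk]
  have h := Nat.lt_div_mul_add (a := k ^ 2) (b := m ^ 2) (by positivity)
  rw [add_mul, one_mul]; exact h

lemma Pk_big {m k : ℕ} (hk : m ^ 2 ≤ k) : Pk m k = 2 * k - m ^ 2 := by
  unfold Pk
  split_ifs with h
  · have : k = m ^ 2 := by omega
    subst this
    rcases Nat.eq_zero_or_pos (m ^ 2) with h0 | h0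
    · rw [h0]; rfl
    · rw [pow_two (m ^ 2), Nat.mul_div_cancel _ h0]; omega
  · rfl

lemma Pk_mono {m : ℕ} (hm : 2 ≤ m) {j k : ℕ} (hjk : j ≤ k) : Pk m j ≤ Pk m k := by
  rcases le_total k (m ^ 2) with h | h
  · unfold Pk
    rw [if_pos h, if_pos (hjk.trans h)]
    exact Nat.div_le_div_right (Nat.pow_le_pow_left hjk 2)
  · rw [Pk_big h]
    rcases le_total j (m ^ 2) with h' | h'
    · have h1 : Pk m j ≤ m ^ 2 := by
        unfold Pk
        rw [if_pos h']
        calc j ^ 2 / m ^ 2 ≤ (m ^ 2) ^ 2 / m ^ 2 := Nat.div_le_div_right (Nat.pow_le_pow_left h' 2)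
          _ = m ^ 2 := by
            rw [pow_two (m ^ 2), Nat.mul_div_cancel _ (by positivity)]
      omega
    · rw [Pk_big h']; omega

lemma Pk_le_two {m : ℕ} (hm : 2 ≤ m) (k : ℕ) : Pk m k ≤ 2 * k := by
  rcases le_total k (m ^ 2) with h | h
  · have h1 := Pk_le_iff hm k
    by_contra h2
    push Not at h2
    have h3 : (2 * k + 1) * m ^ 2 ≤ k ^ 2 := (Nat.mul_le_mul_right _ h2).trans h1
    have h4 : k * k ≤ m ^ 2 * k := Nat.mul_le_mul_right _ h
    nlinarith
  · rw [Pk_big h]; omega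

lemma Pk_zero {m k : ℕ} (hk : k < m) : Pk m k = 0 := by
  have h0 : 1 ≤ m := by omega
  have h1 : k ≤ m ^ 2 := by nlinarith
  unfold Pk
  rw [if_pos h1]
  exact Nat.div_eq_of_lt (Nat.pow_lt_pow_left hk two_ne_zero)

/-- consecutive positions differ by at most `2m+1` -/
lemma Pk_gap {m : ℕ} (hm : 2 ≤ m) (k : ℕ) : Pk m (k + m) ≤ Pk m k + 2 * m + 1 := by
  have hm2 : 0 < m ^ 2 := by positivity
  rcases le_total (k + m) (m ^ 2) with h | h
  · have h1 := Pk_le_iff hm (k + m)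
    have h2 := lt_Pk hm (show k ≤ m ^ 2 by omega)
    have h3 : Pk m (k + m) * m ^ 2 < (Pk m k + 1 + 2 * m) * m ^ 2 := by
      have h4 : 2 * (k * m) ≤ 2 * (m ^ 2 * m) - 2 * m ^ 2 := by
        have h5 : k ≤ m ^ 2 - m := by omega
        have h6 : k * m ≤ (m ^ 2 - m) * m := Nat.mul_le_mul_right _ h5
        rw [Nat.sub_mul] at h6
        have h7 : m * m = m ^ 2 := by ring
        rw [h7] at h6
        omega
      have h8 : (k + m) ^ 2 = k ^ 2 + 2 * (k * m) + m ^ 2 := by ring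
      rw [h8] at h1
      have h9 : 2 * m ^ 2 ≤ 2 * (m ^ 2 * m) := by nlinarith
      have e : (Pk m k + 1 + 2 * m) * m ^ 2 = (Pk m k + 1) * m ^ 2 + 2 * (m ^ 2 * m) := by ring
      rw [e]
      omega
    have := Nat.lt_of_mul_lt_mul_right h3
    omega
  · rw [Pk_big h]
    rcases le_total k (m ^ 2) with h' | h'
    · have h2 := lt_Pk hm h'
      have h3 : 2 * k ≤ Pk m k + 1 + m ^ 2 := by
        by_contra h4
        push Not at h4
        obtain ⟨a, ha⟩ : ∃ a, m ^ 2 = k + a := ⟨m ^ 2 - k, by omega⟩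
        have h5 : Pk m k + 1 ≤ k - a := by omega
        have h6 : a ≤ k := by omega
        have h7 : (Pk m k + 1) * m ^ 2 ≤ (k - a) * m ^ 2 := Nat.mul_le_mul_right _ h5
        have h8 : (k - a) * m ^ 2 ≤ k ^ 2 := by
          rw [ha]
          obtain ⟨b, rfl⟩ : ∃ b, k = a + b := ⟨k - a, by omega⟩
          have : a + b - a = b := by omega
          rw [this]
          nlinarith
        omega
      omega
    · rw [Pk_big h']; omega

/-- consecutive positions differ -/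
lemma Pk_lt {m : ℕ} (hm : 2 ≤ m) (k : ℕ) : Pk m k + 1 ≤ Pk m (k + m) := by
  have hm2 : 0 < m ^ 2 := by positivity
  rcases le_total (k + m) (m ^ 2) with h | h
  · have h1 := Pk_le_iff hm k
    have h2 := lt_Pk hm h
    have h3 : (Pk m k + 1) * m ^ 2 < (Pk m (k + m) + 1) * m ^ 2 := by
      refine lt_of_le_of_lt ?_ h2
      have e : (k + m) ^ 2 = k ^ 2 + 2 * (k * m) + m ^ 2 := by ring
      rw [e, add_mul, one_mul]
      omega
    have := Nat.lt_of_mul_lt_mul_right h3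
    omega
  · rw [Pk_big h]
    rcases le_total k (m ^ 2) with h' | h'
    · have h1 := Pk_mono hm (show k ≤ m ^ 2 from h')
      rw [Pk_big le_rfl] at h1
      rcases Nat.lt_or_ge (Pk m k) (2 * (k + m) - m ^ 2) with h3 | h3
      · exact h3
      · exfalso
        -- `Pk k ≤ k^2/m^2` and `2(k+m) - m^2` is larger
        have h4 := Pk_le_iff hm k
        have h5 : (2 * (k + m) - m ^ 2) * m ^ 2 ≤ k ^ 2 := (Nat.mul_le_mul_right _ h3).trans h4
        obtain ⟨a, ha⟩ : ∃ a, m ^ 2 = k + a := ⟨m ^ 2 - k, by omega⟩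
        have ham : a ≤ m := by omega
        have h6 : 2 * (k + m) - m ^ 2 = k + 2 * m - a := by omega
        rw [h6] at h5
        obtain ⟨b, rfl⟩ : ∃ b, m = a + b := ⟨m - a, by omega⟩
        have h7 : k + 2 * (a + b) - a = k + a + 2 * b := by omega
        rw [h7, ha] at h5
        nlinarith
    · rw [Pk_big h']; omega

/-- the second difference -/
lemma Pk_second {m : ℕ} (hm : 2 ≤ m) (k : ℕ) :
    Pk m (k + m + m) + Pk m k ≤ 2 * Pk m (k + m) + 3 := by
  have hm2 : 0 < m ^ 2 := by positivity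
  rcases le_total (k + m) (m ^ 2) with h | h
  · have h1 := Pk_le_iff hm (k + m + m)
    have h2 := Pk_le_iff hm k
    have h3 := lt_Pk hm h
    have h4 : (Pk m (k + m + m) + Pk m k) * m ^ 2 < (2 * Pk m (k + m) + 4) * m ^ 2 := by
      have e1 : (k + m + m) ^ 2 + k ^ 2 = 2 * (k + m) ^ 2 + 2 * m ^ 2 := by ring
      have e2 : (2 * Pk m (k + m) + 4) * m ^ 2 = 2 * ((Pk m (k + m) + 1) * m ^ 2) + 2 * m ^ 2 := by
        ring
      rw [e2, add_mul]
      omega
    have := Nat.lt_of_mul_lt_mul_right h4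
    omega
  · rw [Pk_big h, Pk_big (show m ^ 2 ≤ k + m + m by omega)]
    rcases le_total k (m ^ 2) with h' | h'
    · have h2 := Pk_le_iff hm k
      have h3 : Pk m k + m ^ 2 ≤ 2 * k + 1 := by
        by_contra h4
        push Not at h4
        obtain ⟨a, ha⟩ : ∃ a, m ^ 2 = k + a := ⟨m ^ 2 - k, by omega⟩
        have ham : a ≤ m := by omega
        have h5 : k + 2 ≤ Pk m k + a := by omega
        have h6 : (k + 2) * m ^ 2 ≤ (Pk m k + a) * m ^ 2 := Nat.mul_le_mul_right _ h5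
        rw [add_mul (Pk m k)] at h6
        have h7 : a * a ≤ m ^ 2 := by nlinarith
        have h8 : (k + 2) * m ^ 2 ≤ k ^ 2 + a * m ^ 2 := by omega
        rw [ha] at h8 h7
        nlinarith
      omega
    · rw [Pk_big h']; omega

lemma le_Pk {m : ℕ} (hm : 2 ≤ m) (u j : ℕ) : j ≤ Pk m (u + j * m) := by
  induction j with
  | zero => exact Nat.zero_le _
  | succ j ih =>
    have h := Pk_lt hm (u + j * m)
    have e : u + (j + 1) * m = u + j * m + m := by ring
    rw [e]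
    omega

/-! ### Sums over the positions -/

lemma sum_window (F : ℕ → ℝ) (a n : ℕ) : ∑ s ∈ Finset.Ico a (a + n), (F (s + 5) - F s) =
    ∑ i ∈ Finset.range 5, (F (a + n + i) - F (a + i)) := by
  induction n with
  | zero => simp
  | succ n ih =>
    have e : a + (n + 1) = a + n + 1 := rfl
    rw [e, Finset.sum_Ico_succ_top (by omega), ih]
    simp only [Finset.sum_range_succ, Finset.sum_range_zero]
    have e1 : a + n + 1 + 1 = a + n + 2 := rfl
    have e2 : a + n + 1 + 2 = a + n + 3 := rfl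
    have e3 : a + n + 1 + 3 = a + n + 4 := rfl
    have e4 : a + n + 1 + 4 = a + n + 5 := rfl
    rw [e1, e2, e3, e4]
    simp only [add_zero]
    ring

lemma sum_window_le {F : ℕ → ℝ} (hF : Monotone F) {a c : ℕ} (hac : a ≤ c) :
    ∑ s ∈ Finset.Ico a c, (F (s + 5) - F s) ≤ 5 * (F (c + 4) - F a) := by
  obtain ⟨n, rfl⟩ := Nat.exists_eq_add_of_le hac
  rw [sum_window]
  calc ∑ i ∈ Finset.range 5, (F (a + n + i) - F (a + i))
      ≤ ∑ _i ∈ Finset.range 5, (F (a + n + 4) - F a) := by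
        refine Finset.sum_le_sum fun i hi => ?_
        have hi' : i < 5 := Finset.mem_range.1 hi
        have h1 : F (a + n + i) ≤ F (a + n + 4) := hF (by omega)
        have h2 : F a ≤ F (a + i) := hF (by omega)
        linarith
    _ = 5 * (F (a + n + 4) - F a) := by
        rw [Finset.sum_const, Finset.card_range, nsmul_eq_mul]; norm_num

/-- a finite set of natural numbers of small diameter -/
lemma card_le_of_diam {S : Finset ℕ} {c : ℕ} (h : ∀ x ∈ S, ∀ y ∈ S, y < x + c) : S.card ≤ c := by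
  rcases S.eq_empty_or_nonempty with h0 | h0
  · rw [h0]; simp
  · have h1 : S ⊆ Finset.Ico (S.min' h0) (S.min' h0 + c) := by
      intro y hy
      rw [Finset.mem_Ico]
      exact ⟨S.min'_le y hy, h _ (S.min'_mem h0) y hy⟩
    have := Finset.card_le_card h1
    rw [Nat.card_Ico] at this
    omega

lemma sum_fiber {S : Finset ℕ} {g : ℕ → ℕ} {c : ℕ}
    (h : ∀ x ∈ S, ∀ y ∈ S, g x = g y → y < x + c) {Q : Finset ℕ} (hQ : ∀ x ∈ S, g x ∈ Q)
    {f : ℕ → ℝ} (hf : ∀ s, 0 ≤ f s) : ∑ k ∈ S, f (g k) ≤ c * ∑ s ∈ Q, f s := by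
  rw [← Finset.sum_fiberwise_of_maps_to hQ, Finset.mul_sum]
  refine Finset.sum_le_sum fun s _ => ?_
  have h1 : ∑ k ∈ S with g k = s, f (g k) = ((S.filter fun k => g k = s).card : ℝ) * f s := by
    rw [← nsmul_eq_mul]
    refine Finset.sum_eq_card_nsmul fun k hk => ?_
    rw [(Finset.mem_filter.1 hk).2]
  rw [h1]
  apply mul_le_mul_of_nonneg_right _ (hf s)
  have h2 : (S.filter fun k => g k = s).card ≤ c := by
    refine card_le_of_diam fun x hx y hy => ?_
    rw [Finset.mem_filter] at hx hy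
    exact h x hx.1 y hy.1 (hx.2.trans hy.2.symm)
  exact_mod_cast h2

/-- the quadratic part -/
lemma sum_quad {B : ℕ} (hB : 1 ≤ B) {F : ℕ → ℝ} (hF : Monotone F) (b : ℕ) (hb : b ≤ B) :
    ∑ k ∈ Finset.range (2 ^ b * 2 ^ B), (F (Pk (2 ^ B) k + 5) - F (Pk (2 ^ B) k)) ≤
      2 ^ B * (F 5 - F 0) + ∑ j ∈ Finset.range b, 2 ^ (B - j) * (5 * (F (4 ^ (j + 1) + 4) - F 0)) := by
  have hm : 2 ≤ 2 ^ B := by
    calc 2 = 2 ^ 1 := rfl
      _ ≤ 2 ^ B := Nat.pow_le_pow_right (by norm_num) hB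
  have hf : ∀ s, 0 ≤ F (s + 5) - F s := fun s => by
    have := hF (show s ≤ s + 5 by omega)
    linarith
  induction b with
  | zero =>
    rw [pow_zero, one_mul, Finset.range_zero, Finset.sum_empty, add_zero]
    have : ∀ k ∈ Finset.range (2 ^ B), F (Pk (2 ^ B) k + 5) - F (Pk (2 ^ B) k) = F 5 - F 0 := by
      intro k hk
      rw [Pk_zero (Finset.mem_range.1 hk)]
    rw [Finset.sum_congr rfl this, Finset.sum_const, Finset.card_range, nsmul_eq_mul]
    push_cast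
    exact le_rfl
  | succ b ih =>
    have hbB : b < B := by omega
    have ih := ih (by omega)
    rw [Finset.sum_range_succ (n := b)]
    have hle : 2 ^ b * 2 ^ B ≤ 2 ^ (b + 1) * 2 ^ B :=
      Nat.mul_le_mul_right _ (Nat.pow_le_pow_right (by norm_num) (by omega))
    have hsplit : ∑ k ∈ Finset.range (2 ^ (b + 1) * 2 ^ B),
        (F (Pk (2 ^ B) k + 5) - F (Pk (2 ^ B) k)) =
        ∑ k ∈ Finset.range (2 ^ b * 2 ^ B), (F (Pk (2 ^ B) k + 5) - F (Pk (2 ^ B) k)) +
        ∑ k ∈ Finset.Ico (2 ^ b * 2 ^ B) (2 ^ (b + 1) * 2 ^ B),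
          (F (Pk (2 ^ B) k + 5) - F (Pk (2 ^ B) k)) :=
      (Finset.sum_range_add_sum_Ico _ hle).symm
    rw [hsplit]
    have hBB : (2 ^ B) ^ 2 = 2 ^ B * 2 ^ B := pow_two _
    have hup : 2 ^ (b + 1) * 2 ^ B ≤ (2 ^ B) ^ 2 := by
      rw [hBB]
      exact Nat.mul_le_mul_right _ (Nat.pow_le_pow_right (by norm_num) (by omega))
    have hblock : ∑ k ∈ Finset.Ico (2 ^ b * 2 ^ B) (2 ^ (b + 1) * 2 ^ B),
        (F (Pk (2 ^ B) k + 5) - F (Pk (2 ^ B) k)) ≤
        ((2 ^ (B - b) : ℕ) : ℝ) * ∑ s ∈ Finset.Ico (4 ^ b) (4 ^ (b + 1)), (F (s + 5) - F s) := by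
      refine sum_fiber (g := Pk (2 ^ B)) (f := fun s => F (s + 5) - F s) ?_ ?_ hf
      · intro x hx y hy hxy
        rw [Finset.mem_Ico] at hx hy
        by_contra hcon
        push Not at hcon
        have h1 := Pk_le_iff hm y
        have h2 := lt_Pk hm (show x ≤ (2 ^ B) ^ 2 by omega)
        rw [← hxy] at h1
        -- y^2 < x^2 + m^2
        have h3 : (x + 2 ^ (B - b)) ^ 2 ≤ y ^ 2 := Nat.pow_le_pow_left hcon 2
        have h4 : 2 ^ b * 2 ^ B * 2 ^ (B - b) = (2 ^ B) ^ 2 := by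
          have : 2 ^ b * 2 ^ (B - b) = 2 ^ B := by rw [← pow_add]; congr 1; omega
          calc 2 ^ b * 2 ^ B * 2 ^ (B - b) = 2 ^ B * (2 ^ b * 2 ^ (B - b)) := by ring
            _ = (2 ^ B) ^ 2 := by rw [this, pow_two]
        have h5 : (2 ^ B) ^ 2 ≤ x * 2 ^ (B - b) := by
          rw [← h4]; exact Nat.mul_le_mul_right _ hx.1
        have h6 := lt_Pk hm (show y ≤ (2 ^ B) ^ 2 by omega)
        rw [← hxy] at h6
        have h7 := Pk_le_iff hm x
        rw [add_mul, one_mul] at h6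
        have h8 : (x + 2 ^ (B - b)) ^ 2 = x ^ 2 + 2 * (x * 2 ^ (B - b)) + (2 ^ (B - b)) ^ 2 := by
          ring
        have h9 : 0 < (2 ^ (B - b)) ^ 2 := by positivity
        omega
      · intro x hx
        rw [Finset.mem_Ico] at hx
        rw [Finset.mem_Ico]
        have h4b : 4 ^ b = (2 ^ b) ^ 2 := by
          rw [← pow_mul, mul_comm, pow_mul]; norm_num
        have h4b1 : 4 ^ (b + 1) = (2 ^ (b + 1)) ^ 2 := by
          rw [← pow_mul, mul_comm, pow_mul]; norm_num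
        constructor
        · have h1 := lt_Pk hm (show x ≤ (2 ^ B) ^ 2 by omega)
          have h2 : (2 ^ b * 2 ^ B) ^ 2 ≤ x ^ 2 := Nat.pow_le_pow_left hx.1 2
          rw [mul_pow, ← h4b] at h2
          have h3 : 4 ^ b * (2 ^ B) ^ 2 < (Pk (2 ^ B) x + 1) * (2 ^ B) ^ 2 := by omega
          have := Nat.lt_of_mul_lt_mul_right h3
          omega
        · have h1 := Pk_le_iff hm x
          have h2 : x ^ 2 < (2 ^ (b + 1) * 2 ^ B) ^ 2 := Nat.pow_lt_pow_left hx.2 two_ne_zero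
          rw [mul_pow, ← h4b1] at h2
          exact Nat.lt_of_mul_lt_mul_right (lt_of_le_of_lt h1 h2)
    have hwin := sum_window_le hF (Nat.pow_le_pow_right (n := 4) (by norm_num) (Nat.le_succ b))
    have h0 : F 0 ≤ F (4 ^ b) := hF (Nat.zero_le _)
    have hc : ((2 ^ (B - b) : ℕ) : ℝ) = 2 ^ (B - b) := by push_cast; rfl
    rw [hc] at hblock
    have h1 : (2:ℝ) ^ (B - b) * ∑ s ∈ Finset.Ico (4 ^ b) (4 ^ (b + 1)), (F (s + 5) - F s) ≤
        2 ^ (B - b) * (5 * (F (4 ^ (b + 1) + 4) - F 0)) := by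
      apply mul_le_mul_of_nonneg_left _ (by positivity)
      refine hwin.trans ?_
      simp only [Nat.succ_eq_add_one]
      linarith
    linarith

/-- the sum over all positions -/
lemma sum_grid {B : ℕ} (hB : 1 ≤ B) {F : ℕ → ℝ} (hF : Monotone F) {lo hi : ℝ}
    (hlo : ∀ s, lo ≤ F s) (hhi : ∀ s, F s ≤ hi) {T : ℕ → ℝ}
    (hT : ∀ b ≤ B, ∀ s ≤ 4 ^ b + 5, F s ≤ T b) {K : ℕ} (hK : (2 ^ B) ^ 2 ≤ K) :
    ∑ k ∈ Finset.range K, (F (Pk (2 ^ B) k + 5) - F (Pk (2 ^ B) k)) ≤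
      2 ^ B * (10 * ∑ b ∈ Finset.range (B + 1), (1 / 2 ^ b) * (T b - lo)) + 5 * (hi - lo) := by
  have hm : 2 ≤ 2 ^ B := by
    calc 2 = 2 ^ 1 := rfl
      _ ≤ 2 ^ B := Nat.pow_le_pow_right (by norm_num) hB
  have hf : ∀ s, 0 ≤ F (s + 5) - F s := fun s => by
    have := hF (show s ≤ s + 5 by omega)
    linarith
  have hq := sum_quad hB hF B le_rfl
  rw [← Finset.sum_range_add_sum_Ico _ hK, pow_two (2 ^ B)]
  have hlin : ∑ k ∈ Finset.Ico (2 ^ B * 2 ^ B) K, (F (Pk (2 ^ B) k + 5) - F (Pk (2 ^ B) k)) ≤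
      5 * (hi - lo) := by
    have h1 := sum_fiber (S := Finset.Ico (2 ^ B * 2 ^ B) K) (g := Pk (2 ^ B)) (c := 1)
      (Q := Finset.Ico 0 (2 * K)) (f := fun s => F (s + 5) - F s) (by
        intro x hx y hy hxy
        rw [Finset.mem_Ico, ← pow_two] at hx hy
        rw [Pk_big hx.1, Pk_big hy.1] at hxy
        omega) (by
        intro x hx
        rw [Finset.mem_Ico, ← pow_two] at hx
        rw [Pk_big hx.1, Finset.mem_Ico]
        omega) hf
    have h2 := sum_window_le hF (Nat.zero_le (2 * K))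
    have h3 := hlo 0
    have h4 := hhi (2 * K + 4)
    push_cast at h1
    linarith
  have hT0 : F 5 - F 0 ≤ T 0 - lo := by
    have h1 := hT 0 (Nat.zero_le _) 5 (by norm_num)
    have h2 := hlo 0
    linarith
  have hTl : ∀ b ≤ B, 0 ≤ T b - lo := fun b hb => by
    have h1 := hT b hb 0 (Nat.zero_le _)
    have h2 := hlo 0
    linarith
  have hsum : ∑ j ∈ Finset.range B, (2:ℝ) ^ (B - j) * (5 * (F (4 ^ (j + 1) + 4) - F 0)) ≤
      ∑ j ∈ Finset.range B, 2 ^ B * (10 * ((1 / 2 ^ (j + 1)) * (T (j + 1) - lo))) := by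
    refine Finset.sum_le_sum fun j hj => ?_
    have hj' : j < B := Finset.mem_range.1 hj
    have h1 : F (4 ^ (j + 1) + 4) - F 0 ≤ T (j + 1) - lo := by
      have h1 := hT (j + 1) (by omega) (4 ^ (j + 1) + 4) (by omega)
      have h2 := hlo 0
      linarith
    have h2 : (2:ℝ) ^ (B - j) = 2 ^ B * (1 / 2 ^ j) := by
      have : (2:ℝ) ^ B = 2 ^ (B - j) * 2 ^ j := by rw [← pow_add]; congr 1; omega
      rw [this]; field_simp
    have h3 : (2:ℝ) ^ B * (10 * ((1 / 2 ^ (j + 1)) * (T (j + 1) - lo))) =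
        2 ^ (B - j) * (5 * (T (j + 1) - lo)) := by
      rw [h2, pow_succ]
      field_simp
      ring
    rw [h3]
    apply mul_le_mul_of_nonneg_left _ (by positivity)
    linarith
  have hfin : (2:ℝ) ^ B * (F 5 - F 0) +
      ∑ j ∈ Finset.range B, 2 ^ B * (10 * ((1 / 2 ^ (j + 1)) * (T (j + 1) - lo))) ≤
      2 ^ B * (10 * ∑ b ∈ Finset.range (B + 1), (1 / 2 ^ b) * (T b - lo)) := by
    rw [← Finset.mul_sum, ← Finset.mul_sum, ← mul_add]
    apply mul_le_mul_of_nonneg_left _ (by positivity)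
    rw [Finset.sum_range_succ' (fun b => (1 / (2:ℝ) ^ b) * (T b - lo))]
    have := hTl 0 (Nat.zero_le _)
    simp only [pow_zero, div_one, one_mul]
    linarith
  linarith

end Pool.WS
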