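import Pool.Agent.CIP.G

set_option autoImplicit false

open MeasureTheory Pointwise Set Filter Topology

namespace Pool.CIP

variable {n : ℕ} {μ : Measure (E n)}

/-- one growth step for a compact set, given a core of order q -/
lemma step [IsProbabilityMeasure μ] (hsym : μ.map (fun x => -x) = μ) (hlc : LC μ)
    {K : Set (E n)} (hKc : IsCompact K) (hK : 0 < μ.real K) {p q lam B : ℝ} (hp : 2 ≤ p)
    (hl : 0 < lam) (hq1 : 2 * p ≤ q) (hq2 : -Real.log (μ.real K) ≤ q)
    (hcore : μ.real (G μ q lam)ᶜ ≤ Real.exp (-q) / 2)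
    (hB : 8 * Real.exp 2 * lam * (q / max (2 * p) (-Real.log (μ.real K))) ≤ B) :
    1 / 2 < μ.real (K + G μ p B) ∨ Real.exp p * μ.real K ≤ μ.real (K + G μ p B) := by
  set u := -Real.log (μ.real K) with hu
  have hκ : μ.real K = Real.exp (-u) := by rw [hu, neg_neg, Real.exp_log hK]
  have hp0 : 0 < p := by linarith
  have hq0 : 0 < q := by linarith
  rcases le_or_gt u (2 * p) with hup | hup
  · left
    rw [max_eq_left hup] at hB
    have h1 : Real.exp (-q) / 2 < μ.real K := by
      rw [hκ]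
      have h2 : Real.exp (-q) ≤ Real.exp (-u) := Real.exp_le_exp.2 (by linarith)
      have h3 := Real.exp_pos (-u)
      have h4 := Real.exp_pos (-q)
      linarith
    have h5 := grow1 hcore h1
    have h6 : G μ q (2 * lam) ⊆ G μ p B := by
      apply G_subset hsym hlc (by linarith) (by linarith) (by linarith)
      refine le_trans (le_of_eq ?_) hB
      field_simp
      ring
    have h7 := measureReal_mono (μ := μ) (add_subset_add_left (s := K) h6) (measure_ne_top μ _)
    have h8 : Real.exp (-q) < 1 := by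
      rw [Real.exp_lt_one_iff]; linarith
    linarith
  · right
    rw [max_eq_right hup.le] at hB
    have hu0 : 0 < u := by linarith
    have hs0 : 0 < 2 * p / u := by positivity
    have hs1 : 2 * p / u < 1 := by rw [div_lt_one hu0]; exact hup
    have hcore' : μ.real (G μ q lam)ᶜ ≤ μ.real K / 2 := by
      refine hcore.trans ?_
      rw [hκ]
      have h2 : Real.exp (-q) ≤ Real.exp (-u) := Real.exp_le_exp.2 (by linarith)
      linarith
    have h5 := grow2 hlc hKc hl.le hs0 hs1 hcore' hK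
    have h6 : G μ q (2 * (2 * p / u) * lam) ⊆ G μ p B := by
      apply G_subset hsym hlc (by linarith) (by linarith) (by positivity)
      refine le_trans (le_of_eq ?_) hB
      field_simp
      ring
    have h7 := measureReal_mono (μ := μ) (add_subset_add_left (s := K) h6) (measure_ne_top μ _)
    refine le_trans ?_ (h5.trans h7)
    have h8 : μ.real K ^ (1 - 2 * p / u) = Real.exp (2 * p) * μ.real K := by
      rw [hκ, ← Real.exp_mul, ← Real.exp_add]
      congr 1
      field_simp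
      ring
    rw [h8]
    have h9 : 2 * Real.exp p ≤ Real.exp (2 * p) := by
      have h10 : Real.exp (2 * p) = Real.exp p * Real.exp p := by rw [← Real.exp_add]; ring_nf
      rw [h10]
      have h11 : 2 ≤ Real.exp p := by
        have := Real.add_one_le_exp p
        linarith
      exact mul_le_mul_of_nonneg_right h11 (Real.exp_pos p).le
    have h12 : 2 * Real.exp p * μ.real K ≤ Real.exp (2 * p) * μ.real K :=
      mul_le_mul_of_nonneg_right h9 hK.le
    linarith

lemma pow_q_bound {q : ℝ} (hq : 2 ≤ q) : (1 / (8 * Real.exp 1)) ^ q ≤ Real.exp (-q) / 64 := by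
  have hq0 : 0 < q := by linarith
  have h1 : (1 / (8 * Real.exp 1)) ^ q = (1 / 8 : ℝ) ^ q * Real.exp (-q) := by
    rw [one_div, mul_inv, Real.mul_rpow (by positivity) (by positivity), ← Real.exp_neg,
      ← Real.exp_mul]
    norm_num
  have h2 : (1 / 8 : ℝ) ^ q ≤ (1 / 8 : ℝ) ^ (2:ℝ) :=
    Real.rpow_le_rpow_of_exponent_ge (by norm_num) (by norm_num) hq
  have h3 : (1 / 8 : ℝ) ^ (2:ℝ) = 1 / 64 := by
    rw [show (2:ℝ) = ((2:ℕ):ℝ) by norm_num, Real.rpow_natCast]; norm_num
  rw [h1]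
  have h4 := Real.exp_pos (-q)
  rw [h3] at h2
  calc (1 / 8 : ℝ) ^ q * Real.exp (-q) ≤ 1 / 64 * Real.exp (-q) :=
        mul_le_mul_of_nonneg_right h2 h4.le
    _ = _ := by ring

lemma pow_q_bound' {q : ℝ} (hq : 2 ≤ q) {n : ℕ} (hn : (n:ℝ) ≤ q) :
    2 ^ (n + 1) * (2 / (8 * Real.exp 1)) ^ q ≤ Real.exp (-q) / 2 := by
  have hq0 : 0 < q := by linarith
  have h1 : (2 / (8 * Real.exp 1)) ^ q = (1 / 4 : ℝ) ^ q * Real.exp (-q) := by
    have : 2 / (8 * Real.exp 1) = (1/4) * (Real.exp 1)⁻¹ := by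
      field_simp; norm_num
    rw [this, Real.mul_rpow (by positivity) (by positivity), ← Real.exp_neg, ← Real.exp_mul]
    norm_num
  have h2 : (2 : ℝ) ^ (n + 1) = 2 * 2 ^ (n:ℝ) := by
    rw [pow_succ, Real.rpow_natCast]; ring
  have h3 : (2:ℝ) ^ (n:ℝ) ≤ 2 ^ q := Real.rpow_le_rpow_of_exponent_le (by norm_num) hn
  have h4 : (2:ℝ) ^ q * (1 / 4 : ℝ) ^ q = (1 / 2 : ℝ) ^ q := by
    rw [← Real.mul_rpow (by norm_num) (by norm_num)]; norm_num
  have h5 : (1 / 2 : ℝ) ^ q ≤ (1 / 2 : ℝ) ^ (2:ℝ) :=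
    Real.rpow_le_rpow_of_exponent_ge (by norm_num) (by norm_num) hq
  have h6 : (1 / 2 : ℝ) ^ (2:ℝ) = 1 / 4 := by
    rw [show (2:ℝ) = ((2:ℕ):ℝ) by norm_num, Real.rpow_natCast]; norm_num
  have h7 := Real.exp_pos (-q)
  rw [h1, h2]
  calc 2 * (2:ℝ) ^ (n:ℝ) * ((1 / 4) ^ q * Real.exp (-q))
      ≤ 2 * 2 ^ q * ((1 / 4) ^ q * Real.exp (-q)) := by gcongr
    _ = 2 * (2 ^ q * (1 / 4 : ℝ) ^ q) * Real.exp (-q) := by ring
    _ = 2 * (1 / 2 : ℝ) ^ q * Real.exp (-q) := by rw [h4]
    _ ≤ 2 * (1 / 4) * Real.exp (-q) := by rw [← h6]; gcongr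
    _ = _ := by ring

/-- the two core bounds, as hypotheses -/
def CoreV (μ : Measure (E n)) : Prop := ∀ q : ℝ, 2 ≤ q → ∀ lam : ℝ, 0 < lam →
  μ (bad μ q lam) ≤ ENNReal.ofReal (2 ^ (n + 1) * (2 / lam) ^ q)

def CoreL (μ : Measure (E n)) : Prop := ∀ q : ℝ, 2 ≤ q → ∀ lam : ℝ, 0 < lam →
  μ (bad μ q lam) ≤ ENNReal.ofReal ((Real.sqrt n / lam) ^ q)

lemma core_of_V [IsProbabilityMeasure μ] (hsym : μ.map (fun x => -x) = μ) (hlc : LC μ)
    (hV : CoreV μ) {q : ℝ} (hq : 2 ≤ q) (hn : (n:ℝ) ≤ q) :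
    μ.real (G μ q (8 * Real.exp 1))ᶜ ≤ Real.exp (-q) / 2 := by
  have h1 := measure_mono (μ := μ) (compl_G_subset_bad
    (fun q hq v => mq_lt_top hsym hlc hq v) (by linarith : 0 < q)
    (by positivity : 0 < 8 * Real.exp 1))
  have h2 := h1.trans (hV q hq _ (by positivity))
  have h3 := ENNReal.toReal_mono ENNReal.ofReal_ne_top h2
  rw [ENNReal.toReal_ofReal (by positivity)] at h3
  exact h3.trans (pow_q_bound' hq hn)

lemma core_of_L [IsProbabilityMeasure μ] (hsym : μ.map (fun x => -x) = μ) (hlc : LC μ)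
    (hL : CoreL μ) {q c : ℝ} (hq : 2 ≤ q) (hc : 1 ≤ c) (hn : Real.sqrt n ≤ c) :
    μ.real (G μ q (8 * Real.exp 1 * c))ᶜ ≤ Real.exp (-q) / 2 := by
  have hc0 : 0 < c := by linarith
  have h1 := measure_mono (μ := μ) (compl_G_subset_bad
    (fun q hq v => mq_lt_top hsym hlc hq v) (by linarith : 0 < q)
    (by positivity : 0 < 8 * Real.exp 1 * c))
  have h2 := h1.trans (hL q hq _ (by positivity))
  have h3 := ENNReal.toReal_mono ENNReal.ofReal_ne_top h2
  rw [ENNReal.toReal_ofReal (by positivity)] at h3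
  refine h3.trans ?_
  have h4 : Real.sqrt n / (8 * Real.exp 1 * c) ≤ 1 / (8 * Real.exp 1) := by
    rw [div_le_div_iff₀ (by positivity) (by positivity)]
    calc Real.sqrt n * (8 * Real.exp 1) ≤ c * (8 * Real.exp 1) := by gcongr
      _ = 1 * (8 * Real.exp 1 * c) := by ring
  have h5 := Real.rpow_le_rpow (by positivity) h4 (by linarith : 0 ≤ q)
  have h6 := pow_q_bound hq
  have h7 := Real.exp_pos (-q)
  linarith

lemma exp_cube : 96 * Real.exp 3 ≤ 2000 := by
  have h1 : Real.exp 3 = Real.exp 1 ^ 3 := by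
    rw [← Real.exp_nat_mul]; norm_num
  have h2 := Real.exp_one_lt_d9
  have h3 : Real.exp 1 ^ 3 ≤ 2.7182818286 ^ 3 := by gcongr
  rw [h1]
  refine (mul_le_mul_of_nonneg_left h3 (by norm_num)).trans ?_
  norm_num

/-- the growth step under either hypothesis -/
lemma step' [IsProbabilityMeasure μ] (hsym : μ.map (fun x => -x) = μ) (hlc : LC μ)
    (hV : CoreV μ) (hL : CoreL μ) {K : Set (E n)} (hKc : IsCompact K) (hK : 0 < μ.real K)
    {p c : ℝ} (hp : 2 ≤ p) (hc : 1 ≤ c)
    (hyp : Real.sqrt n ≤ c ∨ (n:ℝ) / c ≤ p - Real.log (μ.real K)) :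
    1 / 2 < μ.real (K + G μ p (2000 * c)) ∨
      Real.exp p * μ.real K ≤ μ.real (K + G μ p (2000 * c)) := by
  set u := -Real.log (μ.real K) with hu
  have hc0 : 0 < c := by linarith
  set M := max (2 * p) u with hM
  have hM4 : 4 ≤ M := le_max_of_le_left (by linarith)
  have hM1 : 2 * p ≤ M := le_max_left _ _
  have hM2 : u ≤ M := le_max_right _ _
  have h3e := exp_cube
  have hexp : Real.exp 2 * Real.exp 1 = Real.exp 3 := by rw [← Real.exp_add]; norm_num
  have hexp0 := Real.exp_pos 3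
  rcases hyp with hn | hn
  · apply step hsym hlc hKc hK hp (q := M) (lam := 8 * Real.exp 1 * c) (by positivity) hM1 hM2
      (core_of_L hsym hlc hL (by linarith) hc hn)
    rw [← hu, ← hM, div_self (by linarith)]
    calc 8 * Real.exp 2 * (8 * Real.exp 1 * c) * 1 = 64 * (Real.exp 2 * Real.exp 1) * c := by ring
      _ = 64 * Real.exp 3 * c := by rw [hexp]
      _ ≤ 2000 * c := by
        apply mul_le_mul_of_nonneg_right _ hc0.le
        linarith
  · have hn' : (n:ℝ) ≤ c * (p + u) := by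
      have h1 : (n:ℝ) / c ≤ p + u := by linarith
      rwa [div_le_iff₀' hc0] at h1
    have hq3 : max M (n:ℝ) ≤ 3 / 2 * c * M := by
      apply max_le
      · have : M * 1 ≤ M * (3 / 2 * c) := mul_le_mul_of_nonneg_left (by linarith) (by linarith)
        linarith
      · refine hn'.trans ?_
        have h1 : p + u ≤ 3 / 2 * M := by linarith
        calc c * (p + u) ≤ c * (3 / 2 * M) := mul_le_mul_of_nonneg_left h1 hc0.le
          _ = _ := by ring
    apply step hsym hlc hKc hK hp (q := max M n) (lam := 8 * Real.exp 1) (by positivity)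
      (hM1.trans (le_max_left _ _)) (hM2.trans (le_max_left _ _))
      (core_of_V hsym hlc hV (by linarith [le_max_left M (n:ℝ)]) (le_max_right _ _))
    rw [← hu, ← hM]
    have h1 : max M (n:ℝ) / M ≤ 3 / 2 * c := by
      rw [div_le_iff₀ (by linarith)]; exact hq3
    calc 8 * Real.exp 2 * (8 * Real.exp 1) * (max M (n:ℝ) / M)
        ≤ 8 * Real.exp 2 * (8 * Real.exp 1) * (3 / 2 * c) := by gcongr
      _ = 96 * (Real.exp 2 * Real.exp 1) * c := by ring
      _ = 96 * Real.exp 3 * c := by rw [hexp]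
      _ ≤ 2000 * c := mul_le_mul_of_nonneg_right h3e hc0.le

/-- the concentration inequality with the stated constants -/
theorem conc [IsProbabilityMeasure μ] (hsym : μ.map (fun x => -x) = μ) (hlc : LC μ)
    (hV : CoreV μ) (hL : CoreL μ) {p c : ℝ} (hp : 2 ≤ p) (hc : 1 ≤ c) {A : Set (E n)}
    (hA : MeasurableSet A) (h12 : 1 / 2 ≤ μ.real A)
    (hyp : Real.sqrt n ≤ c ∨ Real.exp (-p) * (1 - μ.real A) ≤ Real.exp (-(n / c))) :
    1 - μ.real (A + (2000 * c) • Z μ p) ≤ Real.exp (-p) * (1 - μ.real A) := by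
  have hp0 : 0 < p := by linarith
  have hc0 : 0 < c := by linarith
  rw [smul_Z_eq hp0 (by positivity)]
  set Gp := G μ p (2000 * c) with hGp
  obtain ⟨H, hAH, hHm, hHμ⟩ := exists_measurable_superset μ (A + Gp)
  have hHr : μ.real (A + Gp) = μ.real H := by simp [Measure.real, hHμ]
  have hcH : μ.real Hᶜ = 1 - μ.real H := by
    rw [measureReal_compl hHm]; simp
  have hcA : μ.real Aᶜ = 1 - μ.real A := by
    rw [measureReal_compl hA]; simp
  rw [hHr, ← hcH, ← hcA]
  -- it suffices to bound compact subsets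
  have key : ∀ K : Set (E n), K ⊆ Hᶜ → IsCompact K → μ.real K ≤ Real.exp (-p) * μ.real Aᶜ := by
    intro K hKH hKc
    rcases (measureReal_nonneg (μ := μ) (s := K)).eq_or_lt with h0 | hpos
    · rw [← h0]; positivity
    have hsub : K + Gp ⊆ Aᶜ := by
      rintro _ ⟨k, hk, z, hz, rfl⟩ hin
      apply hKH hk
      apply hAH
      refine ⟨k + z, hin, -z, fun v => ?_, by simp⟩
      rw [inner_neg_right, abs_neg]
      exact hz v
    have hW : μ.real (K + Gp) ≤ μ.real Aᶜ := measureReal_mono hsub (measure_ne_top μ _)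
    have hKA : μ.real K ≤ μ.real Aᶜ := by
      refine le_trans (measureReal_mono ?_ (measure_ne_top μ _)) hW
      intro k hk
      exact ⟨k, hk, 0, zero_mem_G (by positivity), by simp⟩
    have hyp' : Real.sqrt n ≤ c ∨ (n:ℝ) / c ≤ p - Real.log (μ.real K) := by
      rcases hyp with h | h
      · exact Or.inl h
      · right
        rw [← hcA] at h
        have h1 : Real.exp (-p) * μ.real K ≤ Real.exp (-(n / c)) :=
          (mul_le_mul_of_nonneg_left hKA (Real.exp_pos _).le).trans h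
        have h2 := Real.log_le_log (by positivity) h1
        rw [Real.log_mul (Real.exp_pos _).ne' hpos.ne', Real.log_exp, Real.log_exp] at h2
        linarith
    have hstep := step' hsym hlc hV hL hKc hpos hp hc hyp'
    rw [← hGp] at hstep
    rcases hstep with h | h
    · linarith
    · have h3 : Real.exp p * μ.real K ≤ μ.real Aᶜ := h.trans hW
      rw [Real.exp_neg, ← div_eq_inv_mul, le_div_iff₀ (Real.exp_pos p)]
      linarith
  refine le_of_forall_pos_le_add fun ε hε => ?_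
  obtain ⟨K, hKH, hKc, hK⟩ := hHm.compl.exists_isCompact_lt_add (measure_ne_top μ _)
    (ε := ENNReal.ofReal ε) (by simpa using hε)
  have h1 := ENNReal.toReal_mono (by finiteness) hK.le
  rw [ENNReal.toReal_add (measure_ne_top μ _) (by simp), ENNReal.toReal_ofReal hε.le] at h1
  have h2 := key K hKH hKc
  have h3 : μ.real Hᶜ ≤ μ.real K + ε := h1
  linarith

end Pool.CIP
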