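import Pool.Agent.CIP.T

set_option autoImplicit false

open MeasureTheory Pointwise Set Filter Topology

namespace Pool.WS

variable {E : Type*} [NormedAddCommGroup E] [NormedSpace ℝ E] [MeasurableSpace E] [BorelSpace E]
  {μ : Measure E}

/-- log-concavity with the weights `1 - a`, `a`, for compact sets -/
def LCw (μ : Measure E) (a : ℝ) : Prop := ∀ K L : Set E, IsCompact K → IsCompact L →
  μ.real K ^ (1 - a) * μ.real L ^ a ≤ μ.real ((1 - a) • K + a • L)

open Classical in
/-- a quantile of the functional `v` on the set `A` -/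
noncomputable def qn (μ : Measure E) (A : Set E) (c : ℝ) (v : E →L[ℝ] ℝ) : ℝ :=
  if h : ∃ τ : ℝ, c ≤ μ.real (A ∩ up v τ) ∧ μ.real (A ∩ ou v τ) ≤ c then h.choose else 0

lemma qn_spec [IsProbabilityMeasure μ] {A : Set E} (hA : MeasurableSet A) {v : E →L[ℝ] ℝ}
    {m c : ℝ} (hm : ∀ x ∈ A, |v x| ≤ m) (hc : 0 < c) (hcA : c ≤ μ.real A) :
    c ≤ μ.real (A ∩ up v (qn μ A c v)) ∧ μ.real (A ∩ ou v (qn μ A c v)) ≤ c := by
  have h : ∃ τ : ℝ, c ≤ μ.real (A ∩ up v τ) ∧ μ.real (A ∩ ou v τ) ≤ c := by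
    obtain ⟨τ, _, _, h3, h4⟩ := exists_quantile hA hm hc hcA
    exact ⟨τ, h3, h4⟩
  unfold qn
  rw [dif_pos h]
  exact h.choose_spec

/-- the levels -/
noncomputable def lev (μ : Measure E) (s : ℕ → ℝ) (k : ℕ) (a t₀ : ℝ) (A : Set E) (j : ℕ)
    (v : E →L[ℝ] ℝ) : ℝ :=
  t₀ + a / (1 - a) * ∑ i ∈ Finset.range k, qn μ A (Real.exp (-(s (j + i)))) v

omit [BorelSpace E] in
lemma lev_succ (s : ℕ → ℝ) (k : ℕ) (a t₀ : ℝ) (A : Set E) (j : ℕ) (v : E →L[ℝ] ℝ) :
    lev μ s k a t₀ A (j + 1) v = lev μ s k a t₀ A j v +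
      a / (1 - a) * (qn μ A (Real.exp (-(s (j + k)))) v - qn μ A (Real.exp (-(s j))) v) := by
  unfold lev
  have h1 : ∑ i ∈ Finset.range k, qn μ A (Real.exp (-(s (j + 1 + i)))) v =
      ∑ i ∈ Finset.range k, qn μ A (Real.exp (-(s (j + i)))) v +
        (qn μ A (Real.exp (-(s (j + k)))) v - qn μ A (Real.exp (-(s j))) v) := by
    induction k with
    | zero => simp
    | succ k ih =>
      rw [Finset.sum_range_succ, Finset.sum_range_succ, ih]
      have e : j + 1 + k = j + (k + 1) := by ring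
      rw [e]
      ring
  rw [h1]
  ring

/-- the state of the greedy procedure -/
def Inv (μ : Measure E) (s : ℕ → ℝ) (k J : ℕ) (a : ℝ) (S₀ A₀ S A : Set E) (c : ℕ → ℕ) : Prop :=
  MeasurableSet S ∧ MeasurableSet A ∧ S ⊆ S₀ ∧ A ⊆ A₀ ∧
    μ.real S₀ - ∑ j ∈ Finset.range J, c j * Real.exp (-(s (j + k))) ≤ μ.real S ∧
    μ.real A₀ - ∑ j ∈ Finset.range J, c j * Real.exp (-(s (j + k))) ≤ μ.real A ∧
    ∀ j < J, ∃ G : ℕ → Set E,
      (∀ i < c j, IsCompact (G i) ∧
        Real.exp (-((1 - a) * s (j + k + 1) + a * (s j + 1))) ≤ μ.real (G i) ∧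
        ∀ x ∈ S, ∀ y ∈ A, (1 - a) • x + a • y ∉ G i) ∧
      ∀ i l : ℕ, i < l → l < c j → Disjoint (G i) (G l)

lemma Inv.count [IsProbabilityMeasure μ] {s : ℕ → ℝ} {k J : ℕ} {a : ℝ} {S₀ A₀ S A : Set E}
    {c : ℕ → ℕ} (h : Inv μ s k J a S₀ A₀ S A c) {j : ℕ} (hj : j < J) :
    c j * Real.exp (-((1 - a) * s (j + k + 1) + a * (s j + 1))) ≤ 1 := by
  obtain ⟨G, h1, h2⟩ := h.2.2.2.2.2.2 j hj
  have hdisj : Set.PairwiseDisjoint (↑(Finset.range (c j))) G := by
    intro i hi l hl hil
    have hi' : i < c j := by simpa using hi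
    have hl' : l < c j := by simpa using hl
    rcases lt_or_gt_of_ne hil with h3 | h3
    · exact h2 i l h3 hl'
    · exact (h2 l i h3 hi').symm
  have hsum : ∑ i ∈ Finset.range (c j), μ.real (G i) = μ.real (⋃ i ∈ Finset.range (c j), G i) :=
    (measureReal_biUnion_finset hdisj
      (fun i hi => (h1 i (Finset.mem_range.1 hi)).1.measurableSet)).symm
  have hle : ∑ i ∈ Finset.range (c j), μ.real (G i) ≤ 1 := by
    rw [hsum]; exact measureReal_le_one
  calc c j * Real.exp (-((1 - a) * s (j + k + 1) + a * (s j + 1)))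
      = ∑ i ∈ Finset.range (c j), Real.exp (-((1 - a) * s (j + k + 1) + a * (s j + 1))) := by
        rw [Finset.sum_const, Finset.card_range, nsmul_eq_mul]
    _ ≤ ∑ i ∈ Finset.range (c j), μ.real (G i) :=
        Finset.sum_le_sum fun i hi => (h1 i (Finset.mem_range.1 hi)).2.1
    _ ≤ 1 := hle

/-- the total loss -/
lemma Inv.loss [IsProbabilityMeasure μ] {s : ℕ → ℝ} {k J : ℕ} {a : ℝ} {S₀ A₀ S A : Set E}
    {c : ℕ → ℕ} (h : Inv μ s k J a S₀ A₀ S A c) :
    ∑ j ∈ Finset.range J, c j * Real.exp (-(s (j + k))) ≤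
      ∑ j ∈ Finset.range J,
        Real.exp ((1 - a) * s (j + k + 1) + a * (s j + 1) - s (j + k)) := by
  refine Finset.sum_le_sum fun j hj => ?_
  have h1 := h.count (Finset.mem_range.1 hj)
  have h2 : Real.exp (-((1 - a) * s (j + k + 1) + a * (s j + 1))) *
      Real.exp ((1 - a) * s (j + k + 1) + a * (s j + 1)) = 1 := by
    rw [← Real.exp_add]; simp
  have h3 := Real.exp_pos ((1 - a) * s (j + k + 1) + a * (s j + 1))
  have h4 : (c j : ℝ) ≤ Real.exp ((1 - a) * s (j + k + 1) + a * (s j + 1)) := by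
    calc (c j : ℝ) = c j * (Real.exp (-((1 - a) * s (j + k + 1) + a * (s j + 1))) *
          Real.exp ((1 - a) * s (j + k + 1) + a * (s j + 1))) := by rw [h2, mul_one]
      _ = (c j * Real.exp (-((1 - a) * s (j + k + 1) + a * (s j + 1)))) *
          Real.exp ((1 - a) * s (j + k + 1) + a * (s j + 1)) := by ring
      _ ≤ 1 * Real.exp ((1 - a) * s (j + k + 1) + a * (s j + 1)) :=
          mul_le_mul_of_nonneg_right h1 h3.le
      _ = _ := one_mul _
  calc c j * Real.exp (-(s (j + k)))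
      ≤ Real.exp ((1 - a) * s (j + k + 1) + a * (s j + 1)) * Real.exp (-(s (j + k))) :=
        mul_le_mul_of_nonneg_right h4 (Real.exp_pos _).le
    _ = _ := by rw [← Real.exp_add]; congr 1

/-- no violation up to the scale `J` -/
def Clean (μ : Measure E) (s : ℕ → ℝ) (k J : ℕ) (a t₀ : ℝ) (T : Set (E →L[ℝ] ℝ))
    (S A : Set E) : Prop :=
  ∀ j ≤ J, ∀ v ∈ T, μ.real (S ∩ up v (lev μ s k a t₀ A j v)) ≤ Real.exp (-(s (j + k)))

/-- one step of the greedy procedure -/
lemma Inv.step [CompleteSpace E] [SecondCountableTopology E] [IsProbabilityMeasure μ]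
    {s : ℕ → ℝ} {k J : ℕ} {a t₀ : ℝ} (ha : 0 < a) (ha1 : a < 1) (hlc : LCw μ a)
    {T : Set (E →L[ℝ] ℝ)} {m : (E →L[ℝ] ℝ) → ℝ} {S₀ A₀ S A : Set E}
    (hm : ∀ v ∈ T, ∀ x ∈ A₀, |v x| ≤ m v) {c : ℕ → ℕ} (h : Inv μ s k J a S₀ A₀ S A c)
    (hAs : ∀ j, Real.exp (-(s j)) ≤ μ.real A)
    (h0 : ∀ v ∈ T, μ.real (S ∩ up v (lev μ s k a t₀ A 0 v)) ≤ Real.exp (-(s k)))
    (hcl : ¬ Clean μ s k J a t₀ T S A) :
    ∃ (S' A' : Set E) (c' : ℕ → ℕ), Inv μ s k J a S₀ A₀ S' A' c' ∧
      ∑ j ∈ Finset.range J, c' j = ∑ j ∈ Finset.range J, c j + 1 := by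
  obtain ⟨hSm, hAm, hS, hA, hSμ, hAμ, hG⟩ := h
  -- the smallest violation
  have hex : ∃ j : ℕ, j ≤ J ∧ ∃ v ∈ T,
      Real.exp (-(s (j + k))) < μ.real (S ∩ up v (lev μ s k a t₀ A j v)) := by
    unfold Clean at hcl
    push Not at hcl
    obtain ⟨j, h1, v, h2, h3⟩ := hcl
    exact ⟨j, h1, v, h2, h3⟩
  classical
  obtain ⟨hjJ, v, hv, hviol⟩ := Nat.find_spec hex
  have hmin : ∀ i < Nat.find hex, ∀ w ∈ T,
      μ.real (S ∩ up w (lev μ s k a t₀ A i w)) ≤ Real.exp (-(s (i + k))) := by
    intro i hi w hw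
    have h1 := Nat.find_min hex hi
    by_contra h2
    rw [not_le] at h2
    exact h1 ⟨by omega, w, hw, h2⟩
  generalize Nat.find hex = j₀ at hjJ hviol hmin
  obtain ⟨j, rfl⟩ : ∃ j, j₀ = j + 1 := by
    rcases Nat.eq_zero_or_pos j₀ with h1 | h1
    · exfalso
      rw [h1] at hviol
      have := h0 v hv
      rw [zero_add] at hviol
      linarith
    · exact ⟨j₀ - 1, by omega⟩
  have hjlt : j < J := by omega
  have hSt := hmin j (by omega) v hv
  set t := lev μ s k a t₀ A j v with ht
  set t' := lev μ s k a t₀ A (j + 1) v with ht'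
  set fl := qn μ A (Real.exp (-(s j))) v with hfl
  set fu := qn μ A (Real.exp (-(s (j + k)))) v with hfu
  have htt : (1 - a) * t' + a * fl = (1 - a) * t + a * fu := by
    rw [ht', lev_succ, ← ht, ← hfl, ← hfu]
    have : 1 - a ≠ 0 := by linarith
    field_simp
    ring
  have hmA : ∀ x ∈ A, |v x| ≤ m v := fun x hx => hm v hv x (hA hx)
  obtain ⟨hlow, _⟩ := qn_spec hAm hmA (Real.exp_pos (-(s j))) (hAs j)
  obtain ⟨_, hupp⟩ := qn_spec hAm hmA (Real.exp_pos (-(s (j + k)))) (hAs (j + k))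
  rw [← hfl] at hlow
  rw [← hfu] at hupp
  obtain ⟨KB, hKB, hKBc, hKBμ⟩ := exists_compact_real (hSm.inter (meas_up v t')) hviol
  obtain ⟨KA, hKA, hKAc, hKAμ⟩ := exists_compact_real (hAm.inter (meas_up v fl))
    (show Real.exp (-(s j + 1)) < μ.real (A ∩ up v fl) by
      refine lt_of_lt_of_le ?_ hlow
      apply Real.exp_lt_exp.2
      linarith)
  set Gn : Set E := (1 - a) • KB + a • KA with hGn
  have hGnc : IsCompact Gn := (hKBc.smul _).add (hKAc.smul _)
  have hGnμ : Real.exp (-((1 - a) * s (j + k + 1) + a * (s j + 1))) ≤ μ.real Gn := by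
    refine le_trans ?_ (hlc KB KA hKBc hKAc)
    have h1 : Real.exp (-((1 - a) * s (j + k + 1) + a * (s j + 1))) =
        Real.exp (-(s (j + 1 + k))) ^ (1 - a) * Real.exp (-(s j + 1)) ^ a := by
      rw [← Real.exp_mul, ← Real.exp_mul, ← Real.exp_add]
      congr 1
      have e : j + 1 + k = j + k + 1 := by ring
      rw [e]
      ring
    rw [h1]
    apply mul_le_mul
    · exact Real.rpow_le_rpow (Real.exp_pos _).le hKBμ.le (by linarith)
    · exact Real.rpow_le_rpow (Real.exp_pos _).le hKAμ.le ha.le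
    · positivity
    · positivity
  have hGnlow : ∀ g ∈ Gn, (1 - a) * t' + a * fl ≤ v g := by
    rintro _ ⟨_, ⟨x, hx, rfl⟩, _, ⟨y, hy, rfl⟩, rfl⟩
    have h1 : t' ≤ v x := (hKB hx).2
    have h2 : fl ≤ v y := (hKA hy).2
    simp only [map_add, map_smul, smul_eq_mul]
    have h3 := mul_le_mul_of_nonneg_left h1 (by linarith : 0 ≤ 1 - a)
    have h4 := mul_le_mul_of_nonneg_left h2 ha.le
    linarith
  refine ⟨S \ up v t, A \ ou v fu, Function.update c j (c j + 1),
    ⟨hSm.diff (meas_up _ _), hAm.diff (meas_ou _ _), sdiff_subset.trans hS,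
      sdiff_subset.trans hA, ?_, ?_, ?_⟩, ?_⟩
  · have h7 : μ.real S ≤ μ.real (S \ up v t) + μ.real (S ∩ up v t) := by
      refine le_trans (measureReal_mono ?_ (measure_ne_top μ _)) (measureReal_union_le _ _)
      intro x hx
      by_cases hx' : x ∈ up v t
      · exact Or.inr ⟨hx, hx'⟩
      · exact Or.inl ⟨hx, hx'⟩
    have h8 : ∑ i ∈ Finset.range J, ((Function.update c j (c j + 1) i : ℕ) : ℝ) *
        Real.exp (-(s (i + k))) = ∑ i ∈ Finset.range J, (c i : ℝ) * Real.exp (-(s (i + k))) +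
          Real.exp (-(s (j + k))) := by
      have h9 : ∀ i ∈ Finset.range J, ((Function.update c j (c j + 1) i : ℕ) : ℝ) *
          Real.exp (-(s (i + k))) = (c i : ℝ) * Real.exp (-(s (i + k))) +
            (if i = j then Real.exp (-(s (j + k))) else 0) := by
        intro i _
        by_cases hij : i = j
        · subst hij
          simp only [Function.update_self, if_true]
          push_cast; ring
        · rw [Function.update_of_ne hij, if_neg hij, add_zero]
      rw [Finset.sum_congr rfl h9, Finset.sum_add_distrib, Finset.sum_ite_eq' (Finset.range J) j,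
        if_pos (Finset.mem_range.2 hjlt)]
    rw [h8]
    linarith
  · have h7 : μ.real A ≤ μ.real (A \ ou v fu) + μ.real (A ∩ ou v fu) := by
      refine le_trans (measureReal_mono ?_ (measure_ne_top μ _)) (measureReal_union_le _ _)
      intro x hx
      by_cases hx' : x ∈ ou v fu
      · exact Or.inr ⟨hx, hx'⟩
      · exact Or.inl ⟨hx, hx'⟩
    have h8 : ∑ i ∈ Finset.range J, ((Function.update c j (c j + 1) i : ℕ) : ℝ) *
        Real.exp (-(s (i + k))) = ∑ i ∈ Finset.range J, (c i : ℝ) * Real.exp (-(s (i + k))) +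
          Real.exp (-(s (j + k))) := by
      have h9 : ∀ i ∈ Finset.range J, ((Function.update c j (c j + 1) i : ℕ) : ℝ) *
          Real.exp (-(s (i + k))) = (c i : ℝ) * Real.exp (-(s (i + k))) +
            (if i = j then Real.exp (-(s (j + k))) else 0) := by
        intro i _
        by_cases hij : i = j
        · subst hij
          simp only [Function.update_self, if_true]
          push_cast; ring
        · rw [Function.update_of_ne hij, if_neg hij, add_zero]
      rw [Finset.sum_congr rfl h9, Finset.sum_add_distrib, Finset.sum_ite_eq' (Finset.range J) j,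
        if_pos (Finset.mem_range.2 hjlt)]
    rw [h8]
    linarith
  · intro i hi
    obtain ⟨G, h1, h2⟩ := hG i hi
    by_cases hij : i = j
    · subst hij
      refine ⟨fun l => if l = c i then Gn else G l, ?_, ?_⟩
      · intro l hl
        rw [Function.update_self] at hl
        by_cases hlc' : l = c i
        · simp only [hlc', if_true]
          refine ⟨hGnc, hGnμ, ?_⟩
          intro x hx y hy hmem
          have h3 := hGnlow _ hmem
          simp only [map_add, map_smul, smul_eq_mul] at h3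
          have h4 : v x < t := by
            have := hx.2
            simp only [up, mem_ofPred_eq, not_le] at this
            exact this
          have h5 : v y ≤ fu := by
            have := hy.2
            simp only [ou, mem_ofPred_eq, not_lt] at this
            exact this
          have h6 := mul_lt_mul_of_pos_left h4 (by linarith : 0 < 1 - a)
          have h7 := mul_le_mul_of_nonneg_left h5 ha.le
          linarith
        · simp only [if_neg hlc']
          obtain ⟨h3, h4, h5⟩ := h1 l (by omega)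
          exact ⟨h3, h4, fun x hx y hy => h5 x hx.1 y hy.1⟩
      · intro l l' hll hl'
        rw [Function.update_self] at hl'
        by_cases hlc' : l' = c i
        · have hlne : l ≠ c i := by omega
          simp only [hlc', if_true, if_neg hlne]
          rw [Set.disjoint_right]
          rintro _ ⟨_, ⟨x, hx, rfl⟩, _, ⟨y, hy, rfl⟩, rfl⟩
          exact (h1 l (by omega)).2.2 x (hKB hx).1 y (hKA hy).1
        · have hlne : l ≠ c i := by omega
          simp only [if_neg hlc', if_neg hlne]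
          exact h2 l l' hll (by omega)
    · refine ⟨G, ?_, ?_⟩
      · intro l hl
        rw [Function.update_of_ne hij] at hl
        obtain ⟨h3, h4, h5⟩ := h1 l hl
        exact ⟨h3, h4, fun x hx y hy => h5 x hx.1 y hy.1⟩
      · intro l l' hll hl'
        rw [Function.update_of_ne hij] at hl'
        exact h2 l l' hll hl'
  · have h9 : ∀ i ∈ Finset.range J, Function.update c j (c j + 1) i =
        c i + (if i = j then 1 else 0) := by
      intro i _
      by_cases hij : i = j
      · subst hij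
        simp
      · rw [Function.update_of_ne hij, if_neg hij, add_zero]
    rw [Finset.sum_congr rfl h9, Finset.sum_add_distrib, Finset.sum_ite_eq' (Finset.range J) j,
      if_pos (Finset.mem_range.2 hjlt)]

end Pool.WS
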