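import Pool.Agent.CIP.FA

set_option autoImplicit false

open MeasureTheory Pointwise Set Filter Topology

namespace Pool.WS

variable {E : Type*} [NormedAddCommGroup E] [NormedSpace ℝ E] [MeasurableSpace E] [BorelSpace E]
  {μ : Measure E}

/-- the greedy procedure ends in a state without violations -/
lemma exists_clean [CompleteSpace E] [SecondCountableTopology E] [IsProbabilityMeasure μ]
    {s : ℕ → ℝ} {k J : ℕ} {a t₀ : ℝ} (ha : 0 < a) (ha1 : a < 1) (hlc : LCw μ a)
    {T : Set (E →L[ℝ] ℝ)} {m : (E →L[ℝ] ℝ) → ℝ} {S₀ A₀ : Set E}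
    (hS₀ : MeasurableSet S₀) (hA₀ : MeasurableSet A₀)
    (hm : ∀ v ∈ T, ∀ x ∈ A₀, |v x| ≤ m v) {η : ℝ}
    (hη : ∑ j ∈ Finset.range J,
      Real.exp ((1 - a) * s (j + k + 1) + a * (s j + 1) - s (j + k)) ≤ η)
    (hAs : ∀ A ⊆ A₀, MeasurableSet A → μ.real A₀ - η ≤ μ.real A →
      ∀ j, Real.exp (-(s j)) ≤ μ.real A)
    (h0 : ∀ A ⊆ A₀, MeasurableSet A → μ.real A₀ - η ≤ μ.real A → ∀ v ∈ T, ∀ S : Set E,
      μ.real (S ∩ up v (lev μ s k a t₀ A 0 v)) ≤ Real.exp (-(s k))) :
    ∃ S A : Set E, S ⊆ S₀ ∧ A ⊆ A₀ ∧ MeasurableSet S ∧ MeasurableSet A ∧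
      μ.real S₀ - η ≤ μ.real S ∧ μ.real A₀ - η ≤ μ.real A ∧ Clean μ s k J a t₀ T S A := by
  set M : ℕ := ⌈∑ j ∈ Finset.range J, Real.exp ((1 - a) * s (j + k + 1) + a * (s j + 1))⌉₊ with hM
  have hbd : ∀ (S A : Set E) (c : ℕ → ℕ), Inv μ s k J a S₀ A₀ S A c →
      ∑ j ∈ Finset.range J, c j ≤ M := by
    intro S A c h
    have h1 : ((∑ j ∈ Finset.range J, c j : ℕ) : ℝ) ≤
        ∑ j ∈ Finset.range J, Real.exp ((1 - a) * s (j + k + 1) + a * (s j + 1)) := by
      push_cast
      refine Finset.sum_le_sum fun j hj => ?_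
      have h1 := h.count (Finset.mem_range.1 hj)
      rw [Real.exp_neg, ← div_eq_mul_inv, div_le_one (Real.exp_pos _)] at h1
      exact h1
    exact_mod_cast h1.trans (Nat.le_ceil _)
  have hind : ∀ (d : ℕ) (S A : Set E) (c : ℕ → ℕ), Inv μ s k J a S₀ A₀ S A c →
      M ≤ ∑ j ∈ Finset.range J, c j + d →
      ∃ S A : Set E, S ⊆ S₀ ∧ A ⊆ A₀ ∧ MeasurableSet S ∧ MeasurableSet A ∧
        μ.real S₀ - η ≤ μ.real S ∧ μ.real A₀ - η ≤ μ.real A ∧ Clean μ s k J a t₀ T S A := by
    intro d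
    induction d with
    | zero =>
      intro S A c h hd
      by_cases hcl : Clean μ s k J a t₀ T S A
      · have hl := h.loss
        obtain ⟨hSm, hAm, hS, hA, hSμ, hAμ, _⟩ := h
        exact ⟨S, A, hS, hA, hSm, hAm, by linarith, by linarith, hcl⟩
      · exfalso
        have hl := h.loss
        have hAη : μ.real A₀ - η ≤ μ.real A := by
          have := h.2.2.2.2.2.1
          linarith
        obtain ⟨S', A', c', h', hc'⟩ := h.step ha ha1 hlc hm
          (hAs A h.2.2.2.1 h.2.1 hAη) (fun v hv => h0 A h.2.2.2.1 h.2.1 hAη v hv S) hcl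
        have := hbd S' A' c' h'
        omega
    | succ d ih =>
      intro S A c h hd
      by_cases hcl : Clean μ s k J a t₀ T S A
      · have hl := h.loss
        obtain ⟨hSm, hAm, hS, hA, hSμ, hAμ, _⟩ := h
        exact ⟨S, A, hS, hA, hSm, hAm, by linarith, by linarith, hcl⟩
      · have hl := h.loss
        have hAη : μ.real A₀ - η ≤ μ.real A := by
          have := h.2.2.2.2.2.1
          linarith
        obtain ⟨S', A', c', h', hc'⟩ := h.step ha ha1 hlc hm
          (hAs A h.2.2.2.1 h.2.1 hAη) (fun v hv => h0 A h.2.2.2.1 h.2.1 hAη v hv S) hcl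
        exact ih S' A' c' h' (by omega)
  refine hind M S₀ A₀ (fun _ => 0) ⟨hS₀, hA₀, subset_rfl, subset_rfl, by simp, by simp, ?_⟩ (by simp)
  intro j _
  exact ⟨fun _ => ∅, fun i hi => absurd hi (Nat.not_lt_zero i),
    fun i l _ hl => absurd hl (Nat.not_lt_zero l)⟩

lemma qn_le [IsProbabilityMeasure μ] {A : Set E} (hA : MeasurableSet A) {v : E →L[ℝ] ℝ}
    {m c h : ℝ} (hm : ∀ x ∈ A, |v x| ≤ m) (hc : 0 < c) (hcA : c ≤ μ.real A)
    (hh : ∀ x ∈ A, v x ≤ h) : qn μ A c v ≤ h := by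
  obtain ⟨h1, _⟩ := qn_spec hA hm hc hcA
  have h2 : (A ∩ up v (qn μ A c v)).Nonempty := by
    rw [nonempty_iff_ne_empty]
    intro h3
    rw [h3] at h1
    simp at h1
    linarith
  obtain ⟨x, hx, hx'⟩ := h2
  exact le_trans hx' (hh x hx)

lemma le_qn [IsProbabilityMeasure μ] {A : Set E} (hA : MeasurableSet A) {v : E →L[ℝ] ℝ}
    {m c δ κ : ℝ} (hm : ∀ x ∈ A, |v x| ≤ m) (hc : 0 < c) (hcA : c + κ < μ.real A)
    (hκ0 : 0 ≤ κ) (hκ : μ.real {x | v x ≤ -δ} ≤ κ) : -δ ≤ qn μ A c v := by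
  obtain ⟨_, h1⟩ := qn_spec hA hm hc (by linarith : c ≤ μ.real A)
  by_contra hcon
  rw [not_le] at hcon
  have h2 : μ.real A ≤ μ.real (A ∩ ou v (qn μ A c v)) + μ.real {x | v x ≤ -δ} := by
    refine le_trans (measureReal_mono ?_ (measure_ne_top μ _)) (measureReal_union_le _ _)
    intro x hx
    by_cases hx' : v x ≤ -δ
    · exact Or.inr hx'
    · refine Or.inl ⟨hx, ?_⟩
      show qn μ A c v < v x
      linarith
  linarith

/-- the tail estimate with dilation close to one -/
theorem tail_eps [CompleteSpace E] [SecondCountableTopology E] [IsProbabilityMeasure μ]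
    {k : ℕ} (hk : 12 ≤ k) (hlc : LCw μ (((k:ℝ) + 6) / (k:ℝ) ^ 2)) {A₀ : Set E}
    (hA₀ : MeasurableSet A₀) {T : Set (E →L[ℝ] ℝ)} {q δ : ℝ} (hq : 1 ≤ q)
    {m h : (E →L[ℝ] ℝ) → ℝ} (hm : ∀ v ∈ T, ∀ x ∈ A₀, |v x| ≤ m v)
    (hh : ∀ v ∈ T, ∀ x ∈ A₀, v x ≤ h v) (hAq : Real.exp (-q) ≤ μ.real A₀)
    (h1 : ∀ v ∈ T, μ.real (up v δ) ≤ Real.exp (-(2 * (k:ℝ) ^ 5 * q)))
    (h2 : ∀ v ∈ T, μ.real {x | v x ≤ -δ} ≤ Real.exp (-(2 * (k:ℝ) ^ 5 * q)))
    {Λ : ℝ} (hΛ : Λ = (k:ℝ) * ((k:ℝ) + 6) / (((k:ℝ) - 3) * ((k:ℝ) + 2)))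
    {S₀ : Set E} (hS₀ : MeasurableSet S₀) (F : Finset (E →L[ℝ] ℝ)) (hF : ∀ v ∈ F, v ∈ T)
    (hcov : ∀ x ∈ S₀, ∃ v ∈ F, x ∈ up v ((1 + Λ) * δ + Λ * h v)) :
    μ.real S₀ ≤ Real.exp (-q) := by
  have hkr : (12:ℝ) ≤ k := by exact_mod_cast hk
  have hk0 : (0:ℝ) < k := by linarith
  set K : ℝ := (k:ℝ) with hK
  set a : ℝ := (K + 6) / K ^ 2 with ha_def
  set b : ℝ := 3 / K ^ 2 with hb_def
  have ha : 0 < a := by positivity
  have hb : 0 < b := by positivity
  have h1a : 1 - a = (K - 3) * (K + 2) / K ^ 2 := by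
    rw [ha_def]; field_simp; ring
  have ha1 : a < 1 := by
    have : 0 < 1 - a := by
      rw [h1a]
      apply div_pos _ (by positivity)
      apply mul_pos <;> linarith
    linarith
  have hΛa : a / (1 - a) * K = Λ := by
    rw [h1a, ha_def, hΛ]
    have : K - 3 ≠ 0 := by linarith
    have : K + 2 ≠ 0 := by linarith
    field_simp
  have hal : 0 < a / (1 - a) := div_pos ha (by linarith)
  -- the costs
  set s : ℕ → ℝ := fun i => K ^ 5 * q * (1 + b) ^ i with hs_def
  have hK5 : 248832 ≤ K ^ 5 := by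
    calc (248832:ℝ) = 12 ^ 5 := by norm_num
      _ ≤ K ^ 5 := pow_le_pow_left₀ (by norm_num) hkr 5
  have hpow1 : ∀ i : ℕ, 1 ≤ (1 + b) ^ i := fun i => one_le_pow₀ (by linarith)
  have hs_ge : ∀ i, K ^ 5 * q ≤ s i := by
    intro i
    have h3 : 0 ≤ K ^ 5 * q := by positivity
    have := mul_le_mul_of_nonneg_left (hpow1 i) h3
    simpa [hs_def] using this
  have hs_q : ∀ i, q + 3 ≤ s i := by
    intro i
    have h3 := hs_ge i
    have h4 : 248832 * q ≤ K ^ 5 * q := mul_le_mul_of_nonneg_right hK5 (by linarith)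
    linarith
  have hbern : ∀ i : ℕ, 1 + i * b ≤ (1 + b) ^ i := by
    intro i
    exact one_add_mul_le_pow (by linarith) i
  -- the exponents of the losses
  have hexpo : ∀ j : ℕ, (1 - a) * s (j + k + 1) + a * (s j + 1) - s (j + k) ≤ -(q + 3 + j) := by
    intro j
    set σ := s (j + k) with hσ
    have e1 : s (j + k + 1) = (1 + b) * σ := by
      simp only [hs_def, hσ]; ring
    have e2 : s j * (1 + 3 / K) ≤ σ := by
      have h3 : σ = s j * (1 + b) ^ k := by
        simp only [hs_def, hσ]; ring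
      rw [h3]
      have h4 : 1 + 3 / K ≤ (1 + b) ^ k := by
        have h5 := hbern k
        have h6 : (k:ℝ) * b = 3 / K := by rw [hb_def, ← hK]; field_simp
        rw [h6] at h5
        exact h5
      have h7 : 0 ≤ s j := by have := hs_q j; linarith
      exact mul_le_mul_of_nonneg_left h4 h7
    have e3 : s j ≤ σ * (K / (K + 3)) := by
      have h3 : 1 + 3 / K = (K + 3) / K := by field_simp
      rw [h3] at e2
      have h4 : s j = (s j * ((K + 3) / K)) * (K / (K + 3)) := by field_simp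
      rw [h4]
      exact mul_le_mul_of_nonneg_right e2 (by positivity)
    have hσ0 : 0 < σ := by have := hs_q (j + k); linarith
    have e4 : (1 - a) * ((1 + b) * σ) + a * (s j + 1) - σ ≤
        -(9 / (K ^ 2 * (K + 3)) * σ) + a := by
      have h3 : a * s j ≤ a * (σ * (K / (K + 3))) := mul_le_mul_of_nonneg_left e3 ha.le
      have h4 : (1 - a) * ((1 + b) * σ) + a * (σ * (K / (K + 3))) - σ =
          -(9 / (K ^ 2 * (K + 3)) * σ) - a * b * σ := by
        rw [ha_def, hb_def]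
        field_simp
        ring
      have h5 : 0 ≤ a * b * σ := by positivity
      linarith
    rw [e1]
    refine e4.trans ?_
    have e5 : K ^ 5 * q * (1 + (j:ℝ) * b) ≤ σ := by
      have h3 : 1 + (j:ℝ) * b ≤ (1 + b) ^ (j + k) := by
        refine le_trans (hbern j) ?_
        exact pow_le_pow_right₀ (by linarith) (by omega)
      have h4 : 0 ≤ K ^ 5 * q := by positivity
      have := mul_le_mul_of_nonneg_left h3 h4
      simpa [hs_def, hσ] using this
    have e6 : 9 / (K ^ 2 * (K + 3)) * (K ^ 5 * q * (1 + (j:ℝ) * b)) =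
        9 * K ^ 3 / (K + 3) * q + 27 * K / (K + 3) * (q * j) := by
      rw [hb_def]; field_simp; ring
    have e7 : 9 / (K ^ 2 * (K + 3)) * (K ^ 5 * q * (1 + (j:ℝ) * b)) ≤
        9 / (K ^ 2 * (K + 3)) * σ := mul_le_mul_of_nonneg_left e5 (by positivity)
    rw [e6] at e7
    have e8 : 5 ≤ 9 * K ^ 3 / (K + 3) := by
      rw [le_div_iff₀ (by linarith)]
      nlinarith [mul_le_mul hkr hkr (by norm_num) hk0.le, pow_pos hk0 2, pow_pos hk0 3]
    have e9 : 1 ≤ 27 * K / (K + 3) := by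
      rw [le_div_iff₀ (by linarith)]
      linarith
    have hj0 : (0:ℝ) ≤ j := Nat.cast_nonneg j
    have e10 : 5 * q ≤ 9 * K ^ 3 / (K + 3) * q := mul_le_mul_of_nonneg_right e8 (by linarith)
    have e11 : 1 * (q * j) ≤ 27 * K / (K + 3) * (q * j) :=
      mul_le_mul_of_nonneg_right e9 (by positivity)
    have e12 : (j:ℝ) ≤ q * j := by nlinarith
    linarith
  have hexp3 : Real.exp (-3) ≤ 1 / 8 := by
    rw [Real.exp_neg, one_div]
    apply inv_anti₀ (by norm_num)
    have e : Real.exp 3 = Real.exp 1 ^ 3 := by rw [← Real.exp_nat_mul]; norm_num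
    rw [e]
    have h9 : (2:ℝ) ^ 3 ≤ Real.exp 1 ^ 3 := by
      apply pow_le_pow_left₀ (by norm_num)
      have := Real.add_one_le_exp 1
      linarith
    linarith
  have hexp1 : Real.exp (-1) ≤ 1 / 2 := by
    rw [Real.exp_neg, one_div]
    apply inv_anti₀ (by norm_num)
    have := Real.add_one_le_exp 1
    linarith
  have hη : ∀ J : ℕ, ∑ j ∈ Finset.range J,
      Real.exp ((1 - a) * s (j + k + 1) + a * (s j + 1) - s (j + k)) ≤ Real.exp (-q) / 4 := by
    intro J
    have h3 : ∀ j ∈ Finset.range J,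
        Real.exp ((1 - a) * s (j + k + 1) + a * (s j + 1) - s (j + k)) ≤
          Real.exp (-q) / 8 * (1 / 2) ^ j := by
      intro j _
      refine (Real.exp_le_exp.2 (hexpo j)).trans ?_
      have e : Real.exp (-(q + 3 + j)) = Real.exp (-q) * Real.exp (-3) * Real.exp (-1) ^ j := by
        rw [← Real.exp_nat_mul, ← Real.exp_add, ← Real.exp_add]
        congr 1
        ring
      rw [e]
      have h4 : Real.exp (-1) ^ j ≤ (1 / 2) ^ j := pow_le_pow_left₀ (Real.exp_pos _).le hexp1 j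
      have h5 := Real.exp_pos (-q)
      have h6 := Real.exp_pos (-3)
      calc Real.exp (-q) * Real.exp (-3) * Real.exp (-1) ^ j
          ≤ Real.exp (-q) * (1 / 8) * (1 / 2) ^ j := by gcongr
        _ = Real.exp (-q) / 8 * (1 / 2) ^ j := by ring
    refine (Finset.sum_le_sum h3).trans ?_
    rw [← Finset.mul_sum]
    have h4 : ∑ j ∈ Finset.range J, (1 / 2 : ℝ) ^ j ≤ 2 := by
      have := Summable.sum_le_tsum (Finset.range J) (fun i _ => by positivity)
        (summable_geometric_two)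
      rwa [tsum_geometric_two] at this
    have h5 := Real.exp_pos (-q)
    nlinarith
  have heq := Real.exp_pos (-q)
  have hse : ∀ j, Real.exp (-(s j)) ≤ Real.exp (-q) / 8 := by
    intro j
    calc Real.exp (-(s j)) ≤ Real.exp (-q + -3) := Real.exp_le_exp.2 (by have := hs_q j; linarith)
      _ = Real.exp (-q) * Real.exp (-3) := Real.exp_add _ _
      _ ≤ Real.exp (-q) * (1 / 8) := mul_le_mul_of_nonneg_left hexp3 heq.le
      _ = Real.exp (-q) / 8 := by ring
  have hke : Real.exp (-(2 * K ^ 5 * q)) ≤ Real.exp (-q) / 8 := by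
    calc Real.exp (-(2 * K ^ 5 * q)) ≤ Real.exp (-q + -3) := by
          apply Real.exp_le_exp.2
          have h4 : 248832 * q ≤ K ^ 5 * q := mul_le_mul_of_nonneg_right hK5 (by linarith)
          nlinarith
      _ = Real.exp (-q) * Real.exp (-3) := Real.exp_add _ _
      _ ≤ Real.exp (-q) * (1 / 8) := mul_le_mul_of_nonneg_left hexp3 heq.le
      _ = Real.exp (-q) / 8 := by ring
  have hsk : s k ≤ 2 * K ^ 5 * q := by
    have h3 : (1 + b) ^ k ≤ 2 := by
      have h4 : (1 + b) ^ k ≤ Real.exp b ^ k := by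
        apply pow_le_pow_left₀ (by linarith)
        have := Real.add_one_le_exp b
        linarith
      have h5 : Real.exp b ^ k = Real.exp (3 / K) := by
        rw [← Real.exp_nat_mul]
        congr 1
        rw [hb_def, ← hK]
        field_simp
      have h6 : Real.exp (3 / K) ≤ Real.exp (1 / 4) := by
        apply Real.exp_le_exp.2
        rw [div_le_div_iff₀ hk0 (by norm_num)]
        linarith
      have h7 : Real.exp (1 / 4) ≤ 2 := by
        have h8 : Real.exp (1 / 4) ^ 4 = Real.exp 1 := by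
          rw [← Real.exp_nat_mul]; norm_num
        have h9 := Real.exp_one_lt_d9
        by_contra h10
        rw [not_le] at h10
        have h11 : (2:ℝ) ^ 4 ≤ Real.exp (1 / 4) ^ 4 := pow_le_pow_left₀ (by norm_num) h10.le 4
        rw [h8] at h11
        norm_num at h11
        linarith
      rw [h5] at h4
      linarith
    have h12 : 0 ≤ K ^ 5 * q := by positivity
    have := mul_le_mul_of_nonneg_left h3 h12
    simp only [hs_def]
    linarith
  by_contra hcon
  rw [not_le] at hcon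
  set t₀ : ℝ := (1 + Λ) * δ with ht₀
  have key : ∀ J : ℕ, Real.exp (-q) / 2 ≤ F.card * Real.exp (-(J:ℝ)) := by
    intro J
    have hAs : ∀ A ⊆ A₀, MeasurableSet A → μ.real A₀ - Real.exp (-q) / 4 ≤ μ.real A →
        ∀ j, Real.exp (-(s j)) ≤ μ.real A := by
      intro A _ _ h3 j
      have := hse j
      linarith
    obtain ⟨S, A, hS, hA, hSm, hAm, hSμ, hAμ, hcl⟩ := exists_clean (J := J) (t₀ := t₀) ha ha1 hlc
      hS₀ hA₀ hm (hη J) hAs (by
        intro A hA hAm h3 v hv S
        have h4 : ∀ i, -δ ≤ qn μ A (Real.exp (-(s i))) v := by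
          intro i
          refine le_qn hAm (fun x hx => hm v hv x (hA hx)) (Real.exp_pos _) ?_
            (Real.exp_pos _).le (h2 v hv)
          have := hse i
          linarith
        have h5 : δ ≤ lev μ s k a t₀ A 0 v := by
          unfold lev
          have h6 : ∑ i ∈ Finset.range k, (-δ) ≤
              ∑ i ∈ Finset.range k, qn μ A (Real.exp (-(s (0 + i)))) v :=
            Finset.sum_le_sum fun i _ => h4 _
          rw [Finset.sum_const, Finset.card_range, nsmul_eq_mul, ← hK] at h6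
          have h7 := mul_le_mul_of_nonneg_left h6 hal.le
          have h8 : a / (1 - a) * (K * -δ) = -(Λ * δ) := by rw [← hΛa]; ring
          rw [h8] at h7
          rw [ht₀]
          linarith
        refine (measureReal_mono (fun x hx => ?_) (measure_ne_top μ _)).trans
          ((h1 v hv).trans (Real.exp_le_exp.2 (neg_le_neg hsk)))
        exact h5.trans hx.2)
    have h3 : ∀ v ∈ F, μ.real (S ∩ up v (t₀ + Λ * h v)) ≤ Real.exp (-(J:ℝ)) := by
      intro v hv
      have h4 := hcl J le_rfl v (hF v hv)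
      have h5 : lev μ s k a t₀ A J v ≤ t₀ + Λ * h v := by
        unfold lev
        have h6 : ∑ i ∈ Finset.range k, qn μ A (Real.exp (-(s (J + i)))) v ≤
            ∑ i ∈ Finset.range k, h v :=
          Finset.sum_le_sum fun i _ => qn_le hAm (fun x hx => hm v (hF v hv) x (hA hx))
            (Real.exp_pos _) (hAs A hA hAm hAμ _) (fun x hx => hh v (hF v hv) x (hA hx))
        rw [Finset.sum_const, Finset.card_range, nsmul_eq_mul, ← hK] at h6
        have h7 := mul_le_mul_of_nonneg_left h6 hal.le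
        have h8 : a / (1 - a) * (K * h v) = Λ * h v := by rw [← hΛa]; ring
        rw [h8] at h7
        linarith
      have hsub : S ∩ up v (t₀ + Λ * h v) ⊆ S ∩ up v (lev μ s k a t₀ A J v) := by
        intro x hx
        exact ⟨hx.1, h5.trans hx.2⟩
      refine (measureReal_mono hsub (measure_ne_top μ _)).trans
        (h4.trans (Real.exp_le_exp.2 ?_))
      have h9 : (J:ℝ) ≤ s (J + k) := by
        have h10 : 1 + (J:ℝ) * b ≤ (1 + b) ^ (J + k) := by
          refine le_trans (hbern J) ?_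
          exact pow_le_pow_right₀ (by linarith) (by omega)
        have h11 : 0 ≤ K ^ 5 * q := by positivity
        have h12 := mul_le_mul_of_nonneg_left h10 h11
        have h13 : K ^ 5 * q * (1 + (J:ℝ) * b) = K ^ 5 * q + 3 * K ^ 3 * q * J := by
          rw [hb_def]; field_simp
        rw [h13] at h12
        have h14 : 1 ≤ 3 * K ^ 3 * q := by
          have h15 : 1 ≤ K ^ 3 := one_le_pow₀ (by linarith)
          nlinarith
        have hJ0 : (0:ℝ) ≤ J := Nat.cast_nonneg J
        have h16 : 1 * (J:ℝ) ≤ 3 * K ^ 3 * q * J := mul_le_mul_of_nonneg_right h14 hJ0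
        have h17 : K ^ 5 * q * (1 + b) ^ (J + k) = s (J + k) := rfl
        linarith
      linarith
    have h4 : μ.real S ≤ ∑ v ∈ F, μ.real (S ∩ up v (t₀ + Λ * h v)) := by
      refine le_trans (measureReal_mono (s₂ := ⋃ v ∈ F, S ∩ up v (t₀ + Λ * h v)) ?_
        (measure_ne_top μ _)) (measureReal_biUnion_finset_le _ _)
      intro x hx
      obtain ⟨v, hv, hxv⟩ := hcov x (hS hx)
      simp only [mem_iUnion]
      exact ⟨v, hv, hx, hxv⟩
    have h5 : ∑ v ∈ F, μ.real (S ∩ up v (t₀ + Λ * h v)) ≤ F.card * Real.exp (-(J:ℝ)) := by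
      rw [← nsmul_eq_mul]
      exact Finset.sum_le_card_nsmul _ _ _ h3
    linarith
  have hlim : Tendsto (fun j : ℕ => (F.card : ℝ) * Real.exp (-(j:ℝ))) atTop (𝓝 ((F.card:ℝ) * 0)) :=
    (Real.tendsto_exp_neg_atTop_nhds_zero.comp tendsto_natCast_atTop_atTop).const_mul _
  rw [mul_zero] at hlim
  have h9 := ge_of_tendsto' hlim key
  linarith

end Pool.WS
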