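import Pool.Agent.CIP.FB

set_option autoImplicit false

open MeasureTheory Pointwise Set Filter Topology

namespace Pool.WS

variable {E : Type*} [NormedAddCommGroup E] [NormedSpace ℝ E] [MeasurableSpace E] [BorelSpace E]
  {μ : Measure E}

/-- no violation up to the scale `J` -/
def CleanI {ι : Type*} (μ : Measure E) (s : ℕ → ℝ) (k J : ℕ) (L : Set E → ℕ → ι → ℝ)
    (φ : ι → E →L[ℝ] ℝ) (V : Finset ι) (S A : Set E) : Prop :=
  ∀ j ≤ J, ∀ i ∈ V, μ.real (S ∩ up (φ i) (L A j i)) ≤ Real.exp (-(s (j + k)))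

/-- one step of the greedy procedure -/
lemma Inv.stepI [CompleteSpace E] [SecondCountableTopology E] [IsProbabilityMeasure μ]
    {ι : Type*} {s : ℕ → ℝ} {k J : ℕ} {a : ℝ} (ha : 0 < a) (ha1 : a < 1) (hlc : LCw μ a)
    {L : Set E → ℕ → ι → ℝ} {φ : ι → E →L[ℝ] ℝ} {V : Finset ι} {S₀ A₀ S A : Set E}
    (hL : ∀ (A : Set E) (j : ℕ) (i : ι),
      (1 - a) * L A (j + 1) i + a * qn μ A (Real.exp (-(s j))) (φ i) =
        (1 - a) * L A j i + a * qn μ A (Real.exp (-(s (j + k)))) (φ i))
    {c : ℕ → ℕ} (h : Inv μ s k J a S₀ A₀ S A c)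
    (hAs : ∀ j, ∀ i ∈ V, Real.exp (-(s j)) ≤ μ.real (A ∩ up (φ i) (qn μ A (Real.exp (-(s j))) (φ i))) ∧
      μ.real (A ∩ ou (φ i) (qn μ A (Real.exp (-(s j))) (φ i))) ≤ Real.exp (-(s j)))
    (h0 : ∀ i ∈ V, μ.real (S ∩ up (φ i) (L A 0 i)) ≤ Real.exp (-(s k)))
    (hcl : ¬ CleanI μ s k J L φ V S A) :
    ∃ (S' A' : Set E) (c' : ℕ → ℕ), Inv μ s k J a S₀ A₀ S' A' c' ∧
      ∑ j ∈ Finset.range J, c' j = ∑ j ∈ Finset.range J, c j + 1 := by
  obtain ⟨hSm, hAm, hS, hA, hSμ, hAμ, hG⟩ := h
  -- the smallest violation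
  have hex : ∃ j : ℕ, j ≤ J ∧ ∃ i ∈ V,
      Real.exp (-(s (j + k))) < μ.real (S ∩ up (φ i) (L A j i)) := by
    unfold CleanI at hcl
    push Not at hcl
    obtain ⟨j, h1, v, h2, h3⟩ := hcl
    exact ⟨j, h1, v, h2, h3⟩
  classical
  obtain ⟨hjJ, iv, hv, hviol⟩ := Nat.find_spec hex
  have hmin : ∀ i < Nat.find hex, ∀ w ∈ V,
      μ.real (S ∩ up (φ w) (L A i w)) ≤ Real.exp (-(s (i + k))) := by
    intro i hi w hw
    have h1 := Nat.find_min hex hi
    by_contra h2
    rw [not_le] at h2
    exact h1 ⟨by omega, w, hw, h2⟩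
  generalize Nat.find hex = j₀ at hjJ hviol hmin
  obtain ⟨j, rfl⟩ : ∃ j, j₀ = j + 1 := by
    rcases Nat.eq_zero_or_pos j₀ with h1 | h1
    · exfalso
      rw [h1] at hviol
      have := h0 iv hv
      rw [zero_add] at hviol
      linarith
    · exact ⟨j₀ - 1, by omega⟩
  have hjlt : j < J := by omega
  have hSt := hmin j (by omega) iv hv
  have htt := hL A j iv
  obtain ⟨hlow, _⟩ := hAs j iv hv
  obtain ⟨_, hupp⟩ := hAs (j + k) iv hv
  generalize φ iv = v at hviol hSt htt hlow hupp
  generalize L A j iv = t at hSt htt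
  generalize L A (j + 1) iv = t' at hviol htt
  generalize qn μ A (Real.exp (-(s j))) v = fl at hlow htt
  generalize qn μ A (Real.exp (-(s (j + k)))) v = fu at hupp htt
  obtain ⟨KB, hKB, hKBc, hKBμ⟩ := exists_compact_real (hSm.inter (meas_up v t')) hviol
  obtain ⟨KA, hKA, hKAc, hKAμ⟩ := exists_compact_real (hAm.inter (meas_up v fl))
    (show Real.exp (-(s j + 1)) < μ.real (A ∩ up v fl) by
      refine lt_of_lt_of_le ?_ hlow
      apply Real.exp_lt_exp.2
      linarith)
  set Gn : Set E := (1 - a) • KB + a • KA with hGn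
  have hGnc : IsCompact Gn := (hKBc.smul _).add (hKAc.smul _)
  have hGnμ : Real.exp (-((1 - a) * s (j + k + 1) + a * (s j + 1))) ≤ μ.real Gn := by
    refine le_trans ?_ (hlc KB KA hKBc hKAc)
    have h1 : Real.exp (-((1 - a) * s (j + k + 1) + a * (s j + 1))) =
        Real.exp (-(s (j + 1 + k))) ^ (1 - a) * Real.exp (-(s j + 1)) ^ a := by
      rw [← Real.exp_mul, ← Real.exp_mul, ← Real.exp_add]
      congr 1
      have e : j + 1 + k = j + k + 1 := by ring
      rw [e]
      ring
    rw [h1]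
    apply mul_le_mul
    · exact Real.rpow_le_rpow (Real.exp_pos _).le hKBμ.le (by linarith)
    · exact Real.rpow_le_rpow (Real.exp_pos _).le hKAμ.le ha.le
    · positivity
    · positivity
  have hGnlow : ∀ g ∈ Gn, (1 - a) * t' + a * fl ≤ v g := by
    rintro _ ⟨_, ⟨x, hx, rfl⟩, _, ⟨y, hy, rfl⟩, rfl⟩
    have h1 : t' ≤ v x := (hKB hx).2
    have h2 : fl ≤ v y := (hKA hy).2
    simp only [map_add, map_smul, smul_eq_mul]
    have h3 := mul_le_mul_of_nonneg_left h1 (by linarith : 0 ≤ 1 - a)
    have h4 := mul_le_mul_of_nonneg_left h2 ha.le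
    linarith
  refine ⟨S \ up v t, A \ ou v fu, Function.update c j (c j + 1),
    ⟨hSm.diff (meas_up _ _), hAm.diff (meas_ou _ _), sdiff_subset.trans hS,
      sdiff_subset.trans hA, ?_, ?_, ?_⟩, ?_⟩
  · have h7 : μ.real S ≤ μ.real (S \ up v t) + μ.real (S ∩ up v t) := by
      refine le_trans (measureReal_mono ?_ (measure_ne_top μ _)) (measureReal_union_le _ _)
      intro x hx
      by_cases hx' : x ∈ up v t
      · exact Or.inr ⟨hx, hx'⟩
      · exact Or.inl ⟨hx, hx'⟩
    have h8 : ∑ i ∈ Finset.range J, ((Function.update c j (c j + 1) i : ℕ) : ℝ) *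
        Real.exp (-(s (i + k))) = ∑ i ∈ Finset.range J, (c i : ℝ) * Real.exp (-(s (i + k))) +
          Real.exp (-(s (j + k))) := by
      have h9 : ∀ i ∈ Finset.range J, ((Function.update c j (c j + 1) i : ℕ) : ℝ) *
          Real.exp (-(s (i + k))) = (c i : ℝ) * Real.exp (-(s (i + k))) +
            (if i = j then Real.exp (-(s (j + k))) else 0) := by
        intro i _
        by_cases hij : i = j
        · subst hij
          simp only [Function.update_self, if_true]
          push_cast; ring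
        · rw [Function.update_of_ne hij, if_neg hij, add_zero]
      rw [Finset.sum_congr rfl h9, Finset.sum_add_distrib, Finset.sum_ite_eq' (Finset.range J) j,
        if_pos (Finset.mem_range.2 hjlt)]
    rw [h8]
    linarith
  · have h7 : μ.real A ≤ μ.real (A \ ou v fu) + μ.real (A ∩ ou v fu) := by
      refine le_trans (measureReal_mono ?_ (measure_ne_top μ _)) (measureReal_union_le _ _)
      intro x hx
      by_cases hx' : x ∈ ou v fu
      · exact Or.inr ⟨hx, hx'⟩
      · exact Or.inl ⟨hx, hx'⟩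
    have h8 : ∑ i ∈ Finset.range J, ((Function.update c j (c j + 1) i : ℕ) : ℝ) *
        Real.exp (-(s (i + k))) = ∑ i ∈ Finset.range J, (c i : ℝ) * Real.exp (-(s (i + k))) +
          Real.exp (-(s (j + k))) := by
      have h9 : ∀ i ∈ Finset.range J, ((Function.update c j (c j + 1) i : ℕ) : ℝ) *
          Real.exp (-(s (i + k))) = (c i : ℝ) * Real.exp (-(s (i + k))) +
            (if i = j then Real.exp (-(s (j + k))) else 0) := by
        intro i _
        by_cases hij : i = j
        · subst hij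
          simp only [Function.update_self, if_true]
          push_cast; ring
        · rw [Function.update_of_ne hij, if_neg hij, add_zero]
      rw [Finset.sum_congr rfl h9, Finset.sum_add_distrib, Finset.sum_ite_eq' (Finset.range J) j,
        if_pos (Finset.mem_range.2 hjlt)]
    rw [h8]
    linarith
  · intro i hi
    obtain ⟨G, h1, h2⟩ := hG i hi
    by_cases hij : i = j
    · subst hij
      refine ⟨fun l => if l = c i then Gn else G l, ?_, ?_⟩
      · intro l hl
        rw [Function.update_self] at hl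
        by_cases hlc' : l = c i
        · simp only [hlc', if_true]
          refine ⟨hGnc, hGnμ, ?_⟩
          intro x hx y hy hmem
          have h3 := hGnlow _ hmem
          simp only [map_add, map_smul, smul_eq_mul] at h3
          have h4 : v x < t := by
            have := hx.2
            simp only [up, mem_ofPred_eq, not_le] at this
            exact this
          have h5 : v y ≤ fu := by
            have := hy.2
            simp only [ou, mem_ofPred_eq, not_lt] at this
            exact this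
          have h6 := mul_lt_mul_of_pos_left h4 (by linarith : 0 < 1 - a)
          have h7 := mul_le_mul_of_nonneg_left h5 ha.le
          linarith
        · simp only [if_neg hlc']
          obtain ⟨h3, h4, h5⟩ := h1 l (by omega)
          exact ⟨h3, h4, fun x hx y hy => h5 x hx.1 y hy.1⟩
      · intro l l' hll hl'
        rw [Function.update_self] at hl'
        by_cases hlc' : l' = c i
        · have hlne : l ≠ c i := by omega
          simp only [hlc', if_true, if_neg hlne]
          rw [Set.disjoint_right]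
          rintro _ ⟨_, ⟨x, hx, rfl⟩, _, ⟨y, hy, rfl⟩, rfl⟩
          exact (h1 l (by omega)).2.2 x (hKB hx).1 y (hKA hy).1
        · have hlne : l ≠ c i := by omega
          simp only [if_neg hlc', if_neg hlne]
          exact h2 l l' hll (by omega)
    · refine ⟨G, ?_, ?_⟩
      · intro l hl
        rw [Function.update_of_ne hij] at hl
        obtain ⟨h3, h4, h5⟩ := h1 l hl
        exact ⟨h3, h4, fun x hx y hy => h5 x hx.1 y hy.1⟩
      · intro l l' hll hl'
        rw [Function.update_of_ne hij] at hl'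
        exact h2 l l' hll hl'
  · have h9 : ∀ i ∈ Finset.range J, Function.update c j (c j + 1) i =
        c i + (if i = j then 1 else 0) := by
      intro i _
      by_cases hij : i = j
      · subst hij
        simp
      · rw [Function.update_of_ne hij, if_neg hij, add_zero]
    rw [Finset.sum_congr rfl h9, Finset.sum_add_distrib, Finset.sum_ite_eq' (Finset.range J) j,
      if_pos (Finset.mem_range.2 hjlt)]

/-- the greedy procedure ends in a state without violations -/
lemma exists_cleanI [CompleteSpace E] [SecondCountableTopology E] [IsProbabilityMeasure μ]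
    {ι : Type*} {s : ℕ → ℝ} {k J : ℕ} {a : ℝ} (ha : 0 < a) (ha1 : a < 1) (hlc : LCw μ a)
    {L : Set E → ℕ → ι → ℝ} {φ : ι → E →L[ℝ] ℝ} {V : Finset ι} {S₀ A₀ : Set E}
    (hL : ∀ (A : Set E) (j : ℕ) (i : ι),
      (1 - a) * L A (j + 1) i + a * qn μ A (Real.exp (-(s j))) (φ i) =
        (1 - a) * L A j i + a * qn μ A (Real.exp (-(s (j + k)))) (φ i))
    (hS₀ : MeasurableSet S₀) (hA₀ : MeasurableSet A₀) {η : ℝ}
    (hη : ∑ j ∈ Finset.range J,
      Real.exp ((1 - a) * s (j + k + 1) + a * (s j + 1) - s (j + k)) ≤ η)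
    (hAs : ∀ A ⊆ A₀, MeasurableSet A → μ.real A₀ - η ≤ μ.real A →
      ∀ j, ∀ i ∈ V, Real.exp (-(s j)) ≤ μ.real (A ∩ up (φ i) (qn μ A (Real.exp (-(s j))) (φ i))) ∧
        μ.real (A ∩ ou (φ i) (qn μ A (Real.exp (-(s j))) (φ i))) ≤ Real.exp (-(s j)))
    (h0 : ∀ A ⊆ A₀, MeasurableSet A → μ.real A₀ - η ≤ μ.real A → ∀ i ∈ V, ∀ S : Set E,
      μ.real (S ∩ up (φ i) (L A 0 i)) ≤ Real.exp (-(s k))) :
    ∃ S A : Set E, S ⊆ S₀ ∧ A ⊆ A₀ ∧ MeasurableSet S ∧ MeasurableSet A ∧
      μ.real S₀ - η ≤ μ.real S ∧ μ.real A₀ - η ≤ μ.real A ∧ CleanI μ s k J L φ V S A := by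
  set M : ℕ := ⌈∑ j ∈ Finset.range J, Real.exp ((1 - a) * s (j + k + 1) + a * (s j + 1))⌉₊ with hM
  have hbd : ∀ (S A : Set E) (c : ℕ → ℕ), Inv μ s k J a S₀ A₀ S A c →
      ∑ j ∈ Finset.range J, c j ≤ M := by
    intro S A c h
    have h1 : ((∑ j ∈ Finset.range J, c j : ℕ) : ℝ) ≤
        ∑ j ∈ Finset.range J, Real.exp ((1 - a) * s (j + k + 1) + a * (s j + 1)) := by
      push_cast
      refine Finset.sum_le_sum fun j hj => ?_
      have h1 := h.count (Finset.mem_range.1 hj)
      rw [Real.exp_neg, ← div_eq_mul_inv, div_le_one (Real.exp_pos _)] at h1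
      exact h1
    exact_mod_cast h1.trans (Nat.le_ceil _)
  have hind : ∀ (d : ℕ) (S A : Set E) (c : ℕ → ℕ), Inv μ s k J a S₀ A₀ S A c →
      M ≤ ∑ j ∈ Finset.range J, c j + d →
      ∃ S A : Set E, S ⊆ S₀ ∧ A ⊆ A₀ ∧ MeasurableSet S ∧ MeasurableSet A ∧
        μ.real S₀ - η ≤ μ.real S ∧ μ.real A₀ - η ≤ μ.real A ∧ CleanI μ s k J L φ V S A := by
    intro d
    induction d with
    | zero =>
      intro S A c h hd
      by_cases hcl : CleanI μ s k J L φ V S A
      · have hl := h.loss
        obtain ⟨hSm, hAm, hS, hA, hSμ, hAμ, _⟩ := h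
        exact ⟨S, A, hS, hA, hSm, hAm, by linarith, by linarith, hcl⟩
      · exfalso
        have hl := h.loss
        have hAη : μ.real A₀ - η ≤ μ.real A := by
          have := h.2.2.2.2.2.1
          linarith
        obtain ⟨S', A', c', h', hc'⟩ := h.stepI ha ha1 hlc hL
          (hAs A h.2.2.2.1 h.2.1 hAη) (fun i hi => h0 A h.2.2.2.1 h.2.1 hAη i hi S) hcl
        have := hbd S' A' c' h'
        omega
    | succ d ih =>
      intro S A c h hd
      by_cases hcl : CleanI μ s k J L φ V S A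
      · have hl := h.loss
        obtain ⟨hSm, hAm, hS, hA, hSμ, hAμ, _⟩ := h
        exact ⟨S, A, hS, hA, hSm, hAm, by linarith, by linarith, hcl⟩
      · have hl := h.loss
        have hAη : μ.real A₀ - η ≤ μ.real A := by
          have := h.2.2.2.2.2.1
          linarith
        obtain ⟨S', A', c', h', hc'⟩ := h.stepI ha ha1 hlc hL
          (hAs A h.2.2.2.1 h.2.1 hAη) (fun i hi => h0 A h.2.2.2.1 h.2.1 hAη i hi S) hcl
        exact ih S' A' c' h' (by omega)
  refine hind M S₀ A₀ (fun _ => 0) ⟨hS₀, hA₀, subset_rfl, subset_rfl, by simp, by simp, ?_⟩ (by simp)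
  intro j _
  exact ⟨fun _ => ∅, fun i hi => absurd hi (Nat.not_lt_zero i),
    fun i l _ hl => absurd hl (Nat.not_lt_zero l)⟩

end Pool.WS
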