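import Pool.Agent.CIP.FC

set_option autoImplicit false

open MeasureTheory Pointwise Set Filter Topology

namespace Pool.WS

variable {E : Type*} [NormedAddCommGroup E] [NormedSpace ℝ E] [MeasurableSpace E] [BorelSpace E]
  {μ : Measure E}

lemma exists_quantile_up [IsProbabilityMeasure μ] {A : Set E} (hA : MeasurableSet A)
    {v : E →L[ℝ] ℝ} {h l c : ℝ} (hh : ∀ x ∈ A, v x ≤ h) (hc : 0 < c)
    (hcl : c < μ.real (A ∩ up v l)) :
    ∃ τ : ℝ, c ≤ μ.real (A ∩ up v τ) ∧ μ.real (A ∩ ou v τ) ≤ c := by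
  have hm : ∀ x ∈ A ∩ up v l, |v x| ≤ max |l| |h| := by
    intro x hx
    have h1 := hh x hx.1
    have h2 : l ≤ v x := hx.2
    rw [abs_le]
    constructor
    · have h3 := neg_abs_le l
      have h4 := le_max_left |l| |h|
      linarith
    · exact h1.trans ((le_abs_self h).trans (le_max_right _ _))
  obtain ⟨τ, _, _, h3, h4⟩ := exists_quantile (hA.inter (meas_up v l)) hm hc hcl.le
  rcases le_or_gt l τ with h5 | h5
  · refine ⟨τ, ?_, ?_⟩
    · refine h3.trans (measureReal_mono ?_ (measure_ne_top μ _))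
      intro x hx
      exact ⟨hx.1.1, hx.2⟩
    · refine le_trans (measureReal_mono ?_ (measure_ne_top μ _)) h4
      intro x hx
      have h6 : τ < v x := hx.2
      exact ⟨⟨hx.1, show l ≤ v x by linarith⟩, hx.2⟩
  · exfalso
    have h6 : μ.real (A ∩ up v l) ≤ μ.real (A ∩ up v l ∩ ou v τ) := by
      refine measureReal_mono ?_ (measure_ne_top μ _)
      intro x hx
      have h7 : l ≤ v x := hx.2
      exact ⟨hx, show τ < v x by linarith⟩
    linarith

lemma qn_spec_up [IsProbabilityMeasure μ] {A : Set E} (hA : MeasurableSet A)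
    {v : E →L[ℝ] ℝ} {h l c : ℝ} (hh : ∀ x ∈ A, v x ≤ h) (hc : 0 < c)
    (hcl : c < μ.real (A ∩ up v l)) :
    c ≤ μ.real (A ∩ up v (qn μ A c v)) ∧ μ.real (A ∩ ou v (qn μ A c v)) ≤ c := by
  have h : ∃ τ : ℝ, c ≤ μ.real (A ∩ up v τ) ∧ μ.real (A ∩ ou v τ) ≤ c :=
    exists_quantile_up hA hh hc hcl
  unfold qn
  rw [dif_pos h]
  exact h.choose_spec

/-- The core theorem, with dilation `m / (m - 1)`. -/
theorem core_strong [CompleteSpace E] [SecondCountableTopology E] [IsProbabilityMeasure μ]
    {m : ℕ} (hm : 2 ≤ m) (hlc : LCw μ (1 / (m:ℝ))) {q : ℝ} (hq : 1 ≤ q) {A₀ : Set E}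
    (hA₀ : MeasurableSet A₀) {ι : Type*} (V : Finset ι) (φ : ι → E →L[ℝ] ℝ)
    (l h t₀ : ι → ℝ) (hh : ∀ i ∈ V, ∀ x ∈ A₀, φ i x ≤ h i)
    (hl : ∀ i ∈ V, Real.exp (-q) ≤ μ.real (A₀ ∩ up (φ i) (l i)))
    (h0 : ∀ i ∈ V, μ.real (up (φ i) (t₀ i)) ≤ Real.exp (-(16 * (m:ℝ) ^ 4 * q))) :
    μ.real (⋃ i ∈ V, up (φ i) (t₀ i + (m:ℝ) / ((m:ℝ) - 1) * (h i - l i))) ≤ Real.exp (-q) := by
  have hmr : (2:ℝ) ≤ m := by exact_mod_cast hm
  set M : ℝ := (m:ℝ) with hM
  have hM0 : 0 < M := by linarith
  set a : ℝ := 1 / M with ha_def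
  set b : ℝ := 1 / (2 * M ^ 2) with hb_def
  have ha : 0 < a := by positivity
  have hb : 0 < b := by positivity
  have ha1 : a < 1 := by rw [ha_def, div_lt_one hM0]; linarith
  have hM1 : 0 < M - 1 := by linarith
  have h1a : 1 - a = (M - 1) / M := by rw [ha_def]; field_simp
  have hal' : a / (1 - a) = 1 / (M - 1) := by
    rw [h1a, ha_def]; field_simp
  have hal : 0 < a / (1 - a) := div_pos ha (by linarith)
  have haM : a / (1 - a) * M = M / (M - 1) := by rw [hal']; ring
  -- the costs
  set N : ℝ := 8 * M ^ 3 * (M + 1) with hN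
  have hN0 : 0 < N := by positivity
  set s : ℕ → ℝ := fun i => N * q * (1 + b) ^ i with hs_def
  have hNq : 0 < N * q := by positivity
  have hpow1 : ∀ i : ℕ, 1 ≤ (1 + b) ^ i := fun i => one_le_pow₀ (by linarith)
  have hs_ge : ∀ i, N * q ≤ s i := by
    intro i
    have := mul_le_mul_of_nonneg_left (hpow1 i) hNq.le
    simpa [hs_def] using this
  have hN192 : 192 ≤ N := by
    have h3 : (2:ℝ) ^ 3 ≤ M ^ 3 := pow_le_pow_left₀ (by norm_num) hmr 3
    have h4 : 0 < M ^ 3 := by positivity
    rw [hN]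
    nlinarith
  have hs_q : ∀ i, q + 3 ≤ s i := by
    intro i
    have h3 := hs_ge i
    have h4 : 192 * q ≤ N * q := mul_le_mul_of_nonneg_right hN192 (by linarith)
    linarith
  have hbern : ∀ i : ℕ, 1 + i * b ≤ (1 + b) ^ i := fun i => one_add_mul_le_pow (by linarith) i
  -- the exponents of the losses
  have hexpo : ∀ j : ℕ, (1 - a) * s (j + m + 1) + a * (s j + 1) - s (j + m) ≤
      -(2 * (M + 1) * q) + 1 / M - j * (1 / M) := by
    intro j
    set σ := s (j + m) with hσ
    have e1 : s (j + m + 1) = (1 + b) * σ := by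
      simp only [hs_def, hσ]; ring
    have e2 : s j * (1 + 1 / (2 * M)) ≤ σ := by
      have h3 : σ = s j * (1 + b) ^ m := by
        simp only [hs_def, hσ]; ring
      rw [h3]
      have h4 : 1 + 1 / (2 * M) ≤ (1 + b) ^ m := by
        have h5 := hbern m
        have h6 : (m:ℝ) * b = 1 / (2 * M) := by rw [hb_def, ← hM]; field_simp
        rw [h6] at h5
        exact h5
      have h7 : 0 ≤ s j := by have := hs_q j; linarith
      exact mul_le_mul_of_nonneg_left h4 h7
    have e3 : s j ≤ σ * (2 * M / (2 * M + 1)) := by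
      have h3 : 1 + 1 / (2 * M) = (2 * M + 1) / (2 * M) := by field_simp
      rw [h3] at e2
      have h4 : s j = (s j * ((2 * M + 1) / (2 * M))) * (2 * M / (2 * M + 1)) := by field_simp
      rw [h4]
      exact mul_le_mul_of_nonneg_right e2 (by positivity)
    have hσ0 : 0 < σ := by have := hs_q (j + m); linarith
    have e4 : (1 - a) * ((1 + b) * σ) + a * (s j + 1) - σ ≤
        -((M + 1) / (2 * M ^ 3 * (2 * M + 1)) * σ) + 1 / M := by
      have h3 : a * s j ≤ a * (σ * (2 * M / (2 * M + 1))) := mul_le_mul_of_nonneg_left e3 ha.le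
      have h4 : (1 - a) * ((1 + b) * σ) + a * (σ * (2 * M / (2 * M + 1))) - σ =
          -((M + 1) / (2 * M ^ 3 * (2 * M + 1)) * σ) := by
        rw [ha_def, hb_def]
        field_simp
        ring
      have h5 : a = 1 / M := ha_def
      linarith
    rw [e1]
    refine e4.trans ?_
    have e5 : N * q * (1 + (j:ℝ) * b) ≤ σ := by
      have h3 : 1 + (j:ℝ) * b ≤ (1 + b) ^ (j + m) := by
        refine le_trans (hbern j) ?_
        exact pow_le_pow_right₀ (by linarith) (by omega)
      have := mul_le_mul_of_nonneg_left h3 hNq.le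
      simpa [hs_def, hσ] using this
    have e6 : (M + 1) / (2 * M ^ 3 * (2 * M + 1)) * (N * q * (1 + (j:ℝ) * b)) =
        4 * (M + 1) ^ 2 / (2 * M + 1) * q + 2 * (M + 1) ^ 2 / ((2 * M + 1) * M ^ 2) * (q * j) := by
      rw [hb_def, hN]; field_simp; ring
    have e7 : (M + 1) / (2 * M ^ 3 * (2 * M + 1)) * (N * q * (1 + (j:ℝ) * b)) ≤
        (M + 1) / (2 * M ^ 3 * (2 * M + 1)) * σ := mul_le_mul_of_nonneg_left e5 (by positivity)
    rw [e6] at e7
    have e8 : 2 * (M + 1) ≤ 4 * (M + 1) ^ 2 / (2 * M + 1) := by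
      rw [le_div_iff₀ (by linarith)]
      nlinarith
    have e9 : 1 / M ≤ 2 * (M + 1) ^ 2 / ((2 * M + 1) * M ^ 2) := by
      rw [div_le_div_iff₀ hM0 (by positivity)]
      nlinarith [pow_pos hM0 2, pow_pos hM0 3]
    have hj0 : (0:ℝ) ≤ j := Nat.cast_nonneg j
    have e10 : 2 * (M + 1) * q ≤ 4 * (M + 1) ^ 2 / (2 * M + 1) * q :=
      mul_le_mul_of_nonneg_right e8 (by linarith)
    have e11 : 1 / M * (q * j) ≤ 2 * (M + 1) ^ 2 / ((2 * M + 1) * M ^ 2) * (q * j) :=
      mul_le_mul_of_nonneg_right e9 (by positivity)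
    have e12 : (j:ℝ) * (1 / M) ≤ 1 / M * (q * j) := by
      have h3 : (j:ℝ) ≤ q * j := by nlinarith
      have h4 : (0:ℝ) ≤ 1 / M := by positivity
      nlinarith
    linarith
  have heq := Real.exp_pos (-q)
  have he1 : Real.exp 1 ≤ 3 := by have := Real.exp_one_lt_d9; linarith
  have he1' : (2:ℝ) ≤ Real.exp 1 := by have := Real.add_one_le_exp 1; linarith
  have hexp3 : Real.exp (-3) ≤ 1 / 8 := by
    rw [Real.exp_neg, one_div]
    apply inv_anti₀ (by norm_num)
    have e : Real.exp 3 = Real.exp 1 ^ 3 := by rw [← Real.exp_nat_mul]; norm_num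
    rw [e]
    have h9 : (2:ℝ) ^ 3 ≤ Real.exp 1 ^ 3 := pow_le_pow_left₀ (by norm_num) he1' 3
    linarith
  have hη : ∀ J : ℕ, ∑ j ∈ Finset.range J,
      Real.exp ((1 - a) * s (j + m + 1) + a * (s j + 1) - s (j + m)) ≤ Real.exp (-q) / 4 := by
    intro J
    set r : ℝ := Real.exp (-(1 / M)) with hr
    have hr0 : 0 < r := Real.exp_pos _
    have h3 : ∀ j ∈ Finset.range J,
        Real.exp ((1 - a) * s (j + m + 1) + a * (s j + 1) - s (j + m)) ≤
          Real.exp (-(2 * (M + 1) * q) + 1 / M) * r ^ j := by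
      intro j _
      refine (Real.exp_le_exp.2 (hexpo j)).trans (le_of_eq ?_)
      rw [hr, ← Real.exp_nat_mul, ← Real.exp_add]
      congr 1
      ring
    refine (Finset.sum_le_sum h3).trans ?_
    rw [← Finset.mul_sum]
    have h4 : r * (1 + 1 / M) ≤ 1 := by
      have h5 := Real.add_one_le_exp (1 / M)
      have h6 : r * Real.exp (1 / M) = 1 := by rw [hr, ← Real.exp_add]; simp
      calc r * (1 + 1 / M) ≤ r * Real.exp (1 / M) :=
            mul_le_mul_of_nonneg_left (by linarith) hr0.le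
        _ = 1 := h6
    have h5 : ∑ j ∈ Finset.range J, r ^ j ≤ M + 1 := by
      have h6 : (1 - r) * ∑ j ∈ Finset.range J, r ^ j = 1 - r ^ J := mul_neg_geom_sum r J
      have h7 : 0 < r ^ J := pow_pos hr0 J
      have h8 : 1 / (M + 1) ≤ 1 - r := by
        have h9 : 1 + 1 / M = (M + 1) / M := by field_simp
        rw [h9] at h4
        have h10 : r ≤ M / (M + 1) := by
          rw [le_div_iff₀ (by linarith)]
          rw [← mul_div_assoc, div_le_one hM0] at h4
          exact h4
        have h11 : M / (M + 1) = 1 - 1 / (M + 1) := by field_simp; ring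
        linarith
      have h9 : 0 ≤ ∑ j ∈ Finset.range J, r ^ j := Finset.sum_nonneg fun i _ => (pow_pos hr0 i).le
      have h10 : 1 / (M + 1) * ∑ j ∈ Finset.range J, r ^ j ≤ 1 := by
        have := mul_le_mul_of_nonneg_right h8 h9
        linarith
      have h11 : ∑ j ∈ Finset.range J, r ^ j =
          (M + 1) * (1 / (M + 1) * ∑ j ∈ Finset.range J, r ^ j) := by field_simp
      rw [h11]
      nlinarith
    have h6 : Real.exp (-(2 * (M + 1) * q) + 1 / M) * ∑ j ∈ Finset.range J, r ^ j ≤
        Real.exp (-(2 * (M + 1) * q) + 1 / M) * (M + 1) :=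
      mul_le_mul_of_nonneg_left h5 (Real.exp_pos _).le
    refine h6.trans ?_
    have h7 : M + 1 ≤ Real.exp M := Real.add_one_le_exp M
    have h8 : Real.exp (-(2 * (M + 1) * q) + 1 / M) * (M + 1) ≤
        Real.exp (-(2 * (M + 1) * q) + 1 / M) * Real.exp M :=
      mul_le_mul_of_nonneg_left h7 (Real.exp_pos _).le
    refine h8.trans ?_
    rw [← Real.exp_add]
    have h9 : -(2 * (M + 1) * q) + 1 / M + M ≤ -q + -2 := by
      have h10 : 1 / M ≤ 1 / 2 := by
        apply one_div_le_one_div_of_le (by norm_num) hmr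
      nlinarith
    have h10 : Real.exp (-2) ≤ 1 / 4 := by
      rw [Real.exp_neg, one_div]
      apply inv_anti₀ (by norm_num)
      have e : Real.exp 2 = Real.exp 1 ^ 2 := by rw [← Real.exp_nat_mul]; norm_num
      rw [e]
      have h9 : (2:ℝ) ^ 2 ≤ Real.exp 1 ^ 2 := pow_le_pow_left₀ (by norm_num) he1' 2
      linarith
    calc Real.exp (-(2 * (M + 1) * q) + 1 / M + M) ≤ Real.exp (-q + -2) := Real.exp_le_exp.2 h9
      _ = Real.exp (-q) * Real.exp (-2) := Real.exp_add _ _
      _ ≤ Real.exp (-q) * (1 / 4) := mul_le_mul_of_nonneg_left h10 heq.le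
      _ = Real.exp (-q) / 4 := by ring
  have hse : ∀ j, Real.exp (-(s j)) ≤ Real.exp (-q) / 8 := by
    intro j
    calc Real.exp (-(s j)) ≤ Real.exp (-q + -3) := Real.exp_le_exp.2 (by have := hs_q j; linarith)
      _ = Real.exp (-q) * Real.exp (-3) := Real.exp_add _ _
      _ ≤ Real.exp (-q) * (1 / 8) := mul_le_mul_of_nonneg_left hexp3 heq.le
      _ = Real.exp (-q) / 8 := by ring
  have hsm : s m ≤ 16 * M ^ 4 * q := by
    have h3 : (1 + b) ^ m ≤ 4 / 3 := by
      have h4 : (1 + b) ^ m ≤ Real.exp b ^ m := by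
        apply pow_le_pow_left₀ (by linarith)
        have := Real.add_one_le_exp b
        linarith
      have h5 : Real.exp b ^ m = Real.exp (1 / (2 * M)) := by
        rw [← Real.exp_nat_mul]
        congr 1
        rw [hb_def, ← hM]
        field_simp
      have h6 : Real.exp (1 / (2 * M)) ≤ Real.exp (1 / 4) := by
        apply Real.exp_le_exp.2
        apply one_div_le_one_div_of_le (by norm_num)
        linarith
      have h7 : Real.exp (1 / 4) ≤ 4 / 3 := by
        have h8 : Real.exp (1 / 4) ^ 4 = Real.exp 1 := by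
          rw [← Real.exp_nat_mul]; norm_num
        by_contra h10
        rw [not_le] at h10
        have h11 : (4 / 3:ℝ) ^ 4 ≤ Real.exp (1 / 4) ^ 4 := pow_le_pow_left₀ (by norm_num) h10.le 4
        rw [h8] at h11
        norm_num at h11
        linarith
      rw [h5] at h4
      linarith
    have h12 := mul_le_mul_of_nonneg_left h3 hNq.le
    have h13 : N * q * (4 / 3) ≤ 16 * M ^ 4 * q := by
      have h14 : N * (4 / 3) ≤ 16 * M ^ 4 := by
        rw [hN]
        have h15 : 0 < M ^ 3 := by positivity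
        nlinarith
      have := mul_le_mul_of_nonneg_right h14 (by linarith : 0 ≤ q)
      linarith
    simp only [hs_def]
    linarith
  -- the levels
  set L : Set E → ℕ → ι → ℝ := fun A j i => t₀ i + a / (1 - a) *
    ∑ r ∈ Finset.range m, (qn μ A (Real.exp (-(s (j + r)))) (φ i) - l i) with hL_def
  have hL : ∀ (A : Set E) (j : ℕ) (i : ι),
      (1 - a) * L A (j + 1) i + a * qn μ A (Real.exp (-(s j))) (φ i) =
        (1 - a) * L A j i + a * qn μ A (Real.exp (-(s (j + m)))) (φ i) := by
    intro A j i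
    have h3 : ∑ r ∈ Finset.range m, (qn μ A (Real.exp (-(s (j + 1 + r)))) (φ i) - l i) =
        ∑ r ∈ Finset.range m, (qn μ A (Real.exp (-(s (j + r)))) (φ i) - l i) +
          (qn μ A (Real.exp (-(s (j + m)))) (φ i) - qn μ A (Real.exp (-(s j))) (φ i)) := by
      generalize m = m'
      induction m' with
      | zero => simp
      | succ m' ih =>
        rw [Finset.sum_range_succ, Finset.sum_range_succ, ih]
        have e : j + 1 + m' = j + (m' + 1) := by ring
        rw [e]
        ring
    simp only [hL_def]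
    rw [h3]
    have : 1 - a ≠ 0 := by linarith
    field_simp
    ring
  set S₀ : Set E := ⋃ i ∈ V, up (φ i) (t₀ i + M / (M - 1) * (h i - l i)) with hS₀_def
  have hS₀ : MeasurableSet S₀ := Finset.measurableSet_biUnion _ fun i _ => meas_up _ _
  by_contra hcon
  rw [not_le] at hcon
  have key : ∀ J : ℕ, Real.exp (-q) / 2 ≤ V.card * Real.exp (-(J:ℝ)) := by
    intro J
    have hcut : ∀ A ⊆ A₀, MeasurableSet A → μ.real A₀ - Real.exp (-q) / 4 ≤ μ.real A →
        ∀ j, ∀ i ∈ V, Real.exp (-(s j)) < μ.real (A ∩ up (φ i) (l i)) := by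
      intro A hA hAm h3 j i hi
      have h4 := hl i hi
      have h5 : μ.real (A₀ ∩ up (φ i) (l i)) ≤ μ.real (A ∩ up (φ i) (l i)) + μ.real (A₀ \ A) := by
        refine le_trans (measureReal_mono ?_ (measure_ne_top μ _)) (measureReal_union_le _ _)
        intro x hx
        by_cases hxA : x ∈ A
        · exact Or.inl ⟨hxA, hx.2⟩
        · exact Or.inr ⟨hx.1, hxA⟩
      have h6 : μ.real (A₀ \ A) = μ.real A₀ - μ.real A := measureReal_sdiff hA hAm
      have := hse j
      linarith
    have hAs : ∀ A ⊆ A₀, MeasurableSet A → μ.real A₀ - Real.exp (-q) / 4 ≤ μ.real A →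
        ∀ j, ∀ i ∈ V,
          Real.exp (-(s j)) ≤ μ.real (A ∩ up (φ i) (qn μ A (Real.exp (-(s j))) (φ i))) ∧
          μ.real (A ∩ ou (φ i) (qn μ A (Real.exp (-(s j))) (φ i))) ≤ Real.exp (-(s j)) := by
      intro A hA hAm h3 j i hi
      exact qn_spec_up hAm (fun x hx => hh i hi x (hA hx)) (Real.exp_pos _)
        (hcut A hA hAm h3 j i hi)
    obtain ⟨S, A, hS, hA, hSm, hAm, hSμ, hAμ, hcl⟩ := exists_cleanI (J := J) ha ha1 hlc hL
      hS₀ hA₀ (hη J) hAs (by
        intro A hA hAm h3 i hi S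
        have h4 : ∀ j, l i ≤ qn μ A (Real.exp (-(s j))) (φ i) := by
          intro j
          obtain ⟨_, h5⟩ := hAs A hA hAm h3 j i hi
          have h6 := hcut A hA hAm h3 j i hi
          by_contra h7
          rw [not_le] at h7
          have h8 : μ.real (A ∩ up (φ i) (l i)) ≤
              μ.real (A ∩ ou (φ i) (qn μ A (Real.exp (-(s j))) (φ i))) := by
            refine measureReal_mono ?_ (measure_ne_top μ _)
            intro x hx
            have h9 : l i ≤ φ i x := hx.2
            exact ⟨hx.1, lt_of_lt_of_le h7 h9⟩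
          linarith
        have h5 : t₀ i ≤ L A 0 i := by
          have h6 : 0 ≤ ∑ r ∈ Finset.range m, (qn μ A (Real.exp (-(s (0 + r)))) (φ i) - l i) :=
            Finset.sum_nonneg fun r _ => by
              have := h4 (0 + r)
              linarith
          have h7 := mul_nonneg hal.le h6
          simp only [hL_def]
          linarith
        have hsub : S ∩ up (φ i) (L A 0 i) ⊆ up (φ i) (t₀ i) := by
          intro x hx
          exact h5.trans hx.2
        exact (measureReal_mono hsub (measure_ne_top μ _)).trans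
          ((h0 i hi).trans (Real.exp_le_exp.2 (neg_le_neg hsm))))
    have h3 : ∀ i ∈ V, μ.real (S ∩ up (φ i) (t₀ i + M / (M - 1) * (h i - l i))) ≤
        Real.exp (-(J:ℝ)) := by
      intro i hi
      have h4 := hcl J le_rfl i hi
      have h5 : L A J i ≤ t₀ i + M / (M - 1) * (h i - l i) := by
        have h6 : ∑ r ∈ Finset.range m, (qn μ A (Real.exp (-(s (J + r)))) (φ i) - l i) ≤
            ∑ r ∈ Finset.range m, (h i - l i) := by
          refine Finset.sum_le_sum fun r _ => ?_
          obtain ⟨h7, _⟩ := hAs A hA hAm hAμ (J + r) i hi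
          have h8 : (A ∩ up (φ i) (qn μ A (Real.exp (-(s (J + r)))) (φ i))).Nonempty := by
            rw [nonempty_iff_ne_empty]
            intro h9
            rw [h9] at h7
            have := Real.exp_pos (-(s (J + r)))
            simp at h7
            linarith
          obtain ⟨x, hx, hx'⟩ := h8
          have h9 := hh i hi x (hA hx)
          have h10 : qn μ A (Real.exp (-(s (J + r)))) (φ i) ≤ φ i x := hx'
          linarith
        rw [Finset.sum_const, Finset.card_range, nsmul_eq_mul, ← hM] at h6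
        have h7 := mul_le_mul_of_nonneg_left h6 hal.le
        have h8 : a / (1 - a) * (M * (h i - l i)) = M / (M - 1) * (h i - l i) := by
          rw [← haM]; ring
        rw [h8] at h7
        simp only [hL_def]
        linarith
      have hsub : S ∩ up (φ i) (t₀ i + M / (M - 1) * (h i - l i)) ⊆ S ∩ up (φ i) (L A J i) := by
        intro x hx
        exact ⟨hx.1, h5.trans hx.2⟩
      refine (measureReal_mono hsub (measure_ne_top μ _)).trans
        (h4.trans (Real.exp_le_exp.2 ?_))
      have h9 : (J:ℝ) ≤ s (J + m) := by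
        have h10 : 1 + (J:ℝ) * b ≤ (1 + b) ^ (J + m) := by
          refine le_trans (hbern J) ?_
          exact pow_le_pow_right₀ (by linarith) (by omega)
        have h12 := mul_le_mul_of_nonneg_left h10 hNq.le
        have h13 : N * q * (1 + (J:ℝ) * b) = N * q + 4 * M * (M + 1) * q * J := by
          rw [hb_def, hN]; field_simp; ring
        rw [h13] at h12
        have h14 : 1 ≤ 4 * M * (M + 1) * q := by nlinarith
        have hJ0 : (0:ℝ) ≤ J := Nat.cast_nonneg J
        have h16 : 1 * (J:ℝ) ≤ 4 * M * (M + 1) * q * J := mul_le_mul_of_nonneg_right h14 hJ0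
        have h17 : N * q * (1 + b) ^ (J + m) = s (J + m) := rfl
        linarith
      linarith
    have h4 : μ.real S ≤ ∑ i ∈ V, μ.real (S ∩ up (φ i) (t₀ i + M / (M - 1) * (h i - l i))) := by
      refine le_trans (measureReal_mono
        (s₂ := ⋃ i ∈ V, S ∩ up (φ i) (t₀ i + M / (M - 1) * (h i - l i))) ?_
        (measure_ne_top μ _)) (measureReal_biUnion_finset_le _ _)
      intro x hx
      have hx0 := hS hx
      rw [hS₀_def] at hx0
      simp only [mem_iUnion] at hx0 ⊢
      obtain ⟨i, hi, hxi⟩ := hx0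
      exact ⟨i, hi, hx, hxi⟩
    have h5 : ∑ i ∈ V, μ.real (S ∩ up (φ i) (t₀ i + M / (M - 1) * (h i - l i))) ≤
        V.card * Real.exp (-(J:ℝ)) := by
      rw [← nsmul_eq_mul]
      exact Finset.sum_le_card_nsmul _ _ _ h3
    linarith
  have hlim : Tendsto (fun j : ℕ => (V.card : ℝ) * Real.exp (-(j:ℝ))) atTop
      (𝓝 ((V.card:ℝ) * 0)) :=
    (Real.tendsto_exp_neg_atTop_nhds_zero.comp tendsto_natCast_atTop_atTop).const_mul _
  rw [mul_zero] at hlim
  have h9 := ge_of_tendsto' hlim key
  linarith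

end Pool.WS
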