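import Pool.Agent.CIP.I

set_option autoImplicit false

open MeasureTheory Pointwise Set Filter Topology

namespace Pool.CIP

variable {n : ℕ} {μ : Measure (E n)}

/-- the core of even order -/
lemma core_even [IsProbabilityMeasure μ] (hsym : μ.map (fun x => -x) = μ) (hlc : LC μ)
    {m : ℕ} (hm : 1 ≤ m) :
    μ.real (G μ (2 * m : ℕ) (Real.sqrt (2 * Real.exp 3 * ((n + m) / m))))ᶜ ≤
      Real.exp (-((2 * m : ℕ) : ℝ)) / 2 := by
  have hm0 : (0:ℝ) < m := by exact_mod_cast hm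
  have hfin : ∀ q : ℝ, 0 < q → ∀ v : E n, mq μ q v < ⊤ := fun q hq v => mq_lt_top hsym hlc hq v
  set lam := Real.sqrt (2 * Real.exp 3 * ((n + m) / m)) with hlam
  have hpos : 0 < 2 * Real.exp 3 * (((n:ℝ) + m) / m) := by positivity
  have hl : 0 < lam := Real.sqrt_pos.2 hpos
  have hl2 : lam ^ 2 = 2 * Real.exp 3 * (((n:ℝ) + m) / m) := Real.sq_sqrt hpos.le
  have hq0 : (0:ℝ) < ((2 * m : ℕ) : ℝ) := by
    have : 0 < 2 * m := by omega
    exact_mod_cast this
  have h1 := (measure_mono (μ := μ) (compl_G_subset_bad hfin hq0 hl)).trans (bad_le hfin hm hl)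
  have h2 := ENNReal.toReal_mono (by
    apply ENNReal.div_ne_top (by simp)
    simpa using by positivity) h1
  rw [ENNReal.toReal_div, ENNReal.toReal_ofReal (by positivity), ENNReal.toReal_natCast] at h2
  refine le_trans h2 ?_
  have h3 := multichoose_le n hm
  have h4 : lam ^ (2 * m) = (2 * Real.exp 3 * (((n:ℝ) + m) / m)) ^ m := by rw [pow_mul, hl2]
  rw [h4, div_le_iff₀ (by positivity)]
  refine h3.trans ?_
  have h5 : Real.exp (-((2 * m : ℕ) : ℝ)) = (Real.exp (-2)) ^ m := by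
    rw [← Real.exp_nat_mul]
    congr 1
    push_cast
    ring
  have h6 : Real.exp (-2) * Real.exp 3 = Real.exp 1 := by rw [← Real.exp_add]; norm_num
  have h7 : Real.exp (-((2 * m : ℕ) : ℝ)) / 2 * (2 * Real.exp 3 * (((n:ℝ) + m) / m)) ^ m =
      2 ^ m / 2 * (Real.exp 1 * (n + m) / m) ^ m := by
    rw [h5, ← h6]
    have : (Real.exp (-2) * Real.exp 3 * ((n:ℝ) + m) / m) ^ m =
        Real.exp (-2) ^ m * (Real.exp 3 * (((n:ℝ) + m) / m)) ^ m := by
      rw [← mul_pow]; congr 1; ring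
    rw [this, mul_assoc 2 (Real.exp 3), mul_pow 2]
    ring
  rw [h7]
  have h8 : (1:ℝ) ≤ 2 ^ m / 2 := by
    rw [le_div_iff₀ (by norm_num)]
    calc (1:ℝ) * 2 = 2 ^ 1 := by norm_num
      _ ≤ 2 ^ m := pow_le_pow_right₀ (by norm_num) hm
  have h9 : 0 ≤ (Real.exp 1 * ((n:ℝ) + m) / m) ^ m := by positivity
  nlinarith

lemma exp_seven : 8 * Real.exp 7 ≤ 10000 := by
  have h1 : Real.exp 7 = Real.exp 1 ^ 7 := by
    rw [← Real.exp_nat_mul]; norm_num
  have h2 := Real.exp_one_lt_d9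
  have h3 : Real.exp 1 ^ 7 ≤ 2.7182818286 ^ 7 := by gcongr
  rw [h1]
  refine (mul_le_mul_of_nonneg_left h3 (by norm_num)).trans ?_
  norm_num

/-- the growth step -/
lemma step2 [IsProbabilityMeasure μ] (hsym : μ.map (fun x => -x) = μ) (hlc : LC μ)
    {K : Set (E n)} (hKc : IsCompact K) (hK : 0 < μ.real K)
    {p c : ℝ} (hp : 2 ≤ p) (hc : 1 ≤ c) (hyp : (n:ℝ) / c ^ 2 ≤ p - Real.log (μ.real K)) :
    1 / 2 < μ.real (K + G μ p (1200 * c)) ∨
      Real.exp p * μ.real K ≤ μ.real (K + G μ p (1200 * c)) := by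
  set u := -Real.log (μ.real K) with hu
  have hc0 : 0 < c := by linarith
  set M := max (2 * p) u with hM
  have hM4 : 4 ≤ M := le_max_of_le_left (by linarith)
  have hM1 : 2 * p ≤ M := le_max_left _ _
  have hM2 : u ≤ M := le_max_right _ _
  set m : ℕ := ⌈M / 2⌉₊ with hm
  have hm1 : M / 2 ≤ m := Nat.le_ceil _
  have hm2 : (m:ℝ) < M / 2 + 1 := Nat.ceil_lt_add_one (by linarith)
  have hm3 : 1 ≤ m := by
    have : (1:ℝ) ≤ m := by linarith
    exact_mod_cast this
  have hm0 : (0:ℝ) < m := by linarith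
  have hq : ((2 * m : ℕ) : ℝ) = 2 * m := by push_cast; ring
  have hn : (n:ℝ) ≤ c ^ 2 * (p + u) := by
    have h1 : (n:ℝ) / c ^ 2 ≤ p + u := by linarith
    rwa [div_le_iff₀' (by positivity)] at h1
  have hratio : ((n:ℝ) + m) / m ≤ 4 * c ^ 2 := by
    rw [div_le_iff₀ hm0]
    have hc2 : 1 ≤ c ^ 2 := one_le_pow₀ hc
    have h1 : p + u ≤ 3 * m := by linarith
    have h2 : (n:ℝ) ≤ c ^ 2 * (3 * m) := hn.trans (mul_le_mul_of_nonneg_left h1 (by positivity))
    nlinarith
  set lam := Real.sqrt (2 * Real.exp 3 * (((n:ℝ) + m) / m)) with hlam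
  have hpos : 0 < 2 * Real.exp 3 * (((n:ℝ) + m) / m) := by positivity
  have hl : 0 < lam := Real.sqrt_pos.2 hpos
  have hl2 : lam ^ 2 = 2 * Real.exp 3 * (((n:ℝ) + m) / m) := Real.sq_sqrt hpos.le
  have hlc2 : Real.exp 2 * lam ≤ 100 * c := by
    rw [← sq_le_sq₀ (by positivity) (by positivity), mul_pow, hl2]
    have h1 : Real.exp 2 ^ 2 * Real.exp 3 = Real.exp 7 := by
      rw [← Real.exp_nat_mul, ← Real.exp_add]; norm_num
    calc Real.exp 2 ^ 2 * (2 * Real.exp 3 * (((n:ℝ) + m) / m))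
        ≤ Real.exp 2 ^ 2 * (2 * Real.exp 3 * (4 * c ^ 2)) := by gcongr
      _ = 8 * (Real.exp 2 ^ 2 * Real.exp 3) * c ^ 2 := by ring
      _ = 8 * Real.exp 7 * c ^ 2 := by rw [h1]
      _ ≤ 10000 * c ^ 2 := mul_le_mul_of_nonneg_right exp_seven (by positivity)
      _ = _ := by ring
  apply step hsym hlc hKc hK hp (q := ((2 * m : ℕ) : ℝ)) (lam := lam) hl
    (by rw [hq]; linarith) (by rw [hq, ← hu]; linarith) (core_even hsym hlc hm3)
  rw [← hu, ← hM, hq]
  have h1 : 2 * (m:ℝ) / M ≤ 3 / 2 := by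
    rw [div_le_iff₀ (by linarith)]; linarith
  calc 8 * Real.exp 2 * lam * (2 * (m:ℝ) / M) ≤ 8 * Real.exp 2 * lam * (3 / 2) := by gcongr
    _ = 12 * (Real.exp 2 * lam) := by ring
    _ ≤ 12 * (100 * c) := mul_le_mul_of_nonneg_left hlc2 (by norm_num)
    _ = _ := by ring

/-- the concentration inequality -/
theorem conc2 [IsProbabilityMeasure μ] (hsym : μ.map (fun x => -x) = μ) (hlc : LC μ)
    {p c : ℝ} (hp : 2 ≤ p) (hc : 1 ≤ c) {A : Set (E n)}
    (hA : MeasurableSet A) (h12 : 1 / 2 ≤ μ.real A)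
    (hyp : Real.exp (-p) * (1 - μ.real A) ≤ Real.exp (-(n / c ^ 2))) :
    1 - μ.real (A + (1200 * c) • Z μ p) ≤ Real.exp (-p) * (1 - μ.real A) := by
  have hp0 : 0 < p := by linarith
  have hc0 : 0 < c := by linarith
  rw [smul_Z_eq hp0 (by positivity)]
  set Gp := G μ p (1200 * c) with hGp
  obtain ⟨H, hAH, hHm, hHμ⟩ := exists_measurable_superset μ (A + Gp)
  have hHr : μ.real (A + Gp) = μ.real H := by simp [Measure.real, hHμ]
  have hcH : μ.real Hᶜ = 1 - μ.real H := by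
    rw [measureReal_compl hHm]; simp
  have hcA : μ.real Aᶜ = 1 - μ.real A := by
    rw [measureReal_compl hA]; simp
  rw [hHr, ← hcH, ← hcA]
  have key : ∀ K : Set (E n), K ⊆ Hᶜ → IsCompact K → μ.real K ≤ Real.exp (-p) * μ.real Aᶜ := by
    intro K hKH hKc
    rcases (measureReal_nonneg (μ := μ) (s := K)).eq_or_lt with h0 | hpos
    · rw [← h0]; positivity
    have hsub : K + Gp ⊆ Aᶜ := by
      rintro _ ⟨k, hk, z, hz, rfl⟩ hin
      apply hKH hk
      apply hAH
      refine ⟨k + z, hin, -z, fun v => ?_, by simp⟩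
      rw [inner_neg_right, abs_neg]
      exact hz v
    have hW : μ.real (K + Gp) ≤ μ.real Aᶜ := measureReal_mono hsub (measure_ne_top μ _)
    have hKA : μ.real K ≤ μ.real Aᶜ := by
      refine le_trans (measureReal_mono ?_ (measure_ne_top μ _)) hW
      intro k hk
      exact ⟨k, hk, 0, zero_mem_G (by positivity), by simp⟩
    have hyp' : (n:ℝ) / c ^ 2 ≤ p - Real.log (μ.real K) := by
      rw [← hcA] at hyp
      have h1 : Real.exp (-p) * μ.real K ≤ Real.exp (-(n / c ^ 2)) :=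
        (mul_le_mul_of_nonneg_left hKA (Real.exp_pos _).le).trans hyp
      have h2 := Real.log_le_log (by positivity) h1
      rw [Real.log_mul (Real.exp_pos _).ne' hpos.ne', Real.log_exp, Real.log_exp] at h2
      linarith
    have hstep := step2 hsym hlc hKc hpos hp hc hyp'
    rw [← hGp] at hstep
    rcases hstep with h | h
    · linarith
    · have h3 : Real.exp p * μ.real K ≤ μ.real Aᶜ := h.trans hW
      rw [Real.exp_neg, ← div_eq_inv_mul, le_div_iff₀ (Real.exp_pos p)]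
      linarith
  refine le_of_forall_pos_le_add fun ε hε => ?_
  obtain ⟨K, hKH, hKc, hK⟩ := hHm.compl.exists_isCompact_lt_add (measure_ne_top μ _)
    (ε := ENNReal.ofReal ε) (by simpa using hε)
  have h1 := ENNReal.toReal_mono (by finiteness) hK.le
  rw [ENNReal.toReal_add (measure_ne_top μ _) (by simp), ENNReal.toReal_ofReal hε.le] at h1
  have h2 := key K hKH hKc
  have h3 : μ.real Hᶜ ≤ μ.real K + ε := h1
  linarith

end Pool.CIP
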