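import Pool.Agent.CIP.X
import Pool.Agent.CIP.J

set_option autoImplicit false

open MeasureTheory Pointwise Set Filter Topology

namespace Pool.CIP

variable {n : ℕ} {μ : Measure (E n)}

lemma exp_five' : Real.exp 2 ^ 2 * Real.exp 3 ≤ 1100 := by
  have h1 : Real.exp 2 ^ 2 * Real.exp 3 = Real.exp 1 ^ 7 := by
    rw [← Real.exp_nat_mul, ← Real.exp_nat_mul, ← Real.exp_add]; norm_num
  have h2 := Real.exp_one_lt_d9
  have h3 : Real.exp 1 ^ 7 ≤ 2.7182818286 ^ 7 := by gcongr
  rw [h1]
  refine h3.trans ?_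
  norm_num

/-- a multiple of the centroid body of measure at least one half -/
lemma body_half [IsProbabilityMeasure μ] (hsym : μ.map (fun x => -x) = μ) (hlc : LC μ)
    {p : ℝ} (hp : 2 ≤ p) : 1 / 2 ≤ μ.real (G μ p (300 * Real.sqrt (1 + n / p))) := by
  have hp0 : 0 < p := by linarith
  set m : ℕ := ⌈p / 2⌉₊ with hm
  have hm1 : p / 2 ≤ m := Nat.le_ceil _
  have hm2 : (m:ℝ) < p / 2 + 1 := Nat.ceil_lt_add_one (by linarith)
  have hm3 : 1 ≤ m := by
    have : (1:ℝ) ≤ m := by linarith
    exact_mod_cast this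
  have hm0 : (0:ℝ) < m := by linarith
  have hq : ((2 * m : ℕ) : ℝ) = 2 * m := by push_cast; ring
  have hn0 : (0:ℝ) ≤ n := Nat.cast_nonneg n
  set lam := Real.sqrt (2 * Real.exp 3 * ((n + m) / m)) with hlam
  have hpos : 0 < 2 * Real.exp 3 * (((n:ℝ) + m) / m) := by positivity
  have hl : 0 < lam := Real.sqrt_pos.2 hpos
  have hl2 : lam ^ 2 = 2 * Real.exp 3 * (((n:ℝ) + m) / m) := Real.sq_sqrt hpos.le
  have hcore := core_even hsym hlc hm3
  rw [← hlam] at hcore
  have hsub : G μ ((2 * m : ℕ) : ℝ) lam ⊆ G μ p (300 * Real.sqrt (1 + n / p)) := by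
    apply G_subset hsym hlc (by linarith) (by rw [hq]; linarith) hl.le
    rw [hq]
    have h1 : 2 * (m:ℝ) / p ≤ 2 := by rw [div_le_iff₀ hp0]; linarith
    have h2 : ((n:ℝ) + m) / m ≤ 2 * (1 + n / p) := by
      rw [div_le_iff₀ hm0]
      have h3 : (n:ℝ) / p * p = n := by field_simp
      have h4 : 0 ≤ (n:ℝ) / p := by positivity
      nlinarith
    have h5 : (0:ℝ) ≤ 1 + n / p := by positivity
    have h6 : 4 * Real.exp 2 * lam ≤ 300 * Real.sqrt (1 + n / p) := by
      rw [← sq_le_sq₀ (by positivity) (by positivity), mul_pow (4 * Real.exp 2), hl2, mul_pow (300:ℝ),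
        Real.sq_sqrt h5]
      have h7 := exp_five'
      calc (4 * Real.exp 2) ^ 2 * (2 * Real.exp 3 * (((n:ℝ) + m) / m))
          = 32 * (Real.exp 2 ^ 2 * Real.exp 3) * (((n:ℝ) + m) / m) := by ring
        _ ≤ 32 * 1100 * (2 * (1 + n / p)) := by gcongr
        _ ≤ 300 ^ 2 * (1 + n / p) := by nlinarith
    calc 2 * Real.exp 2 * (2 * (m:ℝ) / p) * lam ≤ 2 * Real.exp 2 * 2 * lam := by gcongr
      _ = 4 * Real.exp 2 * lam := by ring
      _ ≤ _ := h6
  have h1 := measureReal_mono (μ := μ) hsub (measure_ne_top μ _)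
  have h2 : μ.real (G μ ((2 * m : ℕ) : ℝ) lam)ᶜ = 1 - μ.real (G μ ((2 * m : ℕ) : ℝ) lam) := by
    rw [measureReal_compl (isClosed_G _ lam).measurableSet]
    simp
  have h3 : Real.exp (-((2 * m : ℕ) : ℝ)) ≤ 1 := by
    rw [Real.exp_le_one_iff, hq]; linarith
  linarith

/-- the concentration inequality without an additional body -/
theorem main_undilated [IsProbabilityMeasure μ] (hsym : μ.map (fun x => -x) = μ) (hlc : LC μ)
    {A : Set (E n)} (hAm : MeasurableSet A) {p : ℝ} (hp : 2 ≤ p) {c : ℝ} (hc : 1 ≤ c)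
    (h : Real.sqrt (n * p) ≤ c * max p (Real.log (1 / (μ.real A * (1 - μ.real A))))) :
    2 * Real.exp p * μ.real A * (1 - μ.real (A + G μ p (10000000000000 * c))) ≤
      (1 - μ.real A) * μ.real (A + G μ p (10000000000000 * c)) := by
  have hp0 : 0 < p := by linarith
  have hn0 : (0:ℝ) ≤ n := Nat.cast_nonneg n
  set w₀ := Real.log (1 / (μ.real A * (1 - μ.real A))) with hw₀
  set w := max p w₀ with hw
  have hwp : p ≤ w := le_max_left _ _
  have hw0 : 0 < w := by linarith
  set r := 300 * Real.sqrt (1 + n / p) with hr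
  have hr0 : 0 ≤ r := by positivity
  set K := G μ p r with hK
  have hKc : IsCompact K := isCompact_G p r
  have hKconv : Convex ℝ K := convex_G
  have hKs : ∀ x ∈ K, -x ∈ K := fun x hx => neg_mem_G hx
  have hKm : min (μ.real A / 2) (1 / 4) ≤ μ.real K := by
    have := body_half hsym hlc hp
    rw [← hr, ← hK] at this
    exact (min_le_right _ _).trans (by linarith)
  set θ := 1000 * p / w with hθ
  have hθ0 : 0 ≤ θ := by positivity
  have hθ' : 100 ≤ θ ∨ 1000 * p ≤ θ * w₀ := by
    rcases le_total p w₀ with h1 | h1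
    · right
      have : w = w₀ := max_eq_right h1
      rw [hθ, this]
      have : w₀ ≠ 0 := by linarith
      field_simp
      exact le_rfl
    · left
      have : w = p := max_eq_left h1
      rw [hθ, this]
      rw [mul_div_assoc, div_self hp0.ne']
      norm_num
  have key := main_borel hsym hlc hAm hKc hKconv hKs hKm hp hθ'
  have hbound : θ * r + 7000000000000 ≤ 10000000000000 * c := by
    have h1 : Real.sqrt (1 + n / p) ≤ 1 + Real.sqrt (n / p) := by
      rw [Real.sqrt_le_left (by positivity)]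
      have h2 : Real.sqrt ((n:ℝ) / p) ^ 2 = n / p := Real.sq_sqrt (by positivity)
      have h3 : 0 ≤ Real.sqrt ((n:ℝ) / p) := Real.sqrt_nonneg _
      nlinarith
    have h4 : p / w * Real.sqrt (n / p) ≤ c := by
      have h5 : p * Real.sqrt (n / p) = Real.sqrt (n * p) := by
        have h6 : (n:ℝ) * p = p ^ 2 * (n / p) := by field_simp
        rw [h6, Real.sqrt_mul (by positivity), Real.sqrt_sq hp0.le]
      rw [div_mul_eq_mul_div, h5, div_le_iff₀ hw0]
      exact h
    have h7 : p / w ≤ 1 := (div_le_one hw0).2 hwp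
    have h8 : θ * r = 300000 * (p / w * Real.sqrt (1 + n / p)) := by
      rw [hθ, hr]; ring
    have h9 : p / w * Real.sqrt (1 + n / p) ≤ 1 + c := by
      calc p / w * Real.sqrt (1 + n / p) ≤ p / w * (1 + Real.sqrt (n / p)) :=
            mul_le_mul_of_nonneg_left h1 (by positivity)
        _ = p / w + p / w * Real.sqrt (n / p) := by ring
        _ ≤ 1 + c := add_le_add h7 h4
    rw [h8]
    linarith
  have hsub : A + θ • K + G μ p 7000000000000 ⊆ A + G μ p (10000000000000 * c) := by
    rintro _ ⟨_, ⟨x, hx, _, ⟨k, hk, rfl⟩, rfl⟩, g, hg, rfl⟩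
    refine ⟨x, hx, θ • k + g, ?_, by simp only [add_assoc]⟩
    intro v
    rw [inner_add_right, inner_smul_right]
    calc |θ * inner ℝ v k + inner ℝ v g| ≤ |θ * inner ℝ v k| + |inner ℝ v g| := abs_add_le _ _
      _ = θ * |inner ℝ v k| + |inner ℝ v g| := by rw [abs_mul, abs_of_nonneg hθ0]
      _ ≤ θ * (r * hm μ p v) + 7000000000000 * hm μ p v :=
          add_le_add (mul_le_mul_of_nonneg_left (hk v) hθ0) (hg v)
      _ = (θ * r + 7000000000000) * hm μ p v := by ring
      _ ≤ 10000000000000 * c * hm μ p v :=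
          mul_le_mul_of_nonneg_right hbound (hm_nonneg p v)
  have hmono := measureReal_mono (μ := μ) hsub (measure_ne_top μ _)
  have ha0 : 0 ≤ μ.real A := measureReal_nonneg
  have ha1 : μ.real A ≤ 1 := measureReal_le_one
  have hep := Real.exp_pos p
  calc 2 * Real.exp p * μ.real A * (1 - μ.real (A + G μ p (10000000000000 * c)))
      ≤ 2 * Real.exp p * μ.real A * (1 - μ.real (A + θ • K + G μ p 7000000000000)) :=
        mul_le_mul_of_nonneg_left (by linarith) (by positivity)
    _ ≤ (1 - μ.real A) * μ.real (A + θ • K + G μ p 7000000000000) := key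
    _ ≤ (1 - μ.real A) * μ.real (A + G μ p (10000000000000 * c)) :=
        mul_le_mul_of_nonneg_left hmono (by linarith)

end Pool.CIP
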