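import Pool.Agent.CIP.FF
import Pool.Agent.CIP.Y

set_option autoImplicit false

open MeasureTheory Pointwise Set Filter Topology

namespace Pool.CIP

variable {n : ℕ} {μ : Measure (E n)}

/-- a convex body of measure at least `1 - exp (-q)` inside a multiple of the centroid body -/
lemma body_q [IsProbabilityMeasure μ] (hsym : μ.map (fun x => -x) = μ) (hlc : LC μ)
    {p q : ℝ} (hp : 2 ≤ p) (hq : 4 ≤ q) (hpq : p ≤ q) :
    ∃ M : Set (E n), IsCompact M ∧ Convex ℝ M ∧ (∀ x ∈ M, -x ∈ M) ∧
      μ.real Mᶜ ≤ Real.exp (-q) ∧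
      M ⊆ G μ p (600 * Real.sqrt (1 + n / p) + 360 * Real.exp 3 * ((q + 11) / p)) := by
  have hp0 : 0 < p := by linarith
  set K := G μ p (300 * Real.sqrt (1 + n / p)) with hK
  have hKm : 1 / 2 ≤ μ.real K := body_half hsym hlc hp
  have he4 := exp_four
  have h5 : 5 * Real.exp (-q) ≤ μ.real K := by
    have h1 : Real.exp (-q) ≤ Real.exp (-4) := Real.exp_le_exp.2 (by linarith)
    have h2 : Real.exp (-4) * Real.exp 4 = 1 := by rw [← Real.exp_add]; simp
    have h3 := Real.exp_pos (-4)
    nlinarith
  have hcore := core2_holds hlc 5 (by norm_num) q (by linarith)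
  set L := 12 * ((5:ℕ):ℝ) * (q + 3 * Real.log ((5:ℕ):ℝ) + 5) with hL
  have hlog5 : Real.log ((5:ℕ):ℝ) ≤ 2 := by
    refine le_trans (Real.log_le_log (by norm_num) ?_) log_six_le
    norm_num
  have hlog50 : 0 ≤ Real.log ((5:ℕ):ℝ) := Real.log_nonneg (by norm_num)
  have hLq : q ≤ L := by rw [hL]; push_cast at hlog50 ⊢; linarith
  have hLup : L ≤ 60 * (q + 11) := by rw [hL]; push_cast at hlog5 ⊢; linarith
  have hR : (1 + 5 / ((5:ℕ):ℝ)) = 2 := by norm_num
  rw [hR] at hcore
  have key := enlP_sym hsym hlc hcore le_rfl (by linarith) hLq (isCompact_G p _) convex_G h5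
  refine ⟨(2:ℝ) • K + G μ L (3 * Real.exp 1), ((isCompact_G p _).smul _).add (isCompact_G _ _),
    (convex_G.smul _).add convex_G, ?_, key, ?_⟩
  · rintro _ ⟨_, ⟨x, hx, rfl⟩, g, hg, rfl⟩
    refine ⟨_, ⟨-x, neg_mem_G hx, rfl⟩, -g, neg_mem_G hg, ?_⟩
    show (2:ℝ) • (-x) + -g = -((2:ℝ) • x + g)
    module
  · rintro _ ⟨_, ⟨x, hx, rfl⟩, g, hg, rfl⟩ v
    have hg' : g ∈ G μ p (360 * Real.exp 3 * ((q + 11) / p)) := by
      refine G_subset hsym hlc (by linarith) (by linarith) (by positivity) ?_ hg
      have e3 : Real.exp 3 = Real.exp 2 * Real.exp 1 := by rw [← Real.exp_add]; norm_num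
      have h6 : L / p ≤ 60 * ((q + 11) / p) := by
        rw [div_le_iff₀ hp0]
        have : 60 * ((q + 11) / p) * p = 60 * (q + 11) := by field_simp
        linarith
      calc 2 * Real.exp 2 * (L / p) * (3 * Real.exp 1)
          = 6 * Real.exp 3 * (L / p) := by rw [e3]; ring
        _ ≤ 6 * Real.exp 3 * (60 * ((q + 11) / p)) := mul_le_mul_of_nonneg_left h6 (by positivity)
        _ = 360 * Real.exp 3 * ((q + 11) / p) := by ring
    show |inner ℝ v ((2:ℝ) • x + g)| ≤ _
    rw [inner_add_right, inner_smul_right]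
    have h7 := hx v
    have h8 := hg' v
    calc |2 * inner ℝ v x + inner ℝ v g| ≤ |2 * inner ℝ v x| + |inner ℝ v g| := abs_add_le _ _
      _ = 2 * |inner ℝ v x| + |inner ℝ v g| := by rw [abs_mul, abs_of_pos (by norm_num : (0:ℝ) < 2)]
      _ ≤ 2 * (300 * Real.sqrt (1 + n / p) * hm μ p v) +
          360 * Real.exp 3 * ((q + 11) / p) * hm μ p v :=
          add_le_add (mul_le_mul_of_nonneg_left h7 (by norm_num)) h8
      _ = _ := by ring

/-- The concentration inequality without dilation for convex sets. -/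
theorem main_convex_undilated [IsProbabilityMeasure μ] (hsym : μ.map (fun x => -x) = μ)
    (hlc : LC μ)
    {A : Set (E n)} (hAm : MeasurableSet A) (hAconv : Convex ℝ A) {p : ℝ} (hp : 2 ≤ p)
    {ε : ℝ} (hε0 : 0 < ε) (hε1 : ε ≤ 1) {s : ℝ}
    (hs : 10000000000000 * (ε * Real.sqrt (n / p) + 1 / ε * min (1 / ε) (1 + (Real.log
      (1 / (μ.real A * (1 - μ.real A))) + Real.log (1 / ε)) / p)) ≤ s) :
    2 * Real.exp p * μ.real A * (1 - μ.real (A + G μ p s)) ≤
      (1 - μ.real A) * μ.real (A + G μ p s) := by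
  have hp0 : 0 < p := by linarith
  have hn0 : (0:ℝ) ≤ n := Nat.cast_nonneg n
  set A' := A + G μ p s with hA'
  set a := μ.real A with ha
  set a' := μ.real A' with ha'
  have ha1 : a ≤ 1 := measureReal_le_one
  have ha'1 : a' ≤ 1 := measureReal_le_one
  have ha'0 : 0 ≤ a' := measureReal_nonneg
  rcases (measureReal_nonneg (μ := μ) (s := A)).eq_or_lt with h0 | hpos
  · rw [← ha] at h0
    rw [← h0]
    simpa using ha'0
  have hlogε : 0 ≤ Real.log (1 / ε) := Real.log_nonneg (by rw [le_div_iff₀ hε0]; linarith)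
  have h1ε : 1 ≤ 1 / ε := by rw [le_div_iff₀ hε0]; linarith
  have hw0' : 0 ≤ Real.log (1 / (a * (1 - a))) := by
    rcases ha1.eq_or_lt with h1 | hlt
    · rw [h1]; simp
    · have h2 : 0 < a * (1 - a) := mul_pos hpos (by linarith)
      apply Real.log_nonneg
      rw [le_div_iff₀ h2]
      nlinarith
  set w := Real.log (1 / (a * (1 - a))) with hw
  set T := 1 + (w + Real.log (1 / ε)) / p with hT
  have hT1 : 1 ≤ T := by
    have : 0 ≤ (w + Real.log (1 / ε)) / p := by positivity
    linarith
  have hmin1 : 1 ≤ min (1 / ε) T := le_min h1ε hT1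
  set r := Real.sqrt (n / p) with hr
  have hr0 : 0 ≤ r := Real.sqrt_nonneg _
  set V := 1 / ε * min (1 / ε) T with hV
  have hV1 : 1 ≤ V := by
    rw [hV]; nlinarith
  have hεr : 0 ≤ ε * r := by positivity
  have hs0 : 0 ≤ s := by
    refine le_trans ?_ hs
    positivity
  have hAA' : A ⊆ A' := by
    intro x hx
    exact ⟨x, hx, 0, zero_mem_G hs0, by simp⟩
  have haa' : a ≤ a' := measureReal_mono hAA' (measure_ne_top μ _)
  rcases ha1.eq_or_lt with h1 | hlt
  · have h2 : a' = 1 := by linarith
    rw [h2, h1]; simp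
  have hc0 : 0 < 1 - a := by linarith
  have hac : 0 < a * (1 - a) := mul_pos hpos hc0
  rcases le_or_gt (500 * p) (ε * w) with hcase | hcase
  · -- extreme sets
    have hsqrt : Real.sqrt (n * p) = r * p := by
      have h6 : (n:ℝ) * p = p ^ 2 * (n / p) := by field_simp
      rw [h6, Real.sqrt_mul (by positivity), Real.sqrt_sq hp0.le, hr]; ring
    have key := main_undilated hsym hlc hAm hp (c := ε * r + V) (by linarith) (by
      rw [hsqrt, ← ha, ← hw]
      have h1 : w ≤ max p w := le_max_right _ _
      have h2 : r * p ≤ (ε * r) * w := by nlinarith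
      calc r * p ≤ (ε * r) * w := h2
        _ ≤ (ε * r + V) * w := mul_le_mul_of_nonneg_right (by linarith) hw0'
        _ ≤ (ε * r + V) * max p w := mul_le_mul_of_nonneg_left h1 (by linarith))
    have hsub : A + G μ p (10000000000000 * (ε * r + V)) ⊆ A' :=
      add_subset_add_left (G_mono hs)
    have hmono := measureReal_mono (μ := μ) hsub (measure_ne_top μ _)
    rw [← ha] at key
    have hep := Real.exp_pos p
    calc 2 * Real.exp p * a * (1 - a')
        ≤ 2 * Real.exp p * a * (1 - μ.real (A + G μ p (10000000000000 * (ε * r + V)))) :=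
          mul_le_mul_of_nonneg_left (by linarith) (by positivity)
      _ ≤ (1 - a) * μ.real (A + G μ p (10000000000000 * (ε * r + V))) := key
      _ ≤ (1 - a) * a' := mul_le_mul_of_nonneg_left hmono hc0.le
  · -- the other sets
    have hexp : Real.exp (-w) = a * (1 - a) := by
      rw [hw, one_div, Real.log_inv, neg_neg, Real.exp_log hac]
    set q := w + p + 2 with hq
    have hq4 : 4 ≤ q := by linarith
    have hq1 : 1 ≤ q := by linarith
    have he2 : (7:ℝ) < Real.exp 2 := by
      have h6 : Real.exp 2 = Real.exp 1 * Real.exp 1 := by rw [← Real.exp_add]; norm_num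
      have h7 := Real.exp_one_gt_d9
      rw [h6]; nlinarith
    have hsplit : Real.exp (-q) * Real.exp 2 * Real.exp p = Real.exp (-w) := by
      rw [← Real.exp_add, ← Real.exp_add]; congr 1; rw [hq]; ring
    have hep := Real.exp_pos p
    have heq := Real.exp_pos (-q)
    have hep1 : 1 ≤ Real.exp p := by
      have := Real.add_one_le_exp p
      linarith
    have h4q : 7 * (Real.exp (-q) * Real.exp p) ≤ Real.exp (-w) := by
      rw [← hsplit]
      have h5 : 0 < Real.exp (-q) * Real.exp p := by positivity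
      nlinarith
    have h4q' : 7 * Real.exp (-q) ≤ Real.exp (-w) := by
      refine le_trans ?_ h4q
      have : Real.exp (-q) * 1 ≤ Real.exp (-q) * Real.exp p :=
        mul_le_mul_of_nonneg_left hep1 heq.le
      linarith
    have haw : Real.exp (-w) ≤ a := by nlinarith
    have hcw : Real.exp (-w) ≤ 1 - a := by nlinarith
    -- a small convex body of large measure
    obtain ⟨M, hMc, hMconv, hMs, hMμ, hMG⟩ := body_q hsym hlc hp hq4 (by linarith : p ≤ q)
    have hAM : 6 * Real.exp (-q) ≤ μ.real (A ∩ M) := by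
      have h1 : A ⊆ (A ∩ M) ∪ Mᶜ := by
        intro x hx
        by_cases hxM : x ∈ M
        · exact Or.inl ⟨hx, hxM⟩
        · exact Or.inr hxM
      have h2 := (measureReal_mono (μ := μ) h1 (measure_ne_top μ _)).trans
        (measureReal_union_le _ _)
      rw [← ha] at h2
      linarith
    obtain ⟨K, hKA, hKc, hK⟩ := exists_compact_real (hAm.inter hMc.measurableSet)
      (show 5 * Real.exp (-q) < μ.real (A ∩ M) by linarith)
    have hKne : K.Nonempty := nonempty_of_real (show 0 < 5 * Real.exp (-q) by positivity) hK.le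
    set K₁ := convexHull ℝ K with hK₁
    have hK₁c : IsCompact K₁ := compact_hull hKc hKne
    have hK₁AM : K₁ ⊆ A ∩ M := convexHull_min hKA (hAconv.inter hMconv)
    have hK₁conv : Convex ℝ K₁ := convex_convexHull ℝ _
    have hK₁m : 5 * Real.exp (-q) ≤ μ.real K₁ :=
      hK.le.trans (measureReal_mono (subset_convexHull ℝ K) (measure_ne_top μ _))
    -- the number of steps
    set m : ℕ := ⌈5 / ε⌉₊ with hmdef
    have h5ε : 5 / ε = 5 * (1 / ε) := by ring
    have hmlow : 5 / ε ≤ (m:ℝ) := Nat.le_ceil (5 / ε)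
    have hmup : (m:ℝ) ≤ 6 / ε := by
      have h5 := Nat.ceil_lt_add_one (show 0 ≤ 5 / ε by linarith)
      have h6 : 6 / ε = 6 * (1 / ε) := by ring
      rw [← hmdef] at h5
      linarith
    have hmr : (2:ℝ) ≤ m := by linarith
    have hm2 : 2 ≤ m := by exact_mod_cast hmr
    have hm0 : (0:ℝ) < (m:ℝ) := by linarith
    have hmε : 5 / (m:ℝ) ≤ ε := by
      rw [div_le_iff₀ hm0]
      have h5 := mul_le_mul_of_nonneg_left hmlow hε0.le
      have h6 : ε * (5 / ε) = 5 := by field_simp
      linarith
    set L := 12 * (m:ℝ) * (q + 3 * Real.log m + 5) with hL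
    have hlog0 : 0 ≤ Real.log m := Real.log_nonneg (by linarith)
    have hlogm : Real.log m ≤ 2 + Real.log (1 / ε) := by
      have h8 : Real.log m ≤ Real.log (6 * (1 / ε)) :=
        Real.log_le_log hm0 (by rw [mul_one_div]; exact hmup)
      rw [Real.log_mul (by norm_num) (by positivity)] at h8
      have := log_six_le
      linarith
    have hqL : q ≤ L := by
      rw [hL]; nlinarith
    have hpL : p ≤ L := by linarith
    have key := enlP hsym hlc (core2_holds hlc m hm2 q hq1)
      (by have : 0 ≤ 5 / (m:ℝ) := by positivity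
          linarith) hq1 hqL hK₁c hK₁conv hK₁m
    rw [← hL] at key
    have eR : (1 + 5 / (m:ℝ) - 1) = 5 / (m:ℝ) := by ring
    rw [eR] at key
    set W := K₁ + (5 / (m:ℝ)) • (K₁ - K₁) + G μ L (2 * Real.exp 1) with hW
    have hTp : T * p = p + (w + Real.log (1 / ε)) := by
      rw [hT, add_mul, div_mul_cancel₀ _ hp0.ne', one_mul]
    have hq7 : q + 3 * Real.log m + 5 ≤ 20 * (T * p) := by
      rw [hTp, hq]
      linarith
    have hwp : w / p ≤ 500 * (1 / ε) := by
      have h8 : w < 500 * p / ε := by rw [lt_div_iff₀ hε0, mul_comm]; exact hcase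
      rw [div_le_iff₀ hp0]
      calc w ≤ 500 * p / ε := h8.le
        _ = 500 * (1 / ε) * p := by ring
    have hTε : T ≤ 504 * (1 / ε) := by
      have h9 : Real.log (1 / ε) ≤ 1 / ε :=
        (Real.log_le_sub_one_of_pos (by positivity)).trans (by linarith)
      have h11 : Real.log (1 / ε) / p ≤ 1 / ε := by
        rw [div_le_iff₀ hp0]; nlinarith
      rw [hT, add_div]
      linarith
    have hLp : L / p ≤ 1440 / ε * T := by
      rw [div_le_iff₀ hp0, hL]
      have h12 : 0 ≤ q + 3 * Real.log m + 5 := by linarith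
      calc 12 * (m:ℝ) * (q + 3 * Real.log m + 5) ≤ 12 * (6 / ε) * (20 * (T * p)) := by gcongr
        _ = 1440 / ε * T * p := by ring
    have hTmin : T ≤ 504 * min (1 / ε) T := by
      rcases le_total (1 / ε) T with h13 | h13
      · rw [min_eq_left h13]; exact hTε
      · rw [min_eq_right h13]; linarith
    have hexp3 : Real.exp 3 ≤ 149 :=
      le_trans (Real.exp_le_exp.2 (by norm_num)) exp_five_le
    set ρ := 600 * Real.sqrt (1 + n / p) + 360 * Real.exp 3 * ((q + 11) / p) with hρ
    have hρ0 : 0 ≤ ρ := by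
      have : 0 ≤ (q + 11) / p := div_nonneg (by linarith) hp0.le
      positivity
    have hερ : ε * ρ ≤ 600 * (ε * r) + 28000000 := by
      have h1 : Real.sqrt (1 + n / p) ≤ 1 + r := by
        rw [Real.sqrt_le_left (by positivity)]
        have h2 : r ^ 2 = n / p := Real.sq_sqrt (by positivity)
        nlinarith
      have h3 : ε * ((q + 11) / p) ≤ 508 := by
        have h4 : (q + 11) / p = 1 + w / p + 13 / p := by
          rw [hq]; field_simp; ring
        have h5 : 13 / p ≤ 7 := by rw [div_le_iff₀ hp0]; linarith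
        have h6 : ε * (w / p) ≤ 500 := by
          have := mul_le_mul_of_nonneg_left hwp hε0.le
          have h7 : ε * (500 * (1 / ε)) = 500 := by field_simp
          linarith
        rw [h4]
        nlinarith
      calc ε * ρ = 600 * (ε * Real.sqrt (1 + n / p)) + 360 * Real.exp 3 * (ε * ((q + 11) / p)) := by
            rw [hρ]; ring
        _ ≤ 600 * (ε * (1 + r)) + 360 * 149 * 508 := by
            apply add_le_add
            · exact mul_le_mul_of_nonneg_left (mul_le_mul_of_nonneg_left h1 hε0.le) (by norm_num)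
            · apply mul_le_mul (by linarith) h3 _ (by norm_num)
              have : 0 ≤ (q + 11) / p := div_nonneg (by linarith) hp0.le
              positivity
        _ ≤ 600 * (ε * r) + 28000000 := by nlinarith
    have hWA' : W ⊆ A' := by
      rintro _ ⟨_, ⟨x, hx, _, ⟨_, ⟨y, hy, z, hz, rfl⟩, rfl⟩, rfl⟩, g, hg, rfl⟩
      refine ⟨x, (hK₁AM hx).1, (5 / (m:ℝ)) • (y - z) + g, ?_, ?_⟩
      · have hy' := hMG (hK₁AM hy).2
        have hz' := hMG (hK₁AM hz).2
        have h8 := exp_five_le
        have h9 : Real.exp 2 * Real.exp 1 ≤ 149 := by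
          rw [← Real.exp_add]
          refine le_trans (Real.exp_le_exp.2 (by norm_num)) h8
        have hLp0 : 0 ≤ L / p := by positivity
        have hg' : g ∈ G μ p (432552960 * V) := by
          refine G_subset hsym hlc (by linarith) hpL (by positivity) ?_ hg
          calc 2 * Real.exp 2 * (L / p) * (2 * Real.exp 1)
              = 4 * (Real.exp 2 * Real.exp 1) * (L / p) := by ring
            _ ≤ 4 * 149 * (1440 / ε * (504 * min (1 / ε) T)) := by
                apply mul_le_mul (by linarith) _ hLp0 (by norm_num)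
                exact hLp.trans (mul_le_mul_of_nonneg_left hTmin (by positivity))
            _ = 432552960 * V := by rw [hV]; ring
        intro v
        have hmv := hm_nonneg (μ := μ) p v
        have h10 : |inner ℝ v (y - z)| ≤ 2 * (ρ * hm μ p v) := by
          rw [inner_sub_right]
          calc |inner ℝ v y - inner ℝ v z| ≤ |inner ℝ v y| + |inner ℝ v z| := abs_sub _ _
            _ ≤ ρ * hm μ p v + ρ * hm μ p v := add_le_add (hy' v) (hz' v)
            _ = 2 * (ρ * hm μ p v) := by ring
        rw [inner_add_right, inner_smul_right]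
        have h5m : 0 ≤ 5 / (m:ℝ) := by positivity
        calc |5 / (m:ℝ) * inner ℝ v (y - z) + inner ℝ v g|
            ≤ |5 / (m:ℝ) * inner ℝ v (y - z)| + |inner ℝ v g| := abs_add_le _ _
          _ = 5 / (m:ℝ) * |inner ℝ v (y - z)| + |inner ℝ v g| := by rw [abs_mul, abs_of_nonneg h5m]
          _ ≤ ε * (2 * (ρ * hm μ p v)) + 432552960 * V * hm μ p v :=
              add_le_add (mul_le_mul hmε h10 (abs_nonneg _) hε0.le) (hg' v)
          _ = (2 * (ε * ρ) + 432552960 * V) * hm μ p v := by ring
          _ ≤ s * hm μ p v := by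
              apply mul_le_mul_of_nonneg_right _ hmv
              refine le_trans ?_ hs
              linarith
      · show x + ((5 / (m:ℝ)) • (y - z) + g) = x + (5 / (m:ℝ)) • (y - z) + g
        rw [add_assoc]
    have hWc : IsCompact W := by
      have hAAc : IsCompact (K₁ - K₁) := by rw [sub_eq_add_neg]; exact hK₁c.add hK₁c.neg
      exact (hK₁c.add (hAAc.smul _)).add (isCompact_G _ _)
    have hcW : μ.real Wᶜ = 1 - μ.real W := by
      rw [measureReal_compl hWc.measurableSet]
      simp
    have hmono := measureReal_mono (μ := μ) hWA' (measure_ne_top μ _)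
    have h1 : 1 - a' ≤ Real.exp (-q) := by linarith
    have h2 : 1 / 2 ≤ a' := by
      have : Real.exp (-w) ≤ 1 := by linarith
      linarith
    calc 2 * Real.exp p * a * (1 - a') ≤ 2 * Real.exp p * 1 * Real.exp (-q) := by
          apply mul_le_mul _ h1 (by linarith) (by positivity)
          exact mul_le_mul_of_nonneg_left ha1 (by positivity)
      _ = 2 * (Real.exp (-q) * Real.exp p) := by ring
      _ ≤ (1 - a) * (1 / 2) := by linarith
      _ ≤ (1 - a) * a' := mul_le_mul_of_nonneg_left h2 hc0.le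

end Pool.CIP
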