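import Pool.Agent.CIP.FF

set_option autoImplicit false

open MeasureTheory Pointwise Set Filter Topology

namespace Pool.CIP

variable {n : ℕ} {μ : Measure (E n)}

/-- a convex body of measure at least `1 - exp (-q)` -/
lemma exists_large_body [IsProbabilityMeasure μ] (hsym : μ.map (fun x => -x) = μ) (hlc : LC μ)
    {K : Set (E n)} (hKc : IsCompact K) (hKconv : Convex ℝ K) (hKs : ∀ x ∈ K, -x ∈ K)
    {p q : ℝ} (hp : 1 ≤ p) (hpq : p ≤ q) (hK : 5 * Real.exp (-q) ≤ μ.real K) :
    ∃ M : Set (E n), IsCompact M ∧ Convex ℝ M ∧ μ.real Mᶜ ≤ Real.exp (-q) ∧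
      ∀ x ∈ M, ∀ y ∈ M, ∃ k ∈ K, ∃ g ∈ G μ p (720 * Real.exp 3 * ((q + 11) / p)),
        x - y = (4:ℝ) • k + g := by
  have hp0 : 0 < p := by linarith
  have hq : 1 ≤ q := by linarith
  have hcore := core2_holds hlc 5 (by norm_num) q hq
  set L := 12 * ((5:ℕ):ℝ) * (q + 3 * Real.log ((5:ℕ):ℝ) + 5) with hL
  have hlog5 : Real.log ((5:ℕ):ℝ) ≤ 2 := by
    refine le_trans (Real.log_le_log (by norm_num) ?_) log_six_le
    norm_num
  have hlog50 : 0 ≤ Real.log ((5:ℕ):ℝ) := Real.log_nonneg (by norm_num)
  have hLq : q ≤ L := by rw [hL]; push_cast at hlog50 ⊢; linarith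
  have hLup : L ≤ 60 * (q + 11) := by rw [hL]; push_cast at hlog5 ⊢; linarith
  have hR : (1 + 5 / ((5:ℕ):ℝ)) = 2 := by norm_num
  rw [hR] at hcore
  have key := enlP_sym hsym hlc hcore le_rfl (by linarith) hLq hKc hKconv hK
  refine ⟨(2:ℝ) • K + G μ L (3 * Real.exp 1), (hKc.smul _).add (isCompact_G _ _),
    (hKconv.smul _).add convex_G, key, ?_⟩
  rintro _ ⟨_, ⟨x, hx, rfl⟩, g, hg, rfl⟩ _ ⟨_, ⟨y, hy, rfl⟩, f, hf, rfl⟩
  refine ⟨(1/2:ℝ) • x + (1/2:ℝ) • (-y), hKconv hx (hKs y hy) (by norm_num) (by norm_num)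
    (by norm_num), g - f, ?_, ?_⟩
  · have hgf : g - f ∈ G μ L (6 * Real.exp 1) := by
      intro v
      rw [inner_sub_right]
      calc |inner ℝ v g - inner ℝ v f| ≤ |inner ℝ v g| + |inner ℝ v f| := abs_sub _ _
        _ ≤ 3 * Real.exp 1 * hm μ L v + 3 * Real.exp 1 * hm μ L v := add_le_add (hg v) (hf v)
        _ = 6 * Real.exp 1 * hm μ L v := by ring
    refine G_subset hsym hlc hp (by linarith) (by positivity) ?_ hgf
    have e3 : Real.exp 3 = Real.exp 2 * Real.exp 1 := by rw [← Real.exp_add]; norm_num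
    have h6 : L / p ≤ 60 * ((q + 11) / p) := by
      rw [div_le_iff₀ hp0]
      have : 60 * ((q + 11) / p) * p = 60 * (q + 11) := by field_simp
      linarith
    calc 2 * Real.exp 2 * (L / p) * (6 * Real.exp 1)
        = 12 * Real.exp 3 * (L / p) := by rw [e3]; ring
      _ ≤ 12 * Real.exp 3 * (60 * ((q + 11) / p)) := mul_le_mul_of_nonneg_left h6 (by positivity)
      _ = 720 * Real.exp 3 * ((q + 11) / p) := by ring
  · show (2:ℝ) • x + g - ((2:ℝ) • y + f) = (4:ℝ) • ((1/2:ℝ) • x + (1/2:ℝ) • (-y)) + (g - f)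
    module

/-- Optimal concentration for all convex sets, up to a small multiple of an arbitrary symmetric
convex body of large measure. -/
theorem main_convex_body [IsProbabilityMeasure μ] (hsym : μ.map (fun x => -x) = μ) (hlc : LC μ)
    {A K : Set (E n)} (hAm : MeasurableSet A) (hAconv : Convex ℝ A)
    (hKc : IsCompact K) (hKconv : Convex ℝ K) (hKs : ∀ x ∈ K, -x ∈ K)
    (hK : min (μ.real A / 2) (1 / 4) ≤ μ.real K) {p : ℝ} (hp : 2 ≤ p)
    {ε : ℝ} (hε0 : 0 < ε) (hε1 : ε ≤ 1) {s : ℝ}
    (hs : 7000000000000 / ε * min (1 / ε) (1 + (Real.log (1 / (μ.real A * (1 - μ.real A))) +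
      Real.log (1 / ε)) / p) ≤ s) :
    2 * Real.exp p * μ.real A * (1 - μ.real (A + ε • K + G μ p s)) ≤
      (1 - μ.real A) * μ.real (A + ε • K + G μ p s) := by
  have hp0 : 0 < p := by linarith
  set A' := A + ε • K + G μ p s with hA'
  set a := μ.real A with ha
  set a' := μ.real A' with ha'
  have ha1 : a ≤ 1 := measureReal_le_one
  have ha'1 : a' ≤ 1 := measureReal_le_one
  have ha'0 : 0 ≤ a' := measureReal_nonneg
  rcases (measureReal_nonneg (μ := μ) (s := A)).eq_or_lt with h0 | hpos
  · rw [← ha] at h0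
    rw [← h0]
    simpa using ha'0
  have hKpos : 0 < μ.real K := lt_of_lt_of_le (lt_min (half_pos hpos) (by norm_num)) hK
  have h0K : (0:E n) ∈ K := by
    obtain ⟨x, hx⟩ : K.Nonempty := nonempty_of_real hKpos le_rfl
    have := hKconv hx (hKs x hx) (by norm_num : (0:ℝ) ≤ 1/2) (by norm_num : (0:ℝ) ≤ 1/2)
      (by norm_num)
    simpa using this
  have hlogε : 0 ≤ Real.log (1 / ε) := Real.log_nonneg (by rw [le_div_iff₀ hε0]; linarith)
  have h1ε : 1 ≤ 1 / ε := by rw [le_div_iff₀ hε0]; linarith
  have hw0' : 0 ≤ Real.log (1 / (a * (1 - a))) := by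
    rcases ha1.eq_or_lt with h1 | hlt
    · rw [h1]; simp
    · have h2 : 0 < a * (1 - a) := mul_pos hpos (by linarith)
      apply Real.log_nonneg
      rw [le_div_iff₀ h2]
      nlinarith
  set w := Real.log (1 / (a * (1 - a))) with hw
  set T := 1 + (w + Real.log (1 / ε)) / p with hT
  have hT1 : 1 ≤ T := by
    have : 0 ≤ (w + Real.log (1 / ε)) / p := by positivity
    linarith
  have hmin1 : 1 ≤ min (1 / ε) T := le_min h1ε hT1
  have hbig : (7000000000000:ℝ) ≤ s := by
    refine le_trans ?_ hs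
    have h2 : (7000000000000:ℝ) ≤ 7000000000000 / ε := by
      rw [le_div_iff₀ hε0]; nlinarith
    calc (7000000000000:ℝ) ≤ 7000000000000 / ε * 1 := by linarith
      _ ≤ _ := mul_le_mul_of_nonneg_left hmin1 (by positivity)
  have hAA' : A ⊆ A' := by
    intro x hx
    exact ⟨x + ε • (0 : E n), ⟨x, hx, _, ⟨0, h0K, rfl⟩, rfl⟩, 0, zero_mem_G (by linarith), by simp⟩
  have haa' : a ≤ a' := measureReal_mono hAA' (measure_ne_top μ _)
  rcases ha1.eq_or_lt with h1 | hlt
  · have h2 : a' = 1 := by linarith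
    rw [h2, h1]; simp
  have hc0 : 0 < 1 - a := by linarith
  have hac : 0 < a * (1 - a) := mul_pos hpos hc0
  rcases le_or_gt (1000 * p) (ε * w) with hcase | hcase
  · -- extreme sets
    have key := main_borel hsym hlc hAm hKc hKconv hKs hK hp (θ := ε)
      (Or.inr (by rw [← ha, ← hw]; exact hcase))
    have hsub : A + ε • K + G μ p 7000000000000 ⊆ A' := add_subset_add_left (G_mono hbig)
    have hmono := measureReal_mono (μ := μ) hsub (measure_ne_top μ _)
    rw [← ha] at key
    have hep := Real.exp_pos p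
    calc 2 * Real.exp p * a * (1 - a')
        ≤ 2 * Real.exp p * a * (1 - μ.real (A + ε • K + G μ p 7000000000000)) :=
          mul_le_mul_of_nonneg_left (by linarith) (by positivity)
      _ ≤ (1 - a) * μ.real (A + ε • K + G μ p 7000000000000) := key
      _ ≤ (1 - a) * a' := mul_le_mul_of_nonneg_left hmono hc0.le
  · -- the other sets
    have hexp : Real.exp (-w) = a * (1 - a) := by
      rw [hw, one_div, Real.log_inv, neg_neg, Real.exp_log hac]
    set q := w + p + 2 with hq
    have hq1 : 1 ≤ q := by linarith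
    have he2 : (7:ℝ) < Real.exp 2 := by
      have h6 : Real.exp 2 = Real.exp 1 * Real.exp 1 := by rw [← Real.exp_add]; norm_num
      have h7 := Real.exp_one_gt_d9
      rw [h6]; nlinarith
    have hsplit : Real.exp (-q) * Real.exp 2 * Real.exp p = Real.exp (-w) := by
      rw [← Real.exp_add, ← Real.exp_add]; congr 1; rw [hq]; ring
    have hep := Real.exp_pos p
    have heq := Real.exp_pos (-q)
    have hep3 : 3 ≤ Real.exp p := by
      have := Real.add_one_le_exp p
      linarith
    have h4q : 7 * (Real.exp (-q) * Real.exp p) ≤ Real.exp (-w) := by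
      rw [← hsplit]
      have h5 : 0 < Real.exp (-q) * Real.exp p := by positivity
      nlinarith
    have h4q' : 21 * Real.exp (-q) ≤ Real.exp (-w) := by
      refine le_trans ?_ h4q
      have : Real.exp (-q) * 3 ≤ Real.exp (-q) * Real.exp p :=
        mul_le_mul_of_nonneg_left hep3 heq.le
      linarith
    have haw : Real.exp (-w) ≤ a := by nlinarith
    have hcw : Real.exp (-w) ≤ 1 - a := by nlinarith
    -- a convex body of large measure
    have hK5 : 5 * Real.exp (-q) ≤ μ.real K := by
      refine le_trans (le_min ?_ ?_) hK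
      · linarith
      · have : Real.exp (-w) ≤ 1 := by linarith
        linarith
    obtain ⟨M, hMc, hMconv, hMμ, hMM⟩ := exists_large_body hsym hlc hKc hKconv hKs
      (show 1 ≤ p by linarith) (by linarith : p ≤ q) hK5
    have hAM : 6 * Real.exp (-q) ≤ μ.real (A ∩ M) := by
      have h1 : A ⊆ (A ∩ M) ∪ Mᶜ := by
        intro x hx
        by_cases hxM : x ∈ M
        · exact Or.inl ⟨hx, hxM⟩
        · exact Or.inr hxM
      have h2 := (measureReal_mono (μ := μ) h1 (measure_ne_top μ _)).trans
        (measureReal_union_le _ _)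
      rw [← ha] at h2
      linarith
    obtain ⟨K₀, hKA, hK₀c, hK₀⟩ := exists_compact_real (hAm.inter hMc.measurableSet)
      (show 5 * Real.exp (-q) < μ.real (A ∩ M) by linarith)
    have hK₀ne : K₀.Nonempty := nonempty_of_real (show 0 < 5 * Real.exp (-q) by positivity) hK₀.le
    set K₁ := convexHull ℝ K₀ with hK₁
    have hK₁c : IsCompact K₁ := compact_hull hK₀c hK₀ne
    have hK₁AM : K₁ ⊆ A ∩ M := convexHull_min hKA (hAconv.inter hMconv)
    have hK₁conv : Convex ℝ K₁ := convex_convexHull ℝ _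
    have hK₁m : 5 * Real.exp (-q) ≤ μ.real K₁ :=
      hK₀.le.trans (measureReal_mono (subset_convexHull ℝ K₀) (measure_ne_top μ _))
    -- the number of steps
    set m : ℕ := ⌈20 / ε⌉₊ with hmdef
    have h5ε : 20 / ε = 20 * (1 / ε) := by ring
    have hmlow : 20 / ε ≤ (m:ℝ) := Nat.le_ceil (20 / ε)
    have hmup : (m:ℝ) ≤ 21 / ε := by
      have h5 := Nat.ceil_lt_add_one (show 0 ≤ 20 / ε by linarith)
      have h6 : 21 / ε = 21 * (1 / ε) := by ring
      rw [← hmdef] at h5
      linarith
    have hmr : (2:ℝ) ≤ m := by linarith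
    have hm2 : 2 ≤ m := by exact_mod_cast hmr
    have hm0 : (0:ℝ) < (m:ℝ) := by linarith
    have hmε : 20 / (m:ℝ) ≤ ε := by
      rw [div_le_iff₀ hm0]
      have h5 := mul_le_mul_of_nonneg_left hmlow hε0.le
      have h6 : ε * (20 / ε) = 20 := by field_simp
      linarith
    set L := 12 * (m:ℝ) * (q + 3 * Real.log m + 5) with hL
    have hlog0 : 0 ≤ Real.log m := Real.log_nonneg (by linarith)
    have hlogm : Real.log m ≤ 4 + Real.log (1 / ε) := by
      have h8 : Real.log m ≤ Real.log (36 * (1 / ε)) := by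
        refine Real.log_le_log hm0 (hmup.trans ?_)
        rw [mul_one_div]
        exact div_le_div_of_nonneg_right (by norm_num) hε0.le
      rw [Real.log_mul (by norm_num) (by positivity)] at h8
      have h9 : Real.log 36 = 2 * Real.log 6 := by
        rw [show (36:ℝ) = 6 ^ 2 by norm_num, Real.log_pow]; norm_num
      have := log_six_le
      linarith
    have hqL : q ≤ L := by
      rw [hL]; nlinarith
    have hpL : p ≤ L := by linarith
    have key := enlP hsym hlc (core2_holds hlc m hm2 q hq1)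
      (by have : 0 ≤ 5 / (m:ℝ) := by positivity
          linarith) hq1 hqL hK₁c hK₁conv hK₁m
    rw [← hL] at key
    have eR : (1 + 5 / (m:ℝ) - 1) = 5 / (m:ℝ) := by ring
    rw [eR] at key
    set W := K₁ + (5 / (m:ℝ)) • (K₁ - K₁) + G μ L (2 * Real.exp 1) with hW
    have hTp : T * p = p + (w + Real.log (1 / ε)) := by
      rw [hT, add_mul, div_mul_cancel₀ _ hp0.ne', one_mul]
    have hq7 : q + 3 * Real.log m + 5 ≤ 20 * (T * p) := by
      rw [hTp, hq]
      linarith
    have hwp : w / p ≤ 1000 * (1 / ε) := by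
      have h8 : w < 1000 * p / ε := by rw [lt_div_iff₀ hε0, mul_comm]; exact hcase
      rw [div_le_iff₀ hp0]
      calc w ≤ 1000 * p / ε := h8.le
        _ = 1000 * (1 / ε) * p := by ring
    have hTε : T ≤ 1002 * (1 / ε) := by
      have h9 : Real.log (1 / ε) ≤ 1 / ε :=
        (Real.log_le_sub_one_of_pos (by positivity)).trans (by linarith)
      have h11 : Real.log (1 / ε) / p ≤ 1 / ε := by
        rw [div_le_iff₀ hp0]; nlinarith
      rw [hT, add_div]
      linarith
    have hLp : L / p ≤ 5040 / ε * T := by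
      rw [div_le_iff₀ hp0, hL]
      have h12 : 0 ≤ q + 3 * Real.log m + 5 := by linarith
      calc 12 * (m:ℝ) * (q + 3 * Real.log m + 5) ≤ 12 * (21 / ε) * (20 * (T * p)) := by gcongr
        _ = 5040 / ε * T * p := by ring
    have hTmin : T ≤ 1002 * min (1 / ε) T := by
      rcases le_total (1 / ε) T with h13 | h13
      · rw [min_eq_left h13]; exact hTε
      · rw [min_eq_right h13]; linarith
    have he21 : Real.exp 2 * Real.exp 1 ≤ 149 := by
      rw [← Real.exp_add]
      exact le_trans (Real.exp_le_exp.2 (by norm_num)) exp_five_le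
    have hexp3 : Real.exp 3 ≤ 149 :=
      le_trans (Real.exp_le_exp.2 (by norm_num)) exp_five_le
    have hεq : ε * ((q + 11) / p) ≤ 1008 := by
      have h4 : (q + 11) / p = 1 + w / p + 13 / p := by
        rw [hq]; field_simp; ring
      have h5 : 13 / p ≤ 7 := by rw [div_le_iff₀ hp0]; linarith
      have h6 : ε * (w / p) ≤ 1000 := by
        have := mul_le_mul_of_nonneg_left hwp hε0.le
        have h7 : ε * (1000 * (1 / ε)) = 1000 := by field_simp
        linarith
      rw [h4]
      nlinarith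
    have hV1 : 1 ≤ 1 / ε * min (1 / ε) T := by nlinarith
    have hWA' : W ⊆ A' := by
      rintro _ ⟨_, ⟨x, hx, _, ⟨_, ⟨y, hy, z, hz, rfl⟩, rfl⟩, rfl⟩, g, hg, rfl⟩
      obtain ⟨k, hk, f, hf, hyz⟩ := hMM y (hK₁AM hy).2 z (hK₁AM hz).2
      have hLp0 : 0 ≤ L / p := by positivity
      have hqp0 : 0 ≤ (q + 11) / p := div_nonneg (by linarith) hp0.le
      have h5m : 0 ≤ 5 / (m:ℝ) := by positivity
      have h5mε : 5 / (m:ℝ) ≤ ε := by
        refine le_trans ?_ hmε
        exact div_le_div_of_nonneg_right (by norm_num) hm0.le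
      have hg' : g ∈ G μ p (4 * 149 * (5040 / ε * (1002 * min (1 / ε) T))) := by
        refine G_subset hsym hlc (by linarith) hpL (by positivity) ?_ hg
        calc 2 * Real.exp 2 * (L / p) * (2 * Real.exp 1)
            = 4 * (Real.exp 2 * Real.exp 1) * (L / p) := by ring
          _ ≤ 4 * 149 * (5040 / ε * (1002 * min (1 / ε) T)) := by
              apply mul_le_mul (by linarith) _ hLp0 (by norm_num)
              exact hLp.trans (mul_le_mul_of_nonneg_left hTmin (by positivity))
      have hf' : (5 / (m:ℝ)) • f ∈ G μ p (5 / (m:ℝ) * (720 * Real.exp 3 * ((q + 11) / p))) :=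
        smul_mem_G h5m hf
      refine ⟨x + (20 / (m:ℝ)) • k, ⟨x, (hK₁AM hx).1, _,
        smul_mem_dil hKconv h0K (by positivity) hmε hε0 hk, rfl⟩, (5 / (m:ℝ)) • f + g, ?_, ?_⟩
      · intro v
        have hmv := hm_nonneg (μ := μ) p v
        rw [inner_add_right]
        calc |inner ℝ v ((5 / (m:ℝ)) • f) + inner ℝ v g|
            ≤ |inner ℝ v ((5 / (m:ℝ)) • f)| + |inner ℝ v g| := abs_add_le _ _
          _ ≤ 5 / (m:ℝ) * (720 * Real.exp 3 * ((q + 11) / p)) * hm μ p v +
              4 * 149 * (5040 / ε * (1002 * min (1 / ε) T)) * hm μ p v :=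
              add_le_add (hf' v) (hg' v)
          _ ≤ 720 * 149 * 1008 * hm μ p v +
              4 * 149 * (5040 / ε * (1002 * min (1 / ε) T)) * hm μ p v := by
              apply add_le_add _ le_rfl
              apply mul_le_mul_of_nonneg_right _ hmv
              calc 5 / (m:ℝ) * (720 * Real.exp 3 * ((q + 11) / p))
                  ≤ ε * (720 * Real.exp 3 * ((q + 11) / p)) :=
                    mul_le_mul_of_nonneg_right h5mε (by positivity)
                _ = 720 * Real.exp 3 * (ε * ((q + 11) / p)) := by ring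
                _ ≤ 720 * 149 * 1008 := by
                    apply mul_le_mul (by linarith) hεq (by positivity) (by norm_num)
          _ = (720 * 149 * 1008 + 3009928 * 1000 * (1 / ε * min (1 / ε) T) +
              (4 * 149 * 5040 * 1002 - 3009928 * 1000) * (1 / ε * min (1 / ε) T)) * hm μ p v := by
              ring
          _ ≤ s * hm μ p v := by
              apply mul_le_mul_of_nonneg_right _ hmv
              refine le_trans ?_ hs
              have e9 : 7000000000000 / ε * min (1 / ε) T =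
                7000000000000 * (1 / ε * min (1 / ε) T) := by ring
              rw [e9]
              linarith
      · show x + (20 / (m:ℝ)) • k + ((5 / (m:ℝ)) • f + g) = x + (5 / (m:ℝ)) • (y - z) + g
        rw [hyz]
        have e10 : (20 / (m:ℝ)) • k = (5 / (m:ℝ)) • ((4:ℝ) • k) := by
          rw [smul_smul]; congr 1; ring
        rw [e10]
        module
    have hWc : IsCompact W := by
      have hAAc : IsCompact (K₁ - K₁) := by rw [sub_eq_add_neg]; exact hK₁c.add hK₁c.neg
      exact (hK₁c.add (hAAc.smul _)).add (isCompact_G _ _)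
    have hcW : μ.real Wᶜ = 1 - μ.real W := by
      rw [measureReal_compl hWc.measurableSet]
      simp
    have hmono := measureReal_mono (μ := μ) hWA' (measure_ne_top μ _)
    have h1 : 1 - a' ≤ Real.exp (-q) := by linarith
    have h2 : 1 / 2 ≤ a' := by
      have : Real.exp (-w) ≤ 1 := by linarith
      linarith
    calc 2 * Real.exp p * a * (1 - a') ≤ 2 * Real.exp p * 1 * Real.exp (-q) := by
          apply mul_le_mul _ h1 (by linarith) (by positivity)
          exact mul_le_mul_of_nonneg_left ha1 (by positivity)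
      _ = 2 * (Real.exp (-q) * Real.exp p) := by ring
      _ ≤ (1 - a) * (1 / 2) := by linarith
      _ ≤ (1 - a) * a' := mul_le_mul_of_nonneg_left h2 hc0.le

end Pool.CIP
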