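import Pool.Agent.CIP.FJ

set_option autoImplicit false

open MeasureTheory Pointwise Set Filter Topology

namespace Pool.CIP

variable {n : ℕ} {μ : Measure (E n)}

/-- small convex sets: interpolation with a translate of a small body -/
theorem convex_body_small [IsProbabilityMeasure μ] (hsym : μ.map (fun x => -x) = μ) (hlc : LC μ)
    {A K : Set (E n)} (hAm : MeasurableSet A) (hAconv : Convex ℝ A)
    (hKc : IsCompact K) (hKconv : Convex ℝ K) (hKs : ∀ x ∈ K, -x ∈ K)
    (hK : min (μ.real A / 2) (1 / 4) ≤ μ.real K) {p : ℝ} (hp : 2 ≤ p)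
    {ε : ℝ} (hε0 : 0 < ε) (hε1 : ε ≤ 1) {s : ℝ} (hpos : 0 < μ.real A)
    (hu : 4 * p ≤ -Real.log (μ.real A))
    (hs : 4000000000 / ε * (1 + Real.log (1 / ε) / p) ≤ s) :
    2 * Real.exp p * μ.real A * (1 - μ.real (A + ε • K + G μ p s)) ≤
      (1 - μ.real A) * μ.real (A + ε • K + G μ p s) := by
  have hp0 : 0 < p := by linarith
  set A' := A + ε • K + G μ p s with hA'
  set a := μ.real A with ha
  set a' := μ.real A' with ha'
  have ha1 : a ≤ 1 := measureReal_le_one
  have ha'1 : a' ≤ 1 := measureReal_le_one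
  have ha'0 : 0 ≤ a' := measureReal_nonneg
  set u := -Real.log a with hudef
  have hau : a = Real.exp (-u) := by rw [hudef, neg_neg, Real.exp_log hpos]
  have hu8 : 8 ≤ u := by linarith
  have hu0 : 0 < u := by linarith
  have hlogε : 0 ≤ Real.log (1 / ε) := Real.log_nonneg (by rw [le_div_iff₀ hε0]; linarith)
  have h1ε : 1 ≤ 1 / ε := by rw [le_div_iff₀ hε0]; linarith
  -- exponentials
  have he1 := Real.exp_one_gt_d9
  have he3 : (20:ℝ) < Real.exp 3 := by
    have h6 : Real.exp 3 = Real.exp 1 ^ 3 := by rw [← Real.exp_nat_mul]; norm_num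
    have h8 : (2.7182818283 : ℝ) ^ 3 ≤ Real.exp 1 ^ 3 := by gcongr
    have h7 : (20:ℝ) < 2.7182818283 ^ 3 := by norm_num
    rw [h6]; linarith
  set q := u + 3 with hq
  have hq1 : 1 ≤ q := by linarith
  have heq := Real.exp_pos (-q)
  have haq : 20 * Real.exp (-q) ≤ a := by
    have h1 : a = Real.exp (-q) * Real.exp 3 := by
      rw [hau, ← Real.exp_add]; congr 1; rw [hq]; ring
    rw [h1]; nlinarith
  have ha4 : a ≤ 1 / 20 := by
    have h1 : Real.exp (-u) ≤ Real.exp (-3) := Real.exp_le_exp.2 (by linarith)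
    have h2 : Real.exp (-3) * Real.exp 3 = 1 := by rw [← Real.exp_add]; simp
    have h3 := Real.exp_pos (-3)
    rw [hau]; nlinarith
  have hKpos : 0 < μ.real K := lt_of_lt_of_le (lt_min (half_pos hpos) (by norm_num)) hK
  have h0K : (0:E n) ∈ K := by
    obtain ⟨x, hx⟩ : K.Nonempty := nonempty_of_real hKpos le_rfl
    have := hKconv hx (hKs x hx) (by norm_num : (0:ℝ) ≤ 1/2) (by norm_num : (0:ℝ) ≤ 1/2)
      (by norm_num)
    simpa using this
  have hK5 : 5 * Real.exp (-q) ≤ μ.real K := by
    refine le_trans (le_min ?_ ?_) hK <;> linarith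
  obtain ⟨M, hMc, hMconv, hMμ, hMM⟩ := exists_large_body hsym hlc hKc hKconv hKs
    (show 1 ≤ p by linarith) (by linarith : p ≤ q) hK5
  have hAM : a / 2 < μ.real (A ∩ M) := by
    have h1 : A ⊆ (A ∩ M) ∪ Mᶜ := by
      intro x hx
      by_cases hxM : x ∈ M
      · exact Or.inl ⟨hx, hxM⟩
      · exact Or.inr hxM
    have h2 := (measureReal_mono (μ := μ) h1 (measure_ne_top μ _)).trans
      (measureReal_union_le _ _)
    rw [← ha] at h2
    linarith
  obtain ⟨K₀, hKA, hK₀c, hK₀⟩ := exists_compact_real (hAm.inter hMc.measurableSet) hAM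
  have hK₀ne : K₀.Nonempty := nonempty_of_real (show 0 < a / 2 by linarith) hK₀.le
  set K₁ := convexHull ℝ K₀ with hK₁
  have hK₁c : IsCompact K₁ := compact_hull hK₀c hK₀ne
  have hK₁AM : K₁ ⊆ A ∩ M := convexHull_min hKA (hAconv.inter hMconv)
  have hK₁conv : Convex ℝ K₁ := convex_convexHull ℝ _
  have hK₁m : a / 2 ≤ μ.real K₁ :=
    hK₀.le.trans (measureReal_mono (subset_convexHull ℝ K₀) (measure_ne_top μ _))
  -- the number of steps
  set m : ℕ := ⌈20 / ε⌉₊ with hmdef
  have h5ε : 20 / ε = 20 * (1 / ε) := by ring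
  have hmlow : 20 / ε ≤ (m:ℝ) := Nat.le_ceil (20 / ε)
  have hmup : (m:ℝ) ≤ 21 / ε := by
    have h5 := Nat.ceil_lt_add_one (show 0 ≤ 20 / ε by linarith)
    have h6 : 21 / ε = 21 * (1 / ε) := by ring
    rw [← hmdef] at h5
    linarith
  have hmr : (2:ℝ) ≤ m := by linarith
  have hm2 : 2 ≤ m := by exact_mod_cast hmr
  have hm0 : (0:ℝ) < (m:ℝ) := by linarith
  have hmε : 20 / (m:ℝ) ≤ ε := by
    rw [div_le_iff₀ hm0]
    have h5 := mul_le_mul_of_nonneg_left hmlow hε0.le
    have h6 : ε * (20 / ε) = 20 := by field_simp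
    linarith
  set L := 12 * (m:ℝ) * (q + 3 * Real.log m + 5) with hL
  have hlog0 : 0 ≤ Real.log m := Real.log_nonneg (by linarith)
  have hlogm : Real.log m ≤ 4 + Real.log (1 / ε) := by
    have h8 : Real.log m ≤ Real.log (36 * (1 / ε)) := by
      refine Real.log_le_log hm0 (hmup.trans ?_)
      rw [mul_one_div]
      exact div_le_div_of_nonneg_right (by norm_num) hε0.le
    rw [Real.log_mul (by norm_num) (by positivity)] at h8
    have h9 : Real.log 36 = 2 * Real.log 6 := by
      rw [show (36:ℝ) = 6 ^ 2 by norm_num, Real.log_pow]; norm_num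
    have := log_six_le
    linarith
  have hqL : q ≤ L := by
    rw [hL]; nlinarith
  have hpL : p ≤ L := by linarith
  have key := enlP hsym hlc (core2_holds hlc m hm2 q hq1)
    (by have : 0 ≤ 5 / (m:ℝ) := by positivity
        linarith) hq1 hqL hK₁c hK₁conv (by linarith)
  rw [← hL] at key
  have eR : (1 + 5 / (m:ℝ) - 1) = 5 / (m:ℝ) := by ring
  rw [eR] at key
  set W := K₁ + (5 / (m:ℝ)) • (K₁ - K₁) + G μ L (2 * Real.exp 1) with hW
  have hWc : IsCompact W := by
    have hAAc : IsCompact (K₁ - K₁) := by rw [sub_eq_add_neg]; exact hK₁c.add hK₁c.neg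
    exact (hK₁c.add (hAAc.smul _)).add (isCompact_G _ _)
  have hcW : μ.real Wᶜ = 1 - μ.real W := by
    rw [measureReal_compl hWc.measurableSet]
    simp
  have hW2 : 1 / 2 ≤ μ.real W := by linarith
  -- the interpolation parameter
  set lam := (p + 3) / u with hlam
  have hlam0 : 0 < lam := by positivity
  have hlam1 : lam < 1 := by rw [hlam, div_lt_one hu0]; linarith
  have hlamu : lam * u = p + 3 := by rw [hlam]; field_simp
  set T := 1 + Real.log (1 / ε) / p with hT
  have hT1 : 1 ≤ T := by
    have : 0 ≤ Real.log (1 / ε) / p := by positivity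
    linarith
  have hlamq : lam * ((q + 11) / p) ≤ 7 := by
    have h1 : lam * ((q + 11) / p) = ((p + 3) / p) * (1 + 14 / u) := by
      rw [hlam, hq]; field_simp; ring
    have h2 : (p + 3) / p ≤ 5 / 2 := by rw [div_le_iff₀ hp0]; linarith
    have h3 : 1 + 14 / u ≤ 14 / 5 := by
      have : 14 / u ≤ 9 / 5 := by rw [div_le_iff₀ hu0]; linarith
      linarith
    rw [h1]
    calc (p + 3) / p * (1 + 14 / u) ≤ 5 / 2 * (14 / 5) :=
          mul_le_mul h2 h3 (by positivity) (by norm_num)
      _ = 7 := by norm_num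
  have hlamL : lam * (L / p) ≤ 3150 / ε * T := by
    have h1 : lam * (L / p) = 12 * (m:ℝ) * ((p + 3) / p) * ((q + 3 * Real.log m + 5) / u) := by
      rw [hlam, hL]; field_simp
    have h2 : (p + 3) / p ≤ 5 / 2 := by rw [div_le_iff₀ hp0]; linarith
    have h3 : (q + 3 * Real.log m + 5) / u ≤ 5 * T := by
      have h4 : Real.log (1 / ε) / u ≤ Real.log (1 / ε) / p / 4 := by
        rw [div_div]
        exact div_le_div_of_nonneg_left hlogε (by positivity) (by linarith)
      have h5 : (q + 3 * Real.log m + 5) / u ≤ (u + 20 + 3 * Real.log (1 / ε)) / u :=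
        div_le_div_of_nonneg_right (by rw [hq]; linarith) hu0.le
      have h6 : (u + 20 + 3 * Real.log (1 / ε)) / u = 1 + 20 / u + 3 * (Real.log (1 / ε) / u) := by
        field_simp
      have h7 : 20 / u ≤ 5 / 2 := by rw [div_le_iff₀ hu0]; linarith
      have h8 : 0 ≤ Real.log (1 / ε) / p := by positivity
      rw [h6] at h5
      rw [hT]
      linarith
    rw [h1]
    have h9 : 0 ≤ (q + 3 * Real.log m + 5) / u := div_nonneg (by linarith) hu0.le
    calc 12 * (m:ℝ) * ((p + 3) / p) * ((q + 3 * Real.log m + 5) / u)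
        ≤ 12 * (21 / ε) * (5 / 2) * (5 * T) := by gcongr
      _ = 3150 / ε * T := by ring
  have he21 : Real.exp 2 * Real.exp 1 ≤ 149 := by
    rw [← Real.exp_add]
    exact le_trans (Real.exp_le_exp.2 (by norm_num)) exp_five_le
  have hexp3 : Real.exp 3 ≤ 149 :=
    le_trans (Real.exp_le_exp.2 (by norm_num)) exp_five_le
  have hV1 : 1 ≤ 1 / ε * T := by nlinarith
  have key3 := hlc.closed hK₁c.isClosed hWc.isClosed (t := 1 - lam) (by linarith) (by linarith)
    (U := A') (by
      rintro x hx _ ⟨_, ⟨k₁, hk₁, _, ⟨_, ⟨y, hy, z, hz, rfl⟩, rfl⟩, rfl⟩, g, hg, rfl⟩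
      obtain ⟨k, hk, f, hf, hyz⟩ := hMM y (hK₁AM hy).2 z (hK₁AM hz).2
      have hx' : (1 - lam) • x + lam • k₁ ∈ A :=
        hAconv (hK₁AM hx).1 (hK₁AM hk₁).1 (by linarith) hlam0.le (by ring)
      have hLp0 : 0 ≤ L / p := by positivity
      have hqp0 : 0 ≤ (q + 11) / p := div_nonneg (by linarith) hp0.le
      have h5m : 0 ≤ 5 / (m:ℝ) := by positivity
      have h5m1 : 5 / (m:ℝ) ≤ 1 := by
        refine le_trans ?_ (hmε.trans hε1)
        exact div_le_div_of_nonneg_right (by norm_num) hm0.le
      have hg' : lam • g ∈ G μ p (4 * 149 * (3150 / ε * T)) := by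
        refine G_subset hsym hlc (by linarith) hpL (by positivity) ?_ (smul_mem_G hlam0.le hg)
        calc 2 * Real.exp 2 * (L / p) * (lam * (2 * Real.exp 1))
            = 4 * (Real.exp 2 * Real.exp 1) * (lam * (L / p)) := by ring
          _ ≤ 4 * 149 * (3150 / ε * T) := by
              apply mul_le_mul (by linarith) hlamL (by positivity) (by norm_num)
      have hf' : (lam * (5 / (m:ℝ))) • f ∈ G μ p
          (lam * (5 / (m:ℝ)) * (720 * Real.exp 3 * ((q + 11) / p))) :=
        smul_mem_G (by positivity) hf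
      refine ⟨(1 - lam) • x + lam • k₁ + (lam * (20 / (m:ℝ))) • k, ⟨_, hx', _,
        smul_mem_dil hKconv h0K (by positivity) ?_ hε0 hk, rfl⟩,
        (lam * (5 / (m:ℝ))) • f + lam • g, ?_, ?_⟩
      · calc lam * (20 / (m:ℝ)) ≤ 1 * (20 / (m:ℝ)) :=
              mul_le_mul_of_nonneg_right hlam1.le (by positivity)
          _ ≤ ε := by linarith
      · intro v
        have hmv := hm_nonneg (μ := μ) p v
        rw [inner_add_right]
        calc |inner ℝ v ((lam * (5 / (m:ℝ))) • f) + inner ℝ v (lam • g)|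
            ≤ |inner ℝ v ((lam * (5 / (m:ℝ))) • f)| + |inner ℝ v (lam • g)| := abs_add_le _ _
          _ ≤ lam * (5 / (m:ℝ)) * (720 * Real.exp 3 * ((q + 11) / p)) * hm μ p v +
              4 * 149 * (3150 / ε * T) * hm μ p v :=
              add_le_add (hf' v) (hg' v)
          _ ≤ 720 * 149 * 7 * hm μ p v + 4 * 149 * (3150 / ε * T) * hm μ p v := by
              apply add_le_add _ le_rfl
              apply mul_le_mul_of_nonneg_right _ hmv
              calc lam * (5 / (m:ℝ)) * (720 * Real.exp 3 * ((q + 11) / p))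
                  = (5 / (m:ℝ)) * (720 * Real.exp 3 * (lam * ((q + 11) / p))) := by ring
                _ ≤ 1 * (720 * Real.exp 3 * (lam * ((q + 11) / p))) :=
                    mul_le_mul_of_nonneg_right h5m1 (by positivity)
                _ = 720 * Real.exp 3 * (lam * ((q + 11) / p)) := by ring
                _ ≤ 720 * 149 * 7 := by
                    apply mul_le_mul (by linarith) hlamq (by positivity) (by norm_num)
          _ = (720 * 149 * 7 + 4 * 149 * 3150 * (1 / ε * T)) * hm μ p v := by ring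
          _ ≤ s * hm μ p v := by
              apply mul_le_mul_of_nonneg_right _ hmv
              refine le_trans ?_ hs
              have e9 : 4000000000 / ε * T = 4000000000 * (1 / ε * T) := by ring
              rw [e9]
              linarith
      · have e10 : (1 - (1 - lam)) = lam := by ring
        rw [e10]
        show (1 - lam) • x + lam • k₁ + (lam * (20 / (m:ℝ))) • k +
          ((lam * (5 / (m:ℝ))) • f + lam • g) =
            (1 - lam) • x + lam • (k₁ + (5 / (m:ℝ)) • (y - z) + g)
        rw [hyz]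
        have e11 : (lam * (20 / (m:ℝ))) • k = (lam * (5 / (m:ℝ))) • ((4:ℝ) • k) := by
          rw [smul_smul]; congr 1; ring
        rw [e11]
        module)
  have key2 := ENNReal.toReal_mono (measure_ne_top μ _) key3
  rw [ENNReal.toReal_mul, ← ENNReal.toReal_rpow, ← ENNReal.toReal_rpow] at key2
  have key4 : μ.real K₁ ^ (1 - lam) * μ.real W ^ (1 - (1 - lam)) ≤ a' := key2
  have e1 : 1 - (1 - lam) = lam := by ring
  rw [e1] at key4
  have h1 : (a / 2) ^ (1 - lam) * (1 / 2 : ℝ) ^ lam ≤ a' := by
    refine le_trans ?_ key4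
    apply mul_le_mul
    · exact Real.rpow_le_rpow (by positivity) hK₁m (by linarith)
    · exact Real.rpow_le_rpow (by norm_num) hW2 hlam0.le
    · positivity
    · positivity
  have h2 : (a / 2) ^ (1 - lam) * (1 / 2 : ℝ) ^ lam = a ^ (1 - lam) / 2 := by
    rw [div_eq_mul_one_div a, Real.mul_rpow hpos.le (by norm_num), mul_assoc,
      ← Real.rpow_add (by norm_num)]
    have : 1 - lam + lam = 1 := by ring
    rw [this, Real.rpow_one]
    ring
  have h3 : a ^ (1 - lam) = a * (Real.exp p * Real.exp 3) := by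
    rw [hau, ← Real.exp_mul, ← Real.exp_add, ← Real.exp_add]
    congr 1
    linear_combination hlamu
  rw [h2, h3] at h1
  have hep := Real.exp_pos p
  have h5 : 10 * (Real.exp p * a) ≤ a' := by
    have h6 : 0 < Real.exp p * a := by positivity
    nlinarith
  have h8 : 2 * Real.exp p * a * (1 - a') ≤ 2 * Real.exp p * a := by
    have : 0 ≤ 2 * Real.exp p * a := by positivity
    nlinarith
  have h9 : a' / 2 ≤ (1 - a) * a' := by nlinarith
  linarith

/-- **Optimal concentration for all convex sets**, up to an arbitrarily small multiple of an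
arbitrary symmetric convex body of large measure. -/
theorem main_convex_final [IsProbabilityMeasure μ] (hsym : μ.map (fun x => -x) = μ) (hlc : LC μ)
    {A K : Set (E n)} (hAm : MeasurableSet A) (hAconv : Convex ℝ A)
    (hKc : IsCompact K) (hKconv : Convex ℝ K) (hKs : ∀ x ∈ K, -x ∈ K)
    (hK : min (μ.real A / 2) (1 / 4) ≤ μ.real K) {p : ℝ} (hp : 2 ≤ p)
    {ε : ℝ} (hε0 : 0 < ε) (hε1 : ε ≤ 1) {s : ℝ}
    (hs : 7000000000000 / ε * min (1 / ε) (1 + (Real.log (1 / (1 - μ.real A)) +
      Real.log (1 / ε)) / p) ≤ s) :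
    2 * Real.exp p * μ.real A * (1 - μ.real (A + ε • K + G μ p s)) ≤
      (1 - μ.real A) * μ.real (A + ε • K + G μ p s) := by
  have hp0 : 0 < p := by linarith
  have ha1 : μ.real A ≤ 1 := measureReal_le_one
  rcases (measureReal_nonneg (μ := μ) (s := A)).eq_or_lt with h0 | hpos
  · rw [← h0]
    simp
  have hlogε : 0 ≤ Real.log (1 / ε) := Real.log_nonneg (by rw [le_div_iff₀ hε0]; linarith)
  have h1ε : 1 ≤ 1 / ε := by rw [le_div_iff₀ hε0]; linarith
  have hwc : 0 ≤ Real.log (1 / (1 - μ.real A)) := by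
    rcases ha1.eq_or_lt with h1 | hlt
    · rw [h1]; simp
    · apply Real.log_nonneg
      rw [le_div_iff₀ (by linarith)]
      linarith
  have hw0 : 0 ≤ Real.log (1 / (μ.real A * (1 - μ.real A))) := by
    rcases ha1.eq_or_lt with h1 | hlt
    · rw [h1]; simp
    · have h2 : 0 < μ.real A * (1 - μ.real A) := mul_pos hpos (by linarith)
      apply Real.log_nonneg
      rw [le_div_iff₀ h2]
      nlinarith
  set T := 1 + (Real.log (1 / (1 - μ.real A)) + Real.log (1 / ε)) / p with hT
  have hT1 : 1 ≤ T := by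
    have : 0 ≤ (Real.log (1 / (1 - μ.real A)) + Real.log (1 / ε)) / p := by positivity
    linarith
  have hmin1 : 1 ≤ min (1 / ε) T := le_min h1ε hT1
  have hlogp : Real.log (1 / ε) / p ≤ (1 / ε - 1) / 2 := by
    have h9 : Real.log (1 / ε) ≤ 1 / ε - 1 := Real.log_le_sub_one_of_pos (by positivity)
    calc Real.log (1 / ε) / p ≤ Real.log (1 / ε) / 2 :=
          div_le_div_of_nonneg_left hlogε (by norm_num) hp
      _ ≤ (1 / ε - 1) / 2 := by linarith
  have hTlog : 1 + Real.log (1 / ε) / p ≤ min (1 / ε) T := by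
    refine le_min (by linarith) ?_
    rw [hT, add_div]
    have : 0 ≤ Real.log (1 / (1 - μ.real A)) / p := by positivity
    linarith
  rcases le_or_gt (4 * p) (-Real.log (μ.real A)) with hu | hu
  · refine convex_body_small hsym hlc hAm hAconv hKc hKconv hKs hK hp hε0 hε1 hpos hu ?_
    refine le_trans ?_ hs
    apply mul_le_mul _ hTlog (by positivity) (by positivity)
    apply div_le_div_of_nonneg_right _ hε0.le
    norm_num
  · have hbig : (7000000000000:ℝ) ≤ s := by
      refine le_trans ?_ hs
      have h2 : (7000000000000:ℝ) ≤ 7000000000000 / ε := by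
        rw [le_div_iff₀ hε0]; nlinarith
      calc (7000000000000:ℝ) ≤ 7000000000000 / ε * 1 := by linarith
        _ ≤ _ := mul_le_mul_of_nonneg_left hmin1 (by positivity)
    refine convex_body_mod hsym hlc hAm hAconv hKc hKconv hKs hK hp hε0 hε1 hbig ?_
    refine le_trans ?_ hs
    have hTT : 1 + (Real.log (1 / (μ.real A * (1 - μ.real A))) + Real.log (1 / ε)) / p ≤
        5 * T := by
      have h1 : Real.log (1 / (μ.real A * (1 - μ.real A))) ≤
          4 * p + Real.log (1 / (1 - μ.real A)) := by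
        rcases ha1.eq_or_lt with h1 | hlt
        · rw [h1]; simp; linarith
        · have h2 : 0 < 1 - μ.real A := by linarith
          rw [one_div, Real.log_inv, Real.log_mul hpos.ne' h2.ne', one_div, Real.log_inv]
          linarith
      have h2 : (Real.log (1 / (μ.real A * (1 - μ.real A))) + Real.log (1 / ε)) / p ≤
          (4 * p + Real.log (1 / (1 - μ.real A)) + Real.log (1 / ε)) / p :=
        div_le_div_of_nonneg_right (by linarith) hp0.le
      have h3 : (4 * p + Real.log (1 / (1 - μ.real A)) + Real.log (1 / ε)) / p =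
          4 + (Real.log (1 / (1 - μ.real A)) + Real.log (1 / ε)) / p := by
        field_simp
        ring
      have h4 : 0 ≤ (Real.log (1 / (1 - μ.real A)) + Real.log (1 / ε)) / p := by positivity
      rw [h3] at h2
      rw [hT]
      linarith
    have hmin5 : min (1 / ε) (1 + (Real.log (1 / (μ.real A * (1 - μ.real A))) +
        Real.log (1 / ε)) / p) ≤ 5 * min (1 / ε) T := by
      rcases le_total (1 / ε) T with h | h
      · rw [min_eq_left h]
        exact (min_le_left _ _).trans (by linarith)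
      · rw [min_eq_right h]
        exact (min_le_right _ _).trans hTT
    calc 4000000000 / ε * min (1 / ε) (1 + (Real.log (1 / (μ.real A * (1 - μ.real A))) +
          Real.log (1 / ε)) / p)
        ≤ 4000000000 / ε * (5 * min (1 / ε) T) :=
          mul_le_mul_of_nonneg_left hmin5 (by positivity)
      _ = 20000000000 / ε * min (1 / ε) T := by ring
      _ ≤ 7000000000000 / ε * min (1 / ε) T := by
          apply mul_le_mul_of_nonneg_right _ (by linarith)
          apply div_le_div_of_nonneg_right _ hε0.le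
          norm_num

end Pool.CIP
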