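import Pool.Agent.CIP.FK

set_option autoImplicit false

open MeasureTheory Pointwise Set Filter Topology

namespace Pool.CIP

variable {n : ℕ} {μ : Measure (E n)}

lemma s_pos' (_ : IsProbabilityMeasure μ) (A : Set (E n)) {p : ℝ} (hp : 2 ≤ p)
    {ε : ℝ} (hε0 : 0 < ε) (hε1 : ε ≤ 1) {s : ℝ}
    (hs : 7000000000000 / ε * min (1 / ε) (1 + (Real.log (1 / (1 - μ.real A)) +
      Real.log (1 / ε)) / p) ≤ s) : 0 < s := by
  have hp0 : 0 < p := by linarith
  have ha0 : 0 ≤ μ.real A := measureReal_nonneg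
  have ha1 : μ.real A ≤ 1 := measureReal_le_one
  have hlogε : 0 ≤ Real.log (1 / ε) := Real.log_nonneg (by rw [le_div_iff₀ hε0]; linarith)
  have h1ε : 1 ≤ 1 / ε := by rw [le_div_iff₀ hε0]; linarith
  have hwc : 0 ≤ Real.log (1 / (1 - μ.real A)) := by
    rcases ha1.eq_or_lt with h1 | hlt
    · rw [h1]; simp
    · apply Real.log_nonneg
      rw [le_div_iff₀ (by linarith)]
      linarith
  have hT1 : 1 ≤ 1 + (Real.log (1 / (1 - μ.real A)) + Real.log (1 / ε)) / p := by
    have : 0 ≤ (Real.log (1 / (1 - μ.real A)) + Real.log (1 / ε)) / p := by positivity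
    linarith
  have hmin1 := le_min h1ε hT1
  refine lt_of_lt_of_le ?_ hs
  exact mul_pos (by positivity) (by linarith)

end Pool.CIP
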