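import Pool.Agent.CIP.FL
import Pool.Agent.CIP.Y

set_option autoImplicit false

open MeasureTheory Pointwise Set Filter Topology

namespace Pool.CIP

variable {n : ℕ} {μ : Measure (E n)}

/-- the body `K = 300 (1 + n / p)^(1/2) Z_p` in `main_convex_final` -/
lemma convex_undilated_aux [IsProbabilityMeasure μ] (hsym : μ.map (fun x => -x) = μ)
    (hlc : LC μ) {A : Set (E n)} (hAm : MeasurableSet A) (hAconv : Convex ℝ A) {p : ℝ}
    (hp : 2 ≤ p) {ε : ℝ} (hε0 : 0 < ε) (hε1 : ε ≤ 1) {c : ℝ}
    (h1 : ε * Real.sqrt (1 + n / p) ≤ c)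
    (h2 : 1 / ε * min (1 / ε) (1 + (Real.log (1 / (1 - μ.real A)) + Real.log (1 / ε)) / p) ≤ c) :
    2 * Real.exp p * μ.real A * (1 - μ.real (A + G μ p (10000000000000 * c))) ≤
      (1 - μ.real A) * μ.real (A + G μ p (10000000000000 * c)) := by
  have hp0 : 0 < p := by linarith
  have ha1 : μ.real A ≤ 1 := measureReal_le_one
  set r := 300 * Real.sqrt (1 + n / p) with hr
  have hr0 : 0 ≤ r := by positivity
  set K := G μ p r with hK
  have hKm : min (μ.real A / 2) (1 / 4) ≤ μ.real K := by
    have := body_half hsym hlc hp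
    rw [← hr, ← hK] at this
    exact (min_le_right _ _).trans (by linarith)
  set s := 7000000000000 / ε * min (1 / ε) (1 + (Real.log (1 / (1 - μ.real A)) +
    Real.log (1 / ε)) / p) with hs
  have key := main_convex_final hsym hlc hAm hAconv (isCompact_G p r) convex_G
    (fun x hx => neg_mem_G hx) hKm hp hε0 hε1 (s := s) le_rfl
  have hs' : s ≤ 7000000000000 * c := by
    have : s = 7000000000000 * (1 / ε * min (1 / ε) (1 + (Real.log (1 / (1 - μ.real A)) +
      Real.log (1 / ε)) / p)) := by rw [hs]; ring
    rw [this]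
    linarith
  have hc0 : 0 ≤ c := le_trans (by positivity) h1
  have hsub : A + ε • K + G μ p s ⊆ A + G μ p (10000000000000 * c) := by
    rintro _ ⟨_, ⟨x, hx, _, ⟨k, hk, rfl⟩, rfl⟩, g, hg, rfl⟩
    refine ⟨x, hx, ε • k + g, ?_, by simp only [add_assoc]⟩
    intro v
    rw [inner_add_right, inner_smul_right]
    have hmv := hm_nonneg (μ := μ) p v
    calc |ε * inner ℝ v k + inner ℝ v g| ≤ |ε * inner ℝ v k| + |inner ℝ v g| := abs_add_le _ _
      _ = ε * |inner ℝ v k| + |inner ℝ v g| := by rw [abs_mul, abs_of_pos hε0]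
      _ ≤ ε * (r * hm μ p v) + s * hm μ p v :=
          add_le_add (mul_le_mul_of_nonneg_left (hk v) hε0.le) (hg v)
      _ = (300 * (ε * Real.sqrt (1 + n / p)) + s) * hm μ p v := by rw [hr]; ring
      _ ≤ 10000000000000 * c * hm μ p v := by
          apply mul_le_mul_of_nonneg_right _ hmv
          linarith
  have hmono := measureReal_mono (μ := μ) hsub (measure_ne_top μ _)
  have ha0 : 0 ≤ μ.real A := measureReal_nonneg
  have hep := Real.exp_pos p
  calc 2 * Real.exp p * μ.real A * (1 - μ.real (A + G μ p (10000000000000 * c)))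
      ≤ 2 * Real.exp p * μ.real A * (1 - μ.real (A + ε • K + G μ p s)) :=
        mul_le_mul_of_nonneg_left (by linarith) (by positivity)
    _ ≤ (1 - μ.real A) * μ.real (A + ε • K + G μ p s) := key
    _ ≤ (1 - μ.real A) * μ.real (A + G μ p (10000000000000 * c)) :=
        mul_le_mul_of_nonneg_left hmono (by linarith)

/-- The concentration inequality without dilation for convex sets, explicit exponents. -/
theorem main_convex_exponents [IsProbabilityMeasure μ] (hsym : μ.map (fun x => -x) = μ)
    (hlc : LC μ) {A : Set (E n)} (hAm : MeasurableSet A) (hAconv : Convex ℝ A) {p : ℝ}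
    (hp : 2 ≤ p) {c : ℝ}
    (hc : (1 + n / p) ^ ((1:ℝ) / 3) ≤ c ∨
      (1 + n / p) ^ ((1:ℝ) / 4) * Real.sqrt (1 + Real.log ((n + 1) / (1 - μ.real A)) / p) ≤ c) :
    2 * Real.exp p * μ.real A * (1 - μ.real (A + G μ p (10000000000000 * c))) ≤
      (1 - μ.real A) * μ.real (A + G μ p (10000000000000 * c)) := by
  have hp0 : 0 < p := by linarith
  have hn0 : (0:ℝ) ≤ n := Nat.cast_nonneg n
  set X : ℝ := 1 + n / p with hX
  have hX1 : 1 ≤ X := by
    have : 0 ≤ (n:ℝ) / p := by positivity
    linarith
  have hX0 : 0 < X := by linarith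
  rcases hc with hc | hc
  · -- exponent one third
    set ε : ℝ := X ^ (-(1/6) : ℝ) with hε
    have hε0 : 0 < ε := Real.rpow_pos_of_pos hX0 _
    have hε1 : ε ≤ 1 := Real.rpow_le_one_of_one_le_of_nonpos hX1 (by norm_num)
    have hinv : 1 / ε = X ^ ((1:ℝ) / 6) := by
      rw [hε, Real.rpow_neg hX0.le, one_div, inv_inv]
    refine convex_undilated_aux hsym hlc hAm hAconv hp hε0 hε1 ?_ ?_
    · rw [← hX]
      refine le_trans (le_of_eq ?_) hc
      rw [hε, Real.sqrt_eq_rpow, ← Real.rpow_add hX0]
      norm_num
    · refine le_trans (mul_le_mul_of_nonneg_left (min_le_left _ _) (by positivity)) ?_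
      refine le_trans (le_of_eq ?_) hc
      rw [hinv, ← Real.rpow_add hX0]
      norm_num
  · -- exponent one fourth
    rcases eq_or_lt_of_le (measureReal_le_one (μ := μ) (s := A)) with h1 | hlt
    · -- full measure
      rw [h1, sub_self, zero_mul]
      have hc0 : 0 ≤ c := le_trans (by positivity) hc
      have hsub : A ⊆ A + G μ p (10000000000000 * c) := fun x hx =>
        ⟨x, hx, 0, zero_mem_G (by positivity), by simp⟩
      have h2 := measureReal_mono (μ := μ) hsub (measure_ne_top μ _)
      have h3 : μ.real (A + G μ p (10000000000000 * c)) = 1 :=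
        le_antisymm measureReal_le_one (by linarith)
      rw [h3]; simp
    have hc1 : 0 < 1 - μ.real A := by linarith
    have ha0 : 0 ≤ μ.real A := measureReal_nonneg
    have hL1 : Real.log ((n + 1) / (1 - μ.real A)) =
        Real.log (n + 1) + Real.log (1 / (1 - μ.real A)) := by
      rw [div_eq_mul_one_div, Real.log_mul (by positivity) (by positivity)]
    have hlog1 : 0 ≤ Real.log ((n:ℝ) + 1) := Real.log_nonneg (by linarith)
    have hlog2 : 0 ≤ Real.log (1 / (1 - μ.real A)) := by
      apply Real.log_nonneg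
      rw [le_div_iff₀ hc1]; linarith
    set R := 1 + Real.log ((n + 1) / (1 - μ.real A)) / p with hR
    have hR1 : 1 ≤ R := by
      have : 0 ≤ Real.log ((n + 1) / (1 - μ.real A)) / p := by rw [hL1]; positivity
      linarith
    have hR0 : 0 < R := by linarith
    set x := X ^ ((1:ℝ) / 4) with hx
    set y := Real.sqrt R with hy
    have hx1 : 1 ≤ x := Real.one_le_rpow hX1 (by norm_num)
    have hx0 : 0 < x := by linarith
    have hy1 : 1 ≤ y := Real.one_le_sqrt.2 hR1
    have hy0 : 0 < y := by linarith
    have hxx : Real.sqrt X = x * x := by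
      rw [hx, Real.sqrt_eq_rpow, ← Real.rpow_add hX0]; norm_num
    have hyy : R = y * y := (Real.mul_self_sqrt hR0.le).symm
    have hlogx : Real.log x ≤ Real.log (n + 1) := by
      rw [hx, Real.log_rpow hX0]
      have h2 : Real.log X ≤ Real.log (n + 1) := by
        apply Real.log_le_log hX0
        have : (n:ℝ) / p ≤ n := div_le_self hn0 (by linarith)
        linarith
      have h3 : 0 ≤ Real.log X := Real.log_nonneg hX1
      linarith
    rcases le_or_gt x y with hxy | hxy
    · -- ε = 1
      refine convex_undilated_aux hsym hlc hAm hAconv hp one_pos le_rfl ?_ ?_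
      · rw [← hX, one_mul, hxx]
        exact (mul_le_mul_of_nonneg_left hxy hx0.le).trans hc
      · refine le_trans (mul_le_mul_of_nonneg_left (min_le_left _ _) (by norm_num)) ?_
        refine le_trans ?_ hc
        nlinarith
    · -- ε = y / x
      have hε0 : 0 < y / x := by positivity
      have hε1 : y / x ≤ 1 := by rw [div_le_one hx0]; exact hxy.le
      have hinv : 1 / (y / x) = x / y := by rw [one_div, inv_div]
      refine convex_undilated_aux hsym hlc hAm hAconv hp hε0 hε1 ?_ ?_
      · rw [← hX, hxx]
        refine le_trans (le_of_eq ?_) hc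
        field_simp
      · refine le_trans (mul_le_mul_of_nonneg_left (min_le_right _ _) (by positivity)) ?_
        refine le_trans ?_ hc
        have h4 : Real.log (1 / (y / x)) ≤ Real.log (n + 1) := by
          rw [hinv, Real.log_div hx0.ne' hy0.ne']
          have : 0 ≤ Real.log y := Real.log_nonneg hy1
          linarith
        have h5 : 1 + (Real.log (1 / (1 - μ.real A)) + Real.log (1 / (y / x))) / p ≤ R := by
          rw [hR, hL1]
          have := div_le_div_of_nonneg_right (show Real.log (1 / (1 - μ.real A)) +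
            Real.log (1 / (y / x)) ≤ Real.log (n + 1) + Real.log (1 / (1 - μ.real A)) by linarith)
            hp0.le
          linarith
        calc 1 / (y / x) * (1 + (Real.log (1 / (1 - μ.real A)) + Real.log (1 / (y / x))) / p)
            ≤ 1 / (y / x) * R := mul_le_mul_of_nonneg_left h5 (by positivity)
          _ = x / y * (y * y) := by rw [hinv, ← hyy]
          _ = x * y := by field_simp

end Pool.CIP
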