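import Pool.Agent.CIP.FN

set_option autoImplicit false

open MeasureTheory Pointwise Set Filter Topology

namespace Pool.CIP

variable {n : ℕ} {μ : Measure (E n)}

/-- monotonicity of the moments in the order -/
lemma hm_mono [IsProbabilityMeasure μ] (hsym : μ.map (fun x => -x) = μ) (hlc : LC μ)
    {p q : ℝ} (hp : 1 ≤ p) (hpq : p ≤ q) (v : E n) : hm μ p v ≤ hm μ q v := by
  have hfin : ∀ q : ℝ, 0 < q → ∀ v : E n, mq μ q v < ⊤ := fun q hq v => mq_lt_top hsym hlc hq v
  have hp0 : 0 < p := by linarith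
  have hq0 : 0 < q := by linarith
  rw [hm_eq_eLpNorm hfin hp0, hm_eq_eLpNorm hfin hq0]
  apply ENNReal.toReal_mono (memLp_inner hfin hq0 v).eLpNorm_ne_top
  exact eLpNorm_le_eLpNorm_of_exponent_le (ENNReal.ofReal_le_ofReal hpq)
    (memLp_inner hfin hq0 v).aestronglyMeasurable

lemma hm_scale [IsProbabilityMeasure μ] (hsym : μ.map (fun x => -x) = μ) (hlc : LC μ)
    {t Q P C : ℝ} (ht0 : 0 ≤ t) (ht1 : t ≤ 1) (hQ : 1 ≤ Q) (hP : 1 ≤ P) (hC : 1 ≤ C)
    (h : t * Q ≤ C * P) (v : E n) : t * hm μ Q v ≤ 2 * Real.exp 2 * C * hm μ P v := by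
  have hP0 := hm_nonneg (μ := μ) P v
  have hQ0 := hm_nonneg (μ := μ) Q v
  have he : 1 ≤ Real.exp 2 := Real.one_le_exp (by norm_num)
  rcases le_total Q P with h1 | h1
  · have h2 := hm_mono hsym hlc hQ h1 v
    calc t * hm μ Q v ≤ 1 * hm μ P v := mul_le_mul ht1 h2 hQ0 zero_le_one
      _ ≤ 2 * Real.exp 2 * C * hm μ P v := by
          apply mul_le_mul_of_nonneg_right _ hP0
          nlinarith
  · have h2 := hm_compare hsym hlc hP h1 v
    have hPp : 0 < P := by linarith
    calc t * hm μ Q v ≤ t * (2 * Real.exp 2 * (Q / P) * hm μ P v) :=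
          mul_le_mul_of_nonneg_left h2 ht0
      _ = 2 * Real.exp 2 * (t * Q / P) * hm μ P v := by ring
      _ ≤ 2 * Real.exp 2 * C * hm μ P v := by
          apply mul_le_mul_of_nonneg_right _ hP0
          apply mul_le_mul_of_nonneg_left _ (by positivity)
          rw [div_le_iff₀ hPp]; exact h

lemma Ys_scale [IsProbabilityMeasure μ] (hsym : μ.map (fun x => -x) = μ) (hlc : LC μ)
    {B N : ℕ} (hBN : B ≤ N) {Q P : ℕ → ℝ} {t c C : ℝ} (ht0 : 0 ≤ t) (ht1 : t ≤ 1) (hc : 0 ≤ c)
    (hC : 1 ≤ C) (hQ : ∀ b ≤ B, 1 ≤ Q b) (hP : ∀ b ≤ B, 1 ≤ P b)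
    (h : ∀ b ≤ B, t * Q b ≤ C * P b) {x : E n} (hx : x ∈ Ys μ B Q c) :
    t • x ∈ Ys μ N P (c * (2 * Real.exp 2 * C)) := by
  intro v
  rw [inner_smul_right, abs_mul, abs_of_nonneg ht0]
  have h1 : ∑ b ∈ Finset.range (B + 1), (1 / 2 ^ b : ℝ) * hm μ (P b) v ≤
      ∑ b ∈ Finset.range (N + 1), (1 / 2 ^ b : ℝ) * hm μ (P b) v :=
    Finset.sum_le_sum_of_subset_of_nonneg (Finset.range_mono (by omega))
      fun b _ _ => mul_nonneg (by positivity) (hm_nonneg _ v)
  have h2 : t * ∑ b ∈ Finset.range (B + 1), (1 / 2 ^ b : ℝ) * hm μ (Q b) v ≤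
      (2 * Real.exp 2 * C) * ∑ b ∈ Finset.range (B + 1), (1 / 2 ^ b : ℝ) * hm μ (P b) v := by
    rw [Finset.mul_sum, Finset.mul_sum]
    refine Finset.sum_le_sum fun b hb => ?_
    have hbB : b ≤ B := by have := Finset.mem_range.1 hb; omega
    have h3 := hm_scale hsym hlc ht0 ht1 (hQ b hbB) (hP b hbB) hC (h b hbB) v
    calc t * ((1 / 2 ^ b : ℝ) * hm μ (Q b) v) = (1 / 2 ^ b : ℝ) * (t * hm μ (Q b) v) := by ring
      _ ≤ (1 / 2 ^ b : ℝ) * (2 * Real.exp 2 * C * hm μ (P b) v) :=
          mul_le_mul_of_nonneg_left h3 (by positivity)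
      _ = _ := by ring
  calc t * |inner ℝ v x|
      ≤ t * (c * ∑ b ∈ Finset.range (B + 1), (1 / 2 ^ b : ℝ) * hm μ (Q b) v) :=
        mul_le_mul_of_nonneg_left (hx v) ht0
    _ = c * (t * ∑ b ∈ Finset.range (B + 1), (1 / 2 ^ b : ℝ) * hm μ (Q b) v) := by ring
    _ ≤ c * ((2 * Real.exp 2 * C) *
          ∑ b ∈ Finset.range (B + 1), (1 / 2 ^ b : ℝ) * hm μ (P b) v) :=
        mul_le_mul_of_nonneg_left h2 hc
    _ ≤ c * ((2 * Real.exp 2 * C) *
          ∑ b ∈ Finset.range (N + 1), (1 / 2 ^ b : ℝ) * hm μ (P b) v) := by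
        apply mul_le_mul_of_nonneg_left _ hc
        exact mul_le_mul_of_nonneg_left h1 (by positivity)
    _ = c * (2 * Real.exp 2 * C) *
          ∑ b ∈ Finset.range (N + 1), (1 / 2 ^ b : ℝ) * hm μ (P b) v := by ring

lemma Ys_mono {N : ℕ} {Q : ℕ → ℝ} {c d : ℝ} (h : c ≤ d) : Ys μ N Q c ⊆ Ys μ N Q d := by
  intro x hx v
  exact (hx v).trans (mul_le_mul_of_nonneg_right h (sum_hm_nonneg N Q v))

/-- the centroid body in the sum -/
lemma G_subset_Ys [IsProbabilityMeasure μ] (hsym : μ.map (fun x => -x) = μ) (hlc : LC μ)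
    {N : ℕ} {Q : ℕ → ℝ} {p c : ℝ} (hp : 1 ≤ p) (hpQ : p ≤ Q 0) (hc : 0 ≤ c) :
    G μ p c ⊆ Ys μ N Q c := by
  intro x hx v
  refine (hx v).trans (mul_le_mul_of_nonneg_left ?_ hc)
  have h1 := hm_mono hsym hlc hp hpQ v
  have h7 := Finset.single_le_sum (s := Finset.range (N + 1))
    (f := fun b : ℕ => (1 / 2 ^ b : ℝ) * hm μ (Q b) v)
    (fun b _ => mul_nonneg (by positivity) (hm_nonneg _ v))
    (Finset.mem_range.2 (by omega : 0 < N + 1))
  have h7' : (1 / 2 ^ 0 : ℝ) * hm μ (Q 0) v ≤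
    ∑ b ∈ Finset.range (N + 1), (1 / 2 ^ b : ℝ) * hm μ (Q b) v := h7
  rw [pow_zero, div_one, one_mul] at h7'
  exact h1.trans h7'

/-- the number of dyadic blocks -/
lemma exists_B {ε : ℝ} (hε0 : 0 < ε) (hε1 : ε ≤ 1) {N : ℕ} (hN : 44 / ε ≤ 2 ^ N) :
    ∃ B : ℕ, 1 ≤ B ∧ B ≤ N ∧ 44 / ε ≤ (2:ℝ) ^ B ∧ Real.log ((2:ℝ) ^ B) ≤ 6 + Real.log (1 / ε) := by
  classical
  have hex : ∃ B : ℕ, 44 / ε ≤ (2:ℝ) ^ B := ⟨N, hN⟩
  set B := Nat.find hex with hB
  have hB1 : 44 / ε ≤ (2:ℝ) ^ B := Nat.find_spec hex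
  have h1ε : 1 ≤ 1 / ε := by rw [le_div_iff₀ hε0]; linarith
  have h44 : 44 / ε = 44 * (1 / ε) := by ring
  have hB0 : 1 ≤ B := by
    by_contra hcon
    have : B = 0 := by omega
    rw [this, pow_zero] at hB1
    linarith
  refine ⟨B, hB0, Nat.find_le hN, hB1, ?_⟩
  have h2 : ¬ 44 / ε ≤ (2:ℝ) ^ (B - 1) := Nat.find_min hex (by omega)
  push Not at h2
  have h3 : (2:ℝ) ^ B = 2 * 2 ^ (B - 1) := by
    have : B = (B - 1) + 1 := by omega
    conv_lhs => rw [this, pow_succ]
    ring
  have h4 : (2:ℝ) ^ B ≤ 216 * (1 / ε) := by rw [h3]; linarith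
  have h5 := Real.log_le_log (by positivity) h4
  rw [Real.log_mul (by norm_num) (by positivity)] at h5
  have h6 : Real.log 216 = 3 * Real.log 6 := by
    rw [show (216:ℝ) = 6 ^ 3 by norm_num, Real.log_pow]; norm_num
  have := log_six_le
  linarith

/-- **Optimal concentration for all convex sets with a refined body**: up to an arbitrarily small
multiple of a symmetric convex body and a sum of centroid bodies with geometric weights. -/
theorem main_convex_sum [IsProbabilityMeasure μ] (hsym : μ.map (fun x => -x) = μ) (hlc : LC μ)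
    (hcore : Core3 μ)
    {A K : Set (E n)} (hAm : MeasurableSet A) (hAconv : Convex ℝ A)
    (hKc : IsCompact K) (hKconv : Convex ℝ K) (hKs : ∀ x ∈ K, -x ∈ K)
    (hK : min (μ.real A / 2) (1 / 4) ≤ μ.real K) {p : ℝ} (hp : 2 ≤ p)
    {ε : ℝ} (hε0 : 0 < ε) (hε1 : ε ≤ 1) {N : ℕ} (hN : 44 / ε ≤ 2 ^ N) {q : ℝ}
    (hq : min (p / ε) (p + Real.log (1 / (1 - μ.real A)) + Real.log (1 / ε)) ≤ q) :
    2 * Real.exp p * μ.real A *
        (1 - μ.real (A + ε • K + Ys μ N (fun b => 4 ^ b * q) 7000000000000)) ≤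
      (1 - μ.real A) * μ.real (A + ε • K + Ys μ N (fun b => 4 ^ b * q) 7000000000000) := by
  have hp0 : 0 < p := by linarith
  set P : ℕ → ℝ := fun b => 4 ^ b * q with hPdef
  set A' := A + ε • K + Ys μ N P 7000000000000 with hA'
  set a := μ.real A with ha
  set a' := μ.real A' with ha'
  have ha1 : a ≤ 1 := measureReal_le_one
  have ha'1 : a' ≤ 1 := measureReal_le_one
  have ha'0 : 0 ≤ a' := measureReal_nonneg
  have hlogε : 0 ≤ Real.log (1 / ε) := Real.log_nonneg (by rw [le_div_iff₀ hε0]; linarith)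
  have h1ε : 1 ≤ 1 / ε := by rw [le_div_iff₀ hε0]; linarith
  have hlogε2 : Real.log (1 / ε) ≤ 1 / ε :=
    (Real.log_le_sub_one_of_pos (by positivity)).trans (by linarith)
  have hwc0 : 0 ≤ Real.log (1 / (1 - a)) := by
    rcases ha1.eq_or_lt with h1 | hlt
    · rw [h1]; simp
    · have : 0 ≤ a := measureReal_nonneg
      apply Real.log_nonneg
      rw [le_div_iff₀ (by linarith)]
      linarith
  have hpε : p / ε = p * (1 / ε) := by ring
  have hqp : p ≤ q := by
    refine le_trans (le_min ?_ ?_) hq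
    · rw [hpε]; nlinarith
    · linarith
  have hqlog : Real.log (1 / ε) ≤ q := by
    refine le_trans (le_min ?_ ?_) hq
    · rw [hpε]; nlinarith
    · linarith
  have hq0 : 0 < q := by linarith
  have hP1 : ∀ b, 1 ≤ P b := by
    intro b
    have h4 : (1:ℝ) ≤ 4 ^ b := one_le_pow₀ (by norm_num)
    show 1 ≤ 4 ^ b * q
    nlinarith
  have hP0 : p ≤ P 0 := by
    show p ≤ 4 ^ 0 * q
    rw [pow_zero, one_mul]; exact hqp
  rcases (measureReal_nonneg (μ := μ) (s := A)).eq_or_lt with h0 | hpos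
  · rw [← ha] at h0
    rw [← h0]
    simpa using ha'0
  have hKpos : 0 < μ.real K := lt_of_lt_of_le (lt_min (half_pos hpos) (by norm_num)) hK
  have h0K : (0:E n) ∈ K := by
    obtain ⟨x, hx⟩ : K.Nonempty := nonempty_of_real hKpos le_rfl
    have := hKconv hx (hKs x hx) (by norm_num : (0:ℝ) ≤ 1/2) (by norm_num : (0:ℝ) ≤ 1/2)
      (by norm_num)
    simpa using this
  have hAA' : A ⊆ A' := by
    intro x hx
    exact ⟨x + ε • (0 : E n), ⟨x, hx, _, ⟨0, h0K, rfl⟩, rfl⟩, 0, zero_mem_Ys (by norm_num),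
      by simp⟩
  have haa' : a ≤ a' := measureReal_mono hAA' (measure_ne_top μ _)
  rcases ha1.eq_or_lt with h1 | hlt
  · have h2 : a' = 1 := by linarith
    rw [h2, h1]; simp
  have hc0 : 0 < 1 - a := by linarith
  have hac : 0 < a * (1 - a) := mul_pos hpos hc0
  set w := Real.log (1 / (a * (1 - a))) with hw
  have hw0' : 0 ≤ w := by
    apply Real.log_nonneg
    rw [le_div_iff₀ hac]
    nlinarith
  obtain ⟨B, hB1, hBN, hBε, hBlog⟩ := exists_B hε0 hε1 hN
  have h2B : (0:ℝ) < 2 ^ B := by positivity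
  have hB44 : 44 / (2:ℝ) ^ B ≤ ε := by
    rw [div_le_iff₀ h2B]
    have h5 := mul_le_mul_of_nonneg_left hBε hε0.le
    have h6 : ε * (44 / ε) = 44 := by field_simp
    linarith
  have h11B : 0 ≤ 11 / (2:ℝ) ^ B := by positivity
  have h11ε : 11 / (2:ℝ) ^ B ≤ ε :=
    le_trans (div_le_div_of_nonneg_right (by norm_num) h2B.le) hB44
  have he21 : Real.exp 2 * Real.exp 1 ≤ 149 := by
    rw [← Real.exp_add]
    exact le_trans (Real.exp_le_exp.2 (by norm_num)) exp_five_le
  have hexp3 : Real.exp 3 ≤ 149 :=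
    le_trans (Real.exp_le_exp.2 (by norm_num)) exp_five_le
  rcases le_or_gt (4 * p) (-Real.log a) with hu | hu
  · -- small sets
    set u := -Real.log a with hudef
    have hau : a = Real.exp (-u) := by rw [hudef, neg_neg, Real.exp_log hpos]
    have hu8 : 8 ≤ u := by linarith
    have hu0 : 0 < u := by linarith
    have he1 := Real.exp_one_gt_d9
    have he3 : (20:ℝ) < Real.exp 3 := by
      have h6 : Real.exp 3 = Real.exp 1 ^ 3 := by rw [← Real.exp_nat_mul]; norm_num
      have h8 : (2.7182818283 : ℝ) ^ 3 ≤ Real.exp 1 ^ 3 := by gcongr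
      have h7 : (20:ℝ) < 2.7182818283 ^ 3 := by norm_num
      rw [h6]; linarith
    set qu := u + 3 with hqu
    have hqu1 : 1 ≤ qu := by linarith
    have heq := Real.exp_pos (-qu)
    have haq : 20 * Real.exp (-qu) ≤ a := by
      have h1 : a = Real.exp (-qu) * Real.exp 3 := by
        rw [hau, ← Real.exp_add]; congr 1; rw [hqu]; ring
      rw [h1]; nlinarith
    have ha4 : a ≤ 1 / 20 := by
      have h1 : Real.exp (-u) ≤ Real.exp (-3) := Real.exp_le_exp.2 (by linarith)
      have h2 : Real.exp (-3) * Real.exp 3 = 1 := by rw [← Real.exp_add]; simp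
      have h3 := Real.exp_pos (-3)
      rw [hau]; nlinarith
    have hK5 : 5 * Real.exp (-qu) ≤ μ.real K := by
      refine le_trans (le_min ?_ ?_) hK <;> linarith
    obtain ⟨M, hMc, hMconv, hMμ, hMM⟩ := exists_large_body hsym hlc hKc hKconv hKs
      (show 1 ≤ p by linarith) (by linarith : p ≤ qu) hK5
    have hAM : a / 2 < μ.real (A ∩ M) := by
      have h1 : A ⊆ (A ∩ M) ∪ Mᶜ := by
        intro x hx
        by_cases hxM : x ∈ M
        · exact Or.inl ⟨hx, hxM⟩
        · exact Or.inr hxM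
      have h2 := (measureReal_mono (μ := μ) h1 (measure_ne_top μ _)).trans
        (measureReal_union_le _ _)
      rw [← ha] at h2
      linarith
    obtain ⟨K₀, hKA, hK₀c, hK₀⟩ := exists_compact_real (hAm.inter hMc.measurableSet) hAM
    have hK₀ne : K₀.Nonempty := nonempty_of_real (show 0 < a / 2 by linarith) hK₀.le
    set K₁ := convexHull ℝ K₀ with hK₁
    have hK₁c : IsCompact K₁ := compact_hull hK₀c hK₀ne
    have hK₁AM : K₁ ⊆ A ∩ M := convexHull_min hKA (hAconv.inter hMconv)
    have hK₁conv : Convex ℝ K₁ := convex_convexHull ℝ _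
    have hK₁m : a / 2 ≤ μ.real K₁ :=
      hK₀.le.trans (measureReal_mono (subset_convexHull ℝ K₀) (measure_ne_top μ _))
    have key := enlQ hsym hlc hcore hB1 hqu1 hK₁c hK₁conv (by linarith)
    set W := K₁ + (11 / 2 ^ B : ℝ) • (K₁ - K₁) + Ys μ B (L3 B qu) (62 * Real.exp 1) with hW
    have hL31 : ∀ b ≤ B, 1 ≤ L3 B qu b := fun b _ => hqu1.trans (L3_ge hqu1 b)
    have hWc : IsCompact W := by
      have hAAc : IsCompact (K₁ - K₁) := by rw [sub_eq_add_neg]; exact hK₁c.add hK₁c.neg
      exact (hK₁c.add (hAAc.smul _)).add (isCompact_Ys hsym hlc (by positivity) hL31)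
    have hcW : μ.real Wᶜ = 1 - μ.real W := by
      rw [measureReal_compl hWc.measurableSet]
      simp
    have hW2 : 1 / 2 ≤ μ.real W := by linarith
    set lam := (p + 3) / u with hlam
    have hlam0 : 0 < lam := by positivity
    have hlam1 : lam < 1 := by rw [hlam, div_lt_one hu0]; linarith
    have hlamu : lam * u = p + 3 := by rw [hlam]; field_simp
    have hlamq : lam * ((qu + 11) / p) ≤ 7 := by
      have h1 : lam * ((qu + 11) / p) = ((p + 3) / p) * (1 + 14 / u) := by
        rw [hlam, hqu]; field_simp; ring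
      have h2 : (p + 3) / p ≤ 5 / 2 := by rw [div_le_iff₀ hp0]; linarith
      have h3 : 1 + 14 / u ≤ 14 / 5 := by
        have : 14 / u ≤ 9 / 5 := by rw [div_le_iff₀ hu0]; linarith
        linarith
      rw [h1]
      calc (p + 3) / p * (1 + 14 / u) ≤ 5 / 2 * (14 / 5) :=
            mul_le_mul h2 h3 (by positivity) (by norm_num)
        _ = 7 := by norm_num
    have hlamL : ∀ b ≤ B, lam * L3 B qu b ≤ 500 * P b := by
      intro b _
      have h1 : lam * (qu + 3 * Real.log (2 ^ B) + 7) ≤ 15 * q := by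
        have h2 : lam * (qu + 3 * Real.log (2 ^ B) + 7) ≤
            lam * (u + 28 + 3 * Real.log (1 / ε)) :=
          mul_le_mul_of_nonneg_left (by rw [hqu]; linarith) hlam0.le
        have h3 : lam * 28 ≤ 28 * (p + 3) / 8 := by
          have h4 : lam ≤ (p + 3) / 8 := by
            rw [hlam]
            exact div_le_div_of_nonneg_left (by linarith) (by norm_num) hu8
          linarith
        have h5 : lam * (3 * Real.log (1 / ε)) ≤ 1 * (3 * Real.log (1 / ε)) :=
          mul_le_mul_of_nonneg_right hlam1.le (by positivity)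
        nlinarith
      show lam * L3 B qu b ≤ 500 * (4 ^ b * q)
      unfold L3
      have h4 : (0:ℝ) < 4 ^ b := by positivity
      calc lam * (32 * 4 ^ b * (qu + 3 * Real.log (2 ^ B) + 7))
          = 32 * 4 ^ b * (lam * (qu + 3 * Real.log (2 ^ B) + 7)) := by ring
        _ ≤ 32 * 4 ^ b * (15 * q) := mul_le_mul_of_nonneg_left h1 (by positivity)
        _ = 480 * (4 ^ b * q) := by ring
        _ ≤ 500 * (4 ^ b * q) := by
            apply mul_le_mul_of_nonneg_right (by norm_num) (by positivity)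
    have key3 := hlc.closed hK₁c.isClosed hWc.isClosed (t := 1 - lam) (by linarith) (by linarith)
      (U := A') (by
        rintro x hx _ ⟨_, ⟨k₁, hk₁, _, ⟨_, ⟨y, hy, z, hz, rfl⟩, rfl⟩, rfl⟩, g, hg, rfl⟩
        obtain ⟨k, hk, f, hf, hyz⟩ := hMM y (hK₁AM hy).2 z (hK₁AM hz).2
        have hx' : (1 - lam) • x + lam • k₁ ∈ A :=
          hAconv (hK₁AM hx).1 (hK₁AM hk₁).1 (by linarith) hlam0.le (by ring)
        have hqp0 : 0 ≤ (qu + 11) / p := div_nonneg (by linarith) hp0.le
        have h11B1 : 11 / (2:ℝ) ^ B ≤ 1 := h11ε.trans hε1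
        have hg' : lam • g ∈ Ys μ N P (62 * Real.exp 1 * (2 * Real.exp 2 * 500)) :=
          Ys_scale hsym hlc hBN hlam0.le hlam1.le (by positivity) (by norm_num) hL31
            (fun b _ => hP1 b) hlamL hg
        have hf' : (lam * (11 / (2:ℝ) ^ B)) • f ∈ Ys μ N P (720 * 149 * 7) := by
          refine G_subset_Ys hsym hlc (by linarith) hP0 (by norm_num) ?_
          refine G_mono ?_ (smul_mem_G (by positivity) hf)
          calc lam * (11 / (2:ℝ) ^ B) * (720 * Real.exp 3 * ((qu + 11) / p))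
              = (11 / (2:ℝ) ^ B) * (720 * Real.exp 3 * (lam * ((qu + 11) / p))) := by ring
            _ ≤ 1 * (720 * Real.exp 3 * (lam * ((qu + 11) / p))) :=
                mul_le_mul_of_nonneg_right h11B1 (by positivity)
            _ = 720 * Real.exp 3 * (lam * ((qu + 11) / p)) := by ring
            _ ≤ 720 * 149 * 7 := by
                apply mul_le_mul (by linarith) hlamq (by positivity) (by norm_num)
        refine ⟨(1 - lam) • x + lam • k₁ + (lam * (44 / (2:ℝ) ^ B)) • k, ⟨_, hx', _,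
          smul_mem_dil hKconv h0K (by positivity) ?_ hε0 hk, rfl⟩,
          (lam * (11 / (2:ℝ) ^ B)) • f + lam • g, ?_, ?_⟩
        · calc lam * (44 / (2:ℝ) ^ B) ≤ 1 * (44 / (2:ℝ) ^ B) :=
                mul_le_mul_of_nonneg_right hlam1.le (by positivity)
            _ ≤ ε := by linarith
        · refine Ys_mono ?_ (add_mem_Ys hf' hg')
          have : 62 * Real.exp 1 * (2 * Real.exp 2 * 500) =
            62000 * (Real.exp 2 * Real.exp 1) := by ring
          rw [this]; linarith
        · have e10 : (1 - (1 - lam)) = lam := by ring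
          rw [e10]
          show (1 - lam) • x + lam • k₁ + (lam * (44 / (2:ℝ) ^ B)) • k +
            ((lam * (11 / (2:ℝ) ^ B)) • f + lam • g) =
              (1 - lam) • x + lam • (k₁ + (11 / (2:ℝ) ^ B) • (y - z) + g)
          rw [hyz]
          have e11 : (lam * (44 / (2:ℝ) ^ B)) • k = (lam * (11 / (2:ℝ) ^ B)) • ((4:ℝ) • k) := by
            rw [smul_smul]; congr 1; ring
          rw [e11]
          module)
    have key2 := ENNReal.toReal_mono (measure_ne_top μ _) key3
    rw [ENNReal.toReal_mul, ← ENNReal.toReal_rpow, ← ENNReal.toReal_rpow] at key2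
    have key4 : μ.real K₁ ^ (1 - lam) * μ.real W ^ (1 - (1 - lam)) ≤ a' := key2
    have e1 : 1 - (1 - lam) = lam := by ring
    rw [e1] at key4
    have h1 : (a / 2) ^ (1 - lam) * (1 / 2 : ℝ) ^ lam ≤ a' := by
      refine le_trans ?_ key4
      apply mul_le_mul
      · exact Real.rpow_le_rpow (by positivity) hK₁m (by linarith)
      · exact Real.rpow_le_rpow (by norm_num) hW2 hlam0.le
      · positivity
      · positivity
    have h2 : (a / 2) ^ (1 - lam) * (1 / 2 : ℝ) ^ lam = a ^ (1 - lam) / 2 := by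
      rw [div_eq_mul_one_div a, Real.mul_rpow hpos.le (by norm_num), mul_assoc,
        ← Real.rpow_add (by norm_num)]
      have : 1 - lam + lam = 1 := by ring
      rw [this, Real.rpow_one]
      ring
    have h3 : a ^ (1 - lam) = a * (Real.exp p * Real.exp 3) := by
      rw [hau, ← Real.exp_mul, ← Real.exp_add, ← Real.exp_add]
      congr 1
      linear_combination hlamu
    rw [h2, h3] at h1
    have hep := Real.exp_pos p
    have h5 : 10 * (Real.exp p * a) ≤ a' := by
      have h6 : 0 < Real.exp p * a := by positivity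
      nlinarith
    have h8 : 2 * Real.exp p * a * (1 - a') ≤ 2 * Real.exp p * a := by
      have : 0 ≤ 2 * Real.exp p * a := by positivity
      nlinarith
    have h9 : a' / 2 ≤ (1 - a) * a' := by nlinarith
    linarith
  -- larger sets
  rcases le_or_gt (1000 * p) (ε * w) with hcase | hcase
  · -- extreme sets
    have key := main_borel hsym hlc hAm hKc hKconv hKs hK hp (θ := ε)
      (Or.inr (by rw [← ha, ← hw]; exact hcase))
    have hsub : A + ε • K + G μ p 7000000000000 ⊆ A' :=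
      add_subset_add_left (G_subset_Ys hsym hlc (by linarith) hP0 (by norm_num))
    have hmono := measureReal_mono (μ := μ) hsub (measure_ne_top μ _)
    rw [← ha] at key
    have hep := Real.exp_pos p
    calc 2 * Real.exp p * a * (1 - a')
        ≤ 2 * Real.exp p * a * (1 - μ.real (A + ε • K + G μ p 7000000000000)) :=
          mul_le_mul_of_nonneg_left (by linarith) (by positivity)
      _ ≤ (1 - a) * μ.real (A + ε • K + G μ p 7000000000000) := key
      _ ≤ (1 - a) * a' := mul_le_mul_of_nonneg_left hmono hc0.le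
  · -- the other sets
    have hexp : Real.exp (-w) = a * (1 - a) := by
      rw [hw, one_div, Real.log_inv, neg_neg, Real.exp_log hac]
    set qw := w + p + 2 with hqw
    have hqw1 : 1 ≤ qw := by linarith
    have he2 : (7:ℝ) < Real.exp 2 := by
      have h6 : Real.exp 2 = Real.exp 1 * Real.exp 1 := by rw [← Real.exp_add]; norm_num
      have h7 := Real.exp_one_gt_d9
      rw [h6]; nlinarith
    have hsplit : Real.exp (-qw) * Real.exp 2 * Real.exp p = Real.exp (-w) := by
      rw [← Real.exp_add, ← Real.exp_add]; congr 1; rw [hqw]; ring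
    have hep := Real.exp_pos p
    have heq := Real.exp_pos (-qw)
    have hep3 : 3 ≤ Real.exp p := by
      have := Real.add_one_le_exp p
      linarith
    have h4q : 7 * (Real.exp (-qw) * Real.exp p) ≤ Real.exp (-w) := by
      rw [← hsplit]
      have h5 : 0 < Real.exp (-qw) * Real.exp p := by positivity
      nlinarith
    have h4q' : 21 * Real.exp (-qw) ≤ Real.exp (-w) := by
      refine le_trans ?_ h4q
      have : Real.exp (-qw) * 3 ≤ Real.exp (-qw) * Real.exp p :=
        mul_le_mul_of_nonneg_left hep3 heq.le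
      linarith
    have haw : Real.exp (-w) ≤ a := by nlinarith
    have hcw : Real.exp (-w) ≤ 1 - a := by nlinarith
    have hK5 : 5 * Real.exp (-qw) ≤ μ.real K := by
      refine le_trans (le_min ?_ ?_) hK
      · linarith
      · have : Real.exp (-w) ≤ 1 := by linarith
        linarith
    obtain ⟨M, hMc, hMconv, hMμ, hMM⟩ := exists_large_body hsym hlc hKc hKconv hKs
      (show 1 ≤ p by linarith) (by linarith : p ≤ qw) hK5
    have hAM : 6 * Real.exp (-qw) ≤ μ.real (A ∩ M) := by
      have h1 : A ⊆ (A ∩ M) ∪ Mᶜ := by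
        intro x hx
        by_cases hxM : x ∈ M
        · exact Or.inl ⟨hx, hxM⟩
        · exact Or.inr hxM
      have h2 := (measureReal_mono (μ := μ) h1 (measure_ne_top μ _)).trans
        (measureReal_union_le _ _)
      rw [← ha] at h2
      linarith
    obtain ⟨K₀, hKA, hK₀c, hK₀⟩ := exists_compact_real (hAm.inter hMc.measurableSet)
      (show 5 * Real.exp (-qw) < μ.real (A ∩ M) by linarith)
    have hK₀ne : K₀.Nonempty :=
      nonempty_of_real (show 0 < 5 * Real.exp (-qw) by positivity) hK₀.le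
    set K₁ := convexHull ℝ K₀ with hK₁
    have hK₁c : IsCompact K₁ := compact_hull hK₀c hK₀ne
    have hK₁AM : K₁ ⊆ A ∩ M := convexHull_min hKA (hAconv.inter hMconv)
    have hK₁conv : Convex ℝ K₁ := convex_convexHull ℝ _
    have hK₁m : 5 * Real.exp (-qw) ≤ μ.real K₁ :=
      hK₀.le.trans (measureReal_mono (subset_convexHull ℝ K₀) (measure_ne_top μ _))
    have key := enlQ hsym hlc hcore hB1 hqw1 hK₁c hK₁conv hK₁m
    set W := K₁ + (11 / 2 ^ B : ℝ) • (K₁ - K₁) + Ys μ B (L3 B qw) (62 * Real.exp 1) with hW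
    have hL31 : ∀ b ≤ B, 1 ≤ L3 B qw b := fun b _ => hqw1.trans (L3_ge hqw1 b)
    have hwp : w ≤ 1000 * (p * (1 / ε)) := by
      have h8 : w < 1000 * p / ε := by rw [lt_div_iff₀ hε0, mul_comm]; exact hcase
      calc w ≤ 1000 * p / ε := h8.le
        _ = 1000 * (p * (1 / ε)) := by ring
    have hwc : w ≤ 4 * p + Real.log (1 / (1 - a)) := by
      rw [hw, one_div, Real.log_inv, Real.log_mul hpos.ne' hc0.ne', one_div, Real.log_inv]
      linarith
    have hratio : qw + 3 * Real.log (2 ^ B) + 7 ≤ 1016 * q := by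
      have h1 : qw + 3 * Real.log (2 ^ B) + 7 ≤ w + p + 27 + 3 * Real.log (1 / ε) := by
        rw [hqw]; linarith
      rcases min_le_iff.1 hq with h2 | h2
      · have h3 : p * (1 / ε) ≤ q := by rw [← hpε]; exact h2
        have h4 : 1 / ε ≤ q / 2 := by nlinarith
        linarith
      · linarith
    have hscale : ∀ b ≤ B, 1 * L3 B qw b ≤ 33000 * P b := by
      intro b _
      show 1 * L3 B qw b ≤ 33000 * (4 ^ b * q)
      unfold L3
      have h4 : (0:ℝ) < 4 ^ b := by positivity
      calc 1 * (32 * 4 ^ b * (qw + 3 * Real.log (2 ^ B) + 7))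
          ≤ 1 * (32 * 4 ^ b * (1016 * q)) := by gcongr
        _ = 32512 * (4 ^ b * q) := by ring
        _ ≤ 33000 * (4 ^ b * q) := by
            apply mul_le_mul_of_nonneg_right (by norm_num) (by positivity)
    have hεq : ε * ((qw + 11) / p) ≤ 1008 := by
      have h4 : (qw + 11) / p = 1 + w / p + 13 / p := by
        rw [hqw]; field_simp; ring
      have h5 : 13 / p ≤ 7 := by rw [div_le_iff₀ hp0]; linarith
      have h6 : ε * (w / p) ≤ 1000 := by
        rw [← mul_div_assoc, div_le_iff₀ hp0]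
        linarith
      rw [h4]
      nlinarith
    have hWA' : W ⊆ A' := by
      rintro _ ⟨_, ⟨x, hx, _, ⟨_, ⟨y, hy, z, hz, rfl⟩, rfl⟩, rfl⟩, g, hg, rfl⟩
      obtain ⟨k, hk, f, hf, hyz⟩ := hMM y (hK₁AM hy).2 z (hK₁AM hz).2
      have hqp0 : 0 ≤ (qw + 11) / p := div_nonneg (by linarith) hp0.le
      have hg' : (1:ℝ) • g ∈ Ys μ N P (62 * Real.exp 1 * (2 * Real.exp 2 * 33000)) :=
        Ys_scale hsym hlc hBN zero_le_one le_rfl (by positivity) (by norm_num) hL31
          (fun b _ => hP1 b) hscale hg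
      rw [one_smul] at hg'
      have hf' : (11 / (2:ℝ) ^ B) • f ∈ Ys μ N P (720 * 149 * 1008) := by
        refine G_subset_Ys hsym hlc (by linarith) hP0 (by norm_num) ?_
        refine G_mono ?_ (smul_mem_G h11B hf)
        calc 11 / (2:ℝ) ^ B * (720 * Real.exp 3 * ((qw + 11) / p))
            ≤ ε * (720 * Real.exp 3 * ((qw + 11) / p)) :=
              mul_le_mul_of_nonneg_right h11ε (by positivity)
          _ = 720 * Real.exp 3 * (ε * ((qw + 11) / p)) := by ring
          _ ≤ 720 * 149 * 1008 := by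
              apply mul_le_mul (by linarith) hεq (by positivity) (by norm_num)
      refine ⟨x + (44 / (2:ℝ) ^ B) • k, ⟨x, (hK₁AM hx).1, _,
        smul_mem_dil hKconv h0K (by positivity) hB44 hε0 hk, rfl⟩,
        (11 / (2:ℝ) ^ B) • f + g, ?_, ?_⟩
      · refine Ys_mono ?_ (add_mem_Ys hf' hg')
        have : 62 * Real.exp 1 * (2 * Real.exp 2 * 33000) =
          4092000 * (Real.exp 2 * Real.exp 1) := by ring
        rw [this]; linarith
      · show x + (44 / (2:ℝ) ^ B) • k + ((11 / (2:ℝ) ^ B) • f + g) =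
          x + (11 / (2:ℝ) ^ B) • (y - z) + g
        rw [hyz]
        have e10 : (44 / (2:ℝ) ^ B) • k = (11 / (2:ℝ) ^ B) • ((4:ℝ) • k) := by
          rw [smul_smul]; congr 1; ring
        rw [e10]
        module
    have hWc : IsCompact W := by
      have hAAc : IsCompact (K₁ - K₁) := by rw [sub_eq_add_neg]; exact hK₁c.add hK₁c.neg
      exact (hK₁c.add (hAAc.smul _)).add (isCompact_Ys hsym hlc (by positivity) hL31)
    have hcW : μ.real Wᶜ = 1 - μ.real W := by
      rw [measureReal_compl hWc.measurableSet]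
      simp
    have hmono := measureReal_mono (μ := μ) hWA' (measure_ne_top μ _)
    have h1 : 1 - a' ≤ Real.exp (-qw) := by linarith
    have h2 : 1 / 2 ≤ a' := by
      have : Real.exp (-w) ≤ 1 := by linarith
      linarith
    calc 2 * Real.exp p * a * (1 - a') ≤ 2 * Real.exp p * 1 * Real.exp (-qw) := by
          apply mul_le_mul _ h1 (by linarith) (by positivity)
          exact mul_le_mul_of_nonneg_left ha1 (by positivity)
      _ = 2 * (Real.exp (-qw) * Real.exp p) := by ring
      _ ≤ (1 - a) * (1 / 2) := by linarith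
      _ ≤ (1 - a) * a' := mul_le_mul_of_nonneg_left h2 hc0.le

end Pool.CIP
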