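import Pool.Agent.CIP.FO
import Pool.Agent.CIP.EM3

set_option autoImplicit false

open MeasureTheory Pointwise Set Filter Topology

namespace Pool.CIP

variable {n : ℕ} {μ : Measure (E n)}

/-- The support function of an intersection is an infimal convolution. -/
lemma cap_support {P Q : Set (E n)} (hPc : IsCompact P) (hP : Convex ℝ P) (hQc : IsCompact Q)
    (hQ : Convex ℝ Q) (h0P : (0 : E n) ∈ P) (h0Q : (0 : E n) ∈ Q) (v : E n) {m δ : ℝ}
    (hδ : 0 < δ) (hm : ∀ x ∈ P ∩ Q, inner ℝ v x ≤ m) :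
    ∃ w : E n, ∀ x ∈ P, ∀ y ∈ Q, inner ℝ w x + inner ℝ (v - w) y ≤ m + δ := by
  set F : E n × E n → E n × ℝ := fun z => (z.1 - z.2, inner ℝ v z.2) with hF
  have hFlin : IsLinearMap ℝ F := by
    constructor
    · intro x y
      simp only [hF, Prod.fst_add, Prod.snd_add, inner_add_right, Prod.mk_add_mk, Prod.mk.injEq,
        and_true]
      abel
    · intro c x
      simp only [hF, Prod.smul_fst, Prod.smul_snd, inner_smul_right, Prod.smul_mk, smul_eq_mul,
        smul_sub]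
  have hFc : Continuous F := by
    simp only [hF]
    fun_prop
  set C : Set (E n × ℝ) := F '' (P ×ˢ Q) with hC
  have hCconv : Convex ℝ C := (hP.prod hQ).is_linear_image hFlin
  have hCc : IsCompact C := (hPc.prod hQc).image hFc
  have hm0 : 0 ≤ m := by
    have := hm 0 ⟨h0P, h0Q⟩
    simpa using this
  have hnot : ((0 : E n), m + δ) ∉ C := by
    rintro ⟨⟨x, y⟩, ⟨hx, hy⟩, hxy⟩
    simp only [hF, Prod.mk.injEq] at hxy
    have h1 : x = y := sub_eq_zero.1 hxy.1
    have h2 := hm y ⟨h1 ▸ hx, hy⟩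
    linarith [hxy.2]
  obtain ⟨f, u, h1, h2⟩ := geometric_hahn_banach_closed_point hCconv hCc.isClosed hnot
  set τ : ℝ := f (0, 1) with hτ
  set g : E n →L[ℝ] ℝ := f.comp (ContinuousLinearMap.inl ℝ (E n) ℝ) with hg
  set w' : E n := (InnerProductSpace.toDual ℝ (E n)).symm g with hw'
  have hin : ∀ x : E n, inner ℝ w' x = f (x, 0) := by
    intro x
    have : inner ℝ w' x = g x := InnerProductSpace.toDual_symm_apply
    rw [this, hg]
    simp
  have hf : ∀ (x : E n) (r : ℝ), f (x, r) = inner ℝ w' x + r * τ := by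
    intro x r
    have e : ((x, r) : E n × ℝ) = (x, 0) + r • ((0 : E n), (1:ℝ)) := by simp
    rw [e, map_add, map_smul, hin, hτ, smul_eq_mul]
  have h00 : f ((0 : E n), (0:ℝ)) < u := h1 _ ⟨(0, 0), ⟨h0P, h0Q⟩, by simp [hF]⟩
  have hτpos : 0 < τ := by
    rw [hf] at h00 h2
    simp only [inner_zero_right, zero_mul, add_zero, zero_add] at h00 h2
    by_contra hcon
    push Not at hcon
    have : (m + δ) * τ ≤ 0 := mul_nonpos_of_nonneg_of_nonpos (by linarith) hcon
    linarith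
  refine ⟨(1 / τ) • w', fun x hx y hy => ?_⟩
  have h3 : f (x - y, inner ℝ v y) < u := h1 _ ⟨(x, y), ⟨hx, hy⟩, rfl⟩
  rw [hf] at h3 h2
  simp only [inner_zero_right, zero_add] at h2
  have h4 : inner ℝ w' (x - y) + inner ℝ v y * τ ≤ (m + δ) * τ := by linarith
  rw [inner_sub_right] at h4
  have e : inner ℝ ((1 / τ) • w') x + inner ℝ (v - (1 / τ) • w') y =
      (inner ℝ w' x - inner ℝ w' y + inner ℝ v y * τ) / τ := by
    rw [inner_sub_left, inner_smul_left, inner_smul_left]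
    simp only [conj_trivial]
    field_simp
    ring
  rw [e, div_le_iff₀ hτpos]
  exact h4

/-- tails on a subset of a body, in terms of the intersection with a centroid body -/
lemma cap_tail [IsProbabilityMeasure μ] (hsym : μ.map (fun x => -x) = μ) (hlc : LC μ)
    {A P : Set (E n)} (hPc : IsCompact P) (hP : Convex ℝ P) (h0P : (0 : E n) ∈ P) (hAP : A ⊆ P)
    {s : ℝ} (hs : 1 ≤ s) (v : E n) {m δ : ℝ} (hδ : 0 < δ)
    (hmx : ∀ x ∈ P ∩ G μ s (Real.exp 1), inner ℝ v x ≤ m) :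
    μ.real (A ∩ {x | m + 2 * δ < inner ℝ v x}) ≤ Real.exp (-s) := by
  have hfin : ∀ q : ℝ, 0 < q → ∀ v : E n, mq μ q v < ⊤ := fun q hq v => mq_lt_top hsym hlc hq v
  have he1 := Real.exp_pos 1
  obtain ⟨w, hw⟩ := cap_support hPc hP (isCompact_G s (Real.exp 1)) convex_G h0P
    (zero_mem_G he1.le) v hδ hmx
  obtain ⟨z, hz, hzv⟩ := exists_support hfin hs (v - w) he1.le
  refine (measureReal_mono ?_ (measure_ne_top μ _)).trans
    (markov_hm hfin (by linarith : 0 < s) (v - w) hδ)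
  intro x hx
  have h1 := hw x (hAP hx.1) z hz
  have h2 : m + 2 * δ < inner ℝ v x := hx.2
  show Real.exp 1 * hm μ s (v - w) + δ ≤ inner ℝ (v - w) x
  rw [hzv] at h1
  rw [inner_sub_left]
  linarith

/-! ### finite Minkowski sums -/

lemma isCompact_sum' (C : ℕ → Set (E n)) (s : Finset ℕ) (h : ∀ b ∈ s, IsCompact (C b)) :
    IsCompact (∑ b ∈ s, C b) := by
  classical
  induction s using Finset.induction_on with
  | empty => simp
  | insert a s ha ih =>
    rw [Finset.sum_insert ha]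
    exact (h a (Finset.mem_insert_self a s)).add
      (ih fun b hb => h b (Finset.mem_insert_of_mem hb))

lemma convex_sum' (C : ℕ → Set (E n)) (s : Finset ℕ) (h : ∀ b ∈ s, Convex ℝ (C b)) :
    Convex ℝ (∑ b ∈ s, C b) := by
  classical
  induction s using Finset.induction_on with
  | empty =>
    rw [Finset.sum_empty, ← Set.singleton_zero]
    exact convex_singleton 0
  | insert a s ha ih =>
    rw [Finset.sum_insert ha]
    exact (h a (Finset.mem_insert_self a s)).add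
      (ih fun b hb => h b (Finset.mem_insert_of_mem hb))

lemma sum_mem_sum (C : ℕ → Set (E n)) (s : Finset ℕ) (z : ℕ → E n) (h : ∀ b ∈ s, z b ∈ C b) :
    ∑ b ∈ s, z b ∈ ∑ b ∈ s, C b :=
  Set.finsetSum_mem_finsetSum s C z h

lemma exists_of_mem_sum {C : ℕ → Set (E n)} {s : Finset ℕ} {x : E n} (h : x ∈ ∑ b ∈ s, C b) :
    ∃ z : ℕ → E n, (∀ b ∈ s, z b ∈ C b) ∧ ∑ b ∈ s, z b = x := by
  obtain ⟨g, hg, hx⟩ := (Set.mem_finsetSum s C x).1 h
  exact ⟨g, fun b hb => hg hb, hx⟩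

/-- Enlargement of a compact convex set, with intersections of a body and centroid bodies. -/
theorem enlR [IsProbabilityMeasure μ] (hsym : μ.map (fun x => -x) = μ) (hlc : LC μ)
    {B : ℕ} (hB : 1 ≤ B) {q : ℝ} (hq : 1 ≤ q) {A P : Set (E n)}
    (hAc : IsCompact A) (hAconv : Convex ℝ A) (hPc : IsCompact P) (hP : Convex ℝ P)
    (h0P : (0 : E n) ∈ P) (hAP : A ⊆ P) (hA : 5 * Real.exp (-q) ≤ μ.real A) :
    μ.real (A + (11 / 2 ^ B : ℝ) • (A - A) + (G μ (L3 B q 0) (42 * Real.exp 1) +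
      ∑ b ∈ Finset.range (B + 1), (20 / 2 ^ b : ℝ) • (P ∩ G μ (L3 B q b) (Real.exp 1))))ᶜ ≤
      Real.exp (-q) := by
  have hfin : ∀ q : ℝ, 0 < q → ∀ v : E n, mq μ q v < ⊤ := fun q hq v => mq_lt_top hsym hlc hq v
  have hAne : A.Nonempty := nonempty_of_real (by positivity) hA
  have hexpq := Real.exp_pos (-q)
  have he1 := Real.exp_pos 1
  have hQ1 : ∀ b ≤ B, 1 ≤ L3 B q b := fun b _ => hq.trans (L3_ge hq b)
  have hL0 : 0 < L3 B q 0 := by have := hQ1 0 (by omega); linarith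
  have hexpL : ∀ b, Real.exp (-(L3 B q b)) ≤ Real.exp (-q) := fun b =>
    Real.exp_le_exp.2 (by have := L3_ge (B := B) hq b; linarith)
  set C : ℕ → Set (E n) := fun b => P ∩ G μ (L3 B q b) (Real.exp 1) with hCdef
  have hCc : ∀ b, IsCompact (C b) := fun b => hPc.inter (isCompact_G _ _)
  have hCconv : ∀ b, Convex ℝ (C b) := fun b => hP.inter convex_G
  have h0C : ∀ b, (0 : E n) ∈ C b := fun b => ⟨h0P, zero_mem_G he1.le⟩
  set S : Set (E n) := ∑ b ∈ Finset.range (B + 1), (20 / 2 ^ b : ℝ) • C b with hS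
  set W := A + (11 / 2 ^ B : ℝ) • (A - A) + (G μ (L3 B q 0) (42 * Real.exp 1) + S) with hW
  have hAAc : IsCompact (A - A) := by rw [sub_eq_add_neg]; exact hAc.add hAc.neg
  have hSc : IsCompact S := isCompact_sum' _ _ fun b _ => (hCc b).smul _
  have hSconv : Convex ℝ S := convex_sum' _ _ fun b _ => (hCconv b).smul _
  have hWc : IsCompact W := (hAc.add (hAAc.smul _)).add ((isCompact_G _ _).add hSc)
  have hWconv : Convex ℝ W :=
    (hAconv.add ((hAconv.sub hAconv).smul _)).add (convex_G.add hSconv)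
  refine enl_genQ hsym hlc (core3_holds hlc) hB hq hAc.measurableSet hWc hWconv ?_
  intro v δ hδ
  have hpart := part_ge hsym hlc hL0 (L3_ge hq 0) hA v hδ
  set t := Real.exp 1 * hm μ (L3 B q 0) v + δ with ht
  have hm0 := hm_nonneg (μ := μ) (L3 B q 0) v
  have ht0 : 0 < t := by positivity
  obtain ⟨x₁, hx₁A, hx₁⟩ := hAc.exists_isMaxOn hAne (f := fun x : E n => (inner ℝ v x : ℝ))
    (by fun_prop)
  obtain ⟨x₀, hx₀A, hx₀⟩ := hAc.exists_isMinOn hAne (f := fun x : E n => (inner ℝ v x : ℝ))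
    (by fun_prop)
  have hmax : ∀ b, ∃ z ∈ C b, ∀ y ∈ C b, inner ℝ v y ≤ inner ℝ v z := by
    intro b
    obtain ⟨z, hz, hzm⟩ := (hCc b).exists_isMaxOn ⟨0, h0C b⟩
      (f := fun x : E n => (inner ℝ v x : ℝ)) (by fun_prop)
    exact ⟨z, hz, fun y hy => hzm hy⟩
  choose z hz hzm using hmax
  have hz0 : ∀ b, 0 ≤ inner ℝ v (z b) := by
    intro b
    have := hzm b 0 (h0C b)
    simpa using this
  have hT : ∀ b ≤ B, μ.real (A ∩ {x | inner ℝ v (z b) + 2 * (δ / 4) < inner ℝ v x}) ≤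
      Real.exp (-(L3 B q b)) := fun b hb =>
    cap_tail hsym hlc hPc hP h0P hAP (hQ1 b hb) v (by positivity) (hzm b)
  refine ⟨max (-t) (inner ℝ v x₀), inner ℝ v x₁,
    fun b => inner ℝ v (z b) + 2 * (δ / 4), fun x hx => hx₁ hx, ?_, ?_, hT, ?_⟩
  · rcases le_total (-t) (inner ℝ v x₀) with h | h
    · rw [max_eq_right h]
      have e : A ∩ hs v (inner ℝ v x₀) = A := inter_eq_left.2 fun x hx => hx₀ hx
      rw [e]; linarith
    · rw [max_eq_left h]
      exact hpart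
  · intro b hb
    have h0 := hz0 b
    refine max_le ?_ ?_
    · show -t ≤ inner ℝ v (z b) + 2 * (δ / 4)
      linarith
    · by_contra hcon
      push Not at hcon
      have h1 : A ⊆ A ∩ {x | inner ℝ v (z b) + 2 * (δ / 4) < inner ℝ v x} := fun x hx =>
        ⟨hx, lt_of_lt_of_le hcon (hx₀ hx)⟩
      have h2 := (measureReal_mono (μ := μ) h1 (measure_ne_top μ _)).trans (hT b hb)
      have h3 := hexpL b
      linarith
  · intro bd hb
    obtain ⟨g, hg, hgv⟩ := exists_support hfin (hQ1 0 (by omega)) v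
      (show 0 ≤ 42 * Real.exp 1 by positivity)
    have hmemS : ∑ b ∈ Finset.range (B + 1), (20 / 2 ^ b : ℝ) • z b ∈ S :=
      sum_mem_sum _ _ _ fun b _ => ⟨z b, hz b, rfl⟩
    have hw := hb (x₁ + (11 / 2 ^ B : ℝ) • (x₁ - x₀) +
      (g + ∑ b ∈ Finset.range (B + 1), (20 / 2 ^ b : ℝ) • z b))
      ⟨_, ⟨x₁, hx₁A, _, ⟨_, ⟨x₁, hx₁A, x₀, hx₀A, rfl⟩, rfl⟩, rfl⟩, _,
        ⟨g, hg, _, hmemS, rfl⟩, rfl⟩
    rw [inner_add_right, inner_add_right, inner_add_right, inner_smul_right, inner_sub_right,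
      hgv, inner_sum] at hw
    simp only [inner_smul_right] at hw
    have hle1 : -t ≤ max (-t) (inner ℝ v x₀) := le_max_left _ _
    have hle2 : inner ℝ v x₀ ≤ max (-t) (inner ℝ v x₀) := le_max_right _ _
    set l := max (-t) (inner ℝ v x₀) with hl
    have hpos : (0:ℝ) < 11 / 2 ^ B := by positivity
    have h6 : (11 / 2 ^ B : ℝ) * (inner ℝ v x₁ - l) ≤
        (11 / 2 ^ B : ℝ) * (inner ℝ v x₁ - inner ℝ v x₀) :=
      mul_le_mul_of_nonneg_left (by linarith) hpos.le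
    have hsum : ∑ b ∈ Finset.range (B + 1), (1 / 2 ^ b : ℝ) * (inner ℝ v (z b) + 2 * (δ / 4) - l) ≤
        ∑ b ∈ Finset.range (B + 1), (1 / 2 ^ b : ℝ) * inner ℝ v (z b) + 2 * (2 * (δ / 4) + t) := by
      have h8 : ∑ b ∈ Finset.range (B + 1),
          (1 / 2 ^ b : ℝ) * (inner ℝ v (z b) + 2 * (δ / 4) - l) ≤
          ∑ b ∈ Finset.range (B + 1), ((1 / 2 ^ b : ℝ) * inner ℝ v (z b) +
            (1 / 2 ^ b : ℝ) * (2 * (δ / 4) + t)) := by
        refine Finset.sum_le_sum fun b _ => ?_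
        have h9 : (0:ℝ) < 1 / 2 ^ b := by positivity
        have h10 : (1 / 2 ^ b : ℝ) * (inner ℝ v (z b) + 2 * (δ / 4) - l) ≤
            (1 / 2 ^ b : ℝ) * (inner ℝ v (z b) + (2 * (δ / 4) + t)) :=
          mul_le_mul_of_nonneg_left (by linarith) h9.le
        linarith
      rw [Finset.sum_add_distrib, ← Finset.sum_mul] at h8
      have h11 := sum_half_le B
      have h12 : (∑ b ∈ Finset.range (B + 1), (1 / 2 ^ b : ℝ)) * (2 * (δ / 4) + t) ≤
          2 * (2 * (δ / 4) + t) := mul_le_mul_of_nonneg_right h11 (by linarith)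
      linarith
    have h20 : ∑ b ∈ Finset.range (B + 1), (20 / 2 ^ b : ℝ) * inner ℝ v (z b) =
        20 * ∑ b ∈ Finset.range (B + 1), (1 / 2 ^ b : ℝ) * inner ℝ v (z b) := by
      rw [Finset.mul_sum]
      refine Finset.sum_congr rfl fun b _ => ?_
      ring
    rw [h20] at hw
    have ht' : Real.exp 1 * hm μ (L3 B q 0) v = t - δ := by rw [ht]; ring
    have e42 : 42 * Real.exp 1 * hm μ (L3 B q 0) v = 42 * (t - δ) := by rw [← ht']; ring
    rw [e42] at hw
    linarith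

end Pool.CIP
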