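import Pool.Agent.CIP.FP

set_option autoImplicit false

open MeasureTheory Pointwise Set Filter Topology

namespace Pool.CIP

variable {n : ℕ} {μ : Measure (E n)}

/-- a large body around `K` -/
noncomputable def Mb (μ : Measure (E n)) (K : Set (E n)) (q : ℝ) : Set (E n) :=
  (2:ℝ) • K + G μ (60 * (q + 11)) (3 * Real.exp 1)

lemma Mb_compact (μ : Measure (E n)) {K : Set (E n)} (hKc : IsCompact K) (q : ℝ) :
    IsCompact (Mb μ K q) := (hKc.smul _).add (isCompact_G _ _)

lemma Mb_convex (μ : Measure (E n)) {K : Set (E n)} (hKconv : Convex ℝ K) (q : ℝ) :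
    Convex ℝ (Mb μ K q) := (hKconv.smul _).add convex_G

lemma zero_mem_Mb (μ : Measure (E n)) {K : Set (E n)} (h0 : (0 : E n) ∈ K) (q : ℝ) :
    (0 : E n) ∈ Mb μ K q :=
  ⟨(2:ℝ) • 0, ⟨0, h0, rfl⟩, 0, zero_mem_G (by positivity), by simp⟩

/-- `Mb` has measure at least `1 - exp (-q)` -/
lemma Mb_large [IsProbabilityMeasure μ] (hsym : μ.map (fun x => -x) = μ) (hlc : LC μ)
    {K : Set (E n)} (hKc : IsCompact K) (hKconv : Convex ℝ K)
    {q : ℝ} (hq : 1 ≤ q) (hK : 5 * Real.exp (-q) ≤ μ.real K) :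
    μ.real (Mb μ K q)ᶜ ≤ Real.exp (-q) := by
  have hcore := core2_holds hlc 5 (by norm_num) q hq
  set L := 12 * ((5:ℕ):ℝ) * (q + 3 * Real.log ((5:ℕ):ℝ) + 5) with hL
  have hlog5 : Real.log ((5:ℕ):ℝ) ≤ 2 := by
    refine le_trans (Real.log_le_log (by norm_num) ?_) log_six_le
    norm_num
  have hlog50 : 0 ≤ Real.log ((5:ℕ):ℝ) := Real.log_nonneg (by norm_num)
  have hLq : q ≤ L := by rw [hL]; push_cast at hlog50 ⊢; linarith
  have hLup : L ≤ 60 * (q + 11) := by rw [hL]; push_cast at hlog5 ⊢; linarith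
  have hR : (1 + 5 / ((5:ℕ):ℝ)) = 2 := by norm_num
  rw [hR] at hcore
  have key := enlP_sym hsym hlc hcore le_rfl (by linarith) hLq hKc hKconv hK
  refine le_trans (measureReal_mono ?_ (measure_ne_top μ _)) key
  refine compl_subset_compl.2 (add_subset_add_left ?_)
  intro x hx v
  refine (hx v).trans (mul_le_mul_of_nonneg_left ?_ (by positivity))
  exact hm_mono hsym hlc (by linarith) hLup v

/-- differences in `Mb` -/
lemma Mb_diff [IsProbabilityMeasure μ] (hsym : μ.map (fun x => -x) = μ) (hlc : LC μ)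
    {K : Set (E n)} (hKconv : Convex ℝ K) (hKs : ∀ x ∈ K, -x ∈ K)
    {p q : ℝ} (hp : 1 ≤ p) (hpq : p ≤ q) : ∀ x ∈ Mb μ K q, ∀ y ∈ Mb μ K q,
      ∃ k ∈ K, ∃ g ∈ G μ p (720 * Real.exp 3 * ((q + 11) / p)), x - y = (4:ℝ) • k + g := by
  have hp0 : 0 < p := by linarith
  rintro _ ⟨_, ⟨x, hx, rfl⟩, g, hg, rfl⟩ _ ⟨_, ⟨y, hy, rfl⟩, f, hf, rfl⟩
  refine ⟨(1/2:ℝ) • x + (1/2:ℝ) • (-y), hKconv hx (hKs y hy) (by norm_num) (by norm_num)
    (by norm_num), g - f, ?_, ?_⟩
  · have hgf : g - f ∈ G μ (60 * (q + 11)) (6 * Real.exp 1) := by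
      intro v
      rw [inner_sub_right]
      calc |inner ℝ v g - inner ℝ v f| ≤ |inner ℝ v g| + |inner ℝ v f| := abs_sub _ _
        _ ≤ 3 * Real.exp 1 * hm μ (60 * (q + 11)) v + 3 * Real.exp 1 * hm μ (60 * (q + 11)) v :=
            add_le_add (hg v) (hf v)
        _ = 6 * Real.exp 1 * hm μ (60 * (q + 11)) v := by ring
    refine G_subset hsym hlc hp (by linarith) (by positivity) ?_ hgf
    have e3 : Real.exp 3 = Real.exp 2 * Real.exp 1 := by rw [← Real.exp_add]; norm_num
    rw [e3]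
    apply le_of_eq
    ring
  · show (2:ℝ) • x + g - ((2:ℝ) • y + f) = (4:ℝ) • ((1/2:ℝ) • x + (1/2:ℝ) • (-y)) + (g - f)
    module

/-- **The three cases** (small sets, extreme sets, other sets) for convex sets, from an enlargement
theorem for compact convex subsets of the large bodies. -/
theorem main_convex_abs [IsProbabilityMeasure μ] (hsym : μ.map (fun x => -x) = μ) (hlc : LC μ)
    {A K : Set (E n)} (hAm : MeasurableSet A) (hAconv : Convex ℝ A)
    (hKc : IsCompact K) (hKconv : Convex ℝ K) (hKs : ∀ x ∈ K, -x ∈ K)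
    (hK : min (μ.real A / 2) (1 / 4) ≤ μ.real K) {p : ℝ} (hp : 2 ≤ p)
    {ε : ℝ} (hε0 : 0 < ε) (hε1 : ε ≤ 1) {B : ℕ} (hBε : 44 / ε ≤ 2 ^ B)
    {R : ℝ → Set (E n)} {Z : Set (E n)} (hRc : ∀ q, 1 ≤ q → IsCompact (R q))
    (hR : ∀ q, p ≤ q → ∀ K₁ : Set (E n), IsCompact K₁ →
      Convex ℝ K₁ → K₁ ⊆ Mb μ K q → 5 * Real.exp (-q) ≤ μ.real K₁ →
      μ.real (K₁ + (11 / 2 ^ B : ℝ) • (K₁ - K₁) + R q)ᶜ ≤ Real.exp (-q))
    (hZG : G μ p 7000000000000 ⊆ Z)
    (hZ1 : 0 < μ.real A → 4 * p ≤ -Real.log (μ.real A) → ∀ g ∈ R (-Real.log (μ.real A) + 3),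
      ∀ f ∈ G μ p (720 * 149 * 7), ((p + 3) / (-Real.log (μ.real A))) • g + f ∈ Z)
    (hZ2 : 0 < μ.real A → μ.real A < 1 → -Real.log (μ.real A) < 4 * p →
      ε * Real.log (1 / (μ.real A * (1 - μ.real A))) < 1000 * p →
      ∀ g ∈ R (Real.log (1 / (μ.real A * (1 - μ.real A))) + p + 2),
      ∀ f ∈ G μ p (720 * 149 * 1008), g + f ∈ Z) :
    2 * Real.exp p * μ.real A * (1 - μ.real (A + ε • K + Z)) ≤
      (1 - μ.real A) * μ.real (A + ε • K + Z) := by
  have hp0 : 0 < p := by linarith
  set A' := A + ε • K + Z with hA'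
  set a := μ.real A with ha
  set a' := μ.real A' with ha'
  have ha1 : a ≤ 1 := measureReal_le_one
  have ha'1 : a' ≤ 1 := measureReal_le_one
  have ha'0 : 0 ≤ a' := measureReal_nonneg
  rcases (measureReal_nonneg (μ := μ) (s := A)).eq_or_lt with h0 | hpos
  · rw [← ha] at h0
    rw [← h0]
    simpa using ha'0
  have hKpos : 0 < μ.real K := lt_of_lt_of_le (lt_min (half_pos hpos) (by norm_num)) hK
  have h0K : (0:E n) ∈ K := by
    obtain ⟨x, hx⟩ : K.Nonempty := nonempty_of_real hKpos le_rfl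
    have := hKconv hx (hKs x hx) (by norm_num : (0:ℝ) ≤ 1/2) (by norm_num : (0:ℝ) ≤ 1/2)
      (by norm_num)
    simpa using this
  have hAA' : A ⊆ A' := by
    intro x hx
    exact ⟨x + ε • (0 : E n), ⟨x, hx, _, ⟨0, h0K, rfl⟩, rfl⟩, 0, hZG (zero_mem_G (by norm_num)),
      by simp⟩
  have haa' : a ≤ a' := measureReal_mono hAA' (measure_ne_top μ _)
  rcases ha1.eq_or_lt with h1 | hlt
  · have h2 : a' = 1 := by linarith
    rw [h2, h1]; simp
  have hc0 : 0 < 1 - a := by linarith
  have hac : 0 < a * (1 - a) := mul_pos hpos hc0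
  set w := Real.log (1 / (a * (1 - a))) with hw
  have hw0' : 0 ≤ w := by
    apply Real.log_nonneg
    rw [le_div_iff₀ hac]
    nlinarith
  have h2B : (0:ℝ) < 2 ^ B := by positivity
  have hB44 : 44 / (2:ℝ) ^ B ≤ ε := by
    rw [div_le_iff₀ h2B]
    have h5 := mul_le_mul_of_nonneg_left hBε hε0.le
    have h6 : ε * (44 / ε) = 44 := by field_simp
    linarith
  have h11B : 0 ≤ 11 / (2:ℝ) ^ B := by positivity
  have h11ε : 11 / (2:ℝ) ^ B ≤ ε :=
    le_trans (div_le_div_of_nonneg_right (by norm_num) h2B.le) hB44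
  have he21 : Real.exp 2 * Real.exp 1 ≤ 149 := by
    rw [← Real.exp_add]
    exact le_trans (Real.exp_le_exp.2 (by norm_num)) exp_five_le
  have hexp3 : Real.exp 3 ≤ 149 :=
    le_trans (Real.exp_le_exp.2 (by norm_num)) exp_five_le
  rcases le_or_gt (4 * p) (-Real.log a) with hu | hu
  · -- small sets
    set u := -Real.log a with hudef
    have hau : a = Real.exp (-u) := by rw [hudef, neg_neg, Real.exp_log hpos]
    have hu8 : 8 ≤ u := by linarith
    have hu0 : 0 < u := by linarith
    have he1 := Real.exp_one_gt_d9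
    have he3 : (20:ℝ) < Real.exp 3 := by
      have h6 : Real.exp 3 = Real.exp 1 ^ 3 := by rw [← Real.exp_nat_mul]; norm_num
      have h8 : (2.7182818283 : ℝ) ^ 3 ≤ Real.exp 1 ^ 3 := by gcongr
      have h7 : (20:ℝ) < 2.7182818283 ^ 3 := by norm_num
      rw [h6]; linarith
    set qu := u + 3 with hqu
    have hqu1 : 1 ≤ qu := by linarith
    have heq := Real.exp_pos (-qu)
    have haq : 20 * Real.exp (-qu) ≤ a := by
      have h1 : a = Real.exp (-qu) * Real.exp 3 := by
        rw [hau, ← Real.exp_add]; congr 1; rw [hqu]; ring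
      rw [h1]; nlinarith
    have ha4 : a ≤ 1 / 20 := by
      have h1 : Real.exp (-u) ≤ Real.exp (-3) := Real.exp_le_exp.2 (by linarith)
      have h2 : Real.exp (-3) * Real.exp 3 = 1 := by rw [← Real.exp_add]; simp
      have h3 := Real.exp_pos (-3)
      rw [hau]; nlinarith
    have hK5 : 5 * Real.exp (-qu) ≤ μ.real K := by
      refine le_trans (le_min ?_ ?_) hK <;> linarith
    set M := Mb μ K qu with hMdef
    have hMc : IsCompact M := Mb_compact μ hKc qu
    have hMconv : Convex ℝ M := Mb_convex μ hKconv qu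
    have hMμ : μ.real Mᶜ ≤ Real.exp (-qu) := Mb_large hsym hlc hKc hKconv hqu1 hK5
    have hMM := Mb_diff (μ := μ) hsym hlc hKconv hKs (show 1 ≤ p by linarith)
      (by linarith : p ≤ qu)
    have hAM : a / 2 < μ.real (A ∩ M) := by
      have h1 : A ⊆ (A ∩ M) ∪ Mᶜ := by
        intro x hx
        by_cases hxM : x ∈ M
        · exact Or.inl ⟨hx, hxM⟩
        · exact Or.inr hxM
      have h2 := (measureReal_mono (μ := μ) h1 (measure_ne_top μ _)).trans
        (measureReal_union_le _ _)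
      rw [← ha] at h2
      linarith
    obtain ⟨K₀, hKA, hK₀c, hK₀⟩ := exists_compact_real (hAm.inter hMc.measurableSet) hAM
    have hK₀ne : K₀.Nonempty := nonempty_of_real (show 0 < a / 2 by linarith) hK₀.le
    set K₁ := convexHull ℝ K₀ with hK₁
    have hK₁c : IsCompact K₁ := compact_hull hK₀c hK₀ne
    have hK₁AM : K₁ ⊆ A ∩ M := convexHull_min hKA (hAconv.inter hMconv)
    have hK₁conv : Convex ℝ K₁ := convex_convexHull ℝ _
    have hK₁m : a / 2 ≤ μ.real K₁ :=
      hK₀.le.trans (measureReal_mono (subset_convexHull ℝ K₀) (measure_ne_top μ _))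
    have key := hR qu (by linarith) K₁ hK₁c hK₁conv (fun x hx => (hK₁AM hx).2) (by linarith)
    set W := K₁ + (11 / 2 ^ B : ℝ) • (K₁ - K₁) + R qu with hW
    have hWc : IsCompact W := by
      have hAAc : IsCompact (K₁ - K₁) := by rw [sub_eq_add_neg]; exact hK₁c.add hK₁c.neg
      exact (hK₁c.add (hAAc.smul _)).add (hRc qu hqu1)
    have hcW : μ.real Wᶜ = 1 - μ.real W := by
      rw [measureReal_compl hWc.measurableSet]
      simp
    have hW2 : 1 / 2 ≤ μ.real W := by linarith
    set lam := (p + 3) / u with hlam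
    have hlam0 : 0 < lam := by positivity
    have hlam1 : lam < 1 := by rw [hlam, div_lt_one hu0]; linarith
    have hlamu : lam * u = p + 3 := by rw [hlam]; field_simp
    have hlamq : lam * ((qu + 11) / p) ≤ 7 := by
      have h1 : lam * ((qu + 11) / p) = ((p + 3) / p) * (1 + 14 / u) := by
        rw [hlam, hqu]; field_simp; ring
      have h2 : (p + 3) / p ≤ 5 / 2 := by rw [div_le_iff₀ hp0]; linarith
      have h3 : 1 + 14 / u ≤ 14 / 5 := by
        have : 14 / u ≤ 9 / 5 := by rw [div_le_iff₀ hu0]; linarith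
        linarith
      rw [h1]
      calc (p + 3) / p * (1 + 14 / u) ≤ 5 / 2 * (14 / 5) :=
            mul_le_mul h2 h3 (by positivity) (by norm_num)
        _ = 7 := by norm_num
    have key3 := hlc.closed hK₁c.isClosed hWc.isClosed (t := 1 - lam) (by linarith) (by linarith)
      (U := A') (by
        rintro x hx _ ⟨_, ⟨k₁, hk₁, _, ⟨_, ⟨y, hy, z, hz, rfl⟩, rfl⟩, rfl⟩, g, hg, rfl⟩
        obtain ⟨k, hk, f, hf, hyz⟩ := hMM y (hK₁AM hy).2 z (hK₁AM hz).2
        have hx' : (1 - lam) • x + lam • k₁ ∈ A :=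
          hAconv (hK₁AM hx).1 (hK₁AM hk₁).1 (by linarith) hlam0.le (by ring)
        have hqp0 : 0 ≤ (qu + 11) / p := div_nonneg (by linarith) hp0.le
        have h11B1 : 11 / (2:ℝ) ^ B ≤ 1 := h11ε.trans hε1
        have hf' : (lam * (11 / (2:ℝ) ^ B)) • f ∈ G μ p (720 * 149 * 7) := by
          refine G_mono ?_ (smul_mem_G (by positivity) hf)
          calc lam * (11 / (2:ℝ) ^ B) * (720 * Real.exp 3 * ((qu + 11) / p))
              = (11 / (2:ℝ) ^ B) * (720 * Real.exp 3 * (lam * ((qu + 11) / p))) := by ring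
            _ ≤ 1 * (720 * Real.exp 3 * (lam * ((qu + 11) / p))) :=
                mul_le_mul_of_nonneg_right h11B1 (by positivity)
            _ = 720 * Real.exp 3 * (lam * ((qu + 11) / p)) := by ring
            _ ≤ 720 * 149 * 7 := by
                apply mul_le_mul (by linarith) hlamq (by positivity) (by norm_num)
        refine ⟨(1 - lam) • x + lam • k₁ + (lam * (44 / (2:ℝ) ^ B)) • k, ⟨_, hx', _,
          smul_mem_dil hKconv h0K (by positivity) ?_ hε0 hk, rfl⟩,
          (lam * (11 / (2:ℝ) ^ B)) • f + lam • g, ?_, ?_⟩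
        · calc lam * (44 / (2:ℝ) ^ B) ≤ 1 * (44 / (2:ℝ) ^ B) :=
                mul_le_mul_of_nonneg_right hlam1.le (by positivity)
            _ ≤ ε := by linarith
        · rw [add_comm]
          exact hZ1 hpos hu g hg _ hf'
        · have e10 : (1 - (1 - lam)) = lam := by ring
          rw [e10]
          show (1 - lam) • x + lam • k₁ + (lam * (44 / (2:ℝ) ^ B)) • k +
            ((lam * (11 / (2:ℝ) ^ B)) • f + lam • g) =
              (1 - lam) • x + lam • (k₁ + (11 / (2:ℝ) ^ B) • (y - z) + g)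
          rw [hyz]
          have e11 : (lam * (44 / (2:ℝ) ^ B)) • k = (lam * (11 / (2:ℝ) ^ B)) • ((4:ℝ) • k) := by
            rw [smul_smul]; congr 1; ring
          rw [e11]
          module)
    have key2 := ENNReal.toReal_mono (measure_ne_top μ _) key3
    rw [ENNReal.toReal_mul, ← ENNReal.toReal_rpow, ← ENNReal.toReal_rpow] at key2
    have key4 : μ.real K₁ ^ (1 - lam) * μ.real W ^ (1 - (1 - lam)) ≤ a' := key2
    have e1 : 1 - (1 - lam) = lam := by ring
    rw [e1] at key4
    have h1 : (a / 2) ^ (1 - lam) * (1 / 2 : ℝ) ^ lam ≤ a' := by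
      refine le_trans ?_ key4
      apply mul_le_mul
      · exact Real.rpow_le_rpow (by positivity) hK₁m (by linarith)
      · exact Real.rpow_le_rpow (by norm_num) hW2 hlam0.le
      · positivity
      · positivity
    have h2 : (a / 2) ^ (1 - lam) * (1 / 2 : ℝ) ^ lam = a ^ (1 - lam) / 2 := by
      rw [div_eq_mul_one_div a, Real.mul_rpow hpos.le (by norm_num), mul_assoc,
        ← Real.rpow_add (by norm_num)]
      have : 1 - lam + lam = 1 := by ring
      rw [this, Real.rpow_one]
      ring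
    have h3 : a ^ (1 - lam) = a * (Real.exp p * Real.exp 3) := by
      rw [hau, ← Real.exp_mul, ← Real.exp_add, ← Real.exp_add]
      congr 1
      linear_combination hlamu
    rw [h2, h3] at h1
    have hep := Real.exp_pos p
    have h5 : 10 * (Real.exp p * a) ≤ a' := by
      have h6 : 0 < Real.exp p * a := by positivity
      nlinarith
    have h8 : 2 * Real.exp p * a * (1 - a') ≤ 2 * Real.exp p * a := by
      have : 0 ≤ 2 * Real.exp p * a := by positivity
      nlinarith
    have h9 : a' / 2 ≤ (1 - a) * a' := by nlinarith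
    linarith
  -- larger sets
  rcases le_or_gt (1000 * p) (ε * w) with hcase | hcase
  · -- extreme sets
    have key := main_borel hsym hlc hAm hKc hKconv hKs hK hp (θ := ε)
      (Or.inr (by rw [← ha, ← hw]; exact hcase))
    have hsub : A + ε • K + G μ p 7000000000000 ⊆ A' :=
      add_subset_add_left hZG
    have hmono := measureReal_mono (μ := μ) hsub (measure_ne_top μ _)
    rw [← ha] at key
    have hep := Real.exp_pos p
    calc 2 * Real.exp p * a * (1 - a')
        ≤ 2 * Real.exp p * a * (1 - μ.real (A + ε • K + G μ p 7000000000000)) :=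
          mul_le_mul_of_nonneg_left (by linarith) (by positivity)
      _ ≤ (1 - a) * μ.real (A + ε • K + G μ p 7000000000000) := key
      _ ≤ (1 - a) * a' := mul_le_mul_of_nonneg_left hmono hc0.le
  · -- the other sets
    have hexp : Real.exp (-w) = a * (1 - a) := by
      rw [hw, one_div, Real.log_inv, neg_neg, Real.exp_log hac]
    set qw := w + p + 2 with hqw
    have hqw1 : 1 ≤ qw := by linarith
    have he2 : (7:ℝ) < Real.exp 2 := by
      have h6 : Real.exp 2 = Real.exp 1 * Real.exp 1 := by rw [← Real.exp_add]; norm_num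
      have h7 := Real.exp_one_gt_d9
      rw [h6]; nlinarith
    have hsplit : Real.exp (-qw) * Real.exp 2 * Real.exp p = Real.exp (-w) := by
      rw [← Real.exp_add, ← Real.exp_add]; congr 1; rw [hqw]; ring
    have hep := Real.exp_pos p
    have heq := Real.exp_pos (-qw)
    have hep3 : 3 ≤ Real.exp p := by
      have := Real.add_one_le_exp p
      linarith
    have h4q : 7 * (Real.exp (-qw) * Real.exp p) ≤ Real.exp (-w) := by
      rw [← hsplit]
      have h5 : 0 < Real.exp (-qw) * Real.exp p := by positivity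
      nlinarith
    have h4q' : 21 * Real.exp (-qw) ≤ Real.exp (-w) := by
      refine le_trans ?_ h4q
      have : Real.exp (-qw) * 3 ≤ Real.exp (-qw) * Real.exp p :=
        mul_le_mul_of_nonneg_left hep3 heq.le
      linarith
    have haw : Real.exp (-w) ≤ a := by nlinarith
    have hcw : Real.exp (-w) ≤ 1 - a := by nlinarith
    have hK5 : 5 * Real.exp (-qw) ≤ μ.real K := by
      refine le_trans (le_min ?_ ?_) hK
      · linarith
      · have : Real.exp (-w) ≤ 1 := by linarith
        linarith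
    set M := Mb μ K qw with hMdef
    have hMc : IsCompact M := Mb_compact μ hKc qw
    have hMconv : Convex ℝ M := Mb_convex μ hKconv qw
    have hMμ : μ.real Mᶜ ≤ Real.exp (-qw) := Mb_large hsym hlc hKc hKconv hqw1 hK5
    have hMM := Mb_diff (μ := μ) hsym hlc hKconv hKs (show 1 ≤ p by linarith)
      (by linarith : p ≤ qw)
    have hAM : 6 * Real.exp (-qw) ≤ μ.real (A ∩ M) := by
      have h1 : A ⊆ (A ∩ M) ∪ Mᶜ := by
        intro x hx
        by_cases hxM : x ∈ M
        · exact Or.inl ⟨hx, hxM⟩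
        · exact Or.inr hxM
      have h2 := (measureReal_mono (μ := μ) h1 (measure_ne_top μ _)).trans
        (measureReal_union_le _ _)
      rw [← ha] at h2
      linarith
    obtain ⟨K₀, hKA, hK₀c, hK₀⟩ := exists_compact_real (hAm.inter hMc.measurableSet)
      (show 5 * Real.exp (-qw) < μ.real (A ∩ M) by linarith)
    have hK₀ne : K₀.Nonempty :=
      nonempty_of_real (show 0 < 5 * Real.exp (-qw) by positivity) hK₀.le
    set K₁ := convexHull ℝ K₀ with hK₁
    have hK₁c : IsCompact K₁ := compact_hull hK₀c hK₀ne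
    have hK₁AM : K₁ ⊆ A ∩ M := convexHull_min hKA (hAconv.inter hMconv)
    have hK₁conv : Convex ℝ K₁ := convex_convexHull ℝ _
    have hK₁m : 5 * Real.exp (-qw) ≤ μ.real K₁ :=
      hK₀.le.trans (measureReal_mono (subset_convexHull ℝ K₀) (measure_ne_top μ _))
    have key := hR qw (by linarith) K₁ hK₁c hK₁conv (fun x hx => (hK₁AM hx).2) hK₁m
    set W := K₁ + (11 / 2 ^ B : ℝ) • (K₁ - K₁) + R qw with hW
    have hεq : ε * ((qw + 11) / p) ≤ 1008 := by
      have h4 : (qw + 11) / p = 1 + w / p + 13 / p := by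
        rw [hqw]; field_simp; ring
      have h5 : 13 / p ≤ 7 := by rw [div_le_iff₀ hp0]; linarith
      have h6 : ε * (w / p) ≤ 1000 := by
        rw [← mul_div_assoc, div_le_iff₀ hp0]
        linarith
      rw [h4]
      nlinarith
    have hWA' : W ⊆ A' := by
      rintro _ ⟨_, ⟨x, hx, _, ⟨_, ⟨y, hy, z, hz, rfl⟩, rfl⟩, rfl⟩, g, hg, rfl⟩
      obtain ⟨k, hk, f, hf, hyz⟩ := hMM y (hK₁AM hy).2 z (hK₁AM hz).2
      have hqp0 : 0 ≤ (qw + 11) / p := div_nonneg (by linarith) hp0.le
      have hf' : (11 / (2:ℝ) ^ B) • f ∈ G μ p (720 * 149 * 1008) := by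
        refine G_mono ?_ (smul_mem_G h11B hf)
        calc 11 / (2:ℝ) ^ B * (720 * Real.exp 3 * ((qw + 11) / p))
            ≤ ε * (720 * Real.exp 3 * ((qw + 11) / p)) :=
              mul_le_mul_of_nonneg_right h11ε (by positivity)
          _ = 720 * Real.exp 3 * (ε * ((qw + 11) / p)) := by ring
          _ ≤ 720 * 149 * 1008 := by
              apply mul_le_mul (by linarith) hεq (by positivity) (by norm_num)
      refine ⟨x + (44 / (2:ℝ) ^ B) • k, ⟨x, (hK₁AM hx).1, _,
        smul_mem_dil hKconv h0K (by positivity) hB44 hε0 hk, rfl⟩,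
        (11 / (2:ℝ) ^ B) • f + g, ?_, ?_⟩
      · rw [add_comm]
        exact hZ2 hpos hlt hu hcase g hg _ hf'
      · show x + (44 / (2:ℝ) ^ B) • k + ((11 / (2:ℝ) ^ B) • f + g) =
          x + (11 / (2:ℝ) ^ B) • (y - z) + g
        rw [hyz]
        have e10 : (44 / (2:ℝ) ^ B) • k = (11 / (2:ℝ) ^ B) • ((4:ℝ) • k) := by
          rw [smul_smul]; congr 1; ring
        rw [e10]
        module
    have hWc : IsCompact W := by
      have hAAc : IsCompact (K₁ - K₁) := by rw [sub_eq_add_neg]; exact hK₁c.add hK₁c.neg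
      exact (hK₁c.add (hAAc.smul _)).add (hRc qw hqw1)
    have hcW : μ.real Wᶜ = 1 - μ.real W := by
      rw [measureReal_compl hWc.measurableSet]
      simp
    have hmono := measureReal_mono (μ := μ) hWA' (measure_ne_top μ _)
    have h1 : 1 - a' ≤ Real.exp (-qw) := by linarith
    have h2 : 1 / 2 ≤ a' := by
      have : Real.exp (-w) ≤ 1 := by linarith
      linarith
    calc 2 * Real.exp p * a * (1 - a') ≤ 2 * Real.exp p * 1 * Real.exp (-qw) := by
          apply mul_le_mul _ h1 (by linarith) (by positivity)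
          exact mul_le_mul_of_nonneg_left ha1 (by positivity)
      _ = 2 * (Real.exp (-qw) * Real.exp p) := by ring
      _ ≤ (1 - a) * (1 / 2) := by linarith
      _ ≤ (1 - a) * a' := mul_le_mul_of_nonneg_left h2 hc0.le

end Pool.CIP
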