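import Pool.Agent.CIP.FQ

set_option autoImplicit false

open MeasureTheory Pointwise Set Filter Topology

namespace Pool.CIP

variable {n : ℕ} {μ : Measure (E n)}

/-- the body of the enlargement, before rescaling -/
noncomputable def Rc (μ : Measure (E n)) (K : Set (E n)) (B : ℕ) (q : ℝ) : Set (E n) :=
  G μ (L3 B q 0) (42 * Real.exp 1) +
    ∑ b ∈ Finset.range (B + 1), (20 / 2 ^ b : ℝ) • (Mb μ K q ∩ G μ (L3 B q b) (Real.exp 1))

/-- the body of the enlargement: a centroid body and intersections of `K` with larger centroid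
bodies, with geometric weights -/
noncomputable def Zc (μ : Measure (E n)) (K : Set (E n)) (N : ℕ) (q : ℝ) : Set (E n) :=
  G μ q 7000000000000 +
    ∑ b ∈ Finset.range N, (7000000000000 / 2 ^ (b + 1) : ℝ) • (K ∩ G μ (4 ^ (b + 1) * q) 1)

lemma Rc_compact (μ : Measure (E n)) {K : Set (E n)} (hKc : IsCompact K) (B : ℕ) (q : ℝ) :
    IsCompact (Rc μ K B q) :=
  (isCompact_G _ _).add (isCompact_sum' _ _ fun b _ =>
    ((Mb_compact μ hKc q).inter (isCompact_G _ _)).smul _)

lemma G_subset_Zc (μ : Measure (E n)) {K : Set (E n)} (h0K : (0 : E n) ∈ K) (N : ℕ) (q : ℝ) :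
    G μ q 7000000000000 ⊆ Zc μ K N q := by
  intro x hx
  refine ⟨x, hx, ∑ _b ∈ Finset.range N, (0 : E n), sum_mem_sum _ _ _ fun b _ => ?_, by simp⟩
  exact ⟨0, ⟨h0K, zero_mem_G (by norm_num)⟩, by simp⟩

lemma exp_three_le : Real.exp 1 * (2 * Real.exp 2) ≤ 298 := by
  have : Real.exp 1 * (2 * Real.exp 2) = 2 * Real.exp 3 := by
    rw [show (3:ℝ) = 1 + 2 by norm_num, Real.exp_add]; ring
  rw [this]
  have := le_trans (Real.exp_le_exp.2 (by norm_num : (3:ℝ) ≤ 5)) exp_five_le
  linarith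

/-- rescaling -/
lemma cap_scale [IsProbabilityMeasure μ] (hsym : μ.map (fun x => -x) = μ) (hlc : LC μ)
    {K : Set (E n)} (hKconv : Convex ℝ K) (h0K : (0 : E n) ∈ K) {B N : ℕ} (hBN : B ≤ N)
    {q q' t : ℝ} (ht0 : 0 ≤ t) (ht1 : t ≤ 1) (hq : 1 ≤ q) (hq' : 1 ≤ q')
    (h1 : ∀ b ≤ B, t * L3 B q' b ≤ 33000 * (4 ^ b * q)) (h2 : t * (60 * (q' + 11)) ≤ 70000 * q)
    {g : E n} (hg : g ∈ Rc μ K B q') {f : E n} (hf : f ∈ G μ q 120000000) :
    t • g + f ∈ Zc μ K N q := by
  have he1 := Real.exp_pos 1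
  have he3 := exp_three_le
  obtain ⟨g0, hg0, s, hs, rfl⟩ := hg
  obtain ⟨y', hy', rfl⟩ := exists_of_mem_sum hs
  have hdec : ∀ b, ∃ k r : E n, b ≤ B → k ∈ K ∧ r ∈ G μ (60 * (q' + 11)) (3 * Real.exp 1) ∧
      (2:ℝ) • k + r ∈ G μ (L3 B q' b) (Real.exp 1) ∧ y' b = (20 / 2 ^ b : ℝ) • ((2:ℝ) • k + r) := by
    intro b
    by_cases hb : b ≤ B
    · obtain ⟨y, ⟨⟨_, ⟨k, hk, rfl⟩, r, hr, rfl⟩, hyG⟩, hyb⟩ :=
        hy' b (Finset.mem_range.2 (by omega))
      exact ⟨k, r, fun _ => ⟨hk, hr, hyG, hyb.symm⟩⟩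
    · exact ⟨0, 0, fun h => absurd h hb⟩
  choose k r hkr using hdec
  have h4 : ∀ b : ℕ, (1:ℝ) ≤ 4 ^ b := fun b => one_le_pow₀ (by norm_num)
  have hP1 : ∀ b : ℕ, 1 ≤ 4 ^ b * q := fun b => by have := h4 b; nlinarith
  have hqP : ∀ b : ℕ, q ≤ 4 ^ b * q := fun b => by have := h4 b; nlinarith
  have hrs : ∀ b ≤ B, ∀ v : E n, t * |inner ℝ v (r b)| ≤ 63000000 * hm μ q v := by
    intro b hb v
    have h5 := hm_scale hsym hlc ht0 ht1 (by linarith : 1 ≤ 60 * (q' + 11)) hq
      (by norm_num : (1:ℝ) ≤ 70000) h2 v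
    have hv := hm_nonneg (μ := μ) q v
    calc t * |inner ℝ v (r b)| ≤ t * (3 * Real.exp 1 * hm μ (60 * (q' + 11)) v) :=
          mul_le_mul_of_nonneg_left ((hkr b hb).2.1 v) ht0
      _ = 3 * Real.exp 1 * (t * hm μ (60 * (q' + 11)) v) := by ring
      _ ≤ 3 * Real.exp 1 * (2 * Real.exp 2 * 70000 * hm μ q v) :=
          mul_le_mul_of_nonneg_left h5 (by positivity)
      _ = 210000 * (Real.exp 1 * (2 * Real.exp 2)) * hm μ q v := by ring
      _ ≤ 210000 * 298 * hm μ q v := by gcongr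
      _ ≤ 63000000 * hm μ q v := by nlinarith
  have hks : ∀ b ≤ B, ∀ v : E n, |inner ℝ v (t • (2:ℝ) • k b)| ≤
      73000000 * hm μ (4 ^ b * q) v := by
    intro b hb v
    have h5 := hm_scale hsym hlc ht0 ht1 (hq'.trans (L3_ge hq' b)) (hP1 b)
      (by norm_num : (1:ℝ) ≤ 33000) (h1 b hb) v
    have h6 := hrs b hb v
    have h7 := hm_mono hsym hlc hq (hqP b) v
    have hv := hm_nonneg (μ := μ) (4 ^ b * q) v
    have e : t • (2:ℝ) • k b = t • ((2:ℝ) • k b + r b) - t • r b := by
      rw [smul_add]; abel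
    have h8 : t * |inner ℝ v ((2:ℝ) • k b + r b)| ≤ 9900000 * hm μ (4 ^ b * q) v := by
      calc t * |inner ℝ v ((2:ℝ) • k b + r b)| ≤ t * (Real.exp 1 * hm μ (L3 B q' b) v) :=
            mul_le_mul_of_nonneg_left ((hkr b hb).2.2.1 v) ht0
        _ = Real.exp 1 * (t * hm μ (L3 B q' b) v) := by ring
        _ ≤ Real.exp 1 * (2 * Real.exp 2 * 33000 * hm μ (4 ^ b * q) v) :=
            mul_le_mul_of_nonneg_left h5 he1.le
        _ = 33000 * (Real.exp 1 * (2 * Real.exp 2)) * hm μ (4 ^ b * q) v := by ring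
        _ ≤ 33000 * 298 * hm μ (4 ^ b * q) v := by gcongr
        _ ≤ 9900000 * hm μ (4 ^ b * q) v := by nlinarith
    rw [e, inner_sub_right, inner_smul_right, inner_smul_right]
    calc |t * inner ℝ v ((2:ℝ) • k b + r b) - t * inner ℝ v (r b)|
        ≤ |t * inner ℝ v ((2:ℝ) • k b + r b)| + |t * inner ℝ v (r b)| := abs_sub _ _
      _ = t * |inner ℝ v ((2:ℝ) • k b + r b)| + t * |inner ℝ v (r b)| := by
          rw [abs_mul, abs_mul, abs_of_nonneg ht0]
      _ ≤ 9900000 * hm μ (4 ^ b * q) v + 63000000 * hm μ (4 ^ b * q) v :=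
          add_le_add h8 (h6.trans (mul_le_mul_of_nonneg_left h7 (by norm_num)))
      _ ≤ 73000000 * hm μ (4 ^ b * q) v := by linarith
  -- the normalised points
  set z : ℕ → E n := fun b => (1 / 73000000 : ℝ) • (t • (2:ℝ) • k b) with hz
  have hzmem : ∀ b ≤ B, z b ∈ K ∩ G μ (4 ^ b * q) 1 := by
    intro b hb
    constructor
    · have e : z b = (2 * t / 73000000 : ℝ) • k b + (1 - 2 * t / 73000000 : ℝ) • (0 : E n) := by
        rw [smul_zero, add_zero]
        simp only [hz, smul_smul]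
        congr 1; ring
      rw [e]
      exact hKconv (hkr b hb).1 h0K (by positivity) (by linarith) (by ring)
    · intro v
      have := hks b hb v
      simp only [hz]
      rw [inner_smul_right, abs_mul, abs_of_pos (by norm_num : (0:ℝ) < 1 / 73000000), one_mul]
      linarith
  have hsplit : t • (g0 + ∑ b ∈ Finset.range (B + 1), y' b) + f =
      (t • g0 + f + ∑ b ∈ Finset.range (B + 1), (20 / 2 ^ b : ℝ) • (t • r b) +
        (20 * 73000000 : ℝ) • z 0) +
      ∑ b ∈ Finset.range B, (20 * 73000000 / 2 ^ (b + 1) : ℝ) • z (b + 1) := by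
    have e1 : ∑ b ∈ Finset.range (B + 1), y' b = ∑ b ∈ Finset.range (B + 1),
        (20 / 2 ^ b : ℝ) • ((2:ℝ) • k b + r b) :=
      Finset.sum_congr rfl fun b hb => (hkr b (by have := Finset.mem_range.1 hb; omega)).2.2.2
    have e2 : ∑ b ∈ Finset.range (B + 1), t • ((20 / 2 ^ b : ℝ) • ((2:ℝ) • k b + r b)) =
        ∑ b ∈ Finset.range (B + 1), ((20 / 2 ^ b : ℝ) • (t • r b) +
          (20 * 73000000 / 2 ^ b : ℝ) • z b) := by
      refine Finset.sum_congr rfl fun b _ => ?_
      simp only [hz, smul_smul, smul_add]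
      rw [add_comm]
      congr 2 <;> ring
    rw [e1, smul_add, Finset.smul_sum, e2, Finset.sum_add_distrib,
      Finset.sum_range_succ' (fun b => (20 * 73000000 / 2 ^ b : ℝ) • z b)]
    rw [pow_zero, div_one]
    abel
  rw [hsplit]
  refine ⟨_, ?_, _, ?_, rfl⟩
  · intro v
    have hv := hm_nonneg (μ := μ) q v
    have hg0' : |inner ℝ v (t • g0)| ≤ 420000000 * hm μ q v := by
      have h5 := hm_scale hsym hlc ht0 ht1 (hq'.trans (L3_ge hq' 0)) hq
        (by norm_num : (1:ℝ) ≤ 33000) (by have := h1 0 (by omega); rwa [pow_zero, one_mul] at this) v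
      rw [inner_smul_right, abs_mul, abs_of_nonneg ht0]
      calc t * |inner ℝ v g0| ≤ t * (42 * Real.exp 1 * hm μ (L3 B q' 0) v) :=
            mul_le_mul_of_nonneg_left (hg0 v) ht0
        _ = 42 * Real.exp 1 * (t * hm μ (L3 B q' 0) v) := by ring
        _ ≤ 42 * Real.exp 1 * (2 * Real.exp 2 * 33000 * hm μ q v) :=
            mul_le_mul_of_nonneg_left h5 (by positivity)
        _ = 1386000 * (Real.exp 1 * (2 * Real.exp 2)) * hm μ q v := by ring
        _ ≤ 1386000 * 298 * hm μ q v := by gcongr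
        _ ≤ 420000000 * hm μ q v := by nlinarith
    have hsum : |inner ℝ v (∑ b ∈ Finset.range (B + 1), (20 / 2 ^ b : ℝ) • (t • r b))| ≤
        2520000000 * hm μ q v := by
      rw [inner_sum]
      calc |∑ b ∈ Finset.range (B + 1), inner ℝ v ((20 / 2 ^ b : ℝ) • (t • r b))|
          ≤ ∑ b ∈ Finset.range (B + 1), |inner ℝ v ((20 / 2 ^ b : ℝ) • (t • r b))| :=
            Finset.abs_sum_le_sum_abs _ _
        _ ≤ ∑ b ∈ Finset.range (B + 1), (1 / 2 ^ b : ℝ) * (20 * (63000000 * hm μ q v)) := by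
            refine Finset.sum_le_sum fun b hb => ?_
            have hb' : b ≤ B := by have := Finset.mem_range.1 hb; omega
            have h5 := hrs b hb' v
            rw [inner_smul_right, inner_smul_right, abs_mul, abs_mul, abs_of_nonneg ht0,
              abs_of_pos (by positivity : (0:ℝ) < 20 / 2 ^ b)]
            have e : (1 / 2 ^ b : ℝ) * (20 * (63000000 * hm μ q v)) =
              20 / 2 ^ b * (63000000 * hm μ q v) := by ring
            rw [e]
            exact mul_le_mul_of_nonneg_left h5 (by positivity)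
        _ = (∑ b ∈ Finset.range (B + 1), (1 / 2 ^ b : ℝ)) * (20 * (63000000 * hm μ q v)) := by
            rw [Finset.sum_mul]
        _ ≤ 2 * (20 * (63000000 * hm μ q v)) :=
            mul_le_mul_of_nonneg_right (sum_half_le B) (by positivity)
        _ = 2520000000 * hm μ q v := by ring
    have hz0 : |inner ℝ v ((20 * 73000000 : ℝ) • z 0)| ≤ 20 * 73000000 * hm μ q v := by
      have h5 := (hzmem 0 (by omega)).2 v
      rw [pow_zero, one_mul, one_mul] at h5
      rw [inner_smul_right, abs_mul, abs_of_pos (by norm_num : (0:ℝ) < 20 * 73000000)]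
      exact mul_le_mul_of_nonneg_left h5 (by norm_num)
    have hf' := hf v
    rw [inner_add_right, inner_add_right, inner_add_right]
    have t1 := abs_add_le (inner ℝ v (t • g0) + inner ℝ v f +
      inner ℝ v (∑ b ∈ Finset.range (B + 1), (20 / 2 ^ b : ℝ) • (t • r b)))
      (inner ℝ v ((20 * 73000000 : ℝ) • z 0))
    have t2 := abs_add_le (inner ℝ v (t • g0) + inner ℝ v f)
      (inner ℝ v (∑ b ∈ Finset.range (B + 1), (20 / 2 ^ b : ℝ) • (t • r b)))
    have t3 := abs_add_le (inner ℝ v (t • g0)) (inner ℝ v f)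
    refine t1.trans ?_
    have t4 := add_le_add (t2.trans (add_le_add (t3.trans (add_le_add hg0' hf')) hsum)) hz0
    refine t4.trans ?_
    have e : 420000000 * hm μ q v + 120000000 * hm μ q v + 2520000000 * hm μ q v +
      20 * 73000000 * hm μ q v = 4520000000 * hm μ q v := by ring
    rw [e]
    exact mul_le_mul_of_nonneg_right (by norm_num) hv
  · have e : ∑ b ∈ Finset.range B, (20 * 73000000 / 2 ^ (b + 1) : ℝ) • z (b + 1) =
        ∑ b ∈ Finset.range N, if b < B then (20 * 73000000 / 2 ^ (b + 1) : ℝ) • z (b + 1) else 0 := by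
      rw [← Finset.sum_filter]
      congr 1
      ext b
      simp only [Finset.mem_range, Finset.mem_filter]
      omega
    rw [e]
    refine sum_mem_sum _ _ _ fun b _ => ?_
    have hconv : Convex ℝ (K ∩ G μ (4 ^ (b + 1) * q) 1) := hKconv.inter convex_G
    have h0 : (0 : E n) ∈ K ∩ G μ (4 ^ (b + 1) * q) 1 := ⟨h0K, zero_mem_G (by norm_num)⟩
    split_ifs with hb
    · refine smul_mem_dil hconv h0 (by positivity) ?_ (by positivity) (hzmem (b + 1) (by omega))
      exact div_le_div_of_nonneg_right (by norm_num) (by positivity)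
    · exact ⟨0, h0, by simp⟩

/-- **Optimal concentration for all convex sets, refined form**: up to an arbitrarily small
multiple of a symmetric convex body `K`, and up to the intersections of `K` with larger centroid
bodies, with geometric weights. -/
theorem main_convex_cap [IsProbabilityMeasure μ] (hsym : μ.map (fun x => -x) = μ) (hlc : LC μ)
    {A K : Set (E n)} (hAm : MeasurableSet A) (hAconv : Convex ℝ A)
    (hKc : IsCompact K) (hKconv : Convex ℝ K) (hKs : ∀ x ∈ K, -x ∈ K)
    (hK : min (μ.real A / 2) (1 / 4) ≤ μ.real K) {p : ℝ} (hp : 2 ≤ p)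
    {ε : ℝ} (hε0 : 0 < ε) (hε1 : ε ≤ 1) {N : ℕ} (hN : 44 / ε ≤ 2 ^ N) {q : ℝ}
    (hq : min (p / ε) (p + Real.log (1 / (1 - μ.real A)) + Real.log (1 / ε)) ≤ q) :
    2 * Real.exp p * μ.real A * (1 - μ.real (A + ε • K + Zc μ K N q)) ≤
      (1 - μ.real A) * μ.real (A + ε • K + Zc μ K N q) := by
  have hp0 : 0 < p := by linarith
  set a := μ.real A with ha
  have ha1 : a ≤ 1 := measureReal_le_one
  have hlogε : 0 ≤ Real.log (1 / ε) := Real.log_nonneg (by rw [le_div_iff₀ hε0]; linarith)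
  have h1ε : 1 ≤ 1 / ε := by rw [le_div_iff₀ hε0]; linarith
  have hlogε2 : Real.log (1 / ε) ≤ 1 / ε :=
    (Real.log_le_sub_one_of_pos (by positivity)).trans (by linarith)
  have hwc0 : 0 ≤ Real.log (1 / (1 - a)) := by
    rcases ha1.eq_or_lt with h1 | hlt
    · rw [h1]; simp
    · have : 0 ≤ a := measureReal_nonneg
      apply Real.log_nonneg
      rw [le_div_iff₀ (by linarith)]
      linarith
  have hpε : p / ε = p * (1 / ε) := by ring
  have hqp : p ≤ q := by
    refine le_trans (le_min ?_ ?_) hq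
    · rw [hpε]; nlinarith
    · linarith
  have hqlog : Real.log (1 / ε) ≤ q := by
    refine le_trans (le_min ?_ ?_) hq
    · rw [hpε]; nlinarith
    · linarith
  have hq0 : 0 < q := by linarith
  have hq1 : 1 ≤ q := by linarith
  rcases (measureReal_nonneg (μ := μ) (s := A)).eq_or_lt with h0 | hpos
  · rw [← ha] at h0
    rw [← h0]
    simp
  have hKpos : 0 < μ.real K := lt_of_lt_of_le (lt_min (half_pos hpos) (by norm_num)) hK
  have h0K : (0:E n) ∈ K := by
    obtain ⟨x, hx⟩ : K.Nonempty := nonempty_of_real hKpos le_rfl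
    have := hKconv hx (hKs x hx) (by norm_num : (0:ℝ) ≤ 1/2) (by norm_num : (0:ℝ) ≤ 1/2)
      (by norm_num)
    simpa using this
  obtain ⟨B, hB1, hBN, hBε, hBlog⟩ := exists_B hε0 hε1 hN
  have hGG : ∀ c d : ℝ, 0 ≤ c → c ≤ d → G μ p c ⊆ G μ q d := by
    intro c d hc hcd x hx v
    refine (hx v).trans ?_
    have h5 := hm_mono hsym hlc (by linarith : 1 ≤ p) hqp v
    have hv := hm_nonneg (μ := μ) q v
    calc c * hm μ p v ≤ c * hm μ q v := mul_le_mul_of_nonneg_left h5 hc
      _ ≤ d * hm μ q v := mul_le_mul_of_nonneg_right hcd hv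
  refine main_convex_abs hsym hlc hAm hAconv hKc hKconv hKs hK hp hε0 hε1 hBε
    (R := Rc μ K B) (fun q' _ => Rc_compact μ hKc B q') ?_ ?_ ?_ ?_
  · intro q' hpq' K₁ hK₁c hK₁conv hK₁M hK₁m
    exact enlR hsym hlc hB1 (by linarith) hK₁c hK₁conv (Mb_compact μ hKc q')
      (Mb_convex μ hKconv q') (zero_mem_Mb μ h0K q') hK₁M hK₁m
  · exact (hGG _ _ (by norm_num) le_rfl).trans (G_subset_Zc μ h0K N q)
  · -- small sets
    intro _ hu g hg f hf
    set u := -Real.log (μ.real A) with hudef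
    have hu8 : 8 ≤ u := by linarith
    have hu0 : 0 < u := by linarith
    set lam := (p + 3) / u with hlam
    have hlam0 : 0 < lam := by positivity
    have hlam1 : lam < 1 := by rw [hlam, div_lt_one hu0]; linarith
    have hlamu : lam * u = p + 3 := by rw [hlam]; field_simp
    have hlam8 : lam ≤ (p + 3) / 8 := by
      rw [hlam]
      exact div_le_div_of_nonneg_left (by linarith) (by norm_num) hu8
    refine cap_scale hsym hlc hKconv h0K hBN hlam0.le hlam1.le hq1 (by linarith) ?_ ?_ hg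
      (hGG _ _ (by norm_num) (by norm_num) hf)
    · intro b _
      have h1 : lam * ((u + 3) + 3 * Real.log (2 ^ B) + 7) ≤ 15 * q := by
        have h2 : lam * ((u + 3) + 3 * Real.log (2 ^ B) + 7) ≤
            lam * (u + 28 + 3 * Real.log (1 / ε)) :=
          mul_le_mul_of_nonneg_left (by linarith) hlam0.le
        have h5 : lam * (3 * Real.log (1 / ε)) ≤ 1 * (3 * Real.log (1 / ε)) :=
          mul_le_mul_of_nonneg_right hlam1.le (by positivity)
        nlinarith
      unfold L3
      have h4 : (0:ℝ) < 4 ^ b := by positivity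
      calc lam * (32 * 4 ^ b * ((u + 3) + 3 * Real.log (2 ^ B) + 7))
          = 32 * 4 ^ b * (lam * ((u + 3) + 3 * Real.log (2 ^ B) + 7)) := by ring
        _ ≤ 32 * 4 ^ b * (15 * q) := mul_le_mul_of_nonneg_left h1 (by positivity)
        _ = 480 * (4 ^ b * q) := by ring
        _ ≤ 33000 * (4 ^ b * q) := by
            apply mul_le_mul_of_nonneg_right (by norm_num) (by positivity)
    · have e : lam * (60 * (u + 3 + 11)) = 60 * (lam * u) + 840 * lam := by ring
      rw [e, hlamu]
      linarith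
  · -- the other sets
    intro hpos' hlt hu hcase g hg f hf
    set w := Real.log (1 / (μ.real A * (1 - μ.real A))) with hw
    have hc0 : 0 < 1 - μ.real A := by linarith
    have hac : 0 < μ.real A * (1 - μ.real A) := mul_pos hpos' hc0
    have hw0' : 0 ≤ w := by
      apply Real.log_nonneg
      rw [le_div_iff₀ hac]
      nlinarith
    have hwp : w ≤ 1000 * (p * (1 / ε)) := by
      have h8 : w < 1000 * p / ε := by rw [lt_div_iff₀ hε0, mul_comm]; exact hcase
      calc w ≤ 1000 * p / ε := h8.le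
        _ = 1000 * (p * (1 / ε)) := by ring
    have hwc : w ≤ 4 * p + Real.log (1 / (1 - a)) := by
      rw [hw, one_div, Real.log_inv, Real.log_mul hpos'.ne' hc0.ne', one_div, Real.log_inv]
      linarith
    have hratio : (w + p + 2) + 3 * Real.log (2 ^ B) + 7 ≤ 1016 * q := by
      have h1 : (w + p + 2) + 3 * Real.log (2 ^ B) + 7 ≤ w + p + 27 + 3 * Real.log (1 / ε) := by
        linarith
      rcases min_le_iff.1 hq with h2 | h2
      · have h3 : p * (1 / ε) ≤ q := by rw [← hpε]; exact h2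
        have h4 : 1 / ε ≤ q / 2 := by nlinarith
        linarith
      · linarith
    have hlogB : 0 ≤ Real.log ((2:ℝ) ^ B) := Real.log_nonneg (one_le_pow₀ (by norm_num))
    have key := cap_scale (t := 1) hsym hlc hKconv h0K hBN zero_le_one le_rfl hq1
      (by linarith : 1 ≤ w + p + 2) ?_ ?_ hg (hGG _ _ (by norm_num) (by norm_num) hf)
    · rwa [one_smul] at key
    · intro b _
      unfold L3
      have h4 : (0:ℝ) < 4 ^ b := by positivity
      calc 1 * (32 * 4 ^ b * ((w + p + 2) + 3 * Real.log (2 ^ B) + 7))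
          ≤ 1 * (32 * 4 ^ b * (1016 * q)) := by gcongr
        _ = 32512 * (4 ^ b * q) := by ring
        _ ≤ 33000 * (4 ^ b * q) := by
            apply mul_le_mul_of_nonneg_right (by norm_num) (by positivity)
    · linarith

end Pool.CIP
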