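import Pool.Agent.CIP.FQ
import Pool.Agent.CIP.UB

set_option autoImplicit false

open MeasureTheory Pointwise Set Filter Topology

namespace Pool.CIP

variable {n : ℕ} {μ : Measure (E n)}

/-- the unit cube -/
def cube (n : ℕ) : Set (E n) := {y | ∀ i, |y i| ≤ 1}

lemma convex_cube : Convex ℝ (cube n) := by
  intro x hx y hy a b ha hb hab i
  have h1 : (a • x + b • y) i = a * x i + b * y i := rfl
  rw [h1]
  calc |a * x i + b * y i| ≤ |a * x i| + |b * y i| := abs_add_le _ _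
    _ = a * |x i| + b * |y i| := by rw [abs_mul, abs_mul, abs_of_nonneg ha, abs_of_nonneg hb]
    _ ≤ a * 1 + b * 1 := add_le_add (mul_le_mul_of_nonneg_left (hx i) ha)
        (mul_le_mul_of_nonneg_left (hy i) hb)
    _ = 1 := by linarith

lemma isCompact_cube : IsCompact (cube n) := by
  have hcl : IsClosed (cube n) := by
    have : cube n = ⋂ i : Fin n, {y : E n | |y i| ≤ 1} := by
      ext y; simp [cube]
    rw [this]
    exact isClosed_iInter fun i => isClosed_le (by fun_prop) continuous_const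
  refine (isCompact_closedBall (0 : E n) (Real.sqrt n)).of_isClosed_subset hcl ?_
  intro y hy
  rw [mem_closedBall_zero_iff, EuclideanSpace.norm_eq]
  apply Real.sqrt_le_sqrt
  calc ∑ i, ‖y i‖ ^ 2 ≤ ∑ _i : Fin n, (1:ℝ) := by
        refine Finset.sum_le_sum fun i _ => ?_
        have := hy i
        rw [Real.norm_eq_abs]
        have h0 := abs_nonneg (y i)
        nlinarith
    _ = n := by simp

/-- The weighted coordinates of a functional: duality with the intersection of the cube and a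
Euclidean ball. -/
lemma u_dual {q : ℝ} (hq : 0 ≤ q) {m : Fin n → ℝ} {C : ℝ}
    (hu2 : ∀ y : E n, (∀ i, |y i| ≤ 1) → ∑ i, (y i) ^ 2 ≤ q →
      (WithLp.toLp 2 (fun i => y i * m i) : E n) ∈ G μ q C) (v : E n) {δ : ℝ} (hδ : 0 < δ) :
    ∃ a a' : Fin n → ℝ, (∀ i, v i * m i = a i + a' i) ∧
      ∑ i, |a i| + Real.sqrt q * Real.sqrt (∑ i, (a' i) ^ 2) ≤ C * hm μ q v + δ := by
  set v' : E n := WithLp.toLp 2 (fun i => v i * m i) with hv'
  have h0cube : (0 : E n) ∈ cube n := fun i => by simp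
  have h0ball : (0 : E n) ∈ Metric.closedBall (0 : E n) (Real.sqrt q) := by simp
  obtain ⟨w, hw⟩ := cap_support isCompact_cube convex_cube (isCompact_closedBall (0 : E n)
    (Real.sqrt q)) (convex_closedBall _ _) h0cube h0ball v' hδ (m := C * hm μ q v) (by
      rintro y ⟨hy1, hy2⟩
      have h1 : ∑ i, (y i) ^ 2 ≤ q := by
        rw [mem_closedBall_zero_iff, EuclideanSpace.norm_eq] at hy2
        have h2 := Real.sqrt_le_sqrt_iff hq |>.1 hy2
        refine le_trans (le_of_eq ?_) h2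
        refine Finset.sum_congr rfl fun i _ => ?_
        rw [Real.norm_eq_abs, sq_abs]
      have h2 := hu2 y hy1 h1 v
      refine le_trans (le_of_eq ?_) ((le_abs_self _).trans h2)
      rw [inner_eq_sum', inner_eq_sum']
      refine Finset.sum_congr rfl fun i _ => ?_
      simp only [hv']
      ring)
  set y : E n := if ‖v' - w‖ = 0 then 0 else (Real.sqrt q / ‖v' - w‖) • (v' - w) with hy
  have hyball : y ∈ Metric.closedBall (0 : E n) (Real.sqrt q) := by
    rw [mem_closedBall_zero_iff, hy]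
    split_ifs with h
    · simp
    · rw [norm_smul, Real.norm_eq_abs, abs_of_nonneg (by positivity), div_mul_cancel₀ _ h]
  have hyin : inner ℝ (v' - w) y = Real.sqrt q * ‖v' - w‖ := by
    rw [hy]
    split_ifs with h
    · rw [h]; simp
    · rw [inner_smul_right, real_inner_self_eq_norm_sq]
      field_simp
  set x : E n := WithLp.toLp 2 (fun i => if 0 ≤ w i then (1:ℝ) else -1) with hx
  have hxc : x ∈ cube n := by
    intro i
    simp only [hx]
    split_ifs <;> simp
  have hxin : inner ℝ w x = ∑ i, |w i| := by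
    rw [inner_eq_sum']
    refine Finset.sum_congr rfl fun i _ => ?_
    simp only [hx]
    split_ifs with h
    · rw [abs_of_nonneg h, mul_one]
    · rw [abs_of_neg (not_le.1 h)]; ring
  have h3 := hw x hxc y hyball
  rw [hxin, hyin] at h3
  refine ⟨fun i => w i, fun i => (v' - w) i, fun i => ?_, ?_⟩
  · show v i * m i = w i + (v' i - w i)
    simp only [hv']
    ring
  · have h4 : Real.sqrt (∑ i, ((v' - w) i) ^ 2) = ‖v' - w‖ := by
      rw [EuclideanSpace.norm_eq]
      congr 1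
      refine Finset.sum_congr rfl fun i _ => ?_
      rw [Real.norm_eq_abs, sq_abs]
    rw [h4]
    exact h3

lemma exp_three_le2 : Real.exp 1 * (2 * Real.exp 2) ≤ 298 := by
  have : Real.exp 1 * (2 * Real.exp 2) = 2 * Real.exp 3 := by
    rw [show (3:ℝ) = 1 + 2 by norm_num, Real.exp_add]; ring
  rw [this]
  have := le_trans (Real.exp_le_exp.2 (by norm_num : (3:ℝ) ≤ 5)) exp_five_le
  linarith

/-- Enlargement of compact convex subsets of an unconditional body, random signs. -/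
theorem enlU [IsProbabilityMeasure μ] (hsym : μ.map (fun x => -x) = μ) (hlc : LC μ)
    (hunc : Uncond μ) {B : ℕ} (hB : 1 ≤ B) {q : ℝ} (hq : 1 ≤ q) {A M : Set (E n)}
    (hAc : IsCompact A) (hAconv : Convex ℝ A) (hAM : A ⊆ M) (hM : MeasurableSet M)
    (hMinv : ∀ σ : Fin n → ℝ, (∀ i, σ i = 1 ∨ σ i = -1) → ∀ x ∈ M, flp σ x ∈ M)
    {Lam : ℝ} (hLam : 1 ≤ Lam) {m : Fin n → ℝ} (hm0 : ∀ i, 0 ≤ m i)
    (hdec : ∀ x ∈ M, ∃ g ∈ G μ (60 * (q + 11)) (3 * Real.exp 1), ∀ i, |x i| ≤
      2 * Lam * m i + |g i|)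
    (hu2 : ∀ y : E n, (∀ i, |y i| ≤ 1) → ∑ i, (y i) ^ 2 ≤ L3 B q 0 →
      (WithLp.toLp 2 (fun i => y i * m i) : E n) ∈ G μ (L3 B q 0) (Real.exp 1))
    (hA : 5 * Real.exp (-q) ≤ μ.real A) :
    μ.real (A + (11 / 2 ^ B : ℝ) • (A - A) + G μ (L3 B q 0) (150000 * Lam * (B + 1)))ᶜ ≤
      Real.exp (-q) := by
  have hfin : ∀ q : ℝ, 0 < q → ∀ v : E n, mq μ q v < ⊤ := fun q hq v => mq_lt_top hsym hlc hq v
  have hAne : A.Nonempty := nonempty_of_real (by positivity) hA
  have hexpq := Real.exp_pos (-q)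
  have he1 := Real.exp_pos 1
  have hQ1 : ∀ b, 1 ≤ L3 B q b := fun b => hq.trans (L3_ge hq b)
  have hL0 : 0 < L3 B q 0 := by have := hQ1 0; linarith
  have hexpL : ∀ b, Real.exp (-(L3 B q b)) ≤ Real.exp (-q) := fun b =>
    Real.exp_le_exp.2 (by have := L3_ge (B := B) hq b; linarith)
  have hLam0 : 0 < Lam := by linarith
  have hB0 : (0:ℝ) ≤ B := Nat.cast_nonneg B
  set q0 := L3 B q 0 with hq0
  have hlog : 0 ≤ Real.log ((2:ℝ) ^ B) := Real.log_nonneg (one_le_pow₀ (by norm_num))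
  have hq0' : q0 = 32 * (q + 3 * Real.log (2 ^ B) + 7) := by
    rw [hq0]; unfold L3; rw [pow_zero, mul_one]
  have hLb : ∀ b : ℕ, L3 B q b = 4 ^ b * q0 := by
    intro b
    rw [hq0']; unfold L3; ring
  have h60 : 1 * (60 * (q + 11)) ≤ 4 * q0 := by rw [hq0']; linarith
  set CB := 150000 * Lam * (B + 1) with hCB
  set W := A + (11 / 2 ^ B : ℝ) • (A - A) + G μ q0 CB with hW
  have hAAc : IsCompact (A - A) := by rw [sub_eq_add_neg]; exact hAc.add hAc.neg
  have hWc : IsCompact W := (hAc.add (hAAc.smul _)).add (isCompact_G _ _)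
  have hWconv : Convex ℝ W := (hAconv.add ((hAconv.sub hAconv).smul _)).add convex_G
  refine enl_genQ hsym hlc (core3_holds hlc) hB hq hAc.measurableSet hWc hWconv ?_
  intro v δ hδ
  have hpart := part_ge hsym hlc hL0 (L3_ge hq 0) hA v hδ
  rw [← hq0]
  set t := Real.exp 1 * hm μ q0 v + δ with ht
  have hmq0 := hm_nonneg (μ := μ) q0 v
  have hmL := hm_nonneg (μ := μ) (60 * (q + 11)) v
  have ht0 : 0 < t := by positivity
  set δ' := δ / (60 * Lam * (B + 1)) with hδ'
  have hδ'0 : 0 < δ' := by positivity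
  obtain ⟨a, a', ha, haa⟩ := u_dual hL0.le hu2 v hδ'0
  set S1 := ∑ i, |a i| with hS1
  set S2 := Real.sqrt (∑ i, (a' i) ^ 2) with hS2
  have hS10 : 0 ≤ S1 := Finset.sum_nonneg fun i _ => abs_nonneg _
  have hS20 : 0 ≤ S2 := Real.sqrt_nonneg _
  obtain ⟨x₁, hx₁A, hx₁⟩ := hAc.exists_isMaxOn hAne (f := fun x : E n => (inner ℝ v x : ℝ))
    (by fun_prop)
  obtain ⟨x₀, hx₀A, hx₀⟩ := hAc.exists_isMinOn hAne (f := fun x : E n => (inner ℝ v x : ℝ))
    (by fun_prop)
  set T : ℕ → ℝ := fun b => 2 * Lam * (S1 + Real.sqrt (2 * L3 B q b) * S2) +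
    3 * Real.exp 1 * hm μ (60 * (q + 11)) v with hTdef
  have hT0 : ∀ b, 0 ≤ T b := by
    intro b
    simp only [hTdef]
    positivity
  have hT : ∀ b ≤ B, μ.real (A ∩ {x | T b < inner ℝ v x}) ≤ Real.exp (-(L3 B q b)) := by
    intro b _
    refine (measureReal_mono (inter_subset_inter_left _ hAM) (measure_ne_top μ _)).trans ?_
    exact u3 hunc hM hMinv (by positivity) hm0 hdec v ha (by have := hQ1 b; linarith)
  have hTb : ∀ b, (1 / 2 ^ b : ℝ) * T b ≤
      3 * Lam * (Real.exp 1 * hm μ q0 v + δ') +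
        (1 / 2 ^ b : ℝ) * (3 * Real.exp 1 * hm μ (60 * (q + 11)) v) := by
    intro b
    have h2b : (0:ℝ) < 2 ^ b := by positivity
    have h12b : (1:ℝ) ≤ 2 ^ b := one_le_pow₀ (by norm_num)
    have e1 : Real.sqrt (2 * L3 B q b) = Real.sqrt 2 * 2 ^ b * Real.sqrt q0 := by
      rw [hLb, Real.sqrt_mul (by norm_num), Real.sqrt_mul (by positivity)]
      have : Real.sqrt (4 ^ b) = 2 ^ b := by
        rw [show (4:ℝ) ^ b = (2 ^ b) ^ 2 by rw [← pow_mul, mul_comm, pow_mul]; norm_num]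
        exact Real.sqrt_sq h2b.le
      rw [this]
      ring
    have hs2 : Real.sqrt 2 ≤ 3 / 2 := by
      rw [show (3/2:ℝ) = Real.sqrt ((3/2) ^ 2) by rw [Real.sqrt_sq (by norm_num)]]
      exact Real.sqrt_le_sqrt (by norm_num)
    have hsq0 := Real.sqrt_nonneg q0
    have h5 : S1 + Real.sqrt (2 * L3 B q b) * S2 ≤ 3 / 2 * 2 ^ b * (S1 + Real.sqrt q0 * S2) := by
      rw [e1]
      have h6 : S1 ≤ 3 / 2 * 2 ^ b * S1 := by nlinarith
      have h7 : Real.sqrt 2 * 2 ^ b * Real.sqrt q0 * S2 ≤ 3 / 2 * 2 ^ b * (Real.sqrt q0 * S2) := by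
        have : 0 ≤ 2 ^ b * (Real.sqrt q0 * S2) := by positivity
        nlinarith
      linarith
    have h8 : 2 * Lam * (S1 + Real.sqrt (2 * L3 B q b) * S2) ≤
        2 * Lam * (3 / 2 * 2 ^ b * (Real.exp 1 * hm μ q0 v + δ')) := by
      apply mul_le_mul_of_nonneg_left _ (by positivity)
      refine h5.trans (mul_le_mul_of_nonneg_left haa (by positivity))
    calc (1 / 2 ^ b : ℝ) * T b ≤ (1 / 2 ^ b : ℝ) *
          (2 * Lam * (3 / 2 * 2 ^ b * (Real.exp 1 * hm μ q0 v + δ')) +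
            3 * Real.exp 1 * hm μ (60 * (q + 11)) v) := by
          apply mul_le_mul_of_nonneg_left _ (by positivity)
          simp only [hTdef]
          linarith
      _ = _ := by field_simp
  refine ⟨max (-t) (inner ℝ v x₀), inner ℝ v x₁, T, fun x hx => hx₁ hx, ?_, ?_, hT, ?_⟩
  · rcases le_total (-t) (inner ℝ v x₀) with h | h
    · rw [max_eq_right h]
      have e : A ∩ hs v (inner ℝ v x₀) = A := inter_eq_left.2 fun x hx => hx₀ hx
      rw [e]; linarith
    · rw [max_eq_left h]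
      exact hpart
  · intro b hb
    have h0 := hT0 b
    refine max_le (by linarith) ?_
    by_contra hcon
    push Not at hcon
    have h1 : A ⊆ A ∩ {x | T b < inner ℝ v x} := fun x hx =>
      ⟨hx, lt_of_lt_of_le hcon (hx₀ hx)⟩
    have h2 := (measureReal_mono (μ := μ) h1 (measure_ne_top μ _)).trans (hT b hb)
    have h3 := hexpL b
    linarith
  · intro bd hb
    obtain ⟨g, hg, hgv⟩ := exists_support hfin (hQ1 0) v (show 0 ≤ CB by positivity)
    have hw := hb (x₁ + (11 / 2 ^ B : ℝ) • (x₁ - x₀) + g)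
      ⟨_, ⟨x₁, hx₁A, _, ⟨_, ⟨x₁, hx₁A, x₀, hx₀A, rfl⟩, rfl⟩, rfl⟩, g, hg, rfl⟩
    rw [inner_add_right, inner_add_right, inner_smul_right, inner_sub_right, hgv] at hw
    have hle1 : -t ≤ max (-t) (inner ℝ v x₀) := le_max_left _ _
    have hle2 : inner ℝ v x₀ ≤ max (-t) (inner ℝ v x₀) := le_max_right _ _
    set l := max (-t) (inner ℝ v x₀) with hl
    have hpos : (0:ℝ) < 11 / 2 ^ B := by positivity
    have h6 : (11 / 2 ^ B : ℝ) * (inner ℝ v x₁ - l) ≤
        (11 / 2 ^ B : ℝ) * (inner ℝ v x₁ - inner ℝ v x₀) :=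
      mul_le_mul_of_nonneg_left (by linarith) hpos.le
    have hsum : ∑ b ∈ Finset.range (B + 1), (1 / 2 ^ b : ℝ) * (T b - l) ≤
        (B + 1) * (3 * Lam * (Real.exp 1 * hm μ q0 v + δ')) +
          2 * (3 * Real.exp 1 * hm μ (60 * (q + 11)) v + t) := by
      have h8 : ∑ b ∈ Finset.range (B + 1), (1 / 2 ^ b : ℝ) * (T b - l) ≤
          ∑ b ∈ Finset.range (B + 1), (3 * Lam * (Real.exp 1 * hm μ q0 v + δ') +
            (1 / 2 ^ b : ℝ) * (3 * Real.exp 1 * hm μ (60 * (q + 11)) v + t)) := by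
        refine Finset.sum_le_sum fun b _ => ?_
        have h9 : (0:ℝ) < 1 / 2 ^ b := by positivity
        have h10 := hTb b
        have h11 : (1 / 2 ^ b : ℝ) * (-l) ≤ (1 / 2 ^ b : ℝ) * t :=
          mul_le_mul_of_nonneg_left (by linarith) h9.le
        have e : (1 / 2 ^ b : ℝ) * (T b - l) = (1 / 2 ^ b : ℝ) * T b + (1 / 2 ^ b : ℝ) * (-l) := by
          ring
        rw [e, mul_add (1 / 2 ^ b : ℝ)]
        linarith
      rw [Finset.sum_add_distrib, Finset.sum_const, Finset.card_range, nsmul_eq_mul,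
        ← Finset.sum_mul] at h8
      have h11 := sum_half_le B
      have h12 : (∑ b ∈ Finset.range (B + 1), (1 / 2 ^ b : ℝ)) *
          (3 * Real.exp 1 * hm μ (60 * (q + 11)) v + t) ≤
          2 * (3 * Real.exp 1 * hm μ (60 * (q + 11)) v + t) :=
        mul_le_mul_of_nonneg_right h11 (by positivity)
      push_cast at h8
      linarith
    have h60' : 3 * Real.exp 1 * hm μ (60 * (q + 11)) v ≤ 3600 * hm μ q0 v := by
      have h13 := hm_scale hsym hlc zero_le_one le_rfl (by linarith : 1 ≤ 60 * (q + 11))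
        (hQ1 0) (by norm_num : (1:ℝ) ≤ 4) h60 v
      rw [one_mul] at h13
      have he3 := exp_three_le2
      calc 3 * Real.exp 1 * hm μ (60 * (q + 11)) v
          ≤ 3 * Real.exp 1 * (2 * Real.exp 2 * 4 * hm μ q0 v) :=
            mul_le_mul_of_nonneg_left h13 (by positivity)
        _ = 12 * (Real.exp 1 * (2 * Real.exp 2)) * hm μ q0 v := by ring
        _ ≤ 12 * 298 * hm μ q0 v := by gcongr
        _ ≤ 3600 * hm μ q0 v := by nlinarith
    have he : Real.exp 1 ≤ 3 := by have := Real.exp_one_lt_d9; linarith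
    have hδδ : (B + 1) * (3 * Lam * δ') = δ / 20 := by
      rw [hδ']; field_simp; norm_num
    have h14 : (B + 1) * (3 * Lam * (Real.exp 1 * hm μ q0 v + δ')) ≤
        9 * Lam * (B + 1) * hm μ q0 v + δ / 20 := by
      have h15 : (B + 1) * (3 * Lam * (Real.exp 1 * hm μ q0 v + δ')) =
        3 * Lam * (B + 1) * (Real.exp 1 * hm μ q0 v) + (B + 1) * (3 * Lam * δ') := by ring
      have h16 : 3 * Lam * (B + 1) * (Real.exp 1 * hm μ q0 v) ≤
          3 * Lam * (B + 1) * (3 * hm μ q0 v) := by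
        apply mul_le_mul_of_nonneg_left _ (by positivity)
        exact mul_le_mul_of_nonneg_right he hmq0
      rw [h15, hδδ]
      linarith
    have h17 : t ≤ 3 * hm μ q0 v + δ := by
      rw [ht]
      have := mul_le_mul_of_nonneg_right he hmq0
      linarith
    have h18 : hm μ q0 v ≤ Lam * (B + 1) * hm μ q0 v := by
      have : 1 ≤ Lam * (B + 1) := by nlinarith
      nlinarith
    have h19 : CB * hm μ q0 v = 150000 * (Lam * (B + 1) * hm μ q0 v) := by rw [hCB]; ring
    rw [h19] at hw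
    have h20 : 9 * Lam * (B + 1) * hm μ q0 v = 9 * (Lam * (B + 1) * hm μ q0 v) := by ring
    rw [h20] at h14
    set X := Lam * (B + 1) * hm μ q0 v with hX
    have h21 : 20 * ∑ b ∈ Finset.range (B + 1), (1 / 2 ^ b : ℝ) * (T b - l) ≤
        20 * (9 * X + δ / 20 + 2 * (3600 * hm μ q0 v + t)) :=
      mul_le_mul_of_nonneg_left (by linarith) (by norm_num)
    linarith

end Pool.CIP
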