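import Pool.Agent.CIP.FS

set_option autoImplicit false

open MeasureTheory Pointwise Set Filter Topology

namespace Pool.CIP

variable {n : ℕ} {μ : Measure (E n)}

/-- The concentration inequality for convex sets, with a body whose enlargements have good tails:
from the abstract three-case theorem. -/
theorem main_growth [IsProbabilityMeasure μ] (hsym : μ.map (fun x => -x) = μ) (hlc : LC μ)
    {A K : Set (E n)} (hAm : MeasurableSet A) (hAconv : Convex ℝ A)
    (hKc : IsCompact K) (hKconv : Convex ℝ K) (hKs : ∀ x ∈ K, -x ∈ K)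
    (hK : min (μ.real A / 2) (1 / 4) ≤ μ.real K) {p : ℝ} (hp : 2 ≤ p)
    {ε : ℝ} (hε0 : 0 < ε) (hε1 : ε ≤ 1) {Lam : ℝ} (hLam : 1 ≤ Lam)
    (henl : ∀ B : ℕ, 1 ≤ B → ∀ q, p ≤ q → ∀ K₁ : Set (E n), IsCompact K₁ → Convex ℝ K₁ →
      K₁ ⊆ Mb μ K q → 5 * Real.exp (-q) ≤ μ.real K₁ →
      μ.real (K₁ + (11 / 2 ^ B : ℝ) • (K₁ - K₁) +
        G μ (L3 B q 0) (150000 * Lam * (B + 1)))ᶜ ≤ Real.exp (-q)) {s : ℝ}
    (hs : 8000000000000 * Lam * (1 + Real.log (1 / ε)) * min (1 / ε)
      (1 + (Real.log (1 / (1 - μ.real A)) + Real.log (1 / ε)) / p) ≤ s) :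
    2 * Real.exp p * μ.real A * (1 - μ.real (A + ε • K + G μ p s)) ≤
      (1 - μ.real A) * μ.real (A + ε • K + G μ p s) := by
  have hp0 : 0 < p := by linarith
  set a := μ.real A with ha
  have ha1 : a ≤ 1 := measureReal_le_one
  have hlogε : 0 ≤ Real.log (1 / ε) := Real.log_nonneg (by rw [le_div_iff₀ hε0]; linarith)
  have h1ε : 1 ≤ 1 / ε := by rw [le_div_iff₀ hε0]; linarith
  have hlogε2 : Real.log (1 / ε) ≤ 1 / ε :=
    (Real.log_le_sub_one_of_pos (by positivity)).trans (by linarith)
  have hwc0 : 0 ≤ Real.log (1 / (1 - a)) := by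
    rcases ha1.eq_or_lt with h1 | hlt
    · rw [h1]; simp
    · have : 0 ≤ a := measureReal_nonneg
      apply Real.log_nonneg
      rw [le_div_iff₀ (by linarith)]
      linarith
  have hpε : p / ε = p * (1 / ε) := by ring
  set q := min (p / ε) (p + Real.log (1 / (1 - a)) + Real.log (1 / ε)) with hq
  have hqp : p ≤ q := by
    refine le_min ?_ ?_
    · rw [hpε]; nlinarith
    · linarith
  have hqlog : Real.log (1 / ε) ≤ q := by
    refine le_min ?_ ?_
    · rw [hpε]; nlinarith
    · linarith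
  have hq0 : 0 < q := by linarith
  have hq1 : 1 ≤ q := by linarith
  have hqdiv : q / p = min (1 / ε) (1 + (Real.log (1 / (1 - a)) + Real.log (1 / ε)) / p) := by
    rw [hq, ← min_div_div_right hp0.le]
    congr 1
    · field_simp
    · field_simp; ring
  rw [← hqdiv] at hs
  obtain ⟨N0, hN0⟩ : ∃ N : ℕ, 44 / ε ≤ (2:ℝ) ^ N := pow_unbounded_of_one_lt (44 / ε)
    (by norm_num : (1:ℝ) < 2) |>.imp fun N h => h.le
  obtain ⟨B, hB1, _, hBε, hBlog⟩ := exists_B hε0 hε1 hN0
  have hB0 : (0:ℝ) ≤ B := Nat.cast_nonneg B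
  have hBup : (B:ℝ) + 1 ≤ 10 * (1 + Real.log (1 / ε)) := by
    have h1 : Real.log ((2:ℝ) ^ B) = B * Real.log 2 := by rw [Real.log_pow]
    have h2 : (0.6931471803 : ℝ) < Real.log 2 := Real.log_two_gt_d9
    rw [h1] at hBlog
    nlinarith
  have hqp1 : 1 ≤ q / p := by rw [le_div_iff₀ hp0]; linarith
  set X := Lam * (1 + Real.log (1 / ε)) * (q / p) with hX
  have hX1 : 1 ≤ X := by
    have h1 : 1 ≤ Lam * (1 + Real.log (1 / ε)) := by nlinarith
    rw [hX]; nlinarith
  have hsX : 8000000000000 * X ≤ s := by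
    refine le_trans (le_of_eq ?_) hs
    rw [hX]; ring
  have hexp2 : 2 * Real.exp 2 ≤ 15 := by
    have h6 : Real.exp 2 = Real.exp 1 * Real.exp 1 := by rw [← Real.exp_add]; norm_num
    have h7 := Real.exp_one_lt_d9
    have h8 := Real.exp_pos 1
    rw [h6]; nlinarith
  have hLamB : Lam * ((B:ℝ) + 1) * (q / p) ≤ 10 * X := by
    rw [hX]
    have h1 : Lam * ((B:ℝ) + 1) ≤ Lam * (10 * (1 + Real.log (1 / ε))) :=
      mul_le_mul_of_nonneg_left hBup (by linarith)
    have h2 := mul_le_mul_of_nonneg_right h1 (by linarith : 0 ≤ q / p)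
    linarith
  -- rescaling
  have hscale : ∀ t : ℝ, 0 ≤ t → t ≤ 1 → ∀ q', 1 ≤ q' → t * L3 B q' 0 ≤ 33000 * q →
      ∀ g ∈ G μ (L3 B q' 0) (150000 * Lam * (B + 1)), ∀ f ∈ G μ p 120000000,
        t • g + f ∈ G μ p s := by
    intro t ht0 ht1 q' hq' hL g hg f hf v
    have hv := hm_nonneg (μ := μ) p v
    have h5 := hm_scale hsym hlc ht0 ht1 (hq'.trans (L3_ge hq' 0)) (by linarith : 1 ≤ p)
      (show 1 ≤ 33000 * (q / p) by linarith) (by
        refine hL.trans (le_of_eq ?_)
        field_simp) v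
    have h6 : t * |inner ℝ v g| ≤ 750000000000 * X * hm μ p v := by
      calc t * |inner ℝ v g| ≤ t * (150000 * Lam * (B + 1) * hm μ (L3 B q' 0) v) :=
            mul_le_mul_of_nonneg_left (hg v) ht0
        _ = 150000 * Lam * (B + 1) * (t * hm μ (L3 B q' 0) v) := by ring
        _ ≤ 150000 * Lam * (B + 1) * (2 * Real.exp 2 * (33000 * (q / p)) * hm μ p v) :=
            mul_le_mul_of_nonneg_left h5 (by positivity)
        _ = (150000 * 33000) * (2 * Real.exp 2) * (Lam * ((B:ℝ) + 1) * (q / p)) * hm μ p v := by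
            ring
        _ ≤ (150000 * 33000) * 15 * (10 * X) * hm μ p v := by gcongr
        _ ≤ 750000000000 * X * hm μ p v := by
            apply mul_le_mul_of_nonneg_right _ hv
            nlinarith
    have h7 : 120000000 * hm μ p v ≤ 120000000 * X * hm μ p v := by
      apply mul_le_mul_of_nonneg_right _ hv
      linarith
    rw [inner_add_right, inner_smul_right]
    calc |t * inner ℝ v g + inner ℝ v f| ≤ |t * inner ℝ v g| + |inner ℝ v f| := abs_add_le _ _
      _ = t * |inner ℝ v g| + |inner ℝ v f| := by rw [abs_mul, abs_of_nonneg ht0]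
      _ ≤ 750000000000 * X * hm μ p v + 120000000 * X * hm μ p v :=
          add_le_add h6 ((hf v).trans h7)
      _ = 750120000000 * X * hm μ p v := by ring
      _ ≤ s * hm μ p v := by
          apply mul_le_mul_of_nonneg_right _ hv
          linarith
  refine main_convex_abs hsym hlc hAm hAconv hKc hKconv hKs hK hp hε0 hε1 hBε
    (R := fun q' => G μ (L3 B q' 0) (150000 * Lam * (B + 1))) (fun q' _ => isCompact_G _ _)
    (henl B hB1) (G_mono (by linarith)) ?_ ?_
  · -- small sets
    intro _ hu g hg f hf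
    set u := -Real.log (μ.real A) with hudef
    have hu8 : 8 ≤ u := by linarith
    have hu0 : 0 < u := by linarith
    set lam := (p + 3) / u with hlam
    have hlam0 : 0 < lam := by positivity
    have hlam1 : lam < 1 := by rw [hlam, div_lt_one hu0]; linarith
    have hlamu : lam * u = p + 3 := by rw [hlam]; field_simp
    have hlam8 : lam ≤ (p + 3) / 8 := by
      rw [hlam]
      exact div_le_div_of_nonneg_left (by linarith) (by norm_num) hu8
    refine hscale lam hlam0.le hlam1.le (u + 3) (by linarith) ?_ g hg f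
      (G_mono (by norm_num) hf)
    have h1 : lam * ((u + 3) + 3 * Real.log (2 ^ B) + 7) ≤ 15 * q := by
      have h2 : lam * ((u + 3) + 3 * Real.log (2 ^ B) + 7) ≤
          lam * (u + 28 + 3 * Real.log (1 / ε)) :=
        mul_le_mul_of_nonneg_left (by linarith) hlam0.le
      have h5 : lam * (3 * Real.log (1 / ε)) ≤ 1 * (3 * Real.log (1 / ε)) :=
        mul_le_mul_of_nonneg_right hlam1.le (by positivity)
      nlinarith
    unfold L3
    rw [pow_zero, mul_one]
    linarith
  · -- the other sets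
    intro hpos' hlt hu hcase g hg f hf
    set w := Real.log (1 / (μ.real A * (1 - μ.real A))) with hw
    have hc0 : 0 < 1 - μ.real A := by linarith
    have hac : 0 < μ.real A * (1 - μ.real A) := mul_pos hpos' hc0
    have hw0' : 0 ≤ w := by
      apply Real.log_nonneg
      rw [le_div_iff₀ hac]
      nlinarith
    have hwp : w ≤ 1000 * (p * (1 / ε)) := by
      have h8 : w < 1000 * p / ε := by rw [lt_div_iff₀ hε0, mul_comm]; exact hcase
      calc w ≤ 1000 * p / ε := h8.le
        _ = 1000 * (p * (1 / ε)) := by ring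
    have hwc : w ≤ 4 * p + Real.log (1 / (1 - a)) := by
      rw [hw, one_div, Real.log_inv, Real.log_mul hpos'.ne' hc0.ne', one_div, Real.log_inv]
      linarith
    have hratio : (w + p + 2) + 3 * Real.log (2 ^ B) + 7 ≤ 1016 * q := by
      have h1 : (w + p + 2) + 3 * Real.log (2 ^ B) + 7 ≤ w + p + 27 + 3 * Real.log (1 / ε) := by
        linarith
      rcases min_le_iff.1 (le_of_eq hq.symm) with h2 | h2
      · have h3 : p * (1 / ε) ≤ q := by rw [← hpε]; exact h2
        have h4 : 1 / ε ≤ q / 2 := by nlinarith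
        linarith
      · linarith
    have key := hscale 1 zero_le_one le_rfl (w + p + 2) (by linarith) (by
      unfold L3
      rw [pow_zero, mul_one, one_mul]
      linarith) g hg f (G_mono (by norm_num) hf)
    rwa [one_smul] at key

end Pool.CIP
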