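import Pool.Agent.CIP.FR
import Pool.Agent.CIP.Y

set_option autoImplicit false

open MeasureTheory Pointwise Set Filter Topology

namespace Pool.CIP

variable {n : ℕ} {μ : Measure (E n)}

/-- The refined theorem with the body `300 (1 + n / p)^(1/2) Z_p`. -/
theorem main_convex_growth0 [IsProbabilityMeasure μ] (hsym : μ.map (fun x => -x) = μ)
    (hlc : LC μ) {A : Set (E n)} (hAm : MeasurableSet A) (hAconv : Convex ℝ A) {p : ℝ}
    (hp : 2 ≤ p) {ε : ℝ} (hε0 : 0 < ε) (hε1 : ε ≤ 1) {N : ℕ} (hN : 44 / ε ≤ 2 ^ N) {q : ℝ}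
    (hq : min (p / ε) (p + Real.log (1 / (1 - μ.real A)) + Real.log (1 / ε)) ≤ q) {c : ℝ}
    (hc : ∀ v : E n, ε * Real.sqrt (1 + n / p) * hm μ p v + hm μ q v +
      ∑ b ∈ Finset.range N, (1 / 2 ^ (b + 1) : ℝ) * min (Real.sqrt (1 + n / p) * hm μ p v)
        (hm μ (4 ^ (b + 1) * q) v) ≤ c * hm μ p v) :
    2 * Real.exp p * μ.real A * (1 - μ.real (A + G μ p (3000000000000000 * c))) ≤
      (1 - μ.real A) * μ.real (A + G μ p (3000000000000000 * c)) := by
  have hp0 : 0 < p := by linarith
  have ha1 : μ.real A ≤ 1 := measureReal_le_one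
  set D := Real.sqrt (1 + n / p) with hD
  have hD0 : 0 ≤ D := Real.sqrt_nonneg _
  set K := G μ p (300 * D) with hK
  have hKm : min (μ.real A / 2) (1 / 4) ≤ μ.real K := by
    have := body_half hsym hlc hp
    rw [← hD, ← hK] at this
    exact (min_le_right _ _).trans (by linarith)
  have key := main_convex_cap hsym hlc hAm hAconv (isCompact_G p _) convex_G
    (fun x hx => neg_mem_G hx) hKm hp hε0 hε1 hN hq
  have hsub : A + ε • K + Zc μ K N q ⊆ A + G μ p (3000000000000000 * c) := by
    rintro _ ⟨_, ⟨x, hx, _, ⟨k, hk, rfl⟩, rfl⟩, _, ⟨g, hg, s, hs, rfl⟩, rfl⟩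
    refine ⟨x, hx, ε • k + (g + s), ?_, by simp only [add_assoc]⟩
    intro v
    have hmp := hm_nonneg (μ := μ) p v
    have hmq := hm_nonneg (μ := μ) q v
    obtain ⟨z, hz, rfl⟩ := exists_of_mem_sum hs
    have h1 : |inner ℝ v (ε • k)| ≤ 300 * (ε * D * hm μ p v) := by
      rw [inner_smul_right, abs_mul, abs_of_pos hε0]
      calc ε * |inner ℝ v k| ≤ ε * (300 * D * hm μ p v) := mul_le_mul_of_nonneg_left (hk v) hε0.le
        _ = 300 * (ε * D * hm μ p v) := by ring
    have h2 : |inner ℝ v (∑ b ∈ Finset.range N, z b)| ≤ ∑ b ∈ Finset.range N,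
        2100000000000000 * ((1 / 2 ^ (b + 1) : ℝ) * min (D * hm μ p v)
          (hm μ (4 ^ (b + 1) * q) v)) := by
      rw [inner_sum]
      refine (Finset.abs_sum_le_sum_abs _ _).trans (Finset.sum_le_sum fun b hb => ?_)
      obtain ⟨y, ⟨hyK, hyG⟩, hyz⟩ := hz b hb
      have e : z b = (7000000000000 / 2 ^ (b + 1) : ℝ) • y := hyz.symm
      have h4 := hm_nonneg (μ := μ) (4 ^ (b + 1) * q) v
      have h5 : |inner ℝ v y| ≤ 300 * min (D * hm μ p v) (hm μ (4 ^ (b + 1) * q) v) := by
        rw [mul_min_of_nonneg _ _ (by norm_num)]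
        refine le_min ?_ ?_
        · have := hyK v
          linarith
        · have := hyG v
          linarith
      rw [e, inner_smul_right, abs_mul, abs_of_pos (by positivity)]
      calc 7000000000000 / 2 ^ (b + 1) * |inner ℝ v y|
          ≤ 7000000000000 / 2 ^ (b + 1) *
            (300 * min (D * hm μ p v) (hm μ (4 ^ (b + 1) * q) v)) :=
            mul_le_mul_of_nonneg_left h5 (by positivity)
        _ = _ := by ring
    rw [← Finset.mul_sum] at h2
    have h3 := hc v
    set S := ∑ b ∈ Finset.range N, (1 / 2 ^ (b + 1) : ℝ) * min (D * hm μ p v)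
      (hm μ (4 ^ (b + 1) * q) v) with hS
    have hS0 : 0 ≤ S := Finset.sum_nonneg fun b _ =>
      mul_nonneg (by positivity) (le_min (by positivity) (hm_nonneg _ _))
    have h0 : 0 ≤ ε * D * hm μ p v := by positivity
    rw [inner_add_right, inner_add_right]
    have h6 := hg v
    calc |inner ℝ v (ε • k) + (inner ℝ v g + inner ℝ v (∑ b ∈ Finset.range N, z b))|
        ≤ |inner ℝ v (ε • k)| + |inner ℝ v g + inner ℝ v (∑ b ∈ Finset.range N, z b)| :=
          abs_add_le _ _
      _ ≤ |inner ℝ v (ε • k)| + (|inner ℝ v g| + |inner ℝ v (∑ b ∈ Finset.range N, z b)|) := by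
          gcongr
          exact abs_add_le _ _
      _ ≤ 300 * (ε * D * hm μ p v) + (7000000000000 * hm μ q v + 2100000000000000 * S) :=
          add_le_add h1 (add_le_add h6 h2)
      _ ≤ 3000000000000000 * (ε * D * hm μ p v + hm μ q v + S) := by linarith
      _ ≤ 3000000000000000 * (c * hm μ p v) := mul_le_mul_of_nonneg_left h3 (by norm_num)
      _ = 3000000000000000 * c * hm μ p v := by ring
  have hmono := measureReal_mono (μ := μ) hsub (measure_ne_top μ _)
  have ha0 : 0 ≤ μ.real A := measureReal_nonneg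
  have hep := Real.exp_pos p
  calc 2 * Real.exp p * μ.real A * (1 - μ.real (A + G μ p (3000000000000000 * c)))
      ≤ 2 * Real.exp p * μ.real A * (1 - μ.real (A + ε • K + Zc μ K N q)) :=
        mul_le_mul_of_nonneg_left (by linarith) (by positivity)
    _ ≤ (1 - μ.real A) * μ.real (A + ε • K + Zc μ K N q) := key
    _ ≤ (1 - μ.real A) * μ.real (A + G μ p (3000000000000000 * c)) :=
        mul_le_mul_of_nonneg_left hmono (by linarith)

/-- partial sums of the minimum of an increasing and a decreasing geometric sequence -/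
lemma min_sum_le {X Y r M : ℝ} (hX : 0 ≤ X) (hY : 0 ≤ Y) (hr : 1 < r) (hM0 : 0 ≤ M) (N : ℕ)
    (hM : ∀ b < N, min (X * r ^ b) (Y / 2 ^ b) ≤ M) :
    ∑ b ∈ Finset.range N, min (X * r ^ b) (Y / 2 ^ b) ≤ (2 + r / (r - 1)) * M := by
  classical
  have hr1 : 0 < r - 1 := by linarith
  -- the increasing part
  have hinc : ∀ k : ℕ, k ≤ N → (∀ b < k, X * r ^ b ≤ Y / 2 ^ b) →
      ∑ b ∈ Finset.range k, min (X * r ^ b) (Y / 2 ^ b) ≤ r / (r - 1) * M := by
    intro k hkN hk
    have e : ∑ b ∈ Finset.range k, min (X * r ^ b) (Y / 2 ^ b) =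
        ∑ b ∈ Finset.range k, X * r ^ b :=
      Finset.sum_congr rfl fun b hb => min_eq_left (hk b (Finset.mem_range.1 hb))
    rw [e, ← Finset.mul_sum]
    rcases Nat.eq_zero_or_pos k with h0 | hpos
    · subst h0
      simp only [Finset.range_zero, Finset.sum_empty, mul_zero]
      positivity
    · obtain ⟨j, rfl⟩ : ∃ j, k = j + 1 := ⟨k - 1, by omega⟩
      have h1 := hM j (by omega)
      rw [min_eq_left (hk j (by omega))] at h1
      rw [geom_sum_eq (by linarith : r ≠ 1), mul_div_assoc', div_mul_eq_mul_div,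
        div_le_div_iff_of_pos_right hr1]
      calc X * (r ^ (j + 1) - 1) ≤ X * r ^ (j + 1) := by nlinarith
        _ = r * (X * r ^ j) := by ring
        _ ≤ r * M := mul_le_mul_of_nonneg_left h1 (by linarith)
  by_cases hall : ∀ b < N, X * r ^ b ≤ Y / 2 ^ b
  · refine (hinc N le_rfl hall).trans ?_
    apply mul_le_mul_of_nonneg_right _ hM0
    linarith
  · push Not at hall
    have hex : ∃ b, b < N ∧ Y / 2 ^ b < X * r ^ b := hall
    set b0 := Nat.find hex with hb0
    obtain ⟨hb0N, hb0lt⟩ := Nat.find_spec hex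
    have hbefore : ∀ b < b0, X * r ^ b ≤ Y / 2 ^ b := by
      intro b hb
      have h1 := Nat.find_min hex hb
      push Not at h1
      exact h1 (by omega)
    have h1 := hinc b0 hb0N.le hbefore
    have hMb0 : Y / 2 ^ b0 ≤ M := by
      have := hM b0 hb0N
      rwa [min_eq_right hb0lt.le] at this
    have e : Finset.range N = Finset.range (b0 + (N - b0)) := by congr 1; omega
    rw [e, Finset.sum_range_add]
    have h2 : ∑ j ∈ Finset.range (N - b0), min (X * r ^ (b0 + j)) (Y / 2 ^ (b0 + j)) ≤ 2 * M := by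
      calc ∑ j ∈ Finset.range (N - b0), min (X * r ^ (b0 + j)) (Y / 2 ^ (b0 + j))
          ≤ ∑ j ∈ Finset.range (N - b0), (1 / 2 ^ j : ℝ) * (Y / 2 ^ b0) := by
            refine Finset.sum_le_sum fun j _ => (min_le_right _ _).trans (le_of_eq ?_)
            rw [pow_add]; field_simp
        _ = (∑ j ∈ Finset.range (N - b0), (1 / 2 ^ j : ℝ)) * (Y / 2 ^ b0) := by
            rw [Finset.sum_mul]
        _ ≤ 2 * M := by
            apply mul_le_mul _ hMb0 (by positivity) (by norm_num)
            obtain ⟨k, hk⟩ : ∃ k, N - b0 = k + 1 := ⟨N - b0 - 1, by omega⟩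
            rw [hk]
            exact sum_half_le k
    linarith

end Pool.CIP
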