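import Pool.Agent.CIP.UC
import Pool.Agent.CIP.UB
import Pool.Agent.CIP.FQ

set_option autoImplicit false

open MeasureTheory Pointwise Set Filter Topology

namespace Pool.CIP

variable {n : ℕ} {μ : Measure (E n)}

lemma flp_add (σ : Fin n → ℝ) (x y : E n) : flp σ (x + y) = flp σ x + flp σ y := by
  ext i
  simp [mul_add]

lemma flp_smul (σ : Fin n → ℝ) (r : ℝ) (x : E n) : flp σ (r • x) = r • flp σ x := by
  ext i
  simp only [flp_apply, PiLp.smul_apply, smul_eq_mul]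
  ring

/-- the large body of a box is invariant under reflections -/
lemma Uncond.flp_mem_Mb (h : Uncond μ) {Lam q : ℝ} {σ : Fin n → ℝ} (hσ : ∀ i, σ i = 1 ∨ σ i = -1)
    {x : E n} (hx : x ∈ Mb μ (box μ Lam) q) : flp σ x ∈ Mb μ (box μ Lam) q := by
  obtain ⟨_, ⟨k, hk, rfl⟩, g, hg, rfl⟩ := hx
  refine ⟨(2:ℝ) • flp σ k, ⟨_, flp_mem_box hσ hk, rfl⟩, flp σ g, h.mem_G hσ hg, ?_⟩
  show (2:ℝ) • flp σ k + flp σ g = flp σ ((2:ℝ) • k + g)
  rw [flp_add, flp_smul]

lemma measurableSet_Mb_box (Lam q : ℝ) : MeasurableSet (Mb μ (box μ Lam) q) :=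
  (Mb_compact μ (isCompact_box Lam) q).measurableSet

/-- coordinates of points of the large body of a box -/
lemma Mb_box_dec {Lam q : ℝ} {x : E n} (hx : x ∈ Mb μ (box μ Lam) q) :
    ∃ g ∈ G μ (60 * (q + 11)) (3 * Real.exp 1), ∀ i, |x i| ≤ (2 * Lam) * ma μ i + |g i| := by
  obtain ⟨_, ⟨k, hk, rfl⟩, g, hg, rfl⟩ := hx
  refine ⟨g, hg, fun i => ?_⟩
  have h1 : ((2:ℝ) • k + g) i = 2 * k i + g i := rfl
  show |((2:ℝ) • k + g) i| ≤ _
  rw [h1]
  calc |2 * k i + g i| ≤ |2 * k i| + |g i| := abs_add_le _ _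
    _ = 2 * |k i| + |g i| := by rw [abs_mul, abs_of_pos (by norm_num : (0:ℝ) < 2)]
    _ ≤ 2 * (Lam * ma μ i) + |g i| := by linarith [hk i]
    _ = 2 * Lam * ma μ i + |g i| := by ring

/-- **tails on the large body of a box** -/
theorem tail_Mb_box [IsProbabilityMeasure μ] (hunc : Uncond μ) {Lam q : ℝ} (hLam : 0 ≤ Lam)
    (v : E n) {a a' : Fin n → ℝ} (ha : ∀ i, v i * ma μ i = a i + a' i) {s : ℝ} (hs : 0 ≤ s) :
    μ.real (Mb μ (box μ Lam) q ∩ {x | 2 * Lam * (∑ i, |a i| + Real.sqrt (2 * s) *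
      Real.sqrt (∑ i, (a' i) ^ 2)) + 3 * Real.exp 1 * hm μ (60 * (q + 11)) v < inner ℝ v x}) ≤
      Real.exp (-s) :=
  u3 hunc (measurableSet_Mb_box Lam q) (fun _ hσ _ hx => hunc.flp_mem_Mb hσ hx)
    (by linarith) (fun i => ma_nonneg i) (fun _ hx => Mb_box_dec hx) v ha hs

/-- small multiples of a box are in the centroid body (the hypothesis `hu2` is `u2`) -/
theorem box_sub_G (hu2 : ∀ y : Fin n → ℝ, (∀ i, |y i| ≤ 1) → ∀ p : ℝ, 2 ≤ p →
      ∑ i, (y i) ^ 2 ≤ p → WithLp.toLp 2 (fun i => y i * ma μ i) ∈ G μ p (Real.exp 1))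
    {Lam : ℝ} (hLam : 0 < Lam) {p : ℝ} (hp : 2 ≤ p) {ε : ℝ} (hε : 0 ≤ ε)
    (hε2 : ε ^ 2 * (1 + n / p) ≤ 1) {x : E n} (hx : x ∈ box μ Lam) :
    ε • x ∈ G μ p (Real.exp 1 * Lam) := by
  have hp0 : 0 < p := by linarith
  have hnp : (0:ℝ) ≤ n / p := by positivity
  have hε1 : ε ≤ 1 := by
    by_contra h
    have h1 : 1 < ε := not_le.1 h
    have h2 : 1 < ε ^ 2 := by nlinarith
    nlinarith
  set y : Fin n → ℝ := fun i => ε * (x i / (Lam * ma μ i)) with hy
  have hxi : ∀ i, |x i / (Lam * ma μ i)| ≤ 1 := by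
    intro i
    rcases (ma_nonneg (μ := μ) i).eq_or_lt with h0 | h0
    · rw [← h0]
      simp
    · rw [abs_div, abs_of_pos (by positivity : 0 < Lam * ma μ i), div_le_one (by positivity)]
      exact hx i
  have hy1 : ∀ i, |y i| ≤ 1 := by
    intro i
    rw [hy]
    simp only [abs_mul, abs_of_nonneg hε]
    calc ε * |x i / (Lam * ma μ i)| ≤ 1 * 1 := mul_le_mul hε1 (hxi i) (abs_nonneg _) zero_le_one
      _ = 1 := by ring
  have hy2 : ∑ i, (y i) ^ 2 ≤ p := by
    calc ∑ i, (y i) ^ 2 ≤ ∑ _i : Fin n, ε ^ 2 := by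
          refine Finset.sum_le_sum fun i _ => ?_
          rw [hy]
          simp only [mul_pow]
          have h3 : (x i / (Lam * ma μ i)) ^ 2 ≤ 1 := by
            rw [← sq_abs]
            have := hxi i
            have h0 := abs_nonneg (x i / (Lam * ma μ i))
            nlinarith
          have h4 : 0 ≤ ε ^ 2 := sq_nonneg _
          nlinarith
      _ = n * ε ^ 2 := by rw [Finset.sum_const, Finset.card_univ, Fintype.card_fin, nsmul_eq_mul]
      _ ≤ p := by
          have h5 : (n:ℝ) * ε ^ 2 = p * (ε ^ 2 * (n / p)) := by field_simp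
          rw [h5]
          have h6 : ε ^ 2 * (n / p) ≤ 1 := by
            have : 0 ≤ ε ^ 2 := sq_nonneg _
            nlinarith
          calc p * (ε ^ 2 * (n / p)) ≤ p * 1 := mul_le_mul_of_nonneg_left h6 hp0.le
            _ = p := mul_one _
  have h7 := hu2 y hy1 p hp hy2
  have h8 : ε • x = Lam • WithLp.toLp 2 (fun i => y i * ma μ i) := by
    ext i
    simp only [PiLp.smul_apply, smul_eq_mul]
    rw [hy]
    simp only
    rcases (ma_nonneg (μ := μ) i).eq_or_lt with h0 | h0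
    · have h9 : x i = 0 := by
        have := hx i
        rw [← h0, mul_zero] at this
        exact abs_eq_zero.1 (le_antisymm this (abs_nonneg _))
      rw [h9]
      simp
    · field_simp
  rw [h8]
  intro v
  rw [inner_smul_right, abs_mul, abs_of_pos hLam]
  calc Lam * |inner ℝ v (WithLp.toLp 2 (fun i => y i * ma μ i))|
      ≤ Lam * (Real.exp 1 * hm μ p v) := mul_le_mul_of_nonneg_left (h7 v) hLam.le
    _ = Real.exp 1 * Lam * hm μ p v := by ring

end Pool.CIP
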