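import Pool.Agent.CIP.FT
import Pool.Agent.CIP.UD

set_option autoImplicit false

open MeasureTheory Pointwise Set Filter Topology

namespace Pool.CIP

variable {n : ℕ} {μ : Measure (E n)}

/-- unconditional measures, convex sets: general `ε` -/
theorem uncond_aux [IsProbabilityMeasure μ] (hunc : Uncond μ) (hlc : LC μ)
    (hu2 : ∀ y : Fin n → ℝ, (∀ i, |y i| ≤ 1) → ∀ p : ℝ, 2 ≤ p →
      ∑ i, (y i) ^ 2 ≤ p → WithLp.toLp 2 (fun i => y i * ma μ i) ∈ G μ p (Real.exp 1))
    {A : Set (E n)} (hAm : MeasurableSet A) (hAconv : Convex ℝ A) {p : ℝ} (hp : 2 ≤ p)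
    {ε : ℝ} (hε0 : 0 < ε) (hε1 : ε ≤ 1) {c : ℝ}
    (h1 : Real.log (n + 2) * (ε * Real.sqrt (1 + n / p)) ≤ c)
    (h2 : Real.log (n + 2) * ((1 + Real.log (1 / ε)) * min (1 / ε)
      (1 + (Real.log (1 / (1 - μ.real A)) + Real.log (1 / ε)) / p)) ≤ c) :
    2 * Real.exp p * μ.real A * (1 - μ.real (A + G μ p (3000000000000000 * c))) ≤
      (1 - μ.real A) * μ.real (A + G μ p (3000000000000000 * c)) := by
  have hp0 : 0 < p := by linarith
  have hsym := hunc.symm
  have hn0 : (0:ℝ) ≤ n := Nat.cast_nonneg n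
  set Lam : ℝ := 100 * (1 + Real.log (n + 1)) with hLamdef
  have hlog1 : 0 ≤ Real.log ((n:ℝ) + 1) := Real.log_nonneg (by linarith)
  have hLam1 : 1 ≤ Lam := by rw [hLamdef]; linarith
  have hln2 : (0.6931471803 : ℝ) < Real.log 2 := Real.log_two_gt_d9
  have hlog2 : Real.log 2 ≤ Real.log ((n:ℝ) + 2) := Real.log_le_log (by norm_num) (by linarith)
  have hlog12 : Real.log ((n:ℝ) + 1) ≤ Real.log ((n:ℝ) + 2) :=
    Real.log_le_log (by linarith) (by linarith)
  have hLamup : Lam ≤ 250 * Real.log ((n:ℝ) + 2) := by rw [hLamdef]; linarith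
  set K := box μ Lam with hK
  have hKm : min (μ.real A / 2) (1 / 4) ≤ μ.real K := by
    have := half_le_box' (Lam := Lam) hsym hlc le_rfl
    exact (min_le_right _ _).trans (by linarith)
  have h0K : (0 : E n) ∈ K := fun i => by
    have := ma_nonneg (μ := μ) i
    simp only [PiLp.zero_apply, abs_zero]
    positivity
  set s := 8000000000000 * Lam * (1 + Real.log (1 / ε)) * min (1 / ε)
    (1 + (Real.log (1 / (1 - μ.real A)) + Real.log (1 / ε)) / p) with hs
  have key := main_growth hsym hlc hAm hAconv (isCompact_box Lam) (convex_box Lam)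
    (fun x hx => neg_mem_box hx) hKm hp hε0 hε1 hLam1 (by
      intro B hB q hpq K₁ hK₁c hK₁conv hK₁M hK₁m
      refine enlU hsym hlc hunc hB (by linarith) hK₁c hK₁conv hK₁M (measurableSet_Mb_box Lam q)
        (fun _ hσ _ hx => hunc.flp_mem_Mb hσ hx) hLam1 (fun i => ma_nonneg i)
        (fun _ hx => Mb_box_dec hx) (fun y hy1 hy2 => hu2 y hy1 _ ?_ hy2) hK₁m
      have := L3_ge (B := B) (by linarith : 1 ≤ q) 0
      linarith) (s := s) le_rfl
  have hc0 : 0 ≤ c := le_trans (mul_nonneg (by linarith) (by positivity)) h1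
  have hlogε : 0 ≤ Real.log (1 / ε) := Real.log_nonneg (by rw [le_div_iff₀ hε0]; linarith)
  have hmin0 : 0 ≤ min (1 / ε) (1 + (Real.log (1 / (1 - μ.real A)) + Real.log (1 / ε)) / p) := by
    refine le_min (by positivity) ?_
    have hwc0 : 0 ≤ Real.log (1 / (1 - μ.real A)) := by
      have ha1 : μ.real A ≤ 1 := measureReal_le_one
      rcases ha1.eq_or_lt with h1 | hlt
      · rw [h1]; simp
      · have : 0 ≤ μ.real A := measureReal_nonneg
        apply Real.log_nonneg
        rw [le_div_iff₀ (by linarith)]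
        linarith
    positivity
  have hs' : s ≤ 2000000000000000 * c := by
    have e : s = 8000000000000 * Lam * ((1 + Real.log (1 / ε)) * min (1 / ε)
      (1 + (Real.log (1 / (1 - μ.real A)) + Real.log (1 / ε)) / p)) := by rw [hs]; ring
    rw [e]
    have h3 : Lam * ((1 + Real.log (1 / ε)) * min (1 / ε)
        (1 + (Real.log (1 / (1 - μ.real A)) + Real.log (1 / ε)) / p)) ≤ 250 * c := by
      refine (mul_le_mul_of_nonneg_right hLamup (by positivity)).trans ?_
      rw [mul_assoc]
      exact mul_le_mul_of_nonneg_left h2 (by norm_num)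
    have e2 : ∀ y : ℝ, 8000000000000 * Lam * y = 8000000000000 * (Lam * y) := fun y => by ring
    rw [e2]
    linarith
  set D := Real.sqrt (1 + (n:ℝ) / p) with hD
  have hX1 : 1 ≤ 1 + (n:ℝ) / p := by
    have : 0 ≤ (n:ℝ) / p := by positivity
    linarith
  have hD1 : 1 ≤ D := Real.one_le_sqrt.2 hX1
  have hD0 : 0 < D := by linarith
  have hDD : D * D = 1 + (n:ℝ) / p := Real.mul_self_sqrt (by linarith)
  have hKG : ∀ x ∈ K, ∀ v : E n, |inner ℝ v (ε • x)| ≤ 1000 * c * hm μ p v := by
    intro x hx v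
    have h3 := box_sub_G hu2 (by linarith : 0 < Lam) hp (ε := 1 / D) (by positivity)
      (by rw [← hDD]; field_simp; exact le_rfl) hx v
    have hv := hm_nonneg (μ := μ) p v
    have e : ε • x = (ε * D) • ((1 / D) • x) := by
      rw [smul_smul]; congr 1; field_simp
    rw [e, inner_smul_right, abs_mul, abs_of_pos (by positivity : 0 < ε * D)]
    calc ε * D * |inner ℝ v ((1 / D) • x)| ≤ ε * D * (Real.exp 1 * Lam * hm μ p v) :=
          mul_le_mul_of_nonneg_left h3 (by positivity)
      _ ≤ 1000 * c * hm μ p v := by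
          have h4 : ε * D * (Real.exp 1 * Lam) ≤ 1000 * c := by
            have he : Real.exp 1 ≤ 3 := by have := Real.exp_one_lt_d9; linarith
            calc ε * D * (Real.exp 1 * Lam) ≤ ε * D * (3 * (250 * Real.log ((n:ℝ) + 2))) := by
                  apply mul_le_mul_of_nonneg_left _ (by positivity)
                  exact mul_le_mul he hLamup (by linarith) (by norm_num)
              _ = 750 * (Real.log ((n:ℝ) + 2) * (ε * D)) := by ring
              _ ≤ 1000 * c := by linarith
          calc ε * D * (Real.exp 1 * Lam * hm μ p v) = ε * D * (Real.exp 1 * Lam) * hm μ p v := by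
                ring
            _ ≤ 1000 * c * hm μ p v := mul_le_mul_of_nonneg_right h4 hv
  have hsub : A + ε • K + G μ p s ⊆ A + G μ p (3000000000000000 * c) := by
    rintro _ ⟨_, ⟨x, hx, _, ⟨k, hk, rfl⟩, rfl⟩, g, hg, rfl⟩
    refine ⟨x, hx, ε • k + g, ?_, by simp only [add_assoc]⟩
    intro v
    rw [inner_add_right]
    have hmv := hm_nonneg (μ := μ) p v
    calc |inner ℝ v (ε • k) + inner ℝ v g| ≤ |inner ℝ v (ε • k)| + |inner ℝ v g| :=
          abs_add_le _ _
      _ ≤ 1000 * c * hm μ p v + s * hm μ p v := add_le_add (hKG k hk v) (hg v)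
      _ = (1000 * c + s) * hm μ p v := by ring
      _ ≤ 3000000000000000 * c * hm μ p v := by
          apply mul_le_mul_of_nonneg_right _ hmv
          linarith
  have hmono := measureReal_mono (μ := μ) hsub (measure_ne_top μ _)
  have ha0 : 0 ≤ μ.real A := measureReal_nonneg
  have ha1 : μ.real A ≤ 1 := measureReal_le_one
  have hep := Real.exp_pos p
  calc 2 * Real.exp p * μ.real A * (1 - μ.real (A + G μ p (3000000000000000 * c)))
      ≤ 2 * Real.exp p * μ.real A * (1 - μ.real (A + ε • K + G μ p s)) :=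
        mul_le_mul_of_nonneg_left (by linarith) (by positivity)
    _ ≤ (1 - μ.real A) * μ.real (A + ε • K + G μ p s) := key
    _ ≤ (1 - μ.real A) * μ.real (A + G μ p (3000000000000000 * c)) :=
        mul_le_mul_of_nonneg_left hmono (by linarith)

/-- **Unconditional log-concave measures, convex sets**: the concentration inequality with a
factor polylogarithmic in the dimension. -/
theorem main_uncond [IsProbabilityMeasure μ] (hunc : Uncond μ) (hlc : LC μ)
    (hu2 : ∀ y : Fin n → ℝ, (∀ i, |y i| ≤ 1) → ∀ p : ℝ, 2 ≤ p →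
      ∑ i, (y i) ^ 2 ≤ p → WithLp.toLp 2 (fun i => y i * ma μ i) ∈ G μ p (Real.exp 1))
    {A : Set (E n)} (hAm : MeasurableSet A) (hAconv : Convex ℝ A) {p : ℝ} (hp : 2 ≤ p) {c : ℝ}
    (hc : Real.log (n + 2) * Real.log (2 + n / p) * min ((1 + n / p) ^ ((1:ℝ) / 4))
      (1 + Real.log ((n + 1) / (1 - μ.real A)) / p) ≤ c) :
    2 * Real.exp p * μ.real A * (1 - μ.real (A + G μ p (10000000000000000 * c))) ≤
      (1 - μ.real A) * μ.real (A + G μ p (10000000000000000 * c)) := by
  have hp0 : 0 < p := by linarith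
  have hn0 : (0:ℝ) ≤ n := Nat.cast_nonneg n
  have hnp : 0 ≤ (n:ℝ) / p := by positivity
  have hnpn : (n:ℝ) / p ≤ n := div_le_self hn0 (by linarith)
  have hln2 : (0.6931471803 : ℝ) < Real.log 2 := Real.log_two_gt_d9
  have hlogn : Real.log 2 ≤ Real.log ((n:ℝ) + 2) := Real.log_le_log (by norm_num) (by linarith)
  have hlogp : Real.log 2 ≤ Real.log (2 + (n:ℝ) / p) := Real.log_le_log (by norm_num) (by linarith)
  set X : ℝ := 1 + n / p with hX
  have hX1 : 1 ≤ X := by linarith
  have hX0 : 0 < X := by linarith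
  have hlogX : 0 ≤ Real.log X := Real.log_nonneg hX1
  have hlogXp : Real.log X ≤ Real.log (2 + (n:ℝ) / p) := Real.log_le_log hX0 (by linarith)
  have ha0 : 0 ≤ μ.real A := measureReal_nonneg
  rcases eq_or_lt_of_le (measureReal_le_one (μ := μ) (s := A)) with h1 | hlt
  · -- full measure
    rw [h1, sub_self, zero_mul]
    have hc0 : 0 ≤ c := by
      refine le_trans (mul_nonneg (mul_nonneg (by linarith) (by linarith)) (le_min (by positivity)
        ?_)) hc
      rw [h1]; simp
    have hsub : A ⊆ A + G μ p (10000000000000000 * c) := fun x hx =>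
      ⟨x, hx, 0, zero_mem_G (by positivity), by simp⟩
    have h2 := measureReal_mono (μ := μ) hsub (measure_ne_top μ _)
    have h3 : μ.real (A + G μ p (10000000000000000 * c)) = 1 :=
      le_antisymm measureReal_le_one (by linarith)
    rw [h3]; simp
  have hc1 : 0 < 1 - μ.real A := by linarith
  have hL1 : Real.log ((n + 1) / (1 - μ.real A)) =
      Real.log (n + 1) + Real.log (1 / (1 - μ.real A)) := by
    rw [div_eq_mul_one_div, Real.log_mul (by positivity) (by positivity)]
  have hlog1 : 0 ≤ Real.log ((n:ℝ) + 1) := Real.log_nonneg (by linarith)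
  have hlog2 : 0 ≤ Real.log (1 / (1 - μ.real A)) := by
    apply Real.log_nonneg
    rw [le_div_iff₀ hc1]; linarith
  set R := 1 + Real.log ((n + 1) / (1 - μ.real A)) / p with hR
  have hR1 : 1 ≤ R := by
    have : 0 ≤ Real.log ((n + 1) / (1 - μ.real A)) / p := by rw [hL1]; positivity
    linarith
  have hX4 : 1 ≤ X ^ ((1:ℝ) / 4) := Real.one_le_rpow hX1 (by norm_num)
  set ln := Real.log ((n:ℝ) + 2) with hln
  set lp := Real.log (2 + (n:ℝ) / p) with hlp
  have hln0 : 0 < ln := by linarith
  have hlp0 : 0 < lp := by linarith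
  have hc3 : 3 * c = 3 * c := rfl
  have hmin1 : 1 ≤ min (X ^ ((1:ℝ) / 4)) R := le_min hX4 hR1
  have hc0 : 0 ≤ c := le_trans (by positivity) hc
  have hmono : G μ p (3000000000000000 * (3 * c)) ⊆ G μ p (10000000000000000 * c) :=
    G_mono (by linarith)
  have hfin : ∀ ε : ℝ, 0 < ε → ε ≤ 1 →
      ln * (ε * Real.sqrt (1 + n / p)) ≤ 3 * c →
      ln * ((1 + Real.log (1 / ε)) * min (1 / ε)
        (1 + (Real.log (1 / (1 - μ.real A)) + Real.log (1 / ε)) / p)) ≤ 3 * c →
      2 * Real.exp p * μ.real A * (1 - μ.real (A + G μ p (10000000000000000 * c))) ≤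
        (1 - μ.real A) * μ.real (A + G μ p (10000000000000000 * c)) := by
    intro ε hε0 hε1 h5 h6
    have key := uncond_aux hunc hlc hu2 hAm hAconv hp hε0 hε1 h5 h6
    have hm := measureReal_mono (μ := μ) (add_subset_add_left (s := A) hmono) (measure_ne_top μ _)
    have hep := Real.exp_pos p
    calc 2 * Real.exp p * μ.real A * (1 - μ.real (A + G μ p (10000000000000000 * c)))
        ≤ 2 * Real.exp p * μ.real A * (1 - μ.real (A + G μ p (3000000000000000 * (3 * c)))) :=
          mul_le_mul_of_nonneg_left (by linarith) (by positivity)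
      _ ≤ (1 - μ.real A) * μ.real (A + G μ p (3000000000000000 * (3 * c))) := key
      _ ≤ (1 - μ.real A) * μ.real (A + G μ p (10000000000000000 * c)) :=
          mul_le_mul_of_nonneg_left hm (by linarith)
  have hlp2 : 1 ≤ 1.5 * lp := by linarith
  rcases min_le_iff.1 (le_refl (min (X ^ ((1:ℝ) / 4)) R)) with hcase | hcase
  · -- exponent one fourth
    have hmin : min (X ^ ((1:ℝ) / 4)) R = X ^ ((1:ℝ) / 4) := le_antisymm (min_le_left _ _) hcase
    rw [hmin] at hc
    set ε : ℝ := X ^ (-(1/4) : ℝ) with hε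
    have hε0 : 0 < ε := Real.rpow_pos_of_pos hX0 _
    have hε1 : ε ≤ 1 := Real.rpow_le_one_of_one_le_of_nonpos hX1 (by norm_num)
    have hinv : 1 / ε = X ^ ((1:ℝ) / 4) := by
      rw [hε, Real.rpow_neg hX0.le, one_div, inv_inv]
    have hlogi : Real.log (1 / ε) = 1 / 4 * Real.log X := by rw [hinv, Real.log_rpow hX0]
    refine hfin ε hε0 hε1 ?_ ?_
    · have e : ε * Real.sqrt (1 + n / p) = X ^ ((1:ℝ) / 4) := by
        rw [← hX, hε, Real.sqrt_eq_rpow, ← Real.rpow_add hX0]; norm_num
      rw [e]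
      have h7 : ln * X ^ ((1:ℝ) / 4) ≤ 1.5 * (ln * lp * X ^ ((1:ℝ) / 4)) := by
        have h8 : 0 ≤ ln * X ^ ((1:ℝ) / 4) := by positivity
        nlinarith
      linarith
    · have h7 : (1 + Real.log (1 / ε)) * min (1 / ε)
          (1 + (Real.log (1 / (1 - μ.real A)) + Real.log (1 / ε)) / p) ≤
          (2 * lp) * X ^ ((1:ℝ) / 4) := by
        apply mul_le_mul
        · rw [hlogi]; linarith
        · exact (min_le_left _ _).trans (le_of_eq hinv)
        · refine le_min (by positivity) ?_
          rw [hlogi]; positivity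
        · positivity
      calc ln * ((1 + Real.log (1 / ε)) * min (1 / ε)
            (1 + (Real.log (1 / (1 - μ.real A)) + Real.log (1 / ε)) / p)) ≤
            ln * ((2 * lp) * X ^ ((1:ℝ) / 4)) := mul_le_mul_of_nonneg_left h7 hln0.le
        _ = 2 * (ln * lp * X ^ ((1:ℝ) / 4)) := by ring
        _ ≤ 3 * c := by linarith
  · -- the logarithmic factor
    have hmin : min (X ^ ((1:ℝ) / 4)) R = R := le_antisymm (min_le_right _ _) hcase
    rw [hmin] at hc
    set ε : ℝ := X ^ (-(1/2) : ℝ) with hε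
    have hε0 : 0 < ε := Real.rpow_pos_of_pos hX0 _
    have hε1 : ε ≤ 1 := Real.rpow_le_one_of_one_le_of_nonpos hX1 (by norm_num)
    have hinv : 1 / ε = X ^ ((1:ℝ) / 2) := by
      rw [hε, Real.rpow_neg hX0.le, one_div, inv_inv]
    have hlogi : Real.log (1 / ε) = 1 / 2 * Real.log X := by rw [hinv, Real.log_rpow hX0]
    refine hfin ε hε0 hε1 ?_ ?_
    · have e : ε * Real.sqrt (1 + n / p) = 1 := by
        rw [← hX, hε, Real.sqrt_eq_rpow, ← Real.rpow_add hX0]; norm_num
      rw [e, mul_one]
      have h7 : ln ≤ 1.5 * (ln * lp) := by nlinarith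
      have h8 : ln * lp ≤ ln * lp * R := by
        have : 0 ≤ ln * lp := by positivity
        nlinarith
      linarith
    · have h7 : (1 + Real.log (1 / ε)) * min (1 / ε)
          (1 + (Real.log (1 / (1 - μ.real A)) + Real.log (1 / ε)) / p) ≤ (2 * lp) * R := by
        apply mul_le_mul
        · rw [hlogi]; linarith
        · refine (min_le_right _ _).trans ?_
          have h9 : Real.log X ≤ Real.log (n + 1) := Real.log_le_log hX0 (by linarith)
          have h10 := div_le_div_of_nonneg_right (show Real.log (1 / (1 - μ.real A)) +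
            Real.log (1 / ε) ≤ Real.log (n + 1) + Real.log (1 / (1 - μ.real A)) by
              rw [hlogi]; linarith) hp0.le
          rw [hR, hL1]
          linarith
        · refine le_min (by positivity) ?_
          rw [hlogi]; positivity
        · positivity
      calc ln * ((1 + Real.log (1 / ε)) * min (1 / ε)
            (1 + (Real.log (1 / (1 - μ.real A)) + Real.log (1 / ε)) / p)) ≤
            ln * ((2 * lp) * R) := mul_le_mul_of_nonneg_left h7 hln0.le
        _ = 2 * (ln * lp * R) := by ring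
        _ ≤ 3 * c := by linarith

end Pool.CIP
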