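import Pool.Agent.CIP.FU

set_option autoImplicit false

open MeasureTheory Pointwise Set Filter Topology

namespace Pool.CIP

variable {n : ℕ} {μ : Measure (E n)}

/-- the value of every term -/
lemma term_le {α β D R : ℝ} (hα : 1 / 2 ≤ α) (hβ : 1 ≤ β) (hD : 1 ≤ D) (hR : 1 ≤ R)
    (b : ℕ) :
    (1 / 2 ^ b : ℝ) * min (Real.sqrt D) (β * (4 ^ b * R) ^ α) ≤
      β * (Real.sqrt R * D ^ (1 / 2 - 1 / (4 * α))) := by
  have hα0 : 0 < α := by linarith
  have hD0 : 0 < D := by linarith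
  have h4 : (1:ℝ) ≤ 4 ^ b := one_le_pow₀ (by norm_num)
  set t : ℝ := 4 ^ b * R with ht
  have ht1 : 1 ≤ t := by rw [ht]; nlinarith
  have ht0 : 0 < t := by linarith
  have h2b : (0:ℝ) < 2 ^ b := by positivity
  have hst : Real.sqrt t = 2 ^ b * Real.sqrt R := by
    rw [ht, Real.sqrt_mul (by positivity)]
    congr 1
    rw [show (4:ℝ) ^ b = (2 ^ b) ^ 2 by rw [← pow_mul, mul_comm, pow_mul]; norm_num]
    exact Real.sqrt_sq h2b.le
  have hDx : 0 < D ^ (1 / 2 - 1 / (4 * α)) := Real.rpow_pos_of_pos hD0 _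
  have key : min (Real.sqrt D) (β * t ^ α) ≤
      β * (Real.sqrt t * D ^ (1 / 2 - 1 / (4 * α))) := by
    rcases le_total t (D ^ (1 / (2 * α))) with h | h
    · refine (min_le_right _ _).trans ?_
      apply mul_le_mul_of_nonneg_left _ (by linarith)
      have h1 : t ^ α = Real.sqrt t * t ^ (α - 1 / 2) := by
        rw [Real.sqrt_eq_rpow, ← Real.rpow_add ht0]; congr 1; ring
      have h2 : t ^ (α - 1 / 2) ≤ D ^ (1 / 2 - 1 / (4 * α)) := by
        refine (Real.rpow_le_rpow ht0.le h (by linarith)).trans (le_of_eq ?_)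
        rw [← Real.rpow_mul hD0.le]
        congr 1
        field_simp
        ring
      rw [h1]
      exact mul_le_mul_of_nonneg_left h2 (Real.sqrt_nonneg _)
    · refine (min_le_left _ _).trans ?_
      have h1 : Real.sqrt D = D ^ (1 / (4 * α)) * D ^ (1 / 2 - 1 / (4 * α)) := by
        rw [Real.sqrt_eq_rpow, ← Real.rpow_add hD0]; congr 1; ring
      have h2 : D ^ (1 / (4 * α)) ≤ Real.sqrt t := by
        rw [Real.sqrt_eq_rpow]
        refine le_trans (le_of_eq ?_) (Real.rpow_le_rpow (by positivity) h (by norm_num))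
        rw [← Real.rpow_mul hD0.le]
        congr 1
        field_simp
        norm_num
      rw [h1]
      have h3 : D ^ (1 / (4 * α)) * D ^ (1 / 2 - 1 / (4 * α)) ≤
          Real.sqrt t * D ^ (1 / 2 - 1 / (4 * α)) := mul_le_mul_of_nonneg_right h2 hDx.le
      have h4 : 0 ≤ Real.sqrt t * D ^ (1 / 2 - 1 / (4 * α)) := by positivity
      nlinarith
  calc (1 / 2 ^ b : ℝ) * min (Real.sqrt D) (β * t ^ α)
      ≤ (1 / 2 ^ b : ℝ) * (β * (Real.sqrt t * D ^ (1 / 2 - 1 / (4 * α)))) :=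
        mul_le_mul_of_nonneg_left key (by positivity)
    _ = β * (Real.sqrt R * D ^ (1 / 2 - 1 / (4 * α))) := by
        rw [hst]; field_simp

/-- the sum of the terms -/
lemma terms_le {α β D R L : ℝ} (hα : 1 / 2 ≤ α) (hα1 : α ≤ 1) (hβ : 1 ≤ β) (hD : 1 ≤ D)
    (hR : 1 ≤ R) {N : ℕ} (hN : (N:ℝ) ≤ 14 * L ∨ 1 ≤ (2 * α - 1) * L) (hL0 : 0 ≤ L) :
    ∑ b ∈ Finset.range N, (1 / 2 ^ (b + 1) : ℝ) *
      min (Real.sqrt D) (β * (4 ^ (b + 1) * R) ^ α) ≤
      14 * L * (β * (Real.sqrt R * D ^ (1 / 2 - 1 / (4 * α)))) := by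
  set M := β * (Real.sqrt R * D ^ (1 / 2 - 1 / (4 * α))) with hM
  have hD0 : 0 < D := by linarith
  have hR0 : 0 < R := by linarith
  have hM0 : 0 ≤ M := by
    have := Real.rpow_pos_of_pos hD0 (1 / 2 - 1 / (4 * α))
    positivity
  rcases hN with hN | hN
  · calc ∑ b ∈ Finset.range N, (1 / 2 ^ (b + 1) : ℝ) *
          min (Real.sqrt D) (β * (4 ^ (b + 1) * R) ^ α) ≤ ∑ _b ∈ Finset.range N, M :=
          Finset.sum_le_sum fun b _ => term_le hα hβ hD hR (b + 1)
      _ = N * M := by rw [Finset.sum_const, Finset.card_range, nsmul_eq_mul]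
      _ ≤ 14 * L * M := mul_le_mul_of_nonneg_right hN hM0
  · have hL1 : 0 < 2 * α - 1 := by
      by_contra hcon
      push Not at hcon
      nlinarith
    set r : ℝ := 2 ^ (2 * α - 1) with hr
    have hr1 : 1 + 0.69 * (2 * α - 1) ≤ r := by
      have h1 : Real.log 2 * (2 * α - 1) + 1 ≤ Real.exp (Real.log 2 * (2 * α - 1)) :=
        Real.add_one_le_exp _
      have h2 : Real.exp (Real.log 2 * (2 * α - 1)) = r := by
        rw [hr, Real.rpow_def_of_pos (by norm_num)]
      have h3 := Real.log_two_gt_d9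
      rw [h2] at h1
      nlinarith
    have hr2 : r ≤ 2 := by
      rw [hr]
      calc (2:ℝ) ^ (2 * α - 1) ≤ 2 ^ (1:ℝ) :=
            Real.rpow_le_rpow_of_exponent_le (by norm_num) (by linarith)
        _ = 2 := by norm_num
    have hr0 : 1 < r := by linarith
    have e : ∀ b : ℕ, (1 / 2 ^ (b + 1) : ℝ) * min (Real.sqrt D) (β * (4 ^ (b + 1) * R) ^ α) =
        min (β * R ^ α * r * r ^ b) (Real.sqrt D / 2 / 2 ^ b) := by
      intro b
      rw [mul_min_of_nonneg _ _ (by positivity), min_comm]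
      congr 1
      · have h1 : ((4:ℝ) ^ (b + 1) * R) ^ α = (2 ^ (b + 1) * r ^ (b + 1)) * R ^ α := by
          rw [Real.mul_rpow (by positivity) hR0.le]
          congr 1
          have h2 : (4:ℝ) ^ (b + 1) = 2 ^ (2 * ((b + 1 : ℕ) : ℝ)) := by
            rw [Real.rpow_mul (by norm_num), Real.rpow_natCast]
            norm_num
          rw [h2, ← Real.rpow_mul (by norm_num), hr, ← Real.rpow_natCast (2 ^ (2 * α - 1)),
            ← Real.rpow_mul (by norm_num), ← Real.rpow_natCast 2, ← Real.rpow_add (by norm_num)]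
          congr 1
          ring
        rw [h1]
        field_simp
        ring
      · rw [pow_succ]; field_simp
    simp only [e]
    have h5 := min_sum_le (X := β * R ^ α * r) (Y := Real.sqrt D / 2) (r := r) (M := M)
      (by positivity) (by positivity) hr0 hM0 N (fun b _ => by
        rw [← e b]
        exact term_le hα hβ hD hR (b + 1))
    refine h5.trans (mul_le_mul_of_nonneg_right ?_ hM0)
    have h6 : r / (r - 1) ≤ 3 * L := by
      rw [div_le_iff₀ (by linarith)]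
      have h7 : 0.69 * (2 * α - 1) ≤ r - 1 := by linarith
      have h8 : 0.69 * ((2 * α - 1) * L) ≤ (r - 1) * L := by nlinarith
      linarith
    have h9 : 1 ≤ L := by nlinarith
    linarith

/-- convex sets and growth of the moments: general `ε` -/
lemma power_aux [IsProbabilityMeasure μ] (hsym : μ.map (fun x => -x) = μ)
    (hlc : LC μ) {A : Set (E n)} (hAm : MeasurableSet A) (hAconv : Convex ℝ A) {p : ℝ}
    (hp : 2 ≤ p) {α β : ℝ} (hα : 1 / 2 ≤ α) (hα1 : α ≤ 1) (hβ : 1 ≤ β)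
    (hgrow : ∀ t : ℝ, 1 ≤ t → ∀ v : E n, hm μ (t * p) v ≤ β * t ^ α * hm μ p v)
    {L : ℝ} (hL : Real.log (2 + n / p) ≤ L ∨ 1 ≤ (2 * α - 1) * L)
    {ε : ℝ} (hε0 : 0 < ε) (hε1 : ε ≤ 1) (hεD : Real.log (1 / ε) ≤ 1 / 2 * Real.log (1 + n / p))
    {R : ℝ} (hR : 1 ≤ R) (hRD : R ^ α ≤ Real.sqrt (1 + n / p))
    (hq : min (p / ε) (p + Real.log (1 / (1 - μ.real A)) + Real.log (1 / ε)) ≤ R * p) {c : ℝ}
    (hc : ε * Real.sqrt (1 + n / p) +
      16 * L * (β * (Real.sqrt R * (1 + n / p) ^ (1 / 2 - 1 / (4 * α)))) ≤ c) :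
    2 * Real.exp p * μ.real A * (1 - μ.real (A + G μ p (3000000000000000 * c))) ≤
      (1 - μ.real A) * μ.real (A + G μ p (3000000000000000 * c)) := by
  have hp0 : 0 < p := by linarith
  have hα0 : 0 < α := by linarith
  have hn0 : (0:ℝ) ≤ n := Nat.cast_nonneg n
  have hnp : 0 ≤ (n:ℝ) / p := by positivity
  have hln2 : (0.6931471803 : ℝ) < Real.log 2 := Real.log_two_gt_d9
  have hlogp : Real.log 2 ≤ Real.log (2 + (n:ℝ) / p) := Real.log_le_log (by norm_num) (by linarith)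
  set D : ℝ := 1 + n / p with hD
  have hD1 : 1 ≤ D := by linarith
  have hD0 : 0 < D := by linarith
  have hlogD : Real.log D ≤ Real.log (2 + (n:ℝ) / p) := Real.log_le_log hD0 (by linarith)
  have hL0 : 0.69 ≤ L := by
    rcases hL with h | h
    · linarith
    · nlinarith
  obtain ⟨N0, hN0⟩ : ∃ N : ℕ, 44 / ε ≤ (2:ℝ) ^ N := pow_unbounded_of_one_lt (44 / ε)
    (by norm_num : (1:ℝ) < 2) |>.imp fun N h => h.le
  obtain ⟨N, hN1, _, hNε, hNlog⟩ := exists_B hε0 hε1 hN0
  have hN0' : (0:ℝ) ≤ N := Nat.cast_nonneg N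
  have hNup : (N:ℝ) ≤ 14 * L ∨ 1 ≤ (2 * α - 1) * L := by
    rcases hL with h | h
    · left
      have h1 : Real.log ((2:ℝ) ^ N) = N * Real.log 2 := by rw [Real.log_pow]
      rw [h1] at hNlog
      nlinarith
    · exact Or.inr h
  set M := β * (Real.sqrt R * D ^ (1 / 2 - 1 / (4 * α))) with hM
  have hM0 : 0 ≤ M := by
    have := Real.rpow_pos_of_pos hD0 (1 / 2 - 1 / (4 * α))
    positivity
  refine main_convex_growth0 hsym hlc hAm hAconv hp hε0 hε1 hNε (q := R * p) hq ?_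
  intro v
  set H := hm μ p v with hH
  have hH0 : 0 ≤ H := hm_nonneg p v
  have h1 : hm μ (R * p) v ≤ M * H := by
    refine (hgrow R hR v).trans (mul_le_mul_of_nonneg_right ?_ hH0)
    have h2 := term_le (β := 1) hα le_rfl hD1 hR 0
    rw [pow_zero, pow_zero, div_one, one_mul, one_mul, one_mul, one_mul, min_eq_right hRD] at h2
    exact mul_le_mul_of_nonneg_left h2 (by linarith)
  have h4 : ∑ b ∈ Finset.range N, (1 / 2 ^ (b + 1) : ℝ) * min (Real.sqrt D * H)
      (hm μ (4 ^ (b + 1) * (R * p)) v) ≤ 14 * L * M * H := by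
    have h5 : ∀ b ∈ Finset.range N, (1 / 2 ^ (b + 1) : ℝ) * min (Real.sqrt D * H)
        (hm μ (4 ^ (b + 1) * (R * p)) v) ≤
        ((1 / 2 ^ (b + 1) : ℝ) * min (Real.sqrt D) (β * (4 ^ (b + 1) * R) ^ α)) * H := by
      intro b _
      have h41 : (1:ℝ) ≤ 4 ^ (b + 1) := one_le_pow₀ (by norm_num)
      have h6 := hgrow (4 ^ (b + 1) * R) (by nlinarith) v
      rw [mul_assoc (1 / 2 ^ (b + 1) : ℝ)]
      apply mul_le_mul_of_nonneg_left _ (by positivity)
      rw [min_mul_of_nonneg _ _ hH0]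
      refine min_le_min le_rfl ?_
      rw [← mul_assoc]
      exact h6
    refine (Finset.sum_le_sum h5).trans ?_
    rw [← Finset.sum_mul]
    exact mul_le_mul_of_nonneg_right (terms_le hα hα1 hβ hD1 hR hNup (by linarith)) hH0
  have h7 : M * H ≤ 1.5 * L * M * H := by
    have : 0 ≤ M * H := by positivity
    nlinarith
  have h8 : (ε * Real.sqrt D + 16 * L * M) * H ≤ c * H := mul_le_mul_of_nonneg_right hc hH0
  have h9 : 0 ≤ L * M * H := by
    have : 0 ≤ L := by linarith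
    positivity
  nlinarith

end Pool.CIP
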