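import Pool.Agent.CIP.FW

set_option autoImplicit false

open MeasureTheory Pointwise Set Filter Topology

namespace Pool.CIP

variable {n : ℕ} {μ : Measure (E n)}

/-- **The concentration inequality for convex sets, no additional body, growth of the moments.**
If `h_{t p} ≤ β t ^ α h_p` for all `t ≥ 1` (always true with `α = 1`, `β = 15`), then the factor is
of order `β (1 + n / p) ^ (1/2 - 1/(4 α))` (up to a logarithm if `α = 1/2`). -/
theorem main_convex_power [IsProbabilityMeasure μ] (hsym : μ.map (fun x => -x) = μ)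
    (hlc : LC μ) {A : Set (E n)} (hAm : MeasurableSet A) (hAconv : Convex ℝ A) {p : ℝ}
    (hp : 2 ≤ p) {α β : ℝ} (hα : 1 / 2 ≤ α) (hα1 : α ≤ 1) (hβ : 1 ≤ β)
    (hgrow : (α = 1 ∧ β = 15) ∨
      ∀ t : ℝ, 1 ≤ t → ∀ v : E n, hm μ (t * p) v ≤ β * t ^ α * hm μ p v)
    {L : ℝ} (hL : Real.log (2 + n / p) ≤ L ∨ 1 ≤ (2 * α - 1) * L) {c : ℝ}
    (hc : β * L * (1 + n / p) ^ (1 / 2 - 1 / (6 * α)) ≤ c ∨
      β * L * ((1 + n / p) ^ (1 / 2 - 1 / (4 * α)) *
        Real.sqrt (1 + Real.log ((n + 1) / (1 - μ.real A)) / p)) ≤ c) :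
    2 * Real.exp p * μ.real A * (1 - μ.real (A + G μ p (100000000000000000 * c))) ≤
      (1 - μ.real A) * μ.real (A + G μ p (100000000000000000 * c)) := by
  have hp0 : 0 < p := by linarith
  have hα0 : 0 < α := by linarith
  have hn0 : (0:ℝ) ≤ n := Nat.cast_nonneg n
  have hnp : 0 ≤ (n:ℝ) / p := by positivity
  have hln2 : (0.6931471803 : ℝ) < Real.log 2 := Real.log_two_gt_d9
  have hlogp : Real.log 2 ≤ Real.log (2 + (n:ℝ) / p) := Real.log_le_log (by norm_num) (by linarith)
  have hgrow' : ∀ t : ℝ, 1 ≤ t → ∀ v : E n, hm μ (t * p) v ≤ β * t ^ α * hm μ p v := by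
    rcases hgrow with ⟨h1, h2⟩ | h
    · intro t ht v
      have h3 := hm_compare hsym hlc (by linarith : 1 ≤ p) (by nlinarith : p ≤ t * p) v
      refine h3.trans (mul_le_mul_of_nonneg_right ?_ (hm_nonneg p v))
      rw [h1, h2, Real.rpow_one, mul_div_assoc, div_self hp0.ne', mul_one]
      have hexp2 : 2 * Real.exp 2 ≤ 15 := by
        have h6 : Real.exp 2 = Real.exp 1 * Real.exp 1 := by rw [← Real.exp_add]; norm_num
        have h7 := Real.exp_one_lt_d9
        have h8 := Real.exp_pos 1
        rw [h6]; nlinarith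
      nlinarith
    · exact h
  set D : ℝ := 1 + n / p with hD
  have hD1 : 1 ≤ D := by linarith
  have hD0 : 0 < D := by linarith
  have hlogD0 : 0 ≤ Real.log D := Real.log_nonneg hD1
  have hL0 : 0.69 ≤ L := by
    rcases hL with h | h
    · linarith
    · nlinarith
  have hL1 : 1 ≤ 1.45 * L := by linarith
  have hβL : 1 ≤ 1.45 * (β * L) := by nlinarith
  have hsqD : 1 ≤ Real.sqrt D := Real.one_le_sqrt.2 hD1
  have ha0 : 0 ≤ μ.real A := measureReal_nonneg
  have hep := Real.exp_pos p
  have ha1 : μ.real A ≤ 1 := measureReal_le_one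
  -- the exponents
  have hrho : 1 / (2 * α) ≤ 1 := by rw [div_le_one (by linarith)]; linarith
  have hrho0 : 0 < 1 / (2 * α) := by positivity
  have hmono : ∀ {s : ℝ}, s ≤ 100000000000000000 * c →
      2 * Real.exp p * μ.real A * (1 - μ.real (A + G μ p s)) ≤
        (1 - μ.real A) * μ.real (A + G μ p s) →
      2 * Real.exp p * μ.real A * (1 - μ.real (A + G μ p (100000000000000000 * c))) ≤
        (1 - μ.real A) * μ.real (A + G μ p (100000000000000000 * c)) := by
    intro s hs key
    have hm := measureReal_mono (μ := μ) (add_subset_add_left (s := A) (G_mono (μ := μ) (q := p) hs))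
      (measure_ne_top μ _)
    calc 2 * Real.exp p * μ.real A * (1 - μ.real (A + G μ p (100000000000000000 * c)))
        ≤ 2 * Real.exp p * μ.real A * (1 - μ.real (A + G μ p s)) :=
          mul_le_mul_of_nonneg_left (by linarith) (by positivity)
      _ ≤ (1 - μ.real A) * μ.real (A + G μ p s) := key
      _ ≤ (1 - μ.real A) * μ.real (A + G μ p (100000000000000000 * c)) :=
          mul_le_mul_of_nonneg_left hm (by linarith)
  rcases hc with hc | hc
  · -- the first exponent
    set ε : ℝ := D ^ (-(1 / (6 * α)) : ℝ) with hε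
    have h6 : 1 / (6 * α) = 1 / 3 * (1 / (2 * α)) := by field_simp; norm_num
    have hε0 : 0 < ε := Real.rpow_pos_of_pos hD0 _
    have hε1 : ε ≤ 1 := Real.rpow_le_one_of_one_le_of_nonpos hD1 (by
      have : 0 < 1 / (6 * α) := by positivity
      linarith)
    have hinv : 1 / ε = D ^ (1 / (6 * α)) := by
      rw [hε, Real.rpow_neg hD0.le, one_div, inv_inv]
    set R : ℝ := D ^ (1 / (6 * α)) with hR
    have hR1 : 1 ≤ R := Real.one_le_rpow hD1 (by positivity)
    have hlogi : Real.log (1 / ε) = 1 / (6 * α) * Real.log D := by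
      rw [hinv, hR, Real.log_rpow hD0]
    have hRα : R ^ α = D ^ ((1:ℝ) / 6) := by
      rw [hR, ← Real.rpow_mul hD0.le]
      congr 1
      field_simp
    have e1 : ε * Real.sqrt D = D ^ (1 / 2 - 1 / (6 * α)) := by
      rw [hε, Real.sqrt_eq_rpow, ← Real.rpow_add hD0]; congr 1; ring
    have e2 : Real.sqrt R * D ^ (1 / 2 - 1 / (4 * α)) = D ^ (1 / 2 - 1 / (6 * α)) := by
      rw [hR, Real.sqrt_eq_rpow, ← Real.rpow_mul hD0.le, ← Real.rpow_add hD0]
      congr 1
      field_simp
      ring
    set Y := D ^ (1 / 2 - 1 / (6 * α)) with hY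
    have hY0 : 0 < Y := Real.rpow_pos_of_pos hD0 _
    have hLp : 0 < L := by linarith
    have hBLY : 0 < β * L * Y := by positivity
    refine hmono (s := 3000000000000000 * (18 * (β * L * Y))) (by linarith) ?_
    refine power_aux hsym hlc hAm hAconv hp hα hα1 hβ hgrow' hL hε0 hε1 ?_ hR1 ?_ ?_ ?_
    · rw [hlogi, h6]
      nlinarith
    · rw [hRα, ← hD, Real.sqrt_eq_rpow]
      exact Real.rpow_le_rpow_of_exponent_le hD1 (by norm_num)
    · refine (min_le_left _ _).trans (le_of_eq ?_)
      rw [div_eq_mul_one_div, hinv, mul_comm]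
    · rw [← hD, e1, e2]
      have : Y ≤ 1.45 * (β * L) * Y := by nlinarith
      have h9 : 0 < β * L * Y := by
        have : 0 < L := by linarith
        positivity
      nlinarith
  · -- the second exponent
    rcases ha1.eq_or_lt with h1 | hlt
    · -- full measure
      rw [h1, sub_self, zero_mul]
      have hLp : 0 < L := by linarith
      have hc0 : 0 ≤ c := by
        refine le_trans ?_ hc
        have := Real.rpow_pos_of_pos hD0 (1 / 2 - 1 / (4 * α))
        positivity
      have hsub : A ⊆ A + G μ p (100000000000000000 * c) := fun x hx =>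
        ⟨x, hx, 0, zero_mem_G (by positivity), by simp⟩
      have h2 := measureReal_mono (μ := μ) hsub (measure_ne_top μ _)
      have h3 : μ.real (A + G μ p (100000000000000000 * c)) = 1 :=
        le_antisymm measureReal_le_one (by linarith)
      rw [h3]; simp
    have hc1 : 0 < 1 - μ.real A := by linarith
    have hL2 : Real.log ((n + 1) / (1 - μ.real A)) =
        Real.log (n + 1) + Real.log (1 / (1 - μ.real A)) := by
      rw [div_eq_mul_one_div, Real.log_mul (by positivity) (by positivity)]
    have hlog1 : 0 ≤ Real.log ((n:ℝ) + 1) := Real.log_nonneg (by linarith)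
    have hlog2 : 0 ≤ Real.log (1 / (1 - μ.real A)) := by
      apply Real.log_nonneg
      rw [le_div_iff₀ hc1]; linarith
    set R := 1 + Real.log ((n + 1) / (1 - μ.real A)) / p with hR
    have hR1 : 1 ≤ R := by
      have : 0 ≤ Real.log ((n + 1) / (1 - μ.real A)) / p := by rw [hL2]; positivity
      linarith
    have hR0 : 0 < R := by linarith
    have hsqR : 1 ≤ Real.sqrt R := Real.one_le_sqrt.2 hR1
    set Y := D ^ (1 / 2 - 1 / (4 * α)) with hY
    have hY1 : 1 ≤ Y := Real.one_le_rpow hD1 (by
      have : 1 / (4 * α) = 1 / 2 * (1 / (2 * α)) := by field_simp; norm_num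
      rw [this]; linarith)
    have hY0 : 0 < Y := by linarith
    rcases le_or_gt (R ^ α) (Real.sqrt D) with hcase | hcase
    · set ε : ℝ := D ^ (-(1/2) : ℝ) with hε
      have hε0 : 0 < ε := Real.rpow_pos_of_pos hD0 _
      have hε1 : ε ≤ 1 := Real.rpow_le_one_of_one_le_of_nonpos hD1 (by norm_num)
      have hinv : 1 / ε = D ^ ((1:ℝ) / 2) := by
        rw [hε, Real.rpow_neg hD0.le, one_div, inv_inv]
      have hlogi : Real.log (1 / ε) = 1 / 2 * Real.log D := by rw [hinv, Real.log_rpow hD0]
      have e1 : ε * Real.sqrt D = 1 := by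
        rw [hε, Real.sqrt_eq_rpow, ← Real.rpow_add hD0]; norm_num
      have hLp : 0 < L := by linarith
      have hBLY : 0 < β * L * (Y * Real.sqrt R) := by positivity
      refine hmono (s := 3000000000000000 * (18 * (β * L * (Y * Real.sqrt R)))) (by linarith) ?_
      refine power_aux hsym hlc hAm hAconv hp hα hα1 hβ hgrow' hL hε0 hε1 ?_ hR1 ?_ ?_ ?_
      · rw [hlogi]
      · rw [← hD]; exact hcase
      · refine (min_le_right _ _).trans ?_
        have h9 : Real.log D ≤ Real.log (n + 1) := by
          apply Real.log_le_log hD0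
          have : (n:ℝ) / p ≤ n := div_le_self hn0 (by linarith)
          linarith
        have e : R * p = p + (Real.log (n + 1) + Real.log (1 / (1 - μ.real A))) := by
          rw [hR, hL2]; field_simp
        rw [e, hlogi]
        linarith
      · rw [← hD, e1]
        have h10 : 1 ≤ 1.45 * (β * L) * (Y * Real.sqrt R) := by
          have h11 : 1 ≤ Y * Real.sqrt R := by nlinarith
          nlinarith
        have h12 : 16 * L * (β * (Real.sqrt R * Y)) = 16 * (β * L * (Y * Real.sqrt R)) := by ring
        rw [h12]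
        linarith
    · -- many moments: the result for all Borel sets
      have h2 : D ^ (1 / (4 * α)) ≤ Real.sqrt R := by
        have h3 : D ^ (1 / (2 * α)) ≤ R := by
          have h4 : (Real.sqrt D) ^ (1 / α) ≤ (R ^ α) ^ (1 / α) :=
            Real.rpow_le_rpow (Real.sqrt_nonneg _) hcase.le (by positivity)
          rw [← Real.rpow_mul hR0.le, Real.sqrt_eq_rpow, ← Real.rpow_mul hD0.le] at h4
          have e5 : α * (1 / α) = 1 := by field_simp
          have e6 : (1:ℝ) / 2 * (1 / α) = 1 / (2 * α) := by field_simp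
          rwa [e5, e6, Real.rpow_one] at h4
        rw [Real.sqrt_eq_rpow]
        refine le_trans (le_of_eq ?_) (Real.rpow_le_rpow (by positivity) h3 (by norm_num))
        rw [← Real.rpow_mul hD0.le]
        congr 1
        field_simp
        norm_num
      have h3 : Real.sqrt D ≤ Y * Real.sqrt R := by
        have e7 : Real.sqrt D = D ^ (1 / (4 * α)) * Y := by
          rw [hY, Real.sqrt_eq_rpow, ← Real.rpow_add hD0]; congr 1; ring
        rw [e7, mul_comm Y]
        exact mul_le_mul_of_nonneg_right h2 hY0.le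
      have h4 : Real.sqrt D ≤ 1.45 * c := by
        have h5 : 0 ≤ Y * Real.sqrt R := by positivity
        nlinarith
      refine hmono (s := 10000000000000 * (1.45 * c)) (by linarith) ?_
      refine main_undilated hsym hlc hAm hp (by linarith) ?_
      have h6 : Real.sqrt (n * p) ≤ Real.sqrt D * p := by
        rw [show Real.sqrt D * p = Real.sqrt (D * (p * p)) by
          rw [Real.sqrt_mul hD0.le, Real.sqrt_mul_self hp0.le]]
        apply Real.sqrt_le_sqrt
        rw [hD]
        have : (1 + (n:ℝ) / p) * (p * p) = p * p + n * p := by field_simp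
        rw [this]
        nlinarith
      have h7 : 0 ≤ 1.45 * c := by linarith
      calc Real.sqrt (n * p) ≤ Real.sqrt D * p := h6
        _ ≤ 1.45 * c * max p (Real.log (1 / (μ.real A * (1 - μ.real A)))) :=
            mul_le_mul h4 (le_max_left _ _) hp0.le h7

end Pool.CIP
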