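import Pool.Agent.CIP.VA
import Pool.Agent.CIP.C

/-! # Approximation of an unconditional log-concave measure by one with an even log-concave density -/

set_option autoImplicit false

open MeasureTheory Pointwise Set Filter Topology
open scoped ENNReal

namespace Pool.CIP

variable {n : ℕ} {μ : Measure (E n)}

/-- the cube of side `2 δ` -/
def cube (n : ℕ) (δ : ℝ) : Set (E n) := {x | ∀ i, |x i| ≤ δ}

lemma isClosed_cube (δ : ℝ) : IsClosed (cube n δ) := by
  have h1 : cube n δ = ⋂ i, {x : E n | |x i| ≤ δ} := by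
    ext x; simp [cube]
  rw [h1]
  exact isClosed_iInter fun i => isClosed_le (by fun_prop) continuous_const

lemma isBounded_cube (δ : ℝ) : Bornology.IsBounded (cube n δ) := by
  rw [isBounded_iff_forall_norm_le]
  refine ⟨∑ _i : Fin n, δ, fun x hx => ?_⟩
  have h2 : x = ∑ i : Fin n, EuclideanSpace.single i (x i) := by
    ext j
    simp [Finset.sum_apply, Pi.single_apply]
  calc ‖x‖ = ‖∑ i : Fin n, EuclideanSpace.single i (x i)‖ := by rw [← h2]
    _ ≤ ∑ i : Fin n, ‖EuclideanSpace.single i (x i)‖ := norm_sum_le _ _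
    _ = ∑ i : Fin n, |x i| := by simp
    _ ≤ ∑ _i : Fin n, δ := Finset.sum_le_sum fun i _ => hx i

lemma isCompact_cube (δ : ℝ) : IsCompact (cube n δ) :=
  Metric.isCompact_of_isClosed_isBounded (isClosed_cube δ) (isBounded_cube δ)

lemma volume_cube_ne_top (δ : ℝ) : volume (cube n δ) ≠ ∞ := (isCompact_cube δ).measure_lt_top.ne

lemma volume_cube_pos {δ : ℝ} (hδ : 0 < δ) : 0 < volume (cube n δ) := by
  have h1 : Metric.ball (0 : E n) δ ⊆ cube n δ := by
    intro x hx i
    rw [mem_ball_zero_iff] at hx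
    have h2 : ‖x i‖ ≤ ‖x‖ := PiLp.norm_apply_le x i
    rw [Real.norm_eq_abs] at h2
    linarith
  exact (Metric.measure_ball_pos _ _ hδ).trans_le (measure_mono h1)

/-- the density of the law of `X + δ U` -/
noncomputable def den (μ : Measure (E n)) (δ : ℝ) (x : E n) : ℝ :=
  μ.real {y | y - x ∈ cube n δ} / (volume (cube n δ)).toReal

lemma isClosed_shift (δ : ℝ) (x : E n) : IsClosed {y : E n | y - x ∈ cube n δ} :=
  (isClosed_cube δ).preimage (by fun_prop)

lemma isCompact_shift (δ : ℝ) (x : E n) : IsCompact {y : E n | y - x ∈ cube n δ} := by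
  have h1 : {y : E n | y - x ∈ cube n δ} = x +ᵥ cube n δ := by
    ext y
    rw [mem_vadd_set_iff_neg_vadd_mem, vadd_eq_add, mem_ofPred_eq, sub_eq_neg_add]
  rw [h1]
  exact (isCompact_cube δ).vadd x

lemma measurableSet_pairs (δ : ℝ) : MeasurableSet {z : E n × E n | z.2 - z.1 ∈ cube n δ} :=
  ((isClosed_cube δ).preimage (by fun_prop)).measurableSet

lemma nice_den [IsProbabilityMeasure μ] (hunc : Uncond μ) (hlc : LC μ) {δ : ℝ} (hδ : 0 < δ) :
    Nice (den μ δ) := by
  have hc0 : 0 < (volume (cube n δ)).toReal :=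
    ENNReal.toReal_pos (volume_cube_pos hδ).ne' (volume_cube_ne_top δ)
  refine ⟨?_, ?_, ?_, ?_⟩
  · have h1 : Measurable fun x : E n => μ (Prod.mk x ⁻¹' {z : E n × E n | z.2 - z.1 ∈ cube n δ}) :=
      measurable_measure_prodMk_left (measurableSet_pairs δ)
    exact h1.ennreal_toReal.div_const _
  · intro x
    exact div_nonneg measureReal_nonneg hc0.le
  · intro σ hσ x
    unfold den
    congr 1
    have h1 : {y : E n | y - flp σ x ∈ cube n δ} = flp σ ⁻¹' {y | y - x ∈ cube n δ} := by
      ext y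
      simp only [cube, mem_ofPred_eq, mem_preimage, PiLp.sub_apply, flp_apply]
      refine forall_congr' fun i => ?_
      rcases hσ i with h | h
      · rw [h]; simp
      · rw [h, show y i - -1 * x i = -(-1 * y i - x i) by ring, abs_neg]
    rw [h1]
    unfold Measure.real
    congr 1
    conv_rhs => rw [← hunc.map_flp hσ]
    rw [Measure.map_apply (measurable_flp σ) (isClosed_shift δ x).measurableSet]
  · intro x y s hs0 hs1
    have hz : ∀ w : E n, ({y : E n | y - w ∈ cube n δ}).Nonempty := fun w =>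
      ⟨w, fun i => by simp [hδ.le]⟩
    have h1 := hlc _ _ (isCompact_shift δ x) (hz x) (isCompact_shift δ y) (hz y) (1 - s)
      (by linarith) (by linarith)
    have h2 : (1 - s) • {z : E n | z - x ∈ cube n δ} + (1 - (1 - s)) • {z : E n | z - y ∈ cube n δ} ⊆
        {z : E n | z - ((1 - s) • x + s • y) ∈ cube n δ} := by
      rintro _ ⟨_, ⟨a, ha, rfl⟩, _, ⟨b, hb, rfl⟩, rfl⟩ i
      have ha' := ha i
      have hb' := hb i
      simp only [PiLp.sub_apply, PiLp.add_apply, PiLp.smul_apply, smul_eq_mul, sub_sub_cancel] at ha' hb' ⊢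
      have h3 : (1 - s) * a i + s * b i - ((1 - s) * x i + s * y i) =
          (1 - s) * (a i - x i) + s * (b i - y i) := by ring
      rw [h3]
      calc |(1 - s) * (a i - x i) + s * (b i - y i)| ≤ |(1 - s) * (a i - x i)| + |s * (b i - y i)| :=
            abs_add_le _ _
        _ = (1 - s) * |a i - x i| + s * |b i - y i| := by
          rw [abs_mul, abs_mul, abs_of_pos (by linarith : (0:ℝ) < 1 - s), abs_of_pos hs0]
        _ ≤ (1 - s) * δ + s * δ := add_le_add
          (mul_le_mul_of_nonneg_left ha' (by linarith)) (mul_le_mul_of_nonneg_left hb' hs0.le)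
        _ = δ := by ring
    have h3 := h1.trans (measure_mono h2)
    rw [sub_sub_cancel] at h3
    have h4 := ENNReal.toReal_mono (measure_ne_top μ _) h3
    rw [ENNReal.toReal_mul, ← ENNReal.toReal_rpow, ← ENNReal.toReal_rpow] at h4
    unfold den
    have ha0 : 0 ≤ μ.real {z : E n | z - x ∈ cube n δ} := measureReal_nonneg
    have hb0 : 0 ≤ μ.real {z : E n | z - y ∈ cube n δ} := measureReal_nonneg
    rw [Real.div_rpow ha0 hc0.le, Real.div_rpow hb0 hc0.le, div_mul_div_comm,
      ← Real.rpow_add hc0, show 1 - s + s = 1 by ring, Real.rpow_one]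
    exact div_le_div_of_nonneg_right h4 hc0.le

/-- the law of `X + δ U` -/
noncomputable def sm (μ : Measure (E n)) (δ : ℝ) : Measure (E n) :=
  (volume : Measure (E n)).withDensity fun x => ENNReal.ofReal (den μ δ x)

lemma ofReal_den [IsProbabilityMeasure μ] {δ : ℝ} (hδ : 0 < δ) (x : E n) :
    ENNReal.ofReal (den μ δ x) = (volume (cube n δ))⁻¹ * μ {y | y - x ∈ cube n δ} := by
  have hc0 : 0 < (volume (cube n δ)).toReal :=
    ENNReal.toReal_pos (volume_cube_pos hδ).ne' (volume_cube_ne_top δ)
  unfold den Measure.real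
  rw [ENNReal.ofReal_div_of_pos hc0, ENNReal.ofReal_toReal (measure_ne_top μ _),
    ENNReal.ofReal_toReal (volume_cube_ne_top δ), div_eq_mul_inv, mul_comm]

/-- integration against the law of `X + δ U` -/
lemma lintegral_sm [IsProbabilityMeasure μ] (hunc : Uncond μ) (hlc : LC μ) {δ : ℝ} (hδ : 0 < δ)
    {g : E n → ℝ≥0∞} (hg : Measurable g) :
    ∫⁻ x, g x ∂(sm μ δ) =
      ∫⁻ y, ((volume (cube n δ))⁻¹ * ∫⁻ x in {x | y - x ∈ cube n δ}, g x) ∂μ := by
  have hN := nice_den hunc hlc hδ
  unfold sm
  rw [lintegral_withDensity_eq_lintegral_mul _ hN.meas.ennreal_ofReal hg]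
  have hS : Measurable fun z : E n × E n => (volume (cube n δ))⁻¹ *
      ({z : E n × E n | z.2 - z.1 ∈ cube n δ}.indicator (fun _ => (1:ℝ≥0∞)) z * g z.1) := by
    refine Measurable.const_mul ?_ _
    exact (measurable_const.indicator (measurableSet_pairs δ)).mul (hg.comp measurable_fst)
  have h1 : ∀ x : E n, ((fun x => ENNReal.ofReal (den μ δ x)) * g) x =
      ∫⁻ y, (volume (cube n δ))⁻¹ *
        ({z : E n × E n | z.2 - z.1 ∈ cube n δ}.indicator (fun _ => (1:ℝ≥0∞)) (x, y) * g x) ∂μ := by
    intro x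
    have hm : Measurable fun y : E n =>
        {z : E n × E n | z.2 - z.1 ∈ cube n δ}.indicator (fun _ => (1:ℝ≥0∞)) (x, y) :=
      (measurable_const.indicator (measurableSet_pairs δ)).comp (measurable_const.prodMk measurable_id)
    rw [lintegral_const_mul _ (hm.mul_const _), lintegral_mul_const _ hm, Pi.mul_apply, ofReal_den hδ]
    have h2 : ∫⁻ y, {z : E n × E n | z.2 - z.1 ∈ cube n δ}.indicator (fun _ => (1:ℝ≥0∞)) (x, y) ∂μ =
        μ {y | y - x ∈ cube n δ} := by
      have h3 : (fun y : E n => {z : E n × E n | z.2 - z.1 ∈ cube n δ}.indicator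
          (fun _ => (1:ℝ≥0∞)) (x, y)) = {y : E n | y - x ∈ cube n δ}.indicator (fun _ => 1) := by
        ext y
        rfl
      rw [h3, lintegral_indicator_const (isClosed_shift δ x).measurableSet, one_mul]
    rw [h2, mul_assoc]
  rw [lintegral_congr h1, lintegral_lintegral_swap hS.aemeasurable]
  refine lintegral_congr fun y => ?_
  have hm : Measurable fun x : E n =>
      {z : E n × E n | z.2 - z.1 ∈ cube n δ}.indicator (fun _ => (1:ℝ≥0∞)) (x, y) * g x :=
    ((measurable_const.indicator (measurableSet_pairs δ)).comp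
      (measurable_id.prodMk measurable_const)).mul hg
  rw [lintegral_const_mul _ hm]
  congr 1
  have hms : MeasurableSet {x : E n | y - x ∈ cube n δ} :=
    ((isClosed_cube δ).preimage (by fun_prop)).measurableSet
  rw [← lintegral_indicator hms]
  refine lintegral_congr fun x => ?_
  by_cases hx : y - x ∈ cube n δ
  · rw [indicator_of_mem (show (x, y) ∈ {z : E n × E n | z.2 - z.1 ∈ cube n δ} from hx),
      indicator_of_mem (show x ∈ {x : E n | y - x ∈ cube n δ} from hx), one_mul]
  · rw [indicator_of_notMem (show (x, y) ∉ {z : E n × E n | z.2 - z.1 ∈ cube n δ} from hx),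
      indicator_of_notMem (show x ∉ {x : E n | y - x ∈ cube n δ} from hx), zero_mul]

lemma volume_rev (δ : ℝ) (y : E n) : volume {x : E n | y - x ∈ cube n δ} = volume (cube n δ) := by
  have h1 : {x : E n | y - x ∈ cube n δ} = y +ᵥ cube n δ := by
    ext x
    rw [mem_vadd_set_iff_neg_vadd_mem, vadd_eq_add, mem_ofPred_eq]
    simp only [cube, mem_ofPred_eq, PiLp.sub_apply, PiLp.add_apply, PiLp.neg_apply]
    refine forall_congr' fun i => ?_
    rw [abs_sub_comm, show x i - y i = -y i + x i by ring]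
  rw [h1, measure_vadd]

lemma isProb_sm [IsProbabilityMeasure μ] (hunc : Uncond μ) (hlc : LC μ) {δ : ℝ} (hδ : 0 < δ) :
    IsProbabilityMeasure (sm μ δ) := by
  constructor
  have h1 := lintegral_sm hunc hlc hδ (g := fun _ => 1) measurable_const
  rw [lintegral_one] at h1
  rw [h1]
  have h2 : ∀ y : E n, (volume (cube n δ))⁻¹ * ∫⁻ _x in {x : E n | y - x ∈ cube n δ}, (1:ℝ≥0∞) = 1 := by
    intro y
    rw [lintegral_one, Measure.restrict_apply_univ, volume_rev,
      ENNReal.inv_mul_cancel (volume_cube_pos hδ).ne' (volume_cube_ne_top δ)]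
  rw [lintegral_congr h2, lintegral_one, measure_univ]

lemma le_sm [IsProbabilityMeasure μ] (hunc : Uncond μ) (hlc : LC μ) {δ : ℝ} (hδ : 0 < δ)
    {A : Set (E n)} (hA : IsCompact A) : μ A ≤ sm μ δ (A + cube n δ) := by
  have hS : MeasurableSet (A + cube n δ) := (hA.add (isCompact_cube δ)).measurableSet
  have h1 := lintegral_sm hunc hlc hδ (g := (A + cube n δ).indicator fun _ => 1)
    (measurable_const.indicator hS)
  rw [lintegral_indicator_const hS, one_mul] at h1
  rw [h1]
  have h2 : μ A = ∫⁻ y, A.indicator (fun _ => (1:ℝ≥0∞)) y ∂μ := by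
    rw [lintegral_indicator_const hA.measurableSet, one_mul]
  rw [h2]
  refine lintegral_mono fun y => ?_
  by_cases hy : y ∈ A
  · rw [indicator_of_mem hy]
    have hms : MeasurableSet {x : E n | y - x ∈ cube n δ} :=
      ((isClosed_cube δ).preimage (by fun_prop)).measurableSet
    have h3 : ∫⁻ x in {x : E n | y - x ∈ cube n δ}, (A + cube n δ).indicator (fun _ => (1:ℝ≥0∞)) x =
        ∫⁻ _x in {x : E n | y - x ∈ cube n δ}, (1:ℝ≥0∞) := by
      refine setLIntegral_congr_fun hms fun x hx => ?_
      have h4 : x ∈ A + cube n δ := by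
        refine ⟨y, hy, x - y, fun i => ?_, by simp⟩
        have h5 := hx i
        rw [PiLp.sub_apply] at h5 ⊢
        rwa [abs_sub_comm]
      simp only [indicator_of_mem h4]
    rw [h3, lintegral_one, Measure.restrict_apply_univ, volume_rev,
      ENNReal.inv_mul_cancel (volume_cube_pos hδ).ne' (volume_cube_ne_top δ)]
  · rw [indicator_of_notMem hy]
    exact zero_le

end Pool.CIP
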