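import Pool.Agent.CIP.C

set_option autoImplicit false

open MeasureTheory Pointwise Set Filter Topology

namespace Pool.CIP

variable {n : ℕ} {μ : Measure (E n)}

/-- the support function of the centroid body -/
noncomputable def hm (μ : Measure (E n)) (q : ℝ) (v : E n) : ℝ :=
  (∫ y, |inner ℝ v y| ^ q ∂μ) ^ (1 / q)

lemma hm_nonneg (q : ℝ) (v : E n) : 0 ≤ hm μ q v :=
  Real.rpow_nonneg (integral_nonneg fun y => by positivity) _

/-- the dilate of the centroid body by lam -/
def G (μ : Measure (E n)) (q lam : ℝ) : Set (E n) := {x | ∀ v : E n, |inner ℝ v x| ≤ lam * hm μ q v}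

lemma zero_mem_G {q lam : ℝ} (hl : 0 ≤ lam) : (0 : E n) ∈ G μ q lam := by
  intro v
  simp only [inner_zero_right, abs_zero]
  exact mul_nonneg hl (hm_nonneg q v)

lemma G_mono {q lam lam' : ℝ} (h : lam ≤ lam') : G μ q lam ⊆ G μ q lam' := by
  intro x hx v
  exact (hx v).trans (mul_le_mul_of_nonneg_right h (hm_nonneg q v))

lemma mem_Z_iff {q : ℝ} (hq : 0 < q) (x : E n) : x ∈ Z μ q ↔ x ∈ G μ q 1 := by
  have key : ∀ v : E n, (|inner ℝ v x| ^ q ≤ ∫ y, |inner ℝ v y| ^ q ∂μ) ↔
      |inner ℝ v x| ≤ 1 * hm μ q v := by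
    intro v
    have hm0 : 0 ≤ ∫ y, |inner ℝ v y| ^ q ∂μ := integral_nonneg fun y => by positivity
    rw [one_mul, ← Real.rpow_le_rpow_iff (abs_nonneg _) (hm_nonneg q v) hq]
    unfold hm
    rw [← Real.rpow_mul hm0, one_div, inv_mul_cancel₀ hq.ne', Real.rpow_one]
  exact forall_congr' key

lemma smul_Z_eq {q lam : ℝ} (hq : 0 < q) (hl : 0 < lam) : lam • Z μ q = G μ q lam := by
  ext x
  rw [mem_smul_set_iff_inv_smul_mem₀ hl.ne', mem_Z_iff hq]
  refine forall_congr' fun v => ?_
  rw [inner_smul_right, abs_mul, abs_of_pos (inv_pos.2 hl), one_mul, inv_mul_le_iff₀ hl]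

lemma isClosed_G (q lam : ℝ) : IsClosed (G μ q lam) := by
  have : G μ q lam = ⋂ v : E n, {x | |inner ℝ v x| ≤ lam * hm μ q v} := by
    ext x; simp [G]
  rw [this]
  exact isClosed_iInter fun v => isClosed_le (by fun_prop) continuous_const

lemma isBounded_G (q lam : ℝ) : Bornology.IsBounded (G μ q lam) := by
  rw [isBounded_iff_forall_norm_le]
  refine ⟨∑ i : Fin n, |lam * hm μ q (EuclideanSpace.single i (1:ℝ))|, fun x hx => ?_⟩
  have h1 : ‖x‖ ≤ ∑ i : Fin n, |x i| := by
    have h2 : x = ∑ i : Fin n, EuclideanSpace.single i (x i) := by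
      ext j
      simp [Finset.sum_apply, Pi.single_apply]
    calc ‖x‖ = ‖∑ i : Fin n, EuclideanSpace.single i (x i)‖ := by rw [← h2]
      _ ≤ ∑ i : Fin n, ‖EuclideanSpace.single i (x i)‖ := norm_sum_le _ _
      _ = ∑ i : Fin n, |x i| := by simp
  refine h1.trans (Finset.sum_le_sum fun i _ => ?_)
  have h3 := hx (EuclideanSpace.single i (1:ℝ))
  rw [EuclideanSpace.inner_single_left] at h3
  simp only [map_one, one_mul] at h3
  exact h3.trans (le_abs_self _)

lemma isCompact_G (q lam : ℝ) : IsCompact (G μ q lam) :=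
  Metric.isCompact_of_isClosed_isBounded (isClosed_G q lam) (isBounded_G q lam)

/-- the centroid body of order q sits in a multiple of that of order p -/
lemma G_subset [IsProbabilityMeasure μ] (hsym : μ.map (fun x => -x) = μ) (hlc : LC μ)
    {p q lam s : ℝ} (hp : 1 ≤ p) (hpq : p ≤ q) (hl : 0 ≤ lam)
    (hs : 2 * Real.exp 2 * (q / p) * lam ≤ s) : G μ q lam ⊆ G μ p s := by
  have hp0 : 0 < p := by linarith
  have hq0 : 0 < q := by linarith
  intro x hx v
  have h1 : hm μ q v ≤ 2 * Real.exp 2 * (q / p) * hm μ p v := by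
    have h2 := mom_compare hsym hlc hp hpq v
    have h3 : 0 ≤ ∫ y, |inner ℝ v y| ^ q ∂μ := integral_nonneg fun y => by positivity
    have h0 : 0 ≤ 2 * Real.exp 2 * (q / p) * hm μ p v :=
      mul_nonneg (by positivity) (hm_nonneg p v)
    have h4 : (∫ y, |inner ℝ v y| ^ q ∂μ) ^ (1 / q) ≤
        ((2 * Real.exp 2 * (q / p) * hm μ p v) ^ q) ^ (1 / q) :=
      Real.rpow_le_rpow h3 h2 (by positivity)
    rwa [← Real.rpow_mul h0, mul_one_div_cancel hq0.ne', Real.rpow_one] at h4
  calc |inner ℝ v x| ≤ lam * hm μ q v := hx v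
    _ ≤ lam * (2 * Real.exp 2 * (q / p) * hm μ p v) := mul_le_mul_of_nonneg_left h1 hl
    _ = (2 * Real.exp 2 * (q / p) * lam) * hm μ p v := by ring
    _ ≤ s * hm μ p v := mul_le_mul_of_nonneg_right hs (hm_nonneg p v)

/-- points outside the dilate are bad -/
lemma compl_G_subset_bad (hfin : ∀ q : ℝ, 0 < q → ∀ v : E n, mq μ q v < ⊤) {q lam : ℝ}
    (hq : 0 < q) (hl : 0 < lam) : (G μ q lam)ᶜ ⊆ bad μ q lam := by
  intro x hx
  have hx' : ∃ v : E n, lam * hm μ q v < |inner ℝ v x| := by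
    by_contra hcon
    push Not at hcon
    exact hx hcon
  obtain ⟨v, hv⟩ := hx'
  have hm0 : 0 ≤ ∫ y, |inner ℝ v y| ^ q ∂μ := integral_nonneg fun y => by positivity
  have hscale : ∀ s : ℝ, 0 < s → mq μ q (s • v) = ENNReal.ofReal (s ^ q * ∫ y, |inner ℝ v y| ^ q ∂μ) := by
    intro s hs
    rw [mq_eq hfin hq, ← integral_const_mul]
    congr 2
    ext y
    rw [inner_smul_left, abs_mul, Real.mul_rpow (abs_nonneg _) (abs_nonneg _)]
    simp [abs_of_pos hs]
  have hin : ∀ s : ℝ, 0 < s → |inner ℝ (s • v) x| = s * |inner ℝ v x| := by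
    intro s hs
    rw [inner_smul_left, abs_mul]
    simp [abs_of_pos hs]
  rcases (hm_nonneg (μ := μ) q v).eq_or_lt with h0 | hpos
  · rw [← h0, mul_zero] at hv
    refine ⟨(2 * lam / |inner ℝ v x|) • v, ?_, ?_⟩
    · rw [hscale _ (by positivity)]
      have h1 : ∫ y, |inner ℝ v y| ^ q ∂μ = 0 := by
        unfold hm at h0
        exact (Real.rpow_eq_zero hm0 (by positivity)).1 h0.symm
      rw [h1]; simp
    · rw [hin _ (by positivity)]
      field_simp
      linarith
  · refine ⟨(hm μ q v)⁻¹ • v, ?_, ?_⟩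
    · rw [hscale _ (by positivity)]
      have h1 : hm μ q v ^ q = ∫ y, |inner ℝ v y| ^ q ∂μ := by
        unfold hm
        rw [← Real.rpow_mul hm0, one_div, inv_mul_cancel₀ hq.ne', Real.rpow_one]
      rw [← h1, ← Real.mul_rpow (by positivity) hpos.le, inv_mul_cancel₀ hpos.ne', Real.one_rpow]
      simp
    · rw [hin _ (by positivity), lt_inv_mul_iff₀ hpos]
      linarith

/-- growth, big sets -/
lemma grow1 [IsProbabilityMeasure μ] {K : Set (E n)} {q lam e : ℝ}
    (hcore : μ.real (G μ q lam)ᶜ ≤ e) (hK : e < μ.real K) :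
    1 - e ≤ μ.real (K + G μ q (2 * lam)) := by
  have hne : (K ∩ G μ q lam).Nonempty := by
    by_contra hemp
    rw [not_nonempty_iff_eq_empty] at hemp
    have hsub : K ⊆ (G μ q lam)ᶜ := by
      intro x hx hx'
      have : x ∈ K ∩ G μ q lam := ⟨hx, hx'⟩
      rw [hemp] at this
      exact this
    have := measureReal_mono hsub (measure_ne_top μ _)
    linarith
  obtain ⟨x₀, hx₀, hx₀'⟩ := hne
  have hsub : G μ q lam ⊆ K + G μ q (2 * lam) := by
    intro z hz
    refine ⟨x₀, hx₀, z - x₀, fun v => ?_, by simp⟩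
    rw [inner_sub_right]
    calc |inner ℝ v z - inner ℝ v x₀| ≤ |inner ℝ v z| + |inner ℝ v x₀| := abs_sub _ _
      _ ≤ lam * hm μ q v + lam * hm μ q v := add_le_add (hz v) (hx₀' v)
      _ = 2 * lam * hm μ q v := by ring
  have h1 := measureReal_mono hsub (measure_ne_top μ _)
  have h2 : μ.real (G μ q lam)ᶜ = 1 - μ.real (G μ q lam) := by
    rw [measureReal_compl (isClosed_G q lam).measurableSet]
    simp
  linarith

/-- growth, small sets -/
lemma grow2 [IsProbabilityMeasure μ] (hlc : LC μ) {K : Set (E n)} (hKc : IsCompact K)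
    {q lam s : ℝ} (hl : 0 ≤ lam) (hs0 : 0 < s) (hs1 : s < 1)
    (hcore : μ.real (G μ q lam)ᶜ ≤ μ.real K / 2) (hKpos : 0 < μ.real K) :
    μ.real K ^ (1 - s) / 2 ≤ μ.real (K + G μ q (2 * s * lam)) := by
  have hmeas : MeasurableSet (G μ q lam) := (isClosed_G q lam).measurableSet
  have hcompl : μ.real (G μ q lam)ᶜ = 1 - μ.real (G μ q lam) := by
    rw [measureReal_compl hmeas]
    simp
  have hK1 : μ.real K ≤ 1 := measureReal_le_one
  have hG : 1 / 2 ≤ μ.real (G μ q lam) := by linarith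
  have hKG : μ.real K / 2 ≤ μ.real (K ∩ G μ q lam) := by
    have h1 : μ.real K ≤ μ.real (K ∩ G μ q lam) + μ.real (G μ q lam)ᶜ := by
      refine le_trans (measureReal_mono (s₂ := (K ∩ G μ q lam) ∪ (G μ q lam)ᶜ) ?_ (measure_ne_top μ _))
        (measureReal_union_le _ _)
      intro x hx
      by_cases hx' : x ∈ G μ q lam
      · exact Or.inl ⟨hx, hx'⟩
      · exact Or.inr hx'
    linarith
  have key := hlc.closed (hKc.isClosed.inter (isClosed_G q lam)) (isClosed_G (μ := μ) q lam)
    (t := 1 - s) (by linarith) (by linarith) (U := K + G μ q (2 * s * lam)) (by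
      intro x hx y hy
      refine ⟨x, hx.1, s • (y - x), fun v => ?_, ?_⟩
      · rw [inner_smul_right, inner_sub_right, abs_mul, abs_of_pos hs0]
        have h3 : |inner ℝ v y - inner ℝ v x| ≤ 2 * lam * hm μ q v := by
          calc |inner ℝ v y - inner ℝ v x| ≤ |inner ℝ v y| + |inner ℝ v x| := abs_sub _ _
            _ ≤ lam * hm μ q v + lam * hm μ q v := add_le_add (hy v) (hx.2 v)
            _ = 2 * lam * hm μ q v := by ring
        calc s * |inner ℝ v y - inner ℝ v x| ≤ s * (2 * lam * hm μ q v) :=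
              mul_le_mul_of_nonneg_left h3 hs0.le
          _ = 2 * s * lam * hm μ q v := by ring
      · show x + s • (y - x) = (1 - s) • x + (1 - (1 - s)) • y
        module)
  have key2 := ENNReal.toReal_mono (measure_ne_top μ _) key
  rw [ENNReal.toReal_mul, ← ENNReal.toReal_rpow, ← ENNReal.toReal_rpow] at key2
  have key3 : μ.real (K ∩ G μ q lam) ^ (1 - s) * μ.real (G μ q lam) ^ (1 - (1 - s)) ≤
      μ.real (K + G μ q (2 * s * lam)) := key2
  refine le_trans ?_ key3
  have e1 : (1 - (1 - s)) = s := by ring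
  rw [e1]
  calc μ.real K ^ (1 - s) / 2 = (μ.real K / 2) ^ (1 - s) * (1 / 2 : ℝ) ^ s := by
        rw [div_eq_mul_one_div (μ.real K) 2, Real.mul_rpow hKpos.le (by norm_num), mul_assoc,
          ← Real.rpow_add (by norm_num)]
        norm_num
        ring
    _ ≤ μ.real (K ∩ G μ q lam) ^ (1 - s) * μ.real (G μ q lam) ^ s := by
        apply mul_le_mul
        · exact Real.rpow_le_rpow (by positivity) hKG (by linarith)
        · exact Real.rpow_le_rpow (by norm_num) hG hs0.le
        · positivity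
        · positivity

end Pool.CIP
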