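import Pool.Agent.CIP.FY
import Pool.Agent.CIP.G

/-! # The limit of the smoothed measures -/

set_option autoImplicit false

open MeasureTheory Pointwise Set Filter Topology
open scoped ENNReal

namespace Pool.CIP

variable {n : ℕ} {μ : Measure (E n)}

lemma inner_cube_le {δ : ℝ} (v : E n) {x y : E n} (hx : y - x ∈ cube n δ) :
    |inner ℝ v x| ≤ |inner ℝ v y| + δ * ∑ i, |v i| := by
  have h1 : inner ℝ v x = inner ℝ v y - inner ℝ v (y - x) := by
    rw [inner_sub_right]; ring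
  have h2 : |inner ℝ v (y - x)| ≤ δ * ∑ i, |v i| := by
    rw [inner_eq_sum', Finset.mul_sum]
    refine (Finset.abs_sum_le_sum_abs _ _).trans (Finset.sum_le_sum fun i _ => ?_)
    rw [abs_mul, mul_comm]
    exact mul_le_mul_of_nonneg_right (hx i) (abs_nonneg _)
  rw [h1]
  refine (abs_sub _ _).trans ?_
  linarith

lemma toReal_mq (μ : Measure (E n)) {q : ℝ} (v : E n) : (mq μ q v).toReal = ∫ y, |inner ℝ v y| ^ q ∂μ := by
  unfold mq
  rw [integral_eq_lintegral_of_nonneg_ae]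
  · exact Eventually.of_forall fun y => by positivity
  · exact Measurable.aestronglyMeasurable (by fun_prop)

lemma hm_eq (μ : Measure (E n)) (q : ℝ) (v : E n) : hm μ q v = ((mq μ q v) ^ (1 / q)).toReal := by
  unfold hm
  rw [← toReal_mq, ENNReal.toReal_rpow]

lemma hm_sm_le [IsProbabilityMeasure μ] (hunc : Uncond μ) (hlc : LC μ) {δ : ℝ} (hδ : 0 < δ)
    {q : ℝ} (hq : 1 ≤ q) (v : E n) : hm (sm μ δ) q v ≤ hm μ q v + δ * ∑ i, |v i| := by
  have hq0 : 0 < q := by linarith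
  have hc0 : 0 ≤ δ * ∑ i, |v i| := mul_nonneg hδ.le (Finset.sum_nonneg fun i _ => abs_nonneg _)
  set c : ℝ := δ * ∑ i, |v i| with hc
  have h1 : mq (sm μ δ) q v ≤ ∫⁻ y, (ENNReal.ofReal |inner ℝ v y| + ENNReal.ofReal c) ^ q ∂μ := by
    unfold mq
    rw [lintegral_sm hunc hlc hδ (by fun_prop)]
    refine lintegral_mono fun y => ?_
    have hms : MeasurableSet {x : E n | y - x ∈ cube n δ} :=
      ((isClosed_cube δ).preimage (by fun_prop)).measurableSet
    have h2 : ∫⁻ x in {x : E n | y - x ∈ cube n δ}, ENNReal.ofReal (|inner ℝ v x| ^ q) ≤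
        ∫⁻ _x in {x : E n | y - x ∈ cube n δ}, (ENNReal.ofReal |inner ℝ v y| + ENNReal.ofReal c) ^ q := by
      refine setLIntegral_mono measurable_const fun x hx => ?_
      rw [← ENNReal.ofReal_add (abs_nonneg _) hc0,
        ENNReal.ofReal_rpow_of_nonneg (by positivity) hq0.le]
      exact ENNReal.ofReal_le_ofReal (Real.rpow_le_rpow (abs_nonneg _) (inner_cube_le v hx) hq0.le)
    calc (volume (cube n δ))⁻¹ * ∫⁻ x in {x : E n | y - x ∈ cube n δ}, ENNReal.ofReal (|inner ℝ v x| ^ q)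
        ≤ (volume (cube n δ))⁻¹ * ∫⁻ _x in {x : E n | y - x ∈ cube n δ},
          (ENNReal.ofReal |inner ℝ v y| + ENNReal.ofReal c) ^ q := mul_le_mul_right h2 _
      _ = (ENNReal.ofReal |inner ℝ v y| + ENNReal.ofReal c) ^ q := by
        rw [lintegral_const, Measure.restrict_apply_univ, volume_rev, mul_comm, mul_assoc,
          ENNReal.mul_inv_cancel (volume_cube_pos hδ).ne' (volume_cube_ne_top δ), mul_one]
  have h3 : (∫⁻ y, (ENNReal.ofReal |inner ℝ v y| + ENNReal.ofReal c) ^ q ∂μ) ^ (1 / q) ≤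
      (mq μ q v) ^ (1 / q) + ENNReal.ofReal c := by
    have h4 := ENNReal.lintegral_Lp_add_le (μ := μ) (f := fun y : E n => ENNReal.ofReal |inner ℝ v y|)
      (g := fun _ => ENNReal.ofReal c) (Measurable.aemeasurable (by fun_prop))
      measurable_const.aemeasurable hq
    have h5 : ∫⁻ y, ENNReal.ofReal |inner ℝ v y| ^ q ∂μ = mq μ q v := by
      unfold mq
      refine lintegral_congr fun y => ?_
      rw [ENNReal.ofReal_rpow_of_nonneg (abs_nonneg _) hq0.le]
    have h6 : (∫⁻ _y : E n, ENNReal.ofReal c ^ q ∂μ) ^ (1 / q) = ENNReal.ofReal c := by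
      rw [lintegral_const, measure_univ, mul_one, ← ENNReal.rpow_mul, mul_one_div_cancel hq0.ne',
        ENNReal.rpow_one]
    simp only [Pi.add_apply] at h4
    rw [h5, h6] at h4
    exact h4
  have hfin : (mq μ q v) ^ (1 / q) ≠ ⊤ :=
    ENNReal.rpow_ne_top_of_nonneg (by positivity) (mq_lt_top hunc.symm hlc hq0 v).ne
  have h7 : (mq (sm μ δ) q v) ^ (1 / q) ≤ (mq μ q v) ^ (1 / q) + ENNReal.ofReal c :=
    (ENNReal.rpow_le_rpow h1 (by positivity)).trans h3
  have h8 := ENNReal.toReal_mono (ENNReal.add_ne_top.2 ⟨hfin, ENNReal.ofReal_ne_top⟩) h7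
  rw [ENNReal.toReal_add hfin ENNReal.ofReal_ne_top, ENNReal.toReal_ofReal hc0, ← hm_eq, ← hm_eq] at h8
  exact h8

/-- **V9**: approximation by a good measure (`hV4` is `good_of_nice`) -/
theorem good_approx_of (hV4 : ∀ f : E n → ℝ, Nice f →
      IsProbabilityMeasure ((volume : Measure (E n)).withDensity fun x => ENNReal.ofReal (f x)) →
      Good ((volume : Measure (E n)).withDensity fun x => ENNReal.ofReal (f x)))
    [IsProbabilityMeasure μ] (hunc : Uncond μ) (hlc : LC μ) {δ : ℝ} (hδ : 0 < δ) :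
    ∃ μ' : Measure (E n), IsProbabilityMeasure μ' ∧ Good μ' ∧
      (∀ A : Set (E n), IsCompact A → μ A ≤ μ' (A + {x | ∀ i, |x i| ≤ δ})) ∧
      (∀ q : ℝ, 1 ≤ q → ∀ v : E n, hm μ' q v ≤ hm μ q v + δ * ∑ i, |v i|) :=
  ⟨sm μ δ, isProb_sm hunc hlc hδ, hV4 _ (nice_den hunc hlc hδ) (isProb_sm hunc hlc hδ),
    fun _ hA => le_sm hunc hlc hδ hA, fun _ hq v => hm_sm_le hunc hlc hδ hq v⟩

/-- the pair form for compact sets passes to the limit -/
theorem pair_limit (hV4 : ∀ f : E n → ℝ, Nice f →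
      IsProbabilityMeasure ((volume : Measure (E n)).withDensity fun x => ENNReal.ofReal (f x)) →
      Good ((volume : Measure (E n)).withDensity fun x => ENNReal.ofReal (f x)))
    {p c : ℝ} (hp : 1 ≤ p) (hc : 0 ≤ c)
    (hmg : ∀ μ' : Measure (E n), IsProbabilityMeasure μ' → Good μ' → ∀ A B : Set (E n), IsCompact A →
      IsCompact B → (∀ x ∈ A, ∀ y ∈ B, x - y ∉ G μ' p c) →
      2 * Real.exp p * μ'.real A * μ'.real B ≤ (1 - μ'.real A) * (1 - μ'.real B))
    [IsProbabilityMeasure μ] (hunc : Uncond μ) (hlc : LC μ) {A B : Set (E n)} (hA : IsCompact A)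
    (hB : IsCompact B) (hAB : ∀ x ∈ A, ∀ y ∈ B, x - y ∉ G μ p c) :
    2 * Real.exp p * μ.real A * μ.real B ≤ (1 - μ.real A) * (1 - μ.real B) := by
  by_contra hneg
  push Not at hneg
  have key : ∀ k : ℕ, ∃ z : E n × E n, z.1 ∈ A + cube n (1 / ((k:ℝ) + 1)) ∧
      z.2 ∈ B + cube n (1 / ((k:ℝ) + 1)) ∧ ∀ v : E n, |inner ℝ v (z.1 - z.2)| ≤
        c * (hm μ p v + 1 / ((k:ℝ) + 1) * ∑ i, |v i|) := by
    intro k
    have hδ : 0 < 1 / ((k:ℝ) + 1) := by positivity
    obtain ⟨μ', hprob, hgood, hle, hhm⟩ := good_approx_of hV4 hunc hlc hδ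
    by_contra hcon
    push Not at hcon
    have hA' : IsCompact (A + cube n (1 / ((k:ℝ) + 1))) := hA.add (isCompact_cube _)
    have hB' : IsCompact (B + cube n (1 / ((k:ℝ) + 1))) := hB.add (isCompact_cube _)
    have h1 := hmg μ' hprob hgood _ _ hA' hB' (by
      intro x hx y hy hxy
      obtain ⟨v, hv⟩ := hcon (x, y) hx hy
      have h2 := hxy v
      have h3 := mul_le_mul_of_nonneg_left (hhm p hp v) hc
      linarith)
    have hAle : μ.real A ≤ μ'.real (A + cube n (1 / ((k:ℝ) + 1))) :=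
      ENNReal.toReal_mono (measure_ne_top μ' _) (hle A hA)
    have hBle : μ.real B ≤ μ'.real (B + cube n (1 / ((k:ℝ) + 1))) :=
      ENNReal.toReal_mono (measure_ne_top μ' _) (hle B hB)
    have hA1 : μ'.real (A + cube n (1 / ((k:ℝ) + 1))) ≤ 1 := measureReal_le_one
    have hB1 : μ'.real (B + cube n (1 / ((k:ℝ) + 1))) ≤ 1 := measureReal_le_one
    have hA0 : 0 ≤ μ.real A := measureReal_nonneg
    have hB0 : 0 ≤ μ.real B := measureReal_nonneg
    have h2 : 2 * Real.exp p * μ.real A * μ.real B ≤ 2 * Real.exp p *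
        μ'.real (A + cube n (1 / ((k:ℝ) + 1))) * μ'.real (B + cube n (1 / ((k:ℝ) + 1))) := by
      gcongr
    have h3 : (1 - μ'.real (A + cube n (1 / ((k:ℝ) + 1)))) *
        (1 - μ'.real (B + cube n (1 / ((k:ℝ) + 1)))) ≤ (1 - μ.real A) * (1 - μ.real B) := by
      apply mul_le_mul <;> linarith
    linarith
  choose z hz1 hz2 hz3 using key
  have hk : ∀ k : ℕ, 1 / ((k:ℝ) + 1) ≤ 1 := by
    intro k
    rw [div_le_one (by positivity)]
    linarith [(Nat.cast_nonneg k : (0:ℝ) ≤ k)]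
  have hmono : ∀ k : ℕ, cube n (1 / ((k:ℝ) + 1)) ⊆ cube n 1 := fun k x hx i => (hx i).trans (hk k)
  -- decompose
  have hd1 : ∀ k : ℕ, ∃ a ∈ A, (z k).1 - a ∈ cube n (1 / ((k:ℝ) + 1)) := by
    intro k
    obtain ⟨a, ha, e, he, h⟩ := hz1 k
    exact ⟨a, ha, by rw [← h]; simpa using he⟩
  have hd2 : ∀ k : ℕ, ∃ b ∈ B, (z k).2 - b ∈ cube n (1 / ((k:ℝ) + 1)) := by
    intro k
    obtain ⟨a, ha, e, he, h⟩ := hz2 k
    exact ⟨a, ha, by rw [← h]; simpa using he⟩
  choose a haA ha using hd1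
  choose b hbB hb using hd2
  obtain ⟨⟨x, y⟩, hxy, φ, hφ, hlim⟩ := (hA.prod hB).tendsto_subseq (x := fun k => (a k, b k))
    (fun k => ⟨haA k, hbB k⟩)
  refine hAB x hxy.1 y hxy.2 fun v => ?_
  have hla : Tendsto (fun k => a (φ k)) atTop (𝓝 x) := (continuous_fst.tendsto _).comp hlim
  have hlb : Tendsto (fun k => b (φ k)) atTop (𝓝 y) := (continuous_snd.tendsto _).comp hlim
  have h1 : ∀ k : ℕ, |inner ℝ v (a k - b k)| ≤
      c * (hm μ p v + 1 / ((k:ℝ) + 1) * ∑ i, |v i|) + 2 * (1 / ((k:ℝ) + 1) * ∑ i, |v i|) := by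
    intro k
    have e1 : a k - b k = ((z k).1 - (z k).2) - ((z k).1 - a k) + ((z k).2 - b k) := by abel
    have hb2 : ∀ w : E n, w ∈ cube n (1 / ((k:ℝ) + 1)) → |inner ℝ v w| ≤
        1 / ((k:ℝ) + 1) * ∑ i, |v i| := by
      intro w hw
      have h2 := inner_cube_le (δ := 1 / ((k:ℝ) + 1)) v (x := w) (y := 0) (fun i => by
        have := hw i
        simpa using this)
      simpa using h2
    rw [e1, inner_add_right, inner_sub_right]
    have h2 := hb2 _ (ha k)
    have h3 := hb2 _ (hb k)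
    have h4 := hz3 k v
    have h5 := abs_add_le (inner ℝ v ((z k).1 - (z k).2) - inner ℝ v ((z k).1 - a k))
      (inner ℝ v ((z k).2 - b k))
    have h6 := abs_sub (inner ℝ v ((z k).1 - (z k).2)) (inner ℝ v ((z k).1 - a k))
    linarith
  have hl1 : Tendsto (fun k => |inner ℝ v (a (φ k) - b (φ k))|) atTop (𝓝 |inner ℝ v (x - y)|) := by
    have h2 : Tendsto (fun k => a (φ k) - b (φ k)) atTop (𝓝 (x - y)) := hla.sub hlb
    have h3 : Continuous fun w : E n => |inner ℝ v w| := by fun_prop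
    exact (h3.tendsto _).comp h2
  have hl0 : Tendsto (fun k : ℕ => 1 / (((φ k : ℕ) : ℝ) + 1)) atTop (𝓝 0) :=
    (tendsto_one_div_add_atTop_nhds_zero_nat (𝕜 := ℝ)).comp hφ.tendsto_atTop
  have hl2 : Tendsto (fun k : ℕ => c * (hm μ p v + 1 / (((φ k : ℕ) : ℝ) + 1) * ∑ i, |v i|) +
      2 * (1 / (((φ k : ℕ) : ℝ) + 1) * ∑ i, |v i|)) atTop
      (𝓝 (c * (hm μ p v + 0 * ∑ i, |v i|) + 2 * (0 * ∑ i, |v i|))) :=
    ((tendsto_const_nhds.add (hl0.mul_const _)).const_mul c).add ((hl0.mul_const _).const_mul 2)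
  have h9 := le_of_tendsto_of_tendsto' hl1 hl2 (fun k => h1 (φ k))
  simpa using h9

/-- from the pair form for compact sets to Borel sets -/
theorem borel_of_pair [IsProbabilityMeasure μ] {p c : ℝ}
    (hpair : ∀ A B : Set (E n), IsCompact A → IsCompact B → (∀ x ∈ A, ∀ y ∈ B, x - y ∉ G μ p c) →
      2 * Real.exp p * μ.real A * μ.real B ≤ (1 - μ.real A) * (1 - μ.real B))
    {A : Set (E n)} (hA : MeasurableSet A) :
    2 * Real.exp p * μ.real A * (1 - μ.real (A + G μ p c)) ≤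
      (1 - μ.real A) * μ.real (A + G μ p c) := by
  have hep : 0 < Real.exp p := Real.exp_pos p
  -- approximation from inside
  have hin : ∀ S : Set (E n), MeasurableSet S → ∀ k : ℕ, ∃ K ⊆ S, IsCompact K ∧
      μ.real S ≤ μ.real K + 1 / ((k:ℝ) + 1) := by
    intro S hS k
    obtain ⟨K, hKS, hKc, hK⟩ := hS.exists_isCompact_lt_add (measure_ne_top μ S)
      (ε := ENNReal.ofReal (1 / ((k:ℝ) + 1))) (by
        rw [ne_eq, ENNReal.ofReal_eq_zero, not_le]
        positivity)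
    refine ⟨K, hKS, hKc, ?_⟩
    have h1 := ENNReal.toReal_mono (ENNReal.add_ne_top.2 ⟨measure_ne_top μ K, ENNReal.ofReal_ne_top⟩) hK.le
    rwa [ENNReal.toReal_add (measure_ne_top μ K) ENNReal.ofReal_ne_top,
      ENNReal.toReal_ofReal (by positivity)] at h1
  have hl0 : Tendsto (fun k : ℕ => 1 / ((k : ℝ) + 1)) atTop (𝓝 0) :=
    tendsto_one_div_add_atTop_nhds_zero_nat (𝕜 := ℝ)
  -- compact sets
  have hcomp : ∀ K : Set (E n), IsCompact K → 2 * Real.exp p * μ.real K * (1 - μ.real (K + G μ p c)) ≤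
      (1 - μ.real K) * μ.real (K + G μ p c) := by
    intro K hK
    have hF : IsCompact (K + G μ p c) := hK.add (isCompact_G p c)
    have hcF : μ.real (K + G μ p c)ᶜ = 1 - μ.real (K + G μ p c) := by
      rw [measureReal_compl hF.measurableSet, probReal_univ]
    have h1 : ∀ k : ℕ, 2 * Real.exp p * μ.real K * (1 - μ.real (K + G μ p c) - 1 / ((k:ℝ) + 1)) ≤
        (1 - μ.real K) * (μ.real (K + G μ p c) + 1 / ((k:ℝ) + 1)) := by
      intro k
      obtain ⟨B, hBF, hBc, hB⟩ := hin _ hF.measurableSet.compl k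
      have h2 := hpair K B hK hBc (fun x hx y hy hxy => hBF hy ⟨x, hx, y - x, by
        intro v
        have := hxy v
        rw [← neg_sub, inner_neg_right, abs_neg]
        exact this, by simp⟩)
      have hK0 : 0 ≤ μ.real K := measureReal_nonneg
      have hK1 : μ.real K ≤ 1 := measureReal_le_one
      rw [hcF] at hB
      calc 2 * Real.exp p * μ.real K * (1 - μ.real (K + G μ p c) - 1 / ((k:ℝ) + 1)) ≤
            2 * Real.exp p * μ.real K * μ.real B :=
            mul_le_mul_of_nonneg_left (by linarith) (by positivity)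
        _ ≤ (1 - μ.real K) * (1 - μ.real B) := h2
        _ ≤ _ := mul_le_mul_of_nonneg_left (by linarith) (by linarith)
    have h3 : Tendsto (fun k : ℕ => 2 * Real.exp p * μ.real K *
        (1 - μ.real (K + G μ p c) - 1 / ((k:ℝ) + 1))) atTop
        (𝓝 (2 * Real.exp p * μ.real K * (1 - μ.real (K + G μ p c) - 0))) :=
      (tendsto_const_nhds.sub hl0).const_mul _
    have h4 : Tendsto (fun k : ℕ => (1 - μ.real K) * (μ.real (K + G μ p c) + 1 / ((k:ℝ) + 1))) atTop
        (𝓝 ((1 - μ.real K) * (μ.real (K + G μ p c) + 0))) :=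
      (tendsto_const_nhds.add hl0).const_mul _
    have h5 := le_of_tendsto_of_tendsto' h3 h4 h1
    simpa using h5
  set F := A + G μ p c with hFdef
  have hF1 : μ.real F ≤ 1 := measureReal_le_one
  have hF0 : 0 ≤ μ.real F := measureReal_nonneg
  have h1 : ∀ k : ℕ, 2 * Real.exp p * (μ.real A - 1 / ((k:ℝ) + 1)) * (1 - μ.real F) ≤
      (1 - (μ.real A - 1 / ((k:ℝ) + 1))) * μ.real F := by
    intro k
    obtain ⟨K, hKA, hKc, hK⟩ := hin A hA k
    have h2 := hcomp K hKc
    have h3 : μ.real (K + G μ p c) ≤ μ.real F := measureReal_mono (add_subset_add_right hKA)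
    have hK0 : 0 ≤ μ.real K := measureReal_nonneg
    have hK1 : μ.real K ≤ 1 := measureReal_le_one
    have hG0 : 0 ≤ μ.real (K + G μ p c) := measureReal_nonneg
    calc 2 * Real.exp p * (μ.real A - 1 / ((k:ℝ) + 1)) * (1 - μ.real F) ≤
          2 * Real.exp p * μ.real K * (1 - μ.real F) := by
          apply mul_le_mul_of_nonneg_right _ (by linarith)
          exact mul_le_mul_of_nonneg_left (by linarith) (by positivity)
      _ ≤ 2 * Real.exp p * μ.real K * (1 - μ.real (K + G μ p c)) :=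
          mul_le_mul_of_nonneg_left (by linarith) (by positivity)
      _ ≤ (1 - μ.real K) * μ.real (K + G μ p c) := h2
      _ ≤ (1 - (μ.real A - 1 / ((k:ℝ) + 1))) * μ.real F := by
          apply mul_le_mul <;> linarith
  have h2 : Tendsto (fun k : ℕ => 2 * Real.exp p * (μ.real A - 1 / ((k:ℝ) + 1)) * (1 - μ.real F)) atTop
      (𝓝 (2 * Real.exp p * (μ.real A - 0) * (1 - μ.real F))) :=
    ((tendsto_const_nhds.sub hl0).const_mul _).mul_const _
  have h3 : Tendsto (fun k : ℕ => (1 - (μ.real A - 1 / ((k:ℝ) + 1))) * μ.real F) atTop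
      (𝓝 ((1 - (μ.real A - 0)) * μ.real F)) :=
    (tendsto_const_nhds.sub (tendsto_const_nhds.sub hl0)).mul_const _
  have h5 := le_of_tendsto_of_tendsto' h2 h3 h1
  simpa using h5

end Pool.CIP
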