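import Pool.Agent.CIP.VG

/-! # V3: the inequality with gain on the positive orthant, from the one-dimensional
Prekopa-Leindler inequality -/

set_option autoImplicit false

open MeasureTheory Set Filter Topology
open scoped ENNReal

namespace Pool.CIP

/-- the one-dimensional Prekopa-Leindler inequality, as a statement -/
def PL1 (s : ℝ) : Prop := ∀ f g h : ℝ → ℝ≥0∞, Measurable f → Measurable g → Measurable h →
  (∀ x y, f x ^ (1 - s) * g y ^ s ≤ h ((1 - s) * x + s * y)) →
  (∫⁻ x, f x) ^ (1 - s) * (∫⁻ x, g x) ^ s ≤ ∫⁻ x, h x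

/-- substitution `x = u^2` on the half line -/
lemma lintegral_sq (f : ℝ → ℝ≥0∞) :
    ∫⁻ x in Ioi (0 : ℝ), f x = ∫⁻ u in Ioi (0 : ℝ), ENNReal.ofReal (2 * u) * f (u ^ 2) := by
  have himg : (fun u : ℝ => u ^ 2) '' Ioi (0 : ℝ) = Ioi 0 := by
    ext x
    constructor
    · rintro ⟨u, hu, rfl⟩
      have hu' : (0 : ℝ) < u := hu
      exact pow_pos hu' 2
    · intro hx
      exact ⟨Real.sqrt x, Real.sqrt_pos.mpr hx, Real.sq_sqrt (le_of_lt hx)⟩
  have h := lintegral_image_eq_lintegral_abs_deriv_mul (s := Ioi (0 : ℝ))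
    (f := fun u : ℝ => u ^ 2) (f' := fun u => 2 * u) measurableSet_Ioi ?_ ?_ f
  · rw [himg] at h
    rw [h]
    refine setLIntegral_congr_fun measurableSet_Ioi (fun u hu => ?_)
    have hu' : (0 : ℝ) < u := hu
    beta_reduce
    rw [abs_of_pos (by positivity)]
  · intro u _
    have := (hasDerivAt_pow 2 u).hasDerivWithinAt (s := Ioi (0 : ℝ))
    simpa using this
  · intro u hu v hv huv
    have hu' : (0 : ℝ) < u := hu
    have hv' : (0 : ℝ) < v := hv
    have huv' : u ^ 2 = v ^ 2 := huv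
    nlinarith [sq_nonneg (u - v), sq_nonneg (u + v)]

/-- dimension one -/
theorem plm1 {s : ℝ} (hPL : PL1 s) (hs0 : 0 < s) (hs1 : s < 1) {f g h : ℝ → ℝ≥0∞}
    (hf : Measurable f) (hg : Measurable g) (hh : Measurable h)
    (H : ∀ x y, 0 < x → 0 < y → f x ^ (1 - s) * g y ^ s ≤ ENNReal.ofReal (g1 s x y) *
      h (((1 - s) * Real.sqrt x + s * Real.sqrt y) ^ 2)) :
    (∫⁻ x in Ioi (0 : ℝ), f x) ^ (1 - s) * (∫⁻ x in Ioi (0 : ℝ), g x) ^ s ≤
      ∫⁻ x in Ioi (0 : ℝ), h x := by
  have hs1' : 0 < 1 - s := by linarith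
  have hsq : Measurable (fun u : ℝ => u ^ 2) := measurable_id.pow_const 2
  have hof : Measurable (fun u : ℝ => ENNReal.ofReal (2 * u)) :=
    ENNReal.measurable_ofReal.comp (measurable_const.mul measurable_id)
  set D : (ℝ → ℝ≥0∞) → ℝ → ℝ≥0∞ := fun f =>
    (Ioi (0 : ℝ)).indicator (fun u => ENNReal.ofReal (2 * u) * f (u ^ 2)) with hD
  have hDm : ∀ f : ℝ → ℝ≥0∞, Measurable f → Measurable (D f) := fun f hf =>
    (hof.mul (hf.comp hsq)).indicator measurableSet_Ioi
  have hDi : ∀ f : ℝ → ℝ≥0∞, ∫⁻ x in Ioi (0 : ℝ), f x = ∫⁻ u, D f u := by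
    intro f
    rw [lintegral_sq, hD, lintegral_indicator measurableSet_Ioi]
  rw [hDi f, hDi g, hDi h]
  refine hPL (D f) (D g) (D h) (hDm f hf) (hDm g hg) (hDm h hh) (fun u v => ?_)
  by_cases hu : 0 < u
  swap
  · have : D f u = 0 := indicator_of_notMem (by simpa using hu) _
    rw [this, ENNReal.zero_rpow_of_pos hs1', zero_mul]
    exact bot_le
  by_cases hv : 0 < v
  swap
  · have : D g v = 0 := indicator_of_notMem (by simpa using hv) _
    rw [this, ENNReal.zero_rpow_of_pos hs0, mul_zero]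
    exact bot_le
  set w := (1 - s) * u + s * v with hw
  have hw0 : 0 < w := by positivity
  have e1 : D f u = ENNReal.ofReal (2 * u) * f (u ^ 2) := indicator_of_mem hu _
  have e2 : D g v = ENNReal.ofReal (2 * v) * g (v ^ 2) := indicator_of_mem hv _
  have e3 : D h w = ENNReal.ofReal (2 * w) * h (w ^ 2) := indicator_of_mem hw0 _
  have H1 := H (u ^ 2) (v ^ 2) (by positivity) (by positivity)
  rw [Real.sqrt_sq hu.le, Real.sqrt_sq hv.le, ← hw] at H1
  rw [e1, e2, e3, ENNReal.mul_rpow_of_nonneg _ _ hs1'.le, ENNReal.mul_rpow_of_nonneg _ _ hs0.le,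
    ENNReal.ofReal_rpow_of_pos (by positivity), ENNReal.ofReal_rpow_of_pos (by positivity)]
  have e4 : (2 * u) ^ (1 - s) * (2 * v) ^ s * g1 s (u ^ 2) (v ^ 2) = 2 * w := by
    unfold g1
    rw [Real.sqrt_sq hu.le, Real.sqrt_sq hv.le, ← hw, Real.mul_rpow (by norm_num) hu.le,
      Real.mul_rpow (by norm_num) hv.le]
    have e5 : (2 : ℝ) ^ (1 - s) * 2 ^ s = 2 := by
      rw [← Real.rpow_add (by norm_num)]; simp
    have e6 : u ^ (1 - s) ≠ 0 := (Real.rpow_pos_of_pos hu _).ne'
    have e7 : v ^ s ≠ 0 := (Real.rpow_pos_of_pos hv _).ne'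
    calc 2 ^ (1 - s) * u ^ (1 - s) * (2 ^ s * v ^ s) * (w / (u ^ (1 - s) * v ^ s))
        = (2 ^ (1 - s) * 2 ^ s) * (u ^ (1 - s) * v ^ s * (w / (u ^ (1 - s) * v ^ s))) := by ring
      _ = 2 * w := by rw [e5, mul_div_cancel₀ _ (mul_ne_zero e6 e7)]
  have hg0 : 0 ≤ g1 s (u ^ 2) (v ^ 2) := by
    unfold g1; positivity
  calc ENNReal.ofReal ((2 * u) ^ (1 - s)) * f (u ^ 2) ^ (1 - s) *
        (ENNReal.ofReal ((2 * v) ^ s) * g (v ^ 2) ^ s)
      = ENNReal.ofReal ((2 * u) ^ (1 - s)) * ENNReal.ofReal ((2 * v) ^ s) *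
          (f (u ^ 2) ^ (1 - s) * g (v ^ 2) ^ s) := by ring
    _ ≤ ENNReal.ofReal ((2 * u) ^ (1 - s)) * ENNReal.ofReal ((2 * v) ^ s) *
          (ENNReal.ofReal (g1 s (u ^ 2) (v ^ 2)) * h (w ^ 2)) := mul_le_mul_right H1 _
    _ = ENNReal.ofReal ((2 * u) ^ (1 - s) * (2 * v) ^ s * g1 s (u ^ 2) (v ^ 2)) * h (w ^ 2) := by
        rw [ENNReal.ofReal_mul (by positivity), ENNReal.ofReal_mul (by positivity)]
        ring
    _ = ENNReal.ofReal (2 * w) * h (w ^ 2) := by rw [e4]

/-- the positive orthant -/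
def Po (n : ℕ) : Set (Fin n → ℝ) := {x | ∀ i, 0 < x i}

lemma measurableSet_Po (n : ℕ) : MeasurableSet (Po n) := by
  have : Po n = ⋂ i, {x : Fin n → ℝ | 0 < x i} := by ext x; simp [Po]
  rw [this]
  exact MeasurableSet.iInter (fun i => measurableSet_lt measurable_const (measurable_pi_apply i))

lemma measurable_cons (n : ℕ) :
    Measurable (fun q : ℝ × (Fin n → ℝ) => (Fin.cons q.1 q.2 : Fin (n + 1) → ℝ)) := by
  refine measurable_pi_lambda _ (fun i => ?_)
  refine Fin.cases ?_ (fun j => ?_) i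
  · exact measurable_fst
  · exact (measurable_pi_apply j).comp measurable_snd

/-- Fubini on the positive orthant -/
lemma lintegral_Po (n : ℕ) {f : (Fin (n + 1) → ℝ) → ℝ≥0∞} (hf : Measurable f) :
    ∫⁻ x in Po (n + 1), f x =
      ∫⁻ t in Ioi (0 : ℝ), ∫⁻ x in Po n, f (Fin.cons t x : Fin (n + 1) → ℝ) := by
  have hmp := (volume_preserving_piFinSuccAbove (fun _ : Fin (n + 1) => ℝ) 0).symm
  have hval : ∀ q : ℝ × (Fin n → ℝ),
      (MeasurableEquiv.piFinSuccAbove (fun _ : Fin (n + 1) => ℝ) 0).symm q =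
        (Fin.cons q.1 q.2 : Fin (n + 1) → ℝ) := by
    intro q
    rw [MeasurableEquiv.piFinSuccAbove_symm_apply]
    simp [Fin.insertNthEquiv]
  have h1 := hmp.setLIntegral_comp_preimage_emb (MeasurableEquiv.measurableEmbedding _) f
    (Po (n + 1))
  rw [← h1]
  have h2 : (MeasurableEquiv.piFinSuccAbove (fun _ : Fin (n + 1) => ℝ) 0).symm ⁻¹' (Po (n + 1)) =
      Ioi (0 : ℝ) ×ˢ Po n := by
    ext q
    rw [mem_preimage, hval, mem_prod]
    constructor
    · intro h
      exact ⟨h 0, fun i => h i.succ⟩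
    · rintro ⟨h3, h4⟩ i
      refine Fin.cases ?_ (fun j => ?_) i
      · exact h3
      · exact h4 j
  rw [h2]
  simp only [hval]
  rw [show (volume : Measure (ℝ × (Fin n → ℝ))) = (volume : Measure ℝ).prod volume from rfl,
    ← Measure.prod_restrict, lintegral_prod]
  exact (hf.comp (measurable_cons n)).aemeasurable

/-- V3 -/
theorem plm_of {s : ℝ} (hPL : PL1 s) (hs0 : 0 < s) (hs1 : s < 1) : ∀ (n : ℕ)
    (f g h : (Fin n → ℝ) → ℝ≥0∞), Measurable f → Measurable g → Measurable h →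
    (∀ x y, (∀ i, 0 < x i) → (∀ i, 0 < y i) → f x ^ (1 - s) * g y ^ s ≤
      ENNReal.ofReal (∏ i, g1 s (x i) (y i)) *
        h (fun i => ((1 - s) * Real.sqrt (x i) + s * Real.sqrt (y i)) ^ 2)) →
    (∫⁻ x in Po n, f x) ^ (1 - s) * (∫⁻ x in Po n, g x) ^ s ≤ ∫⁻ x in Po n, h x := by
  intro n
  induction n with
  | zero =>
    intro f g h hf hg hh H
    have hP : Po 0 = univ := by
      ext x; simp [Po]
    rw [hP, setLIntegral_univ, setLIntegral_univ, setLIntegral_univ]
    rw [show (volume : Measure (Fin 0 → ℝ)) = Measure.dirac (fun i => isEmptyElim i) from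
      Measure.volume_pi_eq_dirac _]
    rw [lintegral_dirac' _ hf, lintegral_dirac' _ hg, lintegral_dirac' _ hh]
    have h1 := H (fun i => isEmptyElim i) (fun i => isEmptyElim i) (fun i => isEmptyElim i)
      (fun i => isEmptyElim i)
    simp only [Finset.univ_eq_empty, Finset.prod_empty, ENNReal.ofReal_one, one_mul] at h1
    refine h1.trans (le_of_eq ?_)
    congr 1
    ext i
    exact isEmptyElim i
  | succ n ih =>
    intro f g h hf hg hh H
    rw [lintegral_Po n hf, lintegral_Po n hg, lintegral_Po n hh]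
    have hm : ∀ f : (Fin (n + 1) → ℝ) → ℝ≥0∞, Measurable f →
        Measurable (fun t : ℝ => ∫⁻ x in Po n, f (Fin.cons t x : Fin (n + 1) → ℝ)) := by
      intro f hf
      exact (hf.comp (measurable_cons n)).lintegral_prod_right'
    have hc : ∀ (t : ℝ) (f : (Fin (n + 1) → ℝ) → ℝ≥0∞), Measurable f →
        Measurable (fun x : Fin n → ℝ => f (Fin.cons t x : Fin (n + 1) → ℝ)) := by
      intro t f hf
      exact (hf.comp (measurable_cons n)).comp (measurable_const.prodMk measurable_id)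
    refine plm1 hPL hs0 hs1 (hm f hf) (hm g hg) (hm h hh) (fun t r ht hr => ?_)
    have h1 := ih (fun x => f (Fin.cons t x : Fin (n + 1) → ℝ))
      (fun x => g (Fin.cons r x : Fin (n + 1) → ℝ))
      (fun x => ENNReal.ofReal (g1 s t r) *
        h (Fin.cons (((1 - s) * Real.sqrt t + s * Real.sqrt r) ^ 2) x : Fin (n + 1) → ℝ))
      (hc t f hf) (hc r g hg) ((hc _ h hh).const_mul _) ?_
    · rw [lintegral_const_mul _ (hc _ h hh)] at h1
      exact h1
    · intro x y hx hy
      have h2 := H (Fin.cons t x : Fin (n + 1) → ℝ) (Fin.cons r y : Fin (n + 1) → ℝ)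
        (fun i => by
          refine Fin.cases ?_ (fun j => ?_) i
          · exact ht
          · exact hx j)
        (fun i => by
          refine Fin.cases ?_ (fun j => ?_) i
          · exact hr
          · exact hy j)
      refine h2.trans (le_of_eq ?_)
      rw [Fin.prod_univ_succ]
      simp only [Fin.cons_zero, Fin.cons_succ]
      have hg0 : 0 ≤ g1 s t r := by
        unfold g1
        have := Real.sqrt_nonneg t
        have := Real.sqrt_nonneg r
        have h3 : 0 ≤ 1 - s := by linarith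
        positivity
      rw [ENNReal.ofReal_mul hg0]
      have h3 : (fun i : Fin (n + 1) => ((1 - s) * Real.sqrt ((Fin.cons t x : Fin (n + 1) → ℝ) i) +
          s * Real.sqrt ((Fin.cons r y : Fin (n + 1) → ℝ) i)) ^ 2) =
          (Fin.cons (((1 - s) * Real.sqrt t + s * Real.sqrt r) ^ 2)
            (fun i => ((1 - s) * Real.sqrt (x i) + s * Real.sqrt (y i)) ^ 2) :
              Fin (n + 1) → ℝ) := by
        ext i
        refine Fin.cases ?_ (fun j => ?_) i
        · simp
        · simp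
      rw [h3]
      ring

end Pool.CIP
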