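import Pool.Agent.CIP.VD
import Pool.Agent.CIP.VH

/-! # V4b: the orthant inequality with gain for even log-concave densities -/

set_option autoImplicit false

open MeasureTheory Set Filter Topology
open scoped ENNReal

namespace Pool.CIP

variable {n : ℕ}

/-- sign change on `Fin n → ℝ` -/
def fl (ω : Fin n → Bool) (x : Fin n → ℝ) : Fin n → ℝ := fun i => if ω i then x i else -x i

lemma fl_measurePreserving (ω : Fin n → Bool) :
    MeasurePreserving (fl ω) (volume : Measure (Fin n → ℝ)) volume := by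
  have h : ∀ i : Fin n, MeasurePreserving (fun t : ℝ => if ω i then t else -t)
      (volume : Measure ℝ) volume := by
    intro i
    cases ω i
    · simpa using Measure.measurePreserving_neg (volume : Measure ℝ)
    · have h1 : (fun t : ℝ => if true = true then t else -t) = id := by
        ext t; simp
      rw [h1]
      exact MeasurePreserving.id (volume : Measure ℝ)
  exact volume_preserving_pi h

lemma fl_fl (ω : Fin n → Bool) (x : Fin n → ℝ) : fl ω (fl ω x) = x := by
  ext i
  unfold fl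
  cases ω i <;> simp

/-- decomposition into orthants -/
lemma lintegral_even {F : (Fin n → ℝ) → ℝ≥0∞} (hF : Measurable F)
    (hev : ∀ ω x, F (fl ω x) = F x) :
    ∫⁻ x, F x = 2 ^ n * ∫⁻ x in Po n, F x := by
  classical
  -- a.e. all coordinates are nonzero
  have hae : ∀ᵐ x : Fin n → ℝ, ∀ i, x i ≠ 0 := by
    rw [ae_all_iff]
    intro i
    have h1 : ∀ᵐ t : ℝ, t ≠ 0 := by
      rw [ae_iff]
      simp
    exact (Measure.quasiMeasurePreserving_eval (fun _ : Fin n => (volume : Measure ℝ)) i).ae h1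
  have hsum : ∀ᵐ x : Fin n → ℝ, F x = ∑ ω : Fin n → Bool, (Po n).indicator F (fl ω x) := by
    filter_upwards [hae] with x hx
    set ω0 : Fin n → Bool := fun i => decide (0 < x i) with hω0
    have hmem : ∀ ω : Fin n → Bool, fl ω x ∈ Po n ↔ ω = ω0 := by
      intro ω
      constructor
      · intro h
        ext i
        have h1 : 0 < fl ω x i := h i
        unfold fl at h1
        rw [hω0]
        cases hω : ω i
        · rw [hω] at h1
          simp only [Bool.false_eq_true, if_false] at h1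
          have : ¬ 0 < x i := by linarith
          simp [this]
        · rw [hω] at h1
          simp only [if_true] at h1
          simp [h1]
      · rintro rfl i
        show 0 < fl ω0 x i
        unfold fl
        by_cases h : 0 < x i
        · simp [hω0, h]
        · have h2 : x i < 0 := lt_of_le_of_ne (not_lt.mp h) (hx i)
          simp [hω0, h, h2]
    rw [Finset.sum_eq_single ω0]
    · rw [indicator_of_mem ((hmem ω0).mpr rfl), hev]
    · intro ω _ hω
      exact indicator_of_notMem (fun h => hω ((hmem ω).mp h)) _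
    · intro h
      exact absurd (Finset.mem_univ _) h
  have hind : Measurable ((Po n).indicator F) := hF.indicator (measurableSet_Po n)
  rw [lintegral_congr_ae hsum]
  have hswap : ∫⁻ x, ∑ ω : Fin n → Bool, (Po n).indicator F (fl ω x) =
      ∑ ω : Fin n → Bool, ∫⁻ x, (Po n).indicator F (fl ω x) :=
    lintegral_finsetSum _ (fun ω _ => hind.comp (fl_measurePreserving ω).measurable)
  rw [hswap]
  have h1 : ∀ ω : Fin n → Bool, ∫⁻ x, (Po n).indicator F (fl ω x) = ∫⁻ x in Po n, F x := by
    intro ω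
    rw [(fl_measurePreserving ω).lintegral_comp hind, lintegral_indicator (measurableSet_Po n)]
  rw [Finset.sum_congr rfl (fun ω _ => h1 ω)]
  simp

/-- V4b -/
theorem t1p_of_nice (hPL : ∀ s : ℝ, 0 < s → s < 1 → PL1 s) {f : E n → ℝ} (hf : Nice f) :
    T1p ((volume : Measure (E n)).withDensity fun x => ENNReal.ofReal (f x)) := by
  intro s hs0 hs1 a b h ha hb hh H
  have hfm : Measurable (fun x : E n => ENNReal.ofReal (f x)) :=
    ENNReal.measurable_ofReal.comp hf.meas
  have hlp : Measurable (fun x : Fin n → ℝ => (WithLp.toLp 2 x : E n)) := by fun_prop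
  have habm : Measurable (ab : E n → E n) := by
    unfold ab
    fun_prop
  have hev : ∀ (ω : Fin n → Bool) (x : Fin n → ℝ),
      f (WithLp.toLp 2 (fl ω x)) = f (WithLp.toLp 2 x) := by
    intro ω x
    have h1 := hf.even (fun i => if ω i then 1 else -1) (fun i => by cases ω i <;> simp)
      (WithLp.toLp 2 x)
    rw [← h1]
    congr 1
    ext i
    rw [flp_apply]
    show fl ω x i = _
    unfold fl
    cases ω i <;> simp
  have hab : ∀ (ω : Fin n → Bool) (x : Fin n → ℝ),
      ab (WithLp.toLp 2 (fl ω x) : E n) = ab (WithLp.toLp 2 x) := by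
    intro ω x
    ext i
    rw [ab_apply, ab_apply]
    show |fl ω x i| = |x i|
    unfold fl
    cases ω i <;> simp
  -- reduction to the orthant
  have hred : ∀ g : E n → ℝ≥0∞, Measurable g →
      ∫⁻ x, g (ab x) ∂((volume : Measure (E n)).withDensity fun x => ENNReal.ofReal (f x)) =
        2 ^ n * ∫⁻ x in Po n, g (WithLp.toLp 2 x) * ENNReal.ofReal (f (WithLp.toLp 2 x)) := by
    intro g hg
    have hga : Measurable (fun x : E n => g (ab x)) := hg.comp habm
    rw [lintegral_withDensity_eq_lintegral_mul _ hfm hga]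
    have h1 := (PiLp.volume_preserving_toLp (Fin n)).lintegral_comp (hfm.mul hga)
    rw [← h1]
    have h2 := lintegral_even (F := fun x : Fin n → ℝ =>
      ((fun x : E n => ENNReal.ofReal (f x)) * fun x : E n => g (ab x)) (WithLp.toLp 2 x))
      ((hfm.mul hga).comp hlp) (fun ω x => by
        simp only [Pi.mul_apply]
        rw [hev, hab])
    rw [h2]
    congr 1
    refine setLIntegral_congr_fun (measurableSet_Po n) (fun x hx => ?_)
    simp only [Pi.mul_apply]
    have h3 : ab (WithLp.toLp 2 x : E n) = WithLp.toLp 2 x := by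
      ext i
      rw [ab_apply]
      exact abs_of_pos (hx i)
    rw [h3, mul_comm]
  rw [hred a ha, hred b hb, hred h hh]
  have hs1' : 0 < 1 - s := by linarith
  have key := plm_of (hPL s hs0 hs1) hs0 hs1 n
    (fun x => a (WithLp.toLp 2 x) * ENNReal.ofReal (f (WithLp.toLp 2 x)))
    (fun x => b (WithLp.toLp 2 x) * ENNReal.ofReal (f (WithLp.toLp 2 x)))
    (fun x => h (WithLp.toLp 2 x) * ENNReal.ofReal (f (WithLp.toLp 2 x)))
    ((ha.comp hlp).mul (hfm.comp hlp)) ((hb.comp hlp).mul (hfm.comp hlp))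
    ((hh.comp hlp).mul (hfm.comp hlp)) ?_
  · rw [ENNReal.mul_rpow_of_nonneg _ _ hs1'.le, ENNReal.mul_rpow_of_nonneg _ _ hs0.le]
    have h2 : ((2 : ℝ≥0∞) ^ n) ^ (1 - s) * ((2 : ℝ≥0∞) ^ n) ^ s = 2 ^ n := by
      rw [← ENNReal.rpow_add]
      · simp
      · positivity
      · exact ENNReal.pow_ne_top (by norm_num)
    calc ((2 : ℝ≥0∞) ^ n) ^ (1 - s) *
          (∫⁻ x in Po n, a (WithLp.toLp 2 x) * ENNReal.ofReal (f (WithLp.toLp 2 x))) ^ (1 - s) *
          (((2 : ℝ≥0∞) ^ n) ^ s *
          (∫⁻ x in Po n, b (WithLp.toLp 2 x) * ENNReal.ofReal (f (WithLp.toLp 2 x))) ^ s)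
        = (((2 : ℝ≥0∞) ^ n) ^ (1 - s) * ((2 : ℝ≥0∞) ^ n) ^ s) *
          ((∫⁻ x in Po n, a (WithLp.toLp 2 x) * ENNReal.ofReal (f (WithLp.toLp 2 x))) ^ (1 - s) *
          (∫⁻ x in Po n, b (WithLp.toLp 2 x) * ENNReal.ofReal (f (WithLp.toLp 2 x))) ^ s) := by
          ring
      _ ≤ 2 ^ n * ∫⁻ x in Po n, h (WithLp.toLp 2 x) * ENNReal.ofReal (f (WithLp.toLp 2 x)) := by
          rw [h2]
          exact mul_le_mul_right key _
  · intro x y hx hy
    have H1 := H (WithLp.toLp 2 x) (WithLp.toLp 2 y) hx hy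
    set X : E n := WithLp.toLp 2 x with hX
    set Y : E n := WithLp.toLp 2 y with hY
    have hmn : (WithLp.toLp 2 (fun i => ((1 - s) * Real.sqrt (x i) + s * Real.sqrt (y i)) ^ 2) :
        E n) = mn s X Y := rfl
    rw [hmn]
    -- the gain
    have hgain : Real.exp (s * (1 - s) / 8 * rds X Y) ≤ ∏ i, g1 s (x i) (y i) := by
      unfold rds
      rw [Finset.mul_sum, Real.exp_sum]
      refine Finset.prod_le_prod (fun i _ => (Real.exp_pos _).le) (fun i _ => ?_)
      exact g1_lower_raw hs0 hs1 (hx i) (hy i)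
    -- the density
    have hdens : f X ^ (1 - s) * f Y ^ s ≤ f (mn s X Y) := by
      refine (hf.lc X Y s hs0 hs1).trans (hf.mono (fun i => ?_))
      rw [mn_apply, PiLp.add_apply, PiLp.smul_apply, PiLp.smul_apply, smul_eq_mul, smul_eq_mul]
      have hxi : 0 < X i := hx i
      have hyi : 0 < Y i := hy i
      have e1 : Real.sqrt (X i) ^ 2 = X i := Real.sq_sqrt hxi.le
      have e2 : Real.sqrt (Y i) ^ 2 = Y i := Real.sq_sqrt hyi.le
      rw [abs_of_nonneg (by positivity), abs_of_nonneg (by positivity)]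
      have e3 : (1 - s) * X i + s * Y i - ((1 - s) * Real.sqrt (X i) + s * Real.sqrt (Y i)) ^ 2 =
          s * (1 - s) * (Real.sqrt (X i) - Real.sqrt (Y i)) ^ 2 := by
        conv_lhs => rw [← e1, ← e2]
        rw [Real.sqrt_sq (Real.sqrt_nonneg _), Real.sqrt_sq (Real.sqrt_nonneg _)]
        ring
      have e4 : 0 ≤ s * (1 - s) * (Real.sqrt (X i) - Real.sqrt (Y i)) ^ 2 :=
        mul_nonneg (mul_nonneg hs0.le hs1'.le) (sq_nonneg _)
      linarith
    have hdens' : ENNReal.ofReal (f X) ^ (1 - s) * ENNReal.ofReal (f Y) ^ s ≤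
        ENNReal.ofReal (f (mn s X Y)) := by
      rw [ENNReal.ofReal_rpow_of_nonneg (hf.nonneg X) hs1'.le,
        ENNReal.ofReal_rpow_of_nonneg (hf.nonneg Y) hs0.le,
        ← ENNReal.ofReal_mul (Real.rpow_nonneg (hf.nonneg X) _)]
      exact ENNReal.ofReal_le_ofReal hdens
    show (a X * ENNReal.ofReal (f X)) ^ (1 - s) * (b Y * ENNReal.ofReal (f Y)) ^ s ≤
      ENNReal.ofReal (∏ i, g1 s (x i) (y i)) * (h (mn s X Y) * ENNReal.ofReal (f (mn s X Y)))
    rw [ENNReal.mul_rpow_of_nonneg _ _ hs1'.le, ENNReal.mul_rpow_of_nonneg _ _ hs0.le]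
    calc a X ^ (1 - s) * ENNReal.ofReal (f X) ^ (1 - s) *
          (b Y ^ s * ENNReal.ofReal (f Y) ^ s)
        = (a X ^ (1 - s) * b Y ^ s) *
          (ENNReal.ofReal (f X) ^ (1 - s) * ENNReal.ofReal (f Y) ^ s) := by ring
      _ ≤ (ENNReal.ofReal (Real.exp (s * (1 - s) / 8 * rds X Y)) * h (mn s X Y)) *
          ENNReal.ofReal (f (mn s X Y)) := mul_le_mul' H1 hdens'
      _ ≤ (ENNReal.ofReal (∏ i, g1 s (x i) (y i)) * h (mn s X Y)) *
          ENNReal.ofReal (f (mn s X Y)) :=
          mul_le_mul' (mul_le_mul' (ENNReal.ofReal_le_ofReal hgain) le_rfl) le_rfl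
      _ = _ := by ring

end Pool.CIP
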