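import Pool.Agent.CIP.VU

/-! # The one coordinate lemma -/

set_option autoImplicit false

open MeasureTheory Pointwise Set Filter Topology
open scoped ENNReal

namespace Pool.CIP

variable {n : ℕ} {ν : Measure (E n)}

/-- the scalar inequality behind the one coordinate lemma -/
lemma oc_scalar {W D : ℝ} (hW : 0 ≤ W)
    (h : ∀ N : ℕ, 1 ≤ N → |D| ≤ 2 * N * W + 1 / (4 * N)) : Real.cosh (D / 2) ≤ Real.exp W := by
  rcases lt_or_ge W (1/8) with hW8 | hW8
  · rcases hW.eq_or_lt with h0 | h0
    · have hD : |D| ≤ 0 := by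
        refine le_of_forall_pos_le_add fun ε hε => ?_
        obtain ⟨N, hN⟩ := exists_nat_gt (1 / ε)
        have hN0 : (0:ℝ) < N := lt_trans (by positivity) hN
        have hN1 : 1 ≤ N := by
          have : 0 < N := by exact_mod_cast hN0
          omega
        have h1 := h N hN1
        rw [← h0, mul_zero, zero_add] at h1
        have h2 : 1 / (4 * (N:ℝ)) ≤ ε := by
          rw [div_le_iff₀ (by positivity)]
          have h3 : 1 / ε < N := hN
          rw [div_lt_iff₀ hε] at h3
          nlinarith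
        linarith
      have hD0 : D = 0 := abs_eq_zero.1 (le_antisymm hD (abs_nonneg _))
      rw [hD0, ← h0]
      simp
    · -- 0 < W < 1/8
      set z := Real.sqrt (8 * W) with hz
      have hz0 : 0 < z := Real.sqrt_pos.2 (by linarith)
      have hz2 : z ^ 2 = 8 * W := Real.sq_sqrt (by linarith)
      have hz1 : z < 1 := by nlinarith
      have hWz : W = z ^ 2 / 8 := by linarith
      set N := ⌈1 / z⌉₊ with hN
      have hN1 : 1 / z ≤ N := Nat.le_ceil _
      have hN2 : (N:ℝ) < 1 / z + 1 := Nat.ceil_lt_add_one (by positivity)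
      have hNpos : (0:ℝ) < N := lt_of_lt_of_le (by positivity) hN1
      have hN3 : 1 ≤ N := by
        have : 0 < N := by exact_mod_cast hNpos
        omega
      have h1 := h N hN3
      have h2 : 1 / (4 * (N:ℝ)) ≤ z / 4 := by
        rw [div_le_iff₀ (by positivity)]
        rw [div_le_iff₀ hz0] at hN1
        nlinarith
      have h3 : 2 * (N:ℝ) * W ≤ z / 4 + z ^ 2 / 4 := by
        have h4 : (N:ℝ) * z ≤ 1 + z := by
          have h5 : (N:ℝ) * z ≤ (1 / z + 1) * z := mul_le_mul_of_nonneg_right hN2.le hz0.le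
          have h6 : (1 / z + 1) * z = 1 + z := by
            rw [add_mul, one_mul, div_mul_cancel₀ _ hz0.ne']
          linarith
        rw [hWz]
        nlinarith
      have h7 : |D| ≤ 3 / 4 * z := by nlinarith
      have h8 : (D / 2) ^ 2 / 2 ≤ W := by
        have h9 : D ^ 2 ≤ (3 / 4 * z) ^ 2 := by
          rw [← sq_abs D]
          exact pow_le_pow_left₀ (abs_nonneg _) h7 2
        nlinarith
      exact (Real.cosh_le_exp_half_sq _).trans (Real.exp_le_exp.2 h8)
  · -- W ≥ 1/8
    have h1 := h 1 le_rfl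
    have h2 : |D / 2| ≤ W + 1 / 8 := by
      rw [abs_div, abs_of_pos (show (0:ℝ) < 2 by norm_num)]
      norm_num at h1
      linarith
    set y := W + 1 / 8 with hy
    have hy4 : 1 / 4 ≤ y := by linarith
    have h3 : Real.cosh (D / 2) ≤ Real.cosh y := by
      rw [Real.cosh_le_cosh, abs_of_nonneg (show 0 ≤ y by linarith)]
      exact h2
    refine h3.trans ?_
    have h4 : W = y + (-(1/8)) := by rw [hy]; ring
    rw [h4, Real.exp_add, Real.cosh_eq]
    have h5 : Real.exp (-y) ≤ Real.exp y * (2/3) := by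
      have h6 : Real.exp (-y) = Real.exp y * Real.exp (-(2 * y)) := by
        rw [← Real.exp_add]; congr 1; ring
      rw [h6]
      refine mul_le_mul_of_nonneg_left ?_ (Real.exp_pos _).le
      rw [Real.exp_neg]
      have h7 : (3/2 : ℝ) ≤ Real.exp (2 * y) := by
        have h8 := Real.add_one_le_exp (2 * y)
        linarith
      calc (Real.exp (2 * y))⁻¹ ≤ (3/2 : ℝ)⁻¹ := inv_anti₀ (by norm_num) h7
        _ = 2/3 := by norm_num
    have h9 : (7/8 : ℝ) ≤ Real.exp (-(1/8)) := by
      have h10 := Real.add_one_le_exp (-(1/8) : ℝ)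
      linarith
    have h11 : Real.exp y * (7/8) ≤ Real.exp y * Real.exp (-(1/8)) :=
      mul_le_mul_of_nonneg_left h9 (Real.exp_pos _).le
    have h12 := Real.exp_pos y
    linarith

/-- reflections at positive levels, for functions of the absolute value -/
lemma oc_refl (hunc : Uncond ν) (hm1 : M1p ν) (k : Fin n) {a : ℝ} (ha : 0 ≤ a)
    {w : E n → ℝ≥0∞} (hw : Measurable w) :
    ∫⁻ x, {x : E n | a < 2 * |x k|}.indicator (fun x => w (up1 x k (a - |x k|))) x ∂ν ≤
      2 * ∫⁻ x, w x ∂ν := by
  have mS : MeasurableSet {x : E n | a / 2 < x k} :=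
    measurableSet_lt measurable_const (by fun_prop)
  set g : E n → ℝ≥0∞ := {x : E n | a / 2 < x k}.indicator (fun x => w (up1 x k (a - x k))) with hg
  have mg : Measurable g := (hw.comp (measurable_up1 k (by fun_prop))).indicator mS
  have h1 : ∫⁻ x, g x ∂ν ≤ ∫⁻ x, w x ∂ν := by
    rw [hg, lintegral_indicator mS]
    exact (hm1 k a ha w hw).trans (setLIntegral_le_lintegral _ _)
  have h2 : ∫⁻ x, {x : E n | a < 2 * |x k|}.indicator (fun x => w (up1 x k (a - |x k|))) x ∂ν ≤
      ∫⁻ x, (g x + g (up1 x k (-x k))) ∂ν := by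
    refine lintegral_mono fun x => ?_
    by_cases hx : a < 2 * |x k|
    · rw [indicator_of_mem (show x ∈ {x : E n | a < 2 * |x k|} from hx)]
      rcases le_total 0 (x k) with h0 | h0
      · rw [abs_of_nonneg h0] at hx ⊢
        have h3 : x ∈ {x : E n | a / 2 < x k} := by
          change a / 2 < x k
          linarith
        rw [hg, indicator_of_mem h3]
        exact le_self_add
      · rw [abs_of_nonpos h0] at hx ⊢
        have h3 : up1 x k (-x k) ∈ {x : E n | a / 2 < x k} := by
          change a / 2 < up1 x k (-x k) k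
          rw [up1_same]
          linarith
        have h4 : g (up1 x k (-x k)) = w (up1 x k (a - -x k)) := by
          rw [hg, indicator_of_mem h3, up1_same]
          congr 1
          ext i
          simp only [up1_apply]
          split_ifs <;> rfl
        rw [h4]
        exact le_add_self
    · rw [indicator_of_notMem (show x ∉ {x : E n | a < 2 * |x k|} from hx)]
      exact bot_le
  refine h2.trans ?_
  rw [lintegral_add_left mg, hunc.lintegral_up1 k mg, two_mul]
  exact add_le_add h1 h1

/-- real version of the reflection bound -/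
lemma oc_refl_real [IsProbabilityMeasure ν] (hunc : Uncond ν) (hm1 : M1p ν) (k : Fin n) {a : ℝ}
    (ha : 0 ≤ a) {w : E n → ℝ} (hw : Measurable w) (hw0 : ∀ x, 0 ≤ w x) {C : ℝ}
    (hC : ∀ x, w x ≤ C) :
    ∫ x, {x : E n | a < 2 * |x k|}.indicator (fun x => w (up1 x k (a - |x k|))) x ∂ν ≤
      2 * ∫ x, w x ∂ν := by
  have mS : MeasurableSet {x : E n | a < 2 * |x k|} := measurableSet_lt measurable_const (by fun_prop)
  have mf : Measurable ({x : E n | a < 2 * |x k|}.indicator
      (fun x : E n => w (up1 x k (a - |x k|)))) :=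
    (hw.comp (measurable_up1 k (by fun_prop))).indicator mS
  have h1 := oc_refl hunc hm1 k ha (w := fun x => ENNReal.ofReal (w x)) hw.ennreal_ofReal
  have hi : Integrable w ν := by
    refine Integrable.of_bound hw.aestronglyMeasurable C (Eventually.of_forall fun x => ?_)
    rw [Real.norm_eq_abs, abs_of_nonneg (hw0 x)]
    exact hC x
  rw [integral_eq_lintegral_of_nonneg_ae (Eventually.of_forall fun x => by
      simp only [Pi.zero_apply]
      exact indicator_nonneg (fun _ _ => hw0 _) x) mf.aestronglyMeasurable,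
    integral_eq_lintegral_of_nonneg_ae (Eventually.of_forall hw0) hw.aestronglyMeasurable]
  have hfin : ∫⁻ x, ENNReal.ofReal (w x) ∂ν ≠ ∞ := hi.lintegral_lt_top.ne
  have h2 : ∫⁻ x, ENNReal.ofReal ({x : E n | a < 2 * |x k|}.indicator
      (fun x : E n => w (up1 x k (a - |x k|))) x) ∂ν =
      ∫⁻ x, {x : E n | a < 2 * |x k|}.indicator
        (fun x => ENNReal.ofReal (w (up1 x k (a - |x k|)))) x ∂ν := by
    refine lintegral_congr fun x => ?_
    by_cases hx : x ∈ {x : E n | a < 2 * |x k|}
    · rw [indicator_of_mem hx, indicator_of_mem hx]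
    · rw [indicator_of_notMem hx, indicator_of_notMem hx, ENNReal.ofReal_zero]
  rw [h2]
  calc _ ≤ (2 * ∫⁻ x, ENNReal.ofReal (w x) ∂ν).toReal :=
        ENNReal.toReal_mono (ENNReal.mul_ne_top (by norm_num) hfin) h1
    _ = 2 * (∫⁻ x, ENNReal.ofReal (w x) ∂ν).toReal := by
        rw [ENNReal.toReal_mul]
        norm_num

/-- the chain inequality at one point -/
lemma oc_chain (k : Fin n) {τ : ℝ} (hτ : 0 < τ) {u φ : E n → ℝ}
    (hyp : ∀ x t, |x k| ≤ τ → |t| ≤ τ → u x ≤ φ (up1 x k t) + (x k - t) ^ 2 / (16 * τ ^ 2))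
    {N : ℕ} (hN : 1 ≤ N) (x : E n) (hx : |x k| ≤ τ) :
    u (up1 x k |x k|) - u (up1 x k (-|x k|)) ≤
      ∑ j ∈ Finset.range N, {x : E n | (j : ℝ) * (2 * τ / N) < 2 * |x k|}.indicator
        (fun x => max (φ (up1 x k ((j : ℝ) * (2 * τ / N) - |x k|)) -
          u (up1 x k ((j : ℝ) * (2 * τ / N) - |x k|))) 0) x + 1 / (4 * N) := by
  have hN0 : (0:ℝ) < N := by exact_mod_cast hN
  set h := 2 * τ / N with hh
  have hh0 : 0 < h := by positivity
  set s := |x k| with hs
  have hs0 : 0 ≤ s := abs_nonneg _
  set q : ℕ → ℝ := fun j => min ((j : ℝ) * h - s) s with hq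
  have hq0 : q 0 = -s := by
    simp only [hq, Nat.cast_zero, zero_mul, zero_sub]
    exact min_eq_left (by linarith)
  have hNh : (N:ℝ) * h = 2 * τ := by
    rw [hh]; field_simp
  have hqN : q N = s := by
    simp only [hq]
    rw [hNh]
    exact min_eq_right (by linarith)
  have hqs : ∀ j, |q j| ≤ τ := by
    intro j
    rw [abs_le]
    constructor
    · simp only [hq]
      refine le_min ?_ (by linarith)
      have : (0:ℝ) ≤ (j:ℝ) * h := by positivity
      linarith
    · simp only [hq]
      exact (min_le_right _ _).trans hx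
  have hstep : ∀ j, u (up1 x k (q (j + 1))) - u (up1 x k (q j)) ≤
      {x : E n | (j : ℝ) * h < 2 * |x k|}.indicator
        (fun x => max (φ (up1 x k ((j : ℝ) * h - |x k|)) -
          u (up1 x k ((j : ℝ) * h - |x k|))) 0) x + h ^ 2 / (16 * τ ^ 2) := by
    intro j
    have hj1 : ((j + 1 : ℕ) : ℝ) * h = (j:ℝ) * h + h := by push_cast; ring
    by_cases hj : (j : ℝ) * h < 2 * s
    · rw [indicator_of_mem (show x ∈ {x : E n | (j : ℝ) * h < 2 * |x k|} from hj)]
      have e1 : q j = (j : ℝ) * h - s := by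
        simp only [hq]
        exact min_eq_left (by linarith)
      have h2 := hyp (up1 x k (q (j + 1))) (q j) (by rw [up1_same]; exact hqs _) (hqs j)
      rw [up1_same] at h2
      have e2 : up1 (up1 x k (q (j + 1))) k (q j) = up1 x k (q j) := by
        ext i
        simp only [up1_apply]
        split_ifs <;> rfl
      rw [e2] at h2
      have h3 : 0 ≤ q (j + 1) - q j := by
        rw [e1]
        simp only [hq]
        rw [sub_nonneg]
        refine le_min ?_ (by linarith)
        rw [hj1]; linarith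
      have h4 : q (j + 1) - q j ≤ h := by
        rw [e1]
        simp only [hq]
        have := min_le_left (((j + 1 : ℕ) : ℝ) * h - s) s
        rw [hj1] at this ⊢
        linarith
      have h5 : (q (j + 1) - q j) ^ 2 / (16 * τ ^ 2) ≤ h ^ 2 / (16 * τ ^ 2) := by
        refine div_le_div_of_nonneg_right ?_ (by positivity)
        exact pow_le_pow_left₀ h3 h4 2
      have h6 : φ (up1 x k ((j : ℝ) * h - s)) - u (up1 x k ((j : ℝ) * h - s)) ≤
          max (φ (up1 x k ((j : ℝ) * h - s)) - u (up1 x k ((j : ℝ) * h - s))) 0 := le_max_left _ _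
      rw [e1] at h2 h5 ⊢
      linarith
    · rw [indicator_of_notMem (show x ∉ {x : E n | (j : ℝ) * h < 2 * |x k|} from hj)]
      push Not at hj
      have e1 : q j = s := by
        simp only [hq]
        exact min_eq_right (by linarith)
      have e2 : q (j + 1) = s := by
        simp only [hq]
        rw [hj1]
        exact min_eq_right (by linarith)
      rw [e1, e2, sub_self, zero_add]
      positivity
  have hsum := Finset.sum_le_sum fun j (_ : j ∈ Finset.range N) => hstep j
  rw [Finset.sum_range_sub (fun j => u (up1 x k (q j))), hq0, hqN, Finset.sum_add_distrib,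
    Finset.sum_const, Finset.card_range, nsmul_eq_mul] at hsum
  have h7 : (N:ℝ) * (h ^ 2 / (16 * τ ^ 2)) = 1 / (4 * N) := by
    rw [hh]
    field_simp
    ring
  rw [h7] at hsum
  exact hsum

/-- the integrated chain inequality -/
lemma oc_diff [IsProbabilityMeasure ν] (hunc : Uncond ν) (hm1 : M1p ν) (k : Fin n) {τ : ℝ}
    (hτ : 0 < τ) (hae : ∀ᵐ x ∂ν, |x k| ≤ τ) {u φ : E n → ℝ} (mu : Measurable u)
    (mφ : Measurable φ) {C : ℝ} (hu : ∀ x, |u x| ≤ C) (hφ : ∀ x, |φ x| ≤ C)
    (hyp : ∀ x t, |x k| ≤ τ → |t| ≤ τ → u x ≤ φ (up1 x k t) + (x k - t) ^ 2 / (16 * τ ^ 2))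
    {N : ℕ} (hN : 1 ≤ N) :
    ∫ x, u (up1 x k |x k|) ∂ν - ∫ x, u (up1 x k (-|x k|)) ∂ν ≤
      2 * N * ∫ x, max (φ x - u x) 0 ∂ν + 1 / (4 * N) := by
  have hN0 : (0:ℝ) < N := by exact_mod_cast hN
  set h := 2 * τ / N with hh
  have hh0 : 0 < h := by positivity
  set w : E n → ℝ := fun x => max (φ x - u x) 0 with hw
  have mw : Measurable w := (mφ.sub mu).max measurable_const
  have w0 : ∀ x, 0 ≤ w x := fun x => le_max_right _ _
  have hC0 : 0 ≤ C := (abs_nonneg _).trans (hu 0)
  have wC : ∀ x, w x ≤ 2 * C := by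
    intro x
    refine max_le ?_ (by linarith)
    have h1 := (abs_le.1 (hu x)).1
    have h2 := (abs_le.1 (hφ x)).2
    linarith
  have intu : ∀ f : E n → ℝ, Measurable f → Integrable (fun x => u (up1 x k (f x))) ν := by
    intro f hf
    refine Integrable.of_bound (mu.comp (measurable_up1 k hf)).aestronglyMeasurable C
      (Eventually.of_forall fun x => ?_)
    rw [Real.norm_eq_abs]
    exact hu _
  have i1 := intu (fun x => |x k|) (by fun_prop)
  have i2 := intu (fun x => -|x k|) (by fun_prop)
  set g : ℕ → E n → ℝ := fun j => {x : E n | (j : ℝ) * h < 2 * |x k|}.indicator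
    (fun x => w (up1 x k ((j : ℝ) * h - |x k|))) with hg
  have ig : ∀ j, Integrable (g j) ν := by
    intro j
    have mS : MeasurableSet {x : E n | (j : ℝ) * h < 2 * |x k|} :=
      measurableSet_lt measurable_const (by fun_prop)
    refine Integrable.of_bound (((mw.comp (measurable_up1 k (by fun_prop))).indicator
      mS).aestronglyMeasurable) (2 * C) (Eventually.of_forall fun x => ?_)
    simp only [hg]
    by_cases hx : x ∈ {x : E n | (j : ℝ) * h < 2 * |x k|}
    · rw [indicator_of_mem hx, Real.norm_eq_abs, abs_of_nonneg (w0 _)]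
      exact wC _
    · rw [indicator_of_notMem hx, norm_zero]
      linarith
  have hgi : ∀ j, ∫ x, g j x ∂ν ≤ 2 * ∫ x, w x ∂ν := fun j =>
    oc_refl_real hunc hm1 k (by positivity) mw w0 wC
  rw [← integral_sub i1 i2]
  calc ∫ x, (u (up1 x k |x k|) - u (up1 x k (-|x k|))) ∂ν
      ≤ ∫ x, (∑ j ∈ Finset.range N, g j x + 1 / (4 * (N:ℝ))) ∂ν := by
        refine integral_mono_ae (i1.sub i2)
          ((integrable_finsetSum _ fun j _ => ig j).add (integrable_const _)) ?_
        filter_upwards [hae] with x hx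
        exact oc_chain k hτ hyp hN x hx
    _ = ∑ j ∈ Finset.range N, ∫ x, g j x ∂ν + 1 / (4 * (N:ℝ)) := by
        rw [integral_add (integrable_finsetSum _ fun j _ => ig j) (integrable_const _),
          integral_finsetSum _ fun j _ => ig j]
        simp
    _ ≤ ∑ j ∈ Finset.range N, (2 * ∫ x, w x ∂ν) + 1 / (4 * (N:ℝ)) :=
        add_le_add (Finset.sum_le_sum fun j _ => hgi j) le_rfl
    _ = 2 * N * ∫ x, w x ∂ν + 1 / (4 * (N:ℝ)) := by
        rw [Finset.sum_const, Finset.card_range, nsmul_eq_mul]
        ring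

/-- **the one coordinate lemma** -/
theorem oneCoord (n : ℕ) : OneCoord n := by
  intro ν hν hunc hm1 k τ hτ hae u φ mu mφ C hu hφ hyp
  set W := ∫ x, max (φ x - u x) 0 ∂ν with hW
  have W0 : 0 ≤ W := integral_nonneg fun x => le_max_right _ _
  have iu : Integrable u ν := Integrable.of_bound mu.aestronglyMeasurable C
    (Eventually.of_forall fun x => by rw [Real.norm_eq_abs]; exact hu x)
  have iφ : Integrable φ ν := Integrable.of_bound mφ.aestronglyMeasurable C
    (Eventually.of_forall fun x => by rw [Real.norm_eq_abs]; exact hφ x)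
  have hWe : W = ∫ x, φ x ∂ν - ∫ x, u x ∂ν := by
    rw [hW, ← integral_sub iφ iu]
    refine integral_congr_ae ?_
    filter_upwards [hae] with x hx
    have h1 := hyp x (x k) hx hx
    rw [up1_self, sub_self] at h1
    have h2 : u x ≤ φ x := by simpa using h1
    exact max_eq_left (by linarith)
  have hsplit := hunc.integral_split k mu hu
  set F1 := ∫ x, u (up1 x k |x k|) ∂ν with hF1
  set F2 := ∫ x, u (up1 x k (-|x k|)) ∂ν with hF2
  -- the flipped functions
  have mfl : Measurable fun x : E n => up1 x k (-x k) := measurable_up1 k (by fun_prop)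
  have hD : ∀ N : ℕ, 1 ≤ N → |F1 - F2| ≤ 2 * N * W + 1 / (4 * N) := by
    intro N hN
    have h1 := oc_diff hunc hm1 k hτ hae mu mφ hu hφ hyp hN
    have h2 := oc_diff hunc hm1 k hτ hae (u := fun x => u (up1 x k (-x k)))
      (φ := fun x => φ (up1 x k (-x k))) (mu.comp mfl) (mφ.comp mfl) (fun x => hu _)
      (fun x => hφ _) (by
        intro x t hx ht
        have h3 := hyp (up1 x k (-x k)) (-t) (by rw [up1_same, abs_neg]; exact hx)
          (by rw [abs_neg]; exact ht)
        rw [up1_same] at h3
        have e1 : up1 (up1 x k (-x k)) k (-t) = up1 (up1 x k t) k (-up1 x k t k) := by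
          ext i
          simp only [up1_apply]
          split_ifs <;> simp_all
        rw [e1] at h3
        have e2 : (-x k - -t) ^ 2 = (x k - t) ^ 2 := by ring
        rw [e2] at h3
        exact h3) hN
    have e1 : ∀ x : E n, up1 (up1 x k |x k|) k (-(up1 x k |x k|) k) = up1 x k (-|x k|) := by
      intro x
      rw [up1_same]
      ext i
      simp only [up1_apply]
      split_ifs <;> rfl
    have e2 : ∀ x : E n, up1 (up1 x k (-|x k|)) k (-(up1 x k (-|x k|)) k) = up1 x k |x k| := by
      intro x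
      rw [up1_same, neg_neg]
      ext i
      simp only [up1_apply]
      split_ifs <;> rfl
    simp only [e1, e2] at h2
    have e3 : ∫ x, max (φ (up1 x k (-x k)) - u (up1 x k (-x k))) 0 ∂ν = W :=
      hunc.integral_up1 k (g := fun x => max (φ x - u x) 0) ((mφ.sub mu).max measurable_const)
    rw [e3] at h2
    rw [abs_le]
    constructor
    · linarith
    · exact h1
  have hc := oc_scalar W0 hD
  have e4 : F1 = (F1 + F2) / 2 + (F1 - F2) / 2 := by ring
  have e5 : F2 = (F1 + F2) / 2 + (-((F1 - F2) / 2)) := by ring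
  have e6 : (Real.exp F1 + Real.exp F2) / 2 =
      Real.exp ((F1 + F2) / 2) * Real.cosh ((F1 - F2) / 2) := by
    rw [Real.cosh_eq]
    conv_lhs => rw [e4, e5]
    have e7 : (F1 + F2) / 2 = (F1 + F2) / 2 := rfl
    rw [show Real.exp ((F1 + F2) / 2) * ((Real.exp ((F1 - F2) / 2) +
      Real.exp (-((F1 - F2) / 2))) / 2) = (Real.exp ((F1 + F2) / 2) * Real.exp ((F1 - F2) / 2) +
      Real.exp ((F1 + F2) / 2) * Real.exp (-((F1 - F2) / 2))) / 2 by ring,
      ← Real.exp_add, ← Real.exp_add]
    (congr 3; ring)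
  rw [e6]
  calc Real.exp ((F1 + F2) / 2) * Real.cosh ((F1 - F2) / 2)
      ≤ Real.exp ((F1 + F2) / 2) * Real.exp W :=
        mul_le_mul_of_nonneg_left hc (Real.exp_pos _).le
    _ = Real.exp (∫ x, φ x ∂ν) := by
        rw [← Real.exp_add]
        congr 1
        linarith

end Pool.CIP
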