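import Pool.Agent.CIP.VY

/-! # growth of small sets and the pair inequality for good measures, II -/

set_option autoImplicit false

open MeasureTheory Pointwise Set Filter Topology
open scoped ENNReal

namespace Pool.CIP

variable {n : ℕ} {μ : Measure (E n)}

/-- growth of small sets on an orthant -/
lemma growth_orthant (hoc : OneCoord n) [IsProbabilityMeasure μ] (hG : Good μ) {Lam : ℝ}
    (hLam : 100 * (1 + Real.log (n + 1)) ≤ Lam) {p C : ℝ} (hp : 2 ≤ p)
    (hC : 194400 * Real.exp 5 * Lam ≤ C)
    {σ : Fin n → ℝ} (hσ : ∀ i, σ i = 1 ∨ σ i = -1) {A : Set (E n)} (hA : IsCompact A)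
    (hf : md μ n σ (A + G μ p C) ≤ 1 / 2) :
    Real.exp (p + 1) * md μ n σ A ≤ md μ n σ (A + G μ p C) := by
  have hunc := hG.unc
  have hlc := hG.lc
  have hsym := hunc.symm
  have hlog : 0 ≤ Real.log (n + 1) := Real.log_nonneg (by
    have : (0:ℝ) ≤ n := Nat.cast_nonneg n
    linarith)
  have hLam1 : 1 ≤ Lam := by linarith
  set F := A + G μ p C with hFd
  have hFc : IsCompact F := hA.add (isCompact_G _ _)
  set α := md μ n σ A with hα
  set f := md μ n σ F with hfd
  have hα0 : 0 ≤ α := md_nonneg _ _ _
  obtain ⟨e4, e2, e3, e5⟩ := exp_facts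
  rcases hα0.eq_or_lt with h0 | h0
  · rw [← h0, mul_zero]; exact md_nonneg _ _ _
  rcases le_or_gt (Real.exp (-(6 * p))) α with h1 | h1
  · exfalso
    have h2 := far_compl hoc hG hLam hp hC le_rfl hσ hA h1
    have h3 : md μ n σ Fᶜ = 1 - f := by
      rw [hfd]
      unfold md
      rw [preimage_compl, probReal_compl_eq_one_sub (measurable_pre n σ hFc.measurableSet)]
    rw [← hFd, h3] at h2
    have h4 : Real.exp (-(6 * p)) ≤ Real.exp (-4) := Real.exp_le_exp.2 (by linarith)
    have h5 : Real.exp (-4) ≤ 1 / 10 := by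
      rw [Real.exp_neg, ← one_div]
      exact one_div_le_one_div_of_le (by norm_num) e4
    linarith
  · set w := -Real.log α with hw
    have hew : Real.exp (-w) = α := by rw [hw, neg_neg, Real.exp_log h0]
    have hw6 : 6 * p < w := by
      have : -(6 * p) > Real.log α := by
        rw [← Real.log_exp (-(6 * p))]
        exact Real.log_lt_log h0 h1
      rw [hw]; linarith
    have hw0 : 0 < w := by linarith
    set s := 3 * p / w with hs
    have hs0 : 0 < s := by rw [hs]; positivity
    have hs2 : s ≤ 1 / 2 := by rw [hs, div_le_iff₀ hw0]; linarith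
    have hsw : s * w = 3 * p := by rw [hs]; field_simp
    have hhalf := half_le_box' hsym hlc hLam
    set M := Mb μ (box μ Lam) (w + 2) with hM
    have hMinv : ∀ τ : Fin n → ℝ, (∀ i, τ i = 1 ∨ τ i = -1) → ∀ x ∈ M, flp τ x ∈ M :=
      fun τ hτ x hx => hunc.flp_mem_Mb hτ hx
    have hMc : IsCompact M := Mb_compact μ (isCompact_box Lam) _
    have hexp2 : Real.exp (-(w + 2)) ≤ α / 2 := by
      rw [neg_add, Real.exp_add, Real.exp_neg 2, ← div_eq_mul_inv, hew]
      exact div_le_div_of_nonneg_left hα0 (by norm_num) e2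
    have hMμ : μ.real Mᶜ ≤ Real.exp (-(w + 2)) := by
      refine Mb_large hsym hlc (isCompact_box Lam) (convex_box Lam) (by linarith) ?_
      refine le_trans ?_ hhalf
      have h1 : Real.exp (-(w + 2)) ≤ Real.exp (-4) := Real.exp_le_exp.2 (by linarith)
      have h2 : Real.exp (-4) ≤ 1 / 10 := by
        rw [Real.exp_neg, ← one_div]
        exact one_div_le_one_div_of_le (by norm_num) e4
      linarith
    have hα1 : α ≤ 1 := md_le_one _ _ _
    have a1 : α / 2 ≤ md μ n σ (A ∩ M) := by
      have := md_inter_ge (μ := μ) hMinv (k := n) hσ A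
      linarith
    have a2 : 1 / 2 ≤ md μ n σ M := by
      rw [md_inv hMinv hσ]
      have h3 : μ.real Mᶜ = 1 - μ.real M := probReal_compl_eq_one_sub hMc.measurableSet
      linarith
    -- the three function inequality
    set a : E n → ℝ≥0∞ := (flp σ ⁻¹' (A ∩ M)).indicator fun _ => 1 with ha
    set b : E n → ℝ≥0∞ := (flp σ ⁻¹' M).indicator fun _ => 1 with hb
    set h : E n → ℝ≥0∞ := fun x => (flp σ ⁻¹' F).indicator (fun _ => 1) x +
      ENNReal.ofReal (Real.exp (-w)) with hh
    have mA : MeasurableSet (flp σ ⁻¹' (A ∩ M)) :=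
      measurable_flp σ (hA.measurableSet.inter hMc.measurableSet)
    have mM : MeasurableSet (flp σ ⁻¹' M) := measurable_flp σ hMc.measurableSet
    have mF : MeasurableSet (flp σ ⁻¹' F) := measurable_flp σ hFc.measurableSet
    have key := hG.t1 s hs0 (by linarith) a b h (measurable_const.indicator mA)
      (measurable_const.indicator mM) ((measurable_const.indicator mF).add measurable_const) (by
        intro x y hx hy
        by_cases hxA : x ∈ flp σ ⁻¹' (A ∩ M)
        · by_cases hyM : y ∈ flp σ ⁻¹' M
          · rw [ha, hb, indicator_of_mem hxA, indicator_of_mem hyM, ENNReal.one_rpow,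
              ENNReal.one_rpow, mul_one]
            have hex1 : (1:ℝ≥0∞) ≤ ENNReal.ofReal (Real.exp (s * (1 - s) / 8 * rds x y)) := by
              rw [← ENNReal.ofReal_one]
              refine ENNReal.ofReal_le_ofReal (Real.one_le_exp ?_)
              have : 0 ≤ rds x y := Finset.sum_nonneg fun _ _ => sq_nonneg _
              have : 0 ≤ s * (1 - s) / 8 := by
                have : 0 ≤ 1 - s := by linarith
                positivity
              positivity
            by_cases hmF : mn s x y ∈ flp σ ⁻¹' F
            · have h3 : (1:ℝ≥0∞) ≤ h (mn s x y) := by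
                simp only [hh]
                rw [indicator_of_mem hmF]
                exact le_self_add
              calc (1:ℝ≥0∞) = 1 * 1 := (one_mul 1).symm
                _ ≤ _ := mul_le_mul' hex1 h3
            · have hr : 16 * w / s < rds x y := by
                by_contra hcon
                refine hmF ?_
                have hxM : x ∈ M := by
                  have := hMinv σ hσ _ hxA.2
                  rwa [flp_flp hσ] at this
                have hyM' : y ∈ M := by
                  have := hMinv σ hσ _ hyM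
                  rwa [flp_flp hσ] at this
                have h4 := mn_near hunc hlc hLam1 hp hw6 hs hx hy hxM hyM' (not_lt.1 hcon)
                have h5 : mn s x y - x ∈ G μ p C := by
                  refine G_mono ?_ h4
                  refine le_trans ?_ hC
                  have e35 : Real.exp 3 ≤ Real.exp 5 := Real.exp_le_exp.2 (by norm_num)
                  have : 0 ≤ Real.exp 3 := (Real.exp_pos 3).le
                  nlinarith
                have h6 := hunc.mem_G hσ h5
                refine ⟨flp σ x, hxA.1, flp σ (mn s x y - x), h6, ?_⟩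
                ext i
                have : (flp σ x + flp σ (mn s x y - x)) i =
                  σ i * x i + σ i * (mn s x y i - x i) := rfl
                simp only at this ⊢
                rw [this, flp_apply]
                ring
              have h3 : ENNReal.ofReal (Real.exp (-w)) ≤ h (mn s x y) := by
                simp only [hh]
                exact le_add_self
              have h4 : (1:ℝ≥0∞) ≤ ENNReal.ofReal (Real.exp (s * (1 - s) / 8 * rds x y)) *
                  ENNReal.ofReal (Real.exp (-w)) := by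
                rw [← ENNReal.ofReal_mul (Real.exp_pos _).le, ← Real.exp_add,
                  ← ENNReal.ofReal_one]
                refine ENNReal.ofReal_le_ofReal (Real.one_le_exp ?_)
                rw [div_lt_iff₀ hs0] at hr
                have h5 : 0 ≤ rds x y := Finset.sum_nonneg fun _ _ => sq_nonneg _
                have h6 : rds x y * s * (1 / 2) ≤ rds x y * s * (1 - s) :=
                  mul_le_mul_of_nonneg_left (by linarith) (mul_nonneg h5 hs0.le)
                have h7 : s * (1 - s) / 8 * rds x y = rds x y * s * (1 - s) / 8 := by ring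
                rw [h7]
                linarith
              exact h4.trans (mul_le_mul' le_rfl h3)
          · rw [hb, indicator_of_notMem hyM, ENNReal.zero_rpow_of_pos hs0, mul_zero]
            exact bot_le
        · rw [ha, indicator_of_notMem hxA, ENNReal.zero_rpow_of_pos (by linarith), zero_mul]
          exact bot_le)
    have e1 : ∀ D : Set (E n), MeasurableSet D →
        ∫⁻ x, (flp σ ⁻¹' D).indicator (fun _ => (1:ℝ≥0∞)) (ab x) ∂μ =
          ENNReal.ofReal (md μ n σ D) := by
      intro D hD
      have h2 : (fun x => (flp σ ⁻¹' D).indicator (fun _ => (1:ℝ≥0∞)) (ab x)) =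
          (pre n σ ⁻¹' D).indicator (fun _ => (1:ℝ≥0∞)) := by
        funext x
        by_cases hx : x ∈ pre n σ ⁻¹' D
        · have hx' : ab x ∈ flp σ ⁻¹' D := by
            rw [mem_preimage, ← pre_n]; exact hx
          rw [indicator_of_mem hx, indicator_of_mem hx']
        · have hx' : ab x ∉ flp σ ⁻¹' D := by
            rw [mem_preimage, ← pre_n]; exact hx
          rw [indicator_of_notMem hx, indicator_of_notMem hx']
      rw [h2, lintegral_indicator_const (measurable_pre n σ hD), one_mul]
      unfold md
      rw [Measure.real, ENNReal.ofReal_toReal (measure_ne_top μ _)]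
    have e2' : ∫⁻ x, h (ab x) ∂μ = ENNReal.ofReal (f + α) := by
      simp only [hh]
      rw [lintegral_add_right _ measurable_const, e1 F hFc.measurableSet, lintegral_const,
        measure_univ, mul_one, hew, ← ENNReal.ofReal_add (md_nonneg _ _ _) hα0]
    rw [ha, hb, e1 _ (hA.measurableSet.inter hMc.measurableSet), e1 _ hMc.measurableSet, e2'] at key
    rw [ENNReal.ofReal_rpow_of_nonneg (md_nonneg _ _ _) (by linarith),
      ENNReal.ofReal_rpow_of_nonneg (md_nonneg _ _ _) hs0.le,
      ← ENNReal.ofReal_mul (Real.rpow_nonneg (md_nonneg _ _ _) _)] at key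
    have hf0 : 0 ≤ f := md_nonneg _ _ _
    have key2 := (ENNReal.ofReal_le_ofReal_iff (add_nonneg hf0 hα0)).1 key
    have k1 : (α / 2) ^ (1 - s) ≤ md μ n σ (A ∩ M) ^ (1 - s) :=
      Real.rpow_le_rpow (by positivity) a1 (by linarith)
    have k2 : (1 / 2 : ℝ) ^ s ≤ md μ n σ M ^ s := Real.rpow_le_rpow (by norm_num) a2 hs0.le
    have k3 : (α / 2) ^ (1 - s) * (1 / 2 : ℝ) ^ s ≤ f + α :=
      (mul_le_mul k1 k2 (by positivity) (Real.rpow_nonneg (md_nonneg _ _ _) _)).trans key2
    have k4 : (α / 2) ^ (1 - s) * (1 / 2 : ℝ) ^ s = α * Real.exp (3 * p) / 2 := by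
      have h2 : α / 2 = α * (1 / 2) := by ring
      rw [h2, Real.mul_rpow hα0 (by norm_num), mul_assoc, ← Real.rpow_add (by norm_num : (0:ℝ) < 1/2)]
      have h3 : 1 - s + s = 1 := by ring
      rw [h3, Real.rpow_one]
      have h4 : α ^ (1 - s) = α * Real.exp (3 * p) := by
        rw [Real.rpow_def_of_pos h0]
        have h5 : Real.log α * (1 - s) = Real.log α + s * w := by rw [hw]; ring
        rw [h5, Real.exp_add, Real.exp_log h0, hsw]
      rw [h4]
      ring
    rw [k4] at k3
    -- numbers
    have n1 : Real.exp (3 * p) = Real.exp (p + 1) * Real.exp (2 * p - 1) := by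
      rw [← Real.exp_add]; congr 1; ring
    have n2 : (8:ℝ) ≤ Real.exp (2 * p - 1) := e3.trans (Real.exp_le_exp.2 (by linarith))
    have n3 : (8:ℝ) ≤ Real.exp (p + 1) := e3.trans (Real.exp_le_exp.2 (by linarith))
    have n4 : Real.exp (p + 1) * 8 ≤ Real.exp (3 * p) := by
      rw [n1]
      exact mul_le_mul_of_nonneg_left n2 (Real.exp_pos _).le
    nlinarith

/-- **growth of small sets** given the signs of the first `k` coordinates -/
lemma growth_prefix (hoc : OneCoord n) [IsProbabilityMeasure μ] (hG : Good μ) {Lam : ℝ}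
    (hLam : 100 * (1 + Real.log (n + 1)) ≤ Lam) {p C : ℝ} (hp : 2 ≤ p)
    (hC : 194400 * Real.exp 5 * Lam ≤ C) {A : Set (E n)} (hA : IsCompact A) :
    ∀ m k : ℕ, k + m = n → ∀ σ : Fin n → ℝ, (∀ i, σ i = 1 ∨ σ i = -1) →
      md μ k σ (A + G μ p C) ≤ 1 / 2 →
      Real.exp (p + 1) * md μ k σ A ≤ md μ k σ (A + G μ p C) := by
  obtain ⟨e4, e2, e3, e5⟩ := exp_facts
  have hFc : IsCompact (A + G μ p C) := hA.add (isCompact_G _ _)
  intro m
  induction m with
  | zero =>
    intro k hk σ hσ hf
    have hkn : k = n := by omega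
    subst hkn
    exact growth_orthant hoc hG hLam hp hC hσ hA hf
  | succ m ih =>
    intro k hk σ hσ hf
    have hkn : k < n := by omega
    set κ : Fin n := ⟨k, hkn⟩ with hκ
    have hκv : (κ : ℕ) = k := rfl
    rcases le_or_gt (1 / 4 : ℝ) (md μ k σ (A + G μ p C)) with h1 | h1
    · -- the middle range
      have h2 : md μ k σ A < Real.exp (-(6 * p)) := by
        by_contra hcon
        have h3 := far_compl hoc hG hLam hp hC hkn.le hσ hA (not_lt.1 hcon)
        have h4 : md μ k σ (A + G μ p C)ᶜ = 1 - md μ k σ (A + G μ p C) := by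
          unfold md
          rw [preimage_compl, probReal_compl_eq_one_sub (measurable_pre k σ hFc.measurableSet)]
        rw [h4] at h3
        have h5 : Real.exp (-(6 * p)) ≤ Real.exp (-4) := Real.exp_le_exp.2 (by linarith)
        have h6 : Real.exp (-4) ≤ 1 / 10 := by
          rw [Real.exp_neg, ← one_div]
          exact one_div_le_one_div_of_le (by norm_num) e4
        linarith
      have h3 : Real.exp (p + 1) * md μ k σ A ≤ Real.exp (p + 1) * Real.exp (-(6 * p)) :=
        mul_le_mul_of_nonneg_left h2.le (Real.exp_pos _).le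
      have h4 : Real.exp (p + 1) * Real.exp (-(6 * p)) ≤ Real.exp (-4) := by
        rw [← Real.exp_add]
        exact Real.exp_le_exp.2 (by linarith)
      have h6 : Real.exp (-4) ≤ 1 / 10 := by
        rw [Real.exp_neg, ← one_div]
        exact one_div_le_one_div_of_le (by norm_num) e4
      linarith
    · have a1 := hG.unc.md_avg κ σ hA.measurableSet
      have a2 := hG.unc.md_avg κ σ hFc.measurableSet
      rw [hκv] at a1 a2
      have f1 := md_nonneg (μ := μ) (k + 1) (sg1 σ κ 1) (A + G μ p C)
      have f2 := md_nonneg (μ := μ) (k + 1) (sg1 σ κ (-1)) (A + G μ p C)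
      have i1 := ih (k + 1) (by omega) (sg1 σ κ 1) (sg1_sign hσ κ (Or.inl rfl)) (by linarith)
      have i2 := ih (k + 1) (by omega) (sg1 σ κ (-1)) (sg1_sign hσ κ (Or.inr rfl)) (by linarith)
      have a3 : 2 * (Real.exp (p + 1) * md μ k σ A) =
          Real.exp (p + 1) * md μ (k + 1) (sg1 σ κ 1) A +
          Real.exp (p + 1) * md μ (k + 1) (sg1 σ κ (-1)) A := by
        rw [← mul_add, ← a1]; ring
      linarith

/-- **the pair inequality for good measures** -/
theorem main_good' (hoc : OneCoord n) [IsProbabilityMeasure μ] (hG : Good μ) {p C : ℝ}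
    (hp : 2 ≤ p) (hC : 6000000000 * Real.log (n + 2) ≤ C) {A B : Set (E n)} (hA : IsCompact A)
    (hB : IsCompact B) (hAB : ∀ x ∈ A, ∀ y ∈ B, x - y ∉ G μ p C) :
    2 * Real.exp p * μ.real A * μ.real B ≤ (1 - μ.real A) * (1 - μ.real B) := by
  obtain ⟨e4, e2, e3, e5⟩ := exp_facts
  set Lam := 100 * (1 + Real.log (n + 1)) with hLam
  have hn0 : (0:ℝ) ≤ n := Nat.cast_nonneg n
  have hlog1 : Real.log (n + 1) ≤ Real.log (n + 2) := Real.log_le_log (by linarith) (by linarith)
  have hlog2 : 1 + Real.log (n + 1) ≤ 2 * Real.log (n + 2) := by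
    rcases Nat.eq_zero_or_pos n with h | h
    · subst h
      have := Real.log_two_gt_d9
      norm_num
      linarith
    · have hn1 : (1:ℝ) ≤ n := by exact_mod_cast h
      have h3 : 1 ≤ Real.log (n + 2) := by
        rw [Real.le_log_iff_exp_le (by linarith)]
        have := Real.exp_one_lt_d9
        linarith
      linarith
  have hlog0 : 0 ≤ Real.log (n + 1) := Real.log_nonneg (by linarith)
  have hLam0 : 0 ≤ Lam := by rw [hLam]; linarith
  have hCC : 194400 * Real.exp 5 * Lam ≤ C := by
    have h5 : Real.exp 5 ≤ 148.5 := by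
      have h1 : Real.exp 5 = Real.exp 1 ^ 5 := by rw [← Real.exp_nat_mul]; norm_num
      rw [h1]
      have h2 : Real.exp 1 ≤ 2.7182818286 := Real.exp_one_lt_d9.le
      calc Real.exp 1 ^ 5 ≤ (2.7182818286:ℝ) ^ 5 := pow_le_pow_left₀ (Real.exp_pos 1).le h2 5
        _ ≤ 148.5 := by norm_num
    calc 194400 * Real.exp 5 * Lam ≤ 194400 * 148.5 * Lam :=
          mul_le_mul_of_nonneg_right (mul_le_mul_of_nonneg_left h5 (by norm_num)) hLam0
      _ ≤ 6000000000 * Real.log (n + 2) := by rw [hLam]; linarith
      _ ≤ C := hC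
  have hC0 : 0 ≤ C := le_trans (by positivity) hCC
  have hσ : ∀ i : Fin n, (fun _ => (1:ℝ)) i = 1 ∨ (fun _ => (1:ℝ)) i = -1 := fun _ => Or.inl rfl
  set a := μ.real A with ha
  set b := μ.real B with hb
  have ha0 : 0 ≤ a := measureReal_nonneg
  have hb0 : 0 ≤ b := measureReal_nonneg
  have hsubset : ∀ D : Set (E n), D ⊆ D + G μ p C := fun D x hx => ⟨x, hx, 0, zero_mem_G hC0, by simp⟩
  -- disjointness
  have hd1 : μ.real (A + G μ p C) ≤ 1 - b := by
    have h1 : A + G μ p C ⊆ Bᶜ := by
      rintro _ ⟨x, hx, g, hg, rfl⟩ hxB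
      refine hAB x hx _ hxB ?_
      have : x - (x + g) = -g := by abel
      simp only at this ⊢
      rw [this]
      exact neg_mem_G hg
    refine (measureReal_mono h1 (measure_ne_top μ _)).trans ?_
    rw [probReal_compl_eq_one_sub hB.measurableSet]
  have hd2 : μ.real (B + G μ p C) ≤ 1 - a := by
    have h1 : B + G μ p C ⊆ Aᶜ := by
      rintro _ ⟨y, hy, g, hg, rfl⟩ hyA
      refine hAB _ hyA y hy ?_
      have : y + g - y = g := by abel
      simp only at this ⊢
      rw [this]
      exact hg
    refine (measureReal_mono h1 (measure_ne_top μ _)).trans ?_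
    rw [probReal_compl_eq_one_sub hA.measurableSet]
  have hab1 : a ≤ 1 - b := (measureReal_mono (hsubset A) (measure_ne_top μ _)).trans hd1
  have hexp1 : Real.exp (p + 1) = Real.exp p * Real.exp 1 := Real.exp_add _ _
  have he1 : 2 ≤ Real.exp 1 := by linarith [Real.exp_one_gt_d9]
  have hep : 0 < Real.exp p := Real.exp_pos p
  rcases le_or_gt (μ.real (A + G μ p C)) (1 / 2) with h1 | h1
  · have h2 := growth_prefix hoc hG le_rfl hp hCC hA n 0 (by omega) (fun _ => 1) hσ
      (by rw [md_zero]; exact h1)
    rw [md_zero, md_zero, ← ha] at h2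
    have h3 : Real.exp (p + 1) * a ≤ 1 - b := h2.trans hd1
    have h4 : 2 * Real.exp p * a ≤ 1 - b := by
      refine le_trans ?_ h3
      rw [hexp1]
      have : 2 * Real.exp p * a = Real.exp p * a * 2 := by ring
      rw [this]
      have : Real.exp p * Real.exp 1 * a = Real.exp p * a * Real.exp 1 := by ring
      rw [this]
      exact mul_le_mul_of_nonneg_left he1 (by positivity)
    calc 2 * Real.exp p * a * b ≤ (1 - b) * (1 - a) :=
          mul_le_mul h4 (by linarith) hb0 (by linarith)
      _ = (1 - a) * (1 - b) := mul_comm _ _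
  rcases le_or_gt (μ.real (B + G μ p C)) (1 / 2) with h1' | h1'
  · have h2 := growth_prefix hoc hG le_rfl hp hCC hB n 0 (by omega) (fun _ => 1) hσ
      (by rw [md_zero]; exact h1')
    rw [md_zero, md_zero, ← hb] at h2
    have h3 : Real.exp (p + 1) * b ≤ 1 - a := h2.trans hd2
    have h4 : 2 * Real.exp p * b ≤ 1 - a := by
      refine le_trans ?_ h3
      rw [hexp1]
      have : 2 * Real.exp p * b = Real.exp p * b * 2 := by ring
      rw [this]
      have : Real.exp p * Real.exp 1 * b = Real.exp p * b * Real.exp 1 := by ring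
      rw [this]
      exact mul_le_mul_of_nonneg_left he1 (by positivity)
    calc 2 * Real.exp p * a * b = (2 * Real.exp p * b) * a := by ring
      _ ≤ (1 - a) * (1 - b) := mul_le_mul h4 hab1 ha0 (by linarith)
  · -- both are large
    have h2 : 1 / 2 ≤ 1 - b := by linarith
    have h3 : 1 / 2 ≤ 1 - a := by linarith
    have h4 : a * b ≤ Real.exp (-(6 * p)) := by
      rcases lt_or_ge a (Real.exp (-(6 * p))) with h5 | h5
      · nlinarith
      · have h6 := far_compl hoc hG (Lam := Lam) le_rfl hp hCC (k := 0) (Nat.zero_le n) hσ hA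
          (by rw [md_zero]; exact h5)
        rw [md_zero] at h6
        have h7 : b ≤ μ.real (A + G μ p C)ᶜ := by
          refine measureReal_mono ?_ (measure_ne_top μ _)
          intro y hy hyA
          obtain ⟨x, hx, g, hg, hxy⟩ := hyA
          refine hAB x hx y hy ?_
          have : x - y = -g := by
            rw [← hxy]
            simp
          rw [this]
          exact neg_mem_G hg
        have h8 : b ≤ Real.exp (-(6 * p)) := h7.trans h6
        have h9 : a ≤ 1 := measureReal_le_one
        nlinarith
    have h5 : 2 * Real.exp p * a * b ≤ 2 * (Real.exp p * Real.exp (-(6 * p))) := by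
      have : 2 * Real.exp p * a * b = 2 * (Real.exp p * (a * b)) := by ring
      rw [this]
      exact mul_le_mul_of_nonneg_left (mul_le_mul_of_nonneg_left h4 hep.le) (by norm_num)
    have h6 : Real.exp p * Real.exp (-(6 * p)) ≤ Real.exp (-4) := by
      rw [← Real.exp_add]
      exact Real.exp_le_exp.2 (by linarith)
    have h7 : Real.exp (-4) ≤ 1 / 10 := by
      rw [Real.exp_neg, ← one_div]
      exact one_div_le_one_div_of_le (by norm_num) e4
    have h8 : (1/2:ℝ) * (1/2) ≤ (1 - a) * (1 - b) := mul_le_mul h3 h2 (by norm_num) (by linarith)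
    linarith

end Pool.CIP
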