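import Pool.Agent.CIP.VE
import Pool.Agent.CIP.VJ
import Pool.Agent.CIP.VO
import Pool.Agent.CIP.VZ

/-! # Even log-concave densities are good; the theorem for them -/

set_option autoImplicit false

open MeasureTheory Pointwise Set Filter Topology
open scoped ENNReal

namespace Pool.CIP

variable {n : ℕ} {f : E n → ℝ}

/-- Prekopa-Leindler on the line -/
lemma pl1_all : ∀ s : ℝ, 0 < s → s < 1 → PL1 s :=
  fun _ hs0 hs1 _ _ _ hf hg hh H => pl1 hs0 hs1 hf hg hh H

/-- V4 -/
theorem good_of_nice (hf : Nice f)
    [IsProbabilityMeasure ((volume : Measure (E n)).withDensity fun x => ENNReal.ofReal (f x))] :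
    Good ((volume : Measure (E n)).withDensity fun x => ENNReal.ofReal (f x)) where
  unc := uncond_of_nice hf
  lc := lc_of_nice hf
  t1 := t1p_of_nice pl1_all hf
  m1 := m1p_of_nice hf
  pos := ma_pos_of_nice hf

end Pool.CIP
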