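import Pool.Agent.CIP.FZ
import Pool.Agent.CIP.VF

/-! # The optimal concentration inequality for unconditional measures and all Borel sets -/

set_option autoImplicit false

open MeasureTheory Pointwise Set Filter Topology
open scoped ENNReal

namespace Pool.CIP

variable {n : ℕ} {μ : Measure (E n)}

/-- **main theorem**: unconditional log-concave measures, all Borel sets, all `p` -/
theorem main_unc_borel [IsProbabilityMeasure μ] (hunc : Uncond μ) (hlc : LC μ) {p C : ℝ}
    (hp : 2 ≤ p) (hC : 6000000000 * Real.log (n + 2) ≤ C) {A : Set (E n)} (hA : MeasurableSet A) :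
    2 * Real.exp p * μ.real A * (1 - μ.real (A + G μ p C)) ≤
      (1 - μ.real A) * μ.real (A + G μ p C) := by
  have hn0 : (0:ℝ) ≤ n := Nat.cast_nonneg n
  have hC0 : 0 ≤ C := (mul_nonneg (by norm_num) (Real.log_nonneg (by linarith))).trans hC
  refine borel_of_pair (fun A B hA hB hAB => ?_) hA
  exact pair_limit (fun f hf hprob => good_of_nice hf) (by linarith) hC0
    (fun μ' hμ' hG A B hA hB hAB => main_good' (oneCoord n) hG hp hC hA hB hAB) hunc hlc hA hB hAB

end Pool.CIP
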