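import Pool.Agent.CIP.U0
import Pool.Agent.CIP.EE

set_option autoImplicit false

open MeasureTheory Pointwise Set Filter Topology

namespace Pool.CIP

variable {n : ℕ} {μ : Measure (E n)}

/-- the mean of the absolute value of a coordinate -/
noncomputable def ma (μ : Measure (E n)) (i : Fin n) : ℝ := ∫ x, |x i| ∂μ

lemma ma_nonneg (i : Fin n) : 0 ≤ ma μ i := integral_nonneg fun _ => abs_nonneg _

/-- the box with half axes `Lam * ma` -/
def box (μ : Measure (E n)) (Lam : ℝ) : Set (E n) := {x | ∀ i, |x i| ≤ Lam * ma μ i}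

lemma isClosed_box (Lam : ℝ) : IsClosed (box μ Lam) := by
  have : box μ Lam = ⋂ i : Fin n, {x : E n | |x i| ≤ Lam * ma μ i} := by
    ext x; simp [box]
  rw [this]
  exact isClosed_iInter fun i => isClosed_le (by fun_prop) continuous_const

lemma isBounded_box (Lam : ℝ) : Bornology.IsBounded (box μ Lam) := by
  rw [isBounded_iff_forall_norm_le]
  refine ⟨∑ i : Fin n, |Lam * ma μ i|, fun x hx => ?_⟩
  have h1 : ‖x‖ ≤ ∑ i : Fin n, |x i| := by
    have h2 : x = ∑ i : Fin n, EuclideanSpace.single i (x i) := by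
      ext j
      simp [Finset.sum_apply, Pi.single_apply]
    calc ‖x‖ = ‖∑ i : Fin n, EuclideanSpace.single i (x i)‖ := by rw [← h2]
      _ ≤ ∑ i : Fin n, ‖EuclideanSpace.single i (x i)‖ := norm_sum_le _ _
      _ = ∑ i : Fin n, |x i| := by simp
  exact h1.trans (Finset.sum_le_sum fun i _ => (hx i).trans (le_abs_self _))

lemma isCompact_box (Lam : ℝ) : IsCompact (box μ Lam) :=
  Metric.isCompact_of_isClosed_isBounded (isClosed_box Lam) (isBounded_box Lam)

lemma convex_box (Lam : ℝ) : Convex ℝ (box μ Lam) := by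
  intro x hx y hy a b ha hb hab i
  have h1 : (a • x + b • y) i = a * x i + b * y i := rfl
  rw [h1]
  calc |a * x i + b * y i| ≤ |a * x i| + |b * y i| := abs_add_le _ _
    _ = a * |x i| + b * |y i| := by rw [abs_mul, abs_mul, abs_of_nonneg ha, abs_of_nonneg hb]
    _ ≤ a * (Lam * ma μ i) + b * (Lam * ma μ i) :=
        add_le_add (mul_le_mul_of_nonneg_left (hx i) ha) (mul_le_mul_of_nonneg_left (hy i) hb)
    _ = Lam * ma μ i := by rw [← add_mul, hab, one_mul]

lemma neg_mem_box {Lam : ℝ} {x : E n} (hx : x ∈ box μ Lam) : -x ∈ box μ Lam := by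
  intro i
  have : (-x) i = -(x i) := rfl
  rw [this, abs_neg]
  exact hx i

lemma flp_mem_box {Lam : ℝ} {σ : Fin n → ℝ} (hσ : ∀ i, σ i = 1 ∨ σ i = -1) {x : E n}
    (hx : x ∈ box μ Lam) : flp σ x ∈ box μ Lam := by
  intro i
  rw [flp_apply, abs_mul]
  rcases hσ i with h | h <;> rw [h] <;> simpa using hx i

/-- Markov's inequality with strict inequality, no extra summand -/
lemma markov_hm' [IsProbabilityMeasure μ] (hfin : ∀ q : ℝ, 0 < q → ∀ v : E n, mq μ q v < ⊤) {q : ℝ}
    (hq : 0 < q) (v : E n) :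
    μ.real {x | Real.exp 1 * hm μ q v < inner ℝ v x} ≤ Real.exp (-q) := by
  set t := Real.exp 1 * hm μ q v with ht
  have h1 : {x : E n | t < inner ℝ v x} = ⋃ k : ℕ, hs v (t + 1 / ((k:ℝ) + 1)) := by
    ext x
    simp only [mem_ofPred_eq, mem_iUnion, hs]
    constructor
    · intro h
      obtain ⟨k, hk⟩ := exists_nat_one_div_lt (sub_pos.2 h)
      exact ⟨k, by linarith⟩
    · rintro ⟨k, hk⟩
      have : (0:ℝ) < 1 / ((k:ℝ) + 1) := by positivity
      linarith
  have hmono : Monotone fun k : ℕ => hs v (t + 1 / ((k:ℝ) + 1)) := by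
    intro k l hkl x hx
    simp only [hs, mem_ofPred_eq] at hx ⊢
    have h2 : 1 / ((l:ℝ) + 1) ≤ 1 / ((k:ℝ) + 1) := by
      apply one_div_le_one_div_of_le (by positivity)
      have : (k:ℝ) ≤ l := by exact_mod_cast hkl
      linarith
    linarith
  have h3 : Tendsto (fun k : ℕ => μ.real (hs v (t + 1 / ((k:ℝ) + 1)))) atTop
      (𝓝 (μ.real (⋃ k : ℕ, hs v (t + 1 / ((k:ℝ) + 1))))) := by
    have := tendsto_measure_iUnion_atTop (μ := μ) hmono
    exact (ENNReal.tendsto_toReal (measure_ne_top μ _)).comp this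
  rw [h1]
  refine le_of_tendsto h3 (Eventually.of_forall fun k => ?_)
  exact markov_hm hfin hq v (by positivity)

lemma markov_abs [IsProbabilityMeasure μ] (hfin : ∀ q : ℝ, 0 < q → ∀ v : E n, mq μ q v < ⊤) {q : ℝ}
    (hq : 0 < q) (v : E n) :
    μ.real {x | Real.exp 1 * hm μ q v < |inner ℝ v x|} ≤ 2 * Real.exp (-q) := by
  have h1 : {x : E n | Real.exp 1 * hm μ q v < |inner ℝ v x|} ⊆
      {x | Real.exp 1 * hm μ q v < inner ℝ v x} ∪
      {x | Real.exp 1 * hm μ q (-v) < inner ℝ (-v) x} := by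
    intro x hx
    have h2 : hm μ q (-v) = hm μ q v := by
      unfold hm
      congr 1
      refine integral_congr_ae (Eventually.of_forall fun y => ?_)
      simp only [inner_neg_left, abs_neg]
    simp only [mem_ofPred_eq, mem_union] at hx ⊢
    rw [h2, inner_neg_left]
    exact lt_abs.1 hx
  refine (measureReal_mono h1 (measure_ne_top μ _)).trans ?_
  refine (measureReal_union_le _ _).trans ?_
  have h3 := markov_hm' hfin hq v
  have h4 := markov_hm' hfin hq (-v)
  linarith

lemma hm_one_single (i : Fin n) : hm μ 1 (EuclideanSpace.single i (1:ℝ)) = ma μ i := by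
  unfold hm ma
  rw [div_one, Real.rpow_one]
  refine integral_congr_ae (Eventually.of_forall fun y => ?_)
  simp only [Real.rpow_one]
  rw [EuclideanSpace.inner_single_left]
  simp

/-- the box has measure at least one half -/
theorem half_le_box [IsProbabilityMeasure μ] (hsym : μ.map (fun x => -x) = μ) (hlc : LC μ)
    {Lam : ℝ} (hLam : 2 * Real.exp 3 * (Real.log (4 * n) + 1) ≤ Lam) :
    1 / 2 ≤ μ.real (box μ Lam) := by
  rcases Nat.eq_zero_or_pos n with hn | hn
  · subst hn
    have h1 : box μ Lam = univ := by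
      ext x
      simp only [box, mem_ofPred_eq, mem_univ, iff_true]
      intro i
      exact i.elim0
    rw [h1, probReal_univ]
    norm_num
  have hn1 : (1:ℝ) ≤ n := by exact_mod_cast hn
  have hlog0 : 0 ≤ Real.log (4 * n) := Real.log_nonneg (by linarith)
  set q : ℝ := Real.log (4 * n) + 1 with hq
  have hq1 : 1 ≤ q := by linarith
  have hq0 : 0 < q := by linarith
  have hfin : ∀ q : ℝ, 0 < q → ∀ v : E n, mq μ q v < ⊤ := fun q hq v => mq_lt_top hsym hlc hq v
  have hexp : Real.exp (-q) = 1 / (4 * n * Real.exp 1) := by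
    rw [hq, neg_add, Real.exp_add, Real.exp_neg, Real.exp_log (by positivity), Real.exp_neg]
    field_simp
  have hsub : (box μ Lam)ᶜ ⊆ ⋃ i : Fin n,
      {x : E n | Real.exp 1 * hm μ q (EuclideanSpace.single i (1:ℝ)) <
        |inner ℝ (EuclideanSpace.single i (1:ℝ)) x|} := by
    intro x hx
    simp only [box, mem_compl_iff, mem_ofPred_eq, not_forall, not_le] at hx
    obtain ⟨i, hi⟩ := hx
    refine mem_iUnion.2 ⟨i, ?_⟩
    simp only [mem_ofPred_eq]
    have h1 := hm_compare hsym hlc le_rfl hq1 (EuclideanSpace.single i (1:ℝ))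
    rw [hm_one_single, div_one] at h1
    rw [EuclideanSpace.inner_single_left]
    simp only [map_one, one_mul]
    refine lt_of_le_of_lt ?_ hi
    have e3 : Real.exp 3 = Real.exp 1 * Real.exp 2 := by rw [← Real.exp_add]; norm_num
    calc Real.exp 1 * hm μ q (EuclideanSpace.single i (1:ℝ))
        ≤ Real.exp 1 * (2 * Real.exp 2 * q * ma μ i) :=
          mul_le_mul_of_nonneg_left h1 (Real.exp_pos 1).le
      _ = 2 * Real.exp 3 * q * ma μ i := by rw [e3]; ring
      _ ≤ Lam * ma μ i := mul_le_mul_of_nonneg_right hLam (ma_nonneg i)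
  have h2 : μ.real (box μ Lam)ᶜ ≤ ∑ _i : Fin n, 2 * Real.exp (-q) := by
    refine (measureReal_mono hsub (measure_ne_top μ _)).trans ?_
    refine (measureReal_iUnion_fintype_le _).trans ?_
    exact Finset.sum_le_sum fun i _ => markov_abs hfin hq0 _
  rw [Finset.sum_const, Finset.card_univ, Fintype.card_fin, nsmul_eq_mul, hexp] at h2
  have h3 : (n:ℝ) * (2 * (1 / (4 * n * Real.exp 1))) ≤ 1 / 2 := by
    have he : 1 ≤ Real.exp 1 := Real.one_le_exp (by norm_num)
    have : (n:ℝ) * (2 * (1 / (4 * n * Real.exp 1))) = 1 / 2 * (1 / Real.exp 1) := by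
      field_simp
      ring
    rw [this]
    have : 1 / Real.exp 1 ≤ 1 := by rw [div_le_one (Real.exp_pos 1)]; exact he
    linarith
  have h4 : μ.real (box μ Lam)ᶜ = 1 - μ.real (box μ Lam) :=
    probReal_compl_eq_one_sub (isClosed_box Lam).measurableSet
  linarith

/-- clean form of the condition on the size of the box -/
theorem half_le_box' [IsProbabilityMeasure μ] (hsym : μ.map (fun x => -x) = μ) (hlc : LC μ)
    {Lam : ℝ} (hLam : 100 * (1 + Real.log (n + 1)) ≤ Lam) :
    1 / 2 ≤ μ.real (box μ Lam) := by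
  refine half_le_box hsym hlc (le_trans ?_ hLam)
  have e1 : Real.exp 1 ≤ 2.7182818286 := Real.exp_one_lt_d9.le
  have e3 : Real.exp 3 ≤ 20.1 := by
    have : Real.exp 3 = Real.exp 1 ^ 3 := by rw [← Real.exp_nat_mul]; norm_num
    rw [this]
    calc Real.exp 1 ^ 3 ≤ (2.7182818286:ℝ) ^ 3 :=
          pow_le_pow_left₀ (Real.exp_pos 1).le e1 3
      _ ≤ 20.1 := by norm_num
  have hl : 0 ≤ Real.log (n + 1) := Real.log_nonneg (by
    have : (0:ℝ) ≤ n := Nat.cast_nonneg n
    linarith)
  have h4 : Real.log (4 * n) ≤ 1.39 + Real.log (n + 1) := by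
    rcases Nat.eq_zero_or_pos n with hn | hn
    · subst hn
      simp
      norm_num
    have hn1 : (1:ℝ) ≤ n := by exact_mod_cast hn
    rw [Real.log_mul (by norm_num) (by linarith)]
    have h5 : Real.log (n:ℝ) ≤ Real.log (n + 1) := Real.log_le_log (by linarith) (by linarith)
    have h6 : Real.log 4 ≤ 1.39 := by
      have : (4:ℝ) = 2 ^ (2:ℕ) := by norm_num
      rw [this, Real.log_pow]
      have := Real.log_two_lt_d9
      push_cast
      linarith
    linarith
  calc 2 * Real.exp 3 * (Real.log (4 * n) + 1) ≤ 2 * Real.exp 3 * (2.39 * (1 + Real.log (n + 1))) := by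
        apply mul_le_mul_of_nonneg_left _ (by positivity)
        linarith
    _ = (2 * Real.exp 3 * 2.39) * (1 + Real.log (n + 1)) := by ring
    _ ≤ 100 * (1 + Real.log (n + 1)) := by
        apply mul_le_mul_of_nonneg_right _ (by linarith)
        linarith

end Pool.CIP
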