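import Pool.Agent.CIP.VB
import Pool.Agent.CIP.EE
import Pool.Agent.CIP.UC

/-! # The box lemma: the measure of the box of the `log (2 + n / p)`-fold means is at least `exp (-p)` -/

set_option autoImplicit false

open MeasureTheory Pointwise Set Filter Topology
open scoped ENNReal

namespace Pool.CIP

variable {n : ℕ} {μ : Measure (E n)}

/-- the weight function -/
noncomputable def wr (η r : ℝ) : ℝ := if r ≤ 1 then 1 else η / 2 ^ ⌊r⌋₊

lemma measurable_wr (η : ℝ) : Measurable (wr η) := by
  unfold wr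
  refine Measurable.ite measurableSet_Iic measurable_const ?_
  have h1 : Measurable fun k : ℕ => η / (2:ℝ) ^ k := measurable_from_top
  exact h1.comp Nat.measurable_floor

/-- one positive piece -/
lemma piece_le (hm1 : M1p μ) (k : Fin n) {b : ℝ} (hb : 0 < b) {g : E n → ℝ≥0∞} (hg : Measurable g)
    (hgi : ∀ x t, g (up1 x k t) = g x) {j : ℕ} (hj : 1 ≤ j) :
    ∫⁻ x in {x : E n | b < x k ∧ j * b ≤ x k ∧ x k < (j + 1) * b}, g x ∂μ ≤
      ∫⁻ x in {x : E n | 0 < x k ∧ x k ≤ b}, g x ∂μ := by
  have hj1 : (1:ℝ) ≤ j := by exact_mod_cast hj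
  have hmc : Measurable fun x : E n => x k := by fun_prop
  have hS1 : MeasurableSet {x : E n | b < x k ∧ j * b ≤ x k ∧ x k < (j + 1) * b} :=
    (measurableSet_lt measurable_const hmc).inter
      ((measurableSet_le measurable_const hmc).inter (measurableSet_lt hmc measurable_const))
  have hS2 : MeasurableSet {x : E n | 0 < x k ∧ x k ≤ b} :=
    (measurableSet_lt measurable_const hmc).inter (measurableSet_le hmc measurable_const)
  have ha : 0 ≤ ((j:ℝ) + 1) * b := by positivity
  have hS3 : MeasurableSet {x : E n | ((j:ℝ) + 1) * b / 2 < x k} := measurableSet_lt measurable_const hmc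
  have h1 := hm1 k (((j:ℝ) + 1) * b) ha ({x : E n | 0 < x k ∧ x k ≤ b}.indicator g) (hg.indicator hS2)
  calc ∫⁻ x in {x : E n | b < x k ∧ j * b ≤ x k ∧ x k < (j + 1) * b}, g x ∂μ
      = ∫⁻ x, {x : E n | b < x k ∧ j * b ≤ x k ∧ x k < (j + 1) * b}.indicator g x ∂μ :=
        (lintegral_indicator hS1 _).symm
    _ ≤ ∫⁻ x, {x : E n | ((j:ℝ) + 1) * b / 2 < x k}.indicator
          (fun x => {x : E n | 0 < x k ∧ x k ≤ b}.indicator g (up1 x k (((j:ℝ) + 1) * b - x k))) x ∂μ := by
        refine lintegral_mono fun x => ?_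
        by_cases hx : x ∈ {x : E n | b < x k ∧ j * b ≤ x k ∧ x k < (j + 1) * b}
        · rw [indicator_of_mem hx]
          obtain ⟨h2, h3, h4⟩ := hx
          have h5 : ((j:ℝ) + 1) * b / 2 < x k := by
            rcases hj1.eq_or_lt with h6 | h6
            · rw [← h6]; linarith
            · have : ((j:ℝ) + 1) * b / 2 < j * b := by nlinarith
              linarith
          rw [indicator_of_mem (show x ∈ {x : E n | ((j:ℝ) + 1) * b / 2 < x k} from h5),
            indicator_of_mem (show up1 x k (((j:ℝ) + 1) * b - x k) ∈ {x : E n | 0 < x k ∧ x k ≤ b} by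
              show 0 < up1 x k (((j:ℝ) + 1) * b - x k) k ∧ up1 x k (((j:ℝ) + 1) * b - x k) k ≤ b
              rw [up1_same]
              constructor <;> linarith), hgi]
        · rw [indicator_of_notMem hx]
          exact zero_le
    _ = ∫⁻ x in {x : E n | ((j:ℝ) + 1) * b / 2 < x k},
          {x : E n | 0 < x k ∧ x k ≤ b}.indicator g (up1 x k (((j:ℝ) + 1) * b - x k)) ∂μ :=
        lintegral_indicator hS3 _
    _ ≤ ∫⁻ x in {x : E n | x k < ((j:ℝ) + 1) * b / 2}, {x : E n | 0 < x k ∧ x k ≤ b}.indicator g x ∂μ := h1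
    _ ≤ ∫⁻ x, {x : E n | 0 < x k ∧ x k ≤ b}.indicator g x ∂μ := setLIntegral_le_lintegral _ _
    _ = ∫⁻ x in {x : E n | 0 < x k ∧ x k ≤ b}, g x ∂μ := lintegral_indicator hS2 _

/-- symmetry of a piece -/
lemma piece_neg (hunc : Uncond μ) (k : Fin n) {T : Set ℝ} (hT : MeasurableSet T) {g : E n → ℝ≥0∞}
    (hg : Measurable g) (hgi : ∀ x t, g (up1 x k t) = g x) :
    ∫⁻ x in {x : E n | -x k ∈ T}, g x ∂μ = ∫⁻ x in {x : E n | x k ∈ T}, g x ∂μ := by
  have hmc : Measurable fun x : E n => x k := by fun_prop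
  have hmc' : Measurable fun x : E n => -x k := by fun_prop
  have h1 : MeasurableSet {x : E n | x k ∈ T} := hmc hT
  have h2 : MeasurableSet {x : E n | -x k ∈ T} := hmc' hT
  rw [← lintegral_indicator h1, ← lintegral_indicator h2,
    ← hunc.lintegral_up1 k (g := {x : E n | x k ∈ T}.indicator g) (hg.indicator h1)]
  refine lintegral_congr fun x => ?_
  by_cases hx : -x k ∈ T
  · rw [indicator_of_mem (show x ∈ {x : E n | -x k ∈ T} from hx),
      indicator_of_mem (show up1 x k (-x k) ∈ {x : E n | x k ∈ T} by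
        show up1 x k (-x k) k ∈ T
        rwa [up1_same]), hgi]
  · rw [indicator_of_notMem (show x ∉ {x : E n | -x k ∈ T} from hx),
      indicator_of_notMem (show up1 x k (-x k) ∉ {x : E n | x k ∈ T} by
        show ¬ up1 x k (-x k) k ∈ T
        rwa [up1_same])]

/-- **one coordinate**: the weights cost a factor `1 + η` -/
lemma box_step (hunc : Uncond μ) (hm1 : M1p μ) (k : Fin n) {b η : ℝ} (hb : 0 < b) (hη : 0 ≤ η)
    {g : E n → ℝ≥0∞} (hg : Measurable g) (hgi : ∀ x t, g (up1 x k t) = g x) :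
    ∫⁻ x, ENNReal.ofReal (wr η (|x k| / b)) * g x ∂μ ≤
      ENNReal.ofReal (1 + η) * ∫⁻ x in {x : E n | |x k| ≤ b}, g x ∂μ := by
  have hmc : Measurable fun x : E n => x k := by fun_prop
  have hma : Measurable fun x : E n => |x k| := by fun_prop
  have hS0 : MeasurableSet {x : E n | |x k| ≤ b} := measurableSet_le hma measurable_const
  let T : ℕ → Set ℝ := fun j => {t | b < t ∧ (j + 1 : ℕ) * b ≤ t ∧ t < ((j + 1 : ℕ) + 1) * b}
  have hT : ∀ j, MeasurableSet (T j) := fun j =>
    (measurableSet_lt measurable_const measurable_id).inter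
      ((measurableSet_le measurable_const measurable_id).inter
        (measurableSet_lt measurable_id measurable_const))
  have hP : ∀ j, MeasurableSet {x : E n | x k ∈ T j} := fun j => hmc (hT j)
  have hQ : ∀ j, MeasurableSet {x : E n | -x k ∈ T j} := fun j => hmc.neg (hT j)
  set I := ∫⁻ x in {x : E n | |x k| ≤ b}, g x ∂μ with hI
  set I1 := ∫⁻ x in {x : E n | 0 < x k ∧ x k ≤ b}, g x ∂μ with hI1
  -- twice the positive part
  have hS1 : MeasurableSet {x : E n | x k ∈ Ioc 0 b} := hmc measurableSet_Ioc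
  have hS2 : MeasurableSet {x : E n | -x k ∈ Ioc 0 b} := hmc.neg measurableSet_Ioc
  have hI2 : I1 + I1 ≤ I := by
    have e1 : ∫⁻ x in {x : E n | -x k ∈ Ioc 0 b}, g x ∂μ = I1 :=
      piece_neg hunc k measurableSet_Ioc hg hgi
    have e2 : ∫⁻ x in {x : E n | x k ∈ Ioc 0 b}, g x ∂μ = I1 := rfl
    calc I1 + I1 = ∫⁻ x in {x : E n | x k ∈ Ioc 0 b}, g x ∂μ +
          ∫⁻ x in {x : E n | -x k ∈ Ioc 0 b}, g x ∂μ := by rw [e1, e2]
      _ = ∫⁻ x in {x : E n | x k ∈ Ioc 0 b} ∪ {x : E n | -x k ∈ Ioc 0 b}, g x ∂μ := by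
          rw [lintegral_union hS2]
          rw [Set.disjoint_left]
          intro x hx hx'
          have h1 : 0 < x k := hx.1
          have h2 : 0 < -x k := hx'.1
          linarith
      _ ≤ I := by
          refine lintegral_mono_set ?_
          rintro x (hx | hx)
          · show |x k| ≤ b
            rw [abs_of_pos hx.1]; exact hx.2
          · show |x k| ≤ b
            have h1 : 0 < -x k := hx.1
            rw [← abs_neg, abs_of_pos h1]; exact hx.2
  have hpj : ∀ j, ∫⁻ x in {x : E n | x k ∈ T j}, g x ∂μ ≤ I1 := fun j =>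
    piece_le hm1 k hb hg hgi (j := j + 1) (by omega)
  have hqj : ∀ j, ∫⁻ x in {x : E n | -x k ∈ T j}, g x ∂μ ≤ I1 := fun j => by
    rw [piece_neg hunc k (hT j) hg hgi]; exact hpj j
  -- pointwise bound
  have hpt : ∀ x : E n, ENNReal.ofReal (wr η (|x k| / b)) * g x ≤
      {x : E n | |x k| ≤ b}.indicator g x + ∑' j : ℕ, ENNReal.ofReal (η * (1 / 2) ^ (j + 1)) *
        ({x : E n | x k ∈ T j}.indicator g x + {x : E n | -x k ∈ T j}.indicator g x) := by
    intro x
    by_cases hx : |x k| ≤ b
    · rw [indicator_of_mem (show x ∈ {x : E n | |x k| ≤ b} from hx)]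
      have h1 : wr η (|x k| / b) = 1 := by
        unfold wr
        rw [if_pos ((div_le_one hb).2 hx)]
      rw [h1, ENNReal.ofReal_one, one_mul]
      exact le_self_add
    · push Not at hx
      set r := |x k| / b with hr
      have hr1 : 1 < r := (one_lt_div hb).2 hx
      have hfl : 1 ≤ ⌊r⌋₊ := Nat.le_floor (by exact_mod_cast hr1.le)
      obtain ⟨j, hj⟩ : ∃ j, ⌊r⌋₊ = j + 1 := ⟨⌊r⌋₊ - 1, by omega⟩
      have h1 : wr η r = η * (1 / 2) ^ (j + 1) := by
        unfold wr
        rw [if_neg (not_le.2 hr1), hj, one_div, inv_pow, div_eq_mul_inv]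
      have hmem : |x k| ∈ T j := by
        refine ⟨hx, ?_, ?_⟩
        · have h2 := Nat.floor_le (by linarith : 0 ≤ r)
          rw [hj] at h2
          rw [hr, le_div_iff₀ hb] at h2
          exact h2
        · have h2 := Nat.lt_floor_add_one r
          rw [hj] at h2
          rw [hr, div_lt_iff₀ hb] at h2
          exact_mod_cast h2
      rw [h1]
      refine le_trans ?_ (le_add_of_nonneg_left zero_le)
      refine le_trans ?_ (ENNReal.le_tsum j)
      refine mul_le_mul' le_rfl ?_
      rcases le_total 0 (x k) with h2 | h2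
      · rw [abs_of_nonneg h2] at hmem
        rw [indicator_of_mem (show x ∈ {x : E n | x k ∈ T j} from hmem)]
        exact le_self_add
      · rw [abs_of_nonpos h2] at hmem
        rw [indicator_of_mem (show x ∈ {x : E n | -x k ∈ T j} from hmem)]
        exact le_add_self
  have hmeas : ∀ j : ℕ, Measurable fun x : E n => ENNReal.ofReal (η * (1 / 2) ^ (j + 1)) *
        ({x : E n | x k ∈ T j}.indicator g x + {x : E n | -x k ∈ T j}.indicator g x) := fun j =>
    ((hg.indicator (hP j)).add (hg.indicator (hQ j))).const_mul _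
  have htot : ∑' j : ℕ, ENNReal.ofReal (η * (1 / 2) ^ (j + 1)) = ENNReal.ofReal η := by
    rw [← ENNReal.ofReal_tsum_of_nonneg (fun j => by positivity)]
    · congr 1
      rw [tsum_mul_left]
      have h1 : ∑' j : ℕ, ((1:ℝ) / 2) ^ (j + 1) = 1 := by
        simp only [pow_succ]
        rw [tsum_mul_right, tsum_geometric_two]
        norm_num
      rw [h1, mul_one]
    · refine Summable.mul_left _ ?_
      simp only [pow_succ]
      exact summable_geometric_two.mul_right _
  calc ∫⁻ x, ENNReal.ofReal (wr η (|x k| / b)) * g x ∂μ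
      ≤ ∫⁻ x, ({x : E n | |x k| ≤ b}.indicator g x + ∑' j : ℕ, ENNReal.ofReal (η * (1 / 2) ^ (j + 1)) *
        ({x : E n | x k ∈ T j}.indicator g x + {x : E n | -x k ∈ T j}.indicator g x)) ∂μ :=
        lintegral_mono hpt
    _ = I + ∑' j : ℕ, ENNReal.ofReal (η * (1 / 2) ^ (j + 1)) *
        (∫⁻ x in {x : E n | x k ∈ T j}, g x ∂μ + ∫⁻ x in {x : E n | -x k ∈ T j}, g x ∂μ) := by
        rw [lintegral_add_left (hg.indicator hS0), lintegral_indicator hS0,
          lintegral_tsum fun j => (hmeas j).aemeasurable]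
        congr 1
        refine tsum_congr fun j => ?_
        have hsum : Measurable fun x : E n =>
            {x : E n | x k ∈ T j}.indicator g x + {x : E n | -x k ∈ T j}.indicator g x :=
          (hg.indicator (hP j)).add (hg.indicator (hQ j))
        rw [lintegral_const_mul _ hsum,
          lintegral_add_left (hg.indicator (hP j)), lintegral_indicator (hP j),
          lintegral_indicator (hQ j)]
    _ ≤ I + ∑' j : ℕ, ENNReal.ofReal (η * (1 / 2) ^ (j + 1)) * I := by
        refine add_le_add le_rfl (ENNReal.tsum_le_tsum fun j => mul_le_mul' le_rfl ?_)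
        exact (add_le_add (hpj j) (hqj j)).trans hI2
    _ = ENNReal.ofReal (1 + η) * I := by
        rw [ENNReal.tsum_mul_right, htot, ENNReal.ofReal_add zero_le_one hη, ENNReal.ofReal_one,
          add_mul, one_mul]

/-- the factor of the coordinate `i` in the product of weights of level `m` -/
noncomputable def wfac (η : ℝ) (b : Fin n → ℝ) (m : ℕ) (i : Fin n) (t : ℝ) : ℝ≥0∞ :=
  if (i:ℕ) < m then ENNReal.ofReal (wr η (|t| / b i)) else {t : ℝ | |t| ≤ b i}.indicator (fun _ => 1) t

lemma measurable_wfac (η : ℝ) (b : Fin n → ℝ) (m : ℕ) (i : Fin n) : Measurable (wfac η b m i) := by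
  unfold wfac
  split_ifs
  · have := measurable_wr η
    fun_prop
  · refine measurable_const.indicator ?_
    exact measurableSet_le (by fun_prop) measurable_const

/-- all coordinates -/
lemma box_all (hunc : Uncond μ) (hm1 : M1p μ) {b : Fin n → ℝ} {η : ℝ} (hb : ∀ i, 0 < b i)
    (hη : 0 ≤ η) : ∀ m : ℕ, m ≤ n → ∫⁻ x, ∏ i, wfac η b m i (x i) ∂μ ≤
      ENNReal.ofReal (1 + η) ^ m * ∫⁻ x, ∏ i, wfac η b 0 i (x i) ∂μ := by
  intro m
  induction m with
  | zero => intro _; rw [pow_zero, one_mul]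
  | succ m ih =>
    intro hm
    set k : Fin n := ⟨m, hm⟩ with hk
    set g : E n → ℝ≥0∞ := fun x => ∏ i ∈ Finset.univ.erase k, wfac η b m i (x i) with hgdef
    have hg : Measurable g := by
      refine Finset.measurable_prod _ fun i _ => ?_
      have := measurable_wfac η b m i
      fun_prop
    have hgi : ∀ x t, g (up1 x k t) = g x := by
      intro x t
      simp only [hgdef]
      refine Finset.prod_congr rfl fun i hi => ?_
      rw [up1_ne x t (Finset.ne_of_mem_erase hi)]
    have e1 : ∀ x : E n, ∏ i, wfac η b (m + 1) i (x i) = ENNReal.ofReal (wr η (|x k| / b k)) * g x := by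
      intro x
      rw [← Finset.mul_prod_erase Finset.univ _ (Finset.mem_univ k)]
      congr 1
      · unfold wfac
        rw [if_pos (show ((k : Fin n) : ℕ) < m + 1 by rw [hk]; simp)]
      · simp only [hgdef]
        refine Finset.prod_congr rfl fun i hi => ?_
        have hik : (i:ℕ) ≠ m := by
          intro h
          exact Finset.ne_of_mem_erase hi (Fin.ext (by rw [hk]; exact h))
        unfold wfac
        by_cases h : (i:ℕ) < m
        · rw [if_pos h, if_pos (by omega)]
        · rw [if_neg h, if_neg (by omega)]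
    have hma : Measurable fun x : E n => |x k| := by fun_prop
    have hS0 : MeasurableSet {x : E n | |x k| ≤ b k} := measurableSet_le hma measurable_const
    have e2 : ∫⁻ x in {x : E n | |x k| ≤ b k}, g x ∂μ = ∫⁻ x, ∏ i, wfac η b m i (x i) ∂μ := by
      rw [← lintegral_indicator hS0]
      refine lintegral_congr fun x => ?_
      rw [← Finset.mul_prod_erase Finset.univ _ (Finset.mem_univ k)]
      have e3 : wfac η b m k (x k) = {t : ℝ | |t| ≤ b k}.indicator (fun _ => 1) (x k) := by
        unfold wfac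
        rw [if_neg (by rw [hk]; simp)]
      rw [e3]
      by_cases hx : |x k| ≤ b k
      · rw [indicator_of_mem (show x ∈ {x : E n | |x k| ≤ b k} from hx),
          indicator_of_mem (show x k ∈ {t : ℝ | |t| ≤ b k} from hx), one_mul]
      · rw [indicator_of_notMem (show x ∉ {x : E n | |x k| ≤ b k} from hx),
          indicator_of_notMem (show x k ∉ {t : ℝ | |t| ≤ b k} from hx), zero_mul]
    calc ∫⁻ x, ∏ i, wfac η b (m + 1) i (x i) ∂μ
        = ∫⁻ x, ENNReal.ofReal (wr η (|x k| / b k)) * g x ∂μ := lintegral_congr e1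
      _ ≤ ENNReal.ofReal (1 + η) * ∫⁻ x in {x : E n | |x k| ≤ b k}, g x ∂μ :=
          box_step hunc hm1 k (hb k) hη hg hgi
      _ = ENNReal.ofReal (1 + η) * ∫⁻ x, ∏ i, wfac η b m i (x i) ∂μ := by rw [e2]
      _ ≤ ENNReal.ofReal (1 + η) * (ENNReal.ofReal (1 + η) ^ m *
            ∫⁻ x, ∏ i, wfac η b 0 i (x i) ∂μ) := mul_le_mul' le_rfl (ih (by omega))
      _ = ENNReal.ofReal (1 + η) ^ (m + 1) * ∫⁻ x, ∏ i, wfac η b 0 i (x i) ∂μ := by
          rw [pow_succ', mul_assoc]

/-- the exponential minorant of the weights -/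
lemma exp_le_wr {q r : ℝ} (hq : 1 ≤ q) (hr : 0 ≤ r) :
    Real.exp (-((q + 1) * r ^ q)) ≤ wr (Real.exp (-q)) r := by
  unfold wr
  split_ifs with h
  · rw [Real.exp_le_one_iff]
    have : 0 ≤ (q + 1) * r ^ q := by positivity
    linarith
  · push Not at h
    have h1 : r ≤ r ^ q := by
      calc r = r ^ (1:ℝ) := (Real.rpow_one r).symm
        _ ≤ r ^ q := Real.rpow_le_rpow_of_exponent_le h.le hq
    have h2 : (2:ℝ) ^ ⌊r⌋₊ ≤ Real.exp r := by
      have h3 : (⌊r⌋₊ : ℝ) ≤ r := Nat.floor_le hr
      calc (2:ℝ) ^ ⌊r⌋₊ ≤ Real.exp 1 ^ ⌊r⌋₊ :=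
            pow_le_pow_left₀ (by norm_num) (by linarith [Real.exp_one_gt_d9]) _
        _ = Real.exp ⌊r⌋₊ := by rw [← Real.exp_nat_mul, mul_one]
        _ ≤ Real.exp r := Real.exp_le_exp.2 h3
    rw [le_div_iff₀ (by positivity)]
    calc Real.exp (-((q + 1) * r ^ q)) * 2 ^ ⌊r⌋₊ ≤ Real.exp (-((q + 1) * r ^ q)) * Real.exp r :=
          mul_le_mul_of_nonneg_left h2 (Real.exp_pos _).le
      _ = Real.exp (-((q + 1) * r ^ q) + r) := (Real.exp_add _ _).symm
      _ ≤ Real.exp (-q) := by
          apply Real.exp_le_exp.2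
          have h3 : 1 ≤ r ^ q := h.le.trans h1
          nlinarith

/-- **the box lemma** -/
theorem box_lower [IsProbabilityMeasure μ] (hunc : Uncond μ) (hlc : LC μ) (hm1 : M1p μ)
    (hpos : ∀ i, 0 < ma μ i) {q : ℝ} (hq : 1 ≤ q) :
    Real.exp (-((q + 2) * n * Real.exp (-q))) ≤ μ.real (box μ (2 * Real.exp 3 * q)) := by
  have hq0 : 0 < q := by linarith
  set Lam : ℝ := 2 * Real.exp 3 * q with hLam
  have hLam0 : 0 < Lam := by positivity
  set b : Fin n → ℝ := fun i => Lam * ma μ i with hb
  have hb0 : ∀ i, 0 < b i := fun i => mul_pos hLam0 (hpos i)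
  have hη : 0 ≤ Real.exp (-q) := (Real.exp_pos _).le
  have h1 := box_all hunc hm1 hb0 hη n le_rfl
  -- the box
  have hbox : ∫⁻ x, ∏ i, wfac (Real.exp (-q)) b 0 i (x i) ∂μ = μ (box μ Lam) := by
    have e1 : (fun x : E n => ∏ i, wfac (Real.exp (-q)) b 0 i (x i)) =
        (box μ Lam).indicator (fun _ => 1) := by
      funext x
      by_cases hx : x ∈ box μ Lam
      · rw [indicator_of_mem hx]
        refine Finset.prod_eq_one fun i _ => ?_
        unfold wfac
        rw [if_neg (Nat.not_lt_zero _), indicator_of_mem (show x i ∈ {t : ℝ | |t| ≤ b i} from hx i)]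
      · rw [indicator_of_notMem hx]
        have h2 : ∃ i, ¬ |x i| ≤ b i := by
          by_contra h
          push Not at h
          exact hx h
        obtain ⟨i, hi⟩ := h2
        refine Finset.prod_eq_zero (Finset.mem_univ i) ?_
        unfold wfac
        rw [if_neg (Nat.not_lt_zero _), indicator_of_notMem (show x i ∉ {t : ℝ | |t| ≤ b i} from hi)]
    rw [e1, lintegral_indicator_const (isClosed_box Lam).measurableSet, one_mul]
  rw [hbox] at h1
  -- the exponent
  set ψ : E n → ℝ := fun x => -((q + 1) * ∑ i, (|x i| / b i) ^ q) with hψ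
  have hψm : Measurable ψ := by
    simp only [hψ]
    fun_prop
  have hpt : ∀ x : E n, ENNReal.ofReal (Real.exp (ψ x)) ≤ ∏ i, wfac (Real.exp (-q)) b n i (x i) := by
    intro x
    have e1 : Real.exp (ψ x) = ∏ i, Real.exp (-((q + 1) * (|x i| / b i) ^ q)) := by
      rw [← Real.exp_sum]
      congr 1
      simp only [hψ]
      rw [Finset.sum_neg_distrib, Finset.mul_sum]
    rw [e1, ENNReal.ofReal_prod_of_nonneg (fun i _ => (Real.exp_pos _).le)]
    refine Finset.prod_le_prod' fun i _ => ?_
    unfold wfac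
    rw [if_pos i.2]
    exact ENNReal.ofReal_le_ofReal (exp_le_wr hq (div_nonneg (abs_nonneg _) (hb0 i).le))
  have hψ0 : ∀ x, ψ x ≤ 0 := by
    intro x
    simp only [hψ]
    have : 0 ≤ (q + 1) * ∑ i, (|x i| / b i) ^ q :=
      mul_nonneg (by linarith) (Finset.sum_nonneg fun i _ =>
        Real.rpow_nonneg (div_nonneg (abs_nonneg _) (hb0 i).le) _)
    linarith
  have hexpint : Integrable (fun x => Real.exp (ψ x)) μ := by
    refine Integrable.of_bound (by fun_prop) 1 (Eventually.of_forall fun x => ?_)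
    rw [Real.norm_eq_abs, abs_of_pos (Real.exp_pos _)]
    exact Real.exp_le_one_iff.2 (hψ0 x)
  have h2 : ∫ x, Real.exp (ψ x) ∂μ ≤ (1 + Real.exp (-q)) ^ n * μ.real (box μ Lam) := by
    have h3 : ENNReal.ofReal (∫ x, Real.exp (ψ x) ∂μ) ≤
        ENNReal.ofReal (1 + Real.exp (-q)) ^ n * μ (box μ Lam) := by
      rw [ofReal_integral_eq_lintegral_ofReal hexpint (Eventually.of_forall fun x => (Real.exp_pos _).le)]
      exact (lintegral_mono hpt).trans h1
    have h4 := ENNReal.toReal_mono (ENNReal.mul_ne_top (ENNReal.pow_ne_top ENNReal.ofReal_ne_top)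
      (measure_ne_top μ _)) h3
    rw [ENNReal.toReal_ofReal (integral_nonneg fun x => (Real.exp_pos _).le), ENNReal.toReal_mul,
      ENNReal.toReal_pow, ENNReal.toReal_ofReal (by linarith)] at h4
    exact h4
  -- moments
  have hfin : ∀ q : ℝ, 0 < q → ∀ v : E n, mq μ q v < ⊤ := fun q hq v => mq_lt_top hunc.symm hlc hq v
  have hsing : ∀ (i : Fin n) (x : E n), inner ℝ (EuclideanSpace.single i (1:ℝ)) x = x i := by
    intro i x
    rw [EuclideanSpace.inner_single_left]
    simp
  have hint : ∀ i, Integrable (fun x : E n => (|x i| / b i) ^ q) μ := by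
    intro i
    have h3 := integrable_mom hfin hq0 (EuclideanSpace.single i (1:ℝ))
    simp only [hsing] at h3
    have h4 : (fun x : E n => (|x i| / b i) ^ q) = fun x => (b i ^ q)⁻¹ * |x i| ^ q := by
      funext x
      rw [Real.div_rpow (abs_nonneg _) (hb0 i).le, div_eq_inv_mul]
    rw [h4]
    exact h3.const_mul _
  have hmom : ∀ i, ∫ x, (|x i| / b i) ^ q ∂μ ≤ Real.exp (-q) := by
    intro i
    have h3 := mom_compare hunc.symm hlc le_rfl hq (EuclideanSpace.single i (1:ℝ))
    simp only [hsing, Real.rpow_one, div_one] at h3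
    have h4 : (fun x : E n => (|x i| / b i) ^ q) = fun x => (b i ^ q)⁻¹ * |x i| ^ q := by
      funext x
      rw [Real.div_rpow (abs_nonneg _) (hb0 i).le, div_eq_inv_mul]
    rw [h4, integral_const_mul]
    have hma : ∫ y, |y i| ∂μ = ma μ i := rfl
    rw [hma] at h3
    calc (b i ^ q)⁻¹ * ∫ x, |x i| ^ q ∂μ ≤ (b i ^ q)⁻¹ * (2 * Real.exp 2 * q * ma μ i) ^ q :=
          mul_le_mul_of_nonneg_left h3 (inv_nonneg.2 (Real.rpow_nonneg (hb0 i).le _))
      _ = ((2 * Real.exp 2 * q * ma μ i) / b i) ^ q := by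
          rw [Real.div_rpow (by have := hpos i; positivity) (hb0 i).le, div_eq_inv_mul]
      _ = (Real.exp (-1)) ^ q := by
          congr 1
          simp only [hb, hLam]
          have h5 : Real.exp 3 = Real.exp 2 * Real.exp 1 := by rw [← Real.exp_add]; norm_num
          have h6 := (hpos i).ne'
          rw [h5, Real.exp_neg]
          field_simp
      _ = Real.exp (-q) := by
          rw [← Real.exp_mul]; congr 1; ring
  have hψint : Integrable ψ μ := by
    simp only [hψ]
    exact ((integrable_finsetSum _ fun i _ => hint i).const_mul _).neg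
  have hψval : -((q + 1) * n * Real.exp (-q)) ≤ ∫ x, ψ x ∂μ := by
    simp only [hψ]
    rw [integral_neg, integral_const_mul, integral_finsetSum _ fun i _ => hint i]
    have h3 : ∑ i, ∫ x, (|x i| / b i) ^ q ∂μ ≤ n * Real.exp (-q) := by
      calc ∑ i, ∫ x, (|x i| / b i) ^ q ∂μ ≤ ∑ _i : Fin n, Real.exp (-q) :=
            Finset.sum_le_sum fun i _ => hmom i
        _ = n * Real.exp (-q) := by rw [Finset.sum_const, Finset.card_univ, Fintype.card_fin, nsmul_eq_mul]
    have h4 := mul_le_mul_of_nonneg_left h3 (by linarith : (0:ℝ) ≤ q + 1)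
    have h5 : (q + 1) * (n * Real.exp (-q)) = (q + 1) * n * Real.exp (-q) := by ring
    linarith
  -- Jensen
  have hjen : Real.exp (∫ x, ψ x ∂μ) ≤ ∫ x, Real.exp (ψ x) ∂μ := by
    set c := ∫ x, ψ x ∂μ with hc
    have h3 : ∀ x, Real.exp c * (1 + (ψ x - c)) ≤ Real.exp (ψ x) := by
      intro x
      have h4 := Real.add_one_le_exp (ψ x - c)
      calc Real.exp c * (1 + (ψ x - c)) ≤ Real.exp c * Real.exp (ψ x - c) :=
            mul_le_mul_of_nonneg_left (by linarith) (Real.exp_pos _).le
        _ = Real.exp (ψ x) := by rw [← Real.exp_add]; congr 1; ring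
    have h4 : ∫ x, Real.exp c * (1 + (ψ x - c)) ∂μ ≤ ∫ x, Real.exp (ψ x) ∂μ := by
      refine integral_mono ?_ hexpint h3
      exact ((integrable_const _).add (hψint.sub (integrable_const _))).const_mul _
    have h5 : ∫ x, Real.exp c * (1 + (ψ x - c)) ∂μ = Real.exp c := by
      have i1 : Integrable (fun x => ψ x - c) μ := hψint.sub (integrable_const _)
      rw [integral_const_mul, integral_add (integrable_const _) i1,
        integral_sub hψint (integrable_const _)]
      simp [← hc]
    linarith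
  have h6 : Real.exp (-((q + 1) * n * Real.exp (-q))) ≤ (1 + Real.exp (-q)) ^ n * μ.real (box μ Lam) :=
    (Real.exp_le_exp.2 hψval).trans (hjen.trans h2)
  have h7 : (1 + Real.exp (-q)) ^ n ≤ Real.exp (n * Real.exp (-q)) := by
    calc (1 + Real.exp (-q)) ^ n ≤ (Real.exp (Real.exp (-q))) ^ n := by
          refine pow_le_pow_left₀ (by linarith) ?_ n
          have := Real.add_one_le_exp (Real.exp (-q))
          linarith
      _ = Real.exp (n * Real.exp (-q)) := by rw [← Real.exp_nat_mul]
  have h8 : 0 ≤ μ.real (box μ Lam) := measureReal_nonneg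
  have h9 : Real.exp (-((q + 1) * n * Real.exp (-q))) ≤
      Real.exp (n * Real.exp (-q)) * μ.real (box μ Lam) :=
    h6.trans (mul_le_mul_of_nonneg_right h7 h8)
  have h10 : Real.exp (-((q + 2) * n * Real.exp (-q))) =
      Real.exp (-(n * Real.exp (-q))) * Real.exp (-((q + 1) * n * Real.exp (-q))) := by
    rw [← Real.exp_add]; congr 1; ring
  rw [h10]
  calc Real.exp (-(n * Real.exp (-q))) * Real.exp (-((q + 1) * n * Real.exp (-q)))
      ≤ Real.exp (-(n * Real.exp (-q))) * (Real.exp (n * Real.exp (-q)) * μ.real (box μ Lam)) :=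
        mul_le_mul_of_nonneg_left h9 (Real.exp_pos _).le
    _ = μ.real (box μ Lam) := by
        rw [← mul_assoc, ← Real.exp_add]; simp

/-- the box of the `log (2 + n / p)`-fold means has measure at least `exp (-p)` -/
theorem box_level [IsProbabilityMeasure μ] (hunc : Uncond μ) (hlc : LC μ) (hm1 : M1p μ)
    (hpos : ∀ i, 0 < ma μ i) {p : ℝ} (hp : 0 < p) :
    Real.exp (-p) ≤ μ.real (box μ (8 * Real.exp 3 * Real.log (2 + n / p))) := by
  set y : ℝ := 2 + n / p with hy
  have hn0 : (0:ℝ) ≤ n := Nat.cast_nonneg n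
  have hnp : 0 ≤ (n:ℝ) / p := by positivity
  have hy2 : 2 ≤ y := by rw [hy]; linarith
  have hy0 : 0 < y := by linarith
  have hl2 : 0.6931 < Real.log 2 := by linarith [Real.log_two_gt_d9]
  have hly : Real.log 2 ≤ Real.log y := Real.log_le_log (by norm_num) hy2
  have hq : 1 ≤ 4 * Real.log y := by linarith
  have h1 := box_lower hunc hlc hm1 hpos hq
  have h2 : 2 * Real.exp 3 * (4 * Real.log y) = 8 * Real.exp 3 * Real.log y := by ring
  rw [h2] at h1
  refine le_trans (Real.exp_le_exp.2 ?_) h1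
  have h3 : Real.exp (-(4 * Real.log y)) = (y ^ 4)⁻¹ := by
    rw [Real.exp_neg, show 4 * Real.log y = Real.log (y ^ 4) by rw [Real.log_pow]; norm_num,
      Real.exp_log (by positivity)]
  rw [h3]
  have h4 : (n:ℝ) ≤ p * y := by
    rw [hy, mul_add]
    have : p * (n / p) = n := by field_simp
    linarith
  have h5 : Real.log y ≤ y - 1 := Real.log_le_sub_one_of_pos hy0
  have h6 : (4 * Real.log y + 2) * n ≤ (4 * y - 1) * (p * y) :=
    mul_le_mul (by linarith) h4 hn0 (by linarith)
  have h7 : (4 * y - 1) * (p * y) ≤ p * y ^ 4 := by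
    have h8 : 4 * y - 1 ≤ y ^ 3 := by nlinarith [sq_nonneg (y - 2), mul_nonneg (by linarith : (0:ℝ) ≤ y - 2) hy0.le]
    calc (4 * y - 1) * (p * y) ≤ y ^ 3 * (p * y) := mul_le_mul_of_nonneg_right h8 (by positivity)
      _ = p * y ^ 4 := by ring
  have h9 : (4 * Real.log y + 2) * n * (y ^ 4)⁻¹ ≤ p := by
    rw [← div_eq_mul_inv, div_le_iff₀ (by positivity)]
    exact h6.trans h7
  linarith

end Pool.CIP
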