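import Pool.Agent.CIP.VX

/-! # stage one, boxes of measure at least `exp (-q)` -/

set_option autoImplicit false

open MeasureTheory Pointwise Set Filter Topology
open scoped ENNReal

namespace Pool.CIP

variable {n : ℕ} {μ : Measure (E n)}

lemma five_exp_le (q : ℝ) : 5 * Real.exp (-(q + 2)) ≤ Real.exp (-q) := by
  have e2 : 5 ≤ Real.exp 2 := by
    have h1 : (2.7:ℝ) ≤ Real.exp 1 := by linarith [Real.exp_one_gt_d9]
    have : Real.exp 2 = Real.exp 1 ^ 2 := by rw [← Real.exp_nat_mul]; norm_num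
    rw [this]
    nlinarith
  have h1 : Real.exp (-q) = Real.exp (-(q + 2)) * Real.exp 2 := by
    rw [← Real.exp_add]; congr 1; ring
  rw [h1]
  have := Real.exp_pos (-(q + 2))
  nlinarith

theorem stage1g (hoc : OneCoord n) [IsProbabilityMeasure μ] (hG : Good μ) {Lam : ℝ}
    (hLam1 : 1 ≤ Lam) {q : ℝ} (hq : 2 ≤ q) (hbox : Real.exp (-q) ≤ μ.real (box μ Lam))
    {k : ℕ} (hk : k ≤ n)
    {σ : Fin n → ℝ} (hσ : ∀ i, σ i = 1 ∨ σ i = -1) {A B : Set (E n)} (hA : IsCompact A)
    (hB : IsCompact B) (hAq : Real.exp (-q) ≤ md μ k σ A) (hBq : Real.exp (-q) ≤ md μ k σ B) :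
    ∃ x ∈ A, ∃ y ∈ B, x - y ∈ G μ q (17280 * Real.exp 3 * Lam) := by
  obtain ⟨e4, e2, e3, e5⟩ := exp_facts
  have hunc := hG.unc
  have hlc := hG.lc
  have hsym := hunc.symm
  have hLam0 : 0 ≤ Lam := by linarith
  have hpos : ∀ i, 0 < Lam * ma μ i := fun i => mul_pos (by linarith) (hG.pos i)
  have E0 : 0 < Real.exp (-q) := Real.exp_pos _
  have hK : μ (box μ Lam) ≠ 0 := by
    intro h0
    rw [Measure.real, h0] at hbox
    simp only [ENNReal.toReal_zero] at hbox
    linarith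
  set M := Mb μ (box μ Lam) (q + 2) with hM
  have hMinv : ∀ τ : Fin n → ℝ, (∀ i, τ i = 1 ∨ τ i = -1) → ∀ x ∈ M, flp τ x ∈ M :=
    fun τ hτ x hx => hunc.flp_mem_Mb hτ hx
  have hMc : IsCompact M := Mb_compact μ (isCompact_box Lam) _
  have hexp2 : Real.exp (-(q + 2)) ≤ Real.exp (-q) / 2 := by
    rw [neg_add, Real.exp_add, Real.exp_neg 2, ← div_eq_mul_inv]
    exact div_le_div_of_nonneg_left E0.le (by norm_num) e2
  have hMμ : μ.real Mᶜ ≤ Real.exp (-(q + 2)) := by
    refine Mb_large hsym hlc (isCompact_box Lam) (convex_box Lam) (by linarith) ?_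
    refine le_trans ?_ hbox
    exact five_exp_le q
  have hqq : Real.exp (-(2 * q)) = Real.exp (-q) * Real.exp (-q) := by
    rw [← Real.exp_add]; congr 1; ring
  have EE0 : 0 < Real.exp (-(2 * q)) := Real.exp_pos _
  have hstep : ∀ D : Set (E n), IsCompact D → Real.exp (-q) ≤ md μ k σ D →
      Real.exp (-(2 * q)) / 8 ≤ md (nuK μ Lam) k σ (near μ Lam (16 * (2 * q + 3)) (D ∩ M)) := by
    intro D hD hDq
    have hDM : IsCompact (D ∩ M) := hD.inter hMc
    have h1 := md_inter_ge (μ := μ) hMinv (k := k) hσ D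
    have h2 := near_prefix hunc hG.t1 (Lam := Lam) (t := 16 * (2 * q + 3)) hk hσ hDM
    have h3 : Real.exp (-(16 * (2 * q + 3) / 16)) ≤ Real.exp (-(2 * q)) / 8 := by
      have : -(16 * (2 * q + 3) / 16) = -(2 * q) + -3 := by ring
      rw [this, Real.exp_add, Real.exp_neg 3, ← div_eq_mul_inv]
      exact div_le_div_of_nonneg_left EE0.le (by norm_num) e3
    have h4 : Real.exp (-q) / 2 ≤ md μ k σ (D ∩ M) := by linarith
    have h5 : Real.exp (-q) * (Real.exp (-q) / 2) ≤ μ.real (box μ Lam) * md μ k σ (D ∩ M) :=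
      mul_le_mul hbox h4 (by positivity) measureReal_nonneg
    have h6 := md_nuK (μ := μ) hK hσ (k := k) (isCompact_near (Lam := Lam) (t := 16 * (2 * q + 3))
      hDM).measurableSet near_subset_box
    have h7 : Real.exp (-q) * (Real.exp (-q) / 2) = Real.exp (-(2 * q)) / 2 := by
      rw [hqq]; ring
    linarith
  have a1 := hstep A hA hAq
  have a2 := hstep B hB hBq
  -- the near points in the box
  have hex : ∃ x' ∈ near μ Lam (16 * (2 * q + 3)) (A ∩ M),
      ∃ y' ∈ near μ Lam (16 * (2 * q + 3)) (B ∩ M),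
      dK μ Lam x' y' ≤ 4 * (16 * (4 * q + 5)) := by
    by_contra hcon
    push Not at hcon
    have h1 := t2 hoc hunc hG.t1 hG.m1 hpos hK hk hσ
      (isCompact_near (Lam := Lam) (t := 16 * (2 * q + 3)) (hA.inter hMc)).measurableSet
      (isCompact_near (Lam := Lam) (t := 16 * (2 * q + 3)) (hB.inter hMc)).measurableSet
      (ρ := Real.sqrt (64 * (4 * q + 5))) (Real.sqrt_nonneg _) (fun x hx y hy => by
        rw [Real.sq_sqrt (by linarith)]
        have := hcon x hx y hy
        linarith)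
    rw [Real.sq_sqrt (by linarith)] at h1
    have h2 := mul_le_mul a1 a2 (by positivity) (md_nonneg _ _ _)
    have h3 : Real.exp (-(64 * (4 * q + 5) / 64)) =
        Real.exp (-(2 * q)) * Real.exp (-(2 * q)) * Real.exp (-5) := by
      rw [← Real.exp_add, ← Real.exp_add]
      congr 1
      ring
    rw [h3] at h1
    have h4 : Real.exp (-5) < 1 / 64 := by
      rw [Real.exp_neg, ← one_div]
      exact one_div_lt_one_div_of_lt (by norm_num) e5
    have h5 : 0 < Real.exp (-(2 * q)) * Real.exp (-(2 * q)) := mul_pos EE0 EE0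
    nlinarith
  obtain ⟨x', ⟨hx'K, x, ⟨hxA, hxM⟩, _, z, hz, hz2, hxx⟩, y', ⟨hy'K, y, ⟨hyB, hyM⟩, _, z', hz', hz2', hyy⟩,
    hxy⟩ := hex
  refine ⟨x, hxA, y, hyB, ?_⟩
  intro v
  have b1 := move_le hunc hlc hLam0 (t := 16 * (2 * q + 3)) (by linarith) hxM hx'K hz hz2 hxx v
  have b3 := move_le hunc hlc hLam0 (t := 16 * (2 * q + 3)) (by linarith) hyM hy'K hz' hz2' hyy v
  have b2 := box_diff_le hunc hlc hpos hLam0 (t := 16 * (4 * q + 5)) (by linarith) hx'K hy'K hxy v
  set L := 64 * (q + 13) with hL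
  have hmL0 := hm_nonneg (μ := μ) L v
  have m0 : hm μ (60 * (q + 2 + 11)) v ≤ hm μ L v :=
    hm_mono hsym hlc (by linarith) (by rw [hL]; linarith) v
  have m1 : hm μ (16 * (2 * q + 3)) v ≤ hm μ L v :=
    hm_mono hsym hlc (by linarith) (by rw [hL]; linarith) v
  have m2 : hm μ (16 * (4 * q + 5)) v ≤ hm μ L v :=
    hm_mono hsym hlc (by linarith) (by rw [hL]; linarith) v
  have m3 := hm_compare hsym hlc (show 1 ≤ q by linarith) (show q ≤ L by rw [hL]; linarith) v
  have hmq0 := hm_nonneg (μ := μ) q v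
  have hLq : L / q ≤ 480 := by
    rw [div_le_iff₀ (by linarith), hL]
    linarith
  have m4 : hm μ L v ≤ 960 * Real.exp 2 * hm μ q v := by
    refine m3.trans ?_
    calc 2 * Real.exp 2 * (L / q) * hm μ q v ≤ 2 * Real.exp 2 * 480 * hm μ q v :=
          mul_le_mul_of_nonneg_right (mul_le_mul_of_nonneg_left hLq (by positivity)) hmq0
      _ = 960 * Real.exp 2 * hm μ q v := by ring
  have e10 : 0 < Real.exp 1 := Real.exp_pos 1
  have mm0 : 2 * (3 * Real.exp 1 * hm μ (60 * (q + 2 + 11)) v) ≤ 6 * (Real.exp 1 * hm μ L v) := by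
    have := mul_le_mul_of_nonneg_left m0 e10.le
    linarith
  have c1 : |inner ℝ v (x - x')| ≤ 8 * Lam * Real.exp 1 * hm μ L v := by
    refine b1.trans ?_
    have h1 : 2 * Lam * (Real.exp 1 * hm μ (16 * (2 * q + 3)) v) ≤
        2 * Lam * (Real.exp 1 * hm μ L v) :=
      mul_le_mul_of_nonneg_left (mul_le_mul_of_nonneg_left m1 e10.le) (by linarith)
    have h2 : Real.exp 1 * hm μ L v ≤ Lam * (Real.exp 1 * hm μ L v) := by
      have : 0 ≤ Real.exp 1 * hm μ L v := mul_nonneg e10.le hmL0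
      nlinarith
    linarith
  have c3 : |inner ℝ v (y - y')| ≤ 8 * Lam * Real.exp 1 * hm μ L v := by
    refine b3.trans ?_
    have h1 : 2 * Lam * (Real.exp 1 * hm μ (16 * (2 * q + 3)) v) ≤
        2 * Lam * (Real.exp 1 * hm μ L v) :=
      mul_le_mul_of_nonneg_left (mul_le_mul_of_nonneg_left m1 e10.le) (by linarith)
    have h2 : Real.exp 1 * hm μ L v ≤ Lam * (Real.exp 1 * hm μ L v) := by
      have : 0 ≤ Real.exp 1 * hm μ L v := mul_nonneg e10.le hmL0
      nlinarith
    linarith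
  have c2 : |inner ℝ v (x' - y')| ≤ 2 * Lam * Real.exp 1 * hm μ L v := by
    refine b2.trans ?_
    have h1 : 2 * Lam * (Real.exp 1 * hm μ (16 * (4 * q + 5)) v) ≤
        2 * Lam * (Real.exp 1 * hm μ L v) :=
      mul_le_mul_of_nonneg_left (mul_le_mul_of_nonneg_left m2 e10.le) (by linarith)
    linarith
  have hdec : inner ℝ v (x - y) = inner ℝ v (x - x') + inner ℝ v (x' - y') - inner ℝ v (y - y') := by
    rw [← inner_add_right, ← inner_sub_right]
    congr 1
    abel
  have e33 : Real.exp 3 = Real.exp 1 * Real.exp 2 := by rw [← Real.exp_add]; norm_num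
  calc |inner ℝ v (x - y)| ≤ |inner ℝ v (x - x')| + |inner ℝ v (x' - y')| + |inner ℝ v (y - y')| := by
        rw [hdec]
        refine (abs_sub _ _).trans ?_
        have := abs_add_le (inner ℝ v (x - x')) (inner ℝ v (x' - y'))
        linarith
    _ ≤ 18 * Lam * Real.exp 1 * hm μ L v := by linarith
    _ ≤ 18 * Lam * Real.exp 1 * (960 * Real.exp 2 * hm μ q v) :=
        mul_le_mul_of_nonneg_left m4 (by positivity)
    _ = 17280 * Real.exp 3 * Lam * hm μ q v := by rw [e33]; ring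

/-- points outside `A + G` have small measure if `A` does not -/
lemma far_complg (hoc : OneCoord n) [IsProbabilityMeasure μ] (hG : Good μ) {Lam : ℝ}
    (hLam1 : 1 ≤ Lam) {p C : ℝ} (hp : 2 ≤ p) (hbox : Real.exp (-p) ≤ μ.real (box μ Lam))
    (hC : 207360 * Real.exp 5 * Lam ≤ C) {k : ℕ} (hk : k ≤ n)
    {σ : Fin n → ℝ} (hσ : ∀ i, σ i = 1 ∨ σ i = -1) {A : Set (E n)} (hA : IsCompact A)
    (hAq : Real.exp (-(6 * p)) ≤ md μ k σ A) :
    md μ k σ (A + G μ p C)ᶜ ≤ Real.exp (-(6 * p)) := by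
  have hLam0 : 0 ≤ Lam := by linarith
  by_contra hcon
  have h1 := not_le.1 hcon
  have hFc : IsCompact (A + G μ p C) := hA.add (isCompact_G _ _)
  have hmS : MeasurableSet (A + G μ p C)ᶜ := hFc.measurableSet.compl
  set ν := μ.map (pre k σ) with hν
  have : IsProbabilityMeasure ν := Measure.isProbabilityMeasure_map (measurable_pre k σ).aemeasurable
  have h2 : ENNReal.ofReal (Real.exp (-(6 * p))) < ν (A + G μ p C)ᶜ := by
    rw [hν, Measure.map_apply (measurable_pre k σ) hmS]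
    unfold md at h1
    rw [ENNReal.ofReal_lt_iff_lt_toReal (Real.exp_pos _).le (measure_ne_top μ _)]
    exact h1
  obtain ⟨B, hBs, hBc, hB⟩ := hmS.exists_lt_isCompact h2
  have h3 : Real.exp (-(6 * p)) ≤ md μ k σ B := by
    rw [hν, Measure.map_apply (measurable_pre k σ) hBc.measurableSet] at hB
    rw [ENNReal.ofReal_lt_iff_lt_toReal (Real.exp_pos _).le (measure_ne_top μ _)] at hB
    exact hB.le
  have hbox' : Real.exp (-(6 * p)) ≤ μ.real (box μ Lam) :=
    le_trans (Real.exp_le_exp.2 (by linarith)) hbox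
  obtain ⟨x, hx, y, hy, hxy⟩ := stage1g hoc hG hLam1 (q := 6 * p) (by linarith) hbox' hk hσ hA hBc
    hAq h3
  refine hBs hy ?_
  have hsub : x - y ∈ G μ p C := by
    refine G_subset hG.unc.symm hG.lc (p := p) (q := 6 * p) (by linarith) (by linarith)
      (by positivity) ?_ hxy
    refine le_trans (le_of_eq ?_) hC
    have e5 : Real.exp 5 = Real.exp 2 * Real.exp 3 := by rw [← Real.exp_add]; norm_num
    rw [e5]
    have : 6 * p / p = 6 := by field_simp
    rw [this]
    ring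
  refine ⟨x, hx, y - x, ?_, by simp⟩
  have := neg_mem_G hsub
  rwa [neg_sub] at this

end Pool.CIP
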