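import Pool.Agent.CIP.FZ
import Pool.Agent.CIP.VF
import Pool.Agent.CIP.WB
import Pool.Agent.CIP.FZB

/-! # Unconditional measures, all Borel sets: the factor `C log (2 + n / p)` -/

set_option autoImplicit false

open MeasureTheory Pointwise Set Filter Topology
open scoped ENNReal

namespace Pool.CIP

variable {n : ℕ} {μ : Measure (E n)}

lemma exp_three_le : Real.exp 3 ≤ 20.09 := by
  have h1 : Real.exp 3 = Real.exp 1 ^ 3 := by rw [← Real.exp_nat_mul]; norm_num
  rw [h1]
  have h2 : Real.exp 1 ≤ 2.7182818286 := Real.exp_one_lt_d9.le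
  calc Real.exp 1 ^ 3 ≤ (2.7182818286:ℝ) ^ 3 := pow_le_pow_left₀ (Real.exp_pos 1).le h2 3
    _ ≤ 20.09 := by norm_num

/-- **main theorem**, first form: the factor `C log (2 + n / p)` -/
theorem main_unc_level [IsProbabilityMeasure μ] (hunc : Uncond μ) (hlc : LC μ) {p C : ℝ}
    (hp : 2 ≤ p) (hC : 5000000000 * Real.log (2 + n / p) ≤ C) {A : Set (E n)} (hA : MeasurableSet A) :
    2 * Real.exp p * μ.real A * (1 - μ.real (A + G μ p C)) ≤
      (1 - μ.real A) * μ.real (A + G μ p C) := by
  have hn0 : (0:ℝ) ≤ n := Nat.cast_nonneg n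
  have hnp : 0 ≤ (n:ℝ) / p := by positivity
  have hl2 : 0.6931 < Real.log 2 := by linarith [Real.log_two_gt_d9]
  have hly : Real.log 2 ≤ Real.log (2 + n / p) := Real.log_le_log (by norm_num) (by linarith)
  have hC0 : 0 ≤ C := by linarith
  have he3 : 1 ≤ Real.exp 3 := Real.one_le_exp (by norm_num)
  refine borel_of_pair (fun A B hA hB hAB => ?_) hA
  refine pair_limit (fun f hf hprob => good_of_nice hf) (by linarith) hC0 ?_ hunc hlc hA hB hAB
  intro μ' hμ' hG A B hA hB hAB
  refine main_goodg (oneCoord n) hG hp (Lam := 8 * Real.exp 3 * Real.log (2 + n / p)) ?_ 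
    (box_level hG.unc hG.lc hG.m1 hG.pos (by linarith)) ?_ hA hB hAB
  · nlinarith
  · refine le_trans ?_ hC
    have h3 := exp_three_le
    have h5 := exp_five_le
    have h0 : 0 < Real.exp 3 := Real.exp_pos 3
    have h50 : 0 < Real.exp 5 := Real.exp_pos 5
    have h6 : Real.exp 5 * Real.exp 3 ≤ 149 * 20.09 := mul_le_mul h5 h3 h0.le (by norm_num)
    have h7 : 207360 * Real.exp 5 * (8 * Real.exp 3 * Real.log (2 + n / p)) =
        1658880 * (Real.exp 5 * Real.exp 3) * Real.log (2 + n / p) := by ring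
    rw [h7]
    refine mul_le_mul_of_nonneg_right ?_ (by linarith)
    linarith

end Pool.CIP
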