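import Pool.Agent.CIP.D

set_option autoImplicit false

open MeasureTheory Pointwise Set Filter Topology

namespace Pool.CIP

section abstract

variable {Ω : Type*} [MeasurableSpace Ω] {ν : Measure Ω} {ι : Type*} [Fintype ι] [DecidableEq ι]

/-- the vector b x as a Euclidean vector -/
def Wv (b : Ω → ι → ℝ) (x : Ω) : EuclideanSpace ℝ ι := WithLp.toLp 2 (b x)

/-- the Gram matrix -/
noncomputable def gramM (ν : Measure Ω) (b : Ω → ι → ℝ) : Matrix ι ι ℝ :=
  fun i j => ∫ x, b x i * b x j ∂ν

lemma gramM_herm (b : Ω → ι → ℝ) : (gramM ν b).IsHermitian := by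
  ext i j
  simp only [gramM, Matrix.conjTranspose_apply, star_trivial]
  congr 1
  ext x
  ring

lemma inner_Wv (b : Ω → ι → ℝ) (a : EuclideanSpace ℝ ι) (x : Ω) :
    inner ℝ a (Wv b x) = ∑ i, a i * b x i := by
  simp [Wv, PiLp.inner_apply, mul_comm]

lemma bil (b : Ω → ι → ℝ) (hint : ∀ i j, Integrable (fun x => b x i * b x j) ν)
    (a c : EuclideanSpace ℝ ι) :
    Integrable (fun x => inner ℝ a (Wv b x) * inner ℝ c (Wv b x)) ν ∧
    ∫ x, inner ℝ a (Wv b x) * inner ℝ c (Wv b x) ∂ν =
      ∑ i, a i * (gramM ν b).mulVec c.ofLp i := by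
  have h1 : (fun x => inner ℝ a (Wv b x) * inner ℝ c (Wv b x)) =
      fun x => ∑ i, ∑ j, (a i * c j) * (b x i * b x j) := by
    ext x
    rw [inner_Wv, inner_Wv, Finset.sum_mul_sum]
    refine Finset.sum_congr rfl fun i _ => Finset.sum_congr rfl fun j _ => ?_
    ring
  have h2 : ∀ i j, Integrable (fun x => (a i * c j) * (b x i * b x j)) ν :=
    fun i j => (hint i j).const_mul _
  rw [h1]
  refine ⟨integrable_finset_sum _ fun i _ => integrable_finset_sum _ fun j _ => h2 i j, ?_⟩
  rw [integral_finset_sum _ fun i _ => integrable_finset_sum _ fun j _ => h2 i j]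
  refine Finset.sum_congr rfl fun i _ => ?_
  rw [integral_finset_sum _ fun j _ => h2 i j, Matrix.mulVec, dotProduct, Finset.mul_sum]
  refine Finset.sum_congr rfl fun j _ => ?_
  rw [integral_const_mul]
  simp only [gramM]
  ring

/-- Christoffel function bound: there is K with mean at most the dimension which dominates the
square of every linear combination of second moment at most one -/
lemma christoffel (b : Ω → ι → ℝ) (hb : ∀ i, Measurable fun x => b x i)
    (hint : ∀ i j, Integrable (fun x => b x i * b x j) ν) :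
    ∃ K : Ω → ℝ, Measurable K ∧ (∀ x, 0 ≤ K x) ∧ ∫⁻ x, ENNReal.ofReal (K x) ∂ν ≤ Fintype.card ι ∧
      ∀ᵐ x ∂ν, ∀ a : ι → ℝ, ∫ x, (∑ i, a i * b x i) ^ 2 ∂ν ≤ 1 → (∑ i, a i * b x i) ^ 2 ≤ K x := by
  classical
  set hH := gramM_herm (ν := ν) b
  set U := hH.eigenvectorBasis with hU
  set β := hH.eigenvalues with hβ
  have horth : ∀ j k, ∫ x, inner ℝ (U j) (Wv b x) * inner ℝ (U k) (Wv b x) ∂ν =
      if j = k then β k else 0 := by
    intro j k
    rw [(bil b hint (U j) (U k)).2, hH.mulVec_eigenvectorBasis k]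
    have h1 : ∑ i, (U j) i * (β k • (U k).ofLp) i = β k * inner ℝ (U j) (U k) := by
      rw [PiLp.inner_apply, Finset.mul_sum]
      refine Finset.sum_congr rfl fun i _ => ?_
      simp
      ring
    rw [h1, orthonormal_iff_ite.1 U.orthonormal j k]
    split_ifs <;> simp
  have hβ0 : ∀ j, 0 ≤ β j := by
    intro j
    have := horth j j
    rw [if_pos rfl] at this
    rw [← this]
    exact integral_nonneg fun x => mul_self_nonneg _
  have hmeasW : ∀ a : EuclideanSpace ℝ ι, Measurable fun x => inner ℝ a (Wv b x) := by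
    intro a
    have : (fun x => inner ℝ a (Wv b x)) = fun x => ∑ i, a i * b x i := by
      ext x; exact inner_Wv b a x
    rw [this]
    exact Finset.measurable_sum _ fun i _ => (hb i).const_mul _
  refine ⟨fun x => ∑ j, (inner ℝ (U j) (Wv b x)) ^ 2 / β j, ?_, ?_, ?_, ?_⟩
  · exact Finset.measurable_sum _ fun j _ => ((hmeasW _).pow_const 2).div_const _
  · intro x
    exact Finset.sum_nonneg fun j _ => div_nonneg (sq_nonneg _) (hβ0 j)
  · have hI : ∀ j, Integrable (fun x => (inner ℝ (U j) (Wv b x)) ^ 2 / β j) ν := by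
      intro j
      have := (bil b hint (U j) (U j)).1
      simp only [← pow_two] at this
      exact this.div_const _
    rw [← ofReal_integral_eq_lintegral_ofReal (integrable_finset_sum _ fun j _ => hI j)
      (Eventually.of_forall fun x => Finset.sum_nonneg fun j _ => div_nonneg (sq_nonneg _) (hβ0 j)),
      integral_finset_sum _ fun j _ => hI j]
    have h1 : ∀ j, ∫ x, (inner ℝ (U j) (Wv b x)) ^ 2 / β j ∂ν ≤ 1 := by
      intro j
      rw [integral_div]
      have h2 := horth j j
      rw [if_pos rfl] at h2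
      simp only [← pow_two] at h2
      rw [h2]
      exact div_self_le_one _
    calc ENNReal.ofReal (∑ j, ∫ x, (inner ℝ (U j) (Wv b x)) ^ 2 / β j ∂ν)
        ≤ ENNReal.ofReal (∑ _j : ι, 1) := ENNReal.ofReal_le_ofReal (Finset.sum_le_sum fun j _ => h1 j)
      _ = Fintype.card ι := by simp
  · have hae : ∀ᵐ x ∂ν, ∀ j, β j = 0 → inner ℝ (U j) (Wv b x) = 0 := by
      rw [ae_all_iff]
      intro j
      by_cases hj : β j = 0
      · have h2 := horth j j
        rw [if_pos rfl, hj] at h2
        rw [integral_eq_zero_iff_of_nonneg (fun x => mul_self_nonneg _) (bil b hint (U j) (U j)).1] at h2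
        filter_upwards [h2] with x hx _
        exact mul_self_eq_zero.1 hx
      · exact Eventually.of_forall fun x h => absurd h hj
    filter_upwards [hae] with x hx
    intro a ha
    set A : EuclideanSpace ℝ ι := WithLp.toLp 2 a with hA
    have hAi : ∀ x, ∑ i, a i * b x i = inner ℝ A (Wv b x) := by
      intro x; rw [inner_Wv]
    have hexp : ∀ x, inner ℝ A (Wv b x) = ∑ j, inner ℝ A (U j) * inner ℝ (U j) (Wv b x) := by
      intro x; rw [U.sum_inner_mul_inner]
    have hsecond : ∫ x, (∑ i, a i * b x i) ^ 2 ∂ν = ∑ j, (inner ℝ A (U j)) ^ 2 * β j := by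
      have h3 : (fun x => (∑ i, a i * b x i) ^ 2) = fun x => ∑ j, ∑ k,
          (inner ℝ A (U j) * inner ℝ A (U k)) * (inner ℝ (U j) (Wv b x) * inner ℝ (U k) (Wv b x)) := by
        ext x
        rw [hAi, hexp, pow_two, Finset.sum_mul_sum]
        refine Finset.sum_congr rfl fun j _ => Finset.sum_congr rfl fun k _ => ?_
        ring
      have h4 : ∀ j k, Integrable (fun x => (inner ℝ A (U j) * inner ℝ A (U k)) *
          (inner ℝ (U j) (Wv b x) * inner ℝ (U k) (Wv b x))) ν :=
        fun j k => (bil b hint (U j) (U k)).1.const_mul _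
      rw [h3, integral_finset_sum _ fun j _ => integrable_finset_sum _ fun k _ => h4 j k]
      refine Finset.sum_congr rfl fun j _ => ?_
      rw [integral_finset_sum _ fun k _ => h4 j k]
      have h5 : ∀ k, ∫ x, (inner ℝ A (U j) * inner ℝ A (U k)) *
          (inner ℝ (U j) (Wv b x) * inner ℝ (U k) (Wv b x)) ∂ν =
          if j = k then (inner ℝ A (U j)) ^ 2 * β j else 0 := by
        intro k
        rw [integral_const_mul, horth]
        split_ifs with h
        · rw [h]; ring
        · simp
      simp only [h5, Finset.sum_ite_eq, Finset.mem_univ, if_true]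
    rw [hsecond] at ha
    rw [hAi, hexp]
    have h6 : ∀ j, inner ℝ A (U j) * inner ℝ (U j) (Wv b x) =
        (inner ℝ A (U j) * Real.sqrt (β j)) * (inner ℝ (U j) (Wv b x) / Real.sqrt (β j)) := by
      intro j
      by_cases hj : β j = 0
      · rw [hx j hj]; simp
      · have : Real.sqrt (β j) ≠ 0 := by
          rw [Real.sqrt_ne_zero (hβ0 j)]; exact hj
        field_simp
    simp only [h6]
    refine (Finset.sum_mul_sq_le_sq_mul_sq _ _ _).trans ?_
    have h7 : ∀ j, (inner ℝ A (U j) * Real.sqrt (β j)) ^ 2 = (inner ℝ A (U j)) ^ 2 * β j := by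
      intro j; rw [mul_pow, Real.sq_sqrt (hβ0 j)]
    have h8 : ∀ j, (inner ℝ (U j) (Wv b x) / Real.sqrt (β j)) ^ 2 =
        (inner ℝ (U j) (Wv b x)) ^ 2 / β j := by
      intro j; rw [div_pow, Real.sq_sqrt (hβ0 j)]
    simp only [h7, h8]
    calc (∑ j, (inner ℝ A (U j)) ^ 2 * β j) * ∑ j, (inner ℝ (U j) (Wv b x)) ^ 2 / β j
        ≤ 1 * ∑ j, (inner ℝ (U j) (Wv b x)) ^ 2 / β j := by
          apply mul_le_mul_of_nonneg_right ha
          exact Finset.sum_nonneg fun j _ => div_nonneg (sq_nonneg _) (hβ0 j)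
      _ = _ := one_mul _

end abstract

end Pool.CIP
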