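import Pool.Agent.CIP.H
import Pool.Agent.CIP.F

set_option autoImplicit false

open MeasureTheory Pointwise Set Filter Topology

namespace Pool.CIP

variable {n : ℕ} {μ : Measure (E n)}

/-- monomials of degree m -/
def mono (m : ℕ) (x : E n) (k : Sym (Fin n) m) : ℝ := (Multiset.map (fun i => x i) k.1).prod

lemma measurable_mono_aux (s : Multiset (Fin n)) :
    Measurable fun x : E n => (Multiset.map (fun i => x i) s).prod := by
  induction s using Multiset.induction_on with
  | empty => simp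
  | cons a s ih =>
    simp only [Multiset.map_cons, Multiset.prod_cons]
    have h1 : Measurable fun x : E n => x a := by fun_prop
    exact h1.mul ih

lemma abs_mono_aux (s : Multiset (Fin n)) (x : E n) {S : ℝ} (hS : ∀ i, |x i| ≤ S) :
    |(Multiset.map (fun i => x i) s).prod| ≤ S ^ s.card := by
  induction s using Multiset.induction_on with
  | empty => simp
  | cons a s ih =>
    simp only [Multiset.map_cons, Multiset.prod_cons, Multiset.card_cons, abs_mul, pow_succ]
    have h0 : 0 ≤ S := (abs_nonneg _).trans (hS a)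
    rw [mul_comm]
    exact mul_le_mul ih (hS a) (abs_nonneg _) (by positivity)

lemma inner_pow_eq (m : ℕ) (v x : E n) : (inner ℝ v x) ^ m =
    ∑ k : Sym (Fin n) m, ((k.1.countPerms : ℝ) * (Multiset.map (fun i => v i) k.1).prod) *
      mono m x k := by
  have h1 : inner ℝ v x = ∑ i, v i * x i := by
    rw [PiLp.inner_apply]
    refine Finset.sum_congr rfl fun i _ => ?_
    simp [mul_comm]
  rw [h1, Finset.sum_pow, Finset.sym_univ]
  refine Finset.sum_congr rfl fun k _ => ?_
  rw [mono, mul_assoc, ← Multiset.prod_map_mul]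

/-- sums of coordinates have finite moments -/
lemma integrable_sum_pow (hfin : ∀ q : ℝ, 0 < q → ∀ v : E n, mq μ q v < ⊤) {m : ℕ} (hm : 1 ≤ m) :
    Integrable (fun x : E n => (∑ i, |x i|) ^ (2 * m)) μ := by
  have h1 : ∀ i : Fin n, Integrable (fun x : E n => |x i| ^ ((2 * m : ℕ) : ℝ)) μ := by
    intro i
    have h2 := integrable_mom hfin (q := ((2 * m : ℕ) : ℝ)) (by
      have : 0 < 2 * m := by omega
      exact_mod_cast this) (EuclideanSpace.single i (1:ℝ))
    refine h2.congr (Eventually.of_forall fun x => ?_)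
    simp [EuclideanSpace.inner_single_left]
  have h3 : Integrable (fun x : E n => ((Finset.univ : Finset (Fin n)).card : ℝ) ^
      (((2 * m : ℕ) : ℝ) - 1) * ∑ i, |x i| ^ ((2 * m : ℕ) : ℝ)) μ :=
    (integrable_finsetSum _ fun i _ => h1 i).const_mul _
  refine h3.mono' ?_ (Eventually.of_forall fun x => ?_)
  · apply Measurable.aestronglyMeasurable
    fun_prop
  · have h4 := Real.rpow_sum_le_const_mul_sum_rpow (Finset.univ : Finset (Fin n)) (fun i => x i)
      (p := ((2 * m : ℕ) : ℝ)) (by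
        have : 1 ≤ 2 * m := by omega
        exact_mod_cast this)
    rw [Real.rpow_natCast] at h4
    rw [Real.norm_eq_abs, abs_of_nonneg (by positivity)]
    exact h4

lemma integrable_mono (hfin : ∀ q : ℝ, 0 < q → ∀ v : E n, mq μ q v < ⊤) {m : ℕ} (hm : 1 ≤ m)
    (i j : Sym (Fin n) m) : Integrable (fun x : E n => mono m x i * mono m x j) μ := by
  refine (integrable_sum_pow hfin hm).mono' ?_ (Eventually.of_forall fun x => ?_)
  · exact ((measurable_mono_aux i.1).mul (measurable_mono_aux j.1)).aestronglyMeasurable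
  · have hS : ∀ k, |x k| ≤ ∑ i, |x i| :=
      fun k => Finset.single_le_sum (f := fun i => |x i|) (fun i _ => abs_nonneg _) (Finset.mem_univ k)
    have h1 := abs_mono_aux i.1 x hS
    have h2 := abs_mono_aux j.1 x hS
    rw [i.2] at h1
    rw [j.2] at h2
    rw [Real.norm_eq_abs, abs_mul, two_mul, pow_add]
    exact mul_le_mul h1 h2 (abs_nonneg _) (by positivity)

/-- the norm of the centroid body of order 2m: tail bound for an arbitrary random vector -/
lemma bad_le (hfin : ∀ q : ℝ, 0 < q → ∀ v : E n, mq μ q v < ⊤) {m : ℕ} (hm : 1 ≤ m) {lam : ℝ}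
    (hl : 0 < lam) : μ (bad μ (2 * m : ℕ) lam) ≤
      (n.multichoose m : ENNReal) / ENNReal.ofReal (lam ^ (2 * m)) := by
  obtain ⟨K, hKm, hK0, hKint, hKae⟩ := christoffel (ν := μ) (fun x : E n => mono m x)
    (fun k => measurable_mono_aux k.1) (integrable_mono hfin hm)
  have hcard : Fintype.card (Sym (Fin n) m) = n.multichoose m := by
    rw [Sym.card_sym_eq_multichoose, Fintype.card_fin]
  rw [hcard] at hKint
  have hsub : ∀ᵐ x ∂μ, x ∈ bad μ (2 * m : ℕ) lam →
      x ∈ {x | ENNReal.ofReal (lam ^ (2 * m)) ≤ ENNReal.ofReal (K x)} := by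
    filter_upwards [hKae] with x hx hbad
    obtain ⟨v, hv, hlv⟩ := hbad
    have hq0 : (0:ℝ) < ((2 * m : ℕ) : ℝ) := by
      have : 0 < 2 * m := by omega
      exact_mod_cast this
    have h1 := hx (fun k => (k.1.countPerms : ℝ) * (Multiset.map (fun i => v i) k.1).prod)
    have h2 : ∀ y : E n, (∑ k : Sym (Fin n) m, ((k.1.countPerms : ℝ) *
        (Multiset.map (fun i => v i) k.1).prod) * mono m y k) ^ 2 =
        |inner ℝ v y| ^ ((2 * m : ℕ) : ℝ) := by
      intro y
      rw [← inner_pow_eq, Real.rpow_natCast, ← pow_mul, mul_comm m 2, pow_mul, pow_mul, sq_abs]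
    simp only [h2] at h1
    have h3 : ∫ y, |inner ℝ v y| ^ ((2 * m : ℕ) : ℝ) ∂μ ≤ 1 := by
      rw [mq_eq hfin hq0] at hv
      rw [← ENNReal.ofReal_one] at hv
      exact (ENNReal.ofReal_le_ofReal_iff zero_le_one).1 hv
    have h4 := h1 h3
    rw [Real.rpow_natCast] at h4
    apply ENNReal.ofReal_le_ofReal
    exact (pow_le_pow_left₀ hl.le hlv.le _).trans h4
  calc μ (bad μ (2 * m : ℕ) lam)
      ≤ μ {x | ENNReal.ofReal (lam ^ (2 * m)) ≤ ENNReal.ofReal (K x)} := measure_mono_ae hsub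
    _ ≤ (∫⁻ x, ENNReal.ofReal (K x) ∂μ) / ENNReal.ofReal (lam ^ (2 * m)) :=
        meas_ge_le_lintegral_div (by fun_prop) (by simpa using by positivity) (by simp)
    _ ≤ _ := ENNReal.div_le_div_right hKint _

/-- the number of monomials -/
lemma multichoose_le (n : ℕ) {m : ℕ} (hm : 1 ≤ m) :
    (n.multichoose m : ℝ) ≤ (Real.exp 1 * (n + m) / m) ^ m := by
  have hm0 : (0:ℝ) < m := by exact_mod_cast hm
  rw [Nat.multichoose_eq]
  have h1 : (((n + m - 1).choose m : ℕ) : ℝ) ≤ ((n + m - 1 : ℕ) : ℝ) ^ m / (m.factorial : ℝ) :=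
    Nat.choose_le_pow_div m (n + m - 1)
  have h2 : ((n + m - 1 : ℕ) : ℝ) ≤ (n:ℝ) + m := by
    have : n + m - 1 ≤ n + m := Nat.sub_le _ _
    exact_mod_cast this
  have h3 := Real.pow_div_factorial_le_exp (m:ℝ) hm0.le m
  have h4 : (1:ℝ) / (m.factorial : ℝ) ≤ Real.exp 1 ^ m / (m:ℝ) ^ m := by
    rw [← Real.exp_nat_mul, mul_one, le_div_iff₀ (by positivity)]
    calc 1 / (m.factorial : ℝ) * (m:ℝ) ^ m = (m:ℝ) ^ m / m.factorial := by ring
      _ ≤ _ := h3
  calc (((n + m - 1).choose m : ℕ) : ℝ) ≤ ((n + m - 1 : ℕ) : ℝ) ^ m / (m.factorial : ℝ) := h1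
    _ = ((n + m - 1 : ℕ) : ℝ) ^ m * (1 / (m.factorial : ℝ)) := by ring
    _ ≤ ((n:ℝ) + m) ^ m * (Real.exp 1 ^ m / (m:ℝ) ^ m) := by gcongr
    _ = _ := by rw [div_pow, mul_pow]; ring

end Pool.CIP
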