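import Pool.Agent.CIP.G

set_option autoImplicit false

open MeasureTheory Pointwise Set Filter Topology

namespace Pool.CIP

variable {n : ℕ} {μ : Measure (E n)}

/-- log-concavity for the half sum -/
lemma LC.half [IsProbabilityMeasure μ] (h : LC μ) {K L U : Set (E n)}
    (hK : IsCompact K) (hL : IsCompact L)
    (hU : ∀ x ∈ K, ∀ y ∈ L, (1/2:ℝ) • x + (1/2:ℝ) • y ∈ U) :
    μ.real K * μ.real L ≤ μ.real U ^ 2 := by
  have key := h.closed hK.isClosed hL.isClosed (t := 1/2) (by norm_num) (by norm_num) (U := U) (by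
    intro x hx y hy
    have := hU x hx y hy
    norm_num at this ⊢
    exact this)
  have key2 := ENNReal.toReal_mono (measure_ne_top μ _) key
  rw [ENNReal.toReal_mul, ← ENNReal.toReal_rpow, ← ENNReal.toReal_rpow] at key2
  have key3 : μ.real K ^ (1/2:ℝ) * μ.real L ^ (1/2:ℝ) ≤ μ.real U := by
    have e : (1:ℝ) - 1/2 = 1/2 := by norm_num
    rw [e] at key2
    exact key2
  have h0 : 0 ≤ μ.real K ^ (1/2:ℝ) * μ.real L ^ (1/2:ℝ) := by positivity
  have h1 := pow_le_pow_left₀ h0 key3 2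
  refine le_trans (le_of_eq ?_) h1
  rw [mul_pow, ← Real.rpow_natCast, ← Real.rpow_natCast, ← Real.rpow_mul measureReal_nonneg,
    ← Real.rpow_mul measureReal_nonneg]
  norm_num

/-- half of a symmetric set lies on the positive side of a functional -/
lemma half_sym [IsProbabilityMeasure μ] (hsym : μ.map (fun x => -x) = μ) {A : Set (E n)}
    (hAc : IsCompact A) (hAs : ∀ x ∈ A, -x ∈ A) (v : E n) :
    μ.real A ≤ 2 * μ.real (A ∩ hs v 0) := by
  have hm : MeasurableSet (A ∩ hs v 0) := hAc.measurableSet.inter (isClosed_hs v 0).measurableSet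
  have h1 : A ⊆ (A ∩ hs v 0) ∪ {x | -x ∈ A ∩ hs v 0} := by
    intro x hx
    rcases le_total 0 (inner ℝ v x) with h | h
    · exact Or.inl ⟨hx, h⟩
    · refine Or.inr ⟨hAs x hx, ?_⟩
      simp only [hs, mem_ofPred_eq, inner_neg_right]
      linarith
  have h2 : μ.real {x | -x ∈ A ∩ hs v 0} = μ.real (A ∩ hs v 0) := by
    simp only [Measure.real]
    rw [measure_neg hsym _ hm]
  calc μ.real A ≤ μ.real ((A ∩ hs v 0) ∪ {x | -x ∈ A ∩ hs v 0}) :=
        measureReal_mono h1 (measure_ne_top μ _)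
    _ ≤ μ.real (A ∩ hs v 0) + μ.real {x | -x ∈ A ∩ hs v 0} := measureReal_union_le _ _
    _ = 2 * μ.real (A ∩ hs v 0) := by rw [h2]; ring

lemma exists_compact_real [IsProbabilityMeasure μ] {B : Set (E n)} (hB : MeasurableSet B) {m : ℝ}
    (hm : m < μ.real B) : ∃ K ⊆ B, IsCompact K ∧ m < μ.real K := by
  have he : 0 < (μ.real B - m) / 2 := by linarith
  obtain ⟨K, hKB, hKc, hK⟩ := hB.exists_isCompact_lt_add (measure_ne_top μ _)
    (ε := ENNReal.ofReal ((μ.real B - m) / 2)) (by simpa using he)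
  refine ⟨K, hKB, hKc, ?_⟩
  have h1 := ENNReal.toReal_mono (by finiteness) hK.le
  rw [ENNReal.toReal_add (measure_ne_top μ _) (by simp), ENNReal.toReal_ofReal he.le] at h1
  have h3 : μ.real B ≤ μ.real K + (μ.real B - m) / 2 := h1
  linarith

/-- the doubling lemma -/
lemma double [IsProbabilityMeasure μ] (hsym : μ.map (fun x => -x) = μ) (hlc : LC μ)
    {A : Set (E n)} (hAc : IsCompact A) (hAs : ∀ x ∈ A, -x ∈ A) {α : ℝ} (hα : 0 < α)
    (hA : α ≤ μ.real A) {T : Set (E n)} (hT : ∀ v ∈ T, ∀ a ∈ A, inner ℝ v a ≤ (1:ℝ))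
    {S : Set (E n)} (hS : MeasurableSet S) {t κ : ℝ} (hκ0 : 0 ≤ κ)
    (hκ : ∀ v ∈ T, μ.real (S ∩ hs v t) ≤ κ) {N : ℕ} (hN0 : 0 < N)
    (hN : N * κ ≤ μ.real S / 2) :
    ∃ S' ⊆ S, MeasurableSet S' ∧ μ.real S / 2 ≤ μ.real S' ∧
      ∀ v ∈ T, μ.real (S' ∩ hs v (t + 1)) ≤ 2 / (α * N ^ 2) := by
  by_contra hcon
  push Not at hcon
  have h' : ∀ S' : Set (E n), ∃ v : E n, S' ⊆ S → MeasurableSet S' → μ.real S / 2 ≤ μ.real S' →
      v ∈ T ∧ 2 / (α * N ^ 2) < μ.real (S' ∩ hs v (t + 1)) := by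
    intro S'
    by_cases h : S' ⊆ S ∧ MeasurableSet S' ∧ μ.real S / 2 ≤ μ.real S'
    · obtain ⟨v, hv, hv'⟩ := hcon S' h.1 h.2.1 h.2.2
      exact ⟨v, fun _ _ _ => ⟨hv, hv'⟩⟩
    · refine ⟨0, fun h1 h2 h3 => absurd ⟨h1, h2, h3⟩ h⟩
  choose c hc using h'
  set F : Set (E n) → Set (E n) := fun R => R \ hs (c R) t with hF
  set Sq : ℕ → Set (E n) := fun i => F^[i] S with hSq
  have hsucc : ∀ i, Sq (i + 1) = Sq i \ hs (c (Sq i)) t := by
    intro i
    simp only [hSq, Function.iterate_succ_apply', hF]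
  have hNr : (0:ℝ) < N := by exact_mod_cast hN0
  have hprop : ∀ i : ℕ, i ≤ N → Sq i ⊆ S ∧ MeasurableSet (Sq i) ∧
      μ.real S - i * κ ≤ μ.real (Sq i) := by
    intro i
    induction i with
    | zero => intro _; simp [hSq, hS]
    | succ i ih =>
      intro hi
      obtain ⟨h1, h2, h3⟩ := ih (by omega)
      have h4 : (i:ℝ) * κ ≤ N * κ :=
        mul_le_mul_of_nonneg_right (by exact_mod_cast (by omega : i ≤ N)) hκ0
      have h5 : μ.real S / 2 ≤ μ.real (Sq i) := by linarith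
      have h6 := (hc (Sq i) h1 h2 h5).1
      rw [hsucc]
      refine ⟨sdiff_subset.trans h1, h2.diff (isClosed_hs _ _).measurableSet, ?_⟩
      have h7 : μ.real (Sq i) ≤ μ.real (Sq i \ hs (c (Sq i)) t) +
          μ.real (Sq i ∩ hs (c (Sq i)) t) := by
        refine le_trans (measureReal_mono ?_ (measure_ne_top μ _)) (measureReal_union_le _ _)
        intro x hx
        by_cases hx' : x ∈ hs (c (Sq i)) t
        · exact Or.inr ⟨hx, hx'⟩
        · exact Or.inl ⟨hx, hx'⟩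
      have h8 : μ.real (Sq i ∩ hs (c (Sq i)) t) ≤ κ :=
        (measureReal_mono (inter_subset_inter_left _ h1) (measure_ne_top μ _)).trans (hκ _ h6)
      push_cast
      linarith
  have hanti : ∀ i j : ℕ, i < j → Sq j ⊆ Sq i \ hs (c (Sq i)) t := by
    intro i j hij
    induction j with
    | zero => omega
    | succ j ih =>
      rcases Nat.lt_succ_iff_lt_or_eq.1 hij with h | h
      · rw [hsucc]
        exact sdiff_subset.trans (ih h)
      · subst h
        rw [hsucc]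
  have hmass : ∀ i : ℕ, i < N → μ.real S / 2 ≤ μ.real (Sq i) := by
    intro i hi
    obtain ⟨_, _, h3⟩ := hprop i hi.le
    have h4 : (i:ℝ) * κ ≤ N * κ :=
      mul_le_mul_of_nonneg_right (by exact_mod_cast hi.le) hκ0
    linarith
  have hK : ∀ i : ℕ, ∃ K : Set (E n), IsCompact K ∧ (i < N → K ⊆ Sq i ∩ hs (c (Sq i)) (t + 1) ∧
      2 / (α * N ^ 2) < μ.real K) := by
    intro i
    by_cases hi : i < N
    · obtain ⟨h1, h2, _⟩ := hprop i hi.le
      obtain ⟨K, hK1, hK2, hK3⟩ := exists_compact_real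
        (h2.inter (isClosed_hs (c (Sq i)) (t + 1)).measurableSet)
        (hc (Sq i) h1 h2 (hmass i hi)).2
      exact ⟨K, hK2, fun _ => ⟨hK1, hK3⟩⟩
    · exact ⟨∅, isCompact_empty, fun h => absurd h hi⟩
  choose K hKc hK using hK
  set Gq : ℕ → Set (E n) := fun i =>
    (1/2:ℝ) • (A ∩ hs (c (Sq i)) 0) + (1/2:ℝ) • K i with hGq
  have hAi : ∀ i, IsCompact (A ∩ hs (c (Sq i)) 0) := fun i => hAc.inter_right (isClosed_hs _ _)
  have hGc : ∀ i, IsCompact (Gq i) := fun i => ((hAi i).smul _).add ((hKc i).smul _)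
  have hGm : ∀ i ∈ Finset.range N, 1 / (N:ℝ) < μ.real (Gq i) := by
    intro i hi
    have hi' : i < N := Finset.mem_range.1 hi
    have h1 := hlc.half (hAi i) (hKc i) (U := Gq i) (fun x hx y hy =>
      ⟨_, ⟨x, hx, rfl⟩, _, ⟨y, hy, rfl⟩, rfl⟩)
    have h2 := half_sym hsym hAc hAs (c (Sq i))
    have h3 := (hK i hi').2
    have h4 : (1 / (N:ℝ)) ^ 2 < μ.real (Gq i) ^ 2 := by
      refine lt_of_lt_of_le ?_ h1
      calc (1 / (N:ℝ)) ^ 2 = α / 2 * (2 / (α * N ^ 2)) := by
            field_simp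
        _ < α / 2 * μ.real (K i) := mul_lt_mul_of_pos_left h3 (by positivity)
        _ ≤ μ.real (A ∩ hs (c (Sq i)) 0) * μ.real (K i) :=
            mul_le_mul_of_nonneg_right (by linarith) measureReal_nonneg
    exact lt_of_pow_lt_pow_left₀ 2 measureReal_nonneg h4
  have hdisj : Set.PairwiseDisjoint (↑(Finset.range N)) Gq := by
    have main : ∀ i j : ℕ, i < j → j < N → Disjoint (Gq i) (Gq j) := by
      intro i j hij hj
      rw [Set.disjoint_left]
      rintro x ⟨_, ⟨a, ha, rfl⟩, _, ⟨b, hb, rfl⟩, hx⟩ ⟨_, ⟨a', ha', rfl⟩, _, ⟨b', hb', rfl⟩, hx'⟩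
      have e1 : (1/2:ℝ) * (t + 1) ≤ inner ℝ (c (Sq i)) x := by
        rw [← hx]
        simp only [inner_add_right, inner_smul_right]
        have h1 : 0 ≤ inner ℝ (c (Sq i)) a := ha.2
        have h2 : t + 1 ≤ inner ℝ (c (Sq i)) b := ((hK i (hij.trans hj)).1 hb).2
        linarith
      have e2 : inner ℝ (c (Sq i)) x < (1/2:ℝ) * (t + 1) := by
        rw [← hx']
        simp only [inner_add_right, inner_smul_right]
        have h0 := hprop i (by omega)
        have h1 : inner ℝ (c (Sq i)) a' ≤ (1:ℝ) :=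
          hT _ (hc (Sq i) h0.1 h0.2.1 (hmass i (hij.trans hj))).1 a' ha'.1
        have h2 : b' ∈ Sq i \ hs (c (Sq i)) t := hanti i j hij ((hK j hj).1 hb').1
        have h3 : inner ℝ (c (Sq i)) b' < t := by
          have := h2.2
          simp only [hs, mem_ofPred_eq, not_le] at this
          exact this
        linarith
      linarith
    intro i hi j hj hij
    rcases lt_or_gt_of_ne hij with h | h
    · exact main i j h (Finset.mem_range.1 hj)
    · exact (main j i h (Finset.mem_range.1 hi)).symm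
  have hsum : ∑ i ∈ Finset.range N, μ.real (Gq i) = μ.real (⋃ i ∈ Finset.range N, Gq i) :=
    (measureReal_biUnion_finset hdisj (fun i _ => (hGc i).measurableSet)).symm
  have hle : ∑ i ∈ Finset.range N, μ.real (Gq i) ≤ 1 := by
    rw [hsum]; exact measureReal_le_one
  have hgt : (1:ℝ) < ∑ i ∈ Finset.range N, μ.real (Gq i) := by
    calc (1:ℝ) = ∑ i ∈ Finset.range N, 1 / (N:ℝ) := by
          rw [Finset.sum_const, Finset.card_range, nsmul_eq_mul]
          field_simp
      _ < ∑ i ∈ Finset.range N, μ.real (Gq i) :=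
          Finset.sum_lt_sum_of_nonempty ⟨0, Finset.mem_range.2 hN0⟩ hGm
  linarith

end Pool.CIP
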