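import Pool.Agent.CIP.K

set_option autoImplicit false

open MeasureTheory Pointwise Set Filter Topology

namespace Pool.CIP

variable {n : ℕ} {μ : Measure (E n)}

/-- iteration of the doubling lemma -/
lemma iter [IsProbabilityMeasure μ] (hsym : μ.map (fun x => -x) = μ) (hlc : LC μ)
    {A : Set (E n)} (hAc : IsCompact A) (hAs : ∀ x ∈ A, -x ∈ A) {α : ℝ} (hα : 0 < α)
    (hA : α ≤ μ.real A) {T : Set (E n)} (hT : ∀ v ∈ T, ∀ a ∈ A, inner ℝ v a ≤ (1:ℝ))
    {B : Set (E n)} (hB : MeasurableSet B) (hBpos : 0 < μ.real B) {t₀ w : ℝ} (hw0 : 0 < w)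
    (hw1 : w ≤ 1)
    (h0 : ∀ v ∈ T, μ.real (B ∩ hs v t₀) ≤ α / 128 * μ.real B ^ 2 * w) (j : ℕ) :
    ∃ S ⊆ B, MeasurableSet S ∧ 0 < μ.real S ∧
      ∀ v ∈ T, μ.real (S ∩ hs v (t₀ + j)) ≤ α / 128 * μ.real S ^ 2 * w ^ (2 ^ j) := by
  have hα1 : α ≤ 1 := hA.trans measureReal_le_one
  induction j with
  | zero =>
    refine ⟨B, subset_rfl, hB, hBpos, ?_⟩
    simpa using h0
  | succ j ih =>
    obtain ⟨S, hSB, hS, hSpos, hSk⟩ := ih
    set s := μ.real S with hs_def
    have hs1 : s ≤ 1 := measureReal_le_one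
    have hwj0 : 0 < w ^ (2 ^ j) := pow_pos hw0 _
    have hwj1 : w ^ (2 ^ j) ≤ 1 := pow_le_one₀ hw0.le hw1
    set ω := w ^ (2 ^ j) with hω
    have hκ : 0 < α / 128 * s ^ 2 * ω := by positivity
    set κ := α / 128 * s ^ 2 * ω with hκdef
    have hx : 64 ≤ s / (2 * κ) := by
      rw [le_div_iff₀ (by positivity)]
      have h1 : α * s * ω ≤ 1 := by
        have h2 : α * s ≤ 1 := by nlinarith
        have h3 : 0 ≤ α * s := by positivity
        nlinarith
      have h4 : 64 * (2 * κ) = s * (α * s * ω) := by rw [hκdef]; ring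
      rw [h4]
      nlinarith
    set N := ⌊s / (2 * κ)⌋₊ with hN
    have hNle : (N:ℝ) ≤ s / (2 * κ) := Nat.floor_le (by positivity)
    have hNgt : s / (2 * κ) < N + 1 := Nat.lt_floor_add_one _
    have hN1 : s / (4 * κ) ≤ N := by
      have h5 : s / (4 * κ) = s / (2 * κ) / 2 := by field_simp; norm_num
      rw [h5]; linarith
    have hN0 : 0 < N := by
      have : (0:ℝ) < N := by linarith
      exact_mod_cast this
    have hNκ : (N:ℝ) * κ ≤ s / 2 := by
      calc (N:ℝ) * κ ≤ s / (2 * κ) * κ := mul_le_mul_of_nonneg_right hNle hκ.le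
        _ = s / 2 := by field_simp
    obtain ⟨S', hS'S, hS', hS'm, hS'k⟩ := double hsym hlc hAc hAs hα hA hT hS hκ.le hSk hN0 hNκ
    have hS'pos : 0 < μ.real S' := by linarith
    refine ⟨S', hS'S.trans hSB, hS', hS'pos, fun v hv => ?_⟩
    have h6 := hS'k v hv
    have e1 : t₀ + ((j + 1 : ℕ) : ℝ) = t₀ + j + 1 := by push_cast; ring
    rw [e1]
    refine h6.trans ?_
    have h7 : 2 / (α * (N:ℝ) ^ 2) ≤ 2 / (α * (s / (4 * κ)) ^ 2) := by
      apply div_le_div_of_nonneg_left (by norm_num) (by positivity)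
      apply mul_le_mul_of_nonneg_left _ hα.le
      exact pow_le_pow_left₀ (by positivity) hN1 2
    refine h7.trans ?_
    have h8 : 2 / (α * (s / (4 * κ)) ^ 2) = α / 128 * (s / 2) ^ 2 * ω ^ 2 := by
      rw [hκdef]; field_simp; ring
    have h9 : w ^ (2 ^ (j + 1)) = ω ^ 2 := by rw [hω, ← pow_mul, pow_succ]
    rw [h8, h9]
    have h10 : (s / 2) ^ 2 ≤ μ.real S' ^ 2 := pow_le_pow_left₀ (by positivity) hS'm 2
    gcongr

/-- the iteration against a net of functionals -/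
lemma core_net [IsProbabilityMeasure μ] (hsym : μ.map (fun x => -x) = μ) (hlc : LC μ)
    {A : Set (E n)} (hAc : IsCompact A) (hAs : ∀ x ∈ A, -x ∈ A) {α : ℝ} (hα : 0 < α)
    (hA : α ≤ μ.real A) {T : Set (E n)} (hT : ∀ v ∈ T, ∀ a ∈ A, inner ℝ v a ≤ (1:ℝ))
    {B : Set (E n)} (hB : MeasurableSet B) {t₀ w : ℝ} (hw0 : 0 < w)
    (hw1 : w ≤ 1)
    (h0 : ∀ v ∈ T, μ.real (B ∩ hs v t₀) ≤ α / 128 * μ.real B ^ 2 * w) (J : ℕ)
    (F : Finset (E n)) (hF : ∀ v ∈ F, v ∈ T) (hcov : ∀ x ∈ B, ∃ v ∈ F, x ∈ hs v (t₀ + J))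
    {M : ℝ} (hM : (F.card : ℝ) ≤ M) (hMw : M * w ^ (2 ^ J) < 128) : μ.real B = 0 := by
  by_contra hne
  have hBpos : 0 < μ.real B := lt_of_le_of_ne measureReal_nonneg (Ne.symm hne)
  have hα1 : α ≤ 1 := hA.trans measureReal_le_one
  obtain ⟨S, hSB, hS, hSpos, hSk⟩ := iter hsym hlc hAc hAs hα hA hT hB hBpos hw0 hw1 h0 J
  have h1 : μ.real S ≤ ∑ v ∈ F, μ.real (S ∩ hs v (t₀ + J)) := by
    refine le_trans (measureReal_mono (s₂ := ⋃ v ∈ F, S ∩ hs v (t₀ + J)) ?_ (measure_ne_top μ _))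
      (measureReal_biUnion_finset_le _ _)
    intro x hx
    obtain ⟨v, hv, hxv⟩ := hcov x (hSB hx)
    simp only [mem_iUnion]
    exact ⟨v, hv, hx, hxv⟩
  have h2 : ∑ v ∈ F, μ.real (S ∩ hs v (t₀ + J)) ≤
      F.card * (α / 128 * μ.real S ^ 2 * w ^ (2 ^ J)) := by
    rw [← nsmul_eq_mul]
    exact Finset.sum_le_card_nsmul _ _ _ (fun v hv => hSk v (hF v hv))
  set s := μ.real S with hs_def
  have hs1 : s ≤ 1 := measureReal_le_one
  have hω0 : 0 < w ^ (2 ^ J) := pow_pos hw0 _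
  have h3 : (F.card : ℝ) * (α / 128 * s ^ 2 * w ^ (2 ^ J)) ≤
      (M * w ^ (2 ^ J)) * (α * s ^ 2 / 128) := by
    calc (F.card : ℝ) * (α / 128 * s ^ 2 * w ^ (2 ^ J))
        ≤ M * (α / 128 * s ^ 2 * w ^ (2 ^ J)) := mul_le_mul_of_nonneg_right hM (by positivity)
      _ = _ := by ring
  have h4 : (M * w ^ (2 ^ J)) * (α * s ^ 2 / 128) < 128 * (α * s ^ 2 / 128) :=
    mul_lt_mul_of_pos_right hMw (by positivity)
  have h5 : 128 * (α * s ^ 2 / 128) ≤ s := by
    have : α * s ^ 2 ≤ s := by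
      have h6 : α * s ≤ 1 := by nlinarith
      nlinarith
    linarith
  linarith

/-- a packing bound: a net of a symmetric convex body by halves of itself -/
lemma exists_net {T : Set (E n)} (hTc : IsCompact T) (hTconv : Convex ℝ T)
    (hTs : ∀ x ∈ T, -x ∈ T) (hTi : (interior T).Nonempty) :
    ∃ F : Finset (E n), (∀ v ∈ F, v ∈ T) ∧ F.card ≤ 5 ^ n ∧
      ∀ v ∈ T, ∃ w ∈ F, ∃ u ∈ T, v - w = (1/2:ℝ) • u := by
  classical
  have hT0 : (0 : E n) ∈ T := by
    obtain ⟨x, hx⟩ := hTi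
    have hx' := interior_subset hx
    have := hTconv hx' (hTs x hx') (by norm_num : (0:ℝ) ≤ 1/2) (by norm_num : (0:ℝ) ≤ 1/2)
      (by norm_num)
    simpa using this
  set P : Finset (E n) → Prop := fun F => (∀ v ∈ F, v ∈ T) ∧
    ∀ v ∈ F, ∀ w ∈ F, v ≠ w → ∀ u ∈ T, v - w ≠ (1/2:ℝ) • u with hP
  have hvol0 : 0 < (volume : Measure (E n)).real T := by
    rw [Measure.real, ENNReal.toReal_pos_iff]
    exact ⟨Measure.measure_pos_of_nonempty_interior _ hTi, hTc.measure_lt_top⟩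
  have hcard : ∀ F, P F → F.card ≤ 5 ^ n := by
    intro F hF
    have hmeas : ∀ v : E n, MeasurableSet (v +ᵥ (1/4:ℝ) • T) := fun v =>
      ((hTc.smul (1/4:ℝ)).vadd v).measurableSet
    have hvol : ∀ v : E n, (volume : Measure (E n)).real (v +ᵥ (1/4:ℝ) • T) =
        (1/4:ℝ) ^ n * (volume : Measure (E n)).real T := by
      intro v
      simp only [Measure.real]
      rw [measure_vadd, Measure.addHaar_smul, ENNReal.toReal_mul, finrank_euclideanSpace_fin,
        ENNReal.toReal_ofReal (abs_nonneg _), abs_of_nonneg (by positivity)]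
    have hdisj : Set.PairwiseDisjoint (↑F) (fun v : E n => v +ᵥ (1/4:ℝ) • T) := by
      intro v hv w hw hvw
      rw [Function.onFun, Set.disjoint_left]
      rintro x ⟨_, ⟨a, ha, rfl⟩, hx⟩ ⟨_, ⟨b, hb, rfl⟩, hx'⟩
      simp only [vadd_eq_add] at hx hx'
      refine hF.2 v hv w hw hvw ((1/2:ℝ) • b + (1/2:ℝ) • (-a)) ?_ ?_
      · exact hTconv hb (hTs a ha) (by norm_num) (by norm_num) (by norm_num)
      · have h1 : v + (1/4:ℝ) • a = w + (1/4:ℝ) • b := hx.trans hx'.symm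
        have h2 : v - w = (1/4:ℝ) • b - (1/4:ℝ) • a := by
          rw [sub_eq_sub_iff_add_eq_add, h1]
          abel
        rw [h2]
        module
    have hsum : ∑ v ∈ F, (volume : Measure (E n)).real (v +ᵥ (1/4:ℝ) • T) ≤
        (volume : Measure (E n)).real ((5/4:ℝ) • T) := by
      rw [← measureReal_biUnion_finset hdisj (fun v _ => hmeas v)
        (fun v _ => ((hTc.smul (1/4:ℝ)).vadd v).measure_lt_top.ne)]
      refine measureReal_mono ?_ (hTc.smul _).measure_lt_top.ne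
      intro x hx
      simp only [mem_iUnion] at hx
      obtain ⟨v, hv, _, ⟨a, ha, rfl⟩, rfl⟩ := hx
      refine ⟨(4/5:ℝ) • v + (1/5:ℝ) • a, hTconv (hF.1 v hv) ha (by norm_num) (by norm_num)
        (by norm_num), ?_⟩
      simp only [vadd_eq_add]
      module
    simp only [hvol] at hsum
    rw [Finset.sum_const, nsmul_eq_mul] at hsum
    have h54 : (volume : Measure (E n)).real ((5/4:ℝ) • T) =
        (5/4:ℝ) ^ n * (volume : Measure (E n)).real T := by
      simp only [Measure.real]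
      rw [Measure.addHaar_smul, ENNReal.toReal_mul, finrank_euclideanSpace_fin,
        ENNReal.toReal_ofReal (abs_nonneg _), abs_of_nonneg (by positivity)]
    rw [h54] at hsum
    have h55 : ((5/4:ℝ)) ^ n = 5 ^ n * (1/4:ℝ) ^ n := by rw [← mul_pow]; norm_num
    rw [h55] at hsum
    have h56 : (0:ℝ) < (1/4:ℝ) ^ n * (volume : Measure (E n)).real T := by positivity
    have h57 : (F.card : ℝ) * ((1/4:ℝ) ^ n * (volume : Measure (E n)).real T) ≤
        5 ^ n * ((1/4:ℝ) ^ n * (volume : Measure (E n)).real T) := by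
      calc _ ≤ _ := hsum
        _ = _ := by ring
    have h58 := le_of_mul_le_mul_right h57 h56
    exact_mod_cast h58
  obtain ⟨F, hF, hmax⟩ : ∃ F, P F ∧ ∀ F', P F' → F'.card ≤ F.card := by
    set Q : ℕ → Prop := fun k => ∃ F, P F ∧ F.card = k with hQ
    have hQ0 : Q 0 := ⟨∅, ⟨by simp, by simp⟩, by simp⟩
    obtain ⟨F, hF, hFk⟩ := Nat.findGreatest_spec (P := Q) (Nat.zero_le (5 ^ n)) hQ0
    refine ⟨F, hF, fun F' hF' => ?_⟩
    rw [hFk]
    exact Nat.le_findGreatest (hcard F' hF') ⟨F', hF', rfl⟩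
  refine ⟨F, hF.1, hcard F hF, fun v hv => ?_⟩
  by_cases hvF : v ∈ F
  · exact ⟨v, hvF, 0, hT0, by simp⟩
  · by_contra hcon
    push Not at hcon
    have hP' : P (insert v F) := by
      refine ⟨?_, ?_⟩
      · intro u hu
        rcases Finset.mem_insert.1 hu with h | h
        · rw [h]; exact hv
        · exact hF.1 u h
      · intro a ha b hb hab u hu heq
        rcases Finset.mem_insert.1 ha with h | h <;> rcases Finset.mem_insert.1 hb with h' | h'
        · exact hab (h.trans h'.symm)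
        · rw [h] at heq
          exact hcon b h' u hu heq
        · rw [h'] at heq
          refine hcon a h (-u) (hTs u hu) ?_
          rw [smul_neg, ← heq]; abel
        · exact hF.2 a h b h' hab u hu heq
    have := hmax _ hP'
    rw [Finset.card_insert_of_notMem hvF] at this
    omega

end Pool.CIP
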