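import Pool.Agent.CIP.L

set_option autoImplicit false

open MeasureTheory Pointwise Set Filter Topology

namespace Pool.CIP

variable {n : ℕ} {μ : Measure (E n)}

lemma memLp_inner (hfin : ∀ q : ℝ, 0 < q → ∀ v : E n, mq μ q v < ⊤) {q : ℝ} (hq : 0 < q)
    (v : E n) : MemLp (fun y : E n => (inner ℝ v y : ℝ)) (ENNReal.ofReal q) μ := by
  rw [← integrable_norm_rpow_iff (by fun_prop) (by simpa using hq) (by simp)]
  rw [ENNReal.toReal_ofReal hq.le]
  exact integrable_mom hfin hq v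

lemma hm_eq_eLpNorm (hfin : ∀ q : ℝ, 0 < q → ∀ v : E n, mq μ q v < ⊤) {q : ℝ} (hq : 0 < q)
    (v : E n) :
    hm μ q v = (eLpNorm (fun y : E n => (inner ℝ v y : ℝ)) (ENNReal.ofReal q) μ).toReal := by
  rw [(memLp_inner hfin hq v).eLpNorm_eq_integral_rpow_norm (by simpa using hq) (by simp),
    ENNReal.toReal_ofReal hq.le, ENNReal.toReal_ofReal (by positivity)]
  unfold hm
  rw [one_div]
  rfl

lemma hm_add (hfin : ∀ q : ℝ, 0 < q → ∀ v : E n, mq μ q v < ⊤) {q : ℝ} (hq : 1 ≤ q)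
    (v w : E n) : hm μ q (v + w) ≤ hm μ q v + hm μ q w := by
  have hq0 : 0 < q := by linarith
  rw [hm_eq_eLpNorm hfin hq0, hm_eq_eLpNorm hfin hq0, hm_eq_eLpNorm hfin hq0,
    ← ENNReal.toReal_add (memLp_inner hfin hq0 v).eLpNorm_ne_top
      (memLp_inner hfin hq0 w).eLpNorm_ne_top]
  apply ENNReal.toReal_mono (by
    have h1 := (memLp_inner hfin hq0 v).eLpNorm_ne_top
    have h2 := (memLp_inner hfin hq0 w).eLpNorm_ne_top
    exact ENNReal.add_ne_top.2 ⟨h1, h2⟩)
  have h := eLpNorm_add_le (memLp_inner hfin hq0 v).aestronglyMeasurable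
    (memLp_inner hfin hq0 w).aestronglyMeasurable
    (p := ENNReal.ofReal q) (by simpa using hq)
  refine le_trans (le_of_eq ?_) h
  congr 1
  ext y
  simp [inner_add_left]

lemma hm_smul {q : ℝ} (hq : 0 < q) (c : ℝ) (v : E n) : hm μ q (c • v) = |c| * hm μ q v := by
  unfold hm
  have h1 : (fun y : E n => |inner ℝ (c • v) y| ^ q) = fun y => |c| ^ q * |inner ℝ v y| ^ q := by
    ext y
    rw [inner_smul_left, abs_mul, Real.mul_rpow (abs_nonneg _) (abs_nonneg _)]
    simp
  rw [h1, integral_const_mul, Real.mul_rpow (by positivity)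
    (integral_nonneg fun y => by positivity), ← Real.rpow_mul (abs_nonneg _),
    mul_one_div_cancel hq.ne', Real.rpow_one]

/-- the centroid body has the q-moments as support function -/
lemma exists_support (hfin : ∀ q : ℝ, 0 < q → ∀ v : E n, mq μ q v < ⊤) {q : ℝ} (hq : 1 ≤ q)
    (v : E n) {C : ℝ} (hC : 0 ≤ C) : ∃ z ∈ G μ q C, inner ℝ v z = C * hm μ q v := by
  have hq0 : 0 < q := by linarith
  rcases eq_or_ne v 0 with hv | hv
  · refine ⟨0, zero_mem_G hC, ?_⟩
    have : hm μ q (0 : E n) = 0 := by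
      have := hm_smul (μ := μ) hq0 0 (0 : E n)
      simpa using this
    rw [hv, this]; simp
  set f : E n →ₗ.[ℝ] ℝ := LinearPMap.mkSpanSingleton v (hm μ q v) hv with hf
  obtain ⟨g, hg1, hg2⟩ := exists_extension_of_le_sublinear f (hm μ q)
    (fun c hc x => by rw [hm_smul hq0, abs_of_pos hc]) (hm_add hfin hq) (by
      rintro ⟨x, hx⟩
      have hx' : x ∈ Submodule.span ℝ {v} := hx
      obtain ⟨c, rfl⟩ := Submodule.mem_span_singleton.1 hx'
      have h1 : f ⟨c • v, hx⟩ = c • hm μ q v :=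
        LinearPMap.mkSpanSingleton'_apply v (hm μ q v) _ c hx
      rw [h1, hm_smul hq0, smul_eq_mul]
      exact mul_le_mul_of_nonneg_right (le_abs_self c) (hm_nonneg q v))
  have hgv : g v = hm μ q v := by
    have hmem : v ∈ f.domain := by
      rw [hf]
      exact Submodule.mem_span_singleton_self v
    have h1 := hg1 ⟨v, hmem⟩
    have h2 : f ⟨v, hmem⟩ = hm μ q v :=
      LinearPMap.mkSpanSingleton'_apply_self v (hm μ q v) _ hmem
    rw [← h2, ← h1]
  set G' : E n →L[ℝ] ℝ := LinearMap.toContinuousLinearMap g with hG'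
  set z : E n := (InnerProductSpace.toDual ℝ (E n)).symm G' with hz
  have hin : ∀ w : E n, inner ℝ w z = g w := by
    intro w
    rw [real_inner_comm, hz, InnerProductSpace.toDual_symm_apply]
    rfl
  have hneg : ∀ w : E n, hm μ q (-w) = hm μ q w := by
    intro w
    have := hm_smul (μ := μ) hq0 (-1) w
    simpa using this
  refine ⟨C • z, fun w => ?_, ?_⟩
  · rw [inner_smul_right, abs_mul, abs_of_nonneg hC, hin w]
    apply mul_le_mul_of_nonneg_left _ hC
    rw [abs_le]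
    refine ⟨?_, hg2 w⟩
    have := hg2 (-w)
    rw [map_neg, hneg] at this
    linarith
  · rw [inner_smul_right, hin v, hgv]

/-- separation from a Minkowski sum -/
lemma exists_sep {A D : Set (E n)} (hAc : IsCompact A) (hAconv : Convex ℝ A) (hA0 : (0 : E n) ∈ A)
    (hDc : IsCompact D) (hDconv : Convex ℝ D) (hD0 : (0 : E n) ∈ D) {L : ℝ} (hL : 0 < L)
    {x : E n} (hx : x ∉ L • A + D) :
    ∃ v : E n, (∀ a ∈ A, inner ℝ v a ≤ (1:ℝ)) ∧ (∀ z ∈ D, inner ℝ v z ≤ L) ∧
      L < inner ℝ v x := by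
  have hconv : Convex ℝ (L • A + D) := (hAconv.smul L).add hDconv
  have hcl : IsClosed (L • A + D) := ((hAc.smul L).add hDc).isClosed
  obtain ⟨f, u, h1, h2⟩ := geometric_hahn_banach_closed_point hconv hcl hx
  have hu : 0 < u := by
    have := h1 0 ⟨0, ⟨0, hA0, by simp⟩, 0, hD0, by simp⟩
    simpa using this
  set y : E n := (InnerProductSpace.toDual ℝ (E n)).symm f with hy
  have hin : ∀ w : E n, inner ℝ y w = f w := fun w => InnerProductSpace.toDual_symm_apply
  refine ⟨(L / u) • y, fun a ha => ?_, fun z hz => ?_, ?_⟩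
  · rw [real_inner_smul_left, hin]
    have := h1 (L • a) ⟨L • a, ⟨a, ha, rfl⟩, 0, hD0, by simp⟩
    rw [map_smul, smul_eq_mul] at this
    rw [div_mul_eq_mul_div, div_le_one hu]
    exact this.le
  · rw [real_inner_smul_left, hin]
    have := h1 z ⟨0, ⟨0, hA0, by simp⟩, z, hz, by simp⟩
    rw [div_mul_eq_mul_div, div_le_iff₀ hu]
    exact mul_le_mul_of_nonneg_left this.le hL.le
  · rw [real_inner_smul_left, hin, div_mul_eq_mul_div, lt_div_iff₀ hu]
    exact mul_lt_mul_of_pos_left h2 hL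

lemma convex_G {q lam : ℝ} : Convex ℝ (G μ q lam) := by
  intro x hx y hy a b ha hb hab v
  rw [inner_add_right, inner_smul_right, inner_smul_right]
  calc |a * inner ℝ v x + b * inner ℝ v y| ≤ |a * inner ℝ v x| + |b * inner ℝ v y| := abs_add_le _ _
    _ = a * |inner ℝ v x| + b * |inner ℝ v y| := by
        rw [abs_mul, abs_mul, abs_of_nonneg ha, abs_of_nonneg hb]
    _ ≤ a * (lam * hm μ q v) + b * (lam * hm μ q v) :=
        add_le_add (mul_le_mul_of_nonneg_left (hx v) ha) (mul_le_mul_of_nonneg_left (hy v) hb)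
    _ = lam * hm μ q v := by rw [← add_mul, hab, one_mul]

lemma neg_mem_G {q lam : ℝ} {x : E n} (hx : x ∈ G μ q lam) : -x ∈ G μ q lam := by
  intro v
  rw [inner_neg_right, abs_neg]
  exact hx v

/-- Chebyshev at level L/4 -/
lemma cheb [IsProbabilityMeasure μ] (hfin : ∀ q : ℝ, 0 < q → ∀ v : E n, mq μ q v < ⊤) {q : ℝ}
    (hq : 0 < q) {v : E n} {L C : ℝ} (hL : 0 < L) (hC : 0 < C) (h : C * hm μ q v ≤ L) :
    μ.real (hs v (L / 4)) ≤ (4 / C) ^ q := by
  have hm0 : 0 ≤ ∫ y, |inner ℝ v y| ^ q ∂μ := integral_nonneg fun y => by positivity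
  have h1 : ∫ y, |inner ℝ v y| ^ q ∂μ ≤ (L / C) ^ q := by
    have h2 : hm μ q v ≤ L / C := by rw [le_div_iff₀' hC]; exact h
    have h3 := Real.rpow_le_rpow (hm_nonneg q v) h2 hq.le
    unfold hm at h3
    rwa [← Real.rpow_mul hm0, one_div, inv_mul_cancel₀ hq.ne', Real.rpow_one] at h3
  have hmark := mul_meas_ge_le_integral_of_nonneg
      (Eventually.of_forall fun y => by positivity : 0 ≤ᵐ[μ] fun y => |inner ℝ v y| ^ q)
      (integrable_mom hfin hq v) ((L / 4) ^ q)
  have hsub : hs v (L / 4) ⊆ {y : E n | (L / 4) ^ q ≤ |inner ℝ v y| ^ q} := by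
    intro y hy
    simp only [hs, mem_ofPred_eq] at hy ⊢
    exact Real.rpow_le_rpow (by positivity) (hy.trans (le_abs_self _)) hq.le
  have h4 : μ.real (hs v (L / 4)) ≤ μ.real {y : E n | (L / 4) ^ q ≤ |inner ℝ v y| ^ q} :=
    measureReal_mono hsub (measure_ne_top μ _)
  have h5 : (L / 4) ^ q * μ.real (hs v (L / 4)) ≤ (L / C) ^ q :=
    (mul_le_mul_of_nonneg_left h4 (by positivity)).trans (hmark.trans h1)
  have h6 : (L / C) ^ q = (L / 4) ^ q * (4 / C) ^ q := by
    rw [← Real.mul_rpow (by positivity) (by positivity)]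
    congr 1
    field_simp
  rw [h6] at h5
  exact le_of_mul_le_mul_left h5 (by positivity)

end Pool.CIP
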