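import Pool.Agent.CIP.M

set_option autoImplicit false

open MeasureTheory Pointwise Set Filter Topology

namespace Pool.CIP

variable {n : ℕ} {μ : Measure (E n)}

lemma exp_five : (128 : ℝ) ≤ Real.exp 5 := by
  have h1 : Real.exp 5 = Real.exp 1 ^ 5 := by
    rw [← Real.exp_nat_mul]; norm_num
  have h2 := Real.exp_one_gt_d9
  have h3 : (2.7182818283 : ℝ) ^ 5 ≤ Real.exp 1 ^ 5 := by gcongr
  rw [h1]
  refine le_trans ?_ h3
  norm_num

lemma five_le : (5 : ℝ) ≤ Real.exp 2 := by
  have h1 : Real.exp 2 = Real.exp 1 ^ 2 := by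
    rw [← Real.exp_nat_mul]; norm_num
  have h2 := Real.exp_one_gt_d9
  have h3 : (2.7182818283 : ℝ) ^ 2 ≤ Real.exp 1 ^ 2 := by gcongr
  rw [h1]
  refine le_trans ?_ h3
  norm_num

lemma zero_mem_interior {A : Set (E n)} (hAconv : Convex ℝ A) (hAs : ∀ x ∈ A, -x ∈ A)
    (hAi : (interior A).Nonempty) : (0 : E n) ∈ interior A := by
  obtain ⟨x, hx⟩ := hAi
  have h1 : -x ∈ interior A := by
    have h2 : (fun y : E n => -y) ⁻¹' interior A ⊆ A := by
      intro y hy
      have := hAs _ (interior_subset hy)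
      simpa using this
    have h3 : IsOpen ((fun y : E n => -y) ⁻¹' interior A) :=
      isOpen_interior.preimage continuous_neg
    have h4 := interior_maximal h2 h3
    apply h4
    simpa using hx
  have := hAconv.interior hx h1 (by norm_num : (0:ℝ) ≤ 1/2) (by norm_num : (0:ℝ) ≤ 1/2)
    (by norm_num)
  simpa using this

/-- the core statement for compact symmetric convex bodies -/
theorem MT [IsProbabilityMeasure μ] (hsym : μ.map (fun x => -x) = μ) (hlc : LC μ)
    {A : Set (E n)} (hAc : IsCompact A) (hAconv : Convex ℝ A) (hAs : ∀ x ∈ A, -x ∈ A)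
    (hAi : (interior A).Nonempty) {q : ℝ} (hq : 1 ≤ q) (hA : Real.exp (-q) ≤ μ.real A)
    {J : ℕ} (hJ : 2 * (n:ℝ) ≤ 2 ^ J * q) {L : ℝ} (hL : 4 * ((J:ℝ) + 1) ≤ L) :
    μ.real (L • A + G μ q (4 * Real.exp 9))ᶜ ≤ Real.exp (-q) := by
  have hfin : ∀ q : ℝ, 0 < q → ∀ v : E n, mq μ q v < ⊤ := fun q hq v => mq_lt_top hsym hlc hq v
  have hq0 : 0 < q := by linarith
  have hJ0 : (0:ℝ) ≤ J := Nat.cast_nonneg J
  have hL0 : 0 < L := by linarith
  set C : ℝ := 4 * Real.exp 9 with hCdef
  have hC : 0 < C := by positivity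
  set D := G μ q C with hD
  have hDc : IsCompact D := isCompact_G q C
  have hDconv : Convex ℝ D := convex_G
  have hD0 : (0 : E n) ∈ D := zero_mem_G hC.le
  have hA0i := zero_mem_interior hAconv hAs hAi
  have hA0 : (0 : E n) ∈ A := interior_subset hA0i
  have hWc : IsCompact (L • A + D) := (hAc.smul L).add hDc
  by_contra hcon
  rw [not_le] at hcon
  set B := (L • A + D)ᶜ with hB
  have hBm : MeasurableSet B := hWc.measurableSet.compl
  set T : Set (E n) := {v | (∀ a ∈ A, inner ℝ v a ≤ (1:ℝ)) ∧ ∀ z ∈ D, inner ℝ v z ≤ L} with hT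
  have hTcl : IsClosed T := by
    have e : T = (⋂ a ∈ A, {v : E n | inner ℝ v a ≤ (1:ℝ)}) ∩
        ⋂ z ∈ D, {v : E n | inner ℝ v z ≤ L} := by
      ext v; simp [hT]
    rw [e]
    apply IsClosed.inter
    · exact isClosed_biInter fun a _ => isClosed_le (by fun_prop) continuous_const
    · exact isClosed_biInter fun a _ => isClosed_le (by fun_prop) continuous_const
  obtain ⟨r, hr, hrA⟩ : ∃ r > 0, Metric.closedBall (0 : E n) r ⊆ A :=
    Metric.nhds_basis_closedBall.mem_iff.1 (mem_interior_iff_mem_nhds.1 hA0i)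
  have hTb : Bornology.IsBounded T := by
    rw [isBounded_iff_forall_norm_le]
    refine ⟨1 / r, fun v hv => ?_⟩
    rcases eq_or_ne v 0 with h0 | h0
    · rw [h0, norm_zero]; positivity
    have hn : 0 < ‖v‖ := norm_pos_iff.2 h0
    have h1 : (r / ‖v‖) • v ∈ A := by
      apply hrA
      rw [mem_closedBall_zero_iff, norm_smul, Real.norm_eq_abs, abs_of_pos (by positivity)]
      rw [div_mul_cancel₀ _ hn.ne']
    have h2 := hv.1 _ h1
    rw [real_inner_smul_right, real_inner_self_eq_norm_sq] at h2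
    rw [le_div_iff₀ hr]
    calc ‖v‖ * r = r / ‖v‖ * ‖v‖ ^ 2 := by field_simp
      _ ≤ 1 := h2
  have hTc : IsCompact T := Metric.isCompact_of_isClosed_isBounded hTcl hTb
  have hTconv : Convex ℝ T := by
    intro v hv w hw a b ha hb hab
    refine ⟨fun x hx => ?_, fun z hz => ?_⟩
    · rw [inner_add_left, real_inner_smul_left, real_inner_smul_left]
      have h1 := mul_le_mul_of_nonneg_left (hv.1 x hx) ha
      have h2 := mul_le_mul_of_nonneg_left (hw.1 x hx) hb
      linarith
    · rw [inner_add_left, real_inner_smul_left, real_inner_smul_left]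
      have h1 := mul_le_mul_of_nonneg_left (hv.2 z hz) ha
      have h2 := mul_le_mul_of_nonneg_left (hw.2 z hz) hb
      calc _ ≤ a * L + b * L := add_le_add h1 h2
        _ = L := by rw [← add_mul, hab, one_mul]
  have hTs : ∀ x ∈ T, -x ∈ T := by
    intro v hv
    refine ⟨fun x hx => ?_, fun z hz => ?_⟩
    · have := hv.1 _ (hAs x hx)
      rw [inner_neg_right] at this
      rw [inner_neg_left]; exact this
    · have := hv.2 _ (neg_mem_G hz)
      rw [inner_neg_right] at this
      rw [inner_neg_left]; exact this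
  have hTi : (interior T).Nonempty := by
    obtain ⟨R, hR⟩ := isBounded_iff_forall_norm_le.1 hAc.isBounded
    obtain ⟨R', hR'⟩ := isBounded_iff_forall_norm_le.1 hDc.isBounded
    have hR0 : 0 ≤ R := (norm_nonneg _).trans (hR 0 hA0)
    have hR'0 : 0 ≤ R' := (norm_nonneg _).trans (hR' 0 hD0)
    refine ⟨0, mem_interior_iff_mem_nhds.2 ?_⟩
    refine Filter.mem_of_superset (Metric.ball_mem_nhds (0 : E n)
      (show 0 < min (1 / (R + 1)) (L / (R' + 1)) by positivity)) ?_
    intro v hv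
    rw [mem_ball_zero_iff, lt_min_iff] at hv
    refine ⟨fun a ha => ?_, fun z hz => ?_⟩
    · calc inner ℝ v a ≤ ‖v‖ * ‖a‖ := real_inner_le_norm v a
        _ ≤ 1 / (R + 1) * (R + 1) := by
            apply mul_le_mul hv.1.le ((hR a ha).trans (by linarith)) (norm_nonneg _) (by positivity)
        _ = 1 := by field_simp
    · calc inner ℝ v z ≤ ‖v‖ * ‖z‖ := real_inner_le_norm v z
        _ ≤ L / (R' + 1) * (R' + 1) := by
            apply mul_le_mul hv.2.le ((hR' z hz).trans (by linarith)) (norm_nonneg _) (by positivity)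
        _ = L := by field_simp
  obtain ⟨F, hFT, hFcard, hFnet⟩ := exists_net hTc hTconv hTs hTi
  have hcov : ∀ x ∈ B, ∃ v ∈ F, x ∈ hs v (L / 4 + J) := by
    intro x hx
    obtain ⟨v, hv1, hv2, hv3⟩ := exists_sep hAc hAconv hA0 hDc hDconv hD0 hL0 hx
    obtain ⟨v', hv'T, hv'max⟩ := hTc.exists_isMaxOn (f := fun w : E n => (inner ℝ w x : ℝ))
      ⟨v, hv1, hv2⟩ (by fun_prop)
    obtain ⟨w, hwF, u, huT, hwu⟩ := hFnet v' hv'T
    refine ⟨w, hwF, ?_⟩
    have h1 : inner ℝ v x ≤ inner ℝ v' x := hv'max ⟨hv1, hv2⟩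
    have h2 : inner ℝ u x ≤ inner ℝ v' x := hv'max huT
    have h3 : inner ℝ v' x - inner ℝ w x = (1/2:ℝ) * inner ℝ u x := by
      rw [← inner_sub_left, hwu, real_inner_smul_left]
    show L / 4 + J ≤ inner ℝ w x
    linarith
  have hexp9 : ∀ x : ℝ, (4 / C) ^ x = Real.exp (-9 * x) := by
    intro x
    have h1 : 4 / C = Real.exp (-9) := by
      rw [hCdef, Real.exp_neg]; field_simp
    rw [h1, ← Real.exp_mul]
  have h0 : ∀ v ∈ T, μ.real (B ∩ hs v (L / 4)) ≤
      Real.exp (-q) / 128 * μ.real B ^ 2 * Real.exp (-q) := by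
    intro v hv
    obtain ⟨z, hz, hzv⟩ := exists_support hfin hq v hC.le
    have h1 : C * hm μ q v ≤ L := by rw [← hzv]; exact hv.2 z hz
    have h2 := cheb hfin hq0 hL0 hC h1
    refine (measureReal_mono inter_subset_right (measure_ne_top μ _)).trans (h2.trans ?_)
    rw [hexp9]
    have h3 : Real.exp (-q) ^ 2 ≤ μ.real B ^ 2 :=
      pow_le_pow_left₀ (Real.exp_pos _).le hcon.le 2
    have h4 : Real.exp (-9 * q) * 128 ≤ Real.exp (-q) * Real.exp (-q) ^ 2 * Real.exp (-q) := by
      have h5 : Real.exp (-q) * Real.exp (-q) ^ 2 * Real.exp (-q) =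
          Real.exp (-9 * q) * Real.exp (5 * q) := by
        rw [← Real.exp_nat_mul, ← Real.exp_add, ← Real.exp_add, ← Real.exp_add]
        congr 1
        push_cast
        ring
      rw [h5]
      apply mul_le_mul_of_nonneg_left _ (Real.exp_pos _).le
      exact exp_five.trans (Real.exp_le_exp.2 (by linarith))
    have h6 : Real.exp (-q) * Real.exp (-q) ^ 2 * Real.exp (-q) ≤
        Real.exp (-q) * μ.real B ^ 2 * Real.exp (-q) := by gcongr
    have h7 : Real.exp (-q) / 128 * μ.real B ^ 2 * Real.exp (-q) =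
        (Real.exp (-q) * μ.real B ^ 2 * Real.exp (-q)) / 128 := by ring
    rw [h7, le_div_iff₀ (by norm_num)]
    exact h4.trans h6
  have hzero := core_net hsym hlc hAc hAs (Real.exp_pos (-q)) hA (fun v hv => hv.1) hBm
    (t₀ := L / 4) (w := Real.exp (-q)) (Real.exp_pos _) (by
      rw [Real.exp_le_one_iff]; linarith) h0 J F hFT hcov (M := 5 ^ n)
    (by exact_mod_cast hFcard) (by
      have h1 : Real.exp (-q) ^ (2 ^ J) ≤ Real.exp (-(2 * (n:ℝ))) := by
        rw [← Real.exp_nat_mul]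
        apply Real.exp_le_exp.2
        push_cast
        linarith
      have h2 : (5:ℝ) ^ n ≤ Real.exp (2 * (n:ℝ)) := by
        calc (5:ℝ) ^ n ≤ Real.exp 2 ^ n := pow_le_pow_left₀ (by norm_num) five_le n
          _ = Real.exp (2 * (n:ℝ)) := by rw [← Real.exp_nat_mul]; congr 1; ring
      calc (5:ℝ) ^ n * Real.exp (-q) ^ (2 ^ J) ≤ Real.exp (2 * (n:ℝ)) * Real.exp (-(2 * (n:ℝ))) :=
            mul_le_mul h2 h1 (by positivity) (by positivity)
        _ = 1 := by rw [← Real.exp_add]; simp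
        _ < 128 := by norm_num)
  have := Real.exp_pos (-q)
  linarith

end Pool.CIP
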