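import Pool.Agent.CIP.N

set_option autoImplicit false

open MeasureTheory Pointwise Set Filter Topology

namespace Pool.CIP

variable {n : ℕ} {μ : Measure (E n)}

lemma carath {K : Set (E n)} (hK : K.Nonempty) :
    ∀ y ∈ convexHull ℝ K, ∃ (w : Fin (n + 1) → ℝ) (a : Fin (n + 1) → E n),
      (∀ j, 0 ≤ w j) ∧ ∑ j, w j = 1 ∧ (∀ j, a j ∈ K) ∧ ∑ j, w j • a j = y := by
  classical
  intro y hy
  obtain ⟨ι, hι, z, w, hz, hai, hw, hw1, hwz⟩ := eq_pos_convex_span_of_mem_convexHull hy
  have hcard : Fintype.card ι ≤ Fintype.card (Fin (n + 1)) := by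
    have h := hai.card_le_finrank_succ
    have h2 : Module.finrank ℝ (vectorSpan ℝ (range z)) ≤ n := by
      have h3 := Submodule.finrank_le (vectorSpan ℝ (range z))
      simpa using h3
    rw [Fintype.card_fin]
    omega
  obtain ⟨e⟩ := Function.Embedding.nonempty_of_card_le hcard
  obtain ⟨x0, hx0⟩ := hK
  have hzK : ∀ i, z i ∈ K := fun i => hz (mem_range_self i)
  refine ⟨Function.extend e w 0, Function.extend e z (fun _ => x0), ?_, ?_, ?_, ?_⟩
  · intro j
    by_cases hj : ∃ i, e i = j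
    · obtain ⟨i, rfl⟩ := hj
      rw [e.injective.extend_apply]
      exact (hw i).le
    · rw [Function.extend_apply' _ _ _ hj]
      exact le_rfl
  · rw [← hw1]
    refine (Fintype.sum_of_injective e e.injective w (Function.extend e w 0) ?_ ?_).symm
    · intro j hj
      rw [Function.extend_apply' _ _ _ (by simpa [mem_range] using hj)]
      rfl
    · intro i
      rw [e.injective.extend_apply]
  · intro j
    by_cases hj : ∃ i, e i = j
    · obtain ⟨i, rfl⟩ := hj
      rw [e.injective.extend_apply]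
      exact hzK i
    · rw [Function.extend_apply' _ _ _ hj]
      exact hx0
  · rw [← hwz]
    refine (Fintype.sum_of_injective e e.injective (fun i => w i • z i)
      (fun j => Function.extend e w 0 j • Function.extend e z (fun _ => x0) j) ?_ ?_).symm
    · intro j hj
      rw [Function.extend_apply' _ _ _ (by simpa [mem_range] using hj)]
      simp
    · intro i
      rw [e.injective.extend_apply, e.injective.extend_apply]

lemma compact_hull {K : Set (E n)} (hKc : IsCompact K) (hK : K.Nonempty) :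
    IsCompact (convexHull ℝ K) := by
  have h : convexHull ℝ K =
      (fun p : (Fin (n + 1) → ℝ) × (Fin (n + 1) → E n) => ∑ j, p.1 j • p.2 j) ''
        (stdSimplex ℝ (Fin (n + 1)) ×ˢ (Set.univ.pi fun _ : Fin (n + 1) => K)) := by
    ext y
    constructor
    · intro hy
      obtain ⟨w, a, hw, hw1, haK, hwz⟩ := carath hK y hy
      exact ⟨(w, a), ⟨⟨hw, hw1⟩, fun j _ => haK j⟩, hwz⟩
    · rintro ⟨p, ⟨⟨hp0, hp1⟩, hp2⟩, rfl⟩
      exact mem_convexHull_of_exists_fintype p.1 (fun j => p.2 j) hp0 hp1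
        (fun j => hp2 j (mem_univ j)) rfl
  rw [h]
  apply IsCompact.image ((isCompact_stdSimplex ℝ (Fin (n + 1))).prod
    (isCompact_univ_pi fun _ => hKc))
  fun_prop

/-- the number of doubling steps -/
lemma exists_J (n : ℕ) {q : ℝ} (hq : 1 ≤ q) : ∃ J : ℕ, 2 * (n:ℝ) ≤ 2 ^ J * q ∧
    4 * ((J:ℝ) + 1) ≤ 24 * Real.log (2 + n / q) := by
  have hq0 : 0 < q := by linarith
  have hlog2 := Real.log_two_gt_d9
  have hn0 : (0:ℝ) ≤ n := Nat.cast_nonneg n
  have hr0 : 0 ≤ (n:ℝ) / q := by positivity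
  have hx2 : Real.log 2 ≤ Real.log (2 + n / q) := Real.log_le_log (by norm_num) (by linarith)
  rcases le_or_gt (2 * ((n:ℝ) / q)) 1 with h | h
  · refine ⟨0, ?_, ?_⟩
    · have : 2 * ((n:ℝ) / q) * q ≤ 1 * q := mul_le_mul_of_nonneg_right h hq0.le
      have e : 2 * ((n:ℝ) / q) * q = 2 * n := by field_simp
      rw [e] at this
      simpa using this
    · norm_num; linarith
  · set r := (n:ℝ) / q with hr
    have h2r : 0 < 2 * r := by linarith
    refine ⟨⌈Real.logb 2 (2 * r)⌉₊, ?_, ?_⟩
    · have h1 : 2 * r ≤ 2 ^ ⌈Real.logb 2 (2 * r)⌉₊ := by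
        rw [← Real.rpow_natCast]
        calc 2 * r = 2 ^ (Real.logb 2 (2 * r)) := by
              rw [Real.rpow_logb (by norm_num) (by norm_num) h2r]
          _ ≤ _ := Real.rpow_le_rpow_of_exponent_le (by norm_num) (Nat.le_ceil _)
      have h3 := mul_le_mul_of_nonneg_right h1 hq0.le
      have e : 2 * r * q = 2 * n := by rw [hr]; field_simp
      rwa [e] at h3
    · have hlb : 0 ≤ Real.logb 2 (2 * r) := Real.logb_nonneg (by norm_num) h.le
      have h1 := Nat.ceil_lt_add_one hlb
      have h2 : Real.logb 2 (2 * r) * Real.log 2 = Real.log (2 * r) := by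
        rw [Real.logb, div_mul_cancel₀ _ (by linarith)]
      have h3 : Real.log (2 * r) = Real.log 2 + Real.log r := by
        rw [Real.log_mul (by norm_num) (by linarith)]
      have h4 : Real.log r ≤ Real.log (2 + r) := Real.log_le_log (by linarith) (by linarith)
      set y := Real.logb 2 (2 * r) with hy
      set X := Real.log (2 + r) with hX
      have h5 : y * Real.log 2 ≤ Real.log 2 + X := by rw [h2, h3]; linarith
      have h6 : y ≤ 1 + X / Real.log 2 := by
        rw [← sub_le_iff_le_add', le_div_iff₀ (by linarith)]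
        linarith
      have h7 : X / Real.log 2 ≤ 3/2 * X := by
        rw [div_le_iff₀ (by linarith)]
        have : 0 ≤ X := by linarith
        nlinarith
      have h8 : 0.6931471803 ≤ X := by linarith
      linarith

/-- convex sets, symmetric: reduction to compact bodies -/
theorem MT2 [IsProbabilityMeasure μ] (hsym : μ.map (fun x => -x) = μ) (hlc : LC μ)
    {A : Set (E n)} (hAm : MeasurableSet A) (hAconv : Convex ℝ A) (hAs : ∀ x ∈ A, -x ∈ A)
    {q : ℝ} (hq : 1 ≤ q) (hA : 2 * Real.exp (-q) ≤ μ.real A) :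
    ∃ A₁ ⊆ A, IsCompact A₁ ∧ (0 : E n) ∈ A₁ ∧ μ.real A / 2 ≤ μ.real A₁ ∧
      μ.real ((24 * Real.log (2 + n / q)) • A₁ + G μ q (4 * Real.exp 9))ᶜ ≤ Real.exp (-q) := by
  have hepos := Real.exp_pos (-q)
  have hApos : 0 < μ.real A := by linarith
  obtain ⟨K, hKA, hKc, hK⟩ := exists_compact_real hAm (show μ.real A / 2 < μ.real A by linarith)
  have hKne : K.Nonempty := by
    rw [nonempty_iff_ne_empty]
    intro h
    rw [h] at hK
    simp at hK
    linarith
  set A₁ := convexHull ℝ (K ∪ -K) with hA₁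
  have hKKne : (K ∪ -K).Nonempty := hKne.mono subset_union_left
  have hA₁c : IsCompact A₁ := compact_hull (hKc.union hKc.neg) hKKne
  have hA₁A : A₁ ⊆ A := by
    apply convexHull_min _ hAconv
    intro x hx
    rcases hx with hx | hx
    · exact hKA hx
    · have := hAs _ (hKA hx)
      simpa using this
  have hA₁conv : Convex ℝ A₁ := convex_convexHull ℝ _
  have hA₁s : ∀ x ∈ A₁, -x ∈ A₁ := by
    intro x hx
    have h1 : -x ∈ -A₁ := by simpa using hx
    rw [hA₁, ← convexHull_neg] at h1
    have h2 : -(K ∪ -K) = K ∪ -K := by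
      rw [union_neg, neg_neg, union_comm]
    rwa [h2] at h1
  have hA₁0 : (0 : E n) ∈ A₁ := by
    obtain ⟨x, hx⟩ := hKne
    have hx1 : x ∈ A₁ := subset_convexHull ℝ _ (Or.inl hx)
    have := hA₁conv hx1 (hA₁s x hx1) (by norm_num : (0:ℝ) ≤ 1/2) (by norm_num : (0:ℝ) ≤ 1/2)
      (by norm_num)
    simpa using this
  have hKA₁ : K ⊆ A₁ := subset_union_left.trans (subset_convexHull ℝ _)
  have hA₁m : μ.real A / 2 ≤ μ.real A₁ := hK.le.trans (measureReal_mono hKA₁ (measure_ne_top μ _))
  refine ⟨A₁, hA₁A, hA₁c, hA₁0, hA₁m, ?_⟩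
  obtain ⟨J, hJ1, hJ2⟩ := exists_J n hq
  set L := 24 * Real.log (2 + n / q) with hL
  have hL0 : 0 < L := by
    have : (0:ℝ) ≤ J := Nat.cast_nonneg J
    linarith
  set D := G μ q (4 * Real.exp 9) with hD
  have hDc : IsCompact D := isCompact_G _ _
  set W := L • A₁ + D with hW
  have hWc : IsCompact W := (hA₁c.smul L).add hDc
  -- thickenings
  have hthick : ∀ ε : ℝ, 0 < ε → 1 - Real.exp (-q) ≤ μ.real (Metric.cthickening (L * ε) W) := by
    intro ε hε
    set Aε := A₁ + Metric.closedBall (0 : E n) ε with hAε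
    have h1c : IsCompact Aε := hA₁c.add (isCompact_closedBall _ _)
    have h1conv : Convex ℝ Aε := hA₁conv.add (convex_closedBall _ _)
    have h1s : ∀ x ∈ Aε, -x ∈ Aε := by
      rintro _ ⟨a, ha, b, hb, rfl⟩
      refine ⟨-a, hA₁s a ha, -b, ?_, ?_⟩
      · simpa using hb
      · show -a + -b = -(a + b)
        abel
    have h1i : (interior Aε).Nonempty := by
      refine ⟨0, mem_interior_iff_mem_nhds.2 ?_⟩
      refine Filter.mem_of_superset (Metric.closedBall_mem_nhds (0 : E n) hε) ?_
      intro x hx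
      exact ⟨0, hA₁0, x, hx, by simp⟩
    have h1m : Real.exp (-q) ≤ μ.real Aε := by
      have h2 : A₁ ⊆ Aε := by
        intro x hx
        exact ⟨x, hx, 0, by simp [hε.le], by simp⟩
      have h3 := measureReal_mono (μ := μ) h2 (measure_ne_top μ _)
      linarith
    have h4 := MT hsym hlc h1c h1conv h1s h1i hq h1m hJ1 hJ2
    rw [← hD] at h4
    have h5 : L • Aε + D ⊆ Metric.cthickening (L * ε) W := by
      rw [← hWc.add_closedBall_zero (by positivity)]
      rintro _ ⟨_, ⟨_, ⟨a, ha, b, hb, rfl⟩, rfl⟩, d, hd, rfl⟩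
      refine ⟨L • a + d, ⟨L • a, ⟨a, ha, rfl⟩, d, hd, rfl⟩, L • b, ?_, ?_⟩
      · rw [mem_closedBall_zero_iff] at hb ⊢
        rw [norm_smul, Real.norm_eq_abs, abs_of_pos hL0]
        exact mul_le_mul_of_nonneg_left hb hL0.le
      · simp only [smul_add]
        abel
    have hc : μ.real (L • Aε + D)ᶜ = 1 - μ.real (L • Aε + D) := by
      rw [measureReal_compl ((h1c.smul L).add hDc).measurableSet]
      simp
    have h6 := measureReal_mono (μ := μ) h5 (measure_ne_top μ _)
    linarith
  have hlim := tendsto_measure_cthickening_of_isClosed (μ := μ) (s := W)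
    ⟨1, one_pos, measure_ne_top μ _⟩ hWc.isClosed
  have hlim2 : Tendsto (fun r => μ.real (Metric.cthickening r W)) (𝓝[>] 0) (𝓝 (μ.real W)) :=
    ((ENNReal.tendsto_toReal (measure_ne_top μ W)).comp hlim).mono_left nhdsWithin_le_nhds
  have hge : 1 - Real.exp (-q) ≤ μ.real W := by
    refine ge_of_tendsto hlim2 ?_
    filter_upwards [self_mem_nhdsWithin] with r hr
    have h7 := hthick (r / L) (div_pos hr hL0)
    rwa [mul_div_cancel₀ _ hL0.ne'] at h7
  have hcW : μ.real Wᶜ = 1 - μ.real W := by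
    rw [measureReal_compl hWc.measurableSet]
    simp
  linarith

end Pool.CIP
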