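import Mathlib

set_option autoImplicit false

open MeasureTheory Pointwise Set Filter Topology

namespace Pool.WS

variable {E : Type*} [NormedAddCommGroup E] [NormedSpace ℝ E] [MeasurableSpace E] [BorelSpace E]
  {μ : Measure E}

/-- log-concavity for half sums of compact sets -/
def HLC (μ : Measure E) : Prop := ∀ K L : Set E, IsCompact K → IsCompact L →
  μ.real K * μ.real L ≤ μ.real ((1/2:ℝ) • K + (1/2:ℝ) • L) ^ 2

/-- closed half-spaces -/
def up (v : E →L[ℝ] ℝ) (t : ℝ) : Set E := {x | t ≤ v x}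

/-- open half-spaces -/
def ou (v : E →L[ℝ] ℝ) (t : ℝ) : Set E := {x | t < v x}

omit [MeasurableSpace E] [BorelSpace E] in
lemma isClosed_up (v : E →L[ℝ] ℝ) (t : ℝ) : IsClosed (up v t) :=
  isClosed_le continuous_const v.continuous

omit [MeasurableSpace E] [BorelSpace E] in
lemma isOpen_ou (v : E →L[ℝ] ℝ) (t : ℝ) : IsOpen (ou v t) :=
  isOpen_lt continuous_const v.continuous

lemma meas_up (v : E →L[ℝ] ℝ) (t : ℝ) : MeasurableSet (up v t) := (isClosed_up v t).measurableSet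

lemma meas_ou (v : E →L[ℝ] ℝ) (t : ℝ) : MeasurableSet (ou v t) := (isOpen_ou v t).measurableSet

/-- a quantile of a functional on a set -/
lemma exists_quantile [IsProbabilityMeasure μ] {A : Set E} (hA : MeasurableSet A)
    {v : E →L[ℝ] ℝ} {m c : ℝ} (hm : ∀ x ∈ A, |v x| ≤ m) (hc : 0 < c) (hcA : c ≤ μ.real A) :
    ∃ τ : ℝ, -m ≤ τ ∧ τ ≤ m ∧ c ≤ μ.real (A ∩ up v τ) ∧ μ.real (A ∩ ou v τ) ≤ c := by
  set Q : Set ℝ := {τ | c ≤ μ.real (A ∩ up v τ)} with hQ
  have hmem : -m ∈ Q := by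
    have : A ∩ up v (-m) = A := by
      refine inter_eq_left.2 fun x hx => ?_
      exact (abs_le.1 (hm x hx)).1
    rw [hQ, mem_ofPred_eq, this]; exact hcA
  have hbd : ∀ τ ∈ Q, τ ≤ m := by
    intro τ hτ
    by_contra hcon
    push Not at hcon
    have : A ∩ up v τ = ∅ := by
      refine eq_empty_iff_forall_notMem.2 fun x hx => ?_
      have h1 := (abs_le.1 (hm x hx.1)).2
      have h2 : τ ≤ v x := hx.2
      linarith
    rw [hQ, mem_ofPred_eq, this] at hτ
    simp at hτ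
    linarith
  have hbdd : BddAbove Q := ⟨m, hbd⟩
  refine ⟨sSup Q, le_csSup hbdd hmem, csSup_le ⟨_, hmem⟩ hbd, ?_, ?_⟩
  · obtain ⟨u, hu, hul, huQ⟩ := exists_seq_tendsto_sSup ⟨_, hmem⟩ hbdd
    have hU : A ∩ up v (sSup Q) = ⋂ k, A ∩ up v (u k) := by
      ext x
      simp only [mem_inter_iff, mem_iInter, up, mem_ofPred_eq]
      constructor
      · rintro ⟨h1, h2⟩ k
        exact ⟨h1, (le_csSup hbdd (huQ k)).trans h2⟩
      · intro h
        exact ⟨(h 0).1, le_of_tendsto' hul fun k => (h k).2⟩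
    have hlim : Tendsto (fun k => μ (A ∩ up v (u k))) atTop (𝓝 (μ (⋂ k, A ∩ up v (u k)))) := by
      refine tendsto_measure_iInter_atTop (fun k => (hA.inter (meas_up _ _)).nullMeasurableSet) ?_
        ⟨0, measure_ne_top μ _⟩
      intro i j hij x hx
      exact ⟨hx.1, (hu hij).trans hx.2⟩
    rw [hU]
    have hlim2 : Tendsto (fun k => μ.real (A ∩ up v (u k))) atTop
        (𝓝 (μ.real (⋂ k, A ∩ up v (u k)))) :=
      (ENNReal.tendsto_toReal (measure_ne_top μ _)).comp hlim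
    exact ge_of_tendsto' hlim2 fun k => huQ k
  · have hU : A ∩ ou v (sSup Q) = ⋃ k : ℕ, A ∩ up v (sSup Q + 1 / ((k:ℝ) + 1)) := by
      ext x
      simp only [mem_inter_iff, mem_iUnion, up, ou, mem_ofPred_eq]
      constructor
      · rintro ⟨h1, h2⟩
        obtain ⟨k, hk⟩ := exists_nat_one_div_lt (sub_pos.2 h2)
        exact ⟨k, h1, by linarith⟩
      · rintro ⟨k, h1, h2⟩
        refine ⟨h1, lt_of_lt_of_le ?_ h2⟩
        have : (0:ℝ) < 1 / ((k:ℝ) + 1) := by positivity
        linarith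
    have hlim : Tendsto (fun k : ℕ => μ (A ∩ up v (sSup Q + 1 / ((k:ℝ) + 1)))) atTop
        (𝓝 (μ (⋃ k : ℕ, A ∩ up v (sSup Q + 1 / ((k:ℝ) + 1))))) := by
      refine tendsto_measure_iUnion_atTop ?_
      intro i j hij x hx
      have h1 : 1 / ((j:ℝ) + 1) ≤ 1 / ((i:ℝ) + 1) := by
        apply one_div_le_one_div_of_le (by positivity)
        have : (i:ℝ) ≤ j := by exact_mod_cast hij
        linarith
      have h2 : sSup Q + 1 / ((i:ℝ) + 1) ≤ v x := hx.2
      have h3 : sSup Q + 1 / ((j:ℝ) + 1) ≤ v x := by linarith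
      exact ⟨hx.1, h3⟩
    rw [hU]
    have hlim2 : Tendsto (fun k : ℕ => μ.real (A ∩ up v (sSup Q + 1 / ((k:ℝ) + 1)))) atTop
        (𝓝 (μ.real (⋃ k : ℕ, A ∩ up v (sSup Q + 1 / ((k:ℝ) + 1))))) :=
      (ENNReal.tendsto_toReal (measure_ne_top μ _)).comp hlim
    refine le_of_tendsto' hlim2 fun k => ?_
    by_contra hcon
    push Not at hcon
    have h1 : sSup Q + 1 / ((k:ℝ) + 1) ∈ Q := hcon.le
    have h2 := le_csSup hbdd h1
    have : (0:ℝ) < 1 / ((k:ℝ) + 1) := by positivity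
    linarith

omit [NormedSpace ℝ E] in
lemma exists_compact_real [CompleteSpace E] [SecondCountableTopology E] [IsProbabilityMeasure μ]
    {B : Set E} (hB : MeasurableSet B) {m : ℝ}
    (hm : m < μ.real B) : ∃ K ⊆ B, IsCompact K ∧ m < μ.real K := by
  have he : 0 < (μ.real B - m) / 2 := by linarith
  obtain ⟨K, hKB, hKc, hK⟩ := hB.exists_isCompact_lt_add (measure_ne_top μ _)
    (ε := ENNReal.ofReal ((μ.real B - m) / 2)) (by simpa using he)
  refine ⟨K, hKB, hKc, ?_⟩
  have h1 := ENNReal.toReal_mono (by finiteness) hK.le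
  rw [ENNReal.toReal_add (measure_ne_top μ _) (by simp), ENNReal.toReal_ofReal he.le] at h1
  have h3 : μ.real B ≤ μ.real K + (μ.real B - m) / 2 := h1
  linarith

/-- the doubling lemma with quantiles -/
lemma double [CompleteSpace E] [SecondCountableTopology E] [IsProbabilityMeasure μ] (hlc : HLC μ)
    {A : Set E} (hA : MeasurableSet A) {T : Set (E →L[ℝ] ℝ)} {α κ : ℝ} (hα : 0 < α) (hκ0 : 0 ≤ κ)
    {t t' a b : (E →L[ℝ] ℝ) → ℝ}
    (ha : ∀ v ∈ T, α ≤ μ.real (A ∩ up v (a v)))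
    (hb : ∀ v ∈ T, μ.real (A ∩ ou v (b v)) ≤ κ)
    (ht' : ∀ v ∈ T, b v + t v ≤ a v + t' v)
    {S : Set E} (hS : MeasurableSet S)
    (hκ : ∀ v ∈ T, μ.real (S ∩ up v (t v)) ≤ κ) {N : ℕ} (hN0 : 0 < N)
    (hN : N * κ ≤ α / 2) :
    ∃ S' ⊆ S, MeasurableSet S' ∧ μ.real S - N * κ ≤ μ.real S' ∧
      ∀ v ∈ T, μ.real (S' ∩ up v (t' v)) ≤ 4 / (α * N ^ 2) := by
  by_contra hcon
  push Not at hcon
  have h' : ∀ S' : Set E, ∃ v : E →L[ℝ] ℝ, S' ⊆ S → MeasurableSet S' →
      μ.real S - N * κ ≤ μ.real S' →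
      v ∈ T ∧ 4 / (α * N ^ 2) < μ.real (S' ∩ up v (t' v)) := by
    intro S'
    by_cases h : S' ⊆ S ∧ MeasurableSet S' ∧ μ.real S - N * κ ≤ μ.real S'
    · obtain ⟨v, hv, hv'⟩ := hcon S' h.1 h.2.1 h.2.2
      exact ⟨v, fun _ _ _ => ⟨hv, hv'⟩⟩
    · refine ⟨0, fun h1 h2 h3 => absurd ⟨h1, h2, h3⟩ h⟩
  choose c hc using h'
  set F : Set E → Set E := fun R => R \ up (c R) (t (c R)) with hF
  set Sq : ℕ → Set E := fun i => F^[i] S with hSq
  have hsucc : ∀ i, Sq (i + 1) = Sq i \ up (c (Sq i)) (t (c (Sq i))) := by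
    intro i
    simp only [hSq, Function.iterate_succ_apply', hF]
  have hNr : (0:ℝ) < N := by exact_mod_cast hN0
  have hprop : ∀ i : ℕ, i ≤ N → Sq i ⊆ S ∧ MeasurableSet (Sq i) ∧
      μ.real S - i * κ ≤ μ.real (Sq i) := by
    intro i
    induction i with
    | zero => intro _; simp [hSq, hS]
    | succ i ih =>
      intro hi
      obtain ⟨h1, h2, h3⟩ := ih (by omega)
      have h4 : (i:ℝ) * κ ≤ N * κ :=
        mul_le_mul_of_nonneg_right (by exact_mod_cast (by omega : i ≤ N)) hκ0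
      have h5 : μ.real S - N * κ ≤ μ.real (Sq i) := by linarith
      have h6 := (hc (Sq i) h1 h2 h5).1
      rw [hsucc]
      refine ⟨sdiff_subset.trans h1, h2.diff (meas_up _ _), ?_⟩
      have h7 : μ.real (Sq i) ≤ μ.real (Sq i \ up (c (Sq i)) (t (c (Sq i)))) +
          μ.real (Sq i ∩ up (c (Sq i)) (t (c (Sq i)))) := by
        refine le_trans (measureReal_mono ?_ (measure_ne_top μ _)) (measureReal_union_le _ _)
        intro x hx
        by_cases hx' : x ∈ up (c (Sq i)) (t (c (Sq i)))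
        · exact Or.inr ⟨hx, hx'⟩
        · exact Or.inl ⟨hx, hx'⟩
      have h8 : μ.real (Sq i ∩ up (c (Sq i)) (t (c (Sq i)))) ≤ κ :=
        (measureReal_mono (inter_subset_inter_left _ h1) (measure_ne_top μ _)).trans (hκ _ h6)
      push_cast
      linarith
  have hanti : ∀ i j : ℕ, i < j → Sq j ⊆ Sq i \ up (c (Sq i)) (t (c (Sq i))) := by
    intro i j hij
    induction j with
    | zero => omega
    | succ j ih =>
      rcases Nat.lt_succ_iff_lt_or_eq.1 hij with h | h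
      · rw [hsucc]
        exact sdiff_subset.trans (ih h)
      · subst h
        rw [hsucc]
  have hmass : ∀ i : ℕ, i < N → μ.real S - N * κ ≤ μ.real (Sq i) := by
    intro i hi
    obtain ⟨_, _, h3⟩ := hprop i hi.le
    have h4 : (i:ℝ) * κ ≤ N * κ :=
      mul_le_mul_of_nonneg_right (by exact_mod_cast hi.le) hκ0
    linarith
  have hcT : ∀ i : ℕ, i < N → c (Sq i) ∈ T := fun i hi =>
    (hc (Sq i) (hprop i hi.le).1 (hprop i hi.le).2.1 (hmass i hi)).1
  -- the sets on the side of `A`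
  set D : ℕ → Set E := fun i => ⋃ l ∈ Finset.range i, A ∩ ou (c (Sq l)) (b (c (Sq l))) with hD
  have hDm : ∀ i, MeasurableSet (D i) := fun i =>
    Finset.measurableSet_biUnion _ fun l _ => hA.inter (meas_ou _ _)
  have hDμ : ∀ i, i < N → μ.real (D i) ≤ α / 2 := by
    intro i hi
    calc μ.real (D i) ≤ ∑ l ∈ Finset.range i, μ.real (A ∩ ou (c (Sq l)) (b (c (Sq l)))) :=
          measureReal_biUnion_finset_le _ _
      _ ≤ ∑ l ∈ Finset.range i, κ := Finset.sum_le_sum fun l hl =>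
          hb _ (hcT l ((Finset.mem_range.1 hl).trans hi))
      _ = i * κ := by rw [Finset.sum_const, Finset.card_range, nsmul_eq_mul]
      _ ≤ N * κ := mul_le_mul_of_nonneg_right (by exact_mod_cast hi.le) hκ0
      _ ≤ α / 2 := hN
  have hKA : ∀ i : ℕ, ∃ K : Set E, IsCompact K ∧
      (i < N → K ⊆ (A ∩ up (c (Sq i)) (a (c (Sq i)))) \ D i ∧ α / 4 < μ.real K) := by
    intro i
    by_cases hi : i < N
    · have h1 : α / 4 < μ.real ((A ∩ up (c (Sq i)) (a (c (Sq i)))) \ D i) := by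
        have h2 := ha _ (hcT i hi)
        have h3 := hDμ i hi
        have h4 : μ.real (A ∩ up (c (Sq i)) (a (c (Sq i)))) ≤
            μ.real ((A ∩ up (c (Sq i)) (a (c (Sq i)))) \ D i) + μ.real (D i) := by
          refine le_trans (measureReal_mono ?_ (measure_ne_top μ _)) (measureReal_union_le _ _)
          intro x hx
          by_cases hx' : x ∈ D i
          · exact Or.inr hx'
          · exact Or.inl ⟨hx, hx'⟩
        linarith
      obtain ⟨K, hK1, hK2, hK3⟩ := exists_compact_real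
        ((hA.inter (meas_up _ _)).diff (hDm i)) h1
      exact ⟨K, hK2, fun _ => ⟨hK1, hK3⟩⟩
    · exact ⟨∅, isCompact_empty, fun h => absurd h hi⟩
  choose KA hKAc hKA using hKA
  have hK : ∀ i : ℕ, ∃ K : Set E, IsCompact K ∧
      (i < N → K ⊆ Sq i ∩ up (c (Sq i)) (t' (c (Sq i))) ∧
      4 / (α * N ^ 2) < μ.real K) := by
    intro i
    by_cases hi : i < N
    · obtain ⟨h1, h2, _⟩ := hprop i hi.le
      obtain ⟨K, hK1, hK2, hK3⟩ := exists_compact_real
        (h2.inter (meas_up (c (Sq i)) (t' (c (Sq i)))))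
        (hc (Sq i) h1 h2 (hmass i hi)).2
      exact ⟨K, hK2, fun _ => ⟨hK1, hK3⟩⟩
    · exact ⟨∅, isCompact_empty, fun h => absurd h hi⟩
  choose K hKc hK using hK
  set Gq : ℕ → Set E := fun i => (1/2:ℝ) • KA i + (1/2:ℝ) • K i with hGq
  have hGc : ∀ i, IsCompact (Gq i) := fun i => ((hKAc i).smul _).add ((hKc i).smul _)
  have hGm : ∀ i ∈ Finset.range N, 1 / (N:ℝ) < μ.real (Gq i) := by
    intro i hi
    have hi' : i < N := Finset.mem_range.1 hi
    have h1 := hlc (KA i) (K i) (hKAc i) (hKc i)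
    have h2 := (hKA i hi').2
    have h3 := (hK i hi').2
    have h4 : (1 / (N:ℝ)) ^ 2 < μ.real (Gq i) ^ 2 := by
      refine lt_of_lt_of_le ?_ h1
      calc (1 / (N:ℝ)) ^ 2 = α / 4 * (4 / (α * N ^ 2)) := by
            field_simp
        _ < α / 4 * μ.real (K i) := mul_lt_mul_of_pos_left h3 (by positivity)
        _ ≤ μ.real (KA i) * μ.real (K i) :=
            mul_le_mul_of_nonneg_right h2.le measureReal_nonneg
    exact lt_of_pow_lt_pow_left₀ 2 measureReal_nonneg h4
  have hdisj : Set.PairwiseDisjoint (↑(Finset.range N)) Gq := by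
    have main : ∀ i j : ℕ, i < j → j < N → Disjoint (Gq i) (Gq j) := by
      intro i j hij hj
      have hi : i < N := hij.trans hj
      rw [Set.disjoint_left]
      rintro x ⟨_, ⟨x1, hx1, rfl⟩, _, ⟨y1, hy1, rfl⟩, hx⟩ ⟨_, ⟨x2, hx2, rfl⟩, _, ⟨y2, hy2, rfl⟩, hx'⟩
      have hT' := ht' _ (hcT i hi)
      have e1 : (1/2:ℝ) * (b (c (Sq i)) + t (c (Sq i))) ≤ (c (Sq i)) x := by
        rw [← hx]
        simp only [map_add, map_smul, smul_eq_mul]
        have h1 : a (c (Sq i)) ≤ (c (Sq i)) x1 := ((hKA i hi).1 hx1).1.2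
        have h2 : t' (c (Sq i)) ≤ (c (Sq i)) y1 := ((hK i hi).1 hy1).2
        linarith
      have e2 : (c (Sq i)) x < (1/2:ℝ) * (b (c (Sq i)) + t (c (Sq i))) := by
        rw [← hx']
        simp only [map_add, map_smul, smul_eq_mul]
        have h1 : (c (Sq i)) x2 ≤ b (c (Sq i)) := by
          have h3 := (hKA j hj).1 hx2
          by_contra h4
          push Not at h4
          refine h3.2 ?_
          simp only [hD, mem_iUnion]
          exact ⟨i, Finset.mem_range.2 hij, h3.1.1, h4⟩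
        have h2 : y2 ∈ Sq i \ up (c (Sq i)) (t (c (Sq i))) := hanti i j hij ((hK j hj).1 hy2).1
        have h3 : (c (Sq i)) y2 < t (c (Sq i)) := by
          have := h2.2
          simp only [up, mem_ofPred_eq, not_le] at this
          exact this
        linarith
      linarith
    intro i hi j hj hij
    rcases lt_or_gt_of_ne hij with h | h
    · exact main i j h (Finset.mem_range.1 hj)
    · exact (main j i h (Finset.mem_range.1 hi)).symm
  have hsum : ∑ i ∈ Finset.range N, μ.real (Gq i) = μ.real (⋃ i ∈ Finset.range N, Gq i) :=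
    (measureReal_biUnion_finset hdisj (fun i _ => (hGc i).measurableSet)).symm
  have hle : ∑ i ∈ Finset.range N, μ.real (Gq i) ≤ 1 := by
    rw [hsum]; exact measureReal_le_one
  have hgt : (1:ℝ) < ∑ i ∈ Finset.range N, μ.real (Gq i) := by
    calc (1:ℝ) = ∑ i ∈ Finset.range N, 1 / (N:ℝ) := by
          rw [Finset.sum_const, Finset.card_range, nsmul_eq_mul]
          field_simp
      _ < ∑ i ∈ Finset.range N, μ.real (Gq i) :=
          Finset.sum_lt_sum_of_nonempty ⟨0, Finset.mem_range.2 hN0⟩ hGm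
  linarith

end Pool.WS
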