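import Pool.Agent.CIP.S

set_option autoImplicit false

open MeasureTheory Pointwise Set Filter Topology

namespace Pool.WS

variable {E : Type*} [NormedAddCommGroup E] [NormedSpace ℝ E] [MeasurableSpace E] [BorelSpace E]
  {μ : Measure E}

/-- one stage of the iteration -/
lemma stage [CompleteSpace E] [SecondCountableTopology E] [IsProbabilityMeasure μ] (hlc : HLC μ)
    {A : Set E} (hA : MeasurableSet A) {T : Set (E →L[ℝ] ℝ)} {s : ℝ} (hs : 20 ≤ s)
    {t t' a b : (E →L[ℝ] ℝ) → ℝ}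
    (ha : ∀ v ∈ T, Real.exp (-(s / 10)) ≤ μ.real (A ∩ up v (a v)))
    (hb : ∀ v ∈ T, μ.real (A ∩ ou v (b v)) ≤ Real.exp (-s))
    (ht' : ∀ v ∈ T, b v + t v ≤ a v + t' v)
    {S : Set E} (hS : MeasurableSet S)
    (hκ : ∀ v ∈ T, μ.real (S ∩ up v (t v)) ≤ Real.exp (-s)) :
    ∃ S' ⊆ S, MeasurableSet S' ∧ μ.real S - 3 * Real.exp (-(s / 5)) ≤ μ.real S' ∧
      ∀ v ∈ T, μ.real (S' ∩ up v (t' v)) ≤ Real.exp (-(3 * s / 2)) := by
  set N := ⌈2 * Real.exp (4 * s / 5)⌉₊ with hN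
  have h1 : 1 ≤ Real.exp (4 * s / 5) := Real.one_le_exp (by linarith)
  have hNge : 2 * Real.exp (4 * s / 5) ≤ N := Nat.le_ceil _
  have hNle : (N:ℝ) ≤ 3 * Real.exp (4 * s / 5) := by
    have := Nat.ceil_lt_add_one (a := 2 * Real.exp (4 * s / 5)) (by positivity)
    rw [← hN] at this
    linarith
  have hN0 : 0 < N := by
    have : (0:ℝ) < N := by linarith
    exact_mod_cast this
  have hNκ : (N:ℝ) * Real.exp (-s) ≤ 3 * Real.exp (-(s / 5)) := by
    calc (N:ℝ) * Real.exp (-s) ≤ 3 * Real.exp (4 * s / 5) * Real.exp (-s) :=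
          mul_le_mul_of_nonneg_right hNle (Real.exp_pos _).le
      _ = 3 * Real.exp (-(s / 5)) := by
          rw [mul_assoc, ← Real.exp_add]; congr 2; ring
  have hsmall : 3 * Real.exp (-(s / 5)) ≤ Real.exp (-(s / 10)) / 2 := by
    have h2 : Real.exp (-(s / 5)) = Real.exp (-(s / 10)) * Real.exp (-(s / 10)) := by
      rw [← Real.exp_add]; congr 1; ring
    have h3 : Real.exp (-(s / 10)) ≤ 1 / 6 := by
      rw [Real.exp_neg, one_div]
      apply inv_anti₀ (by norm_num)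
      have h4 : Real.exp 2 ≤ Real.exp (s / 10) := Real.exp_le_exp.2 (by linarith)
      have h5 : (6:ℝ) ≤ Real.exp 2 := by
        have h6 : Real.exp 2 = Real.exp 1 * Real.exp 1 := by rw [← Real.exp_add]; norm_num
        have h7 := Real.exp_one_gt_d9
        rw [h6]; nlinarith
      linarith
    rw [h2]
    have h8 := Real.exp_pos (-(s / 10))
    nlinarith
  obtain ⟨S', h1', h2', h3', h4'⟩ := double hlc hA (Real.exp_pos _) (Real.exp_pos _).le ha hb ht'
    hS hκ hN0 (hNκ.trans hsmall)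
  refine ⟨S', h1', h2', by linarith, fun v hv => (h4' v hv).trans ?_⟩
  rw [div_le_iff₀ (by positivity)]
  have h5 : (2 * Real.exp (4 * s / 5)) ^ 2 ≤ (N:ℝ) ^ 2 := pow_le_pow_left₀ (by positivity) hNge 2
  calc (4:ℝ) = Real.exp (-(3 * s / 2)) * (Real.exp (-(s / 10)) * (2 * Real.exp (4 * s / 5)) ^ 2) := by
        rw [mul_pow, ← Real.exp_nat_mul]
        have : Real.exp (-(3 * s / 2)) * (Real.exp (-(s / 10)) *
            (2 ^ 2 * Real.exp (((2:ℕ):ℝ) * (4 * s / 5)))) =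
            4 * (Real.exp (-(3 * s / 2)) * (Real.exp (-(s / 10)) *
            Real.exp (((2:ℕ):ℝ) * (4 * s / 5)))) := by ring
        rw [this, ← Real.exp_add, ← Real.exp_add]
        have e : -(3 * s / 2) + (-(s / 10) + ((2:ℕ):ℝ) * (4 * s / 5)) = 0 := by push_cast; ring
        rw [e, Real.exp_zero, mul_one]
    _ ≤ Real.exp (-(3 * s / 2)) * (Real.exp (-(s / 10)) * (N:ℝ) ^ 2) := by gcongr

/-- the costs of the stages -/
noncomputable def cost (q : ℝ) (j : ℕ) : ℝ := 2 * q * (3 / 2) ^ j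

lemma cost_succ (q : ℝ) (j : ℕ) : cost q (j + 1) = 3 * cost q j / 2 := by
  unfold cost; rw [pow_succ]; ring

lemma cost_six {q : ℝ} (hq : 0 ≤ q) (j : ℕ) : cost q j ≤ cost q (j + 6) / 10 := by
  unfold cost
  rw [pow_add]
  have h1 : (0:ℝ) ≤ (3 / 2) ^ j := by positivity
  have h2 : 0 ≤ 2 * q * (3 / 2) ^ j := by positivity
  have e : 2 * q * ((3 / 2) ^ j * (3 / 2 : ℝ) ^ 6) / 10 = 2 * q * (3 / 2) ^ j * ((3 / 2) ^ 6 / 10) := by
    ring
  rw [e]
  nlinarith

lemma cost_ge {q : ℝ} (hq : 1 ≤ q) (j : ℕ) : 2 * q * (1 + j / 2) ≤ cost q j := by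
  unfold cost
  apply mul_le_mul_of_nonneg_left _ (by linarith)
  have := one_add_mul_le_pow (a := (1/2:ℝ)) (by norm_num) j
  have e : (1 + 1 / 2 : ℝ) = 3 / 2 := by norm_num
  rw [e] at this
  linarith

lemma loss_le {q : ℝ} (hq : 1 ≤ q) (i : ℕ) :
    3 * Real.exp (-(cost q (i + 6) / 5)) ≤ Real.exp (-q) * (1 / 2) ^ (i + 2) := by
  have h1 : q + 3 + 1 * i ≤ cost q (i + 6) / 5 := by
    have h2 : cost q (i + 6) = cost q i * (3 / 2) ^ 6 := by unfold cost; rw [pow_add]; ring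
    have h3 := cost_ge hq i
    have h4 : (0:ℝ) ≤ i := Nat.cast_nonneg i
    rw [h2]
    have h5 : 2 * q * (1 + (i:ℝ) / 2) * (3 / 2) ^ 6 / 5 ≤ cost q i * (3 / 2) ^ 6 / 5 := by
      gcongr
    have h6 : q + 3 + 1 * i ≤ 2 * q * (1 + (i:ℝ) / 2) * (3 / 2) ^ 6 / 5 := by
      nlinarith
    linarith
  have h2 : Real.exp (-(cost q (i + 6) / 5)) ≤ Real.exp (-(q + 3 + 1 * i)) :=
    Real.exp_le_exp.2 (by linarith)
  have h3 : Real.exp (-(q + 3 + 1 * i)) = Real.exp (-q) * (Real.exp (-3) * Real.exp (-1) ^ i) := by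
    rw [← Real.exp_nat_mul, ← Real.exp_add, ← Real.exp_add]; congr 1; ring
  have he1 := Real.exp_one_gt_d9
  have h4 : Real.exp (-1) ≤ 1 / 2 := by
    rw [Real.exp_neg, one_div]
    apply inv_anti₀ (by norm_num)
    linarith
  have h8 : Real.exp (-3) ≤ 1 / 12 := by
    rw [Real.exp_neg, one_div]
    apply inv_anti₀ (by norm_num)
    have e : Real.exp 3 = Real.exp 1 ^ 3 := by rw [← Real.exp_nat_mul]; norm_num
    rw [e]
    have h9 : (2.7182818283 : ℝ) ^ 3 ≤ Real.exp 1 ^ 3 := by gcongr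
    refine le_trans ?_ h9
    norm_num
  calc 3 * Real.exp (-(cost q (i + 6) / 5))
      ≤ 3 * (Real.exp (-q) * (Real.exp (-3) * Real.exp (-1) ^ i)) := by rw [← h3]; linarith
    _ ≤ 3 * (Real.exp (-q) * (1 / 12 * (1 / 2) ^ i)) := by
        have h9 : Real.exp (-1) ^ i ≤ (1 / 2) ^ i := pow_le_pow_left₀ (Real.exp_pos _).le h4 i
        have := Real.exp_pos (-3)
        have := Real.exp_pos (-q)
        gcongr
    _ = Real.exp (-q) * (1 / 2) ^ (i + 2) := by rw [pow_add]; ring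

/-- the iteration -/
lemma iterate [CompleteSpace E] [SecondCountableTopology E] [IsProbabilityMeasure μ] (hlc : HLC μ)
    {A : Set E} (hA : MeasurableSet A) {T : Set (E →L[ℝ] ℝ)} {m q : ℝ} (hq : 1 ≤ q)
    (hm : ∀ v ∈ T, ∀ x ∈ A, |v x| ≤ m) (hAq : Real.exp (-q) ≤ μ.real A)
    {t₀ : ℝ} {S₀ : Set E} (hS₀ : MeasurableSet S₀) (hS₀q : Real.exp (-q) ≤ μ.real S₀)
    (h0 : ∀ v ∈ T, μ.real (S₀ ∩ up v t₀) ≤ Real.exp (-(cost q 6))) (j : ℕ) :
    ∃ S ⊆ S₀, MeasurableSet S ∧ Real.exp (-q) / 2 ≤ μ.real S ∧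
      ∀ v ∈ T, μ.real (S ∩ up v (t₀ + 12 * m)) ≤ Real.exp (-(cost q (j + 6))) := by
  have hq0 : 0 ≤ q := by linarith
  have hcq : ∀ i : ℕ, q ≤ cost q i := by
    intro i
    have h1 := cost_ge hq i
    have h4 : (0:ℝ) ≤ i := Nat.cast_nonneg i
    nlinarith
  have hqn : ∀ (i : ℕ) (v : E →L[ℝ] ℝ), ∃ τ : ℝ, v ∈ T → -m ≤ τ ∧ τ ≤ m ∧
      Real.exp (-(cost q i)) ≤ μ.real (A ∩ up v τ) ∧
      μ.real (A ∩ ou v τ) ≤ Real.exp (-(cost q i)) := by
    intro i v
    by_cases hv : v ∈ T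
    · obtain ⟨τ, h⟩ := exists_quantile hA (hm v hv) (Real.exp_pos (-(cost q i)))
        ((Real.exp_le_exp.2 (neg_le_neg (hcq i))).trans hAq)
      exact ⟨τ, fun _ => h⟩
    · exact ⟨0, fun h => absurd h hv⟩
  choose f hf using hqn
  set t : ℕ → (E →L[ℝ] ℝ) → ℝ := fun j v => t₀ + ∑ k ∈ Finset.range 6, (f (j + k) v + m) with ht
  have main : ∀ j : ℕ, ∃ S ⊆ S₀, MeasurableSet S ∧
      μ.real S₀ - Real.exp (-q) * (1 / 2) * (1 - (1 / 2) ^ j) ≤ μ.real S ∧
      ∀ v ∈ T, μ.real (S ∩ up v (t j v)) ≤ Real.exp (-(cost q (j + 6))) := by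
    intro j
    induction j with
    | zero =>
      refine ⟨S₀, subset_rfl, hS₀, by simp, fun v hv => ?_⟩
      refine (measureReal_mono ?_ (measure_ne_top μ _)).trans (h0 v hv)
      intro x hx
      have h5 : 0 ≤ ∑ k ∈ Finset.range 6, (f (0 + k) v + m) := by
        refine Finset.sum_nonneg fun k _ => ?_
        have := (hf (0 + k) v hv).1
        linarith
      have h6 : t 0 v ≤ v x := hx.2
      have h7 : t₀ ≤ v x := by
        simp only [ht] at h6
        linarith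
      exact ⟨hx.1, h7⟩
    | succ j ih =>
      obtain ⟨S, h1, h2, h3, h4⟩ := ih
      have hs20 : 20 ≤ cost q (j + 6) := by
        have h5 := cost_ge hq j
        have h6 : (0:ℝ) ≤ j := Nat.cast_nonneg j
        have h7 := cost_six hq0 j
        nlinarith
      obtain ⟨S', h1', h2', h3', h4'⟩ := stage (t := t j) (t' := t (j + 1)) (a := f j)
        (b := f (j + 6)) hlc hA hs20
        (fun v hv => (Real.exp_le_exp.2 (neg_le_neg (cost_six hq0 j))).trans (hf j v hv).2.2.1)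
        (fun v hv => (hf (j + 6) v hv).2.2.2) (fun v _ => by
          simp only [ht, Finset.sum_range_succ, Finset.sum_range_zero]
          have e1 : j + 1 + 0 = j + 1 := rfl
          have e2 : j + 1 + 1 = j + 2 := rfl
          have e3 : j + 1 + 2 = j + 3 := rfl
          have e4 : j + 1 + 3 = j + 4 := rfl
          have e5 : j + 1 + 4 = j + 5 := rfl
          have e6 : j + 1 + 5 = j + 6 := rfl
          rw [e1, e2, e3, e4, e5, e6, add_zero]
          linarith) h2 h4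
      refine ⟨S', h1'.trans h1, h2', ?_, fun v hv => ?_⟩
      · have h5 := loss_le hq j
        have e : Real.exp (-q) * (1 / 2) * (1 - (1 / 2) ^ (j + 1)) =
            Real.exp (-q) * (1 / 2) * (1 - (1 / 2) ^ j) + Real.exp (-q) * (1 / 2) ^ (j + 2) := by
          rw [pow_add, pow_add]; ring
        rw [e]
        linarith
      · have h5 := h4' v hv
        have e : cost q (j + 1 + 6) = 3 * cost q (j + 6) / 2 := cost_succ q (j + 6)
        rw [e]
        exact h5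
  obtain ⟨S, h1, h2, h3, h4⟩ := main j
  refine ⟨S, h1, h2, ?_, fun v hv => ?_⟩
  · have h5 : (0:ℝ) ≤ (1 / 2) ^ j := by positivity
    have h6 := Real.exp_pos (-q)
    nlinarith
  · refine (measureReal_mono ?_ (measure_ne_top μ _)).trans (h4 v hv)
    intro x hx
    have h5 : ∑ k ∈ Finset.range 6, (f (j + k) v + m) ≤ ∑ k ∈ Finset.range 6, (2 * m) := by
      refine Finset.sum_le_sum fun k _ => ?_
      have := (hf (j + k) v hv).2.1
      linarith
    rw [Finset.sum_const, Finset.card_range, nsmul_eq_mul] at h5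
    have h6 : t₀ + 12 * m ≤ v x := hx.2
    have h7 : t j v ≤ v x := by
      simp only [ht]
      push_cast at h5
      linarith
    exact ⟨hx.1, h7⟩

/-- the tail estimate -/
theorem tail [CompleteSpace E] [SecondCountableTopology E] [IsProbabilityMeasure μ] (hlc : HLC μ)
    {A : Set E} (hA : MeasurableSet A) {T : Set (E →L[ℝ] ℝ)} {m q : ℝ} (hq : 1 ≤ q)
    (hm : ∀ v ∈ T, ∀ x ∈ A, |v x| ≤ m) (hAq : Real.exp (-q) ≤ μ.real A)
    {t₀ : ℝ} (h0 : ∀ v ∈ T, μ.real (up v t₀) ≤ Real.exp (-(cost q 6)))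
    {S₀ : Set E} (hS₀ : MeasurableSet S₀) (F : Finset (E →L[ℝ] ℝ)) (hF : ∀ v ∈ F, v ∈ T)
    (hcov : ∀ x ∈ S₀, ∃ v ∈ F, x ∈ up v (t₀ + 12 * m)) :
    μ.real S₀ ≤ Real.exp (-q) := by
  by_contra hcon
  push Not at hcon
  have h0' : ∀ v ∈ T, μ.real (S₀ ∩ up v t₀) ≤ Real.exp (-(cost q 6)) := fun v hv =>
    (measureReal_mono inter_subset_right (measure_ne_top μ _)).trans (h0 v hv)
  have key : ∀ j : ℕ, Real.exp (-q) / 2 ≤ F.card * Real.exp (-(j:ℝ)) := by
    intro j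
    obtain ⟨S, h1, h2, h3, h4⟩ := iterate hlc hA hq hm hAq hS₀ hcon.le h0' j
    have h5 : μ.real S ≤ ∑ v ∈ F, μ.real (S ∩ up v (t₀ + 12 * m)) := by
      refine le_trans (measureReal_mono (s₂ := ⋃ v ∈ F, S ∩ up v (t₀ + 12 * m)) ?_
        (measure_ne_top μ _)) (measureReal_biUnion_finset_le _ _)
      intro x hx
      obtain ⟨v, hv, hxv⟩ := hcov x (h1 hx)
      simp only [mem_iUnion]
      exact ⟨v, hv, hx, hxv⟩
    have h6 : ∑ v ∈ F, μ.real (S ∩ up v (t₀ + 12 * m)) ≤ F.card * Real.exp (-(j:ℝ)) := by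
      rw [← nsmul_eq_mul]
      refine Finset.sum_le_card_nsmul _ _ _ (fun v hv => (h4 v (hF v hv)).trans ?_)
      apply Real.exp_le_exp.2
      have h7 := cost_ge hq (j + 6)
      have h8 : (0:ℝ) ≤ j := Nat.cast_nonneg j
      push_cast at h7
      nlinarith
    linarith
  have hlim : Tendsto (fun j : ℕ => (F.card : ℝ) * Real.exp (-(j:ℝ))) atTop (𝓝 ((F.card:ℝ) * 0)) :=
    (Real.tendsto_exp_neg_atTop_nhds_zero.comp tendsto_natCast_atTop_atTop).const_mul _
  rw [mul_zero] at hlim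
  have h9 := ge_of_tendsto' hlim key
  have := Real.exp_pos (-q)
  linarith

end Pool.WS
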