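import Pool.Agent.CIP.P
import Pool.Agent.CIP.T

set_option autoImplicit false

open MeasureTheory Pointwise Set Filter Topology

namespace Pool.CIP

variable {n : ℕ} {μ : Measure (E n)}

lemma LC.hlc [IsProbabilityMeasure μ] (h : LC μ) : Pool.WS.HLC μ := by
  intro K L hK hL
  exact h.half hK hL fun x hx y hy => add_mem_add (smul_mem_smul_set hx) (smul_mem_smul_set hy)

lemma up_innerSL (v : E n) (t : ℝ) : Pool.WS.up (innerSL ℝ v) t = hs v t := by
  ext x
  simp only [Pool.WS.up, hs, mem_ofPred_eq, innerSL_apply_apply]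

/-- the core statement for compact symmetric convex bodies, with absolute constants -/
theorem MTa [IsProbabilityMeasure μ] (hsym : μ.map (fun x => -x) = μ) (hlc : LC μ)
    {A : Set (E n)} (hAc : IsCompact A) (hAconv : Convex ℝ A) (hAs : ∀ x ∈ A, -x ∈ A)
    (hAi : (interior A).Nonempty) {q : ℝ} (hq : 1 ≤ q) (hA : Real.exp (-q) ≤ μ.real A)
    {L : ℝ} (hL : 48 ≤ L) :
    μ.real (L • A + G μ q (4 * Real.exp 23))ᶜ ≤ Real.exp (-q) := by
  have hfin : ∀ q : ℝ, 0 < q → ∀ v : E n, mq μ q v < ⊤ := fun q hq v => mq_lt_top hsym hlc hq v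
  have hq0 : 0 < q := by linarith
  have hL0 : 0 < L := by linarith
  set C : ℝ := 4 * Real.exp 23 with hCdef
  have hC : 0 < C := by positivity
  set D := G μ q C with hD
  have hDc : IsCompact D := isCompact_G q C
  have hDconv : Convex ℝ D := convex_G
  have hD0 : (0 : E n) ∈ D := zero_mem_G hC.le
  have hA0i := zero_mem_interior hAconv hAs hAi
  have hA0 : (0 : E n) ∈ A := interior_subset hA0i
  have hWc : IsCompact (L • A + D) := (hAc.smul L).add hDc
  set B := (L • A + D)ᶜ with hB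
  have hBm : MeasurableSet B := hWc.measurableSet.compl
  set T : Set (E n) := {v | (∀ a ∈ A, inner ℝ v a ≤ (1:ℝ)) ∧ ∀ z ∈ D, inner ℝ v z ≤ L} with hT
  have hTcl : IsClosed T := by
    have e : T = (⋂ a ∈ A, {v : E n | inner ℝ v a ≤ (1:ℝ)}) ∩
        ⋂ z ∈ D, {v : E n | inner ℝ v z ≤ L} := by
      ext v; simp [hT]
    rw [e]
    apply IsClosed.inter
    · exact isClosed_biInter fun a _ => isClosed_le (by fun_prop) continuous_const
    · exact isClosed_biInter fun a _ => isClosed_le (by fun_prop) continuous_const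
  obtain ⟨r, hr, hrA⟩ : ∃ r > 0, Metric.closedBall (0 : E n) r ⊆ A :=
    Metric.nhds_basis_closedBall.mem_iff.1 (mem_interior_iff_mem_nhds.1 hA0i)
  have hTb : Bornology.IsBounded T := by
    rw [isBounded_iff_forall_norm_le]
    refine ⟨1 / r, fun v hv => ?_⟩
    rcases eq_or_ne v 0 with h0 | h0
    · rw [h0, norm_zero]; positivity
    have hn : 0 < ‖v‖ := norm_pos_iff.2 h0
    have h1 : (r / ‖v‖) • v ∈ A := by
      apply hrA
      rw [mem_closedBall_zero_iff, norm_smul, Real.norm_eq_abs, abs_of_pos (by positivity)]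
      rw [div_mul_cancel₀ _ hn.ne']
    have h2 := hv.1 _ h1
    rw [real_inner_smul_right, real_inner_self_eq_norm_sq] at h2
    rw [le_div_iff₀ hr]
    calc ‖v‖ * r = r / ‖v‖ * ‖v‖ ^ 2 := by field_simp
      _ ≤ 1 := h2
  have hTc : IsCompact T := Metric.isCompact_of_isClosed_isBounded hTcl hTb
  have hTconv : Convex ℝ T := by
    intro v hv w hw a b ha hb hab
    refine ⟨fun x hx => ?_, fun z hz => ?_⟩
    · rw [inner_add_left, real_inner_smul_left, real_inner_smul_left]
      have h1 := mul_le_mul_of_nonneg_left (hv.1 x hx) ha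
      have h2 := mul_le_mul_of_nonneg_left (hw.1 x hx) hb
      linarith
    · rw [inner_add_left, real_inner_smul_left, real_inner_smul_left]
      have h1 := mul_le_mul_of_nonneg_left (hv.2 z hz) ha
      have h2 := mul_le_mul_of_nonneg_left (hw.2 z hz) hb
      calc _ ≤ a * L + b * L := add_le_add h1 h2
        _ = L := by rw [← add_mul, hab, one_mul]
  have hTs : ∀ x ∈ T, -x ∈ T := by
    intro v hv
    refine ⟨fun x hx => ?_, fun z hz => ?_⟩
    · have := hv.1 _ (hAs x hx)
      rw [inner_neg_right] at this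
      rw [inner_neg_left]; exact this
    · have := hv.2 _ (neg_mem_G hz)
      rw [inner_neg_right] at this
      rw [inner_neg_left]; exact this
  have hTi : (interior T).Nonempty := by
    obtain ⟨R, hR⟩ := isBounded_iff_forall_norm_le.1 hAc.isBounded
    obtain ⟨R', hR'⟩ := isBounded_iff_forall_norm_le.1 hDc.isBounded
    have hR0 : 0 ≤ R := (norm_nonneg _).trans (hR 0 hA0)
    have hR'0 : 0 ≤ R' := (norm_nonneg _).trans (hR' 0 hD0)
    refine ⟨0, mem_interior_iff_mem_nhds.2 ?_⟩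
    refine Filter.mem_of_superset (Metric.ball_mem_nhds (0 : E n)
      (show 0 < min (1 / (R + 1)) (L / (R' + 1)) by positivity)) ?_
    intro v hv
    rw [mem_ball_zero_iff, lt_min_iff] at hv
    refine ⟨fun a ha => ?_, fun z hz => ?_⟩
    · calc inner ℝ v a ≤ ‖v‖ * ‖a‖ := real_inner_le_norm v a
        _ ≤ 1 / (R + 1) * (R + 1) := by
            apply mul_le_mul hv.1.le ((hR a ha).trans (by linarith)) (norm_nonneg _) (by positivity)
        _ = 1 := by field_simp
    · calc inner ℝ v z ≤ ‖v‖ * ‖z‖ := real_inner_le_norm v z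
        _ ≤ L / (R' + 1) * (R' + 1) := by
            apply mul_le_mul hv.2.le ((hR' z hz).trans (by linarith)) (norm_nonneg _) (by positivity)
        _ = L := by field_simp
  obtain ⟨F, hFT, hFcard, hFnet⟩ := exists_net hTc hTconv hTs hTi
  have hcov : ∀ x ∈ B, ∃ v ∈ F, x ∈ hs v (L / 4 + 12 * 1) := by
    intro x hx
    obtain ⟨v, hv1, hv2, hv3⟩ := exists_sep hAc hAconv hA0 hDc hDconv hD0 hL0 hx
    obtain ⟨v', hv'T, hv'max⟩ := hTc.exists_isMaxOn (f := fun w : E n => (inner ℝ w x : ℝ))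
      ⟨v, hv1, hv2⟩ (by fun_prop)
    obtain ⟨w, hwF, u, huT, hwu⟩ := hFnet v' hv'T
    refine ⟨w, hwF, ?_⟩
    have h1 : inner ℝ v x ≤ inner ℝ v' x := hv'max ⟨hv1, hv2⟩
    have h2 : inner ℝ u x ≤ inner ℝ v' x := hv'max huT
    have h3 : inner ℝ v' x - inner ℝ w x = (1/2:ℝ) * inner ℝ u x := by
      rw [← inner_sub_left, hwu, real_inner_smul_left]
    show L / 4 + 12 * 1 ≤ inner ℝ w x
    linarith
  have hexp : ∀ x : ℝ, (4 / C) ^ x = Real.exp (-23 * x) := by
    intro x
    have h1 : 4 / C = Real.exp (-23) := by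
      rw [hCdef, Real.exp_neg]; field_simp
    rw [h1, ← Real.exp_mul]
  have h0 : ∀ v ∈ T, μ.real (hs v (L / 4)) ≤ Real.exp (-(Pool.WS.cost q 6)) := by
    intro v hv
    obtain ⟨z, hz, hzv⟩ := exists_support hfin hq v hC.le
    have h1 : C * hm μ q v ≤ L := by rw [← hzv]; exact hv.2 z hz
    have h2 := cheb hfin hq0 hL0 hC h1
    refine h2.trans ?_
    rw [hexp]
    apply Real.exp_le_exp.2
    have h3 : Pool.WS.cost q 6 ≤ 23 * q := by
      unfold Pool.WS.cost
      norm_num
      linarith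
    linarith
  classical
  refine Pool.WS.tail (m := 1) (t₀ := L / 4) hlc.hlc hAc.measurableSet
    (T := (fun v : E n => innerSL ℝ v) '' T) hq ?_ hA ?_ hBm (F.image fun v : E n => innerSL ℝ v) ?_ ?_
  · rintro _ ⟨v, hv, rfl⟩ x hx
    show |innerSL ℝ v x| ≤ 1
    rw [innerSL_apply_apply, abs_le]
    constructor
    · have := hv.1 _ (hAs x hx)
      rw [inner_neg_right] at this
      linarith
    · exact hv.1 x hx
  · rintro _ ⟨v, hv, rfl⟩
    show μ.real (Pool.WS.up (innerSL ℝ v) (L / 4)) ≤ _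
    rw [up_innerSL]
    exact h0 v hv
  · intro v hv
    obtain ⟨w, hw, rfl⟩ := Finset.mem_image.1 hv
    exact ⟨w, hFT w hw, rfl⟩
  · intro x hx
    obtain ⟨v, hv, hxv⟩ := hcov x hx
    refine ⟨innerSL ℝ v, Finset.mem_image_of_mem _ hv, ?_⟩
    rw [up_innerSL]
    exact hxv

/-- convex sets, symmetric: reduction to compact bodies -/
theorem MT2a [IsProbabilityMeasure μ] (hsym : μ.map (fun x => -x) = μ) (hlc : LC μ)
    {A : Set (E n)} (hAm : MeasurableSet A) (hAconv : Convex ℝ A) (hAs : ∀ x ∈ A, -x ∈ A)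
    {q : ℝ} (hq : 1 ≤ q) (hA : 2 * Real.exp (-q) ≤ μ.real A) :
    ∃ A₁ ⊆ A, IsCompact A₁ ∧ Convex ℝ A₁ ∧ (∀ x ∈ A₁, -x ∈ A₁) ∧ (0 : E n) ∈ A₁ ∧
      μ.real A / 2 ≤ μ.real A₁ ∧
      μ.real ((48:ℝ) • A₁ + G μ q (4 * Real.exp 23))ᶜ ≤ Real.exp (-q) := by
  have hepos := Real.exp_pos (-q)
  have hApos : 0 < μ.real A := by linarith
  obtain ⟨K, hKA, hKc, hK⟩ := exists_compact_real hAm (show μ.real A / 2 < μ.real A by linarith)
  have hKne : K.Nonempty := by
    rw [nonempty_iff_ne_empty]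
    intro h
    rw [h] at hK
    simp at hK
    linarith
  set A₁ := convexHull ℝ (K ∪ -K) with hA₁
  have hKKne : (K ∪ -K).Nonempty := hKne.mono subset_union_left
  have hA₁c : IsCompact A₁ := compact_hull (hKc.union hKc.neg) hKKne
  have hA₁A : A₁ ⊆ A := by
    apply convexHull_min _ hAconv
    intro x hx
    rcases hx with hx | hx
    · exact hKA hx
    · have := hAs _ (hKA hx)
      simpa using this
  have hA₁conv : Convex ℝ A₁ := convex_convexHull ℝ _
  have hA₁s : ∀ x ∈ A₁, -x ∈ A₁ := by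
    intro x hx
    have h1 : -x ∈ -A₁ := by simpa using hx
    rw [hA₁, ← convexHull_neg] at h1
    have h2 : -(K ∪ -K) = K ∪ -K := by
      rw [union_neg, neg_neg, union_comm]
    rwa [h2] at h1
  have hA₁0 : (0 : E n) ∈ A₁ := by
    obtain ⟨x, hx⟩ := hKne
    have hx1 : x ∈ A₁ := subset_convexHull ℝ _ (Or.inl hx)
    have := hA₁conv hx1 (hA₁s x hx1) (by norm_num : (0:ℝ) ≤ 1/2) (by norm_num : (0:ℝ) ≤ 1/2)
      (by norm_num)
    simpa using this
  have hKA₁ : K ⊆ A₁ := subset_union_left.trans (subset_convexHull ℝ _)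
  have hA₁m : μ.real A / 2 ≤ μ.real A₁ := hK.le.trans (measureReal_mono hKA₁ (measure_ne_top μ _))
  refine ⟨A₁, hA₁A, hA₁c, hA₁conv, hA₁s, hA₁0, hA₁m, ?_⟩
  set L : ℝ := 48 with hL
  have hL0 : 0 < L := by rw [hL]; norm_num
  set D := G μ q (4 * Real.exp 23) with hD
  have hDc : IsCompact D := isCompact_G _ _
  set W := L • A₁ + D with hW
  have hWc : IsCompact W := (hA₁c.smul L).add hDc
  -- thickenings
  have hthick : ∀ ε : ℝ, 0 < ε → 1 - Real.exp (-q) ≤ μ.real (Metric.cthickening (L * ε) W) := by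
    intro ε hε
    set Aε := A₁ + Metric.closedBall (0 : E n) ε with hAε
    have h1c : IsCompact Aε := hA₁c.add (isCompact_closedBall _ _)
    have h1conv : Convex ℝ Aε := hA₁conv.add (convex_closedBall _ _)
    have h1s : ∀ x ∈ Aε, -x ∈ Aε := by
      rintro _ ⟨a, ha, b, hb, rfl⟩
      refine ⟨-a, hA₁s a ha, -b, ?_, ?_⟩
      · simpa using hb
      · show -a + -b = -(a + b)
        abel
    have h1i : (interior Aε).Nonempty := by
      refine ⟨0, mem_interior_iff_mem_nhds.2 ?_⟩
      refine Filter.mem_of_superset (Metric.closedBall_mem_nhds (0 : E n) hε) ?_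
      intro x hx
      exact ⟨0, hA₁0, x, hx, by simp⟩
    have h1m : Real.exp (-q) ≤ μ.real Aε := by
      have h2 : A₁ ⊆ Aε := by
        intro x hx
        exact ⟨x, hx, 0, by simp [hε.le], by simp⟩
      have h3 := measureReal_mono (μ := μ) h2 (measure_ne_top μ _)
      linarith
    have h4 := MTa hsym hlc h1c h1conv h1s h1i hq h1m (le_of_eq hL.symm)
    rw [← hD] at h4
    have h5 : L • Aε + D ⊆ Metric.cthickening (L * ε) W := by
      rw [← hWc.add_closedBall_zero (by positivity)]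
      rintro _ ⟨_, ⟨_, ⟨a, ha, b, hb, rfl⟩, rfl⟩, d, hd, rfl⟩
      refine ⟨L • a + d, ⟨L • a, ⟨a, ha, rfl⟩, d, hd, rfl⟩, L • b, ?_, ?_⟩
      · rw [mem_closedBall_zero_iff] at hb ⊢
        rw [norm_smul, Real.norm_eq_abs, abs_of_pos hL0]
        exact mul_le_mul_of_nonneg_left hb hL0.le
      · simp only [smul_add]
        abel
    have hc : μ.real (L • Aε + D)ᶜ = 1 - μ.real (L • Aε + D) := by
      rw [measureReal_compl ((h1c.smul L).add hDc).measurableSet]
      simp
    have h6 := measureReal_mono (μ := μ) h5 (measure_ne_top μ _)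
    linarith
  have hlim := tendsto_measure_cthickening_of_isClosed (μ := μ) (s := W)
    ⟨1, one_pos, measure_ne_top μ _⟩ hWc.isClosed
  have hlim2 : Tendsto (fun r => μ.real (Metric.cthickening r W)) (𝓝[>] 0) (𝓝 (μ.real W)) :=
    ((ENNReal.tendsto_toReal (measure_ne_top μ W)).comp hlim).mono_left nhdsWithin_le_nhds
  have hge : 1 - Real.exp (-q) ≤ μ.real W := by
    refine ge_of_tendsto hlim2 ?_
    filter_upwards [self_mem_nhdsWithin] with r hr
    have h7 := hthick (r / L) (div_pos hr hL0)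
    rwa [mul_div_cancel₀ _ hL0.ne'] at h7
  have hcW : μ.real Wᶜ = 1 - μ.real W := by
    rw [measureReal_compl hWc.measurableSet]
    simp
  linarith

end Pool.CIP
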