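import Pool.Agent.CIP.G

set_option autoImplicit false

open MeasureTheory Pointwise Set Filter Topology

namespace Pool.CIP

variable {n : ℕ} {μ : Measure (E n)}

/-- invariance under all coordinate reflections -/
def Uncond (μ : Measure (E n)) : Prop := ∀ σ : Fin n → ℝ, (∀ i, σ i = 1 ∨ σ i = -1) →
  μ.map (fun x => WithLp.toLp 2 (fun i => σ i * x i)) = μ

/-- the coordinate reflection with signs σ -/
def flp (σ : Fin n → ℝ) (x : E n) : E n := WithLp.toLp 2 (fun i => σ i * x i)

@[simp] lemma flp_apply (σ : Fin n → ℝ) (x : E n) (i : Fin n) : flp σ x i = σ i * x i := rfl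

lemma continuous_flp (σ : Fin n → ℝ) : Continuous (flp σ) := by
  unfold flp
  fun_prop

lemma measurable_flp (σ : Fin n → ℝ) : Measurable (flp σ) := (continuous_flp σ).measurable

lemma Uncond.map_flp (h : Uncond μ) {σ : Fin n → ℝ} (hσ : ∀ i, σ i = 1 ∨ σ i = -1) :
    μ.map (flp σ) = μ := h σ hσ

lemma flp_flp {σ : Fin n → ℝ} (hσ : ∀ i, σ i = 1 ∨ σ i = -1) (x : E n) : flp σ (flp σ x) = x := by
  ext i
  rcases hσ i with h | h <;> simp [h]

lemma inner_flp (σ : Fin n → ℝ) (v x : E n) : inner ℝ v (flp σ x) = inner ℝ (flp σ v) x := by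
  simp only [PiLp.inner_apply, flp_apply]
  refine Finset.sum_congr rfl fun i _ => ?_
  simp only [RCLike.inner_apply, conj_trivial]
  ring

lemma inner_eq_sum' (v x : E n) : inner ℝ v x = ∑ i, v i * x i := by
  simp only [PiLp.inner_apply, RCLike.inner_apply, conj_trivial]
  exact Finset.sum_congr rfl fun i _ => mul_comm _ _

/-- change of variables for real-valued functions -/
lemma Uncond.integral_flp (h : Uncond μ) {σ : Fin n → ℝ} (hσ : ∀ i, σ i = 1 ∨ σ i = -1)
    {f : E n → ℝ} (hf : Measurable f) : ∫ x, f (flp σ x) ∂μ = ∫ x, f x ∂μ := by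
  conv_rhs => rw [← h.map_flp hσ]
  rw [integral_map (measurable_flp σ).aemeasurable hf.aestronglyMeasurable]

lemma Uncond.hm_flp (h : Uncond μ) {σ : Fin n → ℝ} (hσ : ∀ i, σ i = 1 ∨ σ i = -1) (q : ℝ)
    (v : E n) : hm μ q (flp σ v) = hm μ q v := by
  unfold hm
  have h1 : ∫ y, |inner ℝ (flp σ v) y| ^ q ∂μ = ∫ y, |inner ℝ v y| ^ q ∂μ := by
    have h2 := h.integral_flp hσ (f := fun y : E n => |inner ℝ v y| ^ q) (by fun_prop)
    rw [← h2]
    refine integral_congr_ae (Eventually.of_forall fun y => ?_)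
    simp only [inner_flp]
  rw [h1]

lemma Uncond.mem_G (h : Uncond μ) {σ : Fin n → ℝ} (hσ : ∀ i, σ i = 1 ∨ σ i = -1) {q c : ℝ}
    {x : E n} (hx : x ∈ G μ q c) : flp σ x ∈ G μ q c := by
  intro v
  rw [inner_flp, ← h.hm_flp hσ q v]
  exact hx _

lemma Uncond.symm (h : Uncond μ) : μ.map (fun x => -x) = μ := by
  have h1 := h (fun _ => -1) (fun _ => Or.inr rfl)
  have h2 : (fun x : E n => WithLp.toLp 2 (fun i => (-1 : ℝ) * x i)) = fun x => -x := by
    funext x
    ext i
    simp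
  rwa [h2] at h1

/-- measure of a reflected set -/
lemma Uncond.real_preimage (h : Uncond μ) {σ : Fin n → ℝ} (hσ : ∀ i, σ i = 1 ∨ σ i = -1)
    {S : Set (E n)} (hS : MeasurableSet S) : μ.real (flp σ ⁻¹' S) = μ.real S := by
  conv_rhs => rw [← h.map_flp hσ]
  rw [map_measureReal_apply (measurable_flp σ) hS]

/-- weighted absolute sum is bounded by the support function -/
lemma Uncond.sum_abs_le (h : Uncond μ) {q c : ℝ} {g : E n} (hg : g ∈ G μ q c) (v : E n) :
    ∑ i, |v i * g i| ≤ c * hm μ q v := by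
  set σ : Fin n → ℝ := fun i => if 0 ≤ v i * g i then 1 else -1 with hσd
  have hσ : ∀ i, σ i = 1 ∨ σ i = -1 := by
    intro i
    by_cases h0 : 0 ≤ v i * g i
    · left; simp [hσd, h0]
    · right; simp [hσd, h0]
  have h1 := hg (flp σ v)
  rw [h.hm_flp hσ] at h1
  refine le_trans ?_ ((le_abs_self _).trans h1)
  rw [inner_eq_sum']
  refine le_of_eq (Finset.sum_congr rfl fun i _ => ?_)
  rw [flp_apply]
  by_cases h0 : 0 ≤ v i * g i
  · simp only [hσd, h0, if_true]
    rw [abs_of_nonneg h0, one_mul]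
  · simp only [hσd, h0, if_false]
    rw [abs_of_neg (not_le.1 h0)]
    ring

end Pool.CIP
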