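import Pool.Agent.CIP.P

set_option autoImplicit false

open MeasureTheory Pointwise Set Filter Topology

namespace Pool.CIP

variable {n : ℕ} {μ : Measure (E n)}

lemma exp_25 : Real.exp 25 ≤ 72100000000 := by
  have h1 : Real.exp 25 = Real.exp 1 ^ 25 := by
    rw [← Real.exp_nat_mul]; norm_num
  have h2 := Real.exp_one_lt_d9
  have h3 : Real.exp 1 ^ 25 ≤ 2.7182818286 ^ 25 := by gcongr
  rw [h1]
  refine h3.trans ?_
  norm_num

/-- The core statement for symmetric compact convex sets, as a predicate. -/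
def Core (μ : Measure (E n)) : Prop :=
  ∀ B : Set (E n), IsCompact B → Convex ℝ B → (∀ x ∈ B, -x ∈ B) → ∀ q : ℝ, 1 ≤ q →
    2 * Real.exp (-q) ≤ μ.real B →
    ∃ A₁ ⊆ B, IsCompact A₁ ∧ μ.real ((48:ℝ) • A₁ + G μ q (4 * Real.exp 23))ᶜ ≤ Real.exp (-q)

lemma conv3 {A : Set (E n)} (h : Convex ℝ A) {x y z : E n} (hx : x ∈ A) (hy : y ∈ A)
    (hz : z ∈ A) : (24/49:ℝ) • x + (24/49:ℝ) • y + (1/49:ℝ) • z ∈ A := by
  have h1 := h hx hy (by norm_num : (0:ℝ) ≤ 1/2) (by norm_num : (0:ℝ) ≤ 1/2) (by norm_num)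
  have h2 := h h1 hz (by norm_num : (0:ℝ) ≤ 48/49) (by norm_num : (0:ℝ) ≤ 1/49) (by norm_num)
  have e : (24/49:ℝ) • x + (24/49:ℝ) • y + (1/49:ℝ) • z =
      (48/49:ℝ) • ((1/2:ℝ) • x + (1/2:ℝ) • y) + (1/49:ℝ) • z := by module
  rw [e]; exact h2

/-- an enlargement of a convex set -/
lemma exists_enl [IsProbabilityMeasure μ] (hsym : μ.map (fun x => -x) = μ) (hlc : LC μ)
    (hcore : Core μ) {A : Set (E n)} (hAm : MeasurableSet A) (hAconv : Convex ℝ A) {q : ℝ}
    (hq : 1 ≤ q) (hA : 4 * Real.exp (-q) < μ.real A) :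
    ∃ Y : Set (E n), IsCompact Y ∧ μ.real Yᶜ ≤ Real.exp (-q) ∧
      (∀ y ∈ Y, ∀ x ∈ A, ∃ d ∈ A - A, ∃ g ∈ G μ q (8 * Real.exp 23), y - x = (49:ℝ) • d + g) ∧
      ∃ a₀ ∈ A, ∀ y ∈ Y, ∃ d ∈ A - A, ∃ g ∈ G μ q (8 * Real.exp 23), y = a₀ + ((49:ℝ) • d + g) := by
  have hepos := Real.exp_pos (-q)
  obtain ⟨K, hKA, hKc, hK⟩ := exists_compact_real hAm
    (show 2 * Real.exp (-q) < μ.real A by linarith)
  have hKne : K.Nonempty := by
    rw [nonempty_iff_ne_empty]
    intro h
    rw [h] at hK
    simp at hK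
    linarith
  set K₁ := convexHull ℝ K with hK₁
  have hK₁c : IsCompact K₁ := compact_hull hKc hKne
  have hK₁A : K₁ ⊆ A := convexHull_min hKA hAconv
  have hK₁conv : Convex ℝ K₁ := convex_convexHull ℝ _
  have hK₁m : 2 * Real.exp (-q) ≤ μ.real K₁ :=
    hK.le.trans (measureReal_mono (subset_convexHull ℝ K) (measure_ne_top μ _))
  set B := (1/2:ℝ) • K₁ + (1/2:ℝ) • (-K₁) with hB
  have hBc : IsCompact B := (hK₁c.smul _).add (hK₁c.neg.smul _)
  have hBconv : Convex ℝ B := (hK₁conv.smul _).add (hK₁conv.neg.smul _)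
  have hBs : ∀ x ∈ B, -x ∈ B := by
    rintro _ ⟨_, ⟨x, hx, rfl⟩, _, ⟨y, hy, rfl⟩, rfl⟩
    refine ⟨(1/2:ℝ) • (-y), ⟨-y, by simpa using hy, rfl⟩, (1/2:ℝ) • (-x), ⟨-x, by simpa using hx, rfl⟩, ?_⟩
    show (1/2:ℝ) • (-y) + (1/2:ℝ) • (-x) = -((1/2:ℝ) • x + (1/2:ℝ) • y)
    module
  have hBm : 2 * Real.exp (-q) ≤ μ.real B := by
    have h1 := hlc.half hK₁c hK₁c.neg (U := B) (fun x hx y hy =>
      ⟨_, ⟨x, hx, rfl⟩, _, ⟨y, hy, rfl⟩, rfl⟩)
    have h2 : μ.real (-K₁) = μ.real K₁ := by
      have := measure_neg hsym K₁ hK₁c.measurableSet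
      simp only [Measure.real]
      congr 1
    rw [h2] at h1
    have h3 : μ.real K₁ ≤ μ.real B := by
      have h4 : μ.real K₁ ^ 2 ≤ μ.real B ^ 2 := by rw [sq]; exact h1
      exact le_of_sq_le_sq h4 measureReal_nonneg
    linarith
  obtain ⟨A₁, hA₁B, hA₁c, hA₁⟩ := hcore B hBc hBconv hBs q hq hBm
  set Y := (48:ℝ) • A₁ + G μ q (4 * Real.exp 23) with hY
  have hYc : IsCompact Y := (hA₁c.smul _).add (isCompact_G _ _)
  obtain ⟨a₀, ha₀, ha₀Y⟩ : ∃ a₀ ∈ A, a₀ ∈ Y := by
    by_contra hcon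
    push Not at hcon
    have h1 : A ⊆ Yᶜ := fun x hx => hcon x hx
    have h2 := measureReal_mono (μ := μ) h1 (measure_ne_top μ _)
    linarith
  have main : ∀ y ∈ Y, ∀ x ∈ A, ∃ d ∈ A - A, ∃ g ∈ G μ q (8 * Real.exp 23),
      y - x = (49:ℝ) • d + g := by
    intro y hy x hx
    obtain ⟨_, ⟨b₀, hb₀, rfl⟩, g₀, hg₀, hag₀⟩ := ha₀Y
    obtain ⟨_, ⟨b, hb, rfl⟩, g, hg, rfl⟩ := hy
    obtain ⟨_, ⟨k1, hk1, rfl⟩, _, ⟨k2, hk2, rfl⟩, hk12⟩ := hA₁B hb
    obtain ⟨_, ⟨k3, hk3, rfl⟩, _, ⟨k4, hk4, rfl⟩, hk34⟩ := hA₁B hb₀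
    rw [Set.mem_neg] at hk2 hk4
    have h1 : (24/49:ℝ) • k1 + (24/49:ℝ) • (-k4) + (1/49:ℝ) • a₀ ∈ A :=
      conv3 hAconv (hK₁A hk1) (hK₁A hk4) ha₀
    have h2 : (24/49:ℝ) • (-k2) + (24/49:ℝ) • k3 + (1/49:ℝ) • x ∈ A :=
      conv3 hAconv (hK₁A hk2) (hK₁A hk3) hx
    refine ⟨_, ⟨_, h1, _, h2, rfl⟩, g - g₀, ?_, ?_⟩
    · intro v
      rw [inner_sub_right]
      calc |inner ℝ v g - inner ℝ v g₀| ≤ |inner ℝ v g| + |inner ℝ v g₀| := abs_sub _ _
        _ ≤ 4 * Real.exp 23 * hm μ q v + 4 * Real.exp 23 * hm μ q v := add_le_add (hg v) (hg₀ v)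
        _ = 8 * Real.exp 23 * hm μ q v := by ring
    · have e1 : b = (1/2:ℝ) • k1 + (1/2:ℝ) • k2 := hk12.symm
      have e2 : b₀ = (1/2:ℝ) • k3 + (1/2:ℝ) • k4 := hk34.symm
      have e3 : a₀ = (48:ℝ) • b₀ + g₀ := hag₀.symm
      show (48:ℝ) • b + g - x = (49:ℝ) • (((24/49:ℝ) • k1 + (24/49:ℝ) • (-k4) + (1/49:ℝ) • a₀) -
        ((24/49:ℝ) • (-k2) + (24/49:ℝ) • k3 + (1/49:ℝ) • x)) + (g - g₀)
      rw [e3, e1, e2]
      module
  exact ⟨Y, hYc, hA₁, main, a₀, ha₀, fun y hy => by
    obtain ⟨d, hd, g, hg, h⟩ := main y hy a₀ ha₀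
    exact ⟨d, hd, g, hg, by rw [← h]; abel⟩⟩

/-- optimal concentration for all convex sets, with the difference body -/
theorem main_gen [IsProbabilityMeasure μ] (hsym : μ.map (fun x => -x) = μ) (hlc : LC μ)
    (hcore : Core μ) {A : Set (E n)} (hAm : MeasurableSet A) (hAconv : Convex ℝ A)
    {p : ℝ} (hp : 2 ≤ p) :
    8 * Real.exp p * μ.real A * (1 - μ.real (A + (49:ℝ) • (A - A) + G μ p 7000000000000)) ≤
      (1 - μ.real A) * μ.real (A + (49:ℝ) • (A - A) + G μ p 7000000000000) := by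
  have hp0 : 0 < p := by linarith
  set D := A - A with hD
  set A' := A + (49:ℝ) • D + G μ p 7000000000000 with hA'
  set a := μ.real A with ha
  set a' := μ.real A' with ha'
  have ha1 : a ≤ 1 := measureReal_le_one
  have ha'1 : a' ≤ 1 := measureReal_le_one
  have ha'0 : 0 ≤ a' := measureReal_nonneg
  rcases (measureReal_nonneg (μ := μ) (s := A)).eq_or_lt with h0 | hpos
  · rw [← ha] at h0
    rw [← h0]
    simpa using ha'0
  have hDconv : Convex ℝ D := hAconv.sub hAconv
  have hAne : A.Nonempty := by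
    rw [nonempty_iff_ne_empty]
    intro h
    rw [h] at hpos
    simp at hpos
  have hD0 : (0 : E n) ∈ D := by
    obtain ⟨x, hx⟩ := hAne
    exact ⟨x, hx, x, hx, sub_self x⟩
  have hep := Real.exp_pos p
  have hene := Real.exp_pos (-p)
  set u := -Real.log a with hu
  have hau : a = Real.exp (-u) := by rw [hu, neg_neg, Real.exp_log hpos]
  rcases le_or_gt u (2 * p + 5) with hup | hup
  · -- large or middle sets
    rcases le_or_gt (16 * Real.exp (-p - 8)) (1 - a) with hmid | hbig
    · -- middle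
      have hq : 1 ≤ 2 * p + 8 := by linarith
      have hA2 : 4 * Real.exp (-(2 * p + 8)) < a := by
        rw [hau]
        have h1 : Real.exp (-u) = Real.exp (-(2 * p + 8)) * Real.exp (2 * p + 8 - u) := by
          rw [← Real.exp_add]; congr 1; ring
        rw [h1, mul_comm]
        apply mul_lt_mul_of_pos_left _ (Real.exp_pos _)
        have h2 : Real.exp 3 ≤ Real.exp (2 * p + 8 - u) := Real.exp_le_exp.2 (by linarith)
        have h3 := Real.add_one_le_exp (3:ℝ)
        have h4 : Real.exp 3 = Real.exp 1 ^ 3 := by rw [← Real.exp_nat_mul]; norm_num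
        have h5 := Real.exp_one_gt_d9
        have h6 : (2.7182818283 : ℝ) ^ 3 ≤ Real.exp 1 ^ 3 := by gcongr
        have h7 : (4:ℝ) < 2.7182818283 ^ 3 := by norm_num
        linarith
      obtain ⟨Y, hYc, hYμ, _, a₀, ha₀, hY⟩ := exists_enl hsym hlc hcore hAm hAconv hq hA2
      have hsub : Y ⊆ A' := by
        intro y hy
        obtain ⟨d, hd, g, hg, rfl⟩ := hY y hy
        refine ⟨a₀ + (49:ℝ) • d, ⟨a₀, ha₀, _, ⟨d, hd, rfl⟩, rfl⟩, g, ?_, by simp only [add_assoc]⟩
        refine G_subset hsym hlc (by linarith) (by linarith) (by positivity) ?_ hg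
        have h1 : (2 * p + 8) / p ≤ 6 := by rw [div_le_iff₀ hp0]; linarith
        calc 2 * Real.exp 2 * ((2 * p + 8) / p) * (8 * Real.exp 23)
            ≤ 2 * Real.exp 2 * 6 * (8 * Real.exp 23) := by gcongr
          _ = 96 * (Real.exp 2 * Real.exp 23) := by ring
          _ = 96 * Real.exp 25 := by rw [← Real.exp_add]; norm_num
          _ ≤ 7000000000000 := by have := exp_25; linarith
      have hcY : μ.real Yᶜ = 1 - μ.real Y := by
        rw [measureReal_compl hYc.measurableSet]
        simp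
      have hY' := measureReal_mono (μ := μ) hsub (measure_ne_top μ _)
      have h1 : 1 - a' ≤ Real.exp (-(2 * p + 8)) := by linarith
      have h2 : Real.exp (-(2 * p + 8)) = Real.exp (-p - 8) * Real.exp (-p) := by
        rw [← Real.exp_add]; congr 1; ring
      have h3 : Real.exp p * Real.exp (-p) = 1 := by rw [← Real.exp_add]; simp
      have h4 : Real.exp (-p) ≤ 1 := by rw [Real.exp_le_one_iff]; linarith
      have h5 : Real.exp (-p - 8) ≤ 1 / 2 := by
        have h6 : Real.exp (-p - 8) * Real.exp 8 = Real.exp (-p) := by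
          rw [← Real.exp_add]; congr 1; ring
        have h7 := exp_eight
        have h8 := Real.exp_pos (-p - 8)
        nlinarith
      have h9 : Real.exp (-(2 * p + 8)) ≤ 1 / 2 := by
        rw [h2]
        have := Real.exp_pos (-p - 8)
        nlinarith
      have h10 : 1 / 2 ≤ a' := by linarith
      calc 8 * Real.exp p * a * (1 - a') ≤ 8 * Real.exp p * 1 * (1 - a') := by
            apply mul_le_mul_of_nonneg_right _ (by linarith)
            apply mul_le_mul_of_nonneg_left ha1 (by positivity)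
        _ ≤ 8 * Real.exp p * 1 * Real.exp (-(2 * p + 8)) := by
            apply mul_le_mul_of_nonneg_left h1 (by positivity)
        _ = 8 * Real.exp (-p - 8) * (Real.exp p * Real.exp (-p)) := by rw [h2]; ring
        _ = 8 * Real.exp (-p - 8) := by rw [h3, mul_one]
        _ ≤ (1 - a) * (1 / 2) := by linarith
        _ ≤ (1 - a) * a' := mul_le_mul_of_nonneg_left h10 (by linarith)
    · -- large
      set c := 1 - a with hc
      have hc0 : 0 ≤ c := by linarith
      have h7 := exp_eight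
      have h8 := Real.exp_pos (-p - 8)
      have hcsmall : 32 * Real.exp p * c ≤ 1 := by
        have h1 : Real.exp p * Real.exp (-p - 8) * Real.exp 8 = 1 := by
          rw [← Real.exp_add, ← Real.exp_add]
          have : p + (-p - 8) + 8 = 0 := by ring
          rw [this, Real.exp_zero]
        have h2 : 0 < Real.exp p * Real.exp (-p - 8) := by positivity
        have h3 : Real.exp p * Real.exp (-p - 8) * 2900 ≤ 1 := by
          calc _ ≤ Real.exp p * Real.exp (-p - 8) * Real.exp 8 :=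
                mul_le_mul_of_nonneg_left h7 h2.le
            _ = 1 := h1
        have h4 : Real.exp p * c ≤ Real.exp p * (16 * Real.exp (-p - 8)) :=
          mul_le_mul_of_nonneg_left hbig.le hep.le
        nlinarith
      have hep3 : 3 ≤ Real.exp p := by
        have := Real.add_one_le_exp p
        linarith
      have hc96 : 96 * c ≤ 1 := by nlinarith
      have haHalf : 1 / 2 < a := by linarith
      obtain ⟨K', hK'A, hK'c, hK'⟩ := exists_compact_real hAm haHalf
      obtain ⟨H, hAH, hHm, hHμ⟩ := exists_measurable_superset μ A'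
      have hHr : a' = μ.real H := by rw [ha']; simp [Measure.real, hHμ]
      have hcH : μ.real Hᶜ = 1 - μ.real H := by
        rw [measureReal_compl hHm]; simp
      have hcA : μ.real Aᶜ = c := by
        rw [measureReal_compl hAm]; simp [hc, ha]
      have key : ∀ K : Set (E n), K ⊆ Hᶜ → IsCompact K → μ.real K ≤ 2 * c ^ 2 := by
        intro K hKH hKc
        have h1 := hlc.half hKc hK'c (U := Aᶜ) (by
          intro x hx y hy hz
          apply hKH hx
          apply hAH
          set z := (1/2:ℝ) • x + (1/2:ℝ) • y with hzdef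
          have hxz : z + (49:ℝ) • ((1/49:ℝ) • (z - y)) + 0 = x := by
            rw [hzdef]; module
          rw [← hxz]
          refine ⟨z + (49:ℝ) • ((1/49:ℝ) • (z - y)), ⟨z, hz, _, ⟨(1/49:ℝ) • (z - y), ?_, rfl⟩, rfl⟩,
            0, zero_mem_G (by norm_num), rfl⟩
          exact hDconv.smul_mem_of_zero_mem hD0 ⟨z, hz, y, hK'A hy, rfl⟩ ⟨by norm_num, by norm_num⟩)
        rw [hcA] at h1
        have h2 : 0 ≤ μ.real K := measureReal_nonneg
        nlinarith
      have h9 : μ.real Hᶜ ≤ 2 * c ^ 2 := by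
        refine le_of_forall_pos_le_add fun ε hε => ?_
        obtain ⟨K, hKH, hKc, hK⟩ := hHm.compl.exists_isCompact_lt_add (measure_ne_top μ _)
          (ε := ENNReal.ofReal ε) (by simpa using hε)
        have h1 := ENNReal.toReal_mono (by finiteness) hK.le
        rw [ENNReal.toReal_add (measure_ne_top μ _) (by simp), ENNReal.toReal_ofReal hε.le] at h1
        have h2 := key K hKH hKc
        have h3 : μ.real Hᶜ ≤ μ.real K + ε := h1
        linarith
      have h10 : 1 - a' ≤ 2 * c ^ 2 := by rw [hHr, ← hcH]; exact h9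
      have h11 : 1 / 2 ≤ a' := by nlinarith
      calc 8 * Real.exp p * a * (1 - a') ≤ 8 * Real.exp p * 1 * (1 - a') := by
            apply mul_le_mul_of_nonneg_right _ (by linarith)
            apply mul_le_mul_of_nonneg_left ha1 (by positivity)
        _ ≤ 8 * Real.exp p * 1 * (2 * c ^ 2) := mul_le_mul_of_nonneg_left h10 (by positivity)
        _ = (32 * Real.exp p * c) * (c / 2) := by ring
        _ ≤ 1 * (c / 2) := mul_le_mul_of_nonneg_right hcsmall (by positivity)
        _ = c * (1 / 2) := by ring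
        _ ≤ c * a' := mul_le_mul_of_nonneg_left h11 hc0
  · -- small sets
    have hu0 : 0 < u := by linarith
    have hq : 1 ≤ u + 2 := by linarith
    have he1 : (2:ℝ) ≤ Real.exp 1 := by
      have := Real.exp_one_gt_d9
      linarith
    have he2 : (4:ℝ) < Real.exp 2 := by
      have h6 : Real.exp 2 = Real.exp 1 * Real.exp 1 := by rw [← Real.exp_add]; norm_num
      have h7 := Real.exp_one_gt_d9
      rw [h6]; nlinarith
    have hA2 : 4 * Real.exp (-(u + 2)) < a := by
      rw [hau]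
      have h1 : Real.exp (-u) = Real.exp (-(u + 2)) * Real.exp 2 := by
        rw [← Real.exp_add]; congr 1; ring
      rw [h1, mul_comm]
      exact mul_lt_mul_of_pos_left he2 (Real.exp_pos _)
    obtain ⟨W, hWc, hWμ, hW, _⟩ := exists_enl hsym hlc hcore hAm hAconv hq hA2
    have hcW : μ.real Wᶜ = 1 - μ.real W := by
      rw [measureReal_compl hWc.measurableSet]
      simp
    obtain ⟨A₁, hA₁A, hA₁c, hA₁m'⟩ := exists_compact_real hAm (show a / 2 < μ.real A by linarith)
    have hA₁m : a / 2 ≤ μ.real A₁ := hA₁m'.le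
    have hW2 : 1 / 2 ≤ μ.real W := by
      have h1 : Real.exp (-(u + 2)) ≤ 1 / 2 := by linarith
      linarith
    set s := (p + 4) / u with hs
    have hs0 : 0 < s := by positivity
    have hs1 : s < 1 := by rw [hs, div_lt_one hu0]; linarith
    have key := hlc.closed hA₁c.isClosed hWc.isClosed (t := 1 - s) (by linarith) (by linarith)
      (U := A') (by
        intro x hx y hy
        obtain ⟨d, hd, g, hg, hdg⟩ := hW y hy x (hA₁A hx)
        refine ⟨x + (49:ℝ) • (s • d), ⟨x, hA₁A hx, _, ⟨s • d, ?_, rfl⟩, rfl⟩, s • g, ?_, ?_⟩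
        · exact hDconv.smul_mem_of_zero_mem hD0 hd ⟨hs0.le, hs1.le⟩
        · have h1 : s • g ∈ G μ (u + 2) (s * (8 * Real.exp 23)) := by
            intro v
            rw [inner_smul_right, abs_mul, abs_of_pos hs0, mul_assoc]
            exact mul_le_mul_of_nonneg_left (hg v) hs0.le
          refine G_subset hsym hlc (by linarith) (by linarith) (by positivity) ?_ h1
          have h2 : (u + 2) / p * s ≤ 4 := by
            have h3 : (u + 2) / p * s = (u + 2) / u * ((p + 4) / p) := by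
              rw [hs]; field_simp
            have h4 : (u + 2) / u ≤ 11 / 9 := by
              rw [div_le_div_iff₀ hu0 (by norm_num)]; linarith
            have h5 : (p + 4) / p ≤ 3 := by rw [div_le_iff₀ hp0]; linarith
            rw [h3]
            calc (u + 2) / u * ((p + 4) / p) ≤ 11 / 9 * 3 :=
                  mul_le_mul h4 h5 (by positivity) (by norm_num)
              _ ≤ 4 := by norm_num
          calc 2 * Real.exp 2 * ((u + 2) / p) * (s * (8 * Real.exp 23))
              = 16 * (Real.exp 2 * Real.exp 23) * ((u + 2) / p * s) := by ring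
            _ ≤ 16 * (Real.exp 2 * Real.exp 23) * 4 := mul_le_mul_of_nonneg_left h2 (by positivity)
            _ = 64 * Real.exp 25 := by rw [← Real.exp_add]; norm_num; ring
            _ ≤ 7000000000000 := by have := exp_25; linarith
        · have e : (1 - s) • x + (1 - (1 - s)) • y = x + s • (y - x) := by module
          rw [e, hdg]
          show x + (49:ℝ) • (s • d) + s • g = x + s • ((49:ℝ) • d + g)
          module)
    have key2 := ENNReal.toReal_mono (measure_ne_top μ _) key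
    rw [ENNReal.toReal_mul, ← ENNReal.toReal_rpow, ← ENNReal.toReal_rpow] at key2
    have key3 : μ.real A₁ ^ (1 - s) * μ.real W ^ (1 - (1 - s)) ≤ a' := key2
    have e1 : 1 - (1 - s) = s := by ring
    rw [e1] at key3
    have h1 : (a / 2) ^ (1 - s) * (1 / 2 : ℝ) ^ s ≤ a' := by
      refine le_trans ?_ key3
      apply mul_le_mul
      · exact Real.rpow_le_rpow (by positivity) hA₁m (by linarith)
      · exact Real.rpow_le_rpow (by norm_num) hW2 hs0.le
      · positivity
      · positivity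
    have h2 : (a / 2) ^ (1 - s) * (1 / 2 : ℝ) ^ s = a ^ (1 - s) / 2 := by
      rw [div_eq_mul_one_div a, Real.mul_rpow hpos.le (by norm_num), mul_assoc,
        ← Real.rpow_add (by norm_num)]
      have : 1 - s + s = 1 := by ring
      rw [this, Real.rpow_one]
      ring
    have h3 : a ^ (1 - s) = a * (Real.exp p * Real.exp 4) := by
      rw [hau, ← Real.exp_mul, ← Real.exp_add, ← Real.exp_add]
      congr 1
      have : u * s = p + 4 := by rw [hs]; field_simp
      linear_combination this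
    rw [h2, h3] at h1
    have h4 := exp_four
    have h5 : 27 * (Real.exp p * a) ≤ a' := by
      have h6 : 0 < Real.exp p * a := by positivity
      nlinarith
    have h7 : a ≤ 1 / 2 := by
      rw [hau]
      have h8 : Real.exp (-u) ≤ Real.exp (-1) := Real.exp_le_exp.2 (by linarith)
      have h9 : Real.exp (-1) * Real.exp 1 = 1 := by rw [← Real.exp_add]; simp
      have h10 := Real.exp_pos (-1)
      nlinarith
    have h8 : 8 * Real.exp p * a * (1 - a') ≤ 8 * Real.exp p * a := by
      have : 0 ≤ 8 * Real.exp p * a := by positivity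
      nlinarith
    have h9 : a' / 2 ≤ (1 - a) * a' := by nlinarith
    linarith

end Pool.CIP
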