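import Mathlib

/-! # The Prékopa-Leindler inequality (weights `1 - s`, `s`) in all dimensions -/

set_option autoImplicit false

open MeasureTheory Filter Topology Set
open scoped NNReal ENNReal Pointwise

namespace Pool.CIP

/-- Brunn-Minkowski for compact sets of reals -/
lemma v1_bm_compact {K L : Set ℝ} (hK : IsCompact K) (hL : IsCompact L) (hK0 : K.Nonempty)
    (hL0 : L.Nonempty) : volume K + volume L ≤ volume (K + L) := by
  obtain ⟨a, haK, ha⟩ := hK.exists_isGreatest hK0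
  obtain ⟨b, hbL, hb⟩ := hL.exists_isLeast hL0
  have h1 : volume ((fun x => x + b) '' K) = volume K := by
    rw [Set.image_add_right, measure_preimage_add_right]
  have h2 : volume ((fun x => a + x) '' L) = volume L := by
    rw [Set.image_add_left, measure_preimage_add]
  have m2 : MeasurableSet ((fun x => a + x) '' L) :=
    (hL.image (continuous_const.add continuous_id)).measurableSet
  have hdis : AEDisjoint volume ((fun x => x + b) '' K) ((fun x => a + x) '' L) := by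
    refine measure_mono_null (t := {a + b}) ?_ (measure_singleton _)
    rintro x ⟨⟨k, hk, rfl⟩, ⟨l, hl, hxl⟩⟩
    have h3 := ha hk
    have h4 := hb hl
    simp only at hxl ⊢
    rw [Set.mem_singleton_iff]
    linarith
  rw [← h1, ← h2, ← measure_union₀ m2.nullMeasurableSet hdis]
  refine measure_mono (Set.union_subset ?_ ?_)
  · rintro _ ⟨k, hk, rfl⟩
    exact Set.add_mem_add hk hbL
  · rintro _ ⟨l, hl, rfl⟩
    exact Set.add_mem_add haK hl

/-- Brunn-Minkowski for measurable sets of reals -/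
lemma v1_bm {A B C : Set ℝ} (hA : MeasurableSet A) (hB : MeasurableSet B) (hA0 : A.Nonempty)
    (hB0 : B.Nonempty) (h : ∀ a ∈ A, ∀ b ∈ B, a + b ∈ C) :
    volume A + volume B ≤ volume C := by
  have key : ∀ K L : Set ℝ, K ⊆ A → L ⊆ B → IsCompact K → IsCompact L → K.Nonempty →
      L.Nonempty → volume K + volume L ≤ volume C := by
    intro K L hKA hLB hK hL hK0 hL0
    refine (v1_bm_compact hK hL hK0 hL0).trans (measure_mono ?_)
    rintro _ ⟨k, hk, l, hl, rfl⟩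
    exact h k (hKA hk) l (hLB hl)
  obtain ⟨a, ha⟩ := hA0
  obtain ⟨b, hb⟩ := hB0
  have hne : ∀ {K : Set ℝ} {c : ℝ≥0∞}, c < volume K → K.Nonempty := by
    intro K c hc
    rw [Set.nonempty_iff_ne_empty]
    rintro rfl
    simp at hc
  by_cases h0 : volume A = 0
  · rw [h0, zero_add]
    refine le_of_forall_lt fun c hc => ?_
    obtain ⟨L, hLB, hL, hcL⟩ := hB.exists_lt_isCompact hc
    have := key {a} L (Set.singleton_subset_iff.2 ha) hLB isCompact_singleton hL
      (Set.singleton_nonempty a) (hne hcL)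
    rw [measure_singleton, zero_add] at this
    exact hcL.trans_le this
  by_cases h0' : volume B = 0
  · rw [h0', add_zero]
    refine le_of_forall_lt fun c hc => ?_
    obtain ⟨L, hLB, hL, hcL⟩ := hA.exists_lt_isCompact hc
    have := key L {b} hLB (Set.singleton_subset_iff.2 hb) hL isCompact_singleton (hne hcL)
      (Set.singleton_nonempty b)
    rw [measure_singleton, add_zero] at this
    exact hcL.trans_le this
  refine le_of_forall_lt fun c hc => ?_
  obtain ⟨y, hy, z, hz, hyz⟩ := ENNReal.exists_lt_add_of_lt_add hc h0 h0'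
  obtain ⟨K, hKA, hK, hyK⟩ := hA.exists_lt_isCompact hy
  obtain ⟨L, hLB, hL, hzL⟩ := hB.exists_lt_isCompact hz
  exact hyz.trans_le ((add_le_add hyK.le hzL.le).trans
    (key K L hKA hLB hK hL (hne hyK) (hne hzL)))

/-- Brunn-Minkowski with weights -/
lemma v1_bm_s {s : ℝ} (hs0 : 0 < s) (hs1 : s < 1) {A B C : Set ℝ} (hA : MeasurableSet A)
    (hB : MeasurableSet B) (hA0 : A.Nonempty) (hB0 : B.Nonempty)
    (h : ∀ a ∈ A, ∀ b ∈ B, (1 - s) * a + s * b ∈ C) :
    ENNReal.ofReal (1 - s) * volume A + ENNReal.ofReal s * volume B ≤ volume C := by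
  have hs2 : 0 < 1 - s := by linarith
  have h1 : volume ((1 - s) • A) = ENNReal.ofReal (1 - s) * volume A := by
    rw [Measure.addHaar_smul, Module.finrank_self, pow_one, abs_of_pos hs2]
  have h2 : volume (s • B) = ENNReal.ofReal s * volume B := by
    rw [Measure.addHaar_smul, Module.finrank_self, pow_one, abs_of_pos hs0]
  rw [← h1, ← h2]
  refine v1_bm (hA.const_smul_of_ne_zero hs2.ne') (hB.const_smul_of_ne_zero hs0.ne')
    (hA0.smul_set) (hB0.smul_set) ?_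
  rintro _ ⟨a, ha, rfl⟩ _ ⟨b, hb, rfl⟩
  simpa [smul_eq_mul] using h a ha b hb

/-- normalised form -/
lemma v1_norm {s : ℝ} (hs0 : 0 < s) (hs1 : s < 1) {f g h : ℝ → ℝ≥0∞} (hf : Measurable f) (hg : Measurable g) (hh : Measurable h)
    (hf1 : ∀ x, f x ≤ 1) (hg1 : ∀ x, g x ≤ 1)
    (sf : ∀ t : ℝ, t < 1 → ∃ x, ENNReal.ofReal t < f x)
    (sg : ∀ t : ℝ, t < 1 → ∃ x, ENNReal.ofReal t < g x)
    (H : ∀ x y, f x ^ (1 - s) * g y ^ s ≤ h ((1 - s) * x + s * y)) :
    ENNReal.ofReal (1 - s) * (∫⁻ x, f x) + ENNReal.ofReal s * (∫⁻ x, g x) ≤ ∫⁻ x, h x := by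
  have hs2 : 0 < 1 - s := by linarith
  -- layer cake
  have cake : ∀ p : ℝ → ℝ≥0∞, Measurable p → (∀ x, p x ≤ 1) →
      ∫⁻ x, p x = ∫⁻ t in Set.Ioi (0 : ℝ), volume {a : ℝ | t < (p a).toReal} := by
    intro p hp hp1
    rw [← lintegral_eq_lintegral_meas_lt volume (f := fun x => (p x).toReal)
      (Eventually.of_forall fun x => ENNReal.toReal_nonneg) hp.ennreal_toReal.aemeasurable]
    refine lintegral_congr fun x => ?_
    rw [ENNReal.ofReal_toReal (ne_top_of_le_ne_top ENNReal.one_ne_top (hp1 x))]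
  have lt_iff : ∀ (p : ℝ → ℝ≥0∞), (∀ x, p x ≤ 1) → ∀ t : ℝ, 0 < t → ∀ x,
      (t < (p x).toReal ↔ ENNReal.ofReal t < p x) := by
    intro p hp1 t ht x
    rw [ENNReal.ofReal_lt_iff_lt_toReal ht.le (ne_top_of_le_ne_top ENNReal.one_ne_top (hp1 x))]
  let k : ℝ → ℝ≥0∞ := fun x => min (h x) 1
  have hk : Measurable k := hh.min measurable_const
  have hk1 : ∀ x, k x ≤ 1 := fun x => min_le_right _ _
  have hkh : ∫⁻ x, k x ≤ ∫⁻ x, h x := lintegral_mono fun x => min_le_left _ _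
  refine le_trans ?_ hkh
  rw [cake f hf hf1, cake g hg hg1, cake k hk hk1]
  have hanti : Measurable fun t : ℝ => volume {a : ℝ | t < (f a).toReal} := by
    refine Antitone.measurable fun s t hst => measure_mono fun x hx => ?_
    exact lt_of_le_of_lt hst hx
  rw [← lintegral_const_mul' _ _ ENNReal.ofReal_ne_top,
    ← lintegral_const_mul' _ _ ENNReal.ofReal_ne_top, ← lintegral_add_left (hanti.const_mul _)]
  refine setLIntegral_mono' measurableSet_Ioi fun t ht => ?_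
  have ht0 : 0 < t := ht
  by_cases ht1 : t < 1
  · obtain ⟨x0, hx0⟩ := sf t ht1
    obtain ⟨y0, hy0⟩ := sg t ht1
    refine v1_bm_s hs0 hs1 (measurableSet_lt measurable_const hf.ennreal_toReal)
      (measurableSet_lt measurable_const hg.ennreal_toReal)
      ⟨x0, (lt_iff f hf1 t ht0 x0).2 hx0⟩ ⟨y0, (lt_iff g hg1 t ht0 y0).2 hy0⟩ ?_
    intro x hx y hy
    have hx' := (lt_iff f hf1 t ht0 x).1 hx
    have hy' := (lt_iff g hg1 t ht0 y).1 hy
    refine (lt_iff k hk1 t ht0 _).2 ?_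
    refine lt_min ?_ ?_
    · refine lt_of_lt_of_le ?_ (H x y)
      have e1 : ENNReal.ofReal t = ENNReal.ofReal t ^ (1 - s) * ENNReal.ofReal t ^ s := by
        rw [← ENNReal.rpow_add_of_nonneg _ _ hs2.le hs0.le]
        simp
      rw [e1]
      exact ENNReal.mul_lt_mul (ENNReal.rpow_lt_rpow hx' hs2) (ENNReal.rpow_lt_rpow hy' hs0)
    · exact ENNReal.ofReal_lt_one.2 ht1
  · have e1 : {a : ℝ | t < (f a).toReal} = ∅ := by
      rw [Set.eq_empty_iff_forall_notMem]
      intro x hx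
      have h1 := (lt_iff f hf1 t ht0 x).1 hx
      have h2 : (1 : ℝ≥0∞) ≤ ENNReal.ofReal t := ENNReal.one_le_ofReal.2 (not_lt.1 ht1)
      exact absurd (h2.trans_lt h1) (not_lt.2 (hf1 x))
    have e2 : {a : ℝ | t < (g a).toReal} = ∅ := by
      rw [Set.eq_empty_iff_forall_notMem]
      intro x hx
      have h1 := (lt_iff g hg1 t ht0 x).1 hx
      have h2 : (1 : ℝ≥0∞) ≤ ENNReal.ofReal t := ENNReal.one_le_ofReal.2 (not_lt.1 ht1)
      exact absurd (h2.trans_lt h1) (not_lt.2 (hg1 x))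
    rw [e1, e2, measure_empty, mul_zero, mul_zero, add_zero]
    exact zero_le

/-- weighted arithmetic and geometric means in `[0, ∞]` -/
lemma v1_amgm {s : ℝ} (hs0 : 0 < s) (hs1 : s < 1) (a b : ℝ≥0∞) :
    a ^ (1 - s) * b ^ s ≤ ENNReal.ofReal (1 - s) * a + ENNReal.ofReal s * b := by
  have hs2 : 0 < 1 - s := by linarith
  by_cases ha : a = ⊤
  · rw [ha, ENNReal.mul_top (by simpa using hs2)]
    simp
  by_cases hb : b = ⊤
  · rw [hb, ENNReal.mul_top (by simpa using hs0)]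
    simp
  lift a to ℝ≥0 using ha
  lift b to ℝ≥0 using hb
  have h := NNReal.geom_mean_le_arith_mean2_weighted (Real.toNNReal (1 - s)) (Real.toNNReal s) a b
    (by rw [← Real.toNNReal_add hs2.le hs0.le]; simp)
  rw [Real.coe_toNNReal _ hs2.le, Real.coe_toNNReal _ hs0.le] at h
  rw [← ENNReal.coe_rpow_of_nonneg _ hs2.le, ← ENNReal.coe_rpow_of_nonneg _ hs0.le]
  unfold ENNReal.ofReal
  exact_mod_cast h

/-- bounded form -/
lemma v1_bdd {s : ℝ} (hs0 : 0 < s) (hs1 : s < 1) {f g h : ℝ → ℝ≥0∞} (hf : Measurable f)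
    (hg : Measurable g) (hh : Measurable h)
    (Mf Mg : ℕ) (hMf : ∀ x, f x ≤ Mf) (hMg : ∀ x, g x ≤ Mg)
    (H : ∀ x y, f x ^ (1 - s) * g y ^ s ≤ h ((1 - s) * x + s * y)) :
    (∫⁻ x, f x) ^ (1 - s) * (∫⁻ x, g x) ^ s ≤ ∫⁻ x, h x := by
  have hs2 : 0 < 1 - s := by linarith
  set a := ⨆ x, f x with ha
  set b := ⨆ x, g x with hb
  have haT : a ≠ ⊤ := ne_top_of_le_ne_top (ENNReal.natCast_ne_top Mf) (iSup_le hMf)
  have hbT : b ≠ ⊤ := ne_top_of_le_ne_top (ENNReal.natCast_ne_top Mg) (iSup_le hMg)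
  by_cases ha0 : a = 0
  · have : ∀ x, f x = 0 := fun x => le_antisymm ((le_iSup f x).trans ha0.le) zero_le
    simp [this, ENNReal.zero_rpow_of_pos hs2]
  by_cases hb0 : b = 0
  · have : ∀ x, g x = 0 := fun x => le_antisymm ((le_iSup g x).trans hb0.le) zero_le
    simp [this, ENNReal.zero_rpow_of_pos hs0]
  set c := a ^ (1 - s) * b ^ s with hc
  have hc0 : c ≠ 0 := by
    refine mul_ne_zero ?_ ?_
    · exact (ENNReal.rpow_pos (pos_iff_ne_zero.2 ha0) haT).ne'
    · exact (ENNReal.rpow_pos (pos_iff_ne_zero.2 hb0) hbT).ne'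
  have hcT : c ≠ ⊤ := ENNReal.mul_ne_top (ENNReal.rpow_ne_top_of_nonneg hs2.le haT)
    (ENNReal.rpow_ne_top_of_nonneg hs0.le hbT)
  have hsup : ∀ (p : ℝ → ℝ≥0∞) (s : ℝ≥0∞), s = ⨆ x, p x → s ≠ 0 → s ≠ ⊤ →
      (∀ x, s⁻¹ * p x ≤ 1) ∧ ∀ t : ℝ, t < 1 → ∃ x, ENNReal.ofReal t < s⁻¹ * p x := by
    intro p s hs hs0 hsT
    constructor
    · intro x
      calc s⁻¹ * p x ≤ s⁻¹ * s := by gcongr; rw [hs]; exact le_iSup p x
        _ = 1 := ENNReal.inv_mul_cancel hs0 hsT
    · intro t ht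
      have h1 : ENNReal.ofReal t * s < s := by
        have h2 : ENNReal.ofReal t < 1 := ENNReal.ofReal_lt_one.2 ht
        calc ENNReal.ofReal t * s < 1 * s := (ENNReal.mul_lt_mul_iff_left hs0 hsT).2 h2
          _ = s := one_mul s
      conv_rhs at h1 => rw [hs]
      obtain ⟨x, hx⟩ := lt_iSup_iff.1 h1
      refine ⟨x, ?_⟩
      calc ENNReal.ofReal t = s⁻¹ * (ENNReal.ofReal t * s) := by
            rw [mul_comm, mul_assoc, ENNReal.mul_inv_cancel hs0 hsT, mul_one]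
        _ < s⁻¹ * p x := (ENNReal.mul_lt_mul_iff_right (ENNReal.inv_ne_zero.2 hsT)
            (ENNReal.inv_ne_top.2 hs0)).2 hx
  obtain ⟨f1, f2⟩ := hsup f a ha ha0 haT
  obtain ⟨g1, g2⟩ := hsup g b hb hb0 hbT
  have e1 : c⁻¹ = a⁻¹ ^ (1 - s) * b⁻¹ ^ s := by
    rw [hc, ENNReal.mul_inv (Or.inl (ENNReal.rpow_pos (pos_iff_ne_zero.2 ha0) haT).ne')
      (Or.inl (ENNReal.rpow_ne_top_of_nonneg hs2.le haT)), ENNReal.inv_rpow, ENNReal.inv_rpow]
  have hn := v1_norm hs0 hs1 (f := fun x => a⁻¹ * f x) (g := fun x => b⁻¹ * g x)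
    (h := fun x => c⁻¹ * h x)
    (hf.const_mul _) (hg.const_mul _) (hh.const_mul _) f1 g1 f2 g2 (by
      intro x y
      calc (a⁻¹ * f x) ^ (1 - s) * (b⁻¹ * g y) ^ s
          = a⁻¹ ^ (1 - s) * b⁻¹ ^ s * (f x ^ (1 - s) * g y ^ s) := by
            rw [ENNReal.mul_rpow_of_nonneg _ _ hs2.le, ENNReal.mul_rpow_of_nonneg _ _ hs0.le]
            ring
        _ ≤ a⁻¹ ^ (1 - s) * b⁻¹ ^ s * h ((1 - s) * x + s * y) := by gcongr; exact H x y
        _ = c⁻¹ * h ((1 - s) * x + s * y) := by rw [e1])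
  have hn2 := (v1_amgm hs0 hs1 _ _).trans hn
  rw [lintegral_const_mul _ hf, lintegral_const_mul _ hg, lintegral_const_mul _ hh,
    ENNReal.mul_rpow_of_nonneg _ _ hs2.le, ENNReal.mul_rpow_of_nonneg _ _ hs0.le] at hn2
  have e2 : a⁻¹ ^ (1 - s) * (∫⁻ x, f x) ^ (1 - s) * (b⁻¹ ^ s * (∫⁻ x, g x) ^ s) =
      c⁻¹ * ((∫⁻ x, f x) ^ (1 - s) * (∫⁻ x, g x) ^ s) := by
    rw [e1]
    ring
  rw [e2] at hn2
  exact (ENNReal.mul_le_mul_iff_right (ENNReal.inv_ne_zero.2 hcT) (ENNReal.inv_ne_top.2 hc0)).1 hn2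

/-- the one-dimensional Prékopa-Leindler inequality -/
theorem pl1 {s : ℝ} (hs0 : 0 < s) (hs1 : s < 1) {f g h : ℝ → ℝ≥0∞} (hf : Measurable f)
    (hg : Measurable g) (hh : Measurable h)
    (H : ∀ x y, f x ^ (1 - s) * g y ^ s ≤ h ((1 - s) * x + s * y)) :
    (∫⁻ x, f x) ^ (1 - s) * (∫⁻ x, g x) ^ s ≤ ∫⁻ x, h x := by
  have hs2 : 0 < 1 - s := by linarith
  have trunc : ∀ p : ℝ → ℝ≥0∞, Measurable p →
      ∫⁻ x, p x = ⨆ n : ℕ, ∫⁻ x, min (p x) n := by
    intro p hp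
    rw [← lintegral_iSup (fun n => hp.min measurable_const)]
    · refine lintegral_congr fun x => ?_
      apply le_antisymm
      · by_cases hx : p x = ⊤
        · rw [hx]
          simp only [min_eq_right le_top]
          rw [ENNReal.iSup_natCast]
        · obtain ⟨n, hn⟩ := ENNReal.exists_nat_gt hx
          exact le_iSup_of_le n (le_min le_rfl hn.le)
      · exact iSup_le fun n => min_le_left _ _
    · intro n m hnm x
      exact min_le_min le_rfl (by exact_mod_cast hnm)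
  have pw : ∀ (r : ℝ), 0 < r → ∀ u : ℕ → ℝ≥0∞, (⨆ n, u n) ^ r = ⨆ n, u n ^ r := by
    intro r hr u
    exact (ENNReal.orderIsoRpow r hr).map_iSup u
  rw [trunc f hf, trunc g hg, pw _ hs2, pw _ hs0, ENNReal.iSup_mul]
  refine iSup_le fun n => ?_
  rw [ENNReal.mul_iSup]
  refine iSup_le fun m => ?_
  refine v1_bdd hs0 hs1 (hf.min measurable_const) (hg.min measurable_const) hh n m
    (fun x => min_le_right _ _) (fun x => min_le_right _ _) fun x y => ?_
  refine (mul_le_mul' ?_ ?_).trans (H x y)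
  · exact ENNReal.rpow_le_rpow (min_le_left _ _) hs2.le
  · exact ENNReal.rpow_le_rpow (min_le_left _ _) hs0.le

theorem v1_cons {n : ℕ} (q : ℝ × (Fin n → ℝ)) :
    (MeasurableEquiv.piFinSuccAbove (fun _ : Fin (n + 1) => ℝ) 0).symm q =
      (Fin.cons q.1 q.2 : Fin (n + 1) → ℝ) := by
  change Fin.insertNth (α := fun _ => ℝ) 0 q.1 q.2 = _
  rw [Fin.insertNth_zero']

theorem v1_meas_cons {n : ℕ} : Measurable fun q : ℝ × (Fin n → ℝ) =>
    (Fin.cons q.1 q.2 : Fin (n + 1) → ℝ) := by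
  have h := ((volume_preserving_piFinSuccAbove (fun _ : Fin (n + 1) => ℝ) 0).symm).measurable
  exact (funext (v1_cons (n := n)) : _ = fun q : ℝ × (Fin n → ℝ) =>
    (Fin.cons q.1 q.2 : Fin (n + 1) → ℝ)) ▸ h

/-- integration over `Fin (n + 1) → ℝ`, first coordinate outside -/
theorem v1_fubini {n : ℕ} (p : (Fin (n + 1) → ℝ) → ℝ≥0∞) (hp : Measurable p) :
    ∫⁻ x, p x = ∫⁻ a : ℝ, ∫⁻ y : Fin n → ℝ, p (Fin.cons a y) := by
  have hE := (volume_preserving_piFinSuccAbove (fun _ : Fin (n + 1) => ℝ) 0).symm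
  rw [← hE.lintegral_comp hp]
  simp only [v1_cons]
  rw [Measure.volume_eq_prod]
  exact lintegral_prod (fun q : ℝ × (Fin n → ℝ) => p (Fin.cons q.1 q.2))
    (hp.comp v1_meas_cons).aemeasurable

/-- the Prékopa-Leindler inequality in dimension `n` -/
theorem pln {n : ℕ} {s : ℝ} (hs0 : 0 < s) (hs1 : s < 1) {f g h : (Fin n → ℝ) → ℝ≥0∞}
    (hf : Measurable f) (hg : Measurable g) (hh : Measurable h)
    (H : ∀ x y, f x ^ (1 - s) * g y ^ s ≤ h ((1 - s) • x + s • y)) :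
    (∫⁻ x, f x) ^ (1 - s) * (∫⁻ x, g x) ^ s ≤ ∫⁻ x, h x := by
  induction n with
  | zero =>
    have e : ∀ p : (Fin 0 → ℝ) → ℝ≥0∞, ∫⁻ x, p x = p default := by
      intro p
      rw [lintegral_unique, volume_pi, Measure.pi_univ]
      simp only [Finset.univ_eq_empty, Finset.prod_empty, mul_one]
      exact congrArg p (Subsingleton.elim _ _)
    rw [e, e, e]
    refine (H default default).trans (le_of_eq ?_)
    congr 1
    exact Subsingleton.elim _ _
  | succ n ih =>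
    rw [v1_fubini f hf, v1_fubini g hg, v1_fubini h hh]
    have hm : ∀ p : (Fin (n + 1) → ℝ) → ℝ≥0∞, Measurable p →
        Measurable fun a : ℝ => ∫⁻ y : Fin n → ℝ, p (Fin.cons a y) :=
      fun p hp => Measurable.lintegral_prod_right' (hp.comp v1_meas_cons)
    have hm2 : ∀ p : (Fin (n + 1) → ℝ) → ℝ≥0∞, Measurable p → ∀ a : ℝ,
        Measurable fun y : Fin n → ℝ => p (Fin.cons a y) :=
      fun p hp a => (hp.comp v1_meas_cons).comp measurable_prodMk_left
    refine pl1 hs0 hs1 (hm f hf) (hm g hg) (hm h hh) fun a b => ?_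
    refine ih (hm2 f hf a) (hm2 g hg b) (hm2 h hh _) fun x y => ?_
    refine (H (Fin.cons a x) (Fin.cons b y)).trans (le_of_eq ?_)
    congr 1
    ext i
    refine Fin.cases ?_ (fun j => ?_) i
    · simp
    · simp

end Pool.CIP
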