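import Pool.Agent.CIP.UD

/-! # Unconditional log-concave measures, all Borel sets: definitions and basic facts -/

set_option autoImplicit false

open MeasureTheory Pointwise Set Filter Topology
open scoped ENNReal

namespace Pool.CIP

variable {n : ℕ} {μ : Measure (E n)}

/-- coordinatewise absolute value -/
def ab (x : E n) : E n := WithLp.toLp 2 (fun i => |x i|)

@[simp] lemma ab_apply (x : E n) (i : Fin n) : ab x i = |x i| := rfl

/-- replace the coordinate `k` by `t` -/
def up1 (x : E n) (k : Fin n) (t : ℝ) : E n :=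
  WithLp.toLp 2 (fun i => if i = k then t else x i)

lemma up1_apply (x : E n) (k : Fin n) (t : ℝ) (i : Fin n) :
    up1 x k t i = if i = k then t else x i := rfl

@[simp] lemma up1_same (x : E n) (k : Fin n) (t : ℝ) : up1 x k t k = t := by simp [up1_apply]

lemma up1_ne (x : E n) {k i : Fin n} (t : ℝ) (h : i ≠ k) : up1 x k t i = x i := by
  simp [up1_apply, h]

/-- interpolation in the coordinates `√ x_i` -/
noncomputable def mn (s : ℝ) (x y : E n) : E n :=
  WithLp.toLp 2 (fun i => ((1 - s) * Real.sqrt (x i) + s * Real.sqrt (y i)) ^ 2)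

@[simp] lemma mn_apply (s : ℝ) (x y : E n) (i : Fin n) :
    mn s x y i = ((1 - s) * Real.sqrt (x i) + s * Real.sqrt (y i)) ^ 2 := rfl

/-- relative distance of two reals (zero if both vanish) -/
noncomputable def rd (a b : ℝ) : ℝ := |a - b| / max |a| |b|

/-- sum of the squares of the relative distances -/
noncomputable def rds (x y : E n) : ℝ := ∑ i, (rd (x i) (y i)) ^ 2

/-- the three function inequality with gain on the positive orthant -/
def T1p (μ : Measure (E n)) : Prop := ∀ s : ℝ, 0 < s → s < 1 → ∀ a b h : E n → ℝ≥0∞,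
  Measurable a → Measurable b → Measurable h →
  (∀ x y : E n, (∀ i, 0 < x i) → (∀ i, 0 < y i) → a x ^ (1 - s) * b y ^ s ≤
    ENNReal.ofReal (Real.exp (s * (1 - s) / 8 * rds x y)) * h (mn s x y)) →
  (∫⁻ x, a (ab x) ∂μ) ^ (1 - s) * (∫⁻ x, b (ab x) ∂μ) ^ s ≤ ∫⁻ x, h (ab x) ∂μ

/-- reflections towards the origin increase the measure -/
def M1p (μ : Measure (E n)) : Prop := ∀ k : Fin n, ∀ a : ℝ, 0 ≤ a → ∀ w : E n → ℝ≥0∞,
  Measurable w → ∫⁻ x in {x | a / 2 < x k}, w (up1 x k (a - x k)) ∂μ ≤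
    ∫⁻ x in {x | x k < a / 2}, w x ∂μ

/-- the class of measures for which the theorem is proved first -/
structure Good (μ : Measure (E n)) : Prop where
  unc : Uncond μ
  lc : LC μ
  t1 : T1p μ
  m1 : M1p μ
  pos : ∀ i, 0 < ma μ i

/-- even log-concave densities -/
structure Nice (f : E n → ℝ) : Prop where
  meas : Measurable f
  nonneg : ∀ x, 0 ≤ f x
  even : ∀ σ : Fin n → ℝ, (∀ i, σ i = 1 ∨ σ i = -1) → ∀ x, f (flp σ x) = f x
  lc : ∀ x y : E n, ∀ s : ℝ, 0 < s → s < 1 → f x ^ (1 - s) * f y ^ s ≤ f ((1 - s) • x + s • y)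

/-- the first `k` coordinates get the signs `σ` -/
def pre (k : ℕ) (σ : Fin n → ℝ) (x : E n) : E n :=
  WithLp.toLp 2 (fun i => if (i : ℕ) < k then σ i * |x i| else x i)

lemma pre_apply (k : ℕ) (σ : Fin n → ℝ) (x : E n) (i : Fin n) :
    pre k σ x i = if (i : ℕ) < k then σ i * |x i| else x i := rfl

end Pool.CIP
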