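import Pool.Agent.CIP.VA

/-! # prefix maps: basic facts -/

set_option autoImplicit false

open MeasureTheory Pointwise Set Filter Topology
open scoped ENNReal

namespace Pool.CIP

variable {n : ℕ} {μ : Measure (E n)}

/-- change the sign at one coordinate -/
def sg1 (σ : Fin n → ℝ) (k : Fin n) (t : ℝ) : Fin n → ℝ := fun i => if i = k then t else σ i

lemma sg1_sign {σ : Fin n → ℝ} (hσ : ∀ i, σ i = 1 ∨ σ i = -1) (k : Fin n) {t : ℝ}
    (ht : t = 1 ∨ t = -1) : ∀ i, sg1 σ k t i = 1 ∨ sg1 σ k t i = -1 := by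
  intro i
  unfold sg1
  split_ifs
  · exact ht
  · exact hσ i

lemma continuous_ab : Continuous (ab : E n → E n) := by
  unfold ab
  fun_prop

lemma continuous_up1 (k : Fin n) : Continuous fun p : E n × ℝ => up1 p.1 k p.2 := by
  unfold up1
  refine (PiLp.continuous_toLp 2 _).comp (continuous_pi fun i => ?_)
  by_cases h : i = k
  · simp only [h, if_true]
    exact continuous_snd
  · simp only [h, if_false]
    fun_prop

lemma continuous_pre (k : ℕ) (σ : Fin n → ℝ) : Continuous (pre k σ : E n → E n) := by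
  unfold pre
  refine (PiLp.continuous_toLp 2 _).comp (continuous_pi fun i => ?_)
  by_cases h : (i : ℕ) < k
  · simp only [h, if_true]
    fun_prop
  · simp only [h, if_false]
    fun_prop

lemma measurable_pre (k : ℕ) (σ : Fin n → ℝ) : Measurable (pre k σ : E n → E n) :=
  (continuous_pre k σ).measurable

lemma pre_zero (σ : Fin n → ℝ) (x : E n) : pre 0 σ x = x := by
  ext i
  simp [pre_apply]

lemma pre_n (σ : Fin n → ℝ) (x : E n) : pre n σ x = flp σ (ab x) := by
  ext i
  simp [pre_apply]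

lemma pre_pos (k : Fin n) (σ : Fin n → ℝ) (x : E n) :
    pre ((k:ℕ) + 1) (sg1 σ k 1) x = pre (k:ℕ) σ (up1 x k |x k|) := by
  ext i
  rw [pre_apply, pre_apply, up1_apply]
  unfold sg1
  by_cases h : i = k
  · subst h
    simp
  · have h1 : (i:ℕ) ≠ k := fun h2 => h (Fin.ext h2)
    by_cases h2 : (i:ℕ) < k
    · have h3 : (i:ℕ) < k + 1 := by omega
      simp [h, h2, h3]
    · have h3 : ¬ (i:ℕ) < k + 1 := by omega
      simp [h, h2, h3]

lemma pre_neg (k : Fin n) (σ : Fin n → ℝ) (x : E n) :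
    pre ((k:ℕ) + 1) (sg1 σ k (-1)) x = pre (k:ℕ) σ (up1 x k (-|x k|)) := by
  ext i
  rw [pre_apply, pre_apply, up1_apply]
  unfold sg1
  by_cases h : i = k
  · subst h
    simp
  · have h1 : (i:ℕ) ≠ k := fun h2 => h (Fin.ext h2)
    by_cases h2 : (i:ℕ) < k
    · have h3 : (i:ℕ) < k + 1 := by omega
      simp [h, h2, h3]
    · have h3 : ¬ (i:ℕ) < k + 1 := by omega
      simp [h, h2, h3]

lemma pre_up1 (k : Fin n) (σ : Fin n → ℝ) (x : E n) (t : ℝ) :
    pre (k:ℕ) σ (up1 x k t) = up1 (pre (k:ℕ) σ x) k t := by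
  ext i
  rw [pre_apply, up1_apply, up1_apply, pre_apply]
  by_cases h : i = k
  · subst h
    simp
  · simp [h]

lemma pre_at (k : Fin n) (σ : Fin n → ℝ) (x : E n) : pre (k:ℕ) σ x k = x k := by
  simp [pre_apply]

/-- the flip of one coordinate -/
lemma flp_one (k : Fin n) (x : E n) : flp (sg1 (fun _ => 1) k (-1)) x = up1 x k (-x k) := by
  ext i
  rw [flp_apply, up1_apply]
  unfold sg1
  by_cases h : i = k
  · subst h; simp
  · simp [h]

lemma up1_self (x : E n) (k : Fin n) : up1 x k (x k) = x := by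
  ext i
  rw [up1_apply]
  split_ifs with h
  · rw [h]
  · rfl

/-- the pointwise identity for the two children -/
lemma split_pt {α : Type*} [AddCommMonoid α] (g : E n → α) (k : Fin n) (x : E n) :
    g x + g (up1 x k (-x k)) = g (up1 x k |x k|) + g (up1 x k (-|x k|)) := by
  rcases le_total 0 (x k) with h | h
  · rw [abs_of_nonneg h, up1_self]
  · rw [abs_of_nonpos h, neg_neg, up1_self, add_comm]

lemma Uncond.map_up1 (h : Uncond μ) (k : Fin n) : μ.map (fun x => up1 x k (-x k)) = μ := by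
  have h1 := h.map_flp (σ := sg1 (fun _ => 1) k (-1)) (sg1_sign (fun _ => Or.inl rfl) k (Or.inr rfl))
  have h2 : (flp (sg1 (fun _ => 1) k (-1)) : E n → E n) = fun x => up1 x k (-x k) := by
    funext x
    exact flp_one k x
  rwa [h2] at h1

lemma measurable_up1 (k : Fin n) {f : E n → ℝ} (hf : Measurable f) :
    Measurable fun x : E n => up1 x k (f x) :=
  (continuous_up1 k).measurable.comp (measurable_id.prodMk hf)

lemma Uncond.lintegral_up1 (h : Uncond μ) (k : Fin n) {g : E n → ℝ≥0∞} (hg : Measurable g) :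
    ∫⁻ x, g (up1 x k (-x k)) ∂μ = ∫⁻ x, g x ∂μ := by
  conv_rhs => rw [← h.map_up1 k]
  rw [lintegral_map hg (measurable_up1 k (by fun_prop))]

lemma Uncond.integral_up1 (h : Uncond μ) (k : Fin n) {g : E n → ℝ} (hg : Measurable g) :
    ∫ x, g (up1 x k (-x k)) ∂μ = ∫ x, g x ∂μ := by
  conv_rhs => rw [← h.map_up1 k]
  rw [integral_map (measurable_up1 k (by fun_prop)).aemeasurable hg.aestronglyMeasurable]

/-- averaging over the sign of the coordinate `k`, extended nonnegative functions -/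
lemma Uncond.lintegral_split (h : Uncond μ) (k : Fin n) {g : E n → ℝ≥0∞} (hg : Measurable g) :
    2 * ∫⁻ x, g x ∂μ = ∫⁻ x, g (up1 x k |x k|) ∂μ + ∫⁻ x, g (up1 x k (-|x k|)) ∂μ := by
  rw [two_mul]
  conv_lhs => rw [← h.lintegral_up1 k hg]
  have m1 : Measurable fun x : E n => g (up1 x k (-x k)) := hg.comp (measurable_up1 k (by fun_prop))
  have m2 : Measurable fun x : E n => g (up1 x k |x k|) := hg.comp (measurable_up1 k (by fun_prop))
  rw [h.lintegral_up1 k hg]
  nth_rewrite 2 [← h.lintegral_up1 k hg]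
  rw [← lintegral_add_left hg, ← lintegral_add_left m2]
  refine lintegral_congr fun x => ?_
  exact split_pt g k x

/-- averaging over the sign of the coordinate `k`, bounded functions -/
lemma Uncond.integral_split [IsFiniteMeasure μ] (h : Uncond μ) (k : Fin n) {g : E n → ℝ}
    (hg : Measurable g) {C : ℝ} (hC : ∀ x, |g x| ≤ C) :
    2 * ∫ x, g x ∂μ = ∫ x, g (up1 x k |x k|) ∂μ + ∫ x, g (up1 x k (-|x k|)) ∂μ := by
  have int : ∀ f : E n → E n, Measurable f → Integrable (fun x => g (f x)) μ := by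
    intro f hf
    refine Integrable.of_bound (hg.comp hf).aestronglyMeasurable C (Eventually.of_forall fun x => ?_)
    rw [Real.norm_eq_abs]
    exact hC _
  have i0 : Integrable g μ := int id measurable_id
  have i1 := int _ (measurable_up1 k (f := fun x => -x k) (by fun_prop))
  have i2 := int _ (measurable_up1 k (f := fun x => |x k|) (by fun_prop))
  have i3 := int _ (measurable_up1 k (f := fun x => -|x k|) (by fun_prop))
  rw [two_mul]
  nth_rewrite 2 [← h.integral_up1 k hg]
  rw [← integral_add i0 i1, ← integral_add i2 i3]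
  refine integral_congr_ae (Eventually.of_forall fun x => ?_)
  exact split_pt g k x

/-- averaging identity for prefixes, extended nonnegative functions -/
lemma Uncond.lintegral_pre (h : Uncond μ) (k : Fin n) (σ : Fin n → ℝ) {g : E n → ℝ≥0∞}
    (hg : Measurable g) :
    2 * ∫⁻ x, g (pre (k:ℕ) σ x) ∂μ = ∫⁻ x, g (pre ((k:ℕ) + 1) (sg1 σ k 1) x) ∂μ +
      ∫⁻ x, g (pre ((k:ℕ) + 1) (sg1 σ k (-1)) x) ∂μ := by
  simp only [pre_pos, pre_neg]
  exact h.lintegral_split k (g := fun x => g (pre (k:ℕ) σ x)) (hg.comp (measurable_pre _ _))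

/-- averaging identity for prefixes, bounded functions -/
lemma Uncond.integral_pre [IsFiniteMeasure μ] (h : Uncond μ) (k : Fin n) (σ : Fin n → ℝ)
    {g : E n → ℝ} (hg : Measurable g) {C : ℝ} (hC : ∀ x, |g x| ≤ C) :
    2 * ∫ x, g (pre (k:ℕ) σ x) ∂μ = ∫ x, g (pre ((k:ℕ) + 1) (sg1 σ k 1) x) ∂μ +
      ∫ x, g (pre ((k:ℕ) + 1) (sg1 σ k (-1)) x) ∂μ := by
  simp only [pre_pos, pre_neg]
  exact h.integral_split k (g := fun x => g (pre (k:ℕ) σ x)) (hg.comp (measurable_pre _ _))
    fun x => hC _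

/-- the measure of a set given the signs `σ` of the first `k` coordinates -/
noncomputable def md (μ : Measure (E n)) (k : ℕ) (σ : Fin n → ℝ) (A : Set (E n)) : ℝ :=
  μ.real (pre k σ ⁻¹' A)

lemma md_zero (σ : Fin n → ℝ) (A : Set (E n)) : md μ 0 σ A = μ.real A := by
  unfold md
  have : (pre 0 σ : E n → E n) = id := by funext x; exact pre_zero σ x
  rw [this, preimage_id]

lemma md_nonneg (k : ℕ) (σ : Fin n → ℝ) (A : Set (E n)) : 0 ≤ md μ k σ A := measureReal_nonneg

lemma md_le_one [IsProbabilityMeasure μ] (k : ℕ) (σ : Fin n → ℝ) (A : Set (E n)) :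
    md μ k σ A ≤ 1 := measureReal_le_one

lemma md_mono [IsFiniteMeasure μ] (k : ℕ) (σ : Fin n → ℝ) {A B : Set (E n)} (h : A ⊆ B) :
    md μ k σ A ≤ md μ k σ B := measureReal_mono (preimage_mono h)

lemma Uncond.md_avg [IsFiniteMeasure μ] (h : Uncond μ) (k : Fin n) (σ : Fin n → ℝ)
    {A : Set (E n)} (hA : MeasurableSet A) :
    2 * md μ k σ A = md μ ((k:ℕ) + 1) (sg1 σ k 1) A + md μ ((k:ℕ) + 1) (sg1 σ k (-1)) A := by
  have h1 := h.integral_pre k σ (g := A.indicator fun _ => (1:ℝ)) (measurable_const.indicator hA)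
    (C := 1) (fun x => by
      by_cases hx : x ∈ A
      · simp [hx]
      · simp [hx])
  have key : ∀ (j : ℕ) (τ : Fin n → ℝ),
      ∫ x, A.indicator (fun _ => (1:ℝ)) (pre j τ x) ∂μ = md μ j τ A := by
    intro j τ
    have h2 : (fun x => A.indicator (fun _ => (1:ℝ)) (pre j τ x)) =
        (pre j τ ⁻¹' A).indicator (fun _ => (1:ℝ)) := by
      funext x
      rfl
    rw [h2, integral_indicator_const _ (measurable_pre j τ hA)]
    simp [md]
  rw [key, key, key] at h1
  exact h1

end Pool.CIP
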