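import Pool.Agent.CIP.VA

/-! # Even log-concave densities are decreasing in every `|x_i|` -/

set_option autoImplicit false

open MeasureTheory Pointwise Set Filter Topology
open scoped ENNReal

namespace Pool.CIP

variable {n : ℕ}

/-- one coordinate -/
lemma Nice.mono_one {f : E n → ℝ} (hf : Nice f) (y : E n) (k : Fin n) {t : ℝ}
    (ht : |t| ≤ |y k|) : f y ≤ f (up1 y k t) := by
  classical
  have hid : up1 y k (y k) = y := by
    ext i
    by_cases h : i = k
    · subst h; simp
    · rw [up1_ne _ _ h]
  by_cases h0 : y k = 0
  · rw [h0, abs_zero, abs_nonpos_iff] at ht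
    rw [ht, ← h0, hid]
  by_cases h1 : t = y k
  · rw [h1, hid]
  -- the flipped point
  set σ : Fin n → ℝ := fun i => if i = k then -1 else 1 with hσ
  have hσ' : ∀ i, σ i = 1 ∨ σ i = -1 := by
    intro i
    by_cases h : i = k <;> simp [hσ, h]
  have hev := hf.even σ hσ' y
  by_cases h2 : t = -y k
  · have h3 : up1 y k t = flp σ y := by
      ext i
      rw [up1_apply, flp_apply]
      by_cases h : i = k
      · simp [hσ, h, h2]
      · simp [hσ, h]
    rw [h3, hev]
  set s : ℝ := (1 - t / y k) / 2 with hs
  have habs : |t / y k| ≤ 1 := by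
    rw [abs_div, div_le_one (abs_pos.mpr h0)]
    exact ht
  have h3 : t / y k ≠ 1 := fun h => h1 (by rwa [div_eq_one_iff_eq h0] at h)
  have h4 : t / y k ≠ -1 := fun h => h2 (by
    rw [div_eq_iff h0] at h
    linarith)
  have h5 := abs_le.mp habs
  have h6 : t / y k < 1 := lt_of_le_of_ne h5.2 h3
  have h7 : -1 < t / y k := lt_of_le_of_ne h5.1 (Ne.symm h4)
  have hs0 : 0 < s := by rw [hs]; linarith
  have hs1 : s < 1 := by rw [hs]; linarith
  have h8 := hf.lc y (flp σ y) s hs0 hs1
  have h9 : (1 - s) • y + s • flp σ y = up1 y k t := by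
    ext i
    rw [PiLp.add_apply, PiLp.smul_apply, PiLp.smul_apply, flp_apply, up1_apply, smul_eq_mul,
      smul_eq_mul]
    by_cases h : i = k
    · subst h
      simp only [hσ, if_true]
      rw [hs]
      field_simp
      ring
    · simp only [hσ, h, if_false]
      ring
  rw [h9, hev] at h8
  refine le_trans (le_of_eq ?_) h8
  rcases (hf.nonneg y).eq_or_lt with h10 | h10
  · rw [← h10, Real.zero_rpow hs0.ne', mul_zero]
  · rw [← Real.rpow_add h10]
    simp

/-- even log-concave functions decrease in every `|x_i|` -/
lemma Nice.mono {f : E n → ℝ} (hf : Nice f) {x y : E n} (h : ∀ i, |x i| ≤ |y i|) :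
    f y ≤ f x := by
  classical
  have key : ∀ S : Finset (Fin n),
      f y ≤ f (WithLp.toLp 2 (fun i => if i ∈ S then x i else y i)) := by
    intro S
    induction S using Finset.induction_on with
    | empty => simp
    | insert k S hk ih =>
      refine ih.trans ?_
      set z : E n := WithLp.toLp 2 (fun i => if i ∈ S then x i else y i) with hz
      have h1 : (WithLp.toLp 2 (fun i => if i ∈ insert k S then x i else y i) : E n) =
          up1 z k (x k) := by
        ext i
        rw [up1_apply]
        by_cases hik : i = k
        · subst hik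
          simp
        · simp [hz, hik]
      rw [h1]
      refine hf.mono_one z k ?_
      have : z k = y k := by simp [hz, hk]
      rw [this]
      exact h k
  have h1 := key Finset.univ
  have h2 : (WithLp.toLp 2 (fun i => if i ∈ (Finset.univ : Finset (Fin n)) then x i else y i) :
      E n) = x := by
    ext i
    simp
  rwa [h2] at h1

end Pool.CIP
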