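import Pool.Agent.CIP.VA
import Pool.Agent.CIP.V1

/-! # Measures with an even log-concave density: symmetry, log-concavity, reflections (V4a) -/

set_option autoImplicit false

open MeasureTheory Pointwise Set Filter Topology
open scoped ENNReal

namespace Pool.CIP

variable {n : ℕ} {f : E n → ℝ}

/-! ### the coordinate reflections preserve the volume -/

lemma flp_measurePreserving {σ : Fin n → ℝ} (hσ : ∀ i, σ i = 1 ∨ σ i = -1) :
    MeasurePreserving (flp σ : E n → E n) := by
  set e : E n ≃ₗᵢ[ℝ] E n :=
    { toFun := flp σ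
      map_add' := fun x y => by
        ext i
        simp only [flp_apply, PiLp.add_apply]
        ring
      map_smul' := fun c x => by
        ext i
        simp only [flp_apply, PiLp.smul_apply, smul_eq_mul, RingHom.id_apply]
        ring
      invFun := flp σ
      left_inv := fun x => flp_flp hσ x
      right_inv := fun x => flp_flp hσ x
      norm_map' := fun x => by
        show ‖flp σ x‖ = ‖x‖
        rw [EuclideanSpace.norm_eq, EuclideanSpace.norm_eq]
        congr 1
        refine Finset.sum_congr rfl fun i _ => ?_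
        rw [flp_apply]
        rcases hσ i with h | h <;> simp [h] } with he
  exact e.measurePreserving

/-- reflection of the coordinate `k` in the point `a / 2` -/
def rfk (k : Fin n) (a : ℝ) (x : E n) : E n := up1 x k (a - x k)

lemma rfk_apply (k : Fin n) (a : ℝ) (x : E n) (i : Fin n) :
    rfk k a x i = if i = k then a - x k else x i := rfl

/-- the signs of the reflection in the coordinate `k` -/
def sgk (k : Fin n) : Fin n → ℝ := fun i => if i = k then -1 else 1

lemma sgk_sign (k : Fin n) : ∀ i, sgk k i = 1 ∨ sgk k i = -1 := by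
  intro i
  unfold sgk
  split_ifs
  · exact Or.inr rfl
  · exact Or.inl rfl

lemma rfk_eq (k : Fin n) (a : ℝ) (x : E n) :
    rfk k a x = flp (sgk k) x + EuclideanSpace.single k a := by
  ext i
  rw [rfk_apply, PiLp.add_apply, flp_apply]
  by_cases h : i = k
  · subst h
    simp [sgk]
    ring
  · simp [sgk, h]

lemma rfk_rfk (k : Fin n) (a : ℝ) (x : E n) : rfk k a (rfk k a x) = x := by
  ext i
  rw [rfk_apply]
  by_cases h : i = k
  · subst h
    simp [rfk_apply]
  · simp [rfk_apply, h]

lemma rfk_measurePreserving (k : Fin n) (a : ℝ) : MeasurePreserving (rfk k a : E n → E n) := by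
  have h1 := (measurePreserving_add_right (volume : Measure (E n))
    (EuclideanSpace.single k a)).comp (flp_measurePreserving (sgk_sign k))
  have h2 : (rfk k a : E n → E n) = (fun x => x + EuclideanSpace.single k a) ∘ flp (sgk k) := by
    funext x
    exact rfk_eq k a x
  rw [h2]
  exact h1

/-! ### the measure with density `f` -/

lemma Nice.meas' (hf : Nice f) : Measurable fun x : E n => ENNReal.ofReal (f x) := by
  have := hf.meas
  fun_prop

/-- V4a (1) -/
theorem uncond_of_nice (hf : Nice f) :
    Uncond ((volume : Measure (E n)).withDensity fun x => ENNReal.ofReal (f x)) := by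
  intro σ hσ
  ext S hS
  have hm : Measurable (flp σ : E n → E n) := measurable_flp σ
  rw [show (fun x : E n => WithLp.toLp 2 (fun i => σ i * x i)) = flp σ from rfl,
    Measure.map_apply hm hS, withDensity_apply _ (hm hS), withDensity_apply _ hS,
    ← (flp_measurePreserving hσ).setLIntegral_comp_preimage hS hf.meas']
  simp only [hf.even σ hσ]

/-- Prekopa-Leindler on the Euclidean space -/
theorem plE {s : ℝ} (hs0 : 0 < s) (hs1 : s < 1) {u v w : E n → ℝ≥0∞}
    (hu : Measurable u) (hv : Measurable v) (hw : Measurable w)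
    (H : ∀ x y, u x ^ (1 - s) * v y ^ s ≤ w ((1 - s) • x + s • y)) :
    (∫⁻ x, u x) ^ (1 - s) * (∫⁻ x, v x) ^ s ≤ ∫⁻ x, w x := by
  have hP := PiLp.volume_preserving_toLp (Fin n)
  rw [← hP.lintegral_comp hu, ← hP.lintegral_comp hv, ← hP.lintegral_comp hw]
  exact pln hs0 hs1 (hu.comp hP.measurable) (hv.comp hP.measurable) (hw.comp hP.measurable)
    fun x y => H _ _

/-- V4a (2) -/
theorem lc_of_nice (hf : Nice f) :
    LC ((volume : Measure (E n)).withDensity fun x => ENNReal.ofReal (f x)) := by
  intro K L hK hK0 hL hL0 t ht0 ht1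
  rcases ht0.eq_or_lt with rfl | ht0
  · rw [ENNReal.rpow_zero, one_mul, sub_zero, ENNReal.rpow_one]
    refine measure_mono fun x hx => ?_
    obtain ⟨y, hy⟩ := hK0
    exact ⟨(0 : ℝ) • y, ⟨y, hy, rfl⟩, (1 : ℝ) • x, ⟨x, hx, rfl⟩, by simp⟩
  rcases ht1.eq_or_lt with rfl | ht1
  · rw [sub_self, ENNReal.rpow_zero, mul_one, ENNReal.rpow_one]
    refine measure_mono fun x hx => ?_
    obtain ⟨y, hy⟩ := hL0
    exact ⟨(1 : ℝ) • x, ⟨x, hx, rfl⟩, (0 : ℝ) • y, ⟨y, hy, rfl⟩, by simp⟩
  have hC : IsCompact (t • K + (1 - t) • L) := (hK.smul t).add (hL.smul (1 - t))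
  rw [withDensity_apply _ hK.measurableSet, withDensity_apply _ hL.measurableSet,
    withDensity_apply _ hC.measurableSet, ← lintegral_indicator hK.measurableSet,
    ← lintegral_indicator hL.measurableSet, ← lintegral_indicator hC.measurableSet]
  have key := plE (s := 1 - t) (by linarith) (by linarith)
    (hf.meas'.indicator hK.measurableSet) (hf.meas'.indicator hL.measurableSet)
    (hf.meas'.indicator hC.measurableSet) ?_
  · rw [sub_sub_cancel] at key
    exact key
  intro x y
  rw [sub_sub_cancel]
  by_cases hx : x ∈ K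
  swap
  · rw [indicator_of_notMem hx, ENNReal.zero_rpow_of_pos ht0, zero_mul]
    exact bot_le
  by_cases hy : y ∈ L
  swap
  · rw [indicator_of_notMem hy, ENNReal.zero_rpow_of_pos (by linarith), mul_zero]
    exact bot_le
  have hxy : t • x + (1 - t) • y ∈ t • K + (1 - t) • L :=
    Set.add_mem_add (Set.smul_mem_smul_set hx) (Set.smul_mem_smul_set hy)
  rw [indicator_of_mem hx, indicator_of_mem hy, indicator_of_mem hxy,
    ENNReal.ofReal_rpow_of_nonneg (hf.nonneg _) ht0.le,
    ENNReal.ofReal_rpow_of_nonneg (hf.nonneg _) (by linarith),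
    ← ENNReal.ofReal_mul (Real.rpow_nonneg (hf.nonneg _) _)]
  refine ENNReal.ofReal_le_ofReal ?_
  have h1 := hf.lc x y (1 - t) (by linarith) (by linarith)
  rwa [sub_sub_cancel] at h1

/-- a reflection towards the origin increases an even log-concave function -/
lemma Nice.rfk_le (hf : Nice f) (k : Fin n) {a : ℝ} (ha : 0 ≤ a) {x : E n} (hx : a / 2 < x k) :
    f x ≤ f (rfk k a x) := by
  have hxk : 0 < x k := by linarith
  rcases ha.eq_or_lt with rfl | ha
  · have h1 : rfk k 0 x = flp (sgk k) x := by
      rw [rfk_eq]; simp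
    rw [h1, hf.even _ (sgk_sign k)]
  · set s : ℝ := 1 - a / (2 * x k) with hs
    have h2 : 0 < a / (2 * x k) := by positivity
    have h3 : a / (2 * x k) < 1 := by
      rw [div_lt_one (by positivity)]; linarith
    have h4 := hf.lc x (flp (sgk k) x) s (by linarith) (by linarith)
    rw [hf.even _ (sgk_sign k)] at h4
    have h5 : f x ^ (1 - s) * f x ^ s = f x := by
      rcases (hf.nonneg x).eq_or_lt with h0 | h0
      · rw [← h0, Real.zero_rpow (by linarith), zero_mul]
      · rw [← Real.rpow_add h0]; simp
    have h6 : (1 - s) • x + s • flp (sgk k) x = rfk k a x := by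
      ext i
      rw [rfk_apply, PiLp.add_apply, PiLp.smul_apply, PiLp.smul_apply, flp_apply, smul_eq_mul,
        smul_eq_mul]
      by_cases h : i = k
      · subst h
        simp only [sgk, if_true]
        rw [hs]
        field_simp
        ring
      · simp only [sgk, h, if_false]
        ring
    rw [h5, h6] at h4
    exact h4

/-- V4a (3) -/
theorem m1p_of_nice (hf : Nice f) :
    M1p ((volume : Measure (E n)).withDensity fun x => ENNReal.ofReal (f x)) := by
  intro k a ha w hw
  have hpre : rfk k a ⁻¹' {x : E n | x k < a / 2} = {x : E n | a / 2 < x k} := by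
    ext x
    simp only [mem_preimage, mem_ofPred_eq, rfk_apply, if_true]
    constructor <;> intro h <;> linarith
  have hm1 : MeasurableSet {x : E n | x k < a / 2} :=
    measurableSet_lt (by fun_prop) measurable_const
  have hm2 : MeasurableSet {x : E n | a / 2 < x k} :=
    measurableSet_lt measurable_const (by fun_prop)
  have hR := rfk_measurePreserving (n := n) k a
  have hwR : Measurable fun x : E n => w (rfk k a x) := hw.comp hR.measurable
  rw [setLIntegral_withDensity_eq_setLIntegral_mul _ hf.meas' hw hm1,
    show (fun x : E n => w (up1 x k (a - x k))) = fun x => w (rfk k a x) from rfl,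
    setLIntegral_withDensity_eq_setLIntegral_mul _ hf.meas' hwR hm2,
    ← hR.setLIntegral_comp_preimage hm1 (hf.meas'.mul hw), hpre]
  refine setLIntegral_mono' hm2 fun x hx => ?_
  simp only [Pi.mul_apply]
  gcongr
  exact hf.rfk_le k ha hx

/-- coordinate hyperplanes are null -/
lemma vol_coord_zero (i : Fin n) : (volume : Measure (E n)) {x | x i = 0} = 0 := by
  have hm : MeasurableSet {x : E n | x i = 0} :=
    (measurableSet_singleton (0 : ℝ)).preimage (by fun_prop : Measurable fun x : E n => x i)
  rw [← (PiLp.volume_preserving_toLp (Fin n)).measure_preimage hm.nullMeasurableSet]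
  exact Measure.pi_hyperplane (μ := fun _ : Fin n => (volume : Measure ℝ)) i 0

/-- V4a (4) -/
theorem ma_pos_of_nice (hf : Nice f)
    [hp : IsProbabilityMeasure ((volume : Measure (E n)).withDensity fun x => ENNReal.ofReal (f x))]
    (i : Fin n) : 0 < ma ((volume : Measure (E n)).withDensity fun x => ENNReal.ofReal (f x)) i := by
  set μ : Measure (E n) := (volume : Measure (E n)).withDensity fun x => ENNReal.ofReal (f x) with hμ
  have hac : μ ≪ volume := withDensity_absolutelyContinuous _ _
  have hfin : ∀ q : ℝ, 0 < q → ∀ v : E n, mq μ q v < ⊤ := fun q hq v =>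
    mq_lt_top (uncond_of_nice hf).symm (lc_of_nice hf) hq v
  have hint : Integrable (fun x : E n => |x i|) μ := by
    have h1 := integrable_mom hfin one_pos (EuclideanSpace.single i (1 : ℝ))
    refine h1.congr (Eventually.of_forall fun y => ?_)
    simp only [Real.rpow_one]
    rw [EuclideanSpace.inner_single_left]
    simp
  refine (ma_nonneg (μ := μ) i).lt_of_ne fun h0 => ?_
  have h1 : (fun x : E n => |x i|) =ᵐ[μ] 0 := by
    rw [← integral_eq_zero_iff_of_nonneg (fun x => abs_nonneg _) hint]
    exact h0.symm
  have hv : ∀ᵐ x ∂(volume : Measure (E n)), x i ≠ 0 := by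
    rw [ae_iff]
    simpa using vol_coord_zero i
  have h2 : ∀ᵐ x ∂μ, x i ≠ 0 := hac.ae_le hv
  have h3 : ∀ᵐ x ∂μ, False := by
    filter_upwards [h1, h2] with x hx hx'
    exact hx' (abs_eq_zero.1 hx)
  rw [ae_iff] at h3
  simp at h3

end Pool.CIP
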