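import Mathlib

/-! # The gain in Prekopa-Leindler through square roots (V2, V3) -/

set_option autoImplicit false

open MeasureTheory Set Filter Topology
open scoped ENNReal

namespace Pool.CIP

/-- the gain in dimension one -/
noncomputable def g1 (s x y : ℝ) : ℝ :=
  ((1 - s) * Real.sqrt x + s * Real.sqrt y) / (Real.sqrt x ^ (1 - s) * Real.sqrt y ^ s)

lemma log_gain {θ : ℝ} (h0 : 0 ≤ θ) (h1 : θ ≤ 1) {z : ℝ} (hz0 : 0 ≤ z) (hz1 : z < 1) :
    θ * (1 - θ) * z ^ 2 / 2 ≤ Real.log (1 - θ * z) - θ * Real.log (1 - z) := by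
  set F : ℝ → ℝ := fun t => Real.log (1 - θ * t) - θ * Real.log (1 - t) - θ * (1 - θ) * t ^ 2 / 2
    with hF
  have hpos1 : ∀ t ∈ Ico (0 : ℝ) 1, 0 < 1 - t := fun t ht => by linarith [ht.2]
  have hpos2 : ∀ t ∈ Ico (0 : ℝ) 1, 0 < 1 - θ * t := fun t ht => by
    have : θ * t ≤ 1 * t := mul_le_mul_of_nonneg_right h1 ht.1
    linarith [ht.2]
  have hder : ∀ t ∈ Ico (0 : ℝ) 1, HasDerivAt F
      (-θ / (1 - θ * t) - θ * (-1 / (1 - t)) - θ * (1 - θ) * t) t := by
    intro t ht
    have e1 : HasDerivAt (fun t : ℝ => 1 - θ * t) (-θ) t := by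
      have := ((hasDerivAt_id t).const_mul θ).const_sub 1
      simpa using this
    have e2 : HasDerivAt (fun t : ℝ => 1 - t) (-1) t := by
      simpa using (hasDerivAt_id t).const_sub 1
    have e3 : HasDerivAt (fun t : ℝ => θ * (1 - θ) * t ^ 2 / 2) (θ * (1 - θ) * t) t := by
      have := ((hasDerivAt_pow 2 t).const_mul (θ * (1 - θ))).div_const 2
      refine this.congr_deriv ?_
      simp
      ring
    exact ((e1.log (hpos2 t ht).ne').sub ((e2.log (hpos1 t ht).ne').const_mul θ)).sub e3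
  have hmono : MonotoneOn F (Ico (0 : ℝ) 1) := by
    refine monotoneOn_of_deriv_nonneg (convex_Ico 0 1)
      (fun t ht => (hder t ht).continuousAt.continuousWithinAt) ?_ ?_
    · intro t ht
      rw [interior_Ico] at ht
      exact (hder t ⟨ht.1.le, ht.2⟩).differentiableAt.differentiableWithinAt
    · intro t ht
      rw [interior_Ico] at ht
      have ht' : t ∈ Ico (0 : ℝ) 1 := ⟨ht.1.le, ht.2⟩
      rw [(hder t ht').deriv]
      have p1 := hpos1 t ht'
      have p2 := hpos2 t ht'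
      have key : -θ / (1 - θ * t) - θ * (-1 / (1 - t)) - θ * (1 - θ) * t =
          θ * (1 - θ) * t * (1 / ((1 - θ * t) * (1 - t)) - 1) := by
        field_simp
        ring
      rw [key]
      refine mul_nonneg (mul_nonneg (mul_nonneg h0 (by linarith)) ht.1.le) ?_
      rw [sub_nonneg, le_div_iff₀ (mul_pos p2 p1), one_mul]
      have h3 : 1 - θ * t ≤ 1 := by nlinarith [ht.1]
      have h4 : 1 - t ≤ 1 := by linarith [ht.1]
      calc (1 - θ * t) * (1 - t) ≤ 1 * 1 := mul_le_mul h3 h4 p1.le (by norm_num)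
        _ = 1 := by norm_num
  have h5 := hmono ⟨le_rfl, by norm_num⟩ ⟨hz0, hz1⟩ hz0
  simp only [hF, mul_zero, sub_zero, Real.log_one] at h5
  norm_num at h5
  linarith

/-- the case `u ≤ v` in terms of square roots. -/
lemma gain_aux {s u v : ℝ} (hs0 : 0 < s) (hs1 : s < 1) (hu : 0 < u) (huv : u ≤ v) :
    Real.exp (s * (1 - s) / 8 * (|u ^ 2 - v ^ 2| / max |u ^ 2| |v ^ 2|) ^ 2) ≤
      ((1 - s) * u + s * v) / (u ^ (1 - s) * v ^ s) := by
  have hv : 0 < v := hu.trans_le huv
  set z : ℝ := 1 - u / v with hz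
  have hz0 : 0 ≤ z := by
    rw [hz, sub_nonneg, div_le_one hv]; exact huv
  have hz1 : z < 1 := by
    rw [hz]; have := div_pos hu hv; linarith
  have hsq : u ^ 2 ≤ v ^ 2 := pow_le_pow_left₀ hu.le huv 2
  have hrd : |u ^ 2 - v ^ 2| / max |u ^ 2| |v ^ 2| = z * (2 - z) := by
    rw [abs_of_nonpos (by linarith), abs_of_nonneg (by positivity), abs_of_nonneg (by positivity),
      max_eq_right hsq, hz]
    field_simp
    ring
  have hlog := log_gain (θ := 1 - s) (by linarith) (by linarith) hz0 hz1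
  have h1 : 0 < 1 - (1 - s) * z := by nlinarith
  have h2 : 0 < 1 - z := by linarith
  have hR : ((1 - s) * u + s * v) / (u ^ (1 - s) * v ^ s) =
      Real.exp (Real.log (1 - (1 - s) * z) - (1 - s) * Real.log (1 - z)) := by
    have e1 : u = v * (1 - z) := by rw [hz]; field_simp; ring
    have e2 : (1 - s) * u + s * v = v * (1 - (1 - s) * z) := by rw [e1]; ring
    have e3 : u ^ (1 - s) * v ^ s = v * (1 - z) ^ (1 - s) := by
      rw [e1, Real.mul_rpow hv.le h2.le]
      have : v ^ (1 - s) * v ^ s = v := by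
        rw [← Real.rpow_add hv]; simp
      calc v ^ (1 - s) * (1 - z) ^ (1 - s) * v ^ s = (v ^ (1 - s) * v ^ s) * (1 - z) ^ (1 - s) := by
            ring
        _ = v * (1 - z) ^ (1 - s) := by rw [this]
    rw [e2, e3, mul_div_mul_left _ _ hv.ne', Real.exp_sub, Real.exp_log h1,
      Real.rpow_def_of_pos h2, mul_comm (Real.log (1 - z))]
  rw [hR, hrd, Real.exp_le_exp]
  refine le_trans ?_ hlog
  have h3 : (z * (2 - z)) ^ 2 ≤ (2 * z) ^ 2 := by
    refine pow_le_pow_left₀ (mul_nonneg hz0 (by linarith)) ?_ 2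
    nlinarith
  have h4 : 0 ≤ s * (1 - s) := mul_nonneg hs0.le (by linarith)
  calc s * (1 - s) / 8 * (z * (2 - z)) ^ 2 ≤ s * (1 - s) / 8 * (2 * z) ^ 2 :=
        mul_le_mul_of_nonneg_left h3 (by linarith)
    _ = (1 - s) * (1 - (1 - s)) * z ^ 2 / 2 := by ring

/-- V2, with the relative distance written out. -/
theorem g1_lower_raw {s : ℝ} (hs0 : 0 < s) (hs1 : s < 1) {x y : ℝ} (hx : 0 < x) (hy : 0 < y) :
    Real.exp (s * (1 - s) / 8 * (|x - y| / max |x| |y|) ^ 2) ≤ g1 s x y := by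
  have hsx : Real.sqrt x ^ 2 = x := Real.sq_sqrt hx.le
  have hsy : Real.sqrt y ^ 2 = y := Real.sq_sqrt hy.le
  have hx' := Real.sqrt_pos.mpr hx
  have hy' := Real.sqrt_pos.mpr hy
  rcases le_total (Real.sqrt x) (Real.sqrt y) with h | h
  · have h1 := gain_aux hs0 hs1 hx' h
    rw [hsx, hsy] at h1
    exact h1
  · have h1 := gain_aux (s := 1 - s) (by linarith) (by linarith) hy' h
    rw [hsx, hsy] at h1
    unfold g1
    have e1 : (1 - (1 - s)) = s := by ring
    rw [e1, mul_comm (1 - s) s, abs_sub_comm, max_comm, add_comm,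
      mul_comm (Real.sqrt y ^ s)] at h1
    exact h1

end Pool.CIP
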