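import Pool.Agent.CIP.VB

/-! # concentration in the box, I: the conditional measure on the box -/

set_option autoImplicit false

open MeasureTheory Pointwise Set Filter Topology
open scoped ENNReal

namespace Pool.CIP

variable {n : ℕ} {μ : Measure (E n)}

/-- squared distance in the box -/
noncomputable def dK (μ : Measure (E n)) (Lam : ℝ) (x y : E n) : ℝ :=
  ∑ i, ((x i - y i) / (Lam * ma μ i)) ^ 2

/-- conditional measure on the box -/
noncomputable def nuK (μ : Measure (E n)) (Lam : ℝ) : Measure (E n) :=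
  (μ (box μ Lam))⁻¹ • μ.restrict (box μ Lam)

lemma dK_nonneg (Lam : ℝ) (x y : E n) : 0 ≤ dK μ Lam x y :=
  Finset.sum_nonneg fun _ _ => sq_nonneg _

lemma measurableSet_box (Lam : ℝ) : MeasurableSet (box μ Lam) := (isClosed_box Lam).measurableSet

lemma isProb_nuK [IsFiniteMeasure μ] {Lam : ℝ} (hK : μ (box μ Lam) ≠ 0) :
    IsProbabilityMeasure (nuK μ Lam) := by
  refine ⟨?_⟩
  unfold nuK
  rw [Measure.smul_apply, Measure.restrict_apply_univ, smul_eq_mul,
    ENNReal.inv_mul_cancel hK (measure_ne_top μ _)]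

lemma ae_nuK (Lam : ℝ) : ∀ᵐ x ∂(nuK μ Lam), x ∈ box μ Lam := by
  unfold nuK
  exact Measure.ae_smul_measure (ae_restrict_mem (measurableSet_box Lam)) _

lemma flp_mem_box_iff {Lam : ℝ} {σ : Fin n → ℝ} (hσ : ∀ i, σ i = 1 ∨ σ i = -1) {x : E n} :
    flp σ x ∈ box μ Lam ↔ x ∈ box μ Lam := by
  constructor
  · intro h
    have := flp_mem_box hσ h
    rwa [flp_flp hσ] at this
  · exact flp_mem_box hσ

lemma ab_mem_box_iff {Lam : ℝ} {x : E n} : ab x ∈ box μ Lam ↔ x ∈ box μ Lam := by
  simp [box]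

lemma uncond_nuK (h : Uncond μ) (Lam : ℝ) : Uncond (nuK μ Lam) := by
  intro σ hσ
  change (nuK μ Lam).map (flp σ) = nuK μ Lam
  unfold nuK
  have h1 : (μ.restrict (box μ Lam)).map (flp σ) = μ.restrict (box μ Lam) := by
    have h2 : flp σ ⁻¹' (box μ Lam) = box μ Lam := by
      ext x
      exact flp_mem_box_iff hσ
    have h3 := Measure.restrict_map (μ := μ) (measurable_flp σ) (measurableSet_box (μ := μ) Lam)
    rw [h.map_flp hσ, h2] at h3
    exact h3.symm
  rw [Measure.map_smul, h1]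

lemma m1_nuK (h : M1p μ) {Lam : ℝ} : M1p (nuK μ Lam) := by
  intro k a ha w hw
  unfold nuK
  simp only [Measure.restrict_smul, lintegral_smul_measure, smul_eq_mul]
  refine mul_le_mul' le_rfl ?_
  have m1 : MeasurableSet {x : E n | a / 2 < x k} := measurableSet_lt measurable_const (by fun_prop)
  have m2 : MeasurableSet {x : E n | x k < a / 2} := measurableSet_lt (by fun_prop) measurable_const
  rw [Measure.restrict_restrict m1, Measure.restrict_restrict m2]
  have hK := measurableSet_box (μ := μ) Lam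
  have hw' : Measurable ((box μ Lam).indicator w) := hw.indicator hK
  have key := h k a ha _ hw'
  have e1 : ∫⁻ x in {x : E n | x k < a / 2}, (box μ Lam).indicator w x ∂μ =
      ∫⁻ x in {x : E n | x k < a / 2} ∩ box μ Lam, w x ∂μ := by
    rw [lintegral_indicator hK, Measure.restrict_restrict hK, inter_comm]
  rw [e1] at key
  refine le_trans ?_ key
  have m3 : Measurable fun x : E n => w (up1 x k (a - x k)) :=
    hw.comp (measurable_up1 k (by fun_prop))
  calc ∫⁻ x in {x : E n | a / 2 < x k} ∩ box μ Lam, w (up1 x k (a - x k)) ∂μ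
      = ∫⁻ x in {x : E n | a / 2 < x k}, (box μ Lam).indicator
          (fun x => w (up1 x k (a - x k))) x ∂μ := by
        rw [lintegral_indicator hK, Measure.restrict_restrict hK, inter_comm]
    _ ≤ ∫⁻ x in {x : E n | a / 2 < x k}, (box μ Lam).indicator w (up1 x k (a - x k)) ∂μ := by
        refine setLIntegral_mono' m1 fun x hx => ?_
        by_cases hxK : x ∈ box μ Lam
        · have hu : up1 x k (a - x k) ∈ box μ Lam := by
            intro i
            rw [up1_apply]
            split_ifs with hi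
            · subst hi
              refine le_trans ?_ (hxK i)
              simp only [mem_ofPred_eq] at hx
              rw [abs_of_pos (show 0 < x i by linarith), abs_le]
              constructor <;> linarith
            · exact hxK i
          rw [indicator_of_mem hxK, indicator_of_mem hu]
        · rw [indicator_of_notMem hxK]
          exact bot_le

/-- the interpolation of two positive points of the box is in the box -/
lemma mn_mem_box {Lam : ℝ} {s : ℝ} (hs0 : 0 ≤ s) (hs1 : s ≤ 1) {x y : E n}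
    (hx : x ∈ box μ Lam) (hy : y ∈ box μ Lam) (hx0 : ∀ i, 0 ≤ x i) (hy0 : ∀ i, 0 ≤ y i) :
    mn s x y ∈ box μ Lam := by
  intro i
  rw [mn_apply]
  have h1 := hx i
  have h2 := hy i
  rw [abs_of_nonneg (hx0 i)] at h1
  rw [abs_of_nonneg (hy0 i)] at h2
  have h0 : 0 ≤ Lam * ma μ i := (hx0 i).trans h1
  have h3 : Real.sqrt (x i) ≤ Real.sqrt (Lam * ma μ i) := Real.sqrt_le_sqrt h1
  have h4 : Real.sqrt (y i) ≤ Real.sqrt (Lam * ma μ i) := Real.sqrt_le_sqrt h2
  have h5 : (1 - s) * Real.sqrt (x i) + s * Real.sqrt (y i) ≤ Real.sqrt (Lam * ma μ i) := by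
    calc (1 - s) * Real.sqrt (x i) + s * Real.sqrt (y i)
        ≤ (1 - s) * Real.sqrt (Lam * ma μ i) + s * Real.sqrt (Lam * ma μ i) :=
          add_le_add (mul_le_mul_of_nonneg_left h3 (by linarith)) (mul_le_mul_of_nonneg_left h4 hs0)
      _ = Real.sqrt (Lam * ma μ i) := by ring
  have h6 : 0 ≤ (1 - s) * Real.sqrt (x i) + s * Real.sqrt (y i) :=
    add_nonneg (mul_nonneg (by linarith) (Real.sqrt_nonneg _)) (mul_nonneg hs0 (Real.sqrt_nonneg _))
  rw [abs_of_nonneg (sq_nonneg _)]
  calc ((1 - s) * Real.sqrt (x i) + s * Real.sqrt (y i)) ^ 2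
      ≤ (Real.sqrt (Lam * ma μ i)) ^ 2 := pow_le_pow_left₀ h6 h5 2
    _ = Lam * ma μ i := Real.sq_sqrt h0

lemma dK_le_rds {Lam : ℝ} (hpos : ∀ i, 0 < Lam * ma μ i) {x y : E n} (hx : x ∈ box μ Lam)
    (hy : y ∈ box μ Lam) : dK μ Lam x y ≤ rds x y := by
  unfold dK rds
  refine Finset.sum_le_sum fun i _ => ?_
  rw [← sq_abs, abs_div, abs_of_pos (hpos i)]
  unfold rd
  have hm : max |x i| |y i| ≤ Lam * ma μ i := max_le (hx i) (hy i)
  have hdn : 0 ≤ |x i - y i| / (Lam * ma μ i) := div_nonneg (abs_nonneg _) (hpos i).le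
  rcases (le_max_of_le_left (abs_nonneg (x i)) : 0 ≤ max |x i| |y i|).eq_or_lt with h0 | h0
  · have h1 : |x i| = 0 := le_antisymm (h0 ▸ le_max_left _ _) (abs_nonneg _)
    have h2 : |y i| = 0 := le_antisymm (h0 ▸ le_max_right _ _) (abs_nonneg _)
    rw [abs_eq_zero.1 h1, abs_eq_zero.1 h2]
    simp
  · refine pow_le_pow_left₀ hdn ?_ 2
    exact div_le_div_of_nonneg_left (abs_nonneg _) h0 hm

/-- the three function inequality on the box, exponential form -/
theorem t1_nuK [IsFiniteMeasure μ] (h : T1p μ) {Lam : ℝ} (hpos : ∀ i, 0 < Lam * ma μ i)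
    (hK : μ (box μ Lam) ≠ 0) {σ : Fin n → ℝ} {θ φ : E n → ℝ}
    (hθ : Measurable θ) (hφ : Measurable φ)
    (hyp : ∀ x ∈ box μ Lam, ∀ y ∈ box μ Lam, (∀ i, 0 < x i) → (∀ i, 0 < y i) →
      θ (flp σ x) ≤ φ (flp σ y) + dK μ Lam x y / 16) :
    (∫ x, Real.exp (θ (pre n σ x)) ∂(nuK μ Lam)) * (∫ x, Real.exp (-φ (pre n σ x)) ∂(nuK μ Lam))
      ≤ 1 := by
  set K := box μ Lam with hKd
  have mK : MeasurableSet K := measurableSet_box Lam
  set a : E n → ℝ≥0∞ := K.indicator fun x => ENNReal.ofReal (Real.exp (θ (flp σ x))) with ha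
  set b : E n → ℝ≥0∞ := K.indicator fun x => ENNReal.ofReal (Real.exp (-φ (flp σ x))) with hb
  set c : E n → ℝ≥0∞ := K.indicator fun _ => 1 with hc
  have ma' : Measurable a := ((hθ.comp (measurable_flp σ)).exp.ennreal_ofReal).indicator mK
  have mb' : Measurable b := ((hφ.comp (measurable_flp σ)).neg.exp.ennreal_ofReal).indicator mK
  have mc' : Measurable c := measurable_const.indicator mK
  have key := h (1/2) (by norm_num) (by norm_num) a b c ma' mb' mc' (by
    intro x y hx0 hy0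
    by_cases hx : x ∈ K
    · by_cases hy : y ∈ K
      · have hm : mn (1/2) x y ∈ K := mn_mem_box (by norm_num) (by norm_num) hx hy
          (fun i => (hx0 i).le) (fun i => (hy0 i).le)
        rw [ha, hb, hc, indicator_of_mem hx, indicator_of_mem hy, indicator_of_mem hm, mul_one]
        rw [ENNReal.ofReal_rpow_of_pos (Real.exp_pos _), ENNReal.ofReal_rpow_of_pos (Real.exp_pos _),
          ← ENNReal.ofReal_mul (by positivity)]
        refine ENNReal.ofReal_le_ofReal ?_
        rw [← Real.exp_mul, ← Real.exp_mul, ← Real.exp_add]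
        refine Real.exp_le_exp.2 ?_
        have h1 := hyp x hx y hy hx0 hy0
        have h2 := dK_le_rds hpos hx hy
        linarith
      · rw [hb, indicator_of_notMem hy, ENNReal.zero_rpow_of_pos (by norm_num), mul_zero]
        exact bot_le
    · rw [ha, indicator_of_notMem hx, ENNReal.zero_rpow_of_pos (by norm_num), zero_mul]
      exact bot_le)
  have hab : ∀ (g : E n → ℝ≥0∞), ∫⁻ x, K.indicator g (ab x) ∂μ = ∫⁻ x in K, g (ab x) ∂μ := by
    intro g
    rw [← lintegral_indicator mK]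
    refine lintegral_congr fun x => ?_
    by_cases hx : x ∈ K
    · rw [indicator_of_mem hx, indicator_of_mem (ab_mem_box_iff.2 hx)]
    · rw [indicator_of_notMem hx, indicator_of_notMem (fun h => hx (ab_mem_box_iff.1 h))]
  rw [ha, hb, hc, hab, hab, hab] at key
  simp only [lintegral_one, Measure.restrict_apply_univ] at key
  set A := ∫⁻ x in K, ENNReal.ofReal (Real.exp (θ (flp σ (ab x)))) ∂μ with hA
  set B := ∫⁻ x in K, ENNReal.ofReal (Real.exp (-φ (flp σ (ab x)))) ∂μ with hB
  have hAB : A * B ≤ μ K * μ K := by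
    have h1 : ((1:ℝ) - 1/2) = 1/2 := by norm_num
    rw [h1] at key
    have h2 := mul_le_mul' key key
    have h3 : ∀ z : ℝ≥0∞, z ^ (1/2:ℝ) * z ^ (1/2:ℝ) = z := by
      intro z
      rw [← ENNReal.rpow_add_of_nonneg _ _ (by norm_num) (by norm_num)]
      norm_num
    calc A * B = (A ^ (1/2:ℝ) * A ^ (1/2:ℝ)) * (B ^ (1/2:ℝ) * B ^ (1/2:ℝ)) := by rw [h3, h3]
      _ = (A ^ (1/2:ℝ) * B ^ (1/2:ℝ)) * (A ^ (1/2:ℝ) * B ^ (1/2:ℝ)) := by ring
      _ ≤ μ K * μ K := h2
  -- back to the conditional measure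
  have hint : ∀ g : E n → ℝ, Measurable g →
      ∫ x, Real.exp (g (pre n σ x)) ∂(nuK μ Lam) =
        ((μ K)⁻¹ * ∫⁻ x in K, ENNReal.ofReal (Real.exp (g (flp σ (ab x)))) ∂μ).toReal := by
    intro g hg
    have hm : AEStronglyMeasurable (fun x => Real.exp (g (pre n σ x))) (nuK μ Lam) :=
      ((hg.comp (measurable_pre n σ)).exp).aestronglyMeasurable
    rw [integral_eq_lintegral_of_nonneg_ae (Eventually.of_forall fun x => (Real.exp_pos _).le) hm]
    unfold nuK
    rw [lintegral_smul_measure, smul_eq_mul]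
    simp only [pre_n]
    rfl
  have e1 := hint θ hθ
  have e2 := hint (fun x => -φ x) hφ.neg
  rw [e1, e2, ← ENNReal.toReal_mul]
  have h5 : (μ K)⁻¹ * A * ((μ K)⁻¹ * B) ≤ 1 := by
    calc (μ K)⁻¹ * A * ((μ K)⁻¹ * B) = (μ K)⁻¹ * (μ K)⁻¹ * (A * B) := by ring
      _ ≤ (μ K)⁻¹ * (μ K)⁻¹ * (μ K * μ K) := mul_le_mul' le_rfl hAB
      _ = ((μ K)⁻¹ * μ K) * ((μ K)⁻¹ * μ K) := by ring
      _ = 1 := by rw [ENNReal.inv_mul_cancel hK (measure_ne_top μ _), one_mul]
  exact ENNReal.toReal_le_of_le_ofReal zero_le_one (by rw [ENNReal.ofReal_one]; exact h5)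

end Pool.CIP
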