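import Pool.Agent.CIP.VT

/-! # concentration in the box, II: the induction over the signs -/

set_option autoImplicit false

open MeasureTheory Pointwise Set Filter Topology
open scoped ENNReal

namespace Pool.CIP

variable {n : ℕ} {μ : Measure (E n)}

/-- the one coordinate lemma, as a statement -/
def OneCoord (n : ℕ) : Prop := ∀ ν : Measure (E n), IsProbabilityMeasure ν → Uncond ν → M1p ν →
  ∀ (k : Fin n) (τ : ℝ), 0 < τ → (∀ᵐ x ∂ν, |x k| ≤ τ) → ∀ u φ : E n → ℝ,
    Measurable u → Measurable φ → ∀ C : ℝ, (∀ x, |u x| ≤ C) → (∀ x, |φ x| ≤ C) →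
    (∀ x t, |x k| ≤ τ → |t| ≤ τ → u x ≤ φ (up1 x k t) + (x k - t) ^ 2 / (16 * τ ^ 2)) →
    (Real.exp (∫ x, u (up1 x k |x k|) ∂ν) + Real.exp (∫ x, u (up1 x k (-|x k|)) ∂ν)) / 2 ≤
      Real.exp (∫ x, φ x ∂ν)

/-- infimal convolution in the coordinate `k` -/
noncomputable def Qk (k : Fin n) (τ : ℝ) (φ : E n → ℝ) (x : E n) : ℝ :=
  sInf ((fun t => φ (up1 x k t) + min ((x k - t) ^ 2 / (16 * τ ^ 2)) 1) '' Icc (-τ) τ)

lemma continuous_Qk (k : Fin n) (τ : ℝ) {φ : E n → ℝ} (hφ : Continuous φ) :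
    Continuous (Qk k τ φ) := by
  unfold Qk
  refine IsCompact.continuous_sInf (f := fun (x : E n) (t : ℝ) =>
    φ (up1 x k t) + min ((x k - t) ^ 2 / (16 * τ ^ 2)) 1) isCompact_Icc ?_
  have h1 : Continuous fun p : E n × ℝ => φ (up1 p.1 k p.2) := hφ.comp (continuous_up1 k)
  have h2 : Continuous fun p : E n × ℝ => min ((p.1 k - p.2) ^ 2 / (16 * τ ^ 2)) 1 := by
    refine Continuous.min ?_ continuous_const
    refine Continuous.div_const ?_ _
    fun_prop
  exact h1.add h2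

lemma Qk_cont_t (k : Fin n) (τ : ℝ) {φ : E n → ℝ} (hφ : Continuous φ) (x : E n) :
    Continuous fun t => φ (up1 x k t) + min ((x k - t) ^ 2 / (16 * τ ^ 2)) 1 := by
  have h1 : Continuous fun t : ℝ => φ (up1 x k t) :=
    hφ.comp ((continuous_up1 k).comp (continuous_const.prodMk continuous_id))
  have h2 : Continuous fun t : ℝ => min ((x k - t) ^ 2 / (16 * τ ^ 2)) 1 := by
    refine Continuous.min ?_ continuous_const
    refine Continuous.div_const ?_ _
    fun_prop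
  exact h1.add h2

lemma Qk_le (k : Fin n) {τ : ℝ} {φ : E n → ℝ} (hφ : Continuous φ) (x : E n) {t : ℝ}
    (ht : |t| ≤ τ) : Qk k τ φ x ≤ φ (up1 x k t) + min ((x k - t) ^ 2 / (16 * τ ^ 2)) 1 := by
  unfold Qk
  refine csInf_le ?_ ⟨t, abs_le.1 ht, rfl⟩
  exact (isCompact_Icc.image (Qk_cont_t k τ hφ x)).bddBelow

lemma Qk_attain (k : Fin n) {τ : ℝ} (hτ : 0 ≤ τ) {φ : E n → ℝ} (hφ : Continuous φ) (x : E n) :
    ∃ t, |t| ≤ τ ∧ Qk k τ φ x = φ (up1 x k t) + min ((x k - t) ^ 2 / (16 * τ ^ 2)) 1 := by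
  have h1 : ((fun t => φ (up1 x k t) + min ((x k - t) ^ 2 / (16 * τ ^ 2)) 1) '' Icc (-τ) τ).Nonempty :=
    ⟨_, 0, ⟨by linarith, hτ⟩, rfl⟩
  have h2 := (isCompact_Icc.image (Qk_cont_t k τ hφ x)).sInf_mem h1
  obtain ⟨t, ht, hte⟩ := h2
  exact ⟨t, abs_le.2 ht, hte.symm⟩

lemma Qk_bound (k : Fin n) {τ : ℝ} (hτ : 0 ≤ τ) {φ : E n → ℝ} (hφ : Continuous φ) {C : ℝ}
    (hC : ∀ x, |φ x| ≤ C) (x : E n) : |Qk k τ φ x| ≤ C + 1 := by
  obtain ⟨t, ht, hte⟩ := Qk_attain k hτ hφ x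
  rw [hte]
  have h1 := hC (up1 x k t)
  have h2 : 0 ≤ min ((x k - t) ^ 2 / (16 * τ ^ 2)) 1 := le_min (by positivity) zero_le_one
  have h3 : min ((x k - t) ^ 2 / (16 * τ ^ 2)) 1 ≤ 1 := min_le_right _ _
  rw [abs_le] at h1 ⊢
  constructor <;> linarith

/-- the admissible pairs of functions -/
def HT (μ : Measure (E n)) (Lam : ℝ) (k : ℕ) (φ θ : E n → ℝ) : Prop :=
  ∀ x ∈ box μ Lam, ∀ y ∈ box μ Lam, ∀ z ∈ box μ Lam, (∀ i, 0 ≤ x i * y i) →
    (∀ j : Fin n, (j:ℕ) < k → z j = y j) →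
    θ x ≤ φ z + dK μ Lam y z / 16 + dK μ Lam x y / 16

lemma up1_mem_box {Lam : ℝ} {x : E n} (hx : x ∈ box μ Lam) (k : Fin n) {t : ℝ}
    (ht : |t| ≤ Lam * ma μ k) : up1 x k t ∈ box μ Lam := by
  intro i
  rw [up1_apply]
  split_ifs with h
  · rw [h]; exact ht
  · exact hx i

lemma HT_step {Lam : ℝ} (hpos : ∀ i, 0 < Lam * ma μ i) {k : Fin n} {φ θ : E n → ℝ}
    (hφ : Continuous φ) (h : HT μ Lam k φ θ) :
    HT μ Lam ((k:ℕ) + 1) (Qk k (Lam * ma μ k) φ) θ := by
  intro x hx y hy z hz hxy hzy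
  obtain ⟨t, ht, hte⟩ := Qk_attain k (hpos k).le hφ z
  have hzk : z k = y k := hzy k (Nat.lt_succ_self _)
  have h1 := h x hx y hy (up1 z k t) (up1_mem_box hz k ht) hxy (by
    intro j hj
    have hjk : j ≠ k := by
      rintro rfl
      exact lt_irrefl _ hj
    rw [up1_ne _ _ hjk]
    exact hzy j (by omega))
  have h2 : dK μ Lam y (up1 z k t) = dK μ Lam y z + (z k - t) ^ 2 / (Lam * ma μ k) ^ 2 := by
    unfold dK
    rw [← Finset.add_sum_erase _ _ (Finset.mem_univ k), ← Finset.add_sum_erase _ _ (Finset.mem_univ k)]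
    have h3 : ∑ i ∈ Finset.univ.erase k, ((y i - up1 z k t i) / (Lam * ma μ i)) ^ 2 =
        ∑ i ∈ Finset.univ.erase k, ((y i - z i) / (Lam * ma μ i)) ^ 2 := by
      refine Finset.sum_congr rfl fun i hi => ?_
      rw [up1_ne _ _ (Finset.ne_of_mem_erase hi)]
    rw [h3, up1_same, hzk]
    ring
  have h4 : (z k - t) ^ 2 / (16 * (Lam * ma μ k) ^ 2) ≤ 1 := by
    rw [div_le_one (by have := hpos k; positivity)]
    have h5 := hz k
    have h6 : |z k - t| ≤ 2 * (Lam * ma μ k) := by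
      calc |z k - t| ≤ |z k| + |t| := abs_sub _ _
        _ ≤ 2 * (Lam * ma μ k) := by linarith
    rw [← sq_abs]
    have h7 : 0 ≤ |z k - t| := abs_nonneg _
    nlinarith [hpos k]
  rw [hte, min_eq_left h4]
  rw [h2] at h1
  have h8 : (z k - t) ^ 2 / (16 * (Lam * ma μ k) ^ 2) =
      (z k - t) ^ 2 / (Lam * ma μ k) ^ 2 / 16 := by
    rw [div_div, mul_comm ((Lam * ma μ k) ^ 2)]
  rw [h8]
  linarith

/-- Jensen's inequality for the exponential -/
lemma exp_neg_integral_le {ν : Measure (E n)} [IsProbabilityMeasure ν] {g : E n → ℝ}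
    (hg : Measurable g) {C : ℝ} (hC : ∀ x, |g x| ≤ C) :
    Real.exp (-∫ x, g x ∂ν) ≤ ∫ x, Real.exp (-g x) ∂ν := by
  rw [← integral_neg]
  refine convexOn_exp.map_integral_le (f := fun x => -g x) Real.continuous_exp.continuousOn
    isClosed_univ (Eventually.of_forall fun _ => mem_univ _) ?_ ?_
  · refine Integrable.of_bound hg.neg.aestronglyMeasurable C (Eventually.of_forall fun x => ?_)
    rw [norm_neg, Real.norm_eq_abs]
    exact hC x
  · refine Integrable.of_bound (C := Real.exp C) ?_ (Eventually.of_forall fun x => ?_)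
    · exact (hg.neg.exp).aestronglyMeasurable
    · simp only [Function.comp_apply, Real.norm_eq_abs, Real.abs_exp]
      exact Real.exp_le_exp.2 (by have := (abs_le.1 (hC x)).1; linarith)

/-- **the induction over the signs** -/
theorem ck (hoc : OneCoord n) [IsFiniteMeasure μ] (hunc : Uncond μ) (h1 : T1p μ) (hm1 : M1p μ)
    {Lam : ℝ} (hpos : ∀ i, 0 < Lam * ma μ i) (hK : μ (box μ Lam) ≠ 0) :
    ∀ m k : ℕ, k + m = n → ∀ φ θ : E n → ℝ, Continuous φ → Measurable θ → ∀ C : ℝ,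
      (∀ x, |φ x| ≤ C) → (∀ x, |θ x| ≤ C) → HT μ Lam k φ θ →
      ∀ σ : Fin n → ℝ, (∀ i, σ i = 1 ∨ σ i = -1) →
      ∫ x, Real.exp (θ (pre k σ x)) ∂(nuK μ Lam) ≤
        Real.exp (∫ x, φ (pre k σ x) ∂(nuK μ Lam)) := by
  have := isProb_nuK hK
  have hunc' := uncond_nuK hunc Lam
  have hm1' : M1p (nuK μ Lam) := m1_nuK hm1
  intro m
  induction m with
  | zero =>
    intro k hk φ θ hφ hθ C hφC hθC hHT σ hσ
    have hkn : k = n := by omega
    subst hkn
    have key := t1_nuK h1 hpos hK (σ := σ) hθ hφ.measurable (by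
      intro x hx y hy hx0 hy0
      have h2 := hHT (flp σ x) (flp_mem_box hσ hx) (flp σ y) (flp_mem_box hσ hy) (flp σ y)
        (flp_mem_box hσ hy) (by
          intro i
          rw [flp_apply, flp_apply]
          have h3 : σ i * σ i = 1 := by rcases hσ i with h | h <;> rw [h] <;> norm_num
          have h4 : σ i * x i * (σ i * y i) = (σ i * σ i) * (x i * y i) := by ring
          rw [h4, h3, one_mul]
          exact (mul_pos (hx0 i) (hy0 i)).le) (fun _ _ => rfl)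
      have h5 : dK μ Lam (flp σ y) (flp σ y) = 0 := by simp [dK]
      have h6 : dK μ Lam (flp σ x) (flp σ y) = dK μ Lam x y := by
        unfold dK
        refine Finset.sum_congr rfl fun i _ => ?_
        rw [flp_apply, flp_apply]
        rcases hσ i with h | h <;> rw [h] <;> ring
      rw [h5, h6] at h2
      linarith)
    have hJ := exp_neg_integral_le (ν := nuK μ Lam) (g := fun x => φ (pre k σ x))
      (hφ.measurable.comp (measurable_pre k σ)) (fun x => hφC _)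
    set A := ∫ x, Real.exp (θ (pre k σ x)) ∂(nuK μ Lam) with hA
    have hA0 : 0 ≤ A := integral_nonneg fun _ => (Real.exp_pos _).le
    set I := ∫ x, φ (pre k σ x) ∂(nuK μ Lam) with hI
    have h7 : A * Real.exp (-I) ≤ 1 := (mul_le_mul_of_nonneg_left hJ hA0).trans key
    rw [Real.exp_neg, ← div_eq_mul_inv, div_le_one (Real.exp_pos _)] at h7
    exact h7
  | succ m ih =>
    intro k hk φ θ hφ hθ C hφC hθC hHT σ hσ
    have hkn : k < n := by omega
    set κ : Fin n := ⟨k, hkn⟩ with hκ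
    have hκv : (κ : ℕ) = k := rfl
    set τ := Lam * ma μ κ with hτ
    have hτ0 : 0 < τ := hpos κ
    set φ' := Qk κ τ φ with hφ'
    have c' : Continuous φ' := continuous_Qk κ τ hφ
    have b' : ∀ x, |φ' x| ≤ C + 1 := Qk_bound κ hτ0.le hφ hφC
    have hHT' : HT μ Lam (k + 1) φ' θ := HT_step hpos (k := κ) hφ hHT
    have i1 := ih (k + 1) (by omega) φ' θ c' hθ (C + 1) b' (fun x => (hθC x).trans (by linarith))
      hHT' (sg1 σ κ 1) (sg1_sign hσ κ (Or.inl rfl))
    have i2 := ih (k + 1) (by omega) φ' θ c' hθ (C + 1) b' (fun x => (hθC x).trans (by linarith))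
      hHT' (sg1 σ κ (-1)) (sg1_sign hσ κ (Or.inr rfl))
    have hsplit := hunc'.integral_pre κ σ (g := fun x => Real.exp (θ x)) hθ.exp (C := Real.exp C)
      (fun x => by
        rw [Real.abs_exp]
        exact Real.exp_le_exp.2 ((le_abs_self _).trans (hθC x)))
    rw [hκv] at hsplit
    have hocc := hoc (nuK μ Lam) inferInstance hunc' hm1' κ τ hτ0
      ((ae_nuK Lam).mono fun x hx => hx κ) (fun x => φ' (pre k σ x)) (fun x => φ (pre k σ x))
      (c'.measurable.comp (measurable_pre k σ)) (hφ.measurable.comp (measurable_pre k σ)) (C + 1)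
      (fun x => b' _) (fun x => (hφC _).trans (by linarith)) (by
        intro x t _ ht
        have h2 := Qk_le κ hφ (pre k σ x) ht
        have h3 : pre k σ (up1 x κ t) = up1 (pre k σ x) κ t := pre_up1 κ σ x t
        have h4 : pre k σ x κ = x κ := pre_at κ σ x
        rw [h3]
        rw [h4] at h2
        exact h2.trans (add_le_add le_rfl (min_le_left _ _)))
    have e1 : ∀ x, pre (k + 1) (sg1 σ κ 1) x = pre k σ (up1 x κ |x κ|) := fun x => pre_pos κ σ x
    have e2 : ∀ x, pre (k + 1) (sg1 σ κ (-1)) x = pre k σ (up1 x κ (-|x κ|)) :=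
      fun x => pre_neg κ σ x
    simp only [e1] at i1
    simp only [e2] at i2
    simp only [e1, e2] at hsplit
    linarith

end Pool.CIP
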