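import Pool.Agent.CIP.VU

/-! # concentration in the box, III: sets -/

set_option autoImplicit false

open MeasureTheory Pointwise Set Filter Topology
open scoped ENNReal

namespace Pool.CIP

variable {n : ℕ} {μ : Measure (E n)}

/-- rescaling of the coordinates -/
noncomputable def scl (μ : Measure (E n)) (Lam : ℝ) (x : E n) : E n :=
  WithLp.toLp 2 (fun i => x i / (Lam * ma μ i))

lemma scl_apply (Lam : ℝ) (x : E n) (i : Fin n) : scl μ Lam x i = x i / (Lam * ma μ i) := rfl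

lemma continuous_scl (Lam : ℝ) : Continuous (scl μ Lam) := by
  unfold scl
  fun_prop

lemma dK_eq (Lam : ℝ) (x y : E n) : dK μ Lam x y = dist (scl μ Lam x) (scl μ Lam y) ^ 2 := by
  rw [EuclideanSpace.dist_eq, Real.sq_sqrt (Finset.sum_nonneg fun _ _ => sq_nonneg _)]
  unfold dK
  refine Finset.sum_congr rfl fun i _ => ?_
  rw [Real.dist_eq, sq_abs, scl_apply, scl_apply, sub_div]

/-- exponential moments of Lipschitz functions -/
theorem exp_lip (hoc : OneCoord n) [IsFiniteMeasure μ] (hunc : Uncond μ) (h1 : T1p μ)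
    (hm1 : M1p μ) {Lam : ℝ} (hpos : ∀ i, 0 < Lam * ma μ i) (hK : μ (box μ Lam) ≠ 0) {k : ℕ}
    (hk : k ≤ n) {σ : Fin n → ℝ} (hσ : ∀ i, σ i = 1 ∨ σ i = -1) {ψ : E n → ℝ} (hψ : Continuous ψ)
    {C : ℝ} (hψC : ∀ x, |ψ x| ≤ C) {l : ℝ}
    (hlip : ∀ x y, ψ x ≤ ψ y + l * dist (scl μ Lam x) (scl μ Lam y)) :
    ∫ x, Real.exp (ψ (pre k σ x)) ∂(nuK μ Lam) ≤
      Real.exp (∫ x, ψ (pre k σ x) ∂(nuK μ Lam) + 8 * l ^ 2) := by
  have := isProb_nuK hK
  have h2 := ck hoc hunc h1 hm1 hpos hK (n - k) k (by omega) ψ (fun x => ψ x - 8 * l ^ 2) hψ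
    (hψ.measurable.sub measurable_const) (C + 8 * l ^ 2) (fun x => (hψC x).trans (by
      have : 0 ≤ l ^ 2 := sq_nonneg l
      linarith)) (fun x => by
      have h3 := hψC x
      have h4 : 0 ≤ l ^ 2 := sq_nonneg l
      rw [abs_le] at h3 ⊢
      constructor <;> linarith) (by
      intro x _ y _ z _ _ _
      have h3 := hlip x y
      have h4 := hlip y z
      rw [dK_eq, dK_eq]
      set d₁ := dist (scl μ Lam x) (scl μ Lam y)
      set d₂ := dist (scl μ Lam y) (scl μ Lam z)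
      simp only
      nlinarith [sq_nonneg (d₁ - 8 * l), sq_nonneg (d₂ - 8 * l)]) σ hσ
  have h5 : ∀ x : E n, Real.exp (ψ (pre k σ x) - 8 * l ^ 2) =
      Real.exp (-(8 * l ^ 2)) * Real.exp (ψ (pre k σ x)) := by
    intro x
    rw [← Real.exp_add]
    congr 1
    ring
  simp only [h5] at h2
  rw [integral_const_mul] at h2
  rw [Real.exp_add]
  have h6 : Real.exp (8 * l ^ 2) * Real.exp (-(8 * l ^ 2)) = 1 := by
    rw [← Real.exp_add]; simp
  calc ∫ x, Real.exp (ψ (pre k σ x)) ∂(nuK μ Lam)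
      = Real.exp (8 * l ^ 2) * (Real.exp (-(8 * l ^ 2)) *
          ∫ x, Real.exp (ψ (pre k σ x)) ∂(nuK μ Lam)) := by rw [← mul_assoc, h6, one_mul]
    _ ≤ Real.exp (8 * l ^ 2) * Real.exp (∫ x, ψ (pre k σ x) ∂(nuK μ Lam)) :=
        mul_le_mul_of_nonneg_left h2 (Real.exp_pos _).le
    _ = Real.exp (∫ x, ψ (pre k σ x) ∂(nuK μ Lam)) * Real.exp (8 * l ^ 2) := mul_comm _ _

/-- **concentration in the box** for all sets, given the signs of the first `k` coordinates -/
theorem t2 (hoc : OneCoord n) [IsFiniteMeasure μ] (hunc : Uncond μ) (h1 : T1p μ)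
    (hm1 : M1p μ) {Lam : ℝ} (hpos : ∀ i, 0 < Lam * ma μ i) (hK : μ (box μ Lam) ≠ 0) {k : ℕ}
    (hk : k ≤ n) {σ : Fin n → ℝ} (hσ : ∀ i, σ i = 1 ∨ σ i = -1) {A B : Set (E n)}
    (hA : MeasurableSet A) (hB : MeasurableSet B) {ρ : ℝ} (hρ : 0 ≤ ρ)
    (hAB : ∀ x ∈ A, ∀ y ∈ B, ρ ^ 2 ≤ dK μ Lam x y) :
    md (nuK μ Lam) k σ A * md (nuK μ Lam) k σ B ≤ Real.exp (-(ρ ^ 2 / 64)) := by
  have := isProb_nuK hK
  rcases A.eq_empty_or_nonempty with hA0 | hA0
  · subst hA0
    simp [md, (Real.exp_pos _).le]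
  set l := ρ / 32 with hl
  have hl0 : 0 ≤ l := by positivity
  set S := scl μ Lam '' A with hS
  have hS0 : S.Nonempty := hA0.image _
  set ψ : E n → ℝ := fun x => l * min (Metric.infDist (scl μ Lam x) S) ρ with hψd
  have hψc : Continuous ψ := by
    refine continuous_const.mul (Continuous.min ?_ continuous_const)
    exact (Metric.continuous_infDist_pt S).comp (continuous_scl Lam)
  have hψ0 : ∀ x, 0 ≤ ψ x := fun x => mul_nonneg hl0 (le_min Metric.infDist_nonneg hρ)
  have hψC : ∀ x, |ψ x| ≤ l * ρ := by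
    intro x
    rw [abs_of_nonneg (hψ0 x)]
    exact mul_le_mul_of_nonneg_left (min_le_right _ _) hl0
  have hlip : ∀ x y, ψ x ≤ ψ y + l * dist (scl μ Lam x) (scl μ Lam y) := by
    intro x y
    simp only [hψd]
    rw [← mul_add]
    refine mul_le_mul_of_nonneg_left ?_ hl0
    have h2 : Metric.infDist (scl μ Lam x) S ≤ Metric.infDist (scl μ Lam y) S +
      dist (scl μ Lam x) (scl μ Lam y) := Metric.infDist_le_infDist_add_dist
    have h3 : 0 ≤ dist (scl μ Lam x) (scl μ Lam y) := dist_nonneg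
    rcases le_total (Metric.infDist (scl μ Lam y) S) ρ with h | h
    · rw [min_eq_left h]
      exact (min_le_left _ _).trans h2
    · rw [min_eq_right h]
      exact (min_le_right _ _).trans (by linarith)
  have e1 := exp_lip hoc hunc h1 hm1 hpos hK hk hσ hψc hψC hlip
  have e2 := exp_lip hoc hunc h1 hm1 hpos hK hk hσ (ψ := fun x => -ψ x) hψc.neg
    (C := l * ρ) (fun x => by rw [abs_neg]; exact hψC x) (l := l) (fun x y => by
      have := hlip y x
      rw [dist_comm] at this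
      linarith)
  rw [integral_neg] at e2
  set I := ∫ x, ψ (pre k σ x) ∂(nuK μ Lam) with hI
  -- lower bounds
  have hint : ∀ g : E n → ℝ, Measurable g → (∀ x, |g x| ≤ l * ρ) →
      Integrable (fun x => Real.exp (g (pre k σ x))) (nuK μ Lam) := by
    intro g hg hgC
    refine Integrable.of_bound (C := Real.exp (l * ρ))
      ((hg.comp (measurable_pre k σ)).exp).aestronglyMeasurable (Eventually.of_forall fun x => ?_)
    rw [Real.norm_eq_abs, Real.abs_exp]
    exact Real.exp_le_exp.2 ((le_abs_self _).trans (hgC _))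
  have lb : ∀ (g : E n → ℝ) (t : ℝ) (D : Set (E n)), Measurable g → (∀ x, |g x| ≤ l * ρ) →
      MeasurableSet D → (∀ x ∈ D, t ≤ g x) →
      Real.exp t * md (nuK μ Lam) k σ D ≤ ∫ x, Real.exp (g (pre k σ x)) ∂(nuK μ Lam) := by
    intro g t D hg hgC hD ht
    have h2 : ∫ x, (pre k σ ⁻¹' D).indicator (fun _ => Real.exp t) x ∂(nuK μ Lam) ≤
        ∫ x, Real.exp (g (pre k σ x)) ∂(nuK μ Lam) := by
      refine integral_mono ((integrable_const _).indicator (measurable_pre k σ hD)) (hint g hg hgC) ?_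
      intro x
      by_cases hx : x ∈ pre k σ ⁻¹' D
      · simp only [indicator_of_mem hx]
        exact Real.exp_le_exp.2 (ht _ hx)
      · simp only [indicator_of_notMem hx]
        exact (Real.exp_pos _).le
    rw [integral_indicator_const _ (measurable_pre k σ hD), smul_eq_mul] at h2
    unfold md
    linarith
  have f1 := lb ψ (l * ρ) B hψc.measurable hψC hB (by
    intro y hy
    have h2 : ρ ≤ Metric.infDist (scl μ Lam y) S := by
      refine (Metric.le_infDist hS0).2 ?_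
      rintro _ ⟨x, hx, rfl⟩
      have h3 := hAB x hx y hy
      rw [dK_eq, dist_comm] at h3
      exact abs_le_of_sq_le_sq' h3 dist_nonneg |>.2 |> fun h => h
    simp only [hψd]
    rw [min_eq_right h2])
  have f2 := lb (fun x => -ψ x) 0 A hψc.measurable.neg (fun x => by rw [abs_neg]; exact hψC x) hA (by
    intro x hx
    have h2 : Metric.infDist (scl μ Lam x) S = 0 :=
      Metric.infDist_zero_of_mem (mem_image_of_mem _ hx)
    simp only [hψd, h2]
    rw [min_eq_left hρ]
    simp)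
  rw [Real.exp_zero, one_mul] at f2
  have g1 := f1.trans e1
  have g2 := f2.trans e2
  have hA1 := md_nonneg (μ := nuK μ Lam) k σ A
  have hB1 := md_nonneg (μ := nuK μ Lam) k σ B
  have g3 := mul_le_mul g2 g1 (mul_nonneg (Real.exp_pos _).le hB1) (Real.exp_pos _).le
  rw [← Real.exp_add] at g3
  have e3 : -I + 8 * l ^ 2 + (I + 8 * l ^ 2) = 16 * l ^ 2 := by ring
  rw [e3] at g3
  have h9 : md (nuK μ Lam) k σ A * md (nuK μ Lam) k σ B =
      Real.exp (-(l * ρ)) * (md (nuK μ Lam) k σ A * (Real.exp (l * ρ) * md (nuK μ Lam) k σ B)) := by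
    have : Real.exp (-(l * ρ)) * Real.exp (l * ρ) = 1 := by rw [← Real.exp_add]; simp
    calc md (nuK μ Lam) k σ A * md (nuK μ Lam) k σ B
        = (Real.exp (-(l * ρ)) * Real.exp (l * ρ)) *
          (md (nuK μ Lam) k σ A * md (nuK μ Lam) k σ B) := by rw [this, one_mul]
      _ = _ := by ring
  rw [h9]
  calc Real.exp (-(l * ρ)) * (md (nuK μ Lam) k σ A * (Real.exp (l * ρ) * md (nuK μ Lam) k σ B))
      ≤ Real.exp (-(l * ρ)) * Real.exp (16 * l ^ 2) :=
        mul_le_mul_of_nonneg_left g3 (Real.exp_pos _).le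
    _ = Real.exp (-(ρ ^ 2 / 64)) := by
        rw [← Real.exp_add]
        congr 1
        rw [hl]
        ring

end Pool.CIP
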