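import Pool.Agent.CIP.VV
import Pool.Agent.CIP.UA

/-! # stage one: moving to the box on each orthant -/

set_option autoImplicit false

open MeasureTheory Pointwise Set Filter Topology
open scoped ENNReal

namespace Pool.CIP

variable {n : ℕ} {μ : Measure (E n)}

/-- domination: a vector whose coordinates are at most `z_i b m_i + |g_i| + |g'_i|` -/
lemma dom_le [IsProbabilityMeasure μ] (hunc : Uncond μ)
    (hfin : ∀ q : ℝ, 0 < q → ∀ v : E n, mq μ q v < ⊤) {t L c b : ℝ} (ht : 2 ≤ t) (hb : 0 ≤ b)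
    {z : Fin n → ℝ} (hz0 : ∀ i, 0 ≤ z i) (hz1 : ∀ i, z i ≤ 1) (hz2 : ∑ i, z i ^ 2 ≤ t)
    {g g' w : E n} (hg : g ∈ G μ L c) (hg' : g' ∈ G μ L c)
    (hw : ∀ i, |w i| ≤ z i * (b * ma μ i) + |g i| + |g' i|) (v : E n) :
    |inner ℝ v w| ≤ b * (Real.exp 1 * hm μ t v) + 2 * (c * hm μ L v) := by
  have h1 := u2 hunc hfin ht (y := z) (fun i => by rw [abs_of_nonneg (hz0 i)]; exact hz1 i) hz2
  have h2 := hunc.sum_abs_le h1 v
  have h3 := hunc.sum_abs_le hg v
  have h4 := hunc.sum_abs_le hg' v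
  rw [inner_eq_sum']
  calc |∑ i, v i * w i| ≤ ∑ i, |v i * w i| := Finset.abs_sum_le_sum_abs _ _
    _ ≤ ∑ i, (b * |v i * (z i * ma μ i)| + |v i * g i| + |v i * g' i|) := by
        refine Finset.sum_le_sum fun i _ => ?_
        have h5 : |z i * ma μ i| = z i * ma μ i :=
          abs_of_nonneg (mul_nonneg (hz0 i) (ma_nonneg i))
        rw [abs_mul (v i) (w i), abs_mul (v i) (z i * ma μ i), abs_mul (v i) (g i),
          abs_mul (v i) (g' i), h5]
        calc |v i| * |w i| ≤ |v i| * (z i * (b * ma μ i) + |g i| + |g' i|) :=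
              mul_le_mul_of_nonneg_left (hw i) (abs_nonneg _)
          _ = b * (|v i| * (z i * ma μ i)) + |v i| * |g i| + |v i| * |g' i| := by ring
    _ = b * ∑ i, |v i * (z i * ma μ i)| + ∑ i, |v i * g i| + ∑ i, |v i * g' i| := by
        rw [Finset.sum_add_distrib, Finset.sum_add_distrib, Finset.mul_sum]
    _ ≤ b * (Real.exp 1 * hm μ t v) + c * hm μ L v + c * hm μ L v :=
        add_le_add (add_le_add (mul_le_mul_of_nonneg_left h2 hb) h3) h4
    _ = b * (Real.exp 1 * hm μ t v) + 2 * (c * hm μ L v) := by ring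

/-- the orthant inequality for sets -/
theorem t1_sets [IsProbabilityMeasure μ] (h : T1p μ) {σ : Fin n → ℝ} {A B : Set (E n)}
    (hA : MeasurableSet A) (hB : MeasurableSet B) {t : ℝ}
    (hAB : ∀ x y : E n, (∀ i, 0 < x i) → (∀ i, 0 < y i) → flp σ x ∈ A → flp σ y ∈ B →
      t ≤ rds x y) :
    md μ n σ A * md μ n σ B ≤ Real.exp (-(t / 16)) := by
  set a : E n → ℝ≥0∞ := (flp σ ⁻¹' A).indicator fun _ => 1 with ha
  set b : E n → ℝ≥0∞ := (flp σ ⁻¹' B).indicator fun _ => 1 with hb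
  have mA : MeasurableSet (flp σ ⁻¹' A) := measurable_flp σ hA
  have mB : MeasurableSet (flp σ ⁻¹' B) := measurable_flp σ hB
  have key := h (1/2) (by norm_num) (by norm_num) a b
    (fun _ => ENNReal.ofReal (Real.exp (-(t / 32)))) (measurable_const.indicator mA)
    (measurable_const.indicator mB) measurable_const (by
      intro x y hx hy
      by_cases hxA : x ∈ flp σ ⁻¹' A
      · by_cases hyB : y ∈ flp σ ⁻¹' B
        · rw [ha, hb, indicator_of_mem hxA, indicator_of_mem hyB, ENNReal.one_rpow,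
            ENNReal.one_rpow, mul_one, ← ENNReal.ofReal_mul (Real.exp_pos _).le, ← Real.exp_add,
            ← ENNReal.ofReal_one]
          refine ENNReal.ofReal_le_ofReal (Real.one_le_exp ?_)
          have := hAB x y hx hy hxA hyB
          linarith
        · rw [hb, indicator_of_notMem hyB, ENNReal.zero_rpow_of_pos (by norm_num), mul_zero]
          exact bot_le
      · rw [ha, indicator_of_notMem hxA, ENNReal.zero_rpow_of_pos (by norm_num), zero_mul]
        exact bot_le)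
  have e1 : ∀ D : Set (E n), MeasurableSet D →
      ∫⁻ x, (flp σ ⁻¹' D).indicator (fun _ => (1:ℝ≥0∞)) (ab x) ∂μ =
        ENNReal.ofReal (md μ n σ D) := by
    intro D hD
    have h2 : (fun x => (flp σ ⁻¹' D).indicator (fun _ => (1:ℝ≥0∞)) (ab x)) =
        (pre n σ ⁻¹' D).indicator (fun _ => (1:ℝ≥0∞)) := by
      funext x
      by_cases hx : x ∈ pre n σ ⁻¹' D
      · have hx' : ab x ∈ flp σ ⁻¹' D := by
          rw [mem_preimage, ← pre_n]; exact hx
        rw [indicator_of_mem hx, indicator_of_mem hx']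
      · have hx' : ab x ∉ flp σ ⁻¹' D := by
          rw [mem_preimage, ← pre_n]; exact hx
        rw [indicator_of_notMem hx, indicator_of_notMem hx']
    rw [h2, lintegral_indicator_const (measurable_pre n σ hD), one_mul]
    unfold md
    rw [Measure.real, ENNReal.ofReal_toReal (measure_ne_top μ _)]
  rw [ha, hb, e1 A hA, e1 B hB, lintegral_const, measure_univ, mul_one] at key
  have h1 : ((1:ℝ) - 1/2) = 1/2 := by norm_num
  rw [h1, ENNReal.ofReal_rpow_of_nonneg (md_nonneg _ _ _) (by norm_num),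
    ENNReal.ofReal_rpow_of_nonneg (md_nonneg _ _ _) (by norm_num),
    ← ENNReal.ofReal_mul (Real.rpow_nonneg (md_nonneg _ _ _) _)] at key
  have key2 := (ENNReal.ofReal_le_ofReal_iff (Real.exp_pos _).le).1 key
  have h3 : ∀ z : ℝ, 0 ≤ z → z ^ (1/2:ℝ) * z ^ (1/2:ℝ) = z := by
    intro z hz
    rw [← Real.sqrt_eq_rpow, Real.mul_self_sqrt hz]
  have hA0 := md_nonneg (μ := μ) n σ A
  have hB0 := md_nonneg (μ := μ) n σ B
  calc md μ n σ A * md μ n σ B
      = (md μ n σ A ^ (1/2:ℝ) * md μ n σ B ^ (1/2:ℝ)) *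
        (md μ n σ A ^ (1/2:ℝ) * md μ n σ B ^ (1/2:ℝ)) := by
          calc md μ n σ A * md μ n σ B
              = (md μ n σ A ^ (1/2:ℝ) * md μ n σ A ^ (1/2:ℝ)) *
                (md μ n σ B ^ (1/2:ℝ) * md μ n σ B ^ (1/2:ℝ)) := by rw [h3 _ hA0, h3 _ hB0]
            _ = _ := by ring
    _ ≤ Real.exp (-(t / 32)) * Real.exp (-(t / 32)) :=
        mul_le_mul key2 key2 (by positivity) (Real.exp_pos _).le
    _ = Real.exp (-(t / 16)) := by
        rw [← Real.exp_add]
        congr 1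
        ring

/-- linear inequalities pass from the orthants to the prefixes -/
lemma md_ind [IsFiniteMeasure μ] (hunc : Uncond μ) {A B : Set (E n)} (hA : MeasurableSet A)
    (hB : MeasurableSet B) {c d : ℝ}
    (h : ∀ σ : Fin n → ℝ, (∀ i, σ i = 1 ∨ σ i = -1) → c * md μ n σ A ≤ d + md μ n σ B) :
    ∀ m k : ℕ, k + m = n → ∀ σ : Fin n → ℝ, (∀ i, σ i = 1 ∨ σ i = -1) →
      c * md μ k σ A ≤ d + md μ k σ B := by
  intro m
  induction m with
  | zero =>
    intro k hk σ hσ
    have hkn : k = n := by omega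
    subst hkn
    exact h σ hσ
  | succ m ih =>
    intro k hk σ hσ
    have hkn : k < n := by omega
    set κ : Fin n := ⟨k, hkn⟩ with hκ
    have i1 := ih (k + 1) (by omega) (sg1 σ κ 1) (sg1_sign hσ κ (Or.inl rfl))
    have i2 := ih (k + 1) (by omega) (sg1 σ κ (-1)) (sg1_sign hσ κ (Or.inr rfl))
    have a1 := hunc.md_avg κ σ hA
    have a2 := hunc.md_avg κ σ hB
    have hκv : (κ : ℕ) = k := rfl
    rw [hκv] at a1 a2
    have a3 : 2 * (c * md μ k σ A) = c * md μ (k + 1) (sg1 σ κ 1) A +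
        c * md μ (k + 1) (sg1 σ κ (-1)) A := by
      rw [← mul_add, ← a1]; ring
    linarith

/-- the points of the box which are near `D` in the relative distance, on the same orthant -/
def near (μ : Measure (E n)) (Lam t : ℝ) (D : Set (E n)) : Set (E n) :=
  {y | y ∈ box μ Lam ∧ ∃ x ∈ D, (∀ i, 0 ≤ x i * y i) ∧ ∃ z : Fin n → ℝ,
    (∀ i, 0 ≤ z i ∧ z i ≤ 1) ∧ ∑ i, z i ^ 2 ≤ t ∧ ∀ i, |x i - y i| ≤ z i * max |x i| |y i|}

lemma near_subset_box {Lam t : ℝ} {D : Set (E n)} : near μ Lam t D ⊆ box μ Lam := fun _ h => h.1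

lemma isCompact_near {Lam t : ℝ} {D : Set (E n)} (hD : IsCompact D) :
    IsCompact (near μ Lam t D) := by
  set Q : Set (E n × E n × (Fin n → ℝ)) := (D ×ˢ (box μ Lam ×ˢ Icc (0 : Fin n → ℝ) 1)) ∩
    {p | (∀ i, 0 ≤ p.1 i * p.2.1 i) ∧ ∑ i, p.2.2 i ^ 2 ≤ t ∧
      ∀ i, |p.1 i - p.2.1 i| ≤ p.2.2 i * max |p.1 i| |p.2.1 i|} with hQ
  have hcl : IsClosed {p : E n × E n × (Fin n → ℝ) | (∀ i, 0 ≤ p.1 i * p.2.1 i) ∧
      ∑ i, p.2.2 i ^ 2 ≤ t ∧ ∀ i, |p.1 i - p.2.1 i| ≤ p.2.2 i * max |p.1 i| |p.2.1 i|} := by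
    have c1 : IsClosed {p : E n × E n × (Fin n → ℝ) | ∀ i, 0 ≤ p.1 i * p.2.1 i} := by
      simp only [ofPred_forall]
      exact isClosed_iInter fun i => isClosed_le continuous_const (by fun_prop)
    have c2 : IsClosed {p : E n × E n × (Fin n → ℝ) | ∑ i, p.2.2 i ^ 2 ≤ t} :=
      isClosed_le (by fun_prop) continuous_const
    have c3 : IsClosed {p : E n × E n × (Fin n → ℝ) |
        ∀ i, |p.1 i - p.2.1 i| ≤ p.2.2 i * max |p.1 i| |p.2.1 i|} := by
      simp only [ofPred_forall]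
      exact isClosed_iInter fun i => isClosed_le (by fun_prop) (by fun_prop)
    exact c1.inter (c2.inter c3)
  have hQc : IsCompact Q := (hD.prod ((isCompact_box Lam).prod isCompact_Icc)).inter_right hcl
  have h1 : near μ Lam t D = (fun p : E n × E n × (Fin n → ℝ) => p.2.1) '' Q := by
    ext y
    constructor
    · rintro ⟨hy, x, hx, h2, z, h3, h4, h5⟩
      exact ⟨(x, y, z), ⟨⟨hx, hy, fun i => (h3 i).1, fun i => (h3 i).2⟩, h2, h4, h5⟩, rfl⟩
    · rintro ⟨⟨x, y', z⟩, ⟨⟨hx, hy, h3, h3'⟩, h2, h4, h5⟩, rfl⟩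
      exact ⟨hy, x, hx, h2, z, fun i => ⟨h3 i, h3' i⟩, h4, h5⟩
  rw [h1]
  exact hQc.image (by fun_prop)

lemma rd_le_one {a b : ℝ} (h : 0 ≤ a * b) : rd a b ≤ 1 := by
  unfold rd
  rcases (le_max_of_le_left (abs_nonneg a) : 0 ≤ max |a| |b|).eq_or_lt with h0 | h0
  · rw [← h0]; simp
  rw [div_le_one h0]
  rcases le_total 0 a with ha | ha
  · rcases ha.eq_or_lt with ha0 | ha0
    · rw [← ha0]; simp
    · have hb : 0 ≤ b := by
        by_contra hb
        have := mul_neg_of_pos_of_neg ha0 (not_le.1 hb)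
        linarith
      rw [abs_of_nonneg ha, abs_of_nonneg hb, abs_le]
      constructor
      · have := le_max_right a b; linarith
      · have := le_max_left a b; linarith
  · rcases ha.eq_or_lt with ha0 | ha0
    · rw [ha0]; simp
    · have hb : b ≤ 0 := by
        by_contra hb
        have := mul_neg_of_neg_of_pos ha0 (not_le.1 hb)
        linarith
      rw [abs_of_nonpos ha, abs_of_nonpos hb, abs_le]
      constructor
      · have := le_max_left (-a) (-b); linarith
      · have := le_max_right (-a) (-b); linarith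

lemma rd_nonneg (a b : ℝ) : 0 ≤ rd a b := by unfold rd; positivity

lemma rd_mul {a b : ℝ} : |a - b| = rd a b * max |a| |b| := by
  unfold rd
  rcases (le_max_of_le_left (abs_nonneg a) : 0 ≤ max |a| |b|).eq_or_lt with h0 | h0
  · have h1 : |a| = 0 := le_antisymm (h0 ▸ le_max_left _ _) (abs_nonneg _)
    have h2 : |b| = 0 := le_antisymm (h0 ▸ le_max_right _ _) (abs_nonneg _)
    rw [abs_eq_zero.1 h1, abs_eq_zero.1 h2]
    simp
  · rw [div_mul_cancel₀ _ h0.ne']

/-- stage one on an orthant -/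
lemma near_orthant [IsProbabilityMeasure μ] (h : T1p μ) {Lam t : ℝ}
    {σ : Fin n → ℝ} (hσ : ∀ i, σ i = 1 ∨ σ i = -1) {D : Set (E n)} (hD : IsCompact D) :
    μ.real (box μ Lam) * md μ n σ D ≤ Real.exp (-(t / 16)) + md μ n σ (near μ Lam t D) := by
  have mK := measurableSet_box (μ := μ) Lam
  have mN : MeasurableSet (near μ Lam t D) := (isCompact_near hD).measurableSet
  have key := t1_sets h (σ := σ) hD.measurableSet (mK.diff mN) (t := t) (by
    intro x y hx hy hxD hy2
    by_contra hlt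
    refine hy2.2 ⟨hy2.1, flp σ x, hxD, ?_, fun i => rd (x i) (y i), ?_, (not_le.1 hlt).le, ?_⟩
    · intro i
      rw [flp_apply, flp_apply]
      have h3 : σ i * σ i = 1 := by rcases hσ i with h | h <;> rw [h] <;> norm_num
      have h4 : σ i * x i * (σ i * y i) = (σ i * σ i) * (x i * y i) := by ring
      rw [h4, h3, one_mul]
      exact (mul_pos (hx i) (hy i)).le
    · intro i
      exact ⟨rd_nonneg _ _, rd_le_one (mul_pos (hx i) (hy i)).le⟩
    · intro i
      rw [flp_apply, flp_apply]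
      have h5 : |σ i * x i - σ i * y i| = |x i - y i| := by
        rw [← mul_sub, abs_mul]
        rcases hσ i with h | h <;> rw [h] <;> simp
      have h6 : ∀ a : ℝ, |σ i * a| = |a| := by
        intro a
        rw [abs_mul]
        rcases hσ i with h | h <;> rw [h] <;> simp
      rw [h5, h6, h6]
      exact rd_mul.le)
  have hKpre : pre n σ ⁻¹' (box μ Lam) = box μ Lam := by
    ext x
    rw [mem_preimage, pre_n, flp_mem_box_iff hσ, ab_mem_box_iff]
  have h2 : md μ n σ (box μ Lam \ near μ Lam t D) =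
      μ.real (box μ Lam) - md μ n σ (near μ Lam t D) := by
    unfold md
    rw [preimage_sdiff, hKpre, measureReal_sdiff _ (measurable_pre n σ mN)]
    intro x hx
    have := near_subset_box hx
    rw [← hKpre]
    exact this
  rw [h2] at key
  have h3 := md_nonneg (μ := μ) n σ D
  have h4 := md_le_one (μ := μ) n σ D
  have h5 := md_nonneg (μ := μ) n σ (near μ Lam t D)
  nlinarith

/-- stage one on a prefix -/
lemma near_prefix [IsProbabilityMeasure μ] (hunc : Uncond μ) (h : T1p μ) {Lam t : ℝ} {k : ℕ}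
    (hk : k ≤ n) {σ : Fin n → ℝ} (hσ : ∀ i, σ i = 1 ∨ σ i = -1) {D : Set (E n)}
    (hD : IsCompact D) :
    μ.real (box μ Lam) * md μ k σ D ≤ Real.exp (-(t / 16)) + md μ k σ (near μ Lam t D) :=
  md_ind hunc hD.measurableSet (isCompact_near hD).measurableSet
    (fun _ hσ => near_orthant h hσ hD) (n - k) k (by omega) σ hσ

end Pool.CIP
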