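import Pool.Agent.CIP.VW
import Pool.Agent.CIP.FO

/-! # stage one: sets of measure at least `exp (-q)` are near -/

set_option autoImplicit false

open MeasureTheory Pointwise Set Filter Topology
open scoped ENNReal

namespace Pool.CIP

variable {n : ℕ} {μ : Measure (E n)}

/-- membership in a reflection invariant set does not depend on the signs -/
lemma pre_mem_iff {S : Set (E n)}
    (hS : ∀ τ : Fin n → ℝ, (∀ i, τ i = 1 ∨ τ i = -1) → ∀ x ∈ S, flp τ x ∈ S)
    {k : ℕ} {σ : Fin n → ℝ} (hσ : ∀ i, σ i = 1 ∨ σ i = -1) {x : E n} :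
    pre k σ x ∈ S ↔ x ∈ S := by
  set τ : Fin n → ℝ := fun i => if (i:ℕ) < k then σ i * (if 0 ≤ x i then 1 else -1) else 1 with hτ
  have hτs : ∀ i, τ i = 1 ∨ τ i = -1 := by
    intro i
    simp only [hτ]
    split_ifs
    · rw [mul_one]; exact hσ i
    · rcases hσ i with h | h <;> rw [h] <;> norm_num
    · left; rfl
  have h1 : pre k σ x = flp τ x := by
    ext i
    rw [pre_apply, flp_apply]
    simp only [hτ]
    split_ifs with h2 h3
    · rw [abs_of_nonneg h3, mul_one]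
    · rw [abs_of_neg (not_le.1 h3)]; ring
    · rw [one_mul]
  rw [h1]
  constructor
  · intro h
    have := hS τ hτs _ h
    rwa [flp_flp hτs] at this
  · exact hS τ hτs x

lemma md_inv {S : Set (E n)}
    (hS : ∀ τ : Fin n → ℝ, (∀ i, τ i = 1 ∨ τ i = -1) → ∀ x ∈ S, flp τ x ∈ S)
    {k : ℕ} {σ : Fin n → ℝ} (hσ : ∀ i, σ i = 1 ∨ σ i = -1) : md μ k σ S = μ.real S := by
  unfold md
  congr 1
  ext x
  exact pre_mem_iff hS hσ

lemma compl_inv {S : Set (E n)}
    (hS : ∀ τ : Fin n → ℝ, (∀ i, τ i = 1 ∨ τ i = -1) → ∀ x ∈ S, flp τ x ∈ S) :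
    ∀ τ : Fin n → ℝ, (∀ i, τ i = 1 ∨ τ i = -1) → ∀ x ∈ Sᶜ, flp τ x ∈ Sᶜ := by
  intro τ hτ x hx h
  have := hS τ hτ _ h
  rw [flp_flp hτ] at this
  exact hx this

/-- restriction to a large invariant set -/
lemma md_inter_ge [IsProbabilityMeasure μ] {M : Set (E n)}
    (hM : ∀ τ : Fin n → ℝ, (∀ i, τ i = 1 ∨ τ i = -1) → ∀ x ∈ M, flp τ x ∈ M)
    {k : ℕ} {σ : Fin n → ℝ} (hσ : ∀ i, σ i = 1 ∨ σ i = -1) (A : Set (E n)) :
    md μ k σ A - μ.real Mᶜ ≤ md μ k σ (A ∩ M) := by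
  have h1 : md μ k σ A ≤ md μ k σ (A ∩ M) + md μ k σ Mᶜ := by
    unfold md
    refine le_trans (measureReal_mono ?_ (measure_ne_top μ _)) (measureReal_union_le _ _)
    intro x hx
    by_cases h : pre k σ x ∈ M
    · exact Or.inl ⟨hx, h⟩
    · exact Or.inr h
  rw [md_inv (compl_inv hM) hσ] at h1
  linarith

/-- comparison of the conditional measure with `μ` -/
lemma md_nuK [IsProbabilityMeasure μ] {Lam : ℝ} (hK : μ (box μ Lam) ≠ 0) {k : ℕ}
    {σ : Fin n → ℝ} (hσ : ∀ i, σ i = 1 ∨ σ i = -1) {A : Set (E n)} (hA : MeasurableSet A)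
    (hAK : A ⊆ box μ Lam) : md μ k σ A ≤ md (nuK μ Lam) k σ A := by
  unfold md nuK
  rw [measureReal_ennreal_smul_apply]
  have h1 : pre k σ ⁻¹' A ⊆ box μ Lam := by
    intro x hx
    exact (pre_mem_iff (fun τ hτ x hx => flp_mem_box hτ hx) hσ).1 (hAK hx)
  have h2 : (μ.restrict (box μ Lam)).real (pre k σ ⁻¹' A) = μ.real (pre k σ ⁻¹' A) := by
    rw [measureReal_restrict_apply (measurable_pre k σ hA), inter_eq_left.2 h1]
  rw [h2]
  have h3 : 1 ≤ ((μ (box μ Lam))⁻¹).toReal := by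
    rw [ENNReal.toReal_inv]
    refine (one_le_inv₀ (ENNReal.toReal_pos hK (measure_ne_top μ _))).2 ?_
    exact measureReal_le_one
  calc μ.real (pre k σ ⁻¹' A) = 1 * μ.real (pre k σ ⁻¹' A) := (one_mul _).symm
    _ ≤ ((μ (box μ Lam))⁻¹).toReal * μ.real (pre k σ ⁻¹' A) :=
        mul_le_mul_of_nonneg_right h3 measureReal_nonneg

/-- moving a point of the large body to the box -/
lemma move_le [IsProbabilityMeasure μ] (hunc : Uncond μ) (hlc : LC μ) {Lam t q : ℝ}
    (hLam : 0 ≤ Lam) (ht : 2 ≤ t) {x y : E n} (hx : x ∈ Mb μ (box μ Lam) q)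
    (hy : y ∈ box μ Lam) {z : Fin n → ℝ} (hz : ∀ i, 0 ≤ z i ∧ z i ≤ 1) (hz2 : ∑ i, z i ^ 2 ≤ t)
    (hxy : ∀ i, |x i - y i| ≤ z i * max |x i| |y i|) (v : E n) :
    |inner ℝ v (x - y)| ≤ 2 * Lam * (Real.exp 1 * hm μ t v) +
      2 * (3 * Real.exp 1 * hm μ (60 * (q + 11)) v) := by
  obtain ⟨g, hg, hgx⟩ := Mb_box_dec hx
  have hfin : ∀ q : ℝ, 0 < q → ∀ v : E n, mq μ q v < ⊤ := fun q hq v =>
    mq_lt_top hunc.symm hlc hq v
  refine dom_le hunc hfin ht (by linarith) (fun i => (hz i).1) (fun i => (hz i).2) hz2 hg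
    (g' := 0) (zero_mem_G (by positivity)) ?_ v
  intro i
  have h1 : (x - y) i = x i - y i := rfl
  have h0 : (0 : E n) i = 0 := rfl
  rw [h1, h0, abs_zero, add_zero]
  have hm0 := ma_nonneg (μ := μ) i
  have h2 : max |x i| |y i| ≤ 2 * Lam * ma μ i + |g i| := by
    refine max_le (hgx i) ?_
    have h3 := hy i
    have h4 : 0 ≤ Lam * ma μ i := mul_nonneg hLam hm0
    have h5 : 0 ≤ |g i| := abs_nonneg _
    linarith
  calc |x i - y i| ≤ z i * max |x i| |y i| := hxy i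
    _ ≤ z i * (2 * Lam * ma μ i + |g i|) := mul_le_mul_of_nonneg_left h2 (hz i).1
    _ = z i * (2 * Lam * ma μ i) + z i * |g i| := by ring
    _ ≤ z i * (2 * Lam * ma μ i) + |g i| := by
        have : z i * |g i| ≤ 1 * |g i| := mul_le_mul_of_nonneg_right (hz i).2 (abs_nonneg _)
        linarith

/-- differences of points of the box -/
lemma box_diff_le [IsProbabilityMeasure μ] (hunc : Uncond μ) (hlc : LC μ) {Lam t : ℝ}
    (hpos : ∀ i, 0 < Lam * ma μ i) (hLam : 0 ≤ Lam) (ht : 2 ≤ t) {x y : E n}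
    (hx : x ∈ box μ Lam) (hy : y ∈ box μ Lam) (hxy : dK μ Lam x y ≤ 4 * t) (v : E n) :
    |inner ℝ v (x - y)| ≤ 2 * Lam * (Real.exp 1 * hm μ t v) := by
  have hfin : ∀ q : ℝ, 0 < q → ∀ v : E n, mq μ q v < ⊤ := fun q hq v =>
    mq_lt_top hunc.symm hlc hq v
  have h1 := dom_le hunc hfin ht (b := 2 * Lam) (L := 1) (c := 0) (by linarith)
    (z := fun i => |x i - y i| / (2 * (Lam * ma μ i))) (fun i => by
      have := hpos i
      positivity) (fun i => by
      have h2 := hpos i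
      rw [div_le_one (by positivity)]
      calc |x i - y i| ≤ |x i| + |y i| := abs_sub _ _
        _ ≤ 2 * (Lam * ma μ i) := by linarith [hx i, hy i]) (by
      have h3 : ∑ i, (|x i - y i| / (2 * (Lam * ma μ i))) ^ 2 = dK μ Lam x y / 4 := by
        unfold dK
        rw [Finset.sum_div]
        refine Finset.sum_congr rfl fun i _ => ?_
        rw [div_pow, div_pow, sq_abs]
        have := (hpos i).ne'
        field_simp
        ring
      rw [h3]
      linarith) (g := 0) (g' := 0) (w := x - y) (zero_mem_G le_rfl) (zero_mem_G le_rfl) (fun i => by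
      have h4 : (x - y) i = x i - y i := rfl
      have h0 : (0 : E n) i = 0 := rfl
      rw [h4, h0, abs_zero, add_zero, add_zero]
      have h5 : 2 * (Lam * ma μ i) ≠ 0 := mul_ne_zero two_ne_zero (hpos i).ne'
      have h6 : 2 * Lam * ma μ i = 2 * (Lam * ma μ i) := by ring
      rw [h6, div_mul_cancel₀ _ h5]) v
  simpa using h1

lemma exp_facts : (10:ℝ) ≤ Real.exp 4 ∧ (2:ℝ) ≤ Real.exp 2 ∧ (8:ℝ) ≤ Real.exp 3 ∧
    (64:ℝ) < Real.exp 5 := by
  have h1 : (2.7:ℝ) ≤ Real.exp 1 := by linarith [Real.exp_one_gt_d9]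
  have h2 : ∀ m : ℕ, (2.7:ℝ) ^ m ≤ Real.exp m := by
    intro m
    have : Real.exp m = Real.exp 1 ^ m := by rw [← Real.exp_nat_mul, mul_one]
    rw [this]
    exact pow_le_pow_left₀ (by norm_num) h1 m
  have a4 := h2 4
  have a2 := h2 2
  have a3 := h2 3
  have a5 := h2 5
  norm_num at a4 a2 a3 a5
  refine ⟨by linarith, by linarith, by linarith, by linarith⟩

/-- **stage one** -/
theorem stage1 (hoc : OneCoord n) [IsProbabilityMeasure μ] (hG : Good μ) {Lam : ℝ}
    (hLam : 100 * (1 + Real.log (n + 1)) ≤ Lam) {q : ℝ} (hq : 2 ≤ q) {k : ℕ} (hk : k ≤ n)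
    {σ : Fin n → ℝ} (hσ : ∀ i, σ i = 1 ∨ σ i = -1) {A B : Set (E n)} (hA : IsCompact A)
    (hB : IsCompact B) (hAq : Real.exp (-q) ≤ md μ k σ A) (hBq : Real.exp (-q) ≤ md μ k σ B) :
    ∃ x ∈ A, ∃ y ∈ B, x - y ∈ G μ q (16200 * Real.exp 3 * Lam) := by
  obtain ⟨e4, e2, e3, e5⟩ := exp_facts
  have hunc := hG.unc
  have hlc := hG.lc
  have hsym := hunc.symm
  have hlog : 0 ≤ Real.log (n + 1) := Real.log_nonneg (by
    have : (0:ℝ) ≤ n := Nat.cast_nonneg n
    linarith)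
  have hLam1 : 1 ≤ Lam := by linarith
  have hLam0 : 0 ≤ Lam := by linarith
  have hpos : ∀ i, 0 < Lam * ma μ i := fun i => mul_pos (by linarith) (hG.pos i)
  have hhalf := half_le_box' hsym hlc hLam
  have hK : μ (box μ Lam) ≠ 0 := by
    intro h0
    rw [Measure.real, h0] at hhalf
    norm_num at hhalf
  set M := Mb μ (box μ Lam) (q + 2) with hM
  have hMinv : ∀ τ : Fin n → ℝ, (∀ i, τ i = 1 ∨ τ i = -1) → ∀ x ∈ M, flp τ x ∈ M :=
    fun τ hτ x hx => hunc.flp_mem_Mb hτ hx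
  have hMc : IsCompact M := Mb_compact μ (isCompact_box Lam) _
  have E0 : 0 < Real.exp (-q) := Real.exp_pos _
  have hexp2 : Real.exp (-(q + 2)) ≤ Real.exp (-q) / 2 := by
    rw [neg_add, Real.exp_add, Real.exp_neg 2, ← div_eq_mul_inv]
    exact div_le_div_of_nonneg_left E0.le (by norm_num) e2
  have hMμ : μ.real Mᶜ ≤ Real.exp (-(q + 2)) := by
    refine Mb_large hsym hlc (isCompact_box Lam) (convex_box Lam) (by linarith) ?_
    refine le_trans ?_ hhalf
    have h1 : Real.exp (-(q + 2)) ≤ Real.exp (-4) := Real.exp_le_exp.2 (by linarith)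
    have h2 : Real.exp (-4) ≤ 1 / 10 := by
      rw [Real.exp_neg, ← one_div]
      exact one_div_le_one_div_of_le (by norm_num) e4
    linarith
  have hstep : ∀ D : Set (E n), IsCompact D → Real.exp (-q) ≤ md μ k σ D →
      Real.exp (-q) / 8 ≤ md (nuK μ Lam) k σ (near μ Lam (16 * (q + 3)) (D ∩ M)) := by
    intro D hD hDq
    have hDM : IsCompact (D ∩ M) := hD.inter hMc
    have h1 := md_inter_ge (μ := μ) hMinv (k := k) hσ D
    have h2 := near_prefix hunc hG.t1 (Lam := Lam) (t := 16 * (q + 3)) hk hσ hDM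
    have h3 : Real.exp (-(16 * (q + 3) / 16)) ≤ Real.exp (-q) / 8 := by
      have : -(16 * (q + 3) / 16) = -q + -3 := by ring
      rw [this, Real.exp_add, Real.exp_neg 3, ← div_eq_mul_inv]
      exact div_le_div_of_nonneg_left E0.le (by norm_num) e3
    have h4 : Real.exp (-q) / 2 ≤ md μ k σ (D ∩ M) := by linarith
    have h5 : (1/2) * (Real.exp (-q) / 2) ≤ μ.real (box μ Lam) * md μ k σ (D ∩ M) :=
      mul_le_mul hhalf h4 (by positivity) measureReal_nonneg
    have h6 := md_nuK (μ := μ) hK hσ (k := k) (isCompact_near (Lam := Lam) (t := 16 * (q + 3))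
      hDM).measurableSet near_subset_box
    linarith
  have a1 := hstep A hA hAq
  have a2 := hstep B hB hBq
  -- the near points in the box
  have hex : ∃ x' ∈ near μ Lam (16 * (q + 3)) (A ∩ M), ∃ y' ∈ near μ Lam (16 * (q + 3)) (B ∩ M),
      dK μ Lam x' y' ≤ 4 * (16 * (2 * q + 5)) := by
    by_contra hcon
    push Not at hcon
    have h1 := t2 hoc hunc hG.t1 hG.m1 hpos hK hk hσ
      (isCompact_near (Lam := Lam) (t := 16 * (q + 3)) (hA.inter hMc)).measurableSet
      (isCompact_near (Lam := Lam) (t := 16 * (q + 3)) (hB.inter hMc)).measurableSet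
      (ρ := Real.sqrt (64 * (2 * q + 5))) (Real.sqrt_nonneg _) (fun x hx y hy => by
        rw [Real.sq_sqrt (by linarith)]
        have := hcon x hx y hy
        linarith)
    rw [Real.sq_sqrt (by linarith)] at h1
    have h2 := mul_le_mul a1 a2 (by positivity) (md_nonneg _ _ _)
    have h3 : Real.exp (-(64 * (2 * q + 5) / 64)) =
        Real.exp (-q) * Real.exp (-q) * Real.exp (-5) := by
      rw [← Real.exp_add, ← Real.exp_add]
      congr 1
      ring
    rw [h3] at h1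
    have h4 : Real.exp (-5) < 1 / 64 := by
      rw [Real.exp_neg, ← one_div]
      exact one_div_lt_one_div_of_lt (by norm_num) e5
    have h5 : 0 < Real.exp (-q) * Real.exp (-q) := mul_pos E0 E0
    nlinarith
  obtain ⟨x', ⟨hx'K, x, ⟨hxA, hxM⟩, _, z, hz, hz2, hxx⟩, y', ⟨hy'K, y, ⟨hyB, hyM⟩, _, z', hz', hz2', hyy⟩,
    hxy⟩ := hex
  refine ⟨x, hxA, y, hyB, ?_⟩
  intro v
  have b1 := move_le hunc hlc hLam0 (t := 16 * (q + 3)) (by linarith) hxM hx'K hz hz2 hxx v
  have b3 := move_le hunc hlc hLam0 (t := 16 * (q + 3)) (by linarith) hyM hy'K hz' hz2' hyy v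
  have b2 := box_diff_le hunc hlc hpos hLam0 (t := 16 * (2 * q + 5)) (by linarith) hx'K hy'K hxy v
  set L := 60 * (q + 2 + 11) with hL
  have hmL0 := hm_nonneg (μ := μ) L v
  have m1 : hm μ (16 * (q + 3)) v ≤ hm μ L v := hm_mono hsym hlc (by linarith) (by rw [hL]; linarith) v
  have m2 : hm μ (16 * (2 * q + 5)) v ≤ hm μ L v :=
    hm_mono hsym hlc (by linarith) (by rw [hL]; linarith) v
  have m3 := hm_compare hsym hlc (show 1 ≤ q by linarith) (show q ≤ L by rw [hL]; linarith) v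
  have hmq0 := hm_nonneg (μ := μ) q v
  have hLq : L / q ≤ 450 := by
    rw [div_le_iff₀ (by linarith), hL]
    linarith
  have m4 : hm μ L v ≤ 900 * Real.exp 2 * hm μ q v := by
    refine m3.trans ?_
    calc 2 * Real.exp 2 * (L / q) * hm μ q v ≤ 2 * Real.exp 2 * 450 * hm μ q v :=
          mul_le_mul_of_nonneg_right (mul_le_mul_of_nonneg_left hLq (by positivity)) hmq0
      _ = 900 * Real.exp 2 * hm μ q v := by ring
  have e10 : 0 < Real.exp 1 := Real.exp_pos 1
  have c1 : |inner ℝ v (x - x')| ≤ 8 * Lam * Real.exp 1 * hm μ L v := by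
    refine b1.trans ?_
    have h1 : 2 * Lam * (Real.exp 1 * hm μ (16 * (q + 3)) v) ≤ 2 * Lam * (Real.exp 1 * hm μ L v) :=
      mul_le_mul_of_nonneg_left (mul_le_mul_of_nonneg_left m1 e10.le) (by linarith)
    have h2 : Real.exp 1 * hm μ L v ≤ Lam * (Real.exp 1 * hm μ L v) := by
      have : 0 ≤ Real.exp 1 * hm μ L v := mul_nonneg e10.le hmL0
      nlinarith
    linarith
  have c3 : |inner ℝ v (y - y')| ≤ 8 * Lam * Real.exp 1 * hm μ L v := by
    refine b3.trans ?_
    have h1 : 2 * Lam * (Real.exp 1 * hm μ (16 * (q + 3)) v) ≤ 2 * Lam * (Real.exp 1 * hm μ L v) :=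
      mul_le_mul_of_nonneg_left (mul_le_mul_of_nonneg_left m1 e10.le) (by linarith)
    have h2 : Real.exp 1 * hm μ L v ≤ Lam * (Real.exp 1 * hm μ L v) := by
      have : 0 ≤ Real.exp 1 * hm μ L v := mul_nonneg e10.le hmL0
      nlinarith
    linarith
  have c2 : |inner ℝ v (x' - y')| ≤ 2 * Lam * Real.exp 1 * hm μ L v := by
    refine b2.trans ?_
    have h1 : 2 * Lam * (Real.exp 1 * hm μ (16 * (2 * q + 5)) v) ≤
        2 * Lam * (Real.exp 1 * hm μ L v) :=
      mul_le_mul_of_nonneg_left (mul_le_mul_of_nonneg_left m2 e10.le) (by linarith)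
    linarith
  have hdec : inner ℝ v (x - y) = inner ℝ v (x - x') + inner ℝ v (x' - y') - inner ℝ v (y - y') := by
    rw [← inner_add_right, ← inner_sub_right]
    congr 1
    abel
  have e33 : Real.exp 3 = Real.exp 1 * Real.exp 2 := by rw [← Real.exp_add]; norm_num
  calc |inner ℝ v (x - y)| ≤ |inner ℝ v (x - x')| + |inner ℝ v (x' - y')| + |inner ℝ v (y - y')| := by
        rw [hdec]
        refine (abs_sub _ _).trans ?_
        have := abs_add_le (inner ℝ v (x - x')) (inner ℝ v (x' - y'))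
        linarith
    _ ≤ 18 * Lam * Real.exp 1 * hm μ L v := by linarith
    _ ≤ 18 * Lam * Real.exp 1 * (900 * Real.exp 2 * hm μ q v) :=
        mul_le_mul_of_nonneg_left m4 (by positivity)
    _ = 16200 * Real.exp 3 * Lam * hm μ q v := by rw [e33]; ring

end Pool.CIP
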