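import Pool.Agent.CIP.VX

/-! # growth of small sets and the pair inequality for good measures -/

set_option autoImplicit false

open MeasureTheory Pointwise Set Filter Topology
open scoped ENNReal

namespace Pool.CIP

variable {n : ℕ} {μ : Measure (E n)}

/-- points outside `A + G` have small measure if `A` does not -/
lemma far_compl (hoc : OneCoord n) [IsProbabilityMeasure μ] (hG : Good μ) {Lam : ℝ}
    (hLam : 100 * (1 + Real.log (n + 1)) ≤ Lam) {p C : ℝ} (hp : 2 ≤ p)
    (hC : 194400 * Real.exp 5 * Lam ≤ C) {k : ℕ} (hk : k ≤ n)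
    {σ : Fin n → ℝ} (hσ : ∀ i, σ i = 1 ∨ σ i = -1) {A : Set (E n)} (hA : IsCompact A)
    (hAq : Real.exp (-(6 * p)) ≤ md μ k σ A) :
    md μ k σ (A + G μ p C)ᶜ ≤ Real.exp (-(6 * p)) := by
  have hlog : 0 ≤ Real.log (n + 1) := Real.log_nonneg (by
    have : (0:ℝ) ≤ n := Nat.cast_nonneg n
    linarith)
  have hLam0 : 0 ≤ Lam := by linarith
  by_contra hcon
  have h1 := not_le.1 hcon
  have hFc : IsCompact (A + G μ p C) := hA.add (isCompact_G _ _)
  have hmS : MeasurableSet (A + G μ p C)ᶜ := hFc.measurableSet.compl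
  set ν := μ.map (pre k σ) with hν
  have : IsProbabilityMeasure ν := Measure.isProbabilityMeasure_map (measurable_pre k σ).aemeasurable
  have h2 : ENNReal.ofReal (Real.exp (-(6 * p))) < ν (A + G μ p C)ᶜ := by
    rw [hν, Measure.map_apply (measurable_pre k σ) hmS]
    unfold md at h1
    rw [ENNReal.ofReal_lt_iff_lt_toReal (Real.exp_pos _).le (measure_ne_top μ _)]
    exact h1
  obtain ⟨B, hBs, hBc, hB⟩ := hmS.exists_lt_isCompact h2
  have h3 : Real.exp (-(6 * p)) ≤ md μ k σ B := by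
    rw [hν, Measure.map_apply (measurable_pre k σ) hBc.measurableSet] at hB
    rw [ENNReal.ofReal_lt_iff_lt_toReal (Real.exp_pos _).le (measure_ne_top μ _)] at hB
    exact hB.le
  obtain ⟨x, hx, y, hy, hxy⟩ := stage1 hoc hG hLam (q := 6 * p) (by linarith) hk hσ hA hBc hAq h3
  refine hBs hy ?_
  have hsub : x - y ∈ G μ p C := by
    refine G_subset hG.unc.symm hG.lc (p := p) (q := 6 * p) (by linarith) (by linarith)
      (by positivity) ?_ hxy
    refine le_trans (le_of_eq ?_) hC
    have e5 : Real.exp 5 = Real.exp 2 * Real.exp 3 := by rw [← Real.exp_add]; norm_num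
    rw [e5]
    have : 6 * p / p = 6 := by field_simp
    rw [this]
    ring
  refine ⟨x, hx, y - x, ?_, by simp⟩
  have := neg_mem_G hsub
  rwa [neg_sub] at this

/-- the displacement in the interpolation -/
lemma mn_sub_le {s : ℝ} (hs0 : 0 ≤ s) (hs1 : s ≤ 1) {a b : ℝ} (ha : 0 ≤ a) (hb : 0 ≤ b) :
    |((1 - s) * Real.sqrt a + s * Real.sqrt b) ^ 2 - a| ≤ 2 * s * |a - b| := by
  set u := Real.sqrt a with hu
  set v := Real.sqrt b with hv
  have hu0 : 0 ≤ u := Real.sqrt_nonneg _
  have hv0 : 0 ≤ v := Real.sqrt_nonneg _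
  have hua : a = u ^ 2 := (Real.sq_sqrt ha).symm
  have hvb : b = v ^ 2 := (Real.sq_sqrt hb).symm
  have h1 : ((1 - s) * u + s * v) ^ 2 - a = s * (v - u) * ((2 - s) * u + s * v) := by
    rw [hua]; ring
  have h2 : |a - b| = |v - u| * (u + v) := by
    rw [hua, hvb]
    have : u ^ 2 - v ^ 2 = -((v - u) * (u + v)) := by ring
    rw [this, abs_neg, abs_mul, abs_of_nonneg (by linarith : 0 ≤ u + v)]
  rw [h1, h2, abs_mul, abs_mul, abs_of_nonneg hs0]
  have h3 : 0 ≤ (2 - s) * u + s * v := add_nonneg (mul_nonneg (by linarith) hu0) (mul_nonneg hs0 hv0)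
  rw [abs_of_nonneg h3]
  have h4 : (2 - s) * u + s * v ≤ 2 * (u + v) := by nlinarith
  calc s * |v - u| * ((2 - s) * u + s * v) ≤ s * |v - u| * (2 * (u + v)) :=
        mul_le_mul_of_nonneg_left h4 (mul_nonneg hs0 (abs_nonneg _))
    _ = 2 * s * (|v - u| * (u + v)) := by ring

/-- interpolation points are near `x` if the relative distance is not too large -/
lemma mn_near [IsProbabilityMeasure μ] (hunc : Uncond μ) (hlc : LC μ) {Lam : ℝ} (hLam : 1 ≤ Lam)
    {p w s : ℝ} (hp : 2 ≤ p) (hw : 6 * p < w) (hs : s = 3 * p / w) {x y : E n}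
    (hx0 : ∀ i, 0 < x i) (hy0 : ∀ i, 0 < y i)
    (hx : x ∈ Mb μ (box μ Lam) (w + 2)) (hy : y ∈ Mb μ (box μ Lam) (w + 2))
    (hr : rds x y ≤ 16 * w / s) :
    mn s x y - x ∈ G μ p (9384 * Real.exp 3 * Lam) := by
  have hp0 : 0 < p := by linarith
  have hw0 : 0 < w := by linarith
  have hs0 : 0 < s := by rw [hs]; positivity
  have hs1 : s ≤ 1 / 2 := by
    rw [hs, div_le_iff₀ hw0]; linarith
  have hsw : s * w = 3 * p := by rw [hs]; field_simp
  obtain ⟨g, hg, hgx⟩ := Mb_box_dec hx
  obtain ⟨g', hg', hgy⟩ := Mb_box_dec hy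
  have hfin : ∀ q : ℝ, 0 < q → ∀ v : E n, mq μ q v < ⊤ := fun q hq v =>
    mq_lt_top hunc.symm hlc hq v
  have hz0 : ∀ i, 0 ≤ s * rd (x i) (y i) := fun i => mul_nonneg hs0.le (rd_nonneg _ _)
  have hr1 : ∀ i, rd (x i) (y i) ≤ 1 := fun i => rd_le_one (mul_pos (hx0 i) (hy0 i)).le
  have scale : ∀ f : E n, f ∈ G μ (60 * (w + 2 + 11)) (3 * Real.exp 1) →
      (2 * s) • f ∈ G μ (60 * (w + 2 + 11)) (2 * s * (3 * Real.exp 1)) := by
    intro f hf v
    rw [inner_smul_right, abs_mul, abs_of_pos (by positivity : 0 < 2 * s)]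
    calc 2 * s * |inner ℝ v f| ≤ 2 * s * (3 * Real.exp 1 * hm μ (60 * (w + 2 + 11)) v) :=
          mul_le_mul_of_nonneg_left (hf v) (by positivity)
      _ = _ := by ring
  intro v
  have h1 := dom_le hunc hfin (t := 48 * p) (b := 4 * Lam) (by linarith) (by linarith) hz0
    (fun i => by
      have := hr1 i
      have h2 := rd_nonneg (x i) (y i)
      nlinarith) (by
      have h3 : ∑ i, (s * rd (x i) (y i)) ^ 2 = s ^ 2 * rds x y := by
        unfold rds
        rw [Finset.mul_sum]
        refine Finset.sum_congr rfl fun i _ => ?_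
        ring
      rw [h3]
      calc s ^ 2 * rds x y ≤ s ^ 2 * (16 * w / s) := mul_le_mul_of_nonneg_left hr (sq_nonneg s)
        _ = 16 * (s * w) := by field_simp
        _ = 48 * p := by rw [hsw]; ring
        _ ≤ 48 * p := le_rfl) (scale g hg) (scale g' hg') (w := mn s x y - x) (fun i => by
      have h4 : (mn s x y - x) i = ((1 - s) * Real.sqrt (x i) + s * Real.sqrt (y i)) ^ 2 - x i := rfl
      have h5 : ((2 * s) • g) i = 2 * s * g i := rfl
      have h6 : ((2 * s) • g') i = 2 * s * g' i := rfl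
      rw [h4, h5, h6, abs_mul (2 * s) (g i), abs_mul (2 * s) (g' i),
        abs_of_pos (by positivity : 0 < 2 * s)]
      refine (mn_sub_le hs0.le (by linarith) (hx0 i).le (hy0 i).le).trans ?_
      rw [rd_mul]
      have hm0 := ma_nonneg (μ := μ) i
      have h7 : max |x i| |y i| ≤ 2 * Lam * ma μ i + |g i| + |g' i| := by
        refine max_le ?_ ?_
        · have := hgx i; have := abs_nonneg (g' i); linarith
        · have := hgy i; have := abs_nonneg (g i); linarith
      have h8 := rd_nonneg (x i) (y i)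
      have h9 := hr1 i
      have h10 : rd (x i) (y i) * max |x i| |y i| ≤
          rd (x i) (y i) * (2 * Lam * ma μ i) + |g i| + |g' i| := by
        calc rd (x i) (y i) * max |x i| |y i|
            ≤ rd (x i) (y i) * (2 * Lam * ma μ i + |g i| + |g' i|) :=
              mul_le_mul_of_nonneg_left h7 h8
          _ = rd (x i) (y i) * (2 * Lam * ma μ i) + rd (x i) (y i) * |g i| +
              rd (x i) (y i) * |g' i| := by ring
          _ ≤ rd (x i) (y i) * (2 * Lam * ma μ i) + 1 * |g i| + 1 * |g' i| :=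
              add_le_add (add_le_add le_rfl (mul_le_mul_of_nonneg_right h9 (abs_nonneg _)))
                (mul_le_mul_of_nonneg_right h9 (abs_nonneg _))
          _ = _ := by ring
      calc 2 * s * (rd (x i) (y i) * max |x i| |y i|)
          ≤ 2 * s * (rd (x i) (y i) * (2 * Lam * ma μ i) + |g i| + |g' i|) :=
            mul_le_mul_of_nonneg_left h10 (by positivity)
        _ = s * rd (x i) (y i) * (4 * Lam * ma μ i) + 2 * s * |g i| + 2 * s * |g' i| := by ring)
    v
  have hsym := hunc.symm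
  set L := 60 * (w + 2 + 11) with hL
  have hmp0 := hm_nonneg (μ := μ) p v
  have m1 := hm_compare hsym hlc (show 1 ≤ p by linarith) (show p ≤ 48 * p by linarith) v
  have m2 := hm_compare hsym hlc (show 1 ≤ p by linarith) (show p ≤ L by rw [hL]; linarith) v
  have e48 : 48 * p / p = 48 := by field_simp
  rw [e48] at m1
  have hsL : s * (L / p) ≤ 375 := by
    have : s * (L / p) = 180 * (w + 13) / w := by
      rw [hs, hL]
      field_simp
      ring
    rw [this, div_le_iff₀ hw0]
    linarith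
  have e10 : 0 < Real.exp 1 := Real.exp_pos 1
  have e20 : 0 < Real.exp 2 := Real.exp_pos 2
  have e33 : Real.exp 3 = Real.exp 1 * Real.exp 2 := by rw [← Real.exp_add]; norm_num
  have t1 : 4 * Lam * (Real.exp 1 * hm μ (48 * p) v) ≤ 384 * Real.exp 3 * Lam * hm μ p v := by
    calc 4 * Lam * (Real.exp 1 * hm μ (48 * p) v)
        ≤ 4 * Lam * (Real.exp 1 * (2 * Real.exp 2 * 48 * hm μ p v)) :=
          mul_le_mul_of_nonneg_left (mul_le_mul_of_nonneg_left m1 e10.le) (by linarith)
      _ = 384 * Real.exp 3 * Lam * hm μ p v := by rw [e33]; ring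
  have t2 : 2 * (2 * s * (3 * Real.exp 1) * hm μ L v) ≤ 9000 * Real.exp 3 * Lam * hm μ p v := by
    calc 2 * (2 * s * (3 * Real.exp 1) * hm μ L v)
        ≤ 2 * (2 * s * (3 * Real.exp 1) * (2 * Real.exp 2 * (L / p) * hm μ p v)) :=
          mul_le_mul_of_nonneg_left (mul_le_mul_of_nonneg_left m2 (by positivity)) (by norm_num)
      _ = 24 * Real.exp 3 * (s * (L / p)) * hm μ p v := by rw [e33]; ring
      _ ≤ 24 * Real.exp 3 * 375 * hm μ p v := by
          refine mul_le_mul_of_nonneg_right (mul_le_mul_of_nonneg_left hsL (by positivity)) hmp0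
      _ = 9000 * Real.exp 3 * 1 * hm μ p v := by ring
      _ ≤ 9000 * Real.exp 3 * Lam * hm μ p v :=
          mul_le_mul_of_nonneg_right (mul_le_mul_of_nonneg_left hLam (by positivity)) hmp0
  calc |inner ℝ v (mn s x y - x)|
      ≤ 4 * Lam * (Real.exp 1 * hm μ (48 * p) v) + 2 * (2 * s * (3 * Real.exp 1) * hm μ L v) := h1
    _ ≤ 384 * Real.exp 3 * Lam * hm μ p v + 9000 * Real.exp 3 * Lam * hm μ p v := add_le_add t1 t2
    _ = 9384 * Real.exp 3 * Lam * hm μ p v := by ring

end Pool.CIP
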