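import Pool.Agent.CIP.U
import Pool.Agent.CIP.V

set_option autoImplicit false

open MeasureTheory Pointwise Set Filter Topology

namespace Pool.CIP

variable {n : ℕ} {μ : Measure (E n)}

lemma core_holds [IsProbabilityMeasure μ] (hsym : μ.map (fun x => -x) = μ) (hlc : LC μ) :
    Core μ := by
  intro B hBc hBconv hBs q hq hB
  obtain ⟨A₁, h1, h2, _, _, _, _, h3⟩ := MT2a hsym hlc hBc.measurableSet hBconv hBs hq hB
  exact ⟨A₁, h1, h2, h3⟩

/-- optimal concentration for all convex sets, with the difference body and absolute constants -/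
theorem main_all [IsProbabilityMeasure μ] (hsym : μ.map (fun x => -x) = μ) (hlc : LC μ)
    {A : Set (E n)} (hAm : MeasurableSet A) (hAconv : Convex ℝ A) {p : ℝ} (hp : 2 ≤ p) :
    2 * Real.exp p * μ.real A *
        (1 - μ.real (A + (49:ℝ) • (A - A) + (7000000000000:ℝ) • Z μ p)) ≤
      (1 - μ.real A) * μ.real (A + (49:ℝ) • (A - A) + (7000000000000:ℝ) • Z μ p) := by
  have hp0 : 0 < p := by linarith
  rw [smul_Z_eq hp0 (by norm_num)]
  have h1 := main_gen hsym hlc (core_holds hsym hlc) hAm hAconv hp
  have hep := Real.exp_pos p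
  have ha0 : 0 ≤ μ.real A := measureReal_nonneg
  have ha'1 : μ.real (A + (49:ℝ) • (A - A) + G μ p 7000000000000) ≤ 1 := measureReal_le_one
  have h2 : 0 ≤ Real.exp p * μ.real A *
      (1 - μ.real (A + (49:ℝ) • (A - A) + G μ p 7000000000000)) := by
    apply mul_nonneg (by positivity); linarith
  nlinarith

end Pool.CIP
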