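import Pool.Agent.CIP.VD

set_option autoImplicit false

open MeasureTheory Pointwise Set Filter Topology
open scoped ENNReal

namespace Pool.CIP

variable {n : ℕ} {μ : Measure (E n)}

/-- enlarging the range of one coordinate -/
def Sc1 (μ : Measure (E n)) : Prop := ∀ k : Fin n, ∀ T lam : ℝ, 0 ≤ T → 1 ≤ lam →
  ∀ g : E n → ℝ≥0∞, Measurable g → (∀ x t, g (up1 x k t) = g x) →
  ∫⁻ x in {x : E n | |x k| ≤ lam * T}, g x ∂μ ≤
    ENNReal.ofReal lam * ∫⁻ x in {x : E n | |x k| ≤ T}, g x ∂μ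

end Pool.CIP
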