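import Pool.Agent.CIP.FZA
import Pool.Agent.CIP.WB

/-! # boxes of the smoothed measures; the limit for boxes of measure at least `exp (-p)` -/

set_option autoImplicit false

open MeasureTheory Pointwise Set Filter Topology
open scoped ENNReal

namespace Pool.CIP

variable {n : ℕ} {μ : Measure (E n)}

lemma ofReal_ma [IsProbabilityMeasure μ] (hsym : μ.map (fun x => -x) = μ) (hlc : LC μ) (i : Fin n) :
    ENNReal.ofReal (ma μ i) = ∫⁻ x : E n, ENNReal.ofReal |x i| ∂μ := by
  have hfin : ∀ q : ℝ, 0 < q → ∀ v : E n, mq μ q v < ⊤ := fun q hq v => mq_lt_top hsym hlc hq v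
  have hint : Integrable (fun x : E n => |x i|) μ := by
    have := integrable_mom hfin one_pos (EuclideanSpace.single i (1:ℝ))
    refine this.congr (Eventually.of_forall fun x => ?_)
    simp only [Real.rpow_one, EuclideanSpace.inner_single_left]
    simp
  exact ofReal_integral_eq_lintegral_ofReal hint (Eventually.of_forall fun x => abs_nonneg _)

/-- reflection of the smoothing cube -/
lemma lint_cube_reflect {δ : ℝ} (y : E n) (i : Fin n) :
    ∫⁻ x in {x : E n | y - x ∈ cube n δ}, ENNReal.ofReal |x i| =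
      ∫⁻ x in {x : E n | y - x ∈ cube n δ}, ENNReal.ofReal |2 * y i - x i| := by
  have hmp : MeasurePreserving (fun x : E n => (2:ℝ) • y - x) volume volume :=
    Measure.measurePreserving_sub_left volume ((2:ℝ) • y)
  have hme : MeasurableEmbedding (fun x : E n => (2:ℝ) • y - x) :=
    (MeasurableEquiv.subLeft ((2:ℝ) • y)).measurableEmbedding
  have h1 := hmp.setLIntegral_comp_preimage_emb hme (fun x : E n => ENNReal.ofReal |x i|)
    {x : E n | y - x ∈ cube n δ}
  have h2 : (fun x : E n => (2:ℝ) • y - x) ⁻¹' {x : E n | y - x ∈ cube n δ} =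
      {x : E n | y - x ∈ cube n δ} := by
    ext x
    simp only [mem_preimage, mem_ofPred_eq, cube, PiLp.sub_apply, PiLp.smul_apply, smul_eq_mul]
    refine forall_congr' fun j => ?_
    have : y j - (2 * y j - x j) = -(y j - x j) := by ring
    rw [this, abs_neg]
  rw [h2] at h1
  rw [← h1]
  refine lintegral_congr fun x => ?_
  simp only [PiLp.sub_apply, PiLp.smul_apply, smul_eq_mul]

lemma ms_shift (δ : ℝ) (y : E n) : MeasurableSet {x : E n | y - x ∈ cube n δ} :=
  ((isClosed_cube δ).preimage (by fun_prop)).measurableSet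

/-- the mean over the cube around `y` is at least any lower bound for the symmetrised integrand -/
lemma cube_mean_ge {δ : ℝ} (y : E n) (i : Fin n) {g : E n → ℝ} (hg : Measurable g)
    (h : ∀ x, 2 * g x ≤ |x i| + |2 * y i - x i|) :
    ∫⁻ x in {x : E n | y - x ∈ cube n δ}, ENNReal.ofReal (g x) ≤
      ∫⁻ x in {x : E n | y - x ∈ cube n δ}, ENNReal.ofReal |x i| := by
  have h1 : ∫⁻ x in {x : E n | y - x ∈ cube n δ}, ENNReal.ofReal (2 * g x) ≤
      ∫⁻ x in {x : E n | y - x ∈ cube n δ}, (ENNReal.ofReal |x i| + ENNReal.ofReal |2 * y i - x i|) := by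
    refine lintegral_mono fun x => ?_
    rw [← ENNReal.ofReal_add (abs_nonneg _) (abs_nonneg _)]
    exact ENNReal.ofReal_le_ofReal (h x)
  rw [lintegral_add_left (by fun_prop), ← lint_cube_reflect, ← two_mul] at h1
  have h2 : ∫⁻ x in {x : E n | y - x ∈ cube n δ}, ENNReal.ofReal (2 * g x) =
      2 * ∫⁻ x in {x : E n | y - x ∈ cube n δ}, ENNReal.ofReal (g x) := by
    rw [← lintegral_const_mul _ (by fun_prop)]
    refine lintegral_congr fun x => ?_
    rw [ENNReal.ofReal_mul (by norm_num)]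
    norm_num
  rw [h2] at h1
  exact (ENNReal.mul_le_mul_iff_right (by norm_num) (by norm_num)).1 h1

lemma good_sm [IsProbabilityMeasure μ] (hunc : Uncond μ) (hlc : LC μ) {δ : ℝ} (hδ : 0 < δ) :
    Good (sm μ δ) := by
  have hP : IsProbabilityMeasure (sm μ δ) := isProb_sm hunc hlc hδ
  unfold sm at hP ⊢
  exact good_of_nice (nice_den hunc hlc hδ)

lemma ma_le_sm [IsProbabilityMeasure μ] (hunc : Uncond μ) (hlc : LC μ) {δ : ℝ} (hδ : 0 < δ)
    (i : Fin n) : ma μ i ≤ ma (sm μ δ) i := by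
  have hP : IsProbabilityMeasure (sm μ δ) := isProb_sm hunc hlc hδ
  have hg : Good (sm μ δ) := good_sm hunc hlc hδ
  have e1 := ofReal_ma hunc.symm hlc i
  have e2 : ENNReal.ofReal (ma (sm μ δ) i) = ∫⁻ x : E n, ENNReal.ofReal |x i| ∂(sm μ δ) :=
    ofReal_ma (hg.unc.symm) hg.lc i
  rw [lintegral_sm hunc hlc hδ (by fun_prop)] at e2
  have h1 : ENNReal.ofReal (ma μ i) ≤ ENNReal.ofReal (ma (sm μ δ) i) := by
    rw [e1, e2]
    refine lintegral_mono fun y => ?_
    have h2 := cube_mean_ge (δ := δ) y i (g := fun _ => |y i|) measurable_const (fun x => by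
      have h3 : 2 * |y i| = |x i + (2 * y i - x i)| := by
        rw [show x i + (2 * y i - x i) = 2 * y i by ring, abs_mul, abs_of_pos (by norm_num : (0:ℝ) < 2)]
      rw [h3]
      exact abs_add_le _ _)
    rw [lintegral_const, Measure.restrict_apply_univ, volume_rev] at h2
    calc ENNReal.ofReal |y i| = (volume (cube n δ))⁻¹ * (ENNReal.ofReal |y i| * volume (cube n δ)) := by
          rw [mul_comm (ENNReal.ofReal _), ← mul_assoc,
            ENNReal.inv_mul_cancel (volume_cube_pos hδ).ne' (volume_cube_ne_top δ), one_mul]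
      _ ≤ _ := mul_le_mul_right h2 _
  exact (ENNReal.ofReal_le_ofReal_iff (ma_nonneg _)).1 h1

lemma volume_boxr (r : Fin n → ℝ) :
    volume {x : E n | ∀ j, |x j| ≤ r j} = ∏ j, ENNReal.ofReal (2 * r j) := by
  have hcl : IsClosed {x : E n | ∀ j, |x j| ≤ r j} := by
    simp only [ofPred_forall]
    exact isClosed_iInter fun i => isClosed_le (by fun_prop) continuous_const
  rw [← (PiLp.volume_preserving_toLp (Fin n)).measure_preimage hcl.measurableSet.nullMeasurableSet]
  have h1 : (WithLp.toLp 2 : (Fin n → ℝ) → E n) ⁻¹' {x : E n | ∀ j, |x j| ≤ r j} =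
      Icc (-r) r := by
    ext x
    simp only [mem_preimage, mem_ofPred_eq, mem_Icc, Pi.le_def, Pi.neg_apply, ← forall_and]
    exact forall_congr' fun j => abs_le
  rw [h1, Real.volume_Icc_pi]
  refine Finset.prod_congr rfl fun j _ => ?_
  congr 1
  simp only [Pi.neg_apply]
  ring

lemma volume_sub {δ : ℝ} (i : Fin n) :
    2 * volume {x : E n | x ∈ cube n δ ∧ |x i| ≤ δ / 2} = volume (cube n δ) := by
  have h1 : {x : E n | x ∈ cube n δ ∧ |x i| ≤ δ / 2} ⊆
      {x : E n | ∀ j, |x j| ≤ (if j = i then δ / 2 else δ)} := by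
    rintro x ⟨hx, hxi⟩ j
    by_cases hj : j = i
    · subst hj; simpa using hxi
    · simpa [hj] using hx j
  have h2 : {x : E n | ∀ j, |x j| ≤ (if j = i then δ / 2 else δ)} ⊆
      {x : E n | x ∈ cube n δ ∧ |x i| ≤ δ / 2} := by
    intro x hx
    have hxi := hx i
    simp only [if_true] at hxi
    have h0 : 0 ≤ δ / 2 := (abs_nonneg _).trans hxi
    refine ⟨fun j => ?_, hxi⟩
    have h3 := hx j
    by_cases hj : j = i
    · subst hj; simp only [if_true] at h3; linarith
    · simpa [hj] using h3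
  rw [Subset.antisymm h1 h2, volume_boxr]
  have h3 : volume (cube n δ) = ∏ _j : Fin n, ENNReal.ofReal (2 * δ) := volume_boxr (fun _ => δ)
  rw [h3, ← Finset.mul_prod_erase _ _ (Finset.mem_univ i),
    ← Finset.mul_prod_erase _ (fun _ => ENNReal.ofReal (2 * δ)) (Finset.mem_univ i), ← mul_assoc]
  simp only [if_true]
  have h4 : ∏ j ∈ Finset.univ.erase i, ENNReal.ofReal (2 * (if j = i then δ / 2 else δ)) =
      ∏ _j ∈ Finset.univ.erase i, ENNReal.ofReal (2 * δ) := by
    refine Finset.prod_congr rfl fun j hj => ?_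
    rw [if_neg (Finset.ne_of_mem_erase hj)]
  rw [h4]
  congr 1
  have : (2:ℝ≥0∞) = ENNReal.ofReal 2 := by norm_num
  rw [this, ← ENNReal.ofReal_mul (by norm_num)]
  congr 1
  ring

lemma volume_refl {S : Set (E n)} (hS : MeasurableSet S) (y : E n) :
    volume {x : E n | y - x ∈ S} = volume S :=
  (Measure.measurePreserving_sub_left volume y).measure_preimage hS.nullMeasurableSet

lemma quarter_le_sm [IsProbabilityMeasure μ] (hunc : Uncond μ) (hlc : LC μ) {δ : ℝ} (hδ : 0 < δ)
    (i : Fin n) : δ / 4 ≤ ma (sm μ δ) i := by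
  have hP : IsProbabilityMeasure (sm μ δ) := isProb_sm hunc hlc hδ
  have hg : Good (sm μ δ) := good_sm hunc hlc hδ
  have e2 : ENNReal.ofReal (ma (sm μ δ) i) = ∫⁻ x : E n, ENNReal.ofReal |x i| ∂(sm μ δ) :=
    ofReal_ma (hg.unc.symm) hg.lc i
  rw [lintegral_sm hunc hlc hδ (by fun_prop)] at e2
  have mc : MeasurableSet (cube n δ) := (isClosed_cube δ).measurableSet
  have ms : MeasurableSet {x : E n | x ∈ cube n δ ∧ |x i| ≤ δ / 2} :=
    mc.inter (isClosed_le (by fun_prop) continuous_const : IsClosed {x : E n | |x i| ≤ δ / 2}).measurableSet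
  have hvn := volume_cube_ne_top (n := n) δ
  have hv0 := (volume_cube_pos (n := n) hδ).ne'
  have hsub := volume_sub (n := n) (δ := δ) i
  set V := volume (cube n δ) with hV
  set W := volume {x : E n | x ∈ cube n δ ∧ |x i| ≤ δ / 2} with hW
  have hWn : W ≠ ⊤ := by
    intro h
    rw [h] at hsub
    simp at hsub
    exact hvn hsub.symm
  have hdiff : volume (cube n δ \ {x : E n | x ∈ cube n δ ∧ |x i| ≤ δ / 2}) = W := by
    rw [measure_sdiff (fun x hx => hx.1) ms.nullMeasurableSet hWn, ← hV, ← hW, ← hsub, two_mul]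
    exact ENNReal.add_sub_cancel_right hWn
  have key : ∀ y : E n, ENNReal.ofReal (δ / 4) * V ≤
      ∫⁻ x in {x : E n | y - x ∈ cube n δ}, ENNReal.ofReal |x i| := by
    intro y
    refine le_trans ?_ (cube_mean_ge (δ := δ) y i (g := fun x => |x i - y i|) (by fun_prop)
      (fun x => by
        have h3 : 2 * |x i - y i| = |x i - (2 * y i - x i)| := by
          rw [show x i - (2 * y i - x i) = 2 * (x i - y i) by ring, abs_mul,
            abs_of_pos (by norm_num : (0:ℝ) < 2)]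
        rw [h3]
        exact abs_sub _ _))
    have h1 : ∫⁻ x in {x : E n | y - x ∈ cube n δ \ {x : E n | x ∈ cube n δ ∧ |x i| ≤ δ / 2}},
        ENNReal.ofReal (δ / 2) ≤
        ∫⁻ x in {x : E n | y - x ∈ cube n δ}, ENNReal.ofReal |x i - y i| := by
      refine (setLIntegral_mono (by fun_prop) (g := fun x : E n => ENNReal.ofReal |x i - y i|) ?_).trans
        (lintegral_mono_set fun x hx => hx.1)
      intro x hx
      refine ENNReal.ofReal_le_ofReal ?_
      have h2 : ¬ |(y - x) i| ≤ δ / 2 := fun h => hx.2 ⟨hx.1, h⟩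
      have h3 : (y - x) i = y i - x i := rfl
      rw [h3, abs_sub_comm] at h2
      exact (not_le.1 h2).le
    refine le_trans ?_ h1
    rw [lintegral_const, Measure.restrict_apply_univ, volume_refl (mc.diff ms) y, hdiff, ← hsub]
    have : ENNReal.ofReal (δ / 2) = ENNReal.ofReal (δ / 4) * 2 := by
      have h2 : (2:ℝ≥0∞) = ENNReal.ofReal 2 := by norm_num
      rw [h2, ← ENNReal.ofReal_mul (by positivity)]
      congr 1
      ring
    rw [this, mul_assoc]
  have h1 : ENNReal.ofReal (δ / 4) ≤ ENNReal.ofReal (ma (sm μ δ) i) := by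
    rw [e2]
    calc ENNReal.ofReal (δ / 4) = ∫⁻ _y : E n, ENNReal.ofReal (δ / 4) ∂μ := by
          rw [lintegral_const, measure_univ, mul_one]
      _ ≤ _ := by
          refine lintegral_mono fun y => ?_
          calc ENNReal.ofReal (δ / 4) = V⁻¹ * (ENNReal.ofReal (δ / 4) * V) := by
                rw [mul_comm (ENNReal.ofReal _), ← mul_assoc, ENNReal.inv_mul_cancel hv0 hvn, one_mul]
            _ ≤ _ := mul_le_mul_right (key y) _
  exact (ENNReal.ofReal_le_ofReal_iff (ma_nonneg _)).1 h1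

/-- the box of the smoothed measure has at least the measure of the box -/
theorem box_sm [IsProbabilityMeasure μ] (hunc : Uncond μ) (hlc : LC μ) {δ : ℝ} (hδ : 0 < δ)
    {Lam : ℝ} (hLam : 0 ≤ Lam) : μ.real (box μ Lam) ≤ (sm μ δ).real (box (sm μ δ) (Lam + 4)) := by
  have hP : IsProbabilityMeasure (sm μ δ) := isProb_sm hunc hlc hδ
  refine ENNReal.toReal_mono (measure_ne_top _ _)
    ((le_sm hunc hlc hδ (isCompact_box Lam)).trans (measure_mono ?_))
  rintro _ ⟨x, hx, u, hu, rfl⟩ i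
  have h1 := hx i
  have h2 : |u i| ≤ δ := hu i
  have h3 := mul_le_mul_of_nonneg_left (ma_le_sm hunc hlc hδ i) hLam
  have h4 := quarter_le_sm hunc hlc hδ i
  have h5 : (x + u) i = x i + u i := rfl
  simp only at h5 ⊢
  rw [h5]
  have := abs_add_le (x i) (u i)
  linarith

/-- the pair form for compact sets passes to the limit (hypothesis for the smoothed measures only) -/
theorem pair_limit_gen {p c : ℝ} (hp : 1 ≤ p) (hc : 0 ≤ c)
    [IsProbabilityMeasure μ] (hunc : Uncond μ) (hlc : LC μ)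
    (hmg : ∀ δ : ℝ, 0 < δ → IsProbabilityMeasure (sm μ δ) → Good (sm μ δ) →
      ∀ A B : Set (E n), IsCompact A → IsCompact B → (∀ x ∈ A, ∀ y ∈ B, x - y ∉ G (sm μ δ) p c) →
      2 * Real.exp p * (sm μ δ).real A * (sm μ δ).real B ≤
        (1 - (sm μ δ).real A) * (1 - (sm μ δ).real B))
    {A B : Set (E n)} (hA : IsCompact A)
    (hB : IsCompact B) (hAB : ∀ x ∈ A, ∀ y ∈ B, x - y ∉ G μ p c) :
    2 * Real.exp p * μ.real A * μ.real B ≤ (1 - μ.real A) * (1 - μ.real B) := by
  by_contra hneg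
  push Not at hneg
  have key : ∀ k : ℕ, ∃ z : E n × E n, z.1 ∈ A + cube n (1 / ((k:ℝ) + 1)) ∧
      z.2 ∈ B + cube n (1 / ((k:ℝ) + 1)) ∧ ∀ v : E n, |inner ℝ v (z.1 - z.2)| ≤
        c * (hm μ p v + 1 / ((k:ℝ) + 1) * ∑ i, |v i|) := by
    intro k
    have hδ : 0 < 1 / ((k:ℝ) + 1) := by positivity
    set μ' := sm μ (1 / ((k:ℝ) + 1)) with hμ'
    have hprob : IsProbabilityMeasure μ' := isProb_sm hunc hlc hδ
    have hgood : Good μ' := good_sm hunc hlc hδ
    have hle : ∀ A : Set (E n), IsCompact A → μ A ≤ μ' (A + {x | ∀ i, |x i| ≤ 1 / ((k:ℝ) + 1)}) :=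
      fun _ hA => le_sm hunc hlc hδ hA
    have hhm : ∀ q : ℝ, 1 ≤ q → ∀ v : E n, hm μ' q v ≤ hm μ q v + 1 / ((k:ℝ) + 1) * ∑ i, |v i| :=
      fun _ hq v => hm_sm_le hunc hlc hδ hq v
    by_contra hcon
    push Not at hcon
    have hA' : IsCompact (A + cube n (1 / ((k:ℝ) + 1))) := hA.add (isCompact_cube _)
    have hB' : IsCompact (B + cube n (1 / ((k:ℝ) + 1))) := hB.add (isCompact_cube _)
    have h1 := hmg _ hδ hprob hgood _ _ hA' hB' (by
      intro x hx y hy hxy
      obtain ⟨v, hv⟩ := hcon (x, y) hx hy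
      have h2 := hxy v
      have h3 := mul_le_mul_of_nonneg_left (hhm p hp v) hc
      linarith)
    have hAle : μ.real A ≤ μ'.real (A + cube n (1 / ((k:ℝ) + 1))) :=
      ENNReal.toReal_mono (measure_ne_top μ' _) (hle A hA)
    have hBle : μ.real B ≤ μ'.real (B + cube n (1 / ((k:ℝ) + 1))) :=
      ENNReal.toReal_mono (measure_ne_top μ' _) (hle B hB)
    have hA1 : μ'.real (A + cube n (1 / ((k:ℝ) + 1))) ≤ 1 := measureReal_le_one
    have hB1 : μ'.real (B + cube n (1 / ((k:ℝ) + 1))) ≤ 1 := measureReal_le_one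
    have hA0 : 0 ≤ μ.real A := measureReal_nonneg
    have hB0 : 0 ≤ μ.real B := measureReal_nonneg
    have h2 : 2 * Real.exp p * μ.real A * μ.real B ≤ 2 * Real.exp p *
        μ'.real (A + cube n (1 / ((k:ℝ) + 1))) * μ'.real (B + cube n (1 / ((k:ℝ) + 1))) := by
      gcongr
    have h3 : (1 - μ'.real (A + cube n (1 / ((k:ℝ) + 1)))) *
        (1 - μ'.real (B + cube n (1 / ((k:ℝ) + 1)))) ≤ (1 - μ.real A) * (1 - μ.real B) := by
      apply mul_le_mul <;> linarith
    linarith
  choose z hz1 hz2 hz3 using key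
  have hk : ∀ k : ℕ, 1 / ((k:ℝ) + 1) ≤ 1 := by
    intro k
    rw [div_le_one (by positivity)]
    linarith [(Nat.cast_nonneg k : (0:ℝ) ≤ k)]
  have hmono : ∀ k : ℕ, cube n (1 / ((k:ℝ) + 1)) ⊆ cube n 1 := fun k x hx i => (hx i).trans (hk k)
  -- decompose
  have hd1 : ∀ k : ℕ, ∃ a ∈ A, (z k).1 - a ∈ cube n (1 / ((k:ℝ) + 1)) := by
    intro k
    obtain ⟨a, ha, e, he, h⟩ := hz1 k
    exact ⟨a, ha, by rw [← h]; simpa using he⟩
  have hd2 : ∀ k : ℕ, ∃ b ∈ B, (z k).2 - b ∈ cube n (1 / ((k:ℝ) + 1)) := by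
    intro k
    obtain ⟨a, ha, e, he, h⟩ := hz2 k
    exact ⟨a, ha, by rw [← h]; simpa using he⟩
  choose a haA ha using hd1
  choose b hbB hb using hd2
  obtain ⟨⟨x, y⟩, hxy, φ, hφ, hlim⟩ := (hA.prod hB).tendsto_subseq (x := fun k => (a k, b k))
    (fun k => ⟨haA k, hbB k⟩)
  refine hAB x hxy.1 y hxy.2 fun v => ?_
  have hla : Tendsto (fun k => a (φ k)) atTop (𝓝 x) := (continuous_fst.tendsto _).comp hlim
  have hlb : Tendsto (fun k => b (φ k)) atTop (𝓝 y) := (continuous_snd.tendsto _).comp hlim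
  have h1 : ∀ k : ℕ, |inner ℝ v (a k - b k)| ≤
      c * (hm μ p v + 1 / ((k:ℝ) + 1) * ∑ i, |v i|) + 2 * (1 / ((k:ℝ) + 1) * ∑ i, |v i|) := by
    intro k
    have e1 : a k - b k = ((z k).1 - (z k).2) - ((z k).1 - a k) + ((z k).2 - b k) := by abel
    have hb2 : ∀ w : E n, w ∈ cube n (1 / ((k:ℝ) + 1)) → |inner ℝ v w| ≤
        1 / ((k:ℝ) + 1) * ∑ i, |v i| := by
      intro w hw
      have h2 := inner_cube_le (δ := 1 / ((k:ℝ) + 1)) v (x := w) (y := 0) (fun i => by
        have := hw i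
        simpa using this)
      simpa using h2
    rw [e1, inner_add_right, inner_sub_right]
    have h2 := hb2 _ (ha k)
    have h3 := hb2 _ (hb k)
    have h4 := hz3 k v
    have h5 := abs_add_le (inner ℝ v ((z k).1 - (z k).2) - inner ℝ v ((z k).1 - a k))
      (inner ℝ v ((z k).2 - b k))
    have h6 := abs_sub (inner ℝ v ((z k).1 - (z k).2)) (inner ℝ v ((z k).1 - a k))
    linarith
  have hl1 : Tendsto (fun k => |inner ℝ v (a (φ k) - b (φ k))|) atTop (𝓝 |inner ℝ v (x - y)|) := by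
    have h2 : Tendsto (fun k => a (φ k) - b (φ k)) atTop (𝓝 (x - y)) := hla.sub hlb
    have h3 : Continuous fun w : E n => |inner ℝ v w| := by fun_prop
    exact (h3.tendsto _).comp h2
  have hl0 : Tendsto (fun k : ℕ => 1 / (((φ k : ℕ) : ℝ) + 1)) atTop (𝓝 0) :=
    (tendsto_one_div_add_atTop_nhds_zero_nat (𝕜 := ℝ)).comp hφ.tendsto_atTop
  have hl2 : Tendsto (fun k : ℕ => c * (hm μ p v + 1 / (((φ k : ℕ) : ℝ) + 1) * ∑ i, |v i|) +
      2 * (1 / (((φ k : ℕ) : ℝ) + 1) * ∑ i, |v i|)) atTop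
      (𝓝 (c * (hm μ p v + 0 * ∑ i, |v i|) + 2 * (0 * ∑ i, |v i|))) :=
    ((tendsto_const_nhds.add (hl0.mul_const _)).const_mul c).add ((hl0.mul_const _).const_mul 2)
  have h9 := le_of_tendsto_of_tendsto' hl1 hl2 (fun k => h1 (φ k))
  simpa using h9

/-- **main theorem, level form**: unconditional log-concave measures, all Borel sets, boxes of measure
at least `exp (-p)` -/
theorem main_unc_box [IsProbabilityMeasure μ] (hunc : Uncond μ) (hlc : LC μ) {p C Lam : ℝ}
    (hp : 2 ≤ p) (hLam : 1 ≤ Lam) (hbox : Real.exp (-p) ≤ μ.real (box μ Lam))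
    (hC : 200000000 * Lam ≤ C) {A : Set (E n)} (hA : MeasurableSet A) :
    2 * Real.exp p * μ.real A * (1 - μ.real (A + G μ p C)) ≤
      (1 - μ.real A) * μ.real (A + G μ p C) := by
  have hC0 : 0 ≤ C := by linarith
  have h5 : Real.exp 5 ≤ 148.5 := by
    have e1 : Real.exp 1 ≤ 2.7182818286 := Real.exp_one_lt_d9.le
    have : Real.exp 5 = Real.exp 1 ^ 5 := by rw [← Real.exp_nat_mul]; norm_num
    rw [this]
    calc Real.exp 1 ^ 5 ≤ (2.7182818286:ℝ) ^ 5 :=
          pow_le_pow_left₀ (Real.exp_pos 1).le e1 5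
      _ ≤ 148.5 := by norm_num
  have hCC : 207360 * Real.exp 5 * (Lam + 4) ≤ C := by
    calc 207360 * Real.exp 5 * (Lam + 4) ≤ 207360 * 148.5 * (5 * Lam) :=
          mul_le_mul (mul_le_mul_of_nonneg_left h5 (by norm_num)) (by linarith) (by linarith)
            (by norm_num)
      _ ≤ 200000000 * Lam := by linarith
      _ ≤ C := hC
  refine borel_of_pair (fun A B hA hB hAB => ?_) hA
  exact pair_limit_gen (by linarith) hC0 hunc hlc
    (fun δ hδ hP hG A B hA hB hAB => main_goodg (oneCoord n) hG hp (by linarith : 1 ≤ Lam + 4)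
      (hbox.trans (box_sm hunc hlc hδ (by linarith))) hCC hA hB hAB) hA hB hAB

end Pool.CIP
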